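import Pool.Agent.MP_f58063_ag.Defs

section

/-! Auxiliary notions for the proof: iterated directional derivatives, theta functions of level
`n`, germs of abelian functions and their transcendence degree along a germ. -/

open Complex Filter Topology

noncomputable section

namespace Pool.Agent.MP_f58063_ag

/-- the universal cover of the torus -/
abbrev EE (g : ℕ) : Type := Fin g → ℂ

/-- the standard basis vector -/
abbrev ee {g : ℕ} (i : Fin g) : EE g := Pi.single i 1

section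
variable {X : Type} [NormedAddCommGroup X] [NormedSpace ℂ X]

/-- directional derivative -/
def dv (v : X) (f : X → ℂ) : X → ℂ := fun x => fderiv ℂ f x v

/-- iterated directional derivative along a list of vectors -/
def dd : List X → (X → ℂ) → X → ℂ
  | [], f => f
  | v :: L, f => dv v (dd L f)

@[simp] lemma dd_nil (f : X → ℂ) : dd [] f = f := rfl

@[simp] lemma dd_cons (v : X) (L : List X) (f : X → ℂ) : dd (v :: L) f = dv v (dd L f) := rfl

lemma dv_apply (v : X) (f : X → ℂ) (x : X) : dv v f x = fderiv ℂ f x v := rfl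

lemma analyticAt_dv {f : X → ℂ} {x : X} (hf : AnalyticAt ℂ f x) (v : X) :
    AnalyticAt ℂ (dv v f) x :=
  ((ContinuousLinearMap.apply ℂ ℂ v).analyticAt _).comp hf.fderiv

lemma analyticAt_dd {f : X → ℂ} {x : X} (hf : AnalyticAt ℂ f x) (L : List X) :
    AnalyticAt ℂ (dd L f) x := by
  induction L with
  | nil => exact hf
  | cons v L ih => exact analyticAt_dv ih v

/-- a family of analytic functions on `Ω` closed under the ring operations and under
differentiation along the vectors `b i` -/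
structure DRing {ι : Type} (b : ι → X) (Ω : Set X) (R : Set (X → ℂ)) : Prop where
  an : ∀ f ∈ R, AnalyticOnNhd ℂ f Ω
  one : (fun _ => 1) ∈ R
  sub : ∀ f ∈ R, ∀ f' ∈ R, (fun x => f x - f' x) ∈ R
  mul : ∀ f ∈ R, ∀ f' ∈ R, (fun x => f x * f' x) ∈ R
  dv : ∀ f ∈ R, ∀ i, dv (b i) f ∈ R

end

variable {g : ℕ}

/-- iterated derivative along a list of coordinates -/
def dI (L : List (Fin g)) (f : EE g → ℂ) : EE g → ℂ := dd (L.map ee) f

@[simp] lemma dI_nil (f : EE g → ℂ) : dI [] f = f := rfl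

@[simp] lemma dI_cons (i : Fin g) (L : List (Fin g)) (f : EE g → ℂ) :
    dI (i :: L) f = dv (ee i) (dI L f) := rfl

lemma analyticAt_dI {f : EE g → ℂ} {x : EE g} (hf : AnalyticAt ℂ f x) (L : List (Fin g)) :
    AnalyticAt ℂ (dI L f) x := analyticAt_dd hf _

/-- matrices with positive definite imaginary part, an open neighbourhood of the Siegel space -/
def PosIm (g : ℕ) : Set (Mat g) :=
  {τ | ∀ v : Fin g → ℝ, v ≠ 0 → 0 < ∑ i, ∑ j, v i * (τ i j).im * v j}

lemma Siegel_sub : Siegel g ⊆ PosIm g := fun _ h => h.2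

/-- theta as a function of both variables -/
def Theta (g : ℕ) (p : Mat g × EE g) : ℂ := theta p.1 p.2

/-- the lattice vector `m + τ n` -/
def per (τ : Mat g) (m n : Fin g → ℤ) : EE g := fun i => (m i : ℂ) + ∑ j, τ i j * n j

lemma mem_lattice {τ : Mat g} {w : EE g} : w ∈ lattice τ ↔ ∃ m n, w = per τ m n := Iff.rfl

/-- the factor of automorphy of theta -/
def aut (τ : Mat g) (n : Fin g → ℤ) (z : EE g) : ℂ :=
  exp (-(Real.pi * I * ∑ i, ∑ j, (n i : ℂ) * τ i j * n j +
    2 * Real.pi * I * ∑ i, (n i : ℂ) * z i))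

lemma aut_ne (τ : Mat g) (n : Fin g → ℤ) (z : EE g) : aut τ n z ≠ 0 := exp_ne_zero _

/-- theta functions of level `N` -/
def Th (τ : Mat g) (N : ℕ) : Submodule ℂ (EE g → ℂ) where
  carrier := {h | (∀ z, AnalyticAt ℂ h z) ∧
    ∀ m n z, h (z + per τ m n) = aut τ n z ^ N * h z}
  add_mem' := fun {a b} ha hb => ⟨fun z => (ha.1 z).add (hb.1 z), fun m n z => by
    simp only [Pi.add_apply a b, ha.2, hb.2, mul_add]⟩
  zero_mem' := ⟨fun _ => analyticAt_const, fun _ _ _ => by simp⟩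
  smul_mem' := fun c a ha => ⟨fun z => (ha.1 z).const_smul, fun m n z => by
    simp only [Pi.smul_apply c a, ha.2, smul_eq_mul]
    ring⟩

lemma mem_Th {τ : Mat g} {N : ℕ} {h : EE g → ℂ} : h ∈ Th τ N ↔ (∀ z, AnalyticAt ℂ h z) ∧
    ∀ m n z, h (z + per τ m n) = aut τ n z ^ N * h z := Iff.rfl

lemma Th_mul {τ : Mat g} {M N : ℕ} {a b : EE g → ℂ} (ha : a ∈ Th τ M) (hb : b ∈ Th τ N) :
    (fun z => a z * b z) ∈ Th τ (M + N) :=
  ⟨fun z => (ha.1 z).mul (hb.1 z), fun m n z => by
    simp only [ha.2, hb.2, pow_add]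
    ring⟩

lemma Th_const (τ : Mat g) (c : ℂ) : (fun _ => c) ∈ Th τ 0 :=
  ⟨fun _ => analyticAt_const, fun _ _ _ => by simp⟩

lemma Th_pow {τ : Mat g} {M : ℕ} {a : EE g → ℂ} (ha : a ∈ Th τ M) (N : ℕ) :
    (fun z => a z ^ N) ∈ Th τ (M * N) :=
  ⟨fun z => (ha.1 z).pow N, fun m n z => by simp only [ha.2, mul_pow, pow_mul]⟩

/-- `f` agrees near `p` with an abelian function that is regular at `p` -/
def Ab (τ : Mat g) (p : EE g) (f : EE g → ℂ) : Prop :=
  ∃ N : ℕ, ∃ h ∈ Th τ N, ∃ t ∈ Th τ N, t p ≠ 0 ∧ f =ᶠ[𝓝 p] fun z => h z / t z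

/-- any `d + 1` abelian functions are algebraically dependent along the germ `y` at `x₀` -/
def TD (τ : Mat g) {X : Type} [TopologicalSpace X] (y : X → EE g) (x₀ : X) (d : ℕ) : Prop :=
  ∀ f : Fin (d + 1) → EE g → ℂ, (∀ i, Ab τ (y x₀) (f i)) →
    ∃ P : MvPolynomial (Fin (d + 1)) ℂ, P ≠ 0 ∧
      ∀ᶠ x in 𝓝 x₀, MvPolynomial.eval (fun i => f i (y x)) P = 0

/-- a matrix acting on a vector -/
def mv (A : Mat g) (e : EE g) : EE g := fun i => ∑ j, A i j * e j

end Pool.Agent.MP_f58063_ag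

end
end

section

open Complex Filter Topology Function

noncomputable section

namespace Pool.Agent.MP_f58063_ag

variable {X : Type} [NormedAddCommGroup X] [NormedSpace ℂ X]

lemma xdd_dv_dv {f : X → ℂ} {x : X} (hf : AnalyticAt ℂ f x) (v w : X) :
    dv v (dv w f) x = fderiv ℂ (fderiv ℂ f) x v w := by
  have hd : DifferentiableAt ℂ (fderiv ℂ f) x := hf.fderiv.differentiableAt
  have : fderiv ℂ (fun y => fderiv ℂ f y w) x v = fderiv ℂ (fderiv ℂ f) x v w := by
    rw [fderiv_clm_apply hd (differentiableAt_const w)]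
    simp
  exact this

theorem dv_comm {f : X → ℂ} {x : X} (hf : AnalyticAt ℂ f x) (v w : X) :
    dv v (dv w f) x = dv w (dv v f) x := by
  rw [xdd_dv_dv hf, xdd_dv_dv hf]
  exact (hf.contDiffAt.isSymmSndFDerivAt_of_omega).eq v w

lemma xdd_dv_congr {f f' : X → ℂ} {x : X} (h : f =ᶠ[𝓝 x] f') (v : X) :
    dv v f =ᶠ[𝓝 x] dv v f' := by
  filter_upwards [h.fderiv (𝕜 := ℂ)] with y hy
  simp only [dv_apply, hy]

theorem dd_congr {f f' : X → ℂ} {x : X} (h : f =ᶠ[𝓝 x] f') (L : List X) :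
    dd L f =ᶠ[𝓝 x] dd L f' := by
  induction L with
  | nil => exact h
  | cons v L ih => exact xdd_dv_congr ih v

theorem entire_zero {f : X → ℂ} (hf : ∀ x, AnalyticAt ℂ f x) {x : X}
    (h : ∀ᶠ y in 𝓝 x, f y = 0) : f = 0 := by
  have hA : AnalyticOnNhd ℂ f Set.univ := fun y _ => hf y
  have := hA.eqOn_zero_of_preconnected_of_eventuallyEq_zero
    (convex_univ (𝕜 := ℝ)).isPreconnected (Set.mem_univ x) h
  funext y
  exact this (Set.mem_univ y)

/-- analytic germs form a domain -/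
theorem germ_mul_zero {f f' : X → ℂ} {x : X} (hf : AnalyticAt ℂ f x) (hf' : AnalyticAt ℂ f' x)
    (h : ∀ᶠ y in 𝓝 x, f y * f' y = 0) : (∀ᶠ y in 𝓝 x, f y = 0) ∨ ∀ᶠ y in 𝓝 x, f' y = 0 := by
  obtain ⟨r, hr, hb⟩ := Metric.eventually_nhds_iff_ball.1
    (hf.eventually_analyticAt.and (hf'.eventually_analyticAt.and h))
  by_cases h0 : ∀ y ∈ Metric.ball x r, f y = 0
  · left
    filter_upwards [Metric.ball_mem_nhds x hr] with y hy using h0 y hy
  · right
    push Not at h0
    obtain ⟨y, hy, hfy⟩ := h0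
    have hA : AnalyticOnNhd ℂ f' (Metric.ball x r) := fun z hz => (hb z hz).2.1
    have hz : f' =ᶠ[𝓝 y] 0 := by
      filter_upwards [(hb y hy).1.continuousAt.eventually_ne hfy,
        Metric.isOpen_ball.mem_nhds hy] with z hz1 hz2
      exact (mul_eq_zero.1 (hb z hz2).2.2).resolve_left hz1
    have := hA.eqOn_zero_of_preconnected_of_eventuallyEq_zero
      (convex_ball x r).isPreconnected hy hz
    filter_upwards [Metric.ball_mem_nhds x hr] with z hz using this hz

lemma xdd_dv_add {f f' : X → ℂ} {x : X} (hf : AnalyticAt ℂ f x) (hf' : AnalyticAt ℂ f' x)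
    (v : X) : dv v (f + f') =ᶠ[𝓝 x] dv v f + dv v f' := by
  filter_upwards [hf.eventually_analyticAt, hf'.eventually_analyticAt] with y h1 h2
  simp only [dv_apply, Pi.add_apply]
  rw [fderiv_add h1.differentiableAt h2.differentiableAt]
  rfl

lemma xdd_dv_smul {f : X → ℂ} {x : X} (hf : AnalyticAt ℂ f x) (c : ℂ)
    (v : X) : dv v (c • f) =ᶠ[𝓝 x] c • dv v f := by
  filter_upwards [hf.eventually_analyticAt] with y h1
  simp only [dv_apply, Pi.smul_apply]
  rw [fderiv_const_smul h1.differentiableAt]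
  rfl

lemma xdd_dd_add {f f' : X → ℂ} {x : X} (hf : AnalyticAt ℂ f x) (hf' : AnalyticAt ℂ f' x)
    (L : List X) : dd L (f + f') =ᶠ[𝓝 x] dd L f + dd L f' := by
  induction L with
  | nil => exact EventuallyEq.rfl
  | cons v L ih =>
    exact (xdd_dv_congr ih v).trans (xdd_dv_add (analyticAt_dd hf L) (analyticAt_dd hf' L) v)

lemma xdd_iter (v : X) (f : X → ℂ) (n : ℕ) : ∀ {y : X}, AnalyticAt ℂ f y →
    iteratedFDeriv ℂ n f y (fun _ => v) = dd (List.replicate n v) f y := by
  induction n with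
  | zero => intro y _; simp
  | succ n ih =>
    intro y hy
    have hd : DifferentiableAt ℂ (iteratedFDeriv ℂ n f) y :=
      (hy.contDiffAt (n := ⊤)).differentiableAt_iteratedFDeriv (by simp)
    have h1 : (fun z => iteratedFDeriv ℂ n f z (fun _ => v)) =ᶠ[𝓝 y]
        dd (List.replicate n v) f := by
      filter_upwards [hy.eventually_analyticAt] with z hz using ih hz
    rw [iteratedFDeriv_succ_apply_left, List.replicate_succ, dd_cons, dv_apply, ← h1.fderiv_eq,
      fderiv_continuousMultilinear_apply_const_apply hd]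
    rfl

lemma xdd_zero_of_diag {f : X → ℂ} {x : X} (hf : AnalyticAt ℂ f x)
    (h : ∀ v n, dd (List.replicate n v) f x = 0) : ∀ᶠ y in 𝓝 x, f y = 0 := by
  obtain ⟨p, r, hp⟩ := hf
  have hf : AnalyticAt ℂ f x := hp.analyticAt
  have hz : ∀ n v, p n (fun _ => v) = 0 := by
    intro n v
    have := hp.factorial_smul v n
    rw [xdd_iter v f n hf, h, nsmul_eq_mul] at this
    exact (mul_eq_zero.1 this).resolve_left (by exact_mod_cast n.factorial_ne_zero)
  filter_upwards [Metric.eball_mem_nhds x hp.r_pos] with y hy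
  have := hp.hasSum_sub hy
  simp only [hz] at this
  exact this.unique hasSum_zero

/-- a family of germs vanishing at `x` and stable under differentiation consists of zero germs -/
theorem zero_of_closed {ι : Type} (b : ι → X) (hb : ⊤ ≤ Submodule.span ℂ (Set.range b))
    (J : Set (X → ℂ)) {x : X} (han : ∀ f ∈ J, AnalyticAt ℂ f x) (h0 : ∀ f ∈ J, f x = 0)
    (hd : ∀ f ∈ J, ∀ i, ∃ f' ∈ J, dv (b i) f =ᶠ[𝓝 x] f') : ∀ f ∈ J, ∀ᶠ y in 𝓝 x, f y = 0 := by
  have A : ∀ f ∈ Submodule.span ℂ J, AnalyticAt ℂ f x := by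
    intro f hf
    induction hf using Submodule.span_induction with
    | mem f hf => exact han f hf
    | zero => exact analyticAt_const
    | add f f' _ _ h1 h2 => exact h1.add h2
    | smul c f _ h1 => exact h1.const_smul
  have Z : ∀ f ∈ Submodule.span ℂ J, f x = 0 := by
    intro f hf
    induction hf using Submodule.span_induction with
    | mem f hf => exact h0 f hf
    | zero => rfl
    | add f f' _ _ h1 h2 => simp [h1, h2]
    | smul c f _ h1 => simp [h1]
  have D0 : ∀ f ∈ J, ∀ v : X, ∃ f' ∈ Submodule.span ℂ J, dv v f =ᶠ[𝓝 x] f' := by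
    intro f hf v
    have hv : v ∈ Submodule.span ℂ (Set.range b) := hb trivial
    induction hv using Submodule.span_induction with
    | mem v hv =>
      obtain ⟨i, rfl⟩ := hv
      obtain ⟨f', h1, h2⟩ := hd f hf i
      exact ⟨f', Submodule.subset_span h1, h2⟩
    | zero => exact ⟨0, Submodule.zero_mem _, Eventually.of_forall fun y => by simp [dv_apply]⟩
    | add v w _ _ h1 h2 =>
      obtain ⟨f1, a1, b1⟩ := h1
      obtain ⟨f2, a2, b2⟩ := h2
      refine ⟨f1 + f2, Submodule.add_mem _ a1 a2, ?_⟩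
      filter_upwards [b1, b2] with y e1 e2
      simp only [dv_apply] at e1 e2 ⊢
      rw [map_add, e1, e2]
      rfl
    | smul c v _ h1 =>
      obtain ⟨f1, a1, b1⟩ := h1
      refine ⟨c • f1, Submodule.smul_mem _ c a1, ?_⟩
      filter_upwards [b1] with y e1
      simp only [dv_apply] at e1 ⊢
      rw [map_smul, e1]
      rfl
  have D : ∀ v : X, ∀ f ∈ Submodule.span ℂ J, ∃ f' ∈ Submodule.span ℂ J,
      dv v f =ᶠ[𝓝 x] f' := by
    intro v f hf
    induction hf using Submodule.span_induction with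
    | mem f hf => exact D0 f hf v
    | zero =>
      refine ⟨0, Submodule.zero_mem _, Eventually.of_forall fun y => ?_⟩
      simp [dv_apply]
    | add f f' hf hf' h1 h2 =>
      obtain ⟨f1, a1, b1⟩ := h1
      obtain ⟨f2, a2, b2⟩ := h2
      exact ⟨f1 + f2, Submodule.add_mem _ a1 a2,
        (xdd_dv_add (A f hf) (A f' hf') v).trans (b1.add b2)⟩
    | smul c f hf h1 =>
      obtain ⟨f1, a1, b1⟩ := h1
      refine ⟨c • f1, Submodule.smul_mem _ c a1, (xdd_dv_smul (A f hf) c v).trans ?_⟩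
      filter_upwards [b1] with y e1
      simp only [Pi.smul_apply, e1]
  intro f hf
  refine xdd_zero_of_diag (han f hf) fun v n => ?_
  have : ∃ f' ∈ Submodule.span ℂ J, dd (List.replicate n v) f =ᶠ[𝓝 x] f' := by
    induction n with
    | zero => exact ⟨f, Submodule.subset_span hf, EventuallyEq.rfl⟩
    | succ n ih =>
      obtain ⟨f1, a1, b1⟩ := ih
      obtain ⟨f2, a2, b2⟩ := D v f1 a1
      exact ⟨f2, a2, (xdd_dv_congr b1 v).trans b2⟩
  obtain ⟨f', a, e⟩ := this
  rw [e.eq_of_nhds, Z f' a]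

variable {g : ℕ}

lemma xdd_sum_ee (v : EE g) : v = ∑ i, v i • ee i := by
  funext j
  simp [Finset.sum_apply, Pi.single_apply]

theorem fderiv_eq_sum (f : EE g → ℂ) (x v : EE g) :
    fderiv ℂ f x v = ∑ i, v i * dv (ee i) f x := by
  conv_lhs => rw [xdd_sum_ee v]
  simp only [map_sum, map_smul, smul_eq_mul, dv_apply]

theorem zero_of_dI {f : EE g → ℂ} {x : EE g} (hf : AnalyticAt ℂ f x)
    (h : ∀ L, dI L f x = 0) : ∀ᶠ y in 𝓝 x, f y = 0 := by
  refine zero_of_closed (fun i : Fin g => (ee i : EE g)) ?_ (Set.range fun L => dI L f) ?_ ?_ ?_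
    f ⟨[], rfl⟩
  · intro v _
    rw [xdd_sum_ee v]
    exact Submodule.sum_mem _ fun i _ => Submodule.smul_mem _ _ (Submodule.subset_span ⟨i, rfl⟩)
  · rintro _ ⟨L, rfl⟩
    exact analyticAt_dI hf L
  · rintro _ ⟨L, rfl⟩
    exact h L
  · rintro _ ⟨L, rfl⟩ i
    exact ⟨_, ⟨i :: L, rfl⟩, EventuallyEq.rfl⟩

lemma xdd_dI_concat (L : List (Fin g)) (i : Fin g) (f : EE g → ℂ) :
    dI (L ++ [i]) f = dI L (dv (ee i) f) := by
  induction L with
  | nil => rfl
  | cons j L ih => rw [List.cons_append, dI_cons, dI_cons, ih]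

lemma xdd_dv_mul {η f : X → ℂ} {x : X} (hη : AnalyticAt ℂ η x) (hf : AnalyticAt ℂ f x) (v : X) :
    dv v (fun z => η z * f z) =ᶠ[𝓝 x]
      (fun z => dv v η z * f z) + fun z => η z * dv v f z := by
  filter_upwards [hη.eventually_analyticAt, hf.eventually_analyticAt] with y h1 h2
  simp only [dv_apply, Pi.add_apply]
  rw [fderiv_fun_mul h1.differentiableAt h2.differentiableAt]
  simp only [add_apply, smul_apply, smul_eq_mul]
  ring

/-- Leibniz rule at a zero of order at least `m` -/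
theorem dI_mul_unit {η f : EE g → ℂ} {x : EE g} (hη : AnalyticAt ℂ η x) (hf : AnalyticAt ℂ f x)
    {m : ℕ} (h : ∀ L : List (Fin g), L.length < m → dI L f x = 0) (L : List (Fin g))
    (hL : L.length ≤ m) : dI L (fun z => η z * f z) x = η x * dI L f x := by
  induction L using List.reverseRecOn generalizing η f m with
  | nil => rfl
  | append_singleton L i ih =>
    have hlen : L.length < m := by
      rw [List.length_append, List.length_singleton] at hL
      omega
    have hη' := analyticAt_dv hη (ee i)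
    have hf' := analyticAt_dv hf (ee i)
    have e1 : dI L (dv (ee i) fun z => η z * f z) x =
        dI L (fun z => dv (ee i) η z * f z) x + dI L (fun z => η z * dv (ee i) f z) x := by
      have a := (dd_congr (xdd_dv_mul hη hf (ee i)) (L.map ee)).eq_of_nhds
      have b := (xdd_dd_add (hη'.mul hf) (hη.mul hf') (L.map ee)).eq_of_nhds
      exact a.trans b
    rw [xdd_dI_concat, xdd_dI_concat, e1, ih hη' hf h hlen.le, h L hlen, mul_zero, zero_add]
    refine ih hη hf' (m := L.length) (fun L2 h2 => ?_) le_rfl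
    rw [← xdd_dI_concat]
    apply h
    rw [List.length_append, List.length_singleton]
    omega

theorem dd_slice {F : X × EE g → ℂ} {y : X} {z : EE g} (hF : AnalyticAt ℂ F (y, z))
    (L : List (Fin g)) :
    dd (L.map fun i => ((0 : X), ee i)) F (y, z) = dI L (fun w => F (y, w)) z := by
  induction L generalizing z with
  | nil => rfl
  | cons i L ih =>
    have hin : HasFDerivAt (fun w : EE g => (y, w)) (ContinuousLinearMap.inr ℂ X (EE g)) z :=
      hasFDerivAt_prodMk_right y z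
    have hG := analyticAt_dd hF (L.map fun i => ((0 : X), ee i))
    have h1 : (fun w => dd (L.map fun i => ((0 : X), ee i)) F (y, w)) =ᶠ[𝓝 z]
        dI L (fun w => F (y, w)) := by
      filter_upwards [hin.continuousAt.eventually hF.eventually_analyticAt] with w hw using ih hw
    have h2 := (hG.differentiableAt.hasFDerivAt.comp z hin).fderiv
    rw [List.map_cons, dd_cons, dI_cons, dv_apply, dv_apply, ← h1.fderiv_eq]
    have h3 : (fun w => dd (L.map fun i => ((0 : X), ee i)) F (y, w)) =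
        dd (L.map fun i => ((0 : X), ee i)) F ∘ fun w : EE g => (y, w) := rfl
    rw [h3, h2]
    rfl

theorem dd_vert {Y : Type} [NormedAddCommGroup Y] [NormedSpace ℂ Y] {ψ : Y → X}
    {F : X × EE g → ℂ} {y : Y} {z : EE g} (hψ : AnalyticAt ℂ ψ y) (hF : AnalyticAt ℂ F (ψ y, z))
    (L : List (Fin g)) :
    dd (L.map fun i => ((0 : Y), ee i)) (fun p : Y × EE g => F (ψ p.1, p.2)) =ᶠ[𝓝 (y, z)]
      fun p => dd (L.map fun i => ((0 : X), ee i)) F (ψ p.1, p.2) := by
  have hΨ : AnalyticAt ℂ (fun p : Y × EE g => (ψ p.1, p.2)) (y, z) :=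
    (hψ.comp_of_eq analyticAt_fst rfl).prod analyticAt_snd
  have hC : AnalyticAt ℂ (fun p : Y × EE g => F (ψ p.1, p.2)) (y, z) :=
    hF.comp_of_eq hΨ rfl
  filter_upwards [hC.eventually_analyticAt,
    hΨ.continuousAt.eventually hF.eventually_analyticAt] with p h1 h2
  obtain ⟨a, c⟩ := p
  rw [dd_slice h1 L]
  exact (dd_slice h2 L).symm

end Pool.Agent.MP_f58063_ag

end
end

section

open Complex Filter Topology Function

noncomputable section

namespace Pool.Agent.MP_f58063_ag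

variable {g : ℕ} {τ : Mat g}
variable {p : EE g} {f f' : EE g → ℂ}

theorem xab_ne {N : ℕ} {t : EE g → ℂ} (ht : t ∈ Th τ N) (h0 : t p ≠ 0) : ∀ᶠ z in 𝓝 p, t z ≠ 0 :=
  (ht.1 p).continuousAt.eventually_ne h0

theorem Ab.analyticAt (h : Ab τ p f) : AnalyticAt ℂ f p := by
  obtain ⟨N, a, ha, t, ht, h0, e⟩ := h
  exact ((ha.1 p).div (ht.1 p) h0).congr e.symm

theorem Ab.congr (h : Ab τ p f) (e : f =ᶠ[𝓝 p] f') : Ab τ p f' := by
  obtain ⟨N, a, ha, t, ht, h0, e'⟩ := h
  exact ⟨N, a, ha, t, ht, h0, e.symm.trans e'⟩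

theorem Ab.eventually (h : Ab τ p f) : ∀ᶠ q in 𝓝 p, Ab τ q f := by
  obtain ⟨N, a, ha, t, ht, h0, e⟩ := h
  filter_upwards [xab_ne ht h0, e.eventuallyEq_nhds] with q h₁ h₂
  exact ⟨N, a, ha, t, ht, h₁, h₂⟩

theorem Ab.const (τ : Mat g) (p : EE g) (c : ℂ) : Ab τ p fun _ => c :=
  ⟨0, _, Th_const τ c, _, Th_const τ 1, one_ne_zero, Eventually.of_forall fun _ => by simp⟩

theorem Ab.add (h : Ab τ p f) (h' : Ab τ p f') : Ab τ p fun z => f z + f' z := by
  obtain ⟨N, a, ha, t, ht, h0, e⟩ := h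
  obtain ⟨N', a', ha', t', ht', h0', e'⟩ := h'
  refine ⟨N + N', _, add_mem (Th_mul ha ht') (Th_mul ht ha'), _, Th_mul ht ht',
    mul_ne_zero h0 h0', ?_⟩
  filter_upwards [xab_ne ht h0, xab_ne ht' h0', e, e'] with z h₁ h₂ h₃ h₄
  rw [h₃, h₄, div_add_div _ _ h₁ h₂]
  rfl

theorem Ab.mul (h : Ab τ p f) (h' : Ab τ p f') : Ab τ p fun z => f z * f' z := by
  obtain ⟨N, a, ha, t, ht, h0, e⟩ := h
  obtain ⟨N', a', ha', t', ht', h0', e'⟩ := h'
  refine ⟨N + N', _, Th_mul ha ha', _, Th_mul ht ht', mul_ne_zero h0 h0', ?_⟩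
  filter_upwards [e, e'] with z h₃ h₄
  rw [h₃, h₄, div_mul_div_comm]

theorem Ab.sub (h : Ab τ p f) (h' : Ab τ p f') : Ab τ p fun z => f z - f' z :=
  (h.add ((Ab.const τ p (-1)).mul h')).congr (Eventually.of_forall fun z => by
    simp only [neg_one_mul, sub_eq_add_neg])

theorem Ab.div (h : Ab τ p f) (h' : Ab τ p f') (h0 : f' p ≠ 0) : Ab τ p fun z => f z / f' z := by
  obtain ⟨N', a', ha', t', ht', h0', e'⟩ := h'
  have h1 : a' p ≠ 0 := fun h2 => h0 (by simp only [e'.self_of_nhds, h2, zero_div])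
  have hi : Ab τ p fun z => (f' z)⁻¹ := by
    refine ⟨N', _, ht', _, ha', h1, ?_⟩
    filter_upwards [e'] with z h₃
    rw [h₃, inv_div]
  exact (h.mul hi).congr (Eventually.of_forall fun z => by simp only [div_eq_mul_inv])

theorem Ab.sum {ι : Type} (s : Finset ι) {F : ι → EE g → ℂ} (h : ∀ i ∈ s, Ab τ p (F i)) :
    Ab τ p fun z => ∑ i ∈ s, F i z := by
  classical
  induction s using Finset.induction_on with
  | empty => simpa using Ab.const τ p 0
  | insert a s ha ih =>
    simp only [Finset.sum_insert ha]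
    exact (h a (Finset.mem_insert_self _ _)).add
      (ih fun i hi => h i (Finset.mem_insert_of_mem hi))

theorem Ab.eval {ι : Type} {F : ι → EE g → ℂ} (h : ∀ i, Ab τ p (F i)) (P : MvPolynomial ι ℂ) :
    Ab τ p fun z => MvPolynomial.eval (fun i => F i z) P := by
  induction P using MvPolynomial.induction_on with
  | C a => simpa using Ab.const τ p a
  | add P Q hP hQ => simpa using hP.add hQ
  | mul_X P i hP => simpa using hP.mul (h i)

theorem xab_aut (τ : Mat g) (n : Fin g → ℤ) (z : EE g) : DifferentiableAt ℂ (aut τ n) z := by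
  unfold aut
  fun_prop

theorem xab_dv {N : ℕ} {h : EE g → ℂ} (hh : h ∈ Th τ N) (v : EE g) (m n : Fin g → ℤ) (z : EE g) :
    dv v h (z + per τ m n) = aut τ n z ^ N * dv v h z +
      dv v (fun w => aut τ n w ^ N) z * h z := by
  have e : (fun w => h (w + per τ m n)) = fun w => aut τ n w ^ N * h w := funext (hh.2 m n)
  have h1 : fderiv ℂ (fun w => h (w + per τ m n)) z = fderiv ℂ h (z + per τ m n) :=
    fderiv_comp_add_right _
  rw [dv_apply, ← h1, e, fderiv_fun_mul ((xab_aut τ n z).fun_pow N) (hh.1 z).differentiableAt]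
  simp only [dv_apply, ContinuousLinearMap.add_apply, ContinuousLinearMap.smul_apply, smul_eq_mul]
  ring

theorem Th_wronski {N : ℕ} {h t : EE g → ℂ} (hh : h ∈ Th τ N) (ht : t ∈ Th τ N) (v : EE g) :
    (fun z => t z * dv v h z - h z * dv v t z) ∈ Th τ (N + N) := by
  refine ⟨fun z => ((ht.1 z).mul (analyticAt_dv (hh.1 z) v)).sub
    ((hh.1 z).mul (analyticAt_dv (ht.1 z) v)), fun m n z => ?_⟩
  simp only [xab_dv hh, xab_dv ht, hh.2, ht.2, pow_add]
  ring

theorem Ab.dv (h : Ab τ p f) (v : EE g) : Ab τ p (dv v f) := by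
  obtain ⟨N, a, ha, t, ht, h0, e⟩ := h
  refine ⟨N + N, _, Th_wronski ha ht v, _, Th_mul ht ht, mul_ne_zero h0 h0, ?_⟩
  filter_upwards [xab_ne ht h0, e.eventuallyEq_nhds] with z h₁ h₂
  have ea : (fun w => a w / t w) = fun w => a w * (t w)⁻¹ := funext fun w => div_eq_mul_inv _ _
  have hd := (ha.1 z).differentiableAt.hasFDerivAt.fun_mul
    ((hasFDerivAt_inv h₁).comp z (ht.1 z).differentiableAt.hasFDerivAt)
  rw [dv_apply, h₂.fderiv_eq, ea]
  erw [hd.fderiv]
  simp only [dv_apply, ContinuousLinearMap.add_apply, ContinuousLinearMap.smul_apply, smul_eq_mul,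
    ContinuousLinearMap.comp_apply, ContinuousLinearMap.toSpanSingleton_apply, Function.comp_apply]
  field_simp
  ring

theorem Ab.dI (h : Ab τ p f) (L : List (Fin g)) : Ab τ p (dI L f) := by
  induction L with
  | nil => exact h
  | cons i L ih => exact ih.dv _

/-- common denominators -/
theorem Ab_common {ι : Type} [Finite ι] {F : ι → EE g → ℂ} (h : ∀ i, Ab τ p (F i)) :
    ∃ (N : ℕ) (t : EE g → ℂ) (H : ι → EE g → ℂ), t ∈ Th τ N ∧ t p ≠ 0 ∧ (∀ i, H i ∈ Th τ N) ∧
      ∀ i, F i =ᶠ[𝓝 p] fun z => H i z / t z := by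
  classical
  have key : ∀ s : Finset ι, ∃ (N : ℕ) (t : EE g → ℂ), t ∈ Th τ N ∧ t p ≠ 0 ∧
      ∀ i ∈ s, ∃ H ∈ Th τ N, F i =ᶠ[𝓝 p] fun z => H z / t z := by
    intro s
    induction s using Finset.induction_on with
    | empty => exact ⟨0, _, Th_const τ 1, one_ne_zero, fun i hi => absurd hi (by simp)⟩
    | insert a s ha ih =>
      obtain ⟨N, t, ht, h0, hs⟩ := ih
      obtain ⟨N', a', ha', t', ht', h0', e'⟩ := h a
      refine ⟨N + N', _, Th_mul ht ht', mul_ne_zero h0 h0', fun i hi => ?_⟩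
      rcases Finset.mem_insert.1 hi with rfl | hi
      · refine ⟨_, Th_mul ht ha', ?_⟩
        filter_upwards [xab_ne ht h0, e'] with z h₁ h₂
        rw [h₂, mul_div_mul_left _ _ h₁]
      · obtain ⟨H, hH, e⟩ := hs i hi
        refine ⟨_, Th_mul hH ht', ?_⟩
        filter_upwards [xab_ne ht' h0', e] with z h₁ h₂
        rw [h₂, mul_div_mul_right _ _ h₁]
  have := Fintype.ofFinite ι
  obtain ⟨N, t, ht, h0, hs⟩ := key Finset.univ
  choose H hH e using fun i => hs i (Finset.mem_univ i)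
  exact ⟨N, t, H, ht, h0, hH, e⟩

theorem Ab_DRing {ι : Type} (τ : Mat g) (b : ι → EE g) (Ω : Set (EE g)) :
    DRing b Ω {f | ∀ p ∈ Ω, Ab τ p f} :=
  ⟨fun _ hf p hp => (hf p hp).analyticAt, fun p _ => Ab.const τ p 1,
    fun _ hf _ hf' p hp => (hf p hp).sub (hf' p hp),
    fun _ hf _ hf' p hp => (hf p hp).mul (hf' p hp), fun _ hf i p hp => (hf p hp).dv (b i)⟩

end Pool.Agent.MP_f58063_ag

end
end

section

open Complex Filter Topology Function

noncomputable section

namespace Pool.Agent.MP_f58063_ag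

variable {X : Type} [NormedAddCommGroup X] [NormedSpace ℂ X]

theorem DRing_all {ι : Type} (b : ι → X) (Ω : Set X) :
    DRing b Ω {f | AnalyticOnNhd ℂ f Ω} := by
  exact ⟨fun _ hf => hf, analyticOnNhd_const, fun _ hf _ hf' => AnalyticOnNhd.sub hf hf',
    fun _ hf _ hf' => AnalyticOnNhd.mul hf hf', fun _ hf _ x hx => analyticAt_dv (hf x hx) _⟩

/-- the stages of the closure of `S` under the operations of a `DRing` -/
def xbaireT {ι : Type} (b : ι → X) (S : Set (X → ℂ)) : ℕ → Set (X → ℂ)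
  | 0 => S
  | n + 1 => xbaireT b S n ∪ {fun _ => 1} ∪
      Set.image2 (fun f f' x => f x - f' x) (xbaireT b S n) (xbaireT b S n) ∪
      Set.image2 (fun f f' x => f x * f' x) (xbaireT b S n) (xbaireT b S n) ∪
      ⋃ i, dv (b i) '' xbaireT b S n

lemma xbaire_mono {ι : Type} (b : ι → X) (S : Set (X → ℂ)) : Monotone (xbaireT b S) :=
  monotone_nat_of_le_succ fun _ _ hf => Or.inl (Or.inl (Or.inl (Or.inl hf)))

lemma xbaire_count {ι : Type} [Countable ι] (b : ι → X) {S : Set (X → ℂ)} (hc : S.Countable)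
    (n : ℕ) : (xbaireT b S n).Countable := by
  induction n with
  | zero => exact hc
  | succ n ih =>
    exact (((ih.union (Set.countable_singleton _)).union (ih.image2 ih _)).union
      (ih.image2 ih _)).union (Set.countable_iUnion fun i => ih.image _)

lemma xbaire_sub {ι : Type} {b : ι → X} {Ω : Set X} {B S : Set (X → ℂ)}
    (hB : DRing b Ω B) (hS : S ⊆ B) (n : ℕ) : xbaireT b S n ⊆ B := by
  induction n with
  | zero => exact hS
  | succ n ih =>
    rintro f ((((hf | hf) | ⟨u, hu, v, hv, rfl⟩) | ⟨u, hu, v, hv, rfl⟩) | hf)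
    · exact ih hf
    · rw [Set.mem_singleton_iff.1 hf]
      exact hB.one
    · exact hB.sub u (ih hu) v (ih hv)
    · exact hB.mul u (ih hu) v (ih hv)
    · obtain ⟨i, u, hu, rfl⟩ := Set.mem_iUnion.1 hf
      exact hB.dv u (ih hu) i

theorem exists_DRing {ι : Type} [Countable ι] {b : ι → X} {Ω : Set X} {B S : Set (X → ℂ)}
    (hB : DRing b Ω B) (hS : S ⊆ B) (hc : S.Countable) :
    ∃ R, DRing b Ω R ∧ S ⊆ R ∧ R ⊆ B ∧ R.Countable := by
  have hsub : (⋃ n, xbaireT b S n) ⊆ B := Set.iUnion_subset (xbaire_sub hB hS)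
  refine ⟨⋃ n, xbaireT b S n, ⟨fun f hf => hB.an f (hsub hf), ?_, ?_, ?_, ?_⟩,
    Set.subset_iUnion (xbaireT b S) 0, hsub, Set.countable_iUnion (xbaire_count b hc)⟩
  · exact Set.mem_iUnion.2 ⟨1, Or.inl (Or.inl (Or.inl (Or.inr rfl)))⟩
  · intro f hf f' hf'
    obtain ⟨m, hm⟩ := Set.mem_iUnion.1 hf
    obtain ⟨n, hn⟩ := Set.mem_iUnion.1 hf'
    exact Set.mem_iUnion.2 ⟨max m n + 1, Or.inl (Or.inl (Or.inr
      ⟨f, xbaire_mono b S (le_max_left m n) hm, f', xbaire_mono b S (le_max_right m n) hn, rfl⟩))⟩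
  · intro f hf f' hf'
    obtain ⟨m, hm⟩ := Set.mem_iUnion.1 hf
    obtain ⟨n, hn⟩ := Set.mem_iUnion.1 hf'
    exact Set.mem_iUnion.2 ⟨max m n + 1, Or.inl (Or.inr
      ⟨f, xbaire_mono b S (le_max_left m n) hm, f', xbaire_mono b S (le_max_right m n) hn, rfl⟩)⟩
  · intro f hf i
    obtain ⟨m, hm⟩ := Set.mem_iUnion.1 hf
    exact Set.mem_iUnion.2 ⟨m + 1, Or.inr (Set.mem_iUnion.2 ⟨i, f, hm, rfl⟩)⟩

theorem residual_ne {R : Set (X → ℂ)} (hc : R.Countable) {B : Set X} (hB : IsOpen B)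
    (hB' : IsPreconnected B) (han : ∀ f ∈ R, AnalyticOnNhd ℂ f B ∧ ∃ x ∈ B, f x ≠ 0) :
    {x | x ∈ B → ∀ f ∈ R, f x ≠ 0} ∈ residual X := by
  have key : ∀ f ∈ R, {x | x ∈ B → f x ≠ 0} ∈ residual X := by
    intro f hf
    obtain ⟨ha, x₁, hx₁, hne⟩ := han f hf
    have ho : IsOpen (B ∩ f ⁻¹' {0}ᶜ ∪ (closure B)ᶜ) :=
      (ha.continuousOn.isOpen_inter_preimage hB isOpen_compl_singleton).union
        isClosed_closure.isOpen_compl
    have hd : Dense (B ∩ f ⁻¹' {0}ᶜ ∪ (closure B)ᶜ) := by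
      rw [dense_iff_inter_open]
      intro U hU ⟨u, hu⟩
      by_cases hUB : (U ∩ B).Nonempty
      · by_contra hcon
        obtain ⟨y, hyU, hyB⟩ := hUB
        have hz : f =ᶠ[𝓝 y] 0 := by
          filter_upwards [(hU.inter hB).mem_nhds ⟨hyU, hyB⟩] with z hz
          by_contra hz0
          exact hcon ⟨z, hz.1, Or.inl ⟨hz.2, hz0⟩⟩
        exact hne (ha.eqOn_zero_of_preconnected_of_eventuallyEq_zero hB' hyB hz hx₁)
      · refine ⟨u, hu, Or.inr fun hcl => hUB ?_⟩
        exact mem_closure_iff.1 hcl U hU hu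
    filter_upwards [residual_of_dense_open ho hd] with x hx hxB
    rcases hx with hx | hx
    · exact hx.2
    · exact absurd (subset_closure hxB) hx
  filter_upwards [(countable_bInter_mem hc).2 key] with x hx hxB f hf
  exact Set.mem_iInter₂.1 hx f hf hxB

/-- a point which is generic for countably many analytic functions -/
theorem generic_point [CompleteSpace X] {R : Set (X → ℂ)} (hc : R.Countable) {x₀ : X} {U : Set X}
    (hU : U ∈ 𝓝 x₀) (han : ∀ f ∈ R, AnalyticOnNhd ℂ f U) :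
    ∃ x ∈ interior U, ∀ f ∈ R, f x = 0 → ∀ᶠ y in 𝓝 x, f y = 0 := by
  obtain ⟨r, hr, hball⟩ := Metric.mem_nhds_iff.1 (interior_mem_nhds.2 hU)
  have hres := residual_ne (R := {f ∈ R | ∃ x ∈ Metric.ball x₀ r, f x ≠ 0})
    (hc.mono fun _ h => h.1) Metric.isOpen_ball (convex_ball x₀ r).isPreconnected
    (fun f hf => ⟨(han f hf.1).mono (hball.trans interior_subset), hf.2⟩)
  obtain ⟨x, hxB, hx⟩ := (dense_of_mem_residual hres).inter_open_nonempty _ Metric.isOpen_ball
    ⟨x₀, Metric.mem_ball_self hr⟩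
  refine ⟨x, hball hxB, fun f hf hfx => ?_⟩
  filter_upwards [Metric.isOpen_ball.mem_nhds hxB] with y hy
  by_contra hy0
  exact hx hxB f ⟨hf, y, hy, hy0⟩ hfx

/-- surjectivity is an open condition -/
theorem eventually_surj [FiniteDimensional ℂ X] {Y : Type} [NormedAddCommGroup Y]
    [NormedSpace ℂ Y] [FiniteDimensional ℂ Y] {h : X → Y} {p : X} (hh : AnalyticAt ℂ h p)
    (hs : Surjective (fderiv ℂ h p)) : ∀ᶠ x in 𝓝 p, Surjective (fderiv ℂ h x) := by
  have : CompleteSpace Y := FiniteDimensional.complete ℂ Y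
  obtain ⟨s, hs'⟩ := (fderiv ℂ h p : X →ₗ[ℂ] Y).exists_rightInverse_of_surjective
    (LinearMap.range_eq_top.2 hs)
  let s' : Y →L[ℂ] X := LinearMap.toContinuousLinearMap s
  have hc : ContinuousAt (fun x => (fderiv ℂ h x).comp s') p :=
    hh.fderiv.continuousAt.clm_comp continuousAt_const
  have hp : Injective ((fderiv ℂ h p).comp s') := by
    intro u v huv
    have hu := LinearMap.congr_fun hs' u
    have hv := LinearMap.congr_fun hs' v
    exact hu.symm.trans (Eq.trans huv hv)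
  filter_upwards [hc.eventually (ContinuousLinearMap.isOpen_injective.mem_nhds hp)] with x hx
  have hsurj : Surjective (((fderiv ℂ h x).comp s' : Y →L[ℂ] Y) : Y →ₗ[ℂ] Y) :=
    LinearMap.injective_iff_surjective.1 hx
  intro y
  obtain ⟨u, hu⟩ := hsurj y
  exact ⟨s' u, hu⟩

/-- injectivity is an open condition -/
theorem eventually_inj [FiniteDimensional ℂ X] {Y : Type} [NormedAddCommGroup Y]
    [NormedSpace ℂ Y] [FiniteDimensional ℂ Y] {h : X → Y} {p : X} (hh : AnalyticAt ℂ h p)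
    (hs : Injective (fderiv ℂ h p)) : ∀ᶠ x in 𝓝 p, Injective (fderiv ℂ h x) := by
  have : CompleteSpace Y := FiniteDimensional.complete ℂ Y
  exact hh.fderiv.continuousAt.eventually (ContinuousLinearMap.isOpen_injective.mem_nhds hs)

end Pool.Agent.MP_f58063_ag

end
end

section

open Complex Filter Topology Function

noncomputable section

namespace Pool.Agent.MP_f58063_ag

section
variable {V : Type} [NormedAddCommGroup V] [NormedSpace ℝ V] [FiniteDimensional ℝ V]

/-- a closed subgroup without lines is discrete -/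
theorem xlat_disc (K : AddSubgroup V) (hK : IsClosed (K : Set V))
    (h : ∀ u, (∀ t : ℝ, t • u ∈ K) → u = 0) : ∃ ε > 0, ∀ x ∈ K, ‖x‖ < ε → x = 0 := by
  by_contra hn
  push Not at hn
  choose a ha hlt hne using fun n : ℕ => hn (1 / ((n : ℝ) + 1)) Nat.one_div_pos_of_nat
  have hpos : ∀ n, 0 < ‖a n‖ := fun n => norm_pos_iff.2 (hne n)
  have := FiniteDimensional.proper_real V
  obtain ⟨v, hv, φ, hφ, hlim⟩ := (isCompact_sphere (0 : V) 1).tendsto_subseq
    (x := fun n => ‖a n‖⁻¹ • a n) fun n => by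
      simp [norm_smul, (hpos n).ne']
  have h0 : Tendsto (fun n => ‖a (φ n)‖) atTop (𝓝 0) :=
    (squeeze_zero (fun n => norm_nonneg _) (fun n => (hlt n).le)
      tendsto_one_div_add_atTop_nhds_zero_nat).comp hφ.tendsto_atTop
  have hv0 : v = 0 := h v fun t => by
    have h1 : Tendsto (fun n => (⌊t / ‖a (φ n)‖⌋ : ℝ) * ‖a (φ n)‖) atTop (𝓝 t) := by
      refine tendsto_of_tendsto_of_tendsto_of_le_of_le (g := fun n => t - ‖a (φ n)‖)
        (by simpa using h0.const_sub t) tendsto_const_nhds (fun n => ?_) fun n => ?_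
      · have h2 := (div_lt_iff₀ (hpos (φ n))).1 (Int.lt_floor_add_one (t / ‖a (φ n)‖))
        linarith
      · exact (le_div_iff₀ (hpos _)).1 (Int.floor_le _)
    refine hK.mem_of_tendsto (h1.smul hlim) (Eventually.of_forall fun n => ?_)
    rw [comp_apply, smul_smul, mul_assoc, mul_inv_cancel₀ (hpos _).ne', mul_one,
      Int.cast_smul_eq_zsmul]
    exact K.zsmul_mem (ha _) _
  simp [hv0] at hv

/-- the largest subspace of a closed subgroup containing a cocompact subgroup is rational -/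
theorem xlat_span (G Λ : AddSubgroup V) (hG : IsClosed (G : Set V)) (F : Submodule ℝ V)
    (hF : ∀ a, a ∈ F ↔ ∀ t : ℝ, t • a ∈ G) (hΛ : Λ ≤ G) (r : ℝ)
    (hr : ∀ z, ∃ l ∈ Λ, ‖z - l‖ ≤ r) {a : V} (ha : a ∈ F) :
    a ∈ Submodule.span ℝ ((Λ : Set V) ∩ F) := by
  obtain ⟨F₂, hc⟩ := F.exists_isCompl
  have hFG : ∀ x ∈ F, x ∈ G := fun x hx => by simpa using (hF x).1 hx 1
  obtain ⟨ε, hε, hd⟩ := xlat_disc (G ⊓ F₂.toAddSubgroup)
    (hG.inter F₂.closed_of_finiteDimensional) fun u hu =>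
      Submodule.disjoint_def.1 hc.disjoint u ((hF u).2 fun t => (hu t).1)
        (by simpa using (hu 1).2)
  set P := F₂.projection F hc.symm
  have hP : ∀ x ∈ G, ‖P x‖ < ε → x ∈ F := fun x hx h => by
    refine (Submodule.projection_apply_eq_zero_iff hc.symm).1
      (hd _ ⟨?_, Submodule.projection_apply_mem _ _⟩ h)
    rw [eq_sub_of_add_eq' (Submodule.projection_add_projection_eq_self hc x)]
    exact G.sub_mem hx (hFG _ (Submodule.projection_apply_mem _ _))
  choose l hl hb using fun k : ℕ => hr ((k : ℝ) • a)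
  have := FiniteDimensional.proper_real V
  obtain ⟨b, -, φ, hφ, hlim⟩ := (isCompact_closedBall (0 : V) r).tendsto_subseq
    (x := fun k => (k : ℝ) • a - l k) fun k => by simpa using hb k
  set c : ℕ → ℝ := fun n => (φ (n + 1) : ℝ) - φ n with hcd
  set μ : ℕ → V := fun n => l (φ (n + 1)) - l (φ n) with hμ
  have hc1 : ∀ n, 1 ≤ c n := fun n => by
    have h1 : ((φ n + 1 : ℕ) : ℝ) ≤ φ (n + 1) := Nat.cast_le.2 (hφ n.lt_succ_self)
    push_cast at h1
    simp only [hcd]
    linarith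
  have h1 : Tendsto (fun n => c n • a - μ n) atTop (𝓝 0) := by
    have h2 := ((tendsto_add_atTop_iff_nat 1).2 hlim).sub hlim
    rw [sub_self] at h2
    refine h2.congr fun n => ?_
    simp only [hcd, hμ, comp_apply, sub_smul]
    abel
  have h2 : ∀ᶠ n in atTop, ‖P (c n • a - μ n)‖ < ε := by
    have h3 := (P.continuous_of_finiteDimensional.tendsto 0).comp h1
    rw [map_zero] at h3
    exact (tendsto_zero_iff_norm_tendsto_zero.1 h3).eventually (gt_mem_nhds hε)
  have h3 : Tendsto (fun n => (c n)⁻¹ • μ n) atTop (𝓝 a) := by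
    rw [tendsto_iff_norm_sub_tendsto_zero]
    refine squeeze_zero (fun n => norm_nonneg _) (fun n => ?_)
      (tendsto_zero_iff_norm_tendsto_zero.1 h1)
    have h4 : 0 < c n := one_pos.trans_le (hc1 n)
    have h5 : (c n)⁻¹ • μ n - a = -((c n)⁻¹ • (c n • a - μ n)) := by
      rw [smul_sub _ (c n • a), inv_smul_smul₀ h4.ne', neg_sub]
    rw [h5, norm_neg, norm_smul, Real.norm_of_nonneg (inv_nonneg.2 h4.le)]
    exact mul_le_of_le_one_left (norm_nonneg _) (inv_le_one_of_one_le₀ (hc1 n))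
  refine (Submodule.closed_of_finiteDimensional _).mem_of_tendsto h3 (h2.mono fun n hn => ?_)
  have h4 : μ n ∈ Λ := Λ.sub_mem (hl _) (hl _)
  have h5 := F.smul_mem (c n) ha
  refine Submodule.smul_mem _ _ (Submodule.subset_span ⟨h4, ?_⟩)
  simpa using F.sub_mem h5 (hP _ (G.sub_mem (hFG _ h5) (hΛ h4)) hn)

end

variable {g : ℕ} {τ : Mat g}

theorem lat_cover (hτ : τ ∈ PosIm g) : ∃ r C : ℝ, ∀ z : EE g, ∃ m n : Fin g → ℤ,
    ‖z - per τ m n‖ ≤ r ∧ ∀ i, |(n i : ℝ)| ≤ C * (1 + ‖z‖) := by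
  set L : (Fin g → ℝ) →ₗ[ℝ] (Fin g → ℝ) := Matrix.toLin' (Matrix.of fun i j => (τ i j).im)
  have hL : ∀ x i, L x i = ∑ j, (τ i j).im * x j := fun x i => rfl
  have hinj : Injective L := by
    refine (injective_iff_map_eq_zero L).2 fun x hx => ?_
    by_contra h0
    refine (hτ x h0).ne' (Finset.sum_eq_zero fun i _ => ?_)
    simp only [mul_assoc]
    rw [← Finset.mul_sum, ← hL, hx, Pi.zero_apply, mul_zero]
  set e := (LinearEquiv.ofInjectiveEndo L hinj).symm
  have he : ∀ y, L (e y) = y := (LinearEquiv.ofInjectiveEndo L hinj).apply_symm_apply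
  set T := LinearMap.toContinuousLinearMap e.toLinearMap
  refine ⟨1 + ∑ i, ∑ j, |(τ i j).im|, ‖T‖ + 1, fun z => ?_⟩
  set x := e fun i => (z i).im with hx
  refine ⟨fun i => ⌊(z i - ∑ j, τ i j * (⌊x j⌋ : ℤ)).re⌋, fun j => ⌊x j⌋, ?_, fun i => ?_⟩
  · refine (pi_norm_le_iff_of_nonneg (by positivity)).2 fun i => ?_
    refine (norm_le_abs_re_add_abs_im _).trans (add_le_add ?_ ?_)
    · have h1 : (z - per τ (fun i => ⌊(z i - ∑ j, τ i j * (⌊x j⌋ : ℤ)).re⌋) fun j => ⌊x j⌋) i =
          (z i - ∑ j, τ i j * (⌊x j⌋ : ℤ)) - (⌊(z i - ∑ j, τ i j * (⌊x j⌋ : ℤ)).re⌋ : ℤ) := by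
        simp only [Pi.sub_apply, per]
        ring
      rw [h1, sub_re, intCast_re, Int.self_sub_floor, abs_of_nonneg (Int.fract_nonneg _)]
      exact (Int.fract_lt_one _).le
    · have h1 : (z i).im = ∑ j, (τ i j).im * x j := by rw [← hL, hx, he]
      have h2 : ((z - per τ (fun i => ⌊(z i - ∑ j, τ i j * (⌊x j⌋ : ℤ)).re⌋)
          fun j => ⌊x j⌋) i).im = ∑ j, (τ i j).im * Int.fract (x j) := by
        simp only [Pi.sub_apply, per, sub_im, add_im, intCast_im, im_sum, mul_im, intCast_re,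
          mul_zero, zero_add, h1, ← Finset.sum_sub_distrib, ← mul_sub, Int.self_sub_floor]
      rw [h2]
      refine (Finset.abs_sum_le_sum_abs _ _).trans (le_trans (Finset.sum_le_sum fun j _ => ?_)
        (Finset.single_le_sum (f := fun i => ∑ j, |(τ i j).im|) (fun _ _ => by positivity)
          (Finset.mem_univ i)))
      rw [abs_mul, abs_of_nonneg (Int.fract_nonneg (x j))]
      exact mul_le_of_le_one_right (abs_nonneg _) (Int.fract_lt_one _).le
  · have h1 : |x i| ≤ ‖T‖ * ‖z‖ := by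
      refine (norm_le_pi_norm x i).trans ((T.le_opNorm fun i => (z i).im).trans ?_)
      refine mul_le_mul_of_nonneg_left ?_ (norm_nonneg _)
      exact (pi_norm_le_iff_of_nonneg (norm_nonneg _)).2 fun j =>
        (abs_im_le_norm _).trans (norm_le_pi_norm z j)
    have h2 := Int.floor_le (x i)
    have h3 := Int.lt_floor_add_one (x i)
    have h4 := abs_le.1 h1
    have h5 := norm_nonneg T
    have h6 := norm_nonneg z
    rw [abs_le]
    constructor <;> nlinarith

theorem xlat_real {f : ℂ → ℂ} (hf : ∀ c, AnalyticAt ℂ f c) (h : ∀ t : ℝ, f t = 0) (c : ℂ) :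
    f c = 0 := by
  have h1 : Tendsto ((↑) : ℝ → ℂ) (𝓝[≠] 0) (𝓝[≠] 0) :=
    tendsto_nhdsWithin_iff.2 ⟨(continuous_ofReal.tendsto' 0 0 ofReal_zero).mono_left
      nhdsWithin_le_nhds, eventually_mem_nhdsWithin.mono fun t ht => ofReal_ne_zero.2 ht⟩
  exact AnalyticOnNhd.eqOn_zero_of_preconnected_of_frequently_eq_zero (fun z _ => hf z)
    isPreconnected_univ (Set.mem_univ 0) (h1.frequently (Frequently.of_forall h)) (Set.mem_univ c)

/-- the lattice as a subgroup -/
def xlatGrp (τ : Mat g) : AddSubgroup (EE g) where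
  carrier := lattice τ
  add_mem' := by
    rintro _ _ ⟨m, n, rfl⟩ ⟨m', n', rfl⟩
    refine ⟨m + m', n + n', funext fun i => ?_⟩
    simp only [Pi.add_apply, Int.cast_add, mul_add, Finset.sum_add_distrib]
    ring
  zero_mem' := ⟨0, 0, funext fun i => by simp⟩
  neg_mem' := by
    rintro _ ⟨m, n, rfl⟩
    refine ⟨-m, -n, funext fun i => ?_⟩
    simp only [Pi.neg_apply, Int.cast_neg, mul_neg, Finset.sum_neg_distrib]
    ring

/-- the stabilizer of a set under translations -/
def xlatStab (Y : EE g → Prop) : AddSubgroup (EE g) where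
  carrier := {a | ∀ q, Y q → Y (q + a) ∧ Y (q + -a)}
  add_mem' := fun {a b} ha hb q hq => by
    rw [neg_add, ← add_assoc, ← add_assoc]
    exact ⟨(hb _ (ha q hq).1).1, (hb _ (ha q hq).2).2⟩
  zero_mem' := fun q hq => by simpa using hq
  neg_mem' := fun {a} ha q hq => by
    rw [neg_neg]
    exact (ha q hq).symm

/-- the largest complex subspace of a subgroup -/
def xlatSub (G : AddSubgroup (EE g)) : Submodule ℂ (EE g) where
  carrier := {a | ∀ c : ℂ, c • a ∈ G}
  add_mem' := fun {a b} ha hb c => by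
    rw [smul_add]
    exact G.add_mem (ha c) (hb c)
  zero_mem' := fun c => by
    rw [smul_zero]
    exact G.zero_mem
  smul_mem' := fun d a ha c => by
    rw [smul_smul]
    exact ha _

/-- a theta function vanishing on an affine subspace produces a subtorus -/
theorem not_simple_of_vanish (hτ : τ ∈ Siegel g) {N : ℕ} {h : EE g → ℂ} (hh : h ∈ Th τ N)
    (h0 : h ≠ 0) {H : Submodule ℂ (EE g)} (hH : H ≠ ⊥) (s : EE g) (hv : ∀ v ∈ H, h (s + v) = 0) :
    ¬ IsSimple τ := by
  intro hs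
  set G := xlatStab fun q : EE g => ∀ v ∈ H, h (q + v) = 0
  have hG : ∀ a, a ∈ G ↔ ∀ q, (∀ v ∈ H, h (q + v) = 0) →
      (∀ v ∈ H, h (q + a + v) = 0) ∧ ∀ v ∈ H, h (q + -a + v) = 0 := fun a => Iff.rfl
  have hcont : Continuous h := continuous_iff_continuousAt.2 fun z => (hh.1 z).continuousAt
  have hcl : IsClosed (G : Set (EE g)) := by
    have h1 : (G : Set (EE g)) = ⋂ q ∈ {q | ∀ v ∈ H, h (q + v) = 0}, ⋂ v ∈ H,
        ({a | h (q + a + v) = 0} ∩ {a | h (q + -a + v) = 0}) := by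
      ext a
      simp only [SetLike.mem_coe, hG, Set.mem_iInter, Set.mem_inter_iff, Set.mem_ofPred_eq]
      exact forall₂_congr fun q _ => ⟨fun h1 v hv => ⟨h1.1 v hv, h1.2 v hv⟩,
        fun h1 => ⟨fun v hv => (h1 v hv).1, fun v hv => (h1 v hv).2⟩⟩
    rw [h1]
    exact isClosed_biInter fun q _ => isClosed_biInter fun v _ =>
      (isClosed_eq (by fun_prop) continuous_const).inter
        (isClosed_eq (by fun_prop) continuous_const)
  have hΛ : xlatGrp τ ≤ G := by
    have h1 : ∀ a ∈ xlatGrp τ, ∀ q, (∀ v ∈ H, h (q + v) = 0) → ∀ v ∈ H, h (q + a + v) = 0 := by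
      rintro _ ⟨m, n, rfl⟩ q hq v hv
      rw [add_right_comm]
      exact (hh.2 m n _).trans (by rw [hq v hv, mul_zero])
    exact fun a ha q hq => ⟨h1 a ha q hq, h1 _ ((xlatGrp τ).neg_mem ha) q hq⟩
  have hF : ∀ a, a ∈ (xlatSub G).restrictScalars ℝ ↔ ∀ t : ℝ, t • a ∈ G := fun a => by
    refine ⟨fun h1 t => h1 t, fun h1 => ?_⟩
    have h2 : ∀ (c : ℂ) q, (∀ v ∈ H, h (q + v) = 0) → ∀ v ∈ H, h (q + c • a + v) = 0 :=
      fun c q hq v hv => xlat_real (f := fun c => h (q + c • a + v))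
        (fun c => (hh.1 _).fun_comp (by fun_prop)) (fun t => (h1 t q hq).1 v hv) c
    exact fun c q hq => ⟨h2 c q hq, by rw [← neg_smul]; exact h2 _ q hq⟩
  obtain ⟨r, C, hr⟩ := lat_cover (Siegel_sub hτ)
  rcases hs (xlatSub G) (fun a ha => xlat_span G (xlatGrp τ) hcl _ hF hΛ r (fun z => by
    obtain ⟨m, n, h1, -⟩ := hr z
    exact ⟨_, ⟨m, n, rfl⟩, h1⟩) ha) with h1 | h1
  · refine hH (le_bot_iff.1 (h1 ▸ fun w hw c q hq => ⟨fun v hv => ?_, fun v hv => ?_⟩))
    · rw [add_assoc]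
      exact hq _ (H.add_mem (H.smul_mem c hw) hv)
    · rw [add_assoc]
      exact hq _ (H.add_mem (H.neg_mem (H.smul_mem c hw)) hv)
  · refine h0 (funext fun z => ?_)
    have h2 : z - s ∈ xlatSub G := h1 ▸ Submodule.mem_top
    simpa using (h2 1 s hv).1 0 H.zero_mem

end Pool.Agent.MP_f58063_ag

end
end

section

open Complex Filter Topology Function

noncomputable section

namespace Pool.Agent.MP_f58063_ag

variable {g : ℕ} {τ : Mat g}

section
variable {X : Type} [NormedAddCommGroup X] [NormedSpace ℂ X]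

lemma xdim_append (L M : List X) (f : X → ℂ) : dd (L ++ M) f = dd L (dd M f) := by
  induction L with
  | nil => rfl
  | cons v L ih => rw [List.cons_append, dd_cons, dd_cons, ih]

lemma xdim_perm {f : X → ℂ} (hf : ∀ x, AnalyticAt ℂ f x) {L M : List X} (h : L.Perm M) :
    dd L f = dd M f := by
  induction h with
  | nil => rfl
  | cons v _ ih => rw [dd_cons, dd_cons, ih]
  | swap v w L => exact funext fun x => dv_comm (analyticAt_dd (hf x) L) _ _
  | trans _ _ ih ih' => exact ih.trans ih'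

lemma xdim_add {a b : X → ℂ} (ha : ∀ x, AnalyticAt ℂ a x) (hb : ∀ x, AnalyticAt ℂ b x)
    (L : List X) : dd L (a + b) = dd L a + dd L b := by
  induction L with
  | nil => rfl
  | cons v L ih =>
    funext x
    rw [dd_cons, ih, Pi.add_apply, dd_cons, dd_cons, dv_apply, dv_apply, dv_apply,
      fderiv_add (analyticAt_dd (ha x) L).differentiableAt
        (analyticAt_dd (hb x) L).differentiableAt]
    rfl

lemma xdim_smul (c : ℂ) {a : X → ℂ} (ha : ∀ x, AnalyticAt ℂ a x) (L : List X) :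
    dd L (c • a) = c • dd L a := by
  induction L with
  | nil => rfl
  | cons v L ih =>
    funext x
    rw [dd_cons, ih, Pi.smul_apply, dd_cons, dv_apply, dv_apply,
      fderiv_const_smul (analyticAt_dd (ha x) L).differentiableAt]
    rfl

lemma xdim_line {f : X → ℂ} (hf : ∀ x, AnalyticAt ℂ f x) (v : X) (t : ℂ) :
    AnalyticAt ℂ (fun s : ℂ => f (s • v)) t :=
  (hf (t • v)).comp_of_eq (analyticAt_id.smul analyticAt_const) rfl

end

lemma xdim_iter (v : EE g) (j : ℕ) : ∀ f : EE g → ℂ, (∀ x, AnalyticAt ℂ f x) →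
    (∀ L : List (Fin g), L.length = j → dI L f 0 = 0) →
    iteratedDeriv j (fun s : ℂ => f (s • v)) 0 = 0 := by
  induction j with
  | zero =>
    intro f _ h
    simpa using h [] rfl
  | succ j ih =>
    intro f hf h
    have e : deriv (fun s : ℂ => f (s • v)) = fun s => ∑ i, v i * dv (ee i) f (s • v) := by
      funext s
      have h1 : HasDerivAt (fun s : ℂ => s • v) v s := by
        simpa using (hasDerivAt_id s).smul_const v
      rw [← fderiv_eq_sum]
      exact ((hf (s • v)).differentiableAt.hasFDerivAt.comp_hasDerivAt s h1).deriv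
    rw [iteratedDeriv_succ', e, iteratedDeriv_fun_sum]
    · refine Finset.sum_eq_zero fun i _ => ?_
      rw [iteratedDeriv_const_mul_field, ih _ (fun x => analyticAt_dv (hf x) _), mul_zero]
      intro L hL
      have := h (L ++ [i]) (by simp [hL])
      rwa [dI, List.map_append, xdim_append] at this
    · intro i _
      exact (analyticAt_const.mul
        (xdim_line (fun x => analyticAt_dv (hf x) _) v 0)).contDiffAt

lemma xdim_schwarz {φ : ℂ → ℂ} (hφ : ∀ t, AnalyticAt ℂ φ t) {n : ℕ} {B : ℝ}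
    (h0 : ∀ j < n + 1, iteratedDeriv j φ 0 = 0) (hB : ∀ t : ℂ, ‖t‖ < 2 → ‖φ t‖ ≤ B) :
    ‖φ 1‖ ≤ B * (1 / 2) ^ (n + 1) := by
  have z0 : φ 0 = 0 := by simpa using h0 0 (by omega)
  obtain ⟨ψ, hψ, e⟩ := (natCast_le_analyticOrderAt (hφ 0)).1
    ((natCast_le_analyticOrderAt_iff_iteratedDeriv_eq_zero (hφ 0)).2 h0)
  have h := Complex.dist_le_mul_div_pow_of_mapsTo_ball_of_isLittleO (f := φ) (c := 0) (z := 1)
    (R₁ := 2) (R₂ := B) (n := n) (fun t _ => (hφ t).differentiableAt.differentiableWithinAt)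
    (fun t ht => by
      rw [z0, mem_closedBall_zero_iff]
      exact hB t (mem_ball_zero_iff.1 ht)) ?_ (by simp)
  · simpa [z0] using h
  · have h1 : (fun t : ℂ => t * ψ t) =o[𝓝 0] (fun _ => (1 : ℝ)) := by
      rw [Asymptotics.isLittleO_one_iff]
      have : ContinuousAt (fun t : ℂ => t * ψ t) 0 := continuousAt_id.mul hψ.continuousAt
      simpa using this.tendsto
    have h2 : (fun t : ℂ => t ^ n) =O[𝓝 0] (fun t => ‖t - 0‖ ^ n) :=
      Asymptotics.IsBigO.of_bound 1 (Eventually.of_forall fun t => by simp)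
    refine (h2.mul_isLittleO h1).congr' ?_ (Eventually.of_forall fun t => by simp)
    filter_upwards [e] with t ht
    rw [ht, z0]
    simp only [sub_zero, smul_eq_mul]
    ring

lemma xdim_aut (τ : Mat g) (r B : ℝ) : ∃ a : ℕ, ∀ (n : Fin g → ℤ) (w : EE g),
    (∀ i, |(n i : ℝ)| ≤ B) → ‖w‖ ≤ r → ‖aut τ n w‖ ≤ 2 ^ a := by
  let F : EE g × EE g → ℂ := fun p =>
    exp (-(Real.pi * I * ∑ i, ∑ j, p.1 i * τ i j * p.1 j + 2 * Real.pi * I * ∑ i, p.1 i * p.2 i))
  have hF : Continuous F := by fun_prop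
  obtain ⟨A, hA⟩ := ((isCompact_closedBall (0 : EE g) |B|).prod
    (isCompact_closedBall (0 : EE g) r)).exists_bound_of_continuousOn hF.continuousOn
  obtain ⟨a, ha⟩ := pow_unbounded_of_one_lt A (one_lt_two : (1 : ℝ) < 2)
  refine ⟨a, fun n w hn hw => le_trans (hA (fun i => (n i : ℂ), w) ⟨?_, ?_⟩) ha.le⟩
  · rw [mem_closedBall_zero_iff, pi_norm_le_iff_of_nonneg (abs_nonneg B)]
    intro i
    simpa using (hn i).trans (le_abs_self B)
  · exact mem_closedBall_zero_iff.2 hw

lemma xdim_zero (hτ : τ ∈ Siegel g) : ∃ a : ℕ, ∀ N, ∀ h ∈ Th τ N,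
    (∀ L : List (Fin g), L.length < a * N + 1 → dI L h 0 = 0) → h = 0 := by
  obtain ⟨r, C, hc⟩ := lat_cover (Siegel_sub hτ)
  have r0 : 0 ≤ r := by
    obtain ⟨m, n, h, -⟩ := hc 0
    exact (norm_nonneg _).trans h
  obtain ⟨a, ha⟩ := xdim_aut τ r (|C| * (1 + 2 * r))
  refine ⟨a, fun N h hh hz => ?_⟩
  have hcont : Continuous h := continuous_iff_continuousAt.2 fun z => (hh.1 z).continuousAt
  obtain ⟨w, hw, hM⟩ := (isCompact_closedBall (0 : EE g) r).exists_isMaxOn
    ⟨0, Metric.mem_closedBall_self r0⟩ hcont.norm.continuousOn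
  rw [mem_closedBall_zero_iff] at hw
  have hM' : ∀ z : EE g, ‖z‖ ≤ r → ‖h z‖ ≤ ‖h w‖ := fun z hz =>
    hM (mem_closedBall_zero_iff.2 hz)
  have hq : ∀ (z : EE g) m n, h z = aut τ n (z - per τ m n) ^ N * h (z - per τ m n) := by
    intro z m n
    rw [← hh.2 m n, sub_add_cancel]
  have hbig : ∀ z : EE g, ‖z‖ ≤ 2 * r → ‖h z‖ ≤ (2 ^ a) ^ N * ‖h w‖ := by
    intro z hz
    obtain ⟨m, n, h1, h2⟩ := hc z
    have h3 : ∀ i, |(n i : ℝ)| ≤ |C| * (1 + 2 * r) := fun i =>
      (h2 i).trans ((mul_le_mul_of_nonneg_right (le_abs_self C) (by positivity)).trans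
        (mul_le_mul_of_nonneg_left (by linarith) (abs_nonneg C)))
    rw [hq z m n, norm_mul, norm_pow]
    exact mul_le_mul (pow_le_pow_left₀ (norm_nonneg _) (ha n _ h3 h1) N) (hM' _ h1)
      (norm_nonneg _) (by positivity)
  have hs := xdim_schwarz (xdim_line hh.1 w) (n := a * N) (B := (2 ^ a) ^ N * ‖h w‖)
    (fun j hj => xdim_iter w j h hh.1 fun L hL => hz L (hL ▸ hj))
    (fun t ht => hbig _ (by
      rw [norm_smul]
      exact mul_le_mul ht.le hw (norm_nonneg _) (by norm_num)))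
  have e : ((2 : ℝ) ^ a) ^ N * ‖h w‖ * (1 / 2) ^ (a * N + 1) = ‖h w‖ / 2 := by
    rw [← pow_mul, pow_succ, one_div, inv_pow]
    field_simp
  rw [e, one_smul] at hs
  have hw0 : ‖h w‖ ≤ 0 := by linarith
  funext z
  obtain ⟨m, n, h1, -⟩ := hc z
  rw [hq z m n, norm_le_zero_iff.1 ((hM' _ h1).trans hw0), mul_zero]
  rfl

/-- a list with prescribed multiplicities -/
def xdimRep (α : Fin g → ℕ) : List (Fin g) :=
  invFun (fun (L : List (Fin g)) (i : Fin g) => L.count i) α

lemma xdimRep_perm (L : List (Fin g)) : (xdimRep fun i => L.count i).Perm L := by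
  rw [List.perm_iff_count]
  intro i
  exact congrFun (invFun_eq (f := fun (L : List (Fin g)) (i : Fin g) => L.count i) ⟨L, rfl⟩) i

/-- the jet of order `K` at the origin -/
def xdimJet (τ : Mat g) (N K : ℕ) : Th τ N →ₗ[ℂ] (Fin g → Fin K) → ℂ where
  toFun h α := dI (xdimRep fun i => α i) h.1 0
  map_add' a b := funext fun _ => congrFun (xdim_add a.2.1 b.2.1 _) 0
  map_smul' c a := funext fun _ => congrFun (xdim_smul c a.2.1 _) 0

theorem Th_finrank (hτ : τ ∈ Siegel g) : ∃ C : ℕ, ∀ N, FiniteDimensional ℂ (Th τ N) ∧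
    Module.finrank ℂ (Th τ N) ≤ C * (N + 1) ^ g := by
  obtain ⟨a, ha⟩ := xdim_zero hτ
  refine ⟨(a + 1) ^ g, fun N => ?_⟩
  have hinj : Injective (xdimJet τ N (a * N + 1)) := by
    rw [injective_iff_map_eq_zero]
    intro h h0
    refine Subtype.ext (ha N h.1 h.2 fun L hL => ?_)
    have := congrFun h0 fun i => ⟨L.count i, List.count_le_length.trans_lt hL⟩
    rw [dI, ← xdim_perm h.2.1 ((xdimRep_perm L).map ee)]
    exact this
  refine ⟨FiniteDimensional.of_injective _ hinj, ?_⟩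
  refine (LinearMap.finrank_le_finrank_of_injective hinj).trans ?_
  rw [Module.finrank_fintype_fun_eq_card, Fintype.card_fun, Fintype.card_fin, Fintype.card_fin,
    ← mul_pow]
  exact Nat.pow_le_pow_left (by nlinarith) g

end Pool.Agent.MP_f58063_ag

end
end

section

open Complex Filter Topology Function

noncomputable section

namespace Pool.Agent.MP_f58063_ag

variable {g : ℕ} {τ : Mat g}

lemma xtda_prod {ι : Type} (s : Finset ι) {K : ℕ} {F : ι → EE g → ℂ} (h : ∀ i ∈ s, F i ∈ Th τ K) :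
    (fun z => ∏ i ∈ s, F i z) ∈ Th τ (s.card * K) :=
  ⟨fun z => s.analyticAt_fun_prod fun i hi => (h i hi).1 z, fun m n z => by
    beta_reduce
    rw [Finset.prod_congr rfl fun i hi => (h i hi).2 m n z, Finset.prod_mul_distrib,
      Finset.prod_const, ← pow_mul, mul_comm K]⟩

theorem TD.comp {X X' : Type} [TopologicalSpace X] [TopologicalSpace X'] {y : X → EE g} {x₀ : X}
    {d : ℕ} (h : TD τ y x₀ d) {κ : X' → X} {x₁ : X'} (hκ : ContinuousAt κ x₁) (h0 : κ x₁ = x₀) :
    TD τ (fun x => y (κ x)) x₁ d := by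
  intro f hf
  subst h0
  obtain ⟨P, hP, he⟩ := h f hf
  exact ⟨P, hP, hκ.eventually he⟩

theorem TD.congr {X : Type} [TopologicalSpace X] {y y' : X → EE g} {x₀ : X} {d : ℕ}
    (h : TD τ y x₀ d) (e : y =ᶠ[𝓝 x₀] y') : TD τ y' x₀ d := by
  intro f hf
  rw [← e.eq_of_nhds] at hf
  obtain ⟨P, hP, he⟩ := h f hf
  refine ⟨P, hP, ?_⟩
  filter_upwards [he, e] with x hx ex
  rwa [← ex]

theorem TD_const {X : Type} [TopologicalSpace X] (τ : Mat g) (p : EE g) (x₀ : X) :
    TD τ (fun _ : X => p) x₀ 0 := by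
  intro f _
  refine ⟨MvPolynomial.X 0 - MvPolynomial.C (f 0 p), fun h => ?_, Eventually.of_forall fun _ => by
    simp⟩
  have := congrArg (MvPolynomial.eval (fun _ => f 0 p + 1)) h
  simp at this

theorem TD_id (hτ : τ ∈ Siegel g) (p : EE g) : TD τ (fun z : EE g => z) p g := by
  classical
  intro f hf
  obtain ⟨C, hC⟩ := Th_finrank hτ
  obtain ⟨N, t, H, ht, ht0, hH, he⟩ := Ab_common hf
  set M := C * ((g + 1) * N + 1) ^ g with hM
  have hmem : ∀ a : Fin (g + 1) → Fin (M + 1),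
      (fun z => ∏ i, H i z ^ (a i : ℕ) * t z ^ (M - a i)) ∈ Th τ ((g + 1) * (N * M)) := fun a => by
    have := xtda_prod (τ := τ) Finset.univ (K := N * M)
      (F := fun i z => H i z ^ (a i : ℕ) * t z ^ (M - a i)) (fun i _ => by
        have := Th_mul (Th_pow (hH i) (a i)) (Th_pow ht (M - a i))
        rwa [← mul_add, Nat.add_sub_cancel' (Nat.lt_succ_iff.1 (a i).2)] at this)
    simpa using this
  obtain ⟨hfd, hle⟩ := hC ((g + 1) * (N * M))
  have hdep : ¬ LinearIndependent ℂ (fun a => (⟨_, hmem a⟩ : Th τ ((g + 1) * (N * M)))) := by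
    intro hli
    have h1 := hli.fintype_card_le_finrank.trans hle
    have h2 : C * ((g + 1) * (N * M) + 1) ^ g ≤ C * (((g + 1) * N + 1) * (M + 1)) ^ g := by
      gcongr
      nlinarith [Nat.zero_le ((g + 1) * N), Nat.zero_le M]
    have h3 := h1.trans h2
    rw [mul_pow, ← mul_assoc, ← hM] at h3
    simp only [Fintype.card_pi, Fintype.card_fin, Finset.prod_const, Finset.card_univ,
      pow_succ'] at h3
    have h4 : 0 < (M + 1) ^ g := by positivity
    nlinarith
  obtain ⟨c, hc, a₀, ha₀⟩ := Fintype.not_linearIndependent_iff.1 hdep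
  let e : (Fin (g + 1) → Fin (M + 1)) → Fin (g + 1) →₀ ℕ := fun a =>
    Finsupp.equivFunOnFinite.symm (fun i => (a i : ℕ))
  have hinj : Injective e := fun a b h => funext fun i => Fin.ext (by
    simpa [e] using DFunLike.congr_fun h i)
  refine ⟨∑ a, MvPolynomial.monomial (e a) (c a), fun h => ha₀ ?_, ?_⟩
  · have := congrArg (MvPolynomial.coeff (e a₀)) h
    simpa [MvPolynomial.coeff_sum, MvPolynomial.coeff_monomial, hinj.eq_iff] using this
  · filter_upwards [eventually_all.2 he, (ht.1 p).continuousAt.eventually_ne ht0] with z hz hz0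
    have h1 := congrArg (fun w : Th τ ((g + 1) * (N * M)) => w.1 z) hc
    simp only [Submodule.coe_sum, Submodule.coe_smul, Finset.sum_apply, Pi.smul_apply,
      smul_eq_mul, ZeroMemClass.coe_zero, Pi.zero_apply] at h1
    have h2 : (∏ _i : Fin (g + 1), t z ^ M) ≠ 0 :=
      Finset.prod_ne_zero_iff.2 fun _ _ => pow_ne_zero _ hz0
    refine mul_right_cancel₀ h2 ?_
    rw [zero_mul, ← h1, map_sum, Finset.sum_mul]
    refine Finset.sum_congr rfl fun a _ => ?_
    rw [MvPolynomial.eval_monomial, Finsupp.prod_fintype _ _ (by simp), mul_assoc,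
      ← Finset.prod_mul_distrib]
    congr 1
    refine Finset.prod_congr rfl fun i _ => ?_
    have h3 : t z ^ M = t z ^ (a i : ℕ) * t z ^ (M - a i) := by
      rw [← pow_add, Nat.add_sub_cancel' (Nat.lt_succ_iff.1 (a i).2)]
    rw [hz i, h3]
    simp only [e, Finsupp.equivFunOnFinite_symm_apply_apply, div_pow]
    field_simp

theorem TD_cut {X X' : Type} [NormedAddCommGroup X] [NormedSpace ℂ X] [TopologicalSpace X']
    {y : X → EE g} {x₀ : X} (hy : AnalyticAt ℂ y x₀) {κ : X' → X} {x₁ : X'}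
    (hκ : ContinuousAt κ x₁) (h0 : κ x₁ = x₀) {h : EE g → ℂ} (hh : Ab τ (y x₀) h)
    (h1 : ¬ ∀ᶠ x in 𝓝 x₀, h (y x) = 0) (h2 : ∀ᶠ x in 𝓝 x₁, h (y (κ x)) = 0) {d : ℕ}
    (hd : TD τ y x₀ (d + 1)) : TD τ (fun x => y (κ x)) x₁ d := by
  intro f hf
  subst h0
  have hF : ∀ i, Ab τ (y (κ x₁)) ((Fin.cons h f : Fin (d + 1 + 1) → EE g → ℂ) i) :=
    fun i => Fin.cases hh hf i
  have hc : ∀ z, (fun i => (Fin.cons h f : Fin (d + 1 + 1) → EE g → ℂ) i z) =
      Fin.cons (h z) (fun i => f i z) := fun z => funext fun i => Fin.cases rfl (fun _ => rfl) i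
  obtain ⟨P, hP, he⟩ := hd _ hF
  have hQ : MvPolynomial.finSuccEquiv ℂ (d + 1) P ≠ 0 := by simpa using hP
  obtain ⟨R, hR, hnd⟩ := Polynomial.exists_eq_pow_rootMultiplicity_mul_and_not_dvd _ hQ 0
  generalize Polynomial.rootMultiplicity 0 (MvPolynomial.finSuccEquiv ℂ (d + 1) P) = m at hR
  rw [map_zero, sub_zero] at hR hnd
  have hG := (Ab.eval hF ((MvPolynomial.finSuccEquiv ℂ (d + 1)).symm R)).analyticAt.comp hy
  have hH := (hh.analyticAt.comp hy).pow m
  rcases germ_mul_zero hH hG (by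
    filter_upwards [he] with x hx
    rw [hc, MvPolynomial.eval_eq_eval_mv_eval', hR] at hx
    simp only [comp_apply, Pi.pow_apply]
    rw [hc, MvPolynomial.eval_eq_eval_mv_eval', AlgEquiv.apply_symm_apply]
    simpa using hx) with h3 | h3
  · exact absurd (h3.mono fun x hx => pow_eq_zero_iff'.1 hx |>.1) h1
  · refine ⟨R.coeff 0, fun h0 => hnd (Polynomial.X_dvd_iff.2 h0), ?_⟩
    filter_upwards [hκ.eventually h3, h2] with x hx hx0
    simp only [comp_apply] at hx
    rwa [hc, MvPolynomial.eval_eq_eval_mv_eval', AlgEquiv.apply_symm_apply, hx0,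
      ← Polynomial.coeff_zero_eq_eval_zero, Polynomial.coeff_map] at hx

/-- a coordinate curve of a system of abelian local coordinates is an algebraic curve -/
theorem TD_curve (hτ : τ ∈ Siegel g) {f : Fin g → EE g → ℂ} {y : EE g → EE g} {x₀ : EE g}
    (hy : AnalyticAt ℂ y x₀) (hf : ∀ i, Ab τ (y x₀) (f i))
    (hi : ∀ᶠ x in 𝓝 x₀, ∀ i, f i (y x) = x i) (l : Fin g) :
    TD τ (fun t : ℂ => y (x₀ + t • ee l)) 0 1 := by
  classical
  let κ : Finset (Fin g) → EE g → EE g := fun s x i => if i ∈ s then x₀ i else x i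
  have hκ0 : ∀ s, κ s x₀ = x₀ := fun s => funext fun i => by simp [κ]
  have hκ : ∀ s x, AnalyticAt ℂ (κ s) x := fun s x => by
    refine analyticAt_pi_iff.2 fun i => ?_
    by_cases hi : i ∈ s
    · simpa [κ, hi] using analyticAt_const
    · simp only [κ, hi, if_false]
      exact (ContinuousLinearMap.proj (R := ℂ) (φ := fun _ : Fin g => ℂ) i).analyticAt x
  have hl : ∀ i, ContinuousAt (fun t : ℂ => x₀ + t • ee i) 0 := fun i => by fun_prop
  have key : ∀ (s : Finset (Fin g)) (d : ℕ), d + s.card = g → TD τ (fun x => y (κ s x)) x₀ d := by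
    intro s
    induction s using Finset.induction_on with
    | empty =>
      intro d hd
      obtain rfl : d = g := by simpa using hd
      exact (TD_id hτ (y x₀)).comp hy.continuousAt rfl
    | insert i s his ih =>
      intro d hd
      rw [Finset.card_insert_of_notMem his] at hd
      have hev : ∀ᶠ x in 𝓝 x₀, f i (y (κ s x)) = x i := by
        have := (hκ s x₀).continuousAt.eventually (p := fun x => ∀ i, f i (y x) = x i)
          (by rw [hκ0]; exact hi)
        exact this.mono fun x hx => by rw [hx i]; simp [κ, his]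
      have hy' : AnalyticAt ℂ (fun x => y (κ s x)) x₀ := AnalyticAt.comp_of_eq hy (hκ s x₀) (hκ0 s)
      have := TD_cut (τ := τ) hy' (hκ {i} x₀).continuousAt (hκ0 {i})
        (h := fun z => f i z - x₀ i) (by rw [hκ0]; exact (hf i).sub (Ab.const _ _ _)) (fun h => by
          have h4 : ∀ᶠ x in 𝓝 x₀, x i = x₀ i := by
            filter_upwards [h, hev] with x h1 h2
            rwa [h2, sub_eq_zero] at h1
          have h5 := (hl i).eventually (p := fun x => x i = x₀ i) (by simpa using h4)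
          have h6 : ∀ᶠ t : ℂ in 𝓝[≠] 0, t = 0 :=
            nhdsWithin_le_nhds (h5.mono fun t ht => by simpa using ht)
          obtain ⟨t, h7, h8⟩ := (h6.and self_mem_nhdsWithin).exists
          exact h8 h7) (by
          have := (hκ {i} x₀).continuousAt.eventually (p := fun x => f i (y (κ s x)) = x i)
            (by rw [hκ0]; exact hev)
          exact this.mono fun x hx => by rw [hx]; simp [κ]) (ih (d + 1) (by omega))
      refine this.congr (Eventually.of_forall fun x => congrArg y ?_)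
      funext j
      by_cases h1 : j = i <;> by_cases h2 : j ∈ s <;> simp [κ, h1, h2]
  have := (key (Finset.univ.erase l) 1 (by
    have := l.pos
    rw [Finset.card_erase_of_mem (Finset.mem_univ _), Finset.card_univ, Fintype.card_fin]
    omega)).comp (hl l) (by simp)
  refine this.congr (Eventually.of_forall fun t => congrArg y ?_)
  funext j
  by_cases h1 : j = l <;> simp [κ, h1]

end Pool.Agent.MP_f58063_ag

end
end

section

open Complex Filter Topology Function

noncomputable section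

namespace Pool.Agent.MP_f58063_ag

/-- two orthogonal subspaces of a space with a nondegenerate pairing -/
lemma xcha_pair {V : Type} [AddCommGroup V] [Module ℂ V] [FiniteDimensional ℂ V]
    (B : V →ₗ[ℂ] V →ₗ[ℂ] ℂ) (U S W : Submodule ℂ V) (hS : S ≤ U) (hW : W ≤ U)
    (hnd : ∀ a ∈ U, (∀ b ∈ U, B a b = 0) → a = 0) (h : ∀ a ∈ S, ∀ b ∈ W, B a b = 0) :
    Module.finrank ℂ S + Module.finrank ℂ W ≤ Module.finrank ℂ U := by
  have h1 := Subspace.finrank_add_finrank_dualAnnihilator_eq (W.comap U.subtype)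
  have h2 : Module.finrank ℂ (W.comap U.subtype) = Module.finrank ℂ W :=
    (Submodule.comapSubtypeEquivOfLe hW).finrank_eq
  let f : S →ₗ[ℂ] (W.comap U.subtype).dualAnnihilator :=
    (B.domRestrict₁₂ S U).codRestrict _ fun a => (Submodule.mem_dualAnnihilator _).2
      fun w hw => h a a.2 w hw
  have hf : Function.Injective f := (injective_iff_map_eq_zero f).2 fun a ha =>
    Subtype.ext (hnd a (hS a.2) fun b hb =>
      LinearMap.congr_fun (congrArg Subtype.val ha) ⟨b, hb⟩)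
  have h3 := LinearMap.finrank_le_finrank_of_injective hf
  omega

/-- evaluation of a matrix at a vector, as a linear map in the matrix -/
def xchaEv {g : ℕ} (e : EE g) : Mat g →ₗ[ℂ] EE g where
  toFun R := mv R e
  map_add' R R' := by
    funext i
    simp [mv, add_mul, Finset.sum_add_distrib]
  map_smul' c R := by
    funext i
    simp [mv, Finset.mul_sum, mul_assoc]

lemma xcha_ann {g : ℕ} (P : Submodule ℂ (EE g)) (X : Submodule ℂ (Mat g)) (e : EE g)
    (hinj : ∀ R ∈ X, mv R e = 0 → R = 0)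
    (horth : ∀ R ∈ X, ∀ u ∈ P, ∑ i, u i * mv R e i = 0) :
    Module.finrank ℂ X + Module.finrank ℂ P ≤ g := by
  let B : EE g →ₗ[ℂ] EE g →ₗ[ℂ] ℂ := LinearMap.mk₂ ℂ (fun a b => ∑ i, b i * a i)
    (fun a a' b => by simp [mul_add, Finset.sum_add_distrib])
    (fun c a b => by simp [Finset.mul_sum, mul_left_comm])
    (fun a b b' => by simp [add_mul, Finset.sum_add_distrib])
    (fun c a b => by simp [Finset.mul_sum, mul_assoc])
  have h := xcha_pair B ⊤ (LinearMap.range ((xchaEv e).domRestrict X)) P le_top le_top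
    (fun a _ ha => by
      funext i
      have := ha (ee i) trivial
      simpa [B, Pi.single_apply] using this)
    (by
      rintro _ ⟨R, rfl⟩ u hu
      exact horth R R.2 u hu)
  rw [LinearMap.finrank_range_of_inj ((injective_iff_map_eq_zero _).2 fun R hR =>
    Subtype.ext (hinj R R.2 hR)), finrank_top, Module.finrank_fin_fun] at h
  exact h

/-- the elements of `W` whose bilinear form vanishes on `P` -/
def xchaW {g : ℕ} (W : Submodule ℂ (Mat g)) (P : Submodule ℂ (EE g)) : Submodule ℂ (Mat g) where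
  carrier := {R | R ∈ W ∧ ∀ u ∈ P, ∀ v ∈ P, ∑ i, u i * mv R v i = 0}
  add_mem' := fun {a b} ha hb => ⟨W.add_mem ha.1 hb.1, fun u hu v hv => by
    have : mv (a + b) v = mv a v + mv b v := (xchaEv v).map_add a b
    simp [this, mul_add, Finset.sum_add_distrib, ha.2 u hu v hv, hb.2 u hu v hv]⟩
  zero_mem' := ⟨W.zero_mem, fun u _ v _ => by simp [mv]⟩
  smul_mem' := fun c a ha => ⟨W.smul_mem c ha.1, fun u hu v hv => by
    have : mv (c • a) v = c • mv a v := (xchaEv v).map_smul c a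
    simp only [this, Pi.smul_apply, smul_eq_mul, mul_left_comm _ c, ← Finset.mul_sum,
      ha.2 u hu v hv, mul_zero]⟩

lemma xcha_symm {g : ℕ} {R : Mat g} (h : ∀ i j, R i j = R j i) (u v : EE g) :
    ∑ i, u i * mv R v i = ∑ i, v i * mv R u i := by
  simp only [mv, Finset.mul_sum]
  rw [Finset.sum_comm]
  refine Finset.sum_congr rfl fun i _ => Finset.sum_congr rfl fun j _ => ?_
  rw [h j i]
  ring

lemma xcha_range {g k : ℕ} (D : (ℂ × (Fin k → ℂ)) →ₗ[ℂ] Mat g) {e : EE g}
    (h : ∀ a, mv (D a) e = 0 → a = 0) : Module.finrank ℂ (LinearMap.range D) = k + 1 := by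
  rw [LinearMap.finrank_range_of_inj ((injective_iff_map_eq_zero _).2 fun a ha => h a (by
    rw [ha]; exact (xchaEv e).map_zero))]
  simp [add_comm]

/-- the chain argument -/
theorem chain_alg {g k : ℕ} {ι : Type} (W : Submodule ℂ (Mat g))
    (hsym : ∀ R ∈ W, ∀ i j, R i j = R j i) (hW : W ≠ ⊥) (T : ι → Submodule ℂ (EE g))
    (hT : ∀ s, Module.finrank ℂ (T s) = k) (D : ι → (ℂ × (Fin k → ℂ)) →ₗ[ℂ] Mat g)
    (hD : ∀ s a, D s a ∈ W)
    (hDT : ∀ s a, ∀ u ∈ T s, ∀ v ∈ T s, ∑ i, u i * mv (D s a) v i = 0)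
    (hinj : ∀ e, (∃ R ∈ W, mv R e ≠ 0) → ∃ s, ∀ a, mv (D s a) e = 0 → a = 0) :
    ∑ j ∈ Finset.range (k + 1), (k + 1 - j * (g - k)) ≤ Module.finrank ℂ W := by
  have key : ∀ j : ℕ, ∃ P : Submodule ℂ (EE g), g ≤ Module.finrank ℂ P + j * (g - k) ∧
      ∑ i ∈ Finset.range j, (k + 1 - i * (g - k)) ≤ Module.finrank ℂ (xchaW W P) := by
    intro j
    induction j with
    | zero => exact ⟨⊤, by simp, by simp⟩
    | succ j ih =>
      obtain ⟨P, hP, hWP⟩ := ih
      rw [Finset.sum_range_succ, add_mul, one_mul]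
      by_cases hj : k + 1 ≤ j * (g - k)
      · exact ⟨P, by omega, by omega⟩
      have hex : ∃ e ∈ P, ∃ R ∈ W, mv R e ≠ 0 := by
        by_contra hcon
        push Not at hcon
        obtain ⟨R, hR, hR0⟩ := Submodule.exists_mem_ne_zero_of_ne_bot hW
        obtain ⟨i, hi⟩ := Function.ne_iff.1 hR0
        obtain ⟨l, hl⟩ := Function.ne_iff.1 hi
        obtain ⟨s, hs⟩ := hinj (ee l) ⟨R, hR, fun h0 => hl (by
          simpa [mv, Pi.single_apply] using congrFun h0 i)⟩
        have h1 := xcha_ann P (LinearMap.range (D s)) (ee l)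
          (by
            rintro _ ⟨a, rfl⟩ ha
            rw [hs a ha, map_zero])
          (by
            rintro _ ⟨a, rfl⟩ u hu
            rw [xcha_symm (hsym _ (hD s a)), hcon u hu _ (hD s a)]
            simp)
        rw [xcha_range _ hs] at h1
        omega
      obtain ⟨e, he, hR⟩ := hex
      obtain ⟨s, hs⟩ := hinj e hR
      refine ⟨P ⊓ T s, ?_, ?_⟩
      · have h1 := Submodule.finrank_sup_add_finrank_inf_eq P (T s)
        have h2 := Submodule.finrank_le (P ⊔ T s)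
        rw [Module.finrank_fin_fun] at h2
        rw [hT] at h1
        omega
      · have h1 := Submodule.finrank_sup_add_finrank_inf_eq (xchaW W P) (LinearMap.range (D s))
        have h2 : xchaW W P ⊔ LinearMap.range (D s) ≤ xchaW W (P ⊓ T s) := by
          refine sup_le (fun R hR => ⟨hR.1, fun u hu v hv => hR.2 u hu.1 v hv.1⟩) ?_
          rintro _ ⟨a, rfl⟩
          exact ⟨hD s a, fun u hu v hv => hDT s a u hu.2 v hv.2⟩
        have h3 := Submodule.finrank_mono h2
        have h4 := xcha_ann P (xchaW W P ⊓ LinearMap.range (D s)) e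
          (by
            rintro _ ⟨-, a, rfl⟩ ha
            rw [hs a ha, map_zero])
          (fun R hR u hu => hR.1.2 u hu e he)
        rw [xcha_range _ hs] at h1
        omega
  obtain ⟨P, -, hP⟩ := key (k + 1)
  exact hP.trans (Submodule.finrank_mono fun R hR => hR.1)

theorem sym_perp {g : ℕ} (W S : Submodule ℂ (Mat g)) (hW : ∀ R ∈ W, ∀ i j, R i j = R j i)
    (hS : ∀ A ∈ S, ∀ i j, A i j = A j i)
    (h : ∀ A ∈ S, ∀ R ∈ W, ∑ i, ∑ j, A i j * R i j = 0) :
    Module.finrank ℂ S + Module.finrank ℂ W ≤ g * (g + 1) / 2 := by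
  let B : Mat g →ₗ[ℂ] Mat g →ₗ[ℂ] ℂ := LinearMap.mk₂ ℂ (fun a b => ∑ i, ∑ j, a i j * b i j)
    (fun a a' b => by simp [add_mul, Finset.sum_add_distrib])
    (fun c a b => by simp [Finset.mul_sum, mul_assoc])
    (fun a b b' => by simp [mul_add, Finset.sum_add_distrib])
    (fun c a b => by simp [Finset.mul_sum, mul_left_comm])
  let F : (Sym2 (Fin g) → ℂ) →ₗ[ℂ] Mat g :=
    { toFun := fun f i j => f s(i, j)
      map_add' := fun _ _ => rfl
      map_smul' := fun _ _ => rfl }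
  have hF : ∀ A : Mat g, (∀ i j, A i j = A j i) → A ∈ LinearMap.range F :=
    fun A hA => ⟨Sym2.lift ⟨A, hA⟩, rfl⟩
  have h1 := xcha_pair B (LinearMap.range F) S W (fun A hA => hF A (hS A hA))
    (fun A hA => hF A (hW A hA))
    (by
      rintro _ ⟨f, rfl⟩ hf
      have h2 : ∑ i, ∑ j, f s(i, j) * (starRingEnd ℂ) (f s(i, j)) = 0 :=
        hf _ ⟨fun p => (starRingEnd ℂ) (f p), rfl⟩
      simp only [Complex.mul_conj] at h2
      have h3 : ∑ i, ∑ j, normSq (f s(i, j)) = 0 := by exact_mod_cast h2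
      funext i j
      have h4 := (Finset.sum_eq_zero_iff_of_nonneg fun i _ =>
        Finset.sum_nonneg fun j _ => normSq_nonneg _).1 h3 i (Finset.mem_univ _)
      exact normSq_eq_zero.1 ((Finset.sum_eq_zero_iff_of_nonneg fun j _ =>
        normSq_nonneg _).1 h4 j (Finset.mem_univ _)))
    h
  have h5 := LinearMap.finrank_range_le F
  rw [Module.finrank_fintype_fun_eq_card, Sym2.card, Fintype.card_fin, Nat.choose_two_right,
    Nat.add_sub_cancel, mul_comm] at h5
  exact h1.trans h5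

end Pool.Agent.MP_f58063_ag

end
end

section

open Complex Filter Topology Function

noncomputable section

namespace Pool.Agent.MP_f58063_ag

/-- the span of the values and first derivatives of `Q` on `B` -/
def xchbW {g k : ℕ} (Q : (Fin k → ℂ) → Mat g) (B : Set (Fin k → ℂ)) : Submodule ℂ (Mat g) :=
  Submodule.span ℂ {R | ∃ s ∈ B, R = Q s ∨ ∃ w, R = fderiv ℂ Q s w}

lemma xchb_ker {g k : ℕ} {Q : (Fin k → ℂ) → Mat g} {B : Set (Fin k → ℂ)} (hB : IsOpen B)
    (hQ : ∀ s ∈ B, DifferentiableAt ℂ Q s) (φ : Mat g →ₗ[ℂ] ℂ) (h : ∀ s ∈ B, φ (Q s) = 0) :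
    ∀ R ∈ xchbW Q B, φ R = 0 := by
  have key : xchbW Q B ≤ LinearMap.ker φ := by
    refine Submodule.span_le.2 ?_
    rintro R ⟨s, hs, rfl | ⟨w, rfl⟩⟩
    · exact h s hs
    · let φ' : Mat g →L[ℂ] ℂ := LinearMap.toContinuousLinearMap φ
      have h1 : HasFDerivAt (fun x => φ' (Q x)) (φ'.comp (fderiv ℂ Q s)) s :=
        φ'.hasFDerivAt.comp s (hQ s hs).hasFDerivAt
      have h2 : HasFDerivAt (fun x => φ' (Q x)) (0 : (Fin k → ℂ) →L[ℂ] ℂ) s := by
        refine (hasFDerivAt_const (0 : ℂ) s).congr_of_eventuallyEq ?_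
        filter_upwards [hB.mem_nhds hs] with x hx
        exact h x hx
      have h3 := ContinuousLinearMap.ext_iff.1 (h1.unique h2) w
      exact h3
  exact fun R hR => key hR

lemma xchb_der {g k : ℕ} {Q : (Fin k → ℂ) → Mat g} {c : (Fin k → ℂ) → EE g} {s : Fin k → ℂ}
    (hQ : DifferentiableAt ℂ Q s) (hc : DifferentiableAt ℂ c s)
    (h : ∀ᶠ x in 𝓝 s, mv (Q x) (c x) = 0) (w : Fin k → ℂ) (i : Fin g) :
    mv (fderiv ℂ Q s w) (c s) i + mv (Q s) (fderiv ℂ c s w) i = 0 := by
  have hQ' := fun j => hasFDerivAt_pi'.1 (hasFDerivAt_pi'.1 hQ.hasFDerivAt i) j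
  have hc' := fun j => hasFDerivAt_pi'.1 hc.hasFDerivAt j
  have h1 := HasFDerivAt.fun_sum (u := Finset.univ) fun j _ => (hQ' j).fun_mul (hc' j)
  have h2 : HasFDerivAt (fun x => ∑ j, Q x i j * c x j) (0 : (Fin k → ℂ) →L[ℂ] ℂ) s := by
    refine (hasFDerivAt_const (0 : ℂ) s).congr_of_eventuallyEq ?_
    filter_upwards [h] with x hx
    exact congrFun hx i
  have h3 := ContinuousLinearMap.ext_iff.1 (h1.unique h2) w
  simp only [ContinuousLinearMap.sum_apply, ContinuousLinearMap.add_apply,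
    ContinuousLinearMap.smul_apply, ContinuousLinearMap.comp_apply,
    ContinuousLinearMap.proj_apply, smul_eq_mul, ContinuousLinearMap.zero_apply] at h3
  rw [← h3]
  simp only [mv, ← Finset.sum_add_distrib]
  exact Finset.sum_congr rfl fun j _ => by ring

lemma xchb_swap {g : ℕ} {R : Mat g} (hR : ∀ i j, R i j = R j i) (u y : EE g) :
    ∑ i, u i * mv R y i = ∑ j, y j * mv R u j := by
  simp only [mv, Finset.mul_sum]
  rw [Finset.sum_comm]
  exact Finset.sum_congr rfl fun j _ => Finset.sum_congr rfl fun i _ => by rw [hR i j]; ring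

lemma xchb_mv {g : ℕ} (a : ℂ) (R R' : Mat g) (e : EE g) :
    mv (a • R + R') e = a • mv R e + mv R' e := by
  funext i
  simp only [mv, Pi.add_apply, Pi.smul_apply, smul_eq_mul, add_mul, Finset.sum_add_distrib,
    Finset.mul_sum, mul_assoc]

/-- a linear functional on matrices given by coefficients -/
def xchbL {g : ℕ} (A : Mat g) : Mat g →ₗ[ℂ] ℂ where
  toFun R := ∑ i, ∑ j, A i j * R i j
  map_add' R R' := by
    simp only [Pi.add_apply, mul_add, Finset.sum_add_distrib]
  map_smul' a R := by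
    simp only [Pi.smul_apply, smul_eq_mul, RingHom.id_apply, Finset.mul_sum]
    exact Finset.sum_congr rfl fun i _ => Finset.sum_congr rfl fun j _ => by ring

/-- one coordinate of the action on a vector -/
def xchbM {g : ℕ} (e : EE g) (i : Fin g) : Mat g →ₗ[ℂ] ℂ where
  toFun R := mv R e i
  map_add' R R' := by
    simp only [mv, Pi.add_apply, add_mul, Finset.sum_add_distrib]
  map_smul' a R := by
    simp only [mv, Pi.smul_apply, smul_eq_mul, RingHom.id_apply, Finset.mul_sum, mul_assoc]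

/-- the antisymmetric part -/
def xchbA {g : ℕ} (i j : Fin g) : Mat g →ₗ[ℂ] ℂ where
  toFun R := R i j - R j i
  map_add' R R' := by
    simp only [Pi.add_apply]
    ring
  map_smul' a R := by
    simp only [Pi.smul_apply, smul_eq_mul, RingHom.id_apply]
    ring

/-- the first order part of `Q` at `s` -/
def xchbD {g k : ℕ} (Q : (Fin k → ℂ) → Mat g) (s : Fin k → ℂ) :
    (ℂ × (Fin k → ℂ)) →ₗ[ℂ] Mat g :=
  (LinearMap.toSpanSingleton ℂ (Mat g) (Q s)).coprod
    (fderiv ℂ Q s : (Fin k → ℂ) →ₗ[ℂ] Mat g)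

lemma xchbD_apply {g k : ℕ} (Q : (Fin k → ℂ) → Mat g) (s : Fin k → ℂ) (a : ℂ × (Fin k → ℂ)) :
    xchbD Q s a = a.1 • Q s + fderiv ℂ Q s a.2 := rfl

theorem chain {g k : ℕ} {γ : (Fin k → ℂ) → EE g} {Q : (Fin k → ℂ) → Mat g}
    (hγ : AnalyticAt ℂ γ 0) (hi : Injective (fderiv ℂ γ 0)) (hQ : AnalyticAt ℂ Q 0)
    (hsym : ∀ᶠ s in 𝓝 0, ∀ i j, Q s i j = Q s j i)
    (hT : ∀ᶠ s in 𝓝 0, ∀ w, mv (Q s) (fderiv ℂ γ s w) = 0) (h0 : Q 0 ≠ 0)
    (hlin : ∀ e, (¬ ∀ᶠ s in 𝓝 0, mv (Q s) e = 0) → ∃ᶠ s in 𝓝 0, ∀ (a : ℂ) (w : Fin k → ℂ),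
      a • mv (Q s) e + mv (fderiv ℂ Q s w) e = 0 → a = 0 ∧ w = 0)
    (S : Submodule ℂ (Mat g)) (hS : ∀ A ∈ S, ∀ i j, A i j = A j i)
    (hperp : ∀ᶠ s in 𝓝 0, ∀ A ∈ S, ∑ i, ∑ j, A i j * Q s i j = 0) :
    Module.finrank ℂ S + ∑ j ∈ Finset.range (k + 1), (k + 1 - j * (g - k)) ≤ g * (g + 1) / 2 := by
  have hall := (hγ.eventually_analyticAt.and hQ.eventually_analyticAt).and
    ((hsym.and hT).and ((eventually_inj hγ hi).and hperp))
  obtain ⟨r, hr, hball⟩ := Metric.mem_nhds_iff.1 hall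
  set B : Set (Fin k → ℂ) := Metric.ball 0 r with hBdef
  have hB : IsOpen B := Metric.isOpen_ball
  have h0B : (0 : Fin k → ℂ) ∈ B := Metric.mem_ball_self hr
  have hγB : ∀ s ∈ B, AnalyticAt ℂ γ s := fun s hs => (hball hs).1.1
  have hQB : ∀ s ∈ B, AnalyticAt ℂ Q s := fun s hs => (hball hs).1.2
  have hsymB : ∀ s ∈ B, ∀ i j, Q s i j = Q s j i := fun s hs => (hball hs).2.1.1
  have hTB : ∀ s ∈ B, ∀ w, mv (Q s) (fderiv ℂ γ s w) = 0 := fun s hs => (hball hs).2.1.2
  have hiB : ∀ s ∈ B, Injective (fderiv ℂ γ s) := fun s hs => (hball hs).2.2.1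
  have hpB : ∀ s ∈ B, ∀ A ∈ S, ∑ i, ∑ j, A i j * Q s i j = 0 := fun s hs => (hball hs).2.2.2
  have hdQ : ∀ s ∈ B, DifferentiableAt ℂ Q s := fun s hs => (hQB s hs).differentiableAt
  have hWsym : ∀ R ∈ xchbW Q B, ∀ i j, R i j = R j i := fun R hR i j =>
    sub_eq_zero.1 (xchb_ker hB hdQ (xchbA i j)
      (fun s hs => sub_eq_zero.2 (hsymB s hs i j)) R hR)
  have hQW : ∀ s ∈ B, Q s ∈ xchbW Q B := fun s hs =>
    Submodule.subset_span ⟨s, hs, Or.inl rfl⟩
  have hdW : ∀ s ∈ B, ∀ w, fderiv ℂ Q s w ∈ xchbW Q B := fun s hs w =>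
    Submodule.subset_span ⟨s, hs, Or.inr ⟨w, rfl⟩⟩
  have h1 := sym_perp (xchbW Q B) S hWsym hS fun A hA R hR =>
    xchb_ker hB hdQ (xchbL A) (fun s hs => hpB s hs A hA) R hR
  have h2 := chain_alg (g := g) (k := k) (ι := B) (xchbW Q B) hWsym
    (fun h => h0 ((Submodule.eq_bot_iff _).1 h _ (hQW 0 h0B)))
    (fun s => LinearMap.range (fderiv ℂ γ s.1 : (Fin k → ℂ) →ₗ[ℂ] EE g))
    (fun s => by
      rw [LinearMap.finrank_range_of_inj (hiB s.1 s.2)]
      simp)
    (fun s => xchbD Q s.1)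
    (fun s a => by
      rw [xchbD_apply]
      exact add_mem (Submodule.smul_mem _ _ (hQW s.1 s.2)) (hdW s.1 s.2 _))
    (by
      rintro ⟨s, hs⟩ a u ⟨u0, rfl⟩ v ⟨v0, rfl⟩
      have hc : DifferentiableAt ℂ (fun x => fderiv ℂ γ x v0) s :=
        (hγB s hs).fderiv.differentiableAt.clm_apply (differentiableAt_const _)
      have hev : ∀ᶠ x in 𝓝 s, mv (Q x) (fderiv ℂ γ x v0) = 0 := by
        filter_upwards [hB.mem_nhds hs] with x hx
        exact hTB x hx v0
      have hder := xchb_der (hdQ s hs) hc hev a.2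
      have hsw := xchb_swap (hsymB s hs) (fderiv ℂ γ s u0)
        (fderiv ℂ (fun x => fderiv ℂ γ x v0) s a.2)
      rw [hTB s hs u0] at hsw
      simp only [Pi.zero_apply, mul_zero, Finset.sum_const_zero] at hsw
      change ∑ i, fderiv ℂ γ s u0 i * mv (xchbD Q s a) (fderiv ℂ γ s v0) i = 0
      rw [xchbD_apply, xchb_mv, hTB s hs v0, smul_zero, zero_add, ← neg_eq_zero, ← hsw,
        ← Finset.sum_neg_distrib]
      refine Finset.sum_congr rfl fun i _ => ?_
      rw [eq_neg_of_add_eq_zero_left (hder i)]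
      ring)
    (by
      rintro e ⟨R, hR, hRe⟩
      have hne : ¬ ∀ᶠ s in 𝓝 0, mv (Q s) e = 0 := by
        intro hev
        apply hRe
        funext i
        refine xchb_ker hB hdQ (xchbM e i) ?_ R hR
        have han : AnalyticOnNhd ℂ (fun s => xchbM e i (Q s)) B := fun s hs =>
          ((LinearMap.toContinuousLinearMap (xchbM e i)).analyticAt _).comp (hQB s hs)
        refine han.eqOn_zero_of_preconnected_of_eventuallyEq_zero
          (convex_ball (0 : Fin k → ℂ) r).isPreconnected h0B ?_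
        filter_upwards [hev] with s hs
        exact congrFun hs i
      obtain ⟨s, hs, hsB⟩ := ((hlin e hne).and_eventually (hB.mem_nhds h0B)).exists
      refine ⟨⟨s, hsB⟩, fun a ha => ?_⟩
      rw [xchbD_apply, xchb_mv] at ha
      exact Prod.ext (hs a.1 a.2 ha).1 (hs a.1 a.2 ha).2)
  omega

end Pool.Agent.MP_f58063_ag

end
end
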