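import Pool.Agent.Mg.Fcf0a82q.G446bd4

section

open Complex Filter Topology Function

noncomputable section

namespace Pool.Agent.MP_f58063_ag

variable {g : ℕ} {τ : Mat g}

section Gen

variable {ι X : Type} [NormedAddCommGroup X] [NormedSpace ℂ X]

/-- exponential sum -/
def xthaF (l : ι → X →L[ℂ] ℂ) (a : ι → ℂ) (x : X) : ℂ := ∑' n, a n * exp (l n x)

/-- normal convergence near a point -/
def xthaAdm (l : ι → X →L[ℂ] ℂ) (a : ι → ℂ) (x : X) : Prop :=
  ∃ r : ℝ, 0 < r ∧ Summable fun n => ‖a n * exp (l n x)‖ * Real.exp (r * ‖l n‖)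

lemma xtha_an0 (l : ι → X →L[ℂ] ℂ) (b : ι → ℂ) {r : ℝ} (hr : 0 < r)
    (hs : Summable fun n => ‖b n‖ * Real.exp (r * ‖l n‖)) :
    AnalyticAt ℂ (fun y => ∑' n, b n * exp (l n y)) 0 := by
  let q : ι → ∀ j : ℕ, ContinuousMultilinearMap ℂ (fun _ : Fin j => X) ℂ := fun n j =>
    (b n / (j.factorial : ℂ)) •
      (ContinuousMultilinearMap.mkPiAlgebraFin ℂ j ℂ).compContinuousLinearMap fun _ => l n
  have hq : ∀ n j, ‖q n j‖ * r ^ j ≤ ‖b n‖ * Real.exp (r * ‖l n‖) := by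
    intro n j
    have h1 : ‖q n j‖ ≤ ‖b n‖ / j.factorial * ‖l n‖ ^ j := by
      simp only [q]
      rw [norm_smul, norm_div, Complex.norm_natCast]
      refine mul_le_mul_of_nonneg_left ?_ (by positivity)
      refine (ContinuousMultilinearMap.norm_compContinuousLinearMap_le _ _).trans ?_
      simp
    have h2 := Real.pow_div_factorial_le_exp (r * ‖l n‖) (by positivity) j
    calc ‖q n j‖ * r ^ j ≤ ‖b n‖ / j.factorial * ‖l n‖ ^ j * r ^ j := by gcongr
      _ = ‖b n‖ * ((r * ‖l n‖) ^ j / j.factorial) := by rw [mul_pow]; ring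
      _ ≤ _ := by gcongr
  have hqs : ∀ j, Summable fun n => ‖q n j‖ * r ^ j := fun j =>
    Summable.of_nonneg_of_le (fun n => by positivity) (fun n => hq n j) hs
  have hqn : ∀ j, Summable fun n => ‖q n j‖ := fun j =>
    (summable_mul_right_iff (by positivity)).1 (hqs j)
  let p : FormalMultilinearSeries ℂ X ℂ := fun j => ∑' n, q n j
  lift r to NNReal using hr.le
  refine ⟨p, r, ?_, by exact_mod_cast hr, fun {y} hy => ?_⟩
  · refine p.le_radius_of_bound (∑' n, ‖b n‖ * Real.exp (r * ‖l n‖)) fun j => ?_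
    calc ‖p j‖ * (r : ℝ) ^ j ≤ (∑' n, ‖q n j‖) * (r : ℝ) ^ j := by
          gcongr
          exact norm_tsum_le_tsum_norm (hqn j)
      _ = ∑' n, ‖q n j‖ * (r : ℝ) ^ j := by rw [tsum_mul_right]
      _ ≤ _ := (hqs j).tsum_le_tsum (fun n => hq n j) hs
  · have hy' : ‖y‖ ≤ r := by
      rw [Metric.eball_coe, mem_ball_zero_iff] at hy
      exact hy.le
    let f : ι × ℕ → ℂ := fun w => b w.1 * (l w.1 y ^ w.2 / w.2.factorial)
    have hf1 : ∀ n, HasSum (fun j => f (n, j)) (b n * exp (l n y)) := fun n => by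
      rw [Complex.exp_eq_exp_ℂ]
      exact (NormedSpace.expSeries_div_hasSum_exp (l n y)).mul_left (b n)
    have hg1 : ∀ n, HasSum (fun j : ℕ => ‖b n‖ * ((r * ‖l n‖) ^ j / j.factorial))
        (‖b n‖ * Real.exp (r * ‖l n‖)) := fun n => by
      rw [Real.exp_eq_exp_ℝ]
      exact (NormedSpace.expSeries_div_hasSum_exp ((r : ℝ) * ‖l n‖)).mul_left ‖b n‖
    have hfs : Summable f := by
      refine Summable.of_norm_bounded
        (g := fun w : ι × ℕ => ‖b w.1‖ * ((r * ‖l w.1‖) ^ w.2 / w.2.factorial)) ?_ fun w => ?_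
      · refine (summable_prod_of_nonneg fun w => by positivity).2 ⟨fun n => (hg1 n).summable, ?_⟩
        simpa only [fun n => (hg1 n).tsum_eq] using hs
      · simp only [f, norm_mul, norm_div, norm_pow, Complex.norm_natCast]
        gcongr
        exact ((l w.1).le_opNorm y).trans (by rw [mul_comm]; gcongr)
    have h1 := (hfs.hasSum.prod_fiberwise hf1).tsum_eq
    have h2 : HasSum (fun w : ℕ × ι => f w.swap) (∑' w, f w) :=
      (Equiv.prodComm ℕ ι).hasSum_iff.2 hfs.hasSum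
    rw [zero_add, h1]
    refine h2.prod_fiberwise fun j => ?_
    have h3 := ContinuousMultilinearMap.hasSum_eval (Summable.of_norm (hqn j)).hasSum
      (fun _ => y)
    have e : (fun n => f (j, n).swap) = fun n => q n j fun _ => y := funext fun n => by
      simp [f, q, List.ofFn_const]
      ring
    rw [e]
    exact h3

lemma xtha_shift (l : ι → X →L[ℂ] ℂ) (a : ι → ℂ) (x y : X) (n : ι) :
    a n * exp (l n y) = a n * exp (l n x) * exp (l n (y - x)) := by
  rw [mul_assoc, ← Complex.exp_add, map_sub, add_sub_cancel]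

lemma xtha_an {l : ι → X →L[ℂ] ℂ} {a : ι → ℂ} {x : X} (h : xthaAdm l a x) :
    AnalyticAt ℂ (xthaF l a) x := by
  obtain ⟨r, hr, hs⟩ := h
  have h1 := xtha_an0 l (fun n => a n * exp (l n x)) hr hs
  have h2 : AnalyticAt ℂ (fun y : X => y - x) x := analyticAt_id.sub analyticAt_const
  have h3 := AnalyticAt.comp_of_eq h1 h2 (sub_self x)
  exact h3.congr (Eventually.of_forall fun y =>
    tsum_congr fun n => (xtha_shift l a x y n).symm)

lemma xtha_le {r t : ℝ} (hr : 0 < r) :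
    t * Real.exp (r / 2 * t) ≤ 2 / r * Real.exp (r * t) := by
  have h1 := Real.add_one_le_exp (r / 2 * t)
  have h2 : t ≤ 2 / r * Real.exp (r / 2 * t) := by
    rw [div_mul_eq_mul_div, le_div_iff₀ hr]
    linarith
  calc t * Real.exp (r / 2 * t) ≤ 2 / r * Real.exp (r / 2 * t) * Real.exp (r / 2 * t) := by
        gcongr
    _ = _ := by rw [mul_assoc, ← Real.exp_add]; congr 2; ring

lemma xthaAdm.summable {l : ι → X →L[ℂ] ℂ} {a : ι → ℂ} {x : X} (h : xthaAdm l a x) :
    Summable fun n => ‖a n * exp (l n x)‖ := by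
  obtain ⟨r, hr, hs⟩ := h
  refine Summable.of_nonneg_of_le (fun n => norm_nonneg _) (fun n => ?_) hs
  exact le_mul_of_one_le_right (norm_nonneg _) (Real.one_le_exp (by positivity))

lemma xthaAdm.mul {l : ι → X →L[ℂ] ℂ} {a : ι → ℂ} {x : X} (h : xthaAdm l a x) (v : X) :
    xthaAdm l (fun n => l n v * a n) x := by
  obtain ⟨r, hr, hs⟩ := h
  refine ⟨r / 2, by positivity, Summable.of_nonneg_of_le (fun n => by positivity) (fun n => ?_)
    (hs.mul_left (‖v‖ * (2 / r)))⟩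
  calc ‖l n v * a n * exp (l n x)‖ * Real.exp (r / 2 * ‖l n‖)
      ≤ (‖l n‖ * ‖v‖ * ‖a n * exp (l n x)‖) * Real.exp (r / 2 * ‖l n‖) := by
        rw [mul_assoc (l n v), norm_mul]
        gcongr
        exact (l n).le_opNorm v
    _ = ‖v‖ * ‖a n * exp (l n x)‖ * (‖l n‖ * Real.exp (r / 2 * ‖l n‖)) := by ring
    _ ≤ ‖v‖ * ‖a n * exp (l n x)‖ * (2 / r * Real.exp (r * ‖l n‖)) :=
        mul_le_mul_of_nonneg_left (xtha_le hr) (by positivity)
    _ = _ := by ring

lemma xtha_dv {l : ι → X →L[ℂ] ℂ} {a : ι → ℂ} {x : X} (h : xthaAdm l a x) (v : X) :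
    fderiv ℂ (xthaF l a) x v = xthaF l (fun n => l n v * a n) x := by
  have h0 := h.summable
  obtain ⟨r, hr, hs⟩ := h
  have hb : ∀ n y, y ∈ Metric.ball x (r / 2) → ‖(a n * exp (l n y)) • l n‖ ≤
      2 / r * (‖a n * exp (l n x)‖ * Real.exp (r * ‖l n‖)) := by
    intro n y hy
    have h1 : ‖exp (l n (y - x))‖ ≤ Real.exp (r / 2 * ‖l n‖) := by
      refine (Complex.norm_exp_le_exp_norm _).trans (Real.exp_le_exp.2 ?_)
      refine ((l n).le_opNorm _).trans ?_
      rw [mul_comm]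
      gcongr
      exact (mem_ball_iff_norm.1 hy).le
    calc ‖(a n * exp (l n y)) • l n‖
        ≤ ‖a n * exp (l n x)‖ * Real.exp (r / 2 * ‖l n‖) * ‖l n‖ := by
          rw [norm_smul, xtha_shift l a x y n, norm_mul]
          gcongr
      _ = ‖a n * exp (l n x)‖ * (‖l n‖ * Real.exp (r / 2 * ‖l n‖)) := by ring
      _ ≤ ‖a n * exp (l n x)‖ * (2 / r * Real.exp (r * ‖l n‖)) :=
          mul_le_mul_of_nonneg_left (xtha_le hr) (by positivity)
      _ = _ := by ring
  have hx : x ∈ Metric.ball x (r / 2) := Metric.mem_ball_self (by positivity)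
  have hd := hasFDerivAt_tsum_of_isPreconnected (𝕜 := ℂ) (f := fun n y => a n * exp (l n y))
    (f' := fun n y => (a n * exp (l n y)) • l n) (hs.mul_left (2 / r)) Metric.isOpen_ball
    (convex_ball x (r / 2)).isPreconnected (fun n y _ => by
      have := ((l n).hasFDerivAt (x := y)).cexp.const_mul (a n)
      rwa [smul_smul] at this) hb hx h0.of_norm hx
  have hsum : Summable fun n => (a n * exp (l n x)) • l n :=
    Summable.of_norm_bounded (hs.mul_left (2 / r)) fun n => hb n x hx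
  have h2 := (ContinuousLinearMap.apply ℂ ℂ v).map_tsum hsum
  have h3 : fderiv ℂ (xthaF l a) x = _ := hd.fderiv
  rw [h3]
  refine h2.trans (tsum_congr fun n => ?_)
  simp only [ContinuousLinearMap.apply_apply, smul_apply, smul_eq_mul]
  ring

lemma xthaAdm.prod {l : ι → X →L[ℂ] ℂ} {x : X} (h : xthaAdm l (fun _ => 1) x) (L : List X) :
    xthaAdm l (fun n => (L.map (l n)).prod) x := by
  induction L with
  | nil => exact h
  | cons v L ih => simpa only [List.map_cons, List.prod_cons] using ih.mul v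

lemma xtha_dd {l : ι → X →L[ℂ] ℂ} {U : Set X} (hU : IsOpen U)
    (h : ∀ x ∈ U, xthaAdm l (fun _ => 1) x) (L : List X) :
    ∀ x ∈ U, dd L (xthaF l fun _ => 1) x = xthaF l (fun n => (L.map (l n)).prod) x := by
  induction L with
  | nil => exact fun x _ => rfl
  | cons v L ih =>
    intro x hx
    have h1 : dd L (xthaF l fun _ => 1) =ᶠ[𝓝 x] xthaF l fun n => (L.map (l n)).prod :=
      eventually_of_mem (hU.mem_nhds hx) ih
    rw [dd_cons, dv_apply, h1.fderiv_eq, xtha_dv ((h x hx).prod L)]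
    simp only [List.map_cons, List.prod_cons]

end Gen

lemma xtha_quad (v : Fin g → ℝ) (M : Fin g → Fin g → ℝ) {t : ℝ} (h : ∀ i j, |M i j| ≤ t) :
    |∑ i, ∑ j, v i * M i j * v j| ≤ t * (∑ i, |v i|) ^ 2 := by
  rw [sq, Finset.sum_mul_sum, Finset.mul_sum]
  refine (Finset.abs_sum_le_sum_abs _ _).trans (Finset.sum_le_sum fun i _ => ?_)
  rw [Finset.mul_sum]
  refine (Finset.abs_sum_le_sum_abs _ _).trans (Finset.sum_le_sum fun j _ => ?_)
  rw [abs_mul, abs_mul]
  calc |v i| * |M i j| * |v j| ≤ |v i| * t * |v j| := by gcongr; exact h i j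
    _ = _ := by ring

lemma xtha_c (hτ : τ ∈ PosIm g) : ∃ c : ℝ, 0 < c ∧ ∀ v : Fin g → ℝ,
    c * (∑ i, |v i|) ^ 2 ≤ ∑ i, ∑ j, v i * (τ i j).im * v j := by
  obtain ⟨a, ha, h⟩ := (isCompact_sphere (0 : Fin g → ℝ) 1).exists_forall_le'
    (f := fun v : Fin g → ℝ => ∑ i, ∑ j, v i * (τ i j).im * v j) (by fun_prop) (a := 0)
    (fun v hv => hτ v (by
      rintro rfl
      simp at hv))
  refine ⟨a / (g + 1) ^ 2, by positivity, fun v => ?_⟩
  rcases eq_or_ne v 0 with rfl | hv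
  · simp
  have hn : 0 < ‖v‖ := norm_pos_iff.2 hv
  have h1 := h (‖v‖⁻¹ • v) (by
    rw [mem_sphere_zero_iff_norm, norm_smul, norm_inv, norm_norm, inv_mul_cancel₀ hn.ne'])
  have h2 : ∑ i, ∑ j, v i * (τ i j).im * v j =
      ‖v‖ ^ 2 * ∑ i, ∑ j, (‖v‖⁻¹ • v) i * (τ i j).im * (‖v‖⁻¹ • v) j := by
    simp only [Finset.mul_sum, Pi.smul_apply, smul_eq_mul]
    refine Finset.sum_congr rfl fun i _ => Finset.sum_congr rfl fun j _ => ?_
    field_simp
  have h3 : ∑ i, |v i| ≤ (g + 1) * ‖v‖ := by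
    have := Finset.sum_le_card_nsmul Finset.univ (fun i => |v i|) ‖v‖
      fun i _ => norm_le_pi_norm v i
    rw [Finset.card_univ, Fintype.card_fin, nsmul_eq_mul] at this
    linarith
  calc a / (g + 1) ^ 2 * (∑ i, |v i|) ^ 2 ≤ a / (g + 1) ^ 2 * ((g + 1) * ‖v‖) ^ 2 := by gcongr
    _ = ‖v‖ ^ 2 * a := by field_simp
    _ ≤ _ := by rw [h2]; gcongr

lemma xtha_gauss (k : ℕ) : Summable fun n : Fin k → ℤ => Real.exp (-∑ i, |(n i : ℝ)|) := by
  induction k with
  | zero => exact Summable.of_finite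
  | succ k ih =>
    have h1 : Summable fun m : ℤ => Real.exp (-|(m : ℝ)|) :=
      Summable.of_nat_of_neg (by simpa using Real.summable_exp_neg_nat)
        (by simpa using Real.summable_exp_neg_nat)
    have h2 := h1.mul_of_nonneg ih (fun _ => (Real.exp_pos _).le) fun _ => (Real.exp_pos _).le
    refine (Fin.consEquiv fun _ : Fin (k + 1) => ℤ).summable_iff.1 (h2.congr fun w => ?_)
    simp [Fin.consEquiv, Fin.sum_univ_succ, ← Real.exp_add, add_comm]

/-- the exponent as a linear map -/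
def xthaL0 (n : Fin g → ℤ) : Mat g × EE g →ₗ[ℂ] ℂ where
  toFun x := Real.pi * I * ∑ i, ∑ j, (n i : ℂ) * x.1 i j * n j +
    2 * Real.pi * I * ∑ i, (n i : ℂ) * x.2 i
  map_add' x y := by
    simp only [Prod.fst_add, Prod.snd_add, Pi.add_apply, mul_add, add_mul, Finset.sum_add_distrib]
    ring
  map_smul' c x := by
    simp only [Prod.smul_fst, Prod.smul_snd, Pi.smul_apply, smul_eq_mul, RingHom.id_apply,
      mul_add, Finset.mul_sum]
    congr 1
    · exact Finset.sum_congr rfl fun i _ => Finset.sum_congr rfl fun j _ => by ring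
    · exact Finset.sum_congr rfl fun i _ => by ring

lemma xthaL0_le (n : Fin g → ℤ) (x : Mat g × EE g) : ‖xthaL0 n x‖ ≤
    Real.pi * ((∑ i, |(n i : ℝ)|) ^ 2 + 2 * ∑ i, |(n i : ℝ)|) * ‖x‖ := by
  have h1 : ‖∑ i, ∑ j, (n i : ℂ) * x.1 i j * n j‖ ≤ (∑ i, |(n i : ℝ)|) ^ 2 * ‖x‖ := by
    rw [sq, Finset.sum_mul_sum, Finset.sum_mul]
    refine (norm_sum_le _ _).trans (Finset.sum_le_sum fun i _ => ?_)
    rw [Finset.sum_mul]
    refine (norm_sum_le _ _).trans (Finset.sum_le_sum fun j _ => ?_)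
    rw [norm_mul, norm_mul, Complex.norm_intCast, Complex.norm_intCast]
    have : ‖x.1 i j‖ ≤ ‖x‖ :=
      ((norm_le_pi_norm _ j).trans (norm_le_pi_norm x.1 i)).trans (norm_fst_le x)
    calc |(n i : ℝ)| * ‖x.1 i j‖ * |(n j : ℝ)| ≤ |(n i : ℝ)| * ‖x‖ * |(n j : ℝ)| := by gcongr
      _ = _ := by ring
  have h2 : ‖∑ i, (n i : ℂ) * x.2 i‖ ≤ (∑ i, |(n i : ℝ)|) * ‖x‖ := by
    rw [Finset.sum_mul]
    refine (norm_sum_le _ _).trans (Finset.sum_le_sum fun i _ => ?_)
    rw [norm_mul, Complex.norm_intCast]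
    gcongr
    exact (norm_le_pi_norm _ i).trans (norm_snd_le x)
  refine (norm_add_le _ _).trans ?_
  simp only [norm_mul, Complex.norm_real, Complex.norm_I, Real.norm_eq_abs, abs_of_pos Real.pi_pos,
    Complex.norm_ofNat, mul_one]
  nlinarith [mul_le_mul_of_nonneg_left h1 Real.pi_pos.le,
    mul_le_mul_of_nonneg_left h2 Real.pi_pos.le]

/-- the exponent as a continuous linear map -/
def xthaL (n : Fin g → ℤ) : Mat g × EE g →L[ℂ] ℂ := (xthaL0 n).mkContinuous _ (xthaL0_le n)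

lemma xthaL_apply (n : Fin g → ℤ) (x : Mat g × EE g) : xthaL n x =
    Real.pi * I * ∑ i, ∑ j, (n i : ℂ) * x.1 i j * n j +
      2 * Real.pi * I * ∑ i, (n i : ℂ) * x.2 i := rfl

lemma xtha_Theta : Theta g = xthaF xthaL fun _ => 1 := by
  funext x
  simp only [Theta, theta, xthaF, xthaL_apply, one_mul]

lemma xtha_adm (hτ : τ ∈ PosIm g) (z : EE g) : xthaAdm xthaL (fun _ => 1) (τ, z) := by
  obtain ⟨c, hc, h⟩ := xtha_c hτ
  have hπ := Real.pi_gt_three
  set B : ℝ := Real.pi * (2 * ‖z‖ + c) + 1 with hB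
  refine ⟨c / 2, by positivity, Summable.of_nonneg_of_le (fun n => by positivity) (fun n => ?_)
    ((xtha_gauss g).mul_left (Real.exp (B ^ 2 / (2 * Real.pi * c))))⟩
  rw [one_mul, Complex.norm_exp, ← Real.exp_add, ← Real.exp_add, Real.exp_le_exp]
  have h1 : ‖xthaL n‖ ≤ Real.pi * ((∑ i, |(n i : ℝ)|) ^ 2 + 2 * ∑ i, |(n i : ℝ)|) :=
    LinearMap.mkContinuous_norm_le _ (by positivity) _
  have h2 : (xthaL n (τ, z)).re = -(Real.pi * ∑ i, ∑ j, (n i : ℝ) * (τ i j).im * n j) -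
      2 * Real.pi * ∑ i, (n i : ℝ) * (z i).im := by
    rw [xthaL_apply]
    simp [Complex.im_sum, sub_eq_add_neg]
  have h3 : -∑ i, (n i : ℝ) * (z i).im ≤ (∑ i, |(n i : ℝ)|) * ‖z‖ := by
    rw [Finset.sum_mul, ← Finset.sum_neg_distrib]
    refine Finset.sum_le_sum fun i _ => (neg_le_abs _).trans ?_
    rw [abs_mul]
    gcongr
    exact (Complex.abs_im_le_norm _).trans (norm_le_pi_norm z i)
  have h4 := h fun i => (n i : ℝ)
  rw [h2]
  generalize ∑ i, |(n i : ℝ)| = A at h1 h3 h4 ⊢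
  have h5 : B * A - Real.pi * c / 2 * A ^ 2 ≤ B ^ 2 / (2 * Real.pi * c) := by
    rw [le_div_iff₀ (by positivity)]
    nlinarith [sq_nonneg (B - Real.pi * c * A)]
  have h6 := mul_le_mul_of_nonneg_left h1 (show 0 ≤ c / 2 by positivity)
  have h7 := mul_le_mul_of_nonneg_left h3 (show 0 ≤ 2 * Real.pi by positivity)
  have h8 := mul_le_mul_of_nonneg_left h4 Real.pi_pos.le
  rw [hB] at h5
  linarith

theorem isOpen_PosIm : IsOpen (PosIm g) := by
  refine Metric.isOpen_iff.2 fun σ hσ => ?_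
  obtain ⟨c, hc, h⟩ := xtha_c hσ
  refine ⟨c, hc, fun ρ hρ v hv => ?_⟩
  have hd : ‖ρ - σ‖ < c := mem_ball_iff_norm.1 hρ
  have h1 := xtha_quad v (fun i j => (ρ i j).im - (σ i j).im) (t := ‖ρ - σ‖) fun i j => by
    rw [← Complex.sub_im]
    exact (Complex.abs_im_le_norm _).trans
      ((norm_le_pi_norm ((ρ - σ) i) j).trans (norm_le_pi_norm (ρ - σ) i))
  have h2 : 0 < ∑ i, |v i| := by
    obtain ⟨i, hi⟩ := Function.ne_iff.1 hv
    exact Finset.sum_pos' (fun i _ => abs_nonneg _) ⟨i, Finset.mem_univ i, abs_pos.2 hi⟩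
  have h3 := mul_lt_mul_of_pos_right hd (pow_pos h2 2)
  have h4 := h v
  have h5 := (abs_le.1 h1).1
  simp only [mul_sub, sub_mul, Finset.sum_sub_distrib] at h5
  linarith

theorem theta_summable (hτ : τ ∈ PosIm g) (z : EE g) :
    Summable fun n : Fin g → ℤ => ‖exp (Real.pi * I * ∑ i, ∑ j, (n i : ℂ) * τ i j * n j +
      2 * Real.pi * I * ∑ i, (n i : ℂ) * z i)‖ := by
  simpa only [one_mul, xthaL_apply] using (xtha_adm hτ z).summable

theorem Theta_analytic (hτ : τ ∈ PosIm g) (z : EE g) : AnalyticAt ℂ (Theta g) (τ, z) := by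
  rw [xtha_Theta]
  exact xtha_an (xtha_adm hτ z)

theorem theta_analytic (hτ : τ ∈ PosIm g) (z : EE g) : AnalyticAt ℂ (theta τ) z := by
  exact (Theta_analytic hτ z).comp (f := fun w => (τ, w)) (analyticAt_const.prod analyticAt_id)

/-- the heat equation -/
theorem heat (hτ : τ ∈ PosIm g) (z : EE g) (L : List (Fin g)) (S : Mat g) :
    fderiv ℂ (dd (L.map fun i => ((0 : Mat g), ee i)) (Theta g)) (τ, z) (S, 0) =
      (4 * Real.pi * I)⁻¹ * ∑ i, ∑ j, S i j * dI (i :: j :: L) (theta τ) z := by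
  have hU : IsOpen (PosIm g ×ˢ (Set.univ : Set (EE g))) := isOpen_PosIm.prod isOpen_univ
  have hdd := fun L => xtha_dd (l := xthaL) hU (fun x hx => xtha_adm hx.1 x.2) L (τ, z)
    ⟨hτ, trivial⟩
  have hI : ∀ L : List (Fin g), HasSum (fun n => ((L.map fun i => ((0 : Mat g), ee i)).map
      (xthaL n)).prod * exp (xthaL n (τ, z))) (dI L (theta τ) z) := by
    intro L
    have h1 := dd_slice (Theta_analytic hτ z) L
    have h2 : dI L (theta τ) z = _ := h1.symm
    rw [h2, xtha_Theta, hdd]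
    exact ((xtha_adm hτ z).prod _).summable.of_norm.hasSum
  have h0 := hdd ((S, 0) :: L.map fun i => ((0 : Mat g), ee i))
  rw [← xtha_Theta] at h0
  refine h0.trans (HasSum.tsum_eq ?_)
  have h3 := (hasSum_sum fun i (_ : i ∈ Finset.univ) => hasSum_sum fun j (_ : j ∈ Finset.univ) =>
    (hI (i :: j :: L)).mul_left (S i j)).mul_left (4 * Real.pi * I)⁻¹
  refine (congrArg (fun F => HasSum F _) (funext fun n => ?_)).mpr h3
  have e1 : ∀ i, xthaL n ((0 : Mat g), ee i) = 2 * Real.pi * I * n i := fun i => by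
    simp [xthaL_apply, Pi.single_apply]
  have e2 : xthaL n (S, 0) = Real.pi * I * ∑ i, ∑ j, (n i : ℂ) * S i j * n j := by
    simp [xthaL_apply]
  have hπ : (Real.pi : ℂ) ≠ 0 := by exact_mod_cast Real.pi_ne_zero
  simp only [List.map_cons, List.prod_cons, e1, e2, Finset.mul_sum, Finset.sum_mul]
  refine Finset.sum_congr rfl fun i _ => Finset.sum_congr rfl fun j _ => ?_
  field_simp
  ring

end Pool.Agent.MP_f58063_ag

end
end

section

open Complex Filter Topology Function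

noncomputable section

namespace Pool.Agent.MP_f58063_ag

variable {g : ℕ} {τ : Mat g}

/-- the exponent of the general term of the theta series -/
def xthb_ex (τ : Mat g) (k : Fin g → ℤ) (z : EE g) : ℂ :=
  Real.pi * I * ∑ i, ∑ j, (k i : ℂ) * τ i j * k j + 2 * Real.pi * I * ∑ i, (k i : ℂ) * z i

theorem xthb_shift (hτ : τ ∈ Siegel g) (m n k : Fin g → ℤ) (z : EE g) :
    xthb_ex τ k (z + per τ m n) =
      -xthb_ex τ n z + xthb_ex τ (k + n) z + ((∑ i, k i * m i : ℤ) : ℂ) * (2 * Real.pi * I) := by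
  have h1 : ∑ i, ∑ j, (((k + n) i : ℤ) : ℂ) * τ i j * ((k + n) j : ℤ) =
      ∑ i, ∑ j, (k i : ℂ) * τ i j * k j + ∑ i, ∑ j, (k i : ℂ) * τ i j * n j +
        ∑ i, ∑ j, (n i : ℂ) * τ i j * k j + ∑ i, ∑ j, (n i : ℂ) * τ i j * n j := by
    simp only [← Finset.sum_add_distrib]
    refine Finset.sum_congr rfl fun i _ => Finset.sum_congr rfl fun j _ => ?_
    simp only [Pi.add_apply, Int.cast_add]
    ring
  have h2 : ∑ i, ∑ j, (n i : ℂ) * τ i j * k j = ∑ i, ∑ j, (k i : ℂ) * τ i j * n j := by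
    rw [Finset.sum_comm]
    refine Finset.sum_congr rfl fun i _ => Finset.sum_congr rfl fun j _ => ?_
    rw [hτ.1 j i]
    ring
  have h3 : ∑ i, (((k + n) i : ℤ) : ℂ) * z i = ∑ i, (k i : ℂ) * z i + ∑ i, (n i : ℂ) * z i := by
    simp only [← Finset.sum_add_distrib]
    refine Finset.sum_congr rfl fun i _ => ?_
    simp only [Pi.add_apply, Int.cast_add]
    ring
  have h4 : ∑ i, (k i : ℂ) * (z + per τ m n) i = ∑ i, (k i : ℂ) * z i +
      ((∑ i, k i * m i : ℤ) : ℂ) + ∑ i, ∑ j, (k i : ℂ) * τ i j * n j := by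
    push_cast
    simp only [← Finset.sum_add_distrib]
    refine Finset.sum_congr rfl fun i _ => ?_
    simp only [Pi.add_apply, per, mul_add, Finset.mul_sum, mul_assoc, add_assoc]
  simp only [xthb_ex]
  rw [h1, h2, h3, h4]
  ring

theorem theta_per (hτ : τ ∈ Siegel g) (m n : Fin g → ℤ) (z : EE g) :
    theta τ (z + per τ m n) = aut τ n z * theta τ z := by
  change ∑' k, exp (xthb_ex τ k (z + per τ m n)) =
    exp (-xthb_ex τ n z) * ∑' k, exp (xthb_ex τ k z)
  rw [← (Equiv.addRight n).tsum_eq fun k => exp (xthb_ex τ k z), ← tsum_mul_left]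
  refine tsum_congr fun k => ?_
  rw [xthb_shift hτ, exp_add, exp_add, exp_int_mul_two_pi_mul_I, mul_one]
  rfl

theorem xthb_coeff {H : Type} [NormedAddCommGroup H] [InnerProductSpace ℂ H]
    (T : C(UnitAddTorus (Fin g), ℂ) →L[ℂ] H)
    (hT : Orthonormal ℂ fun n => T (UnitAddTorus.mFourier n)) {c : (Fin g → ℤ) → ℂ}
    (hc : HasSum (fun n => c n • UnitAddTorus.mFourier n) (0 : C(UnitAddTorus (Fin g), ℂ))) :
    c 0 = 0 := by
  classical
  have h1 := ((innerSL ℂ (T (UnitAddTorus.mFourier 0))).comp T).hasSum hc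
  have h2 : HasSum (fun n => ((innerSL ℂ (T (UnitAddTorus.mFourier 0))).comp T)
      (c n • UnitAddTorus.mFourier n)) (c 0) := by
    have e := orthonormal_iff_ite.1 hT
    convert hasSum_ite_eq (0 : Fin g → ℤ) (c 0) using 2 with n
    simp only [ContinuousLinearMap.comp_apply, map_smul, innerSL_apply_apply, smul_eq_mul]
    rw [e]
    by_cases hn : n = 0
    · simp [hn]
    · simp [hn, Ne.symm hn]
  rw [map_zero] at h1
  exact h2.unique h1

theorem theta_ne (hτ : τ ∈ PosIm g) : ∃ z, theta τ z ≠ 0 := by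
  by_contra hne
  push Not at hne
  set c : (Fin g → ℤ) → ℂ := fun n => exp (xthb_ex τ n 0) with hcdef
  have hs : Summable fun n => c n • UnitAddTorus.mFourier n := by
    refine Summable.of_norm ?_
    simp only [norm_smul, UnitAddTorus.mFourier_norm, mul_one]
    exact theta_summable hτ 0
  have h0 : ∑' n, c n • UnitAddTorus.mFourier n = (0 : C(UnitAddTorus (Fin g), ℂ)) := by
    ext x
    choose y hy using fun i => QuotientAddGroup.mk_surjective (x i)
    rw [← ContinuousMap.tsum_apply hs, ContinuousMap.zero_apply, ← hne fun i => (y i : ℂ)]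
    refine tsum_congr fun n => ?_
    have hx : x = fun i => ((y i : ℝ) : UnitAddCircle) := funext fun i => (hy i).symm
    simp only [hx, ContinuousMap.smul_apply, UnitAddTorus.mFourier, ContinuousMap.coe_mk,
      fourier_coe_apply, smul_eq_mul, hcdef, ← exp_sum, ← exp_add, xthb_ex]
    congr 1
    simp only [Pi.zero_apply, mul_zero, Finset.sum_const_zero, add_zero, ofReal_one, div_one,
      add_right_inj, Finset.mul_sum]
    refine Finset.sum_congr rfl fun i _ => ?_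
    ring
  have h1 := xthb_coeff _ UnitAddTorus.orthonormal_mFourier (h0 ▸ hs.hasSum)
  exact exp_ne_zero _ h1

theorem xthb_aut (n : Fin g → ℤ) (z a : EE g) :
    aut τ n (z + a) = aut τ n z * exp (-(2 * Real.pi * I * ∑ i, (n i : ℂ) * a i)) := by
  simp only [aut, ← exp_add, Pi.add_apply, mul_add, Finset.sum_add_distrib]
  congr 1
  ring

theorem xthb_an (hτ : τ ∈ PosIm g) {X : Type} [NormedAddCommGroup X] [NormedSpace ℂ X]
    {f : X → EE g} {x : X} (hf : AnalyticAt ℂ f x) : AnalyticAt ℂ (fun y => theta τ (f y)) x :=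
  (theta_analytic hτ _).comp hf

theorem xthb_neg (n : Fin g → ℤ) (a : EE g) :
    ∑ i, (n i : ℂ) * (-a) i = -∑ i, (n i : ℂ) * a i := by
  simp only [Pi.neg_apply, mul_neg, Finset.sum_neg_distrib]

theorem theta_two (hτ : τ ∈ Siegel g) (a : EE g) :
    (fun z => theta τ (z + a) * theta τ (z - a)) ∈ Th τ 2 := by
  refine ⟨fun z => (xthb_an hτ.2 (by fun_prop)).mul (xthb_an hτ.2 (by fun_prop)), fun m n z => ?_⟩
  have e1 : z + per τ m n + a = z + a + per τ m n := by abel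
  have e2 : z + per τ m n - a = z + -a + per τ m n := by abel
  have e3 : exp (-(2 * Real.pi * I * ∑ i, (n i : ℂ) * a i)) *
      exp (-(2 * Real.pi * I * ∑ i, (n i : ℂ) * (-a) i)) = 1 := by
    rw [← exp_add, xthb_neg, ← exp_zero]
    congr 1
    ring
  simp only [e1, e2, theta_per hτ, xthb_aut, sub_eq_add_neg z a]
  linear_combination (aut τ n z ^ 2 * theta τ (z + a) * theta τ (z + -a)) * e3

theorem theta_three (hτ : τ ∈ Siegel g) (a b : EE g) :
    (fun z => theta τ (z + a) * theta τ (z + b) * theta τ (z - a - b)) ∈ Th τ 3 := by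
  refine ⟨fun z => ((xthb_an hτ.2 (by fun_prop)).mul (xthb_an hτ.2 (by fun_prop))).mul
    (xthb_an hτ.2 (by fun_prop)), fun m n z => ?_⟩
  have e1 : z + per τ m n + a = z + a + per τ m n := by abel
  have e1' : z + per τ m n + b = z + b + per τ m n := by abel
  have e2 : z + per τ m n - a - b = z + -a + -b + per τ m n := by abel
  have e2' : z - a - b = z + -a + -b := by abel
  have e3 : exp (-(2 * Real.pi * I * ∑ i, (n i : ℂ) * a i)) *
      exp (-(2 * Real.pi * I * ∑ i, (n i : ℂ) * b i)) *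
      exp (-(2 * Real.pi * I * ∑ i, (n i : ℂ) * (-a) i)) *
      exp (-(2 * Real.pi * I * ∑ i, (n i : ℂ) * (-b) i)) = 1 := by
    rw [← exp_add, ← exp_add, ← exp_add, xthb_neg, xthb_neg, ← exp_zero]
    congr 1
    ring
  simp only [e1, e1', e2, e2', theta_per hτ, xthb_aut]
  linear_combination
    (aut τ n z ^ 3 * theta τ (z + a) * theta τ (z + b) * theta τ (z + -a + -b)) * e3

/-- two entire functions that are not identically zero have a common non-zero -/
theorem xthb_both {f f' : EE g → ℂ} (hf : ∀ x, AnalyticAt ℂ f x) (hf' : ∀ x, AnalyticAt ℂ f' x)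
    (h : ∃ x, f x ≠ 0) (h' : ∃ x, f' x ≠ 0) : ∃ x, f x ≠ 0 ∧ f' x ≠ 0 := by
  by_contra hne
  push Not at hne
  have h0 : ∀ᶠ y in 𝓝 (0 : EE g), f y * f' y = 0 := Eventually.of_forall fun y => by
    by_cases hy : f y = 0
    · rw [hy, zero_mul]
    · rw [hne y hy, mul_zero]
  obtain ⟨x, hx⟩ := h
  obtain ⟨x', hx'⟩ := h'
  rcases germ_mul_zero (hf 0) (hf' 0) h0 with h1 | h1
  · exact hx (congrFun (entire_zero hf h1) x)
  · exact hx' (congrFun (entire_zero hf' h1) x')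

theorem xthb_pt2 (hτ : τ ∈ PosIm g) (p : EE g) :
    ∃ a, theta τ (p + a) ≠ 0 ∧ theta τ (p - a) ≠ 0 := by
  obtain ⟨z, hz⟩ := theta_ne hτ
  refine xthb_both (f := fun a => theta τ (p + a)) (f' := fun a => theta τ (p - a))
    (fun x => xthb_an hτ (by fun_prop)) (fun x => xthb_an hτ (by fun_prop))
    ⟨z - p, by simpa using hz⟩ ⟨p - z, by simpa using hz⟩

theorem xthb_pt3 (hτ : τ ∈ PosIm g) (p : EE g) :
    ∃ b, theta τ (p + b) ≠ 0 ∧ theta τ (p - b - b) ≠ 0 := by
  obtain ⟨z, hz⟩ := theta_ne hτ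
  refine xthb_both (f := fun a => theta τ (p + a)) (f' := fun a => theta τ (p - a - a))
    (fun x => xthb_an hτ (by fun_prop)) (fun x => xthb_an hτ (by fun_prop))
    ⟨z - p, by simpa using hz⟩ ⟨(1 / 2 : ℂ) • (p - z), ?_⟩
  have e : p - (1 / 2 : ℂ) • (p - z) - (1 / 2 : ℂ) • (p - z) = z := by module
  simpa only [e] using hz

theorem bpf_two (hτ : τ ∈ Siegel g) (p : EE g) : ∃ t ∈ Th τ 2, t p ≠ 0 := by
  obtain ⟨a, h1, h2⟩ := xthb_pt2 hτ.2 p
  exact ⟨_, theta_two hτ a, mul_ne_zero h1 h2⟩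

/-- theta times a unit is an abelian function near `p` -/
theorem theta_unit (hτ : τ ∈ Siegel g) (p : EE g) :
    ∃ η : EE g → ℂ, AnalyticAt ℂ η p ∧ η p ≠ 0 ∧ Ab τ p fun z => η z * theta τ z := by
  obtain ⟨a, h1, h2⟩ := xthb_pt2 hτ.2 p
  obtain ⟨b, h3, h4⟩ := xthb_pt3 hτ.2 p
  have ht := theta_three hτ b b
  have htp : theta τ (p + b) * theta τ (p + b) * theta τ (p - b - b) ≠ 0 :=
    mul_ne_zero (mul_ne_zero h3 h3) h4
  refine ⟨fun z => theta τ (z + a) * theta τ (z - a) /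
    (theta τ (z + b) * theta τ (z + b) * theta τ (z - b - b)),
    ((theta_two hτ a).1 p).div (ht.1 p) htp, div_ne_zero (mul_ne_zero h1 h2) htp,
    3, _, theta_three hτ 0 a, _, ht, htp, Eventually.of_forall fun z => ?_⟩
  simp only [add_zero, sub_zero]
  ring

end Pool.Agent.MP_f58063_ag

end
end

section

open Complex Filter Topology Function

noncomputable section

namespace Pool.Agent.MP_f58063_ag

variable {X : Type} [NormedAddCommGroup X] [NormedSpace ℂ X]
variable [FiniteDimensional ℂ X]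

/-- coordinates on a subspace, extended to the whole space -/
lemma xchart_proj (K : Submodule ℂ X) :
    ∃ π : X →L[ℂ] (Fin (Module.finrank ℂ K) → ℂ), (∀ v ∈ K, π v = 0 → v = 0) ∧
      ∀ w, ∃ v ∈ K, π v = w := by
  obtain ⟨q, hq⟩ := LinearMap.exists_leftInverse_of_injective K.subtype K.ker_subtype
  have hq' : ∀ v : K, q v = v := fun v => LinearMap.congr_fun hq v
  let e := (Module.finBasis ℂ K).equivFun
  refine ⟨LinearMap.toContinuousLinearMap (e.toLinearMap ∘ₗ q), fun v hv h => ?_, fun w => ?_⟩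
  · have h1 : e (q v) = 0 := h
    rw [hq' ⟨v, hv⟩, e.map_eq_zero_iff] at h1
    exact congrArg Subtype.val h1
  · refine ⟨e.symm w, (e.symm w).2, ?_⟩
    change e (q (e.symm w)) = w
    rw [hq', e.apply_symm_apply]

/-- a submersion is part of a local analytic coordinate system -/
theorem chart {r : ℕ} {h : X → Fin r → ℂ} {p : X} (hh : AnalyticAt ℂ h p)
    (hs : Surjective (fderiv ℂ h p)) :
    ∃ (n : ℕ) (π : X →L[ℂ] (Fin n → ℂ)) (Ψ : (Fin r → ℂ) × (Fin n → ℂ) → X),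
      n + r = Module.finrank ℂ X ∧ AnalyticAt ℂ Ψ (h p, π p) ∧
      (∀ᶠ x in 𝓝 p, Ψ (h x, π x) = x) ∧ ∀ᶠ y in 𝓝 (h p, π p), h (Ψ y) = y.1 ∧ π (Ψ y) = y.2 := by
  have : CompleteSpace X := FiniteDimensional.complete ℂ X
  set D : X →ₗ[ℂ] (Fin r → ℂ) := (fderiv ℂ h p).toLinearMap with hD
  obtain ⟨π, h1, -⟩ := xchart_proj (LinearMap.ker D)
  have hr : Module.finrank ℂ (LinearMap.ker D) + r = Module.finrank ℂ X := by
    have h2 := LinearMap.finrank_range_add_finrank_ker D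
    rw [LinearMap.range_eq_top.2 hs, finrank_top, Module.finrank_fin_fun] at h2
    omega
  have hinj : Injective ((fderiv ℂ h p).prod π).toLinearMap := by
    refine (injective_iff_map_eq_zero _).2 fun v hv => ?_
    exact h1 v (congrArg Prod.fst hv) (congrArg Prod.snd hv)
  let E := (LinearEquiv.ofInjectiveOfFinrankEq _ hinj (by
    rw [Module.finrank_prod, Module.finrank_fin_fun, Module.finrank_fin_fun]
    omega)).toContinuousLinearEquiv
  have hE : (E : X →L[ℂ] _) = (fderiv ℂ h p).prod π := by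
    ext1 v
    rfl
  have ha : AnalyticAt ℂ (fun x => (h x, π x)) p := hh.prod (π.analyticAt p)
  have hst : HasStrictFDerivAt (fun x => (h x, π x)) (E : X →L[ℂ] _) p := by
    rw [hE]
    exact hh.hasStrictFDerivAt.prodMk π.hasStrictFDerivAt
  refine ⟨_, π, hst.localInverse _ _ _, hr, ?_, hst.eventually_left_inverse, ?_⟩
  · exact (hst.toOpenPartialHomeomorph _).analyticAt_symm'
      hst.mem_toOpenPartialHomeomorph_source ha hst.hasFDerivAt.fderiv
  · filter_upwards [hst.eventually_right_inverse] with y hy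
    exact ⟨congrArg Prod.fst hy, congrArg Prod.snd hy⟩

/-- parametrisation of a level set of a submersion -/
theorem level_param {r : ℕ} {h : X → Fin r → ℂ} {p : X} (hh : AnalyticAt ℂ h p)
    (hs : Surjective (fderiv ℂ h p)) :
    ∃ (n : ℕ) (σ : (Fin n → ℂ) → X) (π : X → Fin n → ℂ), n + r = Module.finrank ℂ X ∧ σ 0 = p ∧
      AnalyticAt ℂ σ 0 ∧ Continuous π ∧ π p = 0 ∧ (∀ᶠ x in 𝓝 p, h x = h p → σ (π x) = x) ∧
      ∀ᶠ s in 𝓝 0, h (σ s) = h p ∧ Injective (fderiv ℂ σ s) ∧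
        ∀ v, fderiv ℂ h (σ s) v = 0 ↔ ∃ w, fderiv ℂ σ s w = v := by
  have : CompleteSpace X := FiniteDimensional.complete ℂ X
  obtain ⟨n, π, Ψ, hn, hΨ, h1, h2⟩ := chart hh hs
  have hι : ∀ s : Fin n → ℂ, HasFDerivAt (fun t : Fin n → ℂ => (h p, π p + t))
      (ContinuousLinearMap.inr ℂ (Fin r → ℂ) (Fin n → ℂ)) s := fun s =>
    (hasFDerivAt_const (h p) s).prodMk ((hasFDerivAt_id s).const_add (π p))
  have hT : Tendsto (fun t : Fin n → ℂ => (h p, π p + t)) (𝓝 0) (𝓝 (h p, π p)) := by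
    simpa using (hι 0).continuousAt.tendsto
  have h0 : Ψ (h p, π p + 0) = p := by
    rw [add_zero]
    exact h1.self_of_nhds
  have hσ : AnalyticAt ℂ (fun s : Fin n → ℂ => Ψ (h p, π p + s)) 0 :=
    AnalyticAt.comp_of_eq hΨ (analyticAt_const.prod (analyticAt_const.add analyticAt_id))
      (by simp)
  have hσT : Tendsto (fun s : Fin n → ℂ => Ψ (h p, π p + s)) (𝓝 0) (𝓝 p) := by
    have := hσ.continuousAt.tendsto
    rwa [h0] at this
  refine ⟨n, fun s => Ψ (h p, π p + s), fun x => π x - π p, hn, h0, hσ,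
    π.continuous.sub continuous_const, sub_self _, ?_, ?_⟩
  · filter_upwards [h1] with x hx e
    rw [add_sub_cancel, ← e, hx]
  filter_upwards [(hT.eventually h2).eventually_nhds, hT.eventually hΨ.eventually_analyticAt,
    hσT.eventually hh.eventually_analyticAt, hσT.eventually h1.eventually_nhds] with s k1 k2 k3 k4
  have d1 := k2.differentiableAt.hasFDerivAt
  have d2 : HasFDerivAt (fun t : Fin n → ℂ => Ψ (h p, π p + t)) _ s := d1.comp s (hι s)
  have d3 := k3.differentiableAt.hasFDerivAt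
  have k0 := k1.self_of_nhds
  refine ⟨k0.1, ?_, fun v => ⟨fun hv => ?_, ?_⟩⟩
  · have e1 := (π.hasFDerivAt.comp s d2.differentiableAt.hasFDerivAt).unique
      (((hasFDerivAt_id s).const_add (π p)).congr_of_eventuallyEq (k1.mono fun t ht => ht.2))
    refine LeftInverse.injective (g := π) fun w => ?_
    exact ContinuousLinearMap.ext_iff.1 e1 w
  · have d4 : HasFDerivAt Ψ (fderiv ℂ Ψ (h p, π p + s))
        (h (Ψ (h p, π p + s)), π (Ψ (h p, π p + s))) := by
      rw [k0.1, k0.2]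
      exact d1
    have e1 := (HasFDerivAt.comp (f := fun x => (h x, π x)) (Ψ (h p, π p + s)) d4
      (d3.prodMk π.hasFDerivAt)).unique ((hasFDerivAt_id _).congr_of_eventuallyEq k4)
    refine ⟨π v, ?_⟩
    have e2 := ContinuousLinearMap.ext_iff.1 e1 v
    rw [d2.fderiv]
    simpa [hv] using e2
  · rintro ⟨w, rfl⟩
    have e1 := (d3.comp s d2.differentiableAt.hasFDerivAt).unique
      ((hasFDerivAt_const (h p) s).congr_of_eventuallyEq (k1.mono fun t ht => ht.1))
    exact ContinuousLinearMap.ext_iff.1 e1 w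

/-- a function vanishing on a level set has a derivative vanishing on its tangent space -/
theorem tangent_level {r : ℕ} {h : X → Fin r → ℂ} {p : X} (hh : AnalyticAt ℂ h p)
    (hs : Surjective (fderiv ℂ h p)) {f : X → ℂ} (hf : AnalyticAt ℂ f p)
    (hz : ∀ᶠ x in 𝓝 p, h x = h p → f x = 0) {v : X} (hv : fderiv ℂ h p v = 0) :
    fderiv ℂ f p v = 0 := by
  obtain ⟨n, σ, π, -, rfl, h2, -, -, -, h3⟩ := level_param hh hs
  obtain ⟨w, rfl⟩ := (h3.self_of_nhds.2.2 v).1 hv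
  have e1 := (hf.differentiableAt.hasFDerivAt.comp 0 h2.differentiableAt.hasFDerivAt).unique
    ((hasFDerivAt_const (0 : ℂ) 0).congr_of_eventuallyEq (by
      filter_upwards [h2.continuousAt.tendsto.eventually hz, h3] with s k1 k2
      exact k1 k2.1))
  exact ContinuousLinearMap.ext_iff.1 e1 w

/-- a map which is nowhere an immersion is constant on a curve -/
theorem fibre_curve {Y : Type} [NormedAddCommGroup Y] [NormedSpace ℂ Y] [FiniteDimensional ℂ Y]
    {f : X → Y} {p : X} (hf : AnalyticAt ℂ f p) (hn : ∀ᶠ x in 𝓝 p, ¬ Injective (fderiv ℂ f x))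
    {U : Set X} (hU : U ∈ 𝓝 p) :
    ∃ γ : ℂ → X, γ 0 ∈ U ∧ AnalyticAt ℂ γ 0 ∧ deriv γ 0 ≠ 0 ∧ ∀ᶠ t in 𝓝 0, f (γ t) = f (γ 0) := by
  have : CompleteSpace Y := FiniteDimensional.complete ℂ Y
  have : CompleteSpace X := FiniteDimensional.complete ℂ X
  obtain ⟨V, hV, oV, pV⟩ := eventually_nhds_iff.1
    (hf.eventually_analyticAt.and (hn.and (show ∀ᶠ x in 𝓝 p, x ∈ U from hU)))
  obtain ⟨x₁, x₁V, hmin⟩ : ∃ x₁ ∈ V, ∀ x ∈ V,
      Module.finrank ℂ (LinearMap.ker (fderiv ℂ f x₁).toLinearMap) ≤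
        Module.finrank ℂ (LinearMap.ker (fderiv ℂ f x).toLinearMap) :=
    ⟨_, argminOn_mem (fun x => Module.finrank ℂ (LinearMap.ker (fderiv ℂ f x).toLinearMap)) V
      ⟨p, pV⟩, fun x hx => argminOn_le
        (fun x => Module.finrank ℂ (LinearMap.ker (fderiv ℂ f x).toLinearMap)) V hx⟩
  obtain ⟨a₁, n₁, u₁⟩ := hV x₁ x₁V
  obtain ⟨α, -, hα⟩ := xchart_proj (LinearMap.range (fderiv ℂ f x₁).toLinearMap)
  have hD : ∀ x ∈ V, fderiv ℂ (fun y => α (f y)) x = α.comp (fderiv ℂ f x) := fun x hx =>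
    (α.hasFDerivAt.comp x (hV x hx).1.differentiableAt.hasFDerivAt).fderiv
  obtain ⟨n, σ, π, h1, rfl, h2, -, -, -, h3⟩ := level_param (h := fun y => α (f y)) (p := x₁)
    ((α.analyticAt _).comp a₁) (by
      rw [hD x₁ x₁V]
      intro w
      obtain ⟨_, ⟨v, rfl⟩, h⟩ := hα w
      exact ⟨v, h⟩)
  have hrk := LinearMap.finrank_range_add_finrank_ker (fderiv ℂ f (σ 0)).toLinearMap
  have h4 : ∀ᶠ s in 𝓝 0, DifferentiableAt ℂ (fun s => f (σ s)) s ∧
      fderiv ℂ (fun s => f (σ s)) s = 0 := by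
    filter_upwards [h3, h2.eventually_analyticAt,
      h2.continuousAt.tendsto.eventually (oV.mem_nhds x₁V)] with s k1 k2 k3
    have d := (hV _ k3).1.differentiableAt.hasFDerivAt.comp s k2.differentiableAt.hasFDerivAt
    refine ⟨d.differentiableAt, d.fderiv.trans ?_⟩
    have e : LinearMap.ker (fderiv ℂ f (σ s)).toLinearMap =
        LinearMap.range (fderiv ℂ σ s).toLinearMap := by
      refine Submodule.eq_of_le_of_finrank_le (fun v hv => (k1.2.2 v).1 ?_) ?_
      · rw [hD _ k3]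
        have : fderiv ℂ f (σ s) v = 0 := hv
        simp [this]
      · rw [LinearMap.finrank_range_of_inj k1.2.1, Module.finrank_fin_fun]
        have := hmin _ k3
        omega
    ext1 w
    exact (e.ge ⟨w, rfl⟩ :)
  obtain ⟨ε, hε, h5⟩ := Metric.eventually_nhds_iff_ball.1 h4
  have h6 : ∀ᶠ s in 𝓝 0, f (σ s) = f (σ 0) := by
    filter_upwards [Metric.ball_mem_nhds 0 hε] with s hs
    exact Metric.isOpen_ball.is_const_of_fderiv_eq_zero (𝕜 := ℂ) (f := fun s => f (σ s))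
      (convex_ball 0 ε).isPreconnected (fun t ht => (h5 t ht).1.differentiableWithinAt)
      (fun t ht => (h5 t ht).2) hs (Metric.mem_ball_self hε)
  obtain ⟨v, hv0, hv⟩ : ∃ v, fderiv ℂ f (σ 0) v = 0 ∧ v ≠ 0 := by
    by_contra hc
    refine n₁ ((injective_iff_map_eq_zero _).2 fun v hv => ?_)
    by_contra h0
    exact hc ⟨v, hv, h0⟩
  obtain ⟨w, rfl⟩ := (h3.self_of_nhds.2.2 v).1 (by rw [hD _ x₁V]; simp [hv0])
  have hl : HasDerivAt (fun t : ℂ => t • w) w 0 := by
    simpa using (hasDerivAt_id (0 : ℂ)).smul_const w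
  have hl0 : (0 : ℂ) • w = 0 := zero_smul _ _
  refine ⟨fun t => σ (t • w), ?_, ?_, ?_, ?_⟩
  · simpa using u₁
  · exact AnalyticAt.comp_of_eq h2 (analyticAt_id.smul analyticAt_const) hl0
  · have d := h2.differentiableAt.hasFDerivAt.comp_hasDerivAt_of_eq (0 : ℂ) hl hl0.symm
    have e : deriv (fun t : ℂ => σ (t • w)) 0 = _ := d.deriv
    rwa [e]
  · have hT : Tendsto (fun t : ℂ => t • w) (𝓝 0) (𝓝 0) := by
      simpa using hl.continuousAt.tendsto
    simpa using hT.eventually h6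

end Pool.Agent.MP_f58063_ag

end
end

section

open Complex Filter Topology Function

noncomputable section

namespace Pool.Agent.MP_f58063_ag

variable {g : ℕ} {τ : Mat g}

theorem xspan_log {p u : EE g} (H : ∀ f, Ab τ p f → fderiv ℂ f p u = 0) {N : ℕ}
    {h t : EE g → ℂ} (hh : h ∈ Th τ N) (ht : t ∈ Th τ N) (h0 : t p ≠ 0) :
    fderiv ℂ h p u * t p = h p * fderiv ℂ t p u := by
  have hA : Ab τ p fun z => h z / t z := ⟨N, h, hh, t, ht, h0, EventuallyEq.rfl⟩
  have e : h =ᶠ[𝓝 p] fun z => h z / t z * t z := by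
    filter_upwards [(ht.1 p).continuousAt.eventually_ne h0] with z hz
    rw [div_mul_cancel₀ _ hz]
  rw [e.fderiv_eq, fderiv_fun_mul hA.analyticAt.differentiableAt (ht.1 p).differentiableAt]
  simp only [_root_.add_apply, _root_.smul_apply, H _ hA, smul_eq_mul]
  field_simp
  ring

theorem xspan_three {T : EE g → ℂ} (hT : ∀ z, AnalyticAt ℂ T z) (p u a b : EE g)
    (ha : T (p + a) ≠ 0) (hb : T (p + b) ≠ 0) (hc : T (p - a - b) ≠ 0) :
    fderiv ℂ (fun z => T (z + a) * T (z + b) * T (z - a - b)) p u =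
      T (p + a) * T (p + b) * T (p - a - b) * (dv u T (p + a) / T (p + a) +
        dv u T (p + b) / T (p + b) + dv u T (p - a - b) / T (p - a - b)) := by
  have h₁ := (hT (p + a)).differentiableAt.hasFDerivAt.comp p ((hasFDerivAt_id p).add_const a)
  have h₂ := (hT (p + b)).differentiableAt.hasFDerivAt.comp p ((hasFDerivAt_id p).add_const b)
  have h₃ := (hT (p - a - b)).differentiableAt.hasFDerivAt.comp p
    (((hasFDerivAt_id p).sub_const a).sub_const b)
  have h := ((h₁.mul h₂).mul h₃).fderiv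
  refine (congrArg (fun L => L u) h).trans ?_
  simp only [_root_.add_apply, _root_.smul_apply, smul_eq_mul,
    ContinuousLinearMap.comp_id, comp_apply, id, Pi.mul_apply, dv_apply]
  field_simp
  ring

theorem xspan_ne {F G : EE g → ℂ} (hF : ∀ z, AnalyticAt ℂ F z) (hG : ∀ z, AnalyticAt ℂ G z)
    (h₁ : ∃ z, F z ≠ 0) (h₂ : ∃ z, G z ≠ 0) : ∃ z, F z ≠ 0 ∧ G z ≠ 0 := by
  by_contra c
  obtain ⟨z, hz⟩ := h₁
  obtain ⟨w, hw⟩ := h₂
  rcases germ_mul_zero (hF 0) (hG 0) (Eventually.of_forall fun y => by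
    by_contra d
    exact c ⟨y, mul_ne_zero_iff.1 d⟩) with h | h
  · exact hz (congrFun (entire_zero hF h) z)
  · exact hw (congrFun (entire_zero hG h) w)

/-- a solution of the functional equation is affine -/
theorem xspan_aff {T G : EE g → ℂ} (hT : ∀ z, AnalyticAt ℂ T z) (hG : ∀ z, AnalyticAt ℂ G z)
    (h0 : ∃ z, T z ≠ 0) (q : EE g)
    (H : ∀ a b a' b', T a ≠ 0 → T b ≠ 0 → T (q - a - b) ≠ 0 → T a' ≠ 0 → T b' ≠ 0 →
      T (q - a' - b') ≠ 0 → G a / T a + G b / T b + G (q - a - b) / T (q - a - b) =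
        G a' / T a' + G b' / T b' + G (q - a' - b') / T (q - a' - b')) :
    ∃ (κ : EE g →L[ℂ] ℂ) (c : ℂ), ∀ z, G z = (κ z + c) * T z := by
  set ψ : EE g → ℂ := fun z => G z / T z with hψ
  have dψ : ∀ z, T z ≠ 0 → DifferentiableAt ℂ ψ z := fun z hz =>
    ((hG z).div (hT z) hz).differentiableAt
  have cT : Continuous T := continuous_iff_continuousAt.2 fun z => (hT z).continuousAt
  have key : ∀ b c, T b ≠ 0 → T c ≠ 0 → T (q - c - b) ≠ 0 → fderiv ℂ ψ c = fderiv ℂ ψ b := by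
    intro b c hb hc ha
    have e : (fun y => ψ (b + y) + ψ (c - y)) =ᶠ[𝓝 0] fun _ => ψ b + ψ c := by
      have e₁ : ∀ᶠ y in 𝓝 (0 : EE g), T (b + y) ≠ 0 :=
        (cT.comp (continuous_const.add continuous_id)).continuousAt.eventually_ne (by simpa)
      have e₂ : ∀ᶠ y in 𝓝 (0 : EE g), T (c - y) ≠ 0 :=
        (cT.comp (continuous_const.sub continuous_id)).continuousAt.eventually_ne (by simpa)
      filter_upwards [e₁, e₂] with y h₁ h₂
      have f₁ : q - (q - c - b) - (b + y) = c - y := by abel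
      have f₂ : q - (q - c - b) - b = c := by abel
      have := H (q - c - b) (b + y) (q - c - b) b ha h₁ (f₁ ▸ h₂) ha hb (f₂.symm ▸ hc)
      rw [f₁, f₂] at this
      simp only [hψ]
      linear_combination this
    have h₁ := HasFDerivAt.comp (0 : EE g) (g := ψ) (g' := fderiv ℂ ψ b)
      (by simpa using (dψ b hb).hasFDerivAt) ((hasFDerivAt_id (0 : EE g)).const_add b)
    have h₂ := HasFDerivAt.comp (0 : EE g) (g := ψ) (g' := fderiv ℂ ψ c)
      (by simpa using (dψ c hc).hasFDerivAt) ((hasFDerivAt_id (0 : EE g)).const_sub c)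
    have h₃ := ((h₁.add h₂).congr_of_eventuallyEq e.symm).unique (hasFDerivAt_const _ _)
    ext1 v
    have := congrArg (fun L => L v) h₃
    simp only [_root_.add_apply, ContinuousLinearMap.comp_apply, map_neg,
      _root_.neg_apply, ContinuousLinearMap.id_apply,
      _root_.zero_apply] at this
    linear_combination -this
  obtain ⟨b, hb⟩ := h0
  obtain ⟨c, hc, ha⟩ := xspan_ne (G := fun z => T (q - z - b)) hT
    (fun z => (hT _).comp ((analyticAt_const.sub analyticAt_id).sub analyticAt_const)) ⟨b, hb⟩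
    ⟨q - b - b, by rwa [show q - (q - b - b) - b = b by abel]⟩
  have e₁ : ∀ᶠ z in 𝓝 c, T z ≠ 0 := cT.continuousAt.eventually_ne hc
  have e₂ : ∀ᶠ z in 𝓝 c, T (q - z - b) ≠ 0 :=
    (cT.comp ((continuous_const.sub continuous_id).sub continuous_const)).continuousAt.eventually_ne
      ha
  obtain ⟨ε, hε, hz⟩ := Metric.eventually_nhds_iff_ball.1 (e₁.and e₂)
  obtain ⟨d, hd⟩ := Metric.isOpen_ball.exists_eq_add_of_fderiv_eq (𝕜 := ℂ) (f := ψ)
    (g := fderiv ℂ ψ b) (convex_ball c ε).isPreconnected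
    (fun z h => (dψ z (hz z h).1).differentiableWithinAt)
    (fderiv ℂ ψ b).differentiable.differentiableOn fun z h => by
      rw [key b z hb (hz z h).1 (hz z h).2, ContinuousLinearMap.fderiv]
  refine ⟨fderiv ℂ ψ b, d, fun z => sub_eq_zero.1 (congrFun (entire_zero
    (f := fun z => G z - (fderiv ℂ ψ b z + d) * T z) (x := c) (fun z => (hG z).sub
      ((((fderiv ℂ ψ b).analyticAt z).add analyticAt_const).mul (hT z))) ?_) z)⟩
  filter_upwards [Metric.ball_mem_nhds c hε] with z h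
  have e : G z / T z = fderiv ℂ ψ b z + d := hd h
  rw [← e, div_mul_cancel₀ _ (hz z h).1, sub_self]

theorem xspan_per (hτ : τ ∈ Siegel g) (u : EE g) (m n : Fin g → ℤ) (z : EE g) :
    dv u (theta τ) (z + per τ m n) = aut τ n z * dv u (theta τ) z -
      aut τ n z * (2 * Real.pi * I * ∑ i, (n i : ℂ) * u i) * theta τ z := by
  have hT := fun z => theta_analytic (Siegel_sub hτ) z
  have e : (fun z => theta τ (z + per τ m n)) = fun z => aut τ n z * theta τ z :=
    funext (theta_per hτ m n)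
  have h₁ : HasFDerivAt (fun z : EE g => ∑ i, (n i : ℂ) * z i)
      (∑ i, (n i : ℂ) • ContinuousLinearMap.proj (R := ℂ) (φ := fun _ : Fin g => ℂ) i) z :=
    HasFDerivAt.fun_sum fun i _ => (hasFDerivAt_apply i z).const_mul _
  have h₂ := ((h₁.const_mul (2 * Real.pi * I)).const_add
    (Real.pi * I * ∑ i, ∑ j, (n i : ℂ) * τ i j * n j)).neg.cexp
  have h₃ := (h₂.mul (hT z).differentiableAt.hasFDerivAt).fderiv
  rw [dv_apply, ← fderiv_comp_add_right, e]
  refine (congrArg (fun L => L u) h₃).trans ?_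
  simp only [_root_.add_apply, _root_.smul_apply, smul_eq_mul,
    _root_.neg_apply, _root_.sum_apply, ContinuousLinearMap.proj_apply,
    dv_apply, aut, Pi.neg_apply]
  ring

theorem Ab_span (hτ : τ ∈ Siegel g) (p : EE g) {u : EE g} (hu : u ≠ 0) :
    ∃ f, Ab τ p f ∧ fderiv ℂ f p u ≠ 0 := by
  by_contra H
  push Not at H
  have hT := fun z => theta_analytic (Siegel_sub hτ) z
  obtain ⟨κ, c, h⟩ := xspan_aff hT (fun z => analyticAt_dv (hT z) u) (theta_ne (Siegel_sub hτ))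
    (p + p + p) fun a b a' b' h₁ h₂ h₃ h₄ h₅ h₆ => by
      have f : ∀ a : EE g, p + (a - p) = a := fun a => by abel
      have f' : ∀ a b : EE g, p - (a - p) - (b - p) = p + p + p - a - b := fun a b => by abel
      have e := xspan_log H (theta_three hτ (a - p) (b - p)) (theta_three hτ (a' - p) (b' - p))
        (by simp only [f, f']; exact mul_ne_zero (mul_ne_zero h₄ h₅) h₆)
      rw [xspan_three hT p u _ _ (by rwa [f]) (by rwa [f]) (by rwa [f']),
        xspan_three hT p u _ _ (by rwa [f]) (by rwa [f]) (by rwa [f'])] at e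
      simp only [f, f'] at e
      refine mul_left_cancel₀ (mul_ne_zero (mul_ne_zero (mul_ne_zero h₁ h₂) h₃)
        (mul_ne_zero (mul_ne_zero h₄ h₅) h₆)) ?_
      linear_combination e
  obtain ⟨z, hz⟩ := theta_ne (Siegel_sub hτ)
  have k : ∀ m n, κ (per τ m n) = -(2 * Real.pi * I * ∑ i, (n i : ℂ) * u i) := fun m n => by
    have e := xspan_per hτ u m n z
    rw [h, h, theta_per hτ, map_add] at e
    refine mul_left_cancel₀ (mul_ne_zero (aut_ne τ n z) hz) ?_
    linear_combination e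
  have k₀ : ∀ j, κ (ee j) = 0 := fun j => by
    have e : per τ (Pi.single j 1) 0 = ee j := by
      funext i
      simp [per, Pi.single_apply, apply_ite]
    simpa [e] using k (Pi.single j 1) 0
  have k₁ : ∀ v, κ v = 0 := fun v => by
    have e : v = ∑ i, v i • ee i := by
      funext j
      simp [Finset.sum_apply, Pi.single_apply]
    rw [e, map_sum]
    simp only [map_smul, k₀, smul_zero, Finset.sum_const_zero]
  refine hu (funext fun j => ?_)
  have e := k 0 (Pi.single j 1)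
  rw [k₁] at e
  simpa [Pi.single_apply, apply_ite, Real.pi_ne_zero] using e

theorem xspan_ext (hτ : τ ∈ Siegel g) (p : EE g) (k : ℕ) : ∀ (r : ℕ) (h : Fin r → EE g → ℂ),
    (∀ j, Ab τ p (h j) ∧ h j p = 0) → Surjective (fderiv ℂ (fun x j => h j x) p) →
    ∀ (hr : r ≤ g), r + k = g →
    ∃ f : Fin g → EE g → ℂ, (∀ i, Ab τ p (f i) ∧ f i p = 0) ∧ (∀ j, f (Fin.castLE hr j) = h j) ∧
      Bijective (fderiv ℂ (fun x i => f i x) p) := by
  induction k with
  | zero =>
    intro r h hh hs hr e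
    obtain rfl : r = g := e
    exact ⟨h, hh, fun j => rfl, (LinearMap.injective_iff_surjective
      (f := (fderiv ℂ (fun x j => h j x) p).toLinearMap)).2 hs, hs⟩
  | succ k ih =>
    intro r h hh hs hr e
    obtain ⟨u, hu, hu0⟩ := (Submodule.ne_bot_iff _).1
      ((fderiv ℂ (fun x j => h j x) p).toLinearMap.ker_ne_bot_of_finrank_lt (by simp; omega))
    obtain ⟨f, hf, hfu⟩ := Ab_span hτ p hu0
    have hh' : ∀ j, Ab τ p ((Fin.snoc h fun z => f z - f p : Fin (r + 1) → EE g → ℂ) j) ∧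
        (Fin.snoc h fun z => f z - f p : Fin (r + 1) → EE g → ℂ) j p = 0 := fun j => by
      refine Fin.lastCases ?_ (fun j => ?_) j
      · simp only [Fin.snoc_last, sub_self, and_true]
        exact hf.sub (Ab.const τ p _)
      · simpa only [Fin.snoc_castSucc] using hh j
    obtain ⟨F, h₁, h₂, h₃⟩ := ih (r + 1) _ hh' (fun w => by
      rw [fderiv_pi fun j => (hh j).1.analyticAt.differentiableAt] at hs hu
      obtain ⟨x, hx⟩ := hs fun j => w j.castSucc
      refine ⟨x + ((w (Fin.last r) - fderiv ℂ f p x) / fderiv ℂ f p u) • u, ?_⟩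
      rw [fderiv_pi fun j => (hh' j).1.analyticAt.differentiableAt]
      funext j
      refine Fin.lastCases ?_ (fun j => ?_) j
      · simp only [ContinuousLinearMap.pi_apply, Fin.snoc_last, fderiv_sub_const, map_add,
          map_smul, smul_eq_mul, div_mul_cancel₀ _ hfu, add_sub_cancel]
      · have e₁ : fderiv ℂ (h j) p x = w j.castSucc := congrFun hx j
        have e₂ : fderiv ℂ (h j) p u = 0 := congrFun hu j
        simp only [ContinuousLinearMap.pi_apply, Fin.snoc_castSucc, map_add, map_smul, e₁, e₂,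
          smul_zero, add_zero]) (by omega) (by omega)
    exact ⟨F, h₁, fun j => (h₂ j.castSucc).trans (Fin.snoc_castSucc ..), h₃⟩

/-- abelian functions with independent differentials extend to local coordinates -/
theorem Ab_extend (hτ : τ ∈ Siegel g) (p : EE g) {r : ℕ} (h : Fin r → EE g → ℂ)
    (hh : ∀ j, Ab τ p (h j) ∧ h j p = 0) (hs : Surjective (fderiv ℂ (fun x j => h j x) p))
    (hr : r ≤ g) :
    ∃ f : Fin g → EE g → ℂ, (∀ i, Ab τ p (f i) ∧ f i p = 0) ∧ (∀ j, f (Fin.castLE hr j) = h j) ∧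
      Bijective (fderiv ℂ (fun x i => f i x) p) :=
  xspan_ext hτ p (g - r) r h hh hs hr (by omega)

end Pool.Agent.MP_f58063_ag

end
end

section

open Complex Filter Topology Function

noncomputable section

namespace Pool.Agent.MP_f58063_ag

variable {X : Type} [NormedAddCommGroup X] [NormedSpace ℂ X]

/-- a stage of the fraction free elimination -/
structure xgenSt {ι : Type} [Fintype ι] (b : Module.Basis ι ℂ X) (R : Set (X → ℂ)) (p : X)
    {r : ℕ} (h : Fin r → X → ℂ) (Y : ι → X → X) (u : X → ℂ) : Prop where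
  mem : ∀ j, h j ∈ R ∧ h j p = 0
  surj : Surjective (fderiv ℂ (fun x j => h j x) p)
  clo : ∀ f ∈ R, ∀ l, (fun x => fderiv ℂ f x (Y l x)) ∈ R
  tan : ∀ j l x, fderiv ℂ (h j) x (Y l x) = 0
  an : AnalyticAt ℂ u p
  ne : u p ≠ 0
  rep : ∀ x w, (∀ j, fderiv ℂ (h j) x w = 0) → u x • w = ∑ l, b.repr w l • Y l x

theorem xgen_pi {r : ℕ} {h : Fin r → X → ℂ} {x : X} (hh : ∀ j, AnalyticAt ℂ (h j) x) (w : X)
    (j : Fin r) : fderiv ℂ (fun x j => h j x) x w j = fderiv ℂ (h j) x w := by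
  rw [fderiv_pi fun j => (hh j).differentiableAt]
  rfl

theorem xgen_step {ι : Type} [Fintype ι] {b : Module.Basis ι ℂ X} {Ω : Set X}
    {R : Set (X → ℂ)} (hR : DRing b Ω R) {p : X} (hp : p ∈ Ω) {r : ℕ} {h : Fin r → X → ℂ}
    {Y : ι → X → X} {u : X → ℂ} (s : xgenSt b R p h Y u) {f : X → ℂ} (hf : f ∈ R) (h0 : f p = 0)
    {m : ι} (hm : fderiv ℂ f p (Y m p) ≠ 0) :
    xgenSt b R p (Fin.cons f h : Fin (r + 1) → X → ℂ)
      (fun l x => fderiv ℂ f x (Y m x) • Y l x - fderiv ℂ f x (Y l x) • Y m x)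
      fun x => fderiv ℂ f x (Y m x) * u x := by
  have hmem : ∀ j, (Fin.cons f h : Fin (r + 1) → X → ℂ) j ∈ R ∧
      (Fin.cons f h : Fin (r + 1) → X → ℂ) j p = 0 := fun j => by
    refine Fin.cases ?_ (fun j => ?_) j
    exacts [⟨hf, h0⟩, s.mem j]
  refine ⟨hmem, fun a => ?_, fun g hg l => ?_, fun j l x => ?_,
    (hR.an _ (s.clo f hf m) p hp).mul s.an, mul_ne_zero hm s.ne, fun x w hw => ?_⟩
  · obtain ⟨v, hv⟩ := s.surj fun j => a j.succ
    refine ⟨v + ((a 0 - fderiv ℂ f p v) / fderiv ℂ f p (Y m p)) • Y m p, funext fun j => ?_⟩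
    rw [xgen_pi fun j => hR.an _ (hmem j).1 p hp, map_add, map_smul, smul_eq_mul]
    refine Fin.cases ?_ (fun j => ?_) j
    · rw [Fin.cons_zero, div_mul_cancel₀ _ hm, add_sub_cancel]
    · rw [Fin.cons_succ, s.tan, mul_zero, add_zero,
        ← xgen_pi fun j => hR.an _ (s.mem j).1 p hp, hv]
  · simp only [map_sub, map_smul, smul_eq_mul]
    exact hR.sub _ (hR.mul _ (s.clo f hf m) _ (s.clo g hg l)) _
      (hR.mul _ (s.clo f hf l) _ (s.clo g hg m))
  · rw [map_sub, map_smul, map_smul, smul_eq_mul, smul_eq_mul]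
    refine Fin.cases ?_ (fun j => ?_) j
    · rw [Fin.cons_zero]; ring
    · rw [Fin.cons_succ, s.tan, s.tan]; ring
  · have e1 := s.rep x w fun j => hw j.succ
    have e2 : fderiv ℂ f x w = 0 := hw 0
    have e3 := congrArg (fderiv ℂ f x) e1
    simp only [map_smul, map_sum, e2, smul_eq_mul, mul_zero] at e3
    simp only [smul_sub, Finset.sum_sub_distrib, smul_smul, ← Finset.sum_smul, ← e3, zero_smul,
      sub_zero]
    rw [mul_smul, e1, Finset.smul_sum]
    exact Finset.sum_congr rfl fun l _ => by rw [smul_smul, mul_comm]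

theorem xgen_max [FiniteDimensional ℂ X] {ι : Type} [Fintype ι] (b : Module.Basis ι ℂ X)
    {Ω : Set X} {R : Set (X → ℂ)} (hR : DRing b Ω R) {p : X} (hp : p ∈ Ω) :
    ∃ (r : ℕ) (h : Fin r → X → ℂ) (Y : ι → X → X) (u : X → ℂ), xgenSt b R p h Y u ∧
      ∀ f ∈ R, f p = 0 → ∀ l, fderiv ℂ f p (Y l p) = 0 := by
  by_contra hc
  push Not at hc
  have key : ∀ r : ℕ, ∃ (h : Fin r → X → ℂ) (Y : ι → X → X) (u : X → ℂ), xgenSt b R p h Y u := by
    intro r
    induction r with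
    | zero =>
      exact ⟨Fin.elim0, fun l _ => b l, fun _ => 1, fun j => j.elim0,
        fun a => ⟨0, Subsingleton.elim _ _⟩, hR.dv, fun j => j.elim0, analyticAt_const,
        one_ne_zero, fun x w _ => by rw [one_smul, b.sum_repr]⟩
    | succ r ih =>
      obtain ⟨h, Y, u, s⟩ := ih
      obtain ⟨f, hf, h0, m, hm⟩ := hc r h Y u s
      exact ⟨_, _, _, xgen_step hR hp s hf h0 hm⟩
  obtain ⟨h, Y, u, s⟩ := key (Module.finrank ℂ X + 1)
  have := LinearMap.finrank_le_finrank_of_surjective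
    (f := (fderiv ℂ (fun x j => h j x) p).toLinearMap) s.surj
  simp at this

/-- every point is a generic point of a manifold germ cut out by members of `R` -/
theorem gen [FiniteDimensional ℂ X] {ι : Type} [Fintype ι] (b : Module.Basis ι ℂ X) {Ω : Set X}
    {R : Set (X → ℂ)} (hR : DRing b Ω R) {p : X} (hp : p ∈ Ω) :
    ∃ (r : ℕ) (h : Fin r → X → ℂ), (∀ j, h j ∈ R ∧ h j p = 0) ∧
      Surjective (fderiv ℂ (fun x j => h j x) p) ∧
      ∀ f ∈ R, f p = 0 → ∀ᶠ x in 𝓝 p, (∀ j, h j x = 0) → f x = 0 := by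
  have : CompleteSpace X := FiniteDimensional.complete ℂ X
  obtain ⟨r, h, Y, u, s, hmax⟩ := xgen_max b hR hp
  refine ⟨r, h, s.mem, s.surj, fun f hf h0 => ?_⟩
  have han : ∀ j, AnalyticAt ℂ (h j) p := fun j => hR.an _ (s.mem j).1 p hp
  obtain ⟨n, σ, π, -, σ0, hσ, hπ, π0, e1, e2⟩ := level_param (analyticAt_pi_iff.2 han) s.surj
  have hσp : Tendsto σ (𝓝 0) (𝓝 p) := σ0 ▸ hσ.continuousAt.tendsto
  have hc : ∀ {g : X → ℂ}, AnalyticAt ℂ g p → AnalyticAt ℂ (fun t => g (σ t)) 0 :=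
    fun hg => AnalyticAt.comp (σ0 ▸ hg) hσ
  let J : AddSubmonoid ((Fin n → ℂ) → ℂ) := AddSubmonoid.closure
    {F | ∃ a g, AnalyticAt ℂ a 0 ∧ g ∈ R ∧ g p = 0 ∧ F = fun t => a t * g (σ t)}
  have j1 : ∀ F ∈ J, AnalyticAt ℂ F 0 := fun F hF => by
    induction hF using AddSubmonoid.closure_induction with
    | mem F hF => obtain ⟨a, g, ha, hg, -, rfl⟩ := hF; exact ha.mul (hc (hR.an g hg p hp))
    | zero => exact analyticAt_const
    | add F G _ _ hF hG => exact hF.add hG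
  have j2 : ∀ F ∈ J, F 0 = 0 := fun F hF => by
    induction hF using AddSubmonoid.closure_induction with
    | mem F hF => obtain ⟨a, g, -, -, hg, rfl⟩ := hF; simp only [σ0, hg, mul_zero]
    | zero => rfl
    | add F G _ _ hF hG => rw [Pi.add_apply, hF, hG, add_zero]
  have j3 : ∀ F ∈ J, ∀ v, ∃ F' ∈ J, dv v F =ᶠ[𝓝 0] F' := fun F hF v => by
    induction hF using AddSubmonoid.closure_induction with
    | mem F hF =>
      obtain ⟨a, g, ha, hg, hg0, rfl⟩ := hF
      have hw : AnalyticAt ℂ (fun t => fderiv ℂ σ t v) 0 :=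
        ((ContinuousLinearMap.apply ℂ X v).analyticAt _).comp hσ.fderiv
      refine ⟨(fun t => dv v a t * g (σ t)) + ∑ l, fun t =>
        (a t * b.repr (fderiv ℂ σ t v) l / u (σ t)) * fderiv ℂ g (σ t) (Y l (σ t)),
        add_mem (AddSubmonoid.subset_closure ⟨_, g, analyticAt_dv ha v, hg, hg0, rfl⟩)
          (sum_mem fun l _ => AddSubmonoid.subset_closure
            ⟨_, _, ?_, s.clo g hg l, hmax g hg hg0 l, rfl⟩), ?_⟩
      · exact (ha.mul (((LinearMap.toContinuousLinearMap (b.coord l)).analyticAt _).comp hw)).div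
          (hc s.an) (by rw [σ0]; exact s.ne)
      · filter_upwards [e2, ha.eventually_analyticAt, hσ.eventually_analyticAt,
          hσp.eventually (hR.an g hg p hp).eventually_analyticAt,
          hσp.eventually (eventually_all.2 fun j => (han j).eventually_analyticAt),
          hσp.eventually (s.an.continuousAt.eventually_ne s.ne)] with t t1 t2 t3 t4 t5 t6
        have k1 := s.rep (σ t) (fderiv ℂ σ t v) fun j => by
          rw [← xgen_pi t5, (t1.2.2 _).2 ⟨v, rfl⟩, Pi.zero_apply]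
        have k2 := congrArg (fderiv ℂ g (σ t)) k1
        simp only [map_smul, map_sum, smul_eq_mul] at k2
        have k3 := (t2.differentiableAt.hasFDerivAt.mul
          (t4.differentiableAt.hasFDerivAt.comp t t3.differentiableAt.hasFDerivAt)).fderiv
        have k4 : dv v (fun t => a t * g (σ t)) t =
            a t * fderiv ℂ g (σ t) (fderiv ℂ σ t v) + g (σ t) * dv v a t :=
          (congrArg (fun L : (Fin n → ℂ) →L[ℂ] ℂ => L v) k3).trans rfl
        rw [k4, Pi.add_apply, Finset.sum_apply,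
          Finset.sum_congr (g := fun l => a t / u (σ t) *
            (b.repr (fderiv ℂ σ t v) l * fderiv ℂ g (σ t) (Y l (σ t)))) rfl fun l _ => by ring,
          ← Finset.mul_sum, ← k2]
        field_simp
        ring
    | zero => exact ⟨0, zero_mem _, Eventually.of_forall fun t => by simp [dv]⟩
    | add F G hF hG iF iG =>
      obtain ⟨F', a1, a2⟩ := iF
      obtain ⟨G', b1, b2⟩ := iG
      refine ⟨F' + G', add_mem a1 b1, ?_⟩
      filter_upwards [a2, b2, (j1 F hF).eventually_analyticAt, (j1 G hG).eventually_analyticAt]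
        with t t1 t2 t3 t4
      rw [Pi.add_apply, ← t1, ← t2, dv_apply, fderiv_add t3.differentiableAt t4.differentiableAt]
      rfl
  have hz := zero_of_closed (Pi.basisFun ℂ (Fin n)) (Pi.basisFun ℂ (Fin n)).span_eq.ge J j1 j2
    (fun F hF i => j3 F hF _) (fun t => 1 * f (σ t))
    (AddSubmonoid.subset_closure ⟨_, f, analyticAt_const, hf, h0, rfl⟩)
  have hπp : Tendsto π (𝓝 p) (𝓝 0) := π0 ▸ hπ.continuousAt.tendsto
  filter_upwards [e1, hπp.eventually hz] with x x1 x2 x3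
  rwa [x1 (funext fun j => (x3 j).trans (s.mem j).2.symm), one_mul] at x2

end Pool.Agent.MP_f58063_ag

end
end

section

open Complex Filter Topology Function

noncomputable section

namespace Pool.Agent.MP_f58063_ag

open Set Metric Module

theorem xsard_local {X Y : Type} [TopologicalSpace X] [SecondCountableTopology X]
    [TopologicalSpace Y] (f : X → Y) {S : Set X}
    (h : ∀ p ∈ S, ∃ V ∈ 𝓝 p, IsMeagre (f '' (S ∩ V))) : IsMeagre (f '' S) := by
  choose! V hV hm using h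
  obtain ⟨t, ht, hc, hcov⟩ := TopologicalSpace.countable_cover_nhdsWithin (f := fun p => S ∩ V p)
    fun p hp => inter_mem_nhdsWithin S (hV p hp)
  refine IsMeagre.mono ?_ (isMeagre_biUnion hc fun p hp => hm p (ht hp))
  rw [← image_iUnion₂]
  exact image_mono hcov

section
variable {X Y : Type} [NormedAddCommGroup X] [NormedSpace ℂ X] [FiniteDimensional ℂ X]
  [NormedAddCommGroup Y] [NormedSpace ℂ Y] [FiniteDimensional ℂ Y]

theorem xsard_small (hXY : finrank ℂ X < finrank ℂ Y) {g : X → Y} {a : X} {ε : ℝ}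
    (hg : AnalyticOnNhd ℂ g (closedBall a ε)) : IsMeagre (g '' closedBall a ε) := by
  have : ProperSpace X := FiniteDimensional.proper ℂ X
  have h1 : ContDiffOn ℝ 1 g (closedBall a ε) := fun x hx =>
    ((hg x hx).contDiffAt.restrict_scalars ℝ).contDiffWithinAt
  have h2 : Dense (g '' closedBall a ε)ᶜ := by
    refine h1.dense_compl_image_of_dimH_lt_finrank (convex_closedBall a ε) subset_rfl ?_
    refine (dimH_mono (subset_univ _)).trans_lt ?_
    rw [Real.dimH_univ_eq_finrank, Nat.cast_lt, finrank_real_of_complex, finrank_real_of_complex]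
    omega
  have h3 : IsClosed (g '' closedBall a ε) :=
    ((isCompact_closedBall a ε).image_of_continuousOn hg.continuousOn).isClosed
  exact (h3.isNowhereDense_iff.2 (interior_eq_empty_iff_dense_compl.2 h2)).isMeagre

omit [FiniteDimensional ℂ X] in
theorem xsard_alpha (A : X →L[ℂ] Y) {r : ℕ} (hr : finrank ℂ (A : X →ₗ[ℂ] Y).range = r) :
    ∃ (α : Y →L[ℂ] (Fin r → ℂ)) (β : Fin r → X), ∀ j, α (A (β j)) = Pi.single j 1 := by
  let e := (finBasisOfFinrankEq ℂ (A : X →ₗ[ℂ] Y).range hr).equivFun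
  obtain ⟨α, hα⟩ := LinearMap.exists_extend e.toLinearMap
  have : ∀ j : Fin r, ∃ v, A v = (e.symm (Pi.single j 1) : Y) := fun j => (e.symm _).2
  choose β hβ using this
  refine ⟨LinearMap.toContinuousLinearMap α, β, fun j => ?_⟩
  rw [hβ]
  exact (LinearMap.congr_fun hα _).trans (e.apply_symm_apply _)

omit [FiniteDimensional ℂ X] [FiniteDimensional ℂ Y] in
theorem xsard_surj (A : X →L[ℂ] Y) {r : ℕ} (α : Y →L[ℂ] (Fin r → ℂ)) (β : Fin r → X)
    (h : (Matrix.of fun i j => α (A (β j)) i).det ≠ 0) : Surjective (α.comp A) := by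
  intro y
  obtain ⟨c, hc⟩ := Matrix.mulVec_surjective_iff_isUnit.2
    ((Matrix.isUnit_iff_isUnit_det _).2 (Ne.isUnit h)) y
  refine ⟨∑ j, c j • β j, ?_⟩
  rw [← hc]
  ext i
  simp [Matrix.mulVec, dotProduct, mul_comm]

theorem xsard_ker (A : X →L[ℂ] Y) {r : ℕ} (α : Y →L[ℂ] (Fin r → ℂ))
    (hr : finrank ℂ (A : X →ₗ[ℂ] Y).range ≤ r) (h : Surjective (α.comp A)) :
    (∀ v, α (A v) = 0 → A v = 0) ∧ (¬ Surjective A → r < finrank ℂ Y) := by
  have h1 := LinearMap.finrank_range_add_finrank_ker (A : X →ₗ[ℂ] Y)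
  have h2 := LinearMap.finrank_range_add_finrank_ker (α.comp A : X →ₗ[ℂ] (Fin r → ℂ))
  rw [LinearMap.range_eq_top.2 h, finrank_top, finrank_fin_fun] at h2
  have h3 : (A : X →ₗ[ℂ] Y).ker ≤ (α.comp A : X →ₗ[ℂ] (Fin r → ℂ)).ker := by
    intro v hv
    have hv' : A v = 0 := hv
    change α (A v) = 0
    rw [hv', map_zero]
  have h4 := Submodule.finrank_mono h3
  refine ⟨fun v hv => ?_, fun hA => ?_⟩
  · have h5 := Submodule.eq_of_le_of_finrank_le h3 (by omega)
    have : v ∈ (A : X →ₗ[ℂ] Y).ker := by rw [h5]; exact hv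
    exact this
  · have := Submodule.finrank_lt (s := (A : X →ₗ[ℂ] Y).range)
      fun ht => hA (LinearMap.range_eq_top.1 ht)
    omega

/-- the constant rank case -/
theorem xsard_rank {f : X → Y} {p : X} (hf : AnalyticAt ℂ f p) {r : ℕ} (α : Y →L[ℂ] (Fin r → ℂ))
    (hr : r < finrank ℂ Y) (hs : Surjective (α.comp (fderiv ℂ f p)))
    (hk : ∀ᶠ x in 𝓝 p, ∀ v, α (fderiv ℂ f x v) = 0 → fderiv ℂ f x v = 0) :
    ∃ V ∈ 𝓝 p, IsMeagre (f '' V) := by
  have hh : AnalyticAt ℂ (fun x => α (f x)) p := (α.analyticAt _).comp hf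
  have hd : ∀ x, AnalyticAt ℂ f x → fderiv ℂ (fun x => α (f x)) x = α.comp (fderiv ℂ f x) :=
    fun x hx => (α.hasFDerivAt.comp x hx.differentiableAt.hasFDerivAt).fderiv
  obtain ⟨n, π, Ψ, -, hΨ, h1, h2⟩ := chart hh (by rw [hd p hf]; exact hs)
  have hp : Ψ (α (f p), π p) = p := h1.self_of_nhds
  have ht : Tendsto Ψ (𝓝 (α (f p), π p)) (𝓝 p) := by
    have := hΨ.continuousAt.tendsto
    rwa [hp] at this
  have h3 : ∀ᶠ y in 𝓝 (α (f p), π p), AnalyticAt ℂ (f ∘ Ψ) y ∧
      ∀ w, fderiv ℂ (f ∘ Ψ) y (0, w) = 0 := by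
    filter_upwards [hΨ.eventually_analyticAt, ht.eventually hf.eventually_analyticAt,
      ht.eventually hk, h2.eventually_nhds] with y a1 a2 a3 a4
    refine ⟨a2.comp a1, fun w => ?_⟩
    have b1 := a2.differentiableAt.hasFDerivAt.comp y a1.differentiableAt.hasFDerivAt
    have b2 := (α.hasFDerivAt.comp y b1).fderiv
    have b3 : (α ∘ f ∘ Ψ) =ᶠ[𝓝 y] Prod.fst := a4.mono fun z hz => hz.1
    rw [b3.fderiv_eq, fderiv_fst] at b2
    rw [b1.fderiv]
    exact a3 _ (congrArg (fun T => T (0, w)) b2).symm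
  obtain ⟨ε, hε, h4⟩ := Metric.eventually_nhds_iff_ball.1 h3
  have h5 : ∀ a ∈ ball (α (f p)) ε, ∀ b ∈ ball (π p) ε, f (Ψ (a, b)) = f (Ψ (a, π p)) := by
    intro a ha b hb
    have c1 : ∀ b ∈ ball (π p) ε,
        HasFDerivAt (fun b => f (Ψ (a, b))) (0 : (Fin n → ℂ) →L[ℂ] Y) b := by
      intro b hb
      obtain ⟨d1, d2⟩ := h4 (a, b) (by rw [← ball_prod_same]; exact ⟨ha, hb⟩)
      have d3 := d1.differentiableAt.hasFDerivAt.comp b (hasFDerivAt_prodMk_right a b)
      refine d3.congr_fderiv ?_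
      ext1 w
      exact d2 w
    exact isOpen_ball.is_const_of_fderiv_eq_zero (𝕜 := ℂ) (f := fun b => f (Ψ (a, b)))
      (convex_ball _ _).isPreconnected
      (fun b hb => (c1 b hb).differentiableAt.differentiableWithinAt)
      (fun b hb => (c1 b hb).fderiv) hb (mem_ball_self hε)
  have hsub : closedBall (α (f p)) (ε / 2) ⊆ ball (α (f p)) ε :=
    closedBall_subset_ball (half_lt_self hε)
  have h6 : IsMeagre ((fun a => f (Ψ (a, π p))) '' closedBall (α (f p)) (ε / 2)) := by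
    refine xsard_small (by rwa [finrank_fin_fun]) fun a ha => ?_
    have d1 := (h4 (a, π p) (by rw [← ball_prod_same]; exact ⟨hsub ha, mem_ball_self hε⟩)).1
    exact d1.comp_of_eq (analyticAt_id.prod analyticAt_const) rfl
  have h7 : ∀ᶠ x in 𝓝 p, f x ∈ (fun a => f (Ψ (a, π p))) '' closedBall (α (f p)) (ε / 2) := by
    filter_upwards [h1, hh.continuousAt.eventually (closedBall_mem_nhds _ (half_pos hε)),
      π.continuous.continuousAt.eventually (ball_mem_nhds (π p) hε)] with x a1 a2 a3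
    exact ⟨_, a2, (h5 _ (hsub a2) _ a3).symm.trans (congrArg f a1)⟩
  exact ⟨_, h7, h6.mono (by rintro _ ⟨x, hx, rfl⟩; exact hx)⟩

/-- the hypersurface case -/
theorem xsard_hyper
    (ih : ∀ k < finrank ℂ X, ∀ (f : (Fin k → ℂ) → Y) (U : Set (Fin k → ℂ)), IsOpen U →
      AnalyticOnNhd ℂ f U → IsMeagre (f '' {x ∈ U | ¬ Surjective (fderiv ℂ f x)}))
    {f : X → Y} {φ : X → ℂ} {p : X} (hf : AnalyticAt ℂ f p) (hφ : AnalyticAt ℂ φ p)
    (hd : fderiv ℂ φ p ≠ 0) :
    ∃ V ∈ 𝓝 p, IsMeagre (f '' ({x | φ x = φ p ∧ ¬ Surjective (fderiv ℂ f x)} ∩ V)) := by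
  have hh : AnalyticAt ℂ (fun x (_ : Fin 1) => φ x) p := analyticAt_pi_iff.2 fun _ => hφ
  have hs : Surjective (fderiv ℂ (fun x (_ : Fin 1) => φ x) p) := by
    rw [fderiv_pi fun _ => hφ.differentiableAt]
    obtain ⟨v, hv⟩ : ∃ v, fderiv ℂ φ p v ≠ 0 := by
      by_contra hn
      push Not at hn
      exact hd (ContinuousLinearMap.ext hn)
    intro y
    refine ⟨(y 0 / fderiv ℂ φ p v) • v, ?_⟩
    ext i
    rw [Subsingleton.elim i 0]
    simp [hv]
  obtain ⟨k, σ, π, hk, h0, hσ, hπ, hπ0, h1, -⟩ := level_param hh hs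
  have ht : Tendsto σ (𝓝 0) (𝓝 p) := by
    have := hσ.continuousAt.tendsto
    rwa [h0] at this
  obtain ⟨W, hW, hWo, hW0⟩ := _root_.eventually_nhds_iff.1
    (hσ.eventually_analyticAt.and (ht.eventually hf.eventually_analyticAt))
  have h2 := ih k (by omega) (f ∘ σ) W hWo fun s hs => (hW s hs).2.comp (hW s hs).1
  have h3 : ∀ᶠ x in 𝓝 p, π x ∈ W := hπ.continuousAt.eventually (hWo.mem_nhds (hπ0 ▸ hW0))
  refine ⟨_, h1.and h3, h2.mono ?_⟩
  rintro _ ⟨x, ⟨⟨a1, a2⟩, a3, a4⟩, rfl⟩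
  have a5 : σ (π x) = x := a3 (funext fun _ => a1)
  refine ⟨π x, ⟨a4, fun hs => a2 ?_⟩, by simp [a5]⟩
  rw [fderiv_comp _ (hW _ a4).2.differentiableAt (hW _ a4).1.differentiableAt, a5] at hs
  exact Surjective.of_comp hs

end

theorem xsard_min {n : ℕ} {m : EE n → ℂ} {x : EE n} (h0 : m x = 0) {L : List (Fin n)}
    (hL : dI L m x ≠ 0) : ∃ L' : List (Fin n), dI L' m x = 0 ∧ fderiv ℂ (dI L' m) x ≠ 0 := by
  induction L with
  | nil => exact absurd h0 hL
  | cons i L ih =>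
    by_cases h : dI L m x = 0
    · refine ⟨L, h, fun h' => hL ?_⟩
      rw [dI_cons, dv_apply, h']
      rfl
    · exact ih h

theorem xsard_ball {Y : Type} [NormedAddCommGroup Y] [NormedSpace ℂ Y] [FiniteDimensional ℂ Y]
    {n : ℕ} (ih : ∀ k < n, ∀ (f : (Fin k → ℂ) → Y) (U : Set (Fin k → ℂ)), IsOpen U →
      AnalyticOnNhd ℂ f U → IsMeagre (f '' {x ∈ U | ¬ Surjective (fderiv ℂ f x)}))
    {f : EE n → Y} {B : Set (EE n)} (hB : IsOpen B) (hB' : IsPreconnected B) (hne : B.Nonempty)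
    (hf : AnalyticOnNhd ℂ f B) : IsMeagre (f '' {x ∈ B | ¬ Surjective (fderiv ℂ f x)}) := by
  obtain ⟨x₀, hx₀, hmax⟩ : ∃ x₀ ∈ B, ∀ x ∈ B, finrank ℂ (fderiv ℂ f x : EE n →ₗ[ℂ] Y).range ≤
      finrank ℂ (fderiv ℂ f x₀ : EE n →ₗ[ℂ] Y).range := by
    have hfin : ((fun x => finrank ℂ (fderiv ℂ f x : EE n →ₗ[ℂ] Y).range) '' B).Finite :=
      (finite_le_nat (finrank ℂ Y)).subset (by
        rintro _ ⟨x, -, rfl⟩
        exact Submodule.finrank_le _)
    obtain ⟨_, ⟨x₀, hx₀, rfl⟩, h⟩ := exists_max_image _ id hfin (hne.image _)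
    exact ⟨x₀, hx₀, fun x hx => h _ ⟨x, hx, rfl⟩⟩
  generalize hr : finrank ℂ (fderiv ℂ f x₀ : EE n →ₗ[ℂ] Y).range = r at hmax
  obtain ⟨α, β, hαβ⟩ := xsard_alpha (fderiv ℂ f x₀) hr
  obtain ⟨m, hm⟩ : ∃ m : EE n → ℂ,
    m = fun x => (Matrix.of fun i j => α (fderiv ℂ f x (β j)) i).det := ⟨_, rfl⟩
  have hm0 : m x₀ ≠ 0 := by
    have : (Matrix.of fun i j => α (fderiv ℂ f x₀ (β j)) i) = 1 := by
      ext i j
      simp [hαβ, Matrix.one_apply, Pi.single_apply]
    simp only [hm, this, Matrix.det_one]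
    exact one_ne_zero
  have hma : AnalyticOnNhd ℂ m B := by
    intro x hx
    simp only [hm, Matrix.det_apply', Matrix.of_apply]
    refine Finset.analyticAt_fun_sum _ fun σ _ => analyticAt_const.mul ?_
    refine Finset.analyticAt_fun_prod _ fun j _ => ?_
    exact (((ContinuousLinearMap.proj (σ j)).comp (α.comp
      (ContinuousLinearMap.apply ℂ Y (β j)))).analyticAt _).comp (hf x hx).fderiv
  have hsurj : ∀ x, m x ≠ 0 → Surjective (α.comp (fderiv ℂ f x)) := fun x hx =>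
    xsard_surj _ α β (by rwa [hm] at hx)
  have h1 : IsMeagre (f '' {x ∈ B | m x ≠ 0 ∧ ¬ Surjective (fderiv ℂ f x)}) := by
    refine xsard_local f fun p hp => ?_
    obtain ⟨V, hV, h⟩ := xsard_rank (hf p hp.1) α
      ((xsard_ker _ α (hmax p hp.1) (hsurj p hp.2.1)).2 hp.2.2) (hsurj p hp.2.1) (by
        filter_upwards [hB.mem_nhds hp.1, (hma p hp.1).continuousAt.eventually_ne hp.2.1]
          with x a1 a2
        exact (xsard_ker _ α (hmax x a1) (hsurj x a2)).1)
    exact ⟨V, hV, h.mono (image_mono inter_subset_right)⟩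
  have h2 : ∀ L : List (Fin n), IsMeagre (f '' {x ∈ B | dI L m x = 0 ∧ fderiv ℂ (dI L m) x ≠ 0 ∧
      ¬ Surjective (fderiv ℂ f x)}) := by
    intro L
    refine xsard_local f fun p hp => ?_
    obtain ⟨V, hV, h⟩ := xsard_hyper (by rwa [finrank_fin_fun]) (hf p hp.1)
      (analyticAt_dI (hma p hp.1) L) hp.2.2.1
    refine ⟨V, hV, h.mono (image_mono (inter_subset_inter_left _ fun x hx => ?_))⟩
    exact ⟨hx.2.1.trans hp.2.1.symm, hx.2.2.2⟩
  refine (h1.union (isMeagre_iUnion h2)).mono ?_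
  rintro _ ⟨x, ⟨hx, hc⟩, rfl⟩
  by_cases hmx : m x = 0
  · obtain ⟨L, hL⟩ : ∃ L, dI L m x ≠ 0 := by
      by_contra hn
      push Not at hn
      exact hm0 (hma.eqOn_zero_of_preconnected_of_eventuallyEq_zero hB' hx
        (zero_of_dI (hma x hx) hn) hx₀)
    obtain ⟨L', a1, a2⟩ := xsard_min hmx hL
    exact Or.inr (mem_iUnion.2 ⟨L', x, ⟨hx, a1, a2, hc⟩, rfl⟩)
  · exact Or.inl ⟨x, ⟨hx, hmx, hc⟩, rfl⟩

/-- Sard's theorem for analytic maps -/
theorem sard {Y : Type} [NormedAddCommGroup Y] [NormedSpace ℂ Y] [FiniteDimensional ℂ Y] {n : ℕ}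
    {f : (Fin n → ℂ) → Y} {U : Set (Fin n → ℂ)} (hU : IsOpen U) (hf : AnalyticOnNhd ℂ f U) :
    IsMeagre (f '' {x ∈ U | ¬ Surjective (fderiv ℂ f x)}) := by
  induction n using Nat.strong_induction_on with
  | _ n ih =>
  refine xsard_local f fun p hp => ?_
  obtain ⟨ε, hε, hb⟩ := Metric.isOpen_iff.1 hU p hp.1
  refine ⟨ball p ε, ball_mem_nhds p hε, (xsard_ball (fun k hk g W hW hg => ih k hk hW hg)
    isOpen_ball (convex_ball p ε).isPreconnected ⟨p, mem_ball_self hε⟩ (hf.mono hb)).mono ?_⟩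
  exact image_mono fun x hx => ⟨hx.2, hx.1.2⟩

end Pool.Agent.MP_f58063_ag

end
end

section

open Complex Filter Topology Function

noncomputable section

namespace Pool.Agent.MP_f58063_ag

theorem xsel_meagre {D E : Type} [NormedAddCommGroup D] [NormedSpace ℂ D] [FiniteDimensional ℂ D]
    [NormedAddCommGroup E] [NormedSpace ℂ E] [FiniteDimensional ℂ E] {r : ℕ}
    (H : D × E → Fin r → ℂ) :
    IsMeagre (Prod.fst '' {q : D × E | AnalyticAt ℂ H q ∧ H q = 0 ∧
      Surjective (fderiv ℂ H q) ∧ ¬ ∀ ξ, ∃ ζ, fderiv ℂ H q (ξ, ζ) = 0}) := by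
  have : SecondCountableTopology (D × E) := by
    have : ProperSpace (D × E) := FiniteDimensional.proper ℂ (D × E)
    infer_instance
  set Q : Set (D × E) := {q : D × E | AnalyticAt ℂ H q ∧ H q = 0 ∧
      Surjective (fderiv ℂ H q) ∧ ¬ ∀ ξ, ∃ ζ, fderiv ℂ H q (ξ, ζ) = 0} with hQ
  have loc : ∀ q ∈ Q, ∃ W ∈ 𝓝 q, IsMeagre (Prod.fst '' (Q ∩ W)) := by
    intro q hq
    obtain ⟨n, σ, π, -, hσ0, hσa, hπc, hπ0, hinv, hlev⟩ := level_param hq.1 hq.2.2.1
    obtain ⟨U, hUsub, hUo, hU0⟩ := mem_nhds_iff.1 (hσa.eventually_analyticAt.and hlev)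
    have hπU : ∀ᶠ x in 𝓝 q, π x ∈ U :=
      hπc.continuousAt.preimage_mem_nhds (by rw [hπ0]; exact hUo.mem_nhds hU0)
    refine ⟨_, hinv.and hπU, ?_⟩
    have han : AnalyticOnNhd ℂ (fun s => (σ s).1) U := fun s hs =>
      analyticAt_fst.comp (hUsub hs).1
    refine (sard hUo han).mono ?_
    rintro _ ⟨x, ⟨hxQ, hx1, hx2⟩, rfl⟩
    have hx : σ (π x) = x := hx1 (by rw [hxQ.2.1, hq.2.1])
    refine ⟨π x, ⟨hx2, fun hsurj => hxQ.2.2.2 fun ξ => ?_⟩, by simp only [hx]⟩
    obtain ⟨ha, -, -, htan⟩ := hUsub hx2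
    obtain ⟨w, hw⟩ := hsurj ξ
    rw [fderiv.fst ha.differentiableAt] at hw
    have h1 := (htan (fderiv ℂ σ (π x) w)).2 ⟨w, rfl⟩
    rw [hx] at h1
    refine ⟨(fderiv ℂ σ (π x) w).2, ?_⟩
    rw [← hw]
    exact h1
  choose! W hW hWm using loc
  obtain ⟨t, htQ, htc, hcov⟩ := TopologicalSpace.countable_cover_nhdsWithin
    (f := W) (s := Q) (fun q hq => mem_nhdsWithin_of_mem_nhds (hW q hq))
  have : Countable t := htc.to_subtype
  refine (isMeagre_iUnion (f := fun q : t => Prod.fst '' (Q ∩ W q))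
    (fun q => hWm q (htQ q.2))).mono ?_
  rintro _ ⟨x, hx, rfl⟩
  obtain ⟨q, hqt, hxq⟩ := Set.mem_iUnion₂.1 (hcov hx)
  exact Set.mem_iUnion.2 ⟨⟨q, hqt⟩, x, ⟨hx, hxq⟩, rfl⟩

/-- selection of a fibre and a disc in it along which the family deforms in all directions -/
theorem sel {d g k : ℕ} {B : Set (Fin d → ℂ)} (hB : IsOpen B) (hne : B.Nonempty) {ι : Type}
    [Fintype ι] (b : Module.Basis ι ℂ ((Fin d → ℂ) × EE g)) {R : Set ((Fin d → ℂ) × EE g → ℂ)}
    (hR : DRing b (B ×ˢ Set.univ) R) (hc : R.Countable) (S : Set ((Fin d → ℂ) × EE g))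
    (hS : ∀ x ∈ B, ∃ γ : (Fin k → ℂ) → EE g, AnalyticAt ℂ γ 0 ∧ Injective (fderiv ℂ γ 0) ∧
      ∀ᶠ s in 𝓝 0, (x, γ s) ∈ S) {G : Set (Fin d → ℂ)} (hG : G ∈ residual (Fin d → ℂ)) :
    ∃ x ∈ B ∩ G, ∃ γ : (Fin k → ℂ) → EE g, AnalyticAt ℂ γ 0 ∧ Injective (fderiv ℂ γ 0) ∧
      (∀ᶠ s in 𝓝 0, (x, γ s) ∈ S) ∧ ∀ F ∈ R, F (x, γ 0) = 0 →
        ∀ᶠ s in 𝓝 0, F (x, γ s) = 0 ∧ ∀ ξ, ∃ ζ, fderiv ℂ F (x, γ s) (ξ, ζ) = 0 := by
  have : Countable R := hc.to_subtype
  let A : (Σ r : ℕ, Fin r → R) → Set (Fin d → ℂ) := fun t =>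
    Prod.fst '' {q : (Fin d → ℂ) × EE g | AnalyticAt ℂ (fun x j => (t.2 j).1 x) q ∧
      (fun x j => (t.2 j).1 x) q = 0 ∧ Surjective (fderiv ℂ (fun x j => (t.2 j).1 x) q) ∧
      ¬ ∀ ξ, ∃ ζ, fderiv ℂ (fun x j => (t.2 j).1 x) q (ξ, ζ) = 0}
  have hA : IsMeagre (⋃ t, A t) := isMeagre_iUnion fun t => xsel_meagre _
  have hres : G ∩ (⋃ t, A t)ᶜ ∈ residual (Fin d → ℂ) := inter_mem hG hA
  obtain ⟨x, hxB, hxG, hxA⟩ := (dense_of_mem_residual hres).inter_open_nonempty B hB hne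
  obtain ⟨γ, hγa, hγi, hγS⟩ := hS x hxB
  have hU := hγa.eventually_analyticAt.and ((eventually_inj hγa hγi).and hγS)
  have hmem : ∀ z : EE g, (x, z) ∈ B ×ˢ (Set.univ : Set (EE g)) := fun z => ⟨hxB, trivial⟩
  obtain ⟨s0, hs0, hgen⟩ := generic_point (R := (fun F s => F (x, γ s)) '' R) (hc.image _) hU
    (by
      rintro _ ⟨F, hF, rfl⟩ s hs
      exact AnalyticAt.comp (g := F) (f := fun s => (x, γ s)) (hR.an F hF _ (hmem _))
        (analyticAt_const.prod hs.1))
  have hs0U := interior_subset hs0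
  have hT : Tendsto (fun s : Fin k → ℂ => s0 + s) (𝓝 0) (𝓝 s0) := by
    have : Continuous (fun s : Fin k → ℂ => s0 + s) := continuous_const.add continuous_id
    simpa using this.tendsto 0
  have hγa' : AnalyticAt ℂ (fun s => γ (s0 + s)) 0 :=
    AnalyticAt.comp (g := γ) (by simpa using hs0U.1) (analyticAt_const.add analyticAt_id)
  refine ⟨x, ⟨hxB, hxG⟩, fun s => γ (s0 + s), hγa', ?_, ?_, ?_⟩
  · rw [fderiv_comp_add_left, add_zero]
    exact hs0U.2.1
  · have : ∀ᶠ s in 𝓝 s0, (x, γ s) ∈ S :=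
      mem_of_superset (mem_interior_iff_mem_nhds.1 hs0) fun s hs => hs.2.2
    exact hT.eventually this
  intro F hF hF0
  simp only [add_zero] at hF0
  obtain ⟨r, h, hh, hsurj, hideal⟩ := gen b hR (hmem (γ s0))
  have hHan : ∀ z : EE g, AnalyticAt ℂ (fun q j => h j q) (x, z) := fun z =>
    analyticAt_pi_iff.2 fun j => hR.an _ (hh j).1 _ (hmem z)
  have hT2 : Tendsto (fun s : Fin k → ℂ => (x, γ s)) (𝓝 s0) (𝓝 (x, γ s0)) :=
    tendsto_const_nhds.prodMk_nhds hs0U.1.continuousAt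
  have e1 : ∀ᶠ s in 𝓝 s0, F (x, γ s) = 0 := hgen _ ⟨F, hF, rfl⟩ hF0
  have e2 : ∀ᶠ s in 𝓝 s0, ∀ j, h j (x, γ s) = 0 :=
    eventually_all.2 fun j => hgen _ ⟨h j, (hh j).1, rfl⟩ (hh j).2
  have e3 := hT2.eventually (eventually_surj (hHan _) hsurj)
  have e4 := hT2.eventually (hideal F hF hF0).eventually_nhds
  refine hT.eventually (p := fun s => F (x, γ s) = 0 ∧
    ∀ ξ, ∃ ζ, fderiv ℂ F (x, γ s) (ξ, ζ) = 0) ?_
  filter_upwards [e1, e2, e3, e4] with s h1 h2 h3 h4
  refine ⟨h1, fun ξ => ?_⟩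
  have h0 : (fun q j => h j q) (x, γ s) = 0 := funext h2
  have hall : ∀ ξ, ∃ ζ, fderiv ℂ (fun q j => h j q) (x, γ s) (ξ, ζ) = 0 := by
    by_contra hno
    exact hxA (Set.mem_iUnion.2 ⟨⟨r, fun j => ⟨h j, (hh j).1⟩⟩,
      (x, γ s), ⟨hHan _, h0, h3, hno⟩, rfl⟩)
  obtain ⟨ζ, hζ⟩ := hall ξ
  refine ⟨ζ, tangent_level (hHan _) h3 (hR.an F hF _ (hmem _)) ?_ hζ⟩
  filter_upwards [h4] with q hq hq0
  exact hq fun j => (congrFun hq0 j).trans (h2 j)

end Pool.Agent.MP_f58063_ag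

end
end
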