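import Pool.Agent.Mg.Fcf0a82q.Ga9bf1b
import Pool.Agent.Mg.Fcf0a82q.Ge1829e

section

open Complex Filter Topology Matrix Function

noncomputable section

namespace Pool.Agent.MP_f58063_ag

variable {g : ℕ} {τ : Mat g}

/-- theta constants with real characteristics as series -/
def Sr (τ : Mat g) (a b : Fin g → ℝ) : ℂ :=
  ∑' n : Fin g → ℤ, exp (Real.pi * I * ∑ i, ∑ j, ((n i : ℂ) + a i) * τ i j * ((n j : ℂ) + a j) +
    2 * Real.pi * I * ∑ i, ((n i : ℂ) + a i) * b i)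

/-- the exponent of the general term -/
def xsdupE (τ : Mat g) (a b : Fin g → ℝ) (n : Fin g → ℤ) : ℂ :=
  Real.pi * I * ∑ i, ∑ j, ((n i : ℂ) + a i) * τ i j * ((n j : ℂ) + a j) +
    2 * Real.pi * I * ∑ i, ((n i : ℂ) + a i) * b i

lemma xsdup_def (τ : Mat g) (a b : Fin g → ℝ) : Sr τ a b = ∑' n, exp (xsdupE τ a b n) := rfl

lemma xsdup_key (hτ : τ ∈ Siegel g) (a b : Fin g → ℝ) (n : Fin g → ℤ) :
    xsdupE τ a b n = (Real.pi * I * ∑ i, ∑ j, (a i : ℂ) * τ i j * a j +
      2 * Real.pi * I * ∑ i, (a i : ℂ) * b i) +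
      xthb_ex τ n fun i => ∑ j, τ i j * a j + b i := by
  have h1 : ∑ i, ∑ j, ((n i : ℂ) + a i) * τ i j * ((n j : ℂ) + a j) =
      ∑ i, ∑ j, (n i : ℂ) * τ i j * n j + ∑ i, ∑ j, (n i : ℂ) * τ i j * a j +
        ∑ i, ∑ j, (a i : ℂ) * τ i j * n j + ∑ i, ∑ j, (a i : ℂ) * τ i j * a j := by
    simp only [← Finset.sum_add_distrib]
    refine Finset.sum_congr rfl fun i _ => Finset.sum_congr rfl fun j _ => ?_
    ring
  have h2 : ∑ i, ∑ j, (a i : ℂ) * τ i j * n j = ∑ i, ∑ j, (n i : ℂ) * τ i j * a j := by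
    rw [Finset.sum_comm]
    refine Finset.sum_congr rfl fun i _ => Finset.sum_congr rfl fun j _ => ?_
    rw [hτ.1 j i]
    ring
  have h3 : ∑ i, ((n i : ℂ) + a i) * b i = ∑ i, (n i : ℂ) * b i + ∑ i, (a i : ℂ) * b i := by
    simp only [← Finset.sum_add_distrib]
    refine Finset.sum_congr rfl fun i _ => ?_
    ring
  have h4 : ∑ i, (n i : ℂ) * (∑ j, τ i j * a j + b i) =
      ∑ i, ∑ j, (n i : ℂ) * τ i j * a j + ∑ i, (n i : ℂ) * b i := by
    simp only [← Finset.sum_add_distrib]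
    refine Finset.sum_congr rfl fun i _ => ?_
    simp only [mul_add, Finset.mul_sum, mul_assoc]
  simp only [xsdupE, xthb_ex]
  rw [h1, h2, h3, h4]
  ring

lemma xsdup_summable (hτ : τ ∈ Siegel g) (a b : Fin g → ℝ) :
    Summable fun n => ‖exp (xsdupE τ a b n)‖ := by
  have h := (theta_summable (Siegel_sub hτ) fun i => ∑ j, τ i j * a j + b i).mul_left
    ‖exp (Real.pi * I * ∑ i, ∑ j, (a i : ℂ) * τ i j * a j +
      2 * Real.pi * I * ∑ i, (a i : ℂ) * b i)‖
  refine h.congr fun n => ?_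
  rw [xsdup_key hτ, exp_add (_ + _) (xthb_ex _ _ _), norm_mul]
  rfl

lemma xsdup_theta (hτ : τ ∈ Siegel g) (a b : Fin g → ℝ) :
    Sr τ a b = exp (Real.pi * I * ∑ i, ∑ j, (a i : ℂ) * τ i j * a j +
      2 * Real.pi * I * ∑ i, (a i : ℂ) * b i) * theta τ fun i => ∑ j, τ i j * a j + b i := by
  rw [xsdup_def, theta, ← tsum_mul_left]
  refine tsum_congr fun n => ?_
  rw [xsdup_key hτ, exp_add (_ + _) (xthb_ex _ _ _)]
  rfl

lemma xsdup_re (τ : Mat g) (a b : Fin g → ℝ) (n : Fin g → ℤ) : (xsdupE τ a b n).re =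
    -(Real.pi * ∑ i, ∑ j, ((n i : ℝ) + a i) * (τ i j).im * ((n j : ℝ) + a j)) := by
  simp [xsdupE, Complex.im_sum]

/-- the reindexing map -/
def xsdupM (y : (Fin g → Fin 2) × (Fin g → ℤ) × (Fin g → ℤ)) : (Fin g → ℤ) × (Fin g → ℤ) :=
  (fun i => y.2.1 i + y.2.2 i + ((y.1 i : ℕ) : ℤ), fun i => y.2.1 i - y.2.2 i)

lemma xsdup_bij : Bijective (xsdupM (g := g)) := by
  constructor
  · rintro ⟨σ, p, q⟩ ⟨σ', p', q'⟩ h
    have h1 : ∀ i, p i + q i + ((σ i : ℕ) : ℤ) = p' i + q' i + ((σ' i : ℕ) : ℤ) := fun i =>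
      congrFun (congrArg Prod.fst h) i
    have h2 : ∀ i, p i - q i = p' i - q' i := fun i => congrFun (congrArg Prod.snd h) i
    have h3 : ∀ i, (σ i : ℕ) = σ' i ∧ p i = p' i ∧ q i = q' i := fun i => by
      have := h1 i
      have := h2 i
      have := (σ i).2
      have := (σ' i).2
      omega
    rw [show σ = σ' from funext fun i => Fin.ext (h3 i).1,
      show p = p' from funext fun i => (h3 i).2.1, show q = q' from funext fun i => (h3 i).2.2]
  · rintro ⟨n, m⟩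
    refine ⟨(fun i => ⟨((n i + m i) % 2).toNat, by omega⟩, fun i => (n i + m i) / 2,
      fun i => (n i + m i) / 2 - m i), Prod.ext (funext fun i => ?_) (funext fun i => ?_)⟩
    · change (n i + m i) / 2 + ((n i + m i) / 2 - m i) + ((((n i + m i) % 2).toNat : ℕ) : ℤ) = n i
      omega
    · change (n i + m i) / 2 - ((n i + m i) / 2 - m i) = m i
      omega

lemma xsdup_add (τ : Mat g) (a₁ b₁ a₂ b₂ : Fin g → ℝ) (σ : Fin g → Fin 2) (p q : Fin g → ℤ) :
    xsdupE τ a₁ b₁ (xsdupM (σ, p, q)).1 + xsdupE τ a₂ b₂ (xsdupM (σ, p, q)).2 =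
      xsdupE ((2 : ℂ) • τ) (fun i => (a₁ i + a₂ i + (σ i : ℕ)) / 2) (fun i => b₁ i + b₂ i) p +
        xsdupE ((2 : ℂ) • τ) (fun i => (a₁ i - a₂ i + (σ i : ℕ)) / 2)
          (fun i => b₁ i - b₂ i) q := by
  simp only [xsdupE, xsdupM, Pi.smul_apply, smul_eq_mul]
  have e : ∀ x y A B C D : ℂ, x * A + y * B + (x * C + y * D) = x * (A + C) + y * (B + D) :=
    fun _ _ _ _ _ _ => by ring
  rw [e, e]
  simp only [← Finset.sum_add_distrib]
  congr 2
  · refine Finset.sum_congr rfl fun i _ => Finset.sum_congr rfl fun j _ => ?_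
    push_cast
    ring
  · refine Finset.sum_congr rfl fun i _ => ?_
    push_cast
    ring

theorem two_smul_siegel (hτ : τ ∈ Siegel g) : (2 : ℂ) • τ ∈ Siegel g := by
  refine ⟨fun i j => by simp only [Pi.smul_apply, hτ.1 i j], fun v hv => ?_⟩
  have h := hτ.2 v hv
  have h2 : ∑ i, ∑ j, v i * (((2 : ℂ) • τ) i j).im * v j =
      2 * ∑ i, ∑ j, v i * (τ i j).im * v j := by
    simp only [Finset.mul_sum]
    refine Finset.sum_congr rfl fun i _ => Finset.sum_congr rfl fun j _ => ?_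
    simp only [Pi.smul_apply, smul_eq_mul, Complex.mul_im, Complex.re_ofNat, Complex.im_ofNat]
    ring
  rw [h2]
  linarith

theorem norm_th (hτ : τ ∈ Siegel g) (a b : Fin g → ℝ) :
    ‖th (Sum.elim (fun i => (a i : ℂ)) fun i => (b i : ℂ)) τ‖ = ‖Sr τ a b‖ := by
  rw [xsdup_theta hτ]
  simp only [th, thc, Sum.elim_inl, Sum.elim_inr, Pi.zero_apply, mul_zero, Finset.sum_const_zero,
    add_zero, zero_add, norm_mul, Complex.norm_exp]
  congr 2
  simp [Complex.im_sum]

theorem Sr_shift (τ : Mat g) (a b : Fin g → ℝ) (n m : Fin g → ℤ) :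
    Sr τ (fun i => a i + n i) (fun i => b i + m i) =
      exp (2 * Real.pi * I * ∑ i, (a i : ℂ) * m i) * Sr τ a b := by
  rw [xsdup_def, xsdup_def, ← (Equiv.addRight n).tsum_eq fun k => exp (xsdupE τ a b k),
    ← tsum_mul_left]
  refine tsum_congr fun k => ?_
  have h : xsdupE τ (fun i => a i + n i) (fun i => b i + m i) k =
      2 * Real.pi * I * ∑ i, (a i : ℂ) * m i + xsdupE τ a b (k + n) +
        ((∑ i, (k i + n i) * m i : ℤ) : ℂ) * (2 * Real.pi * I) := by
    have h1 : ∑ i, ∑ j, ((k i : ℂ) + ((a i + n i : ℝ) : ℂ)) * τ i j *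
        ((k j : ℂ) + ((a j + n j : ℝ) : ℂ)) =
        ∑ i, ∑ j, ((((k + n) i : ℤ) : ℂ) + a i) * τ i j * ((((k + n) j : ℤ) : ℂ) + a j) := by
      refine Finset.sum_congr rfl fun i _ => Finset.sum_congr rfl fun j _ => ?_
      simp only [Pi.add_apply]
      push_cast
      ring
    have h2 : ∑ i, ((k i : ℂ) + ((a i + n i : ℝ) : ℂ)) * ((b i + m i : ℝ) : ℂ) =
        ∑ i, (a i : ℂ) * m i + ∑ i, ((((k + n) i : ℤ) : ℂ) + a i) * b i +
          ((∑ i, (k i + n i) * m i : ℤ) : ℂ) := by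
      push_cast
      simp only [← Finset.sum_add_distrib]
      refine Finset.sum_congr rfl fun i _ => ?_
      simp only [Pi.add_apply]
      push_cast
      ring
    simp only [xsdupE]
    rw [h1, h2]
    ring
  rw [h, exp_add, exp_add, exp_int_mul_two_pi_mul_I, mul_one]
  rfl

theorem Sr_bdd (hτ : τ ∈ Siegel g) : ∃ M : ℝ, ∀ a b, ‖Sr τ a b‖ ≤ M := by
  obtain ⟨c, hc, h⟩ := xtha_c (Siegel_sub hτ)
  have hπ := Real.pi_gt_three
  have hs := (xtha_gauss g).mul_left (Real.exp (1 / c + g))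
  refine ⟨∑' n : Fin g → ℤ, Real.exp (1 / c + g) * Real.exp (-∑ i, |(n i : ℝ)|), fun a b => ?_⟩
  have h0 := Sr_shift τ (fun i => Int.fract (a i)) b (fun i => ⌊a i⌋) 0
  simp only [Int.fract_add_floor, Pi.zero_apply, Int.cast_zero, add_zero, mul_zero,
    Finset.sum_const_zero, exp_zero, one_mul] at h0
  rw [show Sr τ a b = Sr τ (fun i => Int.fract (a i)) b from h0, xsdup_def]
  refine tsum_of_norm_bounded hs.hasSum fun n => ?_
  rw [Complex.norm_exp, xsdup_re, ← Real.exp_add, Real.exp_le_exp]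
  have h1 := h fun i => (n i : ℝ) + Int.fract (a i)
  have h2 : ∑ i, |(n i : ℝ)| ≤ ∑ i, |(n i : ℝ) + Int.fract (a i)| + g := by
    have h3 : (g : ℝ) = ∑ _i : Fin g, (1 : ℝ) := by simp
    rw [h3, ← Finset.sum_add_distrib]
    refine Finset.sum_le_sum fun i _ => ?_
    have h4 := Int.fract_nonneg (a i)
    have h5 := Int.fract_lt_one (a i)
    have h6 := abs_sub ((n i : ℝ) + Int.fract (a i)) (Int.fract (a i))
    rw [add_sub_cancel_right, abs_of_nonneg h4] at h6
    linarith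
  generalize ∑ i, |(n i : ℝ) + Int.fract (a i)| = A at h1 h2
  generalize ∑ i, ∑ j, ((n i : ℝ) + Int.fract (a i)) * (τ i j).im *
    ((n j : ℝ) + Int.fract (a j)) = B at h1 ⊢
  have h3 : A - c * A ^ 2 ≤ 1 / c := by
    rw [le_div_iff₀ hc]
    nlinarith [sq_nonneg (c * A - 1), sq_nonneg (c * A)]
  have h4 : 0 ≤ c * A ^ 2 := by positivity
  nlinarith

/-- the product formula -/
theorem Sr_mul (hτ : τ ∈ Siegel g) (a₁ b₁ a₂ b₂ : Fin g → ℝ) :
    Sr τ a₁ b₁ * Sr τ a₂ b₂ = ∑ σ : Fin g → Fin 2,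
      Sr ((2 : ℂ) • τ) (fun i => (a₁ i + a₂ i + (σ i : ℕ)) / 2) (fun i => b₁ i + b₂ i) *
        Sr ((2 : ℂ) • τ) (fun i => (a₁ i - a₂ i + (σ i : ℕ)) / 2) fun i => b₁ i - b₂ i := by
  have h1 := xsdup_summable hτ a₁ b₁
  have h2 := xsdup_summable hτ a₂ b₂
  have h3 := (Equiv.ofBijective _ xsdup_bij).summable_iff.2 (summable_mul_of_summable_norm h1 h2)
  rw [xsdup_def, xsdup_def, tsum_mul_tsum_of_summable_norm h1 h2,
    ← (Equiv.ofBijective _ xsdup_bij).tsum_eq]
  refine h3.tsum_prod.trans ?_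
  rw [tsum_fintype]
  refine Finset.sum_congr rfl fun σ _ => ?_
  rw [xsdup_def, xsdup_def, tsum_mul_tsum_of_summable_norm
    (xsdup_summable (two_smul_siegel hτ) _ _) (xsdup_summable (two_smul_siegel hτ) _ _)]
  refine tsum_congr fun y => ?_
  rw [← exp_add, ← xsdup_add, exp_add]
  rfl

end Pool.Agent.MP_f58063_ag

end
end

section

open Complex Filter Topology Matrix Function

noncomputable section

namespace Pool.Agent.MP_f58063_ag

variable {g : ℕ}

theorem xsblow_abs {H : Type} [NormedAddCommGroup H] [InnerProductSpace ℂ H]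
    (T : C(UnitAddTorus (Fin g), ℂ) →L[ℂ] H)
    (hT : Orthonormal ℂ fun n => T (UnitAddTorus.mFourier n)) {c : (Fin g → ℤ) → ℂ}
    {f : C(UnitAddTorus (Fin g), ℂ)} (hc : HasSum (fun n => c n • UnitAddTorus.mFourier n) f)
    (F : Finset (Fin g → ℤ)) : ∑ n ∈ F, ‖c n‖ ^ 2 ≤ ‖T f‖ ^ 2 := by
  classical
  refine le_of_eq_of_le (Finset.sum_congr rfl fun m _ => ?_) (hT.sum_inner_products_le (T f))
  have h1 := ((innerSL ℂ (T (UnitAddTorus.mFourier m))).comp T).hasSum hc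
  have h2 : HasSum (fun n => ((innerSL ℂ (T (UnitAddTorus.mFourier m))).comp T)
      (c n • UnitAddTorus.mFourier n)) (c m) := by
    have e := orthonormal_iff_ite.1 hT
    convert hasSum_ite_eq m (c m) using 2 with n
    simp only [ContinuousLinearMap.comp_apply, map_smul, innerSL_apply_apply, smul_eq_mul]
    rw [e]
    by_cases hn : n = m
    · simp [hn]
    · simp [hn, Ne.symm hn]
  rw [h2.unique h1]
  rfl

theorem xsblow_toLp {X : Type} [TopologicalSpace X] [CompactSpace X] [MeasurableSpace X]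
    [BorelSpace X] [SecondCountableTopologyEither X ℂ] (μ : MeasureTheory.Measure X)
    [MeasureTheory.IsFiniteMeasure μ] (hμ : μ Set.univ = 1) (f : C(X, ℂ)) :
    ‖ContinuousMap.toLp (E := ℂ) 2 μ ℂ f‖ ≤ ‖f‖ := by
  have h1 : MeasureTheory.measureUnivNNReal μ = 1 := by
    rw [← ENNReal.coe_inj, MeasureTheory.coe_measureUnivNNReal, hμ, ENNReal.coe_one]
  have h2 := ContinuousMap.toLp_norm_le (E := ℂ) (p := 2) (𝕜 := ℂ) μ
  rw [h1, NNReal.coe_one, Real.one_rpow] at h2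
  exact (ContinuousLinearMap.le_of_opNorm_le _ h2 f).trans_eq (one_mul _)

theorem bessel {c : (Fin g → ℤ) → ℂ} (hc : Summable fun n => ‖c n‖) {M : ℝ}
    (h : ∀ b : Fin g → ℝ, ‖∑' n, c n * exp (2 * Real.pi * I * ∑ i, (n i : ℂ) * b i)‖ ≤ M)
    (F : Finset (Fin g → ℤ)) : ∑ n ∈ F, ‖c n‖ ^ 2 ≤ M ^ 2 := by
  have hM : 0 ≤ M := (norm_nonneg _).trans (h 0)
  have hs : Summable fun n => c n • UnitAddTorus.mFourier n := by
    refine Summable.of_norm ?_
    simpa only [norm_smul, UnitAddTorus.mFourier_norm, mul_one] using hc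
  have h0 : ‖(∑' n, c n • UnitAddTorus.mFourier n : C(UnitAddTorus (Fin g), ℂ))‖ ≤ M := by
    refine (ContinuousMap.norm_le _ hM).2 fun x => ?_
    choose y hy using fun i => QuotientAddGroup.mk_surjective (x i)
    rw [← ContinuousMap.tsum_apply hs]
    refine le_of_eq_of_le (congrArg norm (tsum_congr fun n => ?_)) (h y)
    have hx : x = fun i => ((y i : ℝ) : UnitAddCircle) := funext fun i => (hy i).symm
    simp only [hx, ContinuousMap.smul_apply, UnitAddTorus.mFourier, ContinuousMap.coe_mk,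
      fourier_coe_apply, smul_eq_mul, ← exp_sum]
    congr 2
    simp only [ofReal_one, div_one, Finset.mul_sum]
    refine Finset.sum_congr rfl fun i _ => ?_
    ring
  refine (xsblow_abs _ UnitAddTorus.orthonormal_mFourier hs.hasSum F).trans
    (pow_le_pow_left₀ (norm_nonneg _) (le_trans (xsblow_toLp (MeasureTheory.Measure.pi
      fun _ : Fin g => (AddCircle.haarAddCircle : MeasureTheory.Measure UnitAddCircle))
      MeasureTheory.measure_univ _) h0) 2)

theorem xsblow_shift (τ : Mat g) (a b : Fin g → ℝ) (n m : Fin g → ℤ) :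
    ‖Sr τ (fun i => a i + n i) (fun i => b i + m i)‖ = ‖Sr τ a b‖ := by
  have e : 2 * Real.pi * I * ∑ i, (a i : ℂ) * m i =
      ((2 * Real.pi * ∑ i, a i * m i : ℝ) : ℂ) * I := by
    push_cast
    ring
  rw [Sr_shift, norm_mul, e, norm_exp_ofReal_mul_I, one_mul]

theorem xsblow_char (σ : Fin g → Fin 2) :
    ∑ ε : Fin g → Fin 2, exp (Real.pi * I * ∑ i, ((σ i : ℕ) : ℂ) * (ε i : ℕ)) =
      if σ = 0 then 2 ^ g else 0 := by
  have e : ∀ ε : Fin g → Fin 2, exp (Real.pi * I * ∑ i, ((σ i : ℕ) : ℂ) * (ε i : ℕ)) =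
      ∏ i, exp (Real.pi * I * (((σ i : ℕ) : ℂ) * (ε i : ℕ))) := fun ε => by
    rw [Finset.mul_sum, exp_sum]
  simp only [e]
  rw [← Fintype.piFinset_univ, ← Finset.prod_univ_sum (fun _ => Finset.univ)
    fun i (x : Fin 2) => exp (Real.pi * I * (((σ i : ℕ) : ℂ) * (x : ℕ)))]
  split_ifs with h
  · subst h
    simp
  · obtain ⟨i, hi⟩ := Function.ne_iff.1 h
    refine Finset.prod_eq_zero (Finset.mem_univ i) ?_
    have : σ i = 1 := by
      have : σ i ≠ 0 := hi
      omega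
    simp [this, exp_pi_mul_I]

theorem xsblow_inv {τ : Mat g} (hτ : τ ∈ Siegel g) {R K : ℝ} (α β : Fin g → ℝ)
    (hR : ∀ ε : Fin g → Fin 2, ‖Sr τ 0 fun i => ((ε i : ℕ) : ℝ) / 2‖ ≤ R)
    (hK : ∀ ε : Fin g → Fin 2,
      ‖Sr τ (fun i => 2 * α i) fun i => β i + ((ε i : ℕ) : ℝ) / 2‖ ≤ K) :
    ‖Sr ((2 : ℂ) • τ) α β‖ ^ 2 ≤ K * R := by
  have key : ∀ ε : Fin g → Fin 2,
      exp (-(2 * Real.pi * I * ∑ i, (α i : ℂ) * (ε i : ℕ))) *
        (Sr τ (fun i => 2 * α i) (fun i => β i + ((ε i : ℕ) : ℝ) / 2) *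
          Sr τ 0 fun i => ((ε i : ℕ) : ℝ) / 2) =
      ∑ σ : Fin g → Fin 2, exp (Real.pi * I * ∑ i, ((σ i : ℕ) : ℂ) * (ε i : ℕ)) *
        Sr ((2 : ℂ) • τ) (fun i => α i + ((σ i : ℕ) : ℝ) / 2) β ^ 2 := by
    intro ε
    rw [Sr_mul hτ, Finset.mul_sum]
    refine Finset.sum_congr rfl fun σ _ => ?_
    have e1 : (fun i => (2 * α i + (0 : Fin g → ℝ) i + (σ i : ℕ)) / 2) =
        fun i => (α i + ((σ i : ℕ) : ℝ) / 2) + ((0 : Fin g → ℤ) i : ℝ) := by
      funext i
      simp only [Pi.zero_apply, Int.cast_zero]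
      ring
    have e2 : (fun i => (2 * α i - (0 : Fin g → ℝ) i + (σ i : ℕ)) / 2) =
        fun i => α i + ((σ i : ℕ) : ℝ) / 2 := by
      funext i
      simp only [Pi.zero_apply]
      ring
    have e3 : (fun i => β i + ((ε i : ℕ) : ℝ) / 2 + ((ε i : ℕ) : ℝ) / 2) =
        fun i => β i + ((fun i => ((ε i : ℕ) : ℤ)) i : ℤ) := by
      funext i
      simp only [Int.cast_natCast]
      ring
    have e4 : (fun i => β i + ((ε i : ℕ) : ℝ) / 2 - ((ε i : ℕ) : ℝ) / 2) = β := by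
      funext i
      ring
    rw [e1, e2, e3, e4, Sr_shift, ← mul_assoc, ← mul_assoc, ← exp_add, sq, ← mul_assoc]
    congr 3
    push_cast
    simp only [Finset.mul_sum, ← Finset.sum_neg_distrib, ← Finset.sum_add_distrib]
    refine Finset.sum_congr rfl fun i _ => ?_
    ring
  have tot := Finset.sum_congr (rfl : (Finset.univ : Finset (Fin g → Fin 2)) = _)
    fun ε _ => key ε
  rw [Finset.sum_comm] at tot
  simp only [← Finset.sum_mul, xsblow_char, ite_mul, zero_mul, Finset.sum_ite_eq',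
    Finset.mem_univ, if_true, Pi.zero_apply, Fin.val_zero, Nat.cast_zero, zero_div,
    add_zero] at tot
  have hn := congrArg norm tot
  rw [norm_mul, norm_pow, norm_pow, Complex.norm_ofNat] at hn
  have hK0 : 0 ≤ K := (norm_nonneg _).trans (hK 0)
  have hle : (2 : ℝ) ^ g * ‖Sr ((2 : ℂ) • τ) α β‖ ^ 2 ≤ 2 ^ g * (K * R) := by
    rw [← hn]
    refine (norm_sum_le _ _).trans ((Finset.sum_le_card_nsmul _ _ (K * R) fun ε _ => ?_).trans ?_)
    · have e : -(2 * Real.pi * I * ∑ i, (α i : ℂ) * (ε i : ℕ)) =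
          ((-(2 * Real.pi * ∑ i, α i * (ε i : ℕ)) : ℝ) : ℂ) * I := by
        push_cast
        ring
      rw [norm_mul, e, norm_exp_ofReal_mul_I, one_mul, norm_mul]
      exact mul_le_mul (hK ε) (hR ε) (norm_nonneg _) hK0
    · simp
  exact le_of_mul_le_mul_left hle (by positivity)

/-- the theta constants of order two control all theta constants -/
theorem Sr_le {τ : Mat g} (hτ : τ ∈ Siegel g) {R : ℝ} (h : ∀ ε, ‖th (hc ε) τ‖ ≤ R)
    (a b : Fin g → ℝ) : ‖Sr τ a b‖ ≤ 2 ^ g * R := by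
  have hR0 : 0 ≤ R := (norm_nonneg _).trans (h 0)
  have hR : ∀ ε : Fin g → Fin 2, ‖Sr τ 0 fun i => ((ε i : ℕ) : ℝ) / 2‖ ≤ R := by
    intro ε
    rw [← norm_th hτ]
    refine le_of_eq_of_le ?_ (h (Sum.elim 0 ε))
    congr 2
    funext i
    rcases i with i | i <;> simp [hc]
  obtain ⟨B, hB⟩ := Sr_bdd hτ
  have hbdd : BddAbove (Set.range fun p : (Fin g → ℝ) × (Fin g → ℝ) => ‖Sr τ p.1 p.2‖) :=
    ⟨B, by rintro _ ⟨p, rfl⟩; exact hB _ _⟩
  set M := ⨆ p : (Fin g → ℝ) × (Fin g → ℝ), ‖Sr τ p.1 p.2‖ with hM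
  have hle : ∀ a b, ‖Sr τ a b‖ ≤ M := fun a b => le_ciSup hbdd (a, b)
  have hM0 : 0 ≤ M := (norm_nonneg _).trans (hle 0 0)
  have h2 : ∀ α β, ‖Sr ((2 : ℂ) • τ) α β‖ ≤ √(M * R) := fun α β =>
    Real.le_sqrt_of_sq_le (xsblow_inv hτ α β hR fun ε => hle _ _)
  have h3 : ∀ σ : Fin g → Fin 2,
      ‖Sr ((2 : ℂ) • τ) (fun i => ((σ i : ℕ) : ℝ) / 2) 0‖ ≤ R := by
    intro σ
    refine le_of_pow_le_pow_left₀ two_ne_zero hR0
      ((xsblow_inv hτ _ _ hR fun ε => ?_).trans_eq (sq R).symm)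
    refine le_of_eq_of_le ?_ (hR ε)
    rw [← xsblow_shift τ 0 _ (fun i => ((σ i : ℕ) : ℤ)) 0]
    congr 2
    · funext i
      simp only [Pi.zero_apply, Int.cast_natCast]
      ring
    · funext i
      simp only [Pi.zero_apply, Int.cast_zero]
      ring
  have h4 : ∀ a b, ‖Sr τ a b‖ ≤ √(2 ^ g * (√(M * R) * R)) := by
    intro a b
    refine Real.le_sqrt_of_sq_le ?_
    rw [sq, ← norm_mul, Sr_mul hτ]
    refine (norm_sum_le _ _).trans
      ((Finset.sum_le_card_nsmul _ _ (√(M * R) * R) fun σ _ => ?_).trans (by simp))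
    rw [norm_mul]
    refine mul_le_mul (h2 _ _) (le_of_eq_of_le ?_ (h3 σ)) (norm_nonneg _) (Real.sqrt_nonneg _)
    congr 2
    · funext i
      ring
    · funext i
      simp
  have h5 : M ^ 2 ≤ 2 ^ g * (√(M * R) * R) :=
    (Real.le_sqrt hM0 (by positivity)).1 (ciSup_le fun p => h4 _ _)
  refine (hle a b).trans ?_
  rcases hM0.eq_or_lt with h0 | h0
  · rw [← h0]
    positivity
  have hP : (1 : ℝ) ≤ 2 ^ g := one_le_pow₀ one_le_two
  have h6 := pow_le_pow_left₀ (sq_nonneg M) h5 2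
  rw [mul_pow, mul_pow, Real.sq_sqrt (by positivity)] at h6
  refine le_of_pow_le_pow_left₀ three_ne_zero (by positivity) (le_of_mul_le_mul_left ?_ h0)
  have h7 : 0 ≤ ((2 : ℝ) ^ g) ^ 2 * (M * R * R ^ 2) := by positivity
  nlinarith [mul_le_mul_of_nonneg_right hP h7]

/-- the quadratic form of the imaginary part -/
def xsblowQ (τ : Mat g) (v : Fin g → ℝ) : ℝ := ∑ i, ∑ j, v i * (τ i j).im * v j

theorem xsblow_norm (τ : Mat g) (n : Fin g → ℤ) :
    ‖exp (Real.pi * I * ∑ i, ∑ j, (n i : ℂ) * τ i j * n j)‖ =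
      Real.exp (-(Real.pi * xsblowQ τ fun i => n i)) := by
  rw [norm_exp]
  congr 1
  simp [xsblowQ, im_sum, re_sum]

theorem xsblow_par (τ : Mat g) (x y : Fin g → ℝ) :
    xsblowQ τ (fun i => x i - y i) + xsblowQ τ (fun i => x i + y i) =
      2 * xsblowQ τ x + 2 * xsblowQ τ y := by
  simp only [xsblowQ, Finset.mul_sum, ← Finset.sum_add_distrib]
  refine Finset.sum_congr rfl fun i _ => Finset.sum_congr rfl fun j _ => ?_
  ring

theorem xsblow_smul (τ : Mat g) (t : ℝ) (x : Fin g → ℝ) :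
    xsblowQ τ (fun i => t * x i) = t ^ 2 * xsblowQ τ x := by
  simp only [xsblowQ, Finset.mul_sum]
  refine Finset.sum_congr rfl fun i _ => Finset.sum_congr rfl fun j _ => ?_
  ring

theorem xsblow_pos {τ : Mat g} {K : ℝ} (h0 : ∀ v, 0 ≤ xsblowQ τ v)
    (hF : ∀ F : Finset (Fin g → ℤ),
      ∑ n ∈ F, Real.exp (-(Real.pi * xsblowQ τ fun i => n i)) ^ 2 ≤ K)
    (v : Fin g → ℝ) (hv : v ≠ 0) : 0 < xsblowQ τ v := by
  classical
  by_contra hle
  have hz : xsblowQ τ v = 0 := le_antisymm (not_lt.1 hle) (h0 v)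
  obtain ⟨i, hi⟩ := Function.ne_iff.1 hv
  have hi' : v i ≠ 0 := hi
  set C : ℝ := ∑ i, ∑ j, |(τ i j).im| with hC
  let n : ℕ → Fin g → ℤ := fun k j => ⌊(k / v i) * v j⌋
  have hinj : Function.Injective n := by
    intro k l e
    have := congrFun e i
    simp only [n, div_mul_cancel₀ _ hi', Int.floor_natCast] at this
    exact_mod_cast this
  have hb : ∀ k, (xsblowQ τ fun j => n k j) ≤ 2 * C := by
    intro k
    have e := xsblow_par τ (fun j => (k / v i) * v j) fun j => Int.fract ((k / v i) * v j)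
    simp only [Int.self_sub_fract] at e
    rw [xsblow_smul, hz] at e
    have h1 : (xsblowQ τ fun j => Int.fract ((k / v i) * v j)) ≤ C := by
      refine Finset.sum_le_sum fun a _ => Finset.sum_le_sum fun b _ => (le_abs_self _).trans ?_
      rw [abs_mul, abs_mul, abs_of_nonneg (Int.fract_nonneg ((k / v i) * v a)),
        abs_of_nonneg (Int.fract_nonneg ((k / v i) * v b))]
      exact (mul_le_of_le_one_right (mul_nonneg (Int.fract_nonneg _) (abs_nonneg _))
        (Int.fract_lt_one _).le).trans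
        (mul_le_of_le_one_left (abs_nonneg _) (Int.fract_lt_one _).le)
    have h2 := h0 fun j => (k / v i) * v j + Int.fract ((k / v i) * v j)
    simp only [n]
    linarith
  set d : ℝ := Real.exp (-(Real.pi * (2 * C))) ^ 2 with hd
  have hd0 : 0 < d := by positivity
  obtain ⟨N, hN⟩ := exists_nat_gt (K / d)
  have h3 := hF ((Finset.range N).image n)
  rw [Finset.sum_image fun x _ y _ e => hinj e] at h3
  have h4 : (Finset.range N).card • d ≤ ∑ k ∈ Finset.range N,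
      Real.exp (-(Real.pi * xsblowQ τ fun j => n k j)) ^ 2 :=
    Finset.card_nsmul_le_sum _ _ _ fun k _ => pow_le_pow_left₀ (Real.exp_pos _).le
      (Real.exp_le_exp.2 (neg_le_neg (mul_le_mul_of_nonneg_left (hb k) Real.pi_pos.le))) 2
  rw [Finset.card_range, nsmul_eq_mul] at h4
  rw [div_lt_iff₀ hd0] at hN
  linarith

/-- the theta constants blow up at the finite boundary of the Siegel space -/
theorem siegel_closed (g : ℕ) (R : ℝ) :
    closure {τ ∈ Siegel g | ∀ ε, ‖th (hc ε) τ‖ ≤ R} ⊆ Siegel g := by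
  have hQ : ∀ v : Fin g → ℝ, Continuous fun τ : Mat g => xsblowQ τ v := fun v => by
    unfold xsblowQ
    fun_prop
  refine (closure_minimal (t := {τ : Mat g | (∀ i j, τ i j = τ j i) ∧ (∀ v, 0 ≤ xsblowQ τ v) ∧
    ∀ F : Finset (Fin g → ℤ),
      ∑ n ∈ F, Real.exp (-(Real.pi * xsblowQ τ fun i => n i)) ^ 2 ≤ (2 ^ g * R) ^ 2})
    ?_ ?_).trans fun τ hτ => ⟨hτ.1, xsblow_pos hτ.2.1 hτ.2.2⟩
  · rintro τ ⟨hτ, h⟩
    refine ⟨hτ.1, fun v => ?_, fun F => ?_⟩
    · by_cases hv : v = 0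
      · simp [hv, xsblowQ]
      · exact (hτ.2 v hv).le
    · simp only [← xsblow_norm]
      refine bessel (c := fun n => exp (Real.pi * I * ∑ i, ∑ j, (n i : ℂ) * τ i j * n j)) ?_
        (fun b => le_of_eq_of_le ?_ (Sr_le hτ h 0 b)) F
      · simpa using theta_summable hτ.2 0
      · simp only [Sr, Pi.zero_apply, ofReal_zero, add_zero, exp_add]
  · simp only [Set.setOf_and, Set.setOf_forall]
    refine (isClosed_iInter fun i => isClosed_iInter fun j =>
      isClosed_eq (by fun_prop) (by fun_prop)).inter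
      ((isClosed_iInter fun v => isClosed_le continuous_const (hQ v)).inter
        (isClosed_iInter fun F => isClosed_le ?_ continuous_const))
    exact continuous_finset_sum _ fun n _ =>
      (Real.continuous_exp.comp (continuous_const.mul (hQ _)).neg).pow 2

end Pool.Agent.MP_f58063_ag

end
end

section

open Complex Filter Topology Matrix Function

noncomputable section

namespace Pool.Agent.MP_f58063_ag

variable {g : ℕ} {τ : Mat g}

theorem thc_analytic (c : LL g → ℂ) (hτ : τ ∈ PosIm g) (z : EE g) :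
    AnalyticAt ℂ (fun p : Mat g × EE g => thc c p.1 p.2) (τ, z) := by
  have h1 : ∀ i j, AnalyticAt ℂ (fun p : Mat g × EE g => p.1 i j) (τ, z) := fun i j =>
    analyticAt_pi_iff.1 (show AnalyticAt ℂ (fun (p : Mat g × EE g) j => p.1 i j) (τ, z) from
      analyticAt_pi_iff.1 (show AnalyticAt ℂ (fun (p : Mat g × EE g) i => p.1 i) (τ, z) from
        analyticAt_fst) i) j
  have h2 : ∀ i, AnalyticAt ℂ (fun p : Mat g × EE g => p.2 i) (τ, z) := fun i =>
    analyticAt_pi_iff.1 (show AnalyticAt ℂ (fun (p : Mat g × EE g) i => p.2 i) (τ, z) from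
      analyticAt_snd) i
  refine AnalyticAt.mul (AnalyticAt.cexp' (analyticAt_const.mul (AnalyticAt.add (AnalyticAt.add
    (Finset.analyticAt_fun_sum _ fun i _ => Finset.analyticAt_fun_sum _ fun j _ =>
      (analyticAt_const.mul (h1 i j)).mul analyticAt_const)
    (analyticAt_const.mul (Finset.analyticAt_fun_sum _ fun i _ => analyticAt_const.mul (h2 i))))
    analyticAt_const))) ?_
  exact (Theta_analytic hτ _).comp (f := fun p : Mat g × EE g =>
    (p.1, fun i => p.2 i + ∑ j, p.1 i j * c (.inl j) + c (.inr i)))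
    (analyticAt_fst.prod (analyticAt_pi_iff.2 fun i => ((h2 i).add
      (Finset.analyticAt_fun_sum _ fun j _ => (h1 i j).mul analyticAt_const)).add analyticAt_const))

theorem thc_analytic_z (c : LL g → ℂ) (hτ : τ ∈ PosIm g) (z : EE g) :
    AnalyticAt ℂ (thc c τ) z := by
  exact (thc_analytic c hτ z).comp (f := fun w => (τ, w)) (analyticAt_const.prod analyticAt_id)

theorem th_analytic (c : LL g → ℂ) : AnalyticOnNhd ℂ (th c) (PosIm g) := by
  exact fun σ hσ => (thc_analytic c hσ 0).comp (f := fun w => (w, 0))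
    (analyticAt_id.prod analyticAt_const)

lemma xsheat_dI (c : LL g → ℂ) (L : List (Fin g)) :
    AnalyticOnNhd ℂ (fun τ => dI L (thc c τ) 0) (PosIm g) := by
  intro σ hσ
  refine ((analyticAt_dd (thc_analytic c hσ 0) (L.map fun i => ((0 : Mat g), ee i))).comp
    (f := fun w => (w, 0)) (analyticAt_id.prod analyticAt_const)).congr ?_
  filter_upwards [isOpen_PosIm.mem_nhds hσ] with ρ hρ
  exact dd_slice (thc_analytic c hρ 0) L

theorem gr_analytic (c : LL g → ℂ) (a : Fin g) :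
    AnalyticOnNhd ℂ (fun τ => dv (ee a) (thc c τ) 0) (PosIm g) := by
  exact xsheat_dI c [a]

theorem he_analytic (c : LL g → ℂ) (a b : Fin g) :
    AnalyticOnNhd ℂ (fun τ => dv (ee a) (dv (ee b) (thc c τ)) 0) (PosIm g) := by
  exact xsheat_dI c [a, b]

theorem ψf_symm (c₀ : LL g → ℂ) (hτ : τ ∈ PosIm g) : (ψf c₀ τ)ᵀ = ψf c₀ τ := by
  ext a b
  simp only [ψf, transpose_apply, of_apply, dv_comm (thc_analytic_z c₀ hτ 0) (ee a) (ee b)]

theorem isOpen_Om (c₀ : LL g → ℂ) (cs : Fin g → LL g → ℂ) : IsOpen (Om c₀ cs) := by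
  refine isOpen_iff_mem_nhds.2 fun σ hσ => ?_
  have h0 := (th_analytic c₀ σ hσ.1).continuousAt
  have h1 : ContinuousAt (Vf c₀ cs) σ := continuousAt_pi.2 fun a => continuousAt_pi.2 fun i =>
    (gr_analytic (cs i) a σ hσ.1).continuousAt.div h0 hσ.2.1
  have h2 : ContinuousAt (fun ρ => (Vf c₀ cs ρ).det) σ :=
    (Continuous.matrix_det continuous_id).continuousAt.comp h1
  filter_upwards [isOpen_PosIm.mem_nhds hσ.1, h0.eventually_ne hσ.2.1, h2.eventually_ne hσ.2.2]
    with ρ a1 a2 a3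
  exact ⟨a1, a2, a3⟩

lemma xsheat_dv (c : LL g → ℂ) (τ : Mat g) (a : Fin g) (z : EE g) {f : EE g → ℂ}
    (hf : DifferentiableAt ℂ f fun i => z i + ∑ j, τ i j * c (.inl j) + c (.inr i)) :
    dv (ee a) (fun z : EE g => exp (Real.pi * I * (∑ i, ∑ j, c (.inl i) * τ i j * c (.inl j) +
        2 * ∑ i, c (.inl i) * z i + ∑ i, c (.inl i) * c (.inr i))) *
        f fun i => z i + ∑ j, τ i j * c (.inl j) + c (.inr i)) z =
      exp (Real.pi * I * (∑ i, ∑ j, c (.inl i) * τ i j * c (.inl j) + 2 * ∑ i, c (.inl i) * z i +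
        ∑ i, c (.inl i) * c (.inr i))) *
      (2 * Real.pi * I * c (.inl a) * f (fun i => z i + ∑ j, τ i j * c (.inl j) + c (.inr i)) +
        dv (ee a) f fun i => z i + ∑ j, τ i j * c (.inl j) + c (.inr i)) := by
  have h1 : HasFDerivAt (fun (z : EE g) i => z i + ∑ j, τ i j * c (.inl j) + c (.inr i))
      (ContinuousLinearMap.id ℂ _) z :=
    ((hasFDerivAt_id z).add_const fun i => ∑ j, τ i j * c (.inl j)).add_const fun i => c (.inr i)
  have h2 : HasFDerivAt (fun z : EE g => ∑ i, c (.inl i) * z i)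
      (∑ i, c (.inl i) • ContinuousLinearMap.proj i) z :=
    HasFDerivAt.fun_sum fun i _ => (hasFDerivAt_apply (𝕜 := ℂ) i z).const_mul (c (.inl i))
  have h3 := ((((h2.const_mul 2).const_add (∑ i, ∑ j, c (.inl i) * τ i j * c (.inl j))).add_const
    (∑ i, c (.inl i) * c (.inr i))).const_mul (Real.pi * I)).cexp.fun_mul (hf.hasFDerivAt.comp z h1)
  rw [dv_apply, dv_apply]
  refine (congrArg (· (ee a)) h3.fderiv).trans ?_
  simp [Pi.single_apply]
  ring

theorem dv_thc (c : LL g → ℂ) (hτ : τ ∈ PosIm g) (a : Fin g) (z : EE g) :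
    dv (ee a) (thc c τ) z =
      exp (Real.pi * I * (∑ i, ∑ j, c (.inl i) * τ i j * c (.inl j) + 2 * ∑ i, c (.inl i) * z i +
        ∑ i, c (.inl i) * c (.inr i))) *
      (2 * Real.pi * I * c (.inl a) *
          theta τ (fun i => z i + ∑ j, τ i j * c (.inl j) + c (.inr i)) +
        dv (ee a) (theta τ) fun i => z i + ∑ j, τ i j * c (.inl j) + c (.inr i)) := by
  exact xsheat_dv c τ a z (theta_analytic hτ _).differentiableAt

theorem dv_dv_thc (c : LL g → ℂ) (hτ : τ ∈ PosIm g) (a b : Fin g) (z : EE g) :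
    dv (ee a) (dv (ee b) (thc c τ)) z =
      exp (Real.pi * I * (∑ i, ∑ j, c (.inl i) * τ i j * c (.inl j) + 2 * ∑ i, c (.inl i) * z i +
        ∑ i, c (.inl i) * c (.inr i))) *
      ((2 * Real.pi * I) ^ 2 * c (.inl a) * c (.inl b) *
          theta τ (fun i => z i + ∑ j, τ i j * c (.inl j) + c (.inr i)) +
        2 * Real.pi * I * c (.inl a) *
          dv (ee b) (theta τ) (fun i => z i + ∑ j, τ i j * c (.inl j) + c (.inr i)) +
        2 * Real.pi * I * c (.inl b) *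
          dv (ee a) (theta τ) (fun i => z i + ∑ j, τ i j * c (.inl j) + c (.inr i)) +
        dv (ee a) (dv (ee b) (theta τ)) fun i => z i + ∑ j, τ i j * c (.inl j) + c (.inr i)) := by
  have h1 := fun y => (theta_analytic hτ y).differentiableAt
  have h2 := fun y => (analyticAt_dv (theta_analytic hτ y) (ee b)).differentiableAt
  rw [funext (dv_thc c hτ b), xsheat_dv c τ a z (f := fun y =>
    2 * Real.pi * I * c (.inl b) * theta τ y + dv (ee b) (theta τ) y)
    (((h1 _).const_mul _).add (h2 _)), dv_apply (ee a) fun y => _ * theta τ y + _,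
    fderiv_fun_add ((h1 _).const_mul _) (h2 _), fderiv_const_mul (h1 _)]
  simp only [_root_.add_apply, _root_.smul_apply, smul_eq_mul, ← dv_apply]
  ring

/-- the heat equation for theta constants -/
theorem heat_th (c : LL g → ℂ) (hτ : τ ∈ PosIm g) {B : Mat g} (hB : ∀ i j, B i j = B j i) :
    fderiv ℂ (th c) τ B =
      (4 * Real.pi * I)⁻¹ * ∑ i, ∑ j, B i j * dv (ee i) (dv (ee j) (thc c τ)) 0 := by
  let M : Mat g →L[ℂ] EE g := LinearMap.toContinuousLinearMap
    { toFun := fun A i => ∑ j, A i j * c (.inl j)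
      map_add' := fun A A' => funext fun i => by simp [add_mul, Finset.sum_add_distrib]
      map_smul' := fun t A => funext fun i => by simp [Finset.mul_sum, mul_assoc] }
  let L : Mat g →L[ℂ] ℂ := LinearMap.toContinuousLinearMap
    { toFun := fun A => ∑ i, ∑ j, c (.inl i) * A i j * c (.inl j)
      map_add' := fun A A' => by simp [add_mul, mul_add, Finset.sum_add_distrib]
      map_smul' := fun t A => by simp [Finset.mul_sum, mul_assoc, mul_left_comm] }
  set w : EE g := fun i => (0 : EE g) i + ∑ j, τ i j * c (.inl j) + c (.inr i) with hw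
  have hT := (Theta_analytic hτ w).differentiableAt.hasFDerivAt
  have h1 : HasFDerivAt (fun ρ : Mat g => (ρ, (0 : EE g) + M ρ + fun i => c (.inr i)))
      ((ContinuousLinearMap.id ℂ _).prod M) τ :=
    (hasFDerivAt_id τ).prodMk ((M.hasFDerivAt.const_add _).add_const _)
  have h2 := ((((L.hasFDerivAt (x := τ)).add_const (2 * ∑ i, c (.inl i) * (0 : EE g) i)).add_const
    (∑ i, c (.inl i) * c (.inr i))).const_mul (Real.pi * I)).cexp.mul (hT.comp τ h1)
  have h3 : fderiv ℂ (Theta g) (τ, w) (0, M B) = ∑ i, M B i * dv (ee i) (theta τ) w := by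
    rw [← fderiv_eq_sum, HasFDerivAt.fderiv (f := theta τ)
      (hT.comp w (hasFDerivAt_prodMk_right τ w))]
    rfl
  have h4 : fderiv ℂ (Theta g) (τ, w) (B, 0) =
    (4 * Real.pi * I)⁻¹ * ∑ i, ∑ j, B i j * dv (ee i) (dv (ee j) (theta τ)) w := heat hτ w [] B
  have h5 : fderiv ℂ (Theta g) (τ, w) (B, M B) = _ :=
    (congrArg _ (by simp)).trans ((map_add _ (B, 0) (0, M B)).trans (congrArg₂ (· + ·) h4 h3))
  have h6 : ∑ i, M B i * dv (ee i) (theta τ) w =
      ∑ i, ∑ j, B i j * c (.inl j) * dv (ee i) (theta τ) w :=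
    Finset.sum_congr rfl fun i _ => Finset.sum_mul _ _ _
  have h7 : ∑ i, ∑ j, B i j * c (.inl i) * dv (ee j) (theta τ) w =
      ∑ i, ∑ j, B i j * c (.inl j) * dv (ee i) (theta τ) w := by
    rw [Finset.sum_comm]
    exact Finset.sum_congr rfl fun i _ => Finset.sum_congr rfl fun j _ => by rw [hB j i]
  have h8 : ∀ e : ℂ, ∑ i, ∑ j, B i j * (e * ((2 * Real.pi * I) ^ 2 * c (.inl i) * c (.inl j) *
      theta τ w + 2 * Real.pi * I * c (.inl i) * dv (ee j) (theta τ) w +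
      2 * Real.pi * I * c (.inl j) * dv (ee i) (theta τ) w + dv (ee i) (dv (ee j) (theta τ)) w)) =
      e * ((2 * Real.pi * I) ^ 2 * theta τ w * ∑ i, ∑ j, c (.inl i) * B i j * c (.inl j) +
        2 * Real.pi * I * ∑ i, ∑ j, B i j * c (.inl i) * dv (ee j) (theta τ) w +
        2 * Real.pi * I * ∑ i, ∑ j, B i j * c (.inl j) * dv (ee i) (theta τ) w +
        ∑ i, ∑ j, B i j * dv (ee i) (dv (ee j) (theta τ)) w) := fun e => by
    simp only [Finset.mul_sum, ← Finset.sum_add_distrib]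
    exact Finset.sum_congr rfl fun i _ => Finset.sum_congr rfl fun j _ => by ring
  rw [HasFDerivAt.fderiv (f := th c) h2]
  simp only [dv_dv_thc c hτ, ← hw, h8, h7]
  change exp _ * fderiv ℂ (Theta g) (τ, w) (B, M B) + theta τ w *
    (exp _ * (Real.pi * I * ∑ i, ∑ j, c (.inl i) * B i j * c (.inl j))) = _
  rw [h5, h6]
  have hπ : (Real.pi : ℂ) ≠ 0 := by exact_mod_cast Real.pi_ne_zero
  change exp (Real.pi * I * (∑ i, ∑ j, c (.inl i) * τ i j * c (.inl j) + _ + _)) * _ + _ *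
    (exp (Real.pi * I * (∑ i, ∑ j, c (.inl i) * τ i j * c (.inl j) + _ + _)) * _) = _
  generalize exp _ = e
  field_simp
  ring

end Pool.Agent.MP_f58063_ag

end
end
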