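import Pool.Agent.MP_f58063_ag.S.Defs
import Pool.Agent.Mg.Fcf0a82q.G446bd4

section

/-! Auxiliary notions for the sharp bound: derivations, the field of meromorphic germs, Nash
germs, theta functions with characteristics and the period frame. -/

open Complex Filter Topology Matrix

noncomputable section

namespace Pool.Agent.MP_f58063_ag

/-! ### Algebra -/

/-- index set of `2g × 2g` matrices -/
abbrev LL (g : ℕ) : Type := Fin g ⊕ Fin g

/-- `ℂ`-derivations of a field -/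
abbrev Der (K : Type) [Field K] [Algebra ℂ K] : Type := Derivation ℂ K K

/-- the common constants of a set of derivations -/
def Kc {K : Type} [Field K] [Algebra ℂ K] (T : Set (Der K)) : IntermediateField ℂ K where
  carrier := {f | ∀ D ∈ T, D f = 0}
  mul_mem' := fun {a b} ha hb D hD => by rw [D.leibniz, ha D hD, hb D hD]; simp
  add_mem' := fun {a b} ha hb D hD => by rw [map_add, ha D hD, hb D hD, add_zero]
  algebraMap_mem' := fun c D _ => D.map_algebraMap c
  inv_mem' := fun a ha D hD => by rw [D.leibniz_inv, ha D hD, smul_zero]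

lemma mem_Kc {K : Type} [Field K] [Algebra ℂ K] {T : Set (Der K)} {f : K} :
    f ∈ Kc T ↔ ∀ D ∈ T, D f = 0 := Iff.rfl

/-- the symplectic Lie algebra -/
def spK (g : ℕ) (R : Type) [CommRing R] : Submodule R (Matrix (LL g) (LL g) R) where
  carrier := {ξ | ξ * J (Fin g) R + J (Fin g) R * ξᵀ = 0}
  add_mem' := fun {a b} ha hb => by
    have h1 : a * J (Fin g) R + J (Fin g) R * aᵀ = 0 := ha
    have h2 : b * J (Fin g) R + J (Fin g) R * bᵀ = 0 := hb
    change (a + b) * J (Fin g) R + J (Fin g) R * (a + b)ᵀ = 0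
    rw [transpose_add, add_mul, mul_add, add_add_add_comm, h1, h2, add_zero]
  zero_mem' := by simp
  smul_mem' := fun c a ha => by
    have h1 : a * J (Fin g) R + J (Fin g) R * aᵀ = 0 := ha
    change (c • a) * J (Fin g) R + J (Fin g) R * (c • a)ᵀ = 0
    rw [transpose_smul, Matrix.smul_mul, Matrix.mul_smul, ← smul_add, h1, smul_zero]

lemma mem_spK {g : ℕ} {R : Type} [CommRing R] {ξ : Matrix (LL g) (LL g) R} :
    ξ ∈ spK g R ↔ ξ * J (Fin g) R + J (Fin g) R * ξᵀ = 0 := Iff.rfl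

/-- the square-zero element `v vᵀ J` of the symplectic Lie algebra -/
def sv {g : ℕ} {R : Type} [CommRing R] (v : LL g → R) : Matrix (LL g) (LL g) R :=
  vecMulVec v v * J (Fin g) R

/-- the period frame; `W` stands for the inverse of `V` -/
def Pm {g : ℕ} {R : Type} [CommRing R] (τ ψ V W : Matrix (Fin g) (Fin g) R) :
    Matrix (LL g) (LL g) R :=
  fromBlocks ((1 - τ * ψ) * Wᵀ) (τ * V) (-(ψ * Wᵀ)) V

/-- the value of a quadratic form on an integral vector -/
def qf {g : ℕ} {R : Type} [CommRing R] (τ : Matrix (Fin g) (Fin g) R) (u : Fin g → ℤ) : R :=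
  ∑ a, ∑ b, (u a : R) * τ a b * u b

/-- a flat connection on a principal bundle with simple structure group, read in the function
field `K` of the total space: base coordinates `y`, horizontal fields `D`, connection form `Ω` -/
structure Par (K : Type) [Field K] [Algebra ℂ K] (ι l : Type) [Fintype ι] [DecidableEq ι]
    [Fintype l] [DecidableEq l] : Type where
  y : ι → K
  D : ι → Der K
  Ω : Der K →ₗ[K] Matrix l l K
  s : Submodule K (Matrix l l K)
  Dy : ∀ i j, D i (y j) = if i = j then 1 else 0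
  ΩD : ∀ i, Ω (D i) = 0
  inj : ∀ w : Der K, (∀ i, w (y i) = 0) → Ω w = 0 → w = 0
  mem : ∀ w, Ω w ∈ s
  surj : ∀ ξ ∈ s, ∃ w : Der K, (∀ i, w (y i) = 0) ∧ Ω w = ξ
  mc : ∀ w w' : Der K, Ω ⁅w, w'⁆ = (Ω w').map w - (Ω w).map w' - (Ω w * Ω w' - Ω w' * Ω w)
  span : s ≤ Submodule.span K {ξ | ξ ∈ s ∧ ∀ a b, ξ a b ∈ Set.range (algebraMap ℂ K)}
  simple : ∀ U : Submodule K (Matrix l l K), U ≤ s →
    (∀ η ∈ s, ∀ ξ ∈ U, η * ξ - ξ * η ∈ U) → U = ⊥ ∨ U = s
  const : ∀ f, (∀ i, D i f = 0) → f ∈ Set.range (algebraMap ℂ K)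

namespace Par

variable {K : Type} [Field K] [Algebra ℂ K] {ι l : Type} [Fintype ι] [DecidableEq ι]
  [Fintype l] [DecidableEq l] (π : Par K ι l)

/-- vertical derivations -/
def Vert : Set (Der K) := {w | ∀ i, w (π.y i) = 0}

/-- vertical derivations with constant connection form -/
def VertC : Set (Der K) :=
  {w | (∀ i, w (π.y i) = 0) ∧ ∀ a b, π.Ω w a b ∈ Set.range (algebraMap ℂ K)}

/-- the horizontal part of a derivation -/
def hor (w : Der K) : Der K := ∑ i, w (π.y i) • π.D i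

/-- horizontal derivations that kill every element of `T` -/
def Hk (T : Set K) : Set (Der K) := {v | π.Ω v = 0 ∧ ∀ f ∈ T, v f = 0}

/-- the values of the connection form on the derivations that kill `C` -/
def hh (C : IntermediateField ℂ K) : Submodule K (Matrix l l K) where
  carrier := {ξ | ∃ w : Der K, (∀ f ∈ C, w f = 0) ∧ π.Ω w = ξ}
  add_mem' := by
    rintro _ _ ⟨w, hw, rfl⟩ ⟨w', hw', rfl⟩
    exact ⟨w + w', fun f hf => by simp [hw f hf, hw' f hf], map_add _ _ _⟩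
  zero_mem' := ⟨0, fun _ _ => rfl, map_zero _⟩
  smul_mem' := by
    rintro c _ ⟨w, hw, rfl⟩
    exact ⟨c • w, fun f hf => by simp [hw f hf], map_smul _ _ _⟩

end Par

/-! ### Germs -/

section germ

variable {X : Type} [NormedAddCommGroup X] [NormedSpace ℂ X]

/-- functions analytic at a point -/
def OA (p : X) : Subalgebra ℂ (X → ℂ) where
  carrier := {f | AnalyticAt ℂ f p}
  mul_mem' := fun ha hb => AnalyticAt.mul ha hb
  add_mem' := fun ha hb => AnalyticAt.add ha hb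
  algebraMap_mem' := fun _ => analyticAt_const

/-- functions with zero germ -/
def OI (p : X) : Ideal (OA p) where
  carrier := {f | ∀ᶠ y in 𝓝 p, f.1 y = 0}
  add_mem' := fun {a b} ha hb => (Filter.Eventually.and ha hb).mono fun y hy => by
    change a.1 y + b.1 y = 0
    rw [hy.1, hy.2, add_zero]
  zero_mem' := Filter.Eventually.of_forall fun _ => rfl
  smul_mem' := fun c a ha => Filter.Eventually.mono ha fun y hy => by
    change c.1 y * a.1 y = 0
    rw [hy, mul_zero]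

instance OI_prime (p : X) : (OI p).IsPrime where
  ne_top' := by
    rw [Ideal.ne_top_iff_one]
    intro h
    have h' : ∀ᶠ y in 𝓝 p, (1 : ℂ) = 0 := h
    exact one_ne_zero h'.self_of_nhds
  mem_or_mem' := fun {a b} h => germ_mul_zero (f := a.1) (f' := b.1) a.2 b.2 h

/-- the field of meromorphic germs at `p` -/
def MG (p : X) : Type := FractionRing (OA p ⧸ OI p)

instance (p : X) : Field (MG p) := inferInstanceAs (Field (FractionRing (OA p ⧸ OI p)))

instance (p : X) : Algebra ℂ (MG p) := inferInstanceAs (Algebra ℂ (FractionRing (OA p ⧸ OI p)))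

/-- the germ map -/
def gmH (p : X) : OA p →ₐ[ℂ] MG p :=
  (IsScalarTower.toAlgHom ℂ (OA p ⧸ OI p) (FractionRing (OA p ⧸ OI p))).comp
    (Ideal.Quotient.mkₐ ℂ (OI p))

open Classical in
/-- the germ of a function (zero if it is not analytic) -/
def gm (p : X) (f : X → ℂ) : MG p := if h : AnalyticAt ℂ f p then gmH p ⟨f, h⟩ else 0

variable {p : X} {f f' : X → ℂ}

lemma gm_def (h : AnalyticAt ℂ f p) : gm p f = gmH p ⟨f, h⟩ := dif_pos h

lemma gm_add (h : AnalyticAt ℂ f p) (h' : AnalyticAt ℂ f' p) :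
    gm p (fun x => f x + f' x) = gm p f + gm p f' := by
  rw [gm_def h, gm_def h', ← map_add]
  exact gm_def (h.add h')

lemma gm_sub (h : AnalyticAt ℂ f p) (h' : AnalyticAt ℂ f' p) :
    gm p (fun x => f x - f' x) = gm p f - gm p f' := by
  rw [gm_def h, gm_def h', ← map_sub]
  exact gm_def (h.sub h')

lemma gm_mul (h : AnalyticAt ℂ f p) (h' : AnalyticAt ℂ f' p) :
    gm p (fun x => f x * f' x) = gm p f * gm p f' := by
  rw [gm_def h, gm_def h', ← map_mul]
  exact gm_def (h.mul h')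

lemma gm_const (p : X) (c : ℂ) : gm p (fun _ => c) = algebraMap ℂ (MG p) c := by
  rw [← (gmH p).commutes]
  exact gm_def analyticAt_const

lemma gm_eq_zero (h : AnalyticAt ℂ f p) : gm p f = 0 ↔ ∀ᶠ x in 𝓝 p, f x = 0 := by
  rw [gm_def h]
  refine (map_eq_zero_iff _ (IsFractionRing.injective (OA p ⧸ OI p)
    (FractionRing (OA p ⧸ OI p)))).trans ?_
  exact Ideal.Quotient.eq_zero_iff_mem

lemma gm_eq_iff (h : AnalyticAt ℂ f p) (h' : AnalyticAt ℂ f' p) :
    gm p f = gm p f' ↔ f =ᶠ[𝓝 p] f' := by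
  rw [← sub_eq_zero, ← gm_sub h h', gm_eq_zero (f := fun x => f x - f' x) (h.sub h')]
  simp only [sub_eq_zero]
  rfl

lemma gm_sum {ι : Type} (s : Finset ι) {F : ι → X → ℂ} (h : ∀ i ∈ s, AnalyticAt ℂ (F i) p) :
    gm p (fun x => ∑ i ∈ s, F i x) = ∑ i ∈ s, gm p (F i) := by
  classical
  induction s using Finset.induction_on with
  | empty => simpa using gm_const p 0
  | insert a s ha ih =>
    have h1 := fun i hi => h i (Finset.mem_insert_of_mem hi)
    simp only [Finset.sum_insert ha]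
    rw [gm_add (h a (Finset.mem_insert_self a s)) (Finset.analyticAt_fun_sum s h1), ih h1]

lemma gm_aeval {ι : Type} {F : ι → X → ℂ} (h : ∀ i, AnalyticAt ℂ (F i) p)
    (P : MvPolynomial ι ℂ) :
    gm p (fun x => MvPolynomial.eval (fun i => F i x) P) =
      MvPolynomial.aeval (fun i => gm p (F i)) P ∧
    AnalyticAt ℂ (fun x => MvPolynomial.eval (fun i => F i x) P) p := by
  induction P using MvPolynomial.induction_on with
  | C c => exact ⟨by simpa using gm_const p c, by simpa using analyticAt_const⟩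
  | add P Q hP hQ =>
    simp only [map_add]
    exact ⟨by rw [gm_add hP.2 hQ.2, hP.1, hQ.1], hP.2.add hQ.2⟩
  | mul_X P i hP =>
    simp only [map_mul, MvPolynomial.eval_X, MvPolynomial.aeval_X]
    exact ⟨by rw [gm_mul hP.2 (h i), hP.1], hP.2.mul (h i)⟩

lemma exists_gm (m : MG p) : ∃ h t : X → ℂ, AnalyticAt ℂ h p ∧ AnalyticAt ℂ t p ∧ gm p t ≠ 0 ∧
    m = gm p h / gm p t := by
  obtain ⟨a, b, hb, rfl⟩ := IsFractionRing.div_surjective (A := OA p ⧸ OI p)
    (K := FractionRing (OA p ⧸ OI p)) m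
  obtain ⟨a, rfl⟩ := Ideal.Quotient.mk_surjective a
  obtain ⟨b, rfl⟩ := Ideal.Quotient.mk_surjective b
  refine ⟨a.1, b.1, a.2, b.2, ?_, by rw [gm_def a.2, gm_def b.2]; rfl⟩
  rw [gm_def b.2]
  exact (map_ne_zero_iff _ (IsFractionRing.injective (OA p ⧸ OI p)
    (FractionRing (OA p ⧸ OI p)))).2 (nonZeroDivisors.ne_zero hb)

open Classical in
/-- the directional derivative on meromorphic germs -/
def DG (p v : X) : Der (MG p) :=
  if h : ∃ w : Der (MG p), ∀ f, AnalyticAt ℂ f p → w (gm p f) = gm p (dv v f) then h.choose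
  else 0

/-- the filter of generic points near `p` -/
def GF (p : X) : Filter X where
  sets := {S | ∃ t : X → ℂ, AnalyticAt ℂ t p ∧ gm p t ≠ 0 ∧ ∀ᶠ x in 𝓝 p, t x ≠ 0 → x ∈ S}
  univ_sets := ⟨fun _ => 1, analyticAt_const, by rw [gm_const, map_one]; exact one_ne_zero,
    Eventually.of_forall fun _ _ => trivial⟩
  sets_of_superset := fun ⟨t, h1, h2, h3⟩ h => ⟨t, h1, h2, h3.mono fun _ hx ht => h (hx ht)⟩
  inter_sets := fun ⟨t, h1, h2, h3⟩ ⟨t', h1', h2', h3'⟩ =>
    ⟨fun x => t x * t' x, h1.mul h1', by rw [gm_mul h1 h1']; exact mul_ne_zero h2 h2',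
      (h3.and h3').mono fun _ hx ht =>
        ⟨hx.1 (left_ne_zero_of_mul ht), hx.2 (right_ne_zero_of_mul ht)⟩⟩

lemma eventually_GF {P : X → Prop} : (∀ᶠ x in GF p, P x) ↔
    ∃ t : X → ℂ, AnalyticAt ℂ t p ∧ gm p t ≠ 0 ∧ ∀ᶠ x in 𝓝 p, t x ≠ 0 → P x := Iff.rfl

/-- a function that represents a meromorphic germ at generic points -/
def rp (m : MG p) : X → ℂ := fun x =>
  (exists_gm m).choose x / (exists_gm m).choose_spec.choose x

/-- the algebra generated by the germs of linear forms -/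
def LA (p : X) : Subalgebra ℂ (MG p) :=
  Algebra.adjoin ℂ (Set.range fun l : X →L[ℂ] ℂ => gm p l)

/-- analytic germs that are algebraic over the polynomials -/
def NashAt (f : X → ℂ) (p : X) : Prop := AnalyticAt ℂ f p ∧ IsAlgebraic (LA p) (gm p f)

/-- entrywise directional derivative of a matrix valued function -/
def dM {m n : Type} (F : X → Matrix m n ℂ) (x v : X) : Matrix m n ℂ :=
  Matrix.of fun a b => fderiv ℂ (fun y => F y a b) x v

/-- entrywise germ of a matrix valued function -/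
def gM {m n : Type} (p : X) (F : X → Matrix m n ℂ) : Matrix m n (MG p) :=
  Matrix.of fun a b => gm p fun y => F y a b

end germ

/-! ### Theta functions with characteristics and the period frame -/

variable {g : ℕ}

/-- an integral symplectic matrix as a complex matrix -/
def cx (γ : Sp g) : Matrix (LL g) (LL g) ℂ := γ.1.map (Int.cast : ℤ → ℂ)

/-- the factor `C τ + D` -/
def jac (γ : Sp g) (τ : Mat g) : Matrix (Fin g) (Fin g) ℂ :=
  (cx γ).toBlocks₂₁ * Matrix.of τ + (cx γ).toBlocks₂₂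

lemma act_eq (γ : Sp g) (τ : Mat g) : Matrix.of (act γ τ) =
    ((cx γ).toBlocks₁₁ * Matrix.of τ + (cx γ).toBlocks₁₂) * (jac γ τ)⁻¹ := rfl

/-- the principal congruence subgroup of level `M` -/
def Gam (g M : ℕ) : Subgroup (Sp g) :=
  ((Int.castRingHom (ZMod M)).mapMatrix.toMonoidHom.comp
    (Matrix.symplecticGroup (Fin g) ℤ).subtype).ker

/-- theta function with characteristic `c = (a, b)`, in the symmetric normalisation -/
def thc (c : LL g → ℂ) (τ : Mat g) (z : EE g) : ℂ :=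
  exp (Real.pi * I * (∑ i, ∑ j, c (.inl i) * τ i j * c (.inl j) + 2 * ∑ i, c (.inl i) * z i +
    ∑ i, c (.inl i) * c (.inr i))) *
    theta τ fun i => z i + ∑ j, τ i j * c (.inl j) + c (.inr i)

/-- theta constant -/
def th (c : LL g → ℂ) (τ : Mat g) : ℂ := thc c τ 0

/-- characteristics of order dividing `N` -/
def IsCh (N : ℕ) (c : LL g → ℂ) : Prop := ∀ i, ∃ n : ℤ, c i * N = n

/-- half-integral characteristics -/
def hc (ε : LL g → Fin 2) : LL g → ℂ := fun i => ((ε i : ℕ) : ℂ) / 2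

/-- quotient of theta constants -/
def yq (c₀ c : LL g → ℂ) (τ : Mat g) : ℂ := th c τ / th c₀ τ

/-- the frame of the Hodge bundle given by gradients of theta functions -/
def Vf (c₀ : LL g → ℂ) (cs : Fin g → LL g → ℂ) (τ : Mat g) : Matrix (Fin g) (Fin g) ℂ :=
  Matrix.of fun a i => dv (ee a) (thc (cs i) τ) 0 / th c₀ τ

/-- the quasi-period matrix -/
def ψf (c₀ : LL g → ℂ) (τ : Mat g) : Matrix (Fin g) (Fin g) ℂ :=
  Matrix.of fun a b => -dv (ee a) (dv (ee b) (thc c₀ τ)) 0 / (2 * Real.pi * I * th c₀ τ)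

/-- the period frame -/
def Pf (c₀ : LL g → ℂ) (cs : Fin g → LL g → ℂ) (τ : Mat g) : Matrix (LL g) (LL g) ℂ :=
  Pm (Matrix.of τ) (ψf c₀ τ) (Vf c₀ cs τ) (Vf c₀ cs τ)⁻¹

/-- the open set where the frame is defined -/
def Om (c₀ : LL g → ℂ) (cs : Fin g → LL g → ℂ) : Set (Mat g) :=
  {τ | τ ∈ PosIm g ∧ th c₀ τ ≠ 0 ∧ (Vf c₀ cs τ).det ≠ 0}

/-- the invariant vector field attached to the symmetric matrix `E a b + E b a` -/
def Xi (c₀ : LL g → ℂ) (cs : Fin g → LL g → ℂ) (a b : Fin g) (τ : Mat g) : Mat g :=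
  Matrix.of.symm ((Vf c₀ cs τ)⁻¹ᵀ * (Matrix.single a b 1 + Matrix.single b a 1) * (Vf c₀ cs τ)⁻¹)

/-- functions that are quotients of holomorphic functions on `Ω` -/
def Mer (Ω : Set (Mat g)) (f : Mat g → ℂ) : Prop :=
  ∃ h t : Mat g → ℂ, AnalyticOnNhd ℂ h (PosIm g) ∧ AnalyticOnNhd ℂ t (PosIm g) ∧
    ∀ τ ∈ Ω, t τ ≠ 0 ∧ f τ = h τ / t τ

/-- modular functions regular on `Ω` -/
def Mod (Γ : Subgroup (Sp g)) (Ω : Set (Mat g)) (f : Mat g → ℂ) : Prop :=
  Mer Ω f ∧ ∀ γ ∈ Γ, ∀ τ ∈ Siegel g ∩ Ω, f (act γ τ) = f τ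

end Pool.Agent.MP_f58063_ag

end
end

section

open Complex Filter Topology Matrix Function

noncomputable section

namespace Pool.Agent.MP_f58063_ag

variable {g : ℕ} {τ : Mat g}

theorem cx_mem (γ : Sp g) : cx γ ∈ symplecticGroup (Fin g) ℂ :=
  SymplecticGroup.map_mem γ.2 (Int.castRingHom ℂ)

lemma xsact_rel (γ : Sp g) :
    (cx γ).toBlocks₁₁ᵀ * (cx γ).toBlocks₂₁ = (cx γ).toBlocks₂₁ᵀ * (cx γ).toBlocks₁₁ ∧
    (cx γ).toBlocks₁₂ᵀ * (cx γ).toBlocks₂₂ = (cx γ).toBlocks₂₂ᵀ * (cx γ).toBlocks₁₂ ∧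
    (cx γ).toBlocks₁₁ᵀ * (cx γ).toBlocks₂₂ - (cx γ).toBlocks₂₁ᵀ * (cx γ).toBlocks₁₂ = 1 := by
  rw [← SymplecticGroup.fromBlocks_mem_iff, fromBlocks_toBlocks]
  exact cx_mem γ

/-- the numerator of the action -/
def xsactNum (γ : Sp g) (τ : Mat g) : Matrix (Fin g) (Fin g) ℂ :=
  (cx γ).toBlocks₁₁ * Matrix.of τ + (cx γ).toBlocks₁₂

lemma xsact_eq (γ : Sp g) (τ : Mat g) :
    Matrix.of (act γ τ) = xsactNum γ τ * (jac γ τ)⁻¹ := rfl

lemma xsact_key (γ : Sp g) (τ τ' : Mat g) :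
    (jac γ τ')ᵀ * xsactNum γ τ - (xsactNum γ τ')ᵀ * jac γ τ = Matrix.of τ - (Matrix.of τ')ᵀ := by
  obtain ⟨h1, h2, h3⟩ := xsact_rel γ
  have h4 := congrArg transpose h3
  rw [transpose_sub, transpose_mul, transpose_mul, transpose_transpose, transpose_transpose,
    transpose_one] at h4
  unfold jac xsactNum
  generalize (cx γ).toBlocks₁₁ = A at *
  generalize (cx γ).toBlocks₁₂ = B at *
  generalize (cx γ).toBlocks₂₁ = C at *
  generalize (cx γ).toBlocks₂₂ = D at *
  generalize Matrix.of τ = T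
  generalize Matrix.of τ' = S
  simp only [transpose_add, transpose_mul]
  calc (Sᵀ * Cᵀ + Dᵀ) * (A * T + B) - (Sᵀ * Aᵀ + Bᵀ) * (C * T + D)
      = Sᵀ * (Cᵀ * A - Aᵀ * C) * T - Sᵀ * (Aᵀ * D - Cᵀ * B) + (Dᵀ * A - Bᵀ * C) * T +
        (Dᵀ * B - Bᵀ * D) := by noncomm_ring
    _ = T - Sᵀ := by
      rw [h1, h2, h3, h4, sub_self, sub_self]
      noncomm_ring

lemma xsact_symm (hτ : τ ∈ Siegel g) : (Matrix.of τ)ᵀ = Matrix.of τ := by
  ext i j
  exact hτ.1 j i

lemma xsact_star_jac (γ : Sp g) (τ : Mat g) :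
    (jac γ τ)ᴴ = (jac γ fun i j => (starRingEnd ℂ) (τ i j))ᵀ := by
  ext i j
  simp [jac, cx, conjTranspose_apply, Matrix.mul_apply, toBlocks₂₁, toBlocks₂₂]

lemma xsact_star_num (γ : Sp g) (τ : Mat g) :
    (xsactNum γ τ)ᴴ = (xsactNum γ fun i j => (starRingEnd ℂ) (τ i j))ᵀ := by
  ext i j
  simp [xsactNum, cx, conjTranspose_apply, Matrix.mul_apply, toBlocks₁₁, toBlocks₁₂]

lemma xsact_pos (γ : Sp g) (hτ : τ ∈ Siegel g) (x : Fin g → ℂ) (hx : x ≠ 0) :
    0 < (star (jac γ τ *ᵥ x) ⬝ᵥ (xsactNum γ τ *ᵥ x) -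
      star (xsactNum γ τ *ᵥ x) ⬝ᵥ (jac γ τ *ᵥ x)).im := by
  have h1 : star (jac γ τ *ᵥ x) ⬝ᵥ (xsactNum γ τ *ᵥ x) -
      star (xsactNum γ τ *ᵥ x) ⬝ᵥ (jac γ τ *ᵥ x) =
      star x ⬝ᵥ ((Matrix.of τ - (Matrix.of fun i j => (starRingEnd ℂ) (τ i j))ᵀ) *ᵥ x) := by
    rw [← xsact_key γ τ, ← xsact_star_jac, ← xsact_star_num, star_mulVec, star_mulVec,
      ← dotProduct_mulVec, ← dotProduct_mulVec, mulVec_mulVec, mulVec_mulVec, sub_mulVec,
      dotProduct_sub]
  have h2 : (star x ⬝ᵥ ((Matrix.of τ - (Matrix.of fun i j => (starRingEnd ℂ) (τ i j))ᵀ) *ᵥ x)).im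
      = 2 * ((∑ i, ∑ j, (x i).re * (τ i j).im * (x j).re) +
        ∑ i, ∑ j, (x i).im * (τ i j).im * (x j).im) := by
    simp only [dotProduct, mulVec, Finset.mul_sum, im_sum, ← Finset.sum_add_distrib]
    refine Finset.sum_congr rfl fun i _ => Finset.sum_congr rfl fun j _ => ?_
    simp only [Pi.star_apply, Matrix.sub_apply, of_apply, transpose_apply, hτ.1 j i]
    simp
    ring
  have h3 : ∀ v : Fin g → ℝ, 0 ≤ ∑ i, ∑ j, v i * (τ i j).im * v j := by
    intro v
    by_cases hv : v = 0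
    · simp [hv]
    · exact (hτ.2 v hv).le
  rw [h1, h2]
  by_cases hre : (fun i => (x i).re) = 0
  · have him : (fun i => (x i).im) ≠ 0 := by
      intro him
      apply hx
      ext i
      exact Complex.ext (congrFun hre i) (congrFun him i)
    have := hτ.2 _ him
    have := h3 fun i => (x i).re
    positivity
  · have := hτ.2 _ hre
    have := h3 fun i => (x i).im
    positivity

theorem jac_det (γ : Sp g) (hτ : τ ∈ Siegel g) : (jac γ τ).det ≠ 0 := by
  intro h
  obtain ⟨x, hx, h0⟩ := Matrix.exists_mulVec_eq_zero_iff.2 h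
  have := xsact_pos γ hτ x hx
  simp [h0] at this

lemma xsact_mul_jac (γ : Sp g) (h : (jac γ τ).det ≠ 0) :
    Matrix.of (act γ τ) * jac γ τ = xsactNum γ τ := by
  rw [xsact_eq, nonsing_inv_mul_cancel_right _ _ (isUnit_iff_ne_zero.2 h)]

lemma xsact_sub (γ : Sp g) (hτ : τ ∈ Siegel g) {σ : Mat g} (h : (jac γ σ).det ≠ 0) :
    Matrix.of (act γ σ) = (Matrix.of (act γ τ))ᵀ +
      (jac γ τ)⁻¹ᵀ * (Matrix.of σ - Matrix.of τ) * (jac γ σ)⁻¹ := by
  have hu : IsUnit (jac γ τ)ᵀ.det := by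
    rw [det_transpose]
    exact isUnit_iff_ne_zero.2 (jac_det γ hτ)
  have h1 := xsact_key γ σ τ
  rw [xsact_symm hτ] at h1
  rw [← h1, xsact_eq, xsact_eq, transpose_mul, transpose_nonsing_inv, Matrix.mul_sub,
    Matrix.sub_mul, nonsing_inv_mul_cancel_left _ _ hu, ← Matrix.mul_assoc,
    mul_nonsing_inv_cancel_right _ _ (isUnit_iff_ne_zero.2 h)]
  abel

lemma xsact_act_symm (γ : Sp g) (hτ : τ ∈ Siegel g) :
    (Matrix.of (act γ τ))ᵀ = Matrix.of (act γ τ) := by
  have := xsact_sub γ hτ (jac_det γ hτ)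
  rw [sub_self, Matrix.mul_zero, Matrix.zero_mul, add_zero] at this
  exact this.symm

theorem act_mem (γ : Sp g) (hτ : τ ∈ Siegel g) : act γ τ ∈ Siegel g := by
  refine ⟨fun i j => congrFun (congrFun (xsact_act_symm γ hτ) j) i, fun v hv => ?_⟩
  have hu : IsUnit (jac γ τ).det := isUnit_iff_ne_zero.2 (jac_det γ hτ)
  set w : Fin g → ℂ := fun i => (v i : ℂ) with hw
  have h1 : jac γ τ *ᵥ ((jac γ τ)⁻¹ *ᵥ w) = w := by
    rw [mulVec_mulVec, mul_nonsing_inv _ hu, one_mulVec]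
  have h2 : xsactNum γ τ *ᵥ ((jac γ τ)⁻¹ *ᵥ w) = Matrix.of (act γ τ) *ᵥ w := by
    rw [mulVec_mulVec, xsact_eq]
  have hx : (jac γ τ)⁻¹ *ᵥ w ≠ 0 := by
    intro h
    rw [h, mulVec_zero] at h1
    apply hv
    ext i
    have := congrFun h1 i
    simp only [hw, Pi.zero_apply] at this
    exact_mod_cast this.symm
  have h3 := xsact_pos γ hτ _ hx
  rw [h1, h2] at h3
  have h4 : (star w ⬝ᵥ (Matrix.of (act γ τ) *ᵥ w) - star (Matrix.of (act γ τ) *ᵥ w) ⬝ᵥ w).im =
      2 * ∑ i, ∑ j, v i * (act γ τ i j).im * v j := by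
    simp only [dotProduct, mulVec, Finset.mul_sum, Finset.sum_mul, im_sum, sub_im,
      ← Finset.sum_sub_distrib, Pi.star_apply, star_sum]
    refine Finset.sum_congr rfl fun i _ => Finset.sum_congr rfl fun j _ => ?_
    simp [hw]
    ring
  rw [h4] at h3
  linarith

theorem jac_inv (γ : Sp g) (hτ : τ ∈ Siegel g) :
    (jac γ τ)⁻¹ = (cx γ).toBlocks₁₁ᵀ - (cx γ).toBlocks₂₁ᵀ * Matrix.of (act γ τ) := by
  obtain ⟨h1, -, h3⟩ := xsact_rel γ
  refine inv_eq_left_inv ?_
  rw [Matrix.sub_mul, Matrix.mul_assoc, xsact_mul_jac γ (jac_det γ hτ)]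
  unfold jac xsactNum
  rw [Matrix.mul_add, Matrix.mul_add, ← Matrix.mul_assoc, ← Matrix.mul_assoc, h1, ← h3]
  abel

theorem jacC_symm (γ : Sp g) (hτ : τ ∈ Siegel g) :
    ((jac γ τ)⁻¹ * (cx γ).toBlocks₂₁)ᵀ = (jac γ τ)⁻¹ * (cx γ).toBlocks₂₁ := by
  obtain ⟨h1, -, -⟩ := xsact_rel γ
  rw [jac_inv γ hτ, Matrix.sub_mul, transpose_sub, transpose_mul, transpose_mul, transpose_mul,
    transpose_transpose, transpose_transpose, xsact_act_symm γ hτ, h1, Matrix.mul_assoc]

lemma xsact_an_det {X : Type} [NormedAddCommGroup X] [NormedSpace ℂ X] {x : X}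
    {F : X → Matrix (Fin g) (Fin g) ℂ} (h : ∀ a b, AnalyticAt ℂ (fun y => F y a b) x) :
    AnalyticAt ℂ (fun y => (F y).det) x := by
  simp only [det_apply']
  exact Finset.analyticAt_fun_sum _ fun σ _ =>
    analyticAt_const.mul (Finset.analyticAt_fun_prod _ fun i _ => h _ _)

lemma xsact_an_inv {X : Type} [NormedAddCommGroup X] [NormedSpace ℂ X] {x : X}
    {F : X → Matrix (Fin g) (Fin g) ℂ} (h : ∀ a b, AnalyticAt ℂ (fun y => F y a b) x)
    (hd : (F x).det ≠ 0) (a b : Fin g) : AnalyticAt ℂ (fun y => (F y)⁻¹ a b) x := by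
  have h0 : (fun y => (F y)⁻¹ a b) =
      fun y => ((F y).det)⁻¹ * ((F y).updateRow b (Pi.single a 1)).det := by
    funext y
    rw [Matrix.inv_def, Ring.inverse_eq_inv', Matrix.smul_apply, smul_eq_mul, adjugate_apply]
  rw [h0]
  refine ((xsact_an_det h).inv hd).mul (xsact_an_det fun i j => ?_)
  simp only [updateRow_apply]
  split_ifs
  · exact analyticAt_const
  · exact h i j

lemma xsact_an_entry (τ : Mat g) (a b : Fin g) : AnalyticAt ℂ (fun σ : Mat g => σ a b) τ :=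
  ((ContinuousLinearMap.proj b).comp
    (ContinuousLinearMap.proj (R := ℂ) (φ := fun _ : Fin g => Fin g → ℂ) a)).analyticAt τ

lemma xsact_an_aff (P Q : Matrix (Fin g) (Fin g) ℂ) (τ : Mat g) (a b : Fin g) :
    AnalyticAt ℂ (fun σ : Mat g => (P * Matrix.of σ + Q) a b) τ := by
  simp only [Matrix.add_apply, Matrix.mul_apply, of_apply]
  exact (Finset.analyticAt_fun_sum _ fun i _ =>
    analyticAt_const.mul (xsact_an_entry τ i b)).add analyticAt_const

lemma xsact_an_jinv (γ : Sp g) (hτ : τ ∈ Siegel g) (a b : Fin g) :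
    AnalyticAt ℂ (fun σ : Mat g => (jac γ σ)⁻¹ a b) τ :=
  xsact_an_inv (fun i j => xsact_an_aff _ _ τ i j) (jac_det γ hτ) a b

theorem act_analytic (γ : Sp g) (hτ : τ ∈ Siegel g) : AnalyticAt ℂ (act γ) τ := by
  refine analyticAt_pi_iff.2 fun a => analyticAt_pi_iff.2 fun b => ?_
  change AnalyticAt ℂ (fun σ => (xsactNum γ σ * (jac γ σ)⁻¹) a b) τ
  simp only [Matrix.mul_apply]
  exact Finset.analyticAt_fun_sum _ fun i _ =>
    (xsact_an_aff _ _ τ a i).mul (xsact_an_jinv γ hτ i b)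

theorem act_fderiv (γ : Sp g) (hτ : τ ∈ Siegel g) (B : Mat g) :
    fderiv ℂ (act γ) τ B = Matrix.of.symm ((jac γ τ)⁻¹ᵀ * Matrix.of B * (jac γ τ)⁻¹) := by
  have hdet : ∀ᶠ σ in 𝓝 τ, (jac γ σ).det ≠ 0 :=
    (xsact_an_det (fun i j => xsact_an_aff _ _ τ i j)).continuousAt.eventually_ne (jac_det γ hτ)
  have hd := (act_analytic γ hτ).differentiableAt
  ext a b
  have h1 : fderiv ℂ (act γ) τ B a b = fderiv ℂ (fun σ => act γ σ a b) τ B := by
    rw [fderiv_apply (differentiableAt_pi.1 hd a), fderiv_apply hd]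
    rfl
  have h2 : (fun σ => act γ σ a b) =ᶠ[𝓝 τ] fun σ => act γ τ b a +
      ∑ k, (∑ l, (jac γ τ)⁻¹ l a * (σ l k - τ l k)) * (jac γ σ)⁻¹ k b := by
    filter_upwards [hdet] with σ hσ
    have := congrFun (congrFun (xsact_sub γ hτ hσ) a) b
    simpa [Matrix.mul_apply] using this
  let pr : Fin g → Fin g → Mat g →L[ℂ] ℂ := fun l k => (ContinuousLinearMap.proj k).comp
    (ContinuousLinearMap.proj (R := ℂ) (φ := fun _ : Fin g => Fin g → ℂ) l)
  have h3 : ∀ k, HasFDerivAt (fun σ : Mat g => ∑ l, (jac γ τ)⁻¹ l a * (σ l k - τ l k))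
      (∑ l, (jac γ τ)⁻¹ l a • pr l k) τ := fun k =>
    HasFDerivAt.fun_sum fun l _ => (((pr l k).hasFDerivAt (x := τ)).sub_const (τ l k)).const_mul _
  have h4 := (HasFDerivAt.fun_sum (u := Finset.univ) fun k _ =>
    (h3 k).fun_mul (xsact_an_jinv γ hτ k b).differentiableAt.hasFDerivAt).const_add (act γ τ b a)
  rw [h1, h2.fderiv_eq, h4.fderiv]
  simp [Matrix.mul_apply, pr, mul_comm]

theorem Pm_act (γ : Sp g) (hτ : τ ∈ Siegel g) {ψ V : Matrix (Fin g) (Fin g) ℂ} (hV : V.det ≠ 0) :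
    Pm (Matrix.of (act γ τ)) (jac γ τ * ψ * (jac γ τ)ᵀ - (cx γ).toBlocks₂₁ * (jac γ τ)ᵀ)
      (jac γ τ * V) (jac γ τ * V)⁻¹ = cx γ * Pm (Matrix.of τ) ψ V V⁻¹ := by
  have hu : IsUnit (jac γ τ)ᵀ.det := by
    rw [det_transpose]
    exact isUnit_iff_ne_zero.2 (jac_det γ hτ)
  have h1 : (jac γ τ)⁻¹ᵀ = (cx γ).toBlocks₁₁ - Matrix.of (act γ τ) * (cx γ).toBlocks₂₁ := by
    rw [jac_inv γ hτ, transpose_sub, transpose_mul, transpose_transpose, transpose_transpose,
      xsact_act_symm γ hτ]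
  have h2 := xsact_mul_jac γ (jac_det γ hτ)
  have h3 : (jac γ τ * ψ * (jac γ τ)ᵀ - (cx γ).toBlocks₂₁ * (jac γ τ)ᵀ) * (jac γ τ * V)⁻¹ᵀ =
      (jac γ τ * ψ - (cx γ).toBlocks₂₁) * V⁻¹ᵀ := by
    rw [← Matrix.sub_mul, Matrix.mul_inv_rev, transpose_mul, transpose_nonsing_inv (jac γ τ),
      Matrix.mul_assoc, mul_nonsing_inv_cancel_left _ _ hu]
  conv_rhs => rw [← fromBlocks_toBlocks (cx γ)]
  unfold Pm
  rw [fromBlocks_multiply, fromBlocks_inj]
  refine ⟨?_, ?_, ?_, ?_⟩
  · rw [Matrix.sub_mul, Matrix.mul_assoc, h3, Matrix.one_mul, Matrix.mul_inv_rev, transpose_mul,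
      h1, ← Matrix.mul_assoc, Matrix.mul_sub, ← Matrix.mul_assoc, h2]
    unfold xsactNum
    noncomm_ring
  · rw [← Matrix.mul_assoc, h2]
    unfold xsactNum
    noncomm_ring
  · rw [h3]
    unfold jac
    noncomm_ring
  · unfold jac
    noncomm_ring

theorem mem_Gam {M : ℕ} {γ : Sp g} :
    γ ∈ Gam g M ↔ ∀ a b, (M : ℤ) ∣ γ.1 a b - (1 : Matrix (LL g) (LL g) ℤ) a b := by
  unfold Gam
  rw [MonoidHom.mem_ker, ← Matrix.ext_iff]
  refine forall_congr' fun a => forall_congr' fun b => ?_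
  rw [← ZMod.intCast_eq_intCast_iff_dvd_sub, eq_comm]
  have : (((1 : Matrix (LL g) (LL g) ℤ) a b : ℤ) : ZMod M) =
      (1 : Matrix (LL g) (LL g) (ZMod M)) a b := by
    simp only [Matrix.one_apply]
    split_ifs <;> simp
  rw [this]
  rfl

theorem Gam_finiteIndex (g : ℕ) {M : ℕ} (hM : M ≠ 0) : (Gam g M).FiniteIndex := by
  have : NeZero M := ⟨hM⟩
  unfold Gam
  rw [← MonoidHom.ker_toHomUnits]
  exact Subgroup.finiteIndex_ker _

end Pool.Agent.MP_f58063_ag

end
end

section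

open Complex Filter Topology Matrix Function

noncomputable section

namespace Pool.Agent.MP_f58063_ag

variable {g : ℕ}

section ring

variable {R : Type} [CommRing R]

theorem xsalgc_mem {S : Matrix (LL g) (LL g) R} (hS : Sᵀ = S) : S * J (Fin g) R ∈ spK g R := by
  rw [mem_spK, transpose_mul, hS, J_transpose, Matrix.mul_assoc, J_squared, Matrix.neg_mul,
    Matrix.mul_neg, Matrix.mul_neg, ← Matrix.mul_assoc, J_squared]
  simp

theorem xsalgc_J {ξ : Matrix (LL g) (LL g) R} (h : ξ ∈ spK g R) :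
    J (Fin g) R * ξᵀ = -(ξ * J (Fin g) R) := eq_neg_of_add_eq_zero_right h

theorem xsalgc_ex {ξ : Matrix (LL g) (LL g) R} (h : ξ ∈ spK g R) :
    ∃ S : Matrix (LL g) (LL g) R, Sᵀ = S ∧ ξ = S * J (Fin g) R := by
  refine ⟨-(ξ * J (Fin g) R), ?_, ?_⟩
  · rw [transpose_neg, transpose_mul, J_transpose, Matrix.neg_mul, xsalgc_J h, neg_neg]
  · rw [Matrix.neg_mul, Matrix.mul_assoc, J_squared]
    simp

theorem xsalgc_alt (v : LL g → R) : v ᵥ* J (Fin g) R ⬝ᵥ v = 0 := by
  simp [J, vecMul, dotProduct, Fintype.sum_sum_type, one_apply, mul_comm]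

/-- the sandwich formula -/
theorem xsalgc_sand (v : LL g → R) (ξ : Matrix (LL g) (LL g) R) :
    sv v * ξ * sv v = (v ᵥ* (J (Fin g) R * ξ) ⬝ᵥ v) • sv v := by
  rw [sv, Matrix.mul_assoc (vecMulVec v v), vecMulVec_mul v v (J (Fin g) R * ξ),
    ← Matrix.mul_assoc, vecMulVec_mul_vecMulVec, vecMulVec_smul, Matrix.smul_mul]

theorem xsalgc_sq (v : LL g → R) : sv v * sv v = 0 := by
  have := xsalgc_sand v 1
  rwa [Matrix.mul_one, Matrix.mul_one, xsalgc_alt, zero_smul] at this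

theorem xsalgc_add (u w : LL g → R) : sv (u + w) + sv (u - w) = (2 : R) • sv u + (2 : R) • sv w := by
  simp only [sv, ← Matrix.add_mul, ← Matrix.smul_mul]
  congr 1
  ext i j
  simp [vecMulVec_apply]
  ring

end ring

theorem sv_mem {R : Type} [CommRing R] (v : LL g → R) : sv v ∈ spK g R :=
  xsalgc_mem (transpose_vecMulVec v v)

theorem one_add_sv {R : Type} [CommRing R] (v : LL g → R) (t : R) :
    1 + t • sv v ∈ symplecticGroup (Fin g) R := by
  have h1 := xsalgc_J (sv_mem v)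
  have h2 : sv v * J (Fin g) R * (sv v)ᵀ = 0 := by
    rw [Matrix.mul_assoc, h1, Matrix.mul_neg, ← Matrix.mul_assoc, xsalgc_sq]
    simp
  rw [SymplecticGroup.mem_iff, transpose_add, transpose_one, transpose_smul]
  simp [Matrix.add_mul, Matrix.mul_add, h1, h2]

theorem xsalgc_le {K : Type} [Field K] [CharZero K] (U : Submodule K (Matrix (LL g) (LL g) K))
    (h1 : ∀ i, sv (Pi.single i 1) ∈ U) (h2 : ∀ i j, sv (Pi.single i 1 + Pi.single j 1) ∈ U) :
    spK g K ≤ U := by
  intro ξ hξ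
  obtain ⟨S, hS, rfl⟩ := xsalgc_ex hξ
  have e : ∀ i j : LL g, (single i j (1 : K) + single j i 1) * J (Fin g) K ∈ U := by
    intro i j
    have := U.sub_mem (U.sub_mem (h2 i j) (h1 i)) (h1 j)
    simp only [sv, ← Matrix.sub_mul] at this
    convert this using 2
    simp only [single_eq_single_vecMulVec_single]
    ext a b
    simp only [vecMulVec_apply, Matrix.add_apply, Matrix.sub_apply, Pi.add_apply]
    ring
  have e2 : S = ∑ i, ∑ j, (S i j / 2) • (single i j (1 : K) + single j i 1) := by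
    have a1 : ∑ i, ∑ j, (S i j / 2) • single i j (1 : K) = (1 / 2 : K) • S := by
      conv_rhs => rw [matrix_eq_sum_single S]
      simp only [Finset.smul_sum, smul_single, smul_eq_mul]
      refine Finset.sum_congr rfl fun i _ => Finset.sum_congr rfl fun j _ => ?_
      congr 1
      ring
    have a2 : ∑ i, ∑ j, (S i j / 2) • single j i (1 : K) = (1 / 2 : K) • S := by
      rw [Finset.sum_comm, ← a1]
      refine Finset.sum_congr rfl fun i _ => Finset.sum_congr rfl fun j _ => ?_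
      rw [← transpose_apply S i j, hS]
    simp only [smul_add, Finset.sum_add_distrib, a1, a2]
    rw [← add_smul]
    norm_num
  rw [e2, Finset.sum_mul]
  refine U.sum_mem fun i _ => ?_
  rw [Finset.sum_mul]
  refine U.sum_mem fun j _ => ?_
  rw [Matrix.smul_mul]
  exact U.smul_mem _ (e i j)

theorem spK_span {K : Type} [Field K] [Algebra ℂ K] :
    spK g K ≤ Submodule.span K
      (Set.range fun v : LL g → ℂ => (sv v).map (algebraMap ℂ K)) := by
  have : CharZero K := charZero_of_injective_algebraMap (algebraMap ℂ K).injective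
  have key : ∀ v : LL g → ℂ, (sv v).map (algebraMap ℂ K) = sv fun i => algebraMap ℂ K (v i) := by
    intro v
    rw [sv, sv, Matrix.map_mul, map_J]
    congr 1
    ext i j
    simp [vecMulVec_apply]
  refine xsalgc_le _ (fun i => Submodule.subset_span ⟨Pi.single i 1, ?_⟩) fun i j =>
    Submodule.subset_span ⟨Pi.single i 1 + Pi.single j 1, ?_⟩
  · simp only [key]
    congr 1
    funext a
    by_cases h : a = i <;> simp [h]
  · simp only [key]
    congr 1
    funext a
    simp only [Pi.add_apply, map_add, Pi.single_apply]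
    split_ifs <;> simp

theorem xsalgc_quad {K l : Type} [Field K] [CharZero K] [Fintype l] [DecidableEq l]
    {T : Matrix l l K} (hT : Tᵀ = T) (h : ∀ v, v ᵥ* T ⬝ᵥ v = 0) : T = 0 := by
  have d : ∀ i, T i i = 0 := fun i => by simpa using h (Pi.single i 1)
  ext i j
  have h1 := h (Pi.single i 1 + Pi.single j 1)
  have h2 : T j i = T i j := by rw [← transpose_apply T i j, hT]
  simp only [add_vecMul, dotProduct_add, single_one_vecMul, dotProduct_single, Pi.add_apply,
    row_apply, mul_one, d, h2] at h1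
  have h3 : (2 : K) * T i j = 0 := by linear_combination h1
  simpa using h3

/-- the symplectic Lie algebra is simple -/
theorem spK_simple {K : Type} [Field K] [CharZero K] (U : Submodule K (Matrix (LL g) (LL g) K))
    (hU : U ≤ spK g K) (h : ∀ η ∈ spK g K, ∀ ξ ∈ U, η * ξ - ξ * η ∈ U) :
    U = ⊥ ∨ U = spK g K := by
  have step : ∀ ξ ∈ U, ∀ v, v ᵥ* (J (Fin g) K * ξ) ⬝ᵥ v ≠ 0 → sv v ∈ U := by
    intro ξ hξ v hv
    have h1 := h _ (sv_mem v) _ (h _ (sv_mem v) _ hξ)
    have h2 : sv v * (sv v * ξ - ξ * sv v) - (sv v * ξ - ξ * sv v) * sv v =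
        (-2 * (v ᵥ* (J (Fin g) K * ξ) ⬝ᵥ v)) • sv v := by
      rw [mul_smul, ← xsalgc_sand, Matrix.mul_sub, Matrix.sub_mul, ← Matrix.mul_assoc, xsalgc_sq,
        Matrix.mul_assoc ξ, xsalgc_sq, ← Matrix.mul_assoc]
      simp [two_smul, sub_eq_add_neg]
    rw [h2] at h1
    exact (U.smul_mem_iff (mul_ne_zero (by norm_num) hv)).1 h1
  rw [or_iff_not_imp_left]
  intro hne
  obtain ⟨ξ, hξ, hξ0⟩ := U.exists_mem_ne_zero_of_ne_bot hne
  obtain ⟨v, hv⟩ : ∃ v, v ᵥ* (J (Fin g) K * ξ) ⬝ᵥ v ≠ 0 := by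
    by_contra! h0
    obtain ⟨S, hS, rfl⟩ := xsalgc_ex (hU hξ)
    have h1 := xsalgc_quad (by simp [hS, Matrix.mul_assoc]) h0
    have h2 : J (Fin g) K * (J (Fin g) K * (S * J (Fin g) K)) = 0 := by rw [h1, Matrix.mul_zero]
    rw [← Matrix.mul_assoc, J_squared] at h2
    exact hξ0 (by simpa using h2)
  have hv0 : v ≠ 0 := by
    rintro rfl
    simp at hv
  have hvU := step ξ hξ v hv
  have step2 : ∀ u, u ⬝ᵥ J (Fin g) K *ᵥ v ≠ 0 → sv u ∈ U := by
    intro u hu
    refine step _ hvU u ?_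
    have e : v ᵥ* J (Fin g) K = -(J (Fin g) K *ᵥ v) := by
      rw [← mulVec_transpose, J_transpose, neg_mulVec]
    rw [sv, ← Matrix.mul_assoc, mul_vecMulVec, vecMulVec_mul, vecMul_vecMulVec, smul_dotProduct, e,
      neg_dotProduct, dotProduct_comm _ u]
    simpa using hu
  obtain ⟨w, hw⟩ : ∃ w, w ⬝ᵥ J (Fin g) K *ᵥ v ≠ 0 := by
    by_contra! h0
    have h1 : J (Fin g) K *ᵥ v = 0 := funext fun i => by simpa using h0 (Pi.single i 1)
    have h2 : J (Fin g) K *ᵥ J (Fin g) K *ᵥ v = 0 := by rw [h1, mulVec_zero]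
    rw [mulVec_mulVec, J_squared] at h2
    exact hv0 (by simpa [neg_mulVec] using h2)
  have all : ∀ u, sv u ∈ U := by
    intro u
    by_cases hu : u ⬝ᵥ J (Fin g) K *ᵥ v = 0
    · have h1 := U.add_mem (step2 (u + w) (by simpa [hu] using hw))
        (step2 (u - w) (by simpa [hu] using hw))
      rw [xsalgc_add] at h1
      have h2 := U.sub_mem h1 (U.smul_mem 2 (step2 w hw))
      rw [add_sub_cancel_right] at h2
      exact (U.smul_mem_iff two_ne_zero).1 h2
    · exact step2 u hu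
  exact le_antisymm hU (xsalgc_le U (fun _ => all _) fun _ _ => all _)

theorem xsalgc_fac {R : Type} [CommRing R] (τ ψ V W : Matrix (Fin g) (Fin g) R) :
    Pm τ ψ V W = fromBlocks 1 τ 0 1 * fromBlocks 1 0 (-ψ) 1 * fromBlocks Wᵀ 0 0 V := by
  simp [Pm, fromBlocks_multiply, sub_eq_add_neg]

theorem Pm_mem {R : Type} [CommRing R] {τ ψ V W : Matrix (Fin g) (Fin g) R} (hτ : τᵀ = τ)
    (hψ : ψᵀ = ψ) (hV : V * W = 1) : Pm τ ψ V W ∈ symplecticGroup (Fin g) R := by
  have hW : Wᵀ * Vᵀ = 1 := by rw [← transpose_mul, hV, transpose_one]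
  rw [xsalgc_fac]
  refine mul_mem (mul_mem ?_ ?_) ?_ <;>
    simp [SymplecticGroup.mem_iff, J, fromBlocks_multiply, fromBlocks_transpose, hτ, hψ, hV, hW]

theorem Pm_det {R : Type} [CommRing R] (τ ψ : Matrix (Fin g) (Fin g) R)
    {V W : Matrix (Fin g) (Fin g) R} (hV : V * W = 1) : (Pm τ ψ V W).det = 1 := by
  rw [xsalgc_fac, det_mul, det_mul, det_fromBlocks_zero₂₁, det_fromBlocks_zero₁₂,
    det_fromBlocks_zero₂₁, det_transpose, mul_comm W.det, ← det_mul, ← det_mul, ← det_mul, hV]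
  simp

end Pool.Agent.MP_f58063_ag

end
end

section

open Complex Filter Topology Matrix Function

noncomputable section

namespace Pool.Agent.MP_f58063_ag

section

variable {K : Type} [Field K] [Algebra ℂ K] {l : Type} [Fintype l]

/-- the entrywise action of derivations on a matrix -/
def xsalgdL (M : Matrix l l K) : Der K →ₗ[K] Matrix l l K where
  toFun w := M.map w
  map_add' _ _ := rfl
  map_smul' _ _ := rfl

lemma xsalgd_mul (w : Der K) (M N : Matrix l l K) :
    (M * N).map w = M.map w * N + M * N.map w := by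
  ext a b
  simp only [map_apply, mul_apply, Matrix.add_apply, map_sum, Derivation.leibniz, smul_eq_mul,
    ← Finset.sum_add_distrib]
  exact Finset.sum_congr rfl fun c _ => by ring

omit [Fintype l] in
lemma xsalgd_add (w : Der K) (M N : Matrix l l K) : (M + N).map w = M.map w + N.map w := by
  ext a b
  simp only [map_apply, Matrix.add_apply, map_add]

omit [Fintype l] in
lemma xsalgd_lie (w w' : Der K) (M : Matrix l l K) :
    M.map (⁅w, w'⁆ : Der K) = (M.map w').map w - (M.map w).map w' := rfl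

omit [Fintype l] in
lemma xsalgd_sum {ι : Type} [Fintype ι] (w : Der K) (c : ι → K) (A : ι → Matrix l l K) :
    (∑ i, c i • A i).map w = ∑ i, w (c i) • A i + ∑ i, c i • (A i).map w := by
  ext a b
  simp only [map_apply, Matrix.sum_apply, Matrix.add_apply, Matrix.smul_apply, map_sum,
    Derivation.leibniz, smul_eq_mul, ← Finset.sum_add_distrib]
  exact Finset.sum_congr rfl fun c _ => by ring

/-- evaluation of derivations -/
def xsalgdE (f : K) : Der K →ₗ[K] K where
  toFun w := w f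
  map_add' _ _ := rfl
  map_smul' _ _ := rfl

lemma xsalgd_mem {g : ℕ} {P Q : Matrix (LL g) (LL g) K} (hP : P ∈ symplecticGroup (Fin g) K)
    (hQ : Q * P = 1) (w : Der K) : P.map w * Q ∈ spK g K := by
  have h := SymplecticGroup.mem_iff.1 hP
  have hJ : (J (Fin g) K).map w = 0 := by
    ext a b
    rw [← map_J (Fin g) (algebraMap ℂ K), map_apply, map_apply, w.map_algebraMap,
      Matrix.zero_apply]
  have h1 := congrArg (fun M : Matrix (LL g) (LL g) K => M.map w) h
  simp only [xsalgd_mul, hJ, mul_zero, add_zero] at h1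
  have h2 : Q * J (Fin g) K = J (Fin g) K * Pᵀ := by
    conv_lhs => rw [← h, ← mul_assoc, ← mul_assoc, hQ, one_mul]
  have h3 : J (Fin g) K * Qᵀ = P * J (Fin g) K := by
    conv_lhs => rw [← h, mul_assoc, ← transpose_mul, hQ, transpose_one, mul_one]
  rw [mem_spK, transpose_mul, mul_assoc, h2, ← mul_assoc, ← mul_assoc, h3]
  exact h1

end

/-- the connection form attached to a symplectic frame -/
theorem exists_Par {K : Type} [Field K] [Algebra ℂ K] {ι : Type} [Fintype ι] [DecidableEq ι]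
    {g : ℕ} (y : ι → K) (D : ι → Der K) (P : Matrix (LL g) (LL g) K)
    (hP : P ∈ symplecticGroup (Fin g) K)
    (hDy : ∀ i j, D i (y j) = if i = j then 1 else 0) (hDD : ∀ i j, ⁅D i, D j⁆ = 0)
    (hconst : ∀ f, (∀ i, D i f = 0) → f ∈ Set.range (algebraMap ℂ K))
    (hgen : ∀ w : Der K, (∀ i, w (y i) = 0) → P.map w = 0 → w = 0)
    (hA : ∀ i, ∃ A : Matrix (LL g) (LL g) K, P.map (D i) = P * A ∧
      ∀ w : Der K, (∀ j, w (y j) = 0) → A.map w = 0)
    (hX : ∀ v : LL g → ℂ, ∃ w : Der K, (∀ j, w (y j) = 0) ∧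
      P.map w = (sv v).map (algebraMap ℂ K) * P) :
    ∃ π : Par K ι (LL g), π.y = y ∧ π.D = D ∧ π.s = spK g K ∧
      ∀ w : Der K, (∀ j, w (y j) = 0) → P.map w = π.Ω w * P := by
  have : CharZero K := charZero_of_injective_algebraMap (algebraMap ℂ K).injective
  choose A hA hA' using hA
  obtain ⟨Q, hQ, hQ'⟩ : ∃ Q : Matrix (LL g) (LL g) K, Q * P = 1 ∧ P * Q = 1 :=
    ⟨P⁻¹, nonsing_inv_mul _ (SymplecticGroup.symplectic_det hP),
      mul_nonsing_inv _ (SymplecticGroup.symplectic_det hP)⟩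
  obtain ⟨V, hV⟩ : ∃ V : Der K →ₗ[K] Der K, ∀ w, V w = w - ∑ i, w (y i) • D i :=
    ⟨LinearMap.id - ∑ i, (xsalgdE (y i)).smulRight (D i), fun w => by
      simp only [LinearMap.sub_apply, LinearMap.id_apply, LinearMap.sum_apply,
        LinearMap.smulRight_apply]
      rfl⟩
  have hVL : ∀ (M : Matrix (LL g) (LL g) K) (w : Der K),
      M.map (V w) = M.map w - ∑ i, w (y i) • M.map (D i) := fun M w => by
    change xsalgdL M (V w) = xsalgdL M w - ∑ i, w (y i) • xsalgdL M (D i)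
    simp only [hV, map_sub, map_sum, map_smul]
  have hVy : ∀ w j, V w (y j) = 0 := fun w j => by
    change xsalgdE (y j) (V w) = 0
    simp only [hV, map_sub, map_sum, map_smul]
    change w (y j) - ∑ i, w (y i) • D i (y j) = 0
    simp [hDy]
  have hV0 : ∀ w : Der K, (∀ j, w (y j) = 0) → V w = w := fun w hw => by simp [hV, hw]
  obtain ⟨Ω, hΩ⟩ : ∃ Ω : Der K →ₗ[K] Matrix (LL g) (LL g) K, ∀ w, Ω w = P.map (V w) * Q :=
    ⟨LinearMap.mulRight K Q ∘ₗ xsalgdL P ∘ₗ V, fun w => rfl⟩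
  have hΩ0 : ∀ w : Der K, (∀ j, w (y j) = 0) → P.map w = Ω w * P := fun w hw => by
    rw [hΩ, hV0 w hw, mul_assoc, hQ, mul_one]
  obtain ⟨B, hB⟩ : ∃ B : Der K → Matrix (LL g) (LL g) K, ∀ w, B w = ∑ i, w (y i) • A i :=
    ⟨_, fun _ => rfl⟩
  have hPw : ∀ w : Der K, P.map w = Ω w * P + P * B w := fun w => by
    rw [hΩ, mul_assoc, hQ, mul_one, hVL, hB, Finset.mul_sum]
    simp only [hA, Matrix.mul_smul, sub_add_cancel]
  have hAw : ∀ (w : Der K) j, (A j).map w = ∑ i, w (y i) • (A j).map (D i) := fun w j => by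
    rw [← sub_eq_zero, ← hVL]
    exact hA' j _ (hVy w)
  have hfl : ∀ i j, (A j).map (D i) - (A i).map (D j) = A j * A i - A i * A j := fun i j => by
    have h1 := xsalgd_lie (D i) (D j) P
    rw [hDD, hA, hA, xsalgd_mul, xsalgd_mul, hA, hA] at h1
    have h2 : P * ((A j).map (D i) - (A i).map (D j) - (A j * A i - A i * A j)) = 0 := by
      rw [show (0 : Matrix (LL g) (LL g) K) = P.map (0 : Der K) from rfl, h1]
      noncomm_ring
    rw [← sub_eq_zero, ← one_mul (_ - _), ← hQ, mul_assoc, h2, mul_zero]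
  have hBl : ∀ w w' : Der K, B ⁅w, w'⁆ =
      B w * B w' - B w' * B w + (B w').map w - (B w).map w' := fun w w' => by
    have e1 : ∑ j, w' (y j) • (A j).map w - ∑ i, w (y i) • (A i).map w' =
        B w' * B w - B w * B w' := by
      simp only [hAw w, hAw w', hB, Finset.sum_mul_sum, Finset.smul_sum]
      rw [Finset.sum_comm (f := fun i j => w (y i) • w' (y j) • (A i).map (D j)),
        Finset.sum_comm (f := fun i j => w (y i) • A i * w' (y j) • A j),
        ← Finset.sum_sub_distrib, ← Finset.sum_sub_distrib]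
      refine Finset.sum_congr rfl fun j _ => ?_
      rw [← Finset.sum_sub_distrib, ← Finset.sum_sub_distrib]
      refine Finset.sum_congr rfl fun i _ => ?_
      rw [smul_comm (w (y i)), ← smul_sub, ← smul_sub, hfl]
      simp only [Matrix.smul_mul, Matrix.mul_smul, smul_sub, smul_smul, mul_comm]
    have e2 : B ⁅w, w'⁆ = ∑ i, w (w' (y i)) • A i - ∑ i, w' (w (y i)) • A i := by
      simp only [hB, Derivation.commutator_apply, sub_smul, Finset.sum_sub_distrib]
    have e3 := xsalgd_sum w (fun i => w' (y i)) A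
    have e4 := xsalgd_sum w' (fun i => w (y i)) A
    rw [← hB] at e3 e4
    rw [e2, e3, e4]
    rw [sub_eq_iff_eq_add.1 e1]
    abel
  have hmem : ∀ w, Ω w ∈ spK g K := fun w => hΩ w ▸ xsalgd_mem hP hQ _
  have hXΩ : ∀ v : LL g → ℂ, ∃ w : Der K, (∀ j, w (y j) = 0) ∧
      Ω w = (sv v).map (algebraMap ℂ K) := fun v => by
    obtain ⟨w, h1, h2⟩ := hX v
    exact ⟨w, h1, by rw [hΩ, hV0 w h1, h2, mul_assoc, hQ', mul_one]⟩
  refine ⟨⟨y, D, Ω, spK g K, hDy, fun j => ?_, fun w hw h => hgen w hw ?_, hmem,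
    fun ξ hξ => ?_, fun w w' => ?_, spK_span.trans (Submodule.span_mono ?_), spK_simple, hconst⟩,
    rfl, rfl, rfl, hΩ0⟩
  · rw [hΩ, hVL]
    simp [hDy]
  · rw [hΩ0 w hw, h, zero_mul]
  · refine Submodule.span_induction (p := fun ξ _ => ∃ w : Der K, (∀ i, w (y i) = 0) ∧ Ω w = ξ)
      ?_ ⟨0, fun _ => rfl, map_zero _⟩ ?_ ?_ (spK_span hξ)
    · rintro _ ⟨v, rfl⟩
      exact hXΩ v
    · rintro _ _ - - ⟨w, hw, rfl⟩ ⟨w', hw', rfl⟩
      exact ⟨w + w', fun i => by simp [hw, hw'], map_add _ _ _⟩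
    · rintro c _ - ⟨w, hw, rfl⟩
      exact ⟨c • w, fun i => by simp [hw], map_smul _ _ _⟩
  · have h1 := xsalgd_lie w w' P
    rw [hPw ⁅w, w'⁆, hBl, hPw w, hPw w', xsalgd_add, xsalgd_add, xsalgd_mul, xsalgd_mul,
      xsalgd_mul, xsalgd_mul, hPw w, hPw w'] at h1
    have h2 : (Ω ⁅w, w'⁆ - ((Ω w').map w - (Ω w).map w' - (Ω w * Ω w' - Ω w' * Ω w))) * P = 0 := by
      rw [sub_mul, eq_sub_of_add_eq h1]
      noncomm_ring
    rw [← sub_eq_zero, ← mul_one (_ - _), ← hQ', ← mul_assoc, h2, zero_mul]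
  · rintro _ ⟨v, rfl⟩
    obtain ⟨w, -, hw⟩ := hXΩ v
    exact ⟨(congrArg (· ∈ spK g K) hw).mp (hmem w), fun a b => ⟨_, rfl⟩⟩

end Pool.Agent.MP_f58063_ag

end
end

section

open Complex Filter Topology Matrix Function

noncomputable section

namespace Pool.Agent.MP_f58063_ag

variable {K : Type} [Field K] {g : ℕ}

lemma xsalgh_rows {m n : Type} [Fintype m] [Fintype n] (A : Matrix m n K) {s : ℕ}
    (h : s ≤ A.rank) : ∃ r : Fin s → m, LinearIndependent K (A.submatrix r id).row := by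
  obtain ⟨κ, a, ha, hs, hl⟩ := exists_linearIndependent' K A.row
  have : Finite κ := Finite.of_injective a ha
  have := Fintype.ofFinite κ
  rw [rank_eq_finrank_span_row, ← hs, finrank_span_eq_card hl] at h
  obtain ⟨e⟩ : Nonempty (Fin s ↪ κ) :=
    Function.Embedding.nonempty_of_card_le (by rwa [Fintype.card_fin])
  exact ⟨a ∘ e, hl.comp e e.injective⟩

theorem rank_le_iff_minors (A : Matrix (Fin g) (Fin g) K) (s : ℕ) :
    A.rank ≤ s ↔ ∀ r c : Fin (s + 1) → Fin g, (A.submatrix r c).det = 0 := by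
  constructor
  · intro h r c
    by_contra hd
    have h1 := rank_of_isUnit _ ((isUnit_iff_isUnit_det _).2 (isUnit_iff_ne_zero.2 hd))
    have h2 := rank_submatrix_le A r c
    rw [Fintype.card_fin] at h1
    omega
  · intro h
    by_contra hs
    obtain ⟨r, hr⟩ := xsalgh_rows A (s := s + 1) (by omega)
    have h1 := hr.rank_matrix
    rw [Fintype.card_fin, ← rank_transpose] at h1
    obtain ⟨c, hc⟩ := xsalgh_rows _ h1.ge
    have h2 : IsUnit (A.submatrix r c)ᵀ := linearIndependent_rows_iff_isUnit.1 hc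
    rw [isUnit_iff_isUnit_det, det_transpose, h r c] at h2
    exact not_isUnit_zero h2

/-- two orthogonal subspaces of a space with a nondegenerate pairing -/
lemma xsalgh_pair {V : Type} [AddCommGroup V] [Module K V] [FiniteDimensional K V]
    (B : V →ₗ[K] V →ₗ[K] K) (U S W : Submodule K V) (hS : S ≤ U) (hW : W ≤ U)
    (hnd : ∀ a ∈ U, (∀ b ∈ U, B a b = 0) → a = 0) (h : ∀ a ∈ S, ∀ b ∈ W, B a b = 0) :
    Module.finrank K S + Module.finrank K W ≤ Module.finrank K U := by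
  have h1 := Subspace.finrank_add_finrank_dualAnnihilator_eq (W.comap U.subtype)
  have h2 : Module.finrank K (W.comap U.subtype) = Module.finrank K W :=
    (Submodule.comapSubtypeEquivOfLe hW).finrank_eq
  let f : S →ₗ[K] (W.comap U.subtype).dualAnnihilator :=
    (B.domRestrict₁₂ S U).codRestrict _ fun a => (Submodule.mem_dualAnnihilator _).2
      fun w hw => h a a.2 w hw
  have hf : Function.Injective f := (injective_iff_map_eq_zero f).2 fun a ha =>
    Subtype.ext (hnd a (hS a.2) fun b hb =>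
      LinearMap.congr_fun (congrArg Subtype.val ha) ⟨b, hb⟩)
  have h3 := LinearMap.finrank_le_finrank_of_injective hf
  omega

variable (K) in
/-- the symmetric matrix with given entries -/
def xsalghF (n : ℕ) : (Sym2 (Fin n) → K) →ₗ[K] Matrix (Fin n) (Fin n) K where
  toFun f := of fun i j => f s(i, j)
  map_add' _ _ := rfl
  map_smul' _ _ := rfl

lemma xsalgh_symm {n : ℕ} (f : Sym2 (Fin n) → K) : (xsalghF K n f)ᵀ = xsalghF K n f := by
  ext i j
  exact congrArg f Sym2.eq_swap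

lemma xsalgh_mem {n : ℕ} {A : Matrix (Fin n) (Fin n) K} (h : Aᵀ = A) :
    A ∈ LinearMap.range (xsalghF K n) :=
  ⟨Sym2.lift ⟨A, fun i j => (congrFun (congrFun h i) j).symm⟩, rfl⟩

lemma xsalgh_inj {n : ℕ} {f : Sym2 (Fin n) → K} (h : xsalghF K n f = 0) : f = 0 := by
  funext p
  induction p using Sym2.ind with
  | h i j => exact congrFun (congrFun h i) j

lemma xsalgh_dim (n : ℕ) : Module.finrank K (Sym2 (Fin n) → K) = n * (n + 1) / 2 := by
  rw [Module.finrank_fintype_fun_eq_card, Sym2.card, Fintype.card_fin, Nat.choose_two_right,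
    Nat.add_sub_cancel, mul_comm]

lemma xsalgh_perp [CharZero K] (S W : Submodule K (Matrix (Fin g) (Fin g) K))
    (hS : ∀ A ∈ S, Aᵀ = A) (hW : ∀ A ∈ W, Aᵀ = A) (h : ∀ A ∈ S, ∀ R ∈ W, trace (A * R) = 0) :
    Module.finrank K S + Module.finrank K W ≤ g * (g + 1) / 2 := by
  let B : Matrix (Fin g) (Fin g) K →ₗ[K] Matrix (Fin g) (Fin g) K →ₗ[K] K :=
    (LinearMap.mul K _).compr₂ (traceLinearMap (Fin g) K K)
  have h1 := xsalgh_pair B (LinearMap.range (xsalghF K g)) S W (fun A hA => xsalgh_mem (hS A hA))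
    (fun A hA => xsalgh_mem (hW A hA))
    (by
      rintro _ ⟨f, rfl⟩ hf
      ext i j
      have h2 : trace (xsalghF K g f * (single i j 1 + single j i 1)) = 0 :=
        hf _ (xsalgh_mem (by rw [transpose_add, transpose_single, transpose_single, add_comm]))
      have h3 : xsalghF K g f j i = xsalghF K g f i j := congrArg f Sym2.eq_swap
      rw [mul_add, trace_add, trace_mul_single, trace_mul_single, h3] at h2
      simpa using h2)
    h
  exact h1.trans ((LinearMap.finrank_range_le _).trans_eq (xsalgh_dim g))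

lemma xsalgh_ker {k : ℕ} (Q : Matrix (Fin g) (Fin g) K) (hrk : Q.rank + k ≤ g) :
    ∃ (T : Matrix (Fin g) (Fin k) K) (L : Matrix (Fin k) (Fin g) K), L * T = 1 ∧ Q * T = 0 := by
  have h1 := LinearMap.finrank_range_add_finrank_ker Q.mulVecLin
  rw [Module.finrank_fin_fun] at h1
  have h2 : Module.finrank K (Fin k → K) ≤ Module.finrank K (LinearMap.ker Q.mulVecLin) := by
    rw [Module.finrank_fin_fun]
    unfold Matrix.rank at hrk
    omega
  obtain ⟨f, hf⟩ := finrank_le_iff_exists_linearMap.1 h2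
  obtain ⟨l, hl⟩ := ((LinearMap.ker Q.mulVecLin).subtype ∘ₗ f).exists_leftInverse_of_injective
    (LinearMap.ker_eq_bot.2 (Subtype.val_injective.comp hf))
  refine ⟨LinearMap.toMatrix' ((LinearMap.ker Q.mulVecLin).subtype ∘ₗ f), LinearMap.toMatrix' l,
    by rw [← LinearMap.toMatrix'_comp, hl, LinearMap.toMatrix'_id], ?_⟩
  ext i j
  exact congrFun (f (Pi.single j 1)).2 i

/-- an isotropic family has a kernel once it is too large -/
theorem iso_kernel [CharZero K] {ι : Type} [Fintype ι] {k : ℕ} (Q : Matrix (Fin g) (Fin g) K)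
    (α β : ι → Matrix (Fin g) (Fin g) K) (hQ : Qᵀ = Q) (hα : ∀ i, (α i)ᵀ = α i)
    (hβ : ∀ i, (β i)ᵀ = β i) (h1 : ∀ i j, trace (α i * β j) = trace (α j * β i))
    (h2 : ∀ i t t', Q *ᵥ t = 0 → Q *ᵥ t' = 0 → t' ⬝ᵥ α i *ᵥ t = 0) (hrk : Q.rank + k ≤ g)
    (hc : g * (g + 1) / 2 < Fintype.card ι + k * (k + 1) / 2) :
    ∃ a : ι → K, a ≠ 0 ∧ ∑ i, a i • α i = 0 ∧ Q * ∑ i, a i • β i = 0 := by
  have _ := hQ
  by_contra hn
  obtain ⟨T, L, hL, hT⟩ := xsalgh_ker Q hrk
  let A := Fintype.linearCombination K α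
  let B := Fintype.linearCombination K β
  let C : (Sym2 (Fin k) → K) →ₗ[K] Matrix (Fin g) (Fin g) K :=
    { toFun := fun m => T * xsalghF K k m * Tᵀ
      map_add' := fun _ _ => by rw [map_add, Matrix.mul_add, Matrix.add_mul]
      map_smul' := fun _ _ => by rw [map_smul, Matrix.mul_smul, Matrix.smul_mul]; rfl }
  have hA : ∀ a, A a = ∑ i, a i • α i := fun a => rfl
  have hB : ∀ a, B a = ∑ i, a i • β i := fun a => rfl
  have hC : ∀ m, C m = T * xsalghF K k m * Tᵀ := fun m => rfl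
  have hTα : ∀ i, Tᵀ * α i * T = 0 := fun i => by
    ext a b
    have h0 : ∀ c, Q *ᵥ T.col c = 0 := fun c => funext fun r => congrFun (congrFun hT r) c
    rw [Matrix.mul_assoc]
    exact h2 i _ _ (h0 b) (h0 a)
  have hAC : ∀ a m, trace (A a * C m) = 0 := fun a m => by
    rw [hA, hC, Finset.sum_mul, trace_sum]
    refine Finset.sum_eq_zero fun i _ => ?_
    rw [Matrix.smul_mul, trace_smul, ← Matrix.mul_assoc, trace_mul_comm, ← Matrix.mul_assoc,
      ← Matrix.mul_assoc, hTα, Matrix.zero_mul, trace_zero, smul_zero]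
  have hAB : ∀ a a', trace (A a * B a') = trace (A a' * B a) := fun a a' => by
    simp only [hA, hB, Finset.sum_mul, Finset.mul_sum, trace_sum, Matrix.smul_mul,
      Matrix.mul_smul, trace_smul, smul_eq_mul]
    rw [Finset.sum_comm]
    refine Finset.sum_congr rfl fun i _ => Finset.sum_congr rfl fun j _ => ?_
    rw [h1 i j, mul_left_comm]
  have hker : ∀ x ∈ LinearMap.ker (B.coprod C), B x.1 = -C x.2 := fun x hx =>
    eq_neg_of_add_eq_zero_left hx
  let ψ := (A ∘ₗ LinearMap.fst K _ _).domRestrict (LinearMap.ker (B.coprod C))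
  have hψ : Function.Injective ψ := (injective_iff_map_eq_zero ψ).2 fun x hx => by
    have h3 := hker x.1 x.2
    have h4 : x.1.1 = 0 := by
      by_contra h0
      refine hn ⟨x.1.1, h0, hx, ?_⟩
      rw [← hB, h3, hC, Matrix.mul_neg, ← Matrix.mul_assoc, ← Matrix.mul_assoc, hT,
        Matrix.zero_mul, Matrix.zero_mul, neg_zero]
    have h5 : L * (T * xsalghF K k x.1.2 * Tᵀ) * Lᵀ = xsalghF K k x.1.2 := by
      rw [← Matrix.mul_assoc, ← Matrix.mul_assoc, hL, Matrix.one_mul, Matrix.mul_assoc,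
        ← transpose_mul, hL, transpose_one, Matrix.mul_one]
    rw [h4, map_zero, eq_comm, neg_eq_zero, hC] at h3
    rw [h3, Matrix.mul_zero, Matrix.zero_mul] at h5
    exact Subtype.ext (Prod.ext h4 (xsalgh_inj h5.symm))
  have h6 := xsalgh_perp (LinearMap.range ψ) (LinearMap.range (B.coprod C))
    (by
      rintro _ ⟨x, rfl⟩
      change (A x.1.1)ᵀ = A x.1.1
      simp only [hA, transpose_sum, transpose_smul, hα])
    (by
      rintro _ ⟨x, rfl⟩
      change (B x.1 + C x.2)ᵀ = B x.1 + C x.2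
      simp only [hB, hC, transpose_add, transpose_sum, transpose_smul, hβ, transpose_mul,
        transpose_transpose, xsalgh_symm, Matrix.mul_assoc])
    (by
      rintro _ ⟨x, rfl⟩ _ ⟨y, rfl⟩
      change trace (A x.1.1 * (B y.1 + C y.2)) = 0
      rw [mul_add, trace_add, hAB, hker x.1 x.2, mul_neg, trace_neg, hAC, hAC, neg_zero, add_zero])
  have h7 := LinearMap.finrank_range_add_finrank_ker (B.coprod C)
  rw [LinearMap.finrank_range_of_inj hψ] at h6
  rw [Module.finrank_prod, xsalgh_dim, Module.finrank_fintype_fun_eq_card] at h7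
  omega

end Pool.Agent.MP_f58063_ag

end
end
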