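import Pool.Agent.MP_cf0a82_ag.Defs
import Pool.Agent.Mg.Fcf0a82q.Ga9bf1b
import Pool.Agent.Mg.Fcf0a82q.G446bd4
import Pool.Agent.Mg.Fcf0a82q.Ge1829e
import Pool.Agent.Mg.Fcf0a82q.G61e4ec

section

/-! Chow forms of zero-cycles, projective embeddings of tori and traces of flat forms. -/

open Complex Filter Topology Matrix

noncomputable section

namespace Pool.Agent.MP_cf0a82_ag

open Pool.Agent.MP_f58063_ag

/-- tensors of order `n` -/
abbrev Tn (J : Type) (n : ℕ) : Type := (Fin n → J) → ℂ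

section tensor

variable {J : Type} [Fintype J] {n : ℕ}

/-- the form of degree `n` given by a tensor -/
def ev (c : Tn J n) (u : J → ℂ) : ℂ := ∑ j, c j * ∏ i, u (j i)

/-- the symmetric product of `n` vectors -/
def sy (w : Fin n → J → ℂ) : Tn J n := fun j => ∑ σ : Equiv.Perm (Fin n), ∏ i, w (σ i) (j i)

/-- the restriction of the form to the line `u + T v` -/
def Cp (c : Tn J n) (u v : J → ℂ) : Polynomial ℂ :=
  ∑ j, Polynomial.C (c j) * ∏ i, (Polynomial.C (u (j i)) + Polynomial.C (v (j i)) * Polynomial.X)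

/-- `c` is a Chow form of the points `w i` -/
def Ch (c : Tn J n) (w : Fin n → J → ℂ) : Prop :=
  ∃ κ : ℂ, κ ≠ 0 ∧ ∀ u, ev c u = κ * ∏ i, u ⬝ᵥ w i

/-- the form does not vanish identically -/
def Nz (c : Tn J n) : Prop := ∃ u, ev c u ≠ 0

end tensor

/-- a polynomial curve in a vector space -/
def pc {V : Type} [AddCommMonoid V] [Module ℂ V] {d : ℕ} (c : Fin (d + 1) → V) (t : ℂ) : V :=
  ∑ i : Fin (d + 1), t ^ (i : ℕ) • c i

variable {g n : ℕ}

/-- equality of effective cycles on the principally polarized torus -/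
def CEq (τ : Mat g) (q q' : Fin n → EE g) : Prop :=
  ∃ σ : Equiv.Perm (Fin n), ∀ i, ∃ m l : Fin g → ℤ, q' (σ i) = q i + per τ m l

/-- the period lattice as a subgroup -/
def latG (τ : Mat g) : AddSubgroup (EE g) where
  carrier := lattice τ
  add_mem' := by
    rintro _ _ ⟨m, l, rfl⟩ ⟨m', l', rfl⟩
    refine ⟨m + m', l + l', funext fun i => ?_⟩
    simp only [Pi.add_apply, Int.cast_add, mul_add, Finset.sum_add_distrib]
    ring
  zero_mem' := ⟨0, 0, funext fun i => by simp⟩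
  neg_mem' := by
    rintro _ ⟨m, l, rfl⟩
    refine ⟨-m, -l, funext fun i => ?_⟩
    simp only [Pi.neg_apply, Int.cast_neg, mul_neg, Finset.sum_neg_distrib]
    ring

/-- the number of distinct points of a cycle -/
def nd (τ : Mat g) (q : Fin n → EE g) : ℕ :=
  (Set.range fun i => (QuotientAddGroup.mk (q i) : EE g ⧸ latG τ)).ncard

/-- the multiplicity of the point `z` in a cycle -/
def mlt (τ : Mat g) (q : Fin n → EE g) (z : EE g) : ℕ := {i | z - q i ∈ lattice τ}.ncard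

/-- a holomorphic family of projective embeddings of the tori with period matrix in `Ω` -/
structure Emb {J : Type} (Ω : Set (Mat g)) (Φ : Mat g → EE g → J → ℂ) : Prop where
  sub : Ω ⊆ Siegel g
  an : ∀ τ ∈ Ω, ∀ z j, AnalyticAt ℂ (fun p : Mat g × EE g => Φ p.1 p.2 j) (τ, z)
  qp : ∀ τ ∈ Ω, ∀ m l z, ∃ κ : ℂ, κ ≠ 0 ∧ Φ τ (z + per τ m l) = κ • Φ τ z
  ne : ∀ τ ∈ Ω, ∀ z, Φ τ z ≠ 0
  inj : ∀ τ ∈ Ω, ∀ z z', ∀ κ : ℂ, Φ τ z = κ • Φ τ z' → ∃ m l, z = z' + per τ m l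
  imm : ∀ τ ∈ Ω, ∀ z v, ∀ κ : ℂ, (∀ j, fderiv ℂ (fun z => Φ τ z j) z v = κ * Φ τ z j) → v = 0

/-- `c` is a Chow form of the cycle `q` -/
def Cy {J : Type} [Fintype J] (Φ : Mat g → EE g → J → ℂ) (τ : Mat g) (c : Tn J n)
    (q : Fin n → EE g) : Prop := Ch c fun i => Φ τ (q i)

section family

variable {X : Type} [NormedAddCommGroup X] [NormedSpace ℂ X]

/-- the points of the family of cycles depend holomorphically on the parameter near `x` -/
def Br {J : Type} [Fintype J] (Φ : Mat g → EE g → J → ℂ) (τ : X → Mat g) (c : X → Tn J n)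
    (x : X) : Prop :=
  ∃ p : X → Fin n → EE g, AnalyticAt ℂ p x ∧ ∀ᶠ x' in 𝓝 x, Cy Φ (τ x') (c x') (p x')

/-- the value of the form `d(ν 0 · z) ∧ ... ∧ d(ν (r-1) · z)` on the vectors `ξ a` along the
section `f` -/
def tf {r : ℕ} (f : X → EE g) (e : X) (ν : Fin r → EE g) (ξ : Fin r → X) : ℂ :=
  (Matrix.of fun a b => ν b ⬝ᵥ fderiv ℂ f e (ξ a)).det

/-- the vectors `ξ a` keep the classes `ν b` flat -/
def Kil {r : ℕ} (τ : X → Mat g) (e : X) (ν : Fin r → EE g) (ξ : Fin r → X) : Prop :=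
  ∀ a b, mv (fderiv ℂ τ e (ξ a)) (ν b) = 0

open Classical in
/-- the trace of the form on the cycle with parameter `(e, t)` -/
def trF {J : Type} [Fintype J] (Φ : Mat g → EE g → J → ℂ) (τ : X → Mat g) (c : X × ℂ → Tn J n)
    (e : X) {r : ℕ} (ν : Fin r → EE g) (ξ : Fin r → X) (t : ℂ) : ℂ :=
  if h : Br Φ (fun x : X × ℂ => τ x.1) c (e, t) then
    ∑ i, tf (fun e' => h.choose (e', t) i) e ν ξ else 0

end family

/-- the points of `Z` are holomorphic functions after a base change at `t₀` -/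
def HolI (τ : Mat g) (Z : ℂ → Fin n → EE g) (t₀ : ℂ) : Prop :=
  ∃ (e : ℕ) (p : ℂ → Fin n → EE g), 0 < e ∧ AnalyticAt ℂ p 0 ∧
    ∀ᶠ s in 𝓝 (0 : ℂ), CEq τ (Z (t₀ + s ^ e)) (p s)

/-- rational equivalence on the principally polarized torus, in terms of lifts -/
def RatI {k : ℕ} (τ : Mat g) (a a' : Fin k → EE g) : Prop :=
  ∃ (b : ℕ) (β : Fin b → EE g) (Z Z' : ℂ → Fin (k + b) → EE g),
    (∀ t, HolI τ Z t) ∧ HolI τ Z' 0 ∧ (∀ s, s ≠ 0 → CEq τ (Z' s) (Z s⁻¹)) ∧
      CEq τ (Z 0) (Fin.append a β) ∧ CEq τ (Z' 0) (Fin.append a' β)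

/-- a rational characteristic -/
def rq (c : LL g → ℚ) : LL g → ℂ := fun i => (c i : ℂ)

/-- triple products of theta functions -/
def tp (c : (LL g → ℚ) × (LL g → ℚ)) (τ : Mat g) (z : EE g) : ℂ :=
  thc (rq c.1) τ z * thc (rq c.2) τ z * thc (rq (-c.1 - c.2)) τ z

end Pool.Agent.MP_cf0a82_ag

end
end

section

open Complex Filter Topology Matrix Function

noncomputable section

namespace Pool.Agent.MP_cf0a82_ag

open Pool.Agent.MP_f58063_ag

variable {J : Type} [Fintype J] {n g : ℕ} {Ω : Set (Mat g)} {Φ : Mat g → EE g → J → ℂ}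
  {τ : Mat g} {c : Tn J n} {q q' q'' : Fin n → EE g}

/-- pairing with a vector -/
def xeufdDual (w : J → ℂ) : Module.Dual ℂ (J → ℂ) where
  toFun u := u ⬝ᵥ w
  map_add' u v := add_dotProduct u v w
  map_smul' a u := by simp only [smul_dotProduct, RingHom.id_apply]

theorem xeufd_single [DecidableEq J] (w : J → ℂ) (j : J) :
    (Pi.single j 1 : J → ℂ) ⬝ᵥ w = w j := by
  simp

theorem xeufd_ne {w : J → ℂ} (hw : w ≠ 0) : ∃ u : J → ℂ, u ⬝ᵥ w ≠ 0 := by
  classical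
  obtain ⟨j, hj⟩ := Function.ne_iff.1 hw
  exact ⟨Pi.single j 1, by rw [xeufd_single]; exact hj⟩

theorem xeufd_prop {w w' : J → ℂ} (hw : w ≠ 0) (h : ∀ u : J → ℂ, u ⬝ᵥ w = 0 → u ⬝ᵥ w' = 0) :
    ∃ a : ℂ, w' = a • w := by
  classical
  obtain ⟨v, hv⟩ := xeufd_ne hw
  refine ⟨v ⬝ᵥ w' / v ⬝ᵥ w, funext fun j => ?_⟩
  have h1 := h (Pi.single j 1 - (w j / v ⬝ᵥ w) • v) (by
    rw [sub_dotProduct, smul_dotProduct, xeufd_single, smul_eq_mul]
    field_simp
    ring)
  rw [sub_dotProduct, smul_dotProduct, xeufd_single, smul_eq_mul, sub_eq_zero] at h1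
  rw [h1, Pi.smul_apply, smul_eq_mul]
  field_simp

/-- the linear form as a polynomial -/
def xeufdLin (w : J → ℂ) : MvPolynomial J ℂ := ∑ j, MvPolynomial.X j * MvPolynomial.C (w j)

theorem xeufd_lin (w u : J → ℂ) : MvPolynomial.eval u (xeufdLin w) = u ⬝ᵥ w := by
  simp [xeufdLin, dotProduct]

/-- the form of a tensor as a polynomial -/
def xeufdPol (c : Tn J n) : MvPolynomial J ℂ :=
  ∑ j, MvPolynomial.C (c j) * ∏ i, MvPolynomial.X (j i)

theorem xeufd_pol (c : Tn J n) (u : J → ℂ) : MvPolynomial.eval u (xeufdPol c) = ev c u := by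
  simp [xeufdPol, ev]

omit [Fintype J] in
theorem xeufd_nat {p p' : MvPolynomial J ℂ}
    (h : ∀ u : J → ℕ, MvPolynomial.eval (fun j => (u j : ℂ)) p =
      MvPolynomial.eval (fun j => (u j : ℂ)) p') : p = p' := by
  refine MvPolynomial.funext_set (fun _ => Set.range (Nat.cast : ℕ → ℂ))
    (fun _ => Set.infinite_range_of_injective Nat.cast_injective) fun x hx => ?_
  choose u hu using fun j => hx j (Set.mem_univ j)
  have : x = fun j => (u j : ℂ) := funext fun j => (hu j).symm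
  rw [this]
  exact h u

theorem xeufd_cancel {w₀ : J → ℂ} (h₀ : w₀ ≠ 0) {w w' : Fin n → J → ℂ} {κ : ℂ}
    (h : ∀ u : J → ℂ, u ⬝ᵥ w₀ * ∏ i, u ⬝ᵥ w' i = u ⬝ᵥ w₀ * (κ * ∏ i, u ⬝ᵥ w i)) (u : J → ℂ) :
    ∏ i, u ⬝ᵥ w' i = κ * ∏ i, u ⬝ᵥ w i := by
  have h1 : xeufdLin w₀ * ∏ i, xeufdLin (w' i) =
      xeufdLin w₀ * (MvPolynomial.C κ * ∏ i, xeufdLin (w i)) := by
    refine MvPolynomial.funext fun x => ?_
    simp only [map_mul, map_prod, xeufd_lin, MvPolynomial.eval_C]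
    exact h x
  have h2 : xeufdLin w₀ ≠ 0 := by
    obtain ⟨v, hv⟩ := xeufd_ne h₀
    intro h3
    apply hv
    rw [← xeufd_lin, h3, map_zero]
  have h3 := congrArg (MvPolynomial.eval u) (mul_left_cancel₀ h2 h1)
  simpa only [map_mul, map_prod, xeufd_lin, MvPolynomial.eval_C] using h3

theorem prod_ne {κ : Type} [Finite κ] {w : κ → J → ℂ} (hw : ∀ i, w i ≠ 0) :
    ∃ u : J → ℂ, ∀ i, u ⬝ᵥ w i ≠ 0 := by
  exact Module.Dual.exists_forall_ne_zero_of_forall_exists (fun i => xeufdDual (w i))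
    fun i => xeufd_ne (hw i)

/-- unique factorisation of products of linear forms -/
theorem ufd {w w' : Fin n → J → ℂ} (hw : ∀ i, w i ≠ 0) {κ : ℂ} (hκ : κ ≠ 0)
    (h : ∀ u : J → ℂ, ∏ i, u ⬝ᵥ w' i = κ * ∏ i, u ⬝ᵥ w i) :
    ∃ σ : Equiv.Perm (Fin n), ∀ i, ∃ a : ℂ, w' (σ i) = a • w i := by
  induction n generalizing κ with
  | zero => exact ⟨1, fun i => i.elim0⟩
  | succ n ih =>
    have h1 : ∃ j, ∀ u : J → ℂ, u ⬝ᵥ w 0 = 0 → u ⬝ᵥ w' j = 0 := by
      by_contra hc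
      push Not at hc
      obtain ⟨u, hu, hu'⟩ := Module.Dual.exists_forall_mem_ne_zero_of_forall_exists
        (LinearMap.ker (xeufdDual (w 0))) (fun j => xeufdDual (w' j)) fun j => hc j
      have h2 : ∏ i, u ⬝ᵥ w i = 0 := Finset.prod_eq_zero (Finset.mem_univ 0) hu
      have h3 := h u
      rw [h2, mul_zero] at h3
      exact Finset.prod_ne_zero_iff.2 (fun j _ => hu' j) h3
    obtain ⟨j, hj⟩ := h1
    obtain ⟨a, ha⟩ := xeufd_prop (hw 0) hj
    have ha0 : a ≠ 0 := by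
      rintro rfl
      obtain ⟨u, hu⟩ := prod_ne hw
      have h3 := h u
      rw [Finset.prod_eq_zero (Finset.mem_univ j) (by rw [ha]; simp)] at h3
      exact mul_ne_zero hκ (Finset.prod_ne_zero_iff.2 fun i _ => hu i) h3.symm
    have h4 : ∀ u : J → ℂ, ∏ i, u ⬝ᵥ w' (j.succAbove i) = κ / a * ∏ i : Fin n, u ⬝ᵥ w i.succ := by
      refine xeufd_cancel (hw 0) fun u => ?_
      have h3 := h u
      rw [Fin.prod_univ_succAbove _ j, Fin.prod_univ_succ, ha, dotProduct_smul, smul_eq_mul] at h3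
      field_simp
      linear_combination h3
    obtain ⟨σ, hσ⟩ := ih (fun i => hw i.succ) (div_ne_zero hκ ha0) h4
    refine ⟨(finSuccEquiv n).trans ((Equiv.optionCongr σ).trans (finSuccEquiv' j).symm),
      fun i => ?_⟩
    refine Fin.cases ?_ (fun i => ?_) i
    · exact ⟨a, by simpa using ha⟩
    · simpa using hσ i

theorem ev_sy (w : Fin n → J → ℂ) (u : J → ℂ) :
    ev (sy w) u = (n.factorial : ℂ) * ∏ i, u ⬝ᵥ w i := by
  classical
  have h1 : ∀ σ : Equiv.Perm (Fin n),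
      ∑ j : Fin n → J, (∏ i, w (σ i) (j i)) * ∏ i, u (j i) = ∏ i, u ⬝ᵥ w i := by
    intro σ
    rw [← Equiv.prod_comp σ fun i => u ⬝ᵥ w i]
    simp only [dotProduct]
    rw [Finset.prod_univ_sum, Fintype.piFinset_univ]
    refine Finset.sum_congr rfl fun j _ => ?_
    rw [Finset.prod_mul_distrib, mul_comm]
  simp only [ev, sy, Finset.sum_mul]
  rw [Finset.sum_comm]
  simp only [h1]
  rw [Finset.sum_const, Finset.card_univ, Fintype.card_perm, Fintype.card_fin, nsmul_eq_mul]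

theorem sy_perm {w w' : Fin n → J → ℂ} (σ : Equiv.Perm (Fin n)) (a : Fin n → ℂ)
    (h : ∀ i, w' (σ i) = a i • w i) : sy w' = (∏ i, a i) • sy w := by
  funext j
  simp only [sy, Pi.smul_apply, smul_eq_mul, Finset.mul_sum]
  rw [← Equiv.sum_comp (Equiv.mulLeft σ)]
  refine Finset.sum_congr rfl fun ρ _ => ?_
  simp only [Equiv.coe_mulLeft, Equiv.Perm.mul_apply, h, Pi.smul_apply, smul_eq_mul]
  rw [Finset.prod_mul_distrib, Equiv.prod_comp ρ a]

theorem ev_smul (a : ℂ) (c : Tn J n) (u : J → ℂ) : ev (a • c) u = a * ev c u := by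
  simp only [ev, Pi.smul_apply, smul_eq_mul, Finset.mul_sum, mul_assoc]

theorem ev_nat (h : ∀ u : J → ℕ, ev c (fun j => (u j : ℂ)) = 0) (u : J → ℂ) : ev c u = 0 := by
  have h1 : xeufdPol c = 0 := xeufd_nat fun v => by rw [xeufd_pol, h, map_zero]
  rw [← xeufd_pol, h1, map_zero]

theorem ch_nat {w : Fin n → J → ℂ} {κ : ℂ}
    (h : ∀ u : J → ℕ, ev c (fun j => (u j : ℂ)) = κ * ∏ i, (fun j => (u j : ℂ)) ⬝ᵥ w i)
    (u : J → ℂ) : ev c u = κ * ∏ i, u ⬝ᵥ w i := by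
  have h1 : xeufdPol c = MvPolynomial.C κ * ∏ i, xeufdLin (w i) := xeufd_nat fun v => by
    simp only [xeufd_pol, map_mul, map_prod, xeufd_lin, MvPolynomial.eval_C]
    exact h v
  rw [← xeufd_pol, h1]
  simp only [map_mul, map_prod, xeufd_lin, MvPolynomial.eval_C]

theorem Ch.smul {w : Fin n → J → ℂ} (h : Ch c w) {a : ℂ} (ha : a ≠ 0) : Ch (a • c) w := by
  obtain ⟨κ, hκ, h⟩ := h
  exact ⟨a * κ, mul_ne_zero ha hκ, fun u => by rw [ev_smul, h, mul_assoc]⟩

theorem Ch.scale {w : Fin n → J → ℂ} (h : Ch c w) {a : Fin n → ℂ} (ha : ∀ i, a i ≠ 0) :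
    Ch c fun i => a i • w i := by
  obtain ⟨κ, hκ, h⟩ := h
  have h1 : ∏ i, a i ≠ 0 := Finset.prod_ne_zero_iff.2 fun i _ => ha i
  refine ⟨κ / ∏ i, a i, div_ne_zero hκ h1, fun u => ?_⟩
  simp only [h, dotProduct_smul, smul_eq_mul, Finset.prod_mul_distrib]
  field_simp

theorem Ch.nz {w : Fin n → J → ℂ} (h : Ch c w) (hw : ∀ i, w i ≠ 0) : Nz c := by
  obtain ⟨κ, hκ, h⟩ := h
  obtain ⟨u, hu⟩ := prod_ne hw
  exact ⟨u, by rw [h]; exact mul_ne_zero hκ (Finset.prod_ne_zero_iff.2 fun i _ => hu i)⟩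

theorem per_add (τ : Mat g) (m l m' l' : Fin g → ℤ) :
    per τ (m + m') (l + l') = per τ m l + per τ m' l' := by
  funext i
  simp only [per, Pi.add_apply, Int.cast_add, mul_add, Finset.sum_add_distrib]
  ring

theorem per_neg (τ : Mat g) (m l : Fin g → ℤ) : per τ (-m) (-l) = -per τ m l := by
  funext i
  simp only [per, Pi.neg_apply, Int.cast_neg, mul_neg, Finset.sum_neg_distrib]
  ring

theorem per_zero (τ : Mat g) : per τ 0 0 = 0 := by
  funext i
  simp [per]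

theorem per_inj (hτ : τ ∈ PosIm g) {m l m' l' : Fin g → ℤ} (h : per τ m l = per τ m' l') :
    m = m' ∧ l = l' := by
  have h1 : ∀ i, ∑ j, (τ i j).im * ((l j : ℝ) - l' j) = 0 := by
    intro i
    have h2 := congrArg Complex.im (congrFun h i)
    simp only [per, add_im, intCast_im, im_sum, mul_im, intCast_re, mul_zero, zero_add] at h2
    simp only [mul_sub, Finset.sum_sub_distrib, h2, sub_self]
  have h3 : (fun j => (l j : ℝ) - l' j) = 0 := by
    by_contra hc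
    have h4 := hτ _ hc
    simp only [mul_assoc, ← Finset.mul_sum, h1, mul_zero, Finset.sum_const_zero] at h4
    exact lt_irrefl _ h4
  have h5 : l = l' := funext fun j => by
    have h6 := congrFun h3 j
    simp only [Pi.zero_apply, sub_eq_zero] at h6
    exact_mod_cast h6
  subst h5
  refine ⟨funext fun i => ?_, rfl⟩
  have h7 := congrFun h i
  simp only [per, add_left_inj] at h7
  exact_mod_cast h7

theorem per_analytic (m l : Fin g → ℤ) (τ : Mat g) : AnalyticAt ℂ (fun τ => per τ m l) τ := by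
  refine AnalyticAt.pi fun i => ?_
  refine analyticAt_const.add (Finset.analyticAt_fun_sum _ fun j _ => ?_)
  refine AnalyticAt.mul ?_ analyticAt_const
  exact (((ContinuousLinearMap.proj j : (Fin g → ℂ) →L[ℂ] ℂ).comp
    (ContinuousLinearMap.proj i : Mat g →L[ℂ] (Fin g → ℂ))).analyticAt τ)

theorem CEq.refl (τ : Mat g) (q : Fin n → EE g) : CEq τ q q := by
  exact ⟨1, fun i => ⟨0, 0, by simp [per_zero]⟩⟩

theorem CEq.symm (h : CEq τ q q') : CEq τ q' q := by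
  obtain ⟨σ, h⟩ := h
  refine ⟨σ.symm, fun i => ?_⟩
  obtain ⟨m, l, h1⟩ := h (σ.symm i)
  rw [Equiv.apply_symm_apply] at h1
  exact ⟨-m, -l, by rw [h1, per_neg, add_neg_cancel_right]⟩

theorem CEq.trans (h : CEq τ q q') (h' : CEq τ q' q'') : CEq τ q q'' := by
  obtain ⟨σ, h⟩ := h
  obtain ⟨σ', h'⟩ := h'
  refine ⟨σ.trans σ', fun i => ?_⟩
  obtain ⟨m, l, h1⟩ := h i
  obtain ⟨m', l', h2⟩ := h' (σ i)
  exact ⟨m + m', l + l', by rw [Equiv.trans_apply, h2, h1, per_add, add_assoc]⟩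

theorem CEq.nd_eq (h : CEq τ q q') : nd τ q = nd τ q' := by
  obtain ⟨σ, h⟩ := h
  have h1 : ∀ i, (QuotientAddGroup.mk (q i) : EE g ⧸ latG τ) =
      QuotientAddGroup.mk (q' (σ i)) := by
    intro i
    obtain ⟨m, l, h2⟩ := h i
    rw [QuotientAddGroup.eq, h2, neg_add_cancel_left]
    exact ⟨m, l, rfl⟩
  unfold nd
  congr 1
  ext x
  constructor
  · rintro ⟨i, rfl⟩
    exact ⟨σ i, (h1 i).symm⟩
  · rintro ⟨i, rfl⟩
    exact ⟨σ.symm i, by simp only [h1, Equiv.apply_symm_apply]⟩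

theorem nd_le (τ : Mat g) (q : Fin n → EE g) : nd τ q ≤ n := by
  unfold nd
  rw [← Set.image_univ]
  refine (Set.ncard_image_le Set.finite_univ).trans ?_
  rw [Set.ncard_univ, Nat.card_eq_fintype_card, Fintype.card_fin]

/-- congruent points can be made equal -/
theorem exists_red (τ : Mat g) (q : Fin n → EE g) :
    ∃ q', CEq τ q q' ∧ ∀ i j, q' i - q' j ∈ lattice τ → q' i = q' j := by
  refine ⟨fun i => (QuotientAddGroup.mk (q i) : EE g ⧸ latG τ).out, ⟨1, fun i => ?_⟩,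
    fun i j h => ?_⟩
  · have h1 := (QuotientAddGroup.out_eq' (QuotientAddGroup.mk (q i) : EE g ⧸ latG τ)).symm
    rw [QuotientAddGroup.eq] at h1
    obtain ⟨m, l, h2⟩ := h1
    refine ⟨m, l, ?_⟩
    have h3 : per τ m l = -q i + (QuotientAddGroup.mk (q i) : EE g ⧸ latG τ).out := h2.symm
    rw [h3, add_neg_cancel_left]
    rfl
  · have h1 : (QuotientAddGroup.mk (q j) : EE g ⧸ latG τ) = QuotientAddGroup.mk (q i) := by
      rw [← QuotientAddGroup.out_eq' (QuotientAddGroup.mk (q j) : EE g ⧸ latG τ),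
        ← QuotientAddGroup.out_eq' (QuotientAddGroup.mk (q i) : EE g ⧸ latG τ),
        QuotientAddGroup.eq, neg_add_eq_sub]
      exact h
    simp only [h1]

theorem Emb.uniq (hE : Emb Ω Φ) (hτ : τ ∈ Ω) (h : Cy Φ τ c q) (h' : Cy Φ τ c q') :
    CEq τ q q' := by
  obtain ⟨κ, hκ, h⟩ := h
  obtain ⟨κ', hκ', h'⟩ := h'
  obtain ⟨σ, hσ⟩ := ufd (w := fun i => Φ τ (q i)) (w' := fun i => Φ τ (q' i))
    (fun i => hE.ne τ hτ _) (div_ne_zero hκ hκ') fun u => by
      have h1 := (h u).symm.trans (h' u)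
      field_simp
      linear_combination -h1
  refine ⟨σ, fun i => ?_⟩
  obtain ⟨a, ha⟩ := hσ i
  exact hE.inj τ hτ _ _ a ha

theorem Emb.cy_congr (hE : Emb Ω Φ) (hτ : τ ∈ Ω) (h : Cy Φ τ c q) (e : CEq τ q q') :
    Cy Φ τ c q' := by
  obtain ⟨σ, e⟩ := e
  choose m l e using e
  choose a ha ha' using fun i => hE.qp τ hτ (m i) (l i) (q i)
  obtain ⟨κ, hκ, h1⟩ := Ch.scale h ha
  refine ⟨κ, hκ, fun u => ?_⟩
  rw [h1, ← Equiv.prod_comp σ fun i => u ⬝ᵥ Φ τ (q' i)]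
  simp only [e, ha']

theorem Emb.cy_nz (hE : Emb Ω Φ) (hτ : τ ∈ Ω) (h : Cy Φ τ c q) : Nz c := by
  exact Ch.nz h fun i => hE.ne τ hτ _

theorem Emb.sy_congr (hE : Emb Ω Φ) (hτ : τ ∈ Ω) (e : CEq τ q q') :
    ∃ κ : ℂ, κ ≠ 0 ∧ sy (fun i => Φ τ (q' i)) = κ • sy fun i => Φ τ (q i) := by
  obtain ⟨σ, e⟩ := e
  choose m l e using e
  choose a ha ha' using fun i => hE.qp τ hτ (m i) (l i) (q i)
  exact ⟨∏ i, a i, Finset.prod_ne_zero_iff.2 fun i _ => ha i,
    sy_perm σ a fun i => by simp only [e, ha']⟩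

end Pool.Agent.MP_cf0a82_ag

end
end

section

open Complex Filter Topology Matrix Function

noncomputable section

namespace Pool.Agent.MP_cf0a82_ag

open Pool.Agent.MP_f58063_ag

variable {J : Type} [Fintype J] {n : ℕ}

lemma xecp_coeff (a b : Fin n → ℂ) (m : ℕ) :
    (∏ i, (Polynomial.C (a i) + Polynomial.C (b i) * Polynomial.X)).coeff m =
      ∑ T ∈ Finset.univ.powersetCard m, (∏ i ∈ T, b i) * ∏ i ∈ Tᶜ, a i := by
  simp only [add_comm (Polynomial.C (a _))]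
  rw [Finset.prod_add, Polynomial.finsetSum_coeff, Finset.powersetCard_eq_filter,
    Finset.sum_filter]
  refine Finset.sum_congr rfl fun T _ => ?_
  rw [Finset.prod_mul_distrib, Finset.prod_const, ← map_prod, ← map_prod, Polynomial.coeff_mul_C,
    Polynomial.coeff_C_mul_X_pow, Finset.compl_eq_univ_sdiff]
  simp only [eq_comm (a := m), ite_mul, zero_mul]

theorem Cp_eval (c : Tn J n) (u v : J → ℂ) (t : ℂ) :
    (Cp c u v).eval t = ev c (u + t • v) := by
  simp [Cp, ev, Polynomial.eval_finsetSum, Polynomial.eval_prod, mul_comm t]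

theorem Cp_of_ch {c : Tn J n} {w : Fin n → J → ℂ} {κ : ℂ} (h : ∀ u, ev c u = κ * ∏ i, u ⬝ᵥ w i)
    (u v : J → ℂ) : Cp c u v = Polynomial.C κ *
      ∏ i, (Polynomial.C (u ⬝ᵥ w i) + Polynomial.C (v ⬝ᵥ w i) * Polynomial.X) := by
  refine Polynomial.funext fun t => ?_
  rw [Cp_eval, h]
  simp [Polynomial.eval_prod, mul_comm t]

theorem Cp_natDegree (c : Tn J n) (u v : J → ℂ) : (Cp c u v).natDegree ≤ n := by
  refine Polynomial.natDegree_sum_le_of_forall_le _ _ fun j _ =>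
    (Polynomial.natDegree_C_mul_le _ _).trans ((Polynomial.natDegree_prod_le _ _).trans ?_)
  refine (Finset.sum_le_card_nsmul _ _ 1 fun i _ => ?_).trans (by simp)
  rw [add_comm]
  exact Polynomial.natDegree_linear_le

theorem Cp_coeff_an {X : Type} [NormedAddCommGroup X] [NormedSpace ℂ X] {c : X → Tn J n}
    {u : X → J → ℂ} {x : X} (hc : AnalyticAt ℂ c x) (hu : AnalyticAt ℂ u x) (v : J → ℂ) (m : ℕ) :
    AnalyticAt ℂ (fun x => (Cp (c x) (u x) v).coeff m) x := by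
  simp only [Cp, Polynomial.finsetSum_coeff, Polynomial.coeff_C_mul, xecp_coeff]
  refine Finset.analyticAt_fun_sum _ fun j _ => (analyticAt_pi_iff.1 hc j).mul
    (Finset.analyticAt_fun_sum _ fun T _ => analyticAt_const.mul ?_)
  exact Finset.analyticAt_fun_prod _ fun i _ => analyticAt_pi_iff.1 hu _

theorem ev_an {X : Type} [NormedAddCommGroup X] [NormedSpace ℂ X] {c : X → Tn J n}
    {x : X} (hc : AnalyticAt ℂ c x) (u : J → ℂ) : AnalyticAt ℂ (fun x => ev (c x) u) x := by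
  exact Finset.analyticAt_fun_sum _ fun j _ => (analyticAt_pi_iff.1 hc j).mul analyticAt_const

theorem coeff_prod_zero {a b : Fin n → ℂ} (S : Finset (Fin n)) (h : ∀ i ∈ S, a i = 0) {m : ℕ}
    (hm : m < S.card) :
    (∏ i, (Polynomial.C (a i) + Polynomial.C (b i) * Polynomial.X)).coeff m = 0 := by
  rw [xecp_coeff]
  refine Finset.sum_eq_zero fun T hT => ?_
  obtain ⟨i, h1, h2⟩ := Finset.exists_mem_notMem_of_card_lt_card
    ((Finset.mem_powersetCard.1 hT).2.trans_lt hm)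
  rw [Finset.prod_eq_zero (Finset.mem_compl.2 h2) (h i h1), mul_zero]

lemma xecp_van {a : Fin n → ℂ} {S T : Finset (Fin n)} (h : ∀ i ∈ S, a i = 0)
    (hm : T.card + 1 = S.card) {k : Fin n} (hk : k ∉ T) (h0 : ∏ j ∈ Tᶜ.erase k, a j ≠ 0) :
    k ∈ S ∧ T = S.erase k := by
  have h1 : S = insert k T := by
    refine Finset.eq_of_subset_of_card_le (fun j hj => ?_)
      (by rw [Finset.card_insert_of_notMem hk, hm])
    by_contra hc
    rw [Finset.mem_insert, not_or] at hc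
    exact h0 (Finset.prod_eq_zero (Finset.mem_erase.2 ⟨hc.1, Finset.mem_compl.2 hc.2⟩) (h j hj))
  rw [h1, Finset.erase_insert hk]
  exact ⟨Finset.mem_insert_self _ _, rfl⟩

/-- the derivative of the coefficient of `T ^ (m - 1)` at a root of multiplicity `m` -/
theorem coeff_prod_fderiv {Y : Type} [NormedAddCommGroup Y] [NormedSpace ℂ Y] {a : Fin n → Y → ℂ}
    {y : Y} (ha : ∀ i, AnalyticAt ℂ (a i) y) (b : Fin n → ℂ) (S : Finset (Fin n))
    (h : ∀ i ∈ S, a i y = 0) {m : ℕ} (hm : m + 1 = S.card) (v : Y) :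
    fderiv ℂ (fun y => (∏ i, (Polynomial.C (a i y) + Polynomial.C (b i) * Polynomial.X)).coeff m)
      y v = (∑ i ∈ S, fderiv ℂ (a i) y v * ∏ j ∈ S.erase i, b j) * ∏ j ∈ Sᶜ, a j y := by
  simp only [xecp_coeff]
  have h1 := HasFDerivAt.fun_sum (u := Finset.univ.powersetCard m) fun T _ =>
    (HasFDerivAt.finsetProd (u := Tᶜ) fun i _ => (ha i).differentiableAt.hasFDerivAt).const_mul
      (∏ i ∈ T, b i)
  rw [h1.fderiv]
  simp only [_root_.sum_apply, _root_.smul_apply, smul_eq_mul,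
    Finset.mul_sum, Finset.sum_mul]
  rw [Finset.sum_comm' (t' := Finset.univ)
    (s' := fun k => (Finset.univ.powersetCard m).filter fun T => k ∉ T) (by simp),
    ← Finset.sum_subset (Finset.subset_univ S)]
  · refine Finset.sum_congr rfl fun k hk => ?_
    rw [Finset.sum_eq_single_of_mem (S.erase k)]
    · rw [Finset.compl_erase, Finset.erase_insert (by simpa using hk)]
      ring
    · simp [Finset.mem_powersetCard, Finset.card_erase_of_mem hk, ← hm]
    · intro T hT hne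
      obtain ⟨h2, h3⟩ := Finset.mem_filter.1 hT
      by_contra hc
      exact hne (xecp_van h (by rw [(Finset.mem_powersetCard.1 h2).2, hm]) h3
        fun e => hc (by rw [e, zero_mul, mul_zero])).2
  · intro k _ hk
    refine Finset.sum_eq_zero fun T hT => ?_
    obtain ⟨h2, h3⟩ := Finset.mem_filter.1 hT
    by_contra hc
    exact hk (xecp_van h (by rw [(Finset.mem_powersetCard.1 h2).2, hm]) h3
      fun e => hc (by rw [e, zero_mul, mul_zero])).1

/-- the implicit function theorem -/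
theorem ift {X Y : Type} [NormedAddCommGroup X] [NormedSpace ℂ X] [FiniteDimensional ℂ X]
    [NormedAddCommGroup Y] [NormedSpace ℂ Y] [FiniteDimensional ℂ Y] {H : X × Y → Y} {x : X}
    {y : Y} (hH : AnalyticAt ℂ H (x, y)) (hi : ∀ v, fderiv ℂ H (x, y) (0, v) = 0 → v = 0) :
    ∃ p : X → Y, AnalyticAt ℂ p x ∧ p x = y ∧ (∀ᶠ x' in 𝓝 x, H (x', p x') = H (x, y)) ∧
      ∀ᶠ z in 𝓝 (x, y), H z = H (x, y) → z.2 = p z.1 := by
  have : CompleteSpace (X × Y) := FiniteDimensional.complete ℂ _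
  let F : X × Y → X × Y := fun z => (z.1, H z)
  have hF : AnalyticAt ℂ F (x, y) := analyticAt_fst.prod hH
  have hd : fderiv ℂ F (x, y) = (ContinuousLinearMap.fst ℂ X Y).prod (fderiv ℂ H (x, y)) :=
    (hasFDerivAt_fst.prodMk hH.differentiableAt.hasFDerivAt).fderiv
  have hinj : Injective (fderiv ℂ F (x, y) : X × Y →ₗ[ℂ] X × Y) := by
    rw [injective_iff_map_eq_zero, hd]
    rintro ⟨u, v⟩ h
    obtain rfl : u = 0 := congrArg Prod.fst h
    rw [hi v (congrArg Prod.snd h)]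
    rfl
  let e : (X × Y) ≃L[ℂ] X × Y := (LinearEquiv.ofInjectiveEndo _ hinj).toContinuousLinearEquiv
  have he : fderiv ℂ F (x, y) = (e : X × Y →L[ℂ] X × Y) := ContinuousLinearMap.ext fun _ => rfl
  have hs : HasStrictFDerivAt F (e : X × Y →L[ℂ] X × Y) (x, y) := he ▸ hF.hasStrictFDerivAt
  have h1 : AnalyticAt ℂ (hs.localInverse F e (x, y)) (F (x, y)) :=
    (hs.toOpenPartialHomeomorph F).analyticAt_symm' hs.mem_toOpenPartialHomeomorph_source hF he
  have h2 : AnalyticAt ℂ (fun x' : X => (x', H (x, y))) x := analyticAt_id.prod analyticAt_const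
  refine ⟨fun x' => (hs.localInverse F e (x, y) (x', H (x, y))).2,
    analyticAt_snd.comp (h1.comp_of_eq h2 rfl), congrArg Prod.snd hs.localInverse_apply_image,
    (h2.continuousAt.tendsto.eventually hs.eventually_right_inverse).mono fun x' h => ?_,
    hs.eventually_left_inverse.mono fun z h h' => ?_⟩
  · have h3 : (hs.localInverse F e (x, y) (x', H (x, y))).1 = x' := congrArg Prod.fst h
    refine Eq.trans (congrArg H ?_) (congrArg Prod.snd h)
    exact Prod.ext h3.symm rfl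
  · rw [← h']
    exact (congrArg Prod.snd h).symm

end Pool.Agent.MP_cf0a82_ag

end
end

section

open Complex Filter Topology Matrix Function

noncomputable section

namespace Pool.Agent.MP_cf0a82_ag

open Pool.Agent.MP_f58063_ag

variable {J : Type} [Fintype J] {n g : ℕ} {Ω : Set (Mat g)} {Φ : Mat g → EE g → J → ℂ}

lemma xelim_cover {τ : Mat g} (hτ : τ ∈ PosIm g) (z : EE g) :
    ∃ m l, ‖z - per τ m l‖ ≤ 1 + ∑ i, ∑ j, |(τ i j).im| := by
  set L : (Fin g → ℝ) →ₗ[ℝ] (Fin g → ℝ) := Matrix.toLin' (Matrix.of fun i j => (τ i j).im)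
  have hL : ∀ x i, L x i = ∑ j, (τ i j).im * x j := fun x i => rfl
  have hinj : Injective L := by
    refine (injective_iff_map_eq_zero L).2 fun x hx => ?_
    by_contra h0
    refine (hτ x h0).ne' (Finset.sum_eq_zero fun i _ => ?_)
    simp only [mul_assoc]
    rw [← Finset.mul_sum, ← hL, hx, Pi.zero_apply, mul_zero]
  obtain ⟨x, hx⟩ := (LinearMap.injective_iff_surjective.1 hinj) fun i => (z i).im
  refine ⟨fun i => ⌊(z i - ∑ j, τ i j * (⌊x j⌋ : ℤ)).re⌋, fun j => ⌊x j⌋, ?_⟩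
  refine (pi_norm_le_iff_of_nonneg (by positivity)).2 fun i => ?_
  refine (norm_le_abs_re_add_abs_im _).trans (add_le_add ?_ ?_)
  · have h1 : (z - per τ (fun i => ⌊(z i - ∑ j, τ i j * (⌊x j⌋ : ℤ)).re⌋) fun j => ⌊x j⌋) i =
        (z i - ∑ j, τ i j * (⌊x j⌋ : ℤ)) - (⌊(z i - ∑ j, τ i j * (⌊x j⌋ : ℤ)).re⌋ : ℤ) := by
      simp only [Pi.sub_apply, per]
      ring
    rw [h1, sub_re, intCast_re, Int.self_sub_floor, abs_of_nonneg (Int.fract_nonneg _)]
    exact (Int.fract_lt_one _).le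
  · have h1 : (z i).im = ∑ j, (τ i j).im * x j := by rw [← hL, hx]
    have h2 : ((z - per τ (fun i => ⌊(z i - ∑ j, τ i j * (⌊x j⌋ : ℤ)).re⌋)
        fun j => ⌊x j⌋) i).im = ∑ j, (τ i j).im * Int.fract (x j) := by
      simp only [Pi.sub_apply, per, sub_im, add_im, intCast_im, im_sum, mul_im, intCast_re,
        mul_zero, zero_add, h1, ← Finset.sum_sub_distrib, ← mul_sub, Int.self_sub_floor]
    rw [h2]
    refine (Finset.abs_sum_le_sum_abs _ _).trans (le_trans (Finset.sum_le_sum fun j _ => ?_)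
      (Finset.single_le_sum (f := fun i => ∑ j, |(τ i j).im|) (fun _ _ => by positivity)
        (Finset.mem_univ i)))
    rw [abs_mul, abs_of_nonneg (Int.fract_nonneg (x j))]
    exact mul_le_of_le_one_right (abs_nonneg _) (Int.fract_lt_one _).le

/-- a fundamental domain that is bounded uniformly in the period matrix -/
theorem cover_unif {τ₁ : Mat g} (h : τ₁ ∈ PosIm g) : ∃ R : ℝ, ∀ᶠ τ in 𝓝 τ₁, ∀ z : EE g,
    ∃ m l, ‖z - per τ m l‖ ≤ R := by
  have hc : Continuous fun τ : Mat g => 1 + ∑ i, ∑ j, |(τ i j).im| := by fun_prop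
  refine ⟨(1 + ∑ i, ∑ j, |(τ₁ i j).im|) + 1, ?_⟩
  filter_upwards [isOpen_PosIm.mem_nhds h,
    hc.continuousAt.eventually_lt continuousAt_const (lt_add_one _)] with τ h1 h2 z
  obtain ⟨m, l, hml⟩ := xelim_cover h1 z
  exact ⟨m, l, hml.trans h2.le⟩

variable {X : Type} {F : Filter X} {τ : X → Mat g} {c : X → Tn J n} {τ₁ : Mat g} {c₁ : Tn J n}

lemma xelim_ev (u : J → ℂ) : Continuous fun c : Tn J n => ev c u := by
  unfold ev
  fun_prop

lemma xelim_lim [F.NeBot] (hE : Emb Ω Φ) (hτ : Tendsto τ F (𝓝 τ₁)) (hc : Tendsto c F (𝓝 c₁))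
    (h1 : τ₁ ∈ Ω) (hne : Nz c₁) {p : X → Fin n → EE g} {q₀ : Fin n → EE g}
    (hp : Tendsto p F (𝓝 q₀)) (h : ∀ᶠ x in F, Cy Φ (τ x) (c x) (p x)) : Cy Φ τ₁ c₁ q₀ := by
  have hΦ : ∀ u : J → ℂ, Tendsto (fun x => ∏ i, u ⬝ᵥ Φ (τ x) (p x i)) F
      (𝓝 (∏ i, u ⬝ᵥ Φ τ₁ (q₀ i))) := by
    intro u
    refine tendsto_finsetProd _ fun i _ => ?_
    unfold dotProduct
    refine tendsto_finsetSum _ fun j _ => Tendsto.const_mul _ ?_
    exact (hE.an τ₁ h1 (q₀ i) j).continuousAt.tendsto.comp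
      (hτ.prodMk_nhds (((continuous_apply i).tendsto q₀).comp hp))
  obtain ⟨u₀, hu₀⟩ := prod_ne (w := fun i => Φ τ₁ (q₀ i)) fun i => hE.ne τ₁ h1 _
  have hP : (∏ i, u₀ ⬝ᵥ Φ τ₁ (q₀ i)) ≠ 0 := Finset.prod_ne_zero_iff.2 fun i _ => hu₀ i
  have key : ∀ u, ev c₁ u * ∏ i, u₀ ⬝ᵥ Φ τ₁ (q₀ i) = ev c₁ u₀ * ∏ i, u ⬝ᵥ Φ τ₁ (q₀ i) := by
    intro u
    refine tendsto_nhds_unique_of_eventuallyEq ((((xelim_ev u).tendsto c₁).comp hc).mul (hΦ u₀))
      ((((xelim_ev u₀).tendsto c₁).comp hc).mul (hΦ u)) ?_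
    filter_upwards [h] with x hx
    obtain ⟨κ, -, hκ⟩ := hx
    simp only [Function.comp, hκ]
    ring
  have key' : ∀ u, ev c₁ u = (ev c₁ u₀ / ∏ i, u₀ ⬝ᵥ Φ τ₁ (q₀ i)) * ∏ i, u ⬝ᵥ Φ τ₁ (q₀ i) := by
    intro u
    rw [div_mul_eq_mul_div, eq_div_iff hP, key]
  refine ⟨_, fun h0 => ?_, key'⟩
  obtain ⟨u, hu⟩ := hne
  exact hu (by rw [key', h0, zero_mul])

lemma xelim_core [F.NeBot] (hE : Emb Ω Φ) (hτ : Tendsto τ F (𝓝 τ₁)) (hc : Tendsto c F (𝓝 c₁))
    (h1 : τ₁ ∈ Ω) (hΩ : ∀ᶠ x in F, τ x ∈ Ω) (hne : Nz c₁) {p : X → Fin n → EE g}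
    (h : ∀ᶠ x in F, Cy Φ (τ x) (c x) (p x)) :
    ∃ (U : Ultrafilter X) (q₀ : Fin n → EE g) (p' : X → Fin n → EE g), ↑U ≤ F ∧ Cy Φ τ₁ c₁ q₀ ∧
      Tendsto p' U (𝓝 q₀) ∧ ∀ x i, ∃ m l, p' x i = p x i - per (τ x) m l := by
  classical
  obtain ⟨R, hR⟩ := cover_unif (Siegel_sub (hE.sub h1))
  have hex : ∀ x i, ∃ ml : (Fin g → ℤ) × (Fin g → ℤ),
      (∀ z : EE g, ∃ m l, ‖z - per (τ x) m l‖ ≤ R) → ‖p x i - per (τ x) ml.1 ml.2‖ ≤ R := by
    intro x i
    by_cases hx : ∀ z : EE g, ∃ m l, ‖z - per (τ x) m l‖ ≤ R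
    · obtain ⟨m, l, hml⟩ := hx (p x i)
      exact ⟨(m, l), fun _ => hml⟩
    · exact ⟨0, fun h => absurd h hx⟩
  choose ml hml using hex
  set p' : X → Fin n → EE g := fun x i => p x i - per (τ x) (ml x i).1 (ml x i).2 with hp'
  set U := Ultrafilter.of F
  have hU : (U : Filter X) ≤ F := Ultrafilter.of_le F
  have hK : IsCompact (Set.pi Set.univ fun _ : Fin n => Metric.closedBall (0 : EE g) R) :=
    isCompact_univ_pi fun _ => isCompact_closedBall _ _
  have hmem : ∀ᶠ x in (U : Filter X),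
      p' x ∈ Set.pi Set.univ fun _ : Fin n => Metric.closedBall (0 : EE g) R := by
    filter_upwards [hU (hτ.eventually hR)] with x hx i _
    exact mem_closedBall_zero_iff.2 (hml x i hx)
  obtain ⟨q₀, -, hq₀⟩ := hK.ultrafilter_le_nhds (U.map p') (le_principal_iff.2 hmem)
  refine ⟨U, q₀, p', hU, ?_, hq₀, fun x i => ⟨_, _, rfl⟩⟩
  refine xelim_lim (F := (U : Filter X)) hE (hτ.mono_left hU) (hc.mono_left hU) h1 hne hq₀ ?_
  filter_upwards [hU h, hU hΩ] with x hx hx'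
  refine hE.cy_congr hx' hx ⟨1, fun i => ⟨-(ml x i).1, -(ml x i).2, ?_⟩⟩
  rw [per_neg, ← sub_eq_add_neg]
  rfl

/-- the Chow variety is closed -/
theorem Emb.closed [F.NeBot] (hE : Emb Ω Φ) (hτ : Tendsto τ F (𝓝 τ₁)) (hc : Tendsto c F (𝓝 c₁))
    (h1 : τ₁ ∈ Ω) (hΩ : ∀ᶠ x in F, τ x ∈ Ω) (hne : Nz c₁)
    (h : ∀ᶠ x in F, ∃ q, Cy Φ (τ x) (c x) q) : ∃ q, Cy Φ τ₁ c₁ q := by
  have hex : ∀ x, ∃ q : Fin n → EE g, (∃ q, Cy Φ (τ x) (c x) q) → Cy Φ (τ x) (c x) q := by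
    intro x
    by_cases hx : ∃ q, Cy Φ (τ x) (c x) q
    · exact ⟨hx.choose, fun _ => hx.choose_spec⟩
    · exact ⟨0, fun h => absurd h hx⟩
  choose p hp using hex
  obtain ⟨-, q₀, -, -, hq, -⟩ := xelim_core hE hτ hc h1 hΩ hne (h.mono hp)
  exact ⟨q₀, hq⟩

/-- the points of a cycle depend continuously on the Chow form -/
theorem Emb.close (hE : Emb Ω Φ) (hτ : Tendsto τ F (𝓝 τ₁)) (hc : Tendsto c F (𝓝 c₁))
    (h1 : τ₁ ∈ Ω) (hΩ : ∀ᶠ x in F, τ x ∈ Ω) {q : Fin n → EE g} (hq : Cy Φ τ₁ c₁ q) {ε : ℝ}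
    (hε : 0 < ε) : ∀ᶠ x in F, ∀ q', Cy Φ (τ x) (c x) q' → ∃ σ : Equiv.Perm (Fin n), ∀ i,
      ∃ m l, ‖q' (σ i) - q i - per (τ x) m l‖ < ε := by
  by_contra hcon
  set B : X → (Fin n → EE g) → Prop := fun x q' => Cy Φ (τ x) (c x) q' ∧
    ¬∃ σ : Equiv.Perm (Fin n), ∀ i, ∃ m l, ‖q' (σ i) - q i - per (τ x) m l‖ < ε with hB
  have hfr : ∃ᶠ x in F, ∃ q', B x q' := by
    refine (not_eventually.1 hcon).mono fun x hx => ?_
    by_contra h0
    exact hx fun q' hq' => by_contra fun h2 => h0 ⟨q', hq', h2⟩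
  have hex : ∀ x, ∃ q' : Fin n → EE g, (∃ q', B x q') → B x q' := by
    intro x
    by_cases hx : ∃ q', B x q'
    · exact ⟨hx.choose, fun _ => hx.choose_spec⟩
    · exact ⟨0, fun h => absurd h hx⟩
  choose p hp using hex
  have hG : (F ⊓ 𝓟 {x | ∃ q', B x q'}).NeBot := frequently_iff_neBot.1 hfr
  have hle : F ⊓ 𝓟 {x | ∃ q', B x q'} ≤ F := inf_le_left
  have hBp : ∀ᶠ x in F ⊓ 𝓟 {x | ∃ q', B x q'}, B x (p x) := by
    filter_upwards [mem_inf_of_right (mem_principal_self _)] with x hx using hp x hx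
  obtain ⟨U, q₀, p', hU, hq₀, hp', hpp⟩ := xelim_core hE (hτ.mono_left hle) (hc.mono_left hle) h1
    (hle hΩ) (hE.cy_nz h1 hq) (hBp.mono fun x hx => hx.1)
  obtain ⟨σ, hσ⟩ := hE.uniq h1 hq hq₀
  choose m l hml using hσ
  have hlim : ∀ i, ∀ᶠ x in (U : Filter X), ‖p' x (σ i) - q i - per (τ x) (m i) (l i)‖ < ε := by
    intro i
    have h2 : Tendsto (fun x => p' x (σ i) - q i - per (τ x) (m i) (l i)) U
        (𝓝 (q₀ (σ i) - q i - per τ₁ (m i) (l i))) :=
      ((((continuous_apply (σ i)).tendsto q₀).comp hp').sub_const _).sub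
        ((per_analytic (m i) (l i) τ₁).continuousAt.tendsto.comp (hτ.mono_left (hU.trans hle)))
    rw [hml, add_sub_cancel_left, sub_self] at h2
    exact h2.norm.eventually_lt_const (by simpa using hε)
  obtain ⟨x, hx1, hx2⟩ := ((eventually_all.2 hlim).and (hU hBp)).exists
  refine hx2.2 ⟨σ, fun i => ?_⟩
  obtain ⟨m', l', h'⟩ := hpp x (σ i)
  refine ⟨m i + m', l i + l', ?_⟩
  have := hx1 i
  rw [h'] at this
  rw [per_add]
  convert this using 2
  abel

end Pool.Agent.MP_cf0a82_ag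

end
end

section

open Complex Filter Topology Matrix Function

noncomputable section

namespace Pool.Agent.MP_cf0a82_ag

open Pool.Agent.MP_f58063_ag

variable {g : ℕ} {τ : Mat g}

/-- the point attached to a complex characteristic -/
def xctpP (τ : Mat g) (c : LL g → ℂ) : EE g :=
  fun i => ∑ j, τ i j * c (.inl j) + c (.inr i)

/-- the constant part of the exponent -/
def xctpK (τ : Mat g) (c : LL g → ℂ) : ℂ :=
  Real.pi * I * (∑ i, ∑ j, c (.inl i) * τ i j * c (.inl j) + ∑ i, c (.inl i) * c (.inr i))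

lemma xctp_thc (c : LL g → ℂ) (τ : Mat g) (z : EE g) :
    thc c τ z = exp (xctpK τ c) * exp (2 * Real.pi * I * ∑ i, c (.inl i) * z i) *
      theta τ (z + xctpP τ c) := by
  unfold thc
  rw [← exp_add]
  congr 2
  · unfold xctpK
    ring
  · funext i
    simp only [Pi.add_apply, xctpP]
    ring

lemma xctp_eq (c : (LL g → ℚ) × (LL g → ℚ)) (τ : Mat g) : ∃ κ : ℂ, κ ≠ 0 ∧ ∀ z,
    tp c τ z = κ * (theta τ (z + xctpP τ (rq c.1)) * theta τ (z + xctpP τ (rq c.2)) *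
      theta τ (z - xctpP τ (rq c.1) - xctpP τ (rq c.2))) := by
  refine ⟨exp (xctpK τ (rq c.1)) * exp (xctpK τ (rq c.2)) * exp (xctpK τ (rq (-c.1 - c.2))),
    mul_ne_zero (mul_ne_zero (exp_ne_zero _) (exp_ne_zero _)) (exp_ne_zero _), fun z => ?_⟩
  have e1 : z + xctpP τ (rq (-c.1 - c.2)) = z - xctpP τ (rq c.1) - xctpP τ (rq c.2) := by
    funext i
    simp only [Pi.add_apply, Pi.sub_apply, Pi.neg_apply, xctpP, rq, Rat.cast_sub, Rat.cast_neg,
      mul_sub, mul_neg, Finset.sum_sub_distrib, Finset.sum_neg_distrib]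
    ring
  have e2 : exp (2 * Real.pi * I * ∑ i, rq c.1 (.inl i) * z i) *
      exp (2 * Real.pi * I * ∑ i, rq c.2 (.inl i) * z i) *
      exp (2 * Real.pi * I * ∑ i, rq (-c.1 - c.2) (.inl i) * z i) = 1 := by
    rw [← exp_add, ← exp_add, ← exp_zero]
    congr 1
    simp only [Pi.sub_apply, Pi.neg_apply, rq, Rat.cast_sub, Rat.cast_neg,
      sub_mul, neg_mul, Finset.sum_sub_distrib, Finset.sum_neg_distrib]
    ring
  unfold tp
  rw [xctp_thc, xctp_thc, xctp_thc, e1]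
  linear_combination (exp (xctpK τ (rq c.1)) * exp (xctpK τ (rq c.2)) *
    exp (xctpK τ (rq (-c.1 - c.2))) * (theta τ (z + xctpP τ (rq c.1)) *
      theta τ (z + xctpP τ (rq c.2)) * theta τ (z - xctpP τ (rq c.1) - xctpP τ (rq c.2)))) * e2

lemma xctp_mem (c : (LL g → ℚ) × (LL g → ℚ)) (hτ : τ ∈ Siegel g) : tp c τ ∈ Th τ 3 := by
  obtain ⟨κ, -, h⟩ := xctp_eq c τ
  have e : tp c τ = κ • fun z => theta τ (z + xctpP τ (rq c.1)) *
      theta τ (z + xctpP τ (rq c.2)) * theta τ (z - xctpP τ (rq c.1) - xctpP τ (rq c.2)) :=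
    funext fun z => h z
  rw [e]
  exact (Th τ 3).smul_mem κ (theta_three hτ _ _)

lemma xctp_surj (hτ : τ ∈ PosIm g) :
    Surjective fun x : LL g → ℝ => xctpP τ fun i => (x i : ℂ) := by
  intro z
  set L : (Fin g → ℝ) →ₗ[ℝ] (Fin g → ℝ) := Matrix.toLin' (Matrix.of fun i j => (τ i j).im)
  have hL : ∀ x i, L x i = ∑ j, (τ i j).im * x j := fun x i => rfl
  have hinj : Injective L := by
    refine (injective_iff_map_eq_zero L).2 fun x hx => ?_
    by_contra h0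
    refine (hτ x h0).ne' (Finset.sum_eq_zero fun i _ => ?_)
    simp only [mul_assoc]
    rw [← Finset.mul_sum, ← hL, hx, Pi.zero_apply, mul_zero]
  obtain ⟨a, ha⟩ := LinearMap.injective_iff_surjective.1 hinj fun i => (z i).im
  refine ⟨Sum.elim a fun i => (z i).re - ∑ j, (τ i j).re * a j, funext fun i => ?_⟩
  have h1 := congrFun ha i
  rw [hL] at h1
  apply Complex.ext
  · simp [xctpP]
  · simp [xctpP, h1]

theorem tp_analytic (c : (LL g → ℚ) × (LL g → ℚ)) (hτ : τ ∈ PosIm g) (z : EE g) :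
    AnalyticAt ℂ (fun p : Mat g × EE g => tp c p.1 p.2) (τ, z) := by
  exact ((thc_analytic _ hτ z).mul (thc_analytic _ hτ z)).mul (thc_analytic _ hτ z)

theorem tp_per (c : (LL g → ℚ) × (LL g → ℚ)) (hτ : τ ∈ Siegel g) (m l : Fin g → ℤ) (z : EE g) :
    tp c τ (z + per τ m l) = aut τ l z ^ 3 * tp c τ z := by
  exact (mem_Th.1 (xctp_mem c hτ)).2 m l z

theorem tp_mem (c : (LL g → ℚ) × (LL g → ℚ)) (hτ : τ ∈ Siegel g) : tp c τ ∈ Th τ 3 := by
  exact xctp_mem c hτ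

/-- the torsion point attached to a rational characteristic -/
def tpt (τ : Mat g) (c : LL g → ℚ) : EE g :=
  fun i => ∑ j, τ i j * (c (.inl j) : ℂ) + (c (.inr i) : ℂ)

theorem tp_eq (c : (LL g → ℚ) × (LL g → ℚ)) (τ : Mat g) : ∃ κ : ℂ, κ ≠ 0 ∧ ∀ z,
    tp c τ z = κ * (theta τ (z + tpt τ c.1) * theta τ (z + tpt τ c.2) *
      theta τ (z - tpt τ c.1 - tpt τ c.2)) := by
  exact xctp_eq c τ

theorem tpt_dense (hτ : τ ∈ PosIm g) : DenseRange (tpt τ) := by
  have h1 : DenseRange (Pi.map fun (_ : LL g) (r : ℚ) => (r : ℝ)) :=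
    DenseRange.piMap fun _ => Rat.denseRange_cast
  have h2 : Continuous fun x : LL g → ℝ => xctpP τ fun i => (x i : ℂ) := by
    unfold xctpP
    fun_prop
  have h3 := (xctp_surj hτ).denseRange.comp h1 h2
  convert h3 using 1
  funext c i
  simp [tpt, xctpP]

theorem tp_ne (hτ : τ ∈ Siegel g) (z : EE g) : ∃ c, tp c τ z ≠ 0 := by
  obtain ⟨b, h1, h2⟩ := xthb_pt3 hτ.2 z
  have hc : Continuous (theta τ) :=
    continuous_iff_continuousAt.2 fun x => (theta_analytic hτ.2 x).continuousAt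
  have hU : IsOpen {a : EE g | theta τ (z + a) * theta τ (z + a) * theta τ (z - a - a) ≠ 0} :=
    isOpen_ne_fun (by fun_prop) continuous_const
  obtain ⟨c, hc'⟩ := (tpt_dense hτ.2).exists_mem_open hU
    ⟨b, mul_ne_zero (mul_ne_zero h1 h1) h2⟩
  obtain ⟨κ, hκ, h⟩ := tp_eq (c, c) τ
  exact ⟨(c, c), by rw [h]; exact mul_ne_zero hκ hc'⟩

theorem exists_level {κ : Type} [Finite κ] (c : κ → LL g → ℚ) :
    ∃ N : ℕ, N ≠ 0 ∧ ∀ j, ∀ N', N ∣ N' → IsCh N' (rq (c j)) := by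
  have := Fintype.ofFinite κ
  refine ⟨∏ p : κ × LL g, (c p.1 p.2).den, Finset.prod_ne_zero_iff.2 fun p _ => (c p.1 p.2).den_nz,
    fun j N' hN i => ?_⟩
  obtain ⟨k, hk⟩ := (Finset.dvd_prod_of_mem (fun p : κ × LL g => (c p.1 p.2).den)
    (Finset.mem_univ (j, i))).trans hN
  refine ⟨(c j i).num * k, ?_⟩
  have h1 : (c j i : ℂ) * ((c j i).den : ℂ) = (c j i).num := by
    exact_mod_cast Rat.mul_den_eq_num (c j i)
  rw [hk]
  simp only [rq, Nat.cast_mul, Int.cast_mul, Int.cast_natCast]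
  rw [← h1]
  ring

end Pool.Agent.MP_cf0a82_ag

end
end

section

open Complex Filter Topology Matrix Function

noncomputable section

namespace Pool.Agent.MP_cf0a82_ag

open Pool.Agent.MP_f58063_ag

variable {g : ℕ} {τ : Mat g}

lemma xcemb1_cont {T : EE g → ℂ} (hT : ∀ z, AnalyticAt ℂ T z) : Continuous T :=
  continuous_iff_continuousAt.2 fun z => (hT z).continuousAt

lemma xcemb1_dense (hτ : τ ∈ PosIm g) {F G : EE g × EE g → ℂ} (hF : Continuous F)
    (hG : Continuous G) (h : ∀ c : (LL g → ℚ) × (LL g → ℚ),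
      F (tpt τ c.1, tpt τ c.2) = G (tpt τ c.1, tpt τ c.2)) (a b : EE g) : F (a, b) = G (a, b) :=
  ((tpt_dense hτ).prodMap (tpt_dense hτ)).induction_on (p := fun x => F x = G x) (a, b)
    (isClosed_eq hF hG) h

lemma xcemb1_d3 {T : EE g → ℂ} (hT : ∀ z, AnalyticAt ℂ T z) (p u a b : EE g) :
    fderiv ℂ (fun z => T (z + a) * T (z + b) * T (z - a - b)) p u =
      dv u T (p + a) * T (p + b) * T (p - a - b) + T (p + a) * dv u T (p + b) * T (p - a - b) +
        T (p + a) * T (p + b) * dv u T (p - a - b) := by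
  have h₁ := (hT (p + a)).differentiableAt.hasFDerivAt.comp p ((hasFDerivAt_id p).add_const a)
  have h₂ := (hT (p + b)).differentiableAt.hasFDerivAt.comp p ((hasFDerivAt_id p).add_const b)
  have h₃ := (hT (p - a - b)).differentiableAt.hasFDerivAt.comp p
    (((hasFDerivAt_id p).sub_const a).sub_const b)
  have h := ((h₁.mul h₂).mul h₃).fderiv
  refine (congrArg (fun L => L u) h).trans ?_
  simp only [_root_.add_apply, _root_.smul_apply, smul_eq_mul,
    ContinuousLinearMap.comp_id, Function.comp_apply, id, Pi.mul_apply, dv_apply]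
  ring

lemma xcemb1_per0 (j : Fin g) : per τ (Pi.single j 1) 0 = ee j := by
  funext i
  simp [per, Pi.single_apply, apply_ite]

lemma xcemb1_tail (hτ : τ ∈ Siegel g) {u : EE g} {κ : EE g →L[ℂ] ℂ} {c : ℂ}
    (h : ∀ z, dv u (theta τ) z = (κ z + c) * theta τ z) : u = 0 := by
  obtain ⟨z, hz⟩ := theta_ne (Siegel_sub hτ)
  have k : ∀ m n, κ (per τ m n) = -(2 * Real.pi * I * ∑ i, (n i : ℂ) * u i) := fun m n => by
    have e := xspan_per hτ u m n z
    rw [h, h, theta_per hτ, map_add] at e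
    refine mul_left_cancel₀ (mul_ne_zero (aut_ne τ n z) hz) ?_
    linear_combination e
  have k₀ : ∀ j, κ (ee j) = 0 := fun j => by
    simpa [xcemb1_per0] using k (Pi.single j 1) 0
  have k₁ : ∀ v, κ v = 0 := fun v => by
    rw [xdd_sum_ee v, map_sum]
    simp only [map_smul, k₀, smul_zero, Finset.sum_const_zero]
  funext j
  have e := k 0 (Pi.single j 1)
  rw [k₁] at e
  simpa [Pi.single_apply, apply_ite, Real.pi_ne_zero] using e

/-- solutions of the multiplicative functional equation are exponentials -/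
lemma xcemb1_exp {f h : EE g → ℂ} (hf : ∀ z, AnalyticAt ℂ f z) (hh : ∀ z, AnalyticAt ℂ h z)
    (f0 : ∃ z, f z ≠ 0) (h0 : ∃ z, h z ≠ 0) (q : EE g) {κ : ℂ}
    (H : ∀ a b, f a * f b * f (q - a - b) = κ * (h a * h b * h (q - a - b))) :
    ∃ (L : EE g →L[ℂ] ℂ) (C : ℂ), ∀ z, f z = C * exp (L z) * h z := by
  have hT : ∀ z, AnalyticAt ℂ (fun z => f z * h z) z := fun z => (hf z).mul (hh z)
  have cT := xcemb1_cont hT
  obtain ⟨c, hc⟩ := xspan_ne hf hh f0 h0
  have hc' : f c * h c ≠ 0 := mul_ne_zero hc.1 hc.2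
  obtain ⟨a₀, ha, hb⟩ := xspan_ne (G := fun z => f (q - z - c) * h (q - z - c)) hT
    (fun z => (hT _).comp ((analyticAt_const.sub analyticAt_id).sub analyticAt_const)) ⟨c, hc'⟩
    ⟨q - c - c, by rwa [show q - (q - c - c) - c = c by abel]⟩
  set L : EE g →L[ℂ] ℂ := (f c)⁻¹ • fderiv ℂ f c - (h c)⁻¹ • fderiv ℂ h c with hL
  have key : ∀ a, f a * h a ≠ 0 → f (q - a - c) * h (q - a - c) ≠ 0 → ∀ v,
      fderiv ℂ f a v * h a - f a * fderiv ℂ h a v = L v * (f a * h a) := by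
    intro a h₁ h₂ v
    have e : (fun y => f (a + y) * f (q - a - c) * f (c - y)) =
        fun y => κ * (h (a + y) * h (q - a - c) * h (c - y)) := by
      funext y
      have := H (a + y) (q - a - c)
      rwa [show q - (a + y) - (q - a - c) = c - y by abel] at this
    have d : ∀ {T : EE g → ℂ}, (∀ z, AnalyticAt ℂ T z) → HasFDerivAt
        (fun y => T (a + y) * T (q - a - c) * T (c - y))
        ((T a * T (q - a - c)) • (-fderiv ℂ T c) + T c • T (q - a - c) • fderiv ℂ T a) 0 := by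
      intro T hT
      have d₁ := HasFDerivAt.comp (0 : EE g) (g := T) (g' := fderiv ℂ T a)
        (by simpa using (hT a).differentiableAt.hasFDerivAt) ((hasFDerivAt_id (0 : EE g)).const_add a)
      have d₂ := HasFDerivAt.comp (0 : EE g) (g := T) (g' := fderiv ℂ T c)
        (by simpa using (hT c).differentiableAt.hasFDerivAt) ((hasFDerivAt_id (0 : EE g)).const_sub c)
      refine ((d₁.mul_const (T (q - a - c))).mul d₂).congr_fderiv
        (ContinuousLinearMap.ext fun v => ?_)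
      simp
    have d₁ := d hf
    rw [e] at d₁
    have d₂ := congrArg (fun M => M v) (d₁.unique ((d hh).const_mul κ))
    have e₀ := congrFun e 0
    simp only [_root_.add_apply, _root_.smul_apply, _root_.neg_apply, smul_eq_mul, add_zero,
      sub_zero] at d₂ e₀
    have n₁ := (mul_ne_zero_iff.1 h₂).1
    simp only [hL, _root_.sub_apply, _root_.smul_apply, smul_eq_mul]
    have := hc.1
    have := hc.2
    field_simp
    refine mul_left_cancel₀ n₁ ?_
    linear_combination (h a * h c) * d₂ +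
      (fderiv ℂ h c v * h a - fderiv ℂ h a v * h c) * e₀
  have e₁ : ∀ᶠ z in 𝓝 a₀, f z * h z ≠ 0 := cT.continuousAt.eventually_ne ha
  have e₂ : ∀ᶠ z in 𝓝 a₀, f (q - z - c) * h (q - z - c) ≠ 0 :=
    (cT.comp ((continuous_const.sub continuous_id).sub continuous_const)).continuousAt.eventually_ne
      hb
  obtain ⟨ε, hε, hz⟩ := Metric.eventually_nhds_iff_ball.1 (e₁.and e₂)
  have hE : ∀ z, HasFDerivAt (fun z => exp (L z)) (exp (L z) • L) z := fun z => L.hasFDerivAt.cexp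
  have hD : ∀ z ∈ Metric.ball a₀ ε, HasFDerivAt (fun z => f z * (exp (L z) * h z)⁻¹)
      (0 : EE g →L[ℂ] ℂ) z := by
    intro z hz'
    have n₁ := (mul_ne_zero_iff.1 (hz z hz').1).2
    have n₂ := exp_ne_zero (L z)
    have d₁ := (hE z).mul (hh z).differentiableAt.hasFDerivAt
    have d₂ := (hasDerivAt_inv (mul_ne_zero n₂ n₁)).comp_hasFDerivAt z d₁
    refine ((hf z).differentiableAt.hasFDerivAt.mul d₂).congr_fderiv
      (ContinuousLinearMap.ext fun v => ?_)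
    have k := key z (hz z hz').1 (hz z hz').2 v
    simp only [_root_.add_apply, _root_.smul_apply, _root_.zero_apply, smul_eq_mul,
      Function.comp_apply, Pi.mul_apply]
    field_simp
    linear_combination k
  obtain ⟨C, hC⟩ := Metric.isOpen_ball.exists_is_const_of_fderiv_eq_zero (𝕜 := ℂ)
    (convex_ball a₀ ε).isPreconnected
    (fun z h => (hD z h).differentiableAt.differentiableWithinAt) fun z h => (hD z h).fderiv
  refine ⟨L, C, fun z => sub_eq_zero.1 (congrFun (entire_zero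
    (f := fun z => f z - C * exp (L z) * h z) (x := a₀) (fun z => (hf z).sub
      ((analyticAt_const.mul (L.analyticAt z).cexp).mul (hh z))) ?_) z)⟩
  filter_upwards [Metric.ball_mem_nhds a₀ hε] with z hz'
  have n₁ := (mul_ne_zero_iff.1 (hz z hz').1).2
  have n₂ := exp_ne_zero (L z)
  rw [← hC z hz']
  field_simp
  ring

/-- the triple products separate points -/
theorem tp_inj (hτ : τ ∈ Siegel g) {z z' : EE g} {κ : ℂ} (h : ∀ c, tp c τ z = κ * tp c τ z') :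
    ∃ m l, z = z' + per τ m l := by
  have hT := fun z => theta_analytic (Siegel_sub hτ) z
  have cT := xcemb1_cont hT
  have H := xcemb1_dense (Siegel_sub hτ)
    (F := fun p => theta τ (z + p.1) * theta τ (z + p.2) * theta τ (z - p.1 - p.2))
    (G := fun p => κ * (theta τ (z' + p.1) * theta τ (z' + p.2) * theta τ (z' - p.1 - p.2)))
    (by fun_prop) (by fun_prop) fun c => by
      obtain ⟨k, hk, e⟩ := tp_eq c τ
      have := h c
      rw [e, e] at this
      exact mul_left_cancel₀ hk (by linear_combination this)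
  obtain ⟨w, hw⟩ := theta_ne (Siegel_sub hτ)
  set u := z - z' with hu
  obtain ⟨L, C, e⟩ := xcemb1_exp (f := fun a => theta τ (a + u)) (h := theta τ) (κ := κ)
    (fun a => xthb_an hτ.2 (by fun_prop)) hT ⟨w - u, by simpa using hw⟩ ⟨w, hw⟩ (z' + z' + z')
    fun a b => by
      have := H (a - z') (b - z')
      simp only at this
      rwa [show z + (a - z') = a + u by rw [hu]; abel, show z + (b - z') = b + u by rw [hu]; abel,
        show z - (a - z') - (b - z') = z' + z' + z' - a - b + u by rw [hu]; abel,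
        show z' + (a - z') = a by abel, show z' + (b - z') = b by abel,
        show z' - (a - z') - (b - z') = z' + z' + z' - a - b by abel] at this
  have hC : C ≠ 0 := by
    rintro rfl
    have := e (w - u)
    simp only [sub_add_cancel, zero_mul] at this
    exact hw this
  have k : ∀ m n, exp (L (per τ m n)) = exp (-(2 * Real.pi * I * ∑ i, (n i : ℂ) * u i)) := by
    intro m n
    have e₁ := e (w + per τ m n)
    rw [show w + per τ m n + u = w + u + per τ m n by abel, theta_per hτ, theta_per hτ, xthb_aut,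
      e w, map_add, exp_add] at e₁
    refine mul_left_cancel₀ (mul_ne_zero (mul_ne_zero (mul_ne_zero (aut_ne τ n w) hC)
      (exp_ne_zero (L w))) hw) ?_
    linear_combination -e₁
  have k₀ : ∀ j, ∃ n : ℤ, L (ee j) = n * (2 * Real.pi * I) := fun j => by
    have := k (Pi.single j 1) 0
    rw [xcemb1_per0] at this
    exact exp_eq_one_iff.1 (by simpa using this)
  choose n hn using k₀
  have k₁ : ∀ j, ∃ m : ℤ, u j = m + ∑ i, τ j i * ((-n) i : ℤ) := fun j => by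
    have e₁ := k 0 (Pi.single j 1)
    have e₂ : L (per τ 0 (Pi.single j 1)) = (∑ i, τ j i * n i) * (2 * Real.pi * I) := by
      rw [xdd_sum_ee (per τ 0 (Pi.single j 1)), map_sum, Finset.sum_mul]
      refine Finset.sum_congr rfl fun i _ => ?_
      have e₀ : per τ 0 (Pi.single j 1) i = τ i j := by simp [per, Pi.single_apply, apply_ite]
      rw [map_smul, hn, smul_eq_mul, hτ.1 j i, e₀]
      ring
    have e₃ : ∑ i, ((Pi.single j 1 : Fin g → ℤ) i : ℂ) * u i = u j := by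
      simp [Pi.single_apply, apply_ite]
    rw [e₂, e₃] at e₁
    obtain ⟨m, hm⟩ := exp_eq_exp_iff_exists_int.1 e₁
    refine ⟨m, mul_right_cancel₀ two_pi_I_ne_zero ?_⟩
    simp only [Pi.neg_apply, Int.cast_neg, mul_neg, Finset.sum_neg_distrib]
    linear_combination hm
  choose m hm using k₁
  refine ⟨m, -n, funext fun j => ?_⟩
  have := hm j
  simp only [hu, Pi.sub_apply] at this
  simp only [Pi.add_apply, per]
  linear_combination this

/-- the triple products separate tangent vectors -/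
theorem tp_imm (hτ : τ ∈ Siegel g) {z v : EE g} {κ : ℂ}
    (h : ∀ c, fderiv ℂ (tp c τ) z v = κ * tp c τ z) : v = 0 := by
  have hT := fun z => theta_analytic (Siegel_sub hτ) z
  have cT := xcemb1_cont hT
  have cD := xcemb1_cont fun z => analyticAt_dv (hT z) v
  have H := xcemb1_dense (Siegel_sub hτ)
    (F := fun p => dv v (theta τ) (z + p.1) * theta τ (z + p.2) * theta τ (z - p.1 - p.2) +
      theta τ (z + p.1) * dv v (theta τ) (z + p.2) * theta τ (z - p.1 - p.2) +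
      theta τ (z + p.1) * theta τ (z + p.2) * dv v (theta τ) (z - p.1 - p.2))
    (G := fun p => κ * (theta τ (z + p.1) * theta τ (z + p.2) * theta τ (z - p.1 - p.2)))
    (by fun_prop) (by fun_prop) fun c => by
      obtain ⟨k, hk, e⟩ := tp_eq c τ
      have := h c
      rw [e, funext e, fderiv_const_mul ((theta_three hτ _ _).1 z).differentiableAt,
        _root_.smul_apply, xcemb1_d3 hT, smul_eq_mul] at this
      exact mul_left_cancel₀ hk (by linear_combination this)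
  have K : ∀ a b, theta τ a ≠ 0 → theta τ b ≠ 0 → theta τ (z + z + z - a - b) ≠ 0 →
      dv v (theta τ) a / theta τ a + dv v (theta τ) b / theta τ b +
        dv v (theta τ) (z + z + z - a - b) / theta τ (z + z + z - a - b) = κ := by
    intro a b h₁ h₂ h₃
    have := H (a - z) (b - z)
    simp only at this
    rw [show z + (a - z) = a by abel, show z + (b - z) = b by abel,
      show z - (a - z) - (b - z) = z + z + z - a - b by abel] at this
    field_simp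
    linear_combination this
  obtain ⟨L, c, e⟩ := xspan_aff hT (fun z => analyticAt_dv (hT z) v) (theta_ne (Siegel_sub hτ))
    (z + z + z) fun a b a' b' h₁ h₂ h₃ h₄ h₅ h₆ => (K a b h₁ h₂ h₃).trans (K a' b' h₄ h₅ h₆).symm
  exact xcemb1_tail hτ e

end Pool.Agent.MP_cf0a82_ag

end
end

section

open Complex Filter Topology Matrix Function

noncomputable section

namespace Pool.Agent.MP_cf0a82_ag

open Pool.Agent.MP_f58063_ag

variable {g : ℕ} {ι : Type} {F : ι → Mat g → EE g → ℂ} {τ₀ : Mat g}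

lemma xcemb2_fin {V κ : Type} [AddCommGroup V] [Module ℂ V] [FiniteDimensional ℂ V]
    (D : κ → V →ₗ[ℂ] ℂ) (h : ∀ v, (∀ i, D i v = 0) → v = 0) :
    ∃ S : Finset κ, ∀ v, (∀ i ∈ S, D i v = 0) → v = 0 := by
  classical
  obtain ⟨_, ⟨S, rfl⟩, hS⟩ := IsArtinian.set_has_minimal
    (Set.range fun S : Finset κ => ⨅ i ∈ S, LinearMap.ker (D i)) ⟨_, ∅, rfl⟩
  refine ⟨S, fun v hv => h v fun i => ?_⟩
  have h1 : (⨅ j ∈ insert i S, LinearMap.ker (D j)) ≤ ⨅ j ∈ S, LinearMap.ker (D j) :=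
    le_iInf₂ fun j hj => iInf₂_le j (Finset.mem_insert_of_mem hj)
  have h2 := eq_of_le_of_not_lt h1 (hS _ ⟨insert i S, rfl⟩)
  have h3 : v ∈ ⨅ j ∈ insert i S, LinearMap.ker (D j) := by
    rw [h2]
    exact (Submodule.mem_iInf _).2 fun j => (Submodule.mem_iInf _).2 fun hj => hv j hj
  exact (Submodule.mem_iInf _).1 ((Submodule.mem_iInf _).1 h3 i) (Finset.mem_insert_self i S)

section
variable {X Y : Type} [NormedAddCommGroup X] [NormedSpace ℂ X] [NormedAddCommGroup Y]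
  [NormedSpace ℂ Y]

lemma xcemb2_inj [FiniteDimensional ℂ X] [FiniteDimensional ℂ Y] {h : X → Y} {p : X}
    (hh : AnalyticAt ℂ h p) (hs : Injective (fderiv ℂ h p)) :
    ∃ k : Y → X, ∀ᶠ x in 𝓝 p, k (h x) = x := by
  have : CompleteSpace X := FiniteDimensional.complete ℂ X
  obtain ⟨q, hq⟩ := LinearMap.exists_leftInverse_of_injective (fderiv ℂ h p).toLinearMap
    (LinearMap.ker_eq_bot.2 hs)
  let L : Y →L[ℂ] X := LinearMap.toContinuousLinearMap q
  have hst : HasStrictFDerivAt (fun x => L (h x))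
      (ContinuousLinearEquiv.refl ℂ X : X →L[ℂ] X) p := by
    have h1 := L.hasStrictFDerivAt.comp p hh.hasStrictFDerivAt
    have h2 : L.comp (fderiv ℂ h p) = (ContinuousLinearEquiv.refl ℂ X : X →L[ℂ] X) := by
      ext1 v
      exact LinearMap.congr_fun hq v
    rw [h2] at h1
    exact h1
  exact ⟨fun y => hst.localInverse _ _ _ (L y), hst.eventually_left_inverse⟩

lemma xcemb2_ratio {A B : X → ℂ} {p : X} (hA : AnalyticAt ℂ A p) (hB : AnalyticAt ℂ B p)
    (h : B p ≠ 0) (w : X) : fderiv ℂ A p w =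
      fderiv ℂ (fun x => A x / B x) p w * B p + A p / B p * fderiv ℂ B p w := by
  have h1 : A =ᶠ[𝓝 p] fun x => A x / B x * B x := by
    filter_upwards [hB.continuousAt.eventually_ne h] with x hx
    rw [div_mul_cancel₀ _ hx]
  have h2 := (hA.fun_div hB h).differentiableAt.hasFDerivAt.fun_mul
    hB.differentiableAt.hasFDerivAt
  rw [h1.fderiv_eq, h2.fderiv]
  simp only [_root_.add_apply, _root_.smul_apply, smul_eq_mul]
  ring

lemma xcemb2_part {G : X × Y → ℂ} {a : X} {z : Y} (hG : AnalyticAt ℂ G (a, z)) (v : Y) :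
    fderiv ℂ (fun y => G (a, y)) z v = fderiv ℂ G (a, z) (0, v) := by
  have h1 : HasFDerivAt (fun y : Y => (a, y)) (ContinuousLinearMap.inr ℂ X Y) z :=
    (hasFDerivAt_const a z).prodMk (hasFDerivAt_id z)
  have h2 : HasFDerivAt (fun y => G (a, y)) _ z := hG.differentiableAt.hasFDerivAt.comp z h1
  rw [h2.fderiv]
  rfl

lemma xcemb2_theta {κ : Type} [Fintype κ] {r : κ → X × Y → ℂ} {p : X × Y}
    (hr : ∀ i, AnalyticAt ℂ (r i) p) (w : X × Y) :
    fderiv ℂ (fun x : X × Y => (x.1, fun i => r i x)) p w =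
      (w.1, fun i => fderiv ℂ (r i) p w) := by
  have h1 : HasFDerivAt (fun x : X × Y => (x.1, fun i => r i x)) _ p :=
    hasFDerivAt_fst.prodMk (hasFDerivAt_pi.2 fun i => (hr i).differentiableAt.hasFDerivAt)
  rw [h1.fderiv]
  rfl

end

theorem emb_loc (han : ∀ i z, AnalyticAt ℂ (fun p : Mat g × EE g => F i p.1 p.2) (τ₀, z))
    (z₀ : EE g) (hne : ∃ i, F i τ₀ z₀ ≠ 0)
    (himm : ∀ v, ∀ κ : ℂ, (∀ i, fderiv ℂ (F i τ₀) z₀ v = κ * F i τ₀ z₀) → v = 0) :
    ∃ S : Finset ι, ∀ᶠ p : Mat g × EE g × EE g in 𝓝 (τ₀, z₀, z₀), (∃ i ∈ S, F i p.1 p.2.1 ≠ 0) ∧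
      (∀ v, ∀ κ : ℂ, (∀ i ∈ S, fderiv ℂ (F i p.1) p.2.1 v = κ * F i p.1 p.2.1) → v = 0) ∧
      ∀ κ : ℂ, (∀ i ∈ S, F i p.1 p.2.1 = κ * F i p.1 p.2.2) → p.2.1 = p.2.2 := by
  classical
  obtain ⟨i₀, hi₀⟩ := hne
  let r : ι → Mat g × EE g → ℂ := fun i p => F i p.1 p.2 / F i₀ p.1 p.2
  have key : ∀ (i : ι) (p : Mat g × EE g), AnalyticAt ℂ (fun p : Mat g × EE g => F i p.1 p.2) p →
      AnalyticAt ℂ (fun p : Mat g × EE g => F i₀ p.1 p.2) p → F i₀ p.1 p.2 ≠ 0 → ∀ v,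
      fderiv ℂ (F i p.1) p.2 v = fderiv ℂ (r i) p (0, v) * F i₀ p.1 p.2 +
        F i p.1 p.2 / F i₀ p.1 p.2 * fderiv ℂ (F i₀ p.1) p.2 v := by
    intro i p h1 h2 h3 v
    have e1 : fderiv ℂ (F i p.1) p.2 v = _ := xcemb2_part (a := p.1) (z := p.2) h1 v
    have e2 : fderiv ℂ (F i₀ p.1) p.2 v = _ := xcemb2_part (a := p.1) (z := p.2) h2 v
    rw [e1, e2]
    exact xcemb2_ratio h1 h2 h3 (0, v)
  obtain ⟨S, hS⟩ := xcemb2_fin
    (fun i => ((fderiv ℂ (r i) (τ₀, z₀)).comp (ContinuousLinearMap.inr ℂ _ _)).toLinearMap)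
    (fun v hv => himm v (fderiv ℂ (F i₀ τ₀) z₀ v / F i₀ τ₀ z₀) fun i => by
      have h1 : fderiv ℂ (r i) (τ₀, z₀) (0, v) = 0 := hv i
      rw [key i (τ₀, z₀) (han i z₀) (han i₀ z₀) hi₀ v, h1]
      ring)
  have hr : ∀ i : S, AnalyticAt ℂ (r i) (τ₀, z₀) := fun i => (han i z₀).fun_div (han i₀ z₀) hi₀
  have hΘ : AnalyticAt ℂ (fun x : Mat g × EE g => (x.1, fun i : S => r i x)) (τ₀, z₀) :=
    analyticAt_fst.prod (analyticAt_pi_iff.2 hr)
  have hinj : Injective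
      (fderiv ℂ (fun x : Mat g × EE g => (x.1, fun i : S => r i x)) (τ₀, z₀)) := by
    refine (injective_iff_map_eq_zero _).2 fun w hw => ?_
    rw [xcemb2_theta hr] at hw
    obtain ⟨a, v⟩ := w
    have h1 : a = 0 := congrArg Prod.fst hw
    subst h1
    rw [hS v fun i hi => congrFun (congrArg Prod.snd hw) ⟨i, hi⟩]
    rfl
  obtain ⟨k, hk⟩ := xcemb2_inj hΘ hinj
  have E := hk.and ((eventually_inj hΘ hinj).and (((han i₀ z₀).continuousAt.eventually_ne hi₀).and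
    ((han i₀ z₀).eventually_analyticAt.and
      (eventually_all.2 fun i : S => (han i z₀).eventually_analyticAt))))
  have T1 : Tendsto (fun p : Mat g × EE g × EE g => (p.1, p.2.1)) (𝓝 (τ₀, z₀, z₀))
      (𝓝 (τ₀, z₀)) := (continuous_fst.prodMk continuous_snd.fst).tendsto _
  have T2 : Tendsto (fun p : Mat g × EE g × EE g => (p.1, p.2.2)) (𝓝 (τ₀, z₀, z₀))
      (𝓝 (τ₀, z₀)) := (continuous_fst.prodMk continuous_snd.snd).tendsto _
  refine ⟨insert i₀ S, ?_⟩
  filter_upwards [T1.eventually E, T2.eventually E] with p ⟨a1, a2, a3, a4, a5⟩ ⟨b1, _, b3, _⟩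
  have m0 := Finset.mem_insert_self i₀ S
  refine ⟨⟨i₀, m0, a3⟩, fun v c hc => ?_, fun c hc => ?_⟩
  · have h1 : fderiv ℂ (fun x : Mat g × EE g => (x.1, fun i : S => r i x)) (p.1, p.2.1) (0, v) =
        0 := by
      rw [xcemb2_theta fun i => (a5 i).fun_div a4 a3]
      refine Prod.ext rfl (funext fun i => ?_)
      have h2 := key i _ (a5 i) a4 a3 v
      simp only at h2 a3
      rw [hc i (Finset.mem_insert_of_mem i.2), hc i₀ m0] at h2
      refine mul_right_cancel₀ a3 ?_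
      change fderiv ℂ (r i) (p.1, p.2.1) (0, v) * _ = 0 * _
      rw [zero_mul, ← sub_eq_iff_eq_add.2 h2]
      field_simp
      ring
    exact congrArg Prod.snd ((injective_iff_map_eq_zero _).1 a2 _ h1)
  · have h1 : (fun i : S => r i (p.1, p.2.1)) = fun i : S => r i (p.1, p.2.2) := by
      funext i
      have c0 : c ≠ 0 := fun e => a3 (by rw [hc i₀ m0, e, zero_mul])
      simp only [r]
      rw [hc i (Finset.mem_insert_of_mem i.2), hc i₀ m0, mul_div_mul_left _ _ c0]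
    rw [h1, b1] at a1
    exact (congrArg Prod.snd a1).symm

/-- the embedding properties at a pair of points -/
def xcemb2_good (F : ι → Mat g → EE g → ℂ) (S : Finset ι) (τ : Mat g) (q : EE g × EE g) : Prop :=
  τ ∈ Siegel g → (∃ i ∈ S, F i τ q.1 ≠ 0) ∧
    (∀ v, ∀ κ : ℂ, (∀ i ∈ S, fderiv ℂ (F i τ) q.1 v = κ * F i τ q.1) → v = 0) ∧
    ∀ κ : ℂ, (∀ i ∈ S, F i τ q.1 = κ * F i τ q.2) → ∃ m l, q.1 = q.2 + per τ m l

lemma xcemb2_mono {S T : Finset ι} (h : S ⊆ T) {τ : Mat g} {q : EE g × EE g}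
    (hq : xcemb2_good F S τ q) : xcemb2_good F T τ q := fun hτ => by
  obtain ⟨⟨i, hi, h1⟩, h2, h3⟩ := hq hτ
  exact ⟨⟨i, h hi, h1⟩, fun v c hc => h2 v c fun i hi => hc i (h hi),
    fun c hc => h3 c fun i hi => hc i (h hi)⟩

lemma xcemb2_pair
    (han : ∀ i z, AnalyticAt ℂ (fun p : Mat g × EE g => F i p.1 p.2) (τ₀, z))
    (hqp : ∀ τ ∈ Siegel g, ∀ m l, ∃ κ : EE g → ℂ, (∀ z, AnalyticAt ℂ κ z ∧ κ z ≠ 0) ∧
      ∀ i z, F i τ (z + per τ m l) = κ z * F i τ z)
    (hne : ∀ z, ∃ i, F i τ₀ z ≠ 0)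
    (hinj : ∀ z z', ∀ κ : ℂ, (∀ i, F i τ₀ z = κ * F i τ₀ z') → ∃ m l, z = z' + per τ₀ m l)
    (himm : ∀ z v, ∀ κ : ℂ, (∀ i, fderiv ℂ (F i τ₀) z v = κ * F i τ₀ z) → v = 0)
    (z₀ z₁ : EE g) : ∃ S : Finset ι,
      ∀ᶠ p : Mat g × EE g × EE g in 𝓝 (τ₀, z₀, z₁), xcemb2_good F S p.1 p.2 := by
  classical
  obtain ⟨S, hS⟩ := emb_loc han z₀ (hne z₀) (himm z₀)
  by_cases h : ∃ m l, z₀ = z₁ + per τ₀ m l
  · obtain ⟨m, l, h⟩ := h
    have hc : Continuous fun p : Mat g × EE g × EE g => (p.1, p.2.1, p.2.2 + per p.1 m l) := by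
      unfold per
      fun_prop
    have T := hc.tendsto (τ₀, z₀, z₁)
    simp only [← h] at T
    refine ⟨S, ?_⟩
    filter_upwards [T.eventually hS] with p ⟨a1, a2, a3⟩ hτ
    refine ⟨a1, a2, fun c hc => ⟨m, l, ?_⟩⟩
    obtain ⟨κ, k1, k2⟩ := hqp _ hτ m l
    refine a3 (c / κ p.2.2) fun i hi => ?_
    have := (k1 p.2.2).2
    rw [hc i hi, k2]
    field_simp
  · obtain ⟨i, hi⟩ := hne z₁
    obtain ⟨j, hj⟩ : ∃ j, F j τ₀ z₀ * F i τ₀ z₁ - F i τ₀ z₀ * F j τ₀ z₁ ≠ 0 := by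
      by_contra hc
      push Not at hc
      refine h (hinj z₀ z₁ (F i τ₀ z₀ / F i τ₀ z₁) fun j => ?_)
      have := hc j
      field_simp
      linear_combination this
    have T1 : Tendsto (fun p : Mat g × EE g × EE g => (p.1, p.2.1, p.2.1)) (𝓝 (τ₀, z₀, z₁))
        (𝓝 (τ₀, z₀, z₀)) :=
      (continuous_fst.prodMk (continuous_snd.fst.prodMk continuous_snd.fst)).tendsto _
    have c1 : ∀ a, ContinuousAt (fun p : Mat g × EE g × EE g => F a p.1 p.2.1) (τ₀, z₀, z₁) :=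
      fun a => (han a z₀).continuousAt.tendsto.comp
        ((continuous_fst.prodMk continuous_snd.fst).tendsto (τ₀, z₀, z₁))
    have c2 : ∀ a, ContinuousAt (fun p : Mat g × EE g × EE g => F a p.1 p.2.2) (τ₀, z₀, z₁) :=
      fun a => (han a z₁).continuousAt.tendsto.comp
        ((continuous_fst.prodMk continuous_snd.snd).tendsto (τ₀, z₀, z₁))
    refine ⟨insert i (insert j S), ?_⟩
    filter_upwards [T1.eventually hS,
      (((c1 j).mul (c2 i)).sub ((c1 i).mul (c2 j))).eventually_ne hj] with p ⟨⟨a, ha, a1⟩, a2, _⟩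
      a4 _
    have hsub : S ⊆ insert i (insert j S) := fun x hx => by simp [hx]
    refine ⟨⟨a, hsub ha, a1⟩, fun v c hc => a2 v c fun a ha => hc a (hsub ha),
      fun c hc => (a4 ?_).elim⟩
    simp only [Pi.sub_apply, Pi.mul_apply]
    rw [hc i (by simp), hc j (by simp)]
    ring

/-- a finite subfamily embeds all nearby tori -/
theorem emb_fin (h0 : τ₀ ∈ Siegel g)
    (han : ∀ τ ∈ Siegel g, ∀ i z, AnalyticAt ℂ (fun p : Mat g × EE g => F i p.1 p.2) (τ, z))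
    (hqp : ∀ τ ∈ Siegel g, ∀ m l, ∃ κ : EE g → ℂ, (∀ z, AnalyticAt ℂ κ z ∧ κ z ≠ 0) ∧
      ∀ i z, F i τ (z + per τ m l) = κ z * F i τ z)
    (hne : ∀ z, ∃ i, F i τ₀ z ≠ 0)
    (hinj : ∀ z z', ∀ κ : ℂ, (∀ i, F i τ₀ z = κ * F i τ₀ z') → ∃ m l, z = z' + per τ₀ m l)
    (himm : ∀ z v, ∀ κ : ℂ, (∀ i, fderiv ℂ (F i τ₀) z v = κ * F i τ₀ z) → v = 0) :
    ∃ (a : ℕ) (s : Fin a → ι) (O : Set (Mat g)), IsOpen O ∧ τ₀ ∈ O ∧
      Emb (Siegel g ∩ O) fun τ z j => F (s j) τ z := by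
  classical
  obtain ⟨R, hR⟩ := cover_unif (Siegel_sub h0)
  have hK : IsCompact (Metric.closedBall (0 : EE g) R ×ˢ Metric.closedBall (0 : EE g) R) :=
    (isCompact_closedBall _ _).prod (isCompact_closedBall _ _)
  obtain ⟨S, hS⟩ : ∃ S : Finset ι, ∀ᶠ τ in 𝓝 τ₀,
      ∀ q ∈ Metric.closedBall (0 : EE g) R ×ˢ Metric.closedBall (0 : EE g) R,
        xcemb2_good F S τ q := by
    refine hK.induction_on
      (p := fun s => ∃ S : Finset ι, ∀ᶠ τ in 𝓝 τ₀, ∀ q ∈ s, xcemb2_good F S τ q)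
      ⟨∅, Eventually.of_forall fun _ _ h => h.elim⟩ ?_ ?_ ?_
    · rintro s t hst ⟨S, hS⟩
      exact ⟨S, hS.mono fun τ h q hq => h q (hst hq)⟩
    · rintro s t ⟨S, hS⟩ ⟨T, hT⟩
      refine ⟨S ∪ T, ?_⟩
      filter_upwards [hS, hT] with τ h1 h2 q hq
      exact hq.elim (fun h => xcemb2_mono Finset.subset_union_left (h1 q h))
        fun h => xcemb2_mono Finset.subset_union_right (h2 q h)
    · rintro ⟨z₀, z₁⟩ -
      obtain ⟨S, hS⟩ := xcemb2_pair (han τ₀ h0) hqp hne hinj himm z₀ z₁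
      rw [nhds_prod_eq, eventually_prod_iff] at hS
      obtain ⟨pa, ha, pb, hb, h⟩ := hS
      exact ⟨{q | pb q}, mem_nhdsWithin_of_mem_nhds hb, S, ha.mono fun τ hτ q hq => h hτ hq⟩
  obtain ⟨O, hO, oO, mO⟩ := eventually_nhds_iff.1 (hR.and hS)
  let s : Fin S.card → ι := fun j => (S.equivFin.symm j).1
  have hs : ∀ i ∈ S, ∃ j, s j = i := fun i hi => ⟨S.equivFin ⟨i, hi⟩, by simp [s]⟩
  have red : ∀ τ ∈ Siegel g ∩ O, ∀ z : EE g, ∃ w ∈ Metric.closedBall (0 : EE g) R, ∃ m l,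
      z = w + per τ m l := fun τ hτ z => by
    obtain ⟨m, l, h⟩ := (hO τ hτ.2).1 z
    exact ⟨z - per τ m l, mem_closedBall_zero_iff.2 h, m, l, (sub_add_cancel _ _).symm⟩
  refine ⟨S.card, s, O, oO, mO, Set.inter_subset_left, fun τ hτ z j => han τ hτ.1 _ z,
    fun τ hτ m l z => ?_, fun τ hτ z hz => ?_, fun τ hτ z z' c hc => ?_, fun τ hτ z v c hc => ?_⟩
  · obtain ⟨κ, k1, k2⟩ := hqp τ hτ.1 m l
    exact ⟨κ z, (k1 z).2, funext fun j => k2 _ z⟩
  · obtain ⟨w, hw, m, l, rfl⟩ := red τ hτ z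
    obtain ⟨κ, k1, k2⟩ := hqp τ hτ.1 m l
    obtain ⟨i, hi, h⟩ := ((hO τ hτ.2).2 (w, w) ⟨hw, hw⟩ hτ.1).1
    obtain ⟨j, rfl⟩ := hs i hi
    have h1 : F (s j) τ (w + per τ m l) = 0 := congrFun hz j
    rw [k2] at h1
    exact mul_ne_zero (k1 w).2 h h1
  · obtain ⟨w, hw, m, l, rfl⟩ := red τ hτ z
    obtain ⟨w', hw', m', l', rfl⟩ := red τ hτ z'
    obtain ⟨κ, k1, k2⟩ := hqp τ hτ.1 m l
    obtain ⟨κ', -, k3⟩ := hqp τ hτ.1 m' l'
    obtain ⟨a, b, h⟩ := ((hO τ hτ.2).2 (w, w') ⟨hw, hw'⟩ hτ.1).2.2 (c * κ' w' / κ w)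
      fun i hi => by
        obtain ⟨j, rfl⟩ := hs i hi
        have h1 : F (s j) τ (w + per τ m l) = c * F (s j) τ (w' + per τ m' l') := congrFun hc j
        rw [k2, k3] at h1
        have := (k1 w).2
        field_simp
        linear_combination h1
    refine ⟨a + m + -m', b + l + -l', ?_⟩
    have h1 : w = w' + per τ a b := h
    rw [per_add, per_add, per_neg, h1]
    abel
  · obtain ⟨w, hw, m, l, rfl⟩ := red τ hτ z
    obtain ⟨κ, k1, k2⟩ := hqp τ hτ.1 m l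
    refine ((hO τ hτ.2).2 (w, w) ⟨hw, hw⟩ hτ.1).2.1 v (c - fderiv ℂ κ w v / κ w) fun i hi => ?_
    obtain ⟨j, rfl⟩ := hs i hi
    have hd : ∀ z, DifferentiableAt ℂ (F (s j) τ) z := fun z =>
      (AnalyticAt.comp (f := fun z : EE g => (τ, z)) (han τ hτ.1 (s j) z)
        (analyticAt_const.prod analyticAt_id)).differentiableAt
    have d1 : HasFDerivAt (fun z => F (s j) τ (z + per τ m l))
        (fderiv ℂ (F (s j) τ) (w + per τ m l)) w :=
      (hasFDerivAt_comp_add_right _).2 (hd _).hasFDerivAt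
    have d2 := (k1 w).1.differentiableAt.hasFDerivAt.fun_mul (hd w).hasFDerivAt
    simp only [k2] at d1
    have h1 := ContinuousLinearMap.ext_iff.1 (d1.unique d2) v
    have h2 : fderiv ℂ (F (s j) τ) (w + per τ m l) v = c * F (s j) τ (w + per τ m l) := hc j
    rw [h2, k2] at h1
    simp only [_root_.add_apply, _root_.smul_apply, smul_eq_mul] at h1
    have := (k1 w).2
    field_simp
    linear_combination -h1

end Pool.Agent.MP_cf0a82_ag

end
end

section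

open Complex Filter Topology Matrix Function

noncomputable section

namespace Pool.Agent.MP_cf0a82_ag

open Pool.Agent.MP_f58063_ag

lemma xcemb3_an {g : ℕ} (τ : Mat g) (l : Fin g → ℤ) (z : EE g) :
    AnalyticAt ℂ (fun z => aut τ l z ^ 3) z := by
  have h : ∀ i, AnalyticAt ℂ (fun z : EE g => z i) z := fun i =>
    (ContinuousLinearMap.proj (R := ℂ) (φ := fun _ : Fin g => ℂ) i).analyticAt z
  refine AnalyticAt.pow (AnalyticAt.cexp' (AnalyticAt.neg (analyticAt_const.add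
    (analyticAt_const.mul (Finset.analyticAt_fun_sum _ fun i _ =>
      analyticAt_const.mul (h i)))))) 3

/-- the theorem of Lefschetz, locally uniformly in the period matrix -/
theorem emb_tp {g : ℕ} {τ₀ : Mat g} (h0 : τ₀ ∈ Siegel g) :
    ∃ (a : ℕ) (s : Fin a → (LL g → ℚ) × (LL g → ℚ)) (O : Set (Mat g)), IsOpen O ∧ τ₀ ∈ O ∧
      Emb (Siegel g ∩ O) fun τ z j => tp (s j) τ z :=
  emb_fin (F := tp) h0 (fun _ hτ i z => tp_analytic i hτ.2 z)
    (fun τ hτ m l => ⟨fun z => aut τ l z ^ 3,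
      fun z => ⟨xcemb3_an τ l z, pow_ne_zero _ (aut_ne τ l z)⟩, fun i z => tp_per i hτ m l z⟩)
    (tp_ne h0) (fun _ _ _ h => tp_inj h0 h) fun _ _ _ h => tp_imm h0 h

end Pool.Agent.MP_cf0a82_ag

end
end
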