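import Pool.Agent.Mg.Fcf0a82q.G3d2c3a
import Pool.Agent.Mg.Fcf0a82q.G67c0ca

section

open Complex Filter Topology Matrix Function

noncomputable section

namespace Pool.Agent.MP_f58063_ag

section alg

variable {B K ι : Type} [CommRing B] [Algebra ℂ B] [Field K] [Algebra ℂ K]

/-- iterated derivations -/
def xsnashbIt (D : ι → Derivation ℂ B B) : List ι → B → B
  | [], g => g
  | i :: L, g => xsnashbIt D L (D i g)

lemma xsnashb_add (D : ι → Derivation ℂ B B) (L : List ι) :
    ∀ g h : B, xsnashbIt D L (g + h) = xsnashbIt D L g + xsnashbIt D L h := by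
  induction L with
  | nil => exact fun _ _ => rfl
  | cons i L ih => intro g h; simp only [xsnashbIt, map_add, ih]

lemma xsnashb_zero (D : ι → Derivation ℂ B B) (L : List ι) : xsnashbIt D L 0 = 0 := by
  induction L with
  | nil => rfl
  | cons i L ih => simp only [xsnashbIt, map_zero, ih]

lemma xsnashb_sum (D : ι → Derivation ℂ B B) (L : List ι) {κ : Type} (s : Finset κ) (g : κ → B) :
    xsnashbIt D L (∑ k ∈ s, g k) = ∑ k ∈ s, xsnashbIt D L (g k) := by
  classical
  induction s using Finset.induction_on with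
  | empty => simpa using xsnashb_zero D L
  | insert a s ha ih => rw [Finset.sum_insert ha, Finset.sum_insert ha, xsnashb_add, ih]

lemma xsnashb_mul (D : ι → Derivation ℂ B B) (Φ : B →ₐ[ℂ] K) (L : List ι) :
    ∀ g h : B, (∀ l : List ι, l.length < L.length → Φ (xsnashbIt D l g) = 0) →
      Φ (xsnashbIt D L (g * h)) = Φ (xsnashbIt D L g) * Φ h := by
  induction L with
  | nil => exact fun g h _ => map_mul Φ g h
  | cons i L ih =>
    intro g h hg
    have e : D i (g * h) = D i g * h + g * D i h := by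
      rw [Derivation.leibniz, smul_eq_mul, smul_eq_mul]; ring
    have h1 := ih (D i g) h fun l hl => hg (i :: l) (by simpa using hl)
    have h2 := ih g (D i h) fun l hl => hg l (by simp only [List.length_cons]; omega)
    have h3 := hg L (by simp)
    change Φ (xsnashbIt D L (D i (g * h))) = Φ (xsnashbIt D L (D i g)) * Φ h
    rw [e, xsnashb_add, map_add, h1, h2, h3, zero_mul, add_zero]

lemma xsnashb_der [DecidableEq ι] (D : ι → Derivation ℂ B B) (x : ι → B)
    (hD : ∀ i j, D i (x j) = if i = j then 1 else 0) (i : ι) (a : MvPolynomial ι ℂ) :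
    D i (MvPolynomial.aeval x a) = MvPolynomial.aeval x (MvPolynomial.pderiv i a) := by
  induction a using MvPolynomial.induction_on with
  | C c => simp
  | add P Q hP hQ => simp only [map_add, hP, hQ]
  | mul_X P j hP =>
    rw [map_mul, Derivation.leibniz, Derivation.leibniz, hP, MvPolynomial.aeval_X, hD]
    by_cases h : i = j
    · subst h; simp
    · simp [h, MvPolynomial.pderiv_X_of_ne (Ne.symm h)]

lemma xsnashb_poly [DecidableEq ι] (D : ι → Derivation ℂ B B) (x : ι → B)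
    (hD : ∀ i j, D i (x j) = if i = j then 1 else 0) (L : List ι) :
    ∀ a : MvPolynomial ι ℂ, ∃ a' : MvPolynomial ι ℂ,
      xsnashbIt D L (MvPolynomial.aeval x a) = MvPolynomial.aeval x a' := by
  induction L with
  | nil => exact fun a => ⟨a, rfl⟩
  | cons i L ih =>
    intro a
    obtain ⟨a', ha'⟩ := ih (MvPolynomial.pderiv i a)
    exact ⟨a', by rw [← ha', ← xsnashb_der D x hD]; rfl⟩

lemma xsnashb_deg (i : ι) (a : MvPolynomial ι ℂ) (h : MvPolynomial.pderiv i a ≠ 0) :
    (MvPolynomial.pderiv i a).totalDegree < a.totalDegree := by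
  classical
  obtain ⟨m, hm, e⟩ := Finset.exists_mem_eq_sup _ (MvPolynomial.support_nonempty.2 h)
    (fun s : ι →₀ ℕ => s.sum fun _ e => e)
  rw [MvPolynomial.totalDegree, e]
  rw [MvPolynomial.mem_support_iff, MvPolynomial.coeff_pderiv] at hm
  have h1 := MvPolynomial.le_totalDegree
    (MvPolynomial.mem_support_iff.2 (left_ne_zero_of_mul hm))
  rw [Finsupp.sum_add_index' (fun _ => rfl) (fun _ _ _ => rfl), Finsupp.sum_single_index rfl] at h1
  omega

lemma xsnashb_const (a : MvPolynomial ι ℂ) (h : ∀ i, MvPolynomial.pderiv i a = 0) :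
    a = MvPolynomial.C (a.coeff 0) := by
  classical
  ext s
  rw [MvPolynomial.coeff_C]
  by_cases hs : 0 = s
  · subst hs; simp
  · rw [if_neg hs]
    obtain ⟨i, hi⟩ : ∃ i, s i ≠ 0 := by
      by_contra hc
      push Not at hc
      exact hs (Finsupp.ext fun i => (hc i).symm)
    have e : s - Finsupp.single i 1 + Finsupp.single i 1 = s := by
      apply tsub_add_cancel_of_le
      rw [Finsupp.single_le_iff]
      omega
    have h1 := MvPolynomial.coeff_pderiv (i := i) a (s - Finsupp.single i 1)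
    rw [h i, e, MvPolynomial.coeff_zero] at h1
    refine (mul_eq_zero.1 h1.symm).resolve_right ?_
    exact Nat.cast_add_one_ne_zero _

lemma xsnashb_ne [DecidableEq ι] (D : ι → Derivation ℂ B B) (x : ι → B)
    (hD : ∀ i j, D i (x j) = if i = j then 1 else 0) (Φ : B →ₐ[ℂ] K) (n : ℕ) :
    ∀ a : MvPolynomial ι ℂ, a.totalDegree < n → a ≠ 0 →
      ∃ l : List ι, Φ (xsnashbIt D l (MvPolynomial.aeval x a)) ≠ 0 := by
  induction n with
  | zero => intro a h; omega
  | succ n ih =>
    intro a hn ha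
    by_cases h : ∀ i, MvPolynomial.pderiv i a = 0
    · refine ⟨[], ?_⟩
      have e := xsnashb_const a h
      have hc : a.coeff 0 ≠ 0 := fun h0 => ha (by rw [e, h0, map_zero])
      rw [e]
      change Φ (MvPolynomial.aeval x (MvPolynomial.C (a.coeff 0))) ≠ 0
      rw [MvPolynomial.aeval_C, AlgHom.commutes]
      exact (map_ne_zero _).2 hc
    · push Not at h
      obtain ⟨i, hi⟩ := h
      obtain ⟨l, hl⟩ := ih _ (by have := xsnashb_deg i a hi; omega) hi
      exact ⟨i :: l, by rw [← xsnashb_der D x hD] at hl; exact hl⟩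

lemma xsnashb_opt (x : ι → B) (f : B) (P : MvPolynomial (Option ι) ℂ) :
    MvPolynomial.aeval (fun o : Option ι => o.elim f x) P =
      (MvPolynomial.optionEquivLeft ℂ ι P).eval₂
        (MvPolynomial.aeval x : MvPolynomial ι ℂ →ₐ[ℂ] B).toRingHom f := by
  induction P using MvPolynomial.induction_on with
  | C c => simp
  | add P Q hP hQ => simp only [map_add, hP, hQ, Polynomial.eval₂_add]
  | mul_X P j hP =>
    rw [map_mul, map_mul, Polynomial.eval₂_mul, hP]
    cases j <;> simp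

/-- specialisation of an algebraic relation in a differential ring -/
lemma xsnashb_alg [DecidableEq ι] (D : ι → Derivation ℂ B B) (x : ι → B)
    (hD : ∀ i j, D i (x j) = if i = j then 1 else 0) (Φ : B →ₐ[ℂ] K) (f : B)
    {P : MvPolynomial (Option ι) ℂ} (hP : P ≠ 0)
    (h : MvPolynomial.aeval (fun o : Option ι => o.elim f x) P = 0) :
    IsAlgebraic (Algebra.adjoin ℂ (Set.range fun i => Φ (x i))) (Φ f) := by
  classical
  set Q := MvPolynomial.optionEquivLeft ℂ ι P with hQ
  have hQ0 : Q ≠ 0 := (map_ne_zero_iff _ (MvPolynomial.optionEquivLeft ℂ ι).injective).2 hP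
  rw [xsnashb_opt, ← hQ, Polynomial.eval₂_eq_sum, Polynomial.sum_def] at h
  have hex : ∃ m : ℕ, ∃ k ∈ Q.support, ∃ l : List ι, l.length = m ∧
      Φ (xsnashbIt D l (MvPolynomial.aeval x (Q.coeff k))) ≠ 0 := by
    obtain ⟨k, hk⟩ := Polynomial.support_nonempty.2 hQ0
    obtain ⟨l, hl⟩ := xsnashb_ne D x hD Φ _ _ (Nat.lt_succ_self _)
      (Polynomial.mem_support_iff.1 hk)
    exact ⟨_, k, hk, l, rfl, hl⟩
  obtain ⟨k₀, hk₀, l, hl, hne⟩ := Nat.find_spec hex
  have hmin : ∀ k ∈ Q.support, ∀ l' : List ι, l'.length < l.length →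
      Φ (xsnashbIt D l' (MvPolynomial.aeval x (Q.coeff k))) = 0 := fun k hk l' hl' => by
    by_contra hc
    exact Nat.find_min hex (hl ▸ hl') ⟨k, hk, l', rfl, hc⟩
  have hmem : ∀ k, Φ (xsnashbIt D l (MvPolynomial.aeval x (Q.coeff k))) ∈
      Algebra.adjoin ℂ (Set.range fun i => Φ (x i)) := fun k => by
    obtain ⟨a', ha'⟩ := xsnashb_poly D x hD l (Q.coeff k)
    rw [ha', Algebra.adjoin_range_eq_range_aeval]
    refine ⟨a', ?_⟩
    rw [← AlgHom.comp_apply, MvPolynomial.comp_aeval]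
    rfl
  refine ⟨∑ k ∈ Q.support, Polynomial.monomial k ⟨_, hmem k⟩, fun h0 => hne ?_, ?_⟩
  · have h1 := congrArg (fun q => q.coeff k₀) h0
    simp only [Polynomial.finsetSum_coeff, Polynomial.coeff_monomial, Finset.sum_ite_eq',
      if_pos hk₀, Polynomial.coeff_zero] at h1
    exact congrArg Subtype.val h1
  · have h1 := congrArg (fun g => Φ (xsnashbIt D l g)) h
    simp only [xsnashb_sum, xsnashb_zero, map_sum, map_zero] at h1
    rw [map_sum, ← h1]
    refine Finset.sum_congr rfl fun k hk => ?_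
    rw [Polynomial.aeval_monomial, ← map_pow]
    exact (xsnashb_mul D Φ l _ _ (hmin k hk)).symm

lemma xsnashb_trans (L : Subalgebra ℂ K) {s : Set K} (hs : ∀ x ∈ s, IsAlgebraic L x) {ω : K}
    (h : IsAlgebraic (Algebra.adjoin ℂ s) ω) : IsAlgebraic L ω :=
  alg_of_der L fun _ hw => der_alg_zero _
    (der_adjoin_zero fun x hx => der_alg_zero L hw (hs x hx)) h

lemma xsnashb_dsum {κ : Type} (s : Finset κ) (w : κ → Der K) (m : K) :
    (∑ i ∈ s, w i) m = ∑ i ∈ s, w i m := by
  classical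
  induction s using Finset.induction_on with
  | empty => simp
  | insert a s ha ih => rw [Finset.sum_insert ha, Finset.sum_insert ha, Derivation.add_apply, ih]

/-- restriction of a derivation to a stable subalgebra -/
def xsnashbRes (A : Subalgebra ℂ K) (w : Der K) (hw : ∀ a ∈ A, w a ∈ A) : Derivation ℂ A A where
  toFun a := ⟨w a, hw a a.2⟩
  map_add' a b := Subtype.ext (map_add w (a : K) b)
  map_smul' c a := Subtype.ext (w.map_smul c (a : K))
  map_one_eq_zero' := Subtype.ext w.map_one_eq_zero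
  leibniz' a b := Subtype.ext (w.leibniz (a : K) b)

end alg

variable {X Y : Type} [NormedAddCommGroup X] [NormedSpace ℂ X] [FiniteDimensional ℂ X]
  [NormedAddCommGroup Y] [NormedSpace ℂ Y] [FiniteDimensional ℂ Y]

/-- the coordinates as continuous linear forms -/
def xsnashbCo {ι : Type} (b : Module.Basis ι ℂ X) (i : ι) : X →L[ℂ] ℂ :=
  LinearMap.toContinuousLinearMap (b.coord i)

lemma xsnashb_co {ι : Type} (b : Module.Basis ι ℂ X) (i : ι) (x : X) :
    xsnashbCo b i x = b.repr x i := rfl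

lemma xsnashb_co_an {ι : Type} (b : Module.Basis ι ℂ X) (i : ι) (p : X) :
    AnalyticAt ℂ (fun x => b.repr x i) p := (xsnashbCo b i).analyticAt p

lemma xsnashb_DG {ι : Type} [DecidableEq ι] (b : Module.Basis ι ℂ X) (p : X) (i j : ι) :
    DG p (b i) (gm p fun x => b.repr x j) = if i = j then 1 else 0 := by
  rw [DG_gm _ (xsnashb_co_an b j p)]
  have e : dv (b i) (fun x => b.repr x j) = fun _ => if i = j then (1 : ℂ) else 0 := by
    funext x
    change fderiv ℂ (xsnashbCo b j) x (b i) = _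
    rw [ContinuousLinearMap.fderiv, xsnashb_co, Module.Basis.repr_self, Finsupp.single_apply]
  rw [e, gm_const]
  split_ifs <;> simp

omit [FiniteDimensional ℂ X] [FiniteDimensional ℂ Y] in
/-- pull back of analytic functions -/
def xsnashbPull {φ : Y → X} {y : Y} (hφ : AnalyticAt ℂ φ y) : OA (φ y) →ₐ[ℂ] OA y where
  toFun g := ⟨fun z => g.1 (φ z), AnalyticAt.comp (f := φ) g.2 hφ⟩
  map_one' := rfl
  map_mul' _ _ := rfl
  map_zero' := rfl
  map_add' _ _ := rfl
  commutes' _ := rfl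

/-- a composition of Nash germs is Nash -/
theorem NashAt.comp {f : X → ℂ} {φ : Y → X} {y : Y} (hf : NashAt f (φ y))
    (hφ : AnalyticAt ℂ φ y) (hN : ∀ l : X →L[ℂ] ℂ, NashAt (fun z => l (φ z)) y) :
    NashAt (fun z => f (φ z)) y := by
  classical
  let b := Module.finBasis ℂ X
  obtain ⟨P, hP, hrel⟩ := rel_of_nash b hf
  have hfφ : AnalyticAt ℂ (fun z => f (φ z)) y := AnalyticAt.comp (f := φ) hf.1 hφ
  refine ⟨hfφ, ?_⟩
  let π := (gmH (φ y)).rangeRestrict
  have hπ : Surjective π := AlgHom.rangeRestrict_surjective _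
  have hker : RingHom.ker π.toRingHom ≤ RingHom.ker ((gmH y).comp (xsnashbPull hφ)).toRingHom := by
    intro g hg
    have h1 : gmH (φ y) g = 0 := congrArg Subtype.val (RingHom.mem_ker.1 hg)
    have h2 : ∀ᶠ x in 𝓝 (φ y), g.1 x = 0 := (gm_eq_zero g.2).1 ((gm_def g.2).trans h1)
    have h3 := (gm_eq_zero (xsnashbPull hφ g).2).2 (hφ.continuousAt.eventually h2)
    exact RingHom.mem_ker.2 ((gm_def (xsnashbPull hφ g).2).symm.trans h3)
  let Φ := AlgHom.liftOfSurjective π hπ _ hker
  have hΦ : ∀ (g : X → ℂ) (hg : AnalyticAt ℂ g (φ y)),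
      Φ (π ⟨g, hg⟩) = gm y fun z => g (φ z) := fun g hg => by
    rw [AlgHom.liftOfSurjective_apply]
    exact (gm_def (AnalyticAt.comp (f := φ) hg hφ)).symm
  have hst : ∀ v : X, ∀ a ∈ (gmH (φ y)).range, DG (φ y) v a ∈ (gmH (φ y)).range := by
    rintro v _ ⟨g, rfl⟩
    refine ⟨⟨_, analyticAt_dv g.2 v⟩, ?_⟩
    have := DG_gm v g.2
    rw [gm_def g.2, gm_def (analyticAt_dv g.2 v)] at this
    exact this.symm
  have hal := xsnashb_alg (fun i => xsnashbRes _ (DG (φ y) (b i)) (hst (b i)))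
    (fun i => π ⟨fun x => b.repr x i, xsnashb_co_an b i _⟩) (fun i j => by
      apply Subtype.ext
      have := xsnashb_DG b (φ y) i j
      rw [gm_def (xsnashb_co_an b j _)] at this
      refine this.trans ?_
      split_ifs <;> rfl) Φ (π ⟨f, hf.1⟩) hP (by
      apply Subtype.ext
      have han : ∀ o : Option (Fin (Module.finrank ℂ X)),
          AnalyticAt ℂ (fun x => o.elim (f x) fun i => b.repr x i) (φ y) := fun o => by
        cases o with
        | none => exact hf.1
        | some i => exact xsnashb_co_an b i _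
      have h1 := gm_aeval han P
      have h2 := (gm_eq_zero h1.2).2 hrel
      rw [h1.1] at h2
      refine Eq.trans ?_ h2
      change (gmH (φ y)).range.val _ = _
      rw [← AlgHom.comp_apply, MvPolynomial.comp_aeval]
      congr 2
      funext o
      cases o with
      | none => exact (gm_def hf.1).symm
      | some i => exact (gm_def (xsnashb_co_an b i _)).symm)
  rw [hΦ] at hal
  refine xsnashb_trans _ ?_ hal
  rintro _ ⟨i, rfl⟩
  change IsAlgebraic _ (Φ (π ⟨_, _⟩))
  rw [hΦ]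
  exact (hN (xsnashbCo b i)).2

theorem NashAt.comp_affine {f : X → ℂ} (L : Y →L[ℂ] X) (c : X) {y : Y}
    (hf : NashAt f (L y + c)) : NashAt (fun z => f (L z + c)) y := by
  refine NashAt.comp (φ := fun z => L z + c) hf ((L.analyticAt y).add analyticAt_const)
    fun l => ?_
  simp only [map_add]
  exact (NashAt.clm (l.comp L) y).add (NashAt.const _ y)

theorem NashAt.comp_fst {f : X → ℂ} {p : X × Y} (hf : NashAt f p.1) :
    NashAt (fun z : X × Y => f z.1) p :=
  NashAt.comp (φ := fun z : X × Y => z.1) hf analyticAt_fst fun l =>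
    NashAt.clm (l.comp (ContinuousLinearMap.fst ℂ X Y)) p

/-- the inverse of a Nash map is Nash -/
theorem nash_inverse {Θ : X → Y} {Ψ : Y → X} {p : X} (hΘ : AnalyticAt ℂ Θ p)
    (hN : ∀ l : Y →L[ℂ] ℂ, NashAt (fun x => l (Θ x)) p) (hΨ : AnalyticAt ℂ Ψ (Θ p))
    (h1 : ∀ᶠ x in 𝓝 p, Ψ (Θ x) = x) (h2 : ∀ᶠ y in 𝓝 (Θ p), Θ (Ψ y) = y) (l : X →L[ℂ] ℂ) :
    NashAt (fun y => l (Ψ y)) (Θ p) := by
  classical
  have : CompleteSpace Y := FiniteDimensional.complete ℂ Y
  let b := Module.finBasis ℂ X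
  let c := Module.finBasis ℂ Y
  have hθ : ∀ j, NashAt (fun x => c.repr (Θ x) j) p := fun j => hN (xsnashbCo c j)
  have hinj : Injective (fderiv ℂ Θ p) := by
    have e1 := (hΨ.differentiableAt.hasFDerivAt.comp p hΘ.differentiableAt.hasFDerivAt).fderiv
    have e2 : fderiv ℂ (Ψ ∘ Θ) p = fderiv ℂ (fun x : X => x) p := Filter.EventuallyEq.fderiv_eq h1
    rw [e1, fderiv_fun_id] at e2
    intro u v huv
    have hu := congrArg (fun T : X →L[ℂ] X => T u) e2
    have hv := congrArg (fun T : X →L[ℂ] X => T v) e2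
    simp only [ContinuousLinearMap.comp_apply, ContinuousLinearMap.id_apply] at hu hv
    rw [← hu, ← hv, huv]
  have hal : IsAlgebraic (Algebra.adjoin ℂ (Set.range fun j => gm p fun x => c.repr (Θ x) j))
      (gm p l) := by
    refine alg_of_der _ fun w hw => ?_
    let a : Fin (Module.finrank ℂ X) → MG p := fun i => w (gm p fun x => b.repr x i)
    let w' : Der (MG p) := w - ∑ i, a i • DG p (b i)
    have hw' : ∀ m, w' m = w m - ∑ i, a i * DG p (b i) m := fun m => by
      rw [Derivation.sub_apply, xsnashb_dsum]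
      rfl
    have h0 : ∀ m ∈ LA p, w' m = 0 := by
      rw [LA_eq b p]
      refine der_adjoin_zero ?_
      rintro _ ⟨j, rfl⟩
      rw [hw']
      simp [xsnashb_DG, a]
    have ha : a = 0 := by
      refine gm_inj (fun j i => dv (b i) fun x => c.repr (Θ x) j)
        (fun j i => analyticAt_dv (hθ j).1 _) ?_ a fun j => ?_
      · filter_upwards [eventually_inj hΘ hinj, hΘ.eventually_analyticAt] with x hx hx' ξ hξ
        have e : fderiv ℂ Θ x (∑ i, ξ i • b i) = 0 := by
          apply c.repr.injective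
          ext j
          rw [map_zero, Finsupp.zero_apply, ← hξ j, map_sum, map_sum, Finsupp.finsetSum_apply]
          refine Finset.sum_congr rfl fun i _ => ?_
          have e1 := ((xsnashbCo c j).hasFDerivAt.comp x hx'.differentiableAt.hasFDerivAt).fderiv
          have e2 : dv (b i) (fun x => c.repr (Θ x) j) x = c.repr (fderiv ℂ Θ x (b i)) j :=
            congrArg (fun T : X →L[ℂ] ℂ => T (b i)) e1
          rw [e2, map_smul, map_smul, Finsupp.smul_apply, smul_eq_mul, mul_comm]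
        have e' : ∑ i, ξ i • b i = 0 := hx (e.trans (map_zero _).symm)
        exact funext (Fintype.linearIndependent_iff.1 b.linearIndependent ξ e')
      · have h3 := der_alg_zero _ h0 (hθ j).2
        rw [hw', hw _ (Algebra.subset_adjoin ⟨j, rfl⟩), zero_sub, neg_eq_zero] at h3
        rw [← h3]
        refine Finset.sum_congr rfl fun i _ => ?_
        rw [DG_gm _ (hθ j).1, mul_comm]
    have h4 := h0 (gm p l) (Algebra.subset_adjoin ⟨l, rfl⟩)
    rw [hw', ha] at h4
    simpa using h4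
  have hdep : ¬ AlgebraicIndependent ℂ (fun o : Option (Fin (Module.finrank ℂ Y)) =>
      o.elim (gm p l) fun j => gm p fun x => c.repr (Θ x) j) := fun h =>
    (AlgebraicIndependent.option_iff.1 h).2 hal
  rw [algebraicIndependent_iff] at hdep
  push Not at hdep
  obtain ⟨P, hP0, hP⟩ := hdep
  have han : ∀ o : Option (Fin (Module.finrank ℂ Y)),
      AnalyticAt ℂ (fun x => o.elim (l x) fun j => c.repr (Θ x) j) p := fun o => by
    cases o with
    | none => exact l.analyticAt p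
    | some j => exact (hθ j).1
  have h5 := gm_aeval han P
  have h6 : ∀ᶠ x in 𝓝 p,
      MvPolynomial.eval (fun o => o.elim (l x) fun j => c.repr (Θ x) j) P = 0 := by
    refine (gm_eq_zero h5.2).1 (h5.1.trans (Eq.trans ?_ hP0))
    congr 2
    funext o
    cases o <;> rfl
  have hc : Tendsto Ψ (𝓝 (Θ p)) (𝓝 p) := by
    have := hΨ.continuousAt.tendsto
    rwa [h1.self_of_nhds] at this
  refine nash_of_rel c (AnalyticAt.comp (f := Ψ) (l.analyticAt _) hΨ) hP ?_
  filter_upwards [hc.eventually h6, h2] with y hy hy'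
  rwa [hy'] at hy

end Pool.Agent.MP_f58063_ag

end
end

section

open Complex Filter Topology Matrix Function

noncomputable section

namespace Pool.Agent.MP_cf0a82_ag

open Pool.Agent.MP_f58063_ag

variable {X : Type} [NormedAddCommGroup X] [NormedSpace ℂ X] {p : X} {f f' : X → ℂ}

lemma xbnashd_pow (hf : AnalyticAt ℂ f p) (n : ℕ) : gm p (fun x => f x ^ n) = gm p f ^ n := by
  rw [gm_def hf, ← map_pow]
  exact gm_def (hf.pow n)

lemma xbnashd_lift {A L : Type} [CommRing A] [IsDomain A] [Algebra ℂ A] [Field L] [Algebra ℂ L]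
    (χ : A →ₐ[ℂ] L) (h : Injective χ) :
    ∃ Ψ : FractionRing A →ₐ[ℂ] L, ∀ a, Ψ (algebraMap A _ a) = χ a :=
  ⟨IsFractionRing.liftAlgHom h, IsFractionRing.lift_algebraMap (g := χ.toRingHom) h⟩

lemma xbnashd_hom {Y : Type} [NormedAddCommGroup Y] [NormedSpace ℂ Y] (q : X × Y) :
    ∃ Ψ : MG q.1 →ₐ[ℂ] MG q, ∀ g, AnalyticAt ℂ g q.1 → Ψ (gm q.1 g) = gm q fun y => g y.1 := by
  let φ := (gmH q).comp (xsnashbPull (φ := Prod.fst) (y := q) analyticAt_fst)
  have h0 : ∀ g : OA q.1, φ g = gm q fun y => g.1 y.1 := fun g =>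
    (gm_def (AnalyticAt.comp (f := Prod.fst) g.2 analyticAt_fst)).symm
  have h1 : ∀ g : OA q.1, φ g = 0 ↔ g ∈ OI q.1 := fun g => by
    rw [h0, gm_eq_zero (f := fun y : X × Y => g.1 y.1)
      (AnalyticAt.comp (f := Prod.fst) g.2 analyticAt_fst)]
    change _ ↔ ∀ᶠ x in 𝓝 q.1, g.1 x = 0
    rw [← map_fst_nhds, eventually_map]
  let χ : (OA q.1 ⧸ OI q.1) →ₐ[ℂ] MG q := Ideal.Quotient.liftₐ (OI q.1) φ fun g => (h1 g).2
  have h2 : Injective χ := by
    refine (injective_iff_map_eq_zero _).2 fun a ha => ?_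
    obtain ⟨g, rfl⟩ := Ideal.Quotient.mk_surjective a
    exact Ideal.Quotient.eq_zero_iff_mem.2 ((h1 g).1 ha)
  obtain ⟨Ψ, hΨ⟩ := xbnashd_lift (A := OA q.1 ⧸ OI q.1) χ h2
  refine ⟨Ψ, fun g hg => ?_⟩
  rw [gm_def hg]
  exact (hΨ _).trans (h0 ⟨g, hg⟩)

theorem nash_div (h : NashAt f p) (h' : NashAt f' p) (h0 : f' p ≠ 0) :
    NashAt (fun x => f x / f' x) p := by
  have ha : AnalyticAt ℂ (fun x => f x / f' x) p := h.1.div h'.1 h0
  have h1 : gm p f' ≠ 0 := fun e => h0 ((gm_eq_zero h'.1).1 e).self_of_nhds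
  have h2 : gm p (fun x => f x / f' x) * gm p f' = gm p f := by
    rw [← gm_mul ha h'.1, gm_eq_iff (f := fun x => f x / f' x * f' x) (ha.mul h'.1) h.1]
    exact (h'.1.continuousAt.eventually_ne h0).mono fun x hx => div_mul_cancel₀ _ hx
  refine ⟨ha, ?_⟩
  rw [eq_div_of_mul_eq h1 h2, div_eq_mul_inv]
  exact h.2.mul h'.2.inv

theorem nash_prod {ι : Type} (s : Finset ι) {F : ι → X → ℂ} (h : ∀ i ∈ s, NashAt (F i) p) :
    NashAt (fun x => ∏ i ∈ s, F i x) p := by
  classical
  induction s using Finset.induction_on with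
  | empty => simpa using NashAt.const 1 p
  | insert a s ha ih =>
    simp only [Finset.prod_insert ha]
    exact (h a (Finset.mem_insert_self a s)).mul (ih fun i hi => h i (Finset.mem_insert_of_mem hi))

theorem nash_ev [FiniteDimensional ℂ X] (h : NashAt f p) : ∀ᶠ x in 𝓝 p, NashAt f x := by
  obtain ⟨P, hP, h1⟩ := rel_of_nash (Module.finBasis ℂ X) h
  filter_upwards [h.1.eventually_analyticAt, h1.eventually_nhds] with x h2 h3
  exact nash_of_rel _ h2 hP h3

theorem nash_pi {ι : Type} [Fintype ι] {F : X → ι → ℂ} (h : ∀ i, NashAt (fun x => F x i) p)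
    (l : (ι → ℂ) →L[ℂ] ℂ) : NashAt (fun x => l (F x)) p := by
  classical
  have e : (fun x => l (F x)) = fun x => ∑ i, F x i * l (Pi.single i 1) := funext fun x => by
    conv_lhs => rw [pi_eq_sum_univ' (F x), map_sum]
    simp only [map_smul, smul_eq_mul]
  rw [e]
  exact NashAt.sum _ fun i _ => (h i).mul (NashAt.const _ p)

theorem nash_pair {Y Z : Type} [NormedAddCommGroup Y] [NormedSpace ℂ Y] [NormedAddCommGroup Z]
    [NormedSpace ℂ Z] {F : X → Y} {G : X → Z}
    (hF : ∀ l : Y →L[ℂ] ℂ, NashAt (fun x => l (F x)) p)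
    (hG : ∀ l : Z →L[ℂ] ℂ, NashAt (fun x => l (G x)) p) (l : Y × Z →L[ℂ] ℂ) :
    NashAt (fun x => l (F x, G x)) p := by
  have := (hF (l.comp (ContinuousLinearMap.inl ℂ Y Z))).add
    (hG (l.comp (ContinuousLinearMap.inr ℂ Y Z)))
  simpa [← map_add] using this

theorem alg_pull [FiniteDimensional ℂ X] {Y : Type} [NormedAddCommGroup Y] [NormedSpace ℂ Y]
    [FiniteDimensional ℂ Y] {q : X × Y} {h t : X → ℂ} (hh : AnalyticAt ℂ h q.1)
    (ht : AnalyticAt ℂ t q.1) (h0 : gm q.1 t ≠ 0)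
    (ha : IsAlgebraic (LA q.1) (gm q.1 h / gm q.1 t)) :
    gm q (fun y => t y.1) ≠ 0 ∧
      IsAlgebraic (LA q) (gm q (fun y => h y.1) / gm q fun y => t y.1) := by
  obtain ⟨Ψ, hΨ⟩ := xbnashd_hom q
  rw [← hΨ h hh, ← hΨ t ht, ← map_div₀]
  have hL : ∀ x : LA q.1, Ψ x ∈ LA q := fun x => by
    have : LA q.1 ≤ (LA q).comap Ψ := Algebra.adjoin_le (by
      rintro _ ⟨l, rfl⟩
      change Ψ (gm q.1 l) ∈ LA q
      rw [hΨ l (l.analyticAt _)]
      exact Algebra.subset_adjoin ⟨l.comp (ContinuousLinearMap.fst ℂ X Y), rfl⟩)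
    exact this x.2
  exact ⟨(map_ne_zero Ψ).2 h0, ha.ringHom_of_comp_eq
    ((Ψ.comp (LA q.1).val).codRestrict (LA q) hL) Ψ
    (fun x y e => Subtype.ext (Ψ.injective (congrArg Subtype.val e))) (RingHom.ext fun _ => rfl)⟩

theorem nash_of_coef (hf : AnalyticAt ℂ f p) {D : ℕ} {A : Fin (D + 1) → X → ℂ} {t : X → ℂ}
    (hA : ∀ j, AnalyticAt ℂ (A j) p) (ht : AnalyticAt ℂ t p) (h0 : gm p t ≠ 0)
    (ha : ∀ j, IsAlgebraic (LA p) (gm p (A j) / gm p t)) (hne : ∃ j, gm p (A j) ≠ 0)
    (h : ∀ᶠ x in 𝓝 p, ∑ j, A j x * f x ^ (j : ℕ) = 0) : NashAt f p := by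
  refine ⟨hf, xsnashb_trans (s := Set.range fun j => gm p (A j) / gm p t) _
    (by rintro _ ⟨j, rfl⟩; exact ha j) ⟨∑ j : Fin (D + 1), Polynomial.monomial j
      ⟨gm p (A j) / gm p t, Algebra.subset_adjoin ⟨j, rfl⟩⟩, fun e => ?_, ?_⟩⟩
  · obtain ⟨j, hj⟩ := hne
    have h1 := congrArg (fun P => (Polynomial.coeff P j).1) e
    simp only [Polynomial.finsetSum_coeff, Polynomial.coeff_monomial, Fin.val_inj,
      Finset.sum_ite_eq', Finset.mem_univ, if_true] at h1
    exact div_ne_zero hj h0 h1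
  · have h1 : ∀ j : Fin (D + 1), AnalyticAt ℂ (fun x => A j x * f x ^ (j : ℕ)) p :=
      fun j => (hA j).mul (hf.pow _)
    have h2 := (gm_eq_zero (Finset.analyticAt_fun_sum Finset.univ fun j _ => h1 j)).2 h
    rw [gm_sum _ fun j _ => h1 j] at h2
    rw [map_sum, ← zero_div (gm p t), ← h2, Finset.sum_div]
    refine Finset.sum_congr rfl fun j _ => ?_
    rw [Polynomial.aeval_monomial, gm_mul (f' := fun x => f x ^ (j : ℕ)) (hA j) (hf.pow _),
      xbnashd_pow hf, mul_div_right_comm]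
    rfl

/-- a relation whose coefficients are algebraic over the base -/
theorem nash_of_fam [FiniteDimensional ℂ X] {κ : Type} [Fintype κ] [DecidableEq κ]
    {q : X × (κ → ℂ)} {f : X × (κ → ℂ) → ℂ} (hf : AnalyticAt ℂ f q) {s : ℕ}
    {c : (Option κ → Fin (s + 1)) → X → ℂ} (hc : ∀ μ, AnalyticAt ℂ (c μ) q.1)
    {μ₀ : Option κ → Fin (s + 1)} (h0 : gm q.1 (c μ₀) ≠ 0)
    (ha : ∀ μ, IsAlgebraic (LA q.1) (gm q.1 (c μ) / gm q.1 (c μ₀)))
    (h : ∀ᶠ y in 𝓝 q, ∑ μ, c μ y.1 * ∏ i, (Option.elim i (f y) y.2) ^ (μ i : ℕ) = 0) :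
    NashAt f q := by
  have hc' : ∀ μ, AnalyticAt ℂ (fun y : X × (κ → ℂ) => c μ y.1) q := fun μ =>
    AnalyticAt.comp (f := Prod.fst) (hc μ) analyticAt_fst
  have hm : ∀ μ : Option κ → Fin (s + 1),
      NashAt (fun y : X × (κ → ℂ) => ∏ i, y.2 i ^ (μ (some i) : ℕ)) q := fun μ =>
    nash_prod _ fun i _ => by
      simpa using nash_prod (Finset.range (μ (some i))) fun _ _ =>
        NashAt.clm ((ContinuousLinearMap.proj i).comp (ContinuousLinearMap.snd ℂ X (κ → ℂ))) q
  have h1 : ∀ μ, AnalyticAt ℂ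
      (fun y : X × (κ → ℂ) => c μ y.1 * ∏ i, y.2 i ^ (μ (some i) : ℕ)) q :=
    fun μ => (hc' μ).mul (hm μ).1
  have hA : ∀ j, AnalyticAt ℂ (fun y : X × (κ → ℂ) => ∑ μ with μ none = j,
      c μ y.1 * ∏ i, y.2 i ^ (μ (some i) : ℕ)) q :=
    fun j => Finset.analyticAt_fun_sum _ fun μ _ => h1 μ
  refine nash_of_coef hf hA (hc' μ₀) (alg_pull (hc μ₀) (hc μ₀) h0 (ha μ₀)).1 (fun j => ?_)
    ⟨μ₀ none, fun e => h0 ((gm_eq_zero (hc μ₀)).2 ?_)⟩ (h.mono fun y hy => ?_)
  · rw [gm_sum _ fun μ _ => h1 μ, Finset.sum_div]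
    refine (xsnashaCl (LA q)).sum_mem fun μ _ => ?_
    rw [gm_mul (hc' μ) (hm μ).1, mul_div_right_comm]
    exact (alg_pull (hc μ) (hc μ₀) h0 (ha μ)).2.mul (hm μ).2
  · refine ((gm_eq_zero (hA _)).1 e).curry_nhds.mono fun x hx => ?_
    let m : (Option κ → Fin (s + 1)) → κ →₀ ℕ :=
      fun μ => Finsupp.equivFunOnFinite.symm fun i => μ (some i)
    have e1 : ∀ w : κ → ℂ, MvPolynomial.eval w
        (∑ μ with μ none = μ₀ none, MvPolynomial.monomial (m μ) (c μ x)) =
          ∑ μ with μ none = μ₀ none, c μ x * ∏ i, w i ^ (μ (some i) : ℕ) := fun w => by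
      simp [m, MvPolynomial.eval_monomial, Finsupp.prod_fintype]
    have e2 := entire_zero (f := fun w : κ → ℂ =>
      ∑ μ with μ none = μ₀ none, c μ x * ∏ i, w i ^ (μ (some i) : ℕ))
      (fun w => Finset.analyticAt_fun_sum _ fun μ _ => analyticAt_const.mul
        (Finset.analyticAt_fun_prod _ fun i _ => (analyticAt_pi_iff.1 analyticAt_id i).pow _)) hx
    have e3 := congrArg (MvPolynomial.coeff (m μ₀)) (MvPolynomial.funext
      (q := 0) fun w => (e1 w).trans ((congrFun e2 w).trans (map_zero _).symm))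
    rw [MvPolynomial.coeff_sum, Finset.sum_eq_single μ₀] at e3
    · simpa using e3
    · intro μ hμ hne
      rw [MvPolynomial.coeff_monomial, if_neg]
      refine fun e4 => hne (funext fun o => ?_)
      rcases o with _ | i
      · exact (Finset.mem_filter.1 hμ).2
      · exact Fin.ext (DFunLike.congr_fun e4 i)
    · simp
  · rw [← hy, ← Finset.sum_fiberwise Finset.univ fun μ : Option κ → Fin (s + 1) => μ none]
    refine Finset.sum_congr rfl fun j _ => ?_
    rw [Finset.sum_mul]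
    refine Finset.sum_congr rfl fun μ hμ => ?_
    rw [Fintype.prod_option, ← (Finset.mem_filter.1 hμ).2]
    simp only [Option.elim]
    ring

end Pool.Agent.MP_cf0a82_ag

end
end
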