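import Pool.Agent.Mg.Fcf0a82q.Ga9bf1b
import Pool.Agent.Mg.Fcf0a82q.Ge1829e
import Pool.Agent.Mg.Fcf0a82q.G446bd4

section

open Complex Filter Topology Matrix Function

noncomputable section

namespace Pool.Agent.MP_f58063_ag

variable {g : ℕ}

lemma xsids_line {τ B : Mat g} (hτ : τ ∈ Siegel g) (hB : ∀ i j, B i j = B j i) :
    Tendsto (fun t : ℂ => τ + t • B) (𝓝 0) (𝓝[Siegel g] τ) := by
  have h1 : Tendsto (fun t : ℂ => τ + t • B) (𝓝 0) (𝓝 τ) := by
    have : Continuous fun t : ℂ => τ + t • B := by fun_prop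
    simpa using this.tendsto 0
  refine tendsto_nhdsWithin_iff.2 ⟨h1, ?_⟩
  filter_upwards [h1.eventually (isOpen_PosIm.mem_nhds (Siegel_sub hτ))] with t ht
  refine ⟨fun i j => ?_, ht⟩
  simp only [Pi.add_apply, Pi.smul_apply, hτ.1 i j, hB i j]

lemma xsids_seg {τ₁ τ : Mat g} (h1 : τ₁ ∈ Siegel g) (h : τ ∈ Siegel g) {t : ℝ} (h0 : 0 ≤ t)
    (ht : t ≤ 1) : τ₁ + (t : ℂ) • (τ - τ₁) ∈ Siegel g := by
  refine ⟨fun i j => ?_, fun v hv => ?_⟩
  · simp only [Pi.add_apply, Pi.smul_apply, Pi.sub_apply, h1.1 i j, h.1 i j]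
  · have a := h1.2 v hv
    have b := h.2 v hv
    have e : ∑ i, ∑ j, v i * ((τ₁ + (t : ℂ) • (τ - τ₁)) i j).im * v j =
        (1 - t) * (∑ i, ∑ j, v i * (τ₁ i j).im * v j) +
          t * ∑ i, ∑ j, v i * (τ i j).im * v j := by
      simp only [Finset.mul_sum, ← Finset.sum_add_distrib]
      refine Finset.sum_congr rfl fun i _ => Finset.sum_congr rfl fun j _ => ?_
      simp only [Pi.add_apply, Pi.smul_apply, Pi.sub_apply, smul_eq_mul, add_im, mul_im,
        ofReal_re, ofReal_im, sub_im, zero_mul, add_zero]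
      ring
    rw [e]
    rcases eq_or_lt_of_le h0 with h2 | h2
    · rw [← h2]
      simpa using a
    · have := mul_pos h2 b
      have := mul_nonneg (sub_nonneg.2 ht) a.le
      linarith

lemma xsids_der {F : Mat g → ℂ} {τ : Mat g} (hF : AnalyticAt ℂ F τ) (B : Mat g) :
    HasDerivAt (fun t : ℂ => F (τ + t • B)) (fderiv ℂ F τ B) 0 := by
  have h1 : HasDerivAt (fun t : ℂ => τ + t • B) B 0 := by
    simpa using ((hasDerivAt_id (0 : ℂ)).smul_const B).const_add τ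
  have h2 : HasFDerivAt F (fderiv ℂ F τ) (τ + (0 : ℂ) • B) := by
    simpa using hF.differentiableAt.hasFDerivAt
  exact h2.comp_hasDerivAt (0 : ℂ) h1

theorem entire_zero_of_rat {f : EE g → ℂ} (hf : ∀ z, AnalyticAt ℂ f z)
    (h : ∀ q : Fin g → ℚ, f (fun i => (q i : ℂ)) = 0) : f = 0 := by
  classical
  have key : ∀ s : Finset (Fin g), ∀ z : EE g, (∀ i ∉ s, ∃ q : ℚ, z i = q) → f z = 0 := by
    intro s
    induction s using Finset.induction_on with
    | empty =>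
      intro z hz
      choose q hq using fun i => hz i (Finset.notMem_empty i)
      rw [show z = fun i => (q i : ℂ) from funext hq]
      exact h q
    | insert a s ha ih =>
      intro z hz
      have an : AnalyticOnNhd ℂ (fun w : ℂ => f (update z a w)) Set.univ := by
        intro w _
        refine (hf _).comp (f := fun w : ℂ => update z a w) (analyticAt_pi_iff.2 fun i => ?_)
        by_cases hi : i = a
        · subst hi
          simp only [update_self]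
          exact analyticAt_id
        · simpa [update_of_ne hi] using analyticAt_const
      have hq : ∀ q : ℚ, f (update z a q) = 0 := by
        intro q
        refine ih _ fun i hi => ?_
        by_cases hia : i = a
        · subst hia
          exact ⟨q, by simp⟩
        · rw [update_of_ne hia]
          exact hz i (by simp [hia, hi])
      have hfr : ∃ᶠ w in 𝓝[≠] (0 : ℂ), f (update z a w) = 0 := by
        have ht : Tendsto (fun n : ℕ => 1 / ((n : ℂ) + 1)) atTop (𝓝[≠] 0) := by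
          refine tendsto_nhdsWithin_iff.2 ⟨tendsto_one_div_add_atTop_nhds_zero_nat, ?_⟩
          refine Eventually.of_forall fun n => ?_
          exact one_div_ne_zero (Nat.cast_add_one_ne_zero n)
        refine ht.frequently (Eventually.of_forall fun n => ?_).frequently
        have := hq (1 / ((n : ℚ) + 1))
        simpa using this
      have := an.eqOn_zero_of_preconnected_of_frequently_eq_zero isPreconnected_univ
        (Set.mem_univ 0) hfr (Set.mem_univ (z a))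
      simpa using this
  funext z
  exact key Finset.univ z fun i hi => absurd (Finset.mem_univ i) hi

theorem siegel_id {F : Mat g → ℂ} (hF : AnalyticOnNhd ℂ F (Siegel g)) {τ₁ : Mat g}
    (h1 : τ₁ ∈ Siegel g) (h : ∀ᶠ τ in 𝓝[Siegel g] τ₁, F τ = 0) : ∀ τ ∈ Siegel g, F τ = 0 := by
  intro τ hτ
  have hB : ∀ i j, (τ - τ₁) i j = (τ - τ₁) j i := fun i j => by
    simp only [Pi.sub_apply, h1.1 i j, hτ.1 i j]
  have hT : IsPreconnected ((fun t : ℝ => (t : ℂ)) '' Set.Icc 0 1) :=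
    isPreconnected_Icc.image _ continuous_ofReal.continuousOn
  have an : AnalyticOnNhd ℂ (fun s : ℂ => F (τ₁ + s • (τ - τ₁)))
      ((fun t : ℝ => (t : ℂ)) '' Set.Icc 0 1) := by
    rintro _ ⟨t, ht, rfl⟩
    exact (hF _ (xsids_seg h1 hτ ht.1 ht.2)).comp (f := fun s : ℂ => τ₁ + s • (τ - τ₁))
      (analyticAt_const.add (analyticAt_id.smul analyticAt_const))
  have h0 : (fun s : ℂ => F (τ₁ + s • (τ - τ₁))) =ᶠ[𝓝 0] 0 := (xsids_line h1 hB).eventually h
  have := an.eqOn_zero_of_preconnected_of_eventuallyEq_zero hT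
    ⟨0, ⟨le_rfl, zero_le_one⟩, ofReal_zero⟩ h0 ⟨1, ⟨zero_le_one, le_rfl⟩, ofReal_one⟩
  simpa using this

theorem mfd_id {S : Set (Mat g)} {d : ℕ} (hS : IsMfd S d) {F : Mat g → ℂ}
    (hF : AnalyticOnNhd ℂ F S) {τ₁ : Mat g} (h1 : τ₁ ∈ S) (h : ∀ᶠ τ in 𝓝[S] τ₁, F τ = 0) :
    ∀ τ ∈ S, F τ = 0 := by
  set u : Set (Mat g) := {τ | ∀ᶠ σ in 𝓝 τ, σ ∈ S → F σ = 0} with hu
  set v : Set (Mat g) := {τ | ∀ᶠ σ in 𝓝 τ, σ ∈ S → σ ∉ u} with hv
  have hc : S ⊆ u ∪ v := by
    intro τ hτ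
    obtain ⟨f, h0, ha, -, hm⟩ := hS.2 τ hτ
    have e1 : ∀ᶠ x in 𝓝 (0 : Fin d → ℂ), f x ∈ S := by
      have : S ∈ map f (𝓝 0) := hm ▸ self_mem_nhdsWithin
      exact this
    obtain ⟨r, hr, hb⟩ := Metric.eventually_nhds_iff_ball.1 (ha.eventually_analyticAt.and e1)
    by_cases hx : ∃ x ∈ Metric.ball (0 : Fin d → ℂ) r, f x ∈ u
    · obtain ⟨x, hx, hxu⟩ := hx
      have an : AnalyticOnNhd ℂ (fun y => F (f y)) (Metric.ball 0 r) := fun y hy =>
        (hF _ (hb y hy).2).comp (hb y hy).1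
      have e2 : (fun y => F (f y)) =ᶠ[𝓝 x] 0 := by
        filter_upwards [(hb x hx).1.continuousAt.eventually hxu,
          Metric.isOpen_ball.mem_nhds hx] with y h2 h3
        exact h2 (hb y h3).2
      have e3 := an.eqOn_zero_of_preconnected_of_eventuallyEq_zero
        (convex_ball (0 : Fin d → ℂ) r).isPreconnected hx e2
      refine Or.inl (eventually_nhdsWithin_iff.1 ?_)
      rw [← hm, eventually_map]
      filter_upwards [Metric.ball_mem_nhds (0 : Fin d → ℂ) hr] with y hy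
      exact e3 hy
    · refine Or.inr (eventually_nhdsWithin_iff.1 ?_)
      rw [← hm, eventually_map]
      filter_upwards [Metric.ball_mem_nhds (0 : Fin d → ℂ) hr] with y hy
      exact fun h2 => hx ⟨y, hy, h2⟩
  intro τ hτ
  rcases hc hτ with h2 | h2
  · exact h2.self_of_nhds hτ
  · obtain ⟨σ, hσ, h3, h4⟩ := hS.1 u v isOpen_setOfPred_eventually_nhds
      isOpen_setOfPred_eventually_nhds
      hc ⟨τ₁, h1, eventually_nhdsWithin_iff.1 h⟩ ⟨τ, hτ, h2⟩
    exact absurd h3 (h4.self_of_nhds hσ)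

theorem fderiv_siegel {F F' : Mat g → ℂ} {τ : Mat g} (hτ : τ ∈ Siegel g) (hF : AnalyticAt ℂ F τ)
    (hF' : AnalyticAt ℂ F' τ) (h : ∀ᶠ σ in 𝓝[Siegel g] τ, F σ = F' σ) {B : Mat g}
    (hB : ∀ i j, B i j = B j i) : fderiv ℂ F τ B = fderiv ℂ F' τ B := by
  have e : (fun t : ℂ => F (τ + t • B)) =ᶠ[𝓝 0] fun t : ℂ => F' (τ + t • B) :=
    (xsids_line hτ hB).eventually h
  exact ((xsids_der hF B).congr_of_eventuallyEq e.symm).unique (xsids_der hF' B)

theorem chain_act (γ : Sp g) {F F' : Mat g → ℂ} {τ : Mat g} (hτ : τ ∈ Siegel g)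
    (hF : AnalyticAt ℂ F (act γ τ)) (hF' : AnalyticAt ℂ F' τ)
    (h : ∀ᶠ σ in 𝓝[Siegel g] τ, F (act γ σ) = F' σ) {B : Mat g} (hB : ∀ i j, B i j = B j i) :
    fderiv ℂ F (act γ τ) (Matrix.of.symm ((jac γ τ)⁻¹ᵀ * Matrix.of B * (jac γ τ)⁻¹)) =
      fderiv ℂ F' τ B := by
  have ha := act_analytic γ hτ
  rw [← fderiv_siegel (F := fun σ => F (act γ σ)) hτ (hF.comp ha) hF' h hB, ← act_fderiv γ hτ B]
  exact (congrArg (fun L => L B)
    (fderiv_comp τ hF.differentiableAt ha.differentiableAt)).symm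

/-- the tangent vectors of a map into the Siegel space are symmetric -/
theorem fderiv_symm {X : Type} [NormedAddCommGroup X] [NormedSpace ℂ X] {ψ : X → Mat g} {x : X}
    (hψ : AnalyticAt ℂ ψ x) (h : ∀ᶠ y in 𝓝 x, ψ y ∈ Siegel g) (ξ : X) (i j : Fin g) :
    fderiv ℂ ψ x ξ i j = fderiv ℂ ψ x ξ j i := by
  have hd : ∀ a b : Fin g, HasFDerivAt (fun y => ψ y a b)
      (((ContinuousLinearMap.proj b : (Fin g → ℂ) →L[ℂ] ℂ).comp
        (ContinuousLinearMap.proj a : Mat g →L[ℂ] (Fin g → ℂ))).comp (fderiv ℂ ψ x)) x :=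
    fun a b => ((ContinuousLinearMap.proj b : (Fin g → ℂ) →L[ℂ] ℂ).comp
      (ContinuousLinearMap.proj a : Mat g →L[ℂ] (Fin g → ℂ))).hasFDerivAt.comp x
        hψ.differentiableAt.hasFDerivAt
  have e : (fun y => ψ y j i) =ᶠ[𝓝 x] fun y => ψ y i j := h.mono fun y hy => hy.1 j i
  exact congrArg (fun L => L ξ) (((hd i j).congr_of_eventuallyEq e).unique (hd j i))

end Pool.Agent.MP_f58063_ag

end
end

section

open Complex Filter Topology Matrix Function

noncomputable section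

namespace Pool.Agent.MP_f58063_ag

section

open MeasureTheory

variable {g : ℕ}

/-- a unit cube -/
def xsuniqQ (a : Fin g → ℝ) : Set (Fin g → ℝ) := {x | ∀ i, x i ∈ Set.Ioc (a i) (a i + 1)}

/-- a real vector as a complex vector -/
def xsuniqC (x : Fin g → ℝ) : EE g := fun i => (x i : ℂ)

lemma xsuniq_cont : Continuous (xsuniqC (g := g)) := by
  unfold xsuniqC
  fun_prop

lemma xsuniq_sub : xsuniqQ (0 : Fin g → ℝ) ⊆ Metric.closedBall 0 1 := by
  intro x hx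
  rw [mem_closedBall_zero_iff, pi_norm_le_iff_of_nonneg zero_le_one]
  intro i
  have h := hx i
  simp only [Pi.zero_apply, zero_add, Set.mem_Ioc] at h
  rw [Real.norm_eq_abs, abs_of_pos h.1]
  exact h.2

lemma xsuniq_meas : MeasurableSet (xsuniqQ (0 : Fin g → ℝ)) :=
  MeasurableSet.univ_pi' fun _ => measurableSet_Ioc

lemma xsuniq_int {E : Type} [NormedAddCommGroup E] {f : (Fin g → ℝ) → E} (hf : Continuous f) :
    IntegrableOn f (xsuniqQ 0) :=
  (hf.continuousOn.integrableOn_compact (isCompact_closedBall 0 1)).mono_set xsuniq_sub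

/-- a periodic function descends to the torus -/
lemma xsuniq_lift {f : (Fin g → ℝ) → ℂ} (hf : Continuous f)
    (hp : ∀ (m : Fin g → ℤ) x, f (x + fun i => (m i : ℝ)) = f x) :
    ∃ G : C(UnitAddTorus (Fin g), ℂ), ∀ x : Fin g → ℝ, G (fun i => x i) = f x := by
  choose r hr using fun t : UnitAddCircle => QuotientAddGroup.mk_surjective t
  have h1 : ∀ x : Fin g → ℝ, f (fun i => r (x i)) = f x := by
    intro x
    have h2 : ∀ i, ∃ m : ℤ, r (x i) = x i + m := by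
      intro i
      obtain ⟨m, hm⟩ := AddSubgroup.mem_zmultiples_iff.1 (QuotientAddGroup.eq.1 (hr (x i)).symm)
      refine ⟨m, ?_⟩
      rw [zsmul_eq_mul, mul_one] at hm
      linarith
    choose m hm using h2
    rw [← hp m x]
    exact congrArg f (funext hm)
  have hq : IsOpenQuotientMap (Pi.map fun (_ : Fin g) (x : ℝ) => (x : UnitAddCircle)) :=
    IsOpenQuotientMap.piMap fun _ => QuotientAddGroup.isOpenQuotientMap_mk
  refine ⟨⟨fun t => f fun i => r (t i), hq.isQuotientMap.continuous_iff.2 ?_⟩, h1⟩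
  exact hf.congr fun x => (h1 x).symm

lemma xsuniq_shift {f : (Fin g → ℝ) → ℂ} (hf : Continuous f)
    (hp : ∀ (m : Fin g → ℤ) x, f (x + fun i => (m i : ℝ)) = f x) (u : Fin g → ℝ) :
    ∫ x in xsuniqQ 0, f (x + u) = ∫ x in xsuniqQ 0, f x := by
  obtain ⟨G, hG⟩ := xsuniq_lift hf hp
  have h1 := (UnitAddTorus.integral_preimage G u).symm.trans (UnitAddTorus.integral_preimage G 0)
  simp only [hG] at h1
  have h2 := (measurePreserving_add_right (volume : Measure (Fin g → ℝ)) u).setIntegral_preimage_emb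
    (measurableEmbedding_addRight u) f (xsuniqQ u)
  have h3 : (fun x => x + u) ⁻¹' xsuniqQ u = xsuniqQ 0 := by
    ext x
    simp only [xsuniqQ, Set.mem_preimage, Set.mem_ofPred_eq, Pi.add_apply, Set.mem_Ioc,
      Pi.zero_apply, zero_add]
    refine forall_congr' fun i => ⟨fun h => ⟨by linarith [h.1], by linarith [h.2]⟩,
      fun h => ⟨by linarith [h.1], by linarith [h.2]⟩⟩
  rw [h3] at h2
  exact h2.trans h1

lemma xsuniq_diff {h : EE g → ℂ} (ha : ∀ z, AnalyticAt ℂ h z) :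
    Differentiable ℂ fun z => ∫ x in xsuniqQ 0, h (xsuniqC x + z) := by
  intro z₀
  have hc : Continuous h := continuous_iff_continuousAt.2 fun z => (ha z).continuousAt
  have hc' : Continuous (fderiv ℂ h) :=
    continuous_iff_continuousAt.2 fun z => (ha z).fderiv.continuousAt
  have hK : IsCompact (Metric.closedBall (0 : Fin g → ℝ) 1 ×ˢ Metric.closedBall z₀ 1) :=
    (isCompact_closedBall 0 1).prod (isCompact_closedBall z₀ 1)
  obtain ⟨C, hC⟩ := hK.exists_bound_of_continuousOn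
    (f := fun p : (Fin g → ℝ) × EE g => fderiv ℂ h (xsuniqC p.1 + p.2))
    (hc'.comp ((xsuniq_cont.comp continuous_fst).add continuous_snd)).continuousOn
  refine (hasFDerivAt_integral_of_dominated_of_fderiv_le (𝕜 := ℂ)
    (μ := volume.restrict (xsuniqQ 0)) (F := fun z x => h (xsuniqC x + z))
    (F' := fun z x => fderiv ℂ h (xsuniqC x + z)) (bound := fun _ => C)
    (Metric.closedBall_mem_nhds z₀ one_pos) (Eventually.of_forall fun z => ?_) ?_ ?_ ?_ ?_
    (Eventually.of_forall fun x z _ => ?_)).differentiableAt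
  · exact (hc.comp (xsuniq_cont.add continuous_const)).aestronglyMeasurable
  · exact xsuniq_int (hc.comp (xsuniq_cont.add continuous_const))
  · exact (hc'.comp (xsuniq_cont.add continuous_const)).aestronglyMeasurable
  · filter_upwards [ae_restrict_mem xsuniq_meas] with x hx z hz
    exact hC (x, z) ⟨xsuniq_sub hx, hz⟩
  · exact xsuniq_int continuous_const
  · have h1 := (ha (xsuniqC x + z)).differentiableAt.hasFDerivAt.comp z
      ((hasFDerivAt_id z).const_add (xsuniqC x))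
    rwa [ContinuousLinearMap.comp_id] at h1

lemma xsuniq_const {A : EE g → ℂ} (hA : Differentiable ℂ A)
    (hp : ∀ z u, A (z + xsuniqC u) = A z) (z : EE g) : A z = A 0 := by
  refine is_const_of_fderiv_eq_zero hA (fun w => ?_) z 0
  have h1 : ∀ i, fderiv ℂ A w (ee i) = 0 := by
    intro i
    have h2 : HasDerivAt (fun s : ℂ => A (w + s • ee i)) (fderiv ℂ A w (ee i)) ((0 : ℝ) : ℂ) := by
      have h3 : HasDerivAt (fun s : ℂ => w + s • ee i) (ee i) ((0 : ℝ) : ℂ) := by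
        simpa using ((hasDerivAt_id ((0 : ℝ) : ℂ)).smul_const (ee i)).const_add w
      refine HasFDerivAt.comp_hasDerivAt_of_eq _ (hA w).hasFDerivAt h3 (by simp)
    have h4 := h2.comp_ofReal
    have h5 : (fun t : ℝ => A (w + (t : ℂ) • ee i)) = fun _ => A w := by
      funext t
      rw [← hp w (Pi.single i t)]
      congr 2
      funext j
      by_cases hj : j = i
      · subst hj
        simp [xsuniqC]
      · simp [xsuniqC, hj]
    rw [h5] at h4
    exact h4.unique (hasDerivAt_const _ _)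
  ext1 v
  rw [fderiv_eq_sum]
  simp [dv_apply, h1]

lemma xsuniq_per {τ : Mat g} {h : EE g → ℂ} (hh : h ∈ Th τ 1) (m : Fin g → ℤ) (x : Fin g → ℝ)
    (z : EE g) : h (xsuniqC (x + fun i => (m i : ℝ)) + z) = h (xsuniqC x + z) := by
  have h1 := hh.2 m 0 (xsuniqC x + z)
  have h2 : aut τ 0 (xsuniqC x + z) = 1 := by simp [aut]
  rw [h2, one_pow, one_mul] at h1
  rw [← h1]
  congr 1
  funext i
  simp [xsuniqC, per]
  ring

lemma xsuniq_zero {τ : Mat g} {h : EE g → ℂ} (hh : h ∈ Th τ 1)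
    (h0 : ∫ x in xsuniqQ 0, h (xsuniqC x) = 0) : h = 0 := by
  have hc : Continuous h := continuous_iff_continuousAt.2 fun z => (hh.1 z).continuousAt
  have hA : ∀ z, ∫ x in xsuniqQ 0, h (xsuniqC x + z) = 0 := by
    intro z
    rw [xsuniq_const (xsuniq_diff hh.1) (fun w u => ?_) z]
    · simpa only [add_zero] using h0
    · rw [← xsuniq_shift (f := fun x => h (xsuniqC x + w))
        (hc.comp (xsuniq_cont.add continuous_const)) (fun m x => xsuniq_per hh m x w) u]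
      congr 1
      funext x
      congr 1
      funext i
      simp [xsuniqC]
      ring
  obtain ⟨G, hG⟩ := xsuniq_lift (f := fun x => h (xsuniqC x)) (hc.comp xsuniq_cont)
    (fun m x => by simpa only [add_zero] using xsuniq_per hh m x 0)
  have hco : UnitAddTorus.mFourierCoeff G = fun _ => (0 : ℂ) := by
    funext n
    rw [UnitAddTorus.mFourierCoeff_eq_integral G n 0]
    have h1 := hA (per τ 0 n)
    have h2 : ∀ x : Fin g → ℝ, UnitAddTorus.mFourier (-n) (fun i => (x i : UnitAddCircle)) •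
        G (fun i => x i) = exp (Real.pi * I * ∑ i, ∑ j, (n i : ℂ) * τ i j * n j) *
          h (xsuniqC x + per τ 0 n) := by
      intro x
      rw [hG, hh.2, pow_one, ← mul_assoc, smul_eq_mul]
      congr 1
      simp only [UnitAddTorus.mFourier, ContinuousMap.coe_mk, fourier_coe_apply, ← exp_sum, aut,
        ← exp_add, xsuniqC]
      congr 1
      rw [neg_add, add_neg_cancel_left]
      simp only [Pi.neg_apply, Int.cast_neg, ofReal_one, div_one, Finset.mul_sum,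
        ← Finset.sum_neg_distrib]
      refine Finset.sum_congr rfl fun i _ => ?_
      ring
    simp only [h2]
    rw [integral_const_mul]
    exact mul_eq_zero_of_right _ h1
  have hs := UnitAddTorus.hasSum_mFourier_series_of_summable (f := G)
    (by rw [hco]; exact summable_zero)
  have hG0 : G = 0 := hs.unique (by
    have e : (fun i => UnitAddTorus.mFourierCoeff G i • UnitAddTorus.mFourier i) =
        fun _ => (0 : C(UnitAddTorus (Fin g), ℂ)) := by
      funext i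
      ext x
      simp [hco]
    rw [e]
    exact hasSum_zero)
  refine entire_zero_of_rat hh.1 fun q => ?_
  have h3 := hG fun i => (q i : ℝ)
  rw [hG0, ContinuousMap.zero_apply] at h3
  rw [h3]
  congr 1

end

/-- theta functions of level one are multiples of theta -/
theorem Th_one {g : ℕ} {τ : Mat g} (hτ : τ ∈ Siegel g) {h : EE g → ℂ} (hh : h ∈ Th τ 1) :
    ∃ κ : ℂ, ∀ z, h z = κ * theta τ z := by
  have ht : theta τ ∈ Th τ 1 :=
    ⟨theta_analytic hτ.2, fun m n z => by rw [theta_per hτ, pow_one]⟩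
  have hne : ∫ x in xsuniqQ 0, theta τ (xsuniqC x) ≠ 0 := by
    intro h0
    obtain ⟨z, hz⟩ := theta_ne hτ.2
    exact hz (congrFun (xsuniq_zero ht h0) z)
  have hi : ∀ f ∈ Th τ 1, MeasureTheory.IntegrableOn (fun x => f (xsuniqC x)) (xsuniqQ 0) :=
    fun f hf => xsuniq_int
      ((continuous_iff_continuousAt.2 fun z => (hf.1 z).continuousAt).comp xsuniq_cont)
  refine ⟨(∫ x in xsuniqQ 0, h (xsuniqC x)) / ∫ x in xsuniqQ 0, theta τ (xsuniqC x), fun z => ?_⟩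
  have h1 := xsuniq_zero ((Th τ 1).sub_mem hh ((Th τ 1).smul_mem
    ((∫ x in xsuniqQ 0, h (xsuniqC x)) / ∫ x in xsuniqQ 0, theta τ (xsuniqC x)) ht)) (by
      simp only [Pi.sub_apply, Pi.smul_apply, smul_eq_mul]
      rw [MeasureTheory.integral_sub (hi h hh) ((hi _ ht).const_mul _),
        MeasureTheory.integral_const_mul, div_mul_cancel₀ _ hne, sub_self])
  exact sub_eq_zero.1 (congrFun h1 z)

end Pool.Agent.MP_f58063_ag

end
end

section

open Complex Filter Topology Matrix Function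

noncomputable section

namespace Pool.Agent.MP_f58063_ag

variable {g : ℕ} {τ : Mat g}

/-- the exponent in the definition of `thc` -/
def xstfE (T : Matrix (Fin g) (Fin g) ℂ) (a b z : Fin g → ℂ) : ℂ :=
  a ⬝ᵥ T *ᵥ a + 2 * (a ⬝ᵥ z) + a ⬝ᵥ b

lemma xstf_thc (c : LL g → ℂ) (τ : Mat g) (z : EE g) :
    thc c τ z = exp (Real.pi * I * xstfE (Matrix.of τ) (c ∘ .inl) (c ∘ .inr) z) *
      theta τ (z + (Matrix.of τ *ᵥ (c ∘ .inl) + c ∘ .inr)) := by
  unfold thc xstfE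
  congr 2
  · simp [dotProduct, mulVec, Finset.mul_sum, mul_assoc]
  · funext i
    simp [mulVec, dotProduct, add_assoc]

lemma xstf_aut (τ : Mat g) (n : Fin g → ℤ) (z : EE g) :
    aut τ n z = exp (-(Real.pi * I * ((fun i => (n i : ℂ)) ⬝ᵥ Matrix.of τ *ᵥ (fun i => (n i : ℂ)) +
      2 * ((fun i => (n i : ℂ)) ⬝ᵥ z)))) := by
  unfold aut
  congr 2
  have h1 : (fun i => (n i : ℂ)) ⬝ᵥ Matrix.of τ *ᵥ (fun i => (n i : ℂ)) =
      ∑ i, ∑ j, (n i : ℂ) * τ i j * n j := by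
    simp [dotProduct, mulVec, Finset.mul_sum, mul_assoc]
  have h2 : (fun i => (n i : ℂ)) ⬝ᵥ z = ∑ i, (n i : ℂ) * z i := rfl
  rw [h1, h2]
  ring

lemma xstf_per (τ : Mat g) (m n : Fin g → ℤ) :
    per τ m n = Matrix.of τ *ᵥ (fun i => (n i : ℂ)) + fun i => (m i : ℂ) := by
  funext i
  simp [per, mulVec, dotProduct, add_comm]

lemma xstf_symm (hτ : τ ∈ Siegel g) : (Matrix.of τ)ᵀ = Matrix.of τ := by
  ext i j
  exact hτ.1 j i

lemma xstf_dot {T : Matrix (Fin g) (Fin g) ℂ} (x y : Fin g → ℂ) :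
    x ⬝ᵥ T *ᵥ y = y ⬝ᵥ Tᵀ *ᵥ x := by
  rw [dotProduct_mulVec, ← mulVec_transpose, dotProduct_comm]

lemma xstf_exp_even (k : ℤ) : exp (Real.pi * I * (2 * k)) = 1 := by
  rw [← exp_int_mul_two_pi_mul_I k]
  congr 1
  ring

theorem thc_add_int (hτ : τ ∈ Siegel g) (c : LL g → ℂ) (n : LL g → ℤ) (z : EE g) :
    thc (fun i => c i + n i) τ z =
      exp (Real.pi * I * (∑ i, c (.inl i) * n (.inr i) - ∑ i, n (.inl i) * c (.inr i) -
        ∑ i, (n (.inl i) : ℂ) * n (.inr i))) * thc c τ z := by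
  rw [xstf_thc, xstf_thc]
  set T := Matrix.of τ with hT
  set a : Fin g → ℂ := c ∘ .inl with ha
  set b : Fin g → ℂ := c ∘ .inr with hb
  set p : Fin g → ℂ := fun i => (n (.inl i) : ℂ) with hp
  set q : Fin g → ℂ := fun i => (n (.inr i) : ℂ) with hq
  have e1 : ((fun i => c i + n i) ∘ Sum.inl : Fin g → ℂ) = a + p := rfl
  have e2 : ((fun i => c i + n i) ∘ Sum.inr : Fin g → ℂ) = b + q := rfl
  have e3 : z + (T *ᵥ (a + p) + (b + q)) =
      z + (T *ᵥ a + b) + per τ (n ∘ .inr) (n ∘ .inl) := by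
    rw [xstf_per, mulVec_add]
    change _ = z + (T *ᵥ a + b) + (T *ᵥ p + q)
    abel
  have e4 : aut τ (n ∘ .inl) (z + (T *ᵥ a + b)) =
      exp (-(Real.pi * I * (p ⬝ᵥ T *ᵥ p + 2 * (p ⬝ᵥ (z + (T *ᵥ a + b)))))) := xstf_aut _ _ _
  have s1 : ∑ i, c (.inl i) * n (.inr i) = a ⬝ᵥ q := rfl
  have s2 : ∑ i, n (.inl i) * c (.inr i) = p ⬝ᵥ b := rfl
  have s3 : ∑ i, (n (.inl i) : ℂ) * n (.inr i) = p ⬝ᵥ q := rfl
  have s4 : p ⬝ᵥ q = ((∑ i, n (.inl i) * n (.inr i) : ℤ) : ℂ) := by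
    rw [← s3]; push_cast; rfl
  have sy : a ⬝ᵥ T *ᵥ p = p ⬝ᵥ T *ᵥ a := by
    rw [xstf_dot, hT, xstf_symm hτ]
  rw [e1, e2, e3, theta_per hτ, e4, s1, s2, s3, ← mul_assoc, ← mul_assoc, ← exp_add, ← exp_add]
  congr 1
  rw [← mul_one (exp (_ + Real.pi * I * xstfE T a b z)),
    ← xstf_exp_even (∑ i, n (.inl i) * n (.inr i)), ← s4, ← exp_add]
  congr 1
  simp only [xstfE, mulVec_add, add_dotProduct, dotProduct_add, sy]
  ring

lemma xstf_inl (γ : Sp g) (c : LL g → ℂ) : ((cx γ)ᵀ *ᵥ c) ∘ Sum.inl =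
    (cx γ).toBlocks₁₁ᵀ *ᵥ (c ∘ .inl) + (cx γ).toBlocks₂₁ᵀ *ᵥ (c ∘ .inr) := by
  funext i
  simp [mulVec, dotProduct, Fintype.sum_sum_type, toBlocks₁₁, toBlocks₂₁]

lemma xstf_inr (γ : Sp g) (c : LL g → ℂ) : ((cx γ)ᵀ *ᵥ c) ∘ Sum.inr =
    (cx γ).toBlocks₁₂ᵀ *ᵥ (c ∘ .inl) + (cx γ).toBlocks₂₂ᵀ *ᵥ (c ∘ .inr) := by
  funext i
  simp [mulVec, dotProduct, Fintype.sum_sum_type, toBlocks₁₂, toBlocks₂₂]

/-- the twisted pull back of theta -/
def xstfF (γ : Sp g) (τ : Mat g) (z : EE g) : ℂ :=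
  exp (-(Real.pi * I * (z ⬝ᵥ ((jac γ τ)⁻¹ * (cx γ).toBlocks₂₁) *ᵥ z))) *
    theta (act γ τ) ((jac γ τ)⁻¹ᵀ *ᵥ z)

lemma xstf_key (γ : Sp g) (hτ : τ ∈ Siegel g) (c : LL g → ℂ) (z : EE g) :
    thc c (act γ τ) ((jac γ τ)⁻¹ᵀ *ᵥ z) =
      exp (Real.pi * I * (xstfE (Matrix.of τ) (((cx γ)ᵀ *ᵥ c) ∘ .inl) (((cx γ)ᵀ *ᵥ c) ∘ .inr) z +
        z ⬝ᵥ ((jac γ τ)⁻¹ * (cx γ).toBlocks₂₁) *ᵥ z)) *
      xstfF γ τ (z + (Matrix.of τ *ᵥ (((cx γ)ᵀ *ᵥ c) ∘ .inl) + ((cx γ)ᵀ *ᵥ c) ∘ .inr)) := by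
  rw [xstf_thc, xstfF]
  have hTs := xstf_symm hτ
  have hT's := xstf_symm (act_mem γ hτ)
  have hJ := jac_inv γ hτ
  have hS := jacC_symm γ hτ
  have hact := act_eq γ τ
  have hdet : IsUnit (jac γ τ).det := (jac_det γ hτ).isUnit
  have hj : jac γ τ = (cx γ).toBlocks₂₁ * Matrix.of τ + (cx γ).toBlocks₂₂ := rfl
  have ha2 := xstf_inl γ c
  have hb2 := xstf_inr γ c
  set T := Matrix.of τ
  set T' := Matrix.of (act γ τ)
  set A := (cx γ).toBlocks₁₁
  set B := (cx γ).toBlocks₁₂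
  set C := (cx γ).toBlocks₂₁
  set D := (cx γ).toBlocks₂₂
  set j := jac γ τ
  set a : Fin g → ℂ := c ∘ .inl
  set b : Fin g → ℂ := c ∘ .inr
  set a2 : Fin g → ℂ := ((cx γ)ᵀ *ᵥ c) ∘ .inl
  set b2 : Fin g → ℂ := ((cx γ)ᵀ *ᵥ c) ∘ .inr
  set u := T' *ᵥ a + b with hu
  set w := T *ᵥ a2 + b2 with hw
  have h1 : T' * j = A * T + B := by
    rw [hact, Matrix.mul_assoc, nonsing_inv_mul _ hdet, Matrix.mul_one]
  have h2 : jᵀ * T' = T * Aᵀ + Bᵀ := by
    have := congrArg transpose h1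
    rwa [transpose_mul, hT's, transpose_add, transpose_mul, hTs] at this
  have h3 : jᵀ = T * Cᵀ + Dᵀ := by rw [hj, transpose_add, transpose_mul, hTs]
  have h4 : jᵀ *ᵥ u = w := by
    rw [hu, hw, mulVec_add, mulVec_mulVec, h2, ha2, hb2, h3]
    simp only [add_mulVec, mulVec_add, mulVec_mulVec]
    abel
  have h5 : j⁻¹ᵀ *ᵥ w = u := by
    rw [← h4, mulVec_mulVec, ← transpose_mul, mul_nonsing_inv _ hdet, transpose_one, one_mulVec]
  have h6 : a2 = j⁻¹ *ᵥ a + Cᵀ *ᵥ u := by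
    rw [ha2, hJ, hu]
    simp only [sub_mulVec, mulVec_add, mulVec_mulVec]
    abel
  have h7 : (j⁻¹ * C) *ᵥ w = Cᵀ *ᵥ u := by
    rw [← hS, transpose_mul, ← mulVec_mulVec, h5]
  have h8 : j⁻¹ᵀ *ᵥ (z + w) = j⁻¹ᵀ *ᵥ z + u := by rw [mulVec_add, h5]
  rw [h8, ← mul_assoc, ← exp_add]
  congr 2
  have k1 : a ⬝ᵥ T' *ᵥ a + a ⬝ᵥ b = a ⬝ᵥ u := by rw [hu, dotProduct_add]
  have k2 : a2 ⬝ᵥ T *ᵥ a2 + a2 ⬝ᵥ b2 = a ⬝ᵥ u + w ⬝ᵥ Cᵀ *ᵥ u := by
    rw [← dotProduct_add, ← hw, h6, add_dotProduct, dotProduct_comm (j⁻¹ *ᵥ a), xstf_dot, h5,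
      dotProduct_comm (Cᵀ *ᵥ u)]
  have k3 : a2 ⬝ᵥ z = a ⬝ᵥ j⁻¹ᵀ *ᵥ z + z ⬝ᵥ Cᵀ *ᵥ u := by
    rw [h6, add_dotProduct, dotProduct_comm (j⁻¹ *ᵥ a), xstf_dot, dotProduct_comm (Cᵀ *ᵥ u)]
  have k4 : w ⬝ᵥ (j⁻¹ * C) *ᵥ z = z ⬝ᵥ Cᵀ *ᵥ u := by rw [xstf_dot, hS, h7]
  have k5 : (z + w) ⬝ᵥ (j⁻¹ * C) *ᵥ (z + w) =
      z ⬝ᵥ (j⁻¹ * C) *ᵥ z + 2 * (z ⬝ᵥ Cᵀ *ᵥ u) + w ⬝ᵥ Cᵀ *ᵥ u := by
    rw [mulVec_add, h7, add_dotProduct, dotProduct_add, dotProduct_add, k4]
    ring
  rw [k5]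
  unfold xstfE
  linear_combination (Real.pi * I) * (k1 - k2 - 2 * k3)

lemma xstf_an (γ : Sp g) (hτ : τ ∈ Siegel g) (z : EE g) : AnalyticAt ℂ (xstfF γ τ) z := by
  have hl : ∀ (M : Matrix (Fin g) (Fin g) ℂ), AnalyticAt ℂ (fun z : EE g => M *ᵥ z) z :=
    fun M => (LinearMap.toContinuousLinearMap (Matrix.mulVecLin M)).analyticAt z
  have h1 : AnalyticAt ℂ
      (fun z : EE g => z ⬝ᵥ ((jac γ τ)⁻¹ * (cx γ).toBlocks₂₁) *ᵥ z) z := by
    unfold dotProduct
    refine Finset.analyticAt_fun_sum _ fun i _ => AnalyticAt.mul ?_ ?_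
    · exact (ContinuousLinearMap.proj (R := ℂ) (φ := fun _ : Fin g => ℂ) i).analyticAt z
    · exact ((ContinuousLinearMap.proj (R := ℂ) (φ := fun _ : Fin g => ℂ) i).analyticAt _).comp
        (hl _)
  refine AnalyticAt.mul (AnalyticAt.cexp' (AnalyticAt.neg (analyticAt_const.mul h1))) ?_
  exact (theta_analytic (Siegel_sub (act_mem γ hτ)) _).comp (hl _)

lemma xstf_zero (τ : Mat g) (z : EE g) : thc (fun _ => 0) τ z = theta τ z := by
  simp [thc]

lemma xstf_mem {γ : Sp g} (h2 : ∀ a b, (2 : ℤ) ∣ γ.1 a b - (1 : Matrix (LL g) (LL g) ℤ) a b)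
    (hτ : τ ∈ Siegel g) : xstfF γ τ ∈ Th τ 1 := by
  refine ⟨xstf_an γ hτ, fun m n z => ?_⟩
  set v : LL g → ℤ := Sum.elim n m with hv
  set c : LL g → ℤ := (γ⁻¹).1ᵀ *ᵥ v with hc
  have h1 : γ.1ᵀ *ᵥ c = v := by
    rw [hc, mulVec_mulVec, ← transpose_mul, ← Submonoid.coe_mul, inv_mul_cancel,
      Submonoid.coe_one, transpose_one, one_mulVec]
  have h3 : (cx γ)ᵀ *ᵥ (fun i => (c i : ℂ)) = fun i => (v i : ℂ) := by
    funext i
    rw [← h1]
    simp [cx, mulVec, dotProduct]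
  have h4 : ∀ i, (2 : ℤ) ∣ v i - c i := by
    intro i
    have : v i - c i = ∑ a, (γ.1 a i - (1 : Matrix (LL g) (LL g) ℤ) a i) * c a := by
      rw [← h1]
      simp [mulVec, dotProduct, sub_mul, Finset.sum_sub_distrib, one_apply]
    rw [this]
    exact Finset.dvd_sum fun a _ => (h2 a i).mul_right _
  have h5 : (2 : ℤ) ∣ ∑ i, n i * m i + ∑ i, c (.inl i) * c (.inr i) := by
    rw [← Finset.sum_add_distrib]
    refine Finset.dvd_sum fun i _ => ?_
    obtain ⟨x, hx⟩ := h4 (.inl i)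
    obtain ⟨y, hy⟩ := h4 (.inr i)
    have hx' : n i = c (.inl i) + 2 * x := by simpa [hv, sub_eq_iff_eq_add'] using hx
    have hy' : m i = c (.inr i) + 2 * y := by simpa [hv, sub_eq_iff_eq_add'] using hy
    rw [hx', hy']
    exact ⟨c (.inl i) * c (.inr i) + x * c (.inr i) + c (.inl i) * y + 2 * x * y, by ring⟩
  obtain ⟨k, hk⟩ := h5
  have hk' : (fun i => (n i : ℂ)) ⬝ᵥ (fun i => (m i : ℂ)) +
      ∑ i, (c (.inl i) : ℂ) * c (.inr i) = 2 * (k : ℂ) := by
    have := congrArg (Int.cast : ℤ → ℂ) hk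
    push_cast at this
    exact this
  have key := xstf_key γ hτ (fun i => (c i : ℂ)) z
  have add := thc_add_int (act_mem γ hτ) (fun _ => 0) c ((jac γ τ)⁻¹ᵀ *ᵥ z)
  simp only [zero_add, zero_mul, mul_zero, Finset.sum_const_zero, sub_self, zero_sub,
    xstf_zero] at add
  have e1 : ((fun i => (v i : ℂ)) ∘ Sum.inl : Fin g → ℂ) = fun i => (n i : ℂ) := rfl
  have e2 : ((fun i => (v i : ℂ)) ∘ Sum.inr : Fin g → ℂ) = fun i => (m i : ℂ) := rfl
  rw [add, h3, e1, e2, ← xstf_per] at key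
  refine mul_left_cancel₀ (exp_ne_zero (Real.pi * I * (xstfE (Matrix.of τ) (fun i => (n i : ℂ))
    (fun i => (m i : ℂ)) z + z ⬝ᵥ ((jac γ τ)⁻¹ * (cx γ).toBlocks₂₁) *ᵥ z))) ?_
  rw [← key, pow_one, xstf_aut, xstfF, ← mul_assoc, ← mul_assoc, ← exp_add, ← exp_add]
  congr 1
  rw [← mul_one (exp (Real.pi * I * -_)), ← xstf_exp_even k, ← exp_add, ← hk']
  congr 1
  unfold xstfE
  ring

/-- the transformation formula for theta functions on the congruence subgroup of level `2 N²` -/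
theorem thc_act {N : ℕ} (hN : N ≠ 0) {γ : Sp g} (hγ : γ ∈ Gam g (2 * N ^ 2))
    (hτ : τ ∈ Siegel g) : ∃ κ : ℂ, κ ≠ 0 ∧ ∀ c, IsCh N c → ∀ z : EE g,
      thc c (act γ τ) ((jac γ τ)⁻¹ᵀ *ᵥ z) =
        κ * exp (Real.pi * I * (z ⬝ᵥ ((jac γ τ)⁻¹ * (cx γ).toBlocks₂₁) *ᵥ z)) * thc c τ z := by
  have hd := mem_Gam.1 hγ
  have h2 : ∀ a b, (2 : ℤ) ∣ γ.1 a b - (1 : Matrix (LL g) (LL g) ℤ) a b := fun a b =>
    dvd_trans ⟨(N : ℤ) ^ 2, by push_cast; ring⟩ (hd a b)
  obtain ⟨κ, hκ⟩ := Th_one hτ (xstf_mem h2 hτ)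
  have hdet : IsUnit (jac γ τ).det := (jac_det γ hτ).isUnit
  refine ⟨κ, ?_, fun c hc z => ?_⟩
  · rintro rfl
    obtain ⟨z, hz⟩ := theta_ne (Siegel_sub (act_mem γ hτ))
    have h := hκ ((jac γ τ)ᵀ *ᵥ z)
    have e : (jac γ τ)⁻¹ᵀ *ᵥ ((jac γ τ)ᵀ *ᵥ z) = z := by
      rw [mulVec_mulVec, ← transpose_mul, mul_nonsing_inv _ hdet, transpose_one, one_mulVec]
    rw [zero_mul, xstfF, e] at h
    exact mul_ne_zero (exp_ne_zero _) hz h
  · choose p hp using hc
    choose q hq using hd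
    set k : LL g → ℤ := fun i => ∑ a, q a i * p a with hk
    have h3 : (cx γ)ᵀ *ᵥ c = fun i => c i + ((2 * N * k i : ℤ) : ℂ) := by
      funext i
      have e : ∀ a, (cx γ) a i * c a = (if a = i then c a else 0) +
          2 * (N : ℂ) * ((q a i : ℂ) * p a) := by
        intro a
        have h := congrArg (Int.cast : ℤ → ℂ) (hq a i)
        have h' : (cx γ) a i = (γ.1 a i : ℂ) := rfl
        rw [one_apply] at h
        push_cast at h
        rw [h', ← hp a]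
        split_ifs with hai
        · rw [if_pos hai] at h
          linear_combination c a * h
        · rw [if_neg hai] at h
          linear_combination c a * h
      simp only [mulVec, dotProduct, transpose_apply, e, Finset.sum_add_distrib,
        Finset.sum_ite_eq', Finset.mem_univ, if_true, hk]
      push_cast
      rw [Finset.mul_sum]
    have h4 : thc ((cx γ)ᵀ *ᵥ c) τ z = thc c τ z := by
      rw [h3, thc_add_int hτ c (fun i => 2 * N * k i) z]
      have e1 : ∀ i j, c i * ((2 * N * k j : ℤ) : ℂ) = 2 * ((p i * k j : ℤ) : ℂ) := by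
        intro i j
        push_cast
        rw [← hp i]
        ring
      have e2 : ∀ i j, ((2 * N * k j : ℤ) : ℂ) * c i = 2 * ((p i * k j : ℤ) : ℂ) :=
        fun i j => by rw [mul_comm, e1]
      have e3 : ∀ i j, ((2 * N * k i : ℤ) : ℂ) * ((2 * N * k j : ℤ) : ℂ) =
          2 * ((2 * N * k i * N * k j : ℤ) : ℂ) := by
        intro i j
        push_cast
        ring
      simp only [e1, e2, e3, ← Finset.mul_sum, ← mul_sub, ← Int.cast_sum, ← Int.cast_sub,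
        xstf_exp_even, one_mul]
    rw [xstf_key γ hτ, hκ, ← h4, xstf_thc, mul_add, exp_add]
    ring

end Pool.Agent.MP_f58063_ag

end
end

section

open Complex Filter Topology Matrix Function

noncomputable section

namespace Pool.Agent.MP_f58063_ag

theorem xscoord_sel {d n : ℕ} (φ : Fin n → Module.Dual ℂ (Fin d → ℂ))
    (h : ∀ ξ, (∀ j, φ j ξ = 0) → ξ = 0) :
    ∃ e : Fin d → Fin n, ∀ ξ, (∀ i, φ (e i) ξ = 0) → ξ = 0 := by
  obtain ⟨κ, a, ha, h1, h2⟩ := exists_linearIndependent' ℂ φ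
  have h3 : Submodule.span ℂ (Set.range φ) = ⊤ := by
    refine Submodule.span_eq_top_of_ne_zero fun ξ hξ => ?_
    by_contra hn
    push Not at hn
    exact hξ (h ξ fun j => hn _ ⟨j, rfl⟩)
  have : Finite κ := Finite.of_injective a ha
  have := Fintype.ofFinite κ
  have h4 : Fintype.card κ = d := by
    have := Module.finrank_eq_card_basis (Module.Basis.mk h2 (h1.trans h3).ge)
    rw [Subspace.dual_finrank_eq, Module.finrank_fin_fun] at this
    exact this.symm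
  let b := Fintype.equivFinOfCardEq h4
  refine ⟨fun i => a (b.symm i), fun ξ hξ => h ξ fun j => ?_⟩
  have h5 : φ j ∈ Submodule.span ℂ (Set.range (φ ∘ a)) := h1 ▸ Submodule.subset_span ⟨j, rfl⟩
  generalize φ j = L at h5
  induction h5 using Submodule.span_induction with
  | mem x hx =>
    obtain ⟨k, rfl⟩ := hx
    simpa using hξ (b k)
  | zero => rfl
  | add x y _ _ hx hy => rw [LinearMap.add_apply, hx, hy, add_zero]
  | smul c x _ hx => rw [LinearMap.smul_apply, hx, smul_zero]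

/-- the antisymmetric part -/
def xscoord_A (g : ℕ) : Mat g →L[ℂ] Mat g :=
  LinearMap.toContinuousLinearMap
    { toFun := fun B i j => B i j - B j i
      map_add' := fun B C => by ext i j; simp only [Pi.add_apply]; ring
      map_smul' := fun c B => by
        ext i j; simp only [Pi.smul_apply, smul_eq_mul, RingHom.id_apply]; ring }

theorem xscoord_open {g n : ℕ} {τ₀ : Mat g} {y : Fin n → Mat g → ℂ}
    (hy : ∀ j, AnalyticAt ℂ (y j) τ₀)
    (hsep : ∀ B : Mat g, (∀ i j, B i j = B j i) → (∀ j, fderiv ℂ (y j) τ₀ B = 0) → B = 0) :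
    ∀ᶠ τ in 𝓝 τ₀,
      ∀ B : Mat g, (∀ i j, B i j = B j i) → (∀ j, fderiv ℂ (y j) τ B = 0) → B = 0 := by
  have key : ∀ τ, (∀ j, AnalyticAt ℂ (y j) τ) → ∀ B,
      fderiv ℂ (fun σ => ((fun j => y j σ), xscoord_A g σ)) τ B =
        (fun j => fderiv ℂ (y j) τ B, fun i j => B i j - B j i) := fun τ h B => by
    rw [((hasFDerivAt_pi.mpr fun j => (h j).differentiableAt.hasFDerivAt).prodMk
      (xscoord_A g).hasFDerivAt).fderiv]
    rfl
  have h1 := eventually_inj (h := fun σ => ((fun j => y j σ), xscoord_A g σ))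
    ((AnalyticAt.pi hy).prod ((xscoord_A g).analyticAt τ₀)) (by
      rw [injective_iff_map_eq_zero]
      intro B hB
      rw [key τ₀ hy, Prod.mk_eq_zero] at hB
      exact hsep B (fun i j => sub_eq_zero.mp (congrFun (congrFun hB.2 i) j)) (congrFun hB.1))
  filter_upwards [h1, eventually_all.mpr fun j => (hy j).eventually_analyticAt] with τ h2 h3 B b1 b2
  refine (injective_iff_map_eq_zero _).mp h2 B ?_
  rw [key τ h3, Prod.mk_eq_zero]
  exact ⟨funext b2, funext fun i => funext fun j => sub_eq_zero.mpr (b1 i j)⟩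

/-- coordinates on `S` given by some of the functions `y` -/
theorem coord {g d : ℕ} {S : Set (Mat g)} (hS : IsMfd S d) (hSS : S ⊆ Siegel g) {τ₀ : Mat g}
    (h0 : τ₀ ∈ S) {Ω : Set (Mat g)} (hΩ : IsOpen Ω) (hτ : τ₀ ∈ Ω) {n : ℕ}
    {y : Fin n → Mat g → ℂ} (hy : ∀ j, AnalyticOnNhd ℂ (y j) Ω)
    (hsep : ∀ B : Mat g, (∀ i j, B i j = B j i) → (∀ j, fderiv ℂ (y j) τ₀ B = 0) → B = 0) :
    ∃ (e : Fin d → Fin n) (ψ : (Fin d → ℂ) → Mat g) (x₀ : Fin d → ℂ) (r : ℝ), 0 < r ∧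
      ψ x₀ = τ₀ ∧ AnalyticOnNhd ℂ ψ (Metric.ball x₀ r) ∧ 𝓝[S] τ₀ ≤ map ψ (𝓝 x₀) ∧
      ∀ x ∈ Metric.ball x₀ r, ψ x ∈ S ∧ ψ x ∈ Ω ∧ (∀ i, y (e i) (ψ x) = x i) ∧
        Injective (fderiv ℂ ψ x) ∧
        ∀ B : Mat g, (∀ i j, B i j = B j i) → (∀ j, fderiv ℂ (y j) (ψ x) B = 0) → B = 0 := by
  obtain ⟨f, f0, fa, fi, fm⟩ := hS.2 τ₀ h0
  subst f0
  have hy0 : ∀ j, AnalyticAt ℂ (y j) (f 0) := fun j => hy j _ hτ
  have fS : ∀ᶠ z in 𝓝 0, f z ∈ S := by
    have : S ∈ map f (𝓝 0) := fm ▸ self_mem_nhdsWithin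
    exact this
  obtain ⟨e, he⟩ := xscoord_sel
    (fun j => ((fderiv ℂ (y j) (f 0)).comp (fderiv ℂ f 0)).toLinearMap) fun ξ hξ =>
      (injective_iff_map_eq_zero _).mp fi ξ
        (hsep _ (fderiv_symm fa (fS.mono fun z hz => hSS hz) ξ) hξ)
  set H : (Fin d → ℂ) → Fin d → ℂ := fun x i => y (e i) (f x) with hH
  have Ha : AnalyticAt ℂ H 0 := AnalyticAt.pi fun i => (hy0 _).comp fa
  have Hd : HasFDerivAt H (ContinuousLinearMap.pi fun i =>
      (fderiv ℂ (y (e i)) (f 0)).comp (fderiv ℂ f 0)) 0 :=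
    hasFDerivAt_pi.mpr fun i =>
      (hy0 _).differentiableAt.hasFDerivAt.comp 0 fa.differentiableAt.hasFDerivAt
  have Hs : Surjective (fderiv ℂ H 0) := by
    refine LinearMap.injective_iff_surjective (f := (fderiv ℂ H 0).toLinearMap).mp ?_
    rw [injective_iff_map_eq_zero, Hd.fderiv]
    exact fun ξ hξ => he ξ (congrFun hξ)
  obtain ⟨m, π, Ψ, hm, Ψa, Ψ1, Ψ2⟩ := chart Ha Hs
  obtain rfl : m = 0 := by
    rw [Module.finrank_fin_fun] at hm
    omega
  set G : (Fin d → ℂ) → Fin d → ℂ := fun v => Ψ (v, π 0) with hG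
  have ca : AnalyticAt ℂ (fun v : Fin d → ℂ => (v, π 0)) (H 0) :=
    analyticAt_id.prod analyticAt_const
  have Ga : AnalyticAt ℂ G (H 0) := Ψa.comp_of_eq ca rfl
  have G1 : ∀ᶠ x in 𝓝 0, G (H x) = x := Ψ1.mono fun x hx => by
    rw [← hx, hG, Subsingleton.elim (π 0) (π x), hx]
    exact hx
  have G2 : ∀ᶠ v in 𝓝 (H 0), H (G v) = v := (ca.continuousAt.eventually Ψ2).mono fun v hv => hv.1
  have G0 : G (H 0) = 0 := G1.self_of_nhds
  have Gt : Tendsto G (𝓝 (H 0)) (𝓝 0) := by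
    have := Ga.continuousAt.tendsto
    rwa [G0] at this
  have ψa : AnalyticAt ℂ (f ∘ G) (H 0) := fa.comp_of_eq Ga G0
  have ψ0 : (f ∘ G) (H 0) = f 0 := congrArg f G0
  have ψt : Tendsto (f ∘ G) (𝓝 (H 0)) (𝓝 (f 0)) := fa.continuousAt.tendsto.comp Gt
  have ψi : Injective (fderiv ℂ (f ∘ G) (H 0)) := by
    have ya : AnalyticAt ℂ (fun τ i => y (e i) τ) ((f ∘ G) (H 0)) := by
      rw [ψ0]; exact AnalyticAt.pi fun i => hy0 _
    have h1 := ya.differentiableAt.hasFDerivAt.comp _ ψa.differentiableAt.hasFDerivAt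
    have h2 := h1.unique ((hasFDerivAt_id (H 0)).congr_of_eventuallyEq G2)
    refine Function.LeftInverse.injective
      (g := fderiv ℂ (fun τ i => y (e i) τ) ((f ∘ G) (H 0))) fun v => ?_
    exact congrArg (fun L => L v) h2
  obtain ⟨r, hr, h⟩ := Metric.eventually_nhds_iff_ball.mp (ψa.eventually_analyticAt.and
    ((Gt.eventually fS).and ((ψt.eventually (hΩ.mem_nhds hτ)).and (G2.and
      ((eventually_inj ψa ψi).and (ψt.eventually (xscoord_open hy0 hsep)))))))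
  refine ⟨e, f ∘ G, H 0, r, hr, ψ0, fun x hx => (h x hx).1, ?_, fun x hx =>
    ⟨(h x hx).2.1, (h x hx).2.2.1, congrFun (h x hx).2.2.2.1, (h x hx).2.2.2.2⟩⟩
  rw [← fm, map_congr (m₂ := (f ∘ G) ∘ H) (G1.mono fun x hx => (congrArg f hx).symm),
    ← Filter.map_map]
  exact Filter.map_mono Ha.continuousAt

end Pool.Agent.MP_f58063_ag

end
end
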