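import Pool.Agent.Mg.Fcf0a82q.Ga9bf1b
import Pool.Agent.Mg.Fcf0a82q.G446bd4
import Pool.Agent.Mg.Fcf0a82q.G7c9b0d
import Pool.Agent.Mg.Fcf0a82q.G61e4ec

section

open Complex Filter Topology Matrix Function

noncomputable section

namespace Pool.Agent.MP_f58063_ag

variable {K : Type} [Field K] [Algebra ℂ K]

theorem xsalgb_smooth {K : Type} [Field K] [CharZero K] (L : Subring K) :
    Algebra.FormallySmooth L K := by
  let : Algebra (FractionRing L) K := FractionRing.liftAlgebra L K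
  have : IsScalarTower L (FractionRing L) K := FractionRing.isScalarTower_liftAlgebra L K
  have : CharZero (FractionRing L) := RingHom.charZero (algebraMap (FractionRing L) K)
  have : Algebra.FormallySmooth L (FractionRing L) := .of_isLocalization (nonZeroDivisors L)
  obtain ⟨s, hs⟩ := exists_isTranscendenceBasis (FractionRing L) K
  have := hs.isAlgebraic_field
  have : Algebra.FormallySmooth (FractionRing L) K :=
    .of_algebraicIndependent_of_isSeparable hs.1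
  exact .comp L (FractionRing L) K

theorem xsalgb_lift {K P B : Type} [Field K] [CharZero K] [CommRing P] [CommRing B]
    (π : B →+* K) (hπ : Surjective π) (hn : IsNilpotent (RingHom.ker π)) (φ : P →+* K)
    (ψ : P →+* B) (h1 : ∀ p, π (ψ p) = φ p) (h2 : ∀ p, φ p = 0 → ψ p = 0) :
    ∃ Ψ : K →+* B, (∀ x, π (Ψ x) = x) ∧ ∀ p, Ψ (φ p) = ψ p := by
  let ψ' : φ.range →+* B := RingHom.liftOfSurjective φ.rangeRestrict φ.rangeRestrict_surjective
    ⟨ψ, fun p hp => h2 p (congrArg Subtype.val hp)⟩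
  have hψ' : ∀ p, ψ' (φ.rangeRestrict p) = ψ p := fun p =>
    RingHom.liftOfSurjective_comp_apply _ _ _ p
  let : Algebra φ.range B := ψ'.toAlgebra
  have := xsalgb_smooth φ.range
  let g : B →ₐ[φ.range] K :=
    { π with
      commutes' := fun r => by
        obtain ⟨p, rfl⟩ := φ.rangeRestrict_surjective r
        exact (congrArg π (hψ' p)).trans (h1 p) }
  let Ψ := Algebra.FormallySmooth.liftOfSurjective (AlgHom.id φ.range K) g hπ hn
  refine ⟨Ψ.toRingHom, fun x =>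
    Algebra.FormallySmooth.liftOfSurjective_apply (AlgHom.id φ.range K) g hπ hn x, fun p => ?_⟩
  exact (Ψ.commutes (φ.rangeRestrict p)).trans (hψ' p)

theorem xsalgb_der {P : Type} [CommRing P] (φ : P →+* K) (ψ : P →+* TrivSqZeroExt K K)
    (h1 : ∀ p, (ψ p).fst = φ p) (h2 : ∀ p, φ p = 0 → (ψ p).snd = 0)
    (h3 : ∀ c : ℂ, ∃ p, φ p = algebraMap ℂ K c ∧ (ψ p).snd = 0) :
    ∃ w : Der K, ∀ p, w (φ p) = (ψ p).snd := by
  have : CharZero K := charZero_of_injective_algebraMap (algebraMap ℂ K).injective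
  obtain ⟨Ψ, hΨ, hΨ'⟩ := xsalgb_lift (TrivSqZeroExt.fstHom K K K).toRingHom
    (fun x => ⟨TrivSqZeroExt.inl x, rfl⟩) ⟨2, by
      rw [pow_two, Ideal.zero_eq_bot, eq_bot_iff, Ideal.mul_le]
      intro r hr s hs
      have hr' : r.fst = 0 := hr
      have hs' : s.fst = 0 := hs
      rw [Ideal.mem_bot]
      ext <;> simp [hr', hs']⟩ φ ψ h1
    (fun p hp => TrivSqZeroExt.ext ((h1 p).trans hp) (h2 p hp))
  have hΨ1 : ∀ x, (Ψ x).fst = x := hΨ
  have hmul : ∀ x y, (Ψ (x * y)).snd = x * (Ψ y).snd + y * (Ψ x).snd := by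
    intro x y
    rw [map_mul, TrivSqZeroExt.snd_mul, hΨ1, hΨ1]
    simp [mul_comm]
  refine ⟨Derivation.mk'
    { toFun := fun x => (Ψ x).snd
      map_add' := fun x y => by simp
      map_smul' := fun c x => by
        obtain ⟨p, hp, hp'⟩ := h3 c
        rw [Algebra.smul_def, hmul, RingHom.id_apply, Algebra.smul_def]
        nth_rewrite 2 [← hp]
        rw [hΨ', hp', mul_zero, add_zero] }
    fun x y => hmul x y, fun p => ?_⟩
  exact congrArg TrivSqZeroExt.snd (hΨ' p)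

/-- derivations extend to field extensions in characteristic zero -/
theorem der_ext (L : Subalgebra ℂ K) (δ : Derivation ℂ L K) :
    ∃ w : Der K, ∀ x : L, w x = δ x := by
  let ψ : L →+* TrivSqZeroExt K K :=
    { toFun := fun x => TrivSqZeroExt.inl (x : K) + TrivSqZeroExt.inr (δ x)
      map_one' := by simp
      map_mul' := fun x y => by
        ext
        · simp
        · simp [Subalgebra.smul_def, mul_comm]
      map_zero' := by simp
      map_add' := fun x y => by ext <;> simp }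
  obtain ⟨w, hw⟩ := xsalgb_der L.val.toRingHom ψ (fun p => by simp [ψ])
    (fun p hp => by
      have : p = 0 := Subtype.ext hp
      simp [this])
    fun c => ⟨algebraMap ℂ L c, rfl, by simp [ψ]⟩
  exact ⟨w, fun x => (hw x).trans (by simp [ψ])⟩

theorem der_of_rel {κ : Type} [Fintype κ] (e a : κ → K)
    (h : ∀ R : MvPolynomial κ ℂ, MvPolynomial.aeval e R = 0 →
      ∑ j, MvPolynomial.aeval e (MvPolynomial.pderiv j R) * a j = 0) :
    ∃ w : Der K, ∀ j, w (e j) = a j := by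
  classical
  let ψ : MvPolynomial κ ℂ →ₐ[ℂ] TrivSqZeroExt K K :=
    MvPolynomial.aeval fun j => TrivSqZeroExt.inl (e j) + TrivSqZeroExt.inr (a j)
  have h1 : ∀ p, (ψ p).fst = MvPolynomial.aeval e p := by
    intro p
    induction p using MvPolynomial.induction_on with
    | C c => simp [ψ, TrivSqZeroExt.algebraMap_eq_inl']
    | add p q hp hq => rw [map_add, map_add, TrivSqZeroExt.fst_add, hp, hq]
    | mul_X p i hp => rw [map_mul, map_mul, TrivSqZeroExt.fst_mul, hp]; simp [ψ]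
  have h2 : ∀ p, (ψ p).snd = ∑ j, MvPolynomial.aeval e (MvPolynomial.pderiv j p) * a j := by
    intro p
    induction p using MvPolynomial.induction_on with
    | C c => simp [ψ, TrivSqZeroExt.algebraMap_eq_inl']
    | add p q hp hq =>
      simp only [map_add, TrivSqZeroExt.snd_add, hp, hq, add_mul, Finset.sum_add_distrib]
    | mul_X p i hp =>
      rw [map_mul, TrivSqZeroExt.snd_mul, hp, h1, h1]
      simp [ψ, MvPolynomial.pderiv_X, Pi.single_apply, apply_ite, Finset.sum_add_distrib,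
        Finset.mul_sum, mul_comm, mul_left_comm, mul_add]
  obtain ⟨w, hw⟩ := xsalgb_der (MvPolynomial.aeval e : MvPolynomial κ ℂ →ₐ[ℂ] K).toRingHom
    ψ.toRingHom h1 (fun p hp => (h2 p).trans (h p hp))
    fun c => ⟨MvPolynomial.C c, by simp, (h2 _).trans (by simp)⟩
  exact ⟨w, fun j => by simpa [ψ] using hw (MvPolynomial.X j)⟩

theorem der_of_algInd (F : IntermediateField ℂ K) {κ : Type} {e : κ → K}
    (he : AlgebraicIndependent F e) (a : κ → K) :
    ∃ w : Der K, (∀ f ∈ F, w f = 0) ∧ ∀ j, w (e j) = a j := by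
  let ψ : MvPolynomial κ F →+* TrivSqZeroExt K K :=
    MvPolynomial.eval₂Hom ((TrivSqZeroExt.inlHom K K).comp (algebraMap F K))
      fun j => TrivSqZeroExt.inl (e j) + TrivSqZeroExt.inr (a j)
  have h1 : ∀ p, (ψ p).fst = MvPolynomial.aeval e p := by
    intro p
    induction p using MvPolynomial.induction_on with
    | C c => simp [ψ]
    | add p q hp hq => rw [map_add, map_add, TrivSqZeroExt.fst_add, hp, hq]
    | mul_X p i hp => rw [map_mul, map_mul, TrivSqZeroExt.fst_mul, hp]; simp [ψ]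
  obtain ⟨w, hw⟩ := xsalgb_der (MvPolynomial.aeval e : MvPolynomial κ F →ₐ[F] K).toRingHom
    ψ h1 (fun p hp => by
      have : p = 0 := he (hp.trans (map_zero _).symm)
      simp [this])
    fun c => ⟨MvPolynomial.C (algebraMap ℂ F c), by simp, by simp [ψ]⟩
  exact ⟨w, fun f hf => by simpa [ψ] using hw (MvPolynomial.C ⟨f, hf⟩),
    fun j => by simpa [ψ] using hw (MvPolynomial.X j)⟩

theorem der_adjoin_mem (k : Subalgebra ℂ K) {s : Set K} {w : Der K} (hs : ∀ x ∈ s, x ∈ k)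
    (hw : ∀ x ∈ s, w x ∈ k) : ∀ x ∈ Algebra.adjoin ℂ s, w x ∈ k := by
  have hle : Algebra.adjoin ℂ s ≤ k := Algebra.adjoin_le hs
  intro x hx
  induction hx using Algebra.adjoin_induction with
  | mem x hx => exact hw x hx
  | algebraMap c => rw [w.map_algebraMap]; exact zero_mem _
  | add x y _ _ hx hy => rw [map_add]; exact add_mem hx hy
  | mul x y hx' hy' hx hy =>
    rw [w.leibniz, smul_eq_mul, smul_eq_mul]
    exact add_mem (mul_mem (hle hx') hy) (mul_mem (hle hy') hx)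

theorem der_adjoin_zero {s : Set K} {w : Der K} (hw : ∀ x ∈ s, w x = 0) :
    ∀ x ∈ Algebra.adjoin ℂ s, w x = 0 := by
  intro x hx
  induction hx using Algebra.adjoin_induction with
  | mem x hx => exact hw x hx
  | algebraMap c => exact w.map_algebraMap c
  | add x y _ _ hx hy => rw [map_add, hx, hy, add_zero]
  | mul x y _ _ hx hy => rw [w.leibniz, hx, hy, smul_zero, smul_zero, add_zero]

theorem xsalgb_alg (L : Subalgebra ℂ K) (w : Der K) {f : K} (hf : IsAlgebraic L f)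
    (M : AddSubgroup K) (hM : ∀ x ∈ L, ∀ n : ℕ, f ^ n * w x ∈ M) :
    ∃ p : Polynomial L, Polynomial.aeval f p ≠ 0 ∧ Polynomial.aeval f p * w f ∈ M := by
  classical
  have : CharZero L := charZero_of_injective_algebraMap (algebraMap ℂ L).injective
  have key : ∀ p : Polynomial L, w (Polynomial.aeval f p) -
      Polynomial.aeval f (Polynomial.derivative p) * w f ∈ M := by
    intro p
    induction p using Polynomial.induction_on' with
    | add p q hp hq =>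
      convert add_mem hp hq using 1
      simp only [map_add]; ring
    | monomial n c =>
      convert hM c c.2 n using 1
      rw [Polynomial.derivative_monomial, Polynomial.aeval_monomial, Polynomial.aeval_monomial,
        w.leibniz, w.leibniz_pow]
      simp only [smul_eq_mul, nsmul_eq_mul, map_mul, map_natCast, Subalgebra.algebraMap_apply]
      ring
  have hex : ∃ n, ∃ p : Polynomial L, p ≠ 0 ∧ Polynomial.aeval f p = 0 ∧ p.natDegree = n := by
    obtain ⟨p, h1, h2⟩ := hf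
    exact ⟨_, p, h1, h2, rfl⟩
  obtain ⟨p, hp0, hp, hd⟩ := Nat.find_spec hex
  have hd0 : p.natDegree ≠ 0 := by
    intro h
    rw [Polynomial.eq_C_of_natDegree_eq_zero h] at hp hp0
    rw [Polynomial.aeval_C] at hp
    exact hp0 (by rw [show p.coeff 0 = 0 from Subtype.ext hp, map_zero])
  refine ⟨Polynomial.derivative p, fun h => ?_, ?_⟩
  · refine Nat.find_min hex (m := (Polynomial.derivative p).natDegree) ?_
      ⟨_, fun h0 => hd0 (Polynomial.derivative_eq_zero.1 h0), h, rfl⟩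
    rw [← hd]; exact Polynomial.natDegree_derivative_lt hd0
  · have := key p
    rw [hp, map_zero, zero_sub] at this
    exact neg_mem_iff.1 this

theorem der_alg_mem (L : Subalgebra ℂ K) (k : IntermediateField ℂ K) (hL : ∀ x ∈ L, x ∈ k)
    {w : Der K} (hw : ∀ x ∈ L, w x ∈ k) {f : K} (hfk : f ∈ k) (hf : IsAlgebraic L f) :
    w f ∈ k := by
  obtain ⟨p, h0, hp⟩ := xsalgb_alg L w hf k.toSubfield.toAddSubgroup
    fun x hx n => k.mul_mem (pow_mem hfk n) (hw x hx)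
  have hp' : Polynomial.aeval f p * w f ∈ k := hp
  have hk : Polynomial.aeval f p ∈ k := by
    rw [Polynomial.aeval_eq_sum_range]
    exact sum_mem fun i _ => mul_mem (hL _ (p.coeff i).2) (pow_mem hfk i)
  have := mul_mem (inv_mem hk) hp'
  rwa [inv_mul_cancel_left₀ h0] at this

theorem der_alg_zero (L : Subalgebra ℂ K) {w : Der K} (hw : ∀ x ∈ L, w x = 0) {f : K}
    (hf : IsAlgebraic L f) : w f = 0 := by
  obtain ⟨p, h0, hp⟩ := xsalgb_alg L w hf ⊥ fun x hx n => by rw [hw x hx, mul_zero]; rfl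
  exact (mul_eq_zero.1 hp).resolve_left h0

theorem alg_of_der (L : Subalgebra ℂ K) {f : K}
    (h : ∀ w : Der K, (∀ x ∈ L, w x = 0) → w f = 0) : IsAlgebraic L f := by
  by_contra hf
  let ψ : Polynomial L →+* TrivSqZeroExt K K :=
    Polynomial.eval₂RingHom ((TrivSqZeroExt.inlHom K K).comp (algebraMap L K))
      (TrivSqZeroExt.inl f + TrivSqZeroExt.inr 1)
  have h1 : ∀ p, (ψ p).fst = Polynomial.aeval f p := by
    intro p
    induction p using Polynomial.induction_on with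
    | C c => simp [ψ]
    | add p q hp hq => rw [map_add, map_add, TrivSqZeroExt.fst_add, hp, hq]
    | monomial n c hp =>
      rw [pow_succ, ← mul_assoc, map_mul, map_mul _ _ Polynomial.X, TrivSqZeroExt.fst_mul, hp]
      simp [ψ]
  obtain ⟨w, hw⟩ := xsalgb_der (Polynomial.aeval f : Polynomial L →ₐ[L] K).toRingHom
    ψ h1 (fun p hp => by
      have : p = 0 := by_contra fun h0 => hf ⟨p, h0, hp⟩
      simp [this])
    fun c => ⟨Polynomial.C (algebraMap ℂ L c), by simp, by simp [ψ]⟩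
  have h2 := h w fun x hx => by simpa [ψ] using hw (Polynomial.C ⟨x, hx⟩)
  have h3 : w f = 1 := by simpa [ψ] using hw Polynomial.X
  exact zero_ne_one (h2.symm.trans h3)

theorem Kc_closed (T : Set (Der K)) (C : IntermediateField ℂ K) (hC : C ≤ Kc T) {f : K}
    (hf : IsAlgebraic C f) : f ∈ Kc T :=
  fun D hD => der_alg_zero C.toSubalgebra (fun _ hx => hC hx D hD) hf

theorem xsalgb_mono {K R S : Type} [Field K] [CommRing R] [CommRing S] [Algebra R K]
    [Algebra S K] (hR : Injective (algebraMap R K))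
    (h : ∀ r, algebraMap R K r ∈ Set.range (algebraMap S K)) {f : K} (hf : IsAlgebraic R f) :
    IsAlgebraic S f := by
  obtain ⟨p, h0, hp⟩ := hf
  have hl : p.map (algebraMap R K) ∈ Polynomial.lifts (algebraMap S K) := by
    rw [Polynomial.lifts_iff_coeff_lifts]
    intro n
    rw [Polynomial.coeff_map]; exact h _
  obtain ⟨q, hq⟩ := (Polynomial.mem_lifts _).1 hl
  refine ⟨q, ?_, ?_⟩
  · rintro rfl
    rw [Polynomial.map_zero, eq_comm, Polynomial.map_eq_zero_iff hR] at hq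
    exact h0 hq
  · rw [Polynomial.aeval_def, ← Polynomial.eval_map, hq, Polynomial.eval_map]
    exact hp

/-- enlarge a field of constants until the transcendence degree is one -/
theorem cut_field (F : IntermediateField ℂ K) {t : K} {v : Der K} (hv : ∀ f ∈ F, v f = 0)
    (ht : v t ≠ 0) :
    ∃ (F' : IntermediateField ℂ K) (w : Der K), F ≤ F' ∧ (∀ f ∈ F', w f = 0) ∧ w t = 1 ∧
      (∀ w' : Der K, (∀ f ∈ F', w' f = 0) → w' = w' t • w) ∧
      ∀ f : K, IsAlgebraic (Algebra.adjoin F' {t}) f := by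
  classical
  have htr : Transcendental F t := fun h => ht (der_alg_zero F.toSubalgebra hv h)
  have hind : AlgebraicIndepOn F id ({t} : Set K) :=
    (algebraicIndependent_singleton_iff (⟨t, rfl⟩ : ({t} : Set K))).2 htr
  obtain ⟨s, hts, hs⟩ := exists_isTranscendenceBasis_superset hind
  obtain ⟨w, hw, hw'⟩ := der_of_algInd F hs.1 fun j => if j.1 = t then 1 else 0
  set F' := IntermediateField.adjoin ℂ ((F : Set K) ∪ (s \ {t})) with hF'
  have hle : F ≤ F' := fun x hx => IntermediateField.subset_adjoin _ _ (Or.inl hx)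
  have hK : F' ≤ Kc {w} := by
    rw [hF', IntermediateField.adjoin_le_iff]
    rintro x (hx | hx) D rfl
    · exact hw x hx
    · exact (hw' ⟨x, hx.1⟩).trans (if_neg hx.2)
  have hwt : w t = 1 := (hw' ⟨t, hts rfl⟩).trans (if_pos rfl)
  have halg : ∀ f : K, IsAlgebraic (Algebra.adjoin F' {t}) f := by
    intro f
    refine xsalgb_mono Subtype.val_injective ?_ (hs.isAlgebraic.isAlgebraic f)
    rintro ⟨x, hx⟩
    refine ⟨⟨x, ?_⟩, rfl⟩
    induction hx using Algebra.adjoin_induction with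
    | mem x hx =>
      obtain ⟨⟨y, hy⟩, rfl⟩ := hx
      by_cases h : y = t
      · exact Algebra.subset_adjoin h
      · exact (Algebra.adjoin F' {t}).algebraMap_mem
          ⟨y, IntermediateField.subset_adjoin _ _ (Or.inr ⟨hy, h⟩)⟩
    | algebraMap c => exact (Algebra.adjoin F' {t}).algebraMap_mem ⟨c.1, hle c.2⟩
    | add x y _ _ hx hy => exact add_mem hx hy
    | mul x y _ _ hx hy => exact mul_mem hx hy
  refine ⟨F', w, hle, fun f hf => hK hf w rfl, hwt, fun w' h' => ?_, halg⟩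
  rw [← sub_eq_zero]
  ext f
  refine der_alg_zero ((Algebra.adjoin F' {t}).restrictScalars ℂ) (fun x hx => ?_) (halg f)
  rw [Subalgebra.mem_restrictScalars] at hx
  induction hx using Algebra.adjoin_induction with
  | mem x hx => obtain rfl : x = t := hx; simp [hwt]
  | algebraMap c =>
    have h1 : w c = 0 := hK c.2 w rfl
    simp [h' c c.2, h1]
  | add x y _ _ hx hy => rw [map_add, hx, hy, add_zero]
  | mul x y _ _ hx hy => rw [Derivation.leibniz, hx, hy, smul_zero, smul_zero, add_zero]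

end Pool.Agent.MP_f58063_ag

end
end

section

open Complex Filter Topology Matrix Function

noncomputable section

namespace Pool.Agent.MP_f58063_ag

variable {X : Type} [NormedAddCommGroup X] [NormedSpace ℂ X] {p : X} {f : X → ℂ}

lemma xsmga_one (p : X) : gm p (fun _ => (1 : ℂ)) = 1 := by rw [gm_const, map_one]

lemma xsmga_mem (x : (gmH p).range) : ∃ f : X → ℂ, AnalyticAt ℂ f p ∧ gm p f = x := by
  obtain ⟨a, ha⟩ := x.2
  exact ⟨a.1, a.2, by rw [gm_def a.2]; exact ha⟩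

lemma xsmga_congr (v : X) {f' : X → ℂ} (hf : AnalyticAt ℂ f p) (hf' : AnalyticAt ℂ f' p)
    (h : gm p f = gm p f') : gm p (dv v f) = gm p (dv v f') :=
  (gm_eq_iff (analyticAt_dv hf v) (analyticAt_dv hf' v)).2
    (xdd_dv_congr ((gm_eq_iff hf hf').1 h) v)

lemma xsmga_dv_add (v : X) {f' : X → ℂ} (hf : AnalyticAt ℂ f p) (hf' : AnalyticAt ℂ f' p) :
    gm p (dv v fun x => f x + f' x) = gm p (dv v f) + gm p (dv v f') := by
  rw [← gm_add (analyticAt_dv hf v) (analyticAt_dv hf' v)]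
  exact (gm_eq_iff (analyticAt_dv (hf.add hf') v)
    ((analyticAt_dv hf v).add (analyticAt_dv hf' v))).2 (xdd_dv_add hf hf' v)

lemma xsmga_dv_mul (v : X) {f' : X → ℂ} (hf : AnalyticAt ℂ f p) (hf' : AnalyticAt ℂ f' p) :
    gm p (dv v fun x => f x * f' x) = gm p (dv v f) * gm p f' + gm p f * gm p (dv v f') := by
  rw [← gm_mul (analyticAt_dv hf v) hf', ← gm_mul hf (analyticAt_dv hf' v),
    ← gm_add (f := fun x => dv v f x * f' x) (f' := fun x => f x * dv v f' x)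
      ((analyticAt_dv hf v).mul hf') (hf.mul (analyticAt_dv hf' v))]
  exact (gm_eq_iff (analyticAt_dv (hf.mul hf') v)
    (((analyticAt_dv hf v).mul hf').add (hf.mul (analyticAt_dv hf' v)))).2 (xdd_dv_mul hf hf' v)

lemma xsmga_dv_const (p v : X) (c : ℂ) : gm p (dv v fun _ => c) = 0 := by
  have : (dv v fun _ : X => c) = fun _ => 0 := by
    funext x
    simp [dv_apply]
  rw [this, gm_const, map_zero]

lemma xsmga_ex (p v : X) :
    ∃ w : Der (MG p), ∀ f, AnalyticAt ℂ f p → w (gm p f) = gm p (dv v f) := by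
  choose r hr hr' using xsmga_mem (p := p)
  have key : ∀ (x : (gmH p).range) (f : X → ℂ), AnalyticAt ℂ f p → gm p f = x →
      gm p (dv v (r x)) = gm p (dv v f) := fun x f hf h =>
    xsmga_congr v (hr x) hf ((hr' x).trans h.symm)
  let δ : (gmH p).range →ₗ[ℂ] MG p :=
    { toFun := fun x => gm p (dv v (r x))
      map_add' := fun x y => by
        rw [key (x + y) (fun z => r x z + r y z) ((hr x).add (hr y))
          (by rw [gm_add (hr x) (hr y), hr', hr']; rfl), xsmga_dv_add v (hr x) (hr y)]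
      map_smul' := fun c x => by
        rw [key (c • x) (fun z => c * r x z) (analyticAt_const.mul (hr x))
          (by rw [gm_mul analyticAt_const (hr x), hr', gm_const, ← Algebra.smul_def]; rfl),
          xsmga_dv_mul v analyticAt_const (hr x), xsmga_dv_const, gm_const, zero_mul, zero_add,
          ← Algebra.smul_def]
        rfl }
  obtain ⟨w, hw⟩ := der_ext (gmH p).range (Derivation.mk' δ fun x y => by
    change gm p (dv v (r (x * y))) = (x : MG p) * gm p (dv v (r y)) + (y : MG p) * gm p (dv v (r x))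
    rw [key (x * y) (fun z => r x z * r y z) ((hr x).mul (hr y))
      (by rw [gm_mul (hr x) (hr y), hr', hr']; rfl), xsmga_dv_mul v (hr x) (hr y), hr', hr']
    ring)
  refine ⟨w, fun f hf => ?_⟩
  have hm : gm p f ∈ (gmH p).range := ⟨⟨f, hf⟩, (gm_def hf).symm⟩
  exact (hw ⟨_, hm⟩).trans (key ⟨_, hm⟩ f hf rfl)

theorem DG_gm (v : X) (hf : AnalyticAt ℂ f p) : DG p v (gm p f) = gm p (dv v f) := by
  have h := xsmga_ex p v
  rw [DG, dif_pos h]
  exact h.choose_spec f hf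

theorem DG_comm (p v w : X) : ⁅DG p v, DG p w⁆ = 0 := by
  have h0 : ∀ f : X → ℂ, AnalyticAt ℂ f p → ⁅DG p v, DG p w⁆ (gm p f) = 0 := by
    intro f hf
    rw [Derivation.commutator_apply, DG_gm w hf, DG_gm v hf, DG_gm v (analyticAt_dv hf w),
      DG_gm w (analyticAt_dv hf v), sub_eq_zero]
    refine (gm_eq_iff (analyticAt_dv (analyticAt_dv hf w) v)
      (analyticAt_dv (analyticAt_dv hf v) w)).2 ?_
    filter_upwards [hf.eventually_analyticAt] with x hx using dv_comm hx v w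
  ext m
  obtain ⟨h, t, hh, ht, -, rfl⟩ := exists_gm m
  rw [Derivation.leibniz_div, h0 h hh, h0 t ht]
  simp

theorem GF_neBot (p : X) : (GF p).NeBot := by
  refine forall_mem_nonempty_iff_neBot.1 fun S hS => ?_
  obtain ⟨t, h1, h2, h3⟩ := hS
  by_contra hne
  refine h2 ((gm_eq_zero h1).2 (h3.mono fun x hx => ?_))
  by_contra h4
  exact hne ⟨x, hx h4⟩

theorem GF_le (p : X) : GF p ≤ 𝓝 p := by
  intro S hS
  exact ⟨fun _ => 1, analyticAt_const, by rw [xsmga_one]; exact one_ne_zero,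
    mem_of_superset hS fun _ hx _ => hx⟩

theorem GF_nhds {P : X → Prop} (h : ∀ᶠ x in GF p, P x) : ∀ᶠ x in GF p, ∀ᶠ y in 𝓝 x, P y := by
  obtain ⟨t, h1, h2, h3⟩ := eventually_GF.1 h
  refine eventually_GF.2 ⟨t, h1, h2, ?_⟩
  filter_upwards [h3.eventually_nhds, h1.eventually_analyticAt] with x hx hx' ht
  filter_upwards [hx, hx'.continuousAt.eventually_ne ht] with y hy hy' using hy hy'

lemma xsmga_ne {t : X → ℂ} (ht : AnalyticAt ℂ t p) (h0 : gm p t ≠ 0) :
    ∀ᶠ x in GF p, t x ≠ 0 :=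
  eventually_GF.2 ⟨t, ht, h0, Eventually.of_forall fun _ h => h⟩

lemma xsmga_rep (m : MG p) : ∃ h t : X → ℂ, AnalyticAt ℂ h p ∧ AnalyticAt ℂ t p ∧ gm p t ≠ 0 ∧
    m * gm p t = gm p h ∧ rp m = fun x => h x / t x := by
  obtain ⟨h1, h2, h3, h4⟩ := (exists_gm m).choose_spec.choose_spec
  exact ⟨_, _, h1, h2, h3, (eq_div_iff h3).1 h4, rfl⟩

lemma xsmga_rp {m : MG p} {h' t' : X → ℂ} (hh' : AnalyticAt ℂ h' p) (ht' : AnalyticAt ℂ t' p)
    (h0' : gm p t' ≠ 0) (hm : m * gm p t' = gm p h') : rp m =ᶠ[GF p] fun x => h' x / t' x := by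
  obtain ⟨h, t, hh, ht, h0, h1, e⟩ := xsmga_rep m
  have h2 : gm p (fun x => h x * t' x) = gm p (fun x => h' x * t x) := by
    rw [gm_mul hh ht', gm_mul hh' ht, ← h1, ← hm]
    ring
  have h3 := (gm_eq_iff (hh.mul ht') (hh'.mul ht)).1 h2
  filter_upwards [xsmga_ne ht h0, xsmga_ne ht' h0', GF_le p h3] with x h4 h5 h6
  rw [e]
  exact (div_eq_div_iff h4 h5).2 h6

theorem rp_an (m : MG p) : ∀ᶠ x in GF p, AnalyticAt ℂ (rp m) x := by
  obtain ⟨h, t, hh, ht, h0, -, e⟩ := xsmga_rep m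
  filter_upwards [xsmga_ne ht h0, GF_le p hh.eventually_analyticAt,
    GF_le p ht.eventually_analyticAt] with x h1 h2 h3
  rw [e]
  exact h2.div h3 h1

theorem rp_gm (hf : AnalyticAt ℂ f p) : rp (gm p f) =ᶠ[GF p] f := by
  have := xsmga_rp (m := gm p f) (t' := fun _ => 1) hf analyticAt_const
    (by rw [xsmga_one]; exact one_ne_zero) (by rw [xsmga_one, mul_one])
  simpa using this

theorem rp_const (p : X) (c : ℂ) : rp (algebraMap ℂ (MG p) c) =ᶠ[GF p] fun _ => c := by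
  rw [← gm_const]
  exact rp_gm analyticAt_const

theorem rp_add (m m' : MG p) : rp (m + m') =ᶠ[GF p] fun x => rp m x + rp m' x := by
  obtain ⟨h, t, hh, ht, h0, h1, e⟩ := xsmga_rep m
  obtain ⟨h', t', hh', ht', h0', h1', e'⟩ := xsmga_rep m'
  have := xsmga_rp (m := m + m') (h' := fun x => h x * t' x + t x * h' x)
    (t' := fun x => t x * t' x) ((hh.mul ht').add (ht.mul hh')) (ht.mul ht')
    (by rw [gm_mul ht ht']; exact mul_ne_zero h0 h0')
    (by
      rw [gm_add (f := fun x => h x * t' x) (f' := fun x => t x * h' x) (hh.mul ht') (ht.mul hh'),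
        gm_mul ht ht', gm_mul hh ht', gm_mul ht hh', ← h1, ← h1']
      ring)
  filter_upwards [this, xsmga_ne ht h0, xsmga_ne ht' h0'] with x h2 h3 h4
  rw [h2, e, e']
  exact (div_add_div _ _ h3 h4).symm

theorem rp_mul (m m' : MG p) : rp (m * m') =ᶠ[GF p] fun x => rp m x * rp m' x := by
  obtain ⟨h, t, hh, ht, h0, h1, e⟩ := xsmga_rep m
  obtain ⟨h', t', hh', ht', h0', h1', e'⟩ := xsmga_rep m'
  have := xsmga_rp (m := m * m') (h' := fun x => h x * h' x)
    (t' := fun x => t x * t' x) (hh.mul hh') (ht.mul ht')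
    (by rw [gm_mul ht ht']; exact mul_ne_zero h0 h0')
    (by
      rw [gm_mul ht ht', gm_mul hh hh', ← h1, ← h1']
      ring)
  filter_upwards [this] with x h2
  rw [h2, e, e']
  exact (div_mul_div_comm _ _ _ _).symm

lemma xsmga_zero (p : X) : rp (0 : MG p) =ᶠ[GF p] fun _ => 0 := by
  simpa using rp_const p 0

theorem rp_sum {ι : Type} (s : Finset ι) (m : ι → MG p) :
    rp (∑ i ∈ s, m i) =ᶠ[GF p] fun x => ∑ i ∈ s, rp (m i) x := by
  classical
  induction s using Finset.induction_on with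
  | empty => simpa using xsmga_zero p
  | insert a s ha ih =>
    simp only [Finset.sum_insert ha]
    filter_upwards [rp_add (m a) (∑ i ∈ s, m i), ih] with x h1 h2
    rw [h1, h2]

theorem rp_pow (m : MG p) (n : ℕ) : rp (m ^ n) =ᶠ[GF p] fun x => rp m x ^ n := by
  induction n with
  | zero => simpa using rp_const p 1
  | succ n ih =>
    filter_upwards [rp_mul (m ^ n) m, ih] with x h1 h2
    rw [pow_succ, h1, h2, pow_succ]

theorem rp_ne {m : MG p} (hm : m ≠ 0) : ∀ᶠ x in GF p, rp m x ≠ 0 := by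
  obtain ⟨h, t, hh, ht, h0, h1, e⟩ := xsmga_rep m
  filter_upwards [xsmga_ne ht h0, xsmga_ne hh (h1 ▸ mul_ne_zero hm h0)] with x h2 h3
  rw [e]
  exact div_ne_zero h3 h2

theorem rp_DG (v : X) (m : MG p) : rp (DG p v m) =ᶠ[GF p] dv v (rp m) := by
  obtain ⟨h, t, hh, ht, h0, h1, e⟩ := xsmga_rep m
  have hh' := analyticAt_dv hh v
  have ht' := analyticAt_dv ht v
  have h2 := congrArg (DG p v) h1
  rw [Derivation.leibniz, DG_gm v hh, DG_gm v ht, smul_eq_mul, smul_eq_mul] at h2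
  have := xsmga_rp (m := DG p v m) (h' := fun x => dv v h x * t x - h x * dv v t x)
    (t' := fun x => t x * t x) ((hh'.mul ht).sub (hh.mul ht')) (ht.mul ht)
    (by rw [gm_mul ht ht]; exact mul_ne_zero h0 h0)
    (by
      rw [gm_sub (f := fun x => dv v h x * t x) (f' := fun x => h x * dv v t x) (hh'.mul ht)
        (hh.mul ht'), gm_mul ht ht, gm_mul hh' ht, gm_mul hh ht', ← h1, ← h2]
      ring)
  filter_upwards [this, xsmga_ne ht h0, GF_le p hh.eventually_analyticAt,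
    GF_le p ht.eventually_analyticAt] with x h3 h4 h5 h6
  have h7 : AnalyticAt ℂ (fun y => h y / t y) x := h5.div h6 h4
  have h8 : (fun y => h y / t y * t y) =ᶠ[𝓝 x] h := by
    filter_upwards [h6.continuousAt.eventually_ne h4] with y hy using div_mul_cancel₀ _ hy
  have h9 := ((xdd_dv_congr h8 v).symm.trans (xdd_dv_mul h7 h6 v)).self_of_nhds
  simp only [Pi.add_apply] at h9
  rw [h3, e, h9]
  field_simp
  ring

theorem DG_const [FiniteDimensional ℂ X] {ι : Type} [Fintype ι] (b : Module.Basis ι ℂ X)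
    {m : MG p} (h : ∀ i, DG p (b i) m = 0) : m ∈ Set.range (algebraMap ℂ (MG p)) := by
  obtain ⟨h', t, hh, ht, h0, h1, e⟩ := xsmga_rep m
  have h2 : ∀ᶠ x in GF p, ∀ i, dv (b i) (rp m) x = 0 := by
    refine eventually_all.2 fun i => ?_
    filter_upwards [rp_DG (b i) m, xsmga_zero p] with x h3 h4
    rw [← h3, h i, h4]
  have h3 : ∀ᶠ x in GF p, fderiv ℂ (rp m) x = 0 := by
    filter_upwards [h2] with x hx
    exact ContinuousLinearMap.coe_injective (b.ext fun i => hx i)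
  obtain ⟨r, hr, hb⟩ := Metric.eventually_nhds_iff_ball.1
    (hh.eventually_analyticAt.and ht.eventually_analyticAt)
  have := GF_neBot p
  obtain ⟨x, hx, hx'⟩ := ((GF_nhds (h3.and ((rp_an m).and (xsmga_ne ht h0)))).and
    (GF_le p (Metric.ball_mem_nhds p hr))).exists
  obtain ⟨s, hs, hc⟩ := Metric.eventually_nhds_iff_ball.1 hx
  have h4 : ∀ y ∈ Metric.ball x s, rp m y = rp m x := fun y hy =>
    Metric.isOpen_ball.is_const_of_fderiv_eq_zero (convex_ball x s).isPreconnected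
      (fun z hz => (hc z hz).2.1.differentiableAt.differentiableWithinAt)
      (fun z hz => (hc z hz).1) hy (Metric.mem_ball_self hs)
  set c := rp m x
  have hA : AnalyticOnNhd ℂ (fun y => h' y - c * t y) (Metric.ball p r) := fun z hz =>
    (hb z hz).1.sub (analyticAt_const.mul (hb z hz).2)
  have hz : (fun y => h' y - c * t y) =ᶠ[𝓝 x] 0 := by
    filter_upwards [Metric.ball_mem_nhds x hs] with y hy
    have h5 := h4 y hy
    rw [e] at h5
    have h6 : h' y = c * t y := (div_eq_iff (hc y hy).2.2).1 h5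
    simp [h6]
  have h7 := hA.eqOn_zero_of_preconnected_of_eventuallyEq_zero
    (convex_ball p r).isPreconnected hx' hz
  have h8 : gm p h' = gm p (fun y => c * t y) := by
    refine (gm_eq_iff hh (analyticAt_const.mul ht)).2 ?_
    filter_upwards [Metric.ball_mem_nhds p hr] with y hy using sub_eq_zero.1 (h7 hy)
  rw [gm_mul analyticAt_const ht, gm_const, ← h1] at h8
  exact ⟨c, (mul_right_cancel₀ h0 h8).symm⟩

/-- a linear system that is injective at the points near `p` is injective over the germs -/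
theorem gm_inj {ι κ : Type} [Fintype ι] [Finite κ] (c : κ → ι → X → ℂ)
    (hc : ∀ j i, AnalyticAt ℂ (c j i) p)
    (h : ∀ᶠ x in 𝓝 p, ∀ ξ : ι → ℂ, (∀ j, ∑ i, c j i x * ξ i = 0) → ξ = 0) (a : ι → MG p)
    (ha : ∀ j, ∑ i, gm p (c j i) * a i = 0) : a = 0 := by
  have h1 : ∀ᶠ x in GF p, ∀ j, ∑ i, c j i x * rp (a i) x = 0 := by
    refine eventually_all.2 fun j => ?_
    have h2 : ∀ᶠ x in GF p, ∀ i, rp (gm p (c j i) * a i) x = c j i x * rp (a i) x := by
      refine eventually_all.2 fun i => ?_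
      filter_upwards [rp_mul (gm p (c j i)) (a i), rp_gm (hc j i)] with x h3 h4
      rw [h3, h4]
    filter_upwards [h2, rp_sum Finset.univ fun i => gm p (c j i) * a i, xsmga_zero p]
      with x h3 h4 h5
    rw [ha j, h5] at h4
    rw [h4]
    exact Finset.sum_congr rfl fun i _ => (h3 i).symm
  funext i
  by_contra hi
  have := GF_neBot p
  obtain ⟨x, ⟨h2, h3⟩, h4⟩ := ((h1.and (rp_ne hi)).and (GF_le p h)).exists
  exact h3 (congrFun (h4 (fun i => rp (a i) x) h2) i)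

end Pool.Agent.MP_f58063_ag

end
end

section

open Complex Filter Topology Matrix Function

noncomputable section

namespace Pool.Agent.MP_f58063_ag

variable {X : Type} [NormedAddCommGroup X] [NormedSpace ℂ X] {p : X}

theorem xssta_prod {ι : Type} (s : Finset ι) {F : ι → X → ℂ}
    (h : ∀ i ∈ s, AnalyticAt ℂ (F i) p) :
    gm p (fun x => ∏ i ∈ s, F i x) = ∏ i ∈ s, gm p (F i) := by
  classical
  induction s using Finset.induction_on with
  | empty => simpa using gm_const p 1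
  | insert a s ha ih =>
    have h1 := fun i hi => h i (Finset.mem_insert_of_mem hi)
    simp only [Finset.prod_insert ha]
    rw [gm_mul (h a (Finset.mem_insert_self a s)) (Finset.analyticAt_fun_prod s h1), ih h1]

theorem xssta_neg {f : X → ℂ} (h : AnalyticAt ℂ f p) : gm p (fun x => -f x) = -gm p f := by
  have := gm_sub (f := fun _ => 0) analyticAt_const h
  simpa [gm_const] using this

theorem xssta_line {σ : Type} [Fintype σ] [DecidableEq σ] (z w : σ → ℂ) (R : MvPolynomial σ ℂ) :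
    HasDerivAt (fun t : ℂ => MvPolynomial.eval (fun i => z i + t * w i) R)
      (∑ i, MvPolynomial.eval z (MvPolynomial.pderiv i R) * w i) 0 := by
  induction R using MvPolynomial.induction_on with
  | C c => simpa using hasDerivAt_const (0 : ℂ) c
  | add P Q hP hQ =>
    simp only [map_add, add_mul, Finset.sum_add_distrib]
    exact hP.add hQ
  | mul_X P i hP =>
    have h1 : HasDerivAt (fun t : ℂ => z i + t * w i) (w i) 0 := by
      simpa using ((hasDerivAt_id (0 : ℂ)).mul_const (w i)).const_add (z i)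
    have h2 := hP.fun_mul h1
    simp only [map_mul, MvPolynomial.eval_X]
    refine h2.congr_deriv (Eq.symm ?_)
    simp only [Derivation.leibniz, MvPolynomial.pderiv_X, smul_eq_mul, map_add, map_mul,
      MvPolynomial.eval_X, add_mul, Finset.sum_add_distrib, zero_mul, add_zero, Finset.sum_mul]
    rw [add_comm]
    congr 1
    · exact Finset.sum_congr rfl fun j _ => by ring
    · rw [Finset.sum_eq_single i (fun j _ hj => by rw [Pi.single_eq_of_ne hj.symm]; simp) (by simp)]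
      simp

section
variable {l m n : Type} {A A' : X → Matrix l m ℂ} {B : X → Matrix m n ℂ}

theorem gM_congr (hA : ∀ a b, AnalyticAt ℂ (fun x => A x a b) p) (h : ∀ᶠ x in 𝓝 p, A x = A' x) :
    gM p A = gM p A' := by
  ext a b
  have h' : (fun x => A x a b) =ᶠ[𝓝 p] fun x => A' x a b := h.mono fun x hx => by simp only [hx]
  exact (gm_eq_iff (hA a b) ((hA a b).congr h')).2 h'

theorem gM_eq_iff (hA : ∀ a b, AnalyticAt ℂ (fun x => A x a b) p)
    (hA' : ∀ a b, AnalyticAt ℂ (fun x => A' x a b) p) [Finite l] [Finite m] :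
    gM p A = gM p A' ↔ ∀ᶠ x in 𝓝 p, A x = A' x := by
  refine ⟨fun h => ?_, gM_congr hA⟩
  have h1 : ∀ a b, ∀ᶠ x in 𝓝 p, A x a b = A' x a b := fun a b =>
    (gm_eq_iff (hA a b) (hA' a b)).1 (congrFun (congrFun h a) b)
  filter_upwards [eventually_all.2 fun a => eventually_all.2 (h1 a)] with x hx
  exact Matrix.ext hx

theorem gM_const (p : X) (C : Matrix l m ℂ) :
    gM p (fun _ => C) = C.map (algebraMap ℂ (MG p)) := by
  ext a b
  exact gm_const p (C a b)

theorem an_mul [Fintype m] (hA : ∀ a b, AnalyticAt ℂ (fun x => A x a b) p)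
    (hB : ∀ a b, AnalyticAt ℂ (fun x => B x a b) p) (a : l) (b : n) :
    AnalyticAt ℂ (fun x => (A x * B x) a b) p := by
  simp only [Matrix.mul_apply]
  exact Finset.analyticAt_fun_sum _ fun j _ => (hA a j).mul (hB j b)

theorem gM_mul [Fintype m] (hA : ∀ a b, AnalyticAt ℂ (fun x => A x a b) p)
    (hB : ∀ a b, AnalyticAt ℂ (fun x => B x a b) p) :
    gM p (fun x => A x * B x) = gM p A * gM p B := by
  ext a b
  simp only [gM, Matrix.of_apply, Matrix.mul_apply]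
  rw [gm_sum (F := fun j x => A x a j * B x j b) _ fun j _ => (hA a j).mul (hB j b)]
  exact Finset.sum_congr rfl fun j _ => gm_mul (hA a j) (hB j b)

theorem gM_transpose (p : X) (A : X → Matrix l m ℂ) : gM p (fun x => (A x)ᵀ) = (gM p A)ᵀ := by
  rfl

theorem an_dM (hA : ∀ a b, AnalyticAt ℂ (fun x => A x a b) p) (v : X) (a : l) (b : m) :
    AnalyticAt ℂ (fun x => dM A x v a b) p := by
  exact analyticAt_dv (hA a b) v

theorem gM_DG (hA : ∀ a b, AnalyticAt ℂ (fun x => A x a b) p) (v : X) :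
    (gM p A).map (DG p v) = gM p fun x => dM A x v := by
  ext a b
  exact DG_gm v (hA a b)

theorem dM_mul [Fintype m] (hA : ∀ a b, AnalyticAt ℂ (fun x => A x a b) p)
    (hB : ∀ a b, AnalyticAt ℂ (fun x => B x a b) p) (v : X) :
    dM (fun x => A x * B x) p v = dM A p v * B p + A p * dM B p v := by
  ext a b
  simp only [dM, Matrix.of_apply, Matrix.mul_apply, Matrix.add_apply]
  have h := HasFDerivAt.fun_sum (u := Finset.univ) fun j _ =>
    (hA a j).differentiableAt.hasFDerivAt.fun_mul (hB j b).differentiableAt.hasFDerivAt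
  rw [h.fderiv, ← Finset.sum_add_distrib]
  simp only [_root_.sum_apply, _root_.add_apply, _root_.smul_apply, smul_eq_mul]
  exact Finset.sum_congr rfl fun j _ => by ring

end

section
variable {m : Type} [Fintype m] [DecidableEq m] {A : X → Matrix m m ℂ}

theorem an_det (hA : ∀ a b, AnalyticAt ℂ (fun x => A x a b) p) :
    AnalyticAt ℂ (fun x => (A x).det) p := by
  simp only [Matrix.det_apply']
  exact Finset.analyticAt_fun_sum _ fun σ _ =>
    analyticAt_const.mul (Finset.analyticAt_fun_prod _ fun i _ => hA _ _)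

theorem gm_det (hA : ∀ a b, AnalyticAt ℂ (fun x => A x a b) p) :
    gm p (fun x => (A x).det) = (gM p A).det := by
  simp only [Matrix.det_apply']
  rw [gm_sum (F := fun (σ : Equiv.Perm m) x => ((Equiv.Perm.sign σ : ℤ) : ℂ) * ∏ i, A x (σ i) i) _
    fun σ _ => analyticAt_const.mul (Finset.analyticAt_fun_prod _ fun i _ => hA _ _)]
  refine Finset.sum_congr rfl fun σ _ => ?_
  rw [gm_mul analyticAt_const (Finset.analyticAt_fun_prod _ fun i _ => hA _ _), gm_const,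
    map_intCast, xssta_prod _ fun i _ => hA _ _]
  rfl

theorem gm_trace (hA : ∀ a b, AnalyticAt ℂ (fun x => A x a b) p) :
    gm p (fun x => trace (A x)) = trace (gM p A) := by
  exact gm_sum _ fun i _ => hA i i

theorem an_inv (hA : ∀ a b, AnalyticAt ℂ (fun x => A x a b) p) (h : (A p).det ≠ 0) (a b : m) :
    AnalyticAt ℂ (fun x => (A x)⁻¹ a b) p := by
  simp only [Matrix.inv_def, Ring.inverse_eq_inv', Matrix.smul_apply, smul_eq_mul,
    Matrix.adjugate_apply]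
  refine ((an_det hA).inv h).mul (an_det fun i j => ?_)
  simp only [Matrix.updateRow_apply]
  split_ifs
  · exact analyticAt_const
  · exact hA i j

end

variable {g : ℕ}

theorem an_Pm {τ ψ V W : X → Matrix (Fin g) (Fin g) ℂ}
    (hτ : ∀ a b, AnalyticAt ℂ (fun x => τ x a b) p) (hψ : ∀ a b, AnalyticAt ℂ (fun x => ψ x a b) p)
    (hV : ∀ a b, AnalyticAt ℂ (fun x => V x a b) p) (hW : ∀ a b, AnalyticAt ℂ (fun x => W x a b) p)
    (a b : LL g) : AnalyticAt ℂ (fun x => Pm (τ x) (ψ x) (V x) (W x) a b) p := by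
  rcases a with a | a <;> rcases b with b | b
  · exact an_mul (A := fun x => 1 - τ x * ψ x) (B := fun x => (W x)ᵀ)
      (fun i j => analyticAt_const.sub (an_mul hτ hψ i j)) (fun i j => hW j i) a b
  · exact an_mul hτ hV a b
  · exact (an_mul (B := fun x => (W x)ᵀ) hψ (fun i j => hW j i) a b).neg
  · exact hV a b

theorem gM_Pm {τ ψ V W : X → Matrix (Fin g) (Fin g) ℂ}
    (hτ : ∀ a b, AnalyticAt ℂ (fun x => τ x a b) p) (hψ : ∀ a b, AnalyticAt ℂ (fun x => ψ x a b) p)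
    (hV : ∀ a b, AnalyticAt ℂ (fun x => V x a b) p)
    (hW : ∀ a b, AnalyticAt ℂ (fun x => W x a b) p) :
    gM p (fun x => Pm (τ x) (ψ x) (V x) (W x)) = Pm (gM p τ) (gM p ψ) (gM p V) (gM p W) := by
  have h1 : gM p (fun x => 1 - τ x * ψ x) = 1 - gM p τ * gM p ψ := by
    rw [← gM_mul hτ hψ, ← Matrix.map_one (algebraMap ℂ (MG p)) (map_zero _) (map_one _),
      ← gM_const]
    ext a b
    exact gm_sub analyticAt_const (an_mul hτ hψ a b)
  have h2 := gM_mul (A := fun x => 1 - τ x * ψ x) (B := fun x => (W x)ᵀ)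
    (fun i j => analyticAt_const.sub (an_mul hτ hψ i j)) (fun i j => hW j i)
  have h3 := gM_mul (B := fun x => (W x)ᵀ) hψ fun i j => hW j i
  rw [h1, gM_transpose] at h2
  rw [gM_transpose] at h3
  rw [Pm.eq_1 (gM p τ), ← h2, ← h3, ← gM_mul hτ hV]
  ext a b
  rcases a with a | a <;> rcases b with b | b
  · rfl
  · rfl
  · exact xssta_neg (an_mul (B := fun x => (W x)ᵀ) hψ (fun i j => hW j i) a b)
  · rfl

/-- relations that are stable under the symplectic group are stable under its Lie algebra -/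
theorem zar_der {ι : Type} [Fintype ι] {y : ι → X → ℂ} (hy : ∀ i, AnalyticAt ℂ (y i) p)
    {P : X → Matrix (LL g) (LL g) ℂ} (hP : ∀ a b, AnalyticAt ℂ (fun x => P x a b) p)
    (hZ : ∀ R : MvPolynomial (ι ⊕ LL g × LL g) ℂ,
      (∀ᶠ e in 𝓝 p, MvPolynomial.eval (Sum.elim (fun i => y i e) fun a => P e a.1 a.2) R = 0) →
      ∀ᶠ e in 𝓝 p, ∀ M ∈ symplecticGroup (Fin g) ℂ,
        MvPolynomial.eval (Sum.elim (fun i => y i e) fun a => (M * P e) a.1 a.2) R = 0)
    (v : LL g → ℂ) (R : MvPolynomial (ι ⊕ LL g × LL g) ℂ)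
    (h : MvPolynomial.aeval (Sum.elim (fun i => gm p (y i)) fun a => gM p P a.1 a.2) R = 0) :
    ∑ a : LL g × LL g, MvPolynomial.aeval (Sum.elim (fun i => gm p (y i)) fun a => gM p P a.1 a.2)
      (MvPolynomial.pderiv (.inr a) R) *
        ((sv v).map (algebraMap ℂ (MG p)) * gM p P) a.1 a.2 = 0 := by
  classical
  let F : ι ⊕ LL g × LL g → X → ℂ := Sum.elim y fun a x => P x a.1 a.2
  have hF : ∀ i, AnalyticAt ℂ (F i) p := by
    rintro (i | a)
    · exact hy i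
    · exact hP a.1 a.2
  have e1 : (Sum.elim (fun i => gm p (y i)) fun a => gM p P a.1 a.2) = fun i => gm p (F i) := by
    funext i
    rcases i with i | a <;> rfl
  have e2 : ∀ e, (Sum.elim (fun i => y i e) fun a => P e a.1 a.2) = fun i => F i e := by
    intro e
    funext i
    rcases i with i | a <;> rfl
  have hN : ∀ a b, AnalyticAt ℂ (fun x => (sv v * P x) a b) p :=
    an_mul (A := fun _ => sv v) (fun _ _ => analyticAt_const) hP
  rw [e1] at h ⊢
  rw [← (gm_aeval hF R).1, gm_eq_zero (gm_aeval hF R).2] at h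
  rw [← gM_const, ← gM_mul (A := fun _ => sv v) (fun _ _ => analyticAt_const) hP]
  have e3 : ∀ a : LL g × LL g,
      MvPolynomial.aeval (fun i => gm p (F i)) (MvPolynomial.pderiv (.inr a) R) *
        gM p (fun x => sv v * P x) a.1 a.2 =
      gm p fun x => MvPolynomial.eval (fun i => F i x) (MvPolynomial.pderiv (.inr a) R) *
        (sv v * P x) a.1 a.2 := fun a => by
    rw [gm_mul (gm_aeval hF _).2 (hN a.1 a.2), (gm_aeval hF _).1]
    rfl
  simp only [e3]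
  have hs : ∀ a ∈ (Finset.univ : Finset (LL g × LL g)), AnalyticAt ℂ (fun x =>
      MvPolynomial.eval (fun i => F i x) (MvPolynomial.pderiv (.inr a) R) *
        (sv v * P x) a.1 a.2) p := fun a _ => (gm_aeval hF _).2.mul (hN a.1 a.2)
  rw [← gm_sum _ hs, gm_eq_zero (Finset.analyticAt_fun_sum _ hs)]
  filter_upwards [hZ R (by simpa only [e2] using h)] with e he
  have d1 := xssta_line (fun i => F i e) (Sum.elim (fun _ => 0) fun a => (sv v * P e) a.1 a.2) R
  have d2 : (fun t : ℂ => MvPolynomial.eval (fun i => F i e +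
      t * Sum.elim (fun _ : ι => (0 : ℂ)) (fun a : LL g × LL g => (sv v * P e) a.1 a.2) i) R) = fun _ => 0 := by
    funext t
    refine Eq.trans ?_ (he _ (one_add_sv v t))
    congr 2
    funext i
    rcases i with i | a
    · simp [F]
    · simp [F, Matrix.add_mul]
  rw [d2] at d1
  have d3 := d1.unique (hasDerivAt_const _ _)
  simpa [Fintype.sum_sum_type] using d3

end Pool.Agent.MP_f58063_ag

end
end

section

open Complex Filter Topology Matrix Function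

noncomputable section

namespace Pool.Agent.MP_f58063_ag

variable {X : Type} [NormedAddCommGroup X] [NormedSpace ℂ X] {p : X} {f f' : X → ℂ}

lemma xsnasha_mem {K : Type} [Field K] [Algebra ℂ K] {L : Subalgebra ℂ K} {a : K} (h : a ∈ L) :
    IsAlgebraic L a := isAlgebraic_algebraMap (⟨a, h⟩ : L)

/-- the elements that are algebraic over a subalgebra -/
def xsnashaCl {K : Type} [Field K] [Algebra ℂ K] (L : Subalgebra ℂ K) : IntermediateField ℂ K where
  carrier := {a | IsAlgebraic L a}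
  mul_mem' := fun ha hb => IsAlgebraic.mul ha hb
  add_mem' := fun ha hb => IsAlgebraic.add ha hb
  algebraMap_mem' := fun c => xsnasha_mem (L.algebraMap_mem c)
  inv_mem' := fun _ ha => IsAlgebraic.inv ha

theorem NashAt.congr (h : NashAt f p) (e : f =ᶠ[𝓝 p] f') : NashAt f' p :=
  ⟨h.1.congr e, (gm_eq_iff h.1 (h.1.congr e)).2 e ▸ h.2⟩

theorem NashAt.const (c : ℂ) (p : X) : NashAt (fun _ => c) p :=
  ⟨analyticAt_const, xsnasha_mem (by rw [gm_const]; exact Subalgebra.algebraMap_mem _ c)⟩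

theorem NashAt.clm (l : X →L[ℂ] ℂ) (p : X) : NashAt (fun x => l x) p :=
  ⟨l.analyticAt p, xsnasha_mem (Algebra.subset_adjoin ⟨l, rfl⟩)⟩

theorem NashAt.add (h : NashAt f p) (h' : NashAt f' p) : NashAt (fun x => f x + f' x) p :=
  ⟨h.1.add h'.1, by rw [gm_add h.1 h'.1]; exact h.2.add h'.2⟩

theorem NashAt.sub (h : NashAt f p) (h' : NashAt f' p) : NashAt (fun x => f x - f' x) p :=
  ⟨h.1.sub h'.1, by rw [gm_sub h.1 h'.1]; exact h.2.sub h'.2⟩

theorem NashAt.mul (h : NashAt f p) (h' : NashAt f' p) : NashAt (fun x => f x * f' x) p :=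
  ⟨h.1.mul h'.1, by rw [gm_mul h.1 h'.1]; exact h.2.mul h'.2⟩

theorem NashAt.sum {ι : Type} (s : Finset ι) {F : ι → X → ℂ} (h : ∀ i ∈ s, NashAt (F i) p) :
    NashAt (fun x => ∑ i ∈ s, F i x) p := by
  classical
  induction s using Finset.induction_on with
  | empty => simpa using NashAt.const 0 p
  | insert a s ha ih =>
    simp only [Finset.sum_insert ha]
    exact (h a (Finset.mem_insert_self a s)).add
      (ih fun i hi => h i (Finset.mem_insert_of_mem hi))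

theorem NashAt.eval {ι : Type} {F : ι → X → ℂ} (h : ∀ i, NashAt (F i) p) (P : MvPolynomial ι ℂ) :
    NashAt (fun x => MvPolynomial.eval (fun i => F i x) P) p := by
  induction P using MvPolynomial.induction_on with
  | C c => simpa using NashAt.const c p
  | add P Q hP hQ =>
    simp only [map_add]
    exact hP.add hQ
  | mul_X P i hP =>
    simp only [map_mul, MvPolynomial.eval_X]
    exact hP.mul (h i)

theorem NashAt.det {ι : Type} [Fintype ι] [DecidableEq ι] {F : X → Matrix ι ι ℂ}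
    (h : ∀ a b, NashAt (fun x => F x a b) p) : NashAt (fun x => (F x).det) p := by
  have h1 := NashAt.eval (F := fun (a : ι × ι) x => F x a.1 a.2) (fun a => h a.1 a.2)
    (Matrix.mvPolynomialX ι ι ℂ).det
  simp only [Matrix.eval_det_mvPolynomialX] at h1
  exact h1

theorem NashAt.dv (h : NashAt f p) (v : X) : NashAt (dv v f) p := by
  refine ⟨analyticAt_dv h.1 v, ?_⟩
  rw [← DG_gm v h.1]
  refine der_alg_mem (LA p) (xsnashaCl (LA p)) (fun x hx => xsnasha_mem hx)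
    (der_adjoin_mem (xsnashaCl (LA p)).toSubalgebra ?_ ?_) h.2 h.2
  · rintro _ ⟨l, rfl⟩
    exact (NashAt.clm l p).2
  · rintro _ ⟨l, rfl⟩
    have e : MP_f58063_ag.dv v l = fun _ => l v := funext fun x => by
      rw [dv_apply, ContinuousLinearMap.fderiv]
    change IsAlgebraic (LA p) (DG p v (gm p l))
    rw [DG_gm v (l.analyticAt p), e]
    exact (NashAt.const _ p).2

theorem nash_DRing {ι : Type} (b : ι → X) (Ω : Set X) : DRing b Ω {f | ∀ x ∈ Ω, NashAt f x} where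
  an := fun _ hf x hx => (hf x hx).1
  one := fun x _ => NashAt.const 1 x
  sub := fun _ hf _ hf' x hx => (hf x hx).sub (hf' x hx)
  mul := fun _ hf _ hf' x hx => (hf x hx).mul (hf' x hx)
  dv := fun _ hf i x hx => (hf x hx).dv (b i)

variable [FiniteDimensional ℂ X] {ι : Type} [Fintype ι]

omit [Fintype ι] in
lemma xsnasha_an (b : Module.Basis ι ℂ X) (i : ι) (p : X) :
    AnalyticAt ℂ (fun x => b.repr x i) p :=
  (LinearMap.toContinuousLinearMap (b.coord i)).analyticAt p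

theorem LA_eq (b : Module.Basis ι ℂ X) (p : X) :
    LA p = Algebra.adjoin ℂ (Set.range fun i => gm p fun x => b.repr x i) := by
  refine le_antisymm (Algebra.adjoin_le ?_) (Algebra.adjoin_mono ?_)
  · rintro _ ⟨l, rfl⟩
    have e : (l : X → ℂ) = fun x => ∑ i, l (b i) * b.repr x i := funext fun x => by
      conv_lhs => rw [← b.sum_repr x, map_sum]
      exact Finset.sum_congr rfl fun i _ => by rw [map_smul, smul_eq_mul, mul_comm]
    change gm p l ∈ Algebra.adjoin ℂ _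
    rw [e, gm_sum (F := fun i x => l (b i) * b.repr x i) _ fun i _ =>
      analyticAt_const.mul (xsnasha_an b i p)]
    refine Subalgebra.sum_mem _ fun i _ => ?_
    rw [gm_mul analyticAt_const (xsnasha_an b i p), gm_const]
    exact Subalgebra.mul_mem _ (Subalgebra.algebraMap_mem _ _) (Algebra.subset_adjoin ⟨i, rfl⟩)
  · rintro _ ⟨i, rfl⟩
    exact ⟨LinearMap.toContinuousLinearMap (b.coord i), rfl⟩

lemma xsnasha_ind (b : Module.Basis ι ℂ X) (p : X) :
    AlgebraicIndependent ℂ fun i => gm p fun x => b.repr x i := by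
  rw [algebraicIndependent_iff]
  intro P hP
  have h := fun q => gm_aeval (F := fun i x => b.repr x i) (fun i => xsnasha_an b i q) P
  rw [← (h p).1, gm_eq_zero (h p).2] at hP
  have h0 := entire_zero (fun q => (h q).2) hP
  refine MvPolynomial.funext fun v => ?_
  have h1 := congrFun h0 (b.equivFun.symm v)
  simpa only [← Module.Basis.equivFun_apply, LinearEquiv.apply_symm_apply, map_zero,
    Pi.zero_apply] using h1

lemma xsnasha_iff (b : Module.Basis ι ℂ X) (hf : AnalyticAt ℂ f p) :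
    NashAt f p ↔ ∃ P : MvPolynomial (Option ι) ℂ, P ≠ 0 ∧
      ∀ᶠ x in 𝓝 p, MvPolynomial.eval (fun o => o.elim (f x) fun i => b.repr x i) P = 0 := by
  have han : ∀ o : Option ι, AnalyticAt ℂ (fun x => o.elim (f x) fun i => b.repr x i) p := by
    rintro (_ | i)
    · exact hf
    · exact xsnasha_an b i p
  have e : (fun o : Option ι => gm p fun x => o.elim (f x) fun i => b.repr x i) =
      fun o : Option ι => o.elim (gm p f) fun i => gm p fun x => b.repr x i := by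
    funext o
    rcases o with _ | i <;> rfl
  have h := fun P => gm_aeval (F := fun (o : Option ι) x => o.elim (f x) fun i => b.repr x i) han P
  have h2 := (xsnasha_ind b p).option_iff_transcendental (gm p f)
  rw [algebraicIndependent_iff, Transcendental, ← LA_eq b p, ← e] at h2
  constructor
  · intro hn
    by_contra hc
    refine h2.1 (fun P hP => ?_) hn.2
    by_contra h0
    exact hc ⟨P, h0, (gm_eq_zero (h P).2).1 ((h P).1.trans hP)⟩
  · rintro ⟨P, hP, hz⟩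
    refine ⟨hf, ?_⟩
    by_contra hc
    exact hP (h2.2 hc P ((h P).1.symm.trans ((gm_eq_zero (h P).2).2 hz)))

theorem nash_of_rel (b : Module.Basis ι ℂ X) (hf : AnalyticAt ℂ f p)
    {P : MvPolynomial (Option ι) ℂ} (hP : P ≠ 0)
    (h : ∀ᶠ x in 𝓝 p, MvPolynomial.eval (fun o => o.elim (f x) fun i => b.repr x i) P = 0) :
    NashAt f p := (xsnasha_iff b hf).2 ⟨P, hP, h⟩

theorem rel_of_nash (b : Module.Basis ι ℂ X) (h : NashAt f p) :
    ∃ P : MvPolynomial (Option ι) ℂ, P ≠ 0 ∧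
      ∀ᶠ x in 𝓝 p, MvPolynomial.eval (fun o => o.elim (f x) fun i => b.repr x i) P = 0 :=
  (xsnasha_iff b h.1).1 h

theorem nash_of_rel_fin {d : ℕ} {f : (Fin d → ℂ) → ℂ} {p : Fin d → ℂ} (hf : AnalyticAt ℂ f p)
    {P : MvPolynomial (Fin (d + 1)) ℂ} (hP : P ≠ 0)
    (h : ∀ᶠ x in 𝓝 p, MvPolynomial.eval (Fin.cons (f x) x : Fin (d + 1) → ℂ) P = 0) :
    NashAt f p := by
  refine nash_of_rel (Pi.basisFun ℂ (Fin d)) hf (P := MvPolynomial.rename (finSuccEquiv d) P)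
    ((map_ne_zero_iff _ (MvPolynomial.rename_injective _ (finSuccEquiv d).injective)).2 hP)
    (h.mono fun x hx => ?_)
  rw [MvPolynomial.eval_rename, ← hx]
  congr 2
  funext i
  refine Fin.cases ?_ (fun i => ?_) i <;> simp

/-- polynomials in two variables -/
def xsnashaEq : MvPolynomial (Option Unit) ℂ ≃ₐ[ℂ] Polynomial (Polynomial ℂ) :=
  (MvPolynomial.optionEquivLeft ℂ Unit).trans
    (Polynomial.mapAlgEquiv (MvPolynomial.uniqueAlgEquiv ℂ Unit))

lemma xsnasha_ev (s y : ℂ) (P : MvPolynomial (Option Unit) ℂ) :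
    (xsnashaEq P).evalEval s y = MvPolynomial.eval (fun o => o.elim y fun _ => s) P := by
  induction P using MvPolynomial.induction_on with
  | C c => simp [xsnashaEq, MvPolynomial.optionEquivLeft_C]
  | add P Q hP hQ => simp only [map_add, Polynomial.evalEval_add, hP, hQ]
  | mul_X P i hP =>
    simp only [map_mul, Polynomial.evalEval_mul, hP, MvPolynomial.eval_X]
    congr 1
    rcases i with _ | i
    · simp [xsnashaEq, MvPolynomial.optionEquivLeft_X_none]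
    · simp [xsnashaEq, MvPolynomial.optionEquivLeft_X_some, Polynomial.evalEval_C]

theorem nash_iff_one {f : ℂ → ℂ} {t : ℂ} (hf : AnalyticAt ℂ f t) :
    NashAt f t ↔ ∃ P : Polynomial (Polynomial ℂ), P ≠ 0 ∧
      ∀ᶠ s in 𝓝 t, P.evalEval s (f s) = 0 := by
  rw [xsnasha_iff (Module.Basis.singleton Unit ℂ) hf]
  simp only [Module.Basis.singleton_repr, ← xsnasha_ev]
  constructor
  · rintro ⟨P, hP, h⟩
    exact ⟨xsnashaEq P, (map_ne_zero_iff _ xsnashaEq.injective).2 hP, h⟩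
  · rintro ⟨P, hP, h⟩
    exact ⟨xsnashaEq.symm P, (map_ne_zero_iff _ xsnashaEq.symm.injective).2 hP, by
      simpa only [AlgEquiv.apply_symm_apply] using h⟩

/-- the unique analytic solution of a linear system with Nash coefficients is Nash -/
theorem nash_solve {κ : Type} [Finite κ] {c : ι → X → ℂ} {Y : κ → ι → X → ℂ} {r : κ → X → ℂ}
    (hc : ∀ i, AnalyticAt ℂ (c i) p) (hY : ∀ j i, NashAt (Y j i) p) (hr : ∀ j, NashAt (r j) p)
    (he : ∀ᶠ x in 𝓝 p, ∀ j, ∑ i, Y j i x * c i x = r j x)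
    (hi : ∀ᶠ x in 𝓝 p, ∀ ξ : ι → ℂ, (∀ j, ∑ i, Y j i x * ξ i = 0) → ξ = 0) (i : ι) :
    NashAt (c i) p := by
  refine ⟨hc i, alg_of_der (LA p) fun w hw => ?_⟩
  refine congrFun (gm_inj Y (fun j i => (hY j i).1) hi (fun i => w (gm p (c i))) fun j => ?_) i
  have han : ∀ i ∈ Finset.univ, AnalyticAt ℂ (fun x => Y j i x * c i x) p :=
    fun i _ => (hY j i).1.mul (hc i)
  have h1 : ∑ i, gm p (Y j i) * gm p (c i) = gm p (r j) := by
    rw [← (gm_eq_iff (Finset.analyticAt_fun_sum _ han) (hr j).1).2 (he.mono fun x hx => hx j),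
      gm_sum _ han]
    exact Finset.sum_congr rfl fun i _ => (gm_mul (hY j i).1 (hc i)).symm
  rw [← der_alg_zero (LA p) hw (hr j).2, ← h1, map_sum]
  refine Finset.sum_congr rfl fun i _ => ?_
  rw [Derivation.leibniz, der_alg_zero (LA p) hw (hY j i).2, smul_zero, add_zero, smul_eq_mul]

end Pool.Agent.MP_f58063_ag

end
end

section

open Complex Filter Topology Matrix Function

noncomputable section

namespace Pool.Agent.MP_f58063_ag

variable {g : ℕ} {Ω : Set (Mat g)} {f f' : Mat g → ℂ}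

lemma xsmer_ev {h t : Mat g → ℂ} (hΩ : IsOpen Ω) (e : ∀ τ ∈ Ω, t τ ≠ 0 ∧ f τ = h τ / t τ)
    {τ : Mat g} (hτ : τ ∈ Ω) : f =ᶠ[𝓝 τ] fun σ => h σ / t σ :=
  Filter.Eventually.mono (hΩ.mem_nhds hτ) fun σ hσ => (e σ hσ).2

lemma xsmer_expand (L : Mat g →L[ℂ] ℂ) (v : Mat g) :
    L v = ∑ a, ∑ b, v a b * L (Pi.single a (Pi.single b 1)) := by
  have e : v = ∑ a, ∑ b, v a b • (Pi.single a (Pi.single b 1) : Mat g) := by
    ext i j
    simp only [Finset.sum_apply, Pi.smul_apply, smul_eq_mul]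
    rw [Finset.sum_eq_single i]
    · rw [Finset.sum_eq_single j]
      · simp
      · intro b _ hb
        simp [Pi.single_eq_of_ne hb.symm]
      · simp
    · intro a _ ha
      simp [Pi.single_eq_of_ne ha.symm]
    · simp
  conv_lhs => rw [e]
  simp only [map_sum, map_smul, smul_eq_mul]

lemma xsmer_quot {h t : Mat g → ℂ} {τ : Mat g} (hh : AnalyticAt ℂ h τ) (ht : AnalyticAt ℂ t τ)
    (h0 : t τ ≠ 0) (v : Mat g) :
    fderiv ℂ (fun σ => h σ / t σ) τ v = (dv v h τ * t τ - h τ * dv v t τ) / (t τ * t τ) := by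
  have h1 : AnalyticAt ℂ (fun σ => h σ / t σ) τ := hh.div ht h0
  have h2 : h =ᶠ[𝓝 τ] fun σ => h σ / t σ * t σ :=
    (ht.continuousAt.eventually_ne h0).mono fun σ hσ => by
      simp only
      rw [div_mul_cancel₀ _ hσ]
  have h3 : dv v h τ = h τ / t τ * dv v t τ + t τ * fderiv ℂ (fun σ => h σ / t σ) τ v := by
    rw [dv_apply, h2.fderiv_eq, fderiv_fun_mul h1.differentiableAt ht.differentiableAt]
    simp [dv_apply]
  rw [h3]
  field_simp
  ring

theorem Mer.analyticAt (h : Mer Ω f) (hΩ : IsOpen Ω) (hP : Ω ⊆ PosIm g) {τ : Mat g} (hτ : τ ∈ Ω) :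
    AnalyticAt ℂ f τ := by
  obtain ⟨a, t, ha, ht, e⟩ := h
  exact ((ha τ (hP hτ)).div (ht τ (hP hτ)) (e τ hτ).1).congr (xsmer_ev hΩ e hτ).symm

theorem Mer.of_analytic (h : AnalyticOnNhd ℂ f (PosIm g)) : Mer Ω f :=
  ⟨f, fun _ => 1, h, fun _ _ => analyticAt_const, fun _ _ => ⟨one_ne_zero, (div_one _).symm⟩⟩

theorem Mer.const (c : ℂ) : Mer Ω fun _ => c :=
  Mer.of_analytic fun _ _ => analyticAt_const

theorem Mer.entry (a b : Fin g) : Mer Ω fun τ => τ a b :=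
  Mer.of_analytic fun τ _ =>
    ((ContinuousLinearMap.proj (R := ℂ) (φ := fun _ : Fin g => ℂ) b).comp
      (ContinuousLinearMap.proj (R := ℂ) (φ := fun _ : Fin g => Fin g → ℂ) a)).analyticAt τ

theorem Mer.congr (h : Mer Ω f) (e : ∀ τ ∈ Ω, f τ = f' τ) : Mer Ω f' := by
  obtain ⟨a, t, ha, ht, e'⟩ := h
  exact ⟨a, t, ha, ht, fun τ hτ => ⟨(e' τ hτ).1, (e τ hτ).symm.trans (e' τ hτ).2⟩⟩

theorem Mer.add (h : Mer Ω f) (h' : Mer Ω f') : Mer Ω fun τ => f τ + f' τ := by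
  obtain ⟨a, t, ha, ht, e⟩ := h
  obtain ⟨a', t', ha', ht', e'⟩ := h'
  refine ⟨fun τ => a τ * t' τ + t τ * a' τ, fun τ => t τ * t' τ,
    fun τ hτ => ((ha τ hτ).mul (ht' τ hτ)).add ((ht τ hτ).mul (ha' τ hτ)),
    fun τ hτ => (ht τ hτ).mul (ht' τ hτ),
    fun τ hτ => ⟨mul_ne_zero (e τ hτ).1 (e' τ hτ).1, ?_⟩⟩
  simp only
  rw [(e τ hτ).2, (e' τ hτ).2, div_add_div _ _ (e τ hτ).1 (e' τ hτ).1]

theorem Mer.neg (h : Mer Ω f) : Mer Ω fun τ => -f τ := by
  obtain ⟨a, t, ha, ht, e⟩ := h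
  refine ⟨fun τ => -a τ, t, fun τ hτ => (ha τ hτ).neg, ht, fun τ hτ => ⟨(e τ hτ).1, ?_⟩⟩
  simp only
  rw [(e τ hτ).2, neg_div]

theorem Mer.sub (h : Mer Ω f) (h' : Mer Ω f') : Mer Ω fun τ => f τ - f' τ :=
  (h.add h'.neg).congr fun _ _ => (sub_eq_add_neg _ _).symm

theorem Mer.mul (h : Mer Ω f) (h' : Mer Ω f') : Mer Ω fun τ => f τ * f' τ := by
  obtain ⟨a, t, ha, ht, e⟩ := h
  obtain ⟨a', t', ha', ht', e'⟩ := h'
  refine ⟨fun τ => a τ * a' τ, fun τ => t τ * t' τ,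
    fun τ hτ => (ha τ hτ).mul (ha' τ hτ), fun τ hτ => (ht τ hτ).mul (ht' τ hτ),
    fun τ hτ => ⟨mul_ne_zero (e τ hτ).1 (e' τ hτ).1, ?_⟩⟩
  simp only
  rw [(e τ hτ).2, (e' τ hτ).2, div_mul_div_comm]

theorem Mer.div (h : Mer Ω f) (h' : Mer Ω f') (h0 : ∀ τ ∈ Ω, f' τ ≠ 0) :
    Mer Ω fun τ => f τ / f' τ := by
  obtain ⟨a, t, ha, ht, e⟩ := h
  obtain ⟨a', t', ha', ht', e'⟩ := h'
  have h1 : ∀ τ ∈ Ω, a' τ ≠ 0 := fun τ hτ h2 => h0 τ hτ (by rw [(e' τ hτ).2, h2, zero_div])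
  refine ⟨fun τ => a τ * t' τ, fun τ => t τ * a' τ,
    fun τ hτ => (ha τ hτ).mul (ht' τ hτ), fun τ hτ => (ht τ hτ).mul (ha' τ hτ),
    fun τ hτ => ⟨mul_ne_zero (e τ hτ).1 (h1 τ hτ), ?_⟩⟩
  simp only
  rw [(e τ hτ).2, (e' τ hτ).2, div_div_div_eq]

theorem Mer.sum {ι : Type} (s : Finset ι) {F : ι → Mat g → ℂ} (h : ∀ i ∈ s, Mer Ω (F i)) :
    Mer Ω fun τ => ∑ i ∈ s, F i τ := by
  classical
  induction s using Finset.induction_on with
  | empty => simpa using Mer.const 0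
  | insert a s ha ih =>
    simp only [Finset.sum_insert ha]
    exact (h a (Finset.mem_insert_self a s)).add (ih fun i hi => h i (Finset.mem_insert_of_mem hi))

lemma xsmer_prod {ι : Type} (s : Finset ι) {F : ι → Mat g → ℂ} (h : ∀ i ∈ s, Mer Ω (F i)) :
    Mer Ω fun τ => ∏ i ∈ s, F i τ := by
  classical
  induction s using Finset.induction_on with
  | empty => simpa using Mer.const 1
  | insert a s ha ih =>
    simp only [Finset.prod_insert ha]
    exact (h a (Finset.mem_insert_self a s)).mul (ih fun i hi => h i (Finset.mem_insert_of_mem hi))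

lemma xsmer_det {m : Type} [Fintype m] [DecidableEq m] {A : Mat g → Matrix m m ℂ}
    (hA : ∀ a b, Mer Ω fun τ => A τ a b) : Mer Ω fun τ => (A τ).det := by
  simp only [Matrix.det_apply']
  exact Mer.sum _ fun σ _ => (Mer.const _).mul (xsmer_prod _ fun i _ => hA _ _)

theorem Mer.eval {ι : Type} {F : ι → Mat g → ℂ} (h : ∀ i, Mer Ω (F i)) (P : MvPolynomial ι ℂ) :
    Mer Ω fun τ => MvPolynomial.eval (fun i => F i τ) P := by
  induction P using MvPolynomial.induction_on with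
  | C c => simpa using Mer.const c
  | add P Q hP hQ =>
    simp only [map_add]
    exact hP.add hQ
  | mul_X P i hP =>
    simp only [map_mul, MvPolynomial.eval_X]
    exact hP.mul (h i)

theorem Mer.matMul {l m n : Type} [Fintype m] {A : Mat g → Matrix l m ℂ}
    {B : Mat g → Matrix m n ℂ} (hA : ∀ a b, Mer Ω fun τ => A τ a b)
    (hB : ∀ a b, Mer Ω fun τ => B τ a b) (a : l) (b : n) : Mer Ω fun τ => (A τ * B τ) a b := by
  simp only [Matrix.mul_apply]
  exact Mer.sum _ fun j _ => (hA a j).mul (hB j b)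

theorem Mer.matInv {m : Type} [Fintype m] [DecidableEq m] {A : Mat g → Matrix m m ℂ}
    (hA : ∀ a b, Mer Ω fun τ => A τ a b) (h0 : ∀ τ ∈ Ω, (A τ).det ≠ 0) (a b : m) :
    Mer Ω fun τ => (A τ)⁻¹ a b := by
  have h1 : Mer Ω fun τ => ((A τ).updateRow b (Pi.single a 1)).det := by
    refine xsmer_det fun i j => ?_
    by_cases hi : i = b
    · subst hi
      simp only [Matrix.updateRow_self]
      exact Mer.const _
    · simp only [Matrix.updateRow_ne hi]
      exact hA i j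
  refine (h1.div (xsmer_det hA) h0).congr fun τ _ => ?_
  rw [Matrix.inv_def, Matrix.smul_apply, Matrix.adjugate_apply, Ring.inverse_eq_inv', smul_eq_mul,
    div_eq_inv_mul]

lemma xsmer_fderiv (h : Mer Ω f) (hΩ : IsOpen Ω) (hP : Ω ⊆ PosIm g) {ξ : Mat g → Mat g}
    (hξ : ∀ a b, Mer Ω fun τ => ξ τ a b) : Mer Ω fun τ => fderiv ℂ f τ (ξ τ) := by
  obtain ⟨a, t, ha, ht, e⟩ := h
  have h1 : ∀ v : Mat g, Mer Ω fun τ => fderiv ℂ f τ v := by
    intro v
    refine ⟨fun τ => dv v a τ * t τ - a τ * dv v t τ, fun τ => t τ * t τ,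
      fun τ hτ => ((analyticAt_dv (ha τ hτ) v).mul (ht τ hτ)).sub
        ((ha τ hτ).mul (analyticAt_dv (ht τ hτ) v)),
      fun τ hτ => (ht τ hτ).mul (ht τ hτ),
      fun τ hτ => ⟨mul_ne_zero (e τ hτ).1 (e τ hτ).1, ?_⟩⟩
    simp only
    rw [(xsmer_ev hΩ e hτ).fderiv_eq, xsmer_quot (ha τ (hP hτ)) (ht τ (hP hτ)) (e τ hτ).1]
  refine (Mer.sum Finset.univ fun i _ => Mer.sum Finset.univ fun j _ =>
    (hξ i j).mul (h1 (Pi.single i (Pi.single j 1)))).congr fun τ _ => ?_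
  exact (xsmer_expand _ _).symm

theorem Mer.fderiv (h : Mer Ω f) (hΩ : IsOpen Ω) (hP : Ω ⊆ PosIm g) {ξ : Mat g → Mat g}
    (hξ : ∀ a b, Mer Ω fun τ => ξ τ a b) : Mer Ω fun τ => fderiv ℂ f τ (ξ τ) :=
  xsmer_fderiv h hΩ hP hξ

lemma xsmer_modfun {Γ : Subgroup (Sp g)} (hΩ : IsOpen Ω)
    (hst : ∀ γ ∈ Γ, ∀ τ ∈ Siegel g ∩ Ω, act γ τ ∈ Ω) {τ₁ : Mat g} (h1 : τ₁ ∈ Siegel g)
    (h2 : τ₁ ∈ Ω) (hf : Mod Γ Ω f) :
    ∃ h t : Mat g → ℂ, IsModFun Γ h t ∧ ∀ τ ∈ Ω, t τ ≠ 0 ∧ f τ = h τ / t τ := by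
  obtain ⟨⟨a, t, ha, ht, e⟩, hinv⟩ := hf
  refine ⟨a, t, ⟨ha.mono Siegel_sub, ht.mono Siegel_sub, fun γ hγ τ hτ => ?_⟩, e⟩
  have hF : AnalyticOnNhd ℂ (fun σ => a (act γ σ) * t σ - a σ * t (act γ σ)) (Siegel g) :=
    fun σ hσ =>
      (((ha _ (Siegel_sub (act_mem γ hσ))).comp (act_analytic γ hσ)).mul
        (ht σ (Siegel_sub hσ))).sub
      ((ha σ (Siegel_sub hσ)).mul ((ht _ (Siegel_sub (act_mem γ hσ))).comp (act_analytic γ hσ)))
  refine sub_eq_zero.1 (siegel_id hF h1 ?_ τ hτ)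
  filter_upwards [self_mem_nhdsWithin, mem_nhdsWithin_of_mem_nhds (hΩ.mem_nhds h2)] with σ s1 s2
  have s3 := hst γ hγ σ ⟨s1, s2⟩
  have s4 := hinv γ hγ σ ⟨s1, s2⟩
  rw [(e _ s3).2, (e _ s2).2, div_eq_div_iff (e _ s3).1 (e _ s2).1] at s4
  exact sub_eq_zero.2 s4

/-- modular functions are Nash in coordinates given by modular functions -/
theorem nash_of_mod {S : Set (Mat g)} {d : ℕ} (hA : AlgDim S d) {Γ : Subgroup (Sp g)}
    (hΓ : Γ.FiniteIndex) (hΩ : IsOpen Ω) (hP : Ω ⊆ PosIm g)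
    (hst : ∀ γ ∈ Γ, ∀ τ ∈ Siegel g ∩ Ω, act γ τ ∈ Ω) {y : Fin d → Mat g → ℂ}
    (hy : ∀ i, Mod Γ Ω (y i)) (hf : Mod Γ Ω f) {ψ : (Fin d → ℂ) → Mat g} {x : Fin d → ℂ}
    (hψ : AnalyticAt ℂ ψ x)
    (h1 : ∀ᶠ x' in 𝓝 x, ψ x' ∈ S ∧ ψ x' ∈ Siegel g ∧ ψ x' ∈ Ω ∧ ∀ i, y i (ψ x') = x' i) :
    NashAt (fun x' => f (ψ x')) x := by
  obtain ⟨a1, a2, a3, -⟩ := h1.self_of_nhds
  have hF : ∀ i : Fin (d + 1), Mod Γ Ω ((Fin.cons f y : Fin (d + 1) → Mat g → ℂ) i) :=
    fun i => Fin.cases hf hy i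
  choose h t hm e using fun i => xsmer_modfun hΩ hst a2 a3 (hF i)
  obtain ⟨P, hP0, hrel⟩ := hA Γ hΓ h t hm fun i => ⟨ψ x, a1, (e i _ a3).1⟩
  refine nash_of_rel_fin ((hf.1.analyticAt hΩ hP a3).comp hψ) hP0 (h1.mono fun x' hx => ?_)
  obtain ⟨b1, -, b3, b4⟩ := hx
  have h2 := hrel _ b1 fun i => (e i _ b3).1
  have h3 : (fun i => h i (ψ x') / t i (ψ x')) =
      (Fin.cons (f (ψ x')) x' : Fin (d + 1) → ℂ) := by
    funext i
    rw [← (e i _ b3).2]
    refine Fin.cases ?_ (fun j => ?_) i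
    · rfl
    · simpa using b4 j
  rw [h3] at h2
  exact h2

end Pool.Agent.MP_f58063_ag

end
end

section

open Complex Filter Topology Matrix Function

noncomputable section

namespace Pool.Agent.MP_f58063_ag

lemma xsjet_hasF {g : ℕ} (M : Matrix (Fin g) (Fin g) ℂ) (z : EE g) :
    HasFDerivAt (fun z : EE g => M *ᵥ z)
      (LinearMap.toContinuousLinearMap (Matrix.toLin' M)) z :=
  (LinearMap.toContinuousLinearMap (Matrix.toLin' M)).hasFDerivAt

lemma xsjet_an {g : ℕ} (M : Matrix (Fin g) (Fin g) ℂ) (z : EE g) :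
    AnalyticAt ℂ (fun z : EE g => M *ᵥ z) z :=
  (LinearMap.toContinuousLinearMap (Matrix.toLin' M)).analyticAt z

lemma xsjet_col {g : ℕ} (M : Matrix (Fin g) (Fin g) ℂ) (a : Fin g) :
    M *ᵥ ee a = ∑ i, M i a • ee i := by
  ext k
  simp [Finset.sum_apply, Pi.single_apply]

lemma xsjet_lin {g : ℕ} {G : EE g → ℂ} (hG : ∀ z, AnalyticAt ℂ G z)
    (M : Matrix (Fin g) (Fin g) ℂ) (a : Fin g) :
    dv (ee a) (fun z => G (M *ᵥ z)) = fun z => ∑ i, M i a * dv (ee i) G (M *ᵥ z) := by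
  funext z
  have h := ((hG (M *ᵥ z)).differentiableAt.hasFDerivAt.comp z (xsjet_hasF M z)).fderiv
  change fderiv ℂ (G ∘ fun z : EE g => M *ᵥ z) z (ee a) = _
  rw [h]
  change fderiv ℂ G (M *ᵥ z) (M *ᵥ ee a) = _
  rw [xsjet_col, map_sum]
  simp only [map_smul, smul_eq_mul, dv_apply]

lemma xsjet_lin2 {g : ℕ} {G : EE g → ℂ} (hG : ∀ z, AnalyticAt ℂ G z)
    (M : Matrix (Fin g) (Fin g) ℂ) (a b : Fin g) :
    dv (ee a) (dv (ee b) fun z => G (M *ᵥ z)) 0 =
      ∑ i, M i b * ∑ k, M k a * dv (ee k) (dv (ee i) G) 0 := by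
  rw [xsjet_lin hG, dv_apply, fderiv_fun_sum]
  · rw [_root_.sum_apply]
    refine Finset.sum_congr rfl fun i _ => ?_
    have h1 : ∀ z, AnalyticAt ℂ (dv (ee i) G) z := fun z => analyticAt_dv (hG z) _
    have h2 : DifferentiableAt ℂ (fun z : EE g => dv (ee i) G (M *ᵥ z)) 0 :=
      ((h1 _).comp (xsjet_an M 0)).differentiableAt
    rw [fderiv_const_mul h2, _root_.smul_apply, smul_eq_mul]
    congr 1
    have h3 := congrFun (xsjet_lin h1 M a) 0
    rw [dv_apply, Matrix.mulVec_zero] at h3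
    exact h3
  · intro i _
    exact (((analyticAt_dv (hG _) _).comp (xsjet_an M 0)).differentiableAt).const_mul _

/-- the quadratic form as a function -/
lemma xsjet_q {g : ℕ} (S : Matrix (Fin g) (Fin g) ℂ) (hS : Sᵀ = S) (z : EE g) :
    ∃ L : EE g →L[ℂ] ℂ, HasFDerivAt (fun z : EE g => z ⬝ᵥ S *ᵥ z) L z ∧
      ∀ b, L (ee b) = 2 * (S *ᵥ z) b := by
  have h1 : ∀ i, HasFDerivAt (fun z : EE g => z i * (S *ᵥ z) i)
      (z i • ((ContinuousLinearMap.proj i : EE g →L[ℂ] ℂ).comp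
        (LinearMap.toContinuousLinearMap (Matrix.toLin' S))) +
        (S *ᵥ z) i • (ContinuousLinearMap.proj i : EE g →L[ℂ] ℂ)) z := fun i =>
    (ContinuousLinearMap.proj i : EE g →L[ℂ] ℂ).hasFDerivAt.mul
      ((ContinuousLinearMap.proj i : EE g →L[ℂ] ℂ).hasFDerivAt.comp z (xsjet_hasF S z))
  refine ⟨_, HasFDerivAt.fun_sum (u := Finset.univ) fun i _ => h1 i, fun b => ?_⟩
  have h2 : ∀ i, S i b = S b i := fun i => by
    have := congrFun (congrFun hS b) i
    rwa [Matrix.transpose_apply] at this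
  simp only [_root_.sum_apply, _root_.add_apply,
    _root_.smul_apply, ContinuousLinearMap.comp_apply, ContinuousLinearMap.proj_apply,
    LinearMap.coe_toContinuousLinearMap', Matrix.toLin'_apply, smul_eq_mul, Finset.sum_add_distrib,
    Matrix.mulVec_single_one, Pi.single_apply, mul_ite, mul_one, mul_zero, Finset.sum_ite_eq',
    Finset.mem_univ, if_true, Matrix.col_apply, h2]
  rw [two_mul]
  congr 1
  simp only [Matrix.mulVec, dotProduct, mul_comm]

lemma xsjet_qan {g : ℕ} (S : Matrix (Fin g) (Fin g) ℂ) (z : EE g) :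
    AnalyticAt ℂ (fun z : EE g => z ⬝ᵥ S *ᵥ z) z := by
  have h1 : ∀ i, AnalyticAt ℂ (fun z : EE g => z i * (S *ᵥ z) i) z := fun i =>
    ((ContinuousLinearMap.proj i : EE g →L[ℂ] ℂ).analyticAt z).mul
      (((ContinuousLinearMap.proj i : EE g →L[ℂ] ℂ).analyticAt _).comp (xsjet_an S z))
  exact Finset.analyticAt_fun_sum Finset.univ fun i _ => h1 i

lemma xsjet_d1 {g : ℕ} {F : EE g → ℂ} (hF : ∀ z, AnalyticAt ℂ F z)
    (S : Matrix (Fin g) (Fin g) ℂ) (hS : Sᵀ = S) (κ : ℂ) (b : Fin g) :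
    dv (ee b) (fun z => κ * exp (Real.pi * I * (z ⬝ᵥ S *ᵥ z)) * F z) =
      fun z => κ * exp (Real.pi * I * (z ⬝ᵥ S *ᵥ z)) *
        (2 * Real.pi * I * (S *ᵥ z) b * F z + dv (ee b) F z) := by
  funext z
  obtain ⟨L, hL, hL'⟩ := xsjet_q S hS z
  have h := ((((hL.const_mul (Real.pi * I : ℂ)).cexp).const_mul κ).mul
    (hF z).differentiableAt.hasFDerivAt).fderiv
  rw [dv_apply]
  change fderiv ℂ ((fun z => κ * exp (Real.pi * I * (z ⬝ᵥ S *ᵥ z))) * F) z (ee b) = _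
  rw [h]
  simp only [_root_.add_apply, _root_.smul_apply, smul_eq_mul, hL',
    dv_apply]
  ring

lemma xsjet_d2 {g : ℕ} {F : EE g → ℂ} (hF : ∀ z, AnalyticAt ℂ F z)
    (S : Matrix (Fin g) (Fin g) ℂ) (hS : Sᵀ = S) (κ : ℂ) (a b : Fin g) :
    dv (ee a) (dv (ee b) fun z => κ * exp (Real.pi * I * (z ⬝ᵥ S *ᵥ z)) * F z) 0 =
      κ * (2 * Real.pi * I * F 0 * S b a + dv (ee a) (dv (ee b) F) 0) := by
  have h0 : ∀ z, AnalyticAt ℂ (fun z : EE g => (S *ᵥ z) b) z := fun z =>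
    ((ContinuousLinearMap.proj b : EE g →L[ℂ] ℂ).analyticAt _).comp (xsjet_an S z)
  have h1 : ∀ z, AnalyticAt ℂ
      (fun z => 2 * Real.pi * I * (S *ᵥ z) b * F z + dv (ee b) F z) z := fun z =>
    ((analyticAt_const.mul (h0 z)).mul (hF z)).add (analyticAt_dv (hF z) _)
  rw [xsjet_d1 hF S hS, xsjet_d1 h1 S hS]
  have h2 : HasFDerivAt (fun z : EE g => (S *ᵥ z) b)
      ((ContinuousLinearMap.proj b : EE g →L[ℂ] ℂ).comp
        (LinearMap.toContinuousLinearMap (Matrix.toLin' S))) 0 :=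
    (ContinuousLinearMap.proj b : EE g →L[ℂ] ℂ).hasFDerivAt.comp 0 (xsjet_hasF S 0)
  have h3 := (((h2.const_mul (2 * Real.pi * I : ℂ)).mul
    (hF 0).differentiableAt.hasFDerivAt).add
    (analyticAt_dv (hF 0) (ee b)).differentiableAt.hasFDerivAt).fderiv
  have h4 : dv (ee a) (fun z => 2 * Real.pi * I * (S *ᵥ z) b * F z + dv (ee b) F z) 0 =
      2 * Real.pi * I * F 0 * S b a + dv (ee a) (dv (ee b) F) 0 := by
    rw [dv_apply]
    change fderiv ℂ ((fun z : EE g => 2 * Real.pi * I * (S *ᵥ z) b) * F + dv (ee b) F) 0 (ee a) = _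
    rw [h3]
    simp only [_root_.add_apply, _root_.smul_apply, smul_eq_mul,
      ContinuousLinearMap.comp_apply, ContinuousLinearMap.proj_apply,
      LinearMap.coe_toContinuousLinearMap', Matrix.toLin'_apply, Matrix.mulVec_single_one,
      Matrix.col_apply, Matrix.mulVec_zero, Pi.zero_apply, mul_zero, zero_mul, zero_add, dv_apply]
    ring
  simp only [h4, Matrix.mulVec_zero, Pi.zero_apply, mul_zero, zero_mul, zero_add, dotProduct_zero,
    exp_zero, mul_one]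

/-- the two-jet at the origin of a transformed function -/
lemma xsjet_main {g : ℕ} {F G : EE g → ℂ} (hF : ∀ z, AnalyticAt ℂ F z)
    (hG : ∀ z, AnalyticAt ℂ G z) {j S : Matrix (Fin g) (Fin g) ℂ} (hj : j.det ≠ 0) (hS : Sᵀ = S)
    {κ : ℂ} (h : ∀ z, G (j⁻¹ᵀ *ᵥ z) = κ * exp (Real.pi * I * (z ⬝ᵥ S *ᵥ z)) * F z) :
    G 0 = κ * F 0 ∧
    (∀ a, dv (ee a) G 0 = κ * ∑ b, j a b * dv (ee b) F 0) ∧
    (Matrix.of fun a b => dv (ee a) (dv (ee b) G) 0) =
      κ • (j * ((2 * Real.pi * I * F 0) • S +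
        Matrix.of fun a b => dv (ee a) (dv (ee b) F) 0) * jᵀ) := by
  have hu : IsUnit j.det := isUnit_iff_ne_zero.2 hj
  have he : (fun z => G (j⁻¹ᵀ *ᵥ z)) =
      fun z => κ * exp (Real.pi * I * (z ⬝ᵥ S *ᵥ z)) * F z := funext h
  refine ⟨by simpa using h 0, ?_, ?_⟩
  · have h1 : j⁻¹ *ᵥ (fun a => dv (ee a) G 0) = κ • fun a => dv (ee a) F 0 := by
      funext a
      have h2 := congrFun (xsjet_lin hG j⁻¹ᵀ a) 0
      rw [he, xsjet_d1 hF S hS] at h2
      simp only [Matrix.mulVec_zero, Pi.zero_apply, mul_zero, zero_mul, zero_add, dotProduct_zero,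
        exp_zero, mul_one, Matrix.transpose_apply] at h2
      exact h2.symm
    have h3 := congrArg (fun v => j *ᵥ v) h1
    simp only [Matrix.mulVec_mulVec, Matrix.mul_nonsing_inv j hu, Matrix.one_mulVec,
      Matrix.mulVec_smul] at h3
    intro a
    exact congrFun h3 a
  · have h1 : j⁻¹ * (Matrix.of fun a b => dv (ee a) (dv (ee b) G) 0) * j⁻¹ᵀ =
        κ • ((2 * Real.pi * I * F 0) • S +
          Matrix.of fun a b => dv (ee a) (dv (ee b) F) 0) := by
      ext a b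
      have h2 := xsjet_lin2 hG j⁻¹ᵀ a b
      rw [he, xsjet_d2 hF S hS] at h2
      have h3 : S b a = S a b := by
        have := congrFun (congrFun hS a) b
        rwa [Matrix.transpose_apply] at this
      simp only [Matrix.smul_apply, Matrix.add_apply, Matrix.of_apply, smul_eq_mul,
        Matrix.mul_apply, Matrix.transpose_apply, ← h3] at h2 ⊢
      rw [h2]
      exact Finset.sum_congr rfl fun i _ => mul_comm _ _
    have h4 : j⁻¹ᵀ * jᵀ = 1 := by
      rw [← Matrix.transpose_mul, Matrix.mul_nonsing_inv j hu, Matrix.transpose_one]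
    rw [← Matrix.smul_mul, ← Matrix.mul_smul, ← h1, ← Matrix.mul_assoc, ← Matrix.mul_assoc,
      Matrix.mul_nonsing_inv j hu, Matrix.one_mul, Matrix.mul_assoc, h4, Matrix.mul_one]

theorem jet_act {g N : ℕ} (hN : N ≠ 0) {γ : Sp g} (hγ : γ ∈ Gam g (2 * N ^ 2)) {τ : Mat g}
    (hτ : τ ∈ Siegel g) {c₀ : LL g → ℂ} {cs : Fin g → LL g → ℂ} (h0 : IsCh N c₀)
    (hs : ∀ i, IsCh N (cs i)) (hΩ : τ ∈ Om c₀ cs) :
    act γ τ ∈ Om c₀ cs ∧ (∀ c, IsCh N c → yq c₀ c (act γ τ) = yq c₀ c τ) ∧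
      Vf c₀ cs (act γ τ) = jac γ τ * Vf c₀ cs τ ∧ Pf c₀ cs (act γ τ) = cx γ * Pf c₀ cs τ := by
  obtain ⟨κ, hκ, hc⟩ := thc_act hN hγ hτ
  have hτ' := act_mem γ hτ
  have hj := jac_det γ hτ
  have hu : IsUnit (jac γ τ).det := isUnit_iff_ne_zero.2 hj
  have key := fun c (h : IsCh N c) => xsjet_main (thc_analytic_z c (Siegel_sub hτ))
    (thc_analytic_z c (Siegel_sub hτ')) hj (jacC_symm γ hτ) (hc c h)
  have hth : ∀ c, IsCh N c → th c (act γ τ) = κ * th c τ := fun c h => (key c h).1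
  obtain ⟨-, h1, h2⟩ := hΩ
  have hV : Vf c₀ cs (act γ τ) = jac γ τ * Vf c₀ cs τ := by
    ext a i
    simp only [Vf, Matrix.of_apply, Matrix.mul_apply]
    rw [(key _ (hs i)).2.1 a, hth c₀ h0, mul_div_mul_left _ _ hκ, Finset.sum_div]
    exact Finset.sum_congr rfl fun b _ => mul_div_assoc _ _ _
  have hpi : (2 * Real.pi * I : ℂ) ≠ 0 := two_pi_I_ne_zero
  have hψ : ψf c₀ (act γ τ) =
      jac γ τ * ψf c₀ τ * (jac γ τ)ᵀ - (cx γ).toBlocks₂₁ * (jac γ τ)ᵀ := by
    have e1 : ψf c₀ (act γ τ) = (-(2 * Real.pi * I * (κ * th c₀ τ))⁻¹) •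
        Matrix.of fun a b => dv (ee a) (dv (ee b) (thc c₀ (act γ τ))) 0 := by
      ext a b
      simp only [ψf, Matrix.of_apply, Matrix.smul_apply, smul_eq_mul, hth c₀ h0]
      ring
    have e2 : (Matrix.of fun a b => dv (ee a) (dv (ee b) (thc c₀ τ)) 0) =
        (-(2 * Real.pi * I * th c₀ τ)) • ψf c₀ τ := by
      ext a b
      simp only [ψf, Matrix.of_apply, Matrix.smul_apply, smul_eq_mul]
      have := mul_ne_zero hpi h1
      field_simp
    have e3 : -(2 * Real.pi * I * (κ * th c₀ τ))⁻¹ * κ * (2 * Real.pi * I * th c₀ τ) = -1 := by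
      have := mul_ne_zero hpi h1
      field_simp
    rw [e1, (key c₀ h0).2.2, e2]
    change _ • κ • (jac γ τ * ((2 * Real.pi * I * th c₀ τ) • _ + _) * _) = _
    rw [neg_smul (2 * Real.pi * I * th c₀ τ), ← sub_eq_add_neg, ← smul_sub, Matrix.mul_smul,
      Matrix.smul_mul, smul_smul, smul_smul, e3, neg_one_smul, Matrix.mul_sub, Matrix.sub_mul,
      neg_sub, ← Matrix.mul_assoc (jac γ τ) (jac γ τ)⁻¹, Matrix.mul_nonsing_inv _ hu,
      Matrix.one_mul]
  refine ⟨⟨Siegel_sub hτ', ?_, ?_⟩, fun c h => ?_, hV, ?_⟩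
  · rw [hth c₀ h0]
    exact mul_ne_zero hκ h1
  · rw [hV, Matrix.det_mul]
    exact mul_ne_zero hj h2
  · rw [yq, yq, hth c h, hth c₀ h0, mul_div_mul_left _ _ hκ]
  · rw [Pf, Pf, hV, hψ]
    exact Pm_act γ hτ h2

end Pool.Agent.MP_f58063_ag

end
end

section

open Complex Filter Topology Matrix Function

noncomputable section

namespace Pool.Agent.MP_f58063_ag

variable {g N : ℕ} {c₀ : LL g → ℂ} {cs : Fin g → LL g → ℂ}

theorem Om_sub (c₀ : LL g → ℂ) (cs : Fin g → LL g → ℂ) : Om c₀ cs ⊆ PosIm g :=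
  fun _ h => h.1

theorem Mer_Vf (c₀ : LL g → ℂ) (cs : Fin g → LL g → ℂ) (a b : Fin g) :
    Mer (Om c₀ cs) fun τ => Vf c₀ cs τ a b :=
  (Mer.of_analytic (gr_analytic (cs b) a)).div (Mer.of_analytic (th_analytic c₀))
    fun _ h => h.2.1

theorem Mer_ψf (c₀ : LL g → ℂ) (cs : Fin g → LL g → ℂ) (a b : Fin g) :
    Mer (Om c₀ cs) fun τ => ψf c₀ τ a b :=
  (Mer.of_analytic (he_analytic c₀ a b)).neg.div
    ((Mer.const (2 * Real.pi * I)).mul (Mer.of_analytic (th_analytic c₀)))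
    fun _ h => mul_ne_zero two_pi_I_ne_zero h.2.1

lemma xsfr_Vinv (c₀ : LL g → ℂ) (cs : Fin g → LL g → ℂ) (a b : Fin g) :
    Mer (Om c₀ cs) fun τ => (Vf c₀ cs τ)⁻¹ a b :=
  Mer.matInv (Mer_Vf c₀ cs) (fun _ h => h.2.2) a b

lemma xsfr_VinvT (c₀ : LL g → ℂ) (cs : Fin g → LL g → ℂ) (a b : Fin g) :
    Mer (Om c₀ cs) fun τ => (Vf c₀ cs τ)⁻¹ᵀ a b :=
  xsfr_Vinv c₀ cs b a

lemma xsfr_of (Ω : Set (Mat g)) (a b : Fin g) : Mer Ω fun τ => Matrix.of τ a b :=
  Mer.entry a b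

theorem Mer_Pf (c₀ : LL g → ℂ) (cs : Fin g → LL g → ℂ) (a b : LL g) :
    Mer (Om c₀ cs) fun τ => Pf c₀ cs τ a b := by
  rcases a with a | a <;> rcases b with b | b
  · exact Mer.matMul (A := fun τ => 1 - Matrix.of τ * ψf c₀ τ)
      (fun i j => (Mer.const ((1 : Matrix (Fin g) (Fin g) ℂ) i j)).sub
        (Mer.matMul (xsfr_of _) (Mer_ψf c₀ cs) i j)) (xsfr_VinvT c₀ cs) a b
  · exact Mer.matMul (xsfr_of _) (Mer_Vf c₀ cs) a b
  · exact (Mer.matMul (Mer_ψf c₀ cs) (xsfr_VinvT c₀ cs) a b).neg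
  · exact Mer_Vf c₀ cs a b

lemma xsfr_Xi (c₀ : LL g → ℂ) (cs : Fin g → LL g → ℂ) (a b i j : Fin g) :
    Mer (Om c₀ cs) fun τ => Xi c₀ cs a b τ i j :=
  Mer.matMul (Mer.matMul (B := fun _ => Matrix.single a b 1 + Matrix.single b a 1)
    (xsfr_VinvT c₀ cs) fun _ _ => Mer.const _) (xsfr_Vinv c₀ cs) i j

lemma xsfr_symm (c₀ : LL g → ℂ) (cs : Fin g → LL g → ℂ) (a b : Fin g) (τ : Mat g)
    (i j : Fin g) : Xi c₀ cs a b τ i j = Xi c₀ cs a b τ j i := by
  have h : ((Vf c₀ cs τ)⁻¹ᵀ * (Matrix.single a b (1 : ℂ) + Matrix.single b a 1) *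
      (Vf c₀ cs τ)⁻¹)ᵀ = (Vf c₀ cs τ)⁻¹ᵀ * (Matrix.single a b 1 + Matrix.single b a 1) *
      (Vf c₀ cs τ)⁻¹ := by
    rw [transpose_mul, transpose_mul, transpose_transpose, transpose_add, transpose_single,
      transpose_single, add_comm, Matrix.mul_assoc]
  exact (congrFun (congrFun h j) i)

lemma xsfr_act {γ : Sp g} {τ : Mat g} (h : Vf c₀ cs (act γ τ) = jac γ τ * Vf c₀ cs τ)
    (a b : Fin g) : Xi c₀ cs a b (act γ τ) =
      Matrix.of.symm ((jac γ τ)⁻¹ᵀ * Matrix.of (Xi c₀ cs a b τ) * (jac γ τ)⁻¹) := by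
  simp only [Xi, h, Matrix.mul_inv_rev, transpose_mul, Equiv.apply_symm_apply, Matrix.mul_assoc]

lemma xsfr_ev {τ : Mat g} (h : τ ∈ Om c₀ cs) :
    ∀ᶠ σ in 𝓝[Siegel g] τ, σ ∈ Siegel g ∩ Om c₀ cs :=
  inter_mem_nhdsWithin _ ((isOpen_Om c₀ cs).mem_nhds h)

lemma xsfr_an {f : Mat g → ℂ} (hf : Mer (Om c₀ cs) f) {τ : Mat g} (h : τ ∈ Om c₀ cs) :
    AnalyticAt ℂ f τ :=
  hf.analyticAt (isOpen_Om c₀ cs) (Om_sub c₀ cs) h

lemma xsfr_det {τ : Mat g} (h : τ ∈ Om c₀ cs) : (Pf c₀ cs τ).det = 1 :=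
  Pm_det _ _ (mul_nonsing_inv _ (isUnit_iff_ne_zero.2 h.2.2))

theorem Mod_yq (hN : N ≠ 0) (h0 : IsCh N c₀) (hs : ∀ i, IsCh N (cs i)) {c : LL g → ℂ}
    (hc : IsCh N c) : Mod (Gam g (2 * N ^ 2)) (Om c₀ cs) (yq c₀ c) :=
  ⟨(Mer.of_analytic (th_analytic c)).div (Mer.of_analytic (th_analytic c₀)) fun _ h => h.2.1,
    fun _ hγ _ hτ => (jet_act hN hγ hτ.1 h0 hs hτ.2).2.1 c hc⟩

theorem Mod_Xi (hN : N ≠ 0) (h0 : IsCh N c₀) (hs : ∀ i, IsCh N (cs i)) {f : Mat g → ℂ}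
    (hf : Mod (Gam g (2 * N ^ 2)) (Om c₀ cs) f) (a b : Fin g) :
    Mod (Gam g (2 * N ^ 2)) (Om c₀ cs) fun τ => fderiv ℂ f τ (Xi c₀ cs a b τ) := by
  refine ⟨hf.1.fderiv (isOpen_Om c₀ cs) (Om_sub c₀ cs) (xsfr_Xi c₀ cs a b), fun γ hγ τ hτ => ?_⟩
  obtain ⟨h1, -, h3, -⟩ := jet_act hN hγ hτ.1 h0 hs hτ.2
  beta_reduce
  rw [xsfr_act h3]
  exact chain_act γ hτ.1 (xsfr_an hf.1 h1) (xsfr_an hf.1 hτ.2)
    ((xsfr_ev hτ.2).mono fun σ hσ => hf.2 γ hγ σ hσ) (xsfr_symm c₀ cs a b τ)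

lemma xsfr_dM {τ : Mat g} (h : τ ∈ Om c₀ cs) (A : Matrix (LL g) (LL g) ℂ) (B : Mat g)
    (i j : LL g) : fderiv ℂ (fun σ => (A * Pf c₀ cs σ) i j) τ B =
      (A * dM (Pf c₀ cs) τ B) i j := by
  have hd : ∀ k, DifferentiableAt ℂ (fun σ => Pf c₀ cs σ k j) τ :=
    fun k => (xsfr_an (Mer_Pf c₀ cs k j) h).differentiableAt
  have h1 : HasFDerivAt (fun σ => ∑ k, A i k * Pf c₀ cs σ k j)
      (∑ k, A i k • fderiv ℂ (fun σ => Pf c₀ cs σ k j) τ) τ :=
    HasFDerivAt.fun_sum fun k _ => (hd k).hasFDerivAt.const_mul (A i k)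
  simp only [Matrix.mul_apply]
  rw [h1.fderiv]
  simp [dM]

theorem Mod_mc (hN : N ≠ 0) (h0 : IsCh N c₀) (hs : ∀ i, IsCh N (cs i)) (a b : Fin g)
    (i j : LL g) : Mod (Gam g (2 * N ^ 2)) (Om c₀ cs)
      fun τ => ((Pf c₀ cs τ)⁻¹ * dM (Pf c₀ cs) τ (Xi c₀ cs a b τ)) i j := by
  refine ⟨Mer.matMul (A := fun τ => (Pf c₀ cs τ)⁻¹)
    (B := fun τ => dM (Pf c₀ cs) τ (Xi c₀ cs a b τ))
    (Mer.matInv (Mer_Pf c₀ cs) fun τ hτ => by rw [xsfr_det hτ]; exact one_ne_zero)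
    (fun k l => (Mer_Pf c₀ cs k l).fderiv (isOpen_Om c₀ cs) (Om_sub c₀ cs) (xsfr_Xi c₀ cs a b))
    i j, fun γ hγ τ hτ => ?_⟩
  obtain ⟨h1, -, h3, h4⟩ := jet_act hN hγ hτ.1 h0 hs hτ.2
  have h5 : dM (Pf c₀ cs) (act γ τ) (Xi c₀ cs a b (act γ τ)) =
      cx γ * dM (Pf c₀ cs) τ (Xi c₀ cs a b τ) := by
    ext k l
    rw [← xsfr_dM hτ.2, xsfr_act h3]
    refine chain_act γ (F := fun σ => Pf c₀ cs σ k l) hτ.1 (xsfr_an (Mer_Pf c₀ cs k l) h1)
      (xsfr_an (Mer.matMul (A := fun _ => cx γ) (fun _ _ => Mer.const _) (Mer_Pf c₀ cs) k l) hτ.2)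
      ((xsfr_ev hτ.2).mono fun σ hσ => ?_) (xsfr_symm c₀ cs a b τ)
    rw [(jet_act hN hγ hσ.1 h0 hs hσ.2).2.2.2]
  have hu : IsUnit (cx γ).det := SymplecticGroup.symplectic_det (cx_mem γ)
  beta_reduce
  rw [h5, h4, Matrix.mul_inv_rev, Matrix.mul_assoc, ← Matrix.mul_assoc (cx γ)⁻¹,
    nonsing_inv_mul _ hu, Matrix.one_mul]

end Pool.Agent.MP_f58063_ag

end
end

section

open Complex Filter Topology Matrix Function

noncomputable section

namespace Pool.Agent.MP_f58063_ag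

lemma xszar_poly {g : ℕ} {ι : Type} (c : ι → ℂ) (Q : Matrix (LL g) (LL g) ℂ)
    (R : MvPolynomial (ι ⊕ LL g × LL g) ℂ) :
    ∃ T : MvPolynomial (LL g × LL g) ℂ, ∀ M : Matrix (LL g) (LL g) ℂ,
      MvPolynomial.eval (fun a => M a.1 a.2) T =
        MvPolynomial.eval (Sum.elim c fun a => (M * Q) a.1 a.2) R := by
  refine ⟨MvPolynomial.aeval (Sum.elim (fun i => MvPolynomial.C (c i))
    fun a => ∑ k, MvPolynomial.X (a.1, k) * MvPolynomial.C (Q k a.2)) R, fun M => ?_⟩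
  induction R using MvPolynomial.induction_on with
  | C a => simp
  | add p q hp hq => simp only [map_add, hp, hq]
  | mul_X p i hp =>
    rw [map_mul, map_mul, map_mul, hp]
    rcases i with i | ⟨a, b⟩ <;> simp [Matrix.mul_apply]

/-- relations between the coordinates and the frame are stable under the symplectic group -/
theorem zar {g d m : ℕ} {S : Set (Mat g)} (hS : IsMfd S d) (hSS : S ⊆ Siegel g) (hM : BigMon S)
    {Γ : Subgroup (Sp g)} (hΓ : Γ.FiniteIndex) {Ω : Set (Mat g)} (hΩ : IsOpen Ω)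
    (hP : Ω ⊆ PosIm g) (hst : ∀ γ ∈ Γ, ∀ τ ∈ Siegel g ∩ Ω, act γ τ ∈ Ω)
    {y : Fin d → Mat g → ℂ} (hy : ∀ i, Mod Γ Ω (y i)) {P : Mat g → Matrix (LL g) (LL g) ℂ}
    (hPm : ∀ a b, Mer Ω fun τ => P τ a b)
    (hPγ : ∀ γ ∈ Γ, ∀ τ ∈ Siegel g ∩ Ω, P (act γ τ) = cx γ * P τ)
    {ψ : (Fin d → ℂ) → Mat g} {x₀ : Fin d → ℂ} {r : ℝ}
    (hψ : AnalyticOnNhd ℂ ψ (Metric.ball x₀ r)) (hcov : 𝓝[S] (ψ x₀) ≤ map ψ (𝓝 x₀))
    (h1 : ∀ x ∈ Metric.ball x₀ r, ψ x ∈ S ∧ ψ x ∈ Ω ∧ ∀ i, y i (ψ x) = x i)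
    {p : (Fin d → ℂ) × (Fin m → ℂ)} (hp : p.1 ∈ Metric.ball x₀ r)
    (R : MvPolynomial ((Fin d ⊕ Fin m) ⊕ LL g × LL g) ℂ)
    (h : ∀ᶠ e in 𝓝 p,
      MvPolynomial.eval (Sum.elim (Sum.elim e.1 e.2) fun a => P (ψ e.1) a.1 a.2) R = 0) :
    ∀ᶠ e in 𝓝 p, ∀ M ∈ symplecticGroup (Fin g) ℂ,
      MvPolynomial.eval (Sum.elim (Sum.elim e.1 e.2) fun a => (M * P (ψ e.1)) a.1 a.2) R = 0 := by
  obtain ⟨p₁, p₂⟩ := p
  rw [nhds_prod_eq, Filter.eventually_prod_iff] at h ⊢
  obtain ⟨pa, hpa, pb, hpb, hab⟩ := h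
  refine ⟨fun x => x ∈ Metric.ball x₀ r, Metric.isOpen_ball.mem_nhds hp, pb, hpb,
    fun {x} hx {u} hu M hMs => ?_⟩
  have hx₀ : x₀ ∈ Metric.ball x₀ r := Metric.mem_ball_self (Metric.pos_of_mem_ball hp)
  let F : (Fin d ⊕ Fin m) ⊕ LL g × LL g → Mat g → ℂ :=
    Sum.elim (Sum.elim y fun j _ => u j) fun a τ => P τ a.1 a.2
  have hF : ∀ i, Mer Ω (F i) := by
    rintro ((i | j) | a)
    · exact (hy i).1
    · exact Mer.const _
    · exact hPm _ _
  obtain ⟨H, t, hH, -, hHt⟩ := Mer.eval hF R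
  have hz : Set.EqOn (fun x => H (ψ x)) 0 (Metric.ball x₀ r) := by
    refine AnalyticOnNhd.eqOn_zero_of_preconnected_of_eventuallyEq_zero
      (fun z hz => (hH _ (hP (h1 z hz).2.1)).comp (hψ z hz))
      (convex_ball x₀ r).isPreconnected hp ?_
    filter_upwards [hpa, Metric.isOpen_ball.mem_nhds hp] with z hz hzb
    obtain ⟨ht0, he⟩ := hHt _ (h1 z hzb).2.1
    have h2 : (fun i => F i (ψ z)) = Sum.elim (Sum.elim z u) fun a => P (ψ z) a.1 a.2 := by
      funext i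
      rcases i with (i | j) | a
      · exact (h1 z hzb).2.2 i
      · rfl
      · rfl
    have h3 := hab hz hu
    simp only [h2] at he
    exact (div_eq_zero_iff.1 (he.symm.trans h3)).resolve_right ht0
  have hS0 : ∀ τ ∈ S, H τ = 0 := by
    refine mfd_id hS (hH.mono (hSS.trans Siegel_sub)) (h1 x₀ hx₀).1 (hcov ?_)
    rw [Filter.mem_map]
    filter_upwards [Metric.isOpen_ball.mem_nhds hx₀] with z hzb
    exact hz hzb
  obtain ⟨T, hT⟩ := xszar_poly (Sum.elim x u) (P (ψ x)) R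
  refine (hT M).symm.trans (hM Γ hΓ T (fun γ hγ hm => ?_) M hMs)
  obtain ⟨hxS, hxΩ, hxy⟩ := h1 x hx
  have hx' : ψ x ∈ Siegel g ∩ Ω := ⟨hSS hxS, hxΩ⟩
  obtain ⟨-, he⟩ := hHt _ (hst γ hγ _ hx')
  have h2 : (fun i => F i (act γ (ψ x))) =
      Sum.elim (Sum.elim x u) fun a => (cx γ * P (ψ x)) a.1 a.2 := by
    funext i
    rcases i with (i | j) | a
    · exact ((hy i).2 γ hγ _ hx').trans (hxy i)
    · rfl
    · change P (act γ (ψ x)) a.1 a.2 = _
      rw [hPγ γ hγ _ hx']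
      rfl
  simp only [h2, hS0 _ (hm hxS), zero_div] at he
  exact (hT (cx γ)).trans he

end Pool.Agent.MP_f58063_ag

end
end

section

open Complex Filter Topology Matrix Function

noncomputable section

namespace Pool.Agent.MP_f58063_ag

lemma xsnashc_single {g : ℕ} {c : Matrix (Fin g) (Fin g) ℂ} (hc : ∀ a b, c a b = c b a) :
    ∑ p : Fin g × Fin g, (c p.1 p.2 / 2) •
      (Matrix.single p.1 p.2 (1 : ℂ) + Matrix.single p.2 p.1 (1 : ℂ)) = c := by
  ext i j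
  simp only [Matrix.sum_apply, Matrix.smul_apply, Matrix.add_apply, smul_eq_mul, mul_add,
    Finset.sum_add_distrib]
  rw [Finset.sum_eq_single (i, j), Finset.sum_eq_single (j, i)]
  · simp only [Matrix.single_apply_same, hc j i]
    ring
  · rintro ⟨a, b⟩ _ h
    rw [Matrix.single_apply_of_ne, mul_zero]
    rintro ⟨rfl, rfl⟩
    exact h rfl
  · intro h
    exact absurd (Finset.mem_univ _) h
  · rintro ⟨a, b⟩ _ h
    rw [Matrix.single_apply_of_ne, mul_zero]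
    rintro ⟨rfl, rfl⟩
    exact h rfl
  · intro h
    exact absurd (Finset.mem_univ _) h

lemma xsnashc_sum {g : ℕ} (c₀ : LL g → ℂ) (cs : Fin g → LL g → ℂ) (τ : Mat g)
    {c : Matrix (Fin g) (Fin g) ℂ} (hc : ∀ a b, c a b = c b a) :
    ∑ p : Fin g × Fin g, (c p.1 p.2 / 2) • Xi c₀ cs p.1 p.2 τ =
      Matrix.of.symm ((Vf c₀ cs τ)⁻¹ᵀ * c * (Vf c₀ cs τ)⁻¹) := by
  have h : ∑ p : Fin g × Fin g, (c p.1 p.2 / 2) • ((Vf c₀ cs τ)⁻¹ᵀ *
      (Matrix.single p.1 p.2 (1 : ℂ) + Matrix.single p.2 p.1 (1 : ℂ)) * (Vf c₀ cs τ)⁻¹) =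
      (Vf c₀ cs τ)⁻¹ᵀ * c * (Vf c₀ cs τ)⁻¹ := by
    conv_rhs => rw [← xsnashc_single hc]
    rw [Matrix.mul_sum, Matrix.sum_mul]
    refine Finset.sum_congr rfl fun p _ => ?_
    rw [Matrix.mul_smul, Matrix.smul_mul]
  exact h

lemma xsnashc_lin {g : ℕ} (c₀ : LL g → ℂ) (cs : Fin g → LL g → ℂ) (τ : Mat g)
    {c : Matrix (Fin g) (Fin g) ℂ} (hc : ∀ a b, c a b = c b a) (L : Mat g →L[ℂ] ℂ) :
    L (Matrix.of.symm ((Vf c₀ cs τ)⁻¹ᵀ * c * (Vf c₀ cs τ)⁻¹)) =
      ∑ p : Fin g × Fin g, 2⁻¹ * L (Xi c₀ cs p.1 p.2 τ) * c p.1 p.2 := by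
  rw [← xsnashc_sum c₀ cs τ hc, map_sum]
  refine Finset.sum_congr rfl fun p _ => ?_
  rw [map_smul, smul_eq_mul]
  ring

lemma xsnashc_symm {g : ℕ} (W : Matrix (Fin g) (Fin g) ℂ) {c : Matrix (Fin g) (Fin g) ℂ}
    (hc : ∀ a b, c a b = c b a) (a b : Fin g) : (Wᵀ * c * W) a b = (Wᵀ * c * W) b a := by
  have h : cᵀ = c := by
    ext i j
    exact hc j i
  have h2 : (Wᵀ * c * W)ᵀ = Wᵀ * c * W := by
    rw [transpose_mul, transpose_mul, transpose_transpose, h, Matrix.mul_assoc]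
  calc (Wᵀ * c * W) a b = (Wᵀ * c * W)ᵀ b a := rfl
    _ = _ := by rw [h2]

lemma xsnashc_back {g : ℕ} {V : Matrix (Fin g) (Fin g) ℂ} (hV : V.det ≠ 0)
    (B : Matrix (Fin g) (Fin g) ℂ) : V⁻¹ᵀ * (Vᵀ * B * V) * V⁻¹ = B := by
  have h1 : V * V⁻¹ = 1 := Matrix.mul_nonsing_inv V (Ne.isUnit hV)
  have h2 : V⁻¹ᵀ * Vᵀ = 1 := by rw [← transpose_mul, h1, transpose_one]
  calc V⁻¹ᵀ * (Vᵀ * B * V) * V⁻¹ = (V⁻¹ᵀ * Vᵀ) * B * (V * V⁻¹) := by
        simp only [Matrix.mul_assoc]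
    _ = B := by rw [h1, h2, Matrix.one_mul, Matrix.mul_one]

lemma xsnashc_forth {g : ℕ} {V : Matrix (Fin g) (Fin g) ℂ} (hV : V.det ≠ 0)
    (B : Matrix (Fin g) (Fin g) ℂ) : Vᵀ * (V⁻¹ᵀ * B * V⁻¹) * V = B := by
  have h1 : V⁻¹ * V = 1 := Matrix.nonsing_inv_mul V (Ne.isUnit hV)
  have h2 : Vᵀ * V⁻¹ᵀ = 1 := by rw [← transpose_mul, h1, transpose_one]
  calc Vᵀ * (V⁻¹ᵀ * B * V⁻¹) * V = (Vᵀ * V⁻¹ᵀ) * B * (V⁻¹ * V) := by
        simp only [Matrix.mul_assoc]
    _ = B := by rw [h1, h2, Matrix.one_mul, Matrix.mul_one]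

/-- the chain rule in the frame `Xi` -/
lemma xsnashc_chain {g d : ℕ} {c₀ : LL g → ℂ} {cs : Fin g → LL g → ℂ}
    {ψ : (Fin d → ℂ) → Mat g} {x : Fin d → ℂ} (hψ : AnalyticAt ℂ ψ x)
    (hS : ∀ᶠ y in 𝓝 x, ψ y ∈ Siegel g) (hO : ψ x ∈ Om c₀ cs) (ξ : Fin d → ℂ) {f : Mat g → ℂ}
    (hf : AnalyticAt ℂ f (ψ x)) :
    fderiv ℂ (fun y => f (ψ y)) x ξ =
      ∑ p : Fin g × Fin g, 2⁻¹ * fderiv ℂ f (ψ x) (Xi c₀ cs p.1 p.2 (ψ x)) *
        ((Vf c₀ cs (ψ x))ᵀ * Matrix.of (fderiv ℂ ψ x ξ) * Vf c₀ cs (ψ x)) p.1 p.2 := by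
  have hs : ∀ a b, Matrix.of (fderiv ℂ ψ x ξ) a b = Matrix.of (fderiv ℂ ψ x ξ) b a :=
    fun a b => fderiv_symm hψ hS ξ a b
  rw [← xsnashc_lin c₀ cs (ψ x) (xsnashc_symm _ hs), xsnashc_back hO.2.2]
  have h := (hf.differentiableAt.hasFDerivAt.comp x hψ.differentiableAt.hasFDerivAt).fderiv
  exact congrArg (fun L : (Fin d → ℂ) →L[ℂ] ℂ => L ξ) h

lemma xsnashc_an {g d : ℕ} {c₀ : LL g → ℂ} {cs : Fin g → LL g → ℂ}
    {ψ : (Fin d → ℂ) → Mat g} {x : Fin d → ℂ} (hψ : AnalyticAt ℂ ψ x) (hO : ψ x ∈ Om c₀ cs)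
    (ξ : Fin d → ℂ) (a b : Fin g) :
    AnalyticAt ℂ (fun x' => ((Vf c₀ cs (ψ x'))ᵀ * Matrix.of (fderiv ℂ ψ x' ξ) *
      Vf c₀ cs (ψ x')) a b) x := by
  have hV : ∀ a b, AnalyticAt ℂ (fun x' => Vf c₀ cs (ψ x') a b) x := fun a b =>
    ((Mer_Vf c₀ cs a b).analyticAt (isOpen_Om c₀ cs) (Om_sub c₀ cs) hO).comp hψ
  have hD : AnalyticAt ℂ (fun x' => fderiv ℂ ψ x' ξ) x :=
    ((ContinuousLinearMap.apply ℂ (Mat g) ξ).analyticAt _).comp hψ.fderiv
  have hD' : ∀ a b, AnalyticAt ℂ (fun x' => Matrix.of (fderiv ℂ ψ x' ξ) a b) x := fun a b =>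
    analyticAt_pi_iff.1 (analyticAt_pi_iff.1 hD a) b
  exact an_mul (A := fun x' => (Vf c₀ cs (ψ x'))ᵀ * Matrix.of (fderiv ℂ ψ x' ξ))
    (an_mul (A := fun x' => (Vf c₀ cs (ψ x'))ᵀ) (fun a b => hV b a) hD') hV a b

/-- in modular coordinates the conormal equations and the connection matrices are Nash -/
theorem nash_frame {g d N n : ℕ} {S : Set (Mat g)} (hA : AlgDim S d) (hN : N ≠ 0)
    {c₀ : LL g → ℂ} {cs : Fin g → LL g → ℂ} {ch : Fin n → LL g → ℂ} (h0 : IsCh N c₀)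
    (hs : ∀ i, IsCh N (cs i)) (hch : ∀ j, IsCh N (ch j)) {e : Fin d → Fin n}
    {ψ : (Fin d → ℂ) → Mat g} {x : Fin d → ℂ} (hψ : AnalyticAt ℂ ψ x)
    (h1 : ∀ᶠ x' in 𝓝 x, ψ x' ∈ S ∧ ψ x' ∈ Siegel g ∧ ψ x' ∈ Om c₀ cs ∧
      (∀ i, yq c₀ (ch (e i)) (ψ x') = x' i) ∧ ∀ B : Mat g, (∀ i j, B i j = B j i) →
        (∀ j, fderiv ℂ (yq c₀ (ch j)) (ψ x') B = 0) → B = 0) (ξ : Fin d → ℂ) :
    (∀ a b, NashAt (fun x' => ((Vf c₀ cs (ψ x'))ᵀ * Matrix.of (fderiv ℂ ψ x' ξ) *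
      Vf c₀ cs (ψ x')) a b) x) ∧
    ∀ a b, NashAt (fun x' => ((Pf c₀ cs (ψ x'))⁻¹ *
      dM (fun x'' => Pf c₀ cs (ψ x'')) x' ξ) a b) x := by
  have hM : 2 * N ^ 2 ≠ 0 := mul_ne_zero two_ne_zero (pow_ne_zero 2 hN)
  have hmod : ∀ f : Mat g → ℂ, Mod (Gam g (2 * N ^ 2)) (Om c₀ cs) f →
      NashAt (fun x' => f (ψ x')) x := fun f hf =>
    nash_of_mod hA (Gam_finiteIndex g hM) (isOpen_Om c₀ cs) (Om_sub c₀ cs)
      (fun γ hγ τ hτ => (jet_act hN hγ hτ.1 h0 hs hτ.2).1)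
      (y := fun i => yq c₀ (ch (e i))) (fun i => Mod_yq hN h0 hs (hch _)) hf hψ
      (h1.mono fun _ h => ⟨h.1, h.2.1, h.2.2.1, h.2.2.2.1⟩)
  have hO : ψ x ∈ Om c₀ cs := h1.self_of_nhds.2.2.1
  have h2 : ∀ᶠ x' in 𝓝 x, AnalyticAt ℂ ψ x' ∧ (∀ᶠ y in 𝓝 x', ψ y ∈ Siegel g) ∧
      ψ x' ∈ Om c₀ cs :=
    hψ.eventually_analyticAt.and ((h1.mono fun _ h => h.2.1).eventually_nhds.and
      (h1.mono fun _ h => h.2.2.1))
  have hc : ∀ p : Fin g × Fin g, NashAt (fun x' => ((Vf c₀ cs (ψ x'))ᵀ *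
      Matrix.of (fderiv ℂ ψ x' ξ) * Vf c₀ cs (ψ x')) p.1 p.2) x := by
    refine nash_solve (ι := Fin g × Fin g) (κ := Fin n ⊕ Fin g × Fin g)
      (c := fun p x' => ((Vf c₀ cs (ψ x'))ᵀ * Matrix.of (fderiv ℂ ψ x' ξ) *
        Vf c₀ cs (ψ x')) p.1 p.2)
      (Y := Sum.elim
        (fun j p x' => 2⁻¹ * fderiv ℂ (yq c₀ (ch j)) (ψ x') (Xi c₀ cs p.1 p.2 (ψ x')))
        fun q p _ => (if p = q then 1 else 0) - if p = q.swap then 1 else 0)
      (r := Sum.elim (fun j => dv ξ fun x' => yq c₀ (ch j) (ψ x')) fun _ _ => 0)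
      (fun p => xsnashc_an hψ hO ξ p.1 p.2) ?_ ?_ ?_ ?_
    · rintro (j | q) p
      · exact (NashAt.const _ _).mul (hmod _ (Mod_Xi hN h0 hs (Mod_yq hN h0 hs (hch j)) p.1 p.2))
      · exact NashAt.const _ _
    · rintro (j | q)
      · exact (hmod _ (Mod_yq hN h0 hs (hch j))).dv ξ
      · exact NashAt.const _ _
    · refine h2.mono fun x' h => ?_
      rintro (j | q)
      · exact (xsnashc_chain h.1 h.2.1 h.2.2 ξ
          ((Mod_yq hN h0 hs (hch j)).1.analyticAt (isOpen_Om c₀ cs) (Om_sub c₀ cs) h.2.2)).symm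
      · simp only [Sum.elim_inr, sub_mul, Finset.sum_sub_distrib, ite_mul, one_mul, zero_mul,
          Finset.sum_ite_eq', Finset.mem_univ, if_true, Prod.fst_swap, Prod.snd_swap]
        exact sub_eq_zero.2 (xsnashc_symm _ (fun a b => fderiv_symm h.1 h.2.1 ξ a b) _ _)
    · refine h1.mono fun x' h ζ hζ => ?_
      have hsym : ∀ a b, Matrix.of (fun a b => ζ (a, b)) a b =
          Matrix.of (fun a b => ζ (a, b)) b a := fun a b => by
        have := hζ (.inr (a, b))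
        simp only [Sum.elim_inr, sub_mul, Finset.sum_sub_distrib, ite_mul, one_mul, zero_mul,
          Finset.sum_ite_eq', Finset.mem_univ, if_true, Prod.swap_prod_mk] at this
        exact sub_eq_zero.1 this
      have hB := h.2.2.2.2 (Matrix.of.symm ((Vf c₀ cs (ψ x'))⁻¹ᵀ *
        Matrix.of (fun a b => ζ (a, b)) * (Vf c₀ cs (ψ x'))⁻¹)) (xsnashc_symm _ hsym) fun j => by
          rw [xsnashc_lin c₀ cs (ψ x') hsym]
          exact hζ (.inl j)
      have hB' : (Vf c₀ cs (ψ x'))⁻¹ᵀ * Matrix.of (fun a b => ζ (a, b)) *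
          (Vf c₀ cs (ψ x'))⁻¹ = 0 := hB
      have hz := xsnashc_forth h.2.2.1.2.2 (Matrix.of fun a b => ζ (a, b))
      rw [hB', Matrix.mul_zero, Matrix.zero_mul] at hz
      funext p
      exact (congrFun (congrFun hz p.1) p.2).symm
  refine ⟨fun a b => hc (a, b), fun a b => ?_⟩
  have hsum := NashAt.sum Finset.univ fun (p : Fin g × Fin g) _ =>
    ((NashAt.const 2⁻¹ x).mul (hmod _ (Mod_mc hN h0 hs p.1 p.2 a b))).mul (hc p)
  refine hsum.congr (h2.mono fun x' h => ?_)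
  have hk : ∀ k, dM (fun x'' => Pf c₀ cs (ψ x'')) x' ξ k b = ∑ p : Fin g × Fin g,
      2⁻¹ * dM (Pf c₀ cs) (ψ x') (Xi c₀ cs p.1 p.2 (ψ x')) k b *
        ((Vf c₀ cs (ψ x'))ᵀ * Matrix.of (fderiv ℂ ψ x' ξ) * Vf c₀ cs (ψ x')) p.1 p.2 := fun k =>
    xsnashc_chain h.1 h.2.1 h.2.2 ξ (f := fun τ => Pf c₀ cs τ k b)
      ((Mer_Pf c₀ cs k b).analyticAt (isOpen_Om c₀ cs) (Om_sub c₀ cs) h.2.2)
  change ∑ p : Fin g × Fin g, 2⁻¹ * ((Pf c₀ cs (ψ x'))⁻¹ *
      dM (Pf c₀ cs) (ψ x') (Xi c₀ cs p.1 p.2 (ψ x'))) a b *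
      ((Vf c₀ cs (ψ x'))ᵀ * Matrix.of (fderiv ℂ ψ x' ξ) * Vf c₀ cs (ψ x')) p.1 p.2 =
    ((Pf c₀ cs (ψ x'))⁻¹ * dM (fun x'' => Pf c₀ cs (ψ x'')) x' ξ) a b
  generalize (Vf c₀ cs (ψ x'))ᵀ * Matrix.of (fderiv ℂ ψ x' ξ) * Vf c₀ cs (ψ x') = C at hk ⊢
  simp only [Matrix.mul_apply, hk, Finset.mul_sum, Finset.sum_mul]
  rw [Finset.sum_comm]
  refine Finset.sum_congr rfl fun k _ => Finset.sum_congr rfl fun p _ => ?_
  ring

end Pool.Agent.MP_f58063_ag

end
end
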