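import Pool.Agent.Mg.Fcf0a82q.Gff7211

section

open Complex Filter Topology Matrix Function

noncomputable section

namespace Pool.Agent.MP_cf0a82_ag

open Pool.Agent.MP_f58063_ag

variable {M δ : ℝ} {φ : ℂ → ℂ}

lemma xafour_const (hδ : 0 < δ) {G : ℂ → ℂ} (hG : DifferentiableOn ℂ G {t | -δ < t.im})
    (hp : ∀ t : ℂ, -δ < t.im → G (t + M) = G t) {s : ℂ} (hs : -δ < s.im) :
    ∫ x in (0 : ℝ)..M, G (x + s) = ∫ x in (0 : ℝ)..M, G x := by
  have hper : Function.Periodic (fun x : ℝ => G (x + s.im * I)) M := fun x => by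
    have := hp (x + s.im * I) (by simpa using hs)
    simp only [← this]
    congr 1
    push_cast
    ring
  have e1 : ∫ x in (0 : ℝ)..M, G (x + s) = ∫ x in (0 : ℝ)..M, G (x + s.im * I) := by
    have h1 := intervalIntegral.integral_comp_add_right (a := 0) (b := M)
      (fun x : ℝ => G (x + s.im * I)) s.re
    have h2 := hper.intervalIntegral_add_eq s.re 0
    simp only [zero_add] at h1 h2
    rw [← h2, add_comm s.re M, ← h1]
    refine intervalIntegral.integral_congr fun x _ => ?_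
    congr 1
    conv_lhs => rw [← re_add_im s]
    push_cast
    ring
  have hsub : ∀ y ∈ Set.uIcc (0 : ℝ) s.im, -δ < y := fun y hy => by
    rcases Set.mem_uIcc.1 hy with h | h
    · linarith [h.1]
    · linarith [h.1]
  have hr := integral_boundary_rect_eq_zero_of_differentiableOn G 0 (M + s.im * I)
    (hG.mono fun z hz => hsub _ (by simpa using (mem_reProdIm.1 hz).2))
  have e2 : ∫ y in (0 : ℝ)..s.im, G (M + y * I) = ∫ y in (0 : ℝ)..s.im, G (y * I) := by
    refine intervalIntegral.integral_congr fun y hy => ?_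
    rw [add_comm, hp _ (by simpa using hsub y hy)]
  simp only [zero_re, zero_im, add_re, ofReal_re, mul_re, I_re, mul_zero, ofReal_im, I_im,
    mul_one, sub_self, add_zero, add_im, mul_im, zero_add, ofReal_zero, zero_mul, e2] at hr
  rw [e1]
  linear_combination -hr

lemma xafour_per (hM : 0 < M) (n : ℤ) (t : ℂ) :
    exp (-(2 * Real.pi * I * n * (t + M) / M)) = exp (-(2 * Real.pi * I * n * t / M)) := by
  have hM' : (M : ℂ) ≠ 0 := ofReal_ne_zero.2 hM.ne'
  have : -(2 * Real.pi * I * n * (t + M) / M) =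
      -(2 * Real.pi * I * n * t / M) + ((-n : ℤ) : ℂ) * (2 * Real.pi * I) := by
    push_cast
    field_simp
    ring
  rw [this, exp_add, exp_int_mul_two_pi_mul_I, mul_one]

theorem four_shift (hM : 0 < M) (hδ : 0 < δ) (hφ : DifferentiableOn ℂ φ {t | -δ < t.im})
    (hp : ∀ t : ℂ, -δ < t.im → φ (t + M) = φ t) (n : ℤ) {s : ℂ} (hs : -δ < s.im) :
    ∫ x in (0 : ℝ)..M, φ (x + s) * exp (-(2 * Real.pi * I * n * x / M)) =
      exp (2 * Real.pi * I * n * s / M) *
        ∫ x in (0 : ℝ)..M, φ x * exp (-(2 * Real.pi * I * n * x / M)) := by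
  have h := xafour_const (M := M) hδ (G := fun t => φ t * exp (-(2 * Real.pi * I * n * t / M)))
    (hφ.mul (Differentiable.differentiableOn (by fun_prop)))
    (fun t ht => by rw [hp t ht, xafour_per hM]) hs
  rw [← h, ← intervalIntegral.integral_const_mul]
  refine intervalIntegral.integral_congr fun x _ => ?_
  rw [mul_left_comm, ← exp_add]
  congr 2
  ring

lemma xafour_cusp (hM : 0 < M) (hδ : 0 < δ) {ψ : ℂ → ℂ}
    (hψ : DifferentiableOn ℂ ψ {t | -δ < t.im})
    (hp : ∀ t : ℂ, -δ < t.im → ψ (t + M) = ψ t) {C : ℝ} (hb : ∀ t : ℂ, 0 ≤ t.im → ‖ψ t‖ ≤ C) :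
    ∃ F : ℂ → ℂ, DifferentiableOn ℂ F (Metric.ball 0 (Real.exp (-2 * Real.pi * (-δ) / M))) ∧
      ∀ t : ℂ, -δ < t.im → F (Periodic.qParam M t) = ψ t := by
  classical
  have hop : IsOpen {t : ℂ | -δ < t.im} := isOpen_lt continuous_const continuous_im
  let f : ℂ → ℂ := fun t => if -δ < t.im then ψ t else 0
  have hf : Periodic f M := fun t => by
    by_cases h : -δ < t.im
    · have h' : -δ < (t + M).im := by simpa using h
      simp only [f, if_pos h, if_pos h', hp t h]
    · have h' : ¬ -δ < (t + M).im := by simpa using h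
      simp only [f, if_neg h, if_neg h']
  have hd : ∀ t : ℂ, -δ < t.im → DifferentiableAt ℂ f t := fun t ht => by
    refine (hψ.differentiableAt (hop.mem_nhds ht)).congr_of_eventuallyEq ?_
    filter_upwards [hop.mem_nhds ht] with u hu using if_pos hu
  have hev : ∀ᶠ z : ℂ in comap im atTop, 0 ≤ z.im := tendsto_comap.eventually (eventually_ge_atTop 0)
  refine ⟨Periodic.cuspFunction M f, fun q hq => ?_, fun t ht => ?_⟩
  · refine DifferentiableAt.differentiableWithinAt ?_
    by_cases h0 : q = 0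
    · subst h0
      refine Periodic.differentiableAt_cuspFunction_zero hM hf
        (hev.mono fun z hz => hd z (by linarith)) ?_
      refine Asymptotics.IsBigO.of_bound C (hev.mono fun z hz => ?_)
      have h' : -δ < z.im := by linarith
      simpa [f, if_pos h'] using hb z hz
    · rw [← Periodic.qParam_right_inv hM.ne' h0] at hq ⊢
      refine Periodic.differentiableAt_cuspFunction hM.ne' hf (hd _ ?_)
      exact (Periodic.norm_qParam_lt_iff hM _ _).1 (by simpa using hq)
  · rw [Periodic.eq_cuspFunction hM.ne' hf]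
    exact if_pos ht

lemma xafour_mean (hM : 0 < M) {R : ℝ} (hR : 1 < R) {G : ℂ → ℂ}
    (hG : DifferentiableOn ℂ G (Metric.ball 0 R)) :
    ∫ x in (0 : ℝ)..M, G (Periodic.qParam M x) = M * G 0 := by
  have hM' : (M : ℂ) ≠ 0 := ofReal_ne_zero.2 hM.ne'
  have hpi : (Real.pi : ℂ) ≠ 0 := ofReal_ne_zero.2 Real.pi_ne_zero
  have h1 : DiffContOnCl ℂ G (Metric.ball 0 |(1 : ℝ)|) := by
    refine DifferentiableOn.diffContOnCl (hG.mono ?_)
    rw [abs_one, closure_ball _ one_ne_zero]
    exact Metric.closedBall_subset_ball hR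
  have h2 := h1.circleAverage
  rw [Real.circleAverage_def] at h2
  have hc : 2 * Real.pi / M ≠ 0 := by positivity
  have h3 := intervalIntegral.integral_comp_mul_left (a := 0) (b := M)
    (fun θ : ℝ => G (circleMap 0 1 θ)) hc
  have e1 : 2 * Real.pi / M * M = 2 * Real.pi := by field_simp
  rw [mul_zero, e1] at h3
  have e2 : ∀ x : ℝ, Periodic.qParam M x = circleMap 0 1 (2 * Real.pi / M * x) := fun x => by
    simp only [Periodic.qParam, circleMap, zero_add, ofReal_one, one_mul]
    congr 1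
    push_cast
    ring
  simp only [e2]
  rw [h3, ← h2, real_smul, real_smul]
  push_cast
  field_simp

lemma xafour_div (hM : 0 < M) {R : ℝ} (hR : 1 < R) {F : ℂ → ℂ}
    (hF : DifferentiableOn ℂ F (Metric.ball 0 R)) (N : ℕ)
    (h0 : ∀ j < N, ∫ x in (0 : ℝ)..M, F (Periodic.qParam M x) / Periodic.qParam M x ^ j = 0) :
    ∃ G : ℂ → ℂ, DifferentiableOn ℂ G (Metric.ball 0 R) ∧ ∀ q, F q = q ^ N * G q := by
  induction N with
  | zero => exact ⟨F, hF, fun q => by simp⟩
  | succ N ih =>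
    obtain ⟨G, hG, e⟩ := ih fun j hj => h0 j (by omega)
    have h1 := h0 N (by omega)
    have h2 : ∀ x : ℝ, F (Periodic.qParam M x) / Periodic.qParam M x ^ N =
        G (Periodic.qParam M x) := fun x => by
      rw [e, mul_div_cancel_left₀ _ (pow_ne_zero _ (Periodic.qParam_ne_zero _))]
    simp only [h2] at h1
    rw [xafour_mean hM hR hG] at h1
    have h3 : G 0 = 0 := (mul_eq_zero.1 h1).resolve_left (ofReal_ne_zero.2 hM.ne')
    refine ⟨dslope G 0, (differentiableOn_dslope (Metric.ball_mem_nhds _ (by linarith))).2 hG,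
      fun q => ?_⟩
    have h4 := sub_smul_dslope G 0 q
    rw [h3, sub_zero, sub_zero, smul_eq_mul] at h4
    rw [e, pow_succ, mul_assoc, h4]

/-- the Schwarz lemma at the cusp -/
theorem four_van (hM : 0 < M) (hδ : 0 < δ) (hφ : DifferentiableOn ℂ φ {t | -δ < t.im})
    (hp : ∀ t : ℂ, -δ < t.im → φ (t + M) = φ t) {K L : ℕ}
    (hb : ∃ C : ℝ, ∀ t : ℂ, 0 ≤ t.im → ‖φ t‖ ≤ C * Real.exp (2 * Real.pi * K / M * t.im))
    (h0 : ∀ n : ℤ, -(K : ℤ) ≤ n → n < L →
      ∫ x in (0 : ℝ)..M, φ x * exp (-(2 * Real.pi * I * n * x / M)) = 0)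
    {B : ℝ} (hB : ∀ x : ℝ, ‖φ (x - δ / 2 * I)‖ ≤ B) :
    ‖φ 0‖ ≤ Real.exp (-(Real.pi * δ * L / M)) * B := by
  obtain ⟨C, hC⟩ := hb
  have hM' : (M : ℂ) ≠ 0 := ofReal_ne_zero.2 hM.ne'
  have hq1 : ∀ t : ℂ, Periodic.qParam M (t + M) = Periodic.qParam M t := fun t => by
    have := xafour_per hM (-1) t
    simp only [Periodic.qParam]
    convert this using 2 <;> (push_cast; ring)
  obtain ⟨F, hF, hFe⟩ := xafour_cusp hM hδ (ψ := fun t => φ t * Periodic.qParam M t ^ K) (C := C)
    (hφ.mul (Differentiable.differentiableOn (Periodic.differentiable_qParam.pow K)))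
    (fun t ht => by rw [hp t ht, hq1]) (fun t ht => by
      rw [norm_mul, norm_pow, Periodic.norm_qParam, ← Real.exp_nat_mul]
      calc ‖φ t‖ * Real.exp (K * (-2 * Real.pi * t.im / M))
          ≤ C * Real.exp (2 * Real.pi * K / M * t.im) *
            Real.exp (K * (-2 * Real.pi * t.im / M)) := by
            gcongr
            exact hC t ht
        _ = C := by
            rw [mul_assoc, ← Real.exp_add]
            have : 2 * Real.pi * K / M * t.im + K * (-2 * Real.pi * t.im / M) = 0 := by ring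
            rw [this, Real.exp_zero, mul_one])
  have hpos : 0 < Real.pi * δ / M := by positivity
  have hR : 1 < Real.exp (-2 * Real.pi * (-δ) / M) := by
    refine Real.one_lt_exp_iff.2 ?_
    have : -2 * Real.pi * (-δ) / M = 2 * (Real.pi * δ / M) := by ring
    rw [this]; linarith
  obtain ⟨G, hG, hGe⟩ := xafour_div hM hR hF (K + L) fun j hj => by
    rw [← h0 ((j : ℤ) - K) (by omega) (by omega)]
    refine intervalIntegral.integral_congr fun x _ => ?_
    rw [hFe x (by simpa using hδ), mul_div_assoc, Periodic.qParam, ← exp_nat_mul, ← exp_nat_mul,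
      ← exp_sub]
    congr 2
    push_cast
    ring
  have hk : ∀ t : ℂ, -δ < t.im → φ t = Periodic.qParam M t ^ L * G (Periodic.qParam M t) := by
    intro t ht
    have h1 := hFe t ht
    rw [hGe, pow_add, mul_assoc, mul_comm (φ t)] at h1
    exact (mul_left_cancel₀ (pow_ne_zero _ (Periodic.qParam_ne_zero _)) h1).symm
  have hr1 : 1 < Real.exp (Real.pi * δ / M) := Real.one_lt_exp_iff.2 hpos
  have hr2 : Real.exp (Real.pi * δ / M) < Real.exp (-2 * Real.pi * (-δ) / M) := by
    refine Real.exp_lt_exp.2 ?_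
    have : -2 * Real.pi * (-δ) / M = 2 * (Real.pi * δ / M) := by ring
    rw [this]; linarith
  have hne : Real.exp (Real.pi * δ / M) ≠ 0 := (Real.exp_pos _).ne'
  have e0 : φ 0 = G 1 := by
    rw [hk 0 (by simpa using hδ)]
    simp [Periodic.qParam]
  rw [e0]
  refine norm_le_of_forall_mem_frontier_norm_le (U := Metric.ball 0 (Real.exp (Real.pi * δ / M)))
    Metric.isBounded_ball (DifferentiableOn.diffContOnCl (hG.mono ?_)) (fun q hq => ?_)
    (subset_closure (by simpa using hr1))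
  · rw [closure_ball _ hne]
    exact Metric.closedBall_subset_ball hr2
  · rw [frontier_ball _ hne, mem_sphere_zero_iff_norm] at hq
    have hq0 : q ≠ 0 := by
      rintro rfl
      exact hne (by simpa using hq.symm)
    have him : (Periodic.invQParam M q).im = -(δ / 2) := by
      rw [Periodic.im_invQParam, hq, Real.log_exp]
      have := Real.pi_pos
      field_simp
    have h1 := hk (Periodic.invQParam M q) (by rw [him]; linarith)
    rw [Periodic.qParam_right_inv hM.ne' hq0] at h1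
    have h2 := hB (Periodic.invQParam M q).re
    have e3 : ((Periodic.invQParam M q).re : ℂ) - δ / 2 * I = Periodic.invQParam M q := by
      conv_rhs => rw [← re_add_im (Periodic.invQParam M q), him]
      push_cast
      ring
    rw [e3, h1, norm_mul, norm_pow, hq, ← Real.exp_nat_mul] at h2
    rw [Real.exp_neg, ← div_eq_inv_mul, le_div_iff₀ (Real.exp_pos _), mul_comm]
    have e4 : Real.pi * δ * L / M = L * (Real.pi * δ / M) := by ring
    rwa [e4]

end Pool.Agent.MP_cf0a82_ag

end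
end

section

open Complex Filter Topology Matrix Function

noncomputable section

namespace Pool.Agent.MP_cf0a82_ag

open Pool.Agent.MP_f58063_ag

variable {g M c : ℕ} {f f' : Mat g → ℂ} {τ : Mat g}

theorem xAcfa_le (τ : Mat g) (i j : Fin g) : |(τ i j).im| ≤ imN τ :=
  (norm_le_pi_norm ((fun i j => (τ i j).im : Fin g → Fin g → ℝ) i) j).trans
    (norm_le_pi_norm (fun i j => (τ i j).im : Fin g → Fin g → ℝ) i)

theorem xAcfa_nonneg (τ : Mat g) : 0 ≤ imN τ := norm_nonneg _

theorem xAcfa_imN_le {r : ℝ} (hr : 0 ≤ r) (h : ∀ i j, |(τ i j).im| ≤ r) : imN τ ≤ r :=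
  (pi_norm_le_iff_of_nonneg hr).2 fun i => (pi_norm_le_iff_of_nonneg hr).2 fun j => h i j

theorem xAcfa_sy (hs : IsSy τ) (t : ℂ) : IsSy (tr1 τ t) := fun i j => by
  simp only [tr1, hs i j, eq_comm]

theorem xAcfa_sy' (hs : IsSy τ) (t : ℂ) (a b : Fin g) : IsSy (τ + t • sE a b) := fun i j => by
  simp only [Pi.add_apply, Pi.smul_apply, sE, hs i j, and_comm, or_comm]

theorem xAcfa_tr1_add (τ σ : Mat g) (t : ℂ) : tr1 (τ + σ) t = tr1 τ t + σ := by
  funext i j
  simp only [tr1, Pi.add_apply]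
  ring

theorem xAcfa_imN_tr1 (τ : Mat g) (t : ℂ) : imN (tr1 τ t) ≤ imN τ + |t.im| := by
  refine xAcfa_imN_le (add_nonneg (xAcfa_nonneg τ) (abs_nonneg _)) fun i j => ?_
  rw [tr1, add_im]
  refine (abs_add_le _ _).trans (add_le_add (xAcfa_le τ i j) ?_)
  split_ifs <;> simp

theorem xAcfa_imN_sE (τ : Mat g) (t : ℂ) (a b : Fin g) :
    imN (τ + t • sE a b) ≤ imN τ + |t.im| := by
  refine xAcfa_imN_le (add_nonneg (xAcfa_nonneg τ) (abs_nonneg _)) fun i j => ?_
  rw [Pi.add_apply, Pi.add_apply, add_im]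
  refine (abs_add_le _ _).trans (add_le_add (xAcfa_le τ i j) ?_)
  simp only [Pi.smul_apply, sE]
  split_ifs <;> simp

theorem xAcfa_par {F F' : ℂ → ℝ → ℂ} {s₁ : ℂ} {a b : ℝ}
    (hF : ∀ s ∈ Metric.closedBall s₁ 1, Continuous (F s))
    (hF' : ContinuousOn (uncurry F') (Metric.closedBall s₁ 1 ×ˢ Set.univ))
    (hd : ∀ x, ∀ s ∈ Metric.closedBall s₁ 1, HasDerivAt (fun s => F s x) (F' s x) s) :
    DifferentiableAt ℂ (fun s => ∫ x in a..b, F s x) s₁ := by
  have h0 : s₁ ∈ Metric.closedBall s₁ 1 := Metric.mem_closedBall_self zero_le_one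
  have h1 := Metric.closedBall_mem_nhds s₁ one_pos
  obtain ⟨C, hC⟩ := ((isCompact_closedBall s₁ 1).prod (isCompact_uIcc (a := a) (b := b))
    ).exists_bound_of_continuousOn (hF'.mono (Set.prod_mono le_rfl (Set.subset_univ _)))
  have h2 : Continuous (F' s₁) := by
    rw [← continuousOn_univ]
    exact hF'.comp (f := fun x => (s₁, x)) (by fun_prop) fun x _ => ⟨h0, trivial⟩
  exact (intervalIntegral.hasDerivAt_integral_of_dominated_loc_of_deriv_le (F' := F')
    (bound := fun _ => C) h1 (Filter.mem_of_superset h1 fun s hs => (hF s hs).aestronglyMeasurable)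
    ((hF s₁ h0).intervalIntegrable a b) h2.aestronglyMeasurable
    (Filter.Eventually.of_forall fun t ht s hs => hC (s, t) ⟨hs, Set.uIoc_subset_uIcc ht⟩)
    intervalIntegrable_const (Filter.Eventually.of_forall fun t _ s hs => hd t s hs)
    ).2.differentiableAt

theorem YG_lam (τ : Mat g) : YG τ (1 - lam τ) := by
  intro v
  have h1 : ∀ i j, -(imN τ / 2 * (v i * v i)) - imN τ / 2 * (v j * v j) ≤
      v i * ((τ i j).im * v j) := fun i j => by
    obtain ⟨h2, h3⟩ := abs_le.1 (xAcfa_le τ i j)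
    nlinarith [mul_nonneg (sub_nonneg.2 h3) (sq_nonneg (v i - v j)),
      mul_nonneg (sub_nonneg.2 h2) (sq_nonneg (v i + v j))]
  have h2 := Finset.sum_le_sum (s := Finset.univ) fun i _ =>
    Finset.sum_le_sum (s := Finset.univ) fun j _ => h1 i j
  simp only [Finset.sum_sub_distrib, Finset.sum_neg_distrib, Finset.sum_const, Finset.card_univ,
    Fintype.card_fin, nsmul_eq_mul, ← Finset.mul_sum] at h2
  simp only [dotProduct, mulVec, Ym, of_apply, lam]
  linarith

theorem PE.per_tr1 (hf : PE M c f) (hτ : τ ∈ Siegel g) : f (tr1 τ M) = f τ := by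
  have h1 : ∀ A : Finset (Fin g), τ + ∑ a ∈ A, (M : ℂ) • sE a a ∈ Siegel g ∧
      f (τ + ∑ a ∈ A, (M : ℂ) • sE a a) = f τ := by
    intro A
    induction A using Finset.induction_on with
    | empty => simpa using hτ
    | insert a A ha ih =>
      rw [Finset.sum_insert ha, add_comm ((M : ℂ) • sE a a), ← add_assoc, hf.per a a _ ih.1]
      exact ⟨by simpa using sE_add_mem ih.1 a a M, ih.2⟩
  have h2 : tr1 τ M = τ + ∑ a, (M : ℂ) • sE a a := by
    funext i j
    simp only [tr1, Pi.add_apply, Finset.sum_apply, Pi.smul_apply, sE, or_self, smul_eq_mul]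
    congr 1
    rw [Finset.sum_eq_single i (fun a _ h => by simp [h.symm]) (by simp)]
    simp [eq_comm]
  rw [h2, (h1 _).2]

theorem PE.diff_tr1 (hf : PE M c f) (hs : IsSy τ) {δ : ℝ} (h : YG τ δ) :
    DifferentiableOn ℂ (fun t => f (tr1 τ t)) {t | -δ < t.im} := by
  intro t ht
  have h1 : Differentiable ℂ fun t => tr1 τ t := by
    refine differentiable_pi.2 fun i => differentiable_pi.2 fun j => ?_
    simp only [tr1]
    split_ifs <;> fun_prop
  exact ((hf.an _ (tr1_mem hs h ht)).differentiableAt.comp t (h1 t)).differentiableWithinAt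

theorem xAcfa_mem (hs : IsSy τ) (x : ℝ) {H : ℝ} (hH : lam τ ≤ H) :
    tr1 τ (x + H * I) ∈ Siegel g :=
  tr1_mem hs (YG_lam τ) (by simp only [add_im, ofReal_im, mul_im, ofReal_re, I_im, I_re]; linarith)

theorem xAcfa_cont (hf : PE M c f) (hs : IsSy τ) {H : ℝ} (hH : lam τ ≤ H) (n : ℤ) :
    Continuous fun x : ℝ => f (tr1 τ (x + H * I)) * exp (-(2 * Real.pi * I * n * x / M)) := by
  refine Continuous.mul ?_ (by fun_prop)
  refine (hf.diff_tr1 hs (YG_lam τ)).continuousOn.comp_continuous (by fun_prop) fun x => ?_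
  simp only [Set.mem_ofPred_eq, add_im, ofReal_im, mul_im, ofReal_re, I_im, I_re]
  linarith

/-- the coefficient can be computed at any admissible height -/
theorem cf_eq (hM : M ≠ 0) (hf : PE M c f) (n : ℤ) (hs : IsSy τ) {s : ℂ}
    (h : tr1 τ s ∈ Siegel g) :
    cf M n f τ = exp (-(2 * Real.pi * I * n * s / M)) *
      ∫ x in (0 : ℝ)..M, f (tr1 τ (x + s)) * exp (-(2 * Real.pi * I * n * x / M)) := by
  obtain ⟨ε, hε, h1⟩ := exists_YG h
  have h2 := tr1_YG h1 (-s)
  rw [tr1_tr1, add_neg_cancel, tr1_zero, neg_im] at h2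
  obtain ⟨y, y1, y2, δ, hδ, h3⟩ : ∃ y : ℝ, y ≤ s.im ∧ y ≤ lam τ ∧
      ∃ δ : ℝ, 0 < δ ∧ YG (tr1 τ (y * I)) δ := by
    rcases le_total s.im (lam τ) with h4 | h4
    · exact ⟨s.im, le_rfl, h4, _, by simpa using hε, tr1_YG h2 _⟩
    · exact ⟨lam τ, h4, le_rfl, _, by simp, tr1_YG (YG_lam τ) _⟩
  have hs' := xAcfa_sy hs (y * I)
  have h5 := fun (t : ℂ) (ht : -δ < t.im) => four_shift (M := M) (by positivity) hδ
    (hf.diff_tr1 hs' h3) (fun t ht => by
      rw [← tr1_tr1 _ t]
      exact hf.per_tr1 (tr1_mem hs' h3 ht)) n ht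
  have h6 := h5 (s - y * I)
    (by simp only [sub_im, mul_im, ofReal_re, ofReal_im, I_im, I_re]; linarith)
  have h7 := h5 (lam τ * I - y * I)
    (by simp only [sub_im, mul_im, ofReal_re, ofReal_im, I_im, I_re]; linarith)
  have h8 : ∀ x t : ℂ, y * I + (x + (t - y * I)) = x + t := fun x t => by ring
  simp only [tr1_tr1, h8, ofReal_natCast] at h6 h7
  rw [cf, h6, h7, ← mul_assoc, ← mul_assoc, ← Complex.exp_add, ← Complex.exp_add]
  congr 2
  linear_combination (2 * Real.pi * n * lam τ / M : ℂ) * I_mul_I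

theorem cf_tr1 (hM : M ≠ 0) (hf : PE M c f) (n : ℤ) (hs : IsSy τ) (s : ℂ) :
    cf M n f (tr1 τ s) = exp (2 * Real.pi * I * n * s / M) * cf M n f τ := by
  have h1 := xAcfa_mem (xAcfa_sy hs s) 0 le_rfl
  rw [tr1_tr1, ofReal_zero, zero_add] at h1
  have h2 : ∀ x t : ℂ, s + (x + t) = x + (s + t) := fun x t => by ring
  rw [cf_eq hM hf n hs h1, cf, ← mul_assoc, ← Complex.exp_add]
  simp only [tr1_tr1, h2]
  congr 2
  linear_combination (2 * Real.pi * n * lam (tr1 τ s) / M : ℂ) * I_mul_I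

theorem cf_per (hf : PE M c f) (n : ℤ) (hs : IsSy τ) (a b : Fin g) :
    cf M n f (τ + (M : ℂ) • sE a b) = cf M n f τ := by
  have h1 : lam (τ + (M : ℂ) • sE a b) = lam τ := by
    rw [lam, lam, imN, imN]
    congr 3
    funext i j
    simp only [Pi.add_apply, Pi.smul_apply, sE, add_im]
    split_ifs <;> simp
  simp only [cf, h1, xAcfa_tr1_add, fun x : ℝ => hf.per a b _ (xAcfa_mem hs x le_rfl)]

theorem cf_diff (hM : M ≠ 0) (hf : PE M c f) (n : ℤ) (hs : IsSy τ) (a b : Fin g) :
    Differentiable ℂ fun s : ℂ => cf M n f (τ + s • sE a b) := by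
  intro s₁
  obtain ⟨H, hH⟩ : ∃ H : ℝ, ∀ s ∈ Metric.closedBall s₁ 1, lam (τ + s • sE a b) ≤ H := by
    refine ⟨g * (imN τ + (‖s₁‖ + 1)) + 1, fun s h => ?_⟩
    have h1 := norm_le_norm_add_const_of_dist_le (Metric.mem_closedBall.1 h)
    have h2 := (xAcfa_imN_sE τ s a b).trans
      (add_le_add le_rfl ((abs_im_le_norm s).trans h1))
    exact add_le_add (mul_le_mul_of_nonneg_left h2 (Nat.cast_nonneg g)) le_rfl
  have h1 : ∀ s ∈ Metric.closedBall s₁ 1, ∀ x : ℝ, tr1 τ (x + H * I) + s • sE a b ∈ Siegel g :=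
    fun s h x => xAcfa_tr1_add τ _ _ ▸ xAcfa_mem (xAcfa_sy' hs s a b) x (hH s h)
  have h2 : Continuous fun p : ℂ × ℝ => tr1 τ (p.2 + H * I) + p.1 • sE a b := by
    refine Continuous.add (continuous_pi fun i => continuous_pi fun j => ?_) (by fun_prop)
    simp only [tr1]
    split_ifs <;> fun_prop
  have h3 := xAcfa_par (a := 0) (b := M) (s₁ := s₁)
    (F := fun s x => f (tr1 (τ + s • sE a b) (x + H * I)) * exp (-(2 * Real.pi * I * n * x / M)))
    (F' := fun s x => fderiv ℂ f (tr1 τ (x + H * I) + s • sE a b) (sE a b) *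
      exp (-(2 * Real.pi * I * n * x / M)))
    (fun s h => xAcfa_cont hf (xAcfa_sy' hs s a b) (hH s h) n)
    (ContinuousOn.mul (ContinuousOn.clm_apply (hf.an.fderiv.continuousOn.comp h2.continuousOn
      fun p hp => h1 p.1 hp.1 p.2) continuousOn_const) (by fun_prop))
    (fun x s h => by
      simp only [xAcfa_tr1_add]
      refine HasDerivAt.mul_const ?_ _
      have h4 := ((hasDerivAt_id s).smul_const (sE a b)).const_add (tr1 τ (x + H * I))
      rw [one_smul] at h4
      exact (hf.an _ (h1 s h x)).differentiableAt.hasFDerivAt.comp_hasDerivAt s h4)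
  refine (h3.const_mul (exp (-(2 * Real.pi * I * n * (H * I) / M)))).congr_of_eventuallyEq ?_
  filter_upwards [Metric.closedBall_mem_nhds s₁ one_pos] with s h
  refine cf_eq hM hf n (xAcfa_sy' hs s a b) ?_
  simpa using xAcfa_mem (xAcfa_sy' hs s a b) 0 (hH s h)

theorem cf_bd (hM : M ≠ 0) (hf : PE M c f) (n : ℤ) : ∃ C : ℝ, ∀ τ : Mat g, IsSy τ →
    ‖cf M n f τ‖ ≤ C * Real.exp ((2 * Real.pi * |(n : ℝ)| * g / M + c * (g + 1)) * imN τ) := by
  obtain ⟨C, hC⟩ := hf.gr 1 one_pos
  refine ⟨|C| * M * Real.exp (2 * Real.pi * |(n : ℝ)| / M + c), fun τ hs => ?_⟩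
  have h0 := xAcfa_nonneg τ
  have hl : 0 ≤ lam τ := by rw [lam]; positivity
  have h1 : ∀ x : ℝ, ‖f (tr1 τ (x + lam τ * I)) * exp (-(2 * Real.pi * I * n * x / M))‖ ≤
      |C| * Real.exp (c * (imN τ + lam τ)) := fun x => by
    have h2 := tr1_YG (YG_lam τ) (x + lam τ * I)
    have h3 := xAcfa_imN_tr1 τ (x + lam τ * I)
    have h4 : ((x : ℂ) + lam τ * I).im = lam τ := by simp
    rw [h4, sub_add_cancel] at h2
    rw [h4, abs_of_nonneg hl] at h3
    have h5 : -(2 * Real.pi * I * n * x / M : ℂ) = ((-(2 * Real.pi * n * x / M) : ℝ) : ℂ) * I := by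
      push_cast
      ring
    rw [norm_mul, h5, norm_exp_ofReal_mul_I, mul_one]
    refine (hC _ (xAcfa_mem hs x le_rfl) h2).trans ?_
    gcongr
    exact le_abs_self C
  have h2 := intervalIntegral.norm_integral_le_of_norm_le_const (a := 0) (b := M)
    fun x _ => h1 x
  rw [sub_zero, Nat.abs_cast] at h2
  have h3 : (2 * Real.pi * n * lam τ / M : ℂ) = ((2 * Real.pi * n * lam τ / M : ℝ) : ℂ) := by
    push_cast
    ring
  have h4 : Real.exp (2 * Real.pi * n * lam τ / M) ≤
      Real.exp (2 * Real.pi * |(n : ℝ)| * lam τ / M) := by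
    gcongr
    exact le_abs_self _
  rw [cf, norm_mul, h3, norm_exp_ofReal]
  refine (mul_le_mul h4 h2 (norm_nonneg _) (Real.exp_pos _).le).trans (le_of_eq ?_)
  rw [mul_assoc (|C| * M), ← Real.exp_add, mul_right_comm |C|, mul_left_comm, ← Real.exp_add, lam]
  congr 2
  ring

theorem cf_add (hf : PE M c f) (hf' : PE M c f') (n : ℤ) (hs : IsSy τ) :
    cf M n (f + f') τ = cf M n f τ + cf M n f' τ := by
  simp only [cf, Pi.add_apply, add_mul]
  rw [intervalIntegral.integral_add ((xAcfa_cont hf hs le_rfl n).intervalIntegrable _ _)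
    ((xAcfa_cont hf' hs le_rfl n).intervalIntegrable _ _), mul_add]

theorem cf_smul (a : ℂ) (f : Mat g → ℂ) (n : ℤ) (τ : Mat g) :
    cf M n (a • f) τ = a * cf M n f τ := by
  simp only [cf, Pi.smul_apply, smul_eq_mul, mul_assoc a]
  rw [intervalIntegral.integral_const_mul, mul_left_comm]

end Pool.Agent.MP_cf0a82_ag

end
end

section

open Complex Filter Topology Matrix Function

noncomputable section

namespace Pool.Agent.MP_cf0a82_ag

open Pool.Agent.MP_f58063_ag

theorem xatrig_liou (s : Finset ℂ) : ∀ Φ : ℂ → ℂ, Differentiable ℂ Φ → (∀ a ∈ s, Φ a = 0) →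
    Tendsto (fun q => Φ q / ∏ a ∈ s, (q - a)) (cocompact ℂ) (𝓝 0) → ∀ q, Φ q = 0 := by
  classical
  induction s using Finset.induction_on with
  | empty =>
    intro Φ hΦ _ h q
    simp only [Finset.prod_empty, div_one] at h
    exact hΦ.apply_eq_of_tendsto_cocompact q h
  | insert a s ha ih =>
    intro Φ hΦ h0 h q
    have hd : Differentiable ℂ (dslope Φ a) :=
      differentiableOn_univ.1 ((Complex.differentiableOn_dslope univ_mem).2 hΦ.differentiableOn)
    have he : ∀ q, q ≠ a → dslope Φ a q = Φ q / (q - a) := fun q hq => by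
      rw [dslope_of_ne _ hq, slope_def_field, h0 a (Finset.mem_insert_self a s), sub_zero]
    have h2 : (fun q => Φ q / ∏ b ∈ insert a s, (q - b)) =ᶠ[cocompact ℂ]
        fun q => dslope Φ a q / ∏ b ∈ s, (q - b) := by
      filter_upwards [(isCompact_singleton (x := a)).compl_mem_cocompact] with q hq
      rw [he q hq, Finset.prod_insert ha, div_div]
    have h1 := ih (dslope Φ a) hd (fun b hb => by
      rw [he b fun e => ha (e ▸ hb), h0 b (Finset.mem_insert_of_mem hb), zero_div])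
      (h.congr' h2) q
    by_cases hq : q = a
    · rw [hq]
      exact h0 a (Finset.mem_insert_self a s)
    · rw [he q hq, div_eq_zero_iff] at h1
      exact h1.resolve_right (sub_ne_zero.2 hq)

theorem xatrig_poly (s : Finset ℂ) (n : ℕ) (hs : s.card = n + 1) (h1 : ∀ a ∈ s, ‖a‖ = 1)
    {Φ : ℂ → ℂ} (hΦ : Differentiable ℂ Φ) (h0 : ∀ a ∈ s, Φ a = 0) {C : ℝ}
    (hb : ∀ q, 1 ≤ ‖q‖ → ‖Φ q‖ ≤ C * ‖q‖ ^ n) : ∀ q, Φ q = 0 := by
  refine xatrig_liou s Φ hΦ h0 ?_
  have ht : Tendsto (fun q : ℂ => ‖q‖) (cocompact ℂ) atTop := tendsto_norm_cocompact_atTop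
  refine squeeze_zero_norm' (a := fun q => C * 2 ^ (n + 1) / ‖q‖) ?_ (ht.const_div_atTop _)
  filter_upwards [ht.eventually_ge_atTop 2] with q hq
  have h2 : (‖q‖ / 2) ^ (n + 1) ≤ ‖∏ a ∈ s, (q - a)‖ := by
    rw [norm_prod, ← hs, ← Finset.prod_const]
    refine Finset.prod_le_prod (fun _ _ => by positivity) fun a ha => ?_
    have := norm_sub_norm_le q a
    rw [h1 a ha] at this
    linarith
  have hq0 : 0 < ‖q‖ := by linarith
  have h3 := hb q (by linarith)
  rw [norm_div]
  calc ‖Φ q‖ / ‖∏ a ∈ s, (q - a)‖ ≤ C * ‖q‖ ^ n / (‖q‖ / 2) ^ (n + 1) :=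
        div_le_div₀ ((norm_nonneg _).trans h3) h3 (by positivity) h2
    _ = C * 2 ^ (n + 1) / ‖q‖ := by
        rw [div_pow]
        field_simp
        ring

theorem xatrig_one {M : ℝ} (hM : 0 < M) (K : ℕ) {G : ℂ → ℂ} (hG : Differentiable ℂ G)
    (hp : Periodic G M) {C : ℝ}
    (hb : ∀ z, ‖G z‖ ≤ C * Real.exp (2 * Real.pi * K / M * |z.im|))
    (h0 : ∀ j : Fin (2 * K + 1), G (((j : ℕ) : ℂ) * M / (2 * K + 1)) = 0) : ∀ z, G z = 0 := by
  classical
  have hM' : (M : ℂ) ≠ 0 := ofReal_ne_zero.2 hM.ne'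
  have hK : (2 * K + 1 : ℂ) ≠ 0 := by exact_mod_cast Nat.succ_ne_zero (2 * K)
  let H : ℂ → ℂ := fun z => G z * Periodic.qParam M z ^ K
  have hH : Differentiable ℂ H := hG.mul ((Periodic.differentiable_qParam).pow K)
  have hHp : Periodic H M := fun z => by
    have e : Periodic.qParam M (z + M) = Periodic.qParam M z := by
      unfold Periodic.qParam
      rw [mul_add, add_div, mul_div_cancel_right₀ _ hM', Complex.exp_add, exp_two_pi_mul_I,
        mul_one]
    simp only [H]
    rw [hp z, e]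
  have hn : ∀ z, ‖H z‖ ≤
      C * Real.exp (2 * Real.pi * K / M * |z.im| + K * (-2 * Real.pi * z.im / M)) := fun z => by
    simp only [H]
    rw [norm_mul, norm_pow, Periodic.norm_qParam, ← Real.exp_nat_mul, Real.exp_add, ← mul_assoc]
    exact mul_le_mul_of_nonneg_right (hb z) (Real.exp_pos _).le
  have hbd : BoundedAtFilter (comap im atTop) H := by
    refine Asymptotics.IsBigO.of_bound C ?_
    filter_upwards [(tendsto_comap (f := im) (x := atTop)).eventually_ge_atTop 0] with z hz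
    have h1 := hn z
    rw [abs_of_nonneg hz] at h1
    have e : 2 * Real.pi * K / M * z.im + K * (-2 * Real.pi * z.im / M) = 0 := by ring
    rw [e, Real.exp_zero] at h1
    simpa using h1
  have hΦ : Differentiable ℂ (Periodic.cuspFunction M H) := fun q => by
    by_cases hq : q = 0
    · rw [hq]
      exact Periodic.differentiableAt_cuspFunction_zero hM hHp (Eventually.of_forall hH) hbd
    · rw [← Periodic.qParam_right_inv hM.ne' hq]
      exact Periodic.differentiableAt_cuspFunction hM.ne' hHp (hH _)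
  have hζ := Complex.isPrimitiveRoot_exp (2 * K + 1) (Nat.succ_ne_zero _)
  have hz : ∀ q, Periodic.cuspFunction M H q = 0 := by
    refine xatrig_poly ((Finset.range (2 * K + 1)).image
      fun j => Complex.exp (2 * Real.pi * I / ((2 * K + 1 : ℕ) : ℂ)) ^ j) (2 * K) ?_ ?_ hΦ ?_
      (C := C) fun q hq => ?_
    · rw [Finset.card_image_of_injOn hζ.injOn_pow, Finset.card_range]
    · intro a ha
      obtain ⟨j, -, rfl⟩ := Finset.mem_image.1 ha
      rw [norm_pow, hζ.norm'_eq_one (Nat.succ_ne_zero _), one_pow]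
    · intro a ha
      obtain ⟨j, hj, rfl⟩ := Finset.mem_image.1 ha
      have e : Complex.exp (2 * Real.pi * I / ((2 * K + 1 : ℕ) : ℂ)) ^ j =
          Periodic.qParam M ((j : ℂ) * M / (2 * K + 1)) := by
        unfold Periodic.qParam
        rw [← Complex.exp_nat_mul]
        congr 1
        push_cast
        field_simp
      have h1 : G ((j : ℂ) * M / (2 * K + 1)) = 0 := h0 ⟨j, Finset.mem_range.1 hj⟩
      rw [e, Periodic.eq_cuspFunction hM.ne' hHp]
      simp only [H]
      rw [h1, zero_mul]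
    · have hq0 : q ≠ 0 := norm_pos_iff.1 (by linarith)
      obtain ⟨z, rfl⟩ : ∃ z, Periodic.qParam M z = q := ⟨_, Periodic.qParam_right_inv hM.ne' hq0⟩
      have hz : z.im ≤ 0 := not_lt.1 fun h => (Periodic.norm_qParam_lt_one hM h).not_ge hq
      have h1 := hn z
      rw [abs_of_nonpos hz] at h1
      rw [Periodic.eq_cuspFunction hM.ne' hHp, Periodic.norm_qParam, ← Real.exp_nat_mul]
      convert h1 using 3
      push_cast
      ring
  intro z
  have h1 := hz (Periodic.qParam M z)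
  rw [Periodic.eq_cuspFunction hM.ne' hHp] at h1
  exact (mul_eq_zero.1 h1).resolve_right (pow_ne_zero _ (Periodic.qParam_ne_zero z))

/-- a periodic entire function of exponential type is determined by its values on a grid -/
theorem trig_zero {κ : Type} [Fintype κ] [DecidableEq κ] {M : ℝ} (hM : 0 < M) (K : ℕ)
    {G : (κ → ℂ) → ℂ} (hG : ∀ z i, Differentiable ℂ fun t : ℂ => G (z + (Pi.single i t : κ → ℂ)))
    (hp : ∀ z i, G (z + (Pi.single i (M : ℂ) : κ → ℂ)) = G z)
    (hb : ∃ C : ℝ, ∀ z, ‖G z‖ ≤ C * Real.exp (2 * Real.pi * K / M * ∑ i, |(z i).im|))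
    (h0 : ∀ j : κ → Fin (2 * K + 1), G (fun i => ((j i : ℕ) : ℂ) * M / (2 * K + 1)) = 0) :
    ∀ z, G z = 0 := by
  obtain ⟨C, hb⟩ := hb
  have hC : 0 ≤ C := nonneg_of_mul_nonneg_left ((norm_nonneg _).trans (hb 0)) (Real.exp_pos _)
  have hc : 0 ≤ 2 * Real.pi * K / M := by positivity
  have key : ∀ (s : Finset κ) (z : κ → ℂ),
      (∀ i ∉ s, ∃ j : Fin (2 * K + 1), z i = ((j : ℕ) : ℂ) * M / (2 * K + 1)) → G z = 0 := by
    intro s
    induction s using Finset.induction_on with
    | empty =>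
      intro z hz
      choose j hj using fun i => hz i (Finset.notMem_empty i)
      rw [← h0 j]
      exact congrArg G (funext hj)
    | insert a s ha ih =>
      intro z hz
      have e : z = update z a 0 + (Pi.single a (z a) : κ → ℂ) := by
        funext i
        by_cases hi : i = a
        · subst hi
          simp
        · simp [hi]
      rw [e]
      refine xatrig_one hM K (hG (update z a 0) a) (fun t => ?_)
        (C := C * Real.exp (2 * Real.pi * K / M * ∑ i, |(update z a 0 i).im|))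
        (fun t => (hb _).trans ?_) (fun j => ih _ fun i hi => ?_) (z a)
      · beta_reduce
        rw [Pi.single_add, ← add_assoc, hp]
      · rw [mul_assoc C, ← Real.exp_add, ← mul_add]
        refine mul_le_mul_of_nonneg_left (Real.exp_le_exp.2 (mul_le_mul_of_nonneg_left ?_ hc)) hC
        have e1 : |t.im| = ∑ i, |((Pi.single a t : κ → ℂ) i).im| := by
          rw [Finset.sum_eq_single a (fun i _ hi => by simp [hi]) (by simp), Pi.single_eq_same]
        rw [e1, ← Finset.sum_add_distrib]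
        refine Finset.sum_le_sum fun i _ => ?_
        rw [Pi.add_apply, add_im]
        exact abs_add_le _ _
      · by_cases hi' : i = a
        · subst hi'
          exact ⟨j, by simp⟩
        · obtain ⟨j', hj'⟩ := hz i fun h => (Finset.mem_insert.1 h).elim hi' hi
          exact ⟨j', by simp [hi', hj']⟩
  exact fun z => key Finset.univ z fun i hi => absurd (Finset.mem_univ i) hi

end Pool.Agent.MP_cf0a82_ag

end
end

section

open Complex Filter Topology Matrix Function

noncomputable section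

namespace Pool.Agent.MP_cf0a82_ag

open Pool.Agent.MP_f58063_ag

/-- the index set of the free coordinates -/
abbrev xacntK {g : ℕ} (o : Fin g) : Type := {p : Fin g × Fin g // p.1 ≤ p.2 ∧ p ≠ (o, o)}

/-- the symmetric matrix with given free coordinates -/
def xacntS {g : ℕ} (o : Fin g) (z : xacntK o → ℂ) : Mat g := ∑ p, z p • sE p.1.1 p.1.2

theorem xacnt_card {g : ℕ} (o : Fin g) : Fintype.card (xacntK o) + 1 ≤ NN g := by
  have h1 : Fintype.card (Option (xacntK o)) ≤ Fintype.card (Sym2 (Fin g)) := by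
    refine Fintype.card_le_of_injective
      (fun q => Sym2.sortEquiv.symm (q.elim ⟨(o, o), le_rfl⟩ fun p => ⟨p.1, p.2.1⟩)) ?_
    intro q q' h
    have h2 := congrArg Subtype.val (Sym2.sortEquiv.symm.injective h)
    rcases q with _ | p <;> rcases q' with _ | p'
    · rfl
    · exact absurd h2.symm p'.2.2
    · exact absurd h2 p.2.2
    · exact congrArg some (Subtype.ext h2)
  rw [Fintype.card_option, Sym2.card, Fintype.card_fin, Nat.choose_two_right] at h1
  simpa [NN, mul_comm] using h1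

theorem xacnt_apply {g : ℕ} (o : Fin g) (z : xacntK o → ℂ) (i j : Fin g) :
    xacntS o z i j = ∑ p, z p * sE p.1.1 p.1.2 i j := by
  simp [xacntS, Finset.sum_apply]

theorem xacnt_sy {g : ℕ} (o : Fin g) (z : xacntK o → ℂ) : IsSy (xacntS o z) := by
  intro i j
  rw [xacnt_apply, xacnt_apply]
  refine Finset.sum_congr rfl fun p _ => ?_
  simp only [sE]
  congr 1
  refine if_congr ?_ rfl rfl
  tauto

theorem xacnt_single {g : ℕ} (o : Fin g) (z : xacntK o → ℂ) (p : xacntK o) (t : ℂ) :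
    xacntS o (z + (Pi.single p t : xacntK o → ℂ)) = xacntS o z + t • sE p.1.1 p.1.2 := by
  simp only [xacntS, Pi.add_apply, add_smul, Finset.sum_add_distrib]
  congr 1
  rw [Finset.sum_eq_single p, Pi.single_eq_same]
  · intro q _ hq
    rw [Pi.single_eq_of_ne hq, zero_smul]
  · intro h; exact absurd (Finset.mem_univ p) h

theorem xacnt_imN_le {g : ℕ} {τ : Mat g} {r : ℝ} (hr : 0 ≤ r) (h : ∀ i j, |(τ i j).im| ≤ r) :
    imN τ ≤ r :=
  (pi_norm_le_iff_of_nonneg hr).mpr fun i => (pi_norm_le_iff_of_nonneg hr).mpr fun j => h i j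

theorem xacnt_le_imN {g : ℕ} (τ : Mat g) (i j : Fin g) : |(τ i j).im| ≤ imN τ :=
  (norm_le_pi_norm (fun j => (τ i j).im) j).trans
    (norm_le_pi_norm (fun i j => (τ i j).im : Fin g → Fin g → ℝ) i)

theorem xacnt_imN {g : ℕ} (o : Fin g) (z : xacntK o → ℂ) :
    imN (xacntS o z) ≤ ∑ p, |(z p).im| := by
  refine xacnt_imN_le (Finset.sum_nonneg fun p _ => abs_nonneg _) fun i j => ?_
  rw [xacnt_apply, im_sum]
  refine (Finset.abs_sum_le_sum_abs _ _).trans (Finset.sum_le_sum fun p _ => ?_)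
  simp only [sE]
  split_ifs
  · rw [mul_one]
  · simp

theorem xacnt_repr {g : ℕ} (o : Fin g) {τ : Mat g} (hs : IsSy τ) :
    ∃ z, τ = tr1 (xacntS o z) (τ o o) := by
  refine ⟨fun p => τ p.1.1 p.1.2 - if p.1.1 = p.1.2 then τ o o else 0, ?_⟩
  have key : ∀ i j : Fin g, i ≤ j → xacntS o
      (fun p => τ p.1.1 p.1.2 - if p.1.1 = p.1.2 then τ o o else 0) i j =
        τ i j - if i = j then τ o o else 0 := by
    intro i j hij
    have hz : ∀ p : xacntK o, p.1 ≠ (i, j) → sE p.1.1 p.1.2 i j = 0 := by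
      rintro ⟨⟨a, b⟩, hab, hne0⟩ hne
      refine if_neg ?_
      rintro (⟨rfl, rfl⟩ | ⟨rfl, rfl⟩)
      · exact hne rfl
      · exact hne (Prod.ext (le_antisymm hab hij) (le_antisymm hij hab))
    rw [xacnt_apply]
    by_cases h : (i, j) = (o, o)
    · rw [Finset.sum_eq_zero fun p _ => by rw [hz p (fun e => p.2.2 (e.trans h)), mul_zero]]
      obtain ⟨rfl, rfl⟩ := Prod.mk.inj h
      simp
    · rw [Finset.sum_eq_single (⟨(i, j), hij, h⟩ : xacntK o)]
      · simp [sE]
      · intro p _ hp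
        rw [hz p fun e => hp (Subtype.ext e), mul_zero]
      · intro h'; exact absurd (Finset.mem_univ _) h'
  funext i j
  simp only [tr1]
  rcases le_total i j with h | h
  · rw [key i j h, sub_add_cancel]
  · rw [xacnt_sy o _ i j, key j i h, hs i j]
    simp only [eq_comm (a := j) (b := i), sub_add_cancel]

theorem xacnt_quad {g : ℕ} (σ : Mat g) (t : ℂ) (v : Fin g → ℝ) :
    v ⬝ᵥ Ym (tr1 σ t) *ᵥ v = v ⬝ᵥ Ym σ *ᵥ v + t.im * (v ⬝ᵥ v) := by
  have h : Ym (tr1 σ t) = Ym σ + t.im • (1 : Matrix (Fin g) (Fin g) ℝ) := by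
    ext i j
    simp only [Ym, tr1, Matrix.of_apply, Matrix.add_apply, Matrix.smul_apply, Matrix.one_apply,
      add_im, smul_eq_mul]
    split_ifs <;> simp
  rw [h, Matrix.add_mulVec, dotProduct_add, Matrix.smul_mulVec, Matrix.one_mulVec,
    dotProduct_smul, smul_eq_mul]

theorem xacnt_mem {g : ℕ} {σ : Mat g} (hs : IsSy σ) {δ : ℝ} (h : YG σ δ) {t : ℂ}
    (ht : -δ < t.im) : tr1 σ t ∈ Siegel g := by
  refine ⟨fun i j => ?_, fun v hv => ?_⟩
  · simp only [tr1, hs i j, eq_comm (a := j) (b := i)]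
  · have h1 : ∑ i, ∑ j, v i * (tr1 σ t i j).im * v j = v ⬝ᵥ Ym (tr1 σ t) *ᵥ v := by
      simp only [dotProduct, Matrix.mulVec, Ym, Matrix.of_apply, Finset.mul_sum, mul_assoc]
    have h2 : 0 < v ⬝ᵥ v :=
      lt_of_le_of_ne (Finset.sum_nonneg fun i _ => mul_self_nonneg _)
        fun e => hv (dotProduct_self_eq_zero.mp e.symm)
    rw [h1, xacnt_quad]
    nlinarith [h v]

theorem xacnt_van {g M c L : ℕ} (hM : M ≠ 0) {f : Mat g → ℂ} (hf : PE M c f)
    (h0 : ∀ n : ℤ, -((c * M : ℕ) : ℤ) ≤ n → n < L → ∀ τ, IsSy τ → cf M n f τ = 0) :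
    Van M L f := by
  intro σ hσ δ hδ hY B hB
  have hMr : (0 : ℝ) < M := Nat.cast_pos.mpr (Nat.pos_of_ne_zero hM)
  have hs : IsSy σ := hσ.1
  have e0 : tr1 σ 0 = σ := by
    funext i j
    simp [tr1]
  have h := four_van (φ := fun t => f (tr1 σ t)) (K := c * M) (L := L) hMr hδ
    (hf.diff_tr1 hs hY) (fun t ht => ?_) ?_ (fun n h1 h2 => ?_) hB
  · simpa only [e0] using h
  · have h3 : tr1 σ (t + ((M : ℝ) : ℂ)) = tr1 (tr1 σ t) M := by
      funext i j
      simp only [tr1, ofReal_natCast]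
      split_ifs <;> ring
    simp only [h3]
    exact hf.per_tr1 (xacnt_mem hs hY ht)
  · obtain ⟨C, hC⟩ := hf.gr δ hδ
    have hC0 : 0 ≤ C := by
      have h3 := (norm_nonneg _).trans (hC σ hσ hY)
      exact nonneg_of_mul_nonneg_left h3 (Real.exp_pos _)
    refine ⟨C * Real.exp (c * imN σ), fun t ht => ?_⟩
    have h3 : YG (tr1 σ t) δ := fun v => by
      have h4 : 0 ≤ v ⬝ᵥ v := Finset.sum_nonneg fun i _ => mul_self_nonneg _
      rw [xacnt_quad]
      nlinarith [hY v, mul_nonneg ht h4]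
    refine (hC _ (xacnt_mem hs hY (by linarith)) h3).trans ?_
    rw [mul_assoc, ← Real.exp_add]
    refine mul_le_mul_of_nonneg_left (Real.exp_le_exp.mpr ?_) hC0
    have h5 : imN (tr1 σ t) ≤ imN σ + t.im := by
      refine xacnt_imN_le (add_nonneg (norm_nonneg _) ht) fun i j => ?_
      simp only [tr1, add_im]
      refine (abs_add_le _ _).trans (add_le_add (xacnt_le_imN σ i j) ?_)
      split_ifs
      · exact (abs_of_nonneg ht).le
      · simpa using ht
    have h6 : 2 * Real.pi * ((c * M : ℕ) : ℝ) / M = 2 * Real.pi * c := by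
      push_cast
      field_simp
    have h7 : (0 : ℝ) ≤ c := Nat.cast_nonneg c
    rw [h6]
    nlinarith [mul_le_mul_of_nonneg_left h5 h7, Real.pi_gt_three, mul_nonneg h7 ht]
  · have h3 := cf_eq hM hf n hs (s := 0) (by rw [e0]; exact hσ)
    rw [h0 n h1 h2 σ hs] at h3
    simpa using h3.symm

/-- vanishing to order `L` at the cusp imposes `O((c + L) ^ N)` linear conditions -/
theorem cnt {g M : ℕ} (hg : 0 < g) (hM : M ≠ 0) : ∃ K : ℕ, ∀ (c L : ℕ) (V : Type)
    [AddCommGroup V] [Module ℂ V] [FiniteDimensional ℂ V] (T : V →ₗ[ℂ] (Mat g → ℂ)),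
    (∀ v, PE M c (T v)) → ∃ V' : Submodule ℂ V,
      Module.finrank ℂ V ≤ Module.finrank ℂ V' + K * (c + L + 1) ^ NN g ∧
        ∀ v ∈ V', Van M L (T v) := by
  refine ⟨(2 * (M * g + (g + 1) * M) + 1) ^ NN g, fun c L V _ _ _ T hT => ?_⟩
  have hMr : (0 : ℝ) < M := Nat.cast_pos.mpr (Nat.pos_of_ne_zero hM)
  have hM1 : 1 ≤ M := Nat.pos_of_ne_zero hM
  set o : Fin g := ⟨0, hg⟩
  set K2 : ℕ := (c * M + L) * g + c * (g + 1) * M with hK2
  let Φ : V →ₗ[ℂ] (Fin (c * M + L) × (xacntK o → Fin (2 * K2 + 1)) → ℂ) :=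
    { toFun := fun v q => cf M ((q.1 : ℕ) - (c * M : ℕ)) (T v)
        (xacntS o fun i => ((q.2 i : ℕ) : ℂ) * (M : ℝ) / (2 * K2 + 1))
      map_add' := fun v w => funext fun q => by
        rw [map_add, cf_add (hT v) (hT w) _ (xacnt_sy o _)]; rfl
      map_smul' := fun a v => funext fun q => by
        rw [map_smul, cf_smul]; rfl }
  refine ⟨LinearMap.ker Φ, ?_, fun v hv => ?_⟩
  · have h1 := LinearMap.finrank_range_add_finrank_ker Φ
    have h2 := Submodule.finrank_le (LinearMap.range Φ)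
    rw [Module.finrank_fintype_fun_eq_card, Fintype.card_prod, Fintype.card_fin,
      Fintype.card_fun, Fintype.card_fin] at h2
    have h3 : c * M + L ≤ M * (c + L + 1) := by nlinarith
    have h4 : 2 * K2 + 1 ≤ (2 * (M * g + (g + 1) * M) + 1) * (c + L + 1) := by
      have h5 := Nat.mul_le_mul_right g h3
      rw [hK2]
      nlinarith [Nat.zero_le (L * M * (g + 1)), Nat.zero_le (M * (g + 1))]
    have h5 : c * M + L ≤ (2 * (M * g + (g + 1) * M) + 1) * (c + L + 1) :=
      h3.trans (Nat.mul_le_mul_right _ (by nlinarith))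
    have h6 : (c * M + L) * (2 * K2 + 1) ^ Fintype.card (xacntK o) ≤
        ((2 * (M * g + (g + 1) * M) + 1) * (c + L + 1)) ^ NN g := by
      refine (Nat.mul_le_mul h5 (Nat.pow_le_pow_left h4 _)).trans ?_
      rw [← pow_succ']
      exact Nat.pow_le_pow_right (by positivity) (xacnt_card o)
    rw [mul_pow] at h6
    omega
  · refine xacnt_van hM (hT v) fun n h1 h2 τ hτ => ?_
    obtain ⟨z, hz⟩ := xacnt_repr o hτ
    have hG := trig_zero (κ := xacntK o) hMr K2 (G := fun z => cf M n (T v) (xacntS o z))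
      (fun z p => ?_) (fun z p => ?_) ?_ (fun j => ?_) z
    · rw [hz, cf_tr1 hM (hT v) n (xacnt_sy o z), hG, mul_zero]
    · simp only [xacnt_single]
      exact cf_diff hM (hT v) n (xacnt_sy o z) _ _
    · simp only [xacnt_single, ofReal_natCast]
      exact cf_per (hT v) n (xacnt_sy o z) _ _
    · obtain ⟨C, hC⟩ := cf_bd hM (hT v) n
      have hC0 : 0 ≤ C := by
        have h3 := (norm_nonneg _).trans (hC τ hτ)
        exact nonneg_of_mul_nonneg_left h3 (Real.exp_pos _)
      refine ⟨C, fun z => (hC _ (xacnt_sy o z)).trans ?_⟩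
      refine mul_le_mul_of_nonneg_left (Real.exp_le_exp.mpr ?_) hC0
      have hn : |(n : ℝ)| ≤ c * M + L := by
        have h3 : |n| ≤ ((c * M + L : ℕ) : ℤ) := by
          rw [abs_le]
          constructor <;> push_cast at h1 h2 ⊢ <;> nlinarith [Nat.zero_le (c * M)]
        exact_mod_cast h3
      refine mul_le_mul ?_ (xacnt_imN o z) (norm_nonneg _) (by positivity)
      have h4 : 2 * Real.pi * (K2 : ℝ) / M =
          2 * Real.pi * (c * M + L) * g / M + 2 * Real.pi * (c * (g + 1)) := by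
        rw [hK2]
        push_cast
        field_simp
      have h5 : (0 : ℝ) ≤ c * (g + 1) := by positivity
      rw [h4]
      refine add_le_add ?_ (by nlinarith [Real.pi_gt_three])
      gcongr
    · have h3 := congrFun (LinearMap.mem_ker.mp hv)
        (⟨(n + (c * M : ℕ)).toNat, by omega⟩, j)
      have h4 : (((n + (c * M : ℕ)).toNat : ℕ) : ℤ) - (c * M : ℕ) = n := by omega
      change cf M ((((n + (c * M : ℕ)).toNat : ℕ) : ℤ) - (c * M : ℕ)) (T v) _ = 0 at h3
      rw [h4] at h3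
      exact h3

end Pool.Agent.MP_cf0a82_ag

end
end
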