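import Pool.Agent.Mg.Fcf0a82q.G61e4ec
import Pool.Agent.Mg.Fcf0a82q.G7c9b0d
import Pool.Agent.Mg.Fcf0a82q.Ge1829e

open Complex Filter Topology Matrix Function

noncomputable section

namespace Pool.Agent.MP_f58063_ag

lemma xssep_fin {V ι : Type} [AddCommGroup V] [Module ℂ V] [FiniteDimensional ℂ V]
    (f : ι → V →ₗ[ℂ] ℂ) :
    ∃ (n : ℕ) (s : Fin n → ι), ∀ B, (∀ j, f (s j) B = 0) → ∀ c, f c B = 0 := by
  obtain ⟨κ, a, -, hs, hl⟩ := exists_linearIndependent' ℂ f
  have : Finite κ := hl.finite_of_isNoetherian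
  refine ⟨_, a ∘ (Finite.equivFin κ).symm, fun B hB c => ?_⟩
  have h1 : Submodule.span ℂ (Set.range (f ∘ a)) ≤
      LinearMap.ker (LinearMap.applyₗ (R := ℂ) (M₂ := ℂ) B) := by
    rw [Submodule.span_le]
    rintro _ ⟨k, rfl⟩
    have := hB (Finite.equivFin κ k)
    simpa using this
  rw [hs] at h1
  simpa using h1 (Submodule.subset_span ⟨c, rfl⟩)

lemma xssep_det {g : ℕ} {ι : Type} (v : ι → Fin g → ℂ)
    (h : ∀ e : Fin g → ℂ, (∀ c, ∑ i, e i * v c i = 0) → e = 0) :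
    ∃ s : Fin g → ι, (Matrix.of fun a i => v (s i) a).det ≠ 0 := by
  have hsp : Submodule.span ℂ (Set.range v) = ⊤ := by
    by_contra hne
    obtain ⟨φ, h0, hφ⟩ := Submodule.exists_le_ker_of_lt_top _ (lt_top_iff_ne_top.2 hne)
    have he := h (fun i => φ fun j => if i = j then 1 else 0) fun c => by
      have h1 : φ (v c) = 0 := hφ (Submodule.subset_span ⟨c, rfl⟩)
      rw [LinearMap.pi_apply_eq_sum_univ] at h1
      simpa only [smul_eq_mul, mul_comm] using h1
    refine h0 (LinearMap.ext fun x => ?_)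
    rw [LinearMap.pi_apply_eq_sum_univ]
    refine Finset.sum_eq_zero fun i _ => ?_
    rw [show (φ fun j => if i = j then 1 else 0) = 0 from congrFun he i, smul_zero]
  obtain ⟨κ, a, -, hs, hl⟩ := exists_linearIndependent' ℂ v
  have : Finite κ := hl.finite_of_isNoetherian
  have := Fintype.ofFinite κ
  have hc : Fintype.card κ = g := by
    have b := Module.Basis.mk hl (by rw [hs, hsp])
    have := Module.finrank_eq_card_basis b
    simpa using this.symm
  let e : Fin g ≃ κ := (Fintype.equivFinOfCardEq hc).symm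
  refine ⟨a ∘ e, ?_⟩
  have h2 : LinearIndependent ℂ (Matrix.of fun a' i => v ((a ∘ e) i) a').col :=
    hl.comp e e.injective
  exact ((Matrix.isUnit_iff_isUnit_det _).1 (Matrix.linearIndependent_cols_iff_isUnit.1 h2)).ne_zero

variable {g : ℕ} {τ : Mat g}

/-- a rational characteristic -/
def xssepC (q : LL g → ℚ) : LL g → ℂ := fun i => (q i : ℂ)

lemma xssep_mono {N M : ℕ} {c : LL g → ℂ} (h : IsCh N c) (hd : N ∣ M) : IsCh M c := by
  obtain ⟨k, rfl⟩ := hd
  intro i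
  obtain ⟨n, hn⟩ := h i
  exact ⟨n * k, by push_cast; rw [← mul_assoc, hn]⟩

lemma xssep_ch (q : LL g → ℚ) : IsCh (∏ i, (q i).den) (xssepC q) := by
  intro i
  obtain ⟨k, hk⟩ := Finset.dvd_prod_of_mem (fun i => (q i).den) (Finset.mem_univ i)
  refine ⟨(q i).num * k, ?_⟩
  have h1 : ((q i : ℂ)) * (q i).den = (q i).num := by exact_mod_cast Rat.mul_den_eq_num (q i)
  rw [hk]
  push_cast
  rw [← mul_assoc, ← h1]
  rfl

lemma xssep_den (q : LL g → ℚ) : ∏ i, (q i).den ≠ 0 :=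
  Finset.prod_ne_zero_iff.2 fun i _ => (q i).den_nz

lemma xssep_hc (ε : LL g → Fin 2) : IsCh 2 (hc ε) := fun i =>
  ⟨(ε i : ℕ), by simp [hc]⟩

lemma xssep_all (a : Fin g → ℚ) {F : EE g → ℂ} (hF : ∀ z, AnalyticAt ℂ F z)
    (h : ∀ b : Fin g → ℚ, F (fun i => (0 : EE g) i +
      ∑ j, τ i j * xssepC (Sum.elim a b) (.inl j) + xssepC (Sum.elim a b) (.inr i)) = 0)
    (z : EE g) : F z = 0 := by
  let p : EE g := fun i => (0 : EE g) i + ∑ j, τ i j * (a j : ℂ)
  have h1 := entire_zero_of_rat (f := fun w => F (p + w))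
    (fun w => (hF _).comp (analyticAt_const.add analyticAt_id)) h
  have h2 := congrFun h1 (z - p)
  simpa using h2

lemma xssep_th (hτ : τ ∈ PosIm g) : ∃ q, th (xssepC q) τ ≠ 0 := by
  by_contra hne
  push Not at hne
  obtain ⟨z, hz⟩ := theta_ne hτ
  refine hz (xssep_all (τ := τ) 0 (theta_analytic hτ) (fun b => ?_) z)
  exact (mul_eq_zero.1 (hne (Sum.elim 0 b))).resolve_left (exp_ne_zero _)

lemma xssep_pi : (2 * Real.pi * I : ℂ) ≠ 0 := two_pi_I_ne_zero

lemma xssep_grad (hτ : τ ∈ PosIm g) (e : Fin g → ℂ)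
    (h : ∀ q, ∑ i, e i * dv (ee i) (thc (xssepC q) τ) 0 = 0) : e = 0 := by
  obtain ⟨z, hz⟩ := theta_ne hτ
  have key : ∀ a : Fin g → ℚ,
      ∑ i, e i * (2 * Real.pi * I * (a i : ℂ) * theta τ z + dv (ee i) (theta τ) z) = 0 := by
    intro a
    refine xssep_all (τ := τ) a (F := fun z =>
      ∑ i, e i * (2 * Real.pi * I * (a i : ℂ) * theta τ z + dv (ee i) (theta τ) z))
      (fun z => Finset.analyticAt_fun_sum _ fun i _ => analyticAt_const.mul
        ((analyticAt_const.mul (theta_analytic hτ z)).add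
          (analyticAt_dv (theta_analytic hτ z) _))) (fun b => ?_) z
    have h1 := h (Sum.elim a b)
    simp only [dv_thc _ hτ, mul_left_comm (e _), ← Finset.mul_sum] at h1
    exact (mul_eq_zero.1 h1).resolve_left (exp_ne_zero _)
  funext k
  have h1 := key (Pi.single k 1)
  have h0 := key 0
  have h2 : ∑ i, e i * (2 * Real.pi * I * (((Pi.single k 1 : Fin g → ℚ) i : ℚ) : ℂ) * theta τ z +
      dv (ee i) (theta τ) z) - ∑ i, e i * (2 * Real.pi * I * (((0 : Fin g → ℚ) i : ℚ) : ℂ) *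
        theta τ z + dv (ee i) (theta τ) z) = e k * (2 * Real.pi * I * theta τ z) := by
    rw [← Finset.sum_sub_distrib, Finset.sum_eq_single k]
    · simp only [Pi.single_eq_same, Rat.cast_one, Pi.zero_apply, Rat.cast_zero]
      ring
    · intro i _ hi
      simp only [Pi.single_eq_of_ne hi, Pi.zero_apply, sub_self]
    · simp
  rw [h1, h0, sub_zero] at h2
  exact (mul_eq_zero.1 h2.symm).resolve_right (mul_ne_zero xssep_pi hz)

lemma xssep_quad {B : Mat g} (hB : ∀ i j, B i j = B j i)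
    (h : ∀ a : Fin g → ℚ, ∑ i, ∑ j, B i j * ((a i : ℂ) * a j) = 0) : B = 0 := by
  have h1 : ∀ k l, ∑ i, ∑ j, B i j * ((((Pi.single k 1 : Fin g → ℚ) i : ℚ) : ℂ) *
      (((Pi.single l 1 : Fin g → ℚ) j : ℚ) : ℂ)) = B k l := by
    intro k l
    rw [Finset.sum_eq_single k, Finset.sum_eq_single l]
    · simp
    · intro j _ hj
      simp [Pi.single_eq_of_ne hj]
    · simp
    · intro i _ hi
      simp [Pi.single_eq_of_ne hi]
    · simp
  funext k l
  have h2 := h (Pi.single k 1 + Pi.single l 1)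
  simp only [Pi.add_apply, Rat.cast_add, add_mul, mul_add, Finset.sum_add_distrib, h1] at h2
  have h3 := h (Pi.single k 1)
  have h4 := h (Pi.single l 1)
  rw [h1] at h3 h4
  rw [h3, h4, hB l k] at h2
  change B k l = 0
  linear_combination h2 / 2

lemma xssep_sep (hτ : τ ∈ PosIm g) {c₀ : LL g → ℂ} (h₀ : th c₀ τ ≠ 0) {B : Mat g}
    (hB : ∀ i j, B i j = B j i) (h : ∀ q, fderiv ℂ (yq c₀ (xssepC q)) τ B = 0) : B = 0 := by
  obtain ⟨z, hz⟩ := theta_ne hτ
  have a₀ := th_analytic c₀ τ hτ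
  obtain ⟨lam, hlam⟩ : ∃ lam : ℂ, ∀ q, fderiv ℂ (th (xssepC q)) τ B = th (xssepC q) τ * lam := by
    refine ⟨fderiv ℂ (th c₀) τ B / th c₀ τ, fun q => ?_⟩
    have a₁ := th_analytic (xssepC q) τ hτ
    have a₂ : AnalyticAt ℂ (yq c₀ (xssepC q)) τ := a₁.div a₀ h₀
    have e : th (xssepC q) =ᶠ[𝓝 τ] fun σ => yq c₀ (xssepC q) σ * th c₀ σ := by
      filter_upwards [a₀.continuousAt.eventually_ne h₀] with σ hσ
      rw [yq, div_mul_cancel₀ _ hσ]
    rw [e.fderiv_eq, fderiv_fun_mul a₂.differentiableAt a₀.differentiableAt]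
    simp only [_root_.add_apply, _root_.smul_apply, smul_eq_mul, h q,
      mul_zero, add_zero, yq]
    ring
  have hp : (4 * Real.pi * I : ℂ) ≠ 0 := by
    have := mul_ne_zero (two_ne_zero (α := ℂ)) xssep_pi
    rwa [show (2 : ℂ) * (2 * Real.pi * I) = 4 * Real.pi * I by ring] at this
  have an := theta_analytic hτ
  have key : ∀ a : Fin g → ℚ, ∑ i, ∑ j, B i j *
      ((2 * Real.pi * I) ^ 2 * (a i : ℂ) * (a j : ℂ) * theta τ z +
        2 * Real.pi * I * (a i : ℂ) * dv (ee j) (theta τ) z +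
        2 * Real.pi * I * (a j : ℂ) * dv (ee i) (theta τ) z +
        dv (ee i) (dv (ee j) (theta τ)) z) - 4 * Real.pi * I * lam * theta τ z = 0 := by
    intro a
    refine xssep_all (τ := τ) a (F := fun z => ∑ i, ∑ j, B i j *
      ((2 * Real.pi * I) ^ 2 * (a i : ℂ) * (a j : ℂ) * theta τ z +
        2 * Real.pi * I * (a i : ℂ) * dv (ee j) (theta τ) z +
        2 * Real.pi * I * (a j : ℂ) * dv (ee i) (theta τ) z +
        dv (ee i) (dv (ee j) (theta τ)) z) - 4 * Real.pi * I * lam * theta τ z)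
      (fun z => AnalyticAt.sub (Finset.analyticAt_fun_sum _ fun i _ =>
        Finset.analyticAt_fun_sum _ fun j _ => analyticAt_const.mul
          ((((analyticAt_const.mul (an z)).add (analyticAt_const.mul (analyticAt_dv (an z) _))).add
            (analyticAt_const.mul (analyticAt_dv (an z) _))).add
            (analyticAt_dv (analyticAt_dv (an z) _) _))) (analyticAt_const.mul (an z)))
      (fun b => ?_) z
    have h1 := hlam (Sum.elim a b)
    rw [heat_th _ hτ hB, inv_mul_eq_iff_eq_mul₀ hp] at h1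
    simp only [dv_dv_thc _ hτ, mul_left_comm (B _ _), ← Finset.mul_sum] at h1
    rw [th, thc, mul_assoc (exp _), mul_left_comm _ (exp _)] at h1
    have h2 := mul_left_cancel₀ (exp_ne_zero _) h1
    rw [sub_eq_zero, mul_assoc _ lam, mul_comm lam]
    exact h2
  refine xssep_quad hB fun a => ?_
  have h1 := key a
  have h2 := key (-a)
  have h3 := key 0
  have h4 : (2 * (2 * Real.pi * I) ^ 2 * theta τ z) * ∑ i, ∑ j, B i j * ((a i : ℂ) * a j) = 0 := by
    simp only [Pi.neg_apply, Rat.cast_neg, Pi.zero_apply, Rat.cast_zero] at h2 h3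
    rw [sub_eq_zero] at h1 h2 h3
    have h5 := congrArg₂ (· - ·) (congrArg₂ (· + ·) h1 h2) (congrArg₂ (· + ·) h3 h3)
    simp only [← Finset.sum_add_distrib, ← Finset.sum_sub_distrib, sub_self] at h5
    rw [← h5, Finset.mul_sum]
    refine Finset.sum_congr rfl fun i _ => ?_
    rw [Finset.mul_sum]
    refine Finset.sum_congr rfl fun j _ => ?_
    ring
  exact (mul_eq_zero.1 h4).resolve_left
    (mul_ne_zero (mul_ne_zero two_ne_zero (pow_ne_zero 2 xssep_pi)) hz)

/-- theta constants of a suitable level give a frame and separate tangent vectors at `τ` -/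
theorem sep {g : ℕ} {τ : Mat g} (hτ : τ ∈ Siegel g) :
    ∃ (N n : ℕ) (c₀ : LL g → ℂ) (cs : Fin g → LL g → ℂ) (ch : Fin n → LL g → ℂ), N ≠ 0 ∧
      (∀ ε : LL g → Fin 2, IsCh N (hc ε)) ∧ IsCh N c₀ ∧ (∀ i, IsCh N (cs i)) ∧ (∀ j, IsCh N (ch j)) ∧
      τ ∈ Om c₀ cs ∧ ∀ B : Mat g, (∀ i j, B i j = B j i) →
        (∀ j, fderiv ℂ (yq c₀ (ch j)) τ B = 0) → B = 0 := by
  obtain ⟨q₀, h₀⟩ := xssep_th hτ.2
  obtain ⟨s, hs⟩ := xssep_det (fun (q : LL g → ℚ) i => dv (ee i) (thc (xssepC q) τ) 0)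
    (xssep_grad hτ.2)
  obtain ⟨n, t, ht⟩ := xssep_fin fun q : LL g → ℚ =>
    (fderiv ℂ (yq (xssepC q₀) (xssepC q)) τ).toLinearMap
  refine ⟨2 * (∏ i, (q₀ i).den) * (∏ k, ∏ i, (s k i).den) * ∏ k, ∏ i, (t k i).den, n, xssepC q₀,
    fun k => xssepC (s k), fun k => xssepC (t k), ?_, fun ε => xssep_mono (xssep_hc ε) ?_,
    xssep_mono (xssep_ch q₀) ?_, fun k => xssep_mono (xssep_ch _) ?_,
    fun k => xssep_mono (xssep_ch _) ?_, ⟨hτ.2, h₀, ?_⟩,
    fun B hB h => xssep_sep hτ.2 h₀ hB (ht B h)⟩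
  · exact mul_ne_zero (mul_ne_zero (mul_ne_zero two_ne_zero (xssep_den _))
      (Finset.prod_ne_zero_iff.2 fun k _ => xssep_den _))
      (Finset.prod_ne_zero_iff.2 fun k _ => xssep_den _)
  · exact ((dvd_mul_right _ _).mul_right _).mul_right _
  · exact ((dvd_mul_left _ _).mul_right _).mul_right _
  · exact ((Finset.dvd_prod_of_mem (fun k => ∏ i, (s k i).den)
      (Finset.mem_univ k)).mul_left _).mul_right _
  · exact (Finset.dvd_prod_of_mem (fun k => ∏ i, (t k i).den) (Finset.mem_univ k)).mul_left _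
  · have e : Vf (xssepC q₀) (fun k => xssepC (s k)) τ = (th (xssepC q₀) τ)⁻¹ •
        Matrix.of fun a i => dv (ee a) (thc (xssepC (s i)) τ) 0 := by
      ext a i
      simp only [Vf, Matrix.of_apply, Matrix.smul_apply, smul_eq_mul]
      rw [div_eq_inv_mul]
    rw [e, Matrix.det_smul]
    exact mul_ne_zero (pow_ne_zero _ (inv_ne_zero h₀)) hs

end Pool.Agent.MP_f58063_ag
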