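import Pool.Agent.Mg.Fcf0a82q.Gff7211
import Pool.Agent.Mg.Fcf0a82q.G67c0ca
import Pool.Agent.Mg.Fcf0a82q.G446bd4
import Pool.Agent.Mg.Fcf0a82q.G7c9b0d
import Pool.Agent.Mg.Fcf0a82q.G6a582e
import Pool.Agent.Mg.Fcf0a82q.G3d2c3a

section

/-! Jacobi forms, modular coordinates and Nash sections of the universal family. -/

open Complex Filter Topology Matrix

noncomputable section

namespace Pool.Agent.MP_cf0a82_ag

open Pool.Agent.MP_f58063_ag

/-- tuples of points -/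
abbrev XX (ι : Type) (g : ℕ) : Type := ι → EE g

/-- the universal cover of a fibre power of the universal family -/
abbrev PP (ι : Type) (g : ℕ) : Type := Mat g × XX ι g

section jacobi

variable {ι : Type} [Fintype ι] {g : ℕ}

/-- a real vector as a complex vector -/
def rc (a : Fin g → ℝ) : EE g := fun i => (a i : ℂ)

/-- the exponent of the factor of automorphy of index `m` -/
def qI (m : ι → ι → ℤ) (a : ι → Fin g → ℝ) (p : PP ι g) : ℂ :=
  ∑ l, ∑ l', (m l l' : ℂ) * (rc (a l) ⬝ᵥ mv p.1 (rc (a l')) + 2 * (rc (a l) ⬝ᵥ p.2 l'))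

/-- translation by `τ a + b` -/
def shP (a b : ι → Fin g → ℝ) (p : PP ι g) : PP ι g :=
  (p.1, fun l => p.2 l + mv p.1 (rc (a l)) + rc (b l))

/-- the translate of a function of index `m` -/
def sh (m : ι → ι → ℤ) (F : PP ι g → ℂ) (a b : ι → Fin g → ℝ) (p : PP ι g) : ℂ :=
  exp (Real.pi * I * qI m a p) * F (shP a b p)

/-- holomorphic functions of index `m` and moderate growth -/
structure JH (m : ι → ι → ℤ) (F : PP ι g → ℂ) : Prop where
  an : ∀ p : PP ι g, p.1 ∈ PosIm g → AnalyticAt ℂ F p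
  gr : ∀ a b : ι → Fin g → ℝ, ∀ K : ℝ, ∃ (C : ℝ) (n : ℕ), ∀ τ ∈ Siegel g, ∀ r, Bd τ r →
    ∀ ξ : XX ι g, ‖ξ‖ ≤ K / r → ‖sh m F a b (τ, ξ)‖ ≤ C * r ^ n

/-- the action of the modular group -/
def gact (γ : Sp g) (p : PP ι g) : PP ι g := (act γ p.1, fun l => (jac γ p.1)⁻¹ᵀ *ᵥ p.2 l)

/-- the action of the lattice -/
def tact (a b : ι → Fin g → ℤ) (p : PP ι g) : PP ι g :=
  (p.1, fun l => p.2 l + per p.1 (b l) (a l))

/-- the exponent of the factor of automorphy of the modular group -/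
def jq (m : ι → ι → ℤ) (γ : Sp g) (p : PP ι g) : ℂ :=
  ∑ l, ∑ l', (m l l' : ℂ) * (p.2 l ⬝ᵥ ((jac γ p.1)⁻¹ * (cx γ).toBlocks₂₁) *ᵥ p.2 l')

/-- Jacobi forms of level `M`, multiplier `kap ^ α * det ^ β` and index `m` -/
structure JF (M α β : ℕ) (m : ι → ι → ℤ) (F : PP ι g → ℂ) : Prop where
  jh : JH m F
  lat : ∀ a b : ι → Fin g → ℤ, ∀ p : PP ι g, p.1 ∈ Siegel g →
    exp (Real.pi * I * qI m (fun l i => (a l i : ℝ)) p) * F (tact a b p) = F p
  grp : ∀ γ ∈ Gam g M, ∀ p : PP ι g, p.1 ∈ Siegel g → F (gact γ p) =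
    kap γ p.1 ^ α * (jac γ p.1).det ^ β * exp (Real.pi * I * jq m γ p) * F p

/-- evaluation at an integral linear combination of the points -/
def lc (q : ι → ℤ) (F : Mat g → EE g → ℂ) (p : PP ι g) : ℂ := F p.1 (∑ l, (q l : ℂ) • p.2 l)

/-- scalar index -/
def idm [DecidableEq ι] (n : ℕ) : ι → ι → ℤ := fun l l' => if l = l' then n else 0

/-- the domain where the denominator does not vanish -/
def DomJ (Δ : PP ι g → ℂ) : Set (PP ι g) := {p | p.1 ∈ PosIm g ∧ Δ p ≠ 0}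

/-- functions with poles along `Δ` and moderate growth -/
def MerJ (Δ : PP ι g → ℂ) (m : ι → ι → ℤ) (f : PP ι g → ℂ) : Prop :=
  ∃ (n : ℕ) (h : PP ι g → ℂ), JH (n • m) h ∧ ∀ p ∈ DomJ Δ, f p = h p / Δ p ^ n

/-- invariant functions -/
def InvJ (M : ℕ) (Δ : PP ι g → ℂ) (f : PP ι g → ℂ) : Prop :=
  ∀ p ∈ DomJ Δ, p.1 ∈ Siegel g →
    (∀ γ ∈ Gam g M, f (gact γ p) = f p) ∧ ∀ a b, f (tact a b p) = f p

/-- vector fields with poles along `Δ` -/
def MerF (Δ : PP ι g → ℂ) (m : ι → ι → ℤ) (ξ : PP ι g → PP ι g) : Prop :=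
  (∀ a b, MerJ Δ m fun p => (ξ p).1 a b) ∧ (∀ l a, MerJ Δ m fun p => (ξ p).2 l a) ∧
    ∀ p, IsSy (ξ p).1

/-- invariant vector fields -/
def InvF (M : ℕ) (Δ : PP ι g → ℂ) (ξ : PP ι g → PP ι g) : Prop :=
  ∀ p ∈ DomJ Δ, p.1 ∈ Siegel g →
    (∀ γ ∈ Gam g M, ξ (gact γ p) = fderiv ℂ (gact γ) p (ξ p)) ∧
      ∀ a b, ξ (tact a b p) = fderiv ℂ (tact a b) p (ξ p)

/-- theta functions of level `n` on a power of the torus -/
def ThI (τ : Mat g) (n : ℕ) : Submodule ℂ (XX ι g → ℂ) where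
  carrier := {h | (∀ z, AnalyticAt ℂ h z) ∧ ∀ (m l : ι → Fin g → ℤ) (z : XX ι g),
    h (fun i => z i + per τ (m i) (l i)) = (∏ i, aut τ (l i) (z i)) ^ n * h z}
  add_mem' := fun {a b} ha hb => ⟨fun z => (ha.1 z).add (hb.1 z), fun m l z => by
    simp only [Pi.add_apply a b, ha.2, hb.2, mul_add]⟩
  zero_mem' := ⟨fun _ => analyticAt_const, fun _ _ _ => by simp⟩
  smul_mem' := fun c a ha => ⟨fun z => (ha.1 z).const_smul, fun m l z => by
    simp only [Pi.smul_apply c a, ha.2, smul_eq_mul]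
    ring⟩

/-- the block diagonal period matrix -/
def bd [DecidableEq ι] {G : ℕ} (e : ι × Fin g ≃ Fin G) (τ : Mat g) : Mat G := fun a b =>
  if (e.symm a).1 = (e.symm b).1 then τ (e.symm a).2 (e.symm b).2 else 0

/-- a tuple of points as one point -/
def fl {G : ℕ} (e : ι × Fin g ≃ Fin G) (z : XX ι g) : EE G :=
  fun a => z (e.symm a).1 (e.symm a).2

/-- one point as a tuple of points -/
def uf {G : ℕ} (e : ι × Fin g ≃ Fin G) (w : EE G) : XX ι g := fun l i => w (e (l, i))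

end jacobi

variable {g : ℕ}

/-- the matrix of gradients of theta functions -/
def Gm (cs : Fin g → LL g → ℂ) (τ : Mat g) : Matrix (Fin g) (Fin g) ℂ :=
  Matrix.of fun a i => dv (ee a) (thc (cs i) τ) 0

/-- the logarithmic gradient of a theta function of level three -/
def βf (φ : Mat g → EE g → ℂ) (τ : Mat g) (z : EE g) : EE g :=
  fun a => dv (ee a) (φ τ) z / (6 * Real.pi * I * φ τ z)

/-- the lift of a point to the universal vector extension -/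
def Uf (φ : Mat g → EE g → ℂ) (τ : Mat g) (z : EE g) : LL g → ℂ :=
  Sum.elim (z + mv τ (βf φ τ z)) (βf φ τ z)

/-- the space of modular coordinates -/
abbrev DD (g : ℕ) : Type := Fin (NN g) → ℂ

/-- a chart of the Siegel space given by theta constants, with a projective embedding of the
universal family -/
structure Box (g : ℕ) : Type where
  N : ℕ
  c₀ : LL g → ℂ
  cs : Fin g → LL g → ℂ
  yc : Fin (NN g) → LL g → ℂ
  ψ : DD g → Mat g
  x₀ : DD g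
  r : ℝ
  nJ : ℕ
  tc : Fin nJ → (LL g → ℚ) × (LL g → ℚ)
  hN : N ≠ 0
  hhc : ∀ ε : LL g → Fin 2, IsCh N (hc ε)
  h0 : IsCh N c₀
  hs : ∀ i, IsCh N (cs i)
  hy : ∀ i, IsCh N (yc i)
  ht : ∀ j, IsCh N (rq (tc j).1) ∧ IsCh N (rq (tc j).2)
  hr : 0 < r
  an : AnalyticOnNhd ℂ ψ (Metric.ball x₀ r)
  mem : ∀ x ∈ Metric.ball x₀ r, ψ x ∈ Siegel g ∧ ψ x ∈ Om c₀ cs ∧ ∀ i, yq c₀ (yc i) (ψ x) = x i
  cov : ∀ x ∈ Metric.ball x₀ r, 𝓝[Siegel g] (ψ x) ≤ map ψ (𝓝 x)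
  sur : ∀ x ∈ Metric.ball x₀ r, ∀ S : Mat g, IsSy S → ∃ ξ, fderiv ℂ ψ x ξ = S
  emb : Emb (ψ '' Metric.ball x₀ r) fun τ z j => tp (tc j) τ z

namespace Box

variable (B : Box g)

/-- the domain of the chart -/
def ball : Set (DD g) := Metric.ball B.x₀ B.r

/-- the coordinates of the embedding -/
def φ (j : Fin B.nJ) : Mat g → EE g → ℂ := tp (B.tc j)

/-- the embedding -/
def Φ : Mat g → EE g → Fin B.nJ → ℂ := fun τ z j => tp (B.tc j) τ z

/-- the period frame -/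
def P (τ : Mat g) : Matrix (LL g) (LL g) ℂ := Pf B.c₀ B.cs τ

/-- the common denominator -/
def Δ (j : Fin B.nJ) (p : PP Unit g) : ℂ :=
  th B.c₀ p.1 * (Gm B.cs p.1).det * B.φ j p.1 (p.2 ())

/-- invariant functions with poles along the denominator -/
def JMod (j : Fin B.nJ) (f : PP Unit g → ℂ) : Prop :=
  MerJ (B.Δ j) (idm 3) f ∧ InvJ (2 * B.N ^ 2) (B.Δ j) f

/-- the horizontal invariant vector fields -/
def Xt (j : Fin B.nJ) (a b : Fin g) (p : PP Unit g) : PP Unit g :=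
  (Xi B.c₀ B.cs a b p.1, fun _ => -mv (Xi B.c₀ B.cs a b p.1) (βf (B.φ j) p.1 (p.2 ())))

/-- the vertical invariant vector fields -/
def Zt (a : Fin g) (p : PP Unit g) : PP Unit g := (0, fun _ => (Vf B.c₀ B.cs p.1)⁻¹ᵀ *ᵥ ee a)

variable {X : Type} [NormedAddCommGroup X] [NormedSpace ℂ X]

/-- Nash maps to the chart -/
def NB (x : X → DD g) (p : X) : Prop :=
  AnalyticAt ℂ x p ∧ (∀ i, NashAt (fun e => x e i) p) ∧ x p ∈ B.ball

/-- Nash sections of the universal family -/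
def NS (x : X → DD g) (z : X → EE g) (p : X) : Prop :=
  AnalyticAt ℂ z p ∧ ∀ j j₀, B.φ j₀ (B.ψ (x p)) (z p) ≠ 0 →
    NashAt (fun e => B.φ j (B.ψ (x e)) (z e) / B.φ j₀ (B.ψ (x e)) (z e)) p

end Box

/-- a countable atlas of Nash charts of the universal family -/
structure Atl (B : Box g) : Type where
  O : ℕ → Set (DD g × EE g)
  σ : ℕ → DD g × EE g → EE g
  j : ℕ → Fin B.nJ
  op : ∀ a, IsOpen (O a)
  sub : ∀ a, ∀ y ∈ O a, y.1 ∈ B.ball
  ns : ∀ a, ∀ y ∈ O a, B.NS Prod.fst (σ a) y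
  ne : ∀ a, ∀ y ∈ O a, B.φ (j a) (B.ψ y.1) (σ a y) ≠ 0
  inj : ∀ a, ∀ y ∈ O a, ∀ v, fderiv ℂ (σ a) y (0, v) = 0 → v = 0
  cov : ∀ x ∈ B.ball, ∀ z, ∃ (a : ℕ) (ρ : EE g → EE g), AnalyticAt ℂ ρ z ∧ (x, ρ z) ∈ O a ∧
    ∀ᶠ z' in 𝓝 z, σ a (x, ρ z') = z'

end Pool.Agent.MP_cf0a82_ag

end
end

section

open Complex Filter Topology Matrix Function

noncomputable section

namespace Pool.Agent.MP_cf0a82_ag

open Pool.Agent.MP_f58063_ag

variable {ι : Type} [Fintype ι] [DecidableEq ι] {g G : ℕ} (e : ι × Fin g ≃ Fin G) {τ : Mat g}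

omit [DecidableEq ι] in
theorem xbbd_sum {R : Type} [AddCommMonoid R] (f : Fin G → R) :
    ∑ a, f a = ∑ i, ∑ a, f (e (i, a)) := by
  rw [← Equiv.sum_comp e, Fintype.sum_prod_type]

omit [Fintype ι] in
theorem xbbd_bd (τ : Mat g) (i j : ι) (a b : Fin g) :
    bd e τ (e (i, a)) (e (j, b)) = if i = j then τ a b else 0 := by
  simp [bd]

theorem bd_mem (hτ : τ ∈ Siegel g) : bd e τ ∈ Siegel G := by
  refine ⟨fun a b => ?_, fun v hv => ?_⟩
  · simp only [bd, hτ.1 (e.symm a).2, eq_comm (a := (e.symm a).1)]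
  · have h1 : ∀ i, ∑ a, ∑ b, v (e (i, a)) * (bd e τ (e (i, a)) b).im * v b =
        ∑ a, ∑ b, v (e (i, a)) * (τ a b).im * v (e (i, b)) := fun i => by
      refine Finset.sum_congr rfl fun a _ => ?_
      rw [xbbd_sum e, Finset.sum_eq_single i (fun j _ hj => by simp [xbbd_bd, hj.symm]) (by simp)]
      simp [xbbd_bd]
    rw [xbbd_sum e]
    simp only [h1]
    obtain ⟨a, ha⟩ := ne_iff.1 hv
    obtain ⟨⟨i, a⟩, rfl⟩ := e.surjective a
    refine Finset.sum_pos' (fun j _ => ?_)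
      ⟨i, Finset.mem_univ _, hτ.2 (fun a => v (e (i, a))) (ne_iff.2 ⟨a, ha⟩)⟩
    by_cases h : (fun a => v (e (j, a))) = 0
    · simp [fun a => congrFun h a]
    · exact (hτ.2 _ h).le

omit [Fintype ι] [DecidableEq ι] in
theorem uf_fl (z : XX ι g) : uf e (fl e z) = z := by
  funext l i
  simp [uf, fl]

omit [Fintype ι] [DecidableEq ι] in
theorem fl_uf (w : EE G) : fl e (uf e w) = w := by
  funext a
  simp [uf, fl]

theorem uf_per (τ : Mat g) (m l : Fin G → ℤ) (i : ι) :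
    uf e (per (bd e τ) m l) i = per τ (fun a => m (e (i, a))) fun a => l (e (i, a)) := by
  funext a
  simp only [uf, per]
  rw [xbbd_sum e, Finset.sum_eq_single i (fun j _ hj => by simp [xbbd_bd, hj.symm]) (by simp)]
  simp [xbbd_bd]

theorem aut_bd (τ : Mat g) (l : Fin G → ℤ) (w : EE G) :
    aut (bd e τ) l w = ∏ i, aut τ (fun a => l (e (i, a))) (uf e w i) := by
  simp only [aut, uf]
  rw [← Complex.exp_sum, Finset.sum_neg_distrib, Finset.sum_add_distrib, ← Finset.mul_sum,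
    ← Finset.mul_sum, xbbd_sum e, xbbd_sum e (fun a => (l a : ℂ) * w a)]
  congr 4
  refine Finset.sum_congr rfl fun i _ => Finset.sum_congr rfl fun a _ => ?_
  rw [xbbd_sum e, Finset.sum_eq_single i (fun j _ hj => by simp [xbbd_bd, hj.symm]) (by simp)]
  simp [xbbd_bd]

theorem ThI_Th {n : ℕ} {h : XX ι g → ℂ} (hh : h ∈ ThI τ n) :
    (fun w => h (uf e w)) ∈ Th (bd e τ) n := by
  refine ⟨fun w => (hh.1 _).comp (analyticAt_pi_iff.2 fun i => analyticAt_pi_iff.2 fun a =>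
    (ContinuousLinearMap.proj (R := ℂ) (φ := fun _ : Fin G => ℂ) (e (i, a))).analyticAt w),
    fun m l w => ?_⟩
  rw [aut_bd, ← hh.2 fun i a => m (e (i, a))]
  refine congrArg h (funext fun i => ?_)
  rw [← uf_per]
  rfl

omit [DecidableEq ι] in
theorem prod_ThI {n : ℕ} {h : ι → EE g → ℂ} (hh : ∀ i, h i ∈ Th τ n) :
    (fun z : XX ι g => ∏ i, h i (z i)) ∈ ThI τ n := by
  refine ⟨fun z => Finset.analyticAt_fun_prod _ fun i _ => ((hh i).1 _).comp
    ((ContinuousLinearMap.proj (R := ℂ) (φ := fun _ : ι => EE g) i).analyticAt z), fun m l z => ?_⟩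
  simp only [(hh _).2, Finset.prod_mul_distrib, Finset.prod_pow]

theorem ThI_finrank (ι : Type) [Fintype ι] (hτ : τ ∈ Siegel g) : ∃ C : ℕ, ∀ n,
    FiniteDimensional ℂ (ThI (ι := ι) τ n) ∧
      Module.finrank ℂ (ThI (ι := ι) τ n) ≤ C * (n + 1) ^ (Fintype.card ι * g) := by
  classical
  let e : ι × Fin g ≃ Fin (Fintype.card ι * g) := Fintype.equivFinOfCardEq (by simp)
  obtain ⟨C, hC⟩ := Th_finrank (bd_mem e hτ)
  refine ⟨C, fun n => ?_⟩
  have := (hC n).1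
  let L : ThI (ι := ι) τ n →ₗ[ℂ] Th (bd e τ) n :=
    { toFun := fun h => ⟨fun w => h.1 (uf e w), ThI_Th e h.2⟩
      map_add' := fun _ _ => rfl
      map_smul' := fun _ _ => rfl }
  have hL : Injective L := fun a b h => Subtype.ext (funext fun z => by
    simpa only [L, LinearMap.coe_mk, AddHom.coe_mk, uf_fl] using
      congrFun (congrArg Subtype.val h) (fl e z))
  exact ⟨Module.Finite.of_injective L hL,
    (LinearMap.finrank_le_finrank_of_injective hL).trans (hC n).2⟩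

theorem JF.slice {M α β n : ℕ} {F : PP ι g → ℂ} (h : JF M α β (idm n) F) (hτ : τ ∈ Siegel g) :
    (fun z => F (τ, z)) ∈ ThI τ n := by
  refine ⟨fun z => (h.jh.an (τ, z) hτ.2).comp (analyticAt_const.prod analyticAt_id),
    fun m l z => ?_⟩
  beta_reduce
  rw [← h.lat l m (τ, z) hτ, ← mul_assoc]
  simp only [aut]
  rw [← Complex.exp_sum, ← Complex.exp_nat_mul, ← Complex.exp_add]
  refine ((one_mul _).symm.trans ?_ : F (tact l m (τ, z)) = _)
  congr 1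
  rw [← Complex.exp_zero]
  congr 1
  simp only [qI, idm, Int.cast_ite, ite_mul, Int.cast_zero, zero_mul, Finset.sum_ite_eq,
    Finset.mem_univ, if_true, Int.cast_natCast]
  rw [Finset.mul_sum, Finset.mul_sum, ← Finset.sum_add_distrib]
  refine (Finset.sum_eq_zero fun i _ => ?_).symm
  simp only [rc, mv, dotProduct, ofReal_intCast, mul_assoc, ← Finset.mul_sum]
  ring

end Pool.Agent.MP_cf0a82_ag

end
end

section

open Complex Filter Topology Matrix Function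

noncomputable section

namespace Pool.Agent.MP_cf0a82_ag

open Pool.Agent.MP_f58063_ag

variable {g : ℕ}

theorem isCh_mono {N N' : ℕ} {c : LL g → ℂ} (h : IsCh N c) (hd : N ∣ N') : IsCh N' c := by
  obtain ⟨k, rfl⟩ := hd
  intro i
  obtain ⟨n, hn⟩ := h i
  exact ⟨n * k, by rw [Nat.cast_mul, ← mul_assoc, hn, Int.cast_mul, Int.cast_natCast]⟩

lemma xbboxe_sur {ψ : DD g → Mat g} {x : DD g} (hψ : AnalyticAt ℂ ψ x)
    (hS : ∀ᶠ y in 𝓝 x, ψ y ∈ Siegel g) (hi : Injective (fderiv ℂ ψ x)) :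
    (∀ S : Mat g, IsSy S → ∃ ξ, fderiv ℂ ψ x ξ = S) ∧ 𝓝[Siegel g] (ψ x) ≤ map ψ (𝓝 x) := by
  obtain ⟨ι, π, -, -, h3⟩ := sym_chart g
  have h4 : ∀ ξ, ι (π (fderiv ℂ ψ x ξ)) = fderiv ℂ ψ x ξ := fun ξ =>
    h3 _ (fderiv_symm hψ hS ξ)
  have h5 : Surjective (π.comp (fderiv ℂ ψ x)) :=
    LinearMap.injective_iff_surjective (f := (π.comp (fderiv ℂ ψ x)).toLinearMap) |>.1
      fun a b e => hi (by rw [← h4 a, ← h4 b]; exact congrArg ι e)
  refine ⟨fun S hs => (h5 (π S)).imp fun ξ e => by rw [← h4, ← h3 S hs]; exact congrArg ι e, ?_⟩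
  have h6 : map (π ∘ ψ) (𝓝 x) = 𝓝 (π (ψ x)) :=
    (π.hasStrictFDerivAt.comp x hψ.hasStrictFDerivAt).map_nhds_eq_of_surj
      (LinearMap.range_eq_top.2 h5)
  have h7 : ι ∘ π ∘ ψ =ᶠ[𝓝 x] ψ := hS.mono fun y hy => h3 _ hy.1
  have h8 : ι ∘ π =ᶠ[𝓝[Siegel g] (ψ x)] id := eventually_nhdsWithin_of_forall fun y hy => h3 _ hy.1
  rw [← map_congr h7, ← Filter.map_map, h6, ← Filter.map_id (f := 𝓝[Siegel g] (ψ x)),
    ← map_congr h8, ← Filter.map_map]
  exact map_mono (π.continuous.continuousAt.tendsto.mono_left nhdsWithin_le_nhds)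

theorem box_exists {τ₀ : Mat g} (h : τ₀ ∈ Siegel g) : ∃ B : Box g, B.ψ B.x₀ = τ₀ := by
  obtain ⟨N, n, c₀, cs, ch, hN, hhc, hc0, hcs, hch, hΩ0, hsep⟩ := sep h
  obtain ⟨a, tc, O, hO, hO0, hE⟩ := emb_tp h
  obtain ⟨N₁, n1, l1⟩ := exists_level fun j => (tc j).1
  obtain ⟨N₂, n2, l2⟩ := exists_level fun j => (tc j).2
  obtain ⟨e, ψ, x₀, r, hr, hψ0, hψ, -, hB⟩ := coord (isMfd_siegel g) subset_rfl h
    ((isOpen_Om c₀ cs).inter hO) ⟨hΩ0, hO0⟩ (y := fun j => yq c₀ (ch j))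
    (fun j τ hτ => (Mod_yq hN hc0 hcs (hch j)).1.analyticAt (isOpen_Om c₀ cs) (Om_sub c₀ cs) hτ.1)
    hsep
  have d0 : N ∣ N * (N₁ * N₂) := dvd_mul_right _ _
  have key := fun x (hx : x ∈ Metric.ball x₀ r) => xbboxe_sur (hψ x hx)
    (mem_of_superset (Metric.isOpen_ball.mem_nhds hx) fun y hy => (hB y hy).1) (hB x hx).2.2.2.1
  have hs : ψ '' Metric.ball x₀ r ⊆ Siegel g ∩ O := by
    rintro _ ⟨x, hx, rfl⟩
    exact ⟨(hB x hx).1, (hB x hx).2.1.2⟩
  exact ⟨⟨N * (N₁ * N₂), c₀, cs, fun i => ch (e i), ψ, x₀, r, a, tc,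
    mul_ne_zero hN (mul_ne_zero n1 n2), fun ε => isCh_mono (hhc ε) d0, isCh_mono hc0 d0,
    fun i => isCh_mono (hcs i) d0, fun i => isCh_mono (hch _) d0,
    fun j => ⟨l1 j _ ((dvd_mul_right _ _).mul_left _), l2 j _ ((dvd_mul_left _ _).mul_left _)⟩,
    hr, hψ, fun x hx => ⟨(hB x hx).1, (hB x hx).2.1.1, (hB x hx).2.2.1⟩, fun x hx => (key x hx).2,
    fun x hx => (key x hx).1, hs.trans hE.sub, fun τ hτ => hE.an τ (hs hτ),
    fun τ hτ => hE.qp τ (hs hτ), fun τ hτ => hE.ne τ (hs hτ), fun τ hτ => hE.inj τ (hs hτ),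
    fun τ hτ => hE.imm τ (hs hτ)⟩, hψ0⟩

lemma xbboxe_ne (g : ℕ) : (fun i j => if i = j then I else 0 : Mat g) ∈ Siegel g := by
  refine ⟨fun i j => by simp only [eq_comm], fun v hv => ?_⟩
  obtain ⟨i, hi⟩ := Function.ne_iff.1 hv
  simp only [apply_ite Complex.im, I_im, zero_im, mul_ite, ite_mul, mul_one, mul_zero, zero_mul,
    Finset.sum_ite_eq, Finset.mem_univ, if_true]
  exact Finset.sum_pos' (fun j _ => mul_self_nonneg _) ⟨i, Finset.mem_univ i, mul_self_pos.2 hi⟩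

theorem box_cover (g : ℕ) :
    ∃ B : ℕ → Box g, ∀ τ ∈ Siegel g, ∃ n, ∃ x ∈ (B n).ball, (B n).ψ x = τ := by
  obtain ⟨B₀, -⟩ := box_exists (xbboxe_ne g)
  have ex : ∀ τ : Mat g, ∃ B : Box g, τ ∈ Siegel g → B.ψ B.x₀ = τ := fun τ => by
    by_cases h : τ ∈ Siegel g
    · exact (box_exists h).imp fun B e _ => e
    · exact ⟨B₀, fun h' => absurd h' h⟩
  choose F hF using ex
  obtain ⟨t, -, t1, t2⟩ := TopologicalSpace.countable_cover_nhdsWithin (s := Siegel g)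
    (f := fun τ => (F τ).ψ '' (F τ).ball) fun τ hτ => by
      have := (F τ).cov _ (Metric.mem_ball_self (F τ).hr)
      rw [hF τ hτ] at this
      exact this (image_mem_map (Metric.ball_mem_nhds _ (F τ).hr))
  obtain ⟨τ₁, h1, -⟩ := Set.mem_iUnion₂.1 (t2 (xbboxe_ne g))
  obtain ⟨f, rfl⟩ := t1.exists_eq_range ⟨τ₁, h1⟩
  refine ⟨fun n => F (f n), fun τ hτ => ?_⟩
  obtain ⟨_, ⟨n, rfl⟩, h2⟩ := Set.mem_iUnion₂.1 (t2 hτ)
  exact ⟨n, h2⟩

end Pool.Agent.MP_cf0a82_ag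

end
end
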