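import Pool.Agent.Mg.Fcf0a82q.Gff7211
import Pool.Agent.Mg.Fcf0a82q.G61e4ec

section

open Complex Filter Topology Matrix Function

noncomputable section

namespace Pool.Agent.MP_cf0a82_ag

open Pool.Agent.MP_f58063_ag

variable {g : ℕ} {τ : Mat g}

lemma xawb_one {r : ℝ} (hr : 1 ≤ r) : ∃ S : ℝ, 0 ≤ S ∧ S ≤ 4 * r ∧
    HasSum (fun n : ℤ => Real.exp (-|(n : ℝ)| / r)) S := by
  have h0 : 0 < r := by linarith
  have hq : Real.exp (-1 / r) ≤ 1 - (2 * r)⁻¹ := by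
    have h1 := Real.add_one_le_exp (1 / r)
    rw [neg_div, Real.exp_neg]
    refine (inv_anti₀ (by positivity) h1).trans ?_
    rw [inv_le_iff_one_le_mul₀ (by positivity)]
    field_simp
    nlinarith
  have h2 : 0 < (2 * r)⁻¹ := by positivity
  have h3 := hasSum_geometric_of_lt_one (Real.exp_pos (-1 / r)).le (by linarith)
  have h4 : HasSum (fun n : ℕ => Real.exp (-(n : ℝ) / r)) (1 - Real.exp (-1 / r))⁻¹ := by
    refine h3.congr_fun ?_
    intro n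
    rw [← Real.exp_nat_mul]
    congr 1
    ring
  have h5 := HasSum.of_nat_of_neg (f := fun n : ℤ => Real.exp (-|(n : ℝ)| / r))
    (by simpa using h4) (by simpa using h4)
  refine ⟨_, h5.nonneg fun n => (Real.exp_pos _).le, ?_, h5⟩
  have h6 : (1 - Real.exp (-1 / r))⁻¹ ≤ 2 * r := by
    rw [inv_le_comm₀ (by linarith) (by linarith)]
    linarith
  have := Real.exp_pos (-|((0 : ℤ) : ℝ)| / r)
  linarith

lemma xawb_prod {h : ℤ → ℝ} (h0 : ∀ n, 0 ≤ h n) {S : ℝ} (hS : HasSum h S) (k : ℕ) :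
    HasSum (fun n : Fin k → ℤ => ∏ i, h (n i)) (S ^ k) := by
  induction k with
  | zero => simp
  | succ k ih =>
    have h2 := hS.mul ih (hS.summable.mul_of_nonneg ih.summable h0
      fun n => Finset.prod_nonneg fun i _ => h0 _)
    rw [pow_succ']
    refine (Fin.consEquiv fun _ : Fin (k + 1) => ℤ).hasSum_iff.1 (h2.congr_fun fun w => ?_)
    simp [Fin.consEquiv, Fin.prod_univ_succ]

lemma xawb_term {r : ℝ} (hr : 1 ≤ r) (n : ℤ) (a : ℝ) :
    Real.exp (-((n : ℝ) + a) ^ 2 / r) ≤ Real.exp 2 * Real.exp (-|((n + ⌊a⌋ : ℤ) : ℝ)| / r) := by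
  have h0 : 0 < r := by linarith
  rw [← Real.exp_add, Real.exp_le_exp, div_le_iff₀ h0, add_mul, div_mul_cancel₀ _ h0.ne']
  have h1 := Int.floor_le a
  have h2 := Int.lt_floor_add_one a
  have h3 : |((n + ⌊a⌋ : ℤ) : ℝ)| ≤ |(n : ℝ) + a| + 1 := by
    have := le_abs_self ((n : ℝ) + a)
    have := neg_abs_le ((n : ℝ) + a)
    push_cast
    rw [abs_le]
    constructor <;> linarith
  rw [← sq_abs]
  nlinarith [sq_nonneg (|(n : ℝ) + a| - 1)]

theorem gauss_bd (g : ℕ) : ∃ C : ℝ, 0 < C ∧ ∀ r : ℝ, 1 ≤ r → ∀ a : Fin g → ℝ,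
    Summable (fun n : Fin g → ℤ => Real.exp (-(∑ i, ((n i : ℝ) + a i) ^ 2) / r)) ∧
      ∑' n : Fin g → ℤ, Real.exp (-(∑ i, ((n i : ℝ) + a i) ^ 2) / r) ≤ C * r ^ g := by
  refine ⟨(Real.exp 2 * 4) ^ g, by positivity, fun r hr a => ?_⟩
  obtain ⟨S, h0, h1, h2⟩ := xawb_one hr
  have h3 := (Equiv.addRight fun i => ⌊a i⌋).hasSum_iff.2 (xawb_prod
    (fun n => by positivity) (h2.mul_left (Real.exp 2)) g)
  have h4 : ∀ n : Fin g → ℤ, Real.exp (-(∑ i, ((n i : ℝ) + a i) ^ 2) / r) ≤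
      ∏ i, Real.exp 2 * Real.exp (-|((n i + ⌊a i⌋ : ℤ) : ℝ)| / r) := fun n => by
    rw [← Finset.sum_neg_distrib, Finset.sum_div, Real.exp_sum]
    exact Finset.prod_le_prod (fun i _ => (Real.exp_pos _).le) fun i _ => xawb_term hr _ _
  have h5 := Summable.of_nonneg_of_le (fun n => (Real.exp_pos _).le) h4 h3.summable
  refine ⟨h5, (hasSum_le h4 h5.hasSum h3).trans ?_⟩
  rw [← mul_pow, mul_assoc]
  gcongr

theorem le_Ws (hτ : τ ∈ Siegel g) (a b : Fin g → ℝ) : ‖Sr τ a b‖ ≤ Ws τ := by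
  obtain ⟨M, hM⟩ := Sr_bdd hτ
  exact le_ciSup (f := fun c : (Fin g → ℝ) × (Fin g → ℝ) => ‖Sr τ c.1 c.2‖)
    ⟨M, by rintro _ ⟨c, rfl⟩; exact hM _ _⟩ (a, b)

theorem one_le_Ws (hτ : τ ∈ Siegel g) : 1 ≤ Ws τ := by
  have h := bessel (M := Ws τ) (xsdup_summable hτ 0 0) (fun b => by
    refine le_of_eq_of_le ?_ (le_Ws hτ 0 b)
    rw [xsdup_def]
    refine congrArg _ (tsum_congr fun n => ?_)
    rw [← exp_add]
    simp [xsdupE]) {0}
  have h0 : 0 ≤ Ws τ := (norm_nonneg _).trans (le_Ws hτ 0 0)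
  simp only [xsdupE, Finset.sum_singleton, Pi.zero_apply, Int.cast_zero, ofReal_zero, add_zero,
    mul_zero, Finset.sum_const_zero, exp_zero, norm_one, one_pow] at h
  nlinarith

theorem Ws_le (g : ℕ) : ∃ C : ℝ, 0 < C ∧ ∀ τ ∈ Siegel g, ∀ r : ℝ, 1 ≤ r → YG τ r⁻¹ →
    Ws τ ≤ C * r ^ g := by
  obtain ⟨C, hC, h⟩ := gauss_bd g
  refine ⟨C, hC, fun τ _ r hr hY => ciSup_le fun c => ?_⟩
  obtain ⟨h1, h2⟩ := h r hr c.1
  refine le_trans ?_ h2
  rw [xsdup_def]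
  refine tsum_of_norm_bounded h1.hasSum fun n => ?_
  rw [Complex.norm_exp, xsdup_re, Real.exp_le_exp]
  have h3 := hY fun i => (n i : ℝ) + c.1 i
  have h4 : (fun i => (n i : ℝ) + c.1 i) ⬝ᵥ Ym τ *ᵥ (fun i => (n i : ℝ) + c.1 i) =
      ∑ i, ∑ j, ((n i : ℝ) + c.1 i) * (τ i j).im * ((n j : ℝ) + c.1 j) := by
    simp only [dotProduct, mulVec, Ym, of_apply, Finset.mul_sum, mul_assoc]
  have h5 : (fun i => (n i : ℝ) + c.1 i) ⬝ᵥ (fun i => (n i : ℝ) + c.1 i) =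
      ∑ i, ((n i : ℝ) + c.1 i) ^ 2 := by
    simp only [dotProduct, sq]
  rw [h4, h5] at h3
  have h6 : 0 ≤ r⁻¹ * ∑ i, ((n i : ℝ) + c.1 i) ^ 2 := by positivity
  rw [neg_div, div_eq_inv_mul]
  nlinarith [Real.pi_gt_three]

lemma xawb_norm {τ' : Mat g} {a b b' : Fin g → ℝ} (u : ℝ) (h : ∀ k, ∃ m : ℤ,
    xsdupE τ' a b k = u * I + xsdupE τ a b' k + m * (2 * Real.pi * I)) :
    ‖Sr τ' a b‖ = ‖Sr τ a b'‖ := by
  have : Sr τ' a b = exp (u * I) * Sr τ a b' := by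
    rw [xsdup_def, xsdup_def, ← tsum_mul_left]
    refine tsum_congr fun k => ?_
    obtain ⟨m, hm⟩ := h k
    rw [hm, exp_add, exp_add, exp_int_mul_two_pi_mul_I, mul_one]
  rw [this, norm_mul, norm_exp_ofReal_mul_I, one_mul]

lemma xawb_mat (σ : Mat g) (n : ℂ) (a b : Fin g → ℝ) (k : Fin g → ℤ) :
    xsdupE (τ + n • σ) a b k = xsdupE τ a b k +
      Real.pi * I * n * ∑ i, ∑ j, ((k i : ℂ) + a i) * σ i j * ((k j : ℂ) + a j) := by
  have : ∑ i, ∑ j, ((k i : ℂ) + a i) * (τ + n • σ) i j * ((k j : ℂ) + a j) =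
      ∑ i, ∑ j, ((k i : ℂ) + a i) * τ i j * ((k j : ℂ) + a j) +
        n * ∑ i, ∑ j, ((k i : ℂ) + a i) * σ i j * ((k j : ℂ) + a j) := by
    simp only [Finset.mul_sum, ← Finset.sum_add_distrib, Pi.add_apply, Pi.smul_apply, smul_eq_mul]
    exact Finset.sum_congr rfl fun i _ => Finset.sum_congr rfl fun j _ => by ring
  rw [xsdupE, xsdupE, this]
  ring

lemma xawb_vec (a b : Fin g → ℝ) (p : Fin g) (u : ℝ) (k : Fin g → ℤ) :
    xsdupE τ a (b + Pi.single p u) k = xsdupE τ a b k +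
      2 * Real.pi * I * (((k p : ℂ) + a p) * u) := by
  have : ∑ i, ((k i : ℂ) + a i) * ((b + Pi.single p u : Fin g → ℝ) i : ℂ) =
      ∑ i, ((k i : ℂ) + a i) * b i + ((k p : ℂ) + a p) * u := by
    simp only [Pi.add_apply, ofReal_add, mul_add, Finset.sum_add_distrib]
    congr 1
    rw [Finset.sum_eq_single p (fun i _ hi => by simp [hi]) (by simp), Pi.single_eq_same]
  rw [xsdupE, xsdupE, this]
  ring

lemma xawb_same (x : Fin g → ℂ) (p : Fin g) : ∑ i, ∑ j, x i * sE p p i j * x j = x p * x p := by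
  simp [sE, ite_and]

lemma xawb_ne (x : Fin g → ℂ) {p q : Fin g} (h : p ≠ q) :
    ∑ i, ∑ j, x i * sE p q i j * x j = 2 * (x p * x q) := by
  have : ∀ i j, sE p q i j = (if i = p then if j = q then 1 else 0 else 0) +
      if i = q then if j = p then 1 else 0 else 0 := fun i j => by
    simp only [sE]
    by_cases h1 : i = p <;> by_cases h2 : j = q <;> by_cases h3 : i = q <;> by_cases h4 : j = p <;>
      simp_all
  simp [this, mul_add, add_mul, Finset.sum_add_distrib]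
  ring

theorem Ws_tra (hτ : τ ∈ Siegel g) (a b : Fin g) (n : ℕ) :
    Ws (τ + (n : ℂ) • sE a b) = Ws τ := by
  obtain ⟨s, hs⟩ : ∃ s : (Fin g → ℝ) → Fin g → ℝ, ∀ x y,
      ‖Sr (τ + (n : ℂ) • sE a b) x y‖ = ‖Sr τ x (y + s x)‖ := by
    by_cases h : a = b
    · subst h
      refine ⟨fun x => Pi.single a (n * (x a + 1 / 2)), fun x y =>
        xawb_norm (-(Real.pi * n * (x a ^ 2 + x a))) fun k => ?_⟩
      obtain ⟨m, hm⟩ := Int.even_mul_pred_self (k a)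
      have hm' : (k a : ℂ) * (k a - 1) = m + m := by exact_mod_cast hm
      refine ⟨n * m, ?_⟩
      rw [xawb_mat, xawb_vec, xawb_same fun i => (k i : ℂ) + x i]
      push_cast
      linear_combination Real.pi * I * n * hm'
    · refine ⟨fun x => Pi.single a (n * x b) + Pi.single b (n * x a), fun x y =>
        xawb_norm (-(2 * Real.pi * n * (x a * x b))) fun k => ⟨n * (k a * k b), ?_⟩⟩
      rw [xawb_mat, ← add_assoc y, xawb_vec, xawb_vec, xawb_ne (fun i => (k i : ℂ) + x i) h]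
      push_cast
      ring
  refine Surjective.iSup_congr (fun c => (c.1, c.2 + s c.1))
    (fun c => ⟨(c.1, c.2 - s c.1), by simp⟩) fun c => (hs _ _).symm

end Pool.Agent.MP_cf0a82_ag

end
end

section

open Complex Filter Topology Matrix Function

noncomputable section

namespace Pool.Agent.MP_cf0a82_ag

open Pool.Agent.MP_f58063_ag

variable {g : ℕ} {τ : Mat g}

/-- the parity that governs the quasi-periodicity of the pull back of theta -/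
def xathgK (γ : Sp g) (v : LL g → ℤ) : ℤ :=
  ∑ i, v (.inl i) * v (.inr i) +
    ∑ i, ((γ⁻¹).1ᵀ *ᵥ v) (.inl i) * ((γ⁻¹).1ᵀ *ᵥ v) (.inr i)

lemma xathg_J (v w : LL g → ℤ) : v ⬝ᵥ J (Fin g) ℤ *ᵥ w =
    ∑ i, v (.inr i) * w (.inl i) - ∑ i, v (.inl i) * w (.inr i) := by
  have e : w = Sum.elim (w ∘ .inl) (w ∘ .inr) := (Sum.elim_comp_inl_inr w).symm
  have e' : v = Sum.elim (v ∘ .inl) (v ∘ .inr) := (Sum.elim_comp_inl_inr v).symm
  conv_lhs => rw [e, e', J, fromBlocks_mulVec, sumElim_dotProduct_sumElim]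
  simp [dotProduct, neg_mulVec]
  ring

lemma xathg_add (γ : Sp g) (v w : LL g → ℤ) :
    (2 : ℤ) ∣ xathgK γ (v + w) - (xathgK γ v + xathgK γ w) := by
  set P := (γ⁻¹).1ᵀ with hP
  have h1 : Pᵀ * J (Fin g) ℤ * P = J (Fin g) ℤ :=
    SymplecticGroup.mem_iff'.1 (SymplecticGroup.transpose_mem (γ⁻¹).2)
  have h2 : (P *ᵥ v) ⬝ᵥ J (Fin g) ℤ *ᵥ (P *ᵥ w) = v ⬝ᵥ J (Fin g) ℤ *ᵥ w := by
    conv_rhs => rw [← h1]
    rw [← mulVec_mulVec, ← mulVec_mulVec, dotProduct_mulVec v, vecMul_transpose]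
  rw [xathg_J, xathg_J] at h2
  refine ⟨∑ i, v (.inr i) * w (.inl i) + ∑ i, (P *ᵥ v) (.inl i) * (P *ᵥ w) (.inr i), ?_⟩
  simp only [xathgK, ← hP, mulVec_add, Pi.add_apply, add_mul, mul_add, Finset.sum_add_distrib]
  have c1 : ∑ i, w (.inl i) * v (.inr i) = ∑ i, v (.inr i) * w (.inl i) :=
    Finset.sum_congr rfl fun i _ => mul_comm _ _
  have c2 : ∑ i, (P *ᵥ w) (.inl i) * (P *ᵥ v) (.inr i) =
      ∑ i, (P *ᵥ v) (.inr i) * (P *ᵥ w) (.inl i) :=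
    Finset.sum_congr rfl fun i _ => mul_comm _ _
  rw [c1, c2]
  linear_combination h2

lemma xathg_lin (γ : Sp g) :
    ∃ ε : LL g → ℤ, ∀ v, (2 : ℤ) ∣ ∑ i, v i * ε i - xathgK γ v := by
  let φ : (LL g → ℤ) →+ ZMod 2 := AddMonoidHom.mk' (fun v => (xathgK γ v : ZMod 2)) fun v w => by
    rw [← Int.cast_add, eq_comm]
    exact (ZMod.intCast_eq_intCast_iff_dvd_sub _ _ 2).2 (xathg_add γ v w)
  refine ⟨fun i => xathgK γ (Pi.single i 1), fun v => ?_⟩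
  refine (ZMod.intCast_eq_intCast_iff_dvd_sub _ _ 2).1 ?_
  have h : φ v = φ (∑ i, v i • Pi.single i (1 : ℤ)) := congrArg φ (pi_eq_sum_univ' v)
  rw [map_sum] at h
  simp only [map_zsmul] at h
  simp only [zsmul_eq_mul] at h
  push_cast
  exact h

lemma xathg_per (γ : Sp g) (hτ : τ ∈ Siegel g) (m n : Fin g → ℤ) (z : EE g) :
    xstfF γ τ (z + per τ m n) =
      exp (-(Real.pi * I * xathgK γ (Sum.elim n m))) * aut τ n z * xstfF γ τ z := by
  set v : LL g → ℤ := Sum.elim n m with hv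
  set c : LL g → ℤ := (γ⁻¹).1ᵀ *ᵥ v with hc
  have h1 : γ.1ᵀ *ᵥ c = v := by
    rw [hc, mulVec_mulVec, ← transpose_mul, ← Submonoid.coe_mul, inv_mul_cancel,
      Submonoid.coe_one, transpose_one, one_mulVec]
  have h3 : (cx γ)ᵀ *ᵥ (fun i => (c i : ℂ)) = fun i => (v i : ℂ) := by
    funext i
    rw [← h1]
    simp [cx, mulVec, dotProduct]
  have hk' : ((xathgK γ v : ℤ) : ℂ) = (fun i => (n i : ℂ)) ⬝ᵥ (fun i => (m i : ℂ)) +
      ∑ i, (c (.inl i) : ℂ) * c (.inr i) := by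
    unfold xathgK
    rw [← hc]
    push_cast
    rfl
  have key := xstf_key γ hτ (fun i => (c i : ℂ)) z
  have add := thc_add_int (act_mem γ hτ) (fun _ => 0) c ((jac γ τ)⁻¹ᵀ *ᵥ z)
  simp only [zero_add, zero_mul, mul_zero, Finset.sum_const_zero, sub_self, zero_sub,
    xstf_zero] at add
  have e1 : ((fun i => (v i : ℂ)) ∘ Sum.inl : Fin g → ℂ) = fun i => (n i : ℂ) := rfl
  have e2 : ((fun i => (v i : ℂ)) ∘ Sum.inr : Fin g → ℂ) = fun i => (m i : ℂ) := rfl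
  rw [add, h3, e1, e2, ← xstf_per] at key
  refine mul_left_cancel₀ (exp_ne_zero (Real.pi * I * (xstfE (Matrix.of τ) (fun i => (n i : ℂ))
    (fun i => (m i : ℂ)) z + z ⬝ᵥ ((jac γ τ)⁻¹ * (cx γ).toBlocks₂₁) *ᵥ z))) ?_
  rw [← key, xstf_aut, xstfF, hk']
  simp only [← mul_assoc, ← exp_add]
  congr 2
  unfold xstfE
  ring

lemma xathg_ne (γ : Sp g) (hτ : τ ∈ Siegel g) : ∃ z, xstfF γ τ z ≠ 0 := by
  have hdet : IsUnit (jac γ τ).det := (jac_det γ hτ).isUnit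
  obtain ⟨z, hz⟩ := theta_ne (Siegel_sub (act_mem γ hτ))
  have e : (jac γ τ)⁻¹ᵀ *ᵥ ((jac γ τ)ᵀ *ᵥ z) = z := by
    rw [mulVec_mulVec, ← transpose_mul, mul_nonsing_inv _ hdet, transpose_one, one_mulVec]
  refine ⟨(jac γ τ)ᵀ *ᵥ z, ?_⟩
  rw [xstfF, e]
  exact mul_ne_zero (exp_ne_zero _) hz

/-- the transformation formula of theta for the full modular group -/
theorem xstf_gen (γ : Sp g) : ∃ c : LL g → ℝ, ∀ τ ∈ Siegel g, ∃ κ : ℂ, κ ≠ 0 ∧
    ∀ z, xstfF γ τ z = κ * thc (fun i => (c i : ℂ)) τ z := by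
  obtain ⟨ε, hε⟩ := xathg_lin γ
  refine ⟨Sum.elim (fun i => -(ε (.inr i) : ℝ) / 2) fun i => (ε (.inl i) : ℝ) / 2,
    fun τ hτ => ?_⟩
  set c : LL g → ℂ := fun i => ((Sum.elim (fun i => -(ε (.inr i) : ℝ) / 2)
    (fun i => (ε (.inl i) : ℝ) / 2) i : ℝ) : ℂ) with hc
  set T := Matrix.of τ with hT
  set a : Fin g → ℂ := c ∘ .inl with ha
  set b : Fin g → ℂ := c ∘ .inr with hb
  set w := T *ᵥ a + b with hw
  have hG : (fun z => exp (-(Real.pi * I * xstfE T a b (z - w))) * xstfF γ τ (z - w)) ∈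
      Th τ 1 := by
    refine ⟨fun z => ?_, fun m n z => ?_⟩
    · have h1 : AnalyticAt ℂ (fun z : EE g => z - w) z := analyticAt_id.sub analyticAt_const
      refine AnalyticAt.mul (AnalyticAt.cexp' (AnalyticAt.neg (analyticAt_const.mul ?_)))
        ((xstf_an γ hτ _).comp h1)
      unfold xstfE
      refine (analyticAt_const.add (analyticAt_const.mul ?_)).add analyticAt_const
      unfold dotProduct
      exact Finset.analyticAt_fun_sum _ fun i _ => analyticAt_const.mul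
        (((ContinuousLinearMap.proj (R := ℂ) (φ := fun _ : Fin g => ℂ) i).analyticAt _).comp h1)
    · obtain ⟨k, hk⟩ := hε (Sum.elim n m)
      set p : Fin g → ℂ := fun i => (n i : ℂ) with hp
      set q : Fin g → ℂ := fun i => (m i : ℂ) with hq
      have hk' : ((xathgK γ (Sum.elim n m) : ℤ) : ℂ) =
          2 * (p ⬝ᵥ b) - 2 * (a ⬝ᵥ q) - 2 * (k : ℂ) := by
        have h := congrArg (Int.cast : ℤ → ℂ) hk
        rw [Fintype.sum_sum_type] at h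
        push_cast at h
        have s1 : 2 * (p ⬝ᵥ b) = ∑ i, (n i : ℂ) * ε (.inl i) := by
          simp only [dotProduct, Finset.mul_sum, hp, hb, hc, Function.comp_apply, Sum.elim_inr]
          refine Finset.sum_congr rfl fun i _ => ?_
          push_cast
          ring
        have s2 : -(2 * (a ⬝ᵥ q)) = ∑ i, (m i : ℂ) * ε (.inr i) := by
          simp only [dotProduct, Finset.mul_sum, hq, ha, hc, Function.comp_apply,
            Sum.elim_inl, ← Finset.sum_neg_distrib]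
          refine Finset.sum_congr rfl fun i _ => ?_
          push_cast
          ring
        simp only [Sum.elim_inl, Sum.elim_inr] at h
        linear_combination -h - s1 - s2
      have sy : a ⬝ᵥ T *ᵥ p = p ⬝ᵥ T *ᵥ a := by
        rw [xstf_dot, hT, xstf_symm hτ]
      have e : z + per τ m n - w = z - w + per τ m n := by abel
      simp only [e, xathg_per γ hτ, pow_one, xstf_aut, hk', ← mul_assoc, ← exp_add]
      congr 1
      rw [xstf_per, ← mul_one (exp (_ + -(Real.pi * I * xstfE T a b (z - w)))),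
        ← xstf_exp_even k, ← exp_add]
      congr 1
      simp only [xstfE, ← hT, ← hp, ← hq, hw, dotProduct_add, dotProduct_sub, sy]
      ring
  obtain ⟨κ, hκ⟩ := Th_one hτ hG
  have h : ∀ z, xstfF γ τ z = κ * thc c τ z := by
    intro z
    have h1 := hκ (z + w)
    simp only [add_sub_cancel_right] at h1
    rw [xstf_thc, mul_left_comm, ← h1, ← mul_assoc, ← exp_add, add_neg_cancel, exp_zero, one_mul]
  refine ⟨κ, ?_, h⟩
  rintro rfl
  obtain ⟨z, hz⟩ := xathg_ne γ hτ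
  exact hz (by rw [h, zero_mul])

theorem kap_spec {M : ℕ} (h2 : 2 ∣ M) {γ : Sp g} (hγ : γ ∈ Gam g M) (hτ : τ ∈ Siegel g) :
    kap γ τ ≠ 0 ∧ ∀ z, xstfF γ τ z = kap γ τ * theta τ z := by
  have hd := mem_Gam.1 hγ
  have h : ∃ κ : ℂ, ∀ z, xstfF γ τ z = κ * theta τ z :=
    Th_one hτ (xstf_mem (fun a b => dvd_trans (Int.natCast_dvd_natCast.2 h2) (hd a b)) hτ)
  have h1 : ∀ z, xstfF γ τ z = kap γ τ * theta τ z := by
    rw [kap, dif_pos h]
    exact h.choose_spec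
  refine ⟨fun h0 => ?_, h1⟩
  obtain ⟨z, hz⟩ := xathg_ne γ hτ
  exact hz (by rw [h1, h0, zero_mul])

theorem thc_kap {N : ℕ} (hN : N ≠ 0) {γ : Sp g} (hγ : γ ∈ Gam g (2 * N ^ 2))
    (hτ : τ ∈ Siegel g) {c : LL g → ℂ} (hc : IsCh N c) (z : EE g) :
    thc c (act γ τ) ((jac γ τ)⁻¹ᵀ *ᵥ z) =
      kap γ τ * exp (Real.pi * I * (z ⬝ᵥ ((jac γ τ)⁻¹ * (cx γ).toBlocks₂₁) *ᵥ z)) *
        thc c τ z := by
  obtain ⟨κ, -, hκ⟩ := thc_act hN hγ hτ
  obtain ⟨-, h1⟩ := kap_spec (dvd_mul_right 2 (N ^ 2)) hγ hτ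
  obtain ⟨y, hy⟩ := theta_ne (Siegel_sub hτ)
  have h2 := hκ (fun _ => 0) (fun _ => ⟨0, by simp⟩) y
  have h3 := h1 y
  rw [xstf_zero, xstf_zero] at h2
  rw [xstfF, h2, ← mul_assoc, ← mul_assoc, mul_right_comm _ κ, ← exp_add, neg_add_cancel,
    exp_zero, one_mul] at h3
  rw [← mul_right_cancel₀ hy h3]
  exact hκ c hc z

theorem IsCh.real {N : ℕ} (hN : N ≠ 0) {c : LL g → ℂ} (hc : IsCh N c) :
    ∃ c' : LL g → ℝ, c = fun i => (c' i : ℂ) := by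
  choose n hn using hc
  refine ⟨fun i => (n i : ℝ) / N, funext fun i => ?_⟩
  have h : (N : ℂ) ≠ 0 := Nat.cast_ne_zero.2 hN
  push_cast
  rw [eq_div_iff h, hn]

lemma xathg_shift (hτ : τ ∈ Siegel g) (c d : LL g → ℂ) :
    exp (Real.pi * I * xstfE (Matrix.of τ) (d ∘ .inl) (d ∘ .inr) 0) *
      thc c τ (Matrix.of τ *ᵥ (d ∘ .inl) + d ∘ .inr) =
    exp (Real.pi * I * ((c ∘ .inl) ⬝ᵥ (d ∘ .inr) - (d ∘ .inl) ⬝ᵥ (c ∘ .inr))) *
      th (c + d) τ := by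
  rw [th, xstf_thc, xstf_thc]
  have e1 : ((c + d) ∘ Sum.inl : Fin g → ℂ) = c ∘ .inl + d ∘ .inl := rfl
  have e2 : ((c + d) ∘ Sum.inr : Fin g → ℂ) = c ∘ .inr + d ∘ .inr := rfl
  rw [e1, e2]
  set T := Matrix.of τ with hT
  set a : Fin g → ℂ := c ∘ .inl
  set b : Fin g → ℂ := c ∘ .inr
  set p : Fin g → ℂ := d ∘ .inl
  set q : Fin g → ℂ := d ∘ .inr
  have sy : a ⬝ᵥ T *ᵥ p = p ⬝ᵥ T *ᵥ a := by
    rw [xstf_dot, hT, xstf_symm hτ]
  have e3 : 0 + (T *ᵥ (a + p) + (b + q)) = T *ᵥ p + q + (T *ᵥ a + b) := by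
    rw [mulVec_add]
    abel
  rw [e3, ← mul_assoc, ← mul_assoc, ← exp_add, ← exp_add]
  congr 2
  simp only [xstfE, mulVec_add, add_dotProduct, dotProduct_add, dotProduct_zero, sy]
  ring

lemma xathg_norm (hτ : τ ∈ Siegel g) (c : LL g → ℝ) :
    ‖Sr τ (c ∘ .inl) (c ∘ .inr)‖ = ‖th (fun i => (c i : ℂ)) τ‖ := by
  rw [← norm_th hτ]
  congr 2
  funext i
  rcases i with i | i <;> rfl

lemma xathg_Ws (γ : Sp g) (hτ : τ ∈ Siegel g) {c : LL g → ℝ} {κ : ℂ}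
    (h : ∀ z, xstfF γ τ z = κ * thc (fun i => (c i : ℂ)) τ z) :
    Ws (act γ τ) = ‖κ‖ * Ws τ := by
  set P : Matrix (LL g) (LL g) ℝ := (γ.1.map (Int.castRingHom ℝ))ᵀ with hP
  set Q : Matrix (LL g) (LL g) ℝ := ((γ⁻¹).1.map (Int.castRingHom ℝ))ᵀ with hQ
  have hPQ : P * Q = 1 := by
    rw [hP, hQ, ← transpose_mul, ← Matrix.map_mul, ← Submonoid.coe_mul, inv_mul_cancel,
      Submonoid.coe_one, Matrix.map_one _ (map_zero _) (map_one _), transpose_one]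
  let e : (Fin g → ℝ) × (Fin g → ℝ) → (Fin g → ℝ) × (Fin g → ℝ) := fun x =>
    ((c + P *ᵥ Sum.elim x.1 x.2) ∘ .inl, (c + P *ᵥ Sum.elim x.1 x.2) ∘ .inr)
  have he : Surjective e := by
    intro t
    refine ⟨((Q *ᵥ (Sum.elim t.1 t.2 - c)) ∘ .inl, (Q *ᵥ (Sum.elim t.1 t.2 - c)) ∘ .inr), ?_⟩
    simp only [e, Sum.elim_comp_inl_inr, mulVec_mulVec, hPQ, one_mulVec, add_sub_cancel,
      Sum.elim_comp_inl, Sum.elim_comp_inr]
  have h1 : ∀ x : (Fin g → ℝ) × (Fin g → ℝ),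
      ‖Sr (act γ τ) x.1 x.2‖ = ‖κ‖ * ‖Sr τ (e x).1 (e x).2‖ := by
    intro x
    set y : LL g → ℝ := Sum.elim x.1 x.2 with hy
    have k0 := xathg_norm (act_mem γ hτ) y
    rw [show y ∘ Sum.inl = x.1 from rfl, show y ∘ Sum.inr = x.2 from rfl] at k0
    have k1 : (cx γ)ᵀ *ᵥ (fun i => (y i : ℂ)) = fun i => ((P *ᵥ y) i : ℂ) := by
      funext i
      simp [cx, hP, mulVec, dotProduct]
    have k2 := xstf_key γ hτ (fun i => (y i : ℂ)) 0
    rw [mulVec_zero, k1, zero_dotProduct, add_zero, zero_add, h, mul_left_comm,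
      xathg_shift hτ] at k2
    have k3 := xathg_norm hτ (c + P *ᵥ y)
    rw [show (c + P *ᵥ y) ∘ Sum.inl = (e x).1 from rfl,
      show (c + P *ᵥ y) ∘ Sum.inr = (e x).2 from rfl] at k3
    have k4 : (fun i => ((c + P *ᵥ y) i : ℂ)) =
        (fun i => (c i : ℂ)) + fun i => ((P *ᵥ y) i : ℂ) := by
      funext i
      simp
    rw [k0, k3, k4, th, k2, norm_mul, norm_mul, Complex.norm_exp]
    simp [dotProduct, Complex.im_sum]
  unfold Ws
  simp only [h1]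
  rw [← Real.mul_iSup_of_nonneg (norm_nonneg κ), he.iSup_comp fun t => ‖Sr τ t.1 t.2‖]

/-- the symmetric part -/
def xathgS (σ : Mat g) : Mat g := fun i j => (σ i j + σ j i) / 2

lemma xathg_S (hτ : τ ∈ Siegel g) : xathgS τ = τ := by
  funext i j
  rw [xathgS, hτ.1 j i]
  ring

lemma xathg_anS (σ : Mat g) : AnalyticAt ℂ (xathgS (g := g)) σ :=
  analyticAt_pi_iff.2 fun i => analyticAt_pi_iff.2 fun j =>
    ((xsact_an_entry σ i j).add (xsact_an_entry σ j i)).div analyticAt_const two_ne_zero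

lemma xathg_anF (γ : Sp g) (hτ : τ ∈ Siegel g) (z : EE g) :
    AnalyticAt ℂ (fun σ => xstfF γ σ z) τ := by
  have h1 : AnalyticAt ℂ
      (fun σ : Mat g => z ⬝ᵥ ((jac γ σ)⁻¹ * (cx γ).toBlocks₂₁) *ᵥ z) τ := by
    simp only [dotProduct, mulVec, Matrix.mul_apply]
    exact Finset.analyticAt_fun_sum _ fun i _ => analyticAt_const.mul
      (Finset.analyticAt_fun_sum _ fun j _ => (Finset.analyticAt_fun_sum _ fun k _ =>
        (xsact_an_jinv γ hτ i k).mul analyticAt_const).mul analyticAt_const)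
  have h2 : AnalyticAt ℂ (fun σ : Mat g => (jac γ σ)⁻¹ᵀ *ᵥ z) τ := by
    refine analyticAt_pi_iff.2 fun i => ?_
    simp only [dotProduct, mulVec, transpose_apply]
    exact Finset.analyticAt_fun_sum _ fun j _ => (xsact_an_jinv γ hτ j i).mul analyticAt_const
  refine AnalyticAt.mul (AnalyticAt.cexp' (AnalyticAt.neg (analyticAt_const.mul h1))) ?_
  exact (Theta_analytic (Siegel_sub (act_mem γ hτ)) _).comp
    (f := fun σ : Mat g => (act γ σ, (jac γ σ)⁻¹ᵀ *ᵥ z)) ((act_analytic γ hτ).prod h2)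

lemma xathg_anT (c : LL g → ℂ) (hτ : τ ∈ Siegel g) (z : EE g) :
    AnalyticAt ℂ (fun σ => thc c σ z) τ :=
  (thc_analytic c (Siegel_sub hτ) z).comp (f := fun σ : Mat g => (σ, z))
    (analyticAt_id.prod analyticAt_const)

/-- the sup norm of theta transforms by a holomorphic factor -/
theorem Ws_act (γ : Sp g) : ∃ l : Mat g → ℂ, AnalyticOnNhd ℂ l (Siegel g) ∧
    ∀ τ ∈ Siegel g, l τ ≠ 0 ∧ Ws (act γ τ) = ‖l τ‖ * Ws τ := by
  obtain ⟨c, hc⟩ := xstf_gen γ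
  choose! κ h0 hκ using hc
  refine ⟨fun σ => κ (xathgS σ), fun τ hτ => ?_, fun τ hτ => ?_⟩
  · obtain ⟨z, hz⟩ := xathg_ne γ hτ
    have hz' : thc (fun i => (c i : ℂ)) τ z ≠ 0 := fun h => hz (by rw [hκ τ hτ, h, mul_zero])
    have a1 := xathg_anT (fun i => (c i : ℂ)) hτ z
    have a2 : AnalyticAt ℂ (fun σ => xstfF γ σ z / thc (fun i => (c i : ℂ)) σ z) τ :=
      (xathg_anF γ hτ z).div a1 hz'
    have hS : Tendsto xathgS (𝓝 τ) (𝓝 τ) := by
      have := (xathg_anS τ).continuousAt.tendsto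
      rwa [xathg_S hτ] at this
    refine (a2.comp_of_eq (xathg_anS τ) (xathg_S hτ)).congr ?_
    filter_upwards [hS.eventually (isOpen_PosIm.mem_nhds (Siegel_sub hτ)),
      hS.eventually (a1.continuousAt.eventually_ne hz')] with σ s1 s2
    have s3 : xathgS σ ∈ Siegel g := ⟨fun i j => by simp only [xathgS, add_comm], s1⟩
    simp only [Function.comp_apply]
    rw [hκ _ s3, mul_div_cancel_right₀ _ s2]
  · simp only [xathg_S hτ]
    exact ⟨h0 τ hτ, xathg_Ws γ hτ (hκ τ hτ)⟩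

theorem Ws_kap {M : ℕ} (h2 : 2 ∣ M) {γ : Sp g} (hγ : γ ∈ Gam g M) (hτ : τ ∈ Siegel g) :
    Ws (act γ τ) = ‖kap γ τ‖ * Ws τ := by
  refine xathg_Ws γ hτ (c := fun _ => 0) fun z => ?_
  rw [(kap_spec h2 hγ hτ).2, ← xstf_zero]
  rfl

end Pool.Agent.MP_cf0a82_ag

end
end

section

open Complex Filter Topology Matrix Function

noncomputable section

namespace Pool.Agent.MP_cf0a82_ag

open Pool.Agent.MP_f58063_ag

variable {g : ℕ} {w w' : Mat g → ℝ}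

lemma xawth_sqrt {x : ℝ} (hx : 0 ≤ x) : Real.sqrt x ≤ 1 + x :=
  Real.sqrt_le_iff.2 ⟨by linarith, by nlinarith⟩

lemma xawth_MB_Ws (g : ℕ) : MB fun τ : Mat g => Ws τ := by
  obtain ⟨C, -, h⟩ := Ws_le g
  exact ⟨C, g, fun τ hτ r hr => h τ hτ r hr.1 hr.2.2⟩

lemma xawth_im (x δ : ℝ) : ((x : ℂ) - δ / 2 * I).im = -(δ / 2) := by
  simp

theorem Wt.mul (hw : Wt w) (hw' : Wt w') : Wt fun τ => w τ * w' τ := by
  refine ⟨fun τ hτ => mul_pos (hw.pos τ hτ) (hw'.pos τ hτ), fun γ => ?_, fun a b n τ hτ => ?_,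
    hw.ub.mul hw'.ub (fun τ hτ => (hw.pos τ hτ).le) fun τ hτ => (hw'.pos τ hτ).le, ?_,
    fun δ hδ R => ?_⟩
  · obtain ⟨l, hl, h⟩ := hw.act γ
    obtain ⟨l', hl', h'⟩ := hw'.act γ
    refine ⟨fun τ => l τ * l' τ, hl.mul hl', fun τ hτ => ?_⟩
    rw [h τ hτ, h' τ hτ, norm_mul]
    ring
  · rw [hw.tra a b n τ hτ, hw'.tra a b n τ hτ]
  · refine (hw.lb.mul hw'.lb (fun τ hτ => (inv_pos.2 (hw.pos τ hτ)).le)
      fun τ hτ => (inv_pos.2 (hw'.pos τ hτ)).le).of_le fun τ _ => ?_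
    rw [mul_inv]
  · obtain ⟨C, h⟩ := hw.cmp δ hδ R
    obtain ⟨C', h'⟩ := hw'.cmp δ hδ R
    refine ⟨C * C', fun τ hτ hY x hx => ?_⟩
    have h1 := h τ hτ hY x hx
    have h2 := h' τ hτ hY x hx
    calc w τ * w' τ ≤ (C * w (tr1 τ (x - δ / 2 * I))) * (C' * w' (tr1 τ (x - δ / 2 * I))) :=
          mul_le_mul h1 h2 (hw'.pos τ hτ).le ((hw.pos τ hτ).le.trans h1)
      _ = _ := by ring

theorem Wt.one (g : ℕ) : Wt fun _ : Mat g => 1 := by
  refine ⟨fun _ _ => one_pos, fun _ => ⟨fun _ => 1, analyticOnNhd_const, fun _ _ => by simp⟩,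
    fun _ _ _ _ _ => rfl, MB.const 1, MB.const _, fun _ _ _ => ⟨1, fun _ _ _ _ _ => by simp⟩⟩

theorem Wt.pow (hw : Wt w) (n : ℕ) : Wt fun τ => w τ ^ n := by
  induction n with
  | zero => simpa using Wt.one g
  | succ n ih => simpa only [pow_succ] using ih.mul hw

theorem Wt_Ws (g : ℕ) : Wt fun τ : Mat g => (Ws τ)⁻¹ := by
  refine ⟨fun τ hτ => inv_pos.2 (one_pos.trans_le (one_le_Ws hτ)), fun γ => ?_,
    fun a b n τ hτ => by rw [Ws_tra hτ], ?_, ?_, fun δ hδ R => ?_⟩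
  · obtain ⟨l, hl, h⟩ := Ws_act γ
    refine ⟨fun τ => (l τ)⁻¹, hl.inv fun τ hτ => (h τ hτ).1, fun τ hτ => ?_⟩
    rw [(h τ hτ).2, norm_inv, mul_inv]
  · exact (MB.const 1).of_le fun τ hτ => inv_le_one_of_one_le₀ (one_le_Ws hτ)
  · exact (xawth_MB_Ws g).of_le fun τ _ => (inv_inv _).le
  · obtain ⟨C, -, h⟩ := Ws_le g
    refine ⟨C * max 1 (2 / δ) ^ g, fun τ hτ hY x _ => ?_⟩
    have hσ : tr1 τ (x - δ / 2 * I) ∈ Siegel g :=
      tr1_mem hτ.1 hY (by rw [xawth_im]; linarith)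
    have h1 : YG (tr1 τ (x - δ / 2 * I)) (max 1 (2 / δ))⁻¹ := by
      refine (tr1_YG hY _).mono ?_
      rw [xawth_im]
      calc (max 1 (2 / δ))⁻¹ ≤ (2 / δ)⁻¹ := inv_anti₀ (by positivity) (le_max_right _ _)
        _ = δ + -(δ / 2) := by
          rw [inv_div]
          ring
    have h2 := h _ hσ _ (le_max_left _ _) h1
    have h3 := one_pos.trans_le (one_le_Ws hσ)
    refine (inv_le_one_of_one_le₀ (one_le_Ws hτ)).trans ?_
    rw [← div_eq_mul_inv, le_div_iff₀ h3, one_mul]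
    exact h2

theorem Wt_det (g : ℕ) : Wt fun τ : Mat g => Real.sqrt (Ym τ).det := by
  refine ⟨fun τ hτ => Real.sqrt_pos.2 (Ym_posDef hτ).det_pos, fun γ => ?_,
    fun a b n τ _ => ?_, ?_, ?_, fun δ hδ R => ?_⟩
  · refine ⟨fun τ => ((jac γ τ).det)⁻¹, fun τ hτ => ?_, fun τ hτ => ?_⟩
    · exact (xsact_an_det (F := jac γ) fun a b => xsact_an_aff _ _ τ a b).inv (jac_det γ hτ)
    · have h0 : 0 < ‖(jac γ τ).det‖ := norm_pos_iff.2 (jac_det γ hτ)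
      rw [← det_act γ hτ, Real.sqrt_mul' _ (sq_nonneg _), Real.sqrt_sq h0.le, norm_inv]
      field_simp
  · have : Ym (τ + (n : ℂ) • sE a b) = Ym τ := by
      ext i j
      simp only [Ym, sE, of_apply, Pi.add_apply, Pi.smul_apply, smul_eq_mul, add_im]
      split_ifs <;> simp
    simp only [this]
  · exact ((MB.const 1).add MB_det).of_le fun τ hτ => xawth_sqrt (Ym_posDef hτ).det_pos.le
  · refine ((MB.const 1).add MB_det_inv).of_le fun τ hτ => ?_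
    rw [← Real.sqrt_inv]
    exact xawth_sqrt (inv_pos.2 (Ym_posDef hτ).det_pos).le
  · refine ⟨Real.sqrt (2 ^ g), fun τ hτ hY x _ => ?_⟩
    rw [← Real.sqrt_mul (by positivity)]
    exact Real.sqrt_le_sqrt (tr1_det hτ hδ hY x)

theorem MH_th (c : LL g → ℝ) : MH (th fun i => (c i : ℂ)) := by
  refine ⟨(th_analytic _).mono Siegel_sub, (xawth_MB_Ws g).of_le fun τ hτ => ?_⟩
  have h : (fun i => (c i : ℂ)) =
      Sum.elim (fun i => (c (.inl i) : ℂ)) fun i => (c (.inr i) : ℂ) := by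
    funext i
    cases i <;> rfl
  rw [h, norm_th hτ (fun i => c (.inl i)) fun i => c (.inr i)]
  exact le_Ws hτ _ _

end Pool.Agent.MP_cf0a82_ag

end
end

section

open Complex Filter Topology Matrix Function

noncomputable section

namespace Pool.Agent.MP_cf0a82_ag

open Pool.Agent.MP_f58063_ag

variable {g M a b : ℕ} {h h' : Mat g → ℂ}

theorem Fm.mono (hh : Fm M a b h) {M' : ℕ} (hM : M ∣ M') : Fm M' a b h :=
  ⟨hh.mh, fun γ hγ τ hτ => hh.act γ (Gam_mono hM hγ) τ hτ⟩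

theorem Fm.const (g M : ℕ) (c : ℂ) : Fm M 0 0 fun _ : Mat g => c :=
  ⟨MH.const c, fun _ _ _ _ => by simp⟩

theorem Fm.add (hh : Fm M a b h) (hh' : Fm M a b h') : Fm M a b fun τ => h τ + h' τ :=
  ⟨hh.mh.add hh'.mh, fun γ hγ τ hτ => by
    rw [hh.act γ hγ τ hτ, hh'.act γ hγ τ hτ]; ring⟩

theorem Fm.smul (hh : Fm M a b h) (c : ℂ) : Fm M a b fun τ => c * h τ :=
  ⟨(MH.const c).mul hh.mh, fun γ hγ τ hτ => by
    rw [hh.act γ hγ τ hτ]; ring⟩

theorem Fm.mul {a' b' : ℕ} (hh : Fm M a b h) (hh' : Fm M a' b' h') :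
    Fm M (a + a') (b + b') fun τ => h τ * h' τ :=
  ⟨hh.mh.mul hh'.mh, fun γ hγ τ hτ => by
    rw [hh.act γ hγ τ hτ, hh'.act γ hγ τ hτ]; ring⟩

theorem Fm.pow (hh : Fm M a b h) (n : ℕ) : Fm M (n * a) (n * b) fun τ => h τ ^ n :=
  ⟨hh.mh.pow n, fun γ hγ τ hτ => by
    rw [hh.act γ hγ τ hτ]; ring⟩

theorem Fm.det {r : ℕ} {F : Mat g → Matrix (Fin r) (Fin r) ℂ}
    (hF : ∀ i j, Fm M a b fun τ => F τ i j) : Fm M (r * a) (r * b) fun τ => (F τ).det := by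
  refine ⟨?_, fun γ hγ τ hτ => ?_⟩
  · simp only [det_apply']
    exact MH.sum _ fun σ _ => (MH.const _).mul (MH.prod _ fun i _ => (hF _ _).mh)
  · have h1 : F (Pool.Agent.MP_f58063_ag.act γ τ) =
        (kap γ τ ^ a * (jac γ τ).det ^ b) • F τ := by
      ext i j
      simpa using (hF i j).act γ hγ τ hτ
    rw [h1, det_smul, Fintype.card_fin]
    ring

theorem Fm_th {N : ℕ} (hN : N ≠ 0) {c : LL g → ℂ} (hc : IsCh N c) :
    Fm (2 * N ^ 2) 1 0 (th c) := by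
  refine ⟨?_, fun γ hγ τ hτ => ?_⟩
  · obtain ⟨c', rfl⟩ := IsCh.real hN hc
    exact MH_th c'
  · simpa [th] using thc_kap hN hγ hτ hc 0

theorem Fm_inv (hh : Fm M a b h) (h2 : 2 ∣ M) {γ : Sp g} (hγ : γ ∈ Gam g M) {τ : Mat g}
    (hτ : τ ∈ Siegel g) :
    ‖h (act γ τ)‖ * ((Ws (act γ τ))⁻¹ ^ a * Real.sqrt (Ym (act γ τ)).det ^ b) =
      ‖h τ‖ * ((Ws τ)⁻¹ ^ a * Real.sqrt (Ym τ).det ^ b) := by
  have hk : ‖kap γ τ‖ ≠ 0 := norm_ne_zero_iff.2 (kap_spec h2 hγ hτ).1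
  have hd : Real.sqrt (Ym τ).det = Real.sqrt (Ym (act γ τ)).det * ‖(jac γ τ).det‖ := by
    rw [← det_act γ hτ, Real.sqrt_mul' _ (sq_nonneg _), Real.sqrt_sq (norm_nonneg _)]
  have h1 : ‖kap γ τ‖ ^ a * ‖kap γ τ‖⁻¹ ^ a = 1 := by
    rw [← mul_pow, mul_inv_cancel₀ hk, one_pow]
  rw [hh.act γ hγ τ hτ, Ws_kap h2 hγ hτ, hd, norm_mul, norm_mul, norm_pow, norm_pow, mul_inv,
    mul_pow, mul_pow]
  linear_combination (‖(jac γ τ).det‖ ^ b * ‖h τ‖ * (Ws τ)⁻¹ ^ a *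
    Real.sqrt (Ym (act γ τ)).det ^ b) * h1

end Pool.Agent.MP_cf0a82_ag

end
end
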