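import Pool.Agent.Mg.Fcf0a82q.Gff7211

section

open Complex Filter Topology Matrix Function

noncomputable section

namespace Pool.Agent.MP_cf0a82_ag

open Pool.Agent.MP_f58063_ag

/-- a unimodular block matrix -/
def xaherm_blk {g : ℕ} (b : Fin g → ℤ) (U : Matrix (Fin g) (Fin g) ℤ) :
    Matrix (Fin (g + 1)) (Fin (g + 1)) ℤ :=
  Matrix.of (Fin.cons (Fin.cons 1 b) fun i => Fin.cons 0 (U i))

lemma xaherm_det {g : ℕ} (b : Fin g → ℤ) (U : Matrix (Fin g) (Fin g) ℤ) :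
    (xaherm_blk b U).det = U.det := by
  rw [Matrix.det_succ_column_zero, Fin.sum_univ_succ]
  have : (xaherm_blk b U).submatrix (Fin.succAbove 0) Fin.succ = U := by
    ext i j
    simp [xaherm_blk]
  rw [this]
  simp [xaherm_blk]

lemma xaherm_col {g : ℕ} (b : Fin g → ℤ) (U : Matrix (Fin g) (Fin g) ℤ) (i : Fin g) :
    (fun k => (xaherm_blk b U k i.succ : ℝ)) = Fin.cons (b i : ℝ) fun k => (U k i : ℝ) := by
  funext k
  refine Fin.cases ?_ (fun k => ?_) k <;> simp [xaherm_blk]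

lemma xaherm_mulVec {g : ℕ} (b : Fin g → ℤ) (U : Matrix (Fin g) (Fin g) ℤ)
    (v : Fin (g + 1) → ℝ) :
    (xaherm_blk b U).map (Int.cast : ℤ → ℝ) *ᵥ v =
      Fin.cons (v 0 + ∑ j, (b j : ℝ) * v j.succ)
        (U.map (Int.cast : ℤ → ℝ) *ᵥ fun j => v j.succ) := by
  funext k
  refine Fin.cases ?_ (fun k => ?_) k <;>
    simp [xaherm_blk, Matrix.mulVec, dotProduct, Fin.sum_univ_succ]

/-- the Schur complement -/
def xaherm_sc {g : ℕ} (Y : Matrix (Fin (g + 1)) (Fin (g + 1)) ℝ) : Matrix (Fin g) (Fin g) ℝ :=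
  Matrix.of fun i j => Y i.succ j.succ - Y 0 i.succ * Y 0 j.succ / Y 0 0

lemma xaherm_sc_symm {g : ℕ} {Y : Matrix (Fin (g + 1)) (Fin (g + 1)) ℝ} (hY : Y.IsSymm) :
    (xaherm_sc Y).IsSymm := by
  refine Matrix.IsSymm.ext fun i j => ?_
  simp only [xaherm_sc, Matrix.of_apply]
  rw [hY.apply i.succ j.succ, mul_comm]

lemma xaherm_sq {g : ℕ} {Y : Matrix (Fin (g + 1)) (Fin (g + 1)) ℝ} (hY : Y.IsSymm)
    (h0 : Y 0 0 ≠ 0) (t : ℝ) (w : Fin g → ℝ) :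
    (Fin.cons t w : Fin (g + 1) → ℝ) ⬝ᵥ Y *ᵥ (Fin.cons t w : Fin (g + 1) → ℝ) =
      Y 0 0 * (t + ∑ j, Y 0 j.succ / Y 0 0 * w j) ^ 2 + w ⬝ᵥ xaherm_sc Y *ᵥ w := by
  have h1 : ∑ j, Y 0 j.succ / Y 0 0 * w j = (∑ j, Y 0 j.succ * w j) / Y 0 0 := by
    rw [Finset.sum_div]
    exact Finset.sum_congr rfl fun j _ => by ring
  have h2 : w ⬝ᵥ xaherm_sc Y *ᵥ w = (∑ i, w i * ∑ j, Y i.succ j.succ * w j) -
      (∑ j, Y 0 j.succ * w j) ^ 2 / Y 0 0 := by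
    simp only [xaherm_sc, dotProduct, Matrix.mulVec, Matrix.of_apply]
    rw [sq, Finset.sum_mul_sum, Finset.sum_div, ← Finset.sum_sub_distrib]
    refine Finset.sum_congr rfl fun i _ => ?_
    rw [Finset.mul_sum, Finset.mul_sum, Finset.sum_div, ← Finset.sum_sub_distrib]
    exact Finset.sum_congr rfl fun j _ => by ring
  have h3 : (Fin.cons t w : Fin (g + 1) → ℝ) ⬝ᵥ Y *ᵥ (Fin.cons t w : Fin (g + 1) → ℝ) =
      t * (Y 0 0 * t + ∑ j, Y 0 j.succ * w j) + (t * ∑ j, Y 0 j.succ * w j) +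
        ∑ i, w i * ∑ j, Y i.succ j.succ * w j := by
    simp only [dotProduct, Matrix.mulVec, Fin.sum_univ_succ, Fin.cons_zero, Fin.cons_succ]
    rw [add_assoc, Finset.mul_sum, ← Finset.sum_add_distrib]
    congr 1
    refine Finset.sum_congr rfl fun i _ => ?_
    rw [hY.apply 0 i.succ]
    ring
  rw [h1, h2, h3]
  field_simp
  ring

lemma xaherm_conj {n : ℕ} (Y A : Matrix (Fin n) (Fin n) ℝ) (v : Fin n → ℝ) :
    v ⬝ᵥ (Aᵀ * Y * A) *ᵥ v = (A *ᵥ v) ⬝ᵥ Y *ᵥ (A *ᵥ v) := by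
  rw [← Matrix.mulVec_mulVec, ← Matrix.mulVec_mulVec, Matrix.dotProduct_mulVec,
    Matrix.vecMul_transpose]

lemma xaherm_colmul {n : ℕ} (A U : Matrix (Fin n) (Fin n) ℤ) (i : Fin n) :
    A.map (Int.cast : ℤ → ℝ) *ᵥ (fun k => (U k i : ℝ)) = fun k => ((A * U) k i : ℝ) := by
  funext k
  simp [Matrix.mulVec, dotProduct, Matrix.mul_apply]

lemma xaherm_round {g : ℕ} (a : Fin g → ℝ) (U : Matrix (Fin g) (Fin g) ℤ) :
    ∃ b : Fin g → ℤ, ∀ i, ((b i : ℝ) + ∑ j, a j * (U j i : ℝ)) ^ 2 ≤ 1 / 4 := by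
  refine ⟨fun i => -round (∑ j, a j * (U j i : ℝ)), fun i => ?_⟩
  have h := abs_sub_round (∑ j, a j * (U j i : ℝ))
  have h2 := abs_le.1 h
  push_cast
  nlinarith [h2.1, h2.2]

/-- one step, after the first basis vector is chosen -/
lemma xaherm_step {g : ℕ} {c : ℝ} (hc : 0 < c)
    (ih : ∀ Y : Matrix (Fin g) (Fin g) ℝ, Y.IsSymm → ∀ m : ℝ, 0 < m →
      (∀ U : Matrix (Fin g) (Fin g) ℤ, IsUnit U.det → ∀ i,
        m ≤ (fun k => (U k i : ℝ)) ⬝ᵥ Y *ᵥ fun k => (U k i : ℝ)) →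
      ∃ U : Matrix (Fin g) (Fin g) ℤ, IsUnit U.det ∧ ∀ v : Fin g → ℝ,
        c * m * (v ⬝ᵥ v) ≤
          (U.map (Int.cast : ℤ → ℝ) *ᵥ v) ⬝ᵥ Y *ᵥ (U.map (Int.cast : ℤ → ℝ) *ᵥ v))
    {Y : Matrix (Fin (g + 1)) (Fin (g + 1)) ℝ} (hY : Y.IsSymm) {m : ℝ} (hm : 0 < m)
    (h1 : m ≤ Y 0 0) (h2 : Y 0 0 ≤ 2 * m)
    (H : ∀ U : Matrix (Fin (g + 1)) (Fin (g + 1)) ℤ, IsUnit U.det → ∀ i,
        m ≤ (fun k => (U k i : ℝ)) ⬝ᵥ Y *ᵥ fun k => (U k i : ℝ)) :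
    ∃ U : Matrix (Fin (g + 1)) (Fin (g + 1)) ℤ, IsUnit U.det ∧ ∀ v : Fin (g + 1) → ℝ,
        min (1 / 2) (c / (g + 2)) * m * (v ⬝ᵥ v) ≤
          (U.map (Int.cast : ℤ → ℝ) *ᵥ v) ⬝ᵥ Y *ᵥ (U.map (Int.cast : ℤ → ℝ) *ᵥ v) := by
  have h0 : Y 0 0 ≠ 0 := (hm.trans_le h1).ne'
  obtain ⟨U, hU, hv⟩ := ih (xaherm_sc Y) (xaherm_sc_symm hY) (m / 2) (half_pos hm)
    fun U hU i => by
      obtain ⟨b, hb⟩ := xaherm_round (fun j => Y 0 j.succ / Y 0 0) U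
      have := H (xaherm_blk b U) (by rwa [xaherm_det]) i.succ
      rw [xaherm_col, xaherm_sq hY h0] at this
      nlinarith [hb i, mul_le_mul_of_nonneg_left (hb i) (hm.trans_le h1).le]
  obtain ⟨b, hb⟩ := xaherm_round (fun j => Y 0 j.succ / Y 0 0) U
  refine ⟨xaherm_blk b U, by rwa [xaherm_det], fun v => ?_⟩
  rw [xaherm_mulVec, xaherm_sq hY h0]
  set w : Fin g → ℝ := fun j => v j.succ with hw
  have hv' := hv w
  set s : ℝ := ∑ i, ((b i : ℝ) + ∑ j, Y 0 j.succ / Y 0 0 * (U j i : ℝ)) * w i with hs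
  have e1 : v 0 + ∑ j, (b j : ℝ) * v j.succ +
      ∑ j, Y 0 j.succ / Y 0 0 * (U.map (Int.cast : ℤ → ℝ) *ᵥ w) j = v 0 + s := by
    rw [add_assoc, hs]
    congr 1
    simp only [add_mul, Finset.sum_add_distrib, Matrix.mulVec, dotProduct, Matrix.map_apply,
      Finset.mul_sum, Finset.sum_mul]
    congr 1
    rw [Finset.sum_comm]
    exact Finset.sum_congr rfl fun i _ => Finset.sum_congr rfl fun j _ => by ring
  rw [e1]
  have e2 : v ⬝ᵥ v = v 0 ^ 2 + w ⬝ᵥ w := by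
    simp only [dotProduct, Fin.sum_univ_succ, hw, sq]
  have hw0 : 0 ≤ w ⬝ᵥ w := Finset.sum_nonneg fun i _ => mul_self_nonneg _
  have e3 : s ^ 2 ≤ g / 4 * (w ⬝ᵥ w) := by
    refine (Finset.sum_mul_sq_le_sq_mul_sq Finset.univ _ _).trans ?_
    have : ∑ i, w i ^ 2 = w ⬝ᵥ w := by simp only [dotProduct, sq]
    rw [this]
    refine mul_le_mul_of_nonneg_right ?_ hw0
    refine (Finset.sum_le_sum fun i _ => hb i).trans (le_of_eq ?_)
    simp only [Finset.sum_const, Finset.card_univ, Fintype.card_fin, nsmul_eq_mul]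
    ring
  set d : ℝ := min (1 / 2) (c / (g + 2)) with hd
  have d1 : d ≤ 1 / 2 := min_le_left _ _
  have d2 : d * (g + 2) ≤ c := (le_div_iff₀ (by positivity)).1 (min_le_right _ _)
  have d0 : 0 ≤ d := le_min (by norm_num) (by positivity)
  have e4 : v ⬝ᵥ v ≤ 2 * (v 0 + s) ^ 2 + (g + 2) / 2 * (w ⬝ᵥ w) := by
    rw [e2]
    nlinarith [sq_nonneg (v 0 + 2 * s)]
  have e5 : d * (v ⬝ᵥ v) ≤ (v 0 + s) ^ 2 + c / 2 * (w ⬝ᵥ w) := by
    have := mul_le_mul_of_nonneg_left e4 d0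
    nlinarith [mul_le_mul_of_nonneg_right d1 (sq_nonneg (v 0 + s)),
      mul_le_mul_of_nonneg_right d2 hw0]
  have e6 := mul_le_mul_of_nonneg_left e5 hm.le
  nlinarith [mul_le_mul_of_nonneg_right h1 (sq_nonneg (v 0 + s))]

/-- Hermite reduction of quadratic forms -/
theorem hermite (g : ℕ) : ∃ c : ℝ, 0 < c ∧ ∀ Y : Matrix (Fin g) (Fin g) ℝ, Y.IsSymm →
    ∀ m : ℝ, 0 < m →
      (∀ U : Matrix (Fin g) (Fin g) ℤ, IsUnit U.det → ∀ i,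
        m ≤ (fun k => (U k i : ℝ)) ⬝ᵥ Y *ᵥ fun k => (U k i : ℝ)) →
      ∃ U : Matrix (Fin g) (Fin g) ℤ, IsUnit U.det ∧ ∀ v : Fin g → ℝ,
        c * m * (v ⬝ᵥ v) ≤
          (U.map (Int.cast : ℤ → ℝ) *ᵥ v) ⬝ᵥ Y *ᵥ (U.map (Int.cast : ℤ → ℝ) *ᵥ v) := by
  induction g with
  | zero => exact ⟨1, one_pos, fun Y _ m _ _ => ⟨1, by simp, fun v => by simp [dotProduct]⟩⟩
  | succ g ih =>
    obtain ⟨c, hc, ih⟩ := ih
    refine ⟨min (1 / 2) (c / (g + 2)), lt_min (by norm_num) (by positivity), fun Y hY m hm H => ?_⟩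
    set S : Set ℝ := {s | ∃ U : Matrix (Fin (g + 1)) (Fin (g + 1)) ℤ, IsUnit U.det ∧
      s = (fun k => (U k 0 : ℝ)) ⬝ᵥ Y *ᵥ fun k => (U k 0 : ℝ)} with hS
    have hne : S.Nonempty := ⟨_, 1, by simp, rfl⟩
    have hlb : m ∈ lowerBounds S := by
      rintro _ ⟨U, hU, rfl⟩
      exact H U hU 0
    have hms : m ≤ sInf S := le_csInf hne hlb
    have hpos : 0 < sInf S := hm.trans_le hms
    obtain ⟨_, ⟨A, hA, rfl⟩, hlt⟩ := exists_lt_of_csInf_lt hne (show sInf S < 2 * sInf S by linarith)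
    have H' : ∀ U : Matrix (Fin (g + 1)) (Fin (g + 1)) ℤ, IsUnit U.det → ∀ i,
        sInf S ≤ (fun k => (U k i : ℝ)) ⬝ᵥ Y *ᵥ fun k => (U k i : ℝ) := fun U hU i => by
      refine csInf_le ⟨m, hlb⟩ ⟨U.submatrix id (Equiv.swap 0 i), ?_, by simp⟩
      rw [Matrix.det_permute']
      exact (Units.isUnit _).mul hU
    set B : Matrix (Fin (g + 1)) (Fin (g + 1)) ℝ := A.map (Int.cast : ℤ → ℝ) with hB
    have hY' : (Bᵀ * Y * B).IsSymm := by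
      unfold Matrix.IsSymm
      rw [Matrix.transpose_mul, Matrix.transpose_mul, Matrix.transpose_transpose, hY.eq,
        Matrix.mul_assoc]
    have h00 : (Bᵀ * Y * B) 0 0 = (fun k => (A k 0 : ℝ)) ⬝ᵥ Y *ᵥ fun k => (A k 0 : ℝ) := by
      rw [Matrix.mul_assoc]
      simp [hB, Matrix.mul_apply, dotProduct, Matrix.mulVec]
    obtain ⟨U, hU, hv⟩ := xaherm_step hc ih hY' hpos (h00 ▸ H' A hA 0) (h00 ▸ hlt.le)
      fun U hU i => by
        rw [xaherm_conj, hB, xaherm_colmul]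
        exact H' (A * U) (by rw [Matrix.det_mul]; exact hA.mul hU) i
    refine ⟨A * U, by rw [Matrix.det_mul]; exact hA.mul hU, fun v => ?_⟩
    have e : (A * U).map (Int.cast : ℤ → ℝ) *ᵥ v = B *ᵥ (U.map (Int.cast : ℤ → ℝ) *ᵥ v) := by
      rw [Matrix.mulVec_mulVec, hB]
      congr 1
      exact Matrix.map_mul (f := Int.castRingHom ℝ)
    rw [e, ← xaherm_conj]
    refine le_trans ?_ (hv v)
    refine mul_le_mul_of_nonneg_right (mul_le_mul_of_nonneg_left hms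
      (le_min (by norm_num) (by positivity))) (Finset.sum_nonneg fun i _ => mul_self_nonneg _)

end Pool.Agent.MP_cf0a82_ag

end
end

section

open Complex Filter Topology Matrix Function

noncomputable section

namespace Pool.Agent.MP_cf0a82_ag

open Pool.Agent.MP_f58063_ag

variable {g : ℕ}

theorem exists_gl (U : Matrix (Fin g) (Fin g) ℤ) (hU : IsUnit U.det) :
    ∃ γ : Sp g, ∀ τ : Mat g, ‖(jac γ τ).det‖ = 1 ∧
      Ym (act γ τ) = (U.map (Int.cast : ℤ → ℝ))ᵀ * Ym τ * U.map (Int.cast : ℤ → ℝ) := by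
  have h1 : U⁻¹ * U = 1 := nonsing_inv_mul U hU
  have h2 : Uᵀ * U⁻¹ᵀ = 1 := by rw [← transpose_mul, h1, transpose_one]
  have hm : fromBlocks Uᵀ 0 0 U⁻¹ ∈ symplecticGroup (Fin g) ℤ := by
    rw [SymplecticGroup.mem_iff, J, fromBlocks_transpose, fromBlocks_multiply,
      fromBlocks_multiply]
    simp [h1, h2]
  refine ⟨⟨_, hm⟩, fun τ => ?_⟩
  have hc : cx ⟨_, hm⟩ = fromBlocks (Uᵀ.map (Int.cast : ℤ → ℂ)) 0 0
      (U⁻¹.map (Int.cast : ℤ → ℂ)) := by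
    rw [cx, fromBlocks_map]
    simp
  have hj : jac ⟨_, hm⟩ τ = U⁻¹.map (Int.cast : ℤ → ℂ) := by
    rw [jac, hc, toBlocks_fromBlocks₂₁, toBlocks_fromBlocks₂₂, Matrix.zero_mul, zero_add]
  have hi : (U⁻¹.map (Int.cast : ℤ → ℂ))⁻¹ = U.map (Int.cast : ℤ → ℂ) := by
    refine inv_eq_right_inv ?_
    have h3 := congrArg (Int.castRingHom ℂ).mapMatrix h1
    rw [map_mul, map_one] at h3
    exact h3
  refine ⟨?_, ?_⟩
  · have h3 : (U⁻¹.map (Int.cast : ℤ → ℂ)).det = ((U⁻¹.det : ℤ) : ℂ) :=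
      ((Int.castRingHom ℂ).map_det U⁻¹).symm
    rw [hj, h3]
    rcases Int.isUnit_iff.1 (isUnit_nonsing_inv_det U hU) with h | h <;> simp [h]
  · have h3 := act_eq ⟨_, hm⟩ τ
    rw [hj, hi, hc, toBlocks_fromBlocks₁₁, toBlocks_fromBlocks₁₂, add_zero] at h3
    ext i j
    have h4 := congrFun (congrFun h3 i) j
    rw [of_apply] at h4
    simp [Ym, h4, Matrix.mul_apply, Finset.sum_mul]

theorem exists_pinv (i : Fin g) : ∃ γ : Sp g, ∀ τ : Mat g, (jac γ τ).det = τ i i := by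
  obtain ⟨E, hE⟩ : ∃ E : Matrix (Fin g) (Fin g) ℤ, E = single i i 1 := ⟨_, rfl⟩
  have h1 : E * E = E := by rw [hE, single_mul_single_same, mul_one]
  have h2 : Eᵀ = E := by rw [hE, transpose_single]
  have hm : fromBlocks (1 - E) (-E) E (1 - E) ∈ symplecticGroup (Fin g) ℤ := by
    rw [SymplecticGroup.mem_iff, J, fromBlocks_transpose, fromBlocks_multiply,
      fromBlocks_multiply]
    have h3 : -E + (E - 1) = -1 := by abel
    simp [h1, h2, h3, Matrix.mul_sub, Matrix.sub_mul]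
  refine ⟨⟨_, hm⟩, fun τ => ?_⟩
  have hj : jac ⟨_, hm⟩ τ = (1 : Matrix (Fin g) (Fin g) ℂ).updateRow i (τ i) := by
    rw [jac, cx, fromBlocks_map, toBlocks_fromBlocks₂₁, toBlocks_fromBlocks₂₂]
    ext a b
    by_cases ha : a = i
    · subst ha
      by_cases hb : a = b <;> simp [hE, Matrix.mul_apply, single_apply, one_apply, hb]
    · have ha' : ¬ i = a := fun h => ha h.symm
      simp [hE, Matrix.mul_apply, one_apply, ha, ha', updateRow_ne]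
  rw [hj, ← cramer_transpose_apply, transpose_one, cramer_one]
  rfl

theorem xared_im {σ : Mat g} (hσ : σ ∈ Siegel g) (h : 3 / 4 * Es σ < (Ym σ).det) (i : Fin g)
    (hr : |(σ i i).re| ≤ 1 / 2) : 1 / 2 ≤ (σ i i).im := by
  obtain ⟨γ, hγ⟩ := exists_pinv i
  have h1 := det_act γ hσ
  have h2 := le_Es γ hσ
  have h3 := (Ym_posDef (act_mem γ hσ)).det_pos
  have h4 : 0 < (σ i i).im := (Ym_posDef hσ).diag_pos (i := i)
  rw [hγ, Complex.sq_norm, normSq_apply] at h1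
  have h5 : 3 / 4 < (σ i i).re * (σ i i).re + (σ i i).im * (σ i i).im :=
    lt_of_mul_lt_mul_left (by linarith) h3.le
  obtain ⟨h6, h7⟩ := abs_le.1 hr
  by_contra h8
  nlinarith

theorem xared_move {σ : Mat g} (hσ : σ ∈ Siegel g) (U : Matrix (Fin g) (Fin g) ℤ)
    (hU : IsUnit U.det) : ∃ γ : Sp g,
      Ym (act γ σ) = (U.map (Int.cast : ℤ → ℝ))ᵀ * Ym σ * U.map (Int.cast : ℤ → ℝ) ∧
      (Ym (act γ σ)).det = (Ym σ).det ∧ ∀ i j, |(act γ σ i j).re| ≤ 1 / 2 := by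
  obtain ⟨γ, hγ⟩ := exists_gl U hU
  obtain ⟨h1, h2⟩ := hγ σ
  have h3 := act_mem γ hσ
  obtain ⟨η, hη, -, -⟩ := exists_tr (fun i j => -round (act γ σ i j).re)
    fun i j => by rw [h3.1 i j]
  have h4 : Ym (act (η * γ) σ) = Ym (act γ σ) := by
    rw [act_mul η γ hσ, hη]
    ext i j
    simp [Ym]
  refine ⟨η * γ, h4.trans h2, ?_, fun i j => ?_⟩
  · rw [h4, ← det_act γ hσ, h1, one_pow, mul_one]
  · rw [act_mul η γ hσ, hη]
    simpa [← sub_eq_add_neg] using abs_sub_round (act γ σ i j).re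

/-- reduction theory -/
theorem red (g : ℕ) : ∃ δ : ℝ, 0 < δ ∧ ∀ τ ∈ Siegel g, ∃ γ : Sp g,
    YG (act γ τ) δ ∧ ∀ i j, |(act γ τ i j).re| ≤ 1 / 2 := by
  obtain ⟨c, hc, hH⟩ := hermite g
  refine ⟨c * (1 / 2), by positivity, fun τ hτ => ?_⟩
  have h0 := Es_pos hτ
  obtain ⟨γ₀, h1⟩ : ∃ γ₀ : Sp g, 3 / 4 * Es τ < (Ym (act γ₀ τ)).det :=
    exists_lt_of_lt_ciSup (by change _ < Es τ; linarith)
  have hσ := act_mem γ₀ hτ
  rw [← Es_act γ₀ hτ] at h1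
  have hs : (Ym (act γ₀ τ)).IsSymm := by
    ext i j
    simp [Ym, hσ.1 i j]
  obtain ⟨U, hU, h2⟩ := hH _ hs (1 / 2) (by norm_num) fun U hU i => by
    obtain ⟨γ, h2, h3, h4⟩ := xared_move hσ U hU
    have h5 := xared_im (act_mem γ hσ) (by rwa [Es_act γ hσ, h3]) i (h4 i i)
    have h6 := congrFun (congrFun h2 i) i
    rw [Matrix.mul_assoc] at h6
    refine h5.trans_eq (h6.trans ?_)
    simp [Matrix.mul_apply, dotProduct, mulVec]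
  obtain ⟨γ, h3, -, h4⟩ := xared_move hσ U hU
  refine ⟨γ * γ₀, ?_⟩
  rw [act_mul γ γ₀ hτ]
  refine ⟨fun v => (h2 v).trans_eq ?_, h4⟩
  rw [h3, Matrix.mul_assoc, ← mulVec_mulVec, dotProduct_mulVec v, vecMul_transpose,
    mulVec_mulVec]

end Pool.Agent.MP_cf0a82_ag

end
end

section

open Complex Filter Topology Matrix Function

noncomputable section

namespace Pool.Agent.MP_cf0a82_ag

open Pool.Agent.MP_f58063_ag

theorem xasch_red {g M : ℕ} (T : Finset (Sp g))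
    (hT : ∀ γ' : Sp g, ∃ γ ∈ T, ∃ η ∈ Gam g M, γ' = η * γ) : ∃ δ : ℝ, 0 < δ ∧
      ∀ τ ∈ Siegel g, ∃ γ ∈ T, ∃ η ∈ Gam g M, ∃ σ ∈ Siegel g, YG σ δ ∧
        (∀ i j, |(σ i j).re| ≤ 1 / 2) ∧ Es σ = Es τ ∧ τ = act η (act γ σ) := by
  obtain ⟨δ, hδ, h⟩ := red g
  refine ⟨δ, hδ, fun τ hτ => ?_⟩
  obtain ⟨γ₂, h1, h2⟩ := h τ hτ
  obtain ⟨γ, hγ, η, hη, he⟩ := hT γ₂⁻¹
  refine ⟨γ, hγ, η, hη, act γ₂ τ, act_mem γ₂ hτ, h1, h2, Es_act γ₂ hτ, ?_⟩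
  rw [← act_mul η γ (act_mem γ₂ hτ), ← he, ← act_mul _ _ hτ, inv_mul_cancel, act_one]

theorem xasch_exp {c q : ℝ} (hc : 0 < c) (hq : 0 < q) : ∃ a : ℕ, ∀ D L : ℕ, 0 < D → a * D ≤ L →
    Real.exp (-(c * L)) * q ^ D ≤ 1 / 2 := by
  obtain ⟨a, ha⟩ := exists_nat_ge (Real.log (2 * q) / c)
  refine ⟨a, fun D L hD hL => ?_⟩
  have h1 : Real.exp (-(c * a)) * q ≤ 1 / 2 := by
    rw [div_le_iff₀ hc] at ha
    have h2 : Real.exp (-(c * a)) ≤ Real.exp (-Real.log (2 * q)) :=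
      Real.exp_le_exp.2 (by linarith)
    rw [Real.exp_neg (Real.log _), Real.exp_log (by positivity)] at h2
    calc Real.exp (-(c * a)) * q ≤ (2 * q)⁻¹ * q := by gcongr
      _ = 1 / 2 := by field_simp
  have h3 : Real.exp (-(c * L)) ≤ Real.exp (-(c * a)) ^ D := by
    rw [← Real.exp_nat_mul]
    refine Real.exp_le_exp.2 ?_
    have h4 : (a : ℝ) * D ≤ L := by exact_mod_cast hL
    nlinarith
  calc Real.exp (-(c * L)) * q ^ D ≤ Real.exp (-(c * a)) ^ D * q ^ D := by gcongr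
    _ = (Real.exp (-(c * a)) * q) ^ D := (mul_pow _ _ _).symm
    _ ≤ (1 / 2) ^ D := by gcongr
    _ ≤ (1 / 2) ^ 1 := pow_le_pow_of_le_one (by norm_num) (by norm_num) hD
    _ = 1 / 2 := pow_one _

theorem xasch_zero {x S E : ℝ} (h : ∀ n : ℕ, x ≤ S * (1 / 2) ^ n * E) : x ≤ 0 := by
  have h1 : Tendsto (fun n : ℕ => S * (1 / 2 : ℝ) ^ n * E) atTop (𝓝 (S * 0 * E)) :=
    ((tendsto_pow_atTop_nhds_zero_of_lt_one (by norm_num) (by norm_num)).const_mul S).mul_const E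
  rw [mul_zero, zero_mul] at h1
  exact ge_of_tendsto' h1 h

/-- the maximum principle argument of Siegel -/
theorem sch {g M : ℕ} (hM : M ≠ 0) (T : Finset (Sp g))
    (hT : ∀ γ' : Sp g, ∃ γ ∈ T, ∃ η ∈ Gam g M, γ' = η * γ) {u : Sp g → Mat g → ℝ}
    (hu : ∀ γ ∈ T, ∀ τ ∈ Siegel g, 0 < u γ τ)
    (hc : ∀ γ ∈ T, ∀ δ : ℝ, 0 < δ → ∀ R : ℝ, ∃ C : ℝ, ∀ τ ∈ Siegel g, YG τ δ → ∀ x : ℝ,
      |x| ≤ R → u γ τ ≤ C * u γ (tr1 τ (x - δ / 2 * I))) (m : ℕ) :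
    ∃ a : ℕ, ∀ D L : ℕ, 0 < D → a * D ≤ L → ∀ (Φ : Mat g → ℝ) (G : Sp g → Mat g → ℂ),
      (∀ η ∈ Gam g M, ∀ τ ∈ Siegel g, Φ (act η τ) = Φ τ) →
      (∀ γ ∈ T, ∀ σ ∈ Siegel g, Φ (act γ σ) = ‖G γ σ‖ * u γ σ ^ D) →
      (∀ γ ∈ T, Van M L (G γ)) → (∀ γ ∈ T, ∀ σ ∈ Siegel g, G γ (tr1 σ M) = G γ σ) →
      (∃ C : ℝ, ∀ γ ∈ T, ∀ σ ∈ Siegel g, ∀ r, Bd σ r → Φ (act γ σ) ≤ C * r ^ (m * D)) →
      ∀ τ ∈ Siegel g, Φ τ = 0 := by
  obtain ⟨δ, hδ, hred⟩ := xasch_red T hT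
  have hM0 : (0 : ℝ) < M := by exact_mod_cast Nat.pos_of_ne_zero hM
  obtain ⟨K, hK, hKs⟩ := Es_shift g hδ M
  obtain ⟨K', hK', hKb⟩ := Bd_Es g hδ
  obtain ⟨C₀, hC₀, hCu⟩ : ∃ C₀ : ℝ, 0 < C₀ ∧ ∀ γ ∈ T, ∀ τ ∈ Siegel g, YG τ δ → ∀ x : ℝ,
      |x| ≤ M → u γ τ ≤ C₀ * u γ (tr1 τ (x - δ / 2 * I)) := by
    classical
    choose! Cf hCf using fun γ hγ => hc γ hγ δ hδ M
    obtain ⟨C, hC⟩ := (T.image Cf).exists_le
    refine ⟨max 1 C, lt_max_of_lt_left one_pos, fun γ hγ τ hτ hY x hx =>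
      (hCf γ hγ τ hτ hY x hx).trans (mul_le_mul_of_nonneg_right
        (le_max_of_le_right (hC _ (Finset.mem_image_of_mem _ hγ))) (hu γ hγ _ ?_).le)⟩
    exact tr1_mem hτ.1 hY (by simp; linarith)
  obtain ⟨a, ha⟩ := xasch_exp (c := Real.pi * δ / M) (q := K ^ m * C₀) (by positivity)
    (by positivity)
  refine ⟨a, fun D L hD hL Φ G hΦ hG hV hper ⟨C, hC⟩ => ?_⟩
  have key : ∀ S : ℝ, 0 ≤ S → (∀ τ ∈ Siegel g, Φ τ ≤ S * Es τ ^ (m * D)) →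
      ∀ τ ∈ Siegel g, Φ τ ≤ S * (1 / 2) * Es τ ^ (m * D) := by
    intro S hS h τ hτ
    obtain ⟨γ, hγ, η, hη, σ, hσ, hY, -, hE, he⟩ := hred τ hτ
    have hmem : ∀ x : ℝ, tr1 σ (x - δ / 2 * I) ∈ Siegel g := fun x =>
      tr1_mem hσ.1 hY (by simp; linarith)
    have hu0 := pow_pos (hu γ hγ σ hσ) D
    have hE0 := Es_pos hσ
    have hp : Periodic (fun x : ℝ => G γ (tr1 σ (x - δ / 2 * I))) M := fun x => by
      beta_reduce
      rw [← hper γ hγ _ (hmem x), tr1_tr1]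
      congr 2
      push_cast
      ring
    have h1 := hV γ hγ σ hσ δ hδ hY (C₀ ^ D * (S * (K * Es σ) ^ (m * D)) / u γ σ ^ D) fun x => by
      obtain ⟨y, hy, hxy⟩ := hp.exists_mem_Ico₀ hM0 x
      have hy' : |y| ≤ M := by rw [abs_of_nonneg hy.1]; exact hy.2.le
      have h2 := h _ (act_mem γ (hmem y))
      rw [hG γ hγ _ (hmem y), Es_act γ (hmem y)] at h2
      have h3 := hKs σ hσ hY y hy'
      have h4 := hCu γ hγ σ hσ hY y hy'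
      have h5 := (Es_pos (hmem y)).le
      have h6 := (hu γ hγ σ hσ).le
      rw [hxy, le_div_iff₀ hu0]
      calc ‖G γ (tr1 σ (y - δ / 2 * I))‖ * u γ σ ^ D
          ≤ ‖G γ (tr1 σ (y - δ / 2 * I))‖ * (C₀ * u γ (tr1 σ (y - δ / 2 * I))) ^ D := by gcongr
        _ = C₀ ^ D * (‖G γ (tr1 σ (y - δ / 2 * I))‖ * u γ (tr1 σ (y - δ / 2 * I)) ^ D) := by
          rw [mul_pow]; ring
        _ ≤ C₀ ^ D * (S * Es (tr1 σ (y - δ / 2 * I)) ^ (m * D)) := by gcongr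
        _ ≤ C₀ ^ D * (S * (K * Es σ) ^ (m * D)) := by gcongr
    have h7 := ha D L hD hL
    rw [← mul_div_assoc, le_div_iff₀ hu0] at h1
    rw [← hE, he, hΦ η hη _ (act_mem γ hσ), hG γ hγ σ hσ]
    refine h1.trans ?_
    calc Real.exp (-(Real.pi * δ * L / M)) * (C₀ ^ D * (S * (K * Es σ) ^ (m * D)))
        = S * (Real.exp (-(Real.pi * δ / M * L)) * (K ^ m * C₀) ^ D) * Es σ ^ (m * D) := by
          rw [mul_pow K, mul_pow (K ^ m), ← pow_mul, div_mul_eq_mul_div]; ring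
      _ ≤ _ := by gcongr
  have hall : ∀ n : ℕ, ∀ τ ∈ Siegel g,
      Φ τ ≤ max C 0 * K' ^ (m * D) * (1 / 2) ^ n * Es τ ^ (m * D) := by
    intro n
    induction n with
    | zero =>
      intro τ hτ
      obtain ⟨γ, hγ, η, hη, σ, hσ, hY, hre, hE, he⟩ := hred τ hτ
      have hE0 := Es_pos hσ
      rw [← hE, he, hΦ η hη _ (act_mem γ hσ), pow_zero, mul_one, mul_assoc, ← mul_pow]
      exact (hC γ hγ σ hσ _ (hKb σ hσ hY hre)).trans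
        (mul_le_mul_of_nonneg_right (le_max_left _ _) (by positivity))
    | succ n ih =>
      intro τ hτ
      rw [pow_succ, ← mul_assoc]
      exact key _ (by positivity) ih τ hτ
  intro τ hτ
  refine le_antisymm (xasch_zero fun n => hall n τ hτ) ?_
  obtain ⟨γ, hγ, η, hη, σ, hσ, -, -, -, he⟩ := hred τ hτ
  have h1 := (hu γ hγ σ hσ).le
  rw [he, hΦ η hη _ (act_mem γ hσ), hG γ hγ σ hσ]
  positivity

end Pool.Agent.MP_cf0a82_ag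

end
end
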