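import Pool.Agent.Mg.Fcf0a82q.Gff7211
import Pool.Agent.Mg.Fcf0a82q.G7c9b0d
import Pool.Agent.Mg.Fcf0a82q.Gdea9ca
import Pool.Agent.Mg.Fcf0a82q.G5329f4
import Pool.Agent.Mg.Fcf0a82q.Gbd7e79
import Pool.Agent.Mg.Fcf0a82q.G3d2c3a
import Pool.Agent.Mg.Fcf0a82q.G61e4ec
import Pool.Agent.Mg.Fcf0a82q.Gb5be87
import Pool.Agent.Mg.Fcf0a82q.G67c0ca

section

open Complex Filter Topology Matrix Function

noncomputable section

namespace Pool.Agent.MP_cf0a82_ag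

open Pool.Agent.MP_f58063_ag

variable {g M c : ℕ}

lemma xatwist_const {F G : Mat g → ℂ} (hF : AnalyticOnNhd ℂ F (Siegel g))
    (hG : AnalyticOnNhd ℂ G (Siegel g)) (hn : ∀ τ ∈ Siegel g, ‖G τ‖ = ‖F τ‖) {τ₀ : Mat g}
    (h0 : τ₀ ∈ Siegel g) (hF0 : F τ₀ ≠ 0) : ∀ τ ∈ Siegel g, G τ = G τ₀ / F τ₀ * F τ := by
  intro τ hτ
  have hB : ∀ i j, (τ - τ₀) i j = (τ - τ₀) j i := fun i j => by
    simp only [Pi.sub_apply, h0.1 i j, hτ.1 i j]
  have hT : IsPreconnected ((fun t : ℝ => (t : ℂ)) '' Set.Icc 0 1) :=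
    isPreconnected_Icc.image _ continuous_ofReal.continuousOn
  have hl : ∀ s : ℂ, AnalyticAt ℂ (fun s : ℂ => τ₀ + s • (τ - τ₀)) s := fun s =>
    analyticAt_const.add (analyticAt_id.smul analyticAt_const)
  have an : AnalyticOnNhd ℂ
      (fun s : ℂ => G (τ₀ + s • (τ - τ₀)) - G τ₀ / F τ₀ * F (τ₀ + s • (τ - τ₀)))
      ((fun t : ℝ => (t : ℂ)) '' Set.Icc 0 1) := by
    rintro _ ⟨t, ht, rfl⟩
    have hm := xsids_seg h0 hτ ht.1 ht.2
    exact ((hG _ hm).comp (f := fun s : ℂ => τ₀ + s • (τ - τ₀)) (hl _)).sub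
      (analyticAt_const.mul ((hF _ hm).comp (f := fun s : ℂ => τ₀ + s • (τ - τ₀)) (hl _)))
  have e0 : τ₀ + (0 : ℂ) • (τ - τ₀) = τ₀ := by simp
  have aF : AnalyticAt ℂ (fun s : ℂ => F (τ₀ + s • (τ - τ₀))) 0 :=
    AnalyticAt.comp (f := fun s : ℂ => τ₀ + s • (τ - τ₀)) (by rw [e0]; exact hF _ h0) (hl 0)
  have aG : AnalyticAt ℂ (fun s : ℂ => G (τ₀ + s • (τ - τ₀))) 0 :=
    AnalyticAt.comp (f := fun s : ℂ => τ₀ + s • (τ - τ₀)) (by rw [e0]; exact hG _ h0) (hl 0)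
  have hne : ∀ᶠ s in 𝓝 (0 : ℂ), F (τ₀ + s • (τ - τ₀)) ≠ 0 :=
    aF.continuousAt.eventually_ne (by rw [e0]; exact hF0)
  have hS : ∀ᶠ s in 𝓝 (0 : ℂ), τ₀ + s • (τ - τ₀) ∈ Siegel g :=
    (xsids_line h0 hB).eventually self_mem_nhdsWithin
  have aq : AnalyticAt ℂ (fun s : ℂ => G (τ₀ + s • (τ - τ₀)) / F (τ₀ + s • (τ - τ₀))) 0 :=
    aG.div aF (by rw [e0]; exact hF0)
  have h1 : ∀ᶠ s in 𝓝 (0 : ℂ), ‖G (τ₀ + s • (τ - τ₀)) / F (τ₀ + s • (τ - τ₀))‖ = 1 := by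
    filter_upwards [hne, hS] with s h2 h3
    rw [norm_div, hn _ h3, div_self (norm_ne_zero_iff.2 h2)]
  have hc := Complex.eventually_eq_of_isLocalMax_norm
    (aq.eventually_analyticAt.mono fun z hz => hz.differentiableAt)
    (h1.mono fun s hs => by
      simp only [Function.comp_apply]
      rw [hs, h1.self_of_nhds])
  have h2 : (fun s : ℂ => G (τ₀ + s • (τ - τ₀)) - G τ₀ / F τ₀ * F (τ₀ + s • (τ - τ₀)))
      =ᶠ[𝓝 0] 0 := by
    filter_upwards [hc, hne] with s h3 h4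
    rw [e0] at h3
    rw [← h3, div_mul_cancel₀ _ h4, sub_self]
    rfl
  have := an.eqOn_zero_of_preconnected_of_eventuallyEq_zero hT
    ⟨0, ⟨le_rfl, zero_le_one⟩, ofReal_zero⟩ h2 ⟨1, ⟨zero_le_one, le_rfl⟩, ofReal_one⟩
  simpa [sub_eq_zero] using this

lemma xatwist_mem {τ : Mat g} (hτ : τ ∈ Siegel g) (a b : Fin g) (n : ℕ) :
    τ + (n : ℂ) • sE a b ∈ Siegel g := by
  simpa using sE_add_mem hτ a b (n : ℝ)

lemma xatwist_chi {κ : Type} {f : κ → Mat g → ℂ} (hf : ∀ j, MH (f j)) (a b : Fin g)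
    (hn : ∀ τ ∈ Siegel g, ∀ j, ‖f j (τ + (M : ℂ) • sE a b)‖ = ‖f j τ‖)
    (hpr : ∀ τ ∈ Siegel g, ∀ j j',
      f j (τ + (M : ℂ) • sE a b) * f j' τ = f j τ * f j' (τ + (M : ℂ) • sE a b))
    {j₀ : κ} {τ₀ : Mat g} (h0 : τ₀ ∈ Siegel g) (hj : f j₀ τ₀ ≠ 0) (j : κ) :
    ∀ τ ∈ Siegel g,
      f j (τ + (M : ℂ) • sE a b) = f j₀ (τ₀ + (M : ℂ) • sE a b) / f j₀ τ₀ * f j τ := by
  have an : ∀ j, AnalyticOnNhd ℂ (fun τ => f j (τ + (M : ℂ) • sE a b)) (Siegel g) :=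
    fun j τ hτ => ((hf j).an _ (xatwist_mem hτ a b M)).comp
      (f := fun τ : Mat g => τ + (M : ℂ) • sE a b) (analyticAt_id.add analyticAt_const)
  have h1 := xatwist_const (hf j₀).an (an j₀) (fun τ hτ => hn τ hτ j₀) h0 hj
  have h2 := siegel_id (F := fun τ => f j (τ + (M : ℂ) • sE a b) -
      f j₀ (τ₀ + (M : ℂ) • sE a b) / f j₀ τ₀ * f j τ)
    (fun τ hτ => (an j τ hτ).sub (analyticAt_const.mul ((hf j).an τ hτ))) h0 (by
      have hne : ∀ᶠ τ in 𝓝 τ₀, f j₀ τ ≠ 0 := ((hf j₀).an _ h0).continuousAt.eventually_ne hj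
      filter_upwards [mem_nhdsWithin_of_mem_nhds hne, self_mem_nhdsWithin] with τ h3 h4
      have h5 := hpr τ h4 j j₀
      rw [h1 τ h4] at h5
      refine mul_right_cancel₀ h3 ?_
      rw [sub_mul, h5]
      ring)
  exact fun τ hτ => sub_eq_zero.1 (h2 τ hτ)

lemma xatwist_int {φ : Mat g → ℝ} {a b : Fin g}
    (h : ∀ τ ∈ Siegel g, φ (τ + (M : ℂ) • sE a b) = φ τ) {τ : Mat g} (hτ : τ ∈ Siegel g)
    (n : ℤ) : φ (τ + (((n * M : ℝ)) : ℂ) • sE a b) = φ τ := by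
  have st : ∀ x : ℝ, φ (τ + (((x + 1) * M : ℝ) : ℂ) • sE a b) =
      φ (τ + ((x * M : ℝ) : ℂ) • sE a b) := fun x => by
    rw [← h _ (sE_add_mem hτ a b (x * M)), add_assoc, ← add_smul]
    congr 3
    push_cast
    ring
  induction n using Int.induction_on with
  | zero => simp
  | succ n ih =>
    rw [← ih, ← st ((n : ℤ) : ℝ)]
    simp
  | pred n ih =>
    rw [← ih, ← st]
    simp

lemma xatwist_red (hM : M ≠ 0) {φ : Mat g → ℝ}
    (h : ∀ a b, ∀ τ ∈ Siegel g, φ (τ + (M : ℂ) • sE a b) = φ τ) {τ : Mat g} (hτ : τ ∈ Siegel g)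
    (s : Finset (Fin g × Fin g)) : ∃ σ ∈ Siegel g, φ σ = φ τ ∧
      (∀ i j, (σ i j).im = (τ i j).im) ∧ ∀ p ∈ s, |(σ p.1 p.2).re| ≤ M := by
  have hM' : (0 : ℝ) < M := Nat.cast_pos.2 (Nat.pos_of_ne_zero hM)
  induction s using Finset.induction_on with
  | empty => exact ⟨τ, hτ, rfl, fun _ _ => rfl, by simp⟩
  | insert q s _ ih =>
    obtain ⟨σ, hσ, h1, h2, h3⟩ := ih
    set n : ℤ := -⌊(σ q.1 q.2).re / M⌋ with hn
    refine ⟨σ + (((n * M : ℝ)) : ℂ) • sE q.1 q.2, sE_add_mem hσ _ _ _,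
      (xatwist_int (h q.1 q.2) hσ n).trans h1, fun i j => ?_, fun p hp => ?_⟩
    · rw [← h2]
      simp only [Pi.add_apply, Pi.smul_apply, smul_eq_mul, sE]
      split_ifs <;> simp
    · simp only [Pi.add_apply, Pi.smul_apply, smul_eq_mul, sE]
      split_ifs with hq
      · have e : σ p.1 p.2 = σ q.1 q.2 := by
          rcases hq with ⟨h4, h5⟩ | ⟨h4, h5⟩
          · rw [h4, h5]
          · rw [h4, h5, hσ.1]
        rw [e, mul_one, add_re, ofReal_re, hn]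
        have h4 := Int.floor_le ((σ q.1 q.2).re / M)
        have h5 := Int.lt_floor_add_one ((σ q.1 q.2).re / M)
        rw [le_div_iff₀ hM'] at h4
        rw [div_lt_iff₀ hM'] at h5
        push_cast
        rw [abs_le]
        constructor <;> linarith
      · rw [mul_zero, add_zero]
        rcases Finset.mem_insert.1 hp with h4 | h4
        · exact absurd (Or.inl ⟨by rw [h4], by rw [h4]⟩) hq
        · exact h3 p h4

lemma xatwist_im (τ : Mat g) (i j : Fin g) : |(τ i j).im| ≤ imN τ :=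
  (norm_le_pi_norm (fun j => (τ i j).im) j).trans
    (norm_le_pi_norm (fun i j => (τ i j).im : Fin g → Fin g → ℝ) i)

lemma xatwist_gr (hM : M ≠ 0) {φ : Mat g → ℝ} (hφ : MB φ)
    (h : ∀ a b, ∀ τ ∈ Siegel g, φ (τ + (M : ℂ) • sE a b) = φ τ) :
    ∃ n : ℕ, ∀ δ : ℝ, 0 < δ → ∃ C : ℝ, 0 ≤ C ∧ ∀ τ ∈ Siegel g, YG τ δ →
      φ τ ≤ C * Real.exp (n * imN τ) := by
  obtain ⟨C, n, hC⟩ := hφ
  refine ⟨n, fun δ hδ => ⟨|C| * (1 + M + δ⁻¹) ^ n, by positivity, fun τ hτ hY => ?_⟩⟩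
  obtain ⟨σ, hσ, h1, h2, h3⟩ := xatwist_red hM h hτ Finset.univ
  have hi : 0 ≤ imN τ := norm_nonneg _
  have hd : 0 < δ⁻¹ := inv_pos.2 hδ
  have hM' : (0 : ℝ) ≤ M := Nat.cast_nonneg M
  have hB : Bd σ (1 + M + δ⁻¹ + imN τ) := by
    refine ⟨by linarith, ?_, ?_⟩
    · refine (pi_norm_le_iff_of_nonneg (by positivity)).2 fun i =>
        (pi_norm_le_iff_of_nonneg (by positivity)).2 fun j => ?_
      have h4 := norm_le_abs_re_add_abs_im (σ i j)
      have h5 := h3 (i, j) (Finset.mem_univ _)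
      have h6 := xatwist_im τ i j
      rw [h2] at h4
      linarith
    · have e : Ym σ = Ym τ := by
        ext i j
        exact h2 i j
      have h4 : YG σ δ := fun v => by rw [e]; exact hY v
      exact h4.mono (inv_le_of_inv_le₀ hδ (by linarith))
  rw [← h1]
  refine (hC σ hσ _ hB).trans ((mul_le_mul_of_nonneg_right (le_abs_self C)
    (by positivity)).trans ?_)
  rw [mul_assoc, Real.exp_nat_mul, ← mul_pow]
  refine mul_le_mul_of_nonneg_left (pow_le_pow_left₀ (by positivity) ?_ n) (abs_nonneg C)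
  have h4 := Real.add_one_le_exp (imN τ)
  have h5 : 0 ≤ (M + δ⁻¹) * imN τ := by positivity
  nlinarith

lemma xatwist_sum (θ : Fin g → Fin g → ℂ) (a b : Fin g) :
    ∑ i, ∑ j, θ i j * sE a b i j = if a = b then θ a a else θ a b + θ b a := by
  split_ifs with h
  · subst h
    simp [sE, ite_and]
  · have e : ∀ i j, sE a b i j =
        (if i = a then if j = b then 1 else 0 else 0) +
          if i = b then if j = a then 1 else 0 else 0 := by
      intro i j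
      unfold sE
      by_cases h1 : i = a <;> by_cases h2 : j = b <;> by_cases h3 : i = b <;>
        by_cases h4 : j = a <;> simp_all
    simp [e, mul_add, Finset.sum_add_distrib]

lemma xatwist_sE (a b : Fin g) : sE a b = sE b a := by
  funext i j
  simp only [sE, or_comm]

theorem twist {κ : Type} [Finite κ] (hM : M ≠ 0) {f : κ → Mat g → ℂ} (hf : ∀ j, MH (f j))
    (hn : ∀ a b, ∀ τ ∈ Siegel g, ∀ j, ‖f j (τ + (M : ℂ) • sE a b)‖ = ‖f j τ‖)
    (hpr : ∀ a b, ∀ τ ∈ Siegel g, ∀ j j',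
      f j (τ + (M : ℂ) • sE a b) * f j' τ = f j τ * f j' (τ + (M : ℂ) • sE a b)) :
    ∃ (θ : Fin g → Fin g → ℝ) (c : ℕ), ∀ j,
      PE M c fun τ => f j τ * exp (I * ∑ a, ∑ b, (θ a b : ℂ) * τ a b) := by
  have hM' : (M : ℂ) ≠ 0 := Nat.cast_ne_zero.2 hM
  obtain ⟨x, hx, hf'⟩ : ∃ x : Fin g → Fin g → ℝ, (∀ a b, x a b = x b a) ∧
      ∀ a b j, ∀ τ ∈ Siegel g, f j (τ + (M : ℂ) • sE a b) = exp (x a b * I) * f j τ := by
    by_cases h : ∃ j₀, ∃ τ₀ ∈ Siegel g, f j₀ τ₀ ≠ 0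
    · obtain ⟨j₀, τ₀, h0, hj⟩ := h
      refine ⟨fun a b => arg (f j₀ (τ₀ + (M : ℂ) • sE a b) / f j₀ τ₀),
        fun a b => by simp only [xatwist_sE a b], fun a b j τ hτ => ?_⟩
      have e := norm_mul_exp_arg_mul_I (f j₀ (τ₀ + (M : ℂ) • sE a b) / f j₀ τ₀)
      rw [norm_div, hn a b τ₀ h0, div_self (norm_ne_zero_iff.2 hj), ofReal_one, one_mul] at e
      rw [e]
      exact xatwist_chi hf a b (hn a b) (hpr a b) h0 hj j τ hτ
    · push Not at h
      exact ⟨0, fun _ _ => rfl, fun a b j τ hτ => by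
        rw [h j τ hτ, h j _ (xatwist_mem hτ a b M), mul_zero]⟩
  choose n hn' using fun j => xatwist_gr hM (hf j).gr fun a b τ hτ => hn a b τ hτ j
  obtain ⟨N, hN⟩ := (Set.finite_range n).bddAbove
  set θ : Fin g → Fin g → ℝ := fun a b => -x a b / (M * if a = b then 1 else 2) with hθ
  refine ⟨θ, N + ⌈∑ a, ∑ b, |θ a b|⌉₊, fun j => ⟨fun τ hτ => ?_, fun a b τ hτ => ?_,
    fun δ hδ => ?_⟩⟩
  · refine ((hf j).an τ hτ).mul (AnalyticAt.cexp' (analyticAt_const.mul ?_))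
    exact Finset.analyticAt_fun_sum _ fun a _ => Finset.analyticAt_fun_sum _ fun b _ =>
      analyticAt_const.mul (xsact_an_entry τ a b)
  · have e : ∑ i, ∑ j, (θ i j : ℂ) * (τ + (M : ℂ) • sE a b) i j =
        ∑ i, ∑ j, (θ i j : ℂ) * τ i j - x a b := by
      have e1 : (M : ℂ) * ∑ i, ∑ j, (θ i j : ℂ) * sE a b i j = -x a b := by
        rw [xatwist_sum fun i j => (θ i j : ℂ)]
        split_ifs with h
        · subst h
          simp only [hθ, if_true]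
          push_cast
          field_simp
        · simp only [hθ, if_neg h, if_neg (Ne.symm h), hx b a]
          push_cast
          field_simp
          ring
      rw [sub_eq_add_neg, ← e1]
      simp only [Pi.add_apply, Pi.smul_apply, smul_eq_mul, Finset.mul_sum,
        ← Finset.sum_add_distrib]
      exact Finset.sum_congr rfl fun i _ => Finset.sum_congr rfl fun j _ => by ring
    simp only [e, hf' a b j τ hτ]
    rw [mul_comm (exp _), mul_assoc, ← exp_add]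
    congr 2
    ring
  · obtain ⟨C, hC, h1⟩ := hn' j δ hδ
    refine ⟨C, fun τ hτ hY => ?_⟩
    have hi : 0 ≤ imN τ := norm_nonneg _
    have h2 : ‖exp (I * ∑ a, ∑ b, (θ a b : ℂ) * τ a b)‖ ≤
        Real.exp (⌈∑ a, ∑ b, |θ a b|⌉₊ * imN τ) := by
      rw [norm_exp]
      refine Real.exp_le_exp.2 (le_trans ?_ (mul_le_mul_of_nonneg_right (Nat.le_ceil _) hi))
      simp only [I_mul_re, im_sum, im_ofReal_mul, Finset.sum_mul, ← Finset.sum_neg_distrib]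
      refine Finset.sum_le_sum fun a _ => Finset.sum_le_sum fun b _ => (neg_le_abs _).trans ?_
      rw [abs_mul]
      exact mul_le_mul_of_nonneg_left (xatwist_im τ a b) (abs_nonneg _)
    have h3 : ((n j : ℕ) : ℝ) ≤ N := Nat.cast_le.2 (hN ⟨j, rfl⟩)
    rw [norm_mul, Nat.cast_add, add_mul, Real.exp_add, ← mul_assoc]
    refine mul_le_mul ((h1 τ hτ hY).trans (mul_le_mul_of_nonneg_left
      (Real.exp_le_exp.2 (mul_le_mul_of_nonneg_right h3 hi)) hC)) h2 (norm_nonneg _)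
      (by positivity)

theorem PE.eval {κ : Type} {f : κ → Mat g → ℂ} (hf : ∀ j, PE M c (f j))
    {P : MvPolynomial κ ℂ} {D : ℕ} (hP : P.IsHomogeneous D) :
    PE M (D * c) fun τ => MvPolynomial.eval (fun j => f j τ) P := by
  refine ⟨fun τ hτ => (gm_aeval (fun j => (hf j).an τ hτ) P).2, fun a b τ hτ => ?_,
    fun δ hδ => ?_⟩
  · simp only [fun j => (hf j).per a b τ hτ]
  · choose C hC using fun j => (hf j).gr δ hδ
    refine ⟨∑ d ∈ P.support, ‖P.coeff d‖ * ∏ i ∈ d.support, C i ^ d i, fun τ hτ hY => ?_⟩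
    rw [MvPolynomial.eval_eq, Finset.sum_mul]
    refine (norm_sum_le _ _).trans (Finset.sum_le_sum fun d hd => ?_)
    rw [norm_mul, mul_assoc, norm_prod]
    refine mul_le_mul_of_nonneg_left ?_ (norm_nonneg _)
    rw [Nat.cast_mul, mul_assoc, Real.exp_nat_mul, hP.degree_eq_sum_deg_support hd,
      ← Finset.prod_pow_eq_pow_sum, ← Finset.prod_mul_distrib]
    refine Finset.prod_le_prod (fun i _ => norm_nonneg _) fun i _ => ?_
    rw [norm_pow, ← mul_pow]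
    exact pow_le_pow_left₀ (norm_nonneg _) (hC i τ hτ hY) _

end Pool.Agent.MP_cf0a82_ag

end
end

section

open Complex Filter Topology Matrix Function

noncomputable section

namespace Pool.Agent.MP_cf0a82_ag

open Pool.Agent.MP_f58063_ag

lemma xaas_deg {κ : Type} [Fintype κ] {P : MvPolynomial κ ℂ} {D : ℕ} (hP : P.IsHomogeneous D)
    {d : κ →₀ ℕ} (hd : d ∈ P.support) : ∑ i, d i = D := by
  by_contra h
  exact MvPolynomial.mem_support_iff.1 hd (hP.coeff_eq_zero (by rwa [Finsupp.degree_eq_sum]))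

lemma xaas_smul {κ : Type} [Fintype κ] {P : MvPolynomial κ ℂ} {D : ℕ} (hP : P.IsHomogeneous D)
    (μ : ℂ) (x : κ → ℂ) :
    MvPolynomial.eval (fun j => μ * x j) P = μ ^ D * MvPolynomial.eval x P := by
  rw [MvPolynomial.eval_eq', MvPolynomial.eval_eq', Finset.mul_sum]
  refine Finset.sum_congr rfl fun d hd => ?_
  simp only [mul_pow, Finset.prod_mul_distrib, Finset.prod_pow_eq_pow_sum, xaas_deg hP hd]
  ring

lemma xaas_hom {κ : Type} [Fintype κ] {P : MvPolynomial κ ℂ} {D : ℕ} (hP : P.IsHomogeneous D)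
    {μ : ℂ} {x y : κ → ℂ} (h : ∀ j, y j = μ * x j) {a b : ℝ} (hab : ‖μ‖ * a = b) :
    ‖MvPolynomial.eval y P‖ * a ^ D = ‖MvPolynomial.eval x P‖ * b ^ D := by
  rw [funext h, xaas_smul hP, norm_mul, norm_pow, ← hab, mul_pow]
  ring

lemma xaas_bd {κ : Type} [Fintype κ] {P : MvPolynomial κ ℂ} {D : ℕ} (hP : P.IsHomogeneous D)
    {x : κ → ℂ} {a B : ℝ} (ha : 0 ≤ a) (h : ∀ j, ‖x j‖ * a ≤ B) :
    ‖MvPolynomial.eval x P‖ * a ^ D ≤ (∑ d ∈ P.support, ‖P.coeff d‖) * B ^ D := by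
  rw [MvPolynomial.eval_eq', Finset.sum_mul]
  refine (mul_le_mul_of_nonneg_right (norm_sum_le _ _) (pow_nonneg ha D)).trans ?_
  rw [Finset.sum_mul]
  refine Finset.sum_le_sum fun d hd => ?_
  rw [norm_mul, mul_assoc, norm_prod, ← xaas_deg hP hd, ← Finset.prod_pow_eq_pow_sum,
    ← Finset.prod_pow_eq_pow_sum, ← Finset.prod_mul_distrib]
  refine mul_le_mul_of_nonneg_left (Finset.prod_le_prod (fun i _ => by positivity) fun i _ => ?_)
    (norm_nonneg _)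
  rw [norm_pow, ← mul_pow]
  exact pow_le_pow_left₀ (by positivity) (h i) _

lemma xaas_mono {g M c c' : ℕ} {f : Mat g → ℂ} (hf : PE M c f) (h : c ≤ c') : PE M c' f := by
  refine ⟨hf.an, hf.per, fun δ hδ => ?_⟩
  obtain ⟨C, hC⟩ := hf.gr δ hδ
  refine ⟨|C|, fun τ hτ hy => (hC τ hτ hy).trans ?_⟩
  have h0 : 0 ≤ imN τ := norm_nonneg _
  have h1 : (c : ℝ) ≤ c' := by exact_mod_cast h
  gcongr
  exact le_abs_self C

lemma xaas_sum {g : ℕ} {ι : Type} (s : Finset ι) {F : ι → Mat g → ℝ} (hF : ∀ i ∈ s, MB (F i)) :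
    MB fun τ => ∑ i ∈ s, F i τ := by
  classical
  induction s using Finset.induction_on with
  | empty => simpa using MB.const 0
  | insert a s ha ih =>
    simp only [Finset.sum_insert ha]
    exact (hF a (Finset.mem_insert_self a s)).add (ih fun i hi => hF i (Finset.mem_insert_of_mem hi))

lemma xaas_cnt {g M K c L : ℕ} (hK : ∀ (c L : ℕ) (V : Type)
    [AddCommGroup V] [Module ℂ V] [FiniteDimensional ℂ V] (T : V →ₗ[ℂ] (Mat g → ℂ)),
    (∀ v, PE M c (T v)) → ∃ V' : Submodule ℂ V,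
      Module.finrank ℂ V ≤ Module.finrank ℂ V' + K * (c + L + 1) ^ NN g ∧
        ∀ v ∈ V', Van M L (T v))
    {V ι : Type} [AddCommGroup V] [Module ℂ V] [FiniteDimensional ℂ V]
    (T : ι → V →ₗ[ℂ] (Mat g → ℂ)) (hT : ∀ i v, PE M c (T i v)) (s : Finset ι) :
    ∃ V' : Submodule ℂ V,
      Module.finrank ℂ V ≤ Module.finrank ℂ V' + s.card * (K * (c + L + 1) ^ NN g) ∧
        ∀ i ∈ s, ∀ v ∈ V', Van M L (T i v) := by
  classical
  induction s using Finset.induction_on with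
  | empty => exact ⟨⊤, by simp, by simp⟩
  | insert a s ha ih =>
    obtain ⟨V', h1, h2⟩ := ih
    obtain ⟨V'', h3, h4⟩ := hK c L V' ((T a).comp V'.subtype) fun v => hT a v
    refine ⟨V''.map V'.subtype, ?_, fun i hi v hv => ?_⟩
    · rw [Submodule.finrank_map_subtype_eq, Finset.card_insert_of_notMem ha, add_mul, one_mul]
      omega
    · obtain ⟨v, hv', rfl⟩ := hv
      rcases Finset.mem_insert.1 hi with rfl | hi
      · exact h4 v hv'
      · exact h2 i hi _ v.2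

lemma xaas_space (N s : ℕ) : ∃ Φ : ((Fin N → Fin (s + 1)) → ℂ) →ₗ[ℂ] MvPolynomial (Fin (N + 1)) ℂ,
    Injective Φ ∧ ∀ v, (Φ v).IsHomogeneous (N * s) := by
  classical
  let ex : (Fin N → Fin (s + 1)) → Fin (N + 1) →₀ ℕ := fun e =>
    Finsupp.equivFunOnFinite.symm (Fin.cons (N * s - ∑ i, (e i : ℕ)) fun i => (e i : ℕ))
  have hi : Injective ex := fun e e' h => funext fun i => Fin.ext (by
    simpa [ex] using DFunLike.congr_fun h i.succ)
  have hd : ∀ e, (ex e).degree = N * s := fun e => by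
    have h : ∑ i, (e i : ℕ) ≤ N * s := by
      simpa using Finset.sum_le_card_nsmul Finset.univ (fun i => (e i : ℕ)) s
        fun i _ => Nat.lt_succ_iff.1 (e i).2
    rw [Finsupp.degree_eq_sum, Fin.sum_univ_succ]
    simp only [ex, Finsupp.equivFunOnFinite_symm_apply_apply, Fin.cons_zero, Fin.cons_succ]
    omega
  refine ⟨∑ e, (MvPolynomial.monomial (ex e)).comp (LinearMap.proj e), ?_, fun v => ?_⟩
  · refine (injective_iff_map_eq_zero _).2 fun v hv => funext fun e => ?_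
    have h := congrArg (MvPolynomial.coeff (ex e)) hv
    simpa [MvPolynomial.coeff_sum, MvPolynomial.coeff_monomial, hi.eq_iff] using h
  · rw [LinearMap.sum_apply]
    exact MvPolynomial.IsHomogeneous.sum _ _ _ fun e _ =>
      MvPolynomial.isHomogeneous_monomial _ (hd e)

lemma xaas_num (t K c a N : ℕ) : ∃ s : ℕ, 0 < s ∧
    t * (K * ((N + 1) * s * c + a * ((N + 1) * s) + 1) ^ N) < (s + 1) ^ (N + 1) := by
  refine ⟨t * K * ((N + 1) * (c + a) + 1) ^ N + 1, Nat.succ_pos _, ?_⟩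
  generalize hs : t * K * ((N + 1) * (c + a) + 1) ^ N + 1 = s
  have h1 : (N + 1) * s * c + a * ((N + 1) * s) + 1 ≤ ((N + 1) * (c + a) + 1) * (s + 1) := by
    nlinarith [Nat.zero_le s, Nat.zero_le ((N + 1) * (c + a))]
  calc _ ≤ t * (K * (((N + 1) * (c + a) + 1) * (s + 1)) ^ N) := by gcongr
    _ = (s + 1) ^ N * (t * K * ((N + 1) * (c + a) + 1) ^ N) := by rw [mul_pow]; ring
    _ < (s + 1) ^ N * (s + 1) := by
      gcongr
      omega
    _ = _ := (pow_succ _ _).symm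

lemma xaas_loc {g M : ℕ} {κ : Type} [Finite κ] (hM : M ≠ 0) {w : Mat g → ℝ} (hw : Wt w)
    {h : κ → Mat g → ℂ} (hh : ∀ j, MH (h j))
    (hinv : ∀ γ ∈ Gam g M, ∀ τ ∈ Siegel g, ∀ j,
      ‖h j (act γ τ)‖ * w (act γ τ) = ‖h j τ‖ * w τ)
    (hpr : ∀ γ ∈ Gam g M, ∀ τ ∈ Siegel g, ∀ j j',
      h j (act γ τ) * h j' τ = h j τ * h j' (act γ τ)) (γ : Sp g) :
    ∃ (F : κ → Mat g → ℂ) (u : Mat g → ℝ) (c : ℕ), (∀ j, PE M c (F j)) ∧
      (∀ τ ∈ Siegel g, 0 < u τ) ∧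
      (∀ δ : ℝ, 0 < δ → ∀ R : ℝ, ∃ C : ℝ, ∀ τ ∈ Siegel g, YG τ δ → ∀ x : ℝ,
        |x| ≤ R → u τ ≤ C * u (tr1 τ (x - δ / 2 * I))) ∧
      ∀ σ ∈ Siegel g, ∃ μ : ℂ, (∀ j, F j σ = μ * h j (act γ σ)) ∧ ‖μ‖ * u σ = w (act γ σ) := by
  obtain ⟨l, hl, hl'⟩ := hw.act γ
  have hl1 : MH l := ⟨hl, ((hw.ub.comp_act γ).mul hw.lb
    (fun τ hτ => (hw.pos _ (act_mem γ hτ)).le) fun τ hτ => (inv_pos.2 (hw.pos τ hτ)).le).of_le
    fun τ hτ => by rw [hl' τ hτ, mul_inv_cancel_right₀ (hw.pos τ hτ).ne']⟩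
  have key : ∀ a b, ∃ η ∈ Gam g M, ∀ τ ∈ Siegel g, τ + (M : ℂ) • sE a b ∈ Siegel g ∧
      act γ (τ + (M : ℂ) • sE a b) = act η (act γ τ) := fun a b => by
    obtain ⟨t, ht, ht'⟩ := exists_trE a b M
    refine ⟨γ * t * γ⁻¹, (Gam_normal g M).conj_mem t ht γ, fun τ hτ => ?_⟩
    rw [← ht', ← act_mul _ _ hτ, ← act_mul _ _ hτ, inv_mul_cancel_right]
    exact ⟨act_mem t hτ, rfl⟩
  obtain ⟨θ, c, hc⟩ := twist (f := fun j σ => h j (act γ σ) * l σ) hM
    (fun j => ((hh j).comp_act γ).mul hl1)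
    (fun a b τ hτ j => by
      obtain ⟨η, hη, h1⟩ := key a b
      obtain ⟨h2, h3⟩ := h1 τ hτ
      have h4 := hinv η hη _ (act_mem γ hτ) j
      rw [← h3, hl' _ h2, hl' _ hτ, hw.tra a b M τ hτ, ← mul_assoc, ← mul_assoc] at h4
      rw [norm_mul, norm_mul]
      exact mul_right_cancel₀ (hw.pos τ hτ).ne' h4)
    (fun a b τ hτ j j' => by
      obtain ⟨η, hη, h1⟩ := key a b
      have h4 := hpr η hη _ (act_mem γ hτ) j j'
      rw [← (h1 τ hτ).2] at h4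
      linear_combination (l τ * l (τ + (M : ℂ) • sE a b)) * h4)
  refine ⟨_, fun σ => w σ * Real.exp (∑ a, ∑ b, θ a b * (σ a b).im), c, hc,
    fun τ hτ => mul_pos (hw.pos τ hτ) (Real.exp_pos _), fun δ hδ R => ?_, fun σ hσ =>
      ⟨l σ * exp (I * ∑ a, ∑ b, (θ a b : ℂ) * σ a b), fun j => by ring, ?_⟩⟩
  · obtain ⟨C, hC⟩ := hw.cmp δ hδ R
    refine ⟨C * Real.exp (δ / 2 * ∑ a, θ a a), fun τ hτ hy x hx => ?_⟩
    have h1 : ∑ a, ∑ b, θ a b * (τ a b).im =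
        δ / 2 * ∑ a, θ a a + ∑ a, ∑ b, θ a b * (tr1 τ (x - δ / 2 * I) a b).im := by
      rw [Finset.mul_sum, ← Finset.sum_add_distrib]
      refine Finset.sum_congr rfl fun a _ => ?_
      have h2 : ∀ b, θ a b * (tr1 τ (x - δ / 2 * I) a b).im =
          θ a b * (τ a b).im - if a = b then δ / 2 * θ a a else 0 := fun b => by
        unfold tr1
        split_ifs with h3
        · subst h3
          simp
          ring
        · simp
      simp only [h2, Finset.sum_sub_distrib, Finset.sum_ite_eq, Finset.mem_univ, if_true]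
      ring
    refine (mul_le_mul_of_nonneg_right (hC τ hτ hy x hx) (Real.exp_pos _).le).trans_eq ?_
    rw [h1, Real.exp_add]
    ring
  · have h1 : (I * ∑ a, ∑ b, (θ a b : ℂ) * σ a b).re = - ∑ a, ∑ b, θ a b * (σ a b).im := by
      simp [Complex.im_sum]
    rw [norm_mul, Complex.norm_exp, h1, hl' σ hσ, Real.exp_neg]
    field_simp

/-- the theorem of Siegel on the algebraic dependence of automorphic forms -/
theorem siegel_dep {g M : ℕ} (hg : 0 < g) (hM : M ≠ 0) {w : Mat g → ℝ} (hw : Wt w)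
    {h : Fin (NN g + 2) → Mat g → ℂ} (hh : ∀ j, MH (h j))
    (hinv : ∀ γ ∈ Gam g M, ∀ τ ∈ Siegel g, ∀ j,
      ‖h j (act γ τ)‖ * w (act γ τ) = ‖h j τ‖ * w τ)
    (hpr : ∀ γ ∈ Gam g M, ∀ τ ∈ Siegel g, ∀ j j',
      h j (act γ τ) * h j' τ = h j τ * h j' (act γ τ)) :
    ∃ (D : ℕ) (P : MvPolynomial (Fin (NN g + 2)) ℂ), P ≠ 0 ∧ P.IsHomogeneous D ∧
      ∀ τ ∈ Siegel g, MvPolynomial.eval (fun j => h j τ) P = 0 := by
  obtain ⟨T, hT⟩ := exists_reps g hM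
  choose F u c hF hu hc hμ using xaas_loc hM hw hh hinv hpr
  have h0 : ∀ (γ : Sp g) j, ∀ τ ∈ Siegel g, 0 ≤ ‖h j (act γ τ)‖ * w (act γ τ) := fun γ j τ hτ =>
    mul_nonneg (norm_nonneg _) (hw.pos _ (act_mem γ hτ)).le
  obtain ⟨C, m, hC⟩ := xaas_sum T (F := fun γ τ => ∑ j, ‖h j (act γ τ)‖ * w (act γ τ))
    fun γ _ => xaas_sum Finset.univ (F := fun j τ => ‖h j (act γ τ)‖ * w (act γ τ)) fun j _ =>
      (((hh j).gr.mul hw.ub (fun _ _ => norm_nonneg _) fun τ hτ => (hw.pos τ hτ).le).comp_act γ)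
  obtain ⟨a, ha⟩ := sch hM T hT (u := u) (fun γ _ => hu γ) (fun γ _ => hc γ) m
  obtain ⟨K, hK⟩ := cnt hg hM
  obtain ⟨s, hs, hs'⟩ := xaas_num T.card K (T.sup c) a (NN g)
  obtain ⟨Φ, hΦ, hΦ'⟩ := xaas_space (NN g + 1) s
  let E : T → ((Fin (NN g + 1) → Fin (s + 1)) → ℂ) →ₗ[ℂ] (Mat g → ℂ) := fun γ =>
    LinearMap.pi fun τ => (MvPolynomial.aeval fun j => F γ j τ).toLinearMap.comp Φ
  have hE : ∀ γ v, E γ v = fun τ => MvPolynomial.eval (fun j => F γ j τ) (Φ v) := fun γ v => rfl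
  have hP : ∀ (γ : T) v, PE M ((NN g + 1) * s * T.sup c) (E γ v) := fun γ v =>
    PE.eval (fun j => xaas_mono (hF γ j) (Finset.le_sup γ.2)) (hΦ' v)
  obtain ⟨V', h1, h2⟩ := xaas_cnt (L := a * ((NN g + 1) * s)) hK E hP Finset.univ
  rw [Module.finrank_fintype_fun_eq_card, Fintype.card_fun, Fintype.card_fin, Fintype.card_fin,
    Finset.card_univ, Fintype.card_coe] at h1
  obtain ⟨v, hv, hv0⟩ : ∃ v ∈ V', v ≠ 0 := by
    refine (Submodule.ne_bot_iff _).1 fun h => ?_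
    rw [h, finrank_bot] at h1
    omega
  have hD : 0 < (NN g + 1) * s := Nat.mul_pos (Nat.succ_pos _) hs
  refine ⟨_, Φ v, fun h => hv0 (hΦ (h.trans (map_zero Φ).symm)), hΦ' v, fun τ hτ => ?_⟩
  have h3 := ha _ _ hD le_rfl
    (fun τ => ‖MvPolynomial.eval (fun j => h j τ) (Φ v)‖ * w τ ^ ((NN g + 1) * s))
    (fun γ τ => MvPolynomial.eval (fun j => F γ j τ) (Φ v)) (fun η hη τ hτ => ?_)
    (fun γ _ σ hσ => ?_) (fun γ hγ => h2 ⟨γ, hγ⟩ (Finset.mem_univ _) v hv)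
    (fun γ hγ σ hσ => (hP ⟨γ, hγ⟩ v).per_tr1 hσ) ?_ τ hτ
  · exact norm_eq_zero.1 ((mul_eq_zero.1 h3).resolve_right (pow_pos (hw.pos τ hτ) _).ne')
  · by_cases h4 : ∀ j, h j τ = 0
    · have h5 : ∀ j, h j (act η τ) = 0 := fun j => by
        have := hinv η hη τ hτ j
        rw [h4, norm_zero, zero_mul] at this
        exact norm_eq_zero.1 ((mul_eq_zero.1 this).resolve_right (hw.pos _ (act_mem η hτ)).ne')
      have h6 := xaas_smul (hΦ' v) 0 0
      simp only [zero_mul, zero_pow hD.ne'] at h6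
      simp only [h4, h5, h6, norm_zero, zero_mul]
    · push Not at h4
      obtain ⟨j₀, hj⟩ := h4
      refine xaas_hom (hΦ' v) (μ := h j₀ (act η τ) / h j₀ τ) (fun j => ?_) ?_
      · rw [div_mul_eq_mul_div, eq_div_iff hj, hpr η hη τ hτ, mul_comm, hpr η hη τ hτ, mul_comm]
      · rw [norm_div, div_mul_eq_mul_div, hinv η hη τ hτ, mul_div_cancel_left₀ _ (norm_ne_zero_iff.2 hj)]
  · obtain ⟨μ, h4, h5⟩ := hμ γ σ hσ
    exact (xaas_hom (hΦ' v) h4 h5).symm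
  · refine ⟨(∑ d ∈ (Φ v).support, ‖(Φ v).coeff d‖) * C ^ ((NN g + 1) * s),
      fun γ hγ σ hσ r hr => ?_⟩
    rw [pow_mul r, mul_assoc, ← mul_pow]
    refine xaas_bd (hΦ' v) (hw.pos _ (act_mem γ hσ)).le fun j => le_trans ?_ (hC σ hσ r hr)
    exact (Finset.single_le_sum (f := fun j => ‖h j (act γ σ)‖ * w (act γ σ))
      (fun j _ => h0 γ j σ hσ) (Finset.mem_univ j)).trans
      (Finset.single_le_sum (f := fun γ => ∑ j, ‖h j (act γ σ)‖ * w (act γ σ))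
        (fun γ _ => Finset.sum_nonneg fun j _ => h0 γ j σ hσ) hγ)

end Pool.Agent.MP_cf0a82_ag

end
end

section

open Complex Filter Topology Matrix Function

noncomputable section

namespace Pool.Agent.MP_cf0a82_ag

open Pool.Agent.MP_f58063_ag

lemma xanf_scale {K ι : Type} [Field K] [Algebra ℂ K] {P : MvPolynomial ι ℂ} {D : ℕ}
    (hP : P.IsHomogeneous D) (c : K) (v : ι → K) :
    MvPolynomial.aeval (fun j => c * v j) P = c ^ D * MvPolynomial.aeval v P := by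
  simp only [MvPolynomial.aeval_def, MvPolynomial.eval₂_eq, Finset.mul_sum]
  refine Finset.sum_congr rfl fun d hd => ?_
  simp only [mul_pow, Finset.prod_mul_distrib, Finset.prod_pow_eq_pow_sum]
  rw [← hP.degree_eq_sum_deg_support hd]
  ring

lemma xanf_deh {K : Type} [Field K] [Algebra ℂ K] {n : ℕ} (P : MvPolynomial (Fin (n + 1)) ℂ)
    (v : Fin n → K) :
    MvPolynomial.aeval v (MvPolynomial.aeval
      (Fin.cons 1 MvPolynomial.X : Fin (n + 1) → MvPolynomial (Fin n) ℂ) P) =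
      MvPolynomial.aeval (Fin.cons 1 v : Fin (n + 1) → K) P := by
  rw [← AlgHom.comp_apply, MvPolynomial.comp_aeval]
  congr 2
  funext j
  refine Fin.cases ?_ (fun j => ?_) j <;> simp

lemma xanf_ne {n D : ℕ} {P : MvPolynomial (Fin (n + 1)) ℂ} (hP : P.IsHomogeneous D)
    (h0 : P ≠ 0) : MvPolynomial.aeval
      (Fin.cons 1 MvPolynomial.X : Fin (n + 1) → MvPolynomial (Fin n) ℂ) P ≠ 0 := by
  intro h
  refine mul_ne_zero (MvPolynomial.X_ne_zero 0) h0 (MvPolynomial.funext fun u => ?_)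
  rw [map_mul, MvPolynomial.eval_X, map_zero]
  by_cases hu : u 0 = 0
  · rw [hu, zero_mul]
  · have h1 := xanf_deh P fun j => u j.succ / u 0
    have h2 := xanf_scale hP (u 0) (Fin.cons 1 fun j => u j.succ / u 0)
    have h3 : (fun j => u 0 * (Fin.cons 1 fun j => u j.succ / u 0 : Fin (n + 1) → ℂ) j) = u := by
      funext j
      refine Fin.cases ?_ (fun j => ?_) j
      · simp
      · simp [mul_div_cancel₀ _ hu]
    rw [h, map_zero] at h1
    rw [h3, ← h1, mul_zero] at h2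
    exact mul_eq_zero_of_right _ h2

lemma xanf_alg {n : ℕ} {x : Fin n → ℂ} {q : MG x} {Q : MvPolynomial (Fin (n + 1)) ℂ}
    (hQ : Q ≠ 0)
    (h : MvPolynomial.aeval (Fin.cons q fun i => gm x fun y => y i : Fin (n + 1) → MG x) Q = 0) :
    IsAlgebraic (LA x) q := by
  have h2 := (xsnasha_ind (Pi.basisFun ℂ (Fin n)) x).option_iff_transcendental q
  rw [algebraicIndependent_iff, Transcendental, ← LA_eq] at h2
  by_contra hc
  refine (map_ne_zero_iff _ (MvPolynomial.rename_injective _ (finSuccEquiv n).injective)).2 hQ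
    (h2.2 hc _ ?_)
  rw [MvPolynomial.aeval_rename, ← h]
  congr 2
  funext i
  refine Fin.cases ?_ (fun i => ?_) i <;> simp

/-- quotients of modular forms are algebraic over the coordinates given by theta constants -/
theorem nf {g N : ℕ} (hg : 0 < g) (hN : N ≠ 0) {c₀ : LL g → ℂ} {yc : Fin (NN g) → LL g → ℂ}
    (h0 : IsCh N c₀) (hy : ∀ i, IsCh N (yc i)) {ψ : (Fin (NN g) → ℂ) → Mat g}
    {x : Fin (NN g) → ℂ} (hψ : AnalyticAt ℂ ψ x)
    (h1 : ∀ᶠ x' in 𝓝 x, ψ x' ∈ Siegel g ∧ th c₀ (ψ x') ≠ 0 ∧ ∀ i, yq c₀ (yc i) (ψ x') = x' i)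
    {M a b : ℕ} (hM : M ≠ 0) (h2 : 2 ∣ M) {h t : Mat g → ℂ} (hh : Fm M a b h) (ht : Fm M a b t)
    (h3 : gm x (fun x' => t (ψ x')) ≠ 0) :
    IsAlgebraic (LA x) (gm x (fun x' => h (ψ x')) / gm x fun x' => t (ψ x')) := by
  have hc : ∀ {c : LL g → ℂ}, IsCh N c → ∀ {f : Mat g → ℂ}, Fm M a b f →
      Fm (2 * N ^ 2 * M) (a + 1) b fun τ => f τ * th c τ := fun hc _ hf =>
    (hf.mono (Dvd.intro_left _ rfl)).mul ((Fm_th hN hc).mono (Dvd.intro _ rfl))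
  let F : Fin (NN g + 2) → Mat g → ℂ := Fin.cons (fun τ => t τ * th c₀ τ)
    (Fin.cons (fun τ => h τ * th c₀ τ) fun i τ => t τ * th (yc i) τ)
  have hF : ∀ j, Fm (2 * N ^ 2 * M) (a + 1) b (F j) := fun j =>
    Fin.cases (hc h0 ht) (fun j => Fin.cases (hc h0 hh) (fun i => hc (hy i) ht) j) j
  obtain ⟨D, P, hP0, hP, hz⟩ := siegel_dep hg (M := 2 * N ^ 2 * M) (by positivity)
    (((Wt_Ws g).pow (a + 1)).mul ((Wt_det g).pow b)) (fun j => (hF j).mh)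
    (fun γ hγ τ hτ j => Fm_inv (hF j) (h2.mul_left _) hγ hτ)
    fun γ hγ τ hτ j j' => by rw [(hF j).act γ hγ τ hτ, (hF j').act γ hγ τ hτ]; ring
  have hx := h1.self_of_nhds
  have han : ∀ {f : Mat g → ℂ}, AnalyticOnNhd ℂ f (Siegel g) →
      AnalyticAt ℂ (fun x' => f (ψ x')) x := fun hf => (hf _ hx.1).comp hψ
  have hth : ∀ c, AnalyticAt ℂ (fun x' => th c (ψ x')) x := fun c =>
    han ((th_analytic c).mono Siegel_sub)
  obtain ⟨h4, h5⟩ := gm_aeval (F := fun j x' => F j (ψ x')) (fun j => han (hF j).mh.an) P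
  rw [(gm_eq_zero h5).2 (h1.mono fun x' hx' => hz _ hx'.1)] at h4
  have h6 : gm x (fun x' => th c₀ (ψ x')) ≠ 0 := fun h6 =>
    hx.2.1 ((gm_eq_zero (hth c₀)).1 h6).self_of_nhds
  have h7 : (fun j => gm x fun x' => F j (ψ x')) = fun j =>
      (gm x (fun x' => t (ψ x')) * gm x fun x' => th c₀ (ψ x')) * (Fin.cons 1 (Fin.cons
        (gm x (fun x' => h (ψ x')) / gm x fun x' => t (ψ x')) fun i => gm x fun y => y i) :
          Fin (NN g + 2) → MG x) j := by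
    funext j
    refine Fin.cases ?_ (fun j => Fin.cases ?_ (fun i => ?_) j) j
    · simp only [F, Fin.cons_zero, mul_one]
      exact gm_mul (han ht.mh.an) (hth c₀)
    · simp only [F, Fin.cons_succ, Fin.cons_zero]
      rw [gm_mul (han hh.mh.an) (hth c₀)]
      field_simp
    · simp only [F, Fin.cons_succ]
      have hi : AnalyticAt ℂ (fun y : Fin (NN g) → ℂ => y i) x :=
        (ContinuousLinearMap.proj (R := ℂ) (φ := fun _ : Fin (NN g) => ℂ) i).analyticAt x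
      rw [gm_mul (han ht.mh.an) (hth _), mul_assoc, ← gm_mul (hth c₀) hi,
        (gm_eq_iff (hth (yc i)) ((hth c₀).mul hi)).2 (h1.mono fun x' hx' => ?_)]
      · rfl
      · change _ = th c₀ (ψ x') * x' i
        rw [← hx'.2.2 i, yq, mul_div_cancel₀ _ hx'.2.1]
  rw [h7, xanf_scale hP, ← xanf_deh] at h4
  exact xanf_alg (xanf_ne hP hP0)
    ((mul_eq_zero.1 h4.symm).resolve_left (pow_ne_zero _ (mul_ne_zero h3 h6)))

end Pool.Agent.MP_cf0a82_ag

end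
end

section

open Complex Filter Topology Matrix Function

noncomputable section

namespace Pool.Agent.MP_cf0a82_ag

open Pool.Agent.MP_f58063_ag

variable {g : ℕ} (B : Box g) {x : DD g}

theorem Box.isOpen_ball : IsOpen B.ball := Metric.isOpen_ball

theorem Box.embΦ : Emb (B.ψ '' B.ball) B.Φ := B.emb

theorem Box.ψ_an (hx : x ∈ B.ball) : AnalyticAt ℂ B.ψ x := B.an x hx

theorem Box.sieg (hx : x ∈ B.ball) : B.ψ x ∈ Siegel g := (B.mem x hx).1

lemma xbboxa_ev (hx : x ∈ B.ball) : ∀ᶠ x' in 𝓝 x, x' ∈ B.ball := B.isOpen_ball.mem_nhds hx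

lemma xbboxa_entry (hx : x ∈ B.ball) (ξ : DD g) (a b : Fin g) :
    fderiv ℂ B.ψ x ξ a b = fderiv ℂ (fun y => B.ψ y a b) x ξ := by
  have hd := (B.ψ_an hx).differentiableAt
  rw [fderiv_apply (differentiableAt_pi.1 hd a), fderiv_apply hd]
  rfl

theorem Box.dψ_sy (hx : x ∈ B.ball) (ξ : DD g) : IsSy (fderiv ℂ B.ψ x ξ) := by
  intro a b
  rw [xbboxa_entry B hx, xbboxa_entry B hx]
  have h : (fun y => B.ψ y a b) =ᶠ[𝓝 x] fun y => B.ψ y b a :=
    (xbboxa_ev B hx).mono fun y hy => (B.sieg hy).1 a b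
  rw [h.fderiv_eq]

lemma xbboxa_yq (hx : x ∈ B.ball) (c : LL g → ℂ) : AnalyticAt ℂ (yq B.c₀ c) (B.ψ x) :=
  (th_analytic c _ (Siegel_sub (B.sieg hx))).div (th_analytic B.c₀ _ (Siegel_sub (B.sieg hx)))
    (B.mem x hx).2.1.2.1

theorem Box.dy_dψ (hx : x ∈ B.ball) (ξ : DD g) (i : Fin (NN g)) :
    fderiv ℂ (yq B.c₀ (B.yc i)) (B.ψ x) (fderiv ℂ B.ψ x ξ) = ξ i := by
  have h1 := fderiv_comp x (xbboxa_yq B hx (B.yc i)).differentiableAt
    (B.ψ_an hx).differentiableAt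
  have h2 : (yq B.c₀ (B.yc i) ∘ B.ψ) =ᶠ[𝓝 x]
      (ContinuousLinearMap.proj (R := ℂ) (φ := fun _ : Fin (NN g) => ℂ) i) :=
    (xbboxa_ev B hx).mono fun y hy => (B.mem y hy).2.2 i
  rw [h2.fderiv_eq, ContinuousLinearMap.fderiv] at h1
  exact (congrArg (fun L : DD g →L[ℂ] ℂ => L ξ) h1).symm

theorem Box.dψ_inj (hx : x ∈ B.ball) : Injective (fderiv ℂ B.ψ x) := by
  intro ξ ξ' h
  funext i
  rw [← B.dy_dψ hx ξ i, ← B.dy_dψ hx ξ' i, h]

theorem Box.φ_an (j : Fin B.nJ) {τ : Mat g} (hτ : τ ∈ PosIm g) (z : EE g) :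
    AnalyticAt ℂ (fun p : Mat g × EE g => B.φ j p.1 p.2) (τ, z) :=
  ((thc_analytic _ hτ z).mul (thc_analytic _ hτ z)).mul (thc_analytic _ hτ z)

theorem Box.exists_ne (hx : x ∈ B.ball) (z : EE g) : ∃ j, B.φ j (B.ψ x) z ≠ 0 :=
  Function.ne_iff.1 (B.embΦ.ne _ ⟨x, hx, rfl⟩ z)

theorem Box.gm_ne (hx : x ∈ B.ball) {f : Mat g → ℂ} (hf : AnalyticOnNhd ℂ f (Siegel g))
    (h : ∃ τ ∈ Siegel g, f τ ≠ 0) : gm x (fun x' => f (B.ψ x')) ≠ 0 := by
  intro h0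
  obtain ⟨τ, hτ, hne⟩ := h
  have h1 : AnalyticAt ℂ (fun x' => f (B.ψ x')) x := (hf _ (B.sieg hx)).comp (B.ψ_an hx)
  have h2 : ∀ᶠ σ in map B.ψ (𝓝 x), f σ = 0 := (gm_eq_zero h1).1 h0
  exact hne (siegel_id hf (B.sieg hx) (h2.filter_mono (B.cov x hx)) τ hτ)

theorem Box.nf (hg : 0 < g) (hx : x ∈ B.ball) {M a b : ℕ} (hM : M ≠ 0) (h2 : 2 ∣ M)
    {h t : Mat g → ℂ} (hh : Fm M a b h) (ht : Fm M a b t) (h0 : ∃ τ ∈ Siegel g, t τ ≠ 0) :
    IsAlgebraic (LA x) (gm x (fun x' => h (B.ψ x')) / gm x fun x' => t (B.ψ x')) :=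
  Pool.Agent.MP_cf0a82_ag.nf hg B.hN B.h0 B.hy (B.ψ_an hx)
    ((xbboxa_ev B hx).mono fun y hy => ⟨B.sieg hy, (B.mem y hy).2.1.2.1, (B.mem y hy).2.2⟩)
    hM h2 hh ht (B.gm_ne hx ht.mh.an h0)

theorem Box.nash_yq (hg : 0 < g) (hx : x ∈ B.ball) {c : LL g → ℂ} (hc : IsCh B.N c) :
    NashAt (fun x' => yq B.c₀ c (B.ψ x')) x := by
  have h1 : AnalyticAt ℂ (fun x' => yq B.c₀ c (B.ψ x')) x := (xbboxa_yq B hx c).comp (B.ψ_an hx)
  have h2 : ∀ c', AnalyticAt ℂ (fun x' => th c' (B.ψ x')) x := fun c' =>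
    (th_analytic c' _ (Siegel_sub (B.sieg hx))).comp (B.ψ_an hx)
  have h3 : ∃ τ ∈ Siegel g, th B.c₀ τ ≠ 0 := ⟨_, B.sieg hx, (B.mem x hx).2.1.2.1⟩
  have h4 := B.gm_ne hx ((th_analytic B.c₀).mono Siegel_sub) h3
  have hN := B.hN
  have h5 := B.nf hg hx (M := 2 * B.N ^ 2) (by positivity) (Dvd.intro _ rfl) (Fm_th B.hN hc)
    (Fm_th B.hN B.h0) h3
  refine ⟨h1, ?_⟩
  have h6 : gm x (fun x' => yq B.c₀ c (B.ψ x')) =
      gm x (fun x' => th c (B.ψ x')) / gm x fun x' => th B.c₀ (B.ψ x') := by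
    rw [eq_div_iff h4, ← gm_mul h1 (h2 _)]
    exact (gm_eq_iff (h1.mul (h2 _)) (h2 _)).2
      ((xbboxa_ev B hx).mono fun y hy => div_mul_cancel₀ _ (B.mem y hy).2.1.2.1)
  rwa [h6]

lemma xbboxa_nonroot {Q : MvPolynomial (Fin (NN g)) ℂ} (hQ : Q ≠ 0) :
    ∃ x ∈ B.ball, MvPolynomial.eval x Q ≠ 0 := by
  by_contra hcon
  push Not at hcon
  have h1 : ∀ y : DD g, AnalyticAt ℂ (fun y : DD g => MvPolynomial.eval y Q) y := fun y =>
    (gm_aeval (p := y) (F := fun i (y : DD g) => y i) (fun i =>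
      (ContinuousLinearMap.proj (R := ℂ) (φ := fun _ : Fin (NN g) => ℂ) i).analyticAt y) Q).2
  have h2 := entire_zero h1 ((xbboxa_ev B (Metric.mem_ball_self B.hr)).mono hcon)
  exact hQ (MvPolynomial.funext fun y => by simpa using congrFun h2 y)

/-- the zero set of a polynomial in the coordinates is the zero set of a modular function -/
theorem Box.modq {Q : MvPolynomial (Fin (NN g)) ℂ} (hQ : Q ≠ 0) :
    ∃ h t : Mat g → ℂ, IsModFun (Gam g (2 * B.N ^ 2)) h t ∧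
      (∃ τ ∈ Siegel g, h τ ≠ 0 ∧ t τ ≠ 0) ∧
      ∀ x ∈ B.ball, t (B.ψ x) ≠ 0 ∧ (h (B.ψ x) ≠ 0 → MvPolynomial.eval x Q ≠ 0) := by
  obtain ⟨x₁, hx₁, hne⟩ := xbboxa_nonroot B hQ
  have hy := fun i => Mod_yq B.hN B.h0 B.hs (B.hy i)
  have hf : Mod (Gam g (2 * B.N ^ 2)) (Om B.c₀ B.cs)
      fun τ => MvPolynomial.eval (fun i => yq B.c₀ (B.yc i) τ) Q :=
    ⟨Mer.eval (fun i => (hy i).1) Q, fun γ hγ τ hτ => by
      simp only [fun i => (hy i).2 γ hγ τ hτ]⟩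
  obtain ⟨h, t, hm, e⟩ := xsmer_modfun (isOpen_Om B.c₀ B.cs)
    (fun γ hγ τ hτ => (jet_act B.hN hγ hτ.1 B.h0 B.hs hτ.2).1) (B.sieg hx₁) (B.mem _ hx₁).2.1 hf
  have key : ∀ x ∈ B.ball, t (B.ψ x) ≠ 0 ∧ MvPolynomial.eval x Q = h (B.ψ x) / t (B.ψ x) := by
    intro x hx
    obtain ⟨e1, e2⟩ := e _ (B.mem x hx).2.1
    refine ⟨e1, ?_⟩
    rw [← e2]
    simp only [(B.mem x hx).2.2]
  refine ⟨h, t, hm, ⟨_, B.sieg hx₁, fun h0 => hne ?_, (key _ hx₁).1⟩, fun x hx =>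
    ⟨(key x hx).1, fun h0 => ?_⟩⟩
  · rw [(key _ hx₁).2, h0, zero_div]
  · rw [(key x hx).2]
    exact div_ne_zero h0 (key x hx).1

end Pool.Agent.MP_cf0a82_ag

end
end

section

open Complex Filter Topology Matrix Function

noncomputable section

namespace Pool.Agent.MP_cf0a82_ag

open Pool.Agent.MP_f58063_ag

lemma xbembc_sel {g : ℕ} {J : Type} (ℓ : J → EE g →L[ℂ] ℂ) (h : ∀ v, (∀ j, ℓ j v = 0) → v = 0) :
    ∃ js : Fin g → J, ∀ v, (∀ a, ℓ (js a) v = 0) → v = 0 := by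
  let u : J → Module.Dual ℂ (EE g) := fun j => ℓ j
  have hs : Submodule.span ℂ (Set.range u) = ⊤ := Submodule.span_eq_top_of_ne_zero fun v hv => by
    obtain ⟨j, hj⟩ := not_forall.1 (mt (h v) hv)
    exact ⟨_, ⟨j, rfl⟩, hj⟩
  obtain ⟨κ, a, -, h1, h2⟩ := exists_linearIndependent' ℂ u
  rw [hs] at h1
  let b := Module.Basis.mk h2 h1.ge
  let e : κ ≃ Fin g := b.indexEquiv (Pi.basisFun ℂ (Fin g)).dualBasis
  refine ⟨fun i => a (e.symm i), fun v hv => (Module.forall_dual_apply_eq_zero_iff ℂ v).1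
    fun f => ?_⟩
  have : Module.Dual.eval ℂ _ v = 0 := b.ext fun k => by simpa [b, u] using hv (e k)
  exact LinearMap.congr_fun this f

/-- local coordinates on the fibres given by the embedding -/
theorem Box.emb_chart {g : ℕ} (B : Box g) {x : DD g} (hx : x ∈ B.ball) (z : EE g)
    {j₀ : Fin B.nJ} (h0 : B.φ j₀ (B.ψ x) z ≠ 0) :
    ∃ (js : Fin g → Fin B.nJ) (σ : DD g × EE g → EE g) (w : DD g × EE g → EE g),
      (∀ y a, w y a = B.φ (js a) (B.ψ y.1) y.2 / B.φ j₀ (B.ψ y.1) y.2) ∧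
      AnalyticAt ℂ w (x, z) ∧ AnalyticAt ℂ σ (x, w (x, z)) ∧
      Bijective (fderiv ℂ (fun z' => w (x, z')) z) ∧
      (∀ᶠ y in 𝓝 (x, z), σ (y.1, w y) = y.2) ∧
      ∀ᶠ y in 𝓝 (x, w (x, z)), w (y.1, σ y) = y.2 := by
  have hτ : B.ψ x ∈ B.ψ '' B.ball := ⟨x, hx, rfl⟩
  have a1 : ∀ j, AnalyticAt ℂ (fun y : DD g × EE g => B.φ j (B.ψ y.1) y.2) (x, z) := fun j =>
    AnalyticAt.comp (g := fun p : Mat g × EE g => B.Φ p.1 p.2 j)
      (f := fun y : DD g × EE g => (B.ψ y.1, y.2)) (x := (x, z)) (B.embΦ.an _ hτ z j)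
      ((AnalyticAt.comp (f := Prod.fst) (x := (x, z)) (B.ψ_an hx) analyticAt_fst).prod
        analyticAt_snd)
  have a2 : ∀ {f : DD g × EE g → ℂ}, AnalyticAt ℂ f (x, z) →
      DifferentiableAt ℂ (fun z' => f (x, z')) z := fun hf =>
    (hf.comp (f := fun z' => (x, z')) (analyticAt_const.prod analyticAt_id)).differentiableAt
  have a3 := fun j => (a1 j).fun_div (a1 j₀) h0
  obtain ⟨js, hjs⟩ := xbembc_sel
    (fun j => fderiv ℂ (fun z' => B.φ j (B.ψ x) z' / B.φ j₀ (B.ψ x) z') z) fun v hv =>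
      B.embΦ.imm _ hτ z v (fderiv ℂ (B.φ j₀ (B.ψ x)) z v / B.φ j₀ (B.ψ x) z) fun j => by
        have e : B.φ j (B.ψ x) =ᶠ[𝓝 z] fun z' =>
            B.φ j (B.ψ x) z' / B.φ j₀ (B.ψ x) z' * B.φ j₀ (B.ψ x) z' :=
          ((a2 (a1 j₀)).continuousAt.eventually_ne h0).mono fun z' h => (div_mul_cancel₀ _ h).symm
        change fderiv ℂ (B.φ j (B.ψ x)) z v = _ * B.φ j (B.ψ x) z
        rw [e.fderiv_eq, fderiv_fun_mul (a2 (a3 j)) (a2 (a1 j₀))]
        simp only [_root_.add_apply, _root_.smul_apply, hv j,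
          smul_eq_mul]
        ring
  set w : DD g × EE g → EE g := fun y a => B.φ (js a) (B.ψ y.1) y.2 / B.φ j₀ (B.ψ y.1) y.2
  have aw : AnalyticAt ℂ w (x, z) := analyticAt_pi_iff.2 fun a => a3 _
  have hi : ∀ v, fderiv ℂ (fun z' => w (x, z')) z v = 0 → v = 0 := fun v hv => hjs v fun a => by
    rw [fderiv_pi fun a => a2 (a3 (js a))] at hv
    exact congrFun hv a
  have inj : Injective (fderiv ℂ (fun z' => w (x, z')) z : EE g →ₗ[ℂ] EE g) :=
    (injective_iff_map_eq_zero _).2 hi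
  have aH : AnalyticAt ℂ (fun q : (DD g × EE g) × EE g => w (q.1.1, q.2) - q.1.2)
      ((x, w (x, z)), z) :=
    (AnalyticAt.comp (f := fun q : (DD g × EE g) × EE g => (q.1.1, q.2))
      (x := ((x, w (x, z)), z)) aw
      ((analyticAt_fst.comp analyticAt_fst).prod analyticAt_snd)).sub
      (analyticAt_snd.comp analyticAt_fst)
  obtain ⟨σ, s1, -, s3, s4⟩ := ift aH fun v hv => hi v (by
    have := (aH.differentiableAt.hasFDerivAt.comp z
      (hasFDerivAt_prodMk_right (x, w (x, z)) z)).fderiv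
    rw [← hv, ← fderiv_sub_const (c := w (x, z))]
    exact DFunLike.congr_fun this v)
  refine ⟨js, σ, w, fun _ _ => rfl, aw, s1, ⟨inj, LinearMap.injective_iff_surjective.1 inj⟩, ?_,
    s3.mono fun y h => by rwa [sub_self, sub_eq_zero] at h⟩
  have c : ContinuousAt (fun y : DD g × EE g => ((y.1, w y), y.2)) (x, z) :=
    (continuousAt_fst.prodMk aw.continuousAt).prodMk continuousAt_snd
  exact (c.eventually s4).mono fun y h => (h (by simp)).symm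

end Pool.Agent.MP_cf0a82_ag

end
end
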