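import Pool.Agent.Mg.Fcf0a82q.G430d12
import Pool.Agent.Mg.Fcf0a82q.Gbd7e79
import Pool.Agent.Mg.Fcf0a82q.G67c0ca
import Pool.Agent.Mg.Fcf0a82q.G446bd4
import Pool.Agent.Mg.Fcf0a82q.G7c9b0d
import Pool.Agent.Mg.Fcf0a82q.Gb5be87
import Pool.Agent.Mg.Fcf0a82q.G2c0f22
import Pool.Agent.Mg.Fcf0a82q.G6d303b

section

open Complex Filter Topology Matrix Function

noncomputable section

namespace Pool.Agent.MP_cf0a82_ag

open Pool.Agent.MP_f58063_ag

variable {ι : Type} [Fintype ι] [DecidableEq ι] {g M α β n : ℕ}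

/-- the symmetric part -/
def xbjlinS (τ : Mat g) : Mat g := fun i j => (τ i j + τ j i) / 2

lemma xbjlinS_eq {τ : Mat g} (hτ : τ ∈ Siegel g) : xbjlinS τ = τ := by
  funext i j
  simp only [xbjlinS, hτ.1 j i]
  ring

lemma xbjlinS_mem {τ : Mat g} (hτ : τ ∈ PosIm g) : xbjlinS τ ∈ Siegel g := by
  refine ⟨fun i j => by simp only [xbjlinS, add_comm], fun v hv => ?_⟩
  have a := hτ v hv
  have b : ∑ i, ∑ j, v i * (τ j i).im * v j = ∑ i, ∑ j, v i * (τ i j).im * v j := by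
    rw [Finset.sum_comm]
    exact Finset.sum_congr rfl fun i _ => Finset.sum_congr rfl fun j _ => by ring
  have e : ∑ i, ∑ j, v i * (xbjlinS τ i j).im * v j =
      (∑ i, ∑ j, v i * (τ i j).im * v j + ∑ i, ∑ j, v i * (τ j i).im * v j) / 2 := by
    simp only [← Finset.sum_add_distrib, Finset.sum_div]
    refine Finset.sum_congr rfl fun i _ => Finset.sum_congr rfl fun j _ => ?_
    simp only [xbjlinS, div_ofNat_im, add_im]
    ring
  rw [e, b]
  linarith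

lemma xbjlinS_an (τ : Mat g) : AnalyticAt ℂ (xbjlinS (g := g)) τ := by
  refine analyticAt_pi_iff.2 fun i => analyticAt_pi_iff.2 fun j => ?_
  have h : ∀ a b : Fin g, AnalyticAt ℂ (fun σ : Mat g => σ a b) τ := fun a b =>
    ((ContinuousLinearMap.proj b : (Fin g → ℂ) →L[ℂ] ℂ).comp
      (ContinuousLinearMap.proj a : Mat g →L[ℂ] (Fin g → ℂ))).analyticAt τ
  exact ((h i j).add (h j i)).div_const

lemma xbjlin_conv : Convex ℝ (PosIm g) := by
  intro x hx y hy a b ha hb hab v hv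
  have h1 := hx v hv
  have h2 := hy v hv
  have e : ∑ i, ∑ j, v i * ((a • x + b • y) i j).im * v j =
      a * (∑ i, ∑ j, v i * (x i j).im * v j) + b * ∑ i, ∑ j, v i * (y i j).im * v j := by
    simp only [Finset.mul_sum, ← Finset.sum_add_distrib]
    refine Finset.sum_congr rfl fun i _ => Finset.sum_congr rfl fun j _ => ?_
    simp only [Pi.add_apply, Pi.smul_apply, add_im, smul_im, smul_eq_mul]
    ring
  rw [e]
  rcases eq_or_lt_of_le ha with h3 | h3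
  · have : b = 1 := by linarith
    rw [← h3, this]
    simpa using h2
  · have := mul_pos h3 h1
    have := mul_nonneg hb h2.le
    linarith

lemma xbjlin_ne : ∃ τ, τ ∈ Siegel g := by
  refine ⟨fun i j => if i = j then I else 0, fun i j => by simp only [eq_comm], fun v hv => ?_⟩
  have e : ∀ i, ∑ j, v i * (if i = j then I else 0).im * v j = v i * v i := fun i => by
    rw [Finset.sum_eq_single i] <;> simp +contextual [eq_comm]
  simp only [e]
  obtain ⟨i, hi⟩ := Function.ne_iff.1 hv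
  exact Finset.sum_pos' (fun j _ => mul_self_nonneg _)
    ⟨i, Finset.mem_univ _, mul_self_pos.2 hi⟩

theorem siegel_generic {κ : Type} [Countable κ] {f : κ → Mat g → ℂ}
    (hf : ∀ i, AnalyticOnNhd ℂ (f i) (Siegel g)) (h : ∀ i, ∃ τ ∈ Siegel g, f i τ ≠ 0) :
    ∃ τ ∈ Siegel g, ∀ i, f i τ ≠ 0 := by
  have hres := residual_ne (R := Set.range fun i τ => f i (xbjlinS τ)) (Set.countable_range _)
    isOpen_PosIm xbjlin_conv.isPreconnected (by
      rintro _ ⟨i, rfl⟩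
      obtain ⟨τ, hτ, h0⟩ := h i
      exact ⟨fun σ hσ => (hf i _ (xbjlinS_mem hσ)).comp (xbjlinS_an σ), τ, hτ.2,
        by simpa only [xbjlinS_eq hτ] using h0⟩)
  obtain ⟨τ₀, h₀⟩ := xbjlin_ne (g := g)
  obtain ⟨x, hxB, hx⟩ := (dense_of_mem_residual hres).inter_open_nonempty _ isOpen_PosIm
    ⟨τ₀, h₀.2⟩
  exact ⟨xbjlinS x, xbjlinS_mem hxB, fun i => hx hxB _ ⟨i, rfl⟩⟩

lemma xbjlin_den {κ : Type} [Fintype κ] (c : κ → ℚ) :
    ∃ q : ℕ, q ≠ 0 ∧ ∀ i, ∃ k : ℤ, (c i : ℝ) * q = k := by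
  refine ⟨∏ i, (c i).den, Finset.prod_ne_zero_iff.2 fun i _ => (c i).den_nz, fun i => ?_⟩
  obtain ⟨k, hk⟩ := Finset.dvd_prod_of_mem (fun i => (c i).den) (Finset.mem_univ i)
  refine ⟨(c i).num * k, ?_⟩
  have h1 : (c i : ℝ) * ((c i).den : ℝ) = (c i).num := by
    exact_mod_cast Rat.mul_den_eq_num (c i)
  rw [hk]
  simp only [Nat.cast_mul, Int.cast_mul, Int.cast_natCast]
  rw [← h1]
  ring

lemma xbjlin_sum {κ : Type} (s : Finset κ) {F : κ → Mat g → ℂ} (h : ∀ i, Fm M α β (F i)) :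
    Fm M α β fun τ => ∑ i ∈ s, F i τ :=
  ⟨MH.sum s fun i _ => (h i).mh, fun γ hγ τ hτ => by
    rw [Finset.mul_sum]
    exact Finset.sum_congr rfl fun i _ => (h i).act γ hγ τ hτ⟩

/-- the value at a torsion point -/
def xbjlinE (n : ℕ) (F : PP ι g → ℂ) (y : ι → LL g → ℚ) (τ : Mat g) : ℂ :=
  sh (idm n) F (fun l i => (y l (.inl i) : ℝ)) (fun l i => (y l (.inr i) : ℝ)) (τ, 0)

lemma xbjlinE_eq (n : ℕ) (y : ι → LL g → ℚ) (τ : Mat g) : ∃ κ : ℂ, κ ≠ 0 ∧
    ∀ F : PP ι g → ℂ, xbjlinE n F y τ = κ * F (τ, fun l => tpt τ (y l)) := by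
  refine ⟨exp (Real.pi * I * qI (idm n) (fun l i => (y l (.inl i) : ℝ)) (τ, 0)), exp_ne_zero _,
    fun F => ?_⟩
  unfold xbjlinE sh
  congr 2
  refine Prod.ext rfl (funext fun l => funext fun i => ?_)
  simp [shP, mv, rc, tpt]

lemma xbjlin_fm {T : Type} {H : T → PP ι g → ℂ} (hH : ∀ μ, JF M α β (idm n) (H μ)) {r : ℕ}
    (y : Fin r → ι → LL g → ℚ) : ∃ q : ℕ, q ≠ 0 ∧ ∀ μ : Fin r → T,
      Fm (M * (2 * q ^ 2)) (r * α) (r * β) fun τ =>
        (Matrix.of fun i j => xbjlinE n (H (μ i)) (y j) τ).det := by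
  obtain ⟨q, hq, h⟩ := xbjlin_den fun p : Fin r × ι × LL g => y p.1 p.2.1 p.2.2
  exact ⟨q, hq, fun μ => Fm.det fun i j =>
    (hH (μ i)).spec hq (fun l a => h (j, l, .inl a)) fun l a => h (j, l, .inr a)⟩

lemma xbjlin_max {T Y S : Type} [Fintype T] (E : T → Y → S → ℂ) {U : Set S} (hU : ∃ τ, τ ∈ U) :
    ∃ (r : ℕ) (μ : Fin r → T) (y : Fin r → Y), Injective μ ∧
      (∃ τ ∈ U, (Matrix.of fun i j => E (μ i) (y j) τ).det ≠ 0) ∧
      ∀ (μ' : Fin (r + 1) → T) (y' : Fin (r + 1) → Y), ∀ τ ∈ U,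
        (Matrix.of fun i j => E (μ' i) (y' j) τ).det = 0 := by
  classical
  let P : ℕ → Prop := fun r => ∃ (μ : Fin r → T) (y : Fin r → Y), ∃ τ ∈ U,
    (Matrix.of fun i j => E (μ i) (y j) τ).det ≠ 0
  have hinj : ∀ (r : ℕ) (μ : Fin r → T) (y : Fin r → Y) (τ : S),
      (Matrix.of fun i j => E (μ i) (y j) τ).det ≠ 0 → Injective μ := by
    intro r μ y τ h i j hij
    by_contra hne
    exact h (det_zero_of_row_eq hne (funext fun k => by simp [hij]))
  have hex : ∃ r, ¬P (r + 1) := by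
    refine ⟨Fintype.card T, fun ⟨μ, y, τ, _, h⟩ => ?_⟩
    have := Fintype.card_le_of_injective μ (hinj _ μ y τ h)
    simp at this
  have hP : P (Nat.find hex) := by
    rcases h : Nat.find hex with _ | r
    · obtain ⟨τ, hτ⟩ := hU
      exact ⟨Fin.elim0, Fin.elim0, τ, hτ, by simp⟩
    · exact not_not.1 (Nat.find_min hex (m := r) (by omega))
  obtain ⟨μ, y, τ, hτ, h⟩ := hP
  refine ⟨_, μ, y, hinj _ μ y τ h, ⟨τ, hτ, h⟩, fun μ' y' σ hσ => ?_⟩
  by_contra h0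
  exact Nat.find_spec hex ⟨μ', y', σ, hσ, h0⟩

/-- Jacobi forms are either dependent over the modular forms or generically independent -/
theorem jlin (hM : M ≠ 0) {T : Type} [Fintype T] {H : T → PP ι g → ℂ}
    (hH : ∀ μ, JF M α β (idm n) (H μ)) :
    (∃ (M' α' β' : ℕ) (c : T → Mat g → ℂ), M' ≠ 0 ∧ 2 ∣ M' ∧ (∀ μ, Fm M' α' β' (c μ)) ∧
      (∃ μ, ∃ τ ∈ Siegel g, c μ τ ≠ 0) ∧
      ∀ p : PP ι g, p.1 ∈ Siegel g → ∑ μ, c μ p.1 * H μ p = 0) ∨
    ∃ f : Mat g → ℂ, AnalyticOnNhd ℂ f (Siegel g) ∧ (∃ τ ∈ Siegel g, f τ ≠ 0) ∧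
      ∀ τ ∈ Siegel g, f τ ≠ 0 → LinearIndependent ℂ fun μ => fun z => H μ (τ, z) := by
  classical
  obtain ⟨r, μ, y, hinj, ⟨τ₁, hτ₁, h₁⟩, hmax⟩ :=
    xbjlin_max (fun μ (y : ι → LL g → ℚ) τ => xbjlinE n (H μ) y τ) (xbjlin_ne (g := g))
  obtain ⟨q, hq, hF⟩ := xbjlin_fm hH y
  by_cases hs : Surjective μ
  · refine Or.inr ⟨_, (hF μ).mh.an, ⟨τ₁, hτ₁, h₁⟩, fun τ _ h0 => ?_⟩
    refine Fintype.linearIndependent_iff.2 fun c hc ν => ?_
    have h2 : (fun i => c (μ i)) ᵥ* (Matrix.of fun i j => xbjlinE n (H (μ i)) (y j) τ) = 0 := by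
      funext j
      obtain ⟨κ, -, hκ⟩ := xbjlinE_eq n (y j) τ
      have h3 := congrFun hc fun l => tpt τ (y j l)
      rw [← (Equiv.ofBijective μ ⟨hinj, hs⟩).sum_comp] at h3
      simp only [Finset.sum_apply, Pi.smul_apply, smul_eq_mul, Pi.zero_apply,
        Equiv.ofBijective_apply] at h3
      simp only [vecMul, dotProduct, of_apply, hκ, Pi.zero_apply]
      rw [← mul_zero κ, ← h3, Finset.mul_sum]
      exact Finset.sum_congr rfl fun i _ => by ring
    obtain ⟨i, rfl⟩ := hs ν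
    exact congrFun (eq_zero_of_vecMul_eq_zero h0 h2) i
  · obtain ⟨μ₀, hμ₀⟩ := not_forall.1 hs
    let μ' : Fin (r + 1) → T := Fin.cons μ₀ μ
    let d : Fin (r + 1) → Mat g → ℂ := fun i τ =>
      (Matrix.of fun k j => xbjlinE n (H (μ' (i.succAbove k))) (y j) τ).det
    refine Or.inl ⟨M * (2 * q ^ 2), r * α, r * β,
      fun ν τ => ∑ i, (if μ' i = ν then (-1 : ℂ) ^ (i : ℕ) else 0) * d i τ, by positivity,
      (Dvd.intro _ rfl).mul_left _,
      fun ν => xbjlin_sum _ fun i => (hF fun k => μ' (i.succAbove k)).smul _,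
      ⟨μ₀, τ₁, hτ₁, ?_⟩, ?_⟩
    · have h3 : ∀ i : Fin r, ¬μ i = μ₀ := fun i hi => hμ₀ ⟨i, hi⟩
      simpa [Fin.sum_univ_succ, μ', d, h3] using h₁
    · rintro ⟨τ, z⟩ hτ
      have e : ∀ w, ∑ ν, (∑ i, (if μ' i = ν then (-1 : ℂ) ^ (i : ℕ) else 0) * d i τ) *
          H ν (τ, w) =
          ∑ i : Fin (r + 1), (-1 : ℂ) ^ (i : ℕ) * d i τ * H (μ' i) (τ, w) := by
        intro w
        simp only [Finset.sum_mul]
        rw [Finset.sum_comm]
        refine Finset.sum_congr rfl fun i _ => ?_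
        simp
      have hc : Continuous fun w : XX ι g =>
          ∑ i : Fin (r + 1), (-1 : ℂ) ^ (i : ℕ) * d i τ * H (μ' i) (τ, w) := by
        refine continuous_finsetSum _ fun i _ => continuous_const.mul ?_
        exact continuous_iff_continuousAt.2 fun w =>
          ((hH (μ' i)).jh.an (τ, w) hτ.2).continuousAt.comp (f := fun w : XX ι g => (τ, w))
            (by fun_prop)
      have hd : DenseRange (Pi.map fun (_ : ι) => tpt τ) :=
        DenseRange.piMap fun _ => tpt_dense hτ.2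
      refine (e z).trans ?_
      refine congrFun (hd.equalizer hc continuous_const (funext fun y₀ => ?_)) z
      obtain ⟨κ, hκ0, hκ⟩ := xbjlinE_eq n y₀ τ
      have h4 := hmax μ' (Fin.cons y₀ y) τ hτ
      rw [det_succ_column_zero] at h4
      refine mul_left_cancel₀ hκ0 ?_
      simp only [Function.comp_apply, mul_zero]
      rw [← h4, Finset.mul_sum]
      refine Finset.sum_congr rfl fun i _ => ?_
      have e2 : (Matrix.of fun i j => xbjlinE n (H (μ' i))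
          ((Fin.cons y₀ y : Fin (r + 1) → ι → LL g → ℚ) j) τ).submatrix i.succAbove Fin.succ =
          Matrix.of fun k j => xbjlinE n (H (μ' (i.succAbove k))) (y j) τ := by
        ext k j
        simp
      rw [e2]
      simp only [of_apply, Fin.cons_zero, hκ]
      have e3 : Pi.map (fun (_ : ι) => tpt τ) y₀ = fun l => tpt τ (y₀ l) := rfl
      rw [e3]
      ring

end Pool.Agent.MP_cf0a82_ag

end
end

section

open Complex Filter Topology Matrix Function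

noncomputable section

namespace Pool.Agent.MP_cf0a82_ag

open Pool.Agent.MP_f58063_ag

/-- the monomials are Jacobi forms of the same type -/
theorem xbjdep_jf {ι : Type} [Fintype ι] [DecidableEq ι] {g M α β n : ℕ} {κ : Type}
    [Fintype κ] {H₀ : PP ι g → ℂ} {H : κ → PP ι g → ℂ} (h0 : JF M α β (idm n) H₀)
    (hH : ∀ i, JF M α β (idm n) (H i)) (s : ℕ) (μ : κ → Fin (s + 1)) :
    JF M (Fintype.card κ * (s * α)) (Fintype.card κ * (s * β)) (idm (Fintype.card κ * (s * n)))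
      fun p => ∏ i, (H₀ p ^ (s - μ i) * H i p ^ (μ i : ℕ)) := by
  have h1 : ∀ i ∈ (Finset.univ : Finset κ), JF M (s * α) (s * β) (idm (s * n))
      fun p => H₀ p ^ (s - μ i) * H i p ^ (μ i : ℕ) := by
    intro i _
    have hle : (μ i : ℕ) ≤ s := Nat.lt_succ_iff.mp (μ i).2
    have h := (h0.pow (s - μ i)).mul ((hH i).pow (μ i))
    rwa [smul_idm, smul_idm, idm_add, ← add_mul, ← add_mul, ← add_mul,
      Nat.sub_add_cancel hle] at h
  have h := JF.prod Finset.univ (a := fun _ => s * α) (b := fun _ => s * β)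
    (μ := fun _ => idm (s * n)) h1
  rwa [Finset.sum_const, Finset.sum_const, Finset.sum_const, Finset.card_univ, smul_idm,
    smul_eq_mul, smul_eq_mul] at h

theorem xbjdep_num {C d k n : ℕ} (hd : d < k)
    (h : ∀ s : ℕ, (s + 1) ^ k ≤ C * (k * (s * n) + 1) ^ d) : False := by
  set s := C * (k * n + 1) ^ d with hs
  have h1 := h s
  have h2 : k * (s * n) + 1 ≤ (k * n + 1) * (s + 1) := by nlinarith [Nat.zero_le (k * n)]
  have h3 : C * (k * (s * n) + 1) ^ d ≤ s * (s + 1) ^ d := by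
    calc C * (k * (s * n) + 1) ^ d ≤ C * ((k * n + 1) * (s + 1)) ^ d :=
          Nat.mul_le_mul_left _ (Nat.pow_le_pow_left h2 d)
      _ = s * (s + 1) ^ d := by rw [mul_pow, ← mul_assoc, ← hs]
  have h4 : (s + 1) ^ (d + 1) ≤ (s + 1) ^ k := Nat.pow_le_pow_right (Nat.succ_pos s) hd
  have h5 : 0 < (s + 1) ^ d := by positivity
  rw [pow_succ] at h4
  nlinarith

/-- algebraic dependence of Jacobi forms over the modular forms -/
theorem jdep {ι : Type} [Fintype ι] [DecidableEq ι] {g M α β n : ℕ} (hM : M ≠ 0) {κ : Type}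
    [Fintype κ] [DecidableEq κ] (hκ : Fintype.card ι * g < Fintype.card κ) {H₀ : PP ι g → ℂ}
    {H : κ → PP ι g → ℂ} (h0 : JF M α β (idm n) H₀) (hH : ∀ i, JF M α β (idm n) (H i)) :
    ∃ (s M' α' β' : ℕ) (c : (κ → Fin (s + 1)) → Mat g → ℂ), M' ≠ 0 ∧ 2 ∣ M' ∧
      (∀ μ, Fm M' α' β' (c μ)) ∧ (∃ μ, ∃ τ ∈ Siegel g, c μ τ ≠ 0) ∧
      ∀ p : PP ι g, p.1 ∈ Siegel g → H₀ p ≠ 0 →
        ∑ μ, c μ p.1 * ∏ i, (H i p / H₀ p) ^ (μ i : ℕ) = 0 := by
  by_contra hcon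
  have hs : ∀ s : ℕ, ∃ f : Mat g → ℂ, AnalyticOnNhd ℂ f (Siegel g) ∧
      (∃ τ ∈ Siegel g, f τ ≠ 0) ∧ ∀ τ ∈ Siegel g, f τ ≠ 0 →
        LinearIndependent ℂ fun μ : κ → Fin (s + 1) => fun z : XX ι g =>
          ∏ i, (H₀ (τ, z) ^ (s - μ i) * H i (τ, z) ^ (μ i : ℕ)) := by
    intro s
    rcases jlin hM (xbjdep_jf h0 hH s) with ⟨M', α', β', c, h1, h2, h3, h4, h5⟩ | h
    · refine absurd ⟨s, M', α', β', c, h1, h2, h3, h4, fun p hp hne => ?_⟩ hcon
      have h6 := h5 p hp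
      have h7 : ∀ μ : κ → Fin (s + 1), ∏ i, (H₀ p ^ (s - μ i) * H i p ^ (μ i : ℕ)) =
          (∏ _i : κ, H₀ p ^ s) * ∏ i, (H i p / H₀ p) ^ (μ i : ℕ) := by
        intro μ
        rw [← Finset.prod_mul_distrib]
        refine Finset.prod_congr rfl fun i _ => ?_
        have hle : (μ i : ℕ) ≤ s := Nat.lt_succ_iff.mp (μ i).2
        rw [div_pow, pow_sub₀ _ hne hle]
        field_simp
      have h8 : (∏ _i : κ, H₀ p ^ s) ≠ 0 :=
        Finset.prod_ne_zero_iff.mpr fun _ _ => pow_ne_zero _ hne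
      refine (mul_eq_zero_iff_left h8).mp ?_
      rw [Finset.mul_sum, ← h6]
      refine Finset.sum_congr rfl fun μ _ => ?_
      rw [h7]
      ring
    · exact h
  choose f hf1 hf2 hf3 using hs
  obtain ⟨τ, hτ, hne⟩ := siegel_generic hf1 hf2
  obtain ⟨C, hC⟩ := ThI_finrank ι hτ
  refine xbjdep_num (C := C) (n := n) hκ fun s => ?_
  obtain ⟨hfin, hle⟩ := hC (Fintype.card κ * (s * n))
  have hli := hf3 s τ hτ (hne s)
  have hli' : LinearIndependent ℂ fun μ : κ → Fin (s + 1) =>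
      (⟨_, (xbjdep_jf h0 hH s μ).slice hτ⟩ : ThI (ι := ι) τ (Fintype.card κ * (s * n))) :=
    LinearIndependent.of_comp (ThI (ι := ι) τ (Fintype.card κ * (s * n))).subtype hli
  have h := hli'.fintype_card_le_finrank
  rw [Fintype.card_fun, Fintype.card_fin] at h
  exact h.trans hle

end Pool.Agent.MP_cf0a82_ag

end
end

section

open Complex Filter Topology Matrix Function

noncomputable section

namespace Pool.Agent.MP_cf0a82_ag

open Pool.Agent.MP_f58063_ag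

/-- quotients of Jacobi forms are Nash in a chart given by quotients of Jacobi forms -/
theorem Box.jn_chart {g : ℕ} (B : Box g) (hg : 0 < g) {ι : Type} [Fintype ι] [DecidableEq ι]
    {M α β n : ℕ} (hM : M ≠ 0) {κ : Type} [Fintype κ] [DecidableEq κ]
    (hκ : Fintype.card κ = Fintype.card ι * g) {H₀ F : PP ι g → ℂ} {H : κ → PP ι g → ℂ}
    (h0 : JF M α β (idm n) H₀) (hH : ∀ i, JF M α β (idm n) (H i)) (hF : JF M α β (idm n) F)
    {σ : DD g × (κ → ℂ) → XX ι g} {y : DD g × (κ → ℂ)} (hy : y.1 ∈ B.ball)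
    (hσ : AnalyticAt ℂ σ y) (hne : H₀ (B.ψ y.1, σ y) ≠ 0)
    (hco : ∀ᶠ y' in 𝓝 y, ∀ i, H i (B.ψ y'.1, σ y') / H₀ (B.ψ y'.1, σ y') = y'.2 i) :
    NashAt (fun y' => F (B.ψ y'.1, σ y') / H₀ (B.ψ y'.1, σ y')) y := by
  obtain ⟨s, M', α', β', c, h1, h2, hc, ⟨μ₀, hμ⟩, hrel⟩ := jdep hM (κ := Option κ)
    (by rw [Fintype.card_option, hκ]; exact Nat.lt_succ_self _) (H := fun i => Option.elim i F H) h0
    (fun i => by cases i; exacts [hF, hH _])
  have ha : AnalyticAt ℂ (fun y' : DD g × (κ → ℂ) => (B.ψ y'.1, σ y')) y :=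
    ((B.ψ_an hy).comp analyticAt_fst).prod hσ
  have hb : ∀ {G : PP ι g → ℂ}, JF M α β (idm n) G →
      AnalyticAt ℂ (fun y' : DD g × (κ → ℂ) => G (B.ψ y'.1, σ y')) y := fun hG =>
    (hG.jh.an (B.ψ y.1, σ y) (Siegel_sub (B.sieg hy))).fun_comp_of_eq ha rfl
  refine nash_of_fam ((hb hF).fun_div (hb h0) hne) (c := fun μ x => c μ (B.ψ x)) (μ₀ := μ₀)
    (fun μ => ((hc μ).mh.an _ (B.sieg hy)).comp (B.ψ_an hy)) (B.gm_ne hy (hc μ₀).mh.an hμ)
    (fun μ => B.nf hg hy h1 h2 (hc μ) (hc μ₀) hμ) ?_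
  filter_upwards [hco, (hb h0).continuousAt.eventually_ne hne,
    continuous_fst.continuousAt.eventually (B.isOpen_ball.mem_nhds hy)] with y' a1 a2 a3
  refine Eq.trans (Finset.sum_congr rfl fun μ _ => congrArg _
    (Finset.prod_congr rfl fun i _ => ?_)) (hrel (B.ψ y'.1, σ y') (B.sieg a3) a2)
  cases i
  · rfl
  · exact congrArg (· ^ _) (a1 _).symm

end Pool.Agent.MP_cf0a82_ag

end
end

section

open Complex Filter Topology Matrix Function

noncomputable section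

namespace Pool.Agent.MP_cf0a82_ag

open Pool.Agent.MP_f58063_ag

theorem xbext_jf {g : ℕ} (B : Box g) {ι : Type} [Fintype ι] [DecidableEq ι] {M α β n : ℕ}
    {F : PP ι g → ℂ} (hF : JF M α β (idm n) F) (j : ι → Fin B.nJ) :
    JF (M * (2 * B.N ^ 2)) (α + ∑ _l : ι, 3) (β + ∑ _l : ι, 0) (idm (n + 3))
      fun p => F p * ∏ l, B.φ (j l) p.1 (p.2 l) := by
  have h1 := JF.prod Finset.univ fun l (_ : l ∈ Finset.univ) =>
    JF_tp B.hN (B.ht (j l)) (Pi.single l 1 : ι → ℤ)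
  have h2 : (∑ l : ι, fun a b => 3 * ((Pi.single l 1 : ι → ℤ) a * (Pi.single l 1 : ι → ℤ) b)) =
      idm 3 := by
    funext a b
    simp only [Finset.sum_apply, Pi.single_apply, idm, mul_ite, mul_one, mul_zero]
    by_cases h : a = b
    · simp [h]
    · rw [if_neg h]
      refine Finset.sum_eq_zero fun l _ => ?_
      split_ifs with h3 h4
      · exact absurd (h4.trans h3.symm) h
      · rfl
      · rfl
  have h3 : ∀ (l : ι) (p : PP ι g), lc (Pi.single l 1) (tp (B.tc (j l))) p =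
      B.φ (j l) p.1 (p.2 l) := fun l p => by
    simp [lc, Pi.single_apply, Box.φ]
  simp only [h2, h3] at h1
  rw [← idm_add]
  exact (hF.mono (dvd_mul_right _ _)).mul (h1.mono (dvd_mul_left _ _))

/-- quotients of Jacobi forms are Nash along Nash sections -/
theorem Box.jn_ext {g : ℕ} (B : Box g) (hg : 0 < g) {ι : Type} [Fintype ι] [DecidableEq ι]
    {M α β n : ℕ} (hM : M ≠ 0) {F G : PP ι g → ℂ} (hF : JF M α β (idm n) F)
    (hG : JF M α β (idm n) G) {X : Type} [NormedAddCommGroup X] [NormedSpace ℂ X]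
    [FiniteDimensional ℂ X] {x : X → DD g} {z : X → XX ι g} {p : X} (hx : B.NB x p)
    (hz : ∀ l, B.NS x (fun e => z e l) p) (h0 : G (B.ψ (x p), z p) ≠ 0) :
    NashAt (fun e => F (B.ψ (x e), z e) / G (B.ψ (x e), z e)) p := by
  have hb := hx.2.2
  choose j₀ hj using fun l => B.exists_ne hb (z p l)
  choose js σ w hw wa σa _ h1 h2 using fun l => B.emb_chart hb (z p l) (hj l)
  let Y : X → DD g × (ι × Fin g → ℂ) := fun e => (x e, fun i => w i.1 (x e, z e i.1) i.2)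
  let r : ι → DD g × (ι × Fin g → ℂ) → DD g × EE g := fun l y => (y.1, fun a => y.2 (l, a))
  let S : DD g × (ι × Fin g → ℂ) → XX ι g := fun y l => σ l (r l y)
  have ra : ∀ l y, AnalyticAt ℂ (r l) y := fun l y =>
    analyticAt_fst.prod (analyticAt_pi_iff.2 fun a =>
      ((ContinuousLinearMap.proj (R := ℂ) (φ := fun _ : ι × Fin g => ℂ) (l, a)).analyticAt _).comp
        analyticAt_snd)
  have Sa : AnalyticAt ℂ S (Y p) := analyticAt_pi_iff.2 fun l =>
    AnalyticAt.comp (f := r l) (x := Y p) (σa l) (ra l _)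
  have xz : ∀ l, AnalyticAt ℂ (fun e => (x e, z e l)) p := fun l => hx.1.prod (hz l).1
  have Ya : AnalyticAt ℂ Y p := hx.1.prod (analyticAt_pi_iff.2 fun i =>
    analyticAt_pi_iff.1 (AnalyticAt.comp (f := fun e => (x e, z e i.1)) (x := p) (wa i.1) (xz i.1))
      i.2)
  have hS : ∀ᶠ e in 𝓝 p, S (Y e) = z e :=
    (eventually_all.2 fun l => (xz l).continuousAt.eventually (h1 l)).mono fun e he => funext he
  have hG' := xbext_jf B hG j₀
  have hne : G (B.ψ (Y p).1, S (Y p)) * ∏ l, B.φ (j₀ l) (B.ψ (Y p).1) (S (Y p) l) ≠ 0 := by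
    rw [hS.self_of_nhds]
    exact mul_ne_zero h0 (Finset.prod_ne_zero_iff.2 fun l _ => hj l)
  have hev : ∀ᶠ y in 𝓝 (Y p), G (B.ψ y.1, S y) * ∏ l, B.φ (j₀ l) (B.ψ y.1) (S y l) ≠ 0 :=
    (AnalyticAt.comp (f := fun y : DD g × (ι × Fin g → ℂ) => (B.ψ y.1, S y)) (x := Y p)
      (hG'.jh.an (B.ψ (x p), S (Y p)) (B.sieg hb).2)
      ((AnalyticAt.comp (f := Prod.fst) (x := Y p) (B.ψ_an hb) analyticAt_fst).prod
        Sa)).continuousAt.eventually_ne hne
  have key := B.jn_chart hg (mul_ne_zero hM (mul_ne_zero two_ne_zero (pow_ne_zero 2 B.hN)))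
    (κ := ι × Fin g) (by rw [Fintype.card_prod, Fintype.card_fin]) hG'
    (fun i => xbext_jf B hG (update j₀ i.1 (js i.1 i.2))) (xbext_jf B hF j₀) (y := Y p) hb Sa hne
    (by
      filter_upwards [hev, eventually_all.2 fun l =>
        (ra l (Y p)).continuousAt.eventually (h2 l)] with y h3 h4 i
      rw [← congrFun (h4 i.1) i.2, hw, ← Finset.mul_prod_erase _ _ (Finset.mem_univ i.1),
        mul_div_mul_left _ _ (left_ne_zero_of_mul h3),
        ← Finset.mul_prod_erase _ _ (Finset.mem_univ i.1), update_self,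
        Finset.prod_congr rfl fun l hl => by rw [update_of_ne (Finset.ne_of_mem_erase hl)]]
      exact mul_div_mul_right _ _ (Finset.prod_ne_zero_iff.2 fun l _ =>
        Finset.prod_ne_zero_iff.1 (right_ne_zero_of_mul h3) l (Finset.mem_univ l)))
  refine (key.comp Ya (nash_pair (nash_pi hx.2.1) (nash_pi fun i => ?_))).congr ?_
  · simp only [hw]
    exact (hz i.1).2 _ _ (hj i.1)
  · filter_upwards [hS, Ya.continuousAt.eventually hev] with e h3 h4
    rw [← h3]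
    exact mul_div_mul_right _ _ (right_ne_zero_of_mul h4)

end Pool.Agent.MP_cf0a82_ag

end
end

section

open Complex Filter Topology Matrix Function

noncomputable section

namespace Pool.Agent.MP_cf0a82_ag

open Pool.Agent.MP_f58063_ag

variable {g : ℕ} {B : Box g} {X : Type} [NormedAddCommGroup X] [NormedSpace ℂ X]
  [FiniteDimensional ℂ X] {x : X → DD g} {z z' : X → EE g} {p : X}

theorem Box.NB.eventually (h : B.NB x p) : ∀ᶠ e in 𝓝 p, B.NB x e := by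
  have h1 := h.1.eventually_analyticAt
  have h2 : ∀ᶠ e in 𝓝 p, ∀ i, NashAt (fun e => x e i) e :=
    eventually_all.2 fun i => nash_ev (h.2.1 i)
  have h3 : ∀ᶠ e in 𝓝 p, x e ∈ B.ball :=
    h.1.continuousAt.eventually (B.isOpen_ball.mem_nhds h.2.2)
  filter_upwards [h1, h2, h3] with e a b c
  exact ⟨a, b, c⟩

theorem Box.NB.fst {Z : Type} [NormedAddCommGroup Z] [NormedSpace ℂ Z] {q : DD g × Z}
    (h : q.1 ∈ B.ball) : B.NB Prod.fst q :=
  ⟨analyticAt_fst, fun i => NashAt.clm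
    ((ContinuousLinearMap.proj i).comp (ContinuousLinearMap.fst ℂ (DD g) Z)) q, h⟩

theorem Box.NB.comp {Y : Type} [NormedAddCommGroup Y] [NormedSpace ℂ Y] [FiniteDimensional ℂ Y]
    {f : Y → X} {y : Y} (h : B.NB x (f y)) (hf : AnalyticAt ℂ f y)
    (hN : ∀ l : X →L[ℂ] ℂ, NashAt (fun e => l (f e)) y) : B.NB (fun e => x (f e)) y :=
  ⟨AnalyticAt.comp (f := f) h.1 hf, fun i => (h.2.1 i).comp hf hN, h.2.2⟩

theorem Box.NS.comp {Y : Type} [NormedAddCommGroup Y] [NormedSpace ℂ Y] [FiniteDimensional ℂ Y]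
    {f : Y → X} {y : Y} (h : B.NS x z (f y)) (hf : AnalyticAt ℂ f y)
    (hN : ∀ l : X →L[ℂ] ℂ, NashAt (fun e => l (f e)) y) :
    B.NS (fun e => x (f e)) (fun e => z (f e)) y :=
  ⟨AnalyticAt.comp (f := f) h.1 hf, fun j j₀ h0 => (h.2 j j₀ h0).comp hf hN⟩

omit [FiniteDimensional ℂ X] in
lemma xbns_an (hz : AnalyticAt ℂ z p) (hx : B.NB x p) (j : Fin B.nJ) :
    AnalyticAt ℂ (fun e => B.φ j (B.ψ (x e)) (z e)) p := by
  have h1 : AnalyticAt ℂ (fun e => (B.ψ (x e), z e)) p :=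
    (AnalyticAt.comp (f := x) (B.ψ_an hx.2.2) hx.1).prod hz
  exact AnalyticAt.comp (f := fun e => (B.ψ (x e), z e))
    (B.φ_an j (Siegel_sub (B.sieg hx.2.2)) (z p)) h1

omit [FiniteDimensional ℂ X] in
lemma xbns_ev (hz : AnalyticAt ℂ z p) (hx : B.NB x p) {j : Fin B.nJ}
    (h0 : B.φ j (B.ψ (x p)) (z p) ≠ 0) : ∀ᶠ e in 𝓝 p, B.φ j (B.ψ (x e)) (z e) ≠ 0 :=
  (xbns_an hz hx j).continuousAt.eventually_ne h0

theorem Box.NS.of_one (hz : AnalyticAt ℂ z p) (hx : B.NB x p) {j₀ : Fin B.nJ}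
    (h0 : B.φ j₀ (B.ψ (x p)) (z p) ≠ 0)
    (h : ∀ j, NashAt (fun e => B.φ j (B.ψ (x e)) (z e) / B.φ j₀ (B.ψ (x e)) (z e)) p) :
    B.NS x z p := by
  refine ⟨hz, fun j j₁ h1 => (nash_div (h j) (h j₁) (div_ne_zero h1 h0)).congr ?_⟩
  filter_upwards [xbns_ev hz hx h0] with e he
  exact div_div_div_cancel_right₀ he _ _

theorem Box.NS.eventually (h : B.NS x z p) (hx : B.NB x p) : ∀ᶠ e in 𝓝 p, B.NS x z e := by
  obtain ⟨j₀, h0⟩ := B.exists_ne hx.2.2 (z p)
  have h2 : ∀ᶠ e in 𝓝 p, ∀ j,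
      NashAt (fun e => B.φ j (B.ψ (x e)) (z e) / B.φ j₀ (B.ψ (x e)) (z e)) e :=
    eventually_all.2 fun j => nash_ev (h.2 j j₀ h0)
  filter_upwards [h.1.eventually_analyticAt, hx.eventually, xbns_ev h.1 hx h0, h2] with e a b c d
  exact Box.NS.of_one a b c d

lemma xbns_M (B : Box g) : 2 * B.N ^ 2 ≠ 0 := mul_ne_zero two_ne_zero (pow_ne_zero _ B.hN)

lemma xbns_J0 (B : Box g) (j : Fin B.nJ) :
    JF (2 * B.N ^ 2) 3 0 (idm 0) fun q : PP Empty g => B.φ j q.1 0 := by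
  have h := JF_tp (ι := Empty) B.hN (B.ht j) 0
  have e1 : (fun l l' : Empty => 3 * ((0 : Empty → ℤ) l * (0 : Empty → ℤ) l')) = idm 0 := by
    funext l
    exact l.elim
  have e2 : lc (0 : Empty → ℤ) (tp (B.tc j)) = fun q : PP Empty g => B.φ j q.1 0 := by
    funext q
    simp [lc, Box.φ]
  rw [e1, e2] at h
  exact h

theorem Box.NS.zero (hg : 0 < g) (hx : B.NB x p) : B.NS x (fun _ => 0) p :=
  ⟨analyticAt_const, fun j j₀ h0 =>
    B.jn_ext hg (xbns_M B) (xbns_J0 B j) (xbns_J0 B j₀) (z := fun _ l => l.elim) hx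
      (fun l => l.elim) h0⟩

lemma xbns_J2 (B : Box g) (j k : Fin B.nJ) :
    JF (2 * B.N ^ 2) 6 0 (idm 6) fun q : PP (Fin 2) g =>
      B.φ j q.1 (q.2 0 + q.2 1) * B.φ k q.1 (q.2 0 - q.2 1) := by
  have h := (JF_tp (ι := Fin 2) B.hN (B.ht j) ![1, 1]).mul
    (JF_tp (ι := Fin 2) B.hN (B.ht k) ![1, -1])
  have e1 : ((fun l l' : Fin 2 => 3 * ((![1, 1] : Fin 2 → ℤ) l * (![1, 1] : Fin 2 → ℤ) l')) +
      fun l l' : Fin 2 => 3 * ((![1, -1] : Fin 2 → ℤ) l * (![1, -1] : Fin 2 → ℤ) l')) =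
      idm 6 := by
    funext l l'
    fin_cases l <;> fin_cases l' <;> simp [idm]
  have e2 : (fun q : PP (Fin 2) g => lc ![1, 1] (tp (B.tc j)) q * lc ![1, -1] (tp (B.tc k)) q) =
      fun q : PP (Fin 2) g =>
        B.φ j q.1 (q.2 0 + q.2 1) * B.φ k q.1 (q.2 0 - q.2 1) := by
    funext q
    simp [lc, Box.φ, sub_eq_add_neg]
  rw [e1, e2] at h
  exact h

theorem Box.NS.add (hg : 0 < g) (hx : B.NB x p) (h : B.NS x z p) (h' : B.NS x z' p) :
    B.NS x (fun e => z e + z' e) p := by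
  refine ⟨h.1.add h'.1, fun j j₀ h0 => ?_⟩
  obtain ⟨k, hk⟩ := B.exists_ne hx.2.2 (z p - z' p)
  have h1 := B.jn_ext hg (xbns_M B) (xbns_J2 B j k) (xbns_J2 B j₀ k)
    (z := fun e => ![z e, z' e]) hx (fun l => by
      fin_cases l
      · exact h
      · exact h') (mul_ne_zero h0 hk)
  refine h1.congr ?_
  filter_upwards [xbns_ev (z := fun e => z e - z' e) (h.1.sub h'.1) hx hk] with e he
  exact mul_div_mul_right _ _ he

theorem Box.NS.sum (hg : 0 < g) (hx : B.NB x p) {κ : Type} (s : Finset κ) {w : κ → X → EE g}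
    (h : ∀ i ∈ s, B.NS x (w i) p) : B.NS x (fun e => ∑ i ∈ s, w i e) p := by
  classical
  induction s using Finset.induction_on with
  | empty => simpa using Box.NS.zero hg hx
  | insert a s ha ih =>
    simp only [Finset.sum_insert ha]
    exact Box.NS.add hg hx (h a (Finset.mem_insert_self a s))
      (ih fun i hi => h i (Finset.mem_insert_of_mem hi))

end Pool.Agent.MP_cf0a82_ag

end
end

section

open Complex Filter Topology Matrix Function

noncomputable section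

namespace Pool.Agent.MP_cf0a82_ag

open Pool.Agent.MP_f58063_ag

theorem xbatle_inj {X Z : Type} [NormedAddCommGroup X] [NormedSpace ℂ X] [NormedAddCommGroup Z]
    [NormedSpace ℂ Z] {σ w : X × Z → Z} {y : X × Z} (hσ : AnalyticAt ℂ σ y)
    (hw : AnalyticAt ℂ w (y.1, σ y)) (h : ∀ᶠ y' in 𝓝 y, w (y'.1, σ y') = y'.2) (v : Z)
    (hv : fderiv ℂ σ y (0, v) = 0) : v = 0 := by
  have h1 : HasFDerivAt (fun y' : X × Z => w (y'.1, σ y'))
      ((fderiv ℂ w (y.1, σ y)).comp ((ContinuousLinearMap.fst ℂ X Z).prod (fderiv ℂ σ y))) y :=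
    HasFDerivAt.comp (f := fun y' : X × Z => (y'.1, σ y')) y hw.differentiableAt.hasFDerivAt
      (hasFDerivAt_fst.prodMk hσ.differentiableAt.hasFDerivAt)
  have h2 : HasFDerivAt (fun y' : X × Z => w (y'.1, σ y')) (ContinuousLinearMap.snd ℂ X Z) y :=
    hasFDerivAt_snd.congr_of_eventuallyEq h
  have h3 := congrArg (fun L : X × Z →L[ℂ] Z => L (0, v)) (h2.unique h1)
  simp only [ContinuousLinearMap.coe_snd', ContinuousLinearMap.comp_apply,
    ContinuousLinearMap.prod_apply, ContinuousLinearMap.coe_fst', hv] at h3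
  rw [h3]
  exact map_zero _

theorem xbatle_loc {g : ℕ} (hg : 0 < g) (B : Box g) {q : DD g × EE g} (hq : q.1 ∈ B.ball) :
    ∃ (O : Set (DD g × EE g)) (σ w : DD g × EE g → EE g) (j : Fin B.nJ) (W : Set (DD g × EE g)),
      IsOpen O ∧ (∀ y ∈ O, y.1 ∈ B.ball ∧ B.NS Prod.fst σ y ∧ B.φ j (B.ψ y.1) (σ y) ≠ 0 ∧
        ∀ v, fderiv ℂ σ y (0, v) = 0 → v = 0) ∧ W ∈ 𝓝 q ∧
      ∀ y ∈ W, AnalyticAt ℂ w y ∧ (y.1, w y) ∈ O ∧ ∀ᶠ y' in 𝓝 y, σ (y'.1, w y') = y'.2 := by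
  obtain ⟨x, z⟩ := q
  obtain ⟨j, hj⟩ := B.exists_ne hq z
  obtain ⟨js, σ, w, hw, hwa, hσa, -, h1, h2⟩ := B.emb_chart hq z hj
  have hz : σ (x, w (x, z)) = z := h1.self_of_nhds
  have c1 : Tendsto (fun y : DD g × EE g => (y.1, σ y)) (𝓝 (x, w (x, z))) (𝓝 (x, z)) := by
    have := (continuousAt_fst.prodMk hσa.continuousAt).tendsto
    rwa [hz] at this
  have c2 : ContinuousAt (fun y : DD g × EE g => B.φ j (B.ψ y.1) y.2) (x, z) :=
    ContinuousAt.comp (f := fun y : DD g × EE g => (B.ψ y.1, y.2)) (x := (x, z))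
      (B.embΦ.an _ ⟨x, hq, rfl⟩ z j).continuousAt
      ((ContinuousAt.comp (f := Prod.fst) (x := (x, z)) (B.ψ_an hq).continuousAt
        continuousAt_fst).prodMk continuousAt_snd)
  have e1 : ∀ᶠ y in 𝓝 (x, w (x, z)), y.1 ∈ B.ball :=
    continuousAt_fst.tendsto.eventually (B.isOpen_ball.mem_nhds hq)
  have e2 := c1.eventually (c2.eventually_ne hj)
  have e3 := c1.eventually hwa.eventually_analyticAt
  have e4 : ∀ᶠ y in 𝓝 (x, w (x, z)), y.1 ∈ B.ball ∧ B.NS Prod.fst σ y ∧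
      B.φ j (B.ψ y.1) (σ y) ≠ 0 ∧ ∀ v, fderiv ℂ σ y (0, v) = 0 → v = 0 := by
    filter_upwards [e1, e2, e3, hσa.eventually_analyticAt, h2.eventually_nhds] with y a1 a2 a3 a4 a5
    refine ⟨a1, Box.NS.of_one a4 (Box.NB.fst a1) a2 fun j' => ?_, a2, xbatle_inj a4 a3 a5⟩
    refine B.jn_chart hg (ι := Unit) (κ := Fin g) (mul_ne_zero two_ne_zero (pow_ne_zero 2 B.hN))
      (by simp) (B.JF_φ j) (fun i => B.JF_φ (js i)) (B.JF_φ j') (σ := fun y _ => σ y) a1
      (AnalyticAt.pi fun _ => a4) a2 ?_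
    filter_upwards [a5] with y' hy' i
    rw [← hy']
    exact (hw (y'.1, σ y') i).symm
  obtain ⟨O, hO, hop, hm⟩ := eventually_nhds_iff.1 e4
  have c3 : Tendsto (fun y : DD g × EE g => (y.1, w y)) (𝓝 (x, z)) (𝓝 (x, w (x, z))) :=
    (continuousAt_fst.prodMk hwa.continuousAt).tendsto
  exact ⟨O, σ, w, j, _, hop, hO, hwa.eventually_analyticAt.and
    ((c3.eventually (hop.mem_nhds hm)).and h1.eventually_nhds), fun _ h => h⟩

theorem atl_exists {g : ℕ} (hg : 0 < g) (B : Box g) : Nonempty (Atl B) := by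
  choose O σ w j W hop hO hW hc using
    fun q : {q : DD g × EE g // q.1 ∈ B.ball} => xbatle_loc hg B q.2
  obtain ⟨s, hs, hu⟩ := TopologicalSpace.countable_cover_nhds
    (f := fun q : {q : DD g × EE g // q.1 ∈ B.ball} => Subtype.val ⁻¹' W q)
    fun q => continuous_subtype_val.continuousAt.preimage_mem_nhds (hW q)
  have hm : ∀ q : {q : DD g × EE g // q.1 ∈ B.ball}, ∃ p ∈ s, q.1 ∈ W p := fun q => by
    simpa using hu.ge (Set.mem_univ q)
  obtain ⟨p₀, hp₀, -⟩ := hm ⟨(B.x₀, 0), Metric.mem_ball_self B.hr⟩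
  obtain ⟨f, rfl⟩ := hs.exists_eq_range ⟨p₀, hp₀⟩
  refine ⟨⟨fun a => O (f a), fun a => σ (f a), fun a => j (f a), fun a => hop _,
    fun a y hy => (hO _ y hy).1, fun a y hy => (hO _ y hy).2.1, fun a y hy => (hO _ y hy).2.2.1,
    fun a y hy => (hO _ y hy).2.2.2, fun x hx z => ?_⟩⟩
  obtain ⟨_, ⟨a, rfl⟩, ha⟩ := hm ⟨(x, z), hx⟩
  obtain ⟨h1, h2, h3⟩ := hc _ _ ha
  refine ⟨a, fun z' => w (f a) (x, z'), ?_, h2, ?_⟩
  · exact AnalyticAt.comp (f := fun z' : EE g => (x, z')) h1 (analyticAt_const.prod analyticAt_id)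
  · exact (Continuous.prodMk_right x).continuousAt.tendsto.eventually h3

end Pool.Agent.MP_cf0a82_ag

end
end
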