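import Pool.Agent.Mg.Fcf0a82q.G67c0ca
import Pool.Agent.Mg.Fcf0a82q.G446bd4
import Pool.Agent.Mg.Fcf0a82q.G7c9b0d
import Pool.Agent.Mg.Fcf0a82q.G3d2c3a

section

open Complex Filter Topology Matrix Function

noncomputable section

namespace Pool.Agent.MP_cf0a82_ag

open Pool.Agent.MP_f58063_ag

variable {X Y : Type} [NormedAddCommGroup X] [NormedSpace ℂ X] [CompleteSpace X]
  [NormedAddCommGroup Y] [NormedSpace ℂ Y]

theorem xecntb_gen {ι : Type} [Countable ι] {f : ι → X → Y} {U : Set X} (hU : IsOpen U)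
    (hne : U.Nonempty) (hf : ∀ a, ContinuousOn (f a) U) :
    ∃ x ∈ U, ∀ a, f a x = 0 → ∀ᶠ y in 𝓝 x, f a y = 0 := by
  have key : ∀ a, {x | x ∈ U → f a x = 0 → ∀ᶠ y in 𝓝 x, f a y = 0} ∈ residual X := by
    intro a
    have ho : IsOpen (U ∩ f a ⁻¹' {0}ᶜ ∪ interior {y | f a y = 0} ∪ (closure U)ᶜ) :=
      (((hf a).isOpen_inter_preimage hU isOpen_compl_singleton).union isOpen_interior).union
        isClosed_closure.isOpen_compl
    have hd : Dense (U ∩ f a ⁻¹' {0}ᶜ ∪ interior {y | f a y = 0} ∪ (closure U)ᶜ) := by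
      rw [dense_iff_inter_open]
      intro V hV ⟨u, hu⟩
      by_cases hVU : (V ∩ U).Nonempty
      · by_contra hcon
        obtain ⟨y, hyV, hyU⟩ := hVU
        refine hcon ⟨y, hyV, Or.inl (Or.inr (mem_interior_iff_mem_nhds.2 ?_))⟩
        filter_upwards [(hV.inter hU).mem_nhds ⟨hyV, hyU⟩] with z hz
        by_contra hz0
        exact hcon ⟨z, hz.1, Or.inl (Or.inl ⟨hz.2, hz0⟩)⟩
      · exact ⟨u, hu, Or.inr fun hcl => hVU (mem_closure_iff.1 hcl V hV hu)⟩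
    filter_upwards [residual_of_dense_open ho hd] with x hx hxU h0
    rcases hx with (hx | hx) | hx
    · exact absurd h0 hx.2
    · exact mem_interior_iff_mem_nhds.1 hx
    · exact absurd (subset_closure hxU) hx
  obtain ⟨x, hxU, hx⟩ :=
    (dense_of_mem_residual (countable_iInter_mem.2 key)).inter_open_nonempty _ hU hne
  exact ⟨x, hxU, fun a => Set.mem_iInter.1 hx a hxU⟩

theorem cntb {ι : Type} [Countable ι] {f : ι → X → Y} {U : Set X} (hU : IsOpen U)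
    (hc : IsPreconnected U) (hne : U.Nonempty) (hf : ∀ a, AnalyticOnNhd ℂ (f a) U)
    (h : ∀ x ∈ U, ∃ a, f a x = 0) : ∃ a, ∀ x ∈ U, f a x = 0 := by
  obtain ⟨x, hx, h1⟩ := xecntb_gen hU hne fun a => (hf a).continuousOn
  obtain ⟨a, ha⟩ := h x hx
  exact ⟨a, (hf a).eqOn_zero_of_preconnected_of_eventuallyEq_zero hc hx (h1 a ha)⟩

/-- a point that is generic for countably many vector valued functions -/
theorem generic_vec {ι : Type} [Countable ι] {f : ι → X → Y} {U : Set X} (hU : IsOpen U)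
    (hne : U.Nonempty) (hf : ∀ a, AnalyticOnNhd ℂ (f a) U) :
    ∃ x ∈ U, ∀ a, f a x = 0 → ∀ᶠ y in 𝓝 x, f a y = 0 := by
  exact xecntb_gen hU hne fun a => (hf a).continuousOn

theorem xecntb_loc {ι : Type} [Countable ι] {f : ι → X → Y} {x₁ : X}
    (hf : ∀ᶠ x in 𝓝 x₁, ∀ a, AnalyticAt ℂ (f a) x) (h : ∀ᶠ x in 𝓝 x₁, ∃ a, f a x = 0) :
    ∃ a, ∀ᶠ x in 𝓝 x₁, f a x = 0 := by
  obtain ⟨r, hr, hb⟩ := Metric.eventually_nhds_iff_ball.1 (hf.and h)
  obtain ⟨a, ha⟩ := cntb (f := f) Metric.isOpen_ball (convex_ball x₁ r).isPreconnected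
    ⟨x₁, Metric.mem_ball_self hr⟩ (fun a x hx => (hb x hx).1 a) fun x hx => (hb x hx).2
  exact ⟨a, Metric.eventually_nhds_iff_ball.2 ⟨r, hr, ha⟩⟩

omit [CompleteSpace X] in
theorem xecntb_per {g : ℕ} {τ : X → Mat g} {x : X} (hτ : AnalyticAt ℂ τ x) (m l : Fin g → ℤ) :
    AnalyticAt ℂ (fun x => per (τ x) m l) x :=
  AnalyticAt.pi fun i => analyticAt_const.add (Finset.analyticAt_fun_sum _ fun j _ =>
    (analyticAt_pi_iff.1 (analyticAt_pi_iff.1 hτ i) j).mul analyticAt_const)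

variable {g n : ℕ} {τ : X → Mat g} {x₁ : X}

theorem lat_const (hτ : AnalyticAt ℂ τ x₁) {w : X → EE g} (hw : AnalyticAt ℂ w x₁)
    (h : ∀ᶠ x in 𝓝 x₁, w x ∈ lattice (τ x)) :
    ∃ m l, ∀ᶠ x in 𝓝 x₁, w x = per (τ x) m l := by
  obtain ⟨a, ha⟩ := xecntb_loc (x₁ := x₁)
    (f := fun (a : (Fin g → ℤ) × (Fin g → ℤ)) x => w x - per (τ x) a.1 a.2) (by
      filter_upwards [hτ.eventually_analyticAt, hw.eventually_analyticAt] with x h1 h2 a
      exact h2.sub (xecntb_per h1 _ _)) (by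
      filter_upwards [h] with x hx
      obtain ⟨m, l, e⟩ := mem_lattice.1 hx
      exact ⟨(m, l), sub_eq_zero.2 e⟩)
  exact ⟨a.1, a.2, ha.mono fun x hx => sub_eq_zero.1 hx⟩

/-- two systems of branches differ by a permutation and by constant periods -/
theorem uni (hτ : AnalyticAt ℂ τ x₁) {p p' : X → Fin n → EE g} (hp : AnalyticAt ℂ p x₁)
    (hp' : AnalyticAt ℂ p' x₁) (h : ∀ᶠ x in 𝓝 x₁, CEq (τ x) (p x) (p' x)) :
    ∃ (σ : Equiv.Perm (Fin n)) (m l : Fin n → Fin g → ℤ),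
      ∀ᶠ x in 𝓝 x₁, ∀ i, p' x (σ i) = p x i + per (τ x) (m i) (l i) := by
  obtain ⟨a, ha⟩ := xecntb_loc (x₁ := x₁)
    (f := fun (a : Equiv.Perm (Fin n) × (Fin n → Fin g → ℤ) × (Fin n → Fin g → ℤ)) x i =>
      p' x (a.1 i) - (p x i + per (τ x) (a.2.1 i) (a.2.2 i))) (by
      filter_upwards [hτ.eventually_analyticAt, hp.eventually_analyticAt,
        hp'.eventually_analyticAt] with x h1 h2 h3 a
      exact AnalyticAt.pi fun i => (analyticAt_pi_iff.1 h3 _).sub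
        ((analyticAt_pi_iff.1 h2 _).add (xecntb_per h1 _ _))) (by
      filter_upwards [h] with x hx
      obtain ⟨σ, hσ⟩ := hx
      choose m l e using hσ
      exact ⟨(σ, m, l), funext fun i => sub_eq_zero.2 (e i)⟩)
  exact ⟨a.1, a.2.1, a.2.2, ha.mono fun x hx i => sub_eq_zero.1 (congrFun hx i)⟩

end Pool.Agent.MP_cf0a82_ag

end
end

section

open Complex Filter Topology Matrix Function

noncomputable section

namespace Pool.Agent.MP_cf0a82_ag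

open Pool.Agent.MP_f58063_ag

variable {J : Type} [Fintype J] {n g : ℕ} {Ω : Set (Mat g)} {Φ : Mat g → EE g → J → ℂ}

/-- linear forms in general position -/
theorem gen_forms {L : EE g →ₗ[ℂ] (J → ℂ)} (hL : Injective L) {κ : Type} [Finite κ]
    {w : κ → J → ℂ} (hw : ∀ i, w i ≠ 0) :
    ∃ u : Fin g → J → ℂ, (∀ a i, u a ⬝ᵥ w i ≠ 0) ∧ ∀ v, (∀ a, u a ⬝ᵥ L v = 0) → v = 0 := by
  classical
  obtain ⟨G, hG⟩ := L.exists_leftInverse_of_injective (LinearMap.ker_eq_bot.2 hL)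
  obtain ⟨v₀, hv₀⟩ := prod_ne hw
  let u₀ : Fin g → J → ℂ := fun a j => G (Pi.single j 1) a
  have hu₀ : ∀ a y, u₀ a ⬝ᵥ y = G y a := fun a y => by
    conv_rhs => rw [pi_eq_sum_univ' y, map_sum, Finset.sum_apply]
    refine Finset.sum_congr rfl fun j _ => ?_
    rw [map_smul, Pi.smul_apply, smul_eq_mul, mul_comm]
  obtain ⟨t, ht⟩ := ((Set.finite_range fun p : Fin g × κ =>
    -(u₀ p.1 ⬝ᵥ w p.2) / (v₀ ⬝ᵥ w p.2)).insert (-1 / (v₀ ⬝ᵥ L fun _ => 1))).exists_notMem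
  rw [Set.mem_insert_iff, not_or] at ht
  refine ⟨fun a => u₀ a + t • v₀, fun a i h => ht.2 ⟨(a, i), ?_⟩, fun v h => ?_⟩
  · rw [add_dotProduct, smul_dotProduct, smul_eq_mul] at h
    rw [div_eq_iff (hv₀ i)]
    linear_combination -h
  · have h1 : v = (-t * (v₀ ⬝ᵥ L v)) • fun _ => (1 : ℂ) := funext fun a => by
      have h2 := h a
      have h3 : G (L v) = v := LinearMap.congr_fun hG v
      rw [add_dotProduct, smul_dotProduct, smul_eq_mul, hu₀, h3] at h2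
      rw [Pi.smul_apply, smul_eq_mul]
      linear_combination h2
    have h2 := congrArg (fun y => v₀ ⬝ᵥ L y) h1
    simp only [map_smul, dotProduct_smul, smul_eq_mul] at h2
    have h3 : 1 + t * (v₀ ⬝ᵥ L fun _ => 1) ≠ 0 := fun h3 => by
      have h4 : (v₀ ⬝ᵥ L fun _ => 1) ≠ 0 := fun h4 => by simp [h4] at h3
      refine ht.1 ?_
      rw [eq_div_iff h4]
      linear_combination h3
    have h4 : v₀ ⬝ᵥ L v = 0 := (mul_eq_zero.1 (by linear_combination h2 :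
      (v₀ ⬝ᵥ L v) * (1 + t * (v₀ ⬝ᵥ L fun _ => 1)) = 0)).resolve_right h3
    rw [h1, h4, mul_zero, zero_smul]

lemma xecand_an (hE : Emb Ω Φ) {Y : Type} [NormedAddCommGroup Y] [NormedSpace ℂ Y]
    {τ : Y → Mat g} {z : Y → EE g} {y : Y} (hτ : AnalyticAt ℂ τ y) (hz : AnalyticAt ℂ z y)
    (h : τ y ∈ Ω) (u : J → ℂ) : AnalyticAt ℂ (fun y => u ⬝ᵥ Φ (τ y) (z y)) y :=
  Finset.analyticAt_fun_sum _ fun j _ => analyticAt_const.mul
    ((hE.an _ h (z y) j).comp (f := fun y => (τ y, z y)) (hτ.prod hz))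

/-- the differential of the embedding -/
def xecandD (Φ : Mat g → EE g → J → ℂ) (τ : Mat g) (z : EE g) : EE g →ₗ[ℂ] (J → ℂ) :=
  LinearMap.pi fun j => (fderiv ℂ (fun z => Φ τ z j) z).toLinearMap

lemma xecand_fd (hE : Emb Ω Φ) {τ : Mat g} (h : τ ∈ Ω) (z ξ : EE g) (u : J → ℂ) :
    fderiv ℂ (fun z => u ⬝ᵥ Φ τ z) z ξ = u ⬝ᵥ xecandD Φ τ z ξ := by
  have h1 : HasFDerivAt (fun z => ∑ j, u j * Φ τ z j)
      (∑ j, u j • fderiv ℂ (fun z => Φ τ z j) z) z :=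
    HasFDerivAt.fun_sum fun j _ => ((hE.an _ h z j).comp (f := fun z => (τ, z))
      (analyticAt_const.prod analyticAt_id)).differentiableAt.hasFDerivAt.const_mul (u j)
  refine (congrArg (fun f => f ξ) h1.fderiv).trans ?_
  simp [xecandD, dotProduct]

/-- the form in the pencil spanned by `u` and `v` that vanishes at `w` -/
def xecandU (u v w : J → ℂ) : J → ℂ := (v ⬝ᵥ w) • u - (u ⬝ᵥ w) • v

lemma xecand_dot (u v w w' : J → ℂ) :
    xecandU u v w ⬝ᵥ w' = (v ⬝ᵥ w) * (u ⬝ᵥ w') - (u ⬝ᵥ w) * (v ⬝ᵥ w') := by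
  rw [xecandU, sub_dotProduct, smul_dotProduct, smul_dotProduct, smul_eq_mul, smul_eq_mul]

omit [Fintype J] in
lemma xecand_prop (hE : Emb Ω Φ) {τ : Mat g} (h : τ ∈ Ω) {z z' : EE g}
    (hz : z - z' ∈ lattice τ) : ∃ a : ℂ, Φ τ z' = a • Φ τ z := by
  obtain ⟨m, l, e⟩ := mem_lattice.1 hz
  obtain ⟨κ, hκ, h1⟩ := hE.qp τ h m l z'
  refine ⟨κ⁻¹, ?_⟩
  rw [← e, add_sub_cancel] at h1
  rw [h1, inv_smul_smul₀ hκ]

open Classical in
lemma xecand_mlt (τ : Mat g) (q : Fin n → EE g) (z : EE g) :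
    mlt τ q z = (Finset.univ.filter fun i => z - q i ∈ lattice τ).card := by
  rw [mlt, ← Set.ncard_coe_finset]
  congr 1
  ext i
  simp

lemma xecand_zero (hE : Emb Ω Φ) {τ : Mat g} (h : τ ∈ Ω) {c : Tn J n} {q : Fin n → EE g}
    (hq : Cy Φ τ c q) {z : EE g} {m : ℕ} (hm : m < mlt τ q z) (u v : J → ℂ) :
    (Cp c (xecandU u v (Φ τ z)) v).coeff m = 0 := by
  classical
  obtain ⟨κ, -, h1⟩ := hq
  rw [xecand_mlt] at hm
  rw [Cp_of_ch h1, Polynomial.coeff_C_mul, coeff_prod_zero _ (fun j hj => ?_) hm, mul_zero]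
  obtain ⟨a, ha⟩ := xecand_prop hE h (Finset.mem_filter.1 hj).2
  rw [ha, dotProduct_smul, xecand_dot, mul_comm, sub_self, smul_zero]

lemma xecand_der (hE : Emb Ω Φ) {τ : Mat g} (h : τ ∈ Ω) {c : Tn J n} {q : Fin n → EE g}
    (hq : Cy Φ τ c q) {z : EE g} {m : ℕ} (hm : m + 1 = mlt τ q z) {u v : J → ℂ}
    (hv : ∀ j, v ⬝ᵥ Φ τ (q j) ≠ 0)
    (hu : ∀ j, z - q j ∉ lattice τ → xecandU u v (Φ τ z) ⬝ᵥ Φ τ (q j) ≠ 0) {ξ : EE g}
    (h0 : fderiv ℂ (fun z => (Cp c (xecandU u v (Φ τ z)) v).coeff m) z ξ = 0) :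
    xecandU u v (Φ τ z) ⬝ᵥ xecandD Φ τ z ξ = 0 := by
  classical
  obtain ⟨κ, hκ, h1⟩ := hq
  rw [xecand_mlt] at hm
  have han := fun y => xecand_an hE (τ := fun _ : EE g => τ) (z := fun z => z) (y := z)
    analyticAt_const analyticAt_id h y
  have hA : ∀ j, AnalyticAt ℂ (fun z => xecandU u v (Φ τ z) ⬝ᵥ Φ τ (q j)) z := fun j => by
    simp only [xecand_dot]
    exact ((han v).mul analyticAt_const).sub ((han u).mul analyticAt_const)
  have hA' : ∀ j, fderiv ℂ (fun z => xecandU u v (Φ τ z) ⬝ᵥ Φ τ (q j)) z ξ =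
      (v ⬝ᵥ xecandD Φ τ z ξ) * (u ⬝ᵥ Φ τ (q j)) -
        (u ⬝ᵥ xecandD Φ τ z ξ) * (v ⬝ᵥ Φ τ (q j)) := fun j => by
    simp only [xecand_dot]
    rw [(((han v).differentiableAt.hasFDerivAt.mul_const _).fun_sub
      ((han u).differentiableAt.hasFDerivAt.mul_const _)).fderiv]
    simp only [_root_.sub_apply, _root_.smul_apply, xecand_fd hE h, smul_eq_mul]
    ring
  set S := Finset.univ.filter fun i => z - q i ∈ lattice τ with hS
  have hz : ∀ j ∈ S, xecandU u v (Φ τ z) ⬝ᵥ Φ τ (q j) = 0 := fun j hj => by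
    obtain ⟨a, ha⟩ := xecand_prop hE h (Finset.mem_filter.1 hj).2
    rw [ha, dotProduct_smul, xecand_dot, mul_comm, sub_self, smul_zero]
  have h2 := coeff_prod_fderiv hA (fun j => v ⬝ᵥ Φ τ (q j)) S hz hm ξ
  have h3 : (fun z => (Cp c (xecandU u v (Φ τ z)) v).coeff m) = κ • fun z =>
      (∏ i, (Polynomial.C (xecandU u v (Φ τ z) ⬝ᵥ Φ τ (q i)) +
        Polynomial.C (v ⬝ᵥ Φ τ (q i)) * Polynomial.X)).coeff m := funext fun z => by
    rw [Cp_of_ch h1, Polynomial.coeff_C_mul]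
    rfl
  rw [h3, fderiv_const_smul_field, Pi.smul_apply, _root_.smul_apply, h2, smul_eq_mul,
    mul_eq_zero, mul_eq_zero] at h0
  have h4 := (h0.resolve_left hκ).resolve_right (Finset.prod_ne_zero_iff.2 fun j hj =>
    hu j fun e => Finset.mem_compl.1 hj (Finset.mem_filter.2 ⟨Finset.mem_univ _, e⟩))
  have h5 := congrArg (fun t => (v ⬝ᵥ Φ τ z) * t) h4
  simp only [Finset.mul_sum, mul_zero] at h5
  rw [Finset.sum_congr rfl (g := fun _ => -(xecandU u v (Φ τ z) ⬝ᵥ xecandD Φ τ z ξ) *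
    ∏ j ∈ S, v ⬝ᵥ Φ τ (q j)) fun j hj => ?_, Finset.sum_const, ← hm, nsmul_eq_mul,
    mul_eq_zero, mul_eq_zero, neg_eq_zero] at h5
  · exact (h5.resolve_left (Nat.cast_ne_zero.2 m.succ_ne_zero)).resolve_right
      (Finset.prod_ne_zero_iff.2 fun j _ => hv j)
  · obtain ⟨a, ha⟩ := xecand_prop hE h (Finset.mem_filter.1 hj).2
    rw [← Finset.mul_prod_erase S _ hj, hA', xecand_dot, ha, dotProduct_smul, dotProduct_smul,
      smul_eq_mul, smul_eq_mul]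
    ring

lemma xecand_swap (u v w w' : J → ℂ) :
    u ⬝ᵥ ((v ⬝ᵥ w) • w' - (v ⬝ᵥ w') • w) = xecandU u v w ⬝ᵥ w' := by
  rw [xecand_dot, dotProduct_sub, dotProduct_smul, dotProduct_smul, smul_eq_mul, smul_eq_mul]
  ring

/-- a holomorphic candidate for a point of the cycle whose multiplicity does not drop -/
theorem Emb.cand (hE : Emb Ω Φ) {X : Type} [NormedAddCommGroup X] [NormedSpace ℂ X]
    [FiniteDimensional ℂ X] {τ : X → Mat g} {c : X → Tn J n} {x₁ : X} (hτ : AnalyticAt ℂ τ x₁)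
    (hc : AnalyticAt ℂ c x₁) (hΩ : ∀ᶠ x in 𝓝 x₁, τ x ∈ Ω) {q : Fin n → EE g}
    (hq : Cy Φ (τ x₁) (c x₁) q) (i : Fin n) :
    ∃ (p : X → EE g) (ε : ℝ), 0 < ε ∧ AnalyticAt ℂ p x₁ ∧ ∀ᶠ x in 𝓝 x₁, ∀ q' z,
      Cy Φ (τ x) (c x) q' → ‖z - q i‖ < ε → mlt (τ x₁) q (q i) ≤ mlt (τ x) q' z → z = p x := by
  classical
  have h₁ := hΩ.self_of_nhds
  obtain ⟨v, hv⟩ := prod_ne fun j => hE.ne _ h₁ (q j)
  have hdiv : ∀ w : J → ℂ, (v ⬝ᵥ Φ (τ x₁) (q i)) • w - (v ⬝ᵥ w) • Φ (τ x₁) (q i) = 0 →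
      w = ((v ⬝ᵥ Φ (τ x₁) (q i))⁻¹ * (v ⬝ᵥ w)) • Φ (τ x₁) (q i) := fun w h => by
    rw [mul_smul, ← sub_eq_zero.1 h, inv_smul_smul₀ (hv i)]
  let L : EE g →ₗ[ℂ] (J → ℂ) :=
    { toFun := fun ξ => (v ⬝ᵥ Φ (τ x₁) (q i)) • xecandD Φ (τ x₁) (q i) ξ -
        (v ⬝ᵥ xecandD Φ (τ x₁) (q i) ξ) • Φ (τ x₁) (q i)
      map_add' := fun a b => by
        rw [map_add, dotProduct_add]
        module
      map_smul' := fun a b => by
        rw [map_smul, dotProduct_smul, smul_eq_mul, RingHom.id_apply]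
        module }
  have hL : Injective L := (injective_iff_map_eq_zero L).2 fun ξ h =>
    hE.imm _ h₁ (q i) ξ _ (congrFun (hdiv _ h))
  obtain ⟨u, hu, hu'⟩ := gen_forms hL (κ := {j // q i - q j ∉ lattice (τ x₁)})
    (w := fun j => (v ⬝ᵥ Φ (τ x₁) (q i)) • Φ (τ x₁) (q j) -
      (v ⬝ᵥ Φ (τ x₁) (q j)) • Φ (τ x₁) (q i)) fun j h => by
        obtain ⟨m, l, e⟩ := hE.inj _ h₁ _ _ _ (hdiv _ h)
        exact j.2 (mem_lattice.2 ⟨-m, -l, by rw [per_neg, e, sub_add_cancel_left]⟩)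
  obtain ⟨m, hm⟩ : ∃ m, m + 1 = mlt (τ x₁) q (q i) := by
    rw [xecand_mlt]
    refine ⟨_, Nat.succ_pred_eq_of_pos (Finset.card_pos.2 ⟨i, Finset.mem_filter.2
      ⟨Finset.mem_univ _, mem_lattice.2 ⟨0, 0, ?_⟩⟩⟩)⟩
    rw [per_zero, sub_self]
  let H : X × EE g → EE g := fun y a =>
    (Cp (c y.1) (xecandU (u a) v (Φ (τ y.1) y.2)) v).coeff m
  have hHa : ∀ a, AnalyticAt ℂ (fun y => H y a) (x₁, q i) := fun a => by
    have han := fun y => xecand_an hE (τ := fun y : X × EE g => τ y.1) (z := fun y => y.2)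
      (y := (x₁, q i)) (hτ.comp (f := Prod.fst) analyticAt_fst) analyticAt_snd h₁ y
    exact Cp_coeff_an (hc.comp (f := Prod.fst) analyticAt_fst)
      (((han v).smul analyticAt_const).sub ((han (u a)).smul analyticAt_const)) v m
  have hH : AnalyticAt ℂ H (x₁, q i) := analyticAt_pi_iff.2 hHa
  obtain ⟨p, hp, -, -, h⟩ := ift hH fun ξ h0 => hu' ξ fun a => by
    refine (xecand_swap _ _ _ _).trans (xecand_der hE h₁ hq hm hv
      (fun j hj => xecand_swap (u a) v _ _ ▸ hu a ⟨j, hj⟩) ?_)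
    have h1 := (hasFDerivAt_pi'.1 hH.differentiableAt.hasFDerivAt a).comp (q i)
      (hasFDerivAt_prodMk_right x₁ (q i))
    refine (congrArg (fun f => f ξ) h1.fderiv).trans ?_
    simp [h0]
  rw [nhds_prod_eq, eventually_prod_iff] at h
  obtain ⟨pa, ha, pb, hb, h⟩ := h
  obtain ⟨ε, hε, hb⟩ := Metric.eventually_nhds_iff.1 hb
  refine ⟨p, ε, hε, hp, (ha.and hΩ).mono fun x hx q' z h1 h2 h3 =>
    h hx.1 (hb (by rwa [dist_eq_norm])) (funext fun a => ?_)⟩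
  exact (xecand_zero hE hx.2 h1 (z := z) (by omega) _ _).trans
    (xecand_zero hE h₁ hq (z := q i) (by omega) _ _).symm

end Pool.Agent.MP_cf0a82_ag

end
end

section

open Complex Filter Topology Matrix Function

noncomputable section

namespace Pool.Agent.MP_cf0a82_ag

open Pool.Agent.MP_f58063_ag

variable {J : Type} [Fintype J] {n g : ℕ} {Ω : Set (Mat g)} {Φ : Mat g → EE g → J → ℂ}
  {X : Type} {F : Filter X} {τ : X → Mat g} {c : X → Tn J n} {τ₁ : Mat g} {c₁ : Tn J n}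

/-- the real linear period map -/
def xesepaP (τ : Mat g) : ((Fin g → ℝ) × (Fin g → ℝ)) →ₗ[ℝ] EE g where
  toFun v := fun i => (v.1 i : ℂ) + ∑ j, τ i j * v.2 j
  map_add' v w := by
    funext i
    simp only [Prod.fst_add, Prod.snd_add, Pi.add_apply, ofReal_add, mul_add,
      Finset.sum_add_distrib]
    ring
  map_smul' t v := by
    funext i
    simp only [Prod.smul_fst, Prod.smul_snd, Pi.smul_apply, smul_eq_mul, ofReal_mul,
      RingHom.id_apply, real_smul, mul_add, Finset.mul_sum]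
    congr 1
    exact Finset.sum_congr rfl fun j _ => by ring

theorem xesepa_ker (h1 : τ₁ ∈ PosIm g) : LinearMap.ker (xesepaP τ₁) = ⊥ := by
  refine LinearMap.ker_eq_bot'.mpr fun v hv => ?_
  have h2 : ∀ i, (v.1 i : ℂ) + ∑ j, τ₁ i j * v.2 j = 0 := fun i => congrFun hv i
  have h3 : ∀ i, ∑ j, (τ₁ i j).im * v.2 j = 0 := fun i => by
    have h := congrArg Complex.im (h2 i)
    simpa using h
  have h4 : v.2 = 0 := by
    by_contra h
    have h5 := h1 v.2 h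
    simp only [mul_assoc, ← Finset.mul_sum, h3, mul_zero, Finset.sum_const_zero] at h5
    exact lt_irrefl _ h5
  refine Prod.ext (funext fun i => ?_) h4
  have h5 := h2 i
  simpa [h4] using h5

theorem xesepa_sub (σ σ' : Mat g) (v : (Fin g → ℝ) × (Fin g → ℝ)) :
    ‖xesepaP σ v - xesepaP σ' v‖ ≤ g * ‖σ - σ'‖ * ‖v‖ := by
  refine (pi_norm_le_iff_of_nonneg (by positivity)).mpr fun i => ?_
  have h1 : (xesepaP σ v - xesepaP σ' v) i = ∑ j, (σ - σ') i j * v.2 j := by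
    change ((v.1 i : ℂ) + ∑ j, σ i j * v.2 j) - ((v.1 i : ℂ) + ∑ j, σ' i j * v.2 j) = _
    simp only [Pi.sub_apply, sub_mul, Finset.sum_sub_distrib]
    ring
  rw [h1]
  refine (norm_sum_le _ _).trans ?_
  refine (Finset.sum_le_card_nsmul _ _ (‖σ - σ'‖ * ‖v‖) fun j _ => ?_).trans ?_
  · rw [norm_mul, norm_real]
    exact mul_le_mul ((norm_le_pi_norm _ j).trans (norm_le_pi_norm _ i))
      ((norm_le_pi_norm _ j).trans (norm_snd_le v)) (norm_nonneg _) (norm_nonneg _)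
  · simp [mul_assoc]

/-- the real vector of a pair of integer vectors -/
def xesepaV (s : (Fin g → ℤ) × (Fin g → ℤ)) : (Fin g → ℝ) × (Fin g → ℝ) :=
  (fun i => s.1 i, fun i => s.2 i)

theorem xesepa_per (σ : Mat g) (m l : Fin g → ℤ) : xesepaP σ (xesepaV (m, l)) = per σ m l := by
  funext i
  change ((m i : ℝ) : ℂ) + ∑ j, σ i j * ((l j : ℝ) : ℂ) = (m i : ℂ) + ∑ j, σ i j * l j
  simp

theorem xesepa_fin (B : ℝ) : {s : (Fin g → ℤ) × (Fin g → ℤ) | ‖xesepaV s‖ ≤ B}.Finite := by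
  have h1 : {f : Fin g → ℤ | ∀ i, f i ∈ Set.Icc (-⌈B⌉) ⌈B⌉}.Finite :=
    Set.Finite.pi' fun _ => Set.finite_Icc _ _
  have h2 : ∀ a : ℤ, ‖(a : ℝ)‖ ≤ B → a ∈ Set.Icc (-⌈B⌉) ⌈B⌉ := fun a ha => by
    have h3 : ((|a| : ℤ) : ℝ) ≤ (⌈B⌉ : ℤ) := by
      rw [Int.cast_abs]
      exact ha.trans (Int.le_ceil B)
    exact abs_le.mp (Int.cast_le.mp h3)
  refine (h1.prod h1).subset fun s hs => ⟨fun i => h2 _ ?_, fun i => h2 _ ?_⟩
  · exact ((norm_le_pi_norm (xesepaV s).1 i).trans (norm_fst_le _)).trans hs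
  · exact ((norm_le_pi_norm (xesepaV s).2 i).trans (norm_snd_le _)).trans hs

theorem xesepa_cnt {ι A B : Type} [Finite ι] {f : ι → A} {f' : ι → B}
    (h : ∀ i j, f' i = f' j → f i = f j) (hc : (Set.range f').ncard ≤ (Set.range f).ncard)
    {i j : ι} (hij : f i = f j) : f' i = f' j := by
  have h1 : ∀ i (ha : f' i ∈ Set.range f'), f ha.choose = f i := fun i ha => h _ _ ha.choose_spec
  refine Set.inj_on_of_surj_on_of_ncard_le (s := Set.range f') (t := Set.range f)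
    (fun _ ha => f ha.choose) (fun _ _ => ⟨_, rfl⟩) ?_ hc ⟨i, rfl⟩ ⟨j, rfl⟩ ?_ (Set.finite_range _)
  · rintro _ ⟨k, rfl⟩
    exact ⟨f' k, ⟨k, rfl⟩, h1 k _⟩
  · rw [h1, h1, hij]

/-- lattice points are uniformly separated -/
theorem sepa (hτ : Tendsto τ F (𝓝 τ₁)) (h1 : τ₁ ∈ PosIm g) {w : X → EE g} {w₁ : EE g}
    (hw : Tendsto w F (𝓝 w₁)) : ∃ ε : ℝ, 0 < ε ∧ ∀ᶠ x in F, ∀ m l,
      ‖w x - per (τ x) m l‖ < ε → w₁ = per τ₁ m l := by
  obtain ⟨K, hK0, hK⟩ := (xesepaP τ₁).exists_antilipschitzWith (xesepa_ker h1)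
  have hK1 : ∀ v, ‖v‖ ≤ K * ‖xesepaP τ₁ v‖ := fun v => by
    have h := hK.le_mul_dist v 0
    rwa [map_zero, dist_zero_right, dist_zero_right] at h
  have hK2 : (0 : ℝ) < K := hK0
  set B : ℝ := 2 * K * (‖w₁‖ + 2) with hB
  have hB0 : 0 < B := by positivity
  have h2 : ∀ᶠ t in 𝓝[>] (0 : ℝ), ∀ s ∈ {s : (Fin g → ℤ) × (Fin g → ℤ) | ‖xesepaV s‖ ≤ B},
      w₁ ≠ per τ₁ s.1 s.2 → t ≤ ‖w₁ - per τ₁ s.1 s.2‖ / 3 := by
    refine (eventually_all_finite (xesepa_fin B)).mpr fun s _ => ?_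
    by_cases h : w₁ = per τ₁ s.1 s.2
    · exact Eventually.of_forall fun _ h' => absurd h h'
    · have h3 : 0 < ‖w₁ - per τ₁ s.1 s.2‖ / 3 :=
        div_pos (norm_pos_iff.mpr (sub_ne_zero.mpr h)) (by norm_num)
      exact ((eventually_le_nhds h3).filter_mono nhdsWithin_le_nhds).mono fun _ h' _ => h'
  have h3 : ∀ᶠ t in 𝓝[>] (0 : ℝ), t ≤ 1 :=
    (eventually_le_nhds one_pos).filter_mono nhdsWithin_le_nhds
  obtain ⟨ε, hε, hε1, hε0⟩ := (h2.and (h3.and self_mem_nhdsWithin)).exists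
  have hε0' : 0 < ε := hε0
  refine ⟨ε, hε0', ?_⟩
  have h4 : Tendsto (fun x => ‖w x - w₁‖) F (𝓝 0) := tendsto_iff_norm_sub_tendsto_zero.mp hw
  have h5 : Tendsto (fun x => g * ‖τ x - τ₁‖) F (𝓝 0) := by
    simpa using (tendsto_iff_norm_sub_tendsto_zero.mp hτ).const_mul (g : ℝ)
  filter_upwards [h4.eventually (eventually_lt_nhds hε0'),
    h5.eventually (eventually_lt_nhds (div_pos hε0' hB0)),
    h5.eventually (eventually_lt_nhds (one_div_pos.mpr (mul_pos two_pos hK2)))] with x a1 a2 a3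
  intro m l h6
  have b1 := xesepa_sub (τ x) τ₁ (xesepaV (m, l))
  have b2 := hK1 (xesepaV (m, l))
  rw [xesepa_per] at b2
  rw [xesepa_per, xesepa_per] at b1
  set N := ‖xesepaV (m, l)‖ with hN
  have hN0 : 0 ≤ N := norm_nonneg _
  set δ : ℝ := g * ‖τ x - τ₁‖ with hδ
  have hδ0 : 0 ≤ δ := by positivity
  have b3 : ‖w₁ - per τ₁ m l‖ ≤
      ‖w x - per (τ x) m l‖ + ‖per (τ x) m l - per τ₁ m l‖ + ‖w x - w₁‖ := by
    have e : w₁ - per τ₁ m l =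
        (w x - per (τ x) m l) + (per (τ x) m l - per τ₁ m l) - (w x - w₁) := by abel
    rw [e]
    exact (norm_sub_le _ _).trans (add_le_add (norm_add_le _ _) le_rfl)
  have b4 : ‖per τ₁ m l‖ ≤ ‖w₁‖ + ‖w₁ - per τ₁ m l‖ := by
    have e : per τ₁ m l = w₁ - (w₁ - per τ₁ m l) := by abel
    exact (congrArg norm e).le.trans (norm_sub_le _ _)
  rw [lt_div_iff₀ hB0] at a2
  rw [lt_div_iff₀ (mul_pos two_pos hK2)] at a3
  have b5 : N ≤ K * (‖w₁‖ + 2 + δ * N) :=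
    b2.trans (mul_le_mul_of_nonneg_left (by linarith) hK2.le)
  have b6 : δ * (2 * K) * N ≤ 1 * N := mul_le_mul_of_nonneg_right a3.le hN0
  have b7 : N ≤ B := by
    rw [hB]
    nlinarith
  by_contra h7
  have b8 := hε (m, l) b7 h7
  have b9 : δ * N ≤ δ * B := mul_le_mul_of_nonneg_left b7 hδ0
  dsimp only at b8
  linarith

/-- semicontinuity of the number of points, and the shape of nearby cycles with the same number
of points -/
theorem Emb.pat (hE : Emb Ω Φ) (hτ : Tendsto τ F (𝓝 τ₁)) (hc : Tendsto c F (𝓝 c₁))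
    (h1 : τ₁ ∈ Ω) (hΩ : ∀ᶠ x in F, τ x ∈ Ω) {q : Fin n → EE g} (hq : Cy Φ τ₁ c₁ q) {ε : ℝ}
    (hε : 0 < ε) : ∀ᶠ x in F, ∀ q', Cy Φ (τ x) (c x) q' → nd (τ x) q' ≤ nd τ₁ q →
      ∃ z : Fin n → EE g, CEq (τ x) z q' ∧ ∀ i, ‖z i - q i‖ < ε ∧
        mlt τ₁ q (q i) ≤ mlt (τ x) q' (z i) := by
  choose e he0 he using fun ij : Fin n × Fin n =>
    sepa hτ (Siegel_sub (hE.sub h1)) (tendsto_const_nhds (x := q ij.1 - q ij.2))
  have h2 : ∀ᶠ t in 𝓝[>] (0 : ℝ), ∀ ij, t ≤ e ij / 2 := eventually_all.mpr fun ij =>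
    (eventually_le_nhds (half_pos (he0 ij))).filter_mono nhdsWithin_le_nhds
  have h3 : ∀ᶠ t in 𝓝[>] (0 : ℝ), t ≤ ε :=
    (eventually_le_nhds hε).filter_mono nhdsWithin_le_nhds
  obtain ⟨η, hη, hη1, hη0⟩ := (h2.and (h3.and self_mem_nhdsWithin)).exists
  filter_upwards [hE.close hτ hc h1 hΩ hq hη0, eventually_all.mpr he] with x a1 a2
  intro q' hq' hnd
  obtain ⟨σ, hσ⟩ := a1 q' hq'
  choose m l hml using hσ
  have hp : ∀ i, per (τ x) (m i) (l i) ∈ latG (τ x) := fun i => ⟨m i, l i, rfl⟩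
  have b1 : ∀ i j, (QuotientAddGroup.mk (q' (σ i)) : EE g ⧸ latG (τ x)) =
      QuotientAddGroup.mk (q' (σ j)) →
      (QuotientAddGroup.mk (q i) : EE g ⧸ latG τ₁) = QuotientAddGroup.mk (q j) := by
    intro i j h
    rw [QuotientAddGroup.eq_iff_sub_mem] at h ⊢
    obtain ⟨a, b, hab⟩ := mem_lattice.mp (add_mem (sub_mem h (hp i)) (hp j))
    refine mem_lattice.mpr ⟨a, b, a2 (i, j) a b ?_⟩
    have e1 : q i - q j - per (τ x) a b = (q' (σ j) - q j - per (τ x) (m j) (l j)) -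
        (q' (σ i) - q i - per (τ x) (m i) (l i)) := by
      rw [← hab]
      abel
    have e2 := hη (i, j)
    have e3 := hml i
    have e4 := hml j
    dsimp only
    rw [e1]
    refine (norm_sub_le _ _).trans_lt ?_
    linarith
  refine ⟨fun i => q' (σ i) - per (τ x) (m i) (l i),
    ⟨σ, fun i => ⟨m i, l i, (sub_add_cancel _ _).symm⟩⟩, fun i => ⟨?_, ?_⟩⟩
  · rw [sub_right_comm]
    exact (hml i).trans_le hη1
  · refine Set.ncard_le_ncard_of_injOn σ (fun j hj => ?_) σ.injective.injOn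
    have b2 := xesepa_cnt b1 (i := i) (j := j)
      ((congrArg Set.ncard (σ.surjective.range_comp
        fun k => (QuotientAddGroup.mk (q' k) : EE g ⧸ latG (τ x)))).le.trans hnd)
      (QuotientAddGroup.eq_iff_sub_mem.mpr hj)
    rw [QuotientAddGroup.eq_iff_sub_mem] at b2
    have b3 := sub_mem b2 (hp i)
    rw [sub_right_comm] at b3
    exact b3

end Pool.Agent.MP_cf0a82_ag

end
end

section

open Complex Filter Topology Matrix Function

noncomputable section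

namespace Pool.Agent.MP_cf0a82_ag

open Pool.Agent.MP_f58063_ag

variable {J : Type} [Fintype J] {n g : ℕ} {Ω : Set (Mat g)} {Φ : Mat g → EE g → J → ℂ}
  {X : Type} [NormedAddCommGroup X] [NormedSpace ℂ X] {τ : X → Mat g} {c : X → Tn J n} {x₁ : X}

theorem xebrr_an (hE : Emb Ω Φ) {x : X} (hτ : AnalyticAt ℂ τ x) (hx : τ x ∈ Ω)
    {p : Fin n → X → EE g} (hp : ∀ i, AnalyticAt ℂ (p i) x) (u : J → ℂ) :
    AnalyticAt ℂ (fun x => ∏ i, u ⬝ᵥ Φ (τ x) (p i x)) x := by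
  refine Finset.analyticAt_fun_prod _ fun i _ => ?_
  simp only [dotProduct]
  refine Finset.analyticAt_fun_sum _ fun j _ => analyticAt_const.mul ?_
  exact AnalyticAt.comp_of_eq (g := fun p : Mat g × EE g => Φ p.1 p.2 j)
    (f := fun x => (τ x, p i x)) (hE.an _ hx (p i x) j) (hτ.prod (hp i)) rfl

theorem xebrr_min (ε : Fin n → ℝ) (hε : ∀ i, 0 < ε i) : ∃ e : ℝ, 0 < e ∧ ∀ i, e < ε i := by
  have h : ∀ᶠ e in 𝓝[>] (0 : ℝ), ∀ i, e < ε i :=
    eventually_all.2 fun i => (eventually_lt_nhds (hε i)).filter_mono nhdsWithin_le_nhds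
  obtain ⟨e, h1, h2⟩ := (h.and self_mem_nhdsWithin).exists
  exact ⟨e, h2, h1⟩

theorem Br.eventually (h : Br Φ τ c x₁) : ∀ᶠ x in 𝓝 x₁, Br Φ τ c x := by
  obtain ⟨p, hp, h⟩ := h
  filter_upwards [hp.eventually_analyticAt, h.eventually_nhds] with x h1 h2
  exact ⟨p, h1, h2⟩

theorem Br.comp {Y : Type} [NormedAddCommGroup Y] [NormedSpace ℂ Y] {f : Y → X} {y : Y}
    (hf : AnalyticAt ℂ f y) (h : Br Φ τ c (f y)) :
    Br Φ (fun y => τ (f y)) (fun y => c (f y)) y := by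
  obtain ⟨p, hp, h⟩ := h
  exact ⟨fun y => p (f y), hp.comp hf, hf.continuousAt.tendsto.eventually h⟩

/-- holomorphic branches exist where the number of points is maximal -/
theorem Emb.br [FiniteDimensional ℂ X] (hE : Emb Ω Φ) (hτ : AnalyticAt ℂ τ x₁)
    (hc : AnalyticAt ℂ c x₁) (hΩ : ∀ᶠ x in 𝓝 x₁, τ x ∈ Ω) {q : Fin n → EE g}
    (hq : Cy Φ (τ x₁) (c x₁) q)
    (hO : ∃ᶠ x in 𝓝 x₁, ∀ᶠ x' in 𝓝 x, ∃ q', Cy Φ (τ x') (c x') q' ∧
      nd (τ x') q' ≤ nd (τ x₁) q) : Br Φ τ c x₁ := by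
  choose p ε hε hp hcand using hE.cand hτ hc hΩ hq
  obtain ⟨e, he, hle⟩ := xebrr_min ε hε
  have h1 : τ x₁ ∈ Ω := hΩ.self_of_nhds
  have hpat := hE.pat hτ.continuousAt.tendsto hc.continuousAt.tendsto h1 hΩ hq he
  have key : ∀ᶠ x in 𝓝 x₁, ∀ q', Cy Φ (τ x) (c x) q' → nd (τ x) q' ≤ nd (τ x₁) q →
      Cy Φ (τ x) (c x) fun i => p i x := by
    filter_upwards [hpat, eventually_all.2 hcand, hΩ] with x hx hx' hxΩ q' hq' hnd
    obtain ⟨z, hz, hz'⟩ := hx q' hq' hnd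
    have hzp : z = fun i => p i x :=
      funext fun i => hx' i q' (z i) hq' ((hz' i).1.trans (hle i)) (hz' i).2
    rw [← hzp]
    exact hE.cy_congr hxΩ hq' hz.symm
  have hp1 : ∀ i, q i = p i x₁ := fun i =>
    (hcand i).self_of_nhds q (q i) hq (by simpa using hε i) le_rfl
  obtain ⟨us, hus⟩ := prod_ne (w := fun i => Φ (τ x₁) (q i)) fun i => hE.ne _ h1 _
  have hW : ∀ᶠ x in 𝓝 x₁, (AnalyticAt ℂ τ x ∧ AnalyticAt ℂ c x ∧ τ x ∈ Ω ∧
      ∀ i, AnalyticAt ℂ (p i) x) ∧ ∀ q', Cy Φ (τ x) (c x) q' → nd (τ x) q' ≤ nd (τ x₁) q →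
      Cy Φ (τ x) (c x) fun i => p i x := by
    filter_upwards [hτ.eventually_analyticAt, hc.eventually_analyticAt, hΩ,
      eventually_all.2 fun i => (hp i).eventually_analyticAt, key] with x a1 a2 a3 a4 a5
    exact ⟨⟨a1, a2, a3, a4⟩, a5⟩
  obtain ⟨r, hr, hB⟩ := Metric.eventually_nhds_iff_ball.1 hW
  obtain ⟨x₀, hx₀, hx₀B⟩ := (hO.and_eventually (Metric.ball_mem_nhds x₁ hr)).exists
  have hcy : ∀ᶠ x in 𝓝 x₀, Cy Φ (τ x) (c x) fun i => p i x := by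
    filter_upwards [hx₀, Metric.isOpen_ball.mem_nhds hx₀B] with x hx hxB
    obtain ⟨q', hq', hnd⟩ := hx
    exact (hB x hxB).2 q' hq' hnd
  have hzero : ∀ u : J → ℂ, ∀ x ∈ Metric.ball x₁ r,
      ev (c x) u * ∏ i, us ⬝ᵥ Φ (τ x) (p i x) - ev (c x) us * ∏ i, u ⬝ᵥ Φ (τ x) (p i x) = 0 := by
    intro u
    have han : AnalyticOnNhd ℂ (fun x => ev (c x) u * ∏ i, us ⬝ᵥ Φ (τ x) (p i x) -
        ev (c x) us * ∏ i, u ⬝ᵥ Φ (τ x) (p i x)) (Metric.ball x₁ r) := by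
      intro x hx
      obtain ⟨⟨a1, a2, a3, a4⟩, -⟩ := hB x hx
      exact ((ev_an a2 u).mul (xebrr_an hE a1 a3 a4 us)).sub
        ((ev_an a2 us).mul (xebrr_an hE a1 a3 a4 u))
    refine han.eqOn_zero_of_preconnected_of_eventuallyEq_zero
      (convex_ball x₁ r).isPreconnected hx₀B ?_
    filter_upwards [hcy] with x hx
    obtain ⟨κ, -, hκ⟩ := hx
    simp only [hκ, Pi.zero_apply]
    ring
  have hP : ∀ᶠ x in 𝓝 x₁, ∏ i, us ⬝ᵥ Φ (τ x) (p i x) ≠ 0 := by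
    refine (xebrr_an hE hτ h1 hp us).continuousAt.eventually_ne ?_
    exact Finset.prod_ne_zero_iff.2 fun i _ => by rw [← hp1 i]; exact hus i
  have hE' : ∀ᶠ x in 𝓝 x₁, ev (c x) us ≠ 0 := by
    refine (ev_an hc us).continuousAt.eventually_ne ?_
    obtain ⟨κ, hκ0, hκ⟩ := hq
    rw [hκ]
    exact mul_ne_zero hκ0 (Finset.prod_ne_zero_iff.2 fun i _ => hus i)
  refine ⟨fun x i => p i x, analyticAt_pi_iff.2 hp, ?_⟩
  filter_upwards [hP, hE', Metric.ball_mem_nhds x₁ hr] with x a1 a2 a3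
  refine ⟨ev (c x) us / ∏ i, us ⬝ᵥ Φ (τ x) (p i x), div_ne_zero a2 a1, fun u => ?_⟩
  have := hzero u x a3
  field_simp
  linear_combination this

end Pool.Agent.MP_cf0a82_ag

end
end

section

open Complex Filter Topology Matrix Function

noncomputable section

namespace Pool.Agent.MP_cf0a82_ag

open Pool.Agent.MP_f58063_ag

variable {J : Type} [Fintype J] {n g r : ℕ} {Ω : Set (Mat g)} {Φ : Mat g → EE g → J → ℂ}
  {X : Type} [NormedAddCommGroup X] [NormedSpace ℂ X] {τ : X → Mat g} {e : X}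
  {ν : Fin r → EE g} {ξ : Fin r → X}

/-- application to a fixed vector -/
def xetrfL (v : EE g) : Mat g →L[ℂ] EE g :=
  LinearMap.toContinuousLinearMap
    { toFun := fun A => mv A v
      map_add' := fun A B => funext fun i => by
        simp only [mv, Pi.add_apply, add_mul, Finset.sum_add_distrib]
      map_smul' := fun a A => funext fun i => by
        simp only [mv, Pi.smul_apply, smul_eq_mul, RingHom.id_apply, Finset.mul_sum, mul_assoc] }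

lemma xetrf_der (hτ : AnalyticAt ℂ τ e) (m l : Fin g → ℤ) :
    HasFDerivAt (fun x => MP_f58063_ag.per (τ x) m l)
      ((xetrfL fun j => (l j : ℂ)).comp (fderiv ℂ τ e)) e :=
  ((xetrfL fun j => (l j : ℂ)).hasFDerivAt.comp e hτ.differentiableAt.hasFDerivAt).const_add
    fun i => (m i : ℂ)

theorem Kil.per (hK : Kil τ e ν ξ) (hτ : AnalyticAt ℂ τ e) (hS : ∀ᶠ x in 𝓝 e, τ x ∈ Siegel g)
    (m l : Fin g → ℤ) (a b : Fin r) :
    ν b ⬝ᵥ fderiv ℂ (fun x => MP_f58063_ag.per (τ x) m l) e (ξ a) = 0 := by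
  rw [(xetrf_der hτ m l).fderiv]
  change ∑ i, ν b i * ∑ j, fderiv ℂ τ e (ξ a) i j * (l j : ℂ) = 0
  simp only [Finset.mul_sum]
  rw [Finset.sum_comm]
  refine Finset.sum_eq_zero fun j _ => ?_
  have h : ∑ i, fderiv ℂ τ e (ξ a) j i * ν b i = 0 := congrFun (hK a b) j
  rw [← mul_zero (l j : ℂ), ← h, Finset.mul_sum]
  refine Finset.sum_congr rfl fun i _ => ?_
  rw [fderiv_symm hτ hS (ξ a) i j]
  ring

theorem tf_congr (hK : Kil τ e ν ξ) (hτ : AnalyticAt ℂ τ e) (hS : ∀ᶠ x in 𝓝 e, τ x ∈ Siegel g)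
    {f f' : X → EE g} (hf : AnalyticAt ℂ f e) {m l : Fin g → ℤ}
    (h : ∀ᶠ x in 𝓝 e, f' x = f x + per (τ x) m l) : tf f' e ν ξ = tf f e ν ξ := by
  have h1 : f' =ᶠ[𝓝 e] fun x => f x + per (τ x) m l := h
  unfold tf
  congr 2
  funext a b
  rw [h1.fderiv_eq, fderiv_fun_add hf.differentiableAt (xetrf_der hτ m l).differentiableAt,
    _root_.add_apply, dotProduct_add, hK.per hτ hS, add_zero]

lemma xetrf_slice {p : X × ℂ → Fin n → EE g} {t : ℂ} (hp : AnalyticAt ℂ p (e, t)) (i : Fin n) :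
    AnalyticAt ℂ (fun e' => p (e', t) i) e :=
  (analyticAt_pi_iff.1 hp i).comp (f := fun e' : X => (e', t))
    (analyticAt_id.prod analyticAt_const)

omit [NormedSpace ℂ X] in
lemma xetrf_tend (e : X) (t : ℂ) : Tendsto (fun e' : X => (e', t)) (𝓝 e) (𝓝 (e, t)) :=
  (Continuous.prodMk_left t).tendsto e

variable [CompleteSpace X] {c : X × ℂ → Tn J n} {t : ℂ}

theorem Emb.trF_eq (hE : Emb Ω Φ) (hK : Kil τ e ν ξ) (hτ : AnalyticAt ℂ τ e)
    (hΩ : ∀ᶠ x in 𝓝 e, τ x ∈ Ω) {p : X × ℂ → Fin n → EE g} (hp : AnalyticAt ℂ p (e, t))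
    (hc : ∀ᶠ x in 𝓝 (e, t), Cy Φ (τ x.1) (c x) (p x)) :
    trF Φ τ c e ν ξ t = ∑ i, tf (fun e' => p (e', t) i) e ν ξ := by
  have hB : Br Φ (fun x : X × ℂ => τ x.1) c (e, t) := ⟨p, hp, hc⟩
  rw [trF, dif_pos hB]
  obtain ⟨hp', hc'⟩ := hB.choose_spec
  have hτ' : AnalyticAt ℂ (fun x : X × ℂ => τ x.1) (e, t) :=
    hτ.comp (f := fun x : X × ℂ => x.1) analyticAt_fst
  have hΩ' : ∀ᶠ x : X × ℂ in 𝓝 (e, t), τ x.1 ∈ Ω :=
    (continuous_fst.tendsto (e, t)).eventually hΩ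
  obtain ⟨σ, m, l, h⟩ := uni hτ' hp hp' (by
    filter_upwards [hΩ', hc, hc'] with x h1 h2 h3
    exact hE.uniq h1 h2 h3)
  rw [← Equiv.sum_comp σ]
  refine Finset.sum_congr rfl fun i _ => ?_
  refine tf_congr hK hτ (hΩ.mono fun x hx => hE.sub hx) (xetrf_slice hp i) (m := m i) (l := l i) ?_
  filter_upwards [(xetrf_tend e t).eventually h] with x hx
  exact hx i

theorem Emb.trF_an (hE : Emb Ω Φ) (hK : Kil τ e ν ξ) (hτ : AnalyticAt ℂ τ e)
    (hΩ : ∀ᶠ x in 𝓝 e, τ x ∈ Ω) (hB : Br Φ (fun x : X × ℂ => τ x.1) c (e, t)) :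
    AnalyticAt ℂ (trF Φ τ c e ν ξ) t := by
  obtain ⟨p, hp, hc⟩ := hB
  have ht : Tendsto (fun s : ℂ => (e, s)) (𝓝 t) (𝓝 (e, t)) := (Continuous.prodMk_right e).tendsto t
  have h1 : AnalyticAt ℂ (fun s : ℂ => ∑ i, (Matrix.of fun a b =>
      ν b ⬝ᵥ fderiv ℂ (fun x => p x i) (e, s) (ξ a, 0)).det) t := by
    refine Finset.analyticAt_fun_sum _ fun i _ => an_det fun a b => ?_
    have h2 : AnalyticAt ℂ (fun s : ℂ => fderiv ℂ (fun x => p x i) (e, s) (ξ a, 0)) t :=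
      ((ContinuousLinearMap.apply ℂ (EE g) ((ξ a, 0) : X × ℂ)).analyticAt _).comp
        ((analyticAt_pi_iff.1 hp i).fderiv.comp (f := fun s : ℂ => (e, s))
          (analyticAt_const.prod analyticAt_id))
    simp only [Matrix.of_apply, dotProduct]
    exact Finset.analyticAt_fun_sum _ fun j _ => analyticAt_const.mul (analyticAt_pi_iff.1 h2 j)
  refine h1.congr ?_
  filter_upwards [ht.eventually hp.eventually_analyticAt, ht.eventually hc.eventually_nhds]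
    with s h2 h3
  rw [hE.trF_eq hK hτ hΩ h2 h3]
  refine Finset.sum_congr rfl fun i _ => ?_
  have h4 : HasFDerivAt (fun e' => p (e', s) i) ((fderiv ℂ (fun x => p x i) (e, s)).comp
      (ContinuousLinearMap.inl ℂ X ℂ)) e :=
    HasFDerivAt.comp (f := fun e' : X => (e', s)) (g := fun x => p x i) e
      (analyticAt_pi_iff.1 h2 i).differentiableAt.hasFDerivAt
      (hasFDerivAt_prodMk_left (𝕜 := ℂ) e s)
  rw [tf, h4.fderiv]
  rfl

omit [CompleteSpace X] in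
lemma xetrf_inv {c' : X × ℂ → Tn J n} {d : ℕ} (ht : t ≠ 0)
    (hc : ∀ x : X × ℂ, x.2 ≠ 0 → c' x = x.2 ^ d • c (x.1, x.2⁻¹)) {p : X × ℂ → Fin n → EE g}
    (hp : AnalyticAt ℂ p (e, t⁻¹)) (h : ∀ᶠ x in 𝓝 (e, t⁻¹), Cy Φ (τ x.1) (c x) (p x)) :
    AnalyticAt ℂ (fun x : X × ℂ => p (x.1, x.2⁻¹)) (e, t) ∧
      ∀ᶠ x : X × ℂ in 𝓝 (e, t), Cy Φ (τ x.1) (c' x) (p (x.1, x.2⁻¹)) := by
  have h1 : AnalyticAt ℂ (fun x : X × ℂ => (x.1, x.2⁻¹)) (e, t) :=
    analyticAt_fst.prod (analyticAt_snd.inv ht)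
  refine ⟨hp.comp (f := fun x : X × ℂ => (x.1, x.2⁻¹)) h1, ?_⟩
  filter_upwards [h1.continuousAt.tendsto.eventually h,
    (continuous_snd.tendsto (e, t)).eventually (eventually_ne_nhds ht)] with x h2 h3
  rw [hc x h3]
  exact Ch.smul h2 (pow_ne_zero d h3)

omit [CompleteSpace X] in
theorem Br.inv {c' : X × ℂ → Tn J n} {d : ℕ} (ht : t ≠ 0)
    (hc : ∀ x : X × ℂ, x.2 ≠ 0 → c' x = x.2 ^ d • c (x.1, x.2⁻¹))
    (hB : Br Φ (fun x : X × ℂ => τ x.1) c (e, t⁻¹)) :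
    Br Φ (fun x : X × ℂ => τ x.1) c' (e, t) := by
  obtain ⟨p, hp, h⟩ := hB
  exact ⟨_, xetrf_inv ht hc hp h⟩

/-- change of the chart of the projective line -/
theorem Emb.trF_inv (hE : Emb Ω Φ) (hK : Kil τ e ν ξ) (hτ : AnalyticAt ℂ τ e)
    (hΩ : ∀ᶠ x in 𝓝 e, τ x ∈ Ω) {c' : X × ℂ → Tn J n} {d : ℕ} (ht : t ≠ 0)
    (hc : ∀ x : X × ℂ, x.2 ≠ 0 → c' x = x.2 ^ d • c (x.1, x.2⁻¹))
    (hB : Br Φ (fun x : X × ℂ => τ x.1) c (e, t⁻¹)) :
    trF Φ τ c' e ν ξ t = trF Φ τ c e ν ξ t⁻¹ := by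
  obtain ⟨p, hp, h⟩ := hB
  obtain ⟨h1, h2⟩ := xetrf_inv ht hc hp h
  rw [hE.trF_eq hK hτ hΩ hp h, hE.trF_eq hK hτ hΩ h1 h2]

end Pool.Agent.MP_cf0a82_ag

end
end

section

open Complex Filter Topology Matrix Function

noncomputable section

namespace Pool.Agent.MP_cf0a82_ag

open Pool.Agent.MP_f58063_ag

/-- functions that agree on the overlaps of a family of sets glue -/
lemma xeext_glue {Y κ : Type} (y₀ : Y) (U : κ → Set ℂ) (g : κ → ℂ → Y)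
    (h : ∀ b b' s, s ∈ U b → s ∈ U b' → g b s = g b' s) :
    ∃ F : ℂ → Y, ∀ b s, s ∈ U b → F s = g b s := by
  classical
  refine ⟨fun s => if hs : ∃ b, s ∈ U b then g hs.choose s else y₀, fun b s hs => ?_⟩
  have hs' : ∃ b, s ∈ U b := ⟨b, hs⟩
  simp only [dif_pos hs']
  exact h _ _ _ hs'.choose_spec hs

section

variable {Y : Type} [NormedAddCommGroup Y] [NormedSpace ℂ Y] [CompleteSpace Y]

/-- a continuation of the germ `f` to the disc of radius `r` with values in `S` -/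
def xeextP (S : ℂ → Set Y) (f : ℂ → Y) (r : ℝ) : Prop :=
  ∃ F : ℂ → Y, AnalyticOnNhd ℂ F (Metric.ball 0 r) ∧ F =ᶠ[𝓝 0] f ∧
    ∀ s ∈ Metric.ball (0 : ℂ) r, F s ∈ S s

omit [CompleteSpace Y] in
lemma xeext_mono {S : ℂ → Set Y} {f : ℂ → Y} {r r' : ℝ} (h : xeextP S f r) (hr : r' ≤ r) :
    xeextP S f r' := by
  obtain ⟨F, h1, h2, h3⟩ := h
  exact ⟨F, h1.mono (Metric.ball_subset_ball hr), h2,
    fun s hs => h3 s (Metric.ball_subset_ball hr hs)⟩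

lemma xeext_meet {W : Set ℂ} (hW : IsOpen W) {r : ℝ} (hr : 0 < r) {m : ℂ} (hm : m ∈ W)
    (hmr : m ∈ Metric.closedBall (0 : ℂ) r) : (W ∩ Metric.ball (0 : ℂ) r).Nonempty := by
  rw [← closure_ball (0 : ℂ) hr.ne'] at hmr
  exact mem_closure_iff.1 hmr W hW hm

lemma xeext_step {ι : Type} [Countable ι] {S : ℂ → Set Y} {f : ℂ → Y} {r δ : ℝ} (hr : 0 < r)
    (hδ : 0 < δ)
    (hS : ∀ b ∈ Metric.closedBall (0 : ℂ) r, ∃ G : ι → ℂ → Y,
      (∀ a, AnalyticOnNhd ℂ (G a) (Metric.ball b δ)) ∧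
        ∀ s ∈ Metric.ball b δ, S s = Set.range fun a => G a s)
    (h : xeextP S f r) : xeextP S f (r + δ) := by
  obtain ⟨F, h1, h2, h3⟩ := h
  have key : ∀ b : Metric.closedBall (0 : ℂ) r, ∃ g : ℂ → Y,
      AnalyticOnNhd ℂ g (Metric.ball b.1 δ) ∧ (∀ s ∈ Metric.ball b.1 δ, g s ∈ S s) ∧
        ∀ s ∈ Metric.ball b.1 δ ∩ Metric.ball (0 : ℂ) r, g s = F s := by
    rintro ⟨b, hb⟩
    obtain ⟨G, hG, hGS⟩ := hS b hb
    have hU : IsOpen (Metric.ball b δ ∩ Metric.ball (0 : ℂ) r) :=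
      Metric.isOpen_ball.inter Metric.isOpen_ball
    have hc : IsPreconnected (Metric.ball b δ ∩ Metric.ball (0 : ℂ) r) :=
      ((convex_ball b δ).inter (convex_ball 0 r)).isPreconnected
    have hne : (Metric.ball b δ ∩ Metric.ball (0 : ℂ) r).Nonempty :=
      xeext_meet Metric.isOpen_ball hr (Metric.mem_ball_self hδ) hb
    obtain ⟨a, ha⟩ := cntb (f := fun a s => G a s - F s) hU hc hne
      (fun a => ((hG a).mono Set.inter_subset_left).sub (h1.mono Set.inter_subset_right))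
      (fun s hs => by
        have := h3 s hs.2
        rw [hGS s hs.1] at this
        obtain ⟨a, ha⟩ := this
        exact ⟨a, sub_eq_zero.2 ha⟩)
    refine ⟨G a, hG a, fun s hs => ?_, fun s hs => sub_eq_zero.1 (ha s hs)⟩
    rw [hGS s hs]
    exact ⟨a, rfl⟩
  choose g hg1 hg2 hg3 using key
  have hagree : ∀ (b b' : Metric.closedBall (0 : ℂ) r) (s : ℂ), s ∈ Metric.ball b.1 δ →
      s ∈ Metric.ball b'.1 δ → g b s = g b' s := by
    intro b b' s hs hs'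
    have hW : IsOpen (Metric.ball b.1 δ ∩ Metric.ball b'.1 δ) :=
      Metric.isOpen_ball.inter Metric.isOpen_ball
    have hc : IsPreconnected (Metric.ball b.1 δ ∩ Metric.ball b'.1 δ) :=
      ((convex_ball b.1 δ).inter (convex_ball b'.1 δ)).isPreconnected
    have hd : dist b.1 b'.1 < 2 * δ := by
      have := dist_triangle_left b.1 b'.1 s
      rw [Metric.mem_ball] at hs hs'
      linarith
    have hm : midpoint ℝ b.1 b'.1 ∈ Metric.ball b.1 δ ∩ Metric.ball b'.1 δ := by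
      constructor
      · rw [Metric.mem_ball, dist_midpoint_left]
        norm_num
        linarith
      · rw [Metric.mem_ball, dist_midpoint_right]
        norm_num
        linarith
    have hmr : midpoint ℝ b.1 b'.1 ∈ Metric.closedBall (0 : ℂ) r :=
      (convex_closedBall (0 : ℂ) r).midpoint_mem b.2 b'.2
    obtain ⟨z, hz, hzr⟩ := xeext_meet hW hr hm hmr
    have hev : g b =ᶠ[𝓝 z] g b' := by
      filter_upwards [(hW.inter Metric.isOpen_ball).mem_nhds ⟨hz, hzr⟩] with w hw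
      rw [hg3 b w ⟨hw.1.1, hw.2⟩, hg3 b' w ⟨hw.1.2, hw.2⟩]
    exact AnalyticOnNhd.eqOn_of_preconnected_of_eventuallyEq
      ((hg1 b).mono Set.inter_subset_left) ((hg1 b').mono Set.inter_subset_right) hc hz hev
      ⟨hs, hs'⟩
  obtain ⟨F', hF'⟩ := xeext_glue (0 : Y) (fun b : Metric.closedBall (0 : ℂ) r =>
    Metric.ball b.1 δ) g hagree
  have hcov : ∀ s ∈ Metric.ball (0 : ℂ) (r + δ), ∃ b : Metric.closedBall (0 : ℂ) r,
      s ∈ Metric.ball b.1 δ := by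
    intro s hs
    rw [Metric.mem_ball, dist_comm, add_comm] at hs
    obtain ⟨z, hz1, hz2⟩ := exists_dist_le_lt hr.le hδ hs
    refine ⟨⟨z, ?_⟩, ?_⟩
    · rw [Metric.mem_closedBall, dist_comm]
      exact hz1
    · rw [Metric.mem_ball, dist_comm]
      exact hz2
  refine ⟨F', fun s hs => ?_, ?_, fun s hs => ?_⟩
  · obtain ⟨b, hb⟩ := hcov s hs
    refine (hg1 b s hb).congr ?_
    filter_upwards [Metric.isOpen_ball.mem_nhds hb] with w hw
    exact (hF' b w hw).symm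
  · refine EventuallyEq.trans ?_ h2
    filter_upwards [Metric.ball_mem_nhds (0 : ℂ) hr] with w hw
    rw [hF' ⟨w, Metric.ball_subset_closedBall hw⟩ w (Metric.mem_ball_self hδ)]
    exact hg3 _ w ⟨Metric.mem_ball_self hδ, hw⟩
  · obtain ⟨b, hb⟩ := hcov s hs
    rw [hF' b s hb]
    exact hg2 b s hb

lemma xeext_lt {ι : Type} [Countable ι] {S : ℂ → Set Y} {R : ℝ}
    (hS : ∀ s₀ ∈ Metric.ball (0 : ℂ) R, ∃ ε : ℝ, 0 < ε ∧ ∃ G : ι → ℂ → Y,
      (∀ a, AnalyticOnNhd ℂ (G a) (Metric.ball s₀ ε)) ∧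
        ∀ s ∈ Metric.ball s₀ ε, S s = Set.range fun a => G a s)
    {f : ℂ → Y} (hf : AnalyticAt ℂ f 0) (h : ∀ᶠ s in 𝓝 0, f s ∈ S s) {r₁ : ℝ} (h0 : 0 < r₁)
    (h1 : r₁ < R) : xeextP S f r₁ := by
  obtain ⟨r₀, hr₀, hP⟩ : ∃ r₀ : ℝ, 0 < r₀ ∧ xeextP S f r₀ := by
    obtain ⟨r₀, hr₀, hb⟩ := Metric.eventually_nhds_iff_ball.1 (hf.eventually_analyticAt.and h)
    exact ⟨r₀, hr₀, f, fun s hs => (hb s hs).1, EventuallyEq.rfl, fun s hs => (hb s hs).2⟩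
  choose! ε hε hG using hS
  obtain ⟨δ, hδ, hL⟩ := lebesgue_number_lemma_of_metric
    (c := fun s₀ : Metric.ball (0 : ℂ) R => Metric.ball s₀.1 (ε s₀.1))
    (isCompact_closedBall (0 : ℂ) r₁) (fun _ => Metric.isOpen_ball) (fun s hs =>
      Set.mem_iUnion.2 ⟨⟨s, Metric.closedBall_subset_ball h1 hs⟩,
        Metric.mem_ball_self (hε s (Metric.closedBall_subset_ball h1 hs))⟩)
  have hD : ∀ b ∈ Metric.closedBall (0 : ℂ) r₁, ∃ G : ι → ℂ → Y,
      (∀ a, AnalyticOnNhd ℂ (G a) (Metric.ball b δ)) ∧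
        ∀ s ∈ Metric.ball b δ, S s = Set.range fun a => G a s := by
    intro b hb
    obtain ⟨s₀, hs₀⟩ := hL b hb
    obtain ⟨G, hG1, hG2⟩ := hG s₀.1 s₀.2
    exact ⟨G, fun a => (hG1 a).mono hs₀, fun s hs => hG2 s (hs₀ hs)⟩
  have hind : ∀ n : ℕ, ∀ r : ℝ, 0 < r → r ≤ r₁ → r ≤ r₀ + n * δ → xeextP S f r := by
    intro n
    induction n with
    | zero =>
      intro r _ _ hr
      exact xeext_mono hP (by simpa using hr)
    | succ n ih =>
      intro r hr hr1 hr2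
      have hn : 0 ≤ (n : ℝ) * δ := by positivity
      have hpos : 0 < max (r - δ) (min r₀ r) := lt_max_of_lt_right (lt_min hr₀ hr)
      have hle : max (r - δ) (min r₀ r) ≤ r₁ :=
        max_le (by linarith) ((min_le_right _ _).trans hr1)
      have hle' : max (r - δ) (min r₀ r) ≤ r₀ + n * δ := by
        refine max_le ?_ ((min_le_left _ _).trans (by linarith))
        push_cast at hr2
        linarith
      refine xeext_mono (xeext_step hpos hδ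
        (fun b hb => hD b (Metric.closedBall_subset_closedBall hle hb)) (ih _ hpos hle hle')) ?_
      have := le_max_left (r - δ) (min r₀ r)
      linarith
  obtain ⟨n, hn⟩ := exists_nat_ge (r₁ / δ)
  refine hind n r₁ h0 le_rfl ?_
  rw [div_le_iff₀ hδ] at hn
  linarith

end

/-- the monodromy theorem on a disc -/
theorem ext_disc {Y : Type} [NormedAddCommGroup Y] [NormedSpace ℂ Y] [CompleteSpace Y] {ι : Type}
    [Countable ι] {S : ℂ → Set Y} {R : ℝ} (hR : 0 < R)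
    (hS : ∀ s₀ ∈ Metric.ball (0 : ℂ) R, ∃ ε : ℝ, 0 < ε ∧ ∃ G : ι → ℂ → Y,
      (∀ a, AnalyticOnNhd ℂ (G a) (Metric.ball s₀ ε)) ∧
        ∀ s ∈ Metric.ball s₀ ε, S s = Set.range fun a => G a s)
    {f : ℂ → Y} (hf : AnalyticAt ℂ f 0) (h : ∀ᶠ s in 𝓝 0, f s ∈ S s) :
    ∃ F : ℂ → Y, AnalyticOnNhd ℂ F (Metric.ball 0 R) ∧ F =ᶠ[𝓝 0] f ∧
      ∀ s ∈ Metric.ball (0 : ℂ) R, F s ∈ S s := by
  have key : ∀ r : Set.Ioo (0 : ℝ) R, xeextP S f r.1 := fun r => xeext_lt hS hf h r.2.1 r.2.2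
  choose g hg1 hg2 hg3 using key
  have hagree : ∀ (r r' : Set.Ioo (0 : ℝ) R) (s : ℂ), s ∈ Metric.ball (0 : ℂ) r.1 →
      s ∈ Metric.ball (0 : ℂ) r'.1 → g r s = g r' s := by
    intro r r' s hs hs'
    exact AnalyticOnNhd.eqOn_of_preconnected_of_eventuallyEq
      ((hg1 r).mono Set.inter_subset_left) ((hg1 r').mono Set.inter_subset_right)
      ((convex_ball (0 : ℂ) r.1).inter (convex_ball (0 : ℂ) r'.1)).isPreconnected
      ⟨Metric.mem_ball_self r.2.1, Metric.mem_ball_self r'.2.1⟩ ((hg2 r).trans (hg2 r').symm)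
      ⟨hs, hs'⟩
  obtain ⟨F, hF⟩ := xeext_glue (0 : Y) (fun r : Set.Ioo (0 : ℝ) R =>
    Metric.ball (0 : ℂ) r.1) g hagree
  have hcov : ∀ s ∈ Metric.ball (0 : ℂ) R, ∃ r : Set.Ioo (0 : ℝ) R,
      s ∈ Metric.ball (0 : ℂ) r.1 := by
    intro s hs
    rw [Metric.mem_ball] at hs
    obtain ⟨r, hr1, hr2⟩ := exists_between hs
    exact ⟨⟨r, dist_nonneg.trans_lt hr1, hr2⟩, hr1⟩
  refine ⟨F, fun s hs => ?_, ?_, fun s hs => ?_⟩
  · obtain ⟨r, hr⟩ := hcov s hs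
    refine (hg1 r s hr).congr ?_
    filter_upwards [Metric.isOpen_ball.mem_nhds hr] with w hw
    exact (hF r w hw).symm
  · obtain ⟨r, hr⟩ := hcov 0 (Metric.mem_ball_self hR)
    refine EventuallyEq.trans ?_ (hg2 r)
    filter_upwards [Metric.isOpen_ball.mem_nhds hr] with w hw
    exact hF r w hw
  · obtain ⟨r, hr⟩ := hcov s hs
    rw [hF r s hr]
    exact hg3 r s hr

end Pool.Agent.MP_cf0a82_ag

end
end

section

open Complex Filter Topology Matrix Function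

noncomputable section

namespace Pool.Agent.MP_cf0a82_ag

open Pool.Agent.MP_f58063_ag

variable {J : Type} [Fintype J] {n g : ℕ} {Ω : Set (Mat g)} {Φ : Mat g → EE g → J → ℂ}

/-- the set of all lifts of the points of a cycle -/
def xetrkS (Φ : Mat g → EE g → J → ℂ) (τ : Mat g) (c : Tn J n) : Set (EE g) :=
  {z | ∃ q, Cy Φ τ c q ∧ ∃ i, z = q i}

lemma xetrk_range (hE : Emb Ω Φ) {τ : Mat g} (hτ : τ ∈ Ω) {c : Tn J n} {q : Fin n → EE g}
    (hq : Cy Φ τ c q) : xetrkS Φ τ c = Set.range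
      fun a : Fin n × (Fin g → ℤ) × (Fin g → ℤ) => q a.1 + per τ a.2.1 a.2.2 := by
  ext z
  constructor
  · rintro ⟨q', hq', i, rfl⟩
    obtain ⟨σ, hσ⟩ := hE.uniq hτ hq hq'
    obtain ⟨m, l, h⟩ := hσ (σ.symm i)
    rw [Equiv.apply_symm_apply] at h
    exact ⟨(σ.symm i, m, l), h.symm⟩
  · rintro ⟨⟨i, m, l⟩, rfl⟩
    refine ⟨Function.update q i (q i + per τ m l), hE.cy_congr hτ hq ⟨1, fun k => ?_⟩, i, ?_⟩
    · by_cases h : k = i
      · subst h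
        exact ⟨m, l, by simp⟩
      · exact ⟨0, 0, by simp [per_zero, Function.update_of_ne h]⟩
    · simp

lemma xetrk_loc (hE : Emb Ω Φ) {τ : ℂ → Mat g} {c : ℂ → Tn J n} {ρ : ℝ}
    (hτ : AnalyticOnNhd ℂ τ (Metric.ball 0 ρ)) (hΩ : ∀ s ∈ Metric.ball (0 : ℂ) ρ, τ s ∈ Ω)
    (hB : ∀ s ∈ Metric.ball (0 : ℂ) ρ, Br Φ τ c s) :
    ∀ s₀ ∈ Metric.ball (0 : ℂ) ρ, ∃ ε : ℝ, 0 < ε ∧
      ∃ G : Fin n × (Fin g → ℤ) × (Fin g → ℤ) → ℂ → EE g,
      (∀ a, AnalyticOnNhd ℂ (G a) (Metric.ball s₀ ε)) ∧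
        ∀ s ∈ Metric.ball s₀ ε, xetrkS Φ (τ s) (c s) = Set.range fun a => G a s := by
  intro s₀ hs₀
  obtain ⟨P, hP, hPc⟩ := hB s₀ hs₀
  obtain ⟨ε, hε, h⟩ := Metric.eventually_nhds_iff_ball.1
    (hP.eventually_analyticAt.and (hPc.and (Metric.isOpen_ball.mem_nhds hs₀)))
  refine ⟨ε, hε, fun a s => P s a.1 + per (τ s) a.2.1 a.2.2, fun a s hs => ?_, fun s hs => ?_⟩
  · exact (analyticAt_pi_iff.1 (h s hs).1 a.1).add
      ((per_analytic a.2.1 a.2.2 _).comp (hτ s (h s hs).2.2))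
  · exact xetrk_range hE (hΩ s (h s hs).2.2) (h s hs).2.1

/-- a branch that stays close to a separated family of sections satisfies a Cauchy estimate -/
theorem Emb.trk (hE : Emb Ω Φ) {τ : ℂ → Mat g} {c : ℂ → Tn J n} {ρ ε : ℝ} (hρ : 0 < ρ)
    (hτ : AnalyticOnNhd ℂ τ (Metric.ball 0 ρ)) (hΩ : ∀ s ∈ Metric.ball (0 : ℂ) ρ, τ s ∈ Ω)
    (hB : ∀ s ∈ Metric.ball (0 : ℂ) ρ, Br Φ τ c s) {w : Fin n → ℂ → EE g}
    (hw : ∀ j, AnalyticOnNhd ℂ (w j) (Metric.ball 0 ρ))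
    (hsep : ∀ s ∈ Metric.ball (0 : ℂ) ρ, ∀ j j' m l, ‖w j s - w j' s - per (τ s) m l‖ < 2 * ε →
      ∀ s' ∈ Metric.ball (0 : ℂ) ρ, w j s' - w j' s' = per (τ s') m l)
    (hcl : ∀ s ∈ Metric.ball (0 : ℂ) ρ, ∀ q, Cy Φ (τ s) (c s) q → ∀ i, ∃ j m l,
      ‖q i - w j s - per (τ s) m l‖ < ε)
    {p : ℂ → Fin n → EE g} (hp : AnalyticAt ℂ p 0) (hpc : ∀ᶠ s in 𝓝 0, Cy Φ (τ s) (c s) (p s))
    {i j : Fin n} {m l : Fin g → ℤ} (h0 : ‖p 0 i - w j 0 - per (τ 0) m l‖ < ε) :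
    ‖deriv (fun s => p s i - w j s - per (τ s) m l) 0‖ ≤ 2 * ε / ρ := by
  obtain ⟨F, hF, hFp, hFS⟩ := ext_disc (S := fun s => xetrkS Φ (τ s) (c s)) hρ
    (xetrk_loc hE hτ hΩ hB) (f := fun s => p s i) (analyticAt_pi_iff.1 hp i)
    (hpc.mono fun s hs => ⟨p s, hs, i, rfl⟩)
  let D : Fin n × (Fin g → ℤ) × (Fin g → ℤ) → ℂ → EE g :=
    fun a s => F s - w a.1 s - per (τ s) a.2.1 a.2.2
  have hD : ∀ a, AnalyticOnNhd ℂ (D a) (Metric.ball 0 ρ) := fun a s hs =>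
    ((hF s hs).sub (hw a.1 s hs)).sub ((per_analytic a.2.1 a.2.2 _).comp (hτ s hs))
  let O : Fin n × (Fin g → ℤ) × (Fin g → ℤ) → Set ℂ :=
    fun a => Metric.ball 0 ρ ∩ D a ⁻¹' Metric.ball 0 ε
  have hO : ∀ a, IsOpen (O a) := fun a =>
    (hD a).continuousOn.isOpen_inter_preimage Metric.isOpen_ball Metric.isOpen_ball
  have hm : ∀ a b, ¬ Disjoint (O a) (O b) → O a ⊆ O b := by
    intro a b hab s' hs'
    obtain ⟨s, ha, hb⟩ := Set.not_disjoint_iff.1 hab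
    have e : ∀ t, w a.1 t - w b.1 t - per (τ t) (b.2.1 + -a.2.1) (b.2.2 + -a.2.2) =
        D b t - D a t := by
      intro t
      rw [per_add, per_neg]
      simp only [D]
      abel
    have h1 : ‖w a.1 s - w b.1 s - per (τ s) (b.2.1 + -a.2.1) (b.2.2 + -a.2.2)‖ < 2 * ε := by
      rw [e]
      have h2 := mem_ball_zero_iff.1 ha.2
      have h3 := mem_ball_zero_iff.1 hb.2
      linarith [norm_sub_le (D b s) (D a s)]
    have h2 := hsep s ha.1 _ _ _ _ h1 s' hs'.1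
    have h3 := e s'
    rw [h2, sub_self, eq_comm, sub_eq_zero] at h3
    exact ⟨hs'.1, by rw [Set.mem_preimage, h3]; exact hs'.2⟩
  have e0 : D (j, m, l) =ᶠ[𝓝 0] fun s => p s i - w j s - per (τ s) m l := by
    filter_upwards [hFp] with s hs
    simp only [D, hs]
  have hz : (0 : ℂ) ∈ O (j, m, l) :=
    ⟨Metric.mem_ball_self hρ, mem_ball_zero_iff.2 (by rw [e0.eq_of_nhds]; exact h0)⟩
  have hsub : Metric.ball (0 : ℂ) ρ ⊆ O (j, m, l) := by
    refine (convex_ball (0 : ℂ) ρ).isPreconnected.subset_left_of_subset_union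
      (v := ⋃ a ∈ {a | Disjoint (O a) (O (j, m, l))}, O a) (hO _)
      (isOpen_biUnion fun a _ => hO a) ?_ (fun s hs => ?_) ⟨0, hz.1, hz⟩
    · exact Set.disjoint_iUnion₂_right.2 fun a ha => Disjoint.symm ha
    · obtain ⟨q, hq, k, hk⟩ := hFS s hs
      obtain ⟨j', m', l', h⟩ := hcl s hs q hq k
      have hs' : s ∈ O (j', m', l') := ⟨hs, mem_ball_zero_iff.2 (by simpa only [D, hk] using h)⟩
      by_cases hd : Disjoint (O (j', m', l')) (O (j, m, l))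
      · exact Or.inr (Set.mem_biUnion hd hs')
      · exact Or.inl (hm _ _ hd hs')
  rw [← e0.deriv_eq]
  refine Complex.norm_deriv_le_div_of_mapsTo_ball (hD _).differentiableOn (fun s hs => ?_) hρ
  rw [mem_closedBall_iff_norm]
  have h2 := mem_ball_zero_iff.1 (hsub hs).2
  have h3 := mem_ball_zero_iff.1 hz.2
  linarith [norm_sub_le (D (j, m, l) s) (D (j, m, l) 0)]

end Pool.Agent.MP_cf0a82_ag

end
end
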