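import Pool.Agent.Mg.Fcf0a82q.G67c0ca
import Pool.Agent.Mg.Fcf0a82q.Gfc3401

section

open Complex Filter Topology Matrix Function

noncomputable section

namespace Pool.Agent.MP_cf0a82_ag

open Pool.Agent.MP_f58063_ag

variable {d : ℕ}

theorem pc_an {X V : Type} [NormedAddCommGroup X] [NormedSpace ℂ X] [NormedAddCommGroup V]
    [NormedSpace ℂ V] {c : X → Fin (d + 1) → V} {t : X → ℂ} {x : X} (hc : AnalyticAt ℂ c x)
    (ht : AnalyticAt ℂ t x) : AnalyticAt ℂ (fun x => pc (c x) (t x)) x := by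
  unfold pc
  refine Finset.analyticAt_fun_sum _ fun i _ => ?_
  exact (ht.pow (i : ℕ)).smul (analyticAt_pi_iff.1 hc i)

theorem pc_zero {V : Type} [AddCommMonoid V] [Module ℂ V] (c : Fin (d + 1) → V) :
    pc c 0 = c 0 := by
  unfold pc
  rw [Fin.sum_univ_succ]
  simp

theorem pc_rev {V : Type} [AddCommMonoid V] [Module ℂ V] (c : Fin (d + 1) → V) {s : ℂ}
    (hs : s ≠ 0) : pc (fun i => c i.rev) s = s ^ d • pc c s⁻¹ := by
  unfold pc
  rw [Finset.smul_sum, ← Equiv.sum_comp Fin.revPerm]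
  refine Finset.sum_congr rfl fun i _ => ?_
  simp only [Fin.revPerm_apply, Fin.rev_rev, smul_smul]
  congr 1
  have hi : (i : ℕ) ≤ d := Nat.lt_succ_iff.1 i.2
  have h1 : ((Fin.rev i : Fin (d + 1)) : ℕ) = d - i := by
    rw [Fin.val_rev]; omega
  rw [h1, inv_pow, pow_sub₀ s hs hi]

/-- the coordinate polynomials of a polynomial curve -/
def xepcP {κ : Type} (c : Fin (d + 1) → κ → ℂ) (j : κ) : Polynomial ℂ :=
  ∑ i : Fin (d + 1), Polynomial.monomial (i : ℕ) (c i j)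

theorem xepcP_eval {κ : Type} (c : Fin (d + 1) → κ → ℂ) (j : κ) (t : ℂ) :
    (xepcP c j).eval t = pc c t j := by
  unfold xepcP pc
  rw [Polynomial.eval_finsetSum, Finset.sum_apply]
  refine Finset.sum_congr rfl fun i _ => ?_
  simp [mul_comm]

theorem xepcP_deg {κ : Type} (c : Fin (d + 1) → κ → ℂ) (j : κ) : (xepcP c j).natDegree ≤ d := by
  unfold xepcP
  refine Polynomial.natDegree_sum_le_of_forall_le _ _ fun i _ => ?_
  exact (Polynomial.natDegree_monomial_le _).trans (Nat.lt_succ_iff.1 i.2)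

theorem xepcP_an {κ : Type} [Fintype κ] (j : κ) (k : ℕ) (c : Fin (d + 1) → κ → ℂ) :
    AnalyticAt ℂ (fun c : Fin (d + 1) → κ → ℂ => (xepcP c j).coeff k) c := by
  unfold xepcP
  simp only [Polynomial.finsetSum_coeff, Polynomial.coeff_monomial]
  refine Finset.analyticAt_fun_sum _ fun i _ => ?_
  by_cases h : (i : ℕ) = k
  · simp only [h, if_true]
    have h1 : AnalyticAt ℂ (fun c : Fin (d + 1) → κ → ℂ => c i) c :=
      analyticAt_pi_iff.1 analyticAt_id i
    exact analyticAt_pi_iff.1 h1 j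
  · simp only [h, if_false]
    exact analyticAt_const

theorem xepc_ind {κ : Type} [Fintype κ] (Δ : MvPolynomial κ ℂ) (d : ℕ) :
    ∃ D : ℕ, (∀ c : Fin (d + 1) → κ → ℂ, (MvPolynomial.aeval (xepcP c) Δ).natDegree ≤ D) ∧
      ∀ (k : ℕ) (c : Fin (d + 1) → κ → ℂ), AnalyticAt ℂ
        (fun c : Fin (d + 1) → κ → ℂ => (MvPolynomial.aeval (xepcP c) Δ).coeff k) c := by
  induction Δ using MvPolynomial.induction_on with
  | C a =>
    refine ⟨0, fun c => ?_, fun k c => ?_⟩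
    · simp
    · simp only [MvPolynomial.algHom_C]
      exact analyticAt_const
  | add p q hp hq =>
    obtain ⟨D, h1, h2⟩ := hp
    obtain ⟨D', h1', h2'⟩ := hq
    refine ⟨max D D', fun c => ?_, fun k c => ?_⟩
    · rw [map_add]
      exact (Polynomial.natDegree_add_le _ _).trans (max_le_max (h1 c) (h1' c))
    · simp only [map_add, Polynomial.coeff_add]
      exact (h2 k c).add (h2' k c)
  | mul_X p j hp =>
    obtain ⟨D, h1, h2⟩ := hp
    refine ⟨D + d, fun c => ?_, fun k c => ?_⟩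
    · rw [map_mul, MvPolynomial.aeval_X]
      exact Polynomial.natDegree_mul_le.trans (add_le_add (h1 c) (xepcP_deg c j))
    · simp only [map_mul, MvPolynomial.aeval_X, Polynomial.coeff_mul]
      refine Finset.analyticAt_fun_sum _ fun x _ => ?_
      exact (h2 x.1 c).mul (xepcP_an j x.2 c)

theorem xepc_eval {κ : Type} (Δ : MvPolynomial κ ℂ) (c : Fin (d + 1) → κ → ℂ) (t : ℂ) :
    (MvPolynomial.aeval (xepcP c) Δ).eval t = MvPolynomial.eval (pc c t) Δ := by
  induction Δ using MvPolynomial.induction_on with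
  | C a => simp
  | add p q hp hq => simp only [map_add, Polynomial.eval_add, hp, hq]
  | mul_X p j hp =>
    simp only [map_mul, MvPolynomial.aeval_X, Polynomial.eval_mul, hp, xepcP_eval,
      MvPolynomial.eval_X]

theorem xepc_range (p : Polynomial ℂ) {D : ℕ} (h : p.natDegree ≤ D) (t : ℂ) :
    p.eval t = pc (fun i : Fin (D + 1) => p.coeff i) t := by
  unfold pc
  rw [Polynomial.eval_eq_sum_range' (Nat.lt_succ_of_le h),
    Fin.sum_univ_eq_sum_range (fun i => t ^ i • p.coeff i) (D + 1)]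
  refine Finset.sum_congr rfl fun i _ => ?_
  rw [smul_eq_mul, mul_comm]

/-- a polynomial in the coefficients of a polynomial curve is a polynomial in the parameter -/
theorem poly_fam {κ : Type} [Fintype κ] (Δ : MvPolynomial κ ℂ) (d : ℕ) :
    ∃ (D : ℕ) (a : (Fin (d + 1) → κ → ℂ) → Fin (D + 1) → ℂ), (∀ c, AnalyticAt ℂ a c) ∧
      ∀ c t, MvPolynomial.eval (pc c t) Δ = pc (a c) t := by
  obtain ⟨D, h1, h2⟩ := xepc_ind Δ d
  refine ⟨D, fun c i => (MvPolynomial.aeval (xepcP c) Δ).coeff i, fun c => ?_, fun c t => ?_⟩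
  · exact AnalyticAt.pi fun i => h2 i c
  · rw [← xepc_eval, xepc_range _ (h1 c)]

theorem pc_finite {a : Fin (d + 1) → ℂ} (h : ∃ t, pc a t ≠ 0) : {t | pc a t = 0}.Finite := by
  set p : Polynomial ℂ := ∑ i : Fin (d + 1), Polynomial.monomial (i : ℕ) (a i) with hp
  have he : ∀ t, p.eval t = pc a t := by
    intro t
    rw [hp]
    unfold pc
    rw [Polynomial.eval_finsetSum]
    refine Finset.sum_congr rfl fun i _ => ?_
    simp [mul_comm]
  have h0 : p ≠ 0 := by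
    rintro h0
    obtain ⟨t, ht⟩ := h
    apply ht
    rw [← he, h0, Polynomial.eval_zero]
  refine (p.roots.toFinset.finite_toSet).subset fun t ht => ?_
  simp only [Finset.mem_coe, Multiset.mem_toFinset, Polynomial.mem_roots h0, Polynomial.IsRoot.def]
  rw [he]
  exact ht

end Pool.Agent.MP_cf0a82_ag

end
end

section

open Complex Filter Topology Matrix Function

noncomputable section

namespace Pool.Agent.MP_cf0a82_ag

open Pool.Agent.MP_f58063_ag

variable {J : Type} [Fintype J] {n g : ℕ} {Ω : Set (Mat g)} {Φ : Mat g → EE g → J → ℂ}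

lemma xesepf_det {P V W : Type} [AddCommGroup P] [Module ℂ P] [FiniteDimensional ℂ P]
    [AddCommGroup V] [Module ℂ V] [AddCommGroup W] [Module ℂ W] (A : V →ₗ[ℂ] P →ₗ[ℂ] W) {G₀ : V}
    (h : LinearMap.ker (A G₀) = ⊥) :
    ∃ (N : ℕ) (M : Fin N → Fin N → V →ₗ[ℂ] ℂ), (Matrix.of fun i j => M i j G₀).det ≠ 0 ∧
      ∀ G, (Matrix.of fun i j => M i j G).det ≠ 0 → LinearMap.ker (A G) = ⊥ := by
  obtain ⟨Lm, hL⟩ := (A G₀).exists_leftInverse_of_injective h
  let b := Module.finBasis ℂ P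
  let B : V →ₗ[ℂ] Matrix (Fin (Module.finrank ℂ P)) (Fin (Module.finrank ℂ P)) ℂ :=
    (LinearMap.toMatrix b b).toLinearMap ∘ₗ (LinearMap.llcomp ℂ P W P Lm) ∘ₗ A
  have hB : ∀ G, (Matrix.of fun i j => ((Matrix.entryLinearMap ℂ ℂ i j) ∘ₗ B) G).det =
      LinearMap.det (Lm ∘ₗ A G) := by
    intro G
    rw [← LinearMap.det_toMatrix b]
    rfl
  refine ⟨_, fun i j => (Matrix.entryLinearMap ℂ ℂ i j) ∘ₗ B, ?_, fun G hG => ?_⟩
  · rw [hB, hL, LinearMap.det_id]
    exact one_ne_zero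
  · rw [hB, Ne, LinearMap.det_eq_zero_iff_ker_ne_bot, not_not] at hG
    exact le_bot_iff.1 (hG ▸ LinearMap.ker_le_ker_comp _ _)

open Polynomial in
/-- the map `(a, b) ↦ a G + b G'` -/
def xesepfA (r : ℕ) : ℂ[X] →ₗ[ℂ] (degreeLT ℂ r × degreeLT ℂ r) →ₗ[ℂ] ℂ[X] :=
  LinearMap.mk₂ ℂ (fun G p => (p.1 : ℂ[X]) * G + (p.2 : ℂ[X]) * derivative G)
    (fun G G' p => by simp only [derivative_add]; ring)
    (fun c G p => by simp only [derivative_smul, smul_add, mul_smul_comm])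
    (fun G p p' => by simp only [Prod.fst_add, Prod.snd_add, Submodule.coe_add]; ring)
    (fun c G p => by
      simp only [Prod.smul_fst, Prod.smul_snd, Submodule.coe_smul, smul_add, smul_mul_assoc])

open Polynomial in
lemma xesepfA_apply (r : ℕ) (G : ℂ[X]) (p : degreeLT ℂ r × degreeLT ℂ r) :
    xesepfA r G p = (p.1 : ℂ[X]) * G + (p.2 : ℂ[X]) * derivative G := rfl

open Polynomial in
lemma xesepf_inj {r : ℕ} {G : ℂ[X]} (h0 : G ≠ 0) (hr : r ≤ G.roots.toFinset.card) :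
    LinearMap.ker (xesepfA r G) = ⊥ := by
  rw [LinearMap.ker_eq_bot']
  rintro ⟨⟨a, ha⟩, ⟨b, hb⟩⟩ h
  rw [xesepfA_apply] at h
  simp only at h
  have hb0 : b = 0 := by
    refine Polynomial.eq_zero_of_degree_lt_of_eval_finset_eq_zero G.roots.toFinset
      ((mem_degreeLT.1 hb).trans_le (by exact_mod_cast hr)) fun t ht => ?_
    have hrt : G.IsRoot t := (mem_roots h0).1 (Multiset.mem_toFinset.1 ht)
    by_contra hbt
    have hb1 : b ≠ 0 := by rintro rfl; simp at hbt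
    have hm : 0 < G.rootMultiplicity t := (rootMultiplicity_pos h0).2 hrt
    have hd0 : derivative G ≠ 0 := by
      intro hd
      have h1 : G.natDegree = 0 := derivative_eq_zero.1 hd
      rw [eq_C_of_natDegree_eq_zero h1] at hrt h0
      simp only [IsRoot.def, eval_C] at hrt
      exact h0 (by rw [hrt, map_zero])
    have h1 : (b * derivative G).rootMultiplicity t = G.rootMultiplicity t - 1 := by
      rw [rootMultiplicity_mul (mul_ne_zero hb1 hd0), rootMultiplicity_eq_zero hbt,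
        derivative_rootMultiplicity_of_root hrt, zero_add]
    have h2 : (X - C t) ^ G.rootMultiplicity t ∣ b * derivative G := by
      rw [← neg_eq_of_add_eq_zero_right h, dvd_neg]
      exact (pow_rootMultiplicity_dvd G t).mul_left a
    have h3 := (le_rootMultiplicity_iff (mul_ne_zero hb1 hd0)).2 h2
    omega
  subst hb0
  have ha0 : a = 0 := by simpa [h0] using h
  subst ha0
  rfl

open Polynomial UniqueFactorizationMonoid EuclideanDomain in
lemma xesepf_ker {r : ℕ} {G : ℂ[X]} (h : LinearMap.ker (xesepfA r G) = ⊥) :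
    r ≤ G.roots.toFinset.card := by
  classical
  rw [LinearMap.ker_eq_bot'] at h
  by_contra hr
  rw [not_le] at hr
  by_cases h0 : G = 0
  · have h1 : (1 : ℂ[X]) ∈ degreeLT ℂ r := by
      rw [mem_degreeLT, degree_one]
      exact_mod_cast Nat.zero_lt_of_lt hr
    have := h (⟨1, h1⟩, 0) (by simp [h0])
    simpa using congrArg (fun p : degreeLT ℂ r × degreeLT ℂ r => (p.1 : ℂ[X])) this
  obtain ⟨E, hE⟩ := divRadical_dvd_derivative G
  have hB0 : radical G ≠ 0 := radical_ne_zero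
  have hBD : radical G * divRadical G = G := radical_mul_divRadical
  have hBd : (radical G).natDegree < r := by
    refine lt_of_le_of_lt ?_ hr
    have hn : (radical G).roots.Nodup :=
      nodup_roots (PerfectField.separable_iff_squarefree.2 squarefree_radical)
    rw [← IsAlgClosed.card_roots_eq_natDegree, ← Multiset.toFinset_card_of_nodup hn]
    exact Finset.card_le_card (Multiset.toFinset_subset.2
      (Multiset.subset_of_le (roots.le_of_dvd h0 radical_dvd_self)))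
  have hB : radical G ∈ degreeLT ℂ r := by
    rw [mem_degreeLT, degree_eq_natDegree hB0]
    exact_mod_cast hBd
  have hA : -E ∈ degreeLT ℂ r := by
    rw [mem_degreeLT, degree_neg]
    by_cases hE0 : E = 0
    · rw [hE0, degree_zero]
      exact WithBot.bot_lt_coe r
    have hD0 : divRadical G ≠ 0 := divRadical_ne_zero h0
    have h1 : (derivative G).natDegree = (divRadical G).natDegree + E.natDegree := by
      rw [hE, natDegree_mul hD0 hE0]
    have h2 : G.natDegree = (radical G).natDegree + (divRadical G).natDegree := by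
      rw [← natDegree_mul hB0 hD0, hBD]
    have h3 := natDegree_derivative_le G
    rw [degree_eq_natDegree hE0]
    exact_mod_cast (by omega : E.natDegree < r)
  have := h (⟨-E, hA⟩, ⟨radical G, hB⟩) (by
    rw [xesepfA_apply]
    simp only
    rw [hE, ← mul_assoc, hBD]
    ring)
  exact hB0 (congrArg (fun p : degreeLT ℂ r × degreeLT ℂ r => (p.2 : ℂ[X])) this)

/-- having at least `r` distinct roots is a Zariski open condition -/
theorem roots_open {r : ℕ} {G₀ : Polynomial ℂ} (h0 : G₀ ≠ 0) (hd : G₀.natDegree ≤ n)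
    (hr : r ≤ G₀.roots.toFinset.card) :
    ∃ Δ : MvPolynomial ℕ ℂ, MvPolynomial.eval G₀.coeff Δ ≠ 0 ∧
      ∀ G : Polynomial ℂ, G.natDegree ≤ n → MvPolynomial.eval G.coeff Δ ≠ 0 →
        r ≤ G.roots.toFinset.card := by
  obtain ⟨N, M, hM, hG⟩ := xesepf_det (xesepfA r) (xesepf_inj h0 hr)
  let D : Matrix (Fin N) (Fin N) (MvPolynomial ℕ ℂ) := Matrix.of fun i j =>
    ∑ m ∈ Finset.range (n + 1), MvPolynomial.X m * MvPolynomial.C (M i j (Polynomial.X ^ m))
  have key : ∀ G : Polynomial ℂ, G.natDegree ≤ n →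
      MvPolynomial.eval G.coeff D.det = (Matrix.of fun i j => M i j G).det := by
    intro G hG
    rw [RingHom.map_det]
    congr 1
    ext i j
    conv_rhs => rw [G.as_sum_range_C_mul_X_pow' (Nat.lt_succ_of_le hG)]
    simp [D, map_sum, ← Polynomial.smul_eq_C_mul]
  refine ⟨D.det, by rwa [key G₀ hd], fun G hd' h => xesepf_ker (hG G ?_)⟩
  rwa [← key G hd']

/-- the roots of the restriction of a Chow form to a line -/
lemma xesepf_root {c : Tn J n} {w : Fin n → J → ℂ} (h : Ch c w) (u v : J → ℂ) (t : ℂ) :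
    t ∈ (Cp c u v).roots ↔ (∀ i, Polynomial.C (u ⬝ᵥ w i) + Polynomial.C (v ⬝ᵥ w i) *
      Polynomial.X ≠ 0) ∧ ∃ i, u ⬝ᵥ w i + v ⬝ᵥ w i * t = 0 := by
  obtain ⟨κ, hκ, h⟩ := h
  rw [Polynomial.mem_roots', Cp_of_ch h]
  simp [hκ, Finset.prod_eq_zero_iff, Polynomial.eval_prod]

lemma xesepf_coeff (u v : J → ℂ) (Δ : MvPolynomial ℕ ℂ) :
    ∃ Δ' : MvPolynomial (Fin n → J) ℂ, ∀ c : Tn J n,
      MvPolynomial.eval c Δ' = MvPolynomial.eval (Cp c u v).coeff Δ := by
  refine ⟨MvPolynomial.bind₁ (fun m => ∑ j : Fin n → J, MvPolynomial.X j * MvPolynomial.C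
    ((∏ i, (Polynomial.C (u (j i)) + Polynomial.C (v (j i)) * Polynomial.X)).coeff m)) Δ,
    fun c => ?_⟩
  have h1 := MvPolynomial.aeval_bind₁ (S := ℂ) c (fun m : ℕ => ∑ j : Fin n → J,
    MvPolynomial.X j * MvPolynomial.C
    ((∏ i, (Polynomial.C (u (j i)) + Polynomial.C (v (j i)) * Polynomial.X)).coeff m)) Δ
  simp only [MvPolynomial.aeval_eq_eval] at h1
  rw [h1]
  congr 2
  funext m
  simp [Cp]

lemma xesepf_rep {Q : Type} (f : Fin n → Q) : ∃ S : Finset (Fin n),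
    S.card = (Set.range f).ncard ∧ (∀ i ∈ S, ∀ j ∈ S, f i = f j → i = j) ∧
      ∀ i, ∃ j ∈ S, f i = f j := by
  classical
  obtain ⟨S, -, hi, hS⟩ := Finset.exists_subset_injOn_image_eq_of_surjOn (f := f) Set.univ
    (Finset.univ.image f) (by simp [Set.SurjOn])
  refine ⟨S, ?_, fun i hi' j hj e => hi hi' hj e, fun i => ?_⟩
  · rw [← Finset.card_image_of_injOn hi, hS, ← Set.ncard_coe_finset]
    simp
  · have : f i ∈ S.image f := by rw [hS]; simp
    obtain ⟨j, hj, e⟩ := Finset.mem_image.1 this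
    exact ⟨j, hj, e.symm⟩

lemma xesepf_mk {τ : Mat g} {z z' : EE g} :
    (QuotientAddGroup.mk z : EE g ⧸ latG τ) = QuotientAddGroup.mk z' ↔
      ∃ m l, z = z' + per τ m l := by
  rw [eq_comm, QuotientAddGroup.eq]
  constructor
  · rintro ⟨m, l, h⟩
    exact ⟨m, l, by rw [← neg_add_eq_iff_eq_add]; exact h⟩
  · rintro ⟨m, l, rfl⟩
    exact ⟨m, l, by rw [neg_add_cancel_left]; rfl⟩

theorem sepf {c₀ : Tn J n} {w₀ : Fin n → J → ℂ} (h : Ch c₀ w₀) (hw : ∀ i, w₀ i ≠ 0)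
    (S : Finset (Fin n)) (hS : ∀ i ∈ S, ∀ j ∈ S, ∀ a : ℂ, w₀ i = a • w₀ j → i = j) :
    ∃ Δ : MvPolynomial (Fin n → J) ℂ, MvPolynomial.eval c₀ Δ ≠ 0 ∧ ∀ c w, Ch c w →
      MvPolynomial.eval c Δ ≠ 0 → ∀ T : Finset (Fin n),
        (∀ i, ∃ j ∈ T, ∃ a : ℂ, w i = a • w j) → S.card ≤ T.card := by
  classical
  obtain ⟨v, hv⟩ := prod_ne hw
  obtain ⟨u, hu⟩ := prod_ne (κ := {p : Fin n × Fin n // p.1 ∈ S ∧ p.2 ∈ S ∧ p.1 ≠ p.2})
    (w := fun p => (v ⬝ᵥ w₀ p.1.2) • w₀ p.1.1 - (v ⬝ᵥ w₀ p.1.1) • w₀ p.1.2) (by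
      rintro ⟨⟨i, j⟩, hi, hj, hij⟩ e
      refine hij (hS i hi j hj ((v ⬝ᵥ w₀ j)⁻¹ * (v ⬝ᵥ w₀ i)) ?_)
      simp only at e
      rw [mul_smul, ← sub_eq_zero.1 e, smul_smul, inv_mul_cancel₀ (hv j), one_smul])
  have hne : ∀ i, Polynomial.C (u ⬝ᵥ w₀ i) + Polynomial.C (v ⬝ᵥ w₀ i) * Polynomial.X ≠ 0 := by
    intro i e
    have := congrArg (fun p : Polynomial ℂ => p.coeff 1) e
    simp [hv i] at this
  have h0 : Cp c₀ u v ≠ 0 := by
    obtain ⟨κ, hκ, h⟩ := h
    rw [Cp_of_ch h]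
    exact mul_ne_zero (by simpa using hκ) (Finset.prod_ne_zero_iff.2 fun i _ => hne i)
  have hr : S.card ≤ (Cp c₀ u v).roots.toFinset.card := by
    refine Finset.card_le_card_of_injOn (fun i => -(u ⬝ᵥ w₀ i) / (v ⬝ᵥ w₀ i)) (fun i _ => ?_)
      fun i hi j hj e => ?_
    · rw [Finset.mem_coe, Multiset.mem_toFinset, xesepf_root h]
      refine ⟨hne, i, ?_⟩
      have := hv i
      field_simp
      ring
    · by_contra hij
      refine hu ⟨(i, j), hi, hj, hij⟩ ?_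
      simp only [dotProduct_sub, dotProduct_smul, smul_eq_mul]
      simp only at e
      rw [div_eq_div_iff (hv i) (hv j)] at e
      linear_combination -e
  obtain ⟨Δ, hΔ, hG⟩ := roots_open h0 (Cp_natDegree c₀ u v) hr
  obtain ⟨Δ', hΔ'⟩ := xesepf_coeff (n := n) u v Δ
  refine ⟨Δ', by rwa [hΔ'], fun c w hc hc' T hT => ?_⟩
  rw [hΔ'] at hc'
  refine (hG _ (Cp_natDegree c u v) hc').trans ?_
  refine le_trans (Finset.card_le_card fun t ht => ?_)
    (Finset.card_image_le (s := T) (f := fun j => -(u ⬝ᵥ w j) / (v ⬝ᵥ w j)))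
  rw [Multiset.mem_toFinset, xesepf_root hc] at ht
  obtain ⟨h1, i, hi⟩ := ht
  obtain ⟨j, hj, a, ha⟩ := hT i
  have ha0 : a ≠ 0 := by
    rintro rfl
    exact h1 i (by simp [ha])
  have hj' : u ⬝ᵥ w j + v ⬝ᵥ w j * t = 0 := by
    rw [ha] at hi
    simp only [dotProduct_smul, smul_eq_mul] at hi
    exact mul_left_cancel₀ ha0 (by linear_combination hi)
  have hvj : v ⬝ᵥ w j ≠ 0 := by
    intro e
    rw [e, zero_mul, add_zero] at hj'
    exact h1 j (by simp [e, hj'])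
  refine Finset.mem_image.2 ⟨j, hj, ?_⟩
  rw [div_eq_iff hvj]
  linear_combination -hj'

theorem Emb.delta (hE : Emb Ω Φ) {τ₀ : Mat g} (h0 : τ₀ ∈ Ω) {c₀ : Tn J n} {q₀ : Fin n → EE g}
    (hq : Cy Φ τ₀ c₀ q₀) : ∃ Δ : MvPolynomial (Fin n → J) ℂ, MvPolynomial.eval c₀ Δ ≠ 0 ∧
      ∀ τ ∈ Ω, ∀ c q, Cy Φ τ c q → MvPolynomial.eval c Δ ≠ 0 → nd τ₀ q₀ ≤ nd τ q := by
  obtain ⟨S, hS, hi, -⟩ := xesepf_rep fun i => (QuotientAddGroup.mk (q₀ i) : EE g ⧸ latG τ₀)
  obtain ⟨Δ, hΔ, hG⟩ := sepf hq (fun i => hE.ne τ₀ h0 _) S fun i hi' j hj a e =>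
    hi i hi' j hj (xesepf_mk.2 (hE.inj τ₀ h0 _ _ a e))
  refine ⟨Δ, hΔ, fun τ hτ c q hc hc' => ?_⟩
  obtain ⟨T, hT, -, hs⟩ := xesepf_rep fun i => (QuotientAddGroup.mk (q i) : EE g ⧸ latG τ)
  unfold nd
  rw [← hS, ← hT]
  refine hG c _ hc hc' T fun i => ?_
  obtain ⟨j, hj, e⟩ := hs i
  obtain ⟨m, l, e⟩ := xesepf_mk.1 e
  obtain ⟨κ, -, hκ⟩ := hE.qp τ hτ m l (q j)
  exact ⟨j, hj, κ, by rw [← hκ, ← e]⟩

end Pool.Agent.MP_cf0a82_ag

end
end

section

open Complex Filter Topology Matrix Function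

noncomputable section

namespace Pool.Agent.MP_cf0a82_ag

open Pool.Agent.MP_f58063_ag

variable {J : Type} [Fintype J] {n g d : ℕ} {Ω : Set (Mat g)} {Φ : Mat g → EE g → J → ℂ}

/-- a rational curve that meets the Chow variety in an open set lies in it -/
theorem Emb.glob (hE : Emb Ω Φ) {τ : Mat g} (hτ : τ ∈ Ω) {c : Fin (d + 1) → Tn J n}
    (hne : ∀ t, Nz (pc c t)) {t₀ : ℂ} (h : ∀ᶠ t in 𝓝 t₀, ∃ q, Cy Φ τ (pc c t) q) (t : ℂ) :
    ∃ q, Cy Φ τ (pc c t) q := by
  have han : ∀ x : ℂ, AnalyticAt ℂ (fun t : ℂ => pc c t) x := fun x =>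
    pc_an (c := fun _ : ℂ => c) (t := fun t : ℂ => t) analyticAt_const analyticAt_id
  have hcl : ∀ (A : Set ℂ), (∀ x ∈ A, ∃ q, Cy Φ τ (pc c x) q) → ∀ x ∈ closure A,
      ∃ q, Cy Φ τ (pc c x) q := by
    intro A hA x hx
    have := mem_closure_iff_nhdsWithin_neBot.1 hx
    exact hE.closed (F := 𝓝[A] x) (τ := fun _ => τ) (c := fun t => pc c t) tendsto_const_nhds
      ((han x).continuousAt.tendsto.mono_left nhdsWithin_le_nhds) hτ
      (Eventually.of_forall fun _ => hτ) (hne x) (eventually_nhdsWithin_of_forall hA)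
  set O := interior {t | ∃ q, Cy Φ τ (pc c t) q} with hO
  have hOS : ∀ x ∈ O, ∃ q, Cy Φ τ (pc c x) q := fun x hx =>
    interior_subset (s := {t | ∃ q, Cy Φ τ (pc c t) q}) hx
  have h0 : t₀ ∈ O := mem_interior_iff_mem_nhds.2 h
  set T : Set ℕ := {k | ∃ x ∈ O, ∃ q, Cy Φ τ (pc c x) q ∧ nd τ q = k} with hT
  have hb : BddAbove T := ⟨n, by
    rintro _ ⟨x, -, q, -, rfl⟩
    exact nd_le τ q⟩
  have hn : T.Nonempty := by
    obtain ⟨q, hq⟩ := hOS t₀ h0
    exact ⟨_, t₀, h0, q, hq, rfl⟩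
  obtain ⟨t₁, ht₁, q₁, hq₁, hr⟩ := Nat.sSup_mem hn hb
  have hmax : ∀ x ∈ O, ∀ q, Cy Φ τ (pc c x) q → nd τ q ≤ nd τ q₁ := fun x hx q hq =>
    hr ▸ le_csSup hb ⟨x, hx, q, hq, rfl⟩
  obtain ⟨Δ, hΔ, hΔ'⟩ := hE.delta hτ hq₁
  obtain ⟨D, a, -, ha⟩ := poly_fam Δ d
  have hZ : {t | pc (a c) t = 0}.Finite := pc_finite ⟨t₁, ha c t₁ ▸ hΔ⟩
  have hW : IsPreconnected {t | pc (a c) t = 0}ᶜ :=
    (hZ.countable.isConnected_compl_of_one_lt_rank (by simp)).isPreconnected
  have hsub : {t | pc (a c) t = 0}ᶜ ⊆ O := by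
    refine hW.subset_of_closure_inter_subset isOpen_interior
      ⟨t₁, fun h1 => hΔ ((ha c t₁).trans h1), ht₁⟩ ?_
    rintro x ⟨hx, hx'⟩
    obtain ⟨q, hq⟩ := hcl O hOS x hx
    have hle : nd τ q₁ ≤ nd τ q := hΔ' τ hτ _ q hq fun h1 => hx' ((ha c x).symm.trans h1)
    obtain ⟨p, -, hp⟩ := hE.br (τ := fun _ : ℂ => τ) (c := fun t => pc c t) analyticAt_const
      (han x) (Eventually.of_forall fun _ => hτ) hq (by
        refine (mem_closure_iff_frequently.1 hx).mono fun y hy => ?_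
        filter_upwards [isOpen_interior.mem_nhds hy] with z hz
        obtain ⟨q', hq'⟩ := hOS z hz
        exact ⟨q', hq', (hmax z hz q' hq').trans hle⟩)
    exact mem_interior_iff_mem_nhds.2 (hp.mono fun y hy => ⟨_, hy⟩)
  exact hcl _ (fun x hx => hOS x (hsub hx)) t (hZ.countable.dense_compl ℂ t)

end Pool.Agent.MP_cf0a82_ag

end
end

section

open Complex Filter Topology Matrix Function

noncomputable section

namespace Pool.Agent.MP_cf0a82_ag

open Pool.Agent.MP_f58063_ag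

section

variable {X : Type} [NormedAddCommGroup X] [NormedSpace ℂ X]

/-- the conclusion for a family of polynomials -/
def xErootsR (U : Set X) (P : X → Polynomial ℂ) : Prop :=
  ∃ (U' : Set X) (r : ℕ) (b : Fin r → X → ℂ), IsOpen U' ∧ U'.Nonempty ∧ U' ⊆ U ∧
    (∀ j, AnalyticOnNhd ℂ (b j) U') ∧ ∀ e ∈ U', ∀ t, (P e).eval t = 0 → ∃ j, t = b j e

lemma xEroots_const {U : Set X} (hU : IsOpen U) {P : X → Polynomial ℂ}
    (ha : ∀ k, AnalyticOnNhd ℂ (fun e => (P e).coeff k) U) (h : ∃ e ∈ U, P e ≠ 0)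
    (h0 : ∀ e ∈ U, (P e).natDegree = 0) : xErootsR U P := by
  obtain ⟨e, he, hP⟩ := h
  refine ⟨U ∩ (fun e => (P e).coeff 0) ⁻¹' {0}ᶜ, 0, Fin.elim0,
    (ha 0).continuousOn.isOpen_inter_preimage hU isOpen_compl_singleton, ⟨e, he, fun h => hP ?_⟩,
    Set.inter_subset_left, fun j => j.elim0, fun x hx t ht => absurd ?_ hx.2⟩
  · rw [Polynomial.eq_C_of_natDegree_eq_zero (h0 e he), show (P e).coeff 0 = 0 from h, map_zero]
  · rw [Polynomial.eq_C_of_natDegree_eq_zero (h0 x hx.1), Polynomial.eval_C] at ht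
    exact ht

lemma xEroots_simple [FiniteDimensional ℂ X] {D : ℕ} {P : X → Polynomial ℂ}
    (hd : ∀ e, (P e).natDegree ≤ D) {e : X}
    (ha : ∀ k, AnalyticAt ℂ (fun e => (P e).coeff k) e) {t : ℂ} (h0 : (P e).eval t = 0)
    (h1 : (P e).derivative.eval t ≠ 0) :
    ∃ b : X → ℂ, AnalyticAt ℂ b e ∧ ∀ᶠ x in 𝓝 e, (P x).eval (b x) = 0 := by
  have hH : AnalyticAt ℂ (fun z : X × ℂ => (P z.1).eval z.2) (e, t) := by
    have : (fun z : X × ℂ => (P z.1).eval z.2) =
        fun z => ∑ k ∈ Finset.range (D + 1), (P z.1).coeff k * z.2 ^ k :=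
      funext fun z => Polynomial.eval_eq_sum_range' (Nat.lt_succ_of_le (hd _)) _
    rw [this]
    exact Finset.analyticAt_fun_sum _ fun k _ =>
      (AnalyticAt.comp_of_eq (ha k) analyticAt_fst rfl).mul (analyticAt_snd.pow k)
  have hD : fderiv ℂ (fun z : X × ℂ => (P z.1).eval z.2) (e, t) (0, 1) =
      (P e).derivative.eval t := by
    have h2 : HasDerivAt (fun s : ℂ => (e, s)) ((0 : X), (1 : ℂ)) t :=
      (hasDerivAt_const t e).prodMk (hasDerivAt_id t)
    exact (hH.differentiableAt.hasFDerivAt.comp_hasDerivAt t h2).unique ((P e).hasDerivAt t)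
  obtain ⟨p, hp, -, h3, -⟩ := ift hH fun v hv => by
    rw [show ((0 : X), v) = v • ((0 : X), (1 : ℂ)) by simp, map_smul, hD, smul_eq_mul] at hv
    exact (mul_eq_zero.1 hv).resolve_right h1
  exact ⟨p, hp, h3.mono fun x hx => hx.trans h0⟩

lemma xEroots_coeff {D : ℕ} {p : Polynomial ℂ} (hd : p.natDegree ≤ D) (b : ℂ) (k : ℕ) :
    (p /ₘ (Polynomial.X - Polynomial.C b)).coeff k =
      ∑ i ∈ Finset.Icc (k + 1) D, b ^ (i - (k + 1)) * p.coeff i := by
  rw [Polynomial.coeff_divByMonic_X_sub_C]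
  refine Finset.sum_subset (Finset.Icc_subset_Icc_right hd) fun i hi hi' => ?_
  rw [Polynomial.coeff_eq_zero_of_natDegree_lt, mul_zero]
  rw [Finset.mem_Icc] at hi hi'
  omega

lemma xEroots_poly [FiniteDimensional ℂ X] (D : ℕ) : ∀ (U : Set X) (P : X → Polynomial ℂ),
    IsOpen U → (∀ e, (P e).natDegree ≤ D) →
    (∀ k, AnalyticOnNhd ℂ (fun e => (P e).coeff k) U) → (∃ e ∈ U, P e ≠ 0) → xErootsR U P := by
  induction D with
  | zero => exact fun U P hU hd ha h => xEroots_const hU ha h fun e _ => Nat.le_zero.1 (hd e)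
  | succ D ih =>
    intro U P hU hd ha h
    by_cases hA : ∃ e ∈ U, ∃ t, (P e).eval t = 0 ∧ (P e).derivative.eval t ≠ 0
    · obtain ⟨e, he, t, h0, h1⟩ := hA
      obtain ⟨b, hb, hr⟩ := xEroots_simple hd (fun k => ha k e he) h0 h1
      obtain ⟨V, hV, hVo, heV⟩ :=
        eventually_nhds_iff.1 ((hb.eventually_analyticAt.and hr).and (hU.mem_nhds he))
      have hm : ∀ x ∈ V, (Polynomial.X - Polynomial.C (b x)) *
          (P x /ₘ (Polynomial.X - Polynomial.C (b x))) = P x := fun x hx =>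
        Polynomial.mul_divByMonic_eq_iff_isRoot.2 (hV x hx).1.2
      obtain ⟨U', r, c, k1, k2, k3, k4, k5⟩ :=
        ih V (fun x => P x /ₘ (Polynomial.X - Polynomial.C (b x))) hVo (fun x => by
          rw [Polynomial.natDegree_divByMonic _ (Polynomial.monic_X_sub_C _),
            Polynomial.natDegree_X_sub_C]
          have := hd x
          omega) (fun k x hx => by
          simp only [xEroots_coeff (hd _)]
          exact Finset.analyticAt_fun_sum _ fun i _ =>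
            ((hV x hx).1.1.pow _).mul (ha i x (hV x hx).2)) ⟨e, heV, fun h2 => h1 (by
          rw [← hm e heV, h2]
          simp)⟩
      refine ⟨U', r + 1, Fin.cons b c, k1, k2, fun x hx => (hV x (k3 hx)).2, fun j => ?_,
        fun x hx s hs => ?_⟩
      · refine Fin.cases (fun x hx => (hV x (k3 hx)).1.1) (fun j => k4 j) j
      · rw [← hm x (k3 hx), Polynomial.eval_mul, mul_eq_zero] at hs
        rcases hs with hs | hs
        · exact ⟨0, by simpa [sub_eq_zero] using hs⟩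
        · obtain ⟨j, hj⟩ := k5 x hx s hs
          exact ⟨j.succ, hj⟩
    · push Not at hA
      by_cases hB : ∃ e ∈ U, (P e).derivative ≠ 0
      · obtain ⟨U', r, c, k1, k2, k3, k4, k5⟩ := ih U (fun x => (P x).derivative) hU (fun x => by
          have := Polynomial.natDegree_derivative_le (P x)
          have := hd x
          omega) (fun k x hx => by
          simp only [Polynomial.coeff_derivative]
          exact (ha _ x hx).mul analyticAt_const) hB
        exact ⟨U', r, c, k1, k2, k3, k4, fun x hx s hs => k5 x hx s (hA x (k3 hx) s hs)⟩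
      · push Not at hB
        exact xEroots_const hU ha h fun e he =>
          Polynomial.natDegree_eq_zero_of_derivative_eq_zero (hB e he)

end

/-- generically the roots of a polynomial with holomorphic coefficients are holomorphic -/
theorem roots_an {X : Type} [NormedAddCommGroup X] [NormedSpace ℂ X] [FiniteDimensional ℂ X]
    {U : Set X} (hU : IsOpen U) {D : ℕ} {a : X → Fin (D + 1) → ℂ} (ha : AnalyticOnNhd ℂ a U)
    (h : ∃ e ∈ U, a e ≠ 0) :
    ∃ (U' : Set X) (r : ℕ) (b : Fin r → X → ℂ), IsOpen U' ∧ U'.Nonempty ∧ U' ⊆ U ∧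
      (∀ j, AnalyticOnNhd ℂ (b j) U') ∧ ∀ e ∈ U', ∀ t, pc (a e) t = 0 → ∃ j, t = b j e := by
  let P : X → Polynomial ℂ := fun e => ∑ i : Fin (D + 1), Polynomial.monomial i (a e i)
  have hc : ∀ e k, (P e).coeff k = ∑ i : Fin (D + 1), if (i : ℕ) = k then a e i else 0 := by
    intro e k
    simp only [P, Polynomial.finset_sum_coeff, Polynomial.coeff_monomial]
  obtain ⟨U', r, c, k1, k2, k3, k4, k5⟩ := xEroots_poly D U P hU (fun e =>
    Polynomial.natDegree_sum_le_of_forall_le _ _ fun i _ =>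
      (Polynomial.natDegree_monomial_le _).trans (Nat.lt_succ_iff.1 i.2)) (fun k x hx => by
      simp only [hc]
      refine Finset.analyticAt_fun_sum _ fun i _ => ?_
      split_ifs
      · exact analyticAt_pi_iff.1 (ha x hx) i
      · exact analyticAt_const) (by
      obtain ⟨e, he, h⟩ := h
      refine ⟨e, he, fun h0 => h (funext fun i => ?_)⟩
      have := hc e i
      simpa [h0, Fin.val_inj] using this.symm)
  refine ⟨U', r, c, k1, k2, k3, k4, fun x hx s hs => k5 x hx s ?_⟩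
  rw [← hs]
  simp only [P, pc, Polynomial.eval_finset_sum, Polynomial.eval_monomial, smul_eq_mul, mul_comm]

end Pool.Agent.MP_cf0a82_ag

end
end

section

open Complex Filter Topology Matrix Function

noncomputable section

namespace Pool.Agent.MP_cf0a82_ag

open Pool.Agent.MP_f58063_ag

variable {J : Type} [Fintype J] {n g d : ℕ} {Ω : Set (Mat g)} {Φ : Mat g → EE g → J → ℂ}

theorem xeeqs_max {P : ℕ → Prop} {n : ℕ} (h0 : ∃ k, P k) (hb : ∀ k, P k → k ≤ n) :
    ∃ r, P r ∧ ∀ k, P k → k ≤ r := by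
  classical
  obtain ⟨k₀, hk₀⟩ := h0
  exact ⟨Nat.findGreatest P n, Nat.findGreatest_spec (hb _ hk₀) hk₀,
    fun k hk => Nat.le_findGreatest (hb _ hk) hk⟩

/-- generically the branch points of the family move holomorphically -/
theorem Emb.eqs (hE : Emb Ω Φ) {X : Type} [NormedAddCommGroup X] [NormedSpace ℂ X]
    [FiniteDimensional ℂ X] {U : Set X} (hU : IsOpen U) (hne : U.Nonempty) {τ : X → Mat g}
    (hτ : AnalyticOnNhd ℂ τ U) (hΩ : ∀ e ∈ U, τ e ∈ Ω) {c : X → Fin (d + 1) → Tn J n}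
    (hc : AnalyticOnNhd ℂ c U) (h : ∀ e ∈ U, ∀ t, ∃ q, Cy Φ (τ e) (pc (c e) t) q) :
    ∃ (U' : Set X) (r : ℕ) (b : Fin r → X → ℂ), IsOpen U' ∧ U'.Nonempty ∧ U' ⊆ U ∧
      (∀ j, AnalyticOnNhd ℂ (b j) U') ∧ ∀ e ∈ U', ∀ t, (∀ j, t ≠ b j e) →
        Br Φ (fun x : X × ℂ => τ x.1) (fun x => pc (c x.1) x.2) (e, t) := by
  obtain ⟨e₀, he₀⟩ := hne
  obtain ⟨q₀, hq₀⟩ := h e₀ he₀ 0
  obtain ⟨r, ⟨e₁, he₁, t₁, q₁, hq₁, hr⟩, hmax⟩ :=
    xeeqs_max (P := fun k => ∃ e ∈ U, ∃ t q, Cy Φ (τ e) (pc (c e) t) q ∧ nd (τ e) q = k) (n := n)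
      ⟨_, e₀, he₀, 0, q₀, hq₀, rfl⟩ (by
        rintro k ⟨e, -, t, q, -, rfl⟩
        exact nd_le _ _)
  obtain ⟨Δ, hΔ0, hΔ⟩ := hE.delta (hΩ e₁ he₁) hq₁
  obtain ⟨D, a, ha, hev⟩ := poly_fam Δ d
  have han : AnalyticOnNhd ℂ (fun e => a (c e)) U := fun e he => (ha (c e)).comp (hc e he)
  have hne' : ∃ e ∈ U, a (c e) ≠ 0 := by
    refine ⟨e₁, he₁, fun h0 => hΔ0 ?_⟩
    rw [hev, h0]
    simp [pc]
  obtain ⟨U', s, b, hU', hne'', hsub, hb, hroot⟩ := roots_an hU han hne'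
  refine ⟨U', s, b, hU', hne'', hsub, hb, fun e he t ht => ?_⟩
  have heU := hsub he
  obtain ⟨q, hq⟩ := h e heU t
  have hΔe : MvPolynomial.eval (pc (c e) t) Δ ≠ 0 := by
    rw [hev]
    intro h0
    obtain ⟨j, hj⟩ := hroot e he t h0
    exact ht j hj
  have hge : r ≤ nd (τ e) q := hr ▸ hΔ _ (hΩ e heU) _ _ hq hΔe
  have hfst : AnalyticAt ℂ (Prod.fst : X × ℂ → X) (e, t) := analyticAt_fst
  have hev' : ∀ᶠ x : X × ℂ in 𝓝 (e, t), x.1 ∈ U :=
    continuous_fst.continuousAt.eventually (hU.mem_nhds heU)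
  refine hE.br (q := q) ((hτ e heU).comp_of_eq hfst rfl)
    (pc_an ((hc e heU).comp_of_eq hfst rfl) analyticAt_snd) (hev'.mono fun x hx => hΩ _ hx) hq ?_
  refine (hev'.eventually_nhds.mono fun x hx => hx.mono fun x' hx' => ?_).frequently
  obtain ⟨q', hq'⟩ := h x'.1 hx' x'.2
  exact ⟨q', hq', (hmax _ ⟨x'.1, hx', x'.2, q', hq', rfl⟩).trans hge⟩

end Pool.Agent.MP_cf0a82_ag

end
end
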