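import Pool.Agent.Mg.Fcf0a82q.G67c0ca
import Pool.Agent.Mg.Fcf0a82q.Gfc3401

section

open Complex Filter Topology Matrix Function

noncomputable section

namespace Pool.Agent.MP_cf0a82_ag

open Pool.Agent.MP_f58063_ag

variable {ι : Type} [Fintype ι]

theorem xcrata_root {e : ℕ} (he : 0 < e) {s₀ : ℂ} (h : s₀ ≠ 0) :
    ∃ ρ : ℂ → ℂ, AnalyticAt ℂ ρ (s₀ ^ e) ∧ ρ (s₀ ^ e) = s₀ ∧
      ∀ᶠ t in 𝓝 (s₀ ^ e), ρ t ^ e = t := by
  have h1 : s₀ ^ e ≠ 0 := pow_ne_zero e h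
  have he' : (e : ℂ) ≠ 0 := Nat.cast_ne_zero.2 he.ne'
  refine ⟨fun t => s₀ * exp (log (t / s₀ ^ e) / e), ?_, ?_, ?_⟩
  · have a1 : AnalyticAt ℂ (fun t : ℂ => t / s₀ ^ e) (s₀ ^ e) :=
      analyticAt_id.div analyticAt_const h1
    have a2 : AnalyticAt ℂ (fun t : ℂ => log (t / s₀ ^ e)) (s₀ ^ e) :=
      a1.clog (by rw [div_self h1]; exact one_mem_slitPlane)
    exact analyticAt_const.mul (a2.div analyticAt_const he').cexp
  · simp [div_self h1]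
  · filter_upwards [isOpen_ne.mem_nhds h1] with t ht
    rw [mul_pow, ← exp_nat_mul, mul_div_cancel₀ _ he', exp_log (div_ne_zero ht h1),
      mul_div_cancel₀ _ h1]

theorem xcrata_ev {t₀ : ℂ} {e : ℕ} (he : 0 < e) {P : ℂ → Prop} (h : ∀ᶠ s in 𝓝 (0 : ℂ), P s) :
    ∀ᶠ t in 𝓝 t₀, ∃ s, P s ∧ t = t₀ + s ^ e := by
  obtain ⟨δ, hδ, hP⟩ := Metric.eventually_nhds_iff.1 h
  refine Metric.eventually_nhds_iff.2 ⟨δ ^ e, pow_pos hδ e, fun t ht => ?_⟩
  obtain ⟨s, hs⟩ := IsAlgClosed.exists_pow_nat_eq (t - t₀) he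
  refine ⟨s, hP ?_, by rw [hs]; ring⟩
  rw [dist_eq_norm, ← hs, norm_pow] at ht
  rw [dist_zero_right]
  exact lt_of_pow_lt_pow_left₀ e hδ.le ht

/-- a line that depends holomorphically on a root of the parameter depends holomorphically on
the parameter -/
theorem line_desc {L : ℂ → ι → ℂ} {t₀ : ℂ} {e : ℕ} (he : 0 < e) {f : ℂ → ι → ℂ}
    (hf : AnalyticAt ℂ f 0) (h0 : f 0 ≠ 0)
    (h : ∀ᶠ s in 𝓝 (0 : ℂ), ∃ κ : ℂ, κ ≠ 0 ∧ f s = κ • L (t₀ + s ^ e)) :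
    ∃ F : ℂ → ι → ℂ, AnalyticAt ℂ F t₀ ∧ F t₀ ≠ 0 ∧
      ∀ᶠ t in 𝓝 t₀, ∃ κ : ℂ, κ ≠ 0 ∧ F t = κ • L t := by
  obtain ⟨i, hi⟩ := Function.ne_iff.1 h0
  have hi' : f 0 i ≠ 0 := hi
  have hfi : AnalyticAt ℂ (fun s => f s i) 0 := analyticAt_pi_iff.1 hf i
  let G : ℂ → ι → ℂ := fun s => (f s i)⁻¹ • f s
  let F : ℂ → ι → ℂ := fun t => (L t i)⁻¹ • L t
  have hG : AnalyticAt ℂ G 0 := (hfi.inv hi').smul hf
  have h1 : ∀ᶠ s in 𝓝 (0 : ℂ), F (t₀ + s ^ e) = G s ∧ L (t₀ + s ^ e) i ≠ 0 := by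
    filter_upwards [h, hfi.continuousAt.eventually_ne hi'] with s hs hs'
    obtain ⟨κ, hκ, hs⟩ := hs
    have h2 : f s i = κ * L (t₀ + s ^ e) i := by rw [hs]; rfl
    have h3 : L (t₀ + s ^ e) i ≠ 0 := fun h4 => hs' (by rw [h2, h4, mul_zero])
    refine ⟨?_, h3⟩
    change (L (t₀ + s ^ e) i)⁻¹ • L (t₀ + s ^ e) = (f s i)⁻¹ • f s
    rw [h2, hs, smul_smul]
    congr 1
    field_simp
  have h2 := h1.self_of_nhds
  rw [zero_pow he.ne', add_zero] at h2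
  have hc : ContinuousAt F t₀ := by
    intro U hU
    rw [h2.1] at hU
    have h5 : ∀ᶠ s in 𝓝 (0 : ℂ), G s ∈ U := hG.continuousAt.tendsto hU
    change ∀ᶠ t in 𝓝 t₀, F t ∈ U
    filter_upwards [xcrata_ev (t₀ := t₀) he (h1.and h5)]
    rintro _ ⟨s, ⟨⟨h3, -⟩, h4⟩, rfl⟩
    rw [h3]
    exact h4
  have hd : ∀ᶠ t in 𝓝[≠] t₀, DifferentiableAt ℂ F t := by
    have h3 := xcrata_ev (t₀ := t₀) he (h1.eventually_nhds.and hG.eventually_analyticAt)
    filter_upwards [nhdsWithin_le_nhds h3, self_mem_nhdsWithin]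
    rintro _ ⟨s, ⟨h4, h5⟩, rfl⟩ ht
    have hs : s ≠ 0 := by
      rintro rfl
      exact ht (by rw [zero_pow he.ne', add_zero]; rfl)
    obtain ⟨ρ, r1, r2, r3⟩ := xcrata_root he hs
    have a1 : AnalyticAt ℂ (fun t : ℂ => t - t₀) (t₀ + s ^ e) :=
      analyticAt_id.sub analyticAt_const
    have e1 : t₀ + s ^ e - t₀ = s ^ e := by ring
    have a2 : AnalyticAt ℂ (fun t : ℂ => ρ (t - t₀)) (t₀ + s ^ e) :=
      AnalyticAt.comp_of_eq r1 a1 e1
    have e2 : ρ (t₀ + s ^ e - t₀) = s := by rw [e1, r2]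
    have a3 : AnalyticAt ℂ (fun t : ℂ => G (ρ (t - t₀))) (t₀ + s ^ e) :=
      AnalyticAt.comp_of_eq h5 a2 e2
    refine a3.differentiableAt.congr_of_eventuallyEq ?_
    have t1 : Tendsto (fun t : ℂ => t - t₀) (𝓝 (t₀ + s ^ e)) (𝓝 (s ^ e)) := by
      have := a1.continuousAt.tendsto
      rwa [e1] at this
    have t2 : Tendsto (fun t : ℂ => ρ (t - t₀)) (𝓝 (t₀ + s ^ e)) (𝓝 s) := by
      have := a2.continuousAt.tendsto
      rwa [e2] at this
    filter_upwards [t1.eventually r3, t2.eventually h4] with t h6 h7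
    rw [← h7.1, h6, add_sub_cancel]
  refine ⟨F, analyticAt_of_differentiable_on_punctured_nhds_of_continuousAt hd hc, ?_, ?_⟩
  · intro h3
    have h4 : (L t₀ i)⁻¹ * L t₀ i = 0 := congrFun h3 i
    rw [inv_mul_cancel₀ h2.2] at h4
    exact one_ne_zero h4
  · filter_upwards [xcrata_ev (t₀ := t₀) he h1]
    rintro _ ⟨s, ⟨-, h3⟩, rfl⟩
    exact ⟨_, inv_ne_zero h3, rfl⟩

/-- a local root of the parameter -/
theorem local_root {e : ℕ} (he : 0 < e) {s₀ : ℂ} (h : s₀ ≠ 0) :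
    ∃ ρ : ℂ → ℂ, AnalyticAt ℂ ρ (s₀ ^ e) ∧ ρ (s₀ ^ e) = s₀ ∧
      ∀ᶠ t in 𝓝 (s₀ ^ e), ρ t ^ e = t :=
  xcrata_root he h

/-- an entire function of polynomial growth is a polynomial -/
theorem poly_of_growth {V : Type} [NormedAddCommGroup V] [NormedSpace ℂ V] [CompleteSpace V]
    {f : ℂ → V} (hf : Differentiable ℂ f) {d : ℕ} {v : V}
    (h : Tendsto (fun s : ℂ => s ^ d • f s⁻¹) (𝓝[≠] 0) (𝓝 v)) :
    ∃ c : Fin (d + 1) → V, (∀ t, f t = pc c t) ∧ c (Fin.last d) = v := by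
  induction d generalizing f with
  | zero =>
    have h1 : Tendsto f (cocompact ℂ) (𝓝 v) := by
      have h2 := h.comp (tendsto_inv₀_cobounded' (α := ℂ))
      rw [Metric.cobounded_eq_cocompact] at h2
      refine h2.congr fun s => ?_
      simp
    refine ⟨fun _ => v, fun t => ?_, rfl⟩
    rw [hf.apply_eq_of_tendsto_cocompact t h1]
    simp [pc]
  | succ d ih =>
    have hg : Differentiable ℂ (dslope f 0) := by
      rw [← differentiableOn_univ]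
      exact (differentiableOn_dslope univ_mem).2 hf.differentiableOn
    have h1 : Tendsto (fun s : ℂ => s ^ (d + 1) • f 0) (𝓝[≠] 0) (𝓝 0) := by
      have h2 : Continuous fun s : ℂ => s ^ (d + 1) • f 0 := by fun_prop
      have h3 := h2.tendsto 0
      rw [zero_pow (Nat.succ_ne_zero d), zero_smul] at h3
      exact h3.mono_left nhdsWithin_le_nhds
    have h2 : Tendsto (fun s : ℂ => s ^ d • dslope f 0 s⁻¹) (𝓝[≠] 0) (𝓝 v) := by
      have h3 := h.sub h1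
      rw [sub_zero] at h3
      refine h3.congr' ?_
      filter_upwards [self_mem_nhdsWithin] with s hs
      have hs' : s ≠ 0 := hs
      rw [← smul_sub, ← sub_smul_dslope f 0 s⁻¹, sub_zero, smul_smul, pow_succ, mul_assoc,
        mul_inv_cancel₀ hs', mul_one]
    obtain ⟨c, hc, hv⟩ := ih hg h2
    refine ⟨Fin.cons (f 0) c, fun t => ?_, ?_⟩
    · have h3 := sub_smul_dslope f 0 t
      rw [sub_zero, hc t] at h3
      rw [pc, Fin.sum_univ_succ, ← sub_add_cancel (f t) (f 0), ← h3, pc, Finset.smul_sum,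
        add_comm]
      simp [smul_smul, pow_succ']
    · rw [← Fin.succ_last, Fin.cons_succ, hv]

end Pool.Agent.MP_cf0a82_ag

end
end

section

open Complex Filter Topology Matrix Function

noncomputable section

namespace Pool.Agent.MP_cf0a82_ag

open Pool.Agent.MP_f58063_ag

lemma xcratb_iso {a : ℂ → ℂ}
    (ha : ∀ t₀, (∀ᶠ t in 𝓝 t₀, a t = 0) ∨ ∀ᶠ t in 𝓝[≠] t₀, a t ≠ 0) {t₁ : ℂ} (h1 : a t₁ ≠ 0)
    (t₀ : ℂ) : ∀ᶠ t in 𝓝[≠] t₀, a t ≠ 0 := by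
  have hU : IsClopen {x : ℂ | ∀ᶠ t in 𝓝 x, a t = 0} := by
    refine ⟨⟨isOpen_iff_mem_nhds.2 fun x hx => ?_⟩, isOpen_setOfPred_eventually_nhds⟩
    rw [← nhdsNE_sup_pure]
    refine ⟨?_, hx⟩
    filter_upwards [(ha x).resolve_left hx] with t ht h
    exact ht h.self_of_nhds
  rcases isClopen_iff.1 hU with h | h
  · refine (ha t₀).resolve_left fun h' => ?_
    exact (Set.eq_empty_iff_forall_notMem.1 h) t₀ h'
  · exact absurd (Set.eq_univ_iff_forall.1 h t₁).self_of_nhds h1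

lemma xcratb_fin {a : ℂ → ℂ} (ha : ∀ t₀, ∀ᶠ t in 𝓝[≠] t₀, a t ≠ 0)
    (h : ∀ᶠ t in Bornology.cobounded ℂ, a t ≠ 0) : {t | a t = 0}.Finite := by
  by_contra hi
  have hb : Bornology.IsBounded {t | a t = 0} := h
  obtain ⟨x, -, hx⟩ := Set.Infinite.exists_accPt_of_subset_isCompact hi hb.isCompact_closure
    subset_closure
  rw [accPt_iff_frequently_nhdsNE] at hx
  exact hx (ha x)

lemma xcratb_nrm {ι : Type} {v w : ι → ℂ} {κ : ℂ} (hκ : κ ≠ 0) (h : v = κ • w) (i : ι) :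
    (v i)⁻¹ • v = (w i)⁻¹ • w := by
  rw [h, smul_smul, Pi.smul_apply, smul_eq_mul, mul_inv, mul_comm κ⁻¹, inv_mul_cancel_right₀ hκ]

lemma xcratb_loc {ι : Type} [Fintype ι] {L F : ℂ → ι → ℂ} {t₀ : ℂ} (hF : AnalyticAt ℂ F t₀)
    (hL : ∀ᶠ t in 𝓝 t₀, ∃ κ : ℂ, κ ≠ 0 ∧ F t = κ • L t) (i : ι)
    (hi : ∀ᶠ t in 𝓝[≠] t₀, L t i ≠ 0) :
    ∃ (m : ℕ) (H : ℂ → ι → ℂ), AnalyticAt ℂ H t₀ ∧
      (∀ᶠ t in 𝓝[≠] t₀, (t - t₀) ^ m • (L t i)⁻¹ • L t = H t) ∧
      (∃ κ : ℂ, κ ≠ 0 ∧ H t₀ = κ • L t₀) ∧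
      (L t₀ i ≠ 0 → m = 0 ∧ H t₀ = (L t₀ i)⁻¹ • L t₀) := by
  have hFi : AnalyticAt ℂ (fun t => F t i) t₀ := analyticAt_pi_iff.1 hF i
  have hne : ¬ ∀ᶠ t in 𝓝 t₀, F t i = 0 := by
    intro h
    obtain ⟨t, h1, h2, κ, hκ, h3⟩ :=
      (hi.and ((h.and hL).filter_mono nhdsWithin_le_nhds)).exists
    rw [h3] at h2
    exact mul_ne_zero hκ h1 h2
  obtain ⟨m, u, hu, hu0, hm⟩ := hFi.exists_eventuallyEq_pow_smul_nonzero_iff.2 hne
  obtain ⟨κ₀, hκ₀, h₀⟩ := hL.self_of_nhds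
  refine ⟨m, fun t => (u t)⁻¹ • F t, (hu.inv hu0).smul hF, ?_,
    ⟨(u t₀)⁻¹ * κ₀, mul_ne_zero (inv_ne_zero hu0) hκ₀, by simp only [h₀, smul_smul]⟩, fun h => ?_⟩
  · filter_upwards [(hm.and hL).filter_mono nhdsWithin_le_nhds, self_mem_nhdsWithin] with t
      ⟨h1, κ, hκ, h2⟩ ht
    rw [← xcratb_nrm hκ h2, h1, smul_smul, smul_eq_mul, mul_inv,
      mul_inv_cancel_left₀ (pow_ne_zero _ (sub_ne_zero.2 ht))]
  · have h1 := hm.self_of_nhds
    have hm0 : m = 0 := by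
      by_contra h2
      rw [sub_self, zero_pow h2, zero_smul, h₀] at h1
      exact mul_ne_zero hκ₀ h h1
    refine ⟨hm0, ?_⟩
    rw [hm0, pow_zero, one_smul] at h1
    rw [← xcratb_nrm hκ₀ h₀, h1]

/-- a holomorphic map from the projective line to a projective space is given by polynomials -/
theorem rat_map {ι : Type} [Fintype ι] {L : ℂ → ι → ℂ}
    (hL : ∀ t₀, ∃ F : ℂ → ι → ℂ, AnalyticAt ℂ F t₀ ∧ F t₀ ≠ 0 ∧
      ∀ᶠ t in 𝓝 t₀, ∃ κ : ℂ, κ ≠ 0 ∧ F t = κ • L t)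
    {G : ℂ → ι → ℂ} (hG : AnalyticAt ℂ G 0) (h0 : G 0 ≠ 0)
    (h : ∀ᶠ s in 𝓝[≠] (0 : ℂ), ∃ κ : ℂ, κ ≠ 0 ∧ G s = κ • L s⁻¹) :
    ∃ (d : ℕ) (c : Fin (d + 1) → ι → ℂ), (∀ t, ∃ κ : ℂ, κ ≠ 0 ∧ pc c t = κ • L t) ∧
      ∃ κ : ℂ, κ ≠ 0 ∧ c (Fin.last d) = κ • G 0 := by
  classical
  obtain ⟨i, hi⟩ := Function.ne_iff.1 h0
  have hGi : AnalyticAt ℂ (fun s => G s i) 0 := analyticAt_pi_iff.1 hG i
  have hs : ∀ᶠ s in 𝓝[≠] (0 : ℂ), L s⁻¹ i ≠ 0 ∧ (G s i)⁻¹ • G s = (L s⁻¹ i)⁻¹ • L s⁻¹ := by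
    filter_upwards [h, (hGi.continuousAt.eventually_ne hi).filter_mono nhdsWithin_le_nhds] with s
      ⟨κ, hκ, h1⟩ h2
    refine ⟨fun h3 => h2 ?_, xcratb_nrm hκ h1 i⟩
    rw [h1, Pi.smul_apply, h3, smul_zero]
    rfl
  have hiso : ∀ t₀, ∀ᶠ t in 𝓝[≠] t₀, L t i ≠ 0 := by
    refine xcratb_iso (fun t₀ => ?_) hs.exists.choose_spec.1
    obtain ⟨F, hF, -, hFL⟩ := hL t₀
    rcases (analyticAt_pi_iff.1 hF i).eventually_eq_zero_or_eventually_ne_zero with h1 | h1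
    · left
      filter_upwards [h1, hFL] with t h2 ⟨κ, hκ, h3⟩
      rw [h3] at h2
      exact (mul_eq_zero.1 h2).resolve_left hκ
    · right
      filter_upwards [h1, hFL.filter_mono nhdsWithin_le_nhds] with t h2 ⟨κ, hκ, h3⟩ h4
      rw [h3, Pi.smul_apply, h4, smul_zero] at h2
      exact h2 rfl
  have hfin : {t | L t i = 0}.Finite := by
    refine xcratb_fin hiso ?_
    filter_upwards [tendsto_inv₀_cobounded'.eventually hs] with t ht
    simpa using ht.1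
  choose F hF _ hFL using hL
  choose m H hH hHL hH0 hH1 using fun t₀ => xcratb_loc (hF t₀) (hFL t₀) i (hiso t₀)
  set Z := hfin.toFinset with hZ
  have hmem : ∀ t, t ∈ Z ↔ L t i = 0 := fun t => hfin.mem_toFinset
  let c : ℂ → ι → ℂ := fun t => (∏ z ∈ Z.erase t, (t - z) ^ m z) • H t t
  have hc : ∀ t, L t i ≠ 0 → c t = (∏ z ∈ Z, (t - z) ^ m z) • (L t i)⁻¹ • L t := by
    intro t ht
    simp only [c]
    rw [Finset.erase_eq_of_notMem (mt (hmem t).1 ht), (hH1 t ht).2]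
  have hd : Differentiable ℂ c := by
    intro t₀
    have e : c =ᶠ[𝓝 t₀] fun t => (∏ z ∈ Z.erase t₀, (t - z) ^ m z) • H t₀ t := by
      rw [← nhdsNE_sup_pure]
      refine ⟨?_, rfl⟩
      filter_upwards [hiso t₀, hHL t₀] with t h1 h2
      rw [hc t h1, ← h2, smul_smul _ ((t - t₀) ^ m t₀)]
      congr 1
      by_cases h3 : t₀ ∈ Z
      · exact (Finset.prod_erase_mul Z (fun z => (t - z) ^ m z) h3).symm
      · rw [Finset.erase_eq_of_notMem h3, (hH1 t₀ (mt (hmem t₀).2 h3)).1, pow_zero, mul_one]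
    refine DifferentiableAt.congr_of_eventuallyEq ?_ e
    have h1 : DifferentiableAt ℂ (fun t => ∏ z ∈ Z.erase t₀, (t - z) ^ m z) t₀ := by fun_prop
    exact h1.smul (hH t₀).differentiableAt
  have hlim : Tendsto (fun s : ℂ => s ^ (∑ z ∈ Z, m z) • c s⁻¹) (𝓝[≠] 0)
      (𝓝 ((G 0 i)⁻¹ • G 0)) := by
    have h6 : Continuous fun s : ℂ => ∏ z ∈ Z, (1 - s * z) ^ m z := by fun_prop
    have h1 : ContinuousAt
        (fun s : ℂ => (∏ z ∈ Z, (1 - s * z) ^ m z) • (G s i)⁻¹ • G s) 0 :=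
      h6.continuousAt.smul ((hGi.continuousAt.inv₀ hi).smul hG.continuousAt)
    have h2 := h1.tendsto.mono_left (nhdsWithin_le_nhds (s := {0}ᶜ))
    simp only [zero_mul, sub_zero, one_pow, Finset.prod_const_one, one_smul] at h2
    refine h2.congr' ?_
    filter_upwards [hs, self_mem_nhdsWithin] with s ⟨h3, h4⟩ h5
    rw [hc _ h3, h4, smul_smul (s ^ _), ← Finset.prod_pow_eq_pow_sum, ← Finset.prod_mul_distrib]
    congr 1
    refine Finset.prod_congr rfl fun z _ => ?_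
    rw [← mul_pow, mul_sub, mul_inv_cancel₀ h5]
  obtain ⟨p, hp, hp'⟩ := poly_of_growth hd hlim
  refine ⟨_, p, fun t => ?_, _, inv_ne_zero hi, hp'⟩
  obtain ⟨κ, hκ, h1⟩ := hH0 t
  refine ⟨(∏ z ∈ Z.erase t, (t - z) ^ m z) * κ, mul_ne_zero (Finset.prod_ne_zero_iff.2
    fun z hz => pow_ne_zero _ (sub_ne_zero.2 (Finset.ne_of_mem_erase hz).symm)) hκ, ?_⟩
  rw [← hp, ← smul_smul, ← h1]

end Pool.Agent.MP_cf0a82_ag

end
end

section

open Complex Filter Topology Matrix Function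

noncomputable section

namespace Pool.Agent.MP_cf0a82_ag

open Pool.Agent.MP_f58063_ag

theorem xedetb_le {n : Type} [Fintype n] [DecidableEq n] (M : Matrix n n ℂ) (c : n → ℝ)
    (h : ∀ i j, ‖M i j‖ ≤ c i) : ‖M.det‖ ≤ (Fintype.card n).factorial * ∏ i, c i := by
  rw [det_apply']
  refine (norm_sum_le _ _).trans
    ((Finset.sum_le_card_nsmul _ _ (∏ i, c i) fun σ _ => ?_).trans_eq ?_)
  · have h1 : ‖((Equiv.Perm.sign σ : ℤ) : ℂ)‖ = 1 := by
      rcases Int.units_eq_one_or (Equiv.Perm.sign σ) with h | h <;> simp [h]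
    rw [norm_mul, h1, one_mul, norm_prod, ← Equiv.prod_comp σ c]
    exact Finset.prod_le_prod (fun _ _ => norm_nonneg _) fun i _ => h _ _
  · rw [Finset.card_univ, Fintype.card_perm, nsmul_eq_mul]

/-- a determinant is affine in a perturbation of rank one -/
theorem detb (r : ℕ) {C : ℝ} (hC : 0 ≤ C) : ∃ K : ℝ, ∀ (A : Matrix (Fin r) (Fin r) ℂ)
    (β v : Fin r → ℂ) (η : ℝ), 0 ≤ η → (∀ a b, ‖A a b‖ ≤ C) → (∀ a, ‖β a‖ ≤ C) →
      (∀ b, ‖v b‖ ≤ η) → ‖(Matrix.of fun a b => A a b - β a * v b).det‖ ≤ K * (1 + η) := by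
  refine ⟨(Fintype.card (Unit ⊕ Fin r)).factorial * C ^ r, fun A β v η hη hA hβ hv => ?_⟩
  have h1 := det_fromBlocks_one₁₁ (m := Unit) (Matrix.of fun _ b => v b)
    (Matrix.of fun a _ => β a) A
  have h2 := h1.trans (congrArg Matrix.det
    (a₂ := Matrix.of fun a b => A a b - β a * v b) (by
      ext a b
      simp [Matrix.mul_apply]))
  rw [← h2]
  refine (xedetb_le _ (Sum.elim (fun _ => 1 + η) fun _ => C) ?_).trans_eq ?_
  · rintro (i | i) (j | j)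
    · simpa using hη
    · exact (hv j).trans (le_add_of_nonneg_left zero_le_one)
    · exact hβ i
    · exact hA i j
  · simp [Fintype.prod_sum_type]
    ring

theorem detc (r : ℕ) (A : Matrix (Fin r) (Fin r) ℂ) {ε : ℝ} (hε : 0 < ε) : ∃ η : ℝ, 0 < η ∧
    ∀ B : Matrix (Fin r) (Fin r) ℂ, (∀ a b, ‖B a b - A a b‖ ≤ η) → ‖B.det - A.det‖ ≤ ε := by
  have h : Continuous fun B : Fin r → Fin r → ℂ => (Matrix.of B).det :=
    Continuous.matrix_det continuous_id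
  obtain ⟨δ, hδ, h1⟩ := Metric.continuousAt_iff.1 (h.continuousAt (x := fun a b => A a b)) ε hε
  refine ⟨δ / 2, half_pos hδ, fun B hB => ?_⟩
  rw [← dist_eq_norm]
  refine (h1 (x := fun a b => B a b) (lt_of_le_of_lt ?_ (half_lt_self hδ))).le
  refine (dist_pi_le_iff (half_pos hδ).le).2 fun a => (dist_pi_le_iff (half_pos hδ).le).2 fun b => ?_
  rw [dist_eq_norm]
  exact hB a b

/-- Liouville's theorem on the projective line -/
theorem liou1 {f : ℂ → ℂ} {B : Set ℂ} (hB : B.Finite) (hf : ∀ t ∉ B, AnalyticAt ℂ f t)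
    (hb : ∀ b ∈ B, Tendsto (fun s => s * f (b + s)) (𝓝[≠] 0) (𝓝 0)) {L₀ L₁ : ℂ}
    (h0 : Tendsto f (𝓝[≠] 0) (𝓝 L₀)) (h1 : Tendsto (fun s => f s⁻¹) (𝓝[≠] 0) (𝓝 L₁)) :
    L₀ = L₁ := by
  classical
  let F : ℂ → ℂ := fun t => if t ∈ B then limUnder (𝓝[≠] t) f else f t
  have hn : ∀ t, (B \ {t})ᶜ ∈ 𝓝 t := fun t =>
    (hB.subset Set.sdiff_subset).isClosed.isOpen_compl.mem_nhds (by simp)
  have hF : Differentiable ℂ F := fun t => by
    by_cases ht : t ∈ B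
    · have h2 : Tendsto (fun z => (z - t) * f z) (𝓝[≠] t) (𝓝 0) := by
        have h3 : Tendsto (fun z => z - t) (𝓝[≠] t) (𝓝[≠] 0) :=
          tendsto_nhdsWithin_iff.2 ⟨((continuous_sub_right t).tendsto' t 0 (sub_self t)).mono_left
            nhdsWithin_le_nhds, eventually_mem_nhdsWithin.mono fun z hz => sub_ne_zero.2 hz⟩
        simpa [Function.comp_def] using (hb t ht).comp h3
      have h3 : (fun z => f z - f t) =o[𝓝[≠] t] fun z => (z - t)⁻¹ := by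
        refine (Asymptotics.isLittleO_iff_tendsto' (eventually_mem_nhdsWithin.mono fun z hz h =>
          absurd h (inv_ne_zero (sub_ne_zero.2 hz)))).2 ?_
        have h4 : Tendsto (fun z => (z - t) * f t) (𝓝[≠] t) (𝓝 0) :=
          (((continuous_sub_right t).mul continuous_const).tendsto' t 0 (by simp)).mono_left
            nhdsWithin_le_nhds
        have h5 := h2.sub h4
        rw [sub_zero] at h5
        refine h5.congr fun z => ?_
        rw [div_inv_eq_mul]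
        ring
      have h4 := (Complex.differentiableOn_update_limUnder_of_isLittleO (hn t) (fun z hz =>
        (hf z fun h => hz.1 ⟨h, hz.2⟩).differentiableAt.differentiableWithinAt) h3).differentiableAt
          (hn t)
      refine h4.congr_of_eventuallyEq (mem_of_superset (hn t) fun z hz => ?_)
      by_cases e : z = t
      · simp [F, e, ht]
      · simp [F, e, show z ∉ B from fun h => hz ⟨h, e⟩]
    · exact (hf t ht).differentiableAt.congr_of_eventuallyEq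
        (mem_of_superset (hB.isClosed.isOpen_compl.mem_nhds ht) fun z hz => if_neg hz)
  have h2 : Tendsto F (cocompact ℂ) (𝓝 L₁) := by
    have h3 := h1.comp tendsto_inv₀_cobounded'
    rw [Metric.cobounded_eq_cocompact] at h3
    refine h3.congr' (mem_of_superset hB.isCompact.compl_mem_cocompact fun z hz => ?_)
    simp [F, show z ∉ B from hz]
  refine tendsto_nhds_unique h0 (tendsto_const_nhds.congr' ?_)
  filter_upwards [mem_nhdsWithin_of_mem_nhds (hn 0), self_mem_nhdsWithin] with z hz h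
  rw [← hF.apply_eq_of_tendsto_cocompact z h2]
  exact if_neg fun e => hz ⟨e, h⟩

end Pool.Agent.MP_cf0a82_ag

end
end

section

open Complex Filter Topology Matrix Function

noncomputable section

namespace Pool.Agent.MP_cf0a82_ag

open Pool.Agent.MP_f58063_ag

variable {J : Type} [Fintype J] {n g r : ℕ} {Ω : Set (Mat g)} {Φ : Mat g → EE g → J → ℂ}
  {X : Type} [NormedAddCommGroup X] [NormedSpace ℂ X] [CompleteSpace X] {τ : X → Mat g} {e : X}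
  {ν : Fin r → EE g} {ξ : Fin r → X} {c : X × ℂ → Tn J n}

theorem xEpb_dot (u z : EE g) : ‖u ⬝ᵥ z‖ ≤ g * (‖u‖ * ‖z‖) := by
  refine (norm_sum_le _ _).trans ((Finset.sum_le_card_nsmul _ _ (‖u‖ * ‖z‖) fun i _ => ?_).trans ?_)
  · rw [norm_mul]
    exact mul_le_mul (norm_le_pi_norm u i) (norm_le_pi_norm z i) (norm_nonneg _) (norm_nonneg _)
  · simp

theorem xEpb_lim {f : ℂ → ℂ} {ε₀ K K' : ℝ} (h0 : 0 < ε₀) (hK : 0 ≤ K)
    (h : ∀ ε, 0 < ε → ε ≤ ε₀ → ∀ᶠ t in 𝓝[≠] (0 : ℂ), ‖f t‖ ≤ K * (‖t‖ + K' * ε)) :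
    Tendsto f (𝓝[≠] 0) (𝓝 0) := by
  refine Metric.tendsto_nhds.2 fun θ hθ => ?_
  have h1 : Tendsto (fun u : ℝ => K * (u + K' * u)) (𝓝 0) (𝓝 0) :=
    Continuous.tendsto' (by fun_prop) _ _ (by simp)
  obtain ⟨u, ⟨h2, h3⟩, h4⟩ := ((((h1.eventually_lt_const hθ).and
    (eventually_le_nhds h0)).filter_mono nhdsWithin_le_nhds).and
      (self_mem_nhdsWithin (s := Set.Ioi (0 : ℝ)))).exists
  filter_upwards [h u h4 h3, mem_nhdsWithin_of_mem_nhds (Metric.ball_mem_nhds (0 : ℂ) h4)]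
    with t h5 h6
  rw [dist_zero_right]
  refine h5.trans_lt (lt_of_le_of_lt (mul_le_mul_of_nonneg_left ?_ hK) h2)
  exact add_le_add (mem_ball_zero_iff.1 h6).le le_rfl

/-- the local data needed for the Cauchy estimate -/
structure xEpb_Gd (Ω : Set (Mat g)) (Φ : Mat g → EE g → J → ℂ) (τ : X → Mat g)
    (c : X × ℂ → Tn J n) (q : Fin n → EE g) (ε : ℝ) (y : X × ℂ) : Prop where
  an : AnalyticAt ℂ τ y.1
  mem : τ y.1 ∈ Ω
  br : Br Φ (fun x : X × ℂ => τ x.1) c y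
  sep : ∀ j j' m l, ‖q j - q j' - per (τ y.1) m l‖ < 2 * ε → q j = q j' ∧ m = 0 ∧ l = 0
  cl : ∀ q', Cy Φ (τ y.1) (c y) q' → ∀ i, ∃ j m l, ‖q' i - q j - per (τ y.1) m l‖ < ε

omit [CompleteSpace X] in
theorem xEpb_trk (hE : Emb Ω Φ) {q : Fin n → EE g} {ε ρ : ℝ} (hρ : 0 < ρ) {Γ : ℂ → X × ℂ}
    (hΓ : ∀ s ∈ Metric.ball (0 : ℂ) ρ, AnalyticAt ℂ Γ s ∧ xEpb_Gd Ω Φ τ c q ε (Γ s))
    {y v : X × ℂ} (hy : Γ 0 = y) (hv : HasDerivAt Γ v 0) {p : X × ℂ → Fin n → EE g}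
    (hp : AnalyticAt ℂ p y) (hpc : ∀ᶠ x in 𝓝 y, Cy Φ (τ x.1) (c x) (p x)) (i : Fin n) :
    ∃ m l, ‖fderiv ℂ (fun x => p x i) y v - fderiv ℂ (fun x => per (τ x) m l) y.1 v.1‖ ≤
      2 * ε / ρ := by
  subst hy
  obtain ⟨a0, g0⟩ := hΓ 0 (Metric.mem_ball_self hρ)
  obtain ⟨j, m, l, h⟩ := g0.cl _ hpc.self_of_nhds i
  have b1 : AnalyticOnNhd ℂ (fun s => τ (Γ s).1) (Metric.ball 0 ρ) := fun s hs =>
    AnalyticAt.comp (g := τ) (f := fun s => (Γ s).1) (hΓ s hs).2.an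
      (AnalyticAt.comp (g := Prod.fst) (f := Γ) analyticAt_fst (hΓ s hs).1)
  have b2 : ∀ s ∈ Metric.ball (0 : ℂ) ρ, Br Φ (fun s => τ (Γ s).1) (fun s => c (Γ s)) s :=
    fun s hs => Br.comp (τ := fun x : X × ℂ => τ x.1) (c := c) (f := Γ) (hΓ s hs).1 (hΓ s hs).2.br
  have b3 : ∀ᶠ s in 𝓝 0, Cy Φ (τ (Γ s).1) (c (Γ s)) (p (Γ s)) :=
    a0.continuousAt.tendsto.eventually hpc
  have h1 := hE.trk (τ := fun s => τ (Γ s).1) (c := fun s => c (Γ s)) (w := fun j _ => q j)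
    (p := fun s => p (Γ s)) hρ b1 (fun s hs => (hΓ s hs).2.mem) b2 (fun _ => analyticOnNhd_const)
    (fun s hs j j' m l h s' _ => by
      obtain ⟨h1, rfl, rfl⟩ := (hΓ s hs).2.sep j j' m l h
      rw [h1, sub_self, per_zero])
    (fun s hs => (hΓ s hs).2.cl) (AnalyticAt.comp (g := p) (f := Γ) hp a0) b3 h
  have h2 : DifferentiableAt ℂ (fun x => p x i) (Γ 0) :=
    differentiableAt_pi.1 hp.differentiableAt i
  have h3 : DifferentiableAt ℂ (fun x => per (τ x) m l) (Γ 0).1 :=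
    (AnalyticAt.comp (g := fun τ => per τ m l) (f := τ) (per_analytic m l _)
      g0.an).differentiableAt
  have h4 : HasDerivAt (fun s => (Γ s).1) v.1 0 :=
    HasFDerivAt.comp_hasDerivAt (l := Prod.fst) (f := Γ) 0 hasFDerivAt_fst hv
  have h5 : HasDerivAt (fun s => p (Γ s) i) (fderiv ℂ (fun x => p x i) (Γ 0) v) 0 :=
    HasFDerivAt.comp_hasDerivAt (l := fun x => p x i) (f := Γ) 0 h2.hasFDerivAt hv
  have h6 : HasDerivAt (fun s => per (τ (Γ s).1) m l)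
      (fderiv ℂ (fun x => per (τ x) m l) (Γ 0).1 v.1) 0 :=
    HasFDerivAt.comp_hasDerivAt (l := fun x => per (τ x) m l) (f := fun s => (Γ s).1) 0
      h3.hasFDerivAt h4
  rw [((h5.sub_const (q j)).fun_sub h6).deriv] at h1
  exact ⟨m, l, h1⟩

omit [CompleteSpace X] in
theorem xEpb_gd (hE : Emb Ω Φ) (hτ : AnalyticAt ℂ τ e)
    (hΩ : ∀ᶠ x in 𝓝 e, τ x ∈ Ω) {b : X → ℂ} (hb : AnalyticAt ℂ b e)
    (hc : AnalyticAt ℂ c (e, b e)) {q : Fin n → EE g} (hq : Cy Φ (τ e) (c (e, b e)) q)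
    (hr : ∀ i j, q i - q j ∈ lattice (τ e) → q i = q j)
    (hB : ∀ᶠ x in 𝓝 (e, (0 : ℂ)), x.2 ≠ 0 →
      Br Φ (fun x : X × ℂ => τ x.1) c (x.1, b x.1 + x.2)) :
    ∃ ε₀ : ℝ, 0 < ε₀ ∧ ∀ ε, 0 < ε → ε ≤ ε₀ → ∃ η : ℝ, 0 < η ∧ ∀ (x : X) (t : ℂ), ‖x - e‖ < η →
      ‖t‖ < η → t ≠ 0 → AnalyticAt ℂ b x ∧ xEpb_Gd Ω Φ τ c q ε (x, b x + t) := by
  have hP : τ e ∈ PosIm g := Siegel_sub (hE.sub hΩ.self_of_nhds)
  choose E hE0 hE1 using fun a : Fin n × Fin n => sepa hτ.continuousAt.tendsto hP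
    (tendsto_const_nhds (x := q a.1 - q a.2))
  obtain ⟨ε₀, h1, h2⟩ := (((eventually_all.2 fun a => eventually_le_nhds (half_pos (hE0 a))
    ).filter_mono nhdsWithin_le_nhds).and (self_mem_nhdsWithin (s := Set.Ioi (0 : ℝ)))).exists
  refine ⟨ε₀, h2, fun ε hε hε' => ?_⟩
  have t1 : Tendsto (Prod.fst : X × ℂ → X) (𝓝 (e, 0)) (𝓝 e) := continuous_fst.tendsto _
  have t2 : Tendsto (fun x : X × ℂ => (x.1, b x.1 + x.2)) (𝓝 (e, 0)) (𝓝 (e, b e)) := by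
    have t3 := (hb.continuousAt.tendsto.comp t1).add (continuous_snd.tendsto ((e, 0) : X × ℂ))
    rw [add_zero] at t3
    exact t1.prodMk_nhds t3
  have h3 := hE.close (hτ.continuousAt.tendsto.comp t1) (hc.continuousAt.tendsto.comp t2)
    hΩ.self_of_nhds (t1.eventually hΩ) hq hε
  have h4 : ∀ᶠ x in 𝓝 (e, (0 : ℂ)), x.2 ≠ 0 →
      AnalyticAt ℂ b x.1 ∧ xEpb_Gd Ω Φ τ c q ε (x.1, b x.1 + x.2) := by
    filter_upwards [hB, h3, t1.eventually hΩ, t1.eventually hτ.eventually_analyticAt,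
      t1.eventually hb.eventually_analyticAt, t1.eventually (eventually_all.2 hE1)]
      with x a1 a2 a3 a4 a5 a6 hx
    refine ⟨a5, a4, a3, a1 hx, fun j j' m l h => ?_, fun q' h i => ?_⟩
    · have a7 := a6 (j, j') m l (h.trans_le (by linarith [h1 (j, j')]))
      have a8 := hr j j' ⟨m, l, a7⟩
      rw [a8, sub_self, ← per_zero (τ e)] at a7
      exact ⟨a8, (per_inj hP a7).1.symm, (per_inj hP a7).2.symm⟩
    · obtain ⟨σ, hσ⟩ := a2 q' h
      have a7 := hσ (σ.symm i)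
      rw [σ.apply_symm_apply] at a7
      exact ⟨σ.symm i, a7⟩
  obtain ⟨η, hη, h5⟩ := Metric.eventually_nhds_iff.1 h4
  refine ⟨η, hη, fun x t hx ht => h5 (y := (x, t)) ?_⟩
  rw [Prod.dist_eq, dist_eq_norm, dist_zero_right]
  exact max_lt hx ht

/-- the trace has at most a weak singularity at a moving branch point -/
theorem Emb.pb (hE : Emb Ω Φ) (hK : Kil τ e ν ξ) (hτ : AnalyticAt ℂ τ e)
    (hΩ : ∀ᶠ x in 𝓝 e, τ x ∈ Ω) {b : X → ℂ} (hb : AnalyticAt ℂ b e)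
    (hc : AnalyticAt ℂ c (e, b e)) {q : Fin n → EE g} (hq : Cy Φ (τ e) (c (e, b e)) q)
    (hB : ∀ᶠ x in 𝓝 (e, (0 : ℂ)), x.2 ≠ 0 →
      Br Φ (fun x : X × ℂ => τ x.1) c (x.1, b x.1 + x.2)) :
    Tendsto (fun s => s * trF Φ τ c e ν ξ (b e + s)) (𝓝[≠] 0) (𝓝 0) := by
  obtain ⟨q, e1, hr⟩ := exists_red (τ e) q
  obtain ⟨ε₀, h0, hG⟩ := xEpb_gd hE hτ hΩ hb hc (hE.cy_congr hΩ.self_of_nhds hq e1) hr hB
  obtain ⟨η₀, hη₀, hG₀⟩ := hG ε₀ h0 le_rfl
  have hS : ∀ᶠ x in 𝓝 e, τ x ∈ Siegel g := hΩ.mono fun _ h => hE.sub h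
  obtain ⟨ρ, hρ, hρ'⟩ : ∃ ρ : ℝ, 0 < ρ ∧ ρ * ‖ξ‖ ≤ η₀ := by
    refine ⟨η₀ / (‖ξ‖ + 1), by positivity, ?_⟩
    rw [div_mul_eq_mul_div, div_le_iff₀ (by positivity)]
    linarith
  obtain ⟨K, hKd⟩ := detb r (C := g * (‖ν‖ * (2 * ε₀ / ρ)) + ‖fderiv ℂ b e‖ * ‖ξ‖) (by positivity)
  refine xEpb_lim (K := n * |K|) (K' := g * (‖ν‖ * 2)) h0 (by positivity) fun ε hε hε' => ?_
  obtain ⟨η, hη, hG₁⟩ := hG ε hε hε'
  filter_upwards [self_mem_nhdsWithin, mem_nhdsWithin_of_mem_nhds (Metric.ball_mem_nhds 0 hη₀),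
    mem_nhdsWithin_of_mem_nhds (Metric.ball_mem_nhds 0 (half_pos hη))] with t ht h1 h2
  have ht0 : t ≠ 0 := ht
  have ht1 : 0 < ‖t‖ := norm_pos_iff.2 ht0
  rw [mem_ball_zero_iff] at h1 h2
  obtain ⟨p, hp, hpc⟩ := (hG₀ e t (by simpa using hη₀) h1 ht0).2.br
  have key : ∀ i, ‖tf (fun e' => p (e', b e + t) i) e ν ξ‖ ≤
      |K| * (1 + g * (‖ν‖ * (2 * ε / ‖t‖))) := by
    intro i
    have d1 : DifferentiableAt ℂ (fun x => p x i) (e, b e + t) :=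
      differentiableAt_pi.1 hp.differentiableAt i
    have d2 := (HasFDerivAt.comp (g := fun x => p x i) (f := fun e' => (e', b e + t)) e
      d1.hasFDerivAt (hasFDerivAt_prodMk_left (𝕜 := ℂ) e (b e + t))).fderiv
    have d3 : ∀ a, fderiv ℂ (fun e' => p (e', b e + t) i) e (ξ a) =
        fderiv ℂ (fun x => p x i) (e, b e + t) (ξ a, fderiv ℂ b e (ξ a)) -
          fderiv ℂ b e (ξ a) • fderiv ℂ (fun x => p x i) (e, b e + t) (0, 1) := fun a => by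
      rw [← map_smul, ← map_sub]
      refine (congrArg (fun L => L (ξ a)) d2).trans ?_
      simp
    rw [tf]
    simp only [d3, dotProduct_sub, dotProduct_smul, smul_eq_mul]
    refine (hKd _ _ _ _ (by positivity) (fun a a' => ?_) (fun a => ?_) fun a' => ?_).trans
      (mul_le_mul_of_nonneg_right (le_abs_self K) (by positivity))
    · have l1 : ∀ s : ℂ, HasDerivAt (fun s : ℂ => e + s • ξ a) (ξ a) s := fun s => by
        simpa using ((hasDerivAt_id s).smul_const (ξ a)).const_add e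
      have l2 : ∀ s : ℂ, AnalyticAt ℂ (fun s : ℂ => e + s • ξ a) s := fun s => by fun_prop
      have l3 : HasFDerivAt b (fderiv ℂ b e) (e + (0 : ℂ) • ξ a) := by
        simpa using hb.differentiableAt.hasFDerivAt
      obtain ⟨m, l, h3⟩ := xEpb_trk hE hρ (Γ := fun s => (e + s • ξ a, b (e + s • ξ a) + t))
        (fun s hs => by
          have h4 : ‖e + s • ξ a - e‖ < η₀ := by
            rw [add_sub_cancel_left, norm_smul]
            rcases (norm_nonneg (ξ a)).eq_or_lt with h5 | h5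
            · rwa [← h5, mul_zero]
            · exact (mul_lt_mul_of_pos_right (mem_ball_zero_iff.1 hs) h5).trans_le
                ((mul_le_mul_of_nonneg_left (norm_le_pi_norm ξ a) hρ.le).trans hρ')
          obtain ⟨h5, h6⟩ := hG₀ _ t h4 h1 ht0
          exact ⟨(l2 s).prod ((AnalyticAt.comp (g := b) (f := fun s : ℂ => e + s • ξ a) h5
            (l2 s)).add analyticAt_const), h6⟩)
        (y := (e, b e + t)) (by simp)
        ((l1 0).prodMk ((l3.comp_hasDerivAt 0 (l1 0)).add_const t)) hp hpc i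
      have h4 := xEpb_dot (ν a') (fderiv ℂ (fun x => p x i) (e, b e + t)
        (ξ a, fderiv ℂ b e (ξ a)) - fderiv ℂ (fun x => per (τ x) m l) e (ξ a))
      rw [dotProduct_sub, hK.per hτ hS, sub_zero] at h4
      refine h4.trans (le_add_of_le_of_nonneg (mul_le_mul_of_nonneg_left
        (mul_le_mul (norm_le_pi_norm ν a') h3 (norm_nonneg _) (norm_nonneg _))
          (Nat.cast_nonneg _)) (by positivity))
    · exact le_add_of_nonneg_of_le (by positivity) (((fderiv ℂ b e).le_opNorm _).trans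
        (mul_le_mul_of_nonneg_left (norm_le_pi_norm ξ a) (norm_nonneg _)))
    · obtain ⟨m, l, h3⟩ := xEpb_trk hE ht1 (Γ := fun s => (e, b e + (t + s)))
        (fun s hs => by
          rw [mem_ball_zero_iff] at hs
          refine ⟨by fun_prop, (hG₁ e (t + s) (by simpa using hη)
            ((norm_add_le _ _).trans_lt (by linarith)) fun h => ?_).2⟩
          rw [eq_neg_of_add_eq_zero_right h, norm_neg] at hs
          exact lt_irrefl _ hs)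
        (y := (e, b e + t)) (by simp)
        ((hasDerivAt_const (0 : ℂ) e).prodMk
          (((hasDerivAt_id (0 : ℂ)).const_add t).const_add (b e))) hp hpc i
      rw [map_zero, sub_zero] at h3
      exact (xEpb_dot _ _).trans (mul_le_mul_of_nonneg_left
        (mul_le_mul (norm_le_pi_norm ν a') h3 (norm_nonneg _) (norm_nonneg _)) (Nat.cast_nonneg _))
  rw [hE.trF_eq hK hτ hΩ hp hpc, norm_mul]
  refine (mul_le_mul_of_nonneg_left ((norm_sum_le _ _).trans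
    (Finset.sum_le_card_nsmul _ _ _ fun i _ => key i)) ht1.le).trans (le_of_eq ?_)
  rw [Finset.card_univ, Fintype.card_fin, nsmul_eq_mul]
  field_simp

end Pool.Agent.MP_cf0a82_ag

end
end

section

open Complex Filter Topology Matrix Function

noncomputable section

namespace Pool.Agent.MP_cf0a82_ag

open Pool.Agent.MP_f58063_ag

variable {J : Type} [Fintype J] {n g r : ℕ} {Ω : Set (Mat g)} {Φ : Mat g → EE g → J → ℂ}
  {X : Type} [NormedAddCommGroup X] [NormedSpace ℂ X] [CompleteSpace X] {τ : X → Mat g} {e : X}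
  {ν : Fin r → EE g} {ξ : Fin r → X} {c : X × ℂ → Tn J n}

omit [NormedSpace ℂ X] [CompleteSpace X] in
theorem xepz_close (hE : Emb Ω Φ) {x₀ : X} (hτ : ContinuousAt τ x₀)
    (hΩ : ∀ᶠ x in 𝓝 x₀, τ x ∈ Ω) (hc : ContinuousAt c (x₀, 0)) {w : X → Fin n → EE g}
    (hw : ContinuousAt w x₀) (hq : Cy Φ (τ x₀) (c (x₀, 0)) (w x₀)) {ε : ℝ} (hε : 0 < ε) :
    ∀ᶠ z : X × ℂ in 𝓝 (x₀, 0), ∀ q', Cy Φ (τ z.1) (c z) q' → ∃ σ : Equiv.Perm (Fin n), ∀ i,
      ∃ m l, ‖q' (σ i) - w z.1 i - per (τ z.1) m l‖ < ε := by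
  have hf : Tendsto (fun z : X × ℂ => z.1) (𝓝 (x₀, 0)) (𝓝 x₀) := continuous_fst.tendsto _
  have h1 := hE.close (F := 𝓝 (x₀, (0 : ℂ))) (τ := fun z : X × ℂ => τ z.1) (c := c)
    (hτ.tendsto.comp hf) hc.tendsto hΩ.self_of_nhds (hf.eventually hΩ) hq (half_pos hε)
  have h2 : ∀ᶠ z : X × ℂ in 𝓝 (x₀, 0), dist (w z.1) (w x₀) < ε / 2 :=
    (hw.tendsto.comp hf).eventually (Metric.ball_mem_nhds _ (half_pos hε))
  filter_upwards [h1, h2] with z hz hz' q' hq'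
  obtain ⟨σ, hσ⟩ := hz q' hq'
  refine ⟨σ, fun i => ?_⟩
  obtain ⟨m, l, hml⟩ := hσ i
  refine ⟨m, l, ?_⟩
  have h3 : ‖w z.1 i - w x₀ i‖ < ε / 2 := by
    rw [dist_eq_norm] at hz'
    exact lt_of_le_of_lt (norm_le_pi_norm (w z.1 - w x₀) i) hz'
  have h4 : q' (σ i) - w z.1 i - per (τ z.1) m l =
      (q' (σ i) - w x₀ i - per (τ z.1) m l) - (w z.1 i - w x₀ i) := by abel
  rw [h4]
  exact lt_of_le_of_lt (norm_sub_le _ _) (by linarith)

omit [CompleteSpace X] in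
theorem xepz_sep (hτ : AnalyticAt ℂ τ e) (h1 : τ e ∈ PosIm g) {w : X → Fin n → EE g}
    (hw : AnalyticAt ℂ w e)
    (hpat : ∀ i j m l, w e i - w e j = per (τ e) m l →
      ∀ᶠ x in 𝓝 e, w x i - w x j = per (τ x) m l) :
    ∃ ε₀ : ℝ, 0 < ε₀ ∧ ∀ᶠ x in 𝓝 e, (∀ i j m l, ‖w x i - w x j - per (τ x) m l‖ < ε₀ →
      w e i - w e j = per (τ e) m l) ∧ ∀ i j m l, w e i - w e j = per (τ e) m l →
        w x i - w x j = per (τ x) m l := by
  have hwi : ∀ i, Tendsto (fun x => w x i) (𝓝 e) (𝓝 (w e i)) := fun i =>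
    ((continuous_apply i).tendsto _).comp hw.continuousAt.tendsto
  have hs : ∀ ij : Fin n × Fin n, ∃ ε : ℝ, 0 < ε ∧ ∀ᶠ x in 𝓝 e, ∀ m l,
      ‖(w x ij.1 - w x ij.2) - per (τ x) m l‖ < ε → w e ij.1 - w e ij.2 = per (τ e) m l :=
    fun ij => sepa hτ.continuousAt.tendsto h1 ((hwi ij.1).sub (hwi ij.2))
  choose ε hε hs using hs
  obtain ⟨ε₀, h0, hle⟩ : ∃ ε₀ : ℝ, 0 < ε₀ ∧ ∀ ij, ε₀ ≤ ε ij := by
    have : ∀ᶠ y in 𝓝[>] (0 : ℝ), ∀ ij, y ≤ ε ij :=
      eventually_all.2 fun ij => nhdsWithin_le_nhds (Iic_mem_nhds (hε ij))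
    obtain ⟨y, hy, hy'⟩ := (this.and self_mem_nhdsWithin).exists
    exact ⟨y, hy', hy⟩
  have hp : ∀ ij : Fin n × Fin n, ∀ᶠ x in 𝓝 e, ∀ m l, w e ij.1 - w e ij.2 = per (τ e) m l →
      w x ij.1 - w x ij.2 = per (τ x) m l := by
    intro ij
    by_cases h : ∃ m l, w e ij.1 - w e ij.2 = per (τ e) m l
    · obtain ⟨m, l, h⟩ := h
      filter_upwards [hpat _ _ m l h] with x hx m' l' h'
      obtain ⟨rfl, rfl⟩ := per_inj h1 (h.symm.trans h')
      exact hx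
    · exact Eventually.of_forall fun x m l h' => absurd ⟨m, l, h'⟩ h
  refine ⟨ε₀, h0, ?_⟩
  filter_upwards [eventually_all.2 hs, eventually_all.2 hp] with x hx hx'
  exact ⟨fun i j m l h => hx (i, j) m l (h.trans_le (hle _)), fun i j m l h => hx' (i, j) m l h⟩

theorem xepz_dot (ν : Fin r → EE g) : ∃ C : ℝ, 0 < C ∧ ∀ b (v : EE g), ‖ν b ⬝ᵥ v‖ ≤ C * ‖v‖ := by
  refine ⟨1 + ∑ b, ∑ k, ‖ν b k‖, by positivity, fun b v => ?_⟩
  have h1 : ‖ν b ⬝ᵥ v‖ ≤ (∑ k, ‖ν b k‖) * ‖v‖ := by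
    rw [dotProduct, Finset.sum_mul]
    refine (norm_sum_le _ _).trans (Finset.sum_le_sum fun k _ => ?_)
    rw [norm_mul]
    exact mul_le_mul_of_nonneg_left (norm_le_pi_norm v k) (norm_nonneg _)
  refine h1.trans (mul_le_mul_of_nonneg_right ?_ (norm_nonneg _))
  have h2 : ∑ k, ‖ν b k‖ ≤ ∑ b, ∑ k, ‖ν b k‖ :=
    Finset.single_le_sum (f := fun b => ∑ k, ‖ν b k‖) (fun b _ => by positivity)
      (Finset.mem_univ b)
  linarith

omit [CompleteSpace X] in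
theorem xepz_deriv {Y : Type} [NormedAddCommGroup Y] [NormedSpace ℂ Y] {f : X → Y}
    (hf : DifferentiableAt ℂ f e) (v : X) :
    deriv (fun s : ℂ => f (e + s • v)) 0 = fderiv ℂ f e v := by
  have h1 : HasDerivAt (fun s : ℂ => e + s • v) v 0 := by
    simpa using ((hasDerivAt_id (0 : ℂ)).smul_const v).const_add e
  have h2 : HasFDerivAt f (fderiv ℂ f e) (e + (0 : ℂ) • v) := by
    simpa using hf.hasFDerivAt
  exact (h2.comp_hasDerivAt 0 h1).deriv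

omit [CompleteSpace X] in
theorem xepz_line (e v : X) (s : ℂ) : AnalyticAt ℂ (fun s : ℂ => e + s • v) s :=
  analyticAt_const.add (analyticAt_id.smul analyticAt_const)

/-- the limit of the trace at a fixed point of the projective line -/
theorem Emb.pz (hE : Emb Ω Φ) (hK : Kil τ e ν ξ) (hτ : AnalyticAt ℂ τ e)
    (hΩ : ∀ᶠ x in 𝓝 e, τ x ∈ Ω) (hc : AnalyticAt ℂ c (e, 0)) {w : X → Fin n → EE g}
    (hw : AnalyticAt ℂ w e) (hq : ∀ᶠ x in 𝓝 e, Cy Φ (τ x) (c (x, 0)) (w x))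
    (hpat : ∀ i j m l, w e i - w e j = per (τ e) m l →
      ∀ᶠ x in 𝓝 e, w x i - w x j = per (τ x) m l)
    (hB : ∀ᶠ x in 𝓝 (e, (0 : ℂ)), x.2 ≠ 0 → Br Φ (fun x : X × ℂ => τ x.1) c x) :
    Tendsto (trF Φ τ c e ν ξ) (𝓝[≠] 0) (𝓝 (∑ i, tf (fun x => w x i) e ν ξ)) := by
  have hS : ∀ᶠ x in 𝓝 e, τ x ∈ Siegel g := hΩ.mono fun x hx => hE.sub hx
  obtain ⟨ε₀, hε₀, hsep⟩ := xepz_sep hτ (Siegel_sub hS.self_of_nhds) hw hpat
  have hin : Tendsto (fun x : X => (x, (0 : ℂ))) (𝓝 e) (𝓝 (e, 0)) :=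
    (continuous_id.prodMk continuous_const).tendsto e
  have hall := (((((hτ.eventually_analyticAt.and hΩ.eventually_nhds).and
    hw.eventually_analyticAt).and hq).and (hin.eventually hc.eventually_analyticAt)).and hsep)
  obtain ⟨R₁, hR₁, hall⟩ := Metric.eventually_nhds_iff.1 hall
  obtain ⟨R₂, hR₂, hB⟩ := Metric.eventually_nhds_iff.1 hB
  obtain ⟨ρ, hρ, hρl⟩ : ∃ ρ : ℝ, 0 < ρ ∧ ∀ a, ∀ s ∈ Metric.closedBall (0 : ℂ) ρ,
      dist (e + s • ξ a) e < min R₁ R₂ := by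
    have h1 : ∀ᶠ s in 𝓝 (0 : ℂ), ∀ a, dist (e + s • ξ a) e < min R₁ R₂ := by
      refine eventually_all.2 fun a => ?_
      have h2 := (xepz_line e (ξ a) 0).continuousAt.tendsto
      simp only [zero_smul, add_zero] at h2
      exact h2.eventually (Metric.ball_mem_nhds _ (lt_min hR₁ hR₂))
    obtain ⟨ρ, hρ, h⟩ := Metric.nhds_basis_closedBall.eventually_iff.1 h1
    exact ⟨ρ, hρ, fun a s hs => h hs a⟩
  have hl := fun a s hs => hall ((hρl a s hs).trans_le (min_le_left _ _))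
  obtain ⟨C, hC, hdot⟩ := xepz_dot ν
  rw [Metric.tendsto_nhds]
  intro δ hδ
  have hδ' : 0 < δ / (n + 1) := by positivity
  choose η hη hdet using fun i : Fin n =>
    detc r (Matrix.of fun a b => ν b ⬝ᵥ fderiv ℂ (fun x => w x i) e (ξ a)) hδ'
  obtain ⟨ε, hε, hεl, hεη⟩ : ∃ ε : ℝ, 0 < ε ∧ 2 * ε ≤ ε₀ ∧ ∀ i, C * (2 * ε / ρ) ≤ η i := by
    have h1 : ∀ᶠ y in 𝓝 (0 : ℝ), 2 * y ≤ ε₀ ∧ ∀ i, C * (2 * y / ρ) ≤ η i := by
      refine Eventually.and ?_ (eventually_all.2 fun i => ?_)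
      · have h2 : ContinuousAt (fun y : ℝ => 2 * y) 0 := by fun_prop
        exact h2.eventually (Iic_mem_nhds (by simpa using hε₀))
      · have h2 : ContinuousAt (fun y : ℝ => C * (2 * y / ρ)) 0 := by fun_prop
        exact h2.eventually (Iic_mem_nhds (by simpa using hη i))
    obtain ⟨y, hy, hy'⟩ :=
      ((h1.filter_mono (nhdsWithin_le_nhds (s := Set.Ioi 0))).and self_mem_nhdsWithin).exists
    exact ⟨y, hy', hy⟩
  have hcl : ∀ a, ∀ᶠ t in 𝓝 (0 : ℂ), ∀ s ∈ Metric.closedBall (0 : ℂ) ρ, ∀ q',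
      Cy Φ (τ (e + s • ξ a)) (c (e + s • ξ a, t)) q' → ∃ σ : Equiv.Perm (Fin n), ∀ i,
        ∃ m l, ‖q' (σ i) - w (e + s • ξ a) i - per (τ (e + s • ξ a)) m l‖ < ε := by
    intro a
    refine (isCompact_closedBall (0 : ℂ) ρ).eventually_forall_of_forall_eventually
      fun s hs => ?_
    obtain ⟨⟨⟨⟨⟨h1, h2⟩, h3⟩, h4⟩, h5⟩, -⟩ := hl a s hs
    have h6 := xepz_close hE h1.continuousAt h2 h5.continuousAt h3.continuousAt h4 hε
    have h7 : Continuous fun z : ℂ × ℂ => (e + z.2 • ξ a, z.1) := by fun_prop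
    exact (h7.tendsto (0, s)).eventually h6
  have hcl0 : ∀ᶠ t in 𝓝 (0 : ℂ), ∀ q', Cy Φ (τ e) (c (e, t)) q' →
      ∃ σ : Equiv.Perm (Fin n), ∀ i, ∃ m l, ‖q' (σ i) - w e i - per (τ e) m l‖ < ε := by
    have h6 := xepz_close hE hτ.continuousAt hΩ hc.continuousAt hw.continuousAt
      hq.self_of_nhds hε
    have h7 : Continuous fun t : ℂ => (e, t) := by fun_prop
    exact (h7.tendsto 0).eventually h6
  filter_upwards [nhdsWithin_le_nhds (eventually_all.2 hcl), nhdsWithin_le_nhds hcl0,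
    nhdsWithin_le_nhds (Metric.ball_mem_nhds (0 : ℂ) hR₂), self_mem_nhdsWithin]
    with t ht ht0 htR htne
  have hBr : ∀ x, dist x e < R₂ → Br Φ (fun x : X × ℂ => τ x.1) c (x, t) := fun x hx =>
    hB (y := (x, t)) (by rw [Prod.dist_eq]; exact max_lt hx htR) htne
  obtain ⟨p, hp, hpc⟩ := hBr e (by simpa using hR₂)
  rw [hE.trF_eq hK hτ hΩ hp hpc]
  obtain ⟨σ, hσ⟩ := ht0 _ hpc.self_of_nhds
  choose m l hml using hσ
  rw [← Equiv.sum_comp σ, dist_eq_norm, ← Finset.sum_sub_distrib]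
  have hpe : AnalyticAt ℂ (fun x => p (x, t)) e :=
    hp.comp_of_eq (analyticAt_id.prod analyticAt_const) rfl
  have key : ∀ i, ‖tf (fun e' => p (e', t) (σ i)) e ν ξ - tf (fun x => w x i) e ν ξ‖ ≤
      δ / (n + 1) := by
    intro i
    refine hdet i _ fun a b => ?_
    have hf : ∀ s : ℂ, AnalyticAt ℂ (fun s : ℂ => (e + s • ξ a, t)) s := fun s =>
      (xepz_line e (ξ a) s).prod analyticAt_const
    have hsub := Metric.ball_subset_closedBall (x := (0 : ℂ)) (ε := ρ)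
    have hf0 : (e + (0 : ℂ) • ξ a, t) = (e, t) := by simp
    have hT : Tendsto (fun s : ℂ => (e + s • ξ a, t)) (𝓝 0) (𝓝 (e, t)) := by
      have := (hf 0).continuousAt.tendsto
      rwa [hf0] at this
    have htr := hE.trk (τ := fun s => τ (e + s • ξ a)) (c := fun s => c (e + s • ξ a, t))
      (ε := ε) hρ
      (fun s hs => (hl a s (hsub hs)).1.1.1.1.1.comp_of_eq (xepz_line e (ξ a) s) rfl)
      (fun s hs => (hl a s (hsub hs)).1.1.1.1.2.self_of_nhds)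
      (fun s hs => Br.comp (τ := fun x : X × ℂ => τ x.1) (hf s)
        (hBr _ ((hρl a s (hsub hs)).trans_le (min_le_right _ _))))
      (w := fun j s => w (e + s • ξ a) j)
      (fun j s hs => (analyticAt_pi_iff.1 (hl a s (hsub hs)).1.1.1.2 j).comp_of_eq
        (xepz_line e (ξ a) s) rfl)
      (fun s hs j j' m' l' h s' hs' => (hl a s' (hsub hs')).2.2 j j' m' l'
        ((hl a s (hsub hs)).2.1 j j' m' l' (h.trans_le hεl)))
      (fun s hs q hq' i' => by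
        obtain ⟨σ', h⟩ := ht a s (hsub hs) q hq'
        obtain ⟨m', l', h⟩ := h (σ'.symm i')
        exact ⟨σ'.symm i', m', l', by simpa using h⟩)
      (p := fun s => p (e + s • ξ a, t)) (hp.comp_of_eq (hf 0) hf0) (hT.eventually hpc)
      (i := σ i) (j := i) (m := m i) (l := l i) (by simpa using hml i)
    have d1 : DifferentiableAt ℂ (fun x => p (x, t) (σ i)) e :=
      (analyticAt_pi_iff.1 hpe (σ i)).differentiableAt
    have d2 : DifferentiableAt ℂ (fun x => w x i) e :=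
      (analyticAt_pi_iff.1 hw i).differentiableAt
    have d3 : DifferentiableAt ℂ (fun x => per (τ x) (m i) (l i)) e :=
      ((per_analytic (m i) (l i) (τ e)).comp hτ).differentiableAt
    have h1 := xepz_deriv (f := fun x => p (x, t) (σ i) - w x i - per (τ x) (m i) (l i))
      ((d1.fun_sub d2).fun_sub d3) (ξ a)
    rw [h1, fderiv_fun_sub (d1.fun_sub d2) d3, fderiv_fun_sub d1 d2] at htr
    have h2 := hK.per hτ hS (m i) (l i) a b
    have h3 := (hdot b _).trans (mul_le_mul_of_nonneg_left htr hC.le)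
    simp only [_root_.sub_apply, dotProduct_sub, h2, sub_zero] at h3
    exact h3.trans (hεη i)
  refine lt_of_le_of_lt ((norm_sum_le _ _).trans (Finset.sum_le_sum fun i _ => key i)) ?_
  rw [Finset.sum_const, Finset.card_univ, Fintype.card_fin, nsmul_eq_mul, mul_div_assoc',
    div_lt_iff₀ (by positivity)]
  nlinarith

end Pool.Agent.MP_cf0a82_ag

end
end
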