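import Pool.Agent.Mg.Fcf0a82q.G40f606
import Pool.Agent.Mg.Fcf0a82q.G349431
import Pool.Agent.Mg.Fcf0a82q.Gc48b41
import Pool.Agent.Mg.Fcf0a82q.G67c0ca
import Pool.Agent.Mg.Fcf0a82q.Gb6098d

section

open Complex Filter Topology Matrix Function

noncomputable section

namespace Pool.Agent.MP_cf0a82_ag

open Pool.Agent.MP_f58063_ag

variable {g k : ℕ} {B : Box g} (A : Atl B) (δ : Dat B k) {q : DD g × δ.W}

/-- the projection to the coordinates of one point -/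
def xddomL (i : PI k δ.b) : (DD g × δ.W) →L[ℂ] DD g × EE g :=
  (ContinuousLinearMap.fst ℂ _ _).prod ((ContinuousLinearMap.proj i).comp
    ((ContinuousLinearMap.fst ℂ _ _).comp (ContinuousLinearMap.snd ℂ _ _)))

theorem Dat.pt_ns {i : PI k δ.b} (h : (q.1, q.2.1 i) ∈ A.O (δ.α i)) :
    B.NS Prod.fst (fun q => δ.pt A q i) q :=
  Box.NS.comp (x := Prod.fst) (z := A.σ (δ.α i)) (f := xddomL δ i) (A.ns _ _ h)
    ((xddomL δ i).analyticAt q) fun l => NashAt.clm (l.comp (xddomL δ i)) q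

lemma xddom_sum {q : DD g × δ.W} (h : ∀ i, (q.1, q.2.1 i) ∈ A.O (δ.α i)) :
    AnalyticAt ℂ (fun q => ∑ l, δ.px A q l) q :=
  Finset.analyticAt_fun_sum _ fun _ _ => (δ.pt_ns A (h _)).1

theorem Dat.isOpen_dom : IsOpen (δ.dom A) := by
  refine isOpen_iff_mem_nhds.2 fun q hq => ?_
  obtain ⟨h1, h2, h3, h4⟩ := hq
  have a1 : ∀ᶠ q' : DD g × δ.W in 𝓝 q, q'.1 ∈ B.ball :=
    continuousAt_fst.eventually (B.isOpen_ball.mem_nhds h1)
  have a2 : ∀ᶠ q' : DD g × δ.W in 𝓝 q, ∀ i, (q'.1, q'.2.1 i) ∈ A.O (δ.α i) :=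
    eventually_all.2 fun i =>
      (xddomL δ i).continuous.continuousAt.eventually ((A.op _).mem_nhds (h2 i))
  filter_upwards [a1, a2, xbns_ev (xddom_sum A δ h2) (Box.NB.fst h1) h3,
    xbns_ev (z := fun _ => 0) analyticAt_const (Box.NB.fst h1) h4] with q' b1 b2 b3 b4
  exact ⟨b1, b2, b3, b4⟩

theorem Dat.px_an (h : q ∈ δ.dom A) : AnalyticAt ℂ (δ.px A) q :=
  analyticAt_pi_iff.2 fun _ => (δ.pt_ns A (h.2.1 _)).1

theorem Dat.py_an (h : q ∈ δ.dom A) : AnalyticAt ℂ (δ.py A) q :=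
  analyticAt_pi_iff.2 fun _ => (δ.pt_ns A (h.2.1 _)).1

theorem Dat.pb_an (h : q ∈ δ.dom A) : AnalyticAt ℂ (δ.pb A) q :=
  analyticAt_pi_iff.2 fun _ => (δ.pt_ns A (h.2.1 _)).1

theorem Dat.pt_fderiv (h : q ∈ δ.dom A) (i : PI k δ.b) (v : DD g × δ.W) :
    fderiv ℂ (fun q => δ.pt A q i) q v =
      fderiv ℂ (A.σ (δ.α i)) (q.1, q.2.1 i) (v.1, v.2.1 i) := by
  have h1 := (HasFDerivAt.comp q (f := xddomL δ i) (g := A.σ (δ.α i))
    (A.ns _ _ (h.2.1 i)).1.differentiableAt.hasFDerivAt (xddomL δ i).hasFDerivAt).fderiv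
  exact DFunLike.congr_fun h1 v

theorem Dat.px_fderiv (h : q ∈ δ.dom A) {v : DD g × δ.W} (hv : v.1 = 0) :
    fderiv ℂ (δ.px A) q v = 0 ↔ ∀ l, v.2.1 (.inl (.inr l)) = 0 := by
  have h1 : ∀ l, fderiv ℂ (δ.px A) q v l =
      fderiv ℂ (A.σ (δ.α (.inl (.inr l)))) (q.1, q.2.1 (.inl (.inr l)))
        (0, v.2.1 (.inl (.inr l))) := fun l => by
    rw [← hv, ← δ.pt_fderiv A h]
    exact (DFunLike.congr_fun (fderiv_apply (δ.px_an A h).differentiableAt l) v).symm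
  refine ⟨fun h0 l => A.inj _ _ (h.2.1 (.inl (.inr l))) _ ?_, fun h0 => funext fun l => ?_⟩
  · rw [← h1, h0]
    rfl
  · rw [h1, h0]
    exact map_zero _

lemma xddom_c (q : DD g × δ.W) (i : Fin (δ.d + 1)) (j : Fin (k + δ.b) → Fin B.nJ) :
    NashAt (fun q : DD g × δ.W => q.2.2.1 i j) q :=
  NashAt.clm (LinearMap.toContinuousLinearMap
    { toFun := fun q : DD g × δ.W => q.2.2.1 i j
      map_add' := fun _ _ => rfl
      map_smul' := fun _ _ => rfl }) q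

lemma xddom_s (q : DD g × δ.W) (i : Fin 4) : NashAt (fun q : DD g × δ.W => q.2.2.2 i) q :=
  NashAt.clm ((ContinuousLinearMap.proj i).comp
    ((ContinuousLinearMap.snd ℂ _ _).comp ((ContinuousLinearMap.snd ℂ _ _).comp
      (ContinuousLinearMap.snd ℂ _ _)))) q

lemma xddom_z (q : DD g × δ.W) (i : PI k δ.b) (j : Fin g) :
    NashAt (fun q : DD g × δ.W => q.2.1 i j) q :=
  NashAt.clm ((ContinuousLinearMap.proj j).comp
    ((ContinuousLinearMap.snd ℂ _ _).comp (xddomL δ i))) q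

lemma xddom_cw (q : DD g × δ.W) (a : Fin 3) (j : Fin (k + δ.b) → Fin B.nJ) :
    NashAt (fun q => δ.cw q a j) q := by
  fin_cases a
  · exact xddom_c δ q 0 j
  · exact xddom_c δ q (Fin.last _) j
  · have h := NashAt.sum Finset.univ fun (i : Fin (δ.d + 1)) _ =>
      (nash_prod (Finset.range i) fun _ _ => xddom_s δ q 3).mul (xddom_c δ q i j)
    refine h.congr (Eventually.of_forall fun q => ?_)
    simp [Dat.cw, pc, Finset.sum_apply]

lemma xddom_eqc (h : q ∈ δ.dom A) (a : Fin 3) (u : Fin B.nJ → ℂ) : NashAt (δ.eqc A a u) q := by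
  have h1 : ∀ i j, NashAt (fun q => δ.hat A q i j) q := fun i j =>
    (δ.pt_ns A (h.2.1 i)).2 j (A.j (δ.α i)) (A.ne (δ.α i) (q.1, q.2.1 i) (h.2.1 i))
  have h2 : ∀ i, NashAt (fun q => u ⬝ᵥ δ.hat A q i) q := fun i =>
    NashAt.sum Finset.univ fun j _ => (NashAt.const (u j) q).mul (h1 i j)
  have h3 : NashAt (fun q => ev (δ.cw q a) u) q :=
    NashAt.sum Finset.univ fun j _ => (xddom_cw δ q a j).mul (NashAt.const (∏ i, u (j i)) q)
  exact h3.sub ((xddom_s δ q a.castSucc).mul (nash_prod Finset.univ fun l _ => h2 (δ.ix a l)))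

lemma xddom_eqn (hg : 0 < g) (h : q ∈ δ.dom A) (j : Fin B.nJ) : NashAt (δ.eqn A j) q :=
  ((Box.NS.sum hg (Box.NB.fst h.1) Finset.univ (w := fun l q => δ.px A q l)
    fun _ _ => δ.pt_ns A (h.2.1 _)).2 j _ h.2.2.1).sub
    ((Box.NS.zero hg (Box.NB.fst h.1)).2 j _ h.2.2.2)

theorem Dat.R_spec (hg : 0 < g) :
    NR (Module.finBasis ℂ (DD g × δ.W)) (δ.dom A) (δ.R A) ∧ δ.gens A ⊆ δ.R A := by
  have h : ∃ R, NR (Module.finBasis ℂ (DD g × δ.W)) (δ.dom A) R ∧ δ.gens A ⊆ R := by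
    refine exists_NR _ (δ.isOpen_dom A) (((((Set.countable_range _).union
      (Set.countable_range _)).union (Set.countable_range _)).union
      (Set.countable_range _)).union (Set.countable_range _)) ?_
    rintro f ((((⟨s, rfl⟩ | ⟨j, rfl⟩) | ⟨j, rfl⟩) | ⟨s, rfl⟩) | ⟨s, rfl⟩) q hq
    · exact xddom_eqc A δ hq _ _
    · exact xddom_eqn A δ hg hq j
    · exact (Box.NB.fst hq.1).2.1 j
    · exact xddom_z δ q _ _
    · exact xddom_c δ q _ _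
  rw [Dat.R, dif_pos h]
  exact h.choose_spec

end Pool.Agent.MP_cf0a82_ag

end
end

section

open Complex Filter Topology Matrix Function

noncomputable section

namespace Pool.Agent.MP_cf0a82_ag

open Pool.Agent.MP_f58063_ag

variable {J : Type} [Fintype J] {n g k d : ℕ} {Ω : Set (Mat g)} {Φ : Mat g → EE g → J → ℂ}

lemma xcrat2_an (hE : Emb Ω Φ) {τ : Mat g} (hτ : τ ∈ Ω) {p : ℂ → Fin n → EE g} {s : ℂ}
    (hp : AnalyticAt ℂ p s) : AnalyticAt ℂ (fun s => sy fun i => Φ τ (p s i)) s := by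
  refine analyticAt_pi_iff.2 fun j => ?_
  unfold sy
  refine Finset.analyticAt_fun_sum _ fun σ _ => Finset.analyticAt_fun_prod _ fun i _ => ?_
  exact (hE.an τ hτ (p s (σ i)) (j i)).comp_of_eq
    (analyticAt_const.prod (analyticAt_pi_iff.1 hp (σ i))) rfl

lemma xcrat2_cy (Φ : Mat g → EE g → J → ℂ) (τ : Mat g) (q : Fin n → EE g) {κ : ℂ} (hκ : κ ≠ 0) :
    Cy Φ τ (κ • sy fun i => Φ τ (q i)) q :=
  ⟨κ * n.factorial, mul_ne_zero hκ (Nat.cast_ne_zero.2 n.factorial_ne_zero), fun u => by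
    rw [ev_smul, ev_sy, mul_assoc]⟩

lemma xcrat2_ne (hE : Emb Ω Φ) {τ : Mat g} (hτ : τ ∈ Ω) (q : Fin n → EE g) :
    (sy fun i => Φ τ (q i)) ≠ 0 := by
  intro h
  obtain ⟨u, hu⟩ := hE.cy_nz hτ (xcrat2_cy Φ τ q one_ne_zero)
  exact hu (by simp [h, ev])

lemma xcrat2_desc (hE : Emb Ω Φ) {τ : Mat g} (hτ : τ ∈ Ω) {Z : ℂ → Fin n → EE g} {t₀ : ℂ}
    (h : HolI τ Z t₀) : ∃ F : ℂ → Tn J n, AnalyticAt ℂ F t₀ ∧ F t₀ ≠ 0 ∧
      ∀ᶠ t in 𝓝 t₀, ∃ κ : ℂ, κ ≠ 0 ∧ F t = κ • sy fun i => Φ τ (Z t i) := by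
  obtain ⟨e, p, he, hp, hev⟩ := h
  exact line_desc (L := fun t => sy fun i => Φ τ (Z t i)) he (xcrat2_an hE hτ hp)
    (xcrat2_ne hE hτ _) (hev.mono fun s hs => hE.sy_congr hτ hs)

/-- a rational equivalence is given by a rational curve of Chow forms -/
theorem Emb.rat (hE : Emb Ω Φ) {τ : Mat g} (hτ : τ ∈ Ω) {a a' : Fin k → EE g} (h : RatI τ a a') :
    ∃ (b d : ℕ) (β : Fin b → EE g) (c : Fin (d + 1) → Tn J (k + b)) (t₀ : ℂ)
      (p : ℂ → Fin (k + b) → EE g), Cy Φ τ (c 0) (Fin.append a β) ∧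
      Cy Φ τ (c (Fin.last d)) (Fin.append a' β) ∧ (∀ t, Nz (pc c t)) ∧ AnalyticAt ℂ p t₀ ∧
      ∀ᶠ t in 𝓝 t₀, Cy Φ τ (pc c t) (p t) := by
  obtain ⟨b, β, Z, Z', hZ, hZ', hinv, h0, h0'⟩ := h
  obtain ⟨G, hG, hG0, hGe⟩ := xcrat2_desc hE hτ hZ'
  obtain ⟨d, c, hc, κ, hκ, hl⟩ := rat_map (L := fun t => sy fun i => Φ τ (Z t i))
    (fun t => xcrat2_desc hE hτ (hZ t)) hG hG0 (by
      filter_upwards [nhdsWithin_le_nhds hGe, self_mem_nhdsWithin] with s ⟨κ, hκ, e⟩ hs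
      obtain ⟨κ', hκ', e'⟩ := hE.sy_congr hτ (hinv s hs).symm
      exact ⟨κ * κ', mul_ne_zero hκ hκ', by rw [e, e', smul_smul]⟩)
  have hcy : ∀ t, Cy Φ τ (pc c t) (Z t) := fun t => by
    obtain ⟨κ, hκ, e⟩ := hc t
    rw [e]
    exact xcrat2_cy Φ τ _ hκ
  obtain ⟨e, p, he, hp, hev⟩ := hZ 0
  obtain ⟨s₀, ⟨h1, h2⟩, hs₀⟩ := (((hp.eventually_analyticAt.and hev.eventually_nhds).filter_mono
    (nhdsWithin_le_nhds (s := {0}ᶜ))).and self_mem_nhdsWithin).exists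
  obtain ⟨ρ, hρ, hρ0, hρe⟩ := local_root he (show s₀ ≠ 0 from hs₀)
  refine ⟨b, d, β, c, s₀ ^ e, fun t => p (ρ t), ?_, ?_, fun t => hE.cy_nz hτ (hcy t),
    h1.comp_of_eq hρ hρ0, ?_⟩
  · rw [← pc_zero c]
    exact hE.cy_congr hτ (hcy 0) h0
  · obtain ⟨κ', hκ', e'⟩ := hGe.self_of_nhds
    rw [hl, e', smul_smul]
    exact hE.cy_congr hτ (xcrat2_cy Φ τ _ (mul_ne_zero hκ hκ')) h0'
  · have ht : Tendsto ρ (𝓝 (s₀ ^ e)) (𝓝 s₀) := by
      have := hρ.continuousAt.tendsto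
      rwa [hρ0] at this
    filter_upwards [ht.eventually h2, hρe] with t h3 h4
    rw [h4, zero_add] at h3
    exact hE.cy_congr hτ (hcy t) h3

lemma xcrat2_disc {c₀ : Fin (d + 1) → Tn J n} (h : ∀ t, Nz (pc c₀ t)) :
    ∀ᶠ c in 𝓝 c₀, ∀ t ∈ Metric.closedBall (0 : ℂ) 1, Nz (pc c t) := by
  refine (isCompact_closedBall (0 : ℂ) 1).eventually_forall_of_forall_eventually fun t _ => ?_
  obtain ⟨u, hu⟩ := h t
  have hc : Continuous fun z : (Fin (d + 1) → Tn J n) × ℂ => ev (pc z.1 z.2) u := by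
    unfold ev pc
    simp only [Finset.sum_apply, Pi.smul_apply, smul_eq_mul]
    fun_prop
  exact ((hc.continuousAt (x := (c₀, t))).eventually_ne hu).mono fun z hz => ⟨u, hz⟩

/-- having no base point on the projective line is an open condition -/
theorem nz_open {c₀ : Fin (d + 1) → Tn J n} (h : ∀ t, Nz (pc c₀ t)) (h' : Nz (c₀ (Fin.last d))) :
    ∀ᶠ c in 𝓝 c₀, ∀ t, Nz (pc c t) := by
  have h1 : ∀ s, Nz (pc (fun i => c₀ i.rev) s) := fun s => by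
    by_cases hs : s = 0
    · rw [hs, pc_zero, Fin.rev_zero]
      exact h'
    · obtain ⟨u, hu⟩ := h s⁻¹
      exact ⟨u, by
        rw [pc_rev _ hs, ev_smul]
        exact mul_ne_zero (pow_ne_zero _ hs) hu⟩
  have h2 : Continuous fun (c : Fin (d + 1) → Tn J n) (i : Fin (d + 1)) => c i.rev := by fun_prop
  filter_upwards [xcrat2_disc h, (h2.tendsto c₀).eventually (xcrat2_disc h1)] with c h3 h4 t
  by_cases ht : ‖t‖ ≤ 1
  · exact h3 t (mem_closedBall_zero_iff.2 ht)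
  · have ht0 : t ≠ 0 := fun e => ht (by simp [e])
    obtain ⟨u, hu⟩ := h4 t⁻¹ (mem_closedBall_zero_iff.2 (by
      rw [norm_inv]
      exact inv_le_one_of_one_le₀ (not_le.1 ht).le))
    rw [pc_rev _ (inv_ne_zero ht0), ev_smul, inv_inv] at hu
    exact ⟨u, right_ne_zero_of_mul hu⟩

end Pool.Agent.MP_cf0a82_ag

end
end

section

open Complex Filter Topology Matrix Function

noncomputable section

namespace Pool.Agent.MP_cf0a82_ag

open Pool.Agent.MP_f58063_ag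

variable {g k : ℕ} {B : Box g} {A : Atl B} {δ : Dat B k} {q : DD g × δ.W}

theorem Dat.ch_iff (h : q ∈ δ.dom A) (a : Fin 3) (c : Tn (Fin B.nJ) (k + δ.b)) :
    Ch c (fun l => δ.hat A q (δ.ix a l)) ↔
      Cy B.Φ (B.ψ q.1) c fun l => δ.pt A q (δ.ix a l) := by
  have h0 : ∀ i, B.φ (A.j (δ.α i)) (B.ψ q.1) (δ.pt A q i) ≠ 0 := fun i =>
    A.ne (δ.α i) (q.1, q.2.1 i) (h.2.1 i)
  have e : ∀ i, δ.hat A q i =
      (B.φ (A.j (δ.α i)) (B.ψ q.1) (δ.pt A q i))⁻¹ • B.Φ (B.ψ q.1) (δ.pt A q i) := fun i =>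
    funext fun j => div_eq_inv_mul _ _
  simp only [e]
  refine ⟨fun h1 => ?_, fun h1 => Ch.scale h1 fun l => inv_ne_zero (h0 (δ.ix a l))⟩
  have h2 := h1.scale fun l => h0 (δ.ix a l)
  simp only [smul_inv_smul₀ (h0 _)] at h2
  exact h2

theorem Dat.pt_ix0 (q : DD g × δ.W) :
    (fun l => δ.pt A q (δ.ix 0 l)) = Fin.append (δ.py A q) (δ.pb A q) := by
  funext l
  refine Fin.addCases (fun i => ?_) (fun i => ?_) l <;>
    simp only [Dat.ix, cons_val_zero, Fin.append_left, Fin.append_right, Dat.py, Dat.pb]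

theorem Dat.pt_ix1 (q : DD g × δ.W) :
    (fun l => δ.pt A q (δ.ix 1 l)) = Fin.append (δ.px A q) (δ.pb A q) := by
  funext l
  refine Fin.addCases (fun i => ?_) (fun i => ?_) l <;>
    simp only [Dat.ix, cons_val_one, cons_val_zero, Fin.append_left, Fin.append_right, Dat.px,
      Dat.pb]

lemma xdsol_cy (h : δ.Sol A q) (a : Fin 3) :
    Cy B.Φ (B.ψ q.1) (δ.cw q a) fun l => δ.pt A q (δ.ix a l) :=
  (Dat.ch_iff h.mem a _).1 ⟨_, h.ne a, fun u => sub_eq_zero.1 (h.eqc a u)⟩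

theorem Dat.Sol.c0 (h : δ.Sol A q) :
    Cy B.Φ (B.ψ q.1) (q.2.2.1 0) (Fin.append (δ.py A q) (δ.pb A q)) := by
  rw [← Dat.pt_ix0]
  exact xdsol_cy h 0

theorem Dat.Sol.c1 (h : δ.Sol A q) :
    Cy B.Φ (B.ψ q.1) (q.2.2.1 (Fin.last δ.d)) (Fin.append (δ.px A q) (δ.pb A q)) := by
  rw [← Dat.pt_ix1]
  exact xdsol_cy h 1

theorem Dat.Sol.c2 (h : δ.Sol A q) :
    Cy B.Φ (B.ψ q.1) (pc q.2.2.1 (q.2.2.2 3)) (δ.pm A q) :=
  xdsol_cy h 2

lemma xdsol_nor (h : q ∈ δ.dom A) :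
    ∑ l, δ.px A q l ∈ lattice (B.ψ q.1) ↔ ∀ j, δ.eqn A j q = 0 := by
  have hτ : B.ψ q.1 ∈ B.ψ '' B.ball := ⟨_, h.1, rfl⟩
  constructor
  · intro h1 j
    obtain ⟨m, n, e⟩ := mem_lattice.1 h1
    obtain ⟨κ, hκ, h2⟩ := B.embΦ.qp _ hτ m n 0
    rw [zero_add, ← e] at h2
    have h3 : ∀ j, B.φ j (B.ψ q.1) (∑ l, δ.px A q l) = κ * B.φ j (B.ψ q.1) 0 := congrFun h2
    rw [Dat.eqn, h3, h3, mul_div_mul_left _ _ hκ, sub_self]
  · intro h1
    obtain ⟨m, n, e⟩ := B.embΦ.inj _ hτ (∑ l, δ.px A q l) 0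
      (B.φ δ.jn (B.ψ q.1) (∑ l, δ.px A q l) / B.φ δ.jn (B.ψ q.1) 0) (funext fun j => by
        have h2 := (div_eq_iff h.2.2.1).1 (sub_eq_zero.1 (h1 j))
        refine h2.trans ?_
        change _ = _ * B.φ j (B.ψ q.1) 0
        ring)
    exact mem_lattice.2 ⟨m, n, e.trans (zero_add _)⟩

/-- the points of the manifold through a solution are solutions -/
theorem Dat.Sol.persist (hg : 0 < g) (h : δ.Sol A q) :
    ∀ᶠ q' in 𝓝 q, (∀ f ∈ δ.R A, f q = 0 → f q' = 0) → δ.Sol A q' := by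
  have hR := (δ.R_spec A hg).2
  have h1 : ∀ᶠ q' in 𝓝 q, ∀ a : Fin 3, q'.2.2.2 a.castSucc ≠ 0 :=
    eventually_all.2 fun a => ContinuousAt.eventually_ne
      (g := fun q' : DD g × δ.W => q'.2.2.2 a.castSucc) (by fun_prop) (h.ne a)
  have h2 : ∀ᶠ q' in 𝓝 q, ∀ t, Nz (pc q'.2.2.1 t) :=
    (show ContinuousAt (fun q' : DD g × δ.W => q'.2.2.1) q by fun_prop).eventually
      (nz_open h.nz (B.embΦ.cy_nz ⟨_, h.mem.1, rfl⟩ h.c1))
  filter_upwards [(δ.isOpen_dom A).mem_nhds h.mem, h1, h2] with q' h3 h4 h5 h6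
  refine ⟨h3, fun a u => sub_eq_zero.2 (ch_nat (fun v => sub_eq_zero.1 ?_) u), h4,
    (xdsol_nor h3).2 fun j => ?_, h5⟩
  · exact h6 _ (hR (.inl (.inl (.inl (.inl ⟨(a, v), rfl⟩))))) (h.eqc a _)
  · exact h6 _ (hR (.inl (.inl (.inl (.inr ⟨j, rfl⟩))))) ((xdsol_nor h.mem).1 h.nor j)

end Pool.Agent.MP_cf0a82_ag

end
end
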