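import Pool.Agent.Mg.Fcf0a82q.Ga9bf1b
import Pool.Agent.Mg.Fcf0a82q.G3d2c3a
import Pool.Agent.Mg.Fcf0a82q.Ge1829e

section

open Complex Filter Topology Matrix Function

noncomputable section

namespace Pool.Agent.MP_f58063_ag

variable {K : Type} [Field K] [Algebra ℂ K]

lemma xsalga_min {κ : Type} (S : Set (κ → K)) (T : Set (Der K)) (s : Finset κ)
    (hs : ∀ v ∈ S, ∀ i, i ∉ s → v i = 0) (hsc : ∀ v ∈ S, ∀ i, (v i)⁻¹ • v ∈ S)
    (hD : ∀ D ∈ T, ∀ v ∈ S, (fun i => D (v i)) ∈ S) {u : κ → K} (hu : u ∈ S) (hu0 : u ≠ 0) :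
    ∃ v ∈ S, (∃ i, v i = 1) ∧ ∀ i, v i ∈ Kc T := by
  classical
  have hex : ∃ n, ∃ v ∈ S, v ≠ 0 ∧ (s.filter fun i => v i ≠ 0).card = n := ⟨_, u, hu, hu0, rfl⟩
  obtain ⟨v, hv, hv0, hn⟩ := Nat.find_spec hex
  obtain ⟨i0, hi0⟩ := Function.ne_iff.1 hv0
  have hi0' : v i0 ≠ 0 := hi0
  have h1 : ((v i0)⁻¹ • v) i0 = 1 := inv_mul_cancel₀ hi0'
  refine ⟨(v i0)⁻¹ • v, hsc v hv i0, ⟨i0, h1⟩, fun i D hDT => ?_⟩
  by_contra hne
  have hmem := hD D hDT _ (hsc v hv i0)
  refine Nat.find_min hex (m := (s.filter fun i => D (((v i0)⁻¹ • v) i) ≠ 0).card) ?_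
    ⟨_, hmem, fun h => hne (congrFun h i), rfl⟩
  rw [← hn]
  refine Finset.card_lt_card ⟨fun j hj => ?_, fun h => ?_⟩
  · rw [Finset.mem_filter] at hj ⊢
    refine ⟨hj.1, fun h0 => hj.2 ?_⟩
    rw [Pi.smul_apply, h0, smul_zero, map_zero]
  · have h2 : i0 ∈ s.filter fun i => v i ≠ 0 :=
      Finset.mem_filter.2 ⟨by_contra fun h' => hi0' (hs v hv i0 h'), hi0'⟩
    refine (Finset.mem_filter.1 (h h2)).2 ?_
    rw [h1, Derivation.map_one_eq_zero]

/-- a subspace stable under a set of derivations is defined over their constants -/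
theorem stable_of_const {κ : Type} [Fintype κ] (U : Submodule K (κ → K)) (T : Set (Der K))
    (hU : ∀ D ∈ T, ∀ u ∈ U, (fun i => D (u i)) ∈ U) {w : Der K} (hw : ∀ f ∈ Kc T, w f = 0) :
    ∀ u ∈ U, (fun i => w (u i)) ∈ U := by
  classical
  have key : ∀ s : Finset κ, ∀ u ∈ U, (∀ i, i ∉ s → u i = 0) → (fun i => w (u i)) ∈ U := by
    intro s
    induction s using Finset.strongInduction with
    | H s ih =>
      intro u hu hs
      by_cases hu0 : u = 0
      · have : (fun i => w (u i)) = 0 := by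
          funext i
          simp [hu0]
        rw [this]
        exact U.zero_mem
      obtain ⟨v, ⟨hv, hvs⟩, ⟨i0, h1⟩, hc⟩ := xsalga_min
        {v | v ∈ U ∧ ∀ i, i ∉ s → v i = 0} T s (fun v hv => hv.2)
        (fun v hv i => ⟨U.smul_mem _ hv.1, fun j hj => by rw [Pi.smul_apply, hv.2 j hj, smul_zero]⟩)
        (fun D hD v hv => ⟨hU D hD v hv.1, fun j hj => by simp only [hv.2 j hj, map_zero]⟩)
        (u := u) ⟨hu, hs⟩ hu0
      have hi0 : i0 ∈ s := by
        by_contra h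
        exact one_ne_zero (h1.symm.trans (hvs i0 h))
      have h2 := ih (s.erase i0) (Finset.erase_ssubset hi0) (u - u i0 • v)
        (U.sub_mem hu (U.smul_mem _ hv)) fun j hj => by
          by_cases e : j = i0
          · simp [e, h1]
          · have hj' : j ∉ s := fun h => hj (Finset.mem_erase.2 ⟨e, h⟩)
            simp [hs j hj', hvs j hj']
      have h3 : (fun i => w (u i)) = (fun i => w ((u - u i0 • v) i)) + w (u i0) • v := by
        funext i
        simp only [Pi.add_apply, Pi.sub_apply, Pi.smul_apply, smul_eq_mul, map_sub,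
          Derivation.leibniz, hw _ (hc i)]
        ring
      rw [h3]
      exact U.add_mem h2 (U.smul_mem _ hv)
  exact fun u hu => key Finset.univ u hu fun i hi => absurd (Finset.mem_univ i) hi

theorem stable_of_const_mat {l : Type} [Fintype l] (U : Submodule K (Matrix l l K))
    (T : Set (Der K)) (hU : ∀ D ∈ T, ∀ u ∈ U, u.map D ∈ U) {w : Der K}
    (hw : ∀ f ∈ Kc T, w f = 0) : ∀ u ∈ U, u.map w ∈ U := by
  let φ : (l × l → K) →ₗ[K] Matrix l l K :=
    { toFun := fun v => Matrix.of fun a b => v (a, b)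
      map_add' := fun _ _ => rfl
      map_smul' := fun _ _ => rfl }
  intro u hu
  exact stable_of_const (U.comap φ) T (fun D hD v hv => hU D hD (φ v) hv) hw
    (fun p => u p.1 p.2) hu

/-- a stable subfield and the constants are linearly disjoint over their intersection -/
theorem algInd_of_const (C : IntermediateField ℂ K) (T : Set (Der K))
    (hC : ∀ D ∈ T, ∀ f ∈ C, D f ∈ C) {κ : Type} {e : κ → K} (he : ∀ j, e j ∈ Kc T)
    (h : AlgebraicIndependent (C ⊓ Kc T : IntermediateField ℂ K) e) :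
    AlgebraicIndependent C e := by
  classical
  rw [algebraicIndependent_iff] at h ⊢
  intro p hp
  by_contra hp0
  let mon : (κ →₀ ℕ) → K := fun m => ∏ i ∈ m.support, e i ^ m i
  have hmon : ∀ m, mon m ∈ Kc T := fun m => prod_mem fun i _ => pow_mem (he i) _
  obtain ⟨v, ⟨hs, hvC, hv⟩, ⟨m0, h1⟩, hc⟩ := xsalga_min
    {v : (κ →₀ ℕ) → K | (∀ m, m ∉ p.support → v m = 0) ∧ (∀ m, v m ∈ C) ∧
      ∑ m ∈ p.support, v m * mon m = 0} T p.support (fun v hv => hv.1)
    (fun v hv i => ⟨fun j hj => by rw [Pi.smul_apply, hv.1 j hj, smul_zero],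
      fun m => mul_mem (inv_mem (hv.2.1 i)) (hv.2.1 m), by
        simp only [Pi.smul_apply, smul_eq_mul, mul_assoc]
        rw [← Finset.mul_sum, hv.2.2, mul_zero]⟩)
    (fun D hD v hv => ⟨fun j hj => by simp only [hv.1 j hj, map_zero],
      fun m => hC D hD _ (hv.2.1 m), by
        have h2 := congrArg D hv.2.2
        rw [map_sum, map_zero] at h2
        rw [← h2]
        refine Finset.sum_congr rfl fun m _ => ?_
        rw [Derivation.leibniz, hmon m D hD, smul_zero, zero_add, smul_eq_mul, mul_comm]⟩)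
    (u := fun m => ((p.coeff m : C) : K))
    ⟨fun m hm => by simp only [MvPolynomial.notMem_support_iff.1 hm]; rfl, fun m => (p.coeff m).2, by
      rw [MvPolynomial.aeval_def, MvPolynomial.eval₂_eq] at hp
      exact hp⟩
    (fun h0 => hp0 (MvPolynomial.ext _ _ fun m => Subtype.ext (congrFun h0 m)))
  have hm0 : m0 ∈ p.support := by
    by_contra h'
    exact one_ne_zero (h1.symm.trans (hs m0 h'))
  let c : (κ →₀ ℕ) → (C ⊓ Kc T : IntermediateField ℂ K) := fun m => ⟨v m, hvC m, hc m⟩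
  have h2 := h (∑ m ∈ p.support, MvPolynomial.monomial m (c m)) (by
    rw [map_sum, ← hv]
    refine Finset.sum_congr rfl fun m _ => ?_
    rw [MvPolynomial.aeval_monomial]
    rfl)
  have h3 := congrArg (MvPolynomial.coeff m0) h2
  rw [MvPolynomial.coeff_sum, Finset.sum_eq_single m0
    (fun m _ hm => by rw [MvPolynomial.coeff_monomial, if_neg hm])
    (fun hm => absurd hm0 hm), MvPolynomial.coeff_monomial, if_pos rfl] at h3
  exact one_ne_zero (h1.symm.trans (congrArg Subtype.val h3))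

end Pool.Agent.MP_f58063_ag

end
end

section

open Complex Filter Topology Matrix Function

noncomputable section

namespace Pool.Agent.MP_f58063_ag

variable {K : Type} [Field K] [Algebra ℂ K] {ι l : Type} [Fintype ι] [DecidableEq ι]
  [Fintype l] [DecidableEq l] (π : Par K ι l)

omit [Fintype l] [DecidableEq l] in
theorem xsalge_const {ξ : Matrix l l K} (h : ∀ a b, ξ a b ∈ Set.range (algebraMap ℂ K))
    (w : Der K) : ξ.map w = 0 := by
  ext a b
  obtain ⟨c, hc⟩ := h a b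
  rw [Matrix.map_apply, ← hc, w.map_algebraMap, Matrix.zero_apply]

omit [Fintype l] [DecidableEq l] in
theorem xsalge_zero (w : Der K) : (0 : Matrix l l K).map w = 0 := Matrix.map_zero _ (map_zero w)

omit [Fintype l] [DecidableEq l] in
theorem xsalge_add (ξ : Matrix l l K) (w w' : Der K) :
    ξ.map (w + w' : Der K) = ξ.map w + ξ.map w' := rfl

omit [Fintype l] [DecidableEq l] in
theorem xsalge_sub (ξ : Matrix l l K) (w w' : Der K) :
    ξ.map (w - w' : Der K) = ξ.map w - ξ.map w' := rfl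

omit [Fintype l] [DecidableEq l] in
theorem xsalge_smul (ξ : Matrix l l K) (c : K) (w : Der K) :
    ξ.map (c • w : Der K) = c • ξ.map w := rfl

theorem xsalge_sum {κ : Type} (s : Finset κ) (w : κ → Der K) (f : K) :
    (∑ i ∈ s, w i) f = ∑ i ∈ s, w i f := by
  classical
  induction s using Finset.induction_on with
  | empty => simp
  | insert a s ha ih => rw [Finset.sum_insert ha, Finset.sum_insert ha, Derivation.add_apply, ih]

theorem Par.hor_y (w : Der K) (i : ι) : π.hor w (π.y i) = w (π.y i) := by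
  rw [Par.hor, xsalge_sum]
  simp [π.Dy]

theorem Par.Ω_hor (w : Der K) : π.Ω (π.hor w) = 0 := by
  simp [Par.hor, π.ΩD]

theorem Par.eq_hor {w : Der K} (h : π.Ω w = 0) : w = π.hor w := by
  refine sub_eq_zero.1 (π.inj _ (fun i => ?_) ?_)
  · rw [Derivation.sub_apply, π.hor_y, sub_self]
  · rw [map_sub, h, π.Ω_hor, sub_self]

theorem Par.sub_hor (w : Der K) : w - π.hor w ∈ π.Vert := by
  intro i
  rw [Derivation.sub_apply, π.hor_y, sub_self]

theorem Par.vert_span : π.Vert ⊆ Submodule.span K π.VertC := by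
  intro X hX
  have key : ∀ ξ ∈ Submodule.span K {ξ | ξ ∈ π.s ∧ ∀ a b, ξ a b ∈ Set.range (algebraMap ℂ K)},
      ∃ w ∈ Submodule.span K π.VertC, w ∈ π.Vert ∧ π.Ω w = ξ := by
    intro ξ hξ
    induction hξ using Submodule.span_induction with
    | mem ξ hξ =>
      obtain ⟨w, h1, rfl⟩ := π.surj ξ hξ.1
      exact ⟨w, Submodule.subset_span ⟨h1, hξ.2⟩, h1, rfl⟩
    | zero => exact ⟨0, zero_mem _, fun _ => rfl, map_zero _⟩
    | add ξ ξ' _ _ h h' =>
      obtain ⟨w, h1, h2, rfl⟩ := h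
      obtain ⟨w', h1', h2', rfl⟩ := h'
      exact ⟨w + w', add_mem h1 h1', fun i => by rw [Derivation.add_apply, h2 i, h2' i, add_zero],
        map_add _ _ _⟩
    | smul c ξ _ h =>
      obtain ⟨w, h1, h2, rfl⟩ := h
      exact ⟨c • w, Submodule.smul_mem _ _ h1,
        fun i => by rw [Derivation.smul_apply, h2 i, smul_zero], map_smul _ _ _⟩
  obtain ⟨w, h1, h2, h3⟩ := key _ (π.span (π.mem X))
  have e : X = w := sub_eq_zero.1 (π.inj _
    (fun i => by rw [Derivation.sub_apply, hX i, h2 i, sub_self]) (by rw [map_sub, h3, sub_self]))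
  rwa [e]

theorem Par.Kc_vertC : Kc π.VertC = Kc π.Vert := by
  ext f
  refine ⟨fun h X hX => ?_, fun h X hX => h X hX.1⟩
  have h1 := π.vert_span hX
  clear hX
  induction h1 using Submodule.span_induction with
  | mem X hX => exact h X hX
  | zero => rfl
  | add X X' _ _ h1 h2 => rw [Derivation.add_apply, h1, h2, add_zero]
  | smul c X _ h1 => rw [Derivation.smul_apply, h1, smul_zero]

theorem Par.lie_Hk {T : Set K} (hT : ∀ X ∈ π.VertC, ∀ f ∈ T, X f ∈ Submodule.span ℂ T)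
    {X v : Der K} (hX : X ∈ π.VertC) (hv : v ∈ π.Hk T) : ⁅X, v⁆ ∈ π.Hk T := by
  refine ⟨?_, fun f hf => ?_⟩
  · rw [π.mc, hv.1, xsalge_zero, xsalge_const hX.2]
    simp
  · have h : Submodule.span ℂ T ≤ LinearMap.ker (v : K →ₗ[ℂ] K) :=
      Submodule.span_le.2 fun f hf => hv.2 f hf
    have h1 : v (X f) = 0 := h (hT X hX f hf)
    rw [Derivation.commutator_apply, hv.2 f hf, h1, map_zero, sub_self]

theorem Par.Kc_Hk_stable {T : Set K} (hT : ∀ X ∈ π.VertC, ∀ f ∈ T, X f ∈ Submodule.span ℂ T) :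
    ∀ X ∈ π.VertC, ∀ f ∈ Kc (π.Hk T), X f ∈ Kc (π.Hk T) := by
  intro X hX f hf v hv
  have h := hf _ (π.lie_Hk hT hX hv)
  rw [Derivation.commutator_apply, hf v hv, map_zero, zero_sub, neg_eq_zero] at h
  exact h

theorem Par.hh_vert {T : Set K} (hT : ∀ X ∈ π.VertC, ∀ f ∈ T, X f ∈ Submodule.span ℂ T) :
    ∀ X ∈ π.Vert, ∀ ξ ∈ π.hh (Kc (π.Hk T)),
      ξ.map X - (π.Ω X * ξ - ξ * π.Ω X) ∈ π.hh (Kc (π.Hk T)) := by
  rintro X hX ξ ⟨w, hw, rfl⟩
  have h1 := π.vert_span hX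
  clear hX
  induction h1 using Submodule.span_induction with
  | mem X hX =>
    refine ⟨⁅X, w⁆, fun f hf => ?_, ?_⟩
    · rw [Derivation.commutator_apply, hw f hf, hw _ (π.Kc_Hk_stable hT X hX f hf), map_zero,
        sub_self]
    · rw [π.mc, xsalge_const hX.2, sub_zero]
  | zero =>
    have e : (π.Ω w).map (0 : Der K) = 0 := rfl
    rw [e, map_zero]
    simp
  | add X X' _ _ h1 h2 =>
    convert add_mem h1 h2 using 1
    rw [xsalge_add, map_add, add_mul, mul_add]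
    abel
  | smul c X _ h1 =>
    convert Submodule.smul_mem _ c h1 using 1
    rw [xsalge_smul, map_smul, Matrix.smul_mul, Matrix.mul_smul, smul_sub, smul_sub]

theorem Par.hh_hor {T : Set K} (hT : ∀ X ∈ π.VertC, ∀ f ∈ T, X f ∈ Submodule.span ℂ T)
    {w : Der K} (hw : ∀ f ∈ Kc (π.Hk T), w f = 0) :
    ∀ ξ ∈ π.hh (Kc (π.Hk T)), ξ.map (π.hor w) ∈ π.hh (Kc (π.Hk T)) := by
  have lie : ∀ w w' : Der K, (∀ f ∈ Kc (π.Hk T), w f = 0) → (∀ f ∈ Kc (π.Hk T), w' f = 0) →
      π.Ω ⁅w, w'⁆ ∈ π.hh (Kc (π.Hk T)) := fun w w' h h' =>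
    ⟨_, fun f hf => by rw [Derivation.commutator_apply, h f hf, h' f hf, map_zero, map_zero,
      sub_self], rfl⟩
  have h1 : ∀ v ∈ π.Hk T, ∀ ξ ∈ π.hh (Kc (π.Hk T)), ξ.map v ∈ π.hh (Kc (π.Hk T)) := by
    rintro v hv ξ ⟨w', hw', rfl⟩
    have h := lie v w' (fun f hf => hf v hv) hw'
    rw [π.mc, hv.1, xsalge_zero] at h
    simpa using h
  rintro ξ ⟨w', hw', rfl⟩
  have a1 := stable_of_const_mat _ _ h1 hw _ ⟨w', hw', rfl⟩
  have a2 := stable_of_const_mat _ _ h1 hw' _ ⟨w, hw, rfl⟩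
  have a3 := lie w w' hw hw'
  have a4 := π.hh_vert hT _ (π.sub_hor w) _ ⟨w', hw', rfl⟩
  rw [π.mc] at a3
  rw [map_sub, π.Ω_hor, sub_zero, xsalge_sub] at a4
  convert sub_mem (add_mem a3 a2) a4 using 1
  abel

end Pool.Agent.MP_f58063_ag

end
end

section

open Complex Filter Topology Matrix Function

noncomputable section

namespace Pool.Agent.MP_f58063_ag

variable {K : Type} [Field K] [Algebra ℂ K] {ι l : Type} [Fintype ι] [DecidableEq ι]
  [Fintype l] [DecidableEq l] (π : Par K ι l)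

theorem xsalgf_mem (F k : IntermediateField ℂ K) (hF : F ≤ k) {s : Set K} (hs : ∀ x ∈ s, x ∈ k)
    {w : Der K} (h1 : ∀ f ∈ F, w f ∈ k) (h2 : ∀ x ∈ s, w x ∈ k) {f : K} (hfk : f ∈ k)
    (hf : IsAlgebraic (Algebra.adjoin F s) f) : w f ∈ k := by
  have key : ∀ x ∈ Algebra.adjoin F s, x ∈ k ∧ w x ∈ k := fun x hx => by
    induction hx using Algebra.adjoin_induction with
    | mem x hx => exact ⟨hs x hx, h2 x hx⟩
    | algebraMap r => exact ⟨hF r.2, h1 _ r.2⟩
    | add x y _ _ hx hy => exact ⟨add_mem hx.1 hy.1, map_add w x y ▸ add_mem hx.2 hy.2⟩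
    | mul x y _ _ hx hy =>
      refine ⟨mul_mem hx.1 hy.1, ?_⟩
      rw [w.leibniz]
      exact add_mem (mul_mem hx.1 hy.2) (mul_mem hy.1 hx.2)
  exact der_alg_mem ((Algebra.adjoin F s).restrictScalars ℂ) k (fun x hx => (key x hx).1)
    (fun x hx => (key x hx).2) hfk hf

theorem xsalgf_zero (F : IntermediateField ℂ K) {s : Set K} {w : Der K} (h1 : ∀ f ∈ F, w f = 0)
    (h2 : ∀ x ∈ s, w x = 0) {f : K} (hf : IsAlgebraic (Algebra.adjoin F s) f) : w f = 0 := by
  refine der_alg_zero ((Algebra.adjoin F s).restrictScalars ℂ) (fun x hx => ?_) hf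
  replace hx : x ∈ Algebra.adjoin F s := hx
  induction hx using Algebra.adjoin_induction with
  | mem x hx => exact h2 x hx
  | algebraMap r => exact h1 _ r.2
  | add x y _ _ hx hy => rw [map_add, hx, hy, add_zero]
  | mul x y _ _ hx hy => rw [w.leibniz, hx, hy, smul_zero, smul_zero, add_zero]

theorem xsalgf_bot (w : Der K) : ∀ f ∈ (⊥ : IntermediateField ℂ K), w f = 0 := fun f hf => by
  obtain ⟨c, rfl⟩ := IntermediateField.mem_bot.1 hf
  exact w.map_algebraMap c

theorem Par.lift (C : IntermediateField ℂ K) (hC : ∀ X ∈ π.VertC, ∀ f ∈ C, X f ∈ C) {D : Der K}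
    (hD : ∀ f ∈ C ⊓ Kc π.Vert, D f = 0) :
    ∃ w : Der K, (∀ f ∈ C, w f = 0) ∧ ∀ i, w (π.y i) = D (π.y i) := by
  rw [← π.Kc_vertC] at hD
  obtain ⟨e, he⟩ := (AlgebraicIndependent.matroid (C ⊓ Kc π.VertC : IntermediateField ℂ K)
    K).exists_isBasis (Kc π.VertC) (Set.subset_univ _)
  obtain ⟨h1, h2, h3⟩ := AlgebraicIndependent.matroid_isBasis_iff.1 he
  obtain ⟨w, hw, hwe⟩ := der_of_algInd C (algInd_of_const C π.VertC hC
    (e := fun x : e => x.1) (fun j => h2 j.2) h1) fun j => D j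
  refine ⟨w, hw, fun i => sub_eq_zero.1 ?_⟩
  refine xsalgf_zero (w := w - D) _ (fun f hf => ?_) (fun x hx => ?_)
    (h3 (π.y i) fun X hX => hX.1 i)
  · rw [Derivation.sub_apply, hw f hf.1, hD f hf, sub_zero]
  · rw [Derivation.sub_apply, hwe ⟨x, hx⟩, sub_self]

theorem Par.proj (C₀ : IntermediateField ℂ K) (h0 : C₀ ≤ Kc π.Vert)
    (hcl : ∀ f : K, IsAlgebraic C₀ f → f ∈ C₀) (j : ι) :
    π.D j ∈ Submodule.span K
      {D : Der K | π.Ω D = 0 ∧ (∀ i, D (π.y i) ∈ Kc π.Vert) ∧ ∀ f ∈ C₀, D f ∈ C₀} := by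
  classical
  obtain ⟨F, hF, hF0⟩ : ∃ F : IntermediateField ℂ K, (∀ k, F ≤ k) ∧
    ∀ w : Der K, ∀ f ∈ F, w f = 0 := ⟨⊥, fun _ => bot_le, xsalgf_bot⟩
  let M := AlgebraicIndependent.matroid F K
  obtain ⟨c, hc⟩ := M.exists_isBasis C₀ (Set.subset_univ _)
  obtain ⟨b, hb, hcb⟩ := hc.indep.subset_isBasis_of_subset (X := Kc π.Vert)
    (hc.subset.trans h0) (Set.subset_univ _)
  obtain ⟨-, c2, c3⟩ := AlgebraicIndependent.matroid_isBasis_iff.1 hc
  obtain ⟨b1, b2, b3⟩ := AlgebraicIndependent.matroid_isBasis_iff.1 hb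
  have hy : ∀ i, π.y i ∈ Kc π.Vert := fun i X hX => hX i
  choose w hw0 hw using fun l : K => der_of_algInd F (e := fun x : b => x.1) b1
    fun m => if l = m.1 then 1 else 0
  have hE : ∀ l, ∀ f ∈ Kc π.Vert, π.hor (w l) f = w l f := fun l f hf =>
    (sub_eq_zero.1 (hf _ (π.sub_hor (w l)))).symm
  have hm : ∀ (k : IntermediateField ℂ K) (l : K), ∀ x ∈ b, w l x ∈ k := fun k l x hx => by
    rw [hw l ⟨x, hx⟩]
    split_ifs
    exacts [one_mem k, zero_mem k]
  have hz : ∀ (k : IntermediateField ℂ K) (l : K), ∀ f ∈ F, w l f ∈ k := fun k l f hf => by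
    rw [hw0 l f hf]
    exact zero_mem k
  obtain ⟨s, hsb, hs, -, hys⟩ := M.exists_subset_finite_closure_of_subset_closure
    (Set.finite_range π.y) (Y := b) ((Set.range_subset_iff.2 hy).trans hb.subset_closure)
  replace hys : ∀ i, IsAlgebraic (Algebra.adjoin F s) (π.y i) :=
    fun i => by
      have := hys ⟨i, rfl⟩
      rwa [AlgebraicIndependent.matroid_closure_eq, SetLike.mem_coe,
        Subalgebra.mem_algebraicClosure] at this
  lift s to Finset K using hs
  have key : π.D j - ∑ l ∈ s, π.D j l • π.hor (w l) = 0 := by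
    refine π.inj _ (fun i => xsalgf_zero F (s := s) (hF0 _) (fun x hx => ?_)
      (hys i)) ?_
    · rw [Derivation.sub_apply, sub_eq_zero, ← Derivation.coeFnAddMonoidHom_apply (∑ l ∈ s, _),
        map_sum, Finset.sum_apply, Finset.sum_eq_single_of_mem x hx fun l _ hl => ?_]
      · change _ = π.D j x * π.hor (w x) x
        rw [hE x x (b2 (hsb hx)), hw x ⟨x, hsb hx⟩, if_pos rfl, mul_one]
      · change π.D j l * π.hor (w l) x = 0
        rw [hE l x (b2 (hsb hx)), hw l ⟨x, hsb hx⟩, if_neg hl, mul_zero]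
    · simp only [map_sub, map_sum, map_smul, π.ΩD, π.Ω_hor, smul_zero, Finset.sum_const_zero,
        sub_zero]
  rw [sub_eq_zero.1 key]
  refine Submodule.sum_mem _ fun l _ => Submodule.smul_mem _ _ (Submodule.subset_span
    ⟨π.Ω_hor _, fun i => ?_, fun f hf => ?_⟩)
  · rw [hE l _ (hy i)]
    exact xsalgf_mem F _ (hF _) b2 (hz _ l) (hm _ l) (hy i) (b3 _ (hy i))
  · rw [hE l _ (h0 hf)]
    exact xsalgf_mem F _ (hF _) c2 (hz _ l) (fun x hx => hm _ l x (hcb hx)) hf (c3 _ hf)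

end Pool.Agent.MP_f58063_ag

end
end

section

open Complex Filter Topology Matrix Function

noncomputable section

namespace Pool.Agent.MP_f58063_ag

variable {K : Type} [Field K] [Algebra ℂ K] {ι l : Type} [Fintype ι] [DecidableEq ι]
  [Fintype l] [DecidableEq l] (π : Par K ι l)

lemma xsalgg_lie (a b : Der K) (f : K) : ⁅a, b⁆ f = a (b f) - b (a f) :=
  Derivation.commutator_apply f

omit [Fintype l] [DecidableEq l] in
lemma xsalgg_map0 (w : Der K) : (0 : Matrix l l K).map w = 0 := by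
  ext a b
  simp

omit [Fintype l] [DecidableEq l] in
lemma xsalgg_mapc (w : Der K) {η : Matrix l l K}
    (h : ∀ a b, η a b ∈ Set.range (algebraMap ℂ K)) : η.map w = 0 := by
  ext a b
  obtain ⟨c, hc⟩ := h a b
  rw [Matrix.map_apply, ← hc, w.map_algebraMap]
  rfl

omit [Fintype l] [DecidableEq l] in
lemma xsalgg_span (U : Submodule K (Matrix l l K)) {S : Set (Der K)}
    (hS : ∀ D ∈ S, ∀ u ∈ U, u.map D ∈ U) {D : Der K} (hD : D ∈ Submodule.span K S) :
    ∀ u ∈ U, u.map D ∈ U := by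
  intro u hu
  induction hD using Submodule.span_induction with
  | mem x hx => exact hS x hx u hu
  | zero =>
    have : u.map (0 : Der K) = 0 := by
      ext a b
      simp
    rw [this]
    exact U.zero_mem
  | add x y _ _ hx hy =>
    have : u.map (x + y : Der K) = u.map x + u.map y := by
      ext a b
      simp
    rw [this]
    exact U.add_mem hx hy
  | smul c x _ hx =>
    have : u.map (c • x : Der K) = c • u.map x := by
      ext a b
      simp
    rw [this]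
    exact U.smul_mem c hx

/-- the values of the connection form on vertical derivations that kill `F` -/
def xsalggN (F : IntermediateField ℂ K) : Submodule K (Matrix l l K) where
  carrier := {ξ | ∃ X : Der K, X ∈ π.Vert ∧ (∀ f ∈ F, X f = 0) ∧ π.Ω X = ξ}
  add_mem' := by
    rintro _ _ ⟨w, hv, hw, rfl⟩ ⟨w', hv', hw', rfl⟩
    refine ⟨w + w', fun i => ?_, fun f hf => by simp [hw f hf, hw' f hf], map_add _ _ _⟩
    have h1 : w (π.y i) = 0 := hv i
    have h2 : w' (π.y i) = 0 := hv' i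
    simp [h1, h2]
  zero_mem' := ⟨0, fun _ => rfl, fun _ _ => rfl, map_zero _⟩
  smul_mem' := by
    rintro c _ ⟨w, hv, hw, rfl⟩
    refine ⟨c • w, fun i => ?_, fun f hf => by simp [hw f hf], map_smul _ _ _⟩
    have h1 : w (π.y i) = 0 := hv i
    simp [h1]

lemma xsalgg_le_Kc (T : Set K) : ∀ f ∈ T, f ∈ Kc (π.Hk T) := fun f hf _ hD => hD.2 f hf

/-- every horizontal derivation killing `C ⊓ Kc Vert` is the horizontal part of one killing `C` -/
lemma xsalgg_lift (C : IntermediateField ℂ K) (hC : ∀ X ∈ π.VertC, ∀ f ∈ C, X f ∈ C) {D : Der K}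
    (hD : D ∈ π.Hk ((C ⊓ Kc π.Vert : IntermediateField ℂ K) : Set K)) :
    ∃ w : Der K, (∀ f ∈ C, w f = 0) ∧ π.hor w = D := by
  obtain ⟨w, hw, hy⟩ := π.lift C hC (D := D) fun f hf => hD.2 f hf
  refine ⟨w, hw, ?_⟩
  rw [π.eq_hor hD.1]
  unfold Par.hor
  exact Finset.sum_congr rfl fun i _ => by rw [hy i]

/-- the submodule `xsalggN` is stable under all derivations -/
lemma xsalgg_stable (C₀ : IntermediateField ℂ K) (h0 : C₀ ≤ Kc π.Vert)
    (hcl : ∀ f : K, IsAlgebraic C₀ f → f ∈ C₀) (w : Der K) :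
    ∀ ξ ∈ xsalggN π (Kc (π.Hk (C₀ : Set K))), ξ.map w ∈ xsalggN π (Kc (π.Hk (C₀ : Set K))) := by
  refine stable_of_const_mat _ (Set.range π.D) ?_ ?_
  · rintro _ ⟨j, rfl⟩
    refine xsalgg_span _ ?_ (π.proj C₀ h0 hcl j)
    rintro D ⟨hΩ, hy, hC⟩ _ ⟨X, hX, hXF, rfl⟩
    have hF : ∀ f ∈ Kc (π.Hk (C₀ : Set K)), D f ∈ Kc (π.Hk (C₀ : Set K)) := by
      intro f hf D₂ hD₂
      have h1 : ⁅D₂, D⁆ ∈ π.Hk (C₀ : Set K) := by
        refine ⟨?_, fun g hg => ?_⟩
        · rw [π.mc, hΩ, hD₂.1, xsalgg_map0, xsalgg_map0]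
          simp
        · rw [xsalgg_lie, hD₂.2 _ (hC g hg), hD₂.2 g hg, map_zero, sub_zero]
      have h2 := hf _ h1
      rw [xsalgg_lie, hf D₂ hD₂, map_zero, sub_zero] at h2
      exact h2
    refine ⟨⁅D, X⁆, fun i => ?_, fun f hf => ?_, ?_⟩
    · have h1 : X (π.y i) = 0 := hX i
      rw [xsalgg_lie, h1, hy i X hX, map_zero, sub_zero]
    · rw [xsalgg_lie, hXF f hf, hXF _ (hF f hf), map_zero, sub_zero]
    · rw [π.mc, hΩ, xsalgg_map0]
      simp
  · intro f hf
    obtain ⟨c, rfl⟩ := π.const f fun i => hf _ ⟨i, rfl⟩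
    exact w.map_algebraMap c

/-- the submodule `xsalggN` is an ideal -/
lemma xsalgg_ideal (C₀ : IntermediateField ℂ K) (h0 : C₀ ≤ Kc π.Vert)
    (hcl : ∀ f : K, IsAlgebraic C₀ f → f ∈ C₀) :
    ∀ η ∈ π.s, ∀ ξ ∈ xsalggN π (Kc (π.Hk (C₀ : Set K))),
      η * ξ - ξ * η ∈ xsalggN π (Kc (π.Hk (C₀ : Set K))) := by
  intro η hη ξ hξ
  have hT0 : ∀ X ∈ π.VertC, ∀ f ∈ (C₀ : Set K), X f ∈ Submodule.span ℂ (C₀ : Set K) := by
    intro X hX f hf
    rw [h0 hf X hX.1]
    exact Submodule.zero_mem _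
  have hsp := π.span hη
  clear hη
  induction hsp using Submodule.span_induction with
  | mem η hη =>
    obtain ⟨Y, hY, rfl⟩ := π.surj η hη.1
    have hYC : Y ∈ π.VertC := ⟨hY, hη.2⟩
    have h1 := xsalgg_stable π C₀ h0 hcl Y ξ hξ
    obtain ⟨X, hX, hXF, rfl⟩ := hξ
    have h2 : π.Ω ⁅Y, X⁆ ∈ xsalggN π (Kc (π.Hk (C₀ : Set K))) := by
      refine ⟨⁅Y, X⁆, fun i => ?_, fun f hf => ?_, rfl⟩
      · have h3 : X (π.y i) = 0 := hX i
        rw [xsalgg_lie, h3, hY i, map_zero, map_zero, sub_zero]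
      · rw [xsalgg_lie, hXF f hf, hXF _ (π.Kc_Hk_stable hT0 Y hYC f hf), map_zero, sub_zero]
    have h3 := Submodule.sub_mem _ h1 h2
    rw [π.mc, xsalgg_mapc X hη.2, sub_zero, sub_sub_cancel] at h3
    exact h3
  | zero => simpa using Submodule.zero_mem _
  | add x y _ _ hx hy =>
    have : (x + y) * ξ - ξ * (x + y) = (x * ξ - ξ * x) + (y * ξ - ξ * y) := by
      rw [add_mul, mul_add]
      abel
    rw [this]
    exact Submodule.add_mem _ hx hy
  | smul c x _ hx =>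
    have : (c • x) * ξ - ξ * (c • x) = c • (x * ξ - ξ * x) := by
      rw [Matrix.smul_mul, Matrix.mul_smul, smul_sub]
    rw [this]
    exact Submodule.smul_mem _ c hx

/-- the differential-algebraic form of the Ax-Schanuel argument -/
theorem Par.core (T : Set K) (hT : ∀ X ∈ π.VertC, ∀ f ∈ T, X f ∈ Submodule.span ℂ T)
    {w₀ : Der K} (h₀ : w₀ ∈ π.Vert)
    (hp : ∀ a : ι → K, ¬ ∀ f ∈ T, (w₀ + ∑ i, a i • π.D i) f = 0) :
    ∃ F : IntermediateField ℂ K, (∀ w : Der K, (∀ f ∈ F, w f = 0) → π.Ω w = 0) ∧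
      ∀ v ∈ π.Hk T, ∀ f ∈ F, v f = 0 := by
  have hC := π.Kc_Hk_stable hT
  have hTC := xsalgg_le_Kc π T
  set C := Kc (π.Hk T) with hCdef
  have h0 : (C ⊓ Kc π.Vert : IntermediateField ℂ K) ≤ Kc π.Vert := inf_le_right
  have hcl : ∀ f : K, IsAlgebraic (C ⊓ Kc π.Vert : IntermediateField ℂ K) f →
      f ∈ (C ⊓ Kc π.Vert : IntermediateField ℂ K) := fun f hf =>
    ⟨Kc_closed (π.Hk T) _ inf_le_left hf, Kc_closed π.Vert _ inf_le_right hf⟩
  have hlift := fun D => xsalgg_lift π C hC (D := D)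
  have hleC : (C ⊓ Kc π.Vert : IntermediateField ℂ K) ≤ C := inf_le_left
  set C₀ : IntermediateField ℂ K := C ⊓ Kc π.Vert with hC0def
  have hC0F := xsalgg_le_Kc π (C₀ : Set K)
  have hns : xsalggN π (Kc (π.Hk (C₀ : Set K))) ≤ π.s := by
    rintro _ ⟨X, -, -, rfl⟩
    exact π.mem X
  rcases π.simple _ hns (xsalgg_ideal π C₀ h0 hcl) with hn | hn
  · refine ⟨Kc (π.Hk (C₀ : Set K)), fun w hw => ?_, fun v hv f hf => ?_⟩
    · have h1 : π.hor w ∈ π.Hk (C₀ : Set K) := by
        refine ⟨π.Ω_hor w, fun f hf => ?_⟩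
        have h2 := h0 hf _ (π.sub_hor w)
        rw [Derivation.sub_apply, hw f (hC0F f hf), zero_sub, neg_eq_zero] at h2
        exact h2
      have h2 : π.Ω (w - π.hor w) ∈ xsalggN π (Kc (π.Hk (C₀ : Set K))) :=
        ⟨w - π.hor w, π.sub_hor w, fun f hf => by
          rw [Derivation.sub_apply, hw f hf, hf _ h1, sub_zero], rfl⟩
      rw [hn, Submodule.mem_bot, map_sub, π.Ω_hor, sub_zero] at h2
      exact h2
    · exact hf v ⟨hv.1, fun g hg => hleC hg v hv⟩
  · exfalso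
    have hVF : ∀ X ∈ π.Vert, ∀ f ∈ Kc (π.Hk (C₀ : Set K)), X f = 0 := by
      intro X hX
      have h1 : π.Ω X ∈ xsalggN π (Kc (π.Hk (C₀ : Set K))) := by
        rw [hn]
        exact π.mem X
      obtain ⟨X', hX', hF, hΩ⟩ := h1
      have h2 : X - X' = 0 := by
        refine π.inj _ (fun i => ?_) (by rw [map_sub, hΩ, sub_self])
        have h3 : X (π.y i) = 0 := hX i
        have h4 : X' (π.y i) = 0 := hX' i
        rw [Derivation.sub_apply, h3, h4, sub_zero]
      rw [sub_eq_zero.1 h2]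
      exact hF
    have ha : ∀ D ∈ π.Hk (C₀ : Set K), ∀ ξ ∈ π.hh C, ξ.map D ∈ π.hh C := by
      intro D hD
      obtain ⟨w, hw, rfl⟩ := hlift D hD
      exact π.hh_hor hT hw
    have hhs : π.hh C ≤ π.s := by
      rintro _ ⟨w, -, rfl⟩
      exact π.mem w
    have hid : ∀ η ∈ π.s, ∀ ξ ∈ π.hh C, η * ξ - ξ * η ∈ π.hh C := by
      intro η hη ξ hξ
      obtain ⟨X, hX, rfl⟩ := π.surj η hη
      have h1 := stable_of_const_mat (π.hh C) _ ha (hVF X hX) ξ hξ
      have h2 := Submodule.sub_mem _ h1 (π.hh_vert hT X hX ξ hξ)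
      rwa [sub_sub_cancel] at h2
    rcases π.simple _ hhs hid with hh | hh
    · refine hp 0 fun f hf => ?_
      have h1 : f ∈ Kc (π.Hk (C₀ : Set K)) := by
        intro D hD
        obtain ⟨w, hw, rfl⟩ := hlift D hD
        have h2 : π.Ω w ∈ π.hh C := ⟨w, hw, rfl⟩
        rw [hh, Submodule.mem_bot] at h2
        rw [← π.eq_hor h2]
        exact hw f (hTC f hf)
      simpa using hVF w₀ h₀ f h1
    · have h1 : π.Ω w₀ ∈ π.hh C := by
        rw [hh]
        exact π.mem w₀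
      obtain ⟨w, hw, hΩ⟩ := h1
      have h2 : w - w₀ = π.hor (w - w₀) := π.eq_hor (by rw [map_sub, hΩ, sub_self])
      refine hp (fun i => (w - w₀) (π.y i)) fun f hf => ?_
      have h3 : w₀ + ∑ i, (w - w₀) (π.y i) • π.D i = w := by
        change w₀ + π.hor (w - w₀) = w
        rw [← h2, add_sub_cancel]
      rw [h3]
      exact hw f (hTC f hf)

end Pool.Agent.MP_f58063_ag

end
end

section

open Complex Filter Topology Matrix Function

noncomputable section

namespace Pool.Agent.MP_f58063_ag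

section aux

variable {K : Type} [Field K] [Algebra ℂ K]

lemma xsalgi_mul {l m n : Type} [Fintype m] (w : Der K) (A : Matrix l m K) (B : Matrix m n K) :
    (A * B).map w = A.map w * B + A * B.map w := by
  ext a b
  simp only [map_apply, mul_apply, Matrix.add_apply, map_sum, Derivation.leibniz, smul_eq_mul,
    ← Finset.sum_add_distrib]
  exact Finset.sum_congr rfl fun j _ => by ring

lemma xsalgi_tr {l m : Type} (w : Der K) (A : Matrix l m K) : Aᵀ.map w = (A.map w)ᵀ := rfl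

lemma xsalgi_trace {l : Type} [Fintype l] (w : Der K) (A : Matrix l l K) :
    w (trace A) = trace (A.map w) := by
  simp only [trace, Matrix.diag_apply, map_sum, map_apply]

lemma xsalgi_sum_apply {ι : Type} [Fintype ι] (a : ι → K) (D : ι → Der K) (f : K) :
    (∑ i, a i • D i) f = ∑ i, a i * D i f := by
  classical
  induction (Finset.univ : Finset ι) using Finset.induction_on with
  | empty => simp
  | insert i s hi ih => rw [Finset.sum_insert hi, Finset.sum_insert hi, ← ih]; rfl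

lemma xsalgi_sum_map {ι l m : Type} [Fintype ι] (a : ι → K) (D : ι → Der K) (A : Matrix l m K) :
    A.map ⇑(∑ i, a i • D i : Der K) = ∑ i, a i • A.map (D i) := by
  ext b c
  rw [map_apply, xsalgi_sum_apply, Matrix.sum_apply]
  rfl

lemma xsalgi_add_map {l m : Type} (w w' : Der K) (A : Matrix l m K) :
    A.map ⇑(w + w') = A.map w + A.map w' := by
  ext b c
  simp

lemma xsalgi_blocks {l m n o : Type} (w : Der K) (A : Matrix l n K) (B : Matrix l o K)
    (C : Matrix m n K) (E : Matrix m o K) :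
    (fromBlocks A B C E).map w = fromBlocks (A.map w) (B.map w) (C.map w) (E.map w) :=
  fromBlocks_map A B C E w

lemma xsalgi_zero {l m : Type} (w : Der K) : (0 : Matrix l m K).map w = 0 := by
  ext b c
  simp

omit [Algebra ℂ K] in
lemma xsalgi_Phi {g : ℕ} (τ ψ V W q : Matrix (Fin g) (Fin g) K) (hτ : τᵀ = τ) :
    Pm τ ψ V W * fromBlocks 0 0 0 q * (Pm τ ψ V W)ᵀ =
      fromBlocks (τ * (V * q * Vᵀ) * τ) (τ * (V * q * Vᵀ)) ((V * q * Vᵀ) * τ) (V * q * Vᵀ) := by
  simp only [Pm, fromBlocks_transpose, fromBlocks_multiply, Matrix.mul_zero, Matrix.zero_mul,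
    zero_add, add_zero, transpose_mul, hτ, Matrix.mul_assoc]

lemma xsalgi_span {l : Type} [Fintype l] (Φ Ω : Matrix l l K)
    (hΩ : ∀ a b, Ω a b ∈ Set.range (algebraMap ℂ K)) (a b : l) :
    (Ω * Φ + Φ * Ωᵀ) a b ∈ Submodule.span ℂ (Set.range fun p : l × l => Φ p.1 p.2) := by
  rw [Matrix.add_apply, mul_apply, mul_apply]
  refine add_mem (Submodule.sum_mem _ fun j _ => ?_) (Submodule.sum_mem _ fun j _ => ?_)
  · obtain ⟨c, hc⟩ := hΩ a j
    rw [← hc, ← Algebra.smul_def]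
    exact Submodule.smul_mem _ _ (Submodule.subset_span ⟨(j, b), rfl⟩)
  · obtain ⟨c, hc⟩ := hΩ b j
    rw [transpose_apply, ← hc, mul_comm, ← Algebra.smul_def]
    exact Submodule.smul_mem _ _ (Submodule.subset_span ⟨(a, j), rfl⟩)

omit [Algebra ℂ K] in
lemma xsalgi_upper {g : ℕ} {B : Matrix (Fin g) (Fin g) K} (hB : Bᵀ = B) :
    (fromBlocks 0 B 0 0 : Matrix (LL g) (LL g) K) ∈ spK g K := by
  rw [mem_spK, J]
  simp [fromBlocks_transpose, fromBlocks_multiply, fromBlocks_add, hB]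

omit [Algebra ℂ K] in
lemma xsalgi_B [CharZero K] {g : ℕ} {Q : Matrix (Fin g) (Fin g) K} (hQ : Qᵀ = Q) (h0 : Q ≠ 0) :
    ∃ B : Matrix (Fin g) (Fin g) K, Bᵀ = B ∧ trace (B * Q) ≠ 0 := by
  obtain ⟨a, b, hab⟩ : ∃ a b, Q a b ≠ 0 := by
    by_contra h
    push Not at h
    exact h0 (Matrix.ext h)
  refine ⟨single a b 1 + single b a 1, by simp [transpose_add, transpose_single, add_comm], ?_⟩
  have hs : Q b a = Q a b := congrFun (congrFun hQ a) b
  rw [Matrix.add_mul, trace_add, trace_single_mul, trace_single_mul, hs]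
  simpa [← two_mul] using hab

lemma xsalgi_qf [CharZero K] {g : ℕ} {τ : Matrix (Fin g) (Fin g) K} (hτ : τᵀ = τ) (v : Der K)
    (h : ∀ u : Fin g → ℤ, v (qf τ u) = 0) (b c : Fin g) : v (τ b c) = 0 := by
  have h1 : ∀ b : Fin g, qf τ (Pi.single b 1) = τ b b := fun b => by
    simp [qf, Pi.single_apply]
  have h2 : qf τ (Pi.single b 1 + Pi.single c 1) = τ b b + τ b c + (τ c b + τ c c) := by
    simp [qf, Pi.single_apply, add_mul, mul_add, Finset.sum_add_distrib]
    ring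
  have hs : τ c b = τ b c := congrFun (congrFun hτ b) c
  have e1 := h (Pi.single b 1)
  have e2 := h (Pi.single c 1)
  have e3 := h (Pi.single b 1 + Pi.single c 1)
  rw [h1] at e1 e2
  rw [h2, hs, map_add, map_add, map_add, e1, e2, zero_add, add_zero, ← two_mul] at e3
  simpa using e3

lemma xsalgi_comm {l m : Type} {w w' : Der K} (h : ⁅w, w'⁆ = 0) (A : Matrix l m K) :
    (A.map w').map w = (A.map w).map w' := by
  ext b c
  have := congrArg (fun D : Der K => D (A b c)) h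
  simp only [Derivation.commutator_apply, Derivation.zero_apply, sub_eq_zero] at this
  exact this

lemma xsalgi_ker {g : ℕ} {Q : Matrix (Fin g) (Fin g) K} (hQ : Qᵀ = Q) (w : Der K)
    {t t' : Fin g → K} (ht : Q *ᵥ t = 0) (ht' : Q *ᵥ t' = 0) : t' ⬝ᵥ Q.map w *ᵥ t = 0 := by
  have h1 : Q.map w *ᵥ t + Q *ᵥ (fun i => w (t i)) = 0 := by
    ext a
    have := congrArg w (congrFun ht a)
    simp only [mulVec, dotProduct, map_sum, Derivation.leibniz, smul_eq_mul, Pi.zero_apply,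
      map_zero] at this
    simp only [Pi.add_apply, mulVec, dotProduct, map_apply, Pi.zero_apply,
      ← Finset.sum_add_distrib]
    rw [← this]
    exact Finset.sum_congr rfl fun j _ => by ring
  have h2 : t' ⬝ᵥ Q *ᵥ (fun i => w (t i)) = 0 := by
    rw [dotProduct_mulVec, ← mulVec_transpose, hQ, ht', zero_dotProduct]
  have h3 := congrArg (fun x => t' ⬝ᵥ x) h1
  simp only [dotProduct_add, h2, add_zero, dotProduct_zero] at h3
  exact h3

end aux

theorem algK {K : Type} [Field K] [Algebra ℂ K] {ι : Type} [Fintype ι] [DecidableEq ι]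
    {g k s : ℕ} (y : ι → K) (D : ι → Der K) (τ ψ V W q : Matrix (Fin g) (Fin g) K)
    (hτ : τᵀ = τ) (hψ : ψᵀ = ψ) (hq : qᵀ = q) (hV : V * W = 1)
    (hDy : ∀ i j, D i (y j) = if i = j then 1 else 0) (hDD : ∀ i j, ⁅D i, D j⁆ = 0)
    (hconst : ∀ f, (∀ i, D i f = 0) → f ∈ Set.range (algebraMap ℂ K))
    (hgen : ∀ w : Der K, (∀ i, w (y i) = 0) → (Pm τ ψ V W).map w = 0 → w = 0)
    (hA : ∀ i, ∃ A : Matrix (LL g) (LL g) K, (Pm τ ψ V W).map (D i) = Pm τ ψ V W * A ∧
      ∀ w : Der K, (∀ j, w (y j) = 0) → A.map w = 0)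
    (hX : ∀ v : LL g → ℂ, ∃ w : Der K, (∀ j, w (y j) = 0) ∧
      (Pm τ ψ V W).map w = (sv v).map (algebraMap ℂ K) * Pm τ ψ V W)
    (hqk : ∀ w : Der K, (∀ j, w (y j) = 0) → q.map w = 0) (hq0 : q ≠ 0)
    (hiso : ∀ i, trace (V * q * Vᵀ * τ.map (D i)) = 0)
    (hnd : ∀ a : ι → K, (∀ b c, ∑ i, a i * D i (τ b c) = 0) →
      (∀ b c, ∑ i, a i * D i ((V * q * Vᵀ) b c) = 0) → a = 0)
    (hs : s + k ≤ g) (hmin : ∀ r c : Fin (s + 1) → Fin g, (q.submatrix r c).det = 0)
    (hc : g * (g + 1) / 2 < Fintype.card ι + k * (k + 1) / 2) :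
    ∃ (F : IntermediateField ℂ K) (u : Fin g → ℤ) (a : ι → K), ∑ i, a i * D i (qf τ u) = 1 ∧
      (∀ φ ∈ F, ∑ i, a i * D i φ = 0) ∧
      (∀ a' : ι → K, (∀ φ ∈ F, ∑ i, a' i * D i φ = 0) → ∃ c : K, a' = c • a) ∧
      ∀ f : K, IsAlgebraic (Algebra.adjoin F {qf τ u}) f := by
  have : CharZero K := charZero_of_injective_algebraMap (algebraMap ℂ K).injective
  obtain ⟨π, hy, hD, hsp, hΩ⟩ :=
    exists_Par y D (Pm τ ψ V W) (Pm_mem hτ hψ hV) hDy hDD hconst hgen hA hX
  have hWV : W * V = 1 := mul_eq_one_comm.1 hV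
  have hPhi := xsalgi_Phi τ ψ V W q hτ
  obtain ⟨Q, hQd⟩ : ∃ Q, Q = V * q * Vᵀ := ⟨_, rfl⟩
  have hQ : Qᵀ = Q := by
    rw [hQd, transpose_mul, transpose_mul, transpose_transpose, hq, Matrix.mul_assoc]
  have hQ0 : Q ≠ 0 := by
    intro h
    apply hq0
    have h1 : W * (V * q * Vᵀ) * Wᵀ = q := by
      calc W * (V * q * Vᵀ) * Wᵀ = (W * V) * q * (W * V)ᵀ := by
            simp only [transpose_mul, Matrix.mul_assoc]
        _ = q := by rw [hWV]; simp
    rw [← h1, ← hQd, h]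
    simp
  have hrk : Q.rank + k ≤ g := by
    have h1 : Q.rank ≤ q.rank := by
      rw [hQd]
      exact (rank_mul_le_left _ _).trans (rank_mul_le_right _ _)
    have h2 := (rank_le_iff_minors q s).2 hmin
    omega
  rw [← hQd] at hPhi hiso hnd
  obtain ⟨Φ, hΦ⟩ : ∃ Φ : Matrix (LL g) (LL g) K,
      Φ = fromBlocks (τ * Q * τ) (τ * Q) (Q * τ) Q := ⟨_, rfl⟩
  rw [← hΦ] at hPhi
  have hΦv : ∀ X : Der K, (∀ j, X (y j) = 0) → Φ.map X = π.Ω X * Φ + Φ * (π.Ω X)ᵀ := by
    intro X hXv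
    have hq' : (fromBlocks 0 0 0 q : Matrix (LL g) (LL g) K).map X = 0 := by
      rw [xsalgi_blocks, hqk X hXv, xsalgi_zero, fromBlocks_zero]
    rw [← hPhi, xsalgi_mul, xsalgi_mul, xsalgi_tr, hΩ X hXv, hq', transpose_mul]
    simp only [Matrix.mul_zero, add_zero, Matrix.mul_assoc]
  have hT : ∀ X ∈ π.VertC, ∀ f ∈ Set.range (fun p : LL g × LL g => Φ p.1 p.2),
      X f ∈ Submodule.span ℂ (Set.range fun p : LL g × LL g => Φ p.1 p.2) := by
    rintro X ⟨hX1, hX2⟩ _ ⟨p, rfl⟩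
    rw [hy] at hX1
    have := xsalgi_span Φ (π.Ω X) hX2 p.1 p.2
    rw [← hΦv X hX1] at this
    exact this
  have hkill : ∀ w : Der K, (∀ f ∈ Set.range (fun p : LL g × LL g => Φ p.1 p.2), w f = 0) ↔
      Φ.map w = 0 := fun w =>
    ⟨fun h => Matrix.ext fun a b => h _ ⟨(a, b), rfl⟩, by
      rintro h _ ⟨p, rfl⟩
      exact congrFun (congrFun h p.1) p.2⟩
  obtain ⟨B, hB, hBQ⟩ := xsalgi_B hQ hQ0
  obtain ⟨w₀, hw₀, hΩ₀⟩ := π.surj _ (hsp ▸ xsalgi_upper hB)
  have hw₀' : ∀ j, w₀ (y j) = 0 := hy ▸ hw₀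
  have hτ₀ : τ.map w₀ = B := by
    have h1 := hΩ w₀ hw₀'
    rw [hΩ₀, Pm, xsalgi_blocks, fromBlocks_multiply] at h1
    obtain ⟨-, h2, -, h3⟩ := fromBlocks_inj.1 h1
    simp only [Matrix.zero_mul, zero_add, add_zero] at h2 h3
    rw [xsalgi_mul, h3, Matrix.mul_zero, add_zero] at h2
    have h4 := congrArg (· * W) h2
    simpa only [Matrix.mul_assoc, hV, Matrix.mul_one] using h4
  have hp : ∀ a : ι → K, ¬ ∀ f ∈ Set.range (fun p : LL g × LL g => Φ p.1 p.2),
      (w₀ + ∑ i, a i • π.D i) f = 0 := by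
    intro a h
    rw [hkill, hΦ, xsalgi_blocks, ← fromBlocks_zero] at h
    obtain ⟨-, h2, -, h3⟩ := fromBlocks_inj.1 h
    rw [xsalgi_mul, h3, Matrix.mul_zero, add_zero, xsalgi_add_map, xsalgi_sum_map, hτ₀, hD,
      Matrix.add_mul, Matrix.sum_mul] at h2
    have h4 := congrArg trace h2
    rw [trace_add, trace_sum, trace_zero, Finset.sum_eq_zero, add_zero] at h4
    · exact hBQ h4
    · intro i _
      rw [Matrix.smul_mul, trace_smul, trace_mul_comm, hiso i, smul_zero]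
  obtain ⟨F, hF1, hF2⟩ := π.core _ hT (w₀ := w₀) hw₀ hp
  obtain ⟨a, ha0, ha1, ha2⟩ := iso_kernel (k := k) Q (fun i => Q.map (D i))
    (fun i => τ.map (D i)) hQ (fun i => by rw [← xsalgi_tr, hQ]) (fun i => by rw [← xsalgi_tr, hτ])
    (fun i j => by
      have e1 := congrArg (D i) (hiso j)
      have e2 := congrArg (D j) (hiso i)
      rw [xsalgi_trace, xsalgi_mul, trace_add, map_zero] at e1 e2
      rw [xsalgi_comm (hDD i j)] at e1
      exact add_right_cancel (e1.trans e2.symm))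
    (fun i t t' ht ht' => xsalgi_ker hQ (D i) ht ht') hrk hc
  rw [← xsalgi_sum_map] at ha1 ha2
  obtain ⟨v, hv⟩ : ∃ v : Der K, v = ∑ i, a i • D i := ⟨_, rfl⟩
  rw [← hv] at ha1 ha2
  have ha3 : τ.map v * Q = 0 := by
    have := congrArg transpose ha2
    rwa [transpose_mul, ← xsalgi_tr, hτ, hQ, transpose_zero] at this
  have hvH : v ∈ π.Hk (Set.range fun p : LL g × LL g => Φ p.1 p.2) := by
    refine ⟨?_, (hkill v).2 ?_⟩
    · rw [hv, map_sum]
      refine Finset.sum_eq_zero fun i _ => ?_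
      rw [map_smul, ← hD, π.ΩD, smul_zero]
    · rw [hΦ, xsalgi_blocks, ← fromBlocks_zero]
      have e1 : (τ * Q).map v = 0 := by rw [xsalgi_mul, ha1, ha3, Matrix.mul_zero, add_zero]
      have e2 : (Q * τ).map v = 0 := by rw [xsalgi_mul, ha1, ha2, Matrix.zero_mul, add_zero]
      rw [xsalgi_mul v (τ * Q), e1, e2, ha1, Matrix.mul_assoc, ha2, Matrix.zero_mul,
        Matrix.mul_zero, add_zero]
  obtain ⟨u, hu⟩ : ∃ u : Fin g → ℤ, v (qf τ u) ≠ 0 := by
    by_contra h
    push Not at h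
    refine ha0 (hnd a (fun b c => ?_) fun b c => ?_)
    · rw [← xsalgi_sum_apply, ← hv]
      exact xsalgi_qf hτ v h b c
    · rw [← xsalgi_sum_apply, ← hv]
      exact congrFun (congrFun ha1 b) c
  obtain ⟨F', w, hFF, hw1, hw2, hw3, hw4⟩ := cut_field F (hF2 v hvH) hu
  have hwh : ∀ f, ∑ i, w (y i) * D i f = w f := fun f => by
    have h1 := π.eq_hor (hF1 w fun f hf => hw1 f (hFF hf))
    rw [Par.hor, hy, hD] at h1
    rw [← xsalgi_sum_apply, ← h1]
  refine ⟨F', u, fun i => w (y i), by rw [hwh, hw2], fun φ hφ => by rw [hwh, hw1 φ hφ],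
    fun a' ha' => ?_, hw4⟩
  have h1 := hw3 (∑ i, a' i • D i) fun f hf => by rw [xsalgi_sum_apply, ha' f hf]
  refine ⟨(∑ i, a' i • D i) (qf τ u), funext fun j => ?_⟩
  have h2 := congrArg (fun E : Der K => E (y j)) h1
  simp only [Derivation.smul_apply] at h2
  rw [xsalgi_sum_apply a' D (y j)] at h2
  simpa [hDy] using h2

end Pool.Agent.MP_f58063_ag

end
end

section

open Complex Filter Topology Matrix Function

noncomputable section

namespace Pool.Agent.MP_f58063_ag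

theorem xsalgj_K {M : Type} [Field M] [Algebra ℂ M] (L : Subalgebra ℂ M) :
    ∃ K : IntermediateField ℂ M, ∀ x, x ∈ K ↔ IsAlgebraic L x :=
  ⟨{ carrier := {x | IsAlgebraic L x}
     mul_mem' := fun ha hb => IsAlgebraic.mul ha hb
     add_mem' := fun ha hb => IsAlgebraic.add ha hb
     algebraMap_mem' := fun c => isAlgebraic_algebraMap (algebraMap ℂ L c)
     inv_mem' := fun _ hx => IsAlgebraic.inv hx }, fun _ => Iff.rfl⟩

theorem xsalgj_res {M : Type} [Field M] [Algebra ℂ M] (K : IntermediateField ℂ M) (w : Der M)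
    (hw : ∀ x ∈ K, w x ∈ K) : ∃ w' : Der K, ∀ x : K, K.val (w' x) = w (K.val x) := by
  refine ⟨Derivation.mk'
    { toFun := fun x => ⟨w x, hw x x.2⟩
      map_add' := fun a b => Subtype.ext (map_add w (a : M) (b : M))
      map_smul' := fun c a => Subtype.ext (w.map_smul c (a : M)) } ?_, fun _ => rfl⟩
  intro a b
  exact Subtype.ext (w.leibniz (a : M) (b : M))

theorem xsalgj_down {K M : Type} [Field K] [Algebra ℂ K] [Field M] [Algebra ℂ M]
    (φ : K →ₐ[ℂ] M) {κ : Type} (e : κ → K) {x : K}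
    (h : IsAlgebraic (Algebra.adjoin ℂ (Set.range fun j => φ (e j))) (φ x)) :
    IsAlgebraic (Algebra.adjoin ℂ (Set.range e)) x := by
  have h1 : Algebra.adjoin ℂ (Set.range fun j => φ (e j)) =
      (Algebra.adjoin ℂ (Set.range e)).map φ := by
    rw [AlgHom.map_adjoin, ← Set.range_comp]
    rfl
  rw [h1] at h
  refine IsAlgebraic.of_ringHom_of_comp_eq
    (φ.subalgebraMap (Algebra.adjoin ℂ (Set.range e))).toRingHom φ.toRingHom h
    (φ.subalgebraMap_surjective _) φ.toRingHom.injective ?_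
  ext a
  rfl

theorem xsalgj_up {K M : Type} [Field K] [Algebra ℂ K] [Field M] [Algebra ℂ M]
    (φ : K →ₐ[ℂ] M) (F : IntermediateField ℂ K) (t : K) {x : K}
    (h : IsAlgebraic (Algebra.adjoin F {t}) x) :
    IsAlgebraic (Algebra.adjoin (F.map φ) {φ t}) (φ x) := by
  have h1 : ∀ z ∈ Algebra.adjoin F {t}, φ z ∈ Algebra.adjoin (F.map φ) {φ t} := by
    intro z hz
    induction hz using Algebra.adjoin_induction with
    | mem z hz =>
      rw [Set.mem_singleton_iff.1 hz]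
      exact Algebra.subset_adjoin rfl
    | algebraMap r =>
      exact Subalgebra.algebraMap_mem (Algebra.adjoin (F.map φ) {φ t})
        (⟨φ r, r, r.2, rfl⟩ : F.map φ)
    | add a b _ _ ha hb => rw [map_add]; exact add_mem ha hb
    | mul a b _ _ ha hb => rw [map_mul]; exact mul_mem ha hb
  let f : Algebra.adjoin F {t} →+* Algebra.adjoin (F.map φ) {φ t} :=
    (φ.toRingHom.comp (Algebra.adjoin F {t}).val.toRingHom).codRestrict _ fun z => h1 z z.2
  refine IsAlgebraic.ringHom_of_comp_eq f φ.toRingHom h ?_ ?_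
  · intro a b hab
    exact Subtype.ext (φ.toRingHom.injective (congrArg Subtype.val hab))
  · ext a
    rfl

theorem xsalgj_uniq {K M ι : Type} [Field K] [Field M] [Fintype ι] (φ : K →+* M)
    (S : Set (ι → K)) (a : ι → K) (ha : a ≠ 0)
    (h : ∀ b : ι → K, (∀ v ∈ S, ∑ i, b i * v i = 0) → ∃ c : K, b = c • a) (b : ι → M)
    (hb : ∀ v ∈ S, ∑ i, b i * φ (v i) = 0) : ∃ c : M, b = c • fun i => φ (a i) := by
  let := φ.toAlgebra
  have hl : ∀ (lam : Module.Dual K M) (m : M) (c : K), lam (m * φ c) = lam m * c := by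
    intro lam m c
    have : m * φ c = c • m := by rw [Algebra.smul_def, mul_comm]; rfl
    rw [this, map_smul, smul_eq_mul, mul_comm]
  obtain ⟨j, hj⟩ := Function.ne_iff.1 ha
  have hj' : φ (a j) ≠ 0 := (map_ne_zero φ).2 hj
  refine ⟨b j / φ (a j), funext fun i => ?_⟩
  have h2 : b i * φ (a j) - b j * φ (a i) = 0 := by
    refine (Module.forall_dual_apply_eq_zero_iff K _).1 fun lam => ?_
    obtain ⟨c, hc⟩ := h (fun i => lam (b i)) fun v hv => by
      have h3 := congrArg lam (hb v hv)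
      rw [map_sum, map_zero] at h3
      simpa only [hl] using h3
    have h4 : ∀ i, lam (b i) = c * a i := fun i => congrFun hc i
    rw [map_sub, hl, hl, h4, h4]
    ring
  change b i = b j / φ (a j) * φ (a i)
  field_simp
  linear_combination h2

theorem xsalgj_Pm {R S : Type} [CommRing R] [CommRing S] (φ : R →+* S) {g : ℕ}
    (τ ψ V W : Matrix (Fin g) (Fin g) R) :
    (Pm τ ψ V W).map φ = Pm (τ.map φ) (ψ.map φ) (V.map φ) (W.map φ) := by
  have h1 : ((1 - τ * ψ) * Wᵀ).map φ = (1 - τ.map φ * ψ.map φ) * (W.map φ)ᵀ := by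
    rw [Matrix.map_mul, Matrix.map_sub _ (map_sub φ), Matrix.map_mul,
      Matrix.map_one _ (map_zero φ) (map_one φ), transpose_map]
  have h2 : (-(ψ * Wᵀ)).map φ = -(ψ.map φ * (W.map φ)ᵀ) := by
    rw [Matrix.map_neg _ (map_neg φ), Matrix.map_mul, transpose_map]
  rw [Pm, Pm, fromBlocks_map, h1, h2, Matrix.map_mul]

theorem xsalgj_qf {R S : Type} [CommRing R] [CommRing S] (φ : R →+* S) {g : ℕ}
    (τ : Matrix (Fin g) (Fin g) R) (u : Fin g → ℤ) : φ (qf τ u) = qf (τ.map φ) u := by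
  simp [qf]

theorem xsalgj_lift {K M m n : Type} (φ : K → M) (A : Matrix m n M)
    (h : ∀ a b, ∃ x, φ x = A a b) : ∃ A' : Matrix m n K, A'.map φ = A := by
  choose A' hA' using h
  exact ⟨Matrix.of A', Matrix.ext hA'⟩

theorem xsalgj_main {K M : Type} [Field K] [Algebra ℂ K] [Field M] [Algebra ℂ M]
    (φ : K →ₐ[ℂ] M) {ι : Type} [Fintype ι] [DecidableEq ι]
    {g k s : ℕ} (y : ι → K) (D : ι → Der M) (D' : ι → Der K)
    (hD : ∀ i x, φ (D' i x) = D i (φ x)) (τ ψ V W q : Matrix (Fin g) (Fin g) K)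
    (P : Matrix (LL g) (LL g) M) (hP : (Pm τ ψ V W).map φ = P)
    (hK : ∀ x, IsAlgebraic (Algebra.adjoin ℂ
      (Set.range (Sum.elim (fun i => φ (y i)) fun a : LL g × LL g => P a.1 a.2))) (φ x))
    (hK' : ∀ x, IsAlgebraic (Algebra.adjoin ℂ (Set.range fun i => φ (y i))) x → ∃ x', φ x' = x)
    (hτ : (τ.map φ)ᵀ = τ.map φ) (hψ : (ψ.map φ)ᵀ = ψ.map φ) (hq : (q.map φ)ᵀ = q.map φ)
    (hV : V * W = 1)
    (hDy : ∀ i j, D i (φ (y j)) = if i = j then 1 else 0) (hDD : ∀ i j, ⁅D i, D j⁆ = 0)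
    (hconst : ∀ f, (∀ i, D i f = 0) → f ∈ Set.range (algebraMap ℂ M))
    (hA : ∀ i, ∃ A : Matrix (LL g) (LL g) M, P.map (D i) = P * A ∧
      ∀ b c, IsAlgebraic (Algebra.adjoin ℂ (Set.range fun i => φ (y i))) (A b c))
    (hX : ∀ (v : LL g → ℂ) (R : MvPolynomial (ι ⊕ LL g × LL g) ℂ),
      MvPolynomial.aeval (Sum.elim (fun i => φ (y i)) fun a => P a.1 a.2) R = 0 →
      ∑ a : LL g × LL g, MvPolynomial.aeval (Sum.elim (fun i => φ (y i)) fun a => P a.1 a.2)
        (MvPolynomial.pderiv (.inr a) R) *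
          ((sv v).map (algebraMap ℂ M) * P) a.1 a.2 = 0)
    (hqa : ∀ b c, IsAlgebraic (Algebra.adjoin ℂ (Set.range fun i => φ (y i))) (q.map φ b c))
    (hq0 : q.map φ ≠ 0)
    (hiso : ∀ i, trace (V.map φ * q.map φ * (V.map φ)ᵀ * (τ.map φ).map (D i)) = 0)
    (hnd : ∀ a : ι → M, (∀ b c, ∑ i, a i * D i (τ.map φ b c) = 0) →
      (∀ b c, ∑ i, a i * D i ((V.map φ * q.map φ * (V.map φ)ᵀ) b c) = 0) → a = 0)
    (hs : s + k ≤ g) (hmin : ∀ r c : Fin (s + 1) → Fin g, ((q.map φ).submatrix r c).det = 0)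
    (hc : g * (g + 1) / 2 < Fintype.card ι + k * (k + 1) / 2) :
    ∃ (F : IntermediateField ℂ M) (u : Fin g → ℤ) (a : ι → M),
      ∑ i, a i * D i (qf (τ.map φ) u) = 1 ∧
      (∀ f ∈ F, ∑ i, a i * D i f = 0) ∧
      (∀ a' : ι → M, (∀ f ∈ F, ∑ i, a' i * D i f = 0) → ∃ c : M, a' = c • a) ∧
      ∀ f : K, IsAlgebraic (Algebra.adjoin F {qf (τ.map φ) u}) (φ f) := by
  have hinj : Injective φ := φ.toRingHom.injective
  have hm : ∀ {m n : Type} {A B : Matrix m n K}, A.map φ = B.map φ → A = B :=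
    fun h => Matrix.map_injective hinj h
  have hmul : ∀ {m n p : Type} [Fintype n] (A : Matrix m n K) (B : Matrix n p K),
      (A * B).map φ = A.map φ * B.map φ := fun A B => Matrix.map_mul (f := φ.toRingHom)
  have hmD : ∀ {m n : Type} (i : ι) (A : Matrix m n K),
      (A.map (D' i)).map φ = (A.map φ).map (D i) := fun i A => Matrix.ext fun a b => hD i _
  have hz : ∀ (w : Der K), (∀ j, w (y j) = 0) → ∀ x,
      IsAlgebraic (Algebra.adjoin ℂ (Set.range fun i => φ (y i))) (φ x) → w x = 0 := by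
    intro w hw x hx
    refine der_alg_zero _ (der_adjoin_zero ?_) (xsalgj_down φ y hx)
    rintro _ ⟨j, rfl⟩
    exact hw j
  set e : ι ⊕ LL g × LL g → K := Sum.elim y fun a => Pm τ ψ V W a.1 a.2 with he
  have he' : (Sum.elim (fun i => φ (y i)) fun a : LL g × LL g => P a.1 a.2) =
      fun j => φ (e j) := by
    funext j
    rcases j with j | j
    · rfl
    · rw [← hP]; rfl
  rw [he'] at hK hX
  have hsum : ∀ (a : ι → K) (x : K), φ (∑ i, a i * D' i x) = ∑ i, φ (a i) * D i (φ x) := by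
    intro a x
    simp only [map_sum, map_mul, hD]
  have hQ : (V * q * Vᵀ).map φ = V.map φ * q.map φ * (V.map φ)ᵀ := by
    rw [hmul, hmul, transpose_map]
  obtain ⟨F, u, a, h1, h2, h3, h4⟩ := algK (k := k) (s := s) y D' τ ψ V W q
    (hm (by rw [transpose_map, hτ])) (hm (by rw [transpose_map, hψ]))
    (hm (by rw [transpose_map, hq])) hV
    (fun i j => hinj (by rw [hD, hDy]; split_ifs <;> simp))
    (fun i j => by
      ext x
      apply hinj
      have h := DFunLike.congr_fun (hDD i j) (φ x)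
      rw [Derivation.commutator_apply] at h ⊢
      rw [map_sub, hD, hD, hD, hD, h]
      simp)
    (fun f hf => by
      obtain ⟨c, hc⟩ := hconst (φ f) fun i => by rw [← hD, hf, map_zero]
      exact ⟨c, hinj (by rw [φ.commutes, hc])⟩)
    (fun w hw hw' => by
      ext x
      refine der_alg_zero _ (der_adjoin_zero ?_) (xsalgj_down φ e (hK x))
      rintro _ ⟨j | j, rfl⟩
      · exact hw j
      · exact congrFun (congrFun hw' j.1) j.2)
    (fun i => by
      obtain ⟨A, hA1, hA2⟩ := hA i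
      obtain ⟨A', rfl⟩ := xsalgj_lift φ A fun b c => hK' _ (hA2 b c)
      refine ⟨A', hm (by rw [hmD, hmul, hP, hA1]), fun w hw => ?_⟩
      exact Matrix.ext fun b c => hz w hw _ (hA2 b c))
    (fun v => by
      obtain ⟨w, hw⟩ := der_of_rel e (Sum.elim 0 fun a : LL g × LL g =>
        ((sv v).map (algebraMap ℂ K) * Pm τ ψ V W) a.1 a.2) fun R hR => by
          have h5 : ∀ R : MvPolynomial (ι ⊕ LL g × LL g) ℂ,
              MvPolynomial.aeval (fun j => φ (e j)) R = φ (MvPolynomial.aeval e R) :=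
            fun R => (MvPolynomial.comp_aeval_apply e φ R).symm
          have h6 := hX v R (by rw [h5, hR, map_zero])
          have h7 : ((sv v).map (algebraMap ℂ K) * Pm τ ψ V W).map φ =
              (sv v).map (algebraMap ℂ M) * P := by
            rw [hmul, hP]
            congr 1
            exact Matrix.ext fun a b => φ.commutes _
          rw [← h7] at h6
          apply hinj
          rw [Fintype.sum_sum_type]
          simp only [Sum.elim_inl, Sum.elim_inr, Pi.zero_apply, mul_zero, Finset.sum_const_zero,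
            zero_add, map_zero, map_sum, map_mul]
          simpa only [h5, Matrix.map_apply] using h6
      exact ⟨w, fun j => hw (.inl j), Matrix.ext fun a b => hw (.inr (a, b))⟩)
    (fun w hw => Matrix.ext fun b c => hz w hw _ (hqa b c))
    (fun h => hq0 (by rw [h]; exact Matrix.map_zero _ (map_zero φ)))
    (fun i => hinj (by
      have h := hiso i
      rw [← hQ, ← hmD, ← hmul] at h
      rw [map_zero, ← h]
      exact map_sum φ _ _))
    (fun a ha hb => by
      have h := hnd (fun i => φ (a i))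
        (fun b c => by rw [Matrix.map_apply, ← hsum, ha, map_zero])
        (fun b c => by rw [← hQ, Matrix.map_apply, ← hsum, hb, map_zero])
      exact funext fun i => hinj ((congrFun h i).trans (map_zero φ).symm))
    hs
    (fun r c => hinj (by
      rw [map_zero, ← hmin r c]
      exact RingHom.map_det φ.toRingHom _))
    hc
  have hqf : qf (τ.map φ) u = φ (qf τ u) := (xsalgj_qf φ.toRingHom τ u).symm
  refine ⟨F.map φ, u, fun i => φ (a i), ?_, ?_, ?_, ?_⟩
  · rw [hqf, ← hsum, h1, map_one]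
  · rintro _ ⟨f, hf, rfl⟩
    exact (hsum a f).symm.trans (by rw [h2 f hf, map_zero])
  · intro a' ha'
    refine xsalgj_uniq φ.toRingHom {v | ∃ f ∈ F, v = fun i => D' i f} a ?_ ?_ a' ?_
    · rintro rfl
      simp at h1
    · intro b hb
      exact h3 b fun f hf => hb _ ⟨f, hf, rfl⟩
    · rintro _ ⟨f, hf, rfl⟩
      have h := ha' (φ f) ⟨f, hf, rfl⟩
      simp only [← hD] at h
      exact h
  · intro f
    rw [hqf]
    exact xsalgj_up φ F _ (h4 f)

theorem algM {M : Type} [Field M] [Algebra ℂ M] {ι : Type} [Fintype ι] [DecidableEq ι]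
    {g k s : ℕ} (y : ι → M) (D : ι → Der M) (τ ψ V W q : Matrix (Fin g) (Fin g) M)
    (hτ : τᵀ = τ) (hψ : ψᵀ = ψ) (hq : qᵀ = q) (hV : V * W = 1)
    (hDy : ∀ i j, D i (y j) = if i = j then 1 else 0) (hDD : ∀ i j, ⁅D i, D j⁆ = 0)
    (hconst : ∀ f, (∀ i, D i f = 0) → f ∈ Set.range (algebraMap ℂ M))
    (hA : ∀ i, ∃ A : Matrix (LL g) (LL g) M, (Pm τ ψ V W).map (D i) = Pm τ ψ V W * A ∧
      ∀ b c, IsAlgebraic (Algebra.adjoin ℂ (Set.range y)) (A b c))
    (hX : ∀ (v : LL g → ℂ) (R : MvPolynomial (ι ⊕ LL g × LL g) ℂ),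
      MvPolynomial.aeval (Sum.elim y fun a => Pm τ ψ V W a.1 a.2) R = 0 →
      ∑ a : LL g × LL g, MvPolynomial.aeval (Sum.elim y fun a => Pm τ ψ V W a.1 a.2)
        (MvPolynomial.pderiv (.inr a) R) *
          ((sv v).map (algebraMap ℂ M) * Pm τ ψ V W) a.1 a.2 = 0)
    (hqa : ∀ b c, IsAlgebraic (Algebra.adjoin ℂ (Set.range y)) (q b c)) (hq0 : q ≠ 0)
    (hiso : ∀ i, trace (V * q * Vᵀ * τ.map (D i)) = 0)
    (hnd : ∀ a : ι → M, (∀ b c, ∑ i, a i * D i (τ b c) = 0) →
      (∀ b c, ∑ i, a i * D i ((V * q * Vᵀ) b c) = 0) → a = 0)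
    (hs : s + k ≤ g) (hmin : ∀ r c : Fin (s + 1) → Fin g, (q.submatrix r c).det = 0)
    (hc : g * (g + 1) / 2 < Fintype.card ι + k * (k + 1) / 2) :
    ∃ (F : IntermediateField ℂ M) (u : Fin g → ℤ) (a : ι → M), ∑ i, a i * D i (qf τ u) = 1 ∧
      (∀ φ ∈ F, ∑ i, a i * D i φ = 0) ∧
      (∀ a' : ι → M, (∀ φ ∈ F, ∑ i, a' i * D i φ = 0) → ∃ c : M, a' = c • a) ∧
      (∀ b c, IsAlgebraic (Algebra.adjoin F {qf τ u}) (τ b c) ∧
        IsAlgebraic (Algebra.adjoin F {qf τ u}) (ψ b c)) ∧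
      ∀ f : M, IsAlgebraic (Algebra.adjoin ℂ (Set.range y)) f →
        IsAlgebraic (Algebra.adjoin F {qf τ u}) f := by
  obtain ⟨P, hP⟩ : ∃ P, Pm τ ψ V W = P := ⟨_, rfl⟩
  rw [hP] at hA hX
  set L := Algebra.adjoin ℂ (Set.range (Sum.elim y fun a : LL g × LL g => P a.1 a.2)) with hL
  obtain ⟨K, hK⟩ := xsalgj_K L
  have hLK : ∀ x ∈ L, x ∈ K := fun x hx =>
    (hK x).2 (isAlgebraic_algebraMap (⟨x, hx⟩ : L))
  have hy : ∀ j, y j ∈ K := fun j => hLK _ (Algebra.subset_adjoin ⟨.inl j, rfl⟩)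
  have hPK : ∀ a b, P a b ∈ K := fun a b => hLK _ (Algebra.subset_adjoin ⟨.inr (a, b), rfl⟩)
  have hle : Algebra.adjoin ℂ (Set.range y) ≤ L := by
    refine Algebra.adjoin_mono ?_
    rintro _ ⟨j, rfl⟩
    exact ⟨.inl j, rfl⟩
  have hK0 : ∀ x, IsAlgebraic (Algebra.adjoin ℂ (Set.range y)) x → x ∈ K := fun x hx =>
    (hK x).2 (hx.tower_top_of_subalgebra_le hle)
  have hDK : ∀ i, ∀ x ∈ K, D i x ∈ K := by
    intro i x hx
    refine der_alg_mem L K hLK (der_adjoin_mem K.toSubalgebra ?_ ?_) hx ((hK x).1 hx)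
    · rintro _ ⟨j | j, rfl⟩
      · exact hy j
      · exact hPK _ _
    · obtain ⟨A, hA1, hA2⟩ := hA i
      rintro _ ⟨j | j, rfl⟩
      · change D i (y j) ∈ K
        rw [hDy]
        split_ifs
        · exact one_mem K
        · exact zero_mem K
      · change (P.map (D i)) j.1 j.2 ∈ K
        rw [hA1, Matrix.mul_apply]
        exact sum_mem fun c _ => mul_mem (hPK _ _) (hK0 _ (hA2 _ _))
  choose D' hD' using fun i => xsalgj_res K (D i) (hDK i)
  have hmem : ∀ x ∈ K, ∃ x', K.val x' = x := fun x hx => ⟨⟨x, hx⟩, rfl⟩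
  have hmul : ∀ (A B : Matrix (Fin g) (Fin g) K),
      (A * B).map K.val = A.map K.val * B.map K.val :=
    fun A B => Matrix.map_mul (f := K.val.toRingHom)
  obtain ⟨V', rfl⟩ := xsalgj_lift K.val V fun a b =>
    hmem _ (by have h := hPK (.inr a) (.inr b); rw [← hP] at h; exact h)
  obtain ⟨B, hB⟩ := xsalgj_lift K.val (τ * V'.map K.val) fun a b =>
    hmem _ (by have h := hPK (.inl a) (.inr b); rw [← hP] at h; exact h)
  obtain ⟨C, hC⟩ := xsalgj_lift K.val (-(ψ * Wᵀ)) fun a b =>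
    hmem _ (by have h := hPK (.inr a) (.inl b); rw [← hP] at h; exact h)
  have hdet : IsUnit V'.det := by
    rw [isUnit_iff_ne_zero]
    intro h
    have h1 := congrArg det hV
    have h2 : (V'.map K.val).det = K.val V'.det := (RingHom.map_det K.val.toRingHom V').symm
    rw [det_mul, h2, h, map_zero, zero_mul, det_one] at h1
    exact zero_ne_one h1
  have hV' : V' * V'⁻¹ = 1 := mul_nonsing_inv _ hdet
  have hW : (V'⁻¹).map K.val = W := by
    refine right_inv_eq_right_inv ?_ hV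
    rw [← hmul, hV']
    exact Matrix.map_one _ (map_zero _) (map_one _)
  subst hW
  have hτ' : (B * V'⁻¹).map K.val = τ := by
    rw [hmul, hB, Matrix.mul_assoc, hV, Matrix.mul_one]
  have hψ' : (-(C * V'ᵀ)).map K.val = ψ := by
    rw [Matrix.map_neg _ (map_neg K.val), hmul, hC, transpose_map, Matrix.neg_mul, neg_neg,
      Matrix.mul_assoc, ← transpose_mul, hV, transpose_one, Matrix.mul_one]
  obtain ⟨τ', rfl⟩ : ∃ τ' : Matrix (Fin g) (Fin g) K, τ'.map K.val = τ := ⟨_, hτ'⟩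
  obtain ⟨ψ', rfl⟩ : ∃ ψ' : Matrix (Fin g) (Fin g) K, ψ'.map K.val = ψ := ⟨_, hψ'⟩
  obtain ⟨q', rfl⟩ := xsalgj_lift K.val q fun a b => hmem _ (hK0 _ (hqa a b))
  obtain ⟨F, u, a, h1, h2, h3, h4⟩ := xsalgj_main (k := k) (s := s) K.val
    (fun j => ⟨y j, hy j⟩) D D' hD' τ' ψ' V' V'⁻¹ q' P
    ((xsalgj_Pm K.val.toRingHom τ' ψ' V' V'⁻¹).trans hP) (fun x => (hK _).1 x.2)
    (fun x hx => hmem x (hK0 x hx)) hτ hψ hq hV' hDy hDD hconst hA hX hqa hq0 hiso hnd hs hmin hc
  exact ⟨F, u, a, h1, h2, h3, fun b c => ⟨h4 _, h4 _⟩, fun f hf => h4 ⟨f, hK0 f hf⟩⟩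

end Pool.Agent.MP_f58063_ag

end
end

section

open Complex Filter Topology Matrix Function

noncomputable section

namespace Pool.Agent.MP_f58063_ag

/-- a basis of the span of `S`, completed by `g₀`, and a dual family -/
lemma xsce_lin {K : Type} [Field K] {ι : Type} [Fintype ι] (S : Set (ι → K)) (a g₀ : ι → K)
    (h0 : ∑ i, a i * g₀ i = 1) (hS : ∀ g ∈ S, ∑ i, a i * g i = 0) :
    ∃ (r : ℕ) (g : Fin r → ι → K) (w : Fin (r + 1) → ι → K), (∀ j, g j ∈ S) ∧
      (∀ s ∈ S, ∃ c : Fin r → K, ∀ i, s i = ∑ j, c j * g j i) ∧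
      ∀ k l, ∑ i, w k i * (Fin.cons g₀ g : Fin (r + 1) → ι → K) l i = if k = l then 1 else 0 := by
  classical
  obtain ⟨g, h1, h2, h3⟩ := Submodule.exists_fun_fin_finrank_span_eq K S
  have h4 : g₀ ∉ Submodule.span K (Set.range g) := by
    rw [h2]
    intro h
    have h5 : ∀ v ∈ Submodule.span K S, ∑ i, a i * v i = 0 := by
      intro v hv
      induction hv using Submodule.span_induction with
      | mem x hx => exact hS x hx
      | zero => simp
      | add x y _ _ hx hy => simp [mul_add, Finset.sum_add_distrib, hx, hy]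
      | smul c x _ hx =>
        simp only [Pi.smul_apply, smul_eq_mul, mul_left_comm _ c]
        rw [← Finset.mul_sum, hx, mul_zero]
    rw [h5 g₀ h] at h0
    exact zero_ne_one h0
  have h5 := linearIndependent_iff_injective_fintypeLinearCombination.1
    (linearIndependent_finCons.2 ⟨h3, h4⟩)
  obtain ⟨q, hq⟩ := LinearMap.exists_leftInverse_of_injective _ (LinearMap.ker_eq_bot.2 h5)
  refine ⟨_, g, fun k i => q (fun j => if i = j then 1 else 0) k, h1, fun s hs => ?_,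
    fun k l => ?_⟩
  · have h6 : s ∈ Submodule.span K (Set.range g) := by
      rw [h2]
      exact Submodule.subset_span hs
    obtain ⟨c, hc⟩ := (Submodule.mem_span_range_iff_exists_fun K).1 h6
    exact ⟨c, fun i => by simp [← hc]⟩
  · have h6 := LinearMap.congr_fun hq (Pi.single l 1)
    rw [LinearMap.comp_apply, Fintype.linearCombination_apply_single, one_smul,
      LinearMap.pi_apply_eq_sum_univ] at h6
    have h7 := congrFun h6 k
    simp only [Finset.sum_apply, Pi.smul_apply, smul_eq_mul, LinearMap.id_apply,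
      Pi.single_apply] at h7
    rw [← h7]
    exact Finset.sum_congr rfl fun i _ => mul_comm _ _

/-- an algebraic relation over `F[τ]`, written out -/
lemma xsce_rel {F K : Type} [Field F] [Field K] [Algebra F K] {τ φ : K}
    (h : IsAlgebraic (Algebra.adjoin F {τ}) φ) :
    ∃ (S : Finset (ℕ × ℕ)) (c : ℕ × ℕ → F), (∃ e ∈ S, c e ≠ 0) ∧
      ∑ e ∈ S, algebraMap F K (c e) * (τ ^ e.1 * φ ^ e.2) = 0 := by
  classical
  obtain ⟨P, hP, hφ⟩ := h
  choose q hq using fun s : ℕ => Algebra.adjoin_eq_exists_aeval F τ (P.coeff s)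
  set N := (P.support.sup fun s => (q s).natDegree) + 1 with hN
  have hlt : ∀ s ∈ P.support, (q s).natDegree < N := fun s hs =>
    Nat.lt_succ_of_le (Finset.le_sup (f := fun s => (q s).natDegree) hs)
  refine ⟨Finset.range N ×ˢ P.support, fun e => (q e.2).coeff e.1, ?_, ?_⟩
  · have h1 : P.natDegree ∈ P.support := Polynomial.natDegree_mem_support_of_nonzero hP
    have h2 : q P.natDegree ≠ 0 := by
      intro h
      have h3 := hq P.natDegree
      rw [h, map_zero] at h3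
      exact Polynomial.mem_support_iff.1 h1 (Subtype.ext h3.symm)
    exact ⟨((q P.natDegree).natDegree, P.natDegree),
      Finset.mem_product.2 ⟨Finset.mem_range.2 (hlt _ h1), h1⟩,
      Polynomial.leadingCoeff_ne_zero.2 h2⟩
  · rw [Finset.sum_product_right, ← hφ, Polynomial.aeval_def, Polynomial.eval₂_eq_sum,
      Polynomial.sum_def]
    refine Finset.sum_congr rfl fun s hs => ?_
    have h1 : algebraMap (Algebra.adjoin F {τ}) K (P.coeff s) = Polynomial.aeval τ (q s) :=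
      (hq s).symm
    rw [h1, Polynomial.aeval_eq_sum_range' (hlt s hs), Finset.sum_mul]
    refine Finset.sum_congr rfl fun r _ => ?_
    rw [Algebra.smul_def, mul_assoc]

/-- a two-variable polynomial with given coefficients -/
lemma xsce_poly (S : Finset (ℕ × ℕ)) (c : ℕ × ℕ → ℂ) (h : ∃ e ∈ S, c e ≠ 0) :
    ∃ P : Polynomial (Polynomial ℂ), P ≠ 0 ∧
      ∀ s y, P.evalEval s y = ∑ e ∈ S, c e * (s ^ e.1 * y ^ e.2) := by
  classical
  refine ⟨∑ e ∈ S, Polynomial.monomial e.2 (Polynomial.monomial e.1 (c e)), fun h0 => ?_,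
    fun s y => ?_⟩
  · obtain ⟨e, he, hc⟩ := h
    have h1 := congrArg (fun P : Polynomial (Polynomial ℂ) => (P.coeff e.2).coeff e.1) h0
    simp only [Polynomial.finsetSum_coeff, Polynomial.coeff_zero] at h1
    rw [Finset.sum_eq_single e] at h1
    · simp at h1
      exact hc h1
    · intro e' _ hne
      rw [Polynomial.coeff_monomial]
      split_ifs with h2
      · rw [Polynomial.coeff_monomial, if_neg]
        intro h3
        exact hne (Prod.ext h3 h2)
      · simp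
    · intro h2
      exact absurd he h2
  · simp only [Polynomial.evalEval, Polynomial.eval_finsetSum, Polynomial.eval_monomial,
      Polynomial.eval_mul, Polynomial.eval_pow, Polynomial.eval_C, mul_assoc]

/-- zero derivative near a point gives a constant germ -/
lemma xsce_const {u : ℂ → ℂ} {t₀ : ℂ} (h : ∀ᶠ t in 𝓝 t₀, HasDerivAt u 0 t) :
    ∀ᶠ t in 𝓝 t₀, u t = u t₀ := by
  obtain ⟨ε, hε, h1⟩ := Metric.eventually_nhds_iff_ball.1 h
  filter_upwards [Metric.ball_mem_nhds t₀ hε] with t ht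
  exact Metric.isOpen_ball.is_const_of_deriv_eq_zero (convex_ball t₀ ε).isPreconnected
    (fun s hs => (h1 s hs).differentiableAt.differentiableWithinAt)
    (fun s hs => (h1 s hs).deriv) ht (Metric.mem_ball_self hε)

variable {X : Type} [NormedAddCommGroup X] [NormedSpace ℂ X]

lemma xsce_dot {p : X} {α : Type} (s : Finset α) (u v : α → MG p) :
    rp (∑ i ∈ s, u i * v i) =ᶠ[GF p] fun x => ∑ i ∈ s, rp (u i) x * rp (v i) x := by
  filter_upwards [rp_sum s fun i => u i * v i,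
    (Filter.eventually_all_finset s).2 fun i _ => rp_mul (u i) (v i)] with x h1 h2
  rw [h1]
  exact Finset.sum_congr rfl h2

lemma xsce_zero (p : X) : rp (0 : MG p) =ᶠ[GF p] fun _ => 0 := by
  simpa using rp_const p 0

lemma xsce_one (p : X) : rp (1 : MG p) =ᶠ[GF p] fun _ => 1 := by
  simpa using rp_const p 1

/-- the coordinate curve of a submersion -/
lemma xsce_curve [FiniteDimensional ℂ X] {r : ℕ} {H : X → Fin (r + 1) → ℂ} {x : X}
    (hH : AnalyticAt ℂ H x) (hs : Surjective (fderiv ℂ H x)) :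
    ∃ σ : ℂ → X, σ (H x 0) = x ∧ AnalyticAt ℂ σ (H x 0) ∧
      ∀ᶠ t in 𝓝 (H x 0), H (σ t) 0 = t ∧ ∀ j : Fin r, H (σ t) j.succ = H x j.succ := by
  obtain ⟨n, π, Ψ, -, hΨ, h1, h2⟩ := chart hH hs
  let e : ℂ → (Fin (r + 1) → ℂ) × (Fin n → ℂ) := fun t =>
    (H x + (t - H x 0) • (Pi.single 0 1 : Fin (r + 1) → ℂ), π x)
  have e0 : e (H x 0) = (H x, π x) := by simp [e]
  have ea : AnalyticAt ℂ e (H x 0) :=
    (analyticAt_const.add ((analyticAt_id.sub analyticAt_const).smul analyticAt_const)).prod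
      analyticAt_const
  refine ⟨fun t => Ψ (e t), ?_, hΨ.comp_of_eq ea e0, ?_⟩
  · change Ψ (e (H x 0)) = x
    rw [e0]
    exact h1.self_of_nhds
  · have h3 : Tendsto e (𝓝 (H x 0)) (𝓝 (H x, π x)) := e0 ▸ ea.continuousAt.tendsto
    filter_upwards [h3.eventually h2] with t ht
    rw [ht.1]
    refine ⟨by simp [e], fun j => by simp [e]⟩

/-- a function whose differential is a combination of those of the `φ j` is constant along a
curve on which the `φ j` are constant -/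
lemma xsce_along [FiniteDimensional ℂ X] {ι : Type} [Fintype ι] (b : Module.Basis ι ℂ X) {r : ℕ}
    {φ l : Fin r → X → ℂ} {c : X → ℂ} {σ : ℂ → X} {t₀ : ℂ} (hσ : AnalyticAt ℂ σ t₀)
    (h1 : ∀ᶠ y in 𝓝 (σ t₀), AnalyticAt ℂ c y ∧ (∀ j, AnalyticAt ℂ (φ j) y) ∧
      ∀ i, dv (b i) c y = ∑ j, l j y * dv (b i) (φ j) y)
    (h2 : ∀ᶠ t in 𝓝 t₀, ∀ j, φ j (σ t) = φ j (σ t₀)) :
    ∀ᶠ t in 𝓝 t₀, c (σ t) = c (σ t₀) := by
  refine xsce_const (u := fun t => c (σ t)) ?_
  filter_upwards [hσ.continuousAt.tendsto.eventually h1, hσ.eventually_analyticAt,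
    h2.eventually_nhds] with t k1 k2 k3
  obtain ⟨a1, a2, a3⟩ := k1
  have d0 := k2.differentiableAt.hasDerivAt
  have d1 : ∀ j, fderiv ℂ (φ j) (σ t) (deriv σ t) = 0 := fun j =>
    ((a2 j).differentiableAt.hasFDerivAt.comp_hasDerivAt t d0).unique
      ((hasDerivAt_const t (φ j (σ t₀))).congr_of_eventuallyEq (k3.mono fun s hs => hs j))
  have d2 : (fderiv ℂ c (σ t)).toLinearMap =
      ∑ j, l j (σ t) • (fderiv ℂ (φ j) (σ t)).toLinearMap := by
    refine b.ext fun i => ?_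
    simpa [dv] using a3 i
  have d3 : fderiv ℂ c (σ t) (deriv σ t) = 0 := by
    have := LinearMap.congr_fun d2 (deriv σ t)
    simpa [d1] using this
  have d4 := a1.differentiableAt.hasFDerivAt.comp_hasDerivAt t d0
  rw [d3] at d4
  exact d4

/-- a dual family makes the differential surjective -/
lemma xsce_surj [FiniteDimensional ℂ X] {ι : Type} [Fintype ι] (b : Module.Basis ι ℂ X) {n : ℕ}
    {ψ : Fin n → X → ℂ} {x : X} (hψ : ∀ l, AnalyticAt ℂ (ψ l) x) (w : Fin n → ι → ℂ)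
    (hw : ∀ k l, ∑ i, w k i * dv (b i) (ψ l) x = if k = l then 1 else 0) :
    Surjective (fderiv ℂ (fun y l => ψ l y) x) := by
  rw [fderiv_pi fun l => (hψ l).differentiableAt]
  intro z
  refine ⟨∑ k, z k • ∑ i, w k i • b i, funext fun l => ?_⟩
  have h : ∀ k, fderiv ℂ (ψ l) x (∑ i, w k i • b i) = if k = l then 1 else 0 := fun k => by
    rw [← hw k l]
    simp [dv]
  rw [ContinuousLinearMap.pi_apply, map_sum]
  simp only [map_smul, h]
  simp

/-- a field of first integrals of transcendence degree one gives a curve along which the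
algebraic elements are algebraic functions -/
theorem curve_of_field {X : Type} [NormedAddCommGroup X] [NormedSpace ℂ X] [FiniteDimensional ℂ X]
    {ι : Type} [Fintype ι] (b : Module.Basis ι ℂ X) (p : X) (F : IntermediateField ℂ (MG p))
    {T : X → ℂ} (hT : AnalyticAt ℂ T p) (a : ι → MG p)
    (ha : ∑ i, a i * DG p (b i) (gm p T) = 1) (hF : ∀ φ ∈ F, ∑ i, a i * DG p (b i) φ = 0)
    (hu : ∀ a' : ι → MG p, (∀ φ ∈ F, ∑ i, a' i * DG p (b i) φ = 0) → ∃ c : MG p, a' = c • a)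
    {κ : Type} [Finite κ] {f : κ → X → ℂ} (hf : ∀ j, AnalyticAt ℂ (f j) p)
    (halg : ∀ j, IsAlgebraic (Algebra.adjoin F {gm p T}) (gm p (f j))) {U : Set X}
    (hU : U ∈ 𝓝 p) :
    ∃ (σ : ℂ → X) (t₀ : ℂ), σ t₀ ∈ interior U ∧ AnalyticAt ℂ σ t₀ ∧
      (∀ᶠ t in 𝓝 t₀, T (σ t) = t) ∧ ∀ j, NashAt (fun t => f j (σ t)) t₀ := by
  classical
  have _ := hu
  have : CompleteSpace X := FiniteDimensional.complete ℂ X
  obtain ⟨r, g, w, h1, h2, h3⟩ := xsce_lin
    {g : ι → MG p | ∃ φ ∈ F, g = fun i => DG p (b i) φ} a (fun i => DG p (b i) (gm p T)) ha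
    (by rintro _ ⟨φ, hφ, rfl⟩; exact hF φ hφ)
  choose φ hφ hg using h1
  choose S c hc hrel using fun j => xsce_rel (halg j)
  choose l hl using fun (m : F) => h2 (fun i => DG p (b i) m) ⟨m, m.2, rfl⟩
  let ψ : Fin (r + 1) → MG p := Fin.cons (gm p T) φ
  have hψ : ∀ k i, (Fin.cons (fun i => DG p (b i) (gm p T)) g : Fin (r + 1) → ι → MG p) k i =
      DG p (b i) (ψ k) := by
    intro k i
    refine Fin.cases rfl (fun j => ?_) k
    simp [ψ, hg j]
  -- the generic conditions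
  have g1 : ∀ᶠ x in GF p, ∀ k, AnalyticAt ℂ (rp (ψ k)) x := eventually_all.2 fun k => rp_an _
  have g2 : ∀ᶠ x in GF p, ∀ k k', ∑ i, rp (w k i) x * dv (b i) (rp (ψ k')) x =
      if k = k' then 1 else 0 := by
    refine eventually_all.2 fun k => eventually_all.2 fun k' => ?_
    have e := h3 k k'
    simp only [hψ] at e
    filter_upwards [xsce_dot Finset.univ (w k) fun i => DG p (b i) (ψ k'),
      eventually_all.2 fun i => rp_DG (b i) (ψ k'), xsce_zero p, xsce_one p] with x k1 k2 k3 k4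
    rw [e] at k1
    simp only [k2] at k1
    rw [← k1]
    split_ifs
    · exact k4
    · exact k3
  have g3 : ∀ m : F, ∀ᶠ y in GF p, AnalyticAt ℂ (rp (m : MG p)) y ∧
      (∀ j, AnalyticAt ℂ (rp (φ j)) y) ∧
      ∀ i, dv (b i) (rp (m : MG p)) y = ∑ j, rp (l m j) y * dv (b i) (rp (φ j)) y := by
    intro m
    refine (rp_an _).and ((eventually_all.2 fun j => rp_an _).and (eventually_all.2 fun i => ?_))
    have e := hl m i
    simp only [hg] at e
    filter_upwards [xsce_dot Finset.univ (l m) fun j => DG p (b i) (φ j),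
      eventually_all.2 fun j => rp_DG (b i) (φ j), rp_DG (b i) (m : MG p)] with x k1 k2 k3
    rw [← e, k3] at k1
    simp only [k2] at k1
    exact k1
  have g4 : ∀ j, ∀ᶠ y in GF p,
      ∑ e ∈ S j, rp (c j e : MG p) y * (T y ^ e.1 * f j y ^ e.2) = 0 := by
    intro j
    have e := hrel j
    filter_upwards [xsce_dot (S j) (fun e => (c j e : MG p))
        fun e => gm p T ^ e.1 * gm p (f j) ^ e.2, xsce_zero p,
      (Filter.eventually_all_finset (S j)).2 fun e _ =>
        (rp_mul (gm p T ^ e.1) (gm p (f j) ^ e.2)).and ((rp_pow (gm p T) e.1).and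
          (rp_pow (gm p (f j)) e.2)), rp_gm hT, rp_gm (hf j)] with y k1 k2 k3 k4 k5
    have e' : ∑ e ∈ S j, (c j e : MG p) * (gm p T ^ e.1 * gm p (f j) ^ e.2) = 0 := e
    rw [e', k2] at k1
    rw [k1]
    refine Finset.sum_congr rfl fun e he => ?_
    obtain ⟨m1, m2, m3⟩ := k3 e he
    rw [m1, m2, m3, k4, k5]
  have g5 : ∀ j, ∀ᶠ y in GF p, ∃ e ∈ S j, rp (c j e : MG p) y ≠ 0 := by
    intro j
    obtain ⟨e, he, hne⟩ := hc j
    filter_upwards [rp_ne (m := (c j e : MG p)) fun h => hne (Subtype.ext h)] with y hy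
    exact ⟨e, he, hy⟩
  have g6 : ∀ᶠ y in GF p, y ∈ interior U ∧ ∀ j, AnalyticAt ℂ (f j) y :=
    GF_le p ((Filter.Eventually.and (interior_mem_nhds.2 hU)
      (eventually_all.2 fun j => (hf j).eventually_analyticAt)))
  have := GF_neBot p
  obtain ⟨x, k1, k2, k3, k4, k5, k6, k7⟩ := (g1.and (g2.and
    ((eventually_all.2 fun j => (Filter.eventually_all_finset (S j)).2 fun e _ =>
      GF_nhds (g3 (c j e))).and ((eventually_all.2 fun j => GF_nhds (g4 j)).and
    ((eventually_all.2 g5).and (g6.and (GF_nhds (rp_gm hT)))))))).exists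
  obtain ⟨σ, s1, s2, s3⟩ := xsce_curve (H := fun y k => rp (ψ k) y) (x := x)
    (analyticAt_pi_iff.2 k1) (xsce_surj b k1 _ k2)
  set t₀ := rp (ψ 0) x with ht₀
  have s4 : Tendsto σ (𝓝 t₀) (𝓝 x) := s1 ▸ s2.continuousAt.tendsto
  have s5 : ∀ᶠ t in 𝓝 t₀, T (σ t) = t := by
    filter_upwards [s3, s4.eventually k7] with t m1 m2
    rw [← m2]
    exact m1.1
  refine ⟨σ, t₀, s1.symm ▸ k6.1, s2, s5, fun j => ?_⟩
  have s6 : AnalyticAt ℂ (fun t => f j (σ t)) t₀ := (k6.2 j).comp_of_eq s2 s1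
  obtain ⟨P, hP, hPe⟩ := xsce_poly (S j) (fun e => rp (c j e : MG p) x) (k5 j)
  refine (nash_iff_one s6).2 ⟨P, hP, ?_⟩
  have s7 : ∀ e ∈ S j, ∀ᶠ t in 𝓝 t₀, rp (c j e : MG p) (σ t) = rp (c j e : MG p) x := by
    intro e he
    have := xsce_along b (φ := fun j => rp (φ j)) (l := fun j' => rp (l (c j e) j'))
      (c := rp (c j e : MG p)) s2 (s1.symm ▸ k3 j e he)
      (s3.mono fun t ht j' => s1.symm ▸ ht.2 j')
    rwa [s1] at this
  filter_upwards [(Filter.eventually_all_finset (S j)).2 s7, s5, s4.eventually (k4 j)]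
    with t m1 m2 m3
  rw [hPe, ← m3, m2]
  exact Finset.sum_congr rfl fun e he => by rw [m1 e he]

end Pool.Agent.MP_f58063_ag

end
end

section

open Complex Filter Topology Matrix Function

noncomputable section

namespace Pool.Agent.MP_f58063_ag

lemma xsstb_coord {E : Type} [NormedAddCommGroup E] [NormedSpace ℂ E] [FiniteDimensional ℂ E]
    {ι : Type} [Fintype ι] (b : Module.Basis ι ℂ E) (j : ι) :
    ∃ l : E →L[ℂ] ℂ, ∀ e, l e = b.repr e j :=
  ⟨LinearMap.toContinuousLinearMap (b.coord j), fun _ => rfl⟩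

lemma xsstb_qf {E : Type} [NormedAddCommGroup E] [NormedSpace ℂ E] {p : E} {g : ℕ}
    {τ : E → Matrix (Fin g) (Fin g) ℂ} (hτ : ∀ a c, AnalyticAt ℂ (fun e => τ e a c) p)
    (u : Fin g → ℤ) :
    AnalyticAt ℂ (fun e => qf (τ e) u) p ∧ gm p (fun e => qf (τ e) u) = qf (gM p τ) u := by
  have h1 : ∀ a c, AnalyticAt ℂ (fun e => (u a : ℂ) * τ e a c * u c) p := fun a c =>
    (analyticAt_const.mul (hτ a c)).mul analyticAt_const
  have h2 : ∀ a, AnalyticAt ℂ (fun e => ∑ c, (u a : ℂ) * τ e a c * u c) p := fun a =>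
    Finset.analyticAt_fun_sum _ fun c _ => h1 a c
  refine ⟨Finset.analyticAt_fun_sum _ fun a _ => h2 a, ?_⟩
  unfold qf
  rw [gm_sum _ fun a _ => h2 a]
  refine Finset.sum_congr rfl fun a _ => ?_
  rw [gm_sum _ fun c _ => h1 a c]
  refine Finset.sum_congr rfl fun c _ => ?_
  rw [gm_mul (f := fun e => (u a : ℂ) * τ e a c) (f' := fun _ => (u c : ℂ))
      (analyticAt_const.mul (hτ a c)) analyticAt_const,
    gm_mul (f := fun _ => (u a : ℂ)) analyticAt_const (hτ a c), gm_const, gm_const, map_intCast,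
    map_intCast]
  rfl

lemma xsstb_dM {E : Type} [NormedAddCommGroup E] [NormedSpace ℂ E] {ι l m : Type} [Fintype ι]
    (b : ι → E) (A : E → Matrix l m ℂ) (e : E) (ξ : ι → ℂ) (a : l) (c : m) :
    dM A e (∑ i, ξ i • b i) a c = ∑ i, dM A e (b i) a c * ξ i := by
  simp [dM, mul_comm]

theorem stage_curve {E : Type} [NormedAddCommGroup E] [NormedSpace ℂ E] [FiniteDimensional ℂ E]
    {ι : Type} [Fintype ι] (b : Module.Basis ι ℂ E) (p : E) {g k s : ℕ}
    (τ ψ V q : E → Matrix (Fin g) (Fin g) ℂ) (P : E → Matrix (LL g) (LL g) ℂ)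
    (hP : ∀ e, P e = Pm (τ e) (ψ e) (V e) (V e)⁻¹)
    (hτ : ∀ a c, AnalyticAt ℂ (fun e => τ e a c) p) (hψ : ∀ a c, AnalyticAt ℂ (fun e => ψ e a c) p)
    (hV : ∀ a c, AnalyticAt ℂ (fun e => V e a c) p) (hq : ∀ a c, NashAt (fun e => q e a c) p)
    (hdet : (V p).det ≠ 0) (hq0 : q p ≠ 0)
    (hsym : ∀ᶠ e in 𝓝 p, (τ e)ᵀ = τ e ∧ (ψ e)ᵀ = ψ e ∧ (q e)ᵀ = q e)
    (hA : ∀ i a c, NashAt (fun e => ((P e)⁻¹ * dM P e (b i)) a c) p)
    (hZ : ∀ R : MvPolynomial (ι ⊕ LL g × LL g) ℂ,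
      (∀ᶠ e in 𝓝 p,
        MvPolynomial.eval (Sum.elim (fun i => b.repr e i) fun a => P e a.1 a.2) R = 0) →
      ∀ᶠ e in 𝓝 p, ∀ M ∈ symplecticGroup (Fin g) ℂ,
        MvPolynomial.eval (Sum.elim (fun i => b.repr e i) fun a => (M * P e) a.1 a.2) R = 0)
    (hiso : ∀ᶠ e in 𝓝 p, ∀ ξ, trace (V e * q e * (V e)ᵀ * dM τ e ξ) = 0)
    (hnd : ∀ᶠ e in 𝓝 p, ∀ ξ, dM τ e ξ = 0 → dM (fun e => V e * q e * (V e)ᵀ) e ξ = 0 → ξ = 0)
    (hs : s + k ≤ g)
    (hmin : ∀ᶠ e in 𝓝 p, ∀ r c : Fin (s + 1) → Fin g, ((q e).submatrix r c).det = 0)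
    (hc : g * (g + 1) / 2 < Fintype.card ι + k * (k + 1) / 2)
    {κ : Type} [Finite κ] {f : κ → E → ℂ} (hf : ∀ j, NashAt (f j) p) {U : Set E}
    (hU : U ∈ 𝓝 p) :
    ∃ (σ : ℂ → E) (t₀ : ℂ) (u : Fin g → ℤ), σ t₀ ∈ interior U ∧ AnalyticAt ℂ σ t₀ ∧
      (∀ᶠ t in 𝓝 t₀, qf (τ (σ t)) u = t) ∧
      (∀ a c, NashAt (fun t => τ (σ t) a c) t₀ ∧ NashAt (fun t => ψ (σ t) a c) t₀) ∧
      ∀ j, NashAt (fun t => f j (σ t)) t₀ := by
  classical
  obtain rfl : P = fun e => Pm (τ e) (ψ e) (V e) (V e)⁻¹ := funext hP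
  have hW := an_inv hV hdet
  have hq1 := fun a c => (hq a c).1
  have hdet' : ∀ᶠ e in 𝓝 p, (V e).det ≠ 0 := (an_det hV).continuousAt.eventually_ne hdet
  have hVW : ∀ᶠ e in 𝓝 p, V e * (V e)⁻¹ = 1 :=
    hdet'.mono fun e he => Matrix.mul_nonsing_inv _ he.isUnit
  have hy : ∀ i, AnalyticAt ℂ (fun e => b.repr e i) p := fun i => by
    obtain ⟨l, hl⟩ := xsstb_coord b i
    simpa only [← hl] using l.analyticAt p
  have hPa := an_Pm hτ hψ hV hW
  have hPg := gM_Pm hτ hψ hV hW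
  have hVt : ∀ a c, AnalyticAt ℂ (fun e => (V e)ᵀ a c) p := fun a c => hV c a
  have hQa : ∀ a c, AnalyticAt ℂ (fun e => (V e * q e * (V e)ᵀ) a c) p :=
    an_mul (A := fun e => V e * q e) (B := fun e => (V e)ᵀ) (an_mul hV hq1) hVt
  have hQg : gM p (fun e => V e * q e * (V e)ᵀ) = gM p V * gM p q * (gM p V)ᵀ := by
    rw [gM_mul (A := fun e => V e * q e) (B := fun e => (V e)ᵀ) (an_mul hV hq1) hVt,
      gM_mul hV hq1, gM_transpose]
  have hsy : ∀ {A : E → Matrix (Fin g) (Fin g) ℂ}, (∀ a c, AnalyticAt ℂ (fun e => A e a c) p) →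
      (∀ᶠ e in 𝓝 p, (A e)ᵀ = A e) → (gM p A)ᵀ = gM p A := fun {A} hA h => by
    rw [← gM_transpose]
    exact gM_congr (A := fun e => (A e)ᵀ) (fun a c => hA c a) h
  obtain ⟨F, u, a, h1, h2, h3, h4, h5⟩ := algM (k := k) (s := s)
    (fun i => gm p fun e => b.repr e i) (fun i => DG p (b i)) (gM p τ) (gM p ψ) (gM p V)
    (gM p fun e => (V e)⁻¹) (gM p q) (hsy hτ (hsym.mono fun e h => h.1))
    (hsy hψ (hsym.mono fun e h => h.2.1)) (hsy hq1 (hsym.mono fun e h => h.2.2))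
    (by
      rw [← gM_mul hV hW, gM_congr (an_mul hV hW) hVW, gM_const]
      exact Matrix.map_one _ (map_zero _) (map_one _))
    (fun i j => by
      rw [DG_gm _ (hy j)]
      obtain ⟨l, hl⟩ := xsstb_coord b j
      have e1 : dv (b i) (fun e => b.repr e j) = fun _ => if i = j then (1 : ℂ) else 0 := by
        funext e
        simp only [← hl]
        rw [dv_apply, l.fderiv, hl, b.repr_self, Finsupp.single_apply]
      rw [e1, gm_const]
      split_ifs <;> simp)
    (fun i j => DG_comm p _ _) (fun f hf => DG_const b hf)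
    (fun i => by
      refine ⟨gM p fun e => (Pm (τ e) (ψ e) (V e) (V e)⁻¹)⁻¹ *
        dM (fun e => Pm (τ e) (ψ e) (V e) (V e)⁻¹) e (b i), ?_, fun a c => ?_⟩
      · rw [← hPg, gM_DG hPa, ← gM_mul hPa fun a c => (hA i a c).1]
        refine gM_congr (an_dM hPa _) (hVW.mono fun e he => ?_)
        rw [Matrix.mul_nonsing_inv_cancel_left]
        rw [Pm_det _ _ he]
        exact isUnit_one
      · rw [← LA_eq]
        exact (hA i a c).2)
    (fun v R hR => by
      rw [← hPg] at hR ⊢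
      exact zar_der hy hPa hZ v R hR)
    (fun a c => by
      rw [← LA_eq]
      exact (hq a c).2)
    (fun h => hq0 (by
      have e1 : gM p q = gM p fun _ => (0 : Matrix (Fin g) (Fin g) ℂ) := by
        rw [h, gM_const]
        exact (Matrix.map_zero _ (map_zero _)).symm
      exact ((gM_eq_iff hq1 fun _ _ => analyticAt_const).1 e1).self_of_nhds))
    (fun i => by
      rw [← hQg, gM_DG hτ, ← gM_mul hQa (an_dM hτ _), ← gm_trace (an_mul hQa (an_dM hτ _))]
      refine (gm_eq_zero ?_).2 (hiso.mono fun e he => he _)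
      exact Finset.analyticAt_fun_sum _ fun a _ => an_mul hQa (an_dM hτ _) a a)
    (fun a ha1 ha2 => by
      refine gm_inj (κ := (Fin g × Fin g) ⊕ (Fin g × Fin g))
        (Sum.elim (fun x i e => dM τ e (b i) x.1 x.2)
          fun x i e => dM (fun e => V e * q e * (V e)ᵀ) e (b i) x.1 x.2) ?_ ?_ a ?_
      · rintro (x | x) i
        · exact an_dM hτ _ _ _
        · exact an_dM hQa _ _ _
      · refine hnd.mono fun e he ξ hξ => ?_
        have e1 := he (∑ i, ξ i • b i)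
          (by
            ext x y
            rw [xsstb_dM]
            exact hξ (.inl (x, y)))
          (by
            ext x y
            rw [xsstb_dM]
            exact hξ (.inr (x, y)))
        funext i
        exact Fintype.linearIndependent_iff.1 b.linearIndependent ξ e1 i
      · rintro (x | x)
        · refine Eq.trans (Finset.sum_congr rfl fun i _ => ?_) (ha1 x.1 x.2)
          rw [mul_comm]
          exact congrArg (a i * ·) (congrFun (congrFun (gM_DG hτ (b i)) x.1) x.2).symm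
        · rw [← hQg] at ha2
          refine Eq.trans (Finset.sum_congr rfl fun i _ => ?_) (ha2 x.1 x.2)
          rw [mul_comm]
          exact congrArg (a i * ·) (congrFun (congrFun (gM_DG hQa (b i)) x.1) x.2).symm)
    hs
    (fun r c => by
      have e1 : ∀ x y, AnalyticAt ℂ (fun e => (q e).submatrix r c x y) p := fun x y => hq1 _ _
      exact (gm_det e1).symm.trans ((gm_eq_zero (an_det e1)).2 (hmin.mono fun e he => he r c)))
    hc
  obtain ⟨hT, hTg⟩ := xsstb_qf hτ u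
  rw [← hTg] at h1 h4 h5
  obtain ⟨σ, t₀, k1, k2, k3, k4⟩ := curve_of_field b p F hT a h1 h2 h3
    (κ := ((Fin g × Fin g) ⊕ (Fin g × Fin g)) ⊕ κ)
    (f := Sum.elim (Sum.elim (fun x e => τ e x.1 x.2) fun x e => ψ e x.1 x.2) f)
    (by
      rintro ((x | x) | j)
      · exact hτ _ _
      · exact hψ _ _
      · exact (hf j).1)
    (by
      rintro ((x | x) | j)
      · exact (h4 x.1 x.2).1
      · exact (h4 x.1 x.2).2
      · refine h5 _ ?_
        rw [← LA_eq]
        exact (hf j).2) hU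
  exact ⟨σ, t₀, u, k1, k2, k3, fun a c => ⟨k4 (.inl (.inl (a, c))), k4 (.inl (.inr (a, c)))⟩,
    fun j => k4 (.inr j)⟩

end Pool.Agent.MP_f58063_ag

end
end
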