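import Pool.Agent.Mg.Fcf0a82q.Ge1829e
import Pool.Agent.Mg.Fcf0a82q.G446bd4

section

open Complex Filter Topology Function

noncomputable section

namespace Pool.Agent.MP_f58063_ag

variable {g : ℕ} {τ : Mat g}

lemma xadd_decomp {X Y : Type} (V : Submodule ℂ (X → ℂ)) [FiniteDimensional ℂ V]
    (W : Submodule ℂ (Y → ℂ)) {n : ℕ} (α : Module.Basis (Fin n) ℂ V) (Φ : X → Y → ℂ)
    (h₁ : ∀ w, (fun z => Φ z w) ∈ V) (h₂ : ∀ z, Φ z ∈ W) :
    ∃ β : Fin n → Y → ℂ, (∀ i, β i ∈ W) ∧ ∀ z w, Φ z w = ∑ i, (α i : X → ℂ) z * β i w := by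
  let ev : X → V →ₗ[ℂ] ℂ := fun z => (LinearMap.proj z).comp V.subtype
  have hsp : ∀ l : V →ₗ[ℂ] ℂ, l ∈ Submodule.span ℂ (Set.range ev) := by
    intro l
    refine FiniteDimensional.mem_span_of_iInf_ker_le_ker fun v hv => ?_
    have : v = 0 := by
      ext z
      exact (Submodule.mem_iInf _).1 hv z
    rw [this]
    exact Submodule.zero_mem _
  have hW : ∀ l : V →ₗ[ℂ] ℂ, (fun w => l ⟨fun z => Φ z w, h₁ w⟩) ∈ W := by
    intro l
    induction hsp l using Submodule.span_induction with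
    | mem l hl =>
      obtain ⟨z, rfl⟩ := hl
      exact h₂ z
    | zero => exact W.zero_mem
    | add a b _ _ ha hb => exact W.add_mem ha hb
    | smul c a _ ha => exact W.smul_mem c ha
  refine ⟨fun i w => α.coord i ⟨fun z => Φ z w, h₁ w⟩, fun i => hW _, fun z w => ?_⟩
  have e := congrArg (ev z) (α.sum_repr ⟨fun z => Φ z w, h₁ w⟩)
  rw [map_sum] at e
  refine e.symm.trans (Finset.sum_congr rfl fun i _ => ?_)
  rw [map_smul, smul_eq_mul, mul_comm]
  rfl

lemma xadd_aut₁ (n : Fin g → ℤ) (z w : EE g) :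
    aut τ n (z + w) * aut τ n (z - w) = aut τ n z ^ 2 := by
  simp only [aut, sq, ← exp_add, Pi.add_apply, Pi.sub_apply, mul_add, mul_sub,
    Finset.sum_add_distrib, Finset.sum_sub_distrib]
  congr 1
  ring

lemma xadd_aut₂ (n : Fin g → ℤ) (z w : EE g) :
    aut τ n (z + w) * aut τ (-n) (z - w) = aut τ n w ^ 2 := by
  simp only [aut, sq, ← exp_add, Pi.add_apply, Pi.sub_apply, Pi.neg_apply, Int.cast_neg, mul_add,
    mul_sub, neg_mul, mul_neg, neg_neg, Finset.sum_add_distrib, Finset.sum_sub_distrib,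
    Finset.sum_neg_distrib]
  congr 1
  ring

lemma xadd_per_neg (m n : Fin g → ℤ) : per τ (-m) (-n) = -per τ m n := by
  funext i
  simp only [per, Pi.neg_apply, Int.cast_neg, mul_neg, Finset.sum_neg_distrib]
  ring

lemma xadd_left {M : ℕ} {H U : EE g → ℂ} (hH : H ∈ Th τ M) (hU : U ∈ Th τ M) (w : EE g) :
    (fun z => H (z + w) * U (z - w)) ∈ Th τ (2 * M) := by
  refine ⟨fun z => ?_, fun m n z => ?_⟩
  · exact ((hH.1 (z + w)).comp (f := fun z => z + w) (analyticAt_id.add analyticAt_const)).mul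
      ((hU.1 (z - w)).comp (f := fun z => z - w) (analyticAt_id.sub analyticAt_const))
  · have e1 : z + per τ m n + w = z + w + per τ m n := by abel
    have e2 : z + per τ m n - w = z - w + per τ m n := by abel
    simp only [e1, e2, hH.2, hU.2, pow_mul, ← xadd_aut₁ n z w, mul_pow]
    ring

lemma xadd_right {M : ℕ} {H U : EE g → ℂ} (hH : H ∈ Th τ M) (hU : U ∈ Th τ M) (z : EE g) :
    (fun w => H (z + w) * U (z - w)) ∈ Th τ (2 * M) := by
  refine ⟨fun w => ?_, fun m n w => ?_⟩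
  · exact ((hH.1 (z + w)).comp (f := fun w => z + w) (analyticAt_const.add analyticAt_id)).mul
      ((hU.1 (z - w)).comp (f := fun w => z - w) (analyticAt_const.sub analyticAt_id))
  · have e1 : z + (w + per τ m n) = z + w + per τ m n := by abel
    have e2 : z - (w + per τ m n) = z - w + per τ (-m) (-n) := by
      rw [xadd_per_neg]
      abel
    simp only [e1, e2, hH.2, hU.2, pow_mul, ← xadd_aut₂ n z w, mul_pow]
    ring

lemma xadd_bpf (hτ : τ ∈ Siegel g) (p : EE g) (M : ℕ) : ∃ t ∈ Th τ (2 * M), t p ≠ 0 := by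
  obtain ⟨t, ht, h0⟩ := bpf_two hτ p
  exact ⟨_, Th_pow ht M, pow_ne_zero M h0⟩

/-- the addition theorem -/
theorem Ab_add (hτ : τ ∈ Siegel g) {p q : EE g} {f : EE g → ℂ} (hf : Ab τ (p + q) f) :
    ∃ (n : ℕ) (a b b' : Fin n → EE g → ℂ),
      (∀ i, Ab τ p (a i) ∧ Ab τ q (b i) ∧ Ab τ q (b' i)) ∧ ∑ i, a i p * b' i q ≠ 0 ∧
      ∀ᶠ y in 𝓝 (p, q), f (y.1 + y.2) * ∑ i, a i y.1 * b' i y.2 = ∑ i, a i y.1 * b i y.2 := by
  obtain ⟨N, h, hh, t, ht, ht0, hf⟩ := hf
  obtain ⟨u, hu, hu0⟩ := xadd_bpf hτ (p - q) N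
  have hH : (fun z => h z * t z) ∈ Th τ (2 * N) := two_mul N ▸ Th_mul hh ht
  have hT : (fun z => t z * t z) ∈ Th τ (2 * N) := two_mul N ▸ Th_mul ht ht
  obtain ⟨sp, hsp, hsp0⟩ := xadd_bpf hτ p (2 * N)
  obtain ⟨sq, hsq, hsq0⟩ := xadd_bpf hτ q (2 * N)
  obtain ⟨C, hC⟩ := Th_finrank hτ
  have := (hC (2 * (2 * N))).1
  let α := Module.finBasis ℂ (Th τ (2 * (2 * N)))
  obtain ⟨β, hβ, eβ⟩ := xadd_decomp _ (Th τ (2 * (2 * N))) α
    (fun z w => h (z + w) * t (z + w) * u (z - w)) (xadd_left hH hu) (xadd_right hH hu)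
  obtain ⟨β', hβ', eβ'⟩ := xadd_decomp _ (Th τ (2 * (2 * N))) α
    (fun z w => t (z + w) * t (z + w) * u (z - w)) (xadd_left hT hu) (xadd_right hT hu)
  have key : ∀ (γ : _ → EE g → ℂ) (z w : EE g),
      ∑ i, (α i : EE g → ℂ) z / sp z * (γ i w / sq w) =
        (∑ i, (α i : EE g → ℂ) z * γ i w) / (sp z * sq w) := by
    intro γ z w
    rw [Finset.sum_div]
    exact Finset.sum_congr rfl fun i _ => div_mul_div_comm _ _ _ _
  refine ⟨_, fun i z => (α i : EE g → ℂ) z / sp z, fun i w => β i w / sq w,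
    fun i w => β' i w / sq w, fun i => ⟨⟨_, _, (α i).2, sp, hsp, hsp0, EventuallyEq.rfl⟩,
      ⟨_, _, hβ i, sq, hsq, hsq0, EventuallyEq.rfl⟩,
      ⟨_, _, hβ' i, sq, hsq, hsq0, EventuallyEq.rfl⟩⟩, ?_, ?_⟩
  · rw [key, ← eβ']
    exact div_ne_zero (mul_ne_zero (mul_ne_zero ht0 ht0) hu0) (mul_ne_zero hsp0 hsq0)
  · have hc : Tendsto (fun y : EE g × EE g => y.1 + y.2) (𝓝 (p, q)) (𝓝 (p + q)) :=
      continuous_add.continuousAt
    filter_upwards [hc.eventually hf] with y hy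
    rw [key, key, ← eβ, ← eβ', hy]
    by_cases h0 : t (y.1 + y.2) = 0
    · simp [h0]
    · field_simp

end Pool.Agent.MP_f58063_ag

end
end

section

open Complex Filter Topology Function

noncomputable section

namespace Pool.Agent.MP_f58063_ag

section alg

variable {O : Type} [CommRing O] [IsDomain O] [Algebra ℂ O]

lemma xtdb_eRk {B : Set O} {a : ℕ}
    (h : ∀ u : Fin (a + 1) → O, (∀ i, u i ∈ B) → ¬ AlgebraicIndependent ℂ u) :
    (AlgebraicIndependent.matroid ℂ O).eRk B ≤ a := by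
  rw [Matroid.eRk_le_iff]
  intro I hI hind
  by_contra hlt
  have h1 : ((a + 1 : ℕ) : ℕ∞) ≤ I.encard := by
    push_cast
    exact Order.add_one_le_of_lt (not_le.1 hlt)
  obtain ⟨t, ht, hc⟩ := Set.exists_subset_encard_eq h1
  have hfin : t.Finite := Set.finite_of_encard_eq_coe hc
  have : Fintype t := hfin.fintype
  have hcard : Fintype.card t = a + 1 := by
    rw [Set.encard_eq_coe_toFinset_card, Set.toFinset_card] at hc
    exact_mod_cast hc
  let e : Fin (a + 1) ≃ t := (Fintype.equivFinOfCardEq hcard).symm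
  have h2 : AlgebraicIndepOn ℂ id t := AlgebraicIndependent.matroid_indep_iff.1 (hind.subset ht)
  exact h (fun i => (e i).1) (fun i => hI (ht (e i).2)) (h2.comp e e.injective)

lemma xtdb_alg {B B' : Set O} {a b : ℕ}
    (h : ∀ u : Fin (a + 1) → O, (∀ i, u i ∈ B) → ¬ AlgebraicIndependent ℂ u)
    (h' : ∀ u : Fin (b + 1) → O, (∀ i, u i ∈ B') → ¬ AlgebraicIndependent ℂ u)
    (u : Fin (a + b + 1) → O)
    (hu : ∀ i, ∃ c ∈ Algebra.adjoin ℂ (B ∪ B'), ∃ c' ∈ Algebra.adjoin ℂ (B ∪ B'),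
      c ≠ 0 ∧ u i * c = c') : ¬ AlgebraicIndependent ℂ u := by
  intro hind
  have h1 : (AlgebraicIndependent.matroid ℂ O).Indep (Set.range u) :=
    AlgebraicIndependent.matroid_indep_iff.2 hind.to_subtype_range
  have h2 : Set.range u ⊆ (AlgebraicIndependent.matroid ℂ O).closure (B ∪ B') := by
    rintro _ ⟨i, rfl⟩
    rw [AlgebraicIndependent.matroid_closure_eq]
    obtain ⟨c, hc, c', hc', h0, he⟩ := hu i
    change IsAlgebraic (Algebra.adjoin ℂ (B ∪ B')) (u i)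
    refine ⟨Polynomial.C ⟨c, hc⟩ * Polynomial.X - Polynomial.C ⟨c', hc'⟩, ?_, ?_⟩
    · intro hz
      have := congrArg (fun p => Polynomial.coeff p 1) hz
      simp only [Polynomial.coeff_sub, Polynomial.coeff_C_mul, Polynomial.coeff_X_one, mul_one,
        Polynomial.coeff_C_succ, sub_zero, Polynomial.coeff_zero] at this
      exact h0 (congrArg Subtype.val this)
    · simp only [map_sub, map_mul, Polynomial.aeval_C, Polynomial.aeval_X]
      change c * u i - c' = 0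
      rw [← he]; ring
  have h3 := h1.encard_le_eRk_of_subset h2
  rw [Matroid.eRk_closure_eq] at h3
  have h4 := h3.trans ((Matroid.eRk_union_le_eRk_add_eRk _ _ _).trans
    (add_le_add (xtdb_eRk h) (xtdb_eRk h')))
  rw [← Set.image_univ, hind.injective.encard_image, Set.encard_univ] at h4
  simp only [ENat.card_eq_coe_fintype_card, Fintype.card_fin] at h4
  have h5 : a + b + 1 ≤ a + b := by exact_mod_cast h4
  omega

end alg

section germ

variable {Z : Type} [NormedAddCommGroup Z] [NormedSpace ℂ Z]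

/-- functions analytic at a point -/
def xtdbA (z : Z) : Subalgebra ℂ (Z → ℂ) where
  carrier := {f | AnalyticAt ℂ f z}
  mul_mem' := fun ha hb => AnalyticAt.mul ha hb
  add_mem' := fun ha hb => AnalyticAt.add ha hb
  algebraMap_mem' := fun _ => analyticAt_const

/-- functions with zero germ -/
def xtdbI (z : Z) : Ideal (xtdbA z) where
  carrier := {f | ∀ᶠ y in 𝓝 z, f.1 y = 0}
  add_mem' := fun {a b} ha hb => (Filter.Eventually.and ha hb).mono fun y hy => by
    change a.1 y + b.1 y = 0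
    rw [hy.1, hy.2, add_zero]
  zero_mem' := Filter.Eventually.of_forall fun _ => rfl
  smul_mem' := fun c a ha => Filter.Eventually.mono ha fun y hy => by
    change c.1 y * a.1 y = 0
    rw [hy, mul_zero]

instance xtdb_prime (z : Z) : (xtdbI z).IsPrime where
  ne_top' := by
    rw [Ideal.ne_top_iff_one]
    intro h
    have h' : ∀ᶠ y in 𝓝 z, (1 : ℂ) = 0 := h
    exact one_ne_zero h'.self_of_nhds
  mem_or_mem' := fun {a b} h => germ_mul_zero (f := a.1) (f' := b.1) a.2 b.2 h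

/-- the germ of an analytic function -/
def xtdbG {z : Z} (f : Z → ℂ) (hf : AnalyticAt ℂ f z) : xtdbA z ⧸ xtdbI z :=
  Ideal.Quotient.mkₐ ℂ (xtdbI z) ⟨f, hf⟩

lemma xtdb_map {A B ι : Type} [CommRing A] [CommRing B] [Algebra ℂ A] [Algebra ℂ B]
    (φ : A →ₐ[ℂ] B) (G : ι → A) (P : MvPolynomial ι ℂ) :
    φ (MvPolynomial.aeval G P) = MvPolynomial.aeval (fun i => φ (G i)) P :=
  AlgHom.congr_fun (MvPolynomial.comp_aeval G φ) P

lemma xtdb_quot {A ι : Type} [CommRing A] [Algebra ℂ A] (J : Ideal A) (G : ι → A)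
    (P : MvPolynomial ι ℂ) :
    MvPolynomial.aeval (fun i => Ideal.Quotient.mkₐ ℂ J (G i)) P = 0 ↔
      MvPolynomial.aeval G P ∈ J := by
  rw [← xtdb_map, Ideal.Quotient.mkₐ_eq_mk, Ideal.Quotient.eq_zero_iff_mem]

lemma xtdb_aeval0 {z : Z} {ι : Type} (G : ι → xtdbA z) (P : MvPolynomial ι ℂ) :
    MvPolynomial.aeval (fun i => Ideal.Quotient.mkₐ ℂ (xtdbI z) (G i)) P = 0 ↔
      ∀ᶠ y in 𝓝 z, MvPolynomial.eval (fun i => (G i).1 y) P = 0 := by
  have h2 : ∀ y, (MvPolynomial.aeval G P).1 y = MvPolynomial.eval (fun i => (G i).1 y) P :=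
    fun y => xtdb_map ((Pi.evalAlgHom ℂ (fun _ : Z => ℂ) y).comp (xtdbA z).val) G P
  refine (xtdb_quot (xtdbI z) G P).trans ?_
  change (∀ᶠ y in 𝓝 z, (MvPolynomial.aeval G P).1 y = 0) ↔ _
  simp only [h2]

lemma xtdb_aeval {z : Z} {ι : Type} (F : ι → Z → ℂ) (hF : ∀ i, AnalyticAt ℂ (F i) z)
    (P : MvPolynomial ι ℂ) : MvPolynomial.aeval (fun i => xtdbG (F i) (hF i)) P = 0 ↔
      ∀ᶠ y in 𝓝 z, MvPolynomial.eval (fun i => F i y) P = 0 :=
  xtdb_aeval0 (fun i => (⟨F i, hF i⟩ : xtdbA z)) P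

lemma xtdb_indep {z : Z} {ι : Type} (F : ι → Z → ℂ) (hF : ∀ i, AnalyticAt ℂ (F i) z) :
    ¬ AlgebraicIndependent ℂ (fun i => xtdbG (F i) (hF i)) ↔
      ∃ P : MvPolynomial ι ℂ, P ≠ 0 ∧ ∀ᶠ y in 𝓝 z, MvPolynomial.eval (fun i => F i y) P = 0 := by
  rw [algebraicIndependent_iff]
  simp only [xtdb_aeval, not_forall]
  constructor
  · rintro ⟨P, h1, h2⟩
    exact ⟨P, h2, h1⟩
  · rintro ⟨P, h1, h2⟩
    exact ⟨P, h2, h1⟩

end germ

variable {g : ℕ} {τ : Mat g}

/-- germs of abelian functions along `w` -/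
def xtdbB (τ : Mat g) {Z : Type} [NormedAddCommGroup Z] [NormedSpace ℂ Z] {w : Z → EE g} {z : Z}
    (hw : AnalyticAt ℂ w z) : Set (xtdbA z ⧸ xtdbI z) :=
  {u | ∃ (f : EE g → ℂ) (hf : Ab τ (w z) f),
    u = xtdbG (fun x => f (w x)) (AnalyticAt.comp hf.analyticAt hw)}

lemma xtdb_TD_iff {Z : Type} [NormedAddCommGroup Z] [NormedSpace ℂ Z] {w : Z → EE g} {z : Z}
    (hw : AnalyticAt ℂ w z) (d : ℕ) : TD τ w z d ↔
      ∀ u : Fin (d + 1) → xtdbA z ⧸ xtdbI z, (∀ i, u i ∈ xtdbB τ hw) →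
        ¬ AlgebraicIndependent ℂ u := by
  constructor
  · intro h u hu
    choose f hf he using hu
    have : u = fun i => xtdbG (fun x => f i (w x)) (AnalyticAt.comp (hf i).analyticAt hw) :=
      funext he
    rw [this, xtdb_indep]
    exact h f hf
  · intro h f hf
    exact (xtdb_indep (fun i x => f i (w x))
      (fun i => AnalyticAt.comp (hf i).analyticAt hw)).1 (h _ fun i => ⟨f i, hf i, rfl⟩)

lemma xtdb_two (hτ : τ ∈ Siegel g) {Z : Type} [NormedAddCommGroup Z] [NormedSpace ℂ Z]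
    {w w' : Z → EE g} {z : Z} (hw : AnalyticAt ℂ w z) (hw' : AnalyticAt ℂ w' z) {a b : ℕ}
    (h : TD τ w z a) (h' : TD τ w' z b) : TD τ (fun x => w x + w' x) z (a + b) := by
  have hs : AnalyticAt ℂ (fun x => w x + w' x) z := hw.add hw'
  rw [xtdb_TD_iff hs]
  intro u hu
  refine xtdb_alg ((xtdb_TD_iff hw a).1 h) ((xtdb_TD_iff hw' b).1 h') u fun i => ?_
  obtain ⟨f, hf, he⟩ := hu i
  obtain ⟨n, p, q, q', hab, h0, hev⟩ := Ab_add hτ hf
  have hmem : ∀ r : Fin n → EE g → ℂ, ∀ hr : ∀ j, Ab τ (w' z) (r j),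
      ∑ j, xtdbG (fun x => p j (w x)) (AnalyticAt.comp (hab j).1.analyticAt hw) *
        xtdbG (fun x => r j (w' x)) (AnalyticAt.comp (hr j).analyticAt hw') ∈
          Algebra.adjoin ℂ (xtdbB τ hw ∪ xtdbB τ hw') := by
    intro r hr
    refine Subalgebra.sum_mem _ fun j _ => Subalgebra.mul_mem _ ?_ ?_
    · exact Algebra.subset_adjoin (Or.inl ⟨_, (hab j).1, rfl⟩)
    · exact Algebra.subset_adjoin (Or.inr ⟨_, hr j, rfl⟩)
  have hval : ∀ r : Fin n → EE g → ℂ, ∀ hr : ∀ j, Ab τ (w' z) (r j), ∃ s : xtdbA z,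
      (∀ x, s.1 x = ∑ j, p j (w x) * r j (w' x)) ∧
      ∑ j, xtdbG (fun x => p j (w x)) (AnalyticAt.comp (hab j).1.analyticAt hw) *
        xtdbG (fun x => r j (w' x)) (AnalyticAt.comp (hr j).analyticAt hw') =
          Ideal.Quotient.mk (xtdbI z) s := by
    intro r hr
    refine ⟨∑ j, (⟨fun x => p j (w x), AnalyticAt.comp (hab j).1.analyticAt hw⟩ : xtdbA z) *
      ⟨fun x => r j (w' x), AnalyticAt.comp (hr j).analyticAt hw'⟩, fun x => ?_, ?_⟩
    · rw [AddSubmonoidClass.coe_finsetSum, Finset.sum_apply]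
      rfl
    · rw [map_sum]
      rfl
  refine ⟨_, hmem q' fun j => (hab j).2.2, _, hmem q fun j => (hab j).2.1, ?_, ?_⟩
  · obtain ⟨s, hs1, hs2⟩ := hval q' fun j => (hab j).2.2
    rw [hs2, Ne, Ideal.Quotient.eq_zero_iff_mem]
    intro hz
    have hz' : ∀ᶠ y in 𝓝 z, s.1 y = 0 := hz
    have := hz'.self_of_nhds
    rw [hs1] at this
    exact h0 this
  · obtain ⟨s, hs1, hs2⟩ := hval q' fun j => (hab j).2.2
    obtain ⟨t, ht1, ht2⟩ := hval q fun j => (hab j).2.1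
    rw [hs2, ht2, he]
    unfold xtdbG
    rw [Ideal.Quotient.mkₐ_eq_mk, ← map_mul, Ideal.Quotient.eq]
    have hc : Tendsto (fun x => (w x, w' x)) (𝓝 z) (𝓝 (w z, w' z)) :=
      hw.continuousAt.prodMk hw'.continuousAt
    refine (hc.eventually hev).mono fun x hx => ?_
    change f (w x + w' x) * s.1 x - t.1 x = 0
    rw [hs1, ht1, sub_eq_zero]
    exact hx

theorem TD_sum_two (hτ : τ ∈ Siegel g) {X X' : Type} [NormedAddCommGroup X] [NormedSpace ℂ X]
    [NormedAddCommGroup X'] [NormedSpace ℂ X'] {y : X → EE g} {y' : X' → EE g} {x₀ : X} {x₁ : X'}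
    (hy : AnalyticAt ℂ y x₀) (hy' : AnalyticAt ℂ y' x₁) {a b : ℕ} (h : TD τ y x₀ a)
    (h' : TD τ y' x₁ b) : TD τ (fun x : X × X' => y x.1 + y' x.2) (x₀, x₁) (a + b) :=
  xtdb_two hτ (w := fun x : X × X' => y x.1) (w' := fun x : X × X' => y' x.2)
    (AnalyticAt.comp (f := Prod.fst) (x := (x₀, x₁)) hy analyticAt_fst)
    (AnalyticAt.comp (f := Prod.snd) (x := (x₀, x₁)) hy' analyticAt_snd)
    (h.comp (κ := Prod.fst) continuousAt_fst rfl) (h'.comp (κ := Prod.snd) continuousAt_snd rfl)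

theorem TD_sum (hτ : τ ∈ Siegel g) {n : ℕ} (c : Fin n → ℂ → EE g) (hc : ∀ i, AnalyticAt ℂ (c i) 0)
    (h : ∀ i, TD τ (c i) 0 1) : TD τ (fun s : Fin n → ℂ => ∑ i, c i (s i)) 0 n := by
  have han : ∀ i, AnalyticAt ℂ (fun s : Fin n → ℂ => c i (s i)) 0 := fun i =>
    AnalyticAt.comp (f := fun s : Fin n → ℂ => s i) (x := 0) (hc i)
      ((ContinuousLinearMap.proj (R := ℂ) (φ := fun _ : Fin n => ℂ) i).analyticAt 0)
  have key : ∀ T : Finset (Fin n),
      TD τ (fun s : Fin n → ℂ => ∑ i ∈ T, c i (s i)) 0 T.card := by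
    intro T
    induction T using Finset.induction_on with
    | empty => simpa using TD_const τ (0 : EE g) (0 : Fin n → ℂ)
    | insert i T hi ih =>
      have h1 : TD τ (fun s : Fin n → ℂ => c i (s i)) 0 1 :=
        (h i).comp (κ := fun s : Fin n → ℂ => s i) (continuous_apply i).continuousAt rfl
      have h2 := xtdb_two hτ (han i) (Finset.analyticAt_fun_sum T fun j _ => han j) h1 ih
      rw [Finset.card_insert_of_notMem hi, add_comm]
      simpa only [Finset.sum_insert hi] using h2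
  simpa using key Finset.univ

end Pool.Agent.MP_f58063_ag

end
end

section

open Complex Filter Topology Function

noncomputable section

namespace Pool.Agent.MP_f58063_ag

variable {g : ℕ} {τ : Mat g}

lemma xcurve_inv {F : EE g → EE g} {q : EE g} (hF : AnalyticAt ℂ F q)
    (hb : Bijective (fderiv ℂ F q)) :
    ∃ σ : EE g → EE g, AnalyticAt ℂ σ (F q) ∧ σ (F q) = q ∧ ∀ᶠ x in 𝓝 (F q), F (σ x) = x := by
  let e : EE g ≃L[ℂ] EE g :=
    (LinearEquiv.ofBijective (fderiv ℂ F q : EE g →ₗ[ℂ] EE g) hb).toContinuousLinearEquiv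
  have he : fderiv ℂ F q = (e : EE g →L[ℂ] EE g) := by
    ext v
    rfl
  have hs : HasStrictFDerivAt F (e : EE g →L[ℂ] EE g) q := he ▸ hF.hasStrictFDerivAt
  refine ⟨hs.localInverse F e q, ?_, hs.localInverse_apply_image, hs.eventually_right_inverse⟩
  exact (hs.toOpenPartialHomeomorph F).analyticAt_symm' hs.mem_toOpenPartialHomeomorph_source
    hF he

lemma xcurve_poly {F : EE g → EE g} {q : EE g} (hF : AnalyticAt ℂ F q)
    (hb : Surjective (fderiv ℂ F q)) {n : ℕ} (hn : n ≤ g) {P : MvPolynomial (Fin n) ℂ}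
    (h : ∀ᶠ z in 𝓝 q, MvPolynomial.eval (fun i => F z (Fin.castLE hn i)) P = 0) : P = 0 := by
  have hm : map F (𝓝 q) = 𝓝 (F q) :=
    hF.hasStrictFDerivAt.map_nhds_eq_of_surj (LinearMap.range_eq_top.2 hb)
  have h1 : ∀ᶠ x in 𝓝 (F q), MvPolynomial.eval (fun i => x (Fin.castLE hn i)) P = 0 := by
    rw [← hm, eventually_map]
    exact h
  have hA : ∀ x : EE g, AnalyticAt ℂ
      (fun x : EE g => MvPolynomial.eval (fun i => x (Fin.castLE hn i)) P) x := by
    intro x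
    have := AnalyticAt.aeval_mvPolynomial (𝕜 := ℂ) (z := x)
      (f := fun (x : EE g) (i : Fin n) => x (Fin.castLE hn i))
      (fun i => (ContinuousLinearMap.proj (R := ℂ) (φ := fun _ : Fin g => ℂ)
        (Fin.castLE hn i)).analyticAt x) P
    simpa only [MvPolynomial.aeval_eq_eval] using this
  have h2 := entire_zero hA h1
  refine MvPolynomial.funext fun y => ?_
  have h3 := congrFun h2 (fun j => if h : (j : ℕ) < n then y ⟨j, h⟩ else 0)
  simpa using h3

lemma xcurve_proj (H : Submodule ℂ (EE g)) : ∃ π : EE g →L[ℂ] H, ∀ v : H, π v = v := by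
  obtain ⟨K, hK⟩ := H.exists_isCompl
  exact ⟨LinearMap.toContinuousLinearMap (H.projectionOnto K hK), fun v => by simp⟩

lemma xcurve_sub_mem {c : ℂ → EE g} {r : ℝ} (hc : ∀ t ∈ Metric.ball (0 : ℂ) r, AnalyticAt ℂ c t)
    {H : Submodule ℂ (EE g)} (hH : ∀ t ∈ Metric.ball (0 : ℂ) r, deriv c t ∈ H) {t t' : ℂ}
    (ht : t ∈ Metric.ball (0 : ℂ) r) (ht' : t' ∈ Metric.ball (0 : ℂ) r) : c t - c t' ∈ H := by
  obtain ⟨π, hπ⟩ := xcurve_proj H
  have hd : ∀ s ∈ Metric.ball (0 : ℂ) r,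
      HasDerivAt (fun s => c s - (π (c s) : EE g)) 0 s := by
    intro s hs
    have h1 := (hc s hs).differentiableAt.hasDerivAt
    have h2 := (H.subtypeL.comp π).hasFDerivAt.comp_hasDerivAt s h1
    have h3 := h1.sub h2
    have h4 : deriv c s - (H.subtypeL.comp π) (deriv c s) = 0 := by
      have := hπ ⟨_, hH s hs⟩
      simp only [ContinuousLinearMap.comp_apply, Submodule.subtypeL_apply]
      rw [this, sub_self]
    rw [h4] at h3
    exact h3
  have e := Metric.isOpen_ball.is_const_of_deriv_eq_zero (convex_ball (0 : ℂ) r).isPreconnected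
    (fun s hs => (hd s hs).differentiableAt.differentiableWithinAt)
    (fun s hs => (hd s hs).deriv) ht ht'
  have e2 : c t - c t' = (π (c t) : EE g) - π (c t') := by
    linear_combination (exp := 1) e
  rw [e2]
  exact H.sub_mem (π _).2 (π _).2

lemma xcurve_onto {n : ℕ} {c : Fin n → ℂ → EE g} (hc : ∀ i, AnalyticAt ℂ (c i) 0)
    {H : Submodule ℂ (EE g)} (hH : H ≤ Submodule.span ℂ (Set.range fun i => deriv (c i) 0))
    (hm : ∀ i, ∀ᶠ t in 𝓝 (0 : ℂ), c i t - c i 0 ∈ H) {p : EE g → Prop}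
    (hp : ∀ᶠ s in 𝓝 (0 : Fin n → ℂ), p (∑ i, c i (s i))) :
    ∀ᶠ v : H in 𝓝 0, p (∑ i, c i 0 + v) := by
  obtain ⟨π, hπ⟩ := xcurve_proj H
  have h1 : ∀ i, HasStrictFDerivAt (fun s : Fin n → ℂ => c i (s i))
      ((ContinuousLinearMap.toSpanSingleton ℂ (deriv (c i) 0)).comp
        (ContinuousLinearMap.proj (R := ℂ) (φ := fun _ : Fin n => ℂ) i)) 0 := by
    intro i
    have a := (hc i).hasStrictDerivAt.hasStrictFDerivAt
    have b := (ContinuousLinearMap.proj (R := ℂ) (φ := fun _ : Fin n => ℂ) i).hasStrictFDerivAt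
      (x := 0)
    exact HasStrictFDerivAt.comp (0 : Fin n → ℂ) (g := c i) a b
  have h2 := π.hasStrictFDerivAt.comp (0 : Fin n → ℂ)
    ((HasStrictFDerivAt.fun_sum (u := Finset.univ) fun i _ => h1 i).sub_const (∑ i, c i 0))
  have h3 := h2.map_nhds_eq_of_surj (by
    refine LinearMap.range_eq_top.2 fun v => ?_
    obtain ⟨a, ha⟩ := (Submodule.mem_span_range_iff_exists_fun ℂ).1 (hH v.2)
    refine ⟨a, ?_⟩
    rw [← hπ v, ← ha]
    simp)
  simp only [Pi.zero_apply, sub_self, map_zero] at h3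
  rw [← h3, eventually_map]
  have h4 : ∀ᶠ s in 𝓝 (0 : Fin n → ℂ), ∀ i, c i (s i) - c i 0 ∈ H :=
    eventually_all.2 fun i =>
      ((continuous_apply i).tendsto (0 : Fin n → ℂ)).eventually (p := fun t => c i t - c i 0 ∈ H)
        (hm i)
  filter_upwards [hp, h4] with s hs hs'
  have h5 : ∑ i, c i (s i) - ∑ i, c i 0 ∈ H := by
    rw [← Finset.sum_sub_distrib]
    exact H.sum_mem fun i _ => hs' i
  have h6 := congrArg Subtype.val (hπ ⟨_, h5⟩)
  simp only at h6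
  rw [h6, add_sub_cancel]
  exact hs

lemma xcurve_main (hτ : τ ∈ Siegel g) {n : ℕ} (hn : n < g) {c : Fin n → ℂ → EE g}
    (hc : ∀ i, AnalyticAt ℂ (c i) 0) (hT : ∀ i, TD τ (c i) 0 1) {H : Submodule ℂ (EE g)}
    (h0 : H ≠ ⊥) (hH : H ≤ Submodule.span ℂ (Set.range fun i => deriv (c i) 0))
    (hm : ∀ i, ∀ᶠ t in 𝓝 (0 : ℂ), c i t - c i 0 ∈ H) : ¬ IsSimple τ := by
  obtain ⟨F, hF, -, hb⟩ := Ab_extend hτ (∑ i, c i 0) (r := 0) (fun _ _ => 0)
    (fun j => j.elim0) (fun _ => ⟨0, Subsingleton.elim _ _⟩) (Nat.zero_le g)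
  obtain ⟨P, hP, hz⟩ := TD_sum hτ c hc hT (fun i => F (Fin.castLE hn i)) fun i => (hF _).1
  obtain ⟨N, h, hh, t, ht, ht0, e⟩ := Ab.eval (F := fun i => F (Fin.castLE hn i))
    (fun i => (hF _).1) P
  have hA : AnalyticAt ℂ (fun x i => F i x) (∑ i, c i 0) :=
    analyticAt_pi_iff.2 fun i => (hF i).1.analyticAt
  have hne : h ≠ 0 := by
    rintro rfl
    refine hP (xcurve_poly hA hb.2 hn ?_)
    filter_upwards [e] with z hz
    simpa using hz
  have hY : Tendsto (fun s : Fin n → ℂ => ∑ i, c i (s i)) (𝓝 0) (𝓝 (∑ i, c i 0)) :=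
    tendsto_finsetSum _ fun i _ =>
      (hc i).continuousAt.tendsto.comp (continuous_apply i).continuousAt.tendsto
  have hv : ∀ᶠ s in 𝓝 (0 : Fin n → ℂ), h (∑ i, c i (s i)) = 0 := by
    filter_upwards [hz, hY.eventually e,
      hY.eventually ((ht.1 _).continuousAt.eventually_ne ht0)] with s h1 h2 h3
    rw [h1] at h2
    exact (div_eq_zero_iff.1 h2.symm).resolve_right h3
  have hw := xcurve_onto hc hH hm (p := fun z => h z = 0) hv
  have hE := entire_zero (f := fun v : H => h (∑ i, c i 0 + v))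
    (fun v => (hh.1 _).comp (analyticAt_const.add (H.subtypeL.analyticAt v))) hw
  exact not_simple_of_vanish hτ hh hne h0 (∑ i, c i 0) fun v hv => congrFun hE ⟨v, hv⟩

/-- an algebraic curve germ in a hyperplane produces a subtorus -/
theorem curve_not_simple (hτ : τ ∈ Siegel g) {q : EE g} {f : Fin g → EE g → ℂ}
    (hf : ∀ i, Ab τ q (f i) ∧ f i q = 0) (hb : Bijective (fderiv ℂ (fun x i => f i x) q))
    (l : Fin g) {G : EE g → ℂ} (hG : AnalyticAt ℂ G q) {lam : EE g →L[ℂ] ℂ} (hl : lam ≠ 0)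
    (hc : ∀ᶠ z in 𝓝 q, (∀ i, i ≠ l → f i z = 0) →
      G z = 0 ∧ ∃ c : ℂ, c ≠ 0 ∧ fderiv ℂ G z = c • lam) : ¬ IsSimple τ := by
  have hA : AnalyticAt ℂ (fun x i => f i x) q :=
    analyticAt_pi_iff.2 fun i => (hf i).1.analyticAt
  obtain ⟨σ, hσ, hσ0, hσi⟩ := xcurve_inv hA hb
  have hq : (fun i => f i q) = 0 := funext fun i => (hf i).2
  simp only [hq] at hσ hσ0 hσi
  have hσt : Tendsto σ (𝓝 0) (𝓝 q) := hσ0 ▸ hσ.continuousAt.tendsto
  have hL : ∀ t₀ : ℂ, AnalyticAt ℂ (fun t : ℂ => t • (ee l : EE g)) t₀ := fun t₀ =>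
    analyticAt_id.smul analyticAt_const
  have hLt : Tendsto (fun t : ℂ => t • (ee l : EE g)) (𝓝 0) (𝓝 0) := by
    simpa using (hL 0).continuousAt.tendsto
  set c : ℂ → EE g := fun t => σ (t • ee l) with hcd
  have hct : Tendsto c (𝓝 0) (𝓝 q) := hσt.comp hLt
  have E1 : ∀ᶠ t : ℂ in 𝓝 0, AnalyticAt ℂ σ (t • ee l) := hLt.eventually hσ.eventually_analyticAt
  have E2 : ∀ᶠ t : ℂ in 𝓝 0, ∀ i, Ab τ (c t) (f i) :=
    hct.eventually (eventually_all.2 fun i => (hf i).1.eventually)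
  have E3 : ∀ᶠ t : ℂ in 𝓝 0, ∀ᶠ x in 𝓝 (t • (ee l : EE g)), ∀ i, f i (σ x) = x i :=
    hLt.eventually (hσi.mono fun x hx i => congrFun hx i).eventually_nhds
  have E4 : ∀ᶠ t : ℂ in 𝓝 0, G (c t) = 0 ∧ ∃ a : ℂ, a ≠ 0 ∧ fderiv ℂ G (c t) = a • lam := by
    filter_upwards [E3, hct.eventually hc] with t h1 h2
    refine h2 fun i hi => ?_
    rw [h1.self_of_nhds i]
    simp [hi]
  have E5 : ∀ᶠ t : ℂ in 𝓝 0, lam (deriv c t) = 0 := by
    filter_upwards [E1, E4.eventually_nhds, hct.eventually hG.eventually_analyticAt]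
      with t h1 h2 h3
    have h4 : HasDerivAt c (deriv c t) t := (h1.comp_of_eq (hL t) rfl).differentiableAt.hasDerivAt
    have h5 := h3.differentiableAt.hasFDerivAt.comp_hasDerivAt t h4
    have h6 : G ∘ c =ᶠ[𝓝 t] fun _ => 0 := h2.mono fun s hs => hs.1
    have h7 := (h5.congr_of_eventuallyEq h6.symm).unique (hasDerivAt_const t (0 : ℂ))
    obtain ⟨a, ha, e⟩ := h2.self_of_nhds.2
    rw [e] at h7
    simpa [ha] using h7
  obtain ⟨r, hr, hB⟩ := Metric.eventually_nhds_iff_ball.1 (E1.and (E2.and (E3.and E5)))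
  have hcA : ∀ t ∈ Metric.ball (0 : ℂ) r, AnalyticAt ℂ c t := fun t ht =>
    (hB t ht).1.comp_of_eq (hL t) rfl
  set H : Submodule ℂ (EE g) := Submodule.span ℂ (deriv c '' Metric.ball 0 r) with hH
  have hmem : ∀ t ∈ Metric.ball (0 : ℂ) r, deriv c t ∈ H := fun t ht =>
    Submodule.subset_span ⟨t, ht, rfl⟩
  have hker : H ≤ LinearMap.ker (lam : EE g →ₗ[ℂ] ℂ) := by
    refine Submodule.span_le.2 ?_
    rintro _ ⟨t, ht, rfl⟩
    exact (hB t ht).2.2.2
  have hn : Module.finrank ℂ H < g := by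
    have h1 : H ≠ ⊤ := by
      intro h
      refine hl (ContinuousLinearMap.ext fun v => ?_)
      exact hker (h ▸ Submodule.mem_top)
    simpa using Submodule.finrank_lt h1
  have h0 : H ≠ ⊥ := by
    intro h
    have h1 : ((r / 2 : ℝ) : ℂ) ∈ Metric.ball (0 : ℂ) r := by
      rw [mem_ball_zero_iff, Complex.norm_real, Real.norm_of_nonneg (by positivity)]
      linarith
    have h2 := xcurve_sub_mem hcA hmem h1 (Metric.mem_ball_self hr)
    rw [h, Submodule.mem_bot, sub_eq_zero] at h2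
    have h3 := (hB _ h1).2.2.1.self_of_nhds l
    have h4 := (hB _ (Metric.mem_ball_self hr)).2.2.1.self_of_nhds l
    have h5 : f l (c ((r / 2 : ℝ) : ℂ)) = f l (c 0) := by rw [h2]
    rw [hcd] at h5
    simp only at h5
    rw [h3, h4] at h5
    simp [hr.ne'] at h5
  obtain ⟨b, hb1, hb2, -⟩ := Submodule.exists_fun_fin_finrank_span_eq ℂ
    (deriv c '' Metric.ball 0 r)
  choose t ht hbt using hb1
  have hS : ∀ i, AnalyticAt ℂ (fun s : ℂ => t i + s) 0 := fun i =>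
    analyticAt_const.add analyticAt_id
  refine xcurve_main hτ hn (c := fun i s => c (t i + s)) (H := H)
    (fun i => (hcA _ (ht i)).comp_of_eq (hS i) (add_zero _)) (fun i => ?_) h0 ?_ fun i => ?_
  · have := TD_curve hτ (hB _ (ht i)).1 (hB _ (ht i)).2.1 (hB _ (ht i)).2.2.1 l
    simpa only [hcd, add_smul] using this
  · have : (fun i => deriv (fun s => c (t i + s)) 0) = b := by
      funext i
      rw [deriv_comp_const_add, add_zero, hbt]
    rw [this, hb2]
  · have h1 : Tendsto (fun s : ℂ => t i + s) (𝓝 0) (𝓝 (t i)) := by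
      simpa using (hS i).continuousAt.tendsto
    filter_upwards [h1.eventually (Metric.isOpen_ball.mem_nhds (ht i))] with s hs
    rw [add_zero]
    exact xcurve_sub_mem hcA hmem hs (ht i)

end Pool.Agent.MP_f58063_ag

end
end

section

open Complex Filter Topology Function

noncomputable section

namespace Pool.Agent.MP_f58063_ag

variable {g : ℕ} {τ : Mat g}

theorem xdisc_ext {A B : EE g →L[ℂ] ℂ} (h : ∀ i, A (ee i) = B (ee i)) : A = B := by
  apply ContinuousLinearMap.coe_injective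
  apply (Pi.basisFun ℂ (Fin g)).ext
  intro i
  rw [Pi.basisFun_apply]
  exact h i

theorem xdisc_prop {A lam : EE g →L[ℂ] ℂ} (hl : lam ≠ 0) (hA : A ≠ 0)
    (h : ∀ i j, A (ee i) * lam (ee j) - A (ee j) * lam (ee i) = 0) :
    ∃ c : ℂ, c ≠ 0 ∧ A = c • lam := by
  obtain ⟨j, hj⟩ : ∃ j, lam (ee j) ≠ 0 := by
    by_contra hn
    push Not at hn
    exact hl (xdisc_ext fun i => by rw [hn i]; rfl)
  have e : A = (A (ee j) / lam (ee j)) • lam := by
    apply xdisc_ext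
    intro i
    rw [smul_apply, smul_eq_mul]
    field_simp
    linear_combination h i j
  refine ⟨_, fun hc => hA ?_, e⟩
  rw [e, hc]
  ext v
  simp

theorem xdisc_lt {r : ℕ} {A : EE g →L[ℂ] (Fin r → ℂ)} (hs : Surjective A) {v : EE g} (hv : v ≠ 0)
    (h0 : A v = 0) : r < g := by
  have e := LinearMap.finrank_range_add_finrank_ker (A : EE g →ₗ[ℂ] (Fin r → ℂ))
  have hr : LinearMap.range (A : EE g →ₗ[ℂ] (Fin r → ℂ)) = ⊤ := LinearMap.range_eq_top.mpr hs
  rw [hr, finrank_top, Module.finrank_fin_fun, Module.finrank_fin_fun] at e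
  have hk : LinearMap.ker (A : EE g →ₗ[ℂ] (Fin r → ℂ)) ≠ ⊥ := by
    intro hb
    have : v ∈ LinearMap.ker (A : EE g →ₗ[ℂ] (Fin r → ℂ)) := h0
    rw [hb] at this
    exact hv this
  have : Module.finrank ℂ (LinearMap.ker (A : EE g →ₗ[ℂ] (Fin r → ℂ))) ≠ 0 := by
    intro hz
    exact hk (Submodule.finrank_eq_zero.mp hz)
  omega

theorem disc_not_simple (hτ : τ ∈ Siegel g) {γ : ℂ → EE g} (hγ : AnalyticAt ℂ γ 0)
    (hd : deriv γ 0 ≠ 0) {G : EE g → ℂ} (hG : Ab τ (γ 0) G) (h0 : fderiv ℂ G (γ 0) ≠ 0)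
    {lam : EE g →L[ℂ] ℂ}
    (h : ∀ᶠ t in 𝓝 0, G (γ t) = 0 ∧ ∃ c : ℂ, fderiv ℂ G (γ t) = c • lam) : ¬ IsSimple τ := by
  have hl : lam ≠ 0 := by
    obtain ⟨_, c, hc⟩ := h.self_of_nhds
    rintro rfl
    refine h0 (hc.trans ?_)
    ext v
    simp
  set Ω : Set (EE g) := interior {p | Ab τ p G ∧ fderiv ℂ G p ≠ 0} with hΩ
  have hΩo : IsOpen Ω := isOpen_interior
  have hΩ0 : γ 0 ∈ Ω := by
    rw [hΩ, mem_interior_iff_mem_nhds]
    exact hG.eventually.and (hG.analyticAt.fderiv.continuousAt.eventually_ne h0)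
  have hΩs : ∀ p ∈ Ω, Ab τ p G ∧ fderiv ℂ G p ≠ 0 := fun p hp =>
    interior_subset (s := {p | Ab τ p G ∧ fderiv ℂ G p ≠ 0}) hp
  set μ : Fin g × Fin g → EE g → ℂ := fun ij z =>
    dv (ee ij.1) G z * lam (ee ij.2) - dv (ee ij.2) G z * lam (ee ij.1) with hμ
  have hSB : insert G (Set.range μ) ⊆ {f | ∀ p ∈ Ω, Ab τ p f} := by
    rintro f (rfl | ⟨ij, rfl⟩) p hp
    · exact (hΩs p hp).1
    · exact (((hΩs p hp).1.dv _).mul (Ab.const τ p _)).sub
        (((hΩs p hp).1.dv _).mul (Ab.const τ p _))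
  obtain ⟨R, hR, hSR, hRB, hRc⟩ := exists_DRing (Ab_DRing τ (Pi.basisFun ℂ (Fin g)) Ω) hSB
    ((Set.countable_range μ).insert G)
  have hU : {t : ℂ | (G (γ t) = 0 ∧ ∃ c : ℂ, fderiv ℂ G (γ t) = c • lam) ∧ AnalyticAt ℂ γ t ∧
      deriv γ t ≠ 0 ∧ γ t ∈ Ω} ∈ 𝓝 (0 : ℂ) :=
    h.and (hγ.eventually_analyticAt.and ((hγ.deriv.continuousAt.eventually_ne hd).and
      (hγ.continuousAt.eventually (hΩo.mem_nhds hΩ0))))
  obtain ⟨t₀, ht₀, hgen⟩ := generic_point (R := (fun (f : EE g → ℂ) (t : ℂ) => f (γ t)) '' R)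
    (hRc.image _) hU (by
      rintro _ ⟨f, hf, rfl⟩ t ht
      exact (hR.an f hf _ ht.2.2.2).comp ht.2.1)
  obtain ⟨⟨hG0, c₀, hc₀⟩, hγ₀, hd₀, hq⟩ := interior_subset ht₀
  obtain ⟨r, H, hH, hs, hcut⟩ := gen (Pi.basisFun ℂ (Fin g)) hR hq
  have hHa : AnalyticAt ℂ (fun x j => H j x) (γ t₀) :=
    AnalyticAt.pi fun j => hR.an _ (hH j).1 _ hq
  have hvan : ∀ᶠ t in 𝓝 t₀, (fun j => H j (γ t)) = 0 := by
    have : ∀ᶠ t in 𝓝 t₀, ∀ j, H j (γ t) = 0 :=
      eventually_all.mpr fun j => hgen _ ⟨H j, (hH j).1, rfl⟩ (hH j).2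
    exact this.mono fun t ht => funext ht
  have hker : fderiv ℂ (fun x j => H j x) (γ t₀) (deriv γ t₀) = 0 := by
    have e1 := hHa.differentiableAt.hasFDerivAt.comp_hasDerivAt t₀
      hγ₀.differentiableAt.hasDerivAt
    have e2 : HasDerivAt ((fun x j => H j x) ∘ γ) 0 t₀ :=
      (hasDerivAt_const t₀ (0 : Fin r → ℂ)).congr_of_eventuallyEq hvan
    exact e1.unique e2
  have hr : r < g := xdisc_lt hs hd₀ hker
  obtain ⟨f, hf, hfH, hb⟩ := Ab_extend hτ (γ t₀) H
    (fun j => ⟨hRB (hH j).1 _ hq, (hH j).2⟩) hs hr.le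
  refine curve_not_simple hτ hf hb ⟨r, hr⟩ (hΩs _ hq).1.analyticAt hl ?_
  have hGc := hcut G (hSR (Set.mem_insert _ _)) hG0
  have hμc : ∀ᶠ x in 𝓝 (γ t₀), ∀ ij, (∀ j, H j x = 0) → μ ij x = 0 := by
    refine eventually_all.mpr fun ij =>
      hcut (μ ij) (hSR (Set.mem_insert_of_mem _ ⟨ij, rfl⟩)) ?_
    simp only [hμ, dv_apply, hc₀, smul_apply, smul_eq_mul]
    ring
  filter_upwards [hGc, hμc, hΩo.mem_nhds hq] with z h1 h2 h3 hz
  have hH0 : ∀ j, H j z = 0 := by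
    intro j
    rw [← hfH j]
    refine hz _ fun e => ?_
    have := congrArg Fin.val e
    have hj := j.2
    simp only [Fin.val_castLE] at this
    omega
  exact ⟨h1 hH0, xdisc_prop hl (hΩs z h3).2 fun i j => h2 (i, j) hH0⟩

end Pool.Agent.MP_f58063_ag

end
end

section

open Complex Filter Topology Function

noncomputable section

namespace Pool.Agent.MP_f58063_ag

variable {g : ℕ} {τ : Mat g}

/-- the action on a fixed vector, as a linear map -/
def xlinT (e : EE g) : Mat g →L[ℂ] EE g :=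
  LinearMap.toContinuousLinearMap
    { toFun := fun A => mv A e
      map_add' := fun A B => funext fun i => by simp [mv, add_mul, Finset.sum_add_distrib]
      map_smul' := fun c A => funext fun i => by simp [mv, Finset.mul_sum, mul_assoc] }

lemma xlinT_apply (e : EE g) (A : Mat g) : xlinT e A = mv A e := rfl

lemma xlin_proj {X : Type} [NormedAddCommGroup X] [NormedSpace ℂ X] {lam : X → EE g} {s : X}
    (h : AnalyticAt ℂ lam s) {i : Fin g} (hi : lam s i ≠ 0) {a : ℂ} {w : X}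
    (hw : a • lam s + fderiv ℂ lam s w = 0) :
    fderiv ℂ (fun x => (lam x i)⁻¹ • lam x) s w = 0 := by
  have h1 : AnalyticAt ℂ (fun x => lam x i) s := analyticAt_pi_iff.1 h i
  have h2 : AnalyticAt ℂ (fun x => (lam x i)⁻¹ • lam x) s := (h1.inv hi).smul h
  have h3 : HasFDerivAt (fun x => lam x i)
      ((ContinuousLinearMap.proj i : EE g →L[ℂ] ℂ).comp (fderiv ℂ lam s)) s :=
    (ContinuousLinearMap.proj i : EE g →L[ℂ] ℂ).hasFDerivAt.comp s h.differentiableAt.hasFDerivAt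
  have h4 := h3.smul h2.differentiableAt.hasFDerivAt
  have h5 : lam =ᶠ[𝓝 s] (fun x => lam x i) • fun x => (lam x i)⁻¹ • lam x := by
    filter_upwards [h1.continuousAt.eventually_ne hi] with x hx
    simp [smul_smul, hx]
  have h6 := congrArg (fun T => T w) (h4.congr_of_eventuallyEq h5).fderiv
  have h7 : fderiv ℂ lam s w = (-a) • lam s := by
    rw [neg_smul]; exact eq_neg_of_add_eq_zero_right hw
  simp only [_root_.add_apply, _root_.smul_apply,
    ContinuousLinearMap.smulRight_apply, ContinuousLinearMap.comp_apply,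
    ContinuousLinearMap.proj_apply, h7, Pi.smul_apply, smul_eq_mul, smul_smul] at h6
  rw [mul_assoc, mul_inv_cancel₀ hi, mul_one] at h6
  exact (smul_eq_zero.1 (add_eq_right.1 h6.symm)).resolve_left hi

lemma xlin_G {η f : EE g → ℂ} {x : EE g} (hη : AnalyticAt ℂ η x) (hf : AnalyticAt ℂ f x)
    (L : List (Fin g)) (h : ∀ L' : List (Fin g), L'.length ≤ L.length + 1 → dI L' f x = 0)
    (e : EE g) :
    ∑ j, e j * dI (j :: L) (fun z => η z * f z) x = 0 ∧
      ∀ v, fderiv ℂ (fun y => ∑ j, e j * dI (j :: L) (fun z => η z * f z) y) x v =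
        η x * ∑ i, v i * ∑ j, dI (i :: j :: L) f x * e j := by
  have hm := dI_mul_unit hη hf (m := L.length + 2) (fun L' hL' => h L' (by omega))
  refine ⟨Finset.sum_eq_zero fun j _ => ?_, fun v => ?_⟩
  · rw [hm _ (by simp), h _ (by simp), mul_zero, mul_zero]
  · have h1 : ∀ j, HasFDerivAt (fun y => e j * dI (j :: L) (fun z => η z * f z) y)
        (e j • fderiv ℂ (dI (j :: L) (fun z => η z * f z)) x) x := fun j =>
      (analyticAt_dI (hη.mul hf) (j :: L)).differentiableAt.hasFDerivAt.const_mul (e j)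
    rw [(HasFDerivAt.fun_sum fun j _ => h1 j).fderiv, _root_.sum_apply]
    simp only [_root_.smul_apply, smul_eq_mul, Finset.mul_sum]
    rw [Finset.sum_comm]
    refine Finset.sum_congr rfl fun j _ => ?_
    rw [fderiv_eq_sum, Finset.mul_sum]
    refine Finset.sum_congr rfl fun i _ => ?_
    rw [← dI_cons, hm _ (by simp)]
    ring

/-- the map `s ↦ [Q s e]` is generically an immersion -/
theorem lin (hτ : τ ∈ Siegel g) (hs : IsSimple τ) {k : ℕ} {γ : (Fin k → ℂ) → EE g}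
    (hγ : AnalyticAt ℂ γ 0) (hi : Injective (fderiv ℂ γ 0)) (L : List (Fin g))
    (hv : ∀ᶠ s in 𝓝 0, ∀ L' : List (Fin g), L'.length ≤ L.length + 1 →
      dI L' (theta τ) (γ s) = 0)
    {Q : (Fin k → ℂ) → Mat g} (hQ : ∀ s i j, Q s i j = dI (i :: j :: L) (theta τ) (γ s))
    (e : EE g) (hne : ¬ ∀ᶠ s in 𝓝 0, mv (Q s) e = 0) :
    ∃ᶠ s in 𝓝 0, ∀ (a : ℂ) (w : Fin k → ℂ),
      a • mv (Q s) e + mv (fderiv ℂ Q s w) e = 0 → a = 0 ∧ w = 0 := by
  intro hc
  have hθ := theta_analytic (Siegel_sub hτ)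
  have hi' : ∀ᶠ s in 𝓝 0, Injective (fderiv ℂ γ s) :=
    hγ.fderiv.continuousAt.eventually (ContinuousLinearMap.isOpen_injective.mem_nhds hi)
  have hP := (hγ.eventually_analyticAt.and (hi'.and (hv.and hc))).eventually_nhds
  obtain ⟨s1, hs1, h1⟩ := ((not_eventually.1 hne).and_eventually hP).exists
  obtain ⟨i0, hi0⟩ : ∃ i0, mv (Q s1) e i0 ≠ 0 := by
    by_contra h
    push Not at h
    exact hs1 (funext h)
  have hQa : ∀ s, AnalyticAt ℂ γ s → AnalyticAt ℂ Q s := fun s h =>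
    analyticAt_pi_iff.2 fun i => analyticAt_pi_iff.2 fun j => by
      simp only [hQ]
      exact (analyticAt_dI (hθ _) _).comp h
  have hl : ∀ s, AnalyticAt ℂ γ s → AnalyticAt ℂ (fun s => mv (Q s) e) s := fun s h =>
    ((xlinT e).analyticAt _).comp (hQa s h)
  have hd : ∀ s, AnalyticAt ℂ γ s → ∀ w,
      fderiv ℂ (fun s => mv (Q s) e) s w = mv (fderiv ℂ Q s w) e := fun s h w => by
    have h2 : HasFDerivAt (fun s => mv (Q s) e) ((xlinT e).comp (fderiv ℂ Q s)) s :=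
      (xlinT e).hasFDerivAt.comp s (hQa s h).differentiableAt.hasFDerivAt
    rw [h2.fderiv]
    rfl
  have hl1 := hl s1 h1.self_of_nhds.1
  have hl0 : AnalyticAt ℂ (fun s => mv (Q s) e i0) s1 := analyticAt_pi_iff.1 hl1 i0
  have h2 := h1.and (hl0.continuousAt.eventually_ne hi0)
  obtain ⟨κ, hκ0, hκ, hκd, hκf⟩ := fibre_curve
    (f := fun s => (mv (Q s) e i0)⁻¹ • mv (Q s) e) ((hl0.inv hi0).smul hl1) (by
      filter_upwards [h2] with s ⟨⟨ha, _, _, hw⟩, h0⟩ hinj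
      refine hw fun a w haw => ?_
      have h3 := xlin_proj (hl s ha) h0 (a := a) (w := w) (by rw [hd s ha]; exact haw)
      have h4 : w = 0 := hinj (h3.trans (map_zero _).symm)
      refine ⟨?_, h4⟩
      rw [h4, map_zero, ← xlinT_apply e 0, map_zero, add_zero] at haw
      exact (smul_eq_zero.1 haw).resolve_right fun h => h0 (by rw [h]; rfl)) h2.eventually_nhds
  have h3 := hκ.continuousAt.eventually hκ0
  obtain ⟨⟨ha, hinj, hv0, -⟩, h0⟩ := h3.self_of_nhds
  have hδ : AnalyticAt ℂ (γ ∘ κ) 0 := ha.comp hκ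
  have hδd : deriv (γ ∘ κ) 0 ≠ 0 := by
    rw [(ha.differentiableAt.hasFDerivAt.comp_hasDerivAt 0 hκ.differentiableAt.hasDerivAt).deriv]
    exact fun h => hκd (hinj (h.trans (map_zero _).symm))
  obtain ⟨η, hη, hη0, hA⟩ := theta_unit hτ ((γ ∘ κ) 0)
  have hmv : ∀ s i, ∑ j, dI (i :: j :: L) (theta τ) (γ s) * e j = mv (Q s) e i := fun s i => by
    simp only [mv, hQ]
  refine disc_not_simple hτ hδ hδd
    (G := fun y => ∑ j, e j * dI (j :: L) (fun z => η z * theta τ z) y)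
    (Ab.sum _ fun j _ => (Ab.const τ _ (e j)).mul (hA.dI _)) (fun h => ?_)
    (lam := ∑ i, ((mv (Q (κ 0)) e i0)⁻¹ • mv (Q (κ 0)) e) i •
      (ContinuousLinearMap.proj i : EE g →L[ℂ] ℂ)) ?_ hs
  · have h4 := (xlin_G hη (hθ _) L hv0 e).2 (ee i0)
    rw [h] at h4
    simp only [Function.comp_apply, hmv, Pi.single_apply, ite_mul, one_mul, zero_mul,
      Finset.sum_ite_eq', Finset.mem_univ, if_true, _root_.zero_apply] at h4
    exact mul_ne_zero hη0 h0 h4.symm
  · filter_upwards [h3, hκf, hδ.continuousAt.eventually hη.eventually_analyticAt]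
      with t ⟨⟨_, _, hvt, _⟩, h0t⟩ hft hηt
    obtain ⟨h4, h5⟩ := xlin_G hηt (hθ _) L hvt e
    refine ⟨h4, η (γ (κ t)) * mv (Q (κ t)) e i0, ContinuousLinearMap.ext fun v => ?_⟩
    rw [h5 v, ← hft]
    simp only [Function.comp_apply, hmv, _root_.smul_apply,
      _root_.sum_apply, ContinuousLinearMap.proj_apply, Pi.smul_apply, smul_eq_mul,
      Finset.mul_sum]
    refine Finset.sum_congr rfl fun i _ => ?_
    field_simp

end Pool.Agent.MP_f58063_ag

end
end

section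

open Complex Filter Topology Function

noncomputable section

namespace Pool.Agent.MP_f58063_ag

/-- the real linear period map -/
def xslP {g : ℕ} (τ : Mat g) : (Fin g → ℝ) × (Fin g → ℝ) →ₗ[ℝ] EE g where
  toFun x := fun i => (x.1 i : ℂ) + ∑ j, τ i j * x.2 j
  map_add' x y := by
    funext i
    simp only [Prod.fst_add, Prod.snd_add, Pi.add_apply, ofReal_add, mul_add,
      Finset.sum_add_distrib]
    ring
  map_smul' c x := by
    funext i
    simp only [Prod.smul_fst, Prod.smul_snd, Pi.smul_apply, smul_eq_mul, ofReal_mul,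
      RingHom.id_apply, real_smul, mul_add, Finset.mul_sum]
    congr 1
    exact Finset.sum_congr rfl fun j _ => by ring

/-- integer vectors as real vectors -/
def xslc {g : ℕ} (l : (Fin g → ℤ) × (Fin g → ℤ)) : (Fin g → ℝ) × (Fin g → ℝ) :=
  (fun i => l.1 i, fun i => l.2 i)

lemma xsl_per {g : ℕ} (τ : Mat g) (l : (Fin g → ℤ) × (Fin g → ℤ)) :
    xslP τ (xslc l) = per τ l.1 l.2 := by
  funext i
  simp [xslP, xslc, per]

lemma xsl_inj {g : ℕ} {τ : Mat g} (h : τ ∈ Siegel g) : Injective (xslP τ) := by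
  rw [injective_iff_map_eq_zero]
  intro x hx
  have h1 : ∀ i, (x.1 i : ℂ) + ∑ j, τ i j * x.2 j = 0 := fun i => congrFun hx i
  have h2 : x.2 = 0 := by
    by_contra hne
    refine (h.2 _ hne).ne' (Finset.sum_eq_zero fun i _ => ?_)
    have := congrArg Complex.im (h1 i)
    simp only [add_im, ofReal_im, im_sum, mul_im, ofReal_re, mul_zero, zero_add, zero_im] at this
    simp only [mul_assoc, ← Finset.mul_sum, this, mul_zero]
  refine Prod.ext (funext fun i => ?_) h2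
  simpa [h2] using h1 i

lemma xsl_det {g a : ℕ} {τ₀ : Mat g} (l : Fin a → (Fin g → ℤ) × (Fin g → ℤ))
    (h : LinearIndependent ℂ fun i => per τ₀ (l i).1 (l i).2) :
    ∃ f : Mat g → ℂ, ((∀ τ, AnalyticAt ℂ f τ) ∧ f τ₀ ≠ 0) ∧
      ∀ τ, f τ ≠ 0 → LinearIndependent ℂ fun i => per τ (l i).1 (l i).2 := by
  obtain ⟨α, hα⟩ := (Fintype.linearCombination ℂ fun i => per τ₀ (l i).1 (l i).2)
    |>.exists_leftInverse_of_injective
      (LinearMap.ker_eq_bot.2 (linearIndependent_iff_injective_fintypeLinearCombination.1 h))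
  refine ⟨fun τ => (Matrix.of fun i j => α (per τ (l i).1 (l i).2) j).det, ⟨fun τ => ?_, ?_⟩,
    fun τ hτ => ?_⟩
  · simp only [Matrix.det_apply', Matrix.of_apply]
    refine Finset.analyticAt_fun_sum _ fun σ _ => analyticAt_const.mul
      (Finset.analyticAt_fun_prod _ fun i _ => ?_)
    have h1 : AnalyticAt ℂ (fun τ : Mat g => per τ (l (σ i)).1 (l (σ i)).2) τ := by
      refine AnalyticAt.pi fun k => analyticAt_const.add
        (Finset.analyticAt_fun_sum _ fun j _ => AnalyticAt.mul ?_ analyticAt_const)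
      exact ((ContinuousLinearMap.proj (R := ℂ) (φ := fun _ : Fin g => ℂ) j).comp
        (ContinuousLinearMap.proj (R := ℂ) (φ := fun _ : Fin g => Fin g → ℂ) k)).analyticAt τ
    exact (((ContinuousLinearMap.proj (R := ℂ) (φ := fun _ : Fin a => ℂ) i).comp
      (LinearMap.toContinuousLinearMap α)).analyticAt _).comp h1
  · have : (Matrix.of fun i j => α (per τ₀ (l i).1 (l i).2) j) = 1 := by
      ext i j
      have := LinearMap.congr_fun hα (Pi.single i 1)
      rw [LinearMap.comp_apply, Fintype.linearCombination_apply_single, one_smul] at this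
      rw [Matrix.of_apply, this, Matrix.one_apply, LinearMap.id_apply, Pi.single_apply]
      simp only [eq_comm]
    simp only [this, Matrix.det_one]
    exact one_ne_zero
  · exact LinearIndependent.of_comp α (Matrix.linearIndependent_rows_of_det_ne_zero hτ)

lemma xsl_rank {g : ℕ} (F : Submodule ℂ (EE g)) :
    Module.finrank ℝ (F.restrictScalars ℝ) = 2 * Module.finrank ℂ F := by
  rw [← finrank_real_complex, Module.finrank_mul_finrank ℝ ℂ F]
  rfl

/-- simplicity holds off countably many hypersurfaces -/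
theorem simple_locus {g : ℕ} {τ₀ : Mat g} (h0 : τ₀ ∈ Siegel g) (hs : IsSimple τ₀) :
    ∃ δ : Set (Mat g → ℂ), δ.Countable ∧ (∀ f ∈ δ, (∀ τ, AnalyticAt ℂ f τ) ∧ f τ₀ ≠ 0) ∧
      ∀ τ ∈ Siegel g, (∀ f ∈ δ, f τ ≠ 0) → IsSimple τ := by
  choose f hf1 hf2 using fun x : Σ a : ℕ, {l : Fin a → (Fin g → ℤ) × (Fin g → ℤ) //
    LinearIndependent ℂ fun i => per τ₀ (l i).1 (l i).2} => xsl_det x.2.1 x.2.2
  refine ⟨Set.range f, Set.countable_range f, ?_, fun τ hτ hδ F hF => ?_⟩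
  · rintro _ ⟨x, rfl⟩
    exact hf1 x
  set S : Set ((Fin g → ℤ) × (Fin g → ℤ)) := {l | per τ l.1 l.2 ∈ F} with hS
  set W := Submodule.span ℝ (xslc '' S) with hW
  have hmap : ∀ σ : Mat g, W.map (xslP σ) = Submodule.span ℝ ((fun l => per σ l.1 l.2) '' S) := by
    intro σ
    rw [hW, Submodule.map_span, Set.image_image]
    simp only [xsl_per]
  have hrk : ∀ σ ∈ Siegel g, Module.finrank ℝ (W.map (xslP σ)) = Module.finrank ℝ W :=
    fun σ hσ => (W.equivMapOfInjective _ (xsl_inj hσ)).finrank_eq.symm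
  have e1 : W.map (xslP τ) = F.restrictScalars ℝ := by
    rw [hmap]
    refine le_antisymm (Submodule.span_le.2 ?_) fun v hv => Submodule.span_mono ?_ (hF hv)
    · rintro _ ⟨l, hl, rfl⟩
      exact hl
    · rintro _ ⟨⟨m, n, rfl⟩, h⟩
      exact ⟨(m, n), h, rfl⟩
  set F₀ := Submodule.span ℂ ((fun l => per τ₀ l.1 l.2) '' S) with hF₀
  have r1 : Module.finrank ℂ F₀ ≤ Module.finrank ℂ F := by
    obtain ⟨v, v1, -, v3⟩ := Submodule.exists_fun_fin_finrank_span_eq ℂ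
      ((fun l => per τ₀ l.1 l.2) '' S)
    choose l l1 l2 using v1
    obtain rfl : v = fun i => per τ₀ (l i).1 (l i).2 := funext fun i => (l2 i).symm
    have h1 := hf2 ⟨_, l, v3⟩ τ (hδ _ ⟨_, rfl⟩)
    have h2 : LinearIndependent ℂ fun i => (⟨per τ (l i).1 (l i).2, l1 i⟩ : F) :=
      LinearIndependent.of_comp F.subtype h1
    simpa using h2.fintype_card_le_finrank
  have le : W.map (xslP τ₀) ≤ F₀.restrictScalars ℝ := by
    rw [hmap]
    exact Submodule.span_le.2 Submodule.subset_span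
  have r2 := Submodule.finrank_mono le
  have r3 := hrk τ hτ
  rw [e1, xsl_rank] at r3
  have e2 : W.map (xslP τ₀) = F₀.restrictScalars ℝ :=
    Submodule.eq_of_le_of_finrank_le le (by
      rw [hrk τ₀ h0, xsl_rank, ← r3]
      exact Nat.mul_le_mul_left 2 r1)
  rw [hrk τ₀ h0, xsl_rank, ← r3] at r2
  have r4 : Module.finrank ℂ F = Module.finrank ℂ F₀ :=
    le_antisymm (Nat.le_of_mul_le_mul_left r2 two_pos) r1
  have := hs F₀ fun v hv => by
    have h1 : v ∈ W.map (xslP τ₀) := e2 ▸ hv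
    rw [hmap] at h1
    refine Submodule.span_mono ?_ h1
    rintro _ ⟨l, hl, rfl⟩
    exact ⟨⟨l.1, l.2, rfl⟩, Submodule.subset_span ⟨l, hl, rfl⟩⟩
  rcases this with h | h
  · rw [h, finrank_bot] at r4
    exact Or.inl (Submodule.finrank_eq_zero.1 r4)
  · rw [h, finrank_top] at r4
    exact Or.inr (Submodule.eq_top_of_finrank_eq r4)

end Pool.Agent.MP_f58063_ag

end
end

section

open Complex Filter Topology Function

noncomputable section

namespace Pool.Agent.MP_f58063_ag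

variable {g : ℕ}

lemma xmain_fderiv_zero {X : Type} [NormedAddCommGroup X] [NormedSpace ℂ X] {f : X → ℂ} {x : X}
    (h : ∀ᶠ y in 𝓝 x, f y = 0) : fderiv ℂ f x = 0 := by
  have : f =ᶠ[𝓝 x] fun _ => 0 := h
  rw [this.fderiv_eq]
  simp

/-- the bound at one point, from a disc of singular points whose quadrics are apolar to `S` -/
lemma xmain_fibre {τ : Mat g} (hτ : τ ∈ Siegel g) (hs : IsSimple τ) {k : ℕ}
    {γ : (Fin k → ℂ) → EE g} (hγ : AnalyticAt ℂ γ 0) (hi : Injective (fderiv ℂ γ 0))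
    (h0 : γ 0 ∈ singTheta τ)
    (hv : ∀ L : List (Fin g), dI L (theta τ) (γ 0) = 0 → ∀ᶠ s in 𝓝 0, dI L (theta τ) (γ s) = 0)
    (S : Submodule ℂ (Mat g)) (hS : ∀ A ∈ S, ∀ i j, A i j = A j i)
    (hp : ∀ L : List (Fin g), dI L (theta τ) (γ 0) = 0 → (∀ i, dI (i :: L) (theta τ) (γ 0) = 0) →
      ∀ᶠ s in 𝓝 0, ∀ A ∈ S, ∑ i, ∑ j, A i j * dI (i :: j :: L) (theta τ) (γ s) = 0) :
    Module.finrank ℂ S + ∑ j ∈ Finset.range (k + 1), (k + 1 - j * (g - k)) ≤ g * (g + 1) / 2 := by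
  classical
  have han := theta_analytic (Siegel_sub hτ)
  have hex : ∃ m, ∃ L : List (Fin g), L.length = m ∧ dI L (theta τ) (γ 0) ≠ 0 := by
    by_contra hc
    push Not at hc
    obtain ⟨z, hz⟩ := theta_ne (Siegel_sub hτ)
    exact hz (congrFun (entire_zero han (zero_of_dI (han _) fun L => hc _ L rfl)) z)
  obtain ⟨L₀, hL₀, hne⟩ := Nat.find_spec hex
  have hmin : ∀ L : List (Fin g), L.length < L₀.length → dI L (theta τ) (γ 0) = 0 := by
    intro L hL
    by_contra hc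
    exact Nat.find_min hex (hL₀ ▸ hL) ⟨L, rfl, hc⟩
  obtain _ | ⟨i₀, _ | ⟨j₀, L⟩⟩ := L₀
  · exact absurd h0.1 hne
  · exact absurd (by simp [dv_apply, h0.2]) hne
  let Q : (Fin k → ℂ) → Mat g := fun s i j => dI (i :: j :: L) (theta τ) (γ s)
  have hv' : ∀ᶠ s in 𝓝 0, ∀ L' : List (Fin g), L'.length ≤ L.length + 1 →
      dI L' (theta τ) (γ s) = 0 :=
    (eventually_all_finite (List.finite_length_le (Fin g) (L.length + 1))).2 fun L' hL' =>
      hv L' (hmin L' (by simpa [Nat.lt_succ_iff] using hL'))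
  have hsym : ∀ s i j, Q s i j = Q s j i := fun s i j =>
    dv_comm (analyticAt_dI (han _) L) _ _
  refine chain (Q := Q) hγ hi ?_ (Eventually.of_forall hsym) ?_ ?_
    (fun e => lin hτ hs hγ hi L hv' (fun _ _ _ => rfl) e) S hS
    (hp L (hmin L (by simp)) fun i => hmin _ (by simp))
  · exact analyticAt_pi_iff.2 fun i => analyticAt_pi_iff.2 fun j =>
      (analyticAt_dI (han _) _).comp hγ
  · filter_upwards [hv'.eventually_nhds, hγ.eventually_analyticAt] with s h1 h2 w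
    funext j
    have h3 : fderiv ℂ (fun s => dI (j :: L) (theta τ) (γ s)) s = 0 :=
      xmain_fderiv_zero (h1.mono fun s' h => h _ (by simp))
    have h4 := ((analyticAt_dI (han (γ s)) (j :: L)).differentiableAt.hasFDerivAt.comp s
      h2.differentiableAt.hasFDerivAt).fderiv
    have h5 : fderiv ℂ (dI (j :: L) (theta τ)) (γ s) (fderiv ℂ γ s w) = 0 := by
      have := congrArg (fun A => A w) (h4.symm.trans h3)
      simpa using this
    rw [fderiv_eq_sum] at h5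
    rw [Pi.zero_apply, ← h5]
    exact Finset.sum_congr rfl fun i _ => by rw [hsym, mul_comm]; rfl
  · intro hQ
    exact hne (congrFun (congrFun hQ i₀) j₀)

theorem main {k d : ℕ} {τ₀ : Mat g} (hs : IsSimple τ₀) (hd : DimGE (AM g k) τ₀ d) :
    d + ∑ j ∈ Finset.range (k + 1), (k + 1 - j * (g - k)) ≤ g * (g + 1) / 2 := by
  obtain ⟨ψ, hψ0, hψ, hinj, hAM⟩ := hd
  obtain ⟨δ, hδc, hδ, hδs⟩ := simple_locus (hψ0 ▸ hAM.self_of_nhds.1) hs
  obtain ⟨ε, hε, hB⟩ := Metric.eventually_nhds_iff_ball.1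
    (hAM.and (hψ.eventually_analyticAt.and (eventually_inj hψ hinj)))
  set B := Metric.ball (0 : Fin d → ℂ) ε with hBdef
  have hBo : IsOpen B := Metric.isOpen_ball
  have hG := residual_ne (R := (fun f x => f (ψ x)) '' δ) (hδc.image _) hBo
    (convex_ball _ _).isPreconnected (by
      rintro _ ⟨f, hf, rfl⟩
      exact ⟨fun x hx => ((hδ f hf).1 _).comp (hB x hx).2.1,
        0, Metric.mem_ball_self hε, by simpa [hψ0] using (hδ f hf).2⟩)
  let F₀ : (Fin d → ℂ) × EE g → ℂ := fun p => Theta g (ψ p.1, p.2)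
  have hΨ : ∀ x ∈ B, ∀ z : EE g,
      AnalyticAt ℂ (fun p : (Fin d → ℂ) × EE g => (ψ p.1, p.2)) (x, z) := fun x hx z =>
    (AnalyticAt.comp (g := ψ) (hB x hx).2.1 analyticAt_fst).prod analyticAt_snd
  have hTh : ∀ x ∈ B, ∀ z, AnalyticAt ℂ (Theta g) (ψ x, z) := fun x hx z =>
    Theta_analytic (Siegel_sub (hB x hx).1.1) z
  have hF₀ : ∀ x ∈ B, ∀ z, AnalyticAt ℂ F₀ (x, z) := fun x hx z =>
    AnalyticAt.comp (g := Theta g) (hTh x hx z) (hΨ x hx z)
  let b := (Pi.basisFun ℂ (Fin d)).prod (Pi.basisFun ℂ (Fin g))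
  obtain ⟨R, hR, hFR, -, hRc⟩ := exists_DRing (S := {F₀}) (DRing_all b (B ×ˢ Set.univ))
    (Set.singleton_subset_iff.2 fun p hp => hF₀ p.1 hp.1 p.2) (Set.countable_singleton _)
  let F : List (Fin g) → (Fin d → ℂ) × EE g → ℂ := fun L =>
    dd (L.map fun i => ((0 : Fin d → ℂ), ee i)) F₀
  have hF : ∀ L, F L ∈ R := by
    intro L
    induction L with
    | nil => exact hFR rfl
    | cons i L ih =>
      have h1 := hR.dv _ ih (Sum.inr i)
      have h2 : b (Sum.inr i) = (0, ee i) := by simp [b]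
      rwa [h2] at h1
  have hFv : ∀ x ∈ B, ∀ z L, F L (x, z) = dI L (theta (ψ x)) z := fun x hx z L =>
    dd_slice (hF₀ x hx z) L
  obtain ⟨x, ⟨hx, hxG⟩, γ, hγ, hγi, hγS, hsel⟩ := sel (k := k) hBo ⟨0, Metric.mem_ball_self hε⟩ b
    hR hRc {p | p.2 ∈ singTheta (ψ p.1)} (fun x hx => by
      obtain ⟨z, γ, -, h1, h2, h3⟩ := (hB x hx).1.2
      exact ⟨γ, h1, h2, h3⟩) hG
  have hτ := (hB x hx).1.1
  have hsx : IsSimple (ψ x) := hδs _ hτ fun f hf => hxG hx _ ⟨f, hf, rfl⟩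
  have hψx := (hB x hx).2.1.differentiableAt.hasFDerivAt
  have hrk : Module.finrank ℂ (LinearMap.range (fderiv ℂ ψ x).toLinearMap) = d := by
    rw [LinearMap.finrank_range_of_inj (hB x hx).2.2, Module.finrank_fin_fun]
  rw [← hrk]
  refine xmain_fibre hτ hsx hγ hγi hγS.self_of_nhds (fun L hL => ?_) _ ?_ (fun L hL hL' => ?_)
  · refine (hsel _ (hF L) (by rw [hFv x hx, hL])).mono fun s h => ?_
    rw [← hFv x hx, h.1]
  · rintro _ ⟨ξ, rfl⟩ i j
    have h1 : ∀ i j, HasFDerivAt (fun y => ψ y i j) (((ContinuousLinearMap.proj j).comp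
        (ContinuousLinearMap.proj (R := ℂ) (φ := fun _ : Fin g => Fin g → ℂ) i)).comp
        (fderiv ℂ ψ x)) x := fun i j =>
      ((ContinuousLinearMap.proj j).comp
        (ContinuousLinearMap.proj (R := ℂ) (φ := fun _ : Fin g => Fin g → ℂ) i)).hasFDerivAt.comp
        x hψx
    have h2 : (fun y => ψ y i j) =ᶠ[𝓝 x] fun y => ψ y j i :=
      (hBo.eventually_mem hx).mono fun y hy => (hB y hy).1.1.1 i j
    exact congrArg (fun A => A ξ) ((h1 i j).unique ((h1 j i).congr_of_eventuallyEq h2))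
  · have h1 := hsel _ (hF L) (by rw [hFv x hx, hL])
    have h2 := eventually_all.2 fun i => hsel _ (hF (i :: L)) (by rw [hFv x hx, hL' i])
    filter_upwards [h1, h2] with s h1 h2
    rintro _ ⟨ξ, rfl⟩
    obtain ⟨ζ, hζ⟩ := h1.2 ξ
    have h3 : fderiv ℂ (F L) (x, γ s) (0, ζ) = 0 := by
      have : ((0 : Fin d → ℂ), ζ) = ∑ i, ζ i • ((0 : Fin d → ℂ), ee i) := by
        ext i
        · simp [Prod.fst_sum]
        · simp [Prod.snd_sum, Pi.single_apply]
      rw [this, map_sum]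
      refine Finset.sum_eq_zero fun i _ => ?_
      rw [map_smul]
      exact smul_eq_zero_of_right _ (h2 i).1
    have h4 : fderiv ℂ (F L) (x, γ s) (ξ, 0) = 0 := by
      have : ((ξ, ζ) : (Fin d → ℂ) × EE g) = (ξ, 0) + (0, ζ) := by simp
      rwa [this, map_add, h3, add_zero] at hζ
    have h5 := (dd_vert (hB x hx).2.1 (hTh x hx (γ s)) L).fderiv_eq (𝕜 := ℂ)
    have h6 : HasFDerivAt (fun p : (Fin d → ℂ) × EE g => (ψ p.1, p.2))
        (((fderiv ℂ ψ x).comp (ContinuousLinearMap.fst ℂ _ _)).prod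
          (ContinuousLinearMap.snd ℂ _ _)) (x, γ s) :=
      (HasFDerivAt.comp (g := ψ) (x, γ s) hψx hasFDerivAt_fst).prodMk hasFDerivAt_snd
    have h7 := (HasFDerivAt.comp (x, γ s) (analyticAt_dd (hTh x hx (γ s))
      (L.map fun i => ((0 : Mat g), ee i))).differentiableAt.hasFDerivAt h6).fderiv
    have h8 : fderiv ℂ (dd (L.map fun i => ((0 : Mat g), ee i)) (Theta g)) (ψ x, γ s)
        (fderiv ℂ ψ x ξ, 0) = 0 := by
      rw [← h4]
      exact (congrArg (fun A => A (ξ, 0)) (h5.trans h7)).symm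
    rw [heat (Siegel_sub hτ)] at h8
    refine (mul_eq_zero.1 h8).resolve_left (inv_ne_zero ?_)
    exact mul_ne_zero (mul_ne_zero (by norm_num) (ofReal_ne_zero.2 Real.pi_ne_zero)) I_ne_zero

end Pool.Agent.MP_f58063_ag

end
end
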