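import Pool.Agent.Mg.Fcf0a82q.G3d2c3a
import Pool.Agent.Mg.Fcf0a82q.Ge1829e
import Pool.Agent.Mg.Fcf0a82q.G61e4ec
import Pool.Agent.Mg.Fcf0a82q.G7c9b0d
import Pool.Agent.Mg.Fcf0a82q.G860694
import Pool.Agent.Mg.Fcf0a82q.G2c0f22
import Pool.Agent.Mg.Fcf0a82q.Ga9bf1b
import Pool.Agent.Mg.Fcf0a82q.G43b963
import Pool.Agent.Mg.Fcf0a82q.G6a582e

section

open Complex Filter Topology Matrix Function

noncomputable section

namespace Pool.Agent.MP_f58063_ag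

open Polynomial in
theorem xsba1_an (P : Polynomial (Polynomial ℂ)) (u : ℂ × ℂ) :
    AnalyticAt ℂ (fun v : ℂ × ℂ => P.evalEval v.1 v.2) u := by
  induction P using Polynomial.induction_on' with
  | add p q hp hq =>
    simp only [evalEval_add]
    exact hp.add hq
  | monomial n a =>
    simp only [← C_mul_X_pow_eq_monomial, evalEval_mul, evalEval_C, evalEval_pow, evalEval_X]
    exact (AnalyticAt.comp (g := fun x => a.eval x) (a.differentiable.analyticAt _)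
      analyticAt_fst).mul (analyticAt_snd.pow n)

theorem xsba1_an' (P : Polynomial (Polynomial ℂ)) {f : ℂ → ℂ} {t : ℂ} (hf : AnalyticAt ℂ f t) :
    AnalyticAt ℂ (fun s => P.evalEval s (f s)) t :=
  AnalyticAt.comp (g := fun v : ℂ × ℂ => P.evalEval v.1 v.2) (f := fun s => (s, f s))
    (xsba1_an P _) (analyticAt_id.prod hf)

open Polynomial in
theorem xsba1_div {A : Type} [CommRing A] [IsDomain A] {R : A[X]} (hR : 0 < R.natDegree)
    (P : A[X]) : ∃ c : A, c ≠ 0 ∧ ∃ Q S : A[X], C c * P = Q * R + S ∧ S.natDegree < R.natDegree := by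
  have hR0 : R.leadingCoeff ≠ 0 := leadingCoeff_ne_zero.2 fun h => by simp [h] at hR
  induction h : P.natDegree using Nat.strong_induction_on generalizing P with
  | _ n ih =>
    by_cases h1 : P.natDegree < R.natDegree
    · exact ⟨1, one_ne_zero, 0, P, by simp, h1⟩
    · have h2 : R.natDegree ≤ P.natDegree := not_lt.1 h1
      obtain ⟨c, hc, Q, S, e, hS⟩ := ih _ (h ▸ natDegree_cancelLeads_lt_of_natDegree_le_natDegree h2
        (hR.trans_le h2)) (R.cancelLeads P) rfl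
      refine ⟨c * R.leadingCoeff, mul_ne_zero hc hR0,
        Q + C c * (C P.leadingCoeff * X ^ (P.natDegree - R.natDegree)), S, ?_, hS⟩
      rw [cancelLeads, Nat.sub_eq_zero_of_le h2, pow_zero, mul_one] at e
      rw [C_mul]
      linear_combination e

open Polynomial in
theorem xsba1_sep {f : ℂ → ℂ} {t₀ : ℂ} (hf : NashAt f t₀) :
    ∃ P U W : Polynomial (Polynomial ℂ), ∃ r : ℂ[X], P ≠ 0 ∧ r ≠ 0 ∧
      (∀ᶠ s in 𝓝 t₀, P.evalEval s (f s) = 0) ∧ U * P + W * derivative P = C r := by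
  classical
  have h0 : ∃ n, ∃ P : Polynomial (Polynomial ℂ), P ≠ 0 ∧
      (∀ᶠ s in 𝓝 t₀, P.evalEval s (f s) = 0) ∧ P.natDegree = n := by
    obtain ⟨P, h1, h2⟩ := (nash_iff_one hf.1).1 hf
    exact ⟨_, P, h1, h2, rfl⟩
  obtain ⟨P, hP, hPf, hn⟩ := Nat.find_spec h0
  have hmin : ∀ Q : Polynomial (Polynomial ℂ), Q ≠ 0 → (∀ᶠ s in 𝓝 t₀, Q.evalEval s (f s) = 0) →
      P.natDegree ≤ Q.natDegree := fun Q h1 h2 =>
    hn.trans_le (Nat.find_min' h0 ⟨Q, h1, h2, rfl⟩)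
  by_cases hd : P.natDegree = 0
  · have hC := eq_C_of_natDegree_eq_zero hd
    have hc : P.coeff 0 ≠ 0 := fun h => hP (by rw [hC, h, map_zero])
    have he : 1 * P + 0 * derivative P = C (P.coeff 0) := by
      rw [one_mul, zero_mul, add_zero]
      exact hC
    exact ⟨P, 1, 0, P.coeff 0, hP, hc, hPf, he⟩
  have hP' : derivative P ≠ 0 := fun h => hd (derivative_eq_zero.1 h)
  have h1 : ∃ n, ∃ U W : Polynomial (Polynomial ℂ), U * P + W * derivative P ≠ 0 ∧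
      (U * P + W * derivative P).natDegree = n := ⟨_, 0, 1, by simpa using hP', rfl⟩
  obtain ⟨U, W, hR, hm⟩ := Nat.find_spec h1
  have hmin' : ∀ U' W' : Polynomial (Polynomial ℂ), U' * P + W' * derivative P ≠ 0 →
      (U * P + W * derivative P).natDegree ≤ (U' * P + W' * derivative P).natDegree :=
    fun U' W' h => hm.trans_le (Nat.find_min' h1 ⟨U', W', h, rfl⟩)
  set R := U * P + W * derivative P with hRd
  have hR0 : R.natDegree = 0 := by
    by_contra hne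
    obtain ⟨c, hc, Q, S, e, hS⟩ := xsba1_div (Nat.pos_of_ne_zero hne) P
    have hS' : S = (C c - Q * U) * P + (-Q * W) * derivative P := by
      rw [hRd] at e
      linear_combination -e
    have hS0 : S = 0 := by
      by_contra h
      rw [hS'] at h hS
      exact absurd (hmin' _ _ h) (not_le.2 hS)
    rw [hS0, add_zero] at e
    have hQ : Q ≠ 0 := fun h => mul_ne_zero (C_ne_zero.2 hc) hP (by rw [e, h, zero_mul])
    have hdeg : P.natDegree = Q.natDegree + R.natDegree := by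
      rw [← natDegree_mul hQ hR, ← e, natDegree_C_mul hc]
    have hlt : R.natDegree < P.natDegree := by
      have := hmin' 0 1 (by simpa using hP')
      rw [zero_mul, zero_add, one_mul] at this
      exact this.trans_lt (natDegree_derivative_lt hd)
    have hz : ∀ᶠ s in 𝓝 t₀, Q.evalEval s (f s) * R.evalEval s (f s) = 0 := by
      filter_upwards [hPf] with s hs
      rw [← evalEval_mul, ← e, evalEval_mul, hs, mul_zero]
    rcases germ_mul_zero (xsba1_an' Q hf.1) (xsba1_an' R hf.1) hz with h | h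
    · have := hmin Q hQ h
      omega
    · have := hmin R hR h
      omega
  have hC := eq_C_of_natDegree_eq_zero hR0
  have hc : R.coeff 0 ≠ 0 := fun h => hR (by rw [hC, h, map_zero])
  exact ⟨P, U, W, R.coeff 0, hP, hc, hPf, hRd.symm.trans hC⟩

open Polynomial in
theorem xsba1_root (P : Polynomial (Polynomial ℂ)) {t a : ℂ} (h : P.evalEval t a = 0)
    (h' : (derivative P).evalEval t a ≠ 0) :
    ∃ ρ : ℂ → ℂ, AnalyticAt ℂ ρ t ∧ ρ t = a ∧ ∀ᶠ s in 𝓝 t, P.evalEval s (ρ s) = 0 := by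
  have hA := xsba1_an P (t, a)
  have hc : ContDiffAt ℂ ⊤ (fun v : ℂ × ℂ => P.evalEval v.1 v.2) (t, a) :=
    hA.contDiffAt
  have hi : (fderiv ℂ (fun v : ℂ × ℂ => P.evalEval v.1 v.2) (t, a) ∘L
      ContinuousLinearMap.inr ℂ ℂ ℂ).IsInvertible := by
    have h1 : HasFDerivAt (fun y : ℂ => P.evalEval t y)
        (fderiv ℂ (fun v : ℂ × ℂ => P.evalEval v.1 v.2) (t, a) ∘L
          ContinuousLinearMap.inr ℂ ℂ ℂ) a :=
      HasFDerivAt.comp (g := fun v : ℂ × ℂ => P.evalEval v.1 v.2) (f := fun y : ℂ => (t, y)) a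
        hA.differentiableAt.hasFDerivAt (hasFDerivAt_prodMk_right t a)
    have h2 : HasDerivAt (fun y : ℂ => P.evalEval t y) ((derivative P).evalEval t a) a := by
      have := (P.map (evalRingHom t)).hasDerivAt a
      simpa only [derivative_map, map_evalRingHom_eval] using this
    rw [h1.unique h2.hasFDerivAt]
    refine ⟨ContinuousLinearEquiv.unitsEquivAut ℂ (Units.mk0 _ h'), ?_⟩
    ext
    simp
  refine ⟨hc.implicitFunction (by simp) hi,
    (hc.contDiffAt_implicitFunction (by simp) hi).analyticAt,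
    hc.implicitFunction_apply_self (by simp) hi, ?_⟩
  filter_upwards [hc.eventually_apply_implicitFunction (by simp) hi] with s hs
  exact hs.trans h

/-- local branches of an algebraic function -/
theorem alg_branch {f : ℂ → ℂ} {t₀ : ℂ} (hf : NashAt f t₀) :
    ∃ (P : Polynomial (Polynomial ℂ)) (Z : Set ℂ), Z.Finite ∧
      (∀ᶠ s in 𝓝 t₀, P.evalEval s (f s) = 0) ∧ ∀ t ∉ Z, ∃ ε > 0, ∀ t₁ ∈ Metric.ball t ε,
        ∀ φ : ℂ → ℂ, AnalyticAt ℂ φ t₁ → (∀ᶠ s in 𝓝 t₁, P.evalEval s (φ s) = 0) →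
          ∃ ρ : ℂ → ℂ, AnalyticOnNhd ℂ ρ (Metric.ball t ε) ∧ φ =ᶠ[𝓝 t₁] ρ := by
  classical
  obtain ⟨P, U, W, r, hP, hr, hPf, e⟩ := xsba1_sep hf
  have hl : P.leadingCoeff ≠ 0 := Polynomial.leadingCoeff_ne_zero.2 hP
  refine ⟨P, {t | (r * P.leadingCoeff).IsRoot t},
    Polynomial.finite_setOfPred_isRoot (mul_ne_zero hr hl), hPf, fun t ht => ?_⟩
  have ht' : r.eval t ≠ 0 ∧ P.leadingCoeff.eval t ≠ 0 := by
    simpa [Polynomial.IsRoot] using ht
  have hne : ∀ s, P.leadingCoeff.eval s ≠ 0 → P.map (Polynomial.evalRingHom s) ≠ 0 := by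
    intro s hs h
    have := congrArg (fun p => p.coeff P.natDegree) h
    simp only [Polynomial.coeff_map, Polynomial.coeff_natDegree, Polynomial.coeff_zero] at this
    exact hs this
  have hsep : (P.map (Polynomial.evalRingHom t)).Separable := by
    have h1 := congrArg (Polynomial.map (Polynomial.evalRingHom t)) e
    rw [Polynomial.map_add, Polynomial.map_mul, Polynomial.map_mul, ← Polynomial.derivative_map,
      Polynomial.map_C] at h1
    refine ⟨Polynomial.C (r.eval t)⁻¹ * U.map (Polynomial.evalRingHom t),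
      Polynomial.C (r.eval t)⁻¹ * W.map (Polynomial.evalRingHom t), ?_⟩
    rw [mul_assoc, mul_assoc, ← mul_add, h1, ← Polynomial.C_mul]
    simp [ht'.1]
  set A := (P.map (Polynomial.evalRingHom t)).roots.toFinset with hA
  have hcard : A.card = P.natDegree := by
    rw [hA, Multiset.toFinset_card_of_nodup (Polynomial.nodup_roots hsep),
      ← (IsAlgClosed.splits _).natDegree_eq_card_roots,
      Polynomial.natDegree_map_of_leadingCoeff_ne_zero _ ht'.2]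
  have hρ : ∀ a : A, ∃ ρ : ℂ → ℂ, AnalyticAt ℂ ρ t ∧ ρ t = a ∧
      ∀ᶠ s in 𝓝 t, P.evalEval s (ρ s) = 0 := by
    intro a
    have h1 : P.evalEval t a = 0 := by
      have : (a : ℂ) ∈ (P.map (Polynomial.evalRingHom t)).roots.toFinset := a.2
      rw [Multiset.mem_toFinset, Polynomial.mem_roots (hne t ht'.2), Polynomial.IsRoot,
        Polynomial.map_evalRingHom_eval] at this
      exact this
    refine xsba1_root P h1 fun h2 => ht'.1 ?_
    have := congrArg (Polynomial.evalEval t a) e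
    rw [Polynomial.evalEval_add, Polynomial.evalEval_mul, Polynomial.evalEval_mul, h1, h2,
      Polynomial.evalEval_C] at this
    simpa using this.symm
  choose ρ h1 h2 h3 using hρ
  have hev : ∀ᶠ s in 𝓝 t, P.leadingCoeff.eval s ≠ 0 ∧ (∀ a, AnalyticAt ℂ (ρ a) s) ∧
      (∀ a, P.evalEval s (ρ a s) = 0) ∧ ∀ a b, a ≠ b → ρ a s ≠ ρ b s := by
    refine (P.leadingCoeff.continuous.continuousAt.eventually_ne ht'.2).and
      ((eventually_all.2 fun a => (h1 a).eventually_analyticAt).and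
        ((eventually_all.2 h3).and (eventually_all.2 fun a => eventually_all.2 fun b => ?_)))
    by_cases hab : a = b
    · exact Eventually.of_forall fun s h => absurd hab h
    · have : ρ a t ≠ ρ b t := by
        rw [h2, h2]
        exact fun h => hab (Subtype.ext h)
      filter_upwards [((h1 a).continuousAt.sub (h1 b).continuousAt).eventually_ne
        (sub_ne_zero.2 this)] with s hs _ using sub_ne_zero.1 hs
  obtain ⟨ε, hε, hb⟩ := Metric.eventually_nhds_iff_ball.1 hev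
  have hall : ∀ s ∈ Metric.ball t ε, ∀ y, P.evalEval s y = 0 → ∃ a, ρ a s = y := by
    intro s hs y hy
    obtain ⟨k1, -, k3, k4⟩ := hb s hs
    have hm : ∀ z, z ∈ (P.map (Polynomial.evalRingHom s)).roots.toFinset ↔ P.evalEval s z = 0 := by
      intro z
      rw [Multiset.mem_toFinset, Polynomial.mem_roots (hne s k1), Polynomial.IsRoot,
        Polynomial.map_evalRingHom_eval]
    have hi : Function.Injective fun a => ρ a s := fun a b h => by
      by_contra hab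
      exact k4 a b hab h
    have heq : Finset.univ.image (fun a => ρ a s) =
        (P.map (Polynomial.evalRingHom s)).roots.toFinset := by
      refine Finset.eq_of_subset_of_card_le (fun z hz => ?_) ?_
      · obtain ⟨a, -, rfl⟩ := Finset.mem_image.1 hz
        exact (hm _).2 (k3 a)
      · rw [Finset.card_image_of_injective _ hi, Finset.card_univ, Fintype.card_coe, hcard]
        exact (Multiset.toFinset_card_le _).trans
          ((Polynomial.card_roots' _).trans Polynomial.natDegree_map_le)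
    have := (hm y).2 hy
    rw [← heq] at this
    obtain ⟨a, -, h⟩ := Finset.mem_image.1 this
    exact ⟨a, h⟩
  refine ⟨ε, hε, fun t₁ ht₁ φ hφ hz => ?_⟩
  obtain ⟨a, ha⟩ := hall t₁ ht₁ _ hz.self_of_nhds
  refine ⟨ρ a, fun s hs => (hb s hs).2.1 a, ?_⟩
  have hne' : ∀ᶠ s in 𝓝 t₁, ∀ b, b ≠ a → ρ b s ≠ φ s := by
    refine eventually_all.2 fun b => ?_
    by_cases hab : b = a
    · exact Eventually.of_forall fun s h => absurd hab h
    · have : ρ b t₁ ≠ φ t₁ := ha ▸ (hb t₁ ht₁).2.2.2 b a hab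
      filter_upwards [(((hb t₁ ht₁).2.1 b).continuousAt.sub hφ.continuousAt).eventually_ne
        (sub_ne_zero.2 this)] with s hs _ using sub_ne_zero.1 hs
  filter_upwards [hz, hne', Metric.isOpen_ball.mem_nhds ht₁] with s k1 k2 k3
  obtain ⟨b, hb'⟩ := hall s k3 _ k1
  by_cases hab : b = a
  · rw [← hb', hab]
  · exact absurd hb' (k2 b hab)

theorem xsba1_cauchy {n : ℕ} {p : ℕ → ℂ} {c M : ℝ} (hc : 0 < c) (hM : 0 ≤ M) (h1 : c ≤ ‖p n‖)
    (h2 : ∀ j < n, ‖p j‖ ≤ M) {α β : ℂ}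
    (h : ∑ j ∈ Finset.range (n + 1), p j * α ^ j * β ^ (n - j) = 0) :
    ‖α‖ ≤ (1 + n * M / c) * ‖β‖ := by
  have h0 : 0 ≤ n * M / c * ‖β‖ := by positivity
  by_cases hab : ‖α‖ ≤ ‖β‖
  · linarith
  have hab' : ‖β‖ ≤ ‖α‖ := (not_le.1 hab).le
  have hα : 0 < ‖α‖ := (norm_nonneg _).trans_lt (not_le.1 hab)
  rw [Finset.sum_range_succ, Nat.sub_self, pow_zero, mul_one] at h
  have h3 : ‖p n * α ^ n‖ * ‖α‖ ≤ n * (M * (‖α‖ ^ n * ‖β‖)) := by
    rw [eq_neg_of_add_eq_zero_right h, norm_neg]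
    refine (mul_le_mul_of_nonneg_right (norm_sum_le _ _) hα.le).trans ?_
    rw [Finset.sum_mul]
    refine (Finset.sum_le_card_nsmul _ _ (M * (‖α‖ ^ n * ‖β‖)) fun j hj => ?_).trans (by simp)
    have hj' := Finset.mem_range.1 hj
    obtain ⟨k, rfl⟩ := Nat.exists_eq_add_of_lt hj'
    rw [show j + k + 1 - j = k + 1 by omega, norm_mul, norm_mul, norm_pow, norm_pow]
    have := pow_le_pow_left₀ (norm_nonneg β) hab' k
    calc ‖p j‖ * ‖α‖ ^ j * ‖β‖ ^ (k + 1) * ‖α‖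
        = ‖p j‖ * (‖α‖ ^ j * ‖β‖ ^ k * ‖α‖ * ‖β‖) := by ring
      _ ≤ M * (‖α‖ ^ j * ‖α‖ ^ k * ‖α‖ * ‖β‖) := by gcongr; exact h2 j hj'
      _ = _ := by ring
  rw [norm_mul, norm_pow] at h3
  have h4 : 0 < ‖α‖ ^ n := pow_pos hα n
  have h5 : c * ‖α‖ ≤ n * M * ‖β‖ := by
    refine le_of_mul_le_mul_left ?_ h4
    calc ‖α‖ ^ n * (c * ‖α‖) = c * ‖α‖ ^ n * ‖α‖ := by ring
      _ ≤ ‖p n‖ * ‖α‖ ^ n * ‖α‖ := by gcongr
      _ ≤ _ := h3
      _ = _ := by ring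
  have h6 : ‖α‖ ≤ n * M / c * ‖β‖ := by
    rw [div_mul_eq_mul_div, le_div_iff₀ hc]
    linarith
  linarith [norm_nonneg β]

/-- local bounds for an algebraic function, in homogeneous form -/
theorem alg_bound {f : ℂ → ℂ} {t₀ : ℂ} (hf : NashAt f t₀) :
    ∃ (P : MvPolynomial (Fin 3) ℂ) (Z : Set ℂ), Z.Finite ∧
      (∀ᶠ s in 𝓝 t₀, ∀ β, MvPolynomial.eval ![s, f s * β, β] P = 0) ∧
      ∀ t ∉ Z, ∃ ε > 0, ∃ L : ℝ, ∀ s ∈ Metric.ball t ε, ∀ α β : ℂ,
        MvPolynomial.eval ![s, α, β] P = 0 → ‖α‖ ≤ L * ‖β‖ := by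
  obtain ⟨P, hP, hPf⟩ := (nash_iff_one hf.1).1 hf
  have hl : P.leadingCoeff ≠ 0 := Polynomial.leadingCoeff_ne_zero.2 hP
  obtain ⟨Q, key⟩ : ∃ Q : MvPolynomial (Fin 3) ℂ, ∀ s α β : ℂ, MvPolynomial.eval ![s, α, β] Q =
      ∑ j ∈ Finset.range (P.natDegree + 1), (P.coeff j).eval s * α ^ j *
        β ^ (P.natDegree - j) := by
    refine ⟨∑ j ∈ Finset.range (P.natDegree + 1),
        Polynomial.aeval (MvPolynomial.X 0 : MvPolynomial (Fin 3) ℂ) (P.coeff j) *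
          MvPolynomial.X 1 ^ j * MvPolynomial.X 2 ^ (P.natDegree - j), fun s α β => ?_⟩
    rw [map_sum]
    refine Finset.sum_congr rfl fun j _ => ?_
    have := Polynomial.aeval_algHom_apply (MvPolynomial.aeval ![s, α, β] :
      MvPolynomial (Fin 3) ℂ →ₐ[ℂ] ℂ) (MvPolynomial.X 0) (P.coeff j)
    rw [MvPolynomial.aeval_X, MvPolynomial.aeval_eq_eval, Polynomial.coe_aeval_eq_eval] at this
    rw [map_mul, map_mul, map_pow, map_pow, MvPolynomial.eval_X, MvPolynomial.eval_X, ← this]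
    rfl
  refine ⟨Q, {t | P.leadingCoeff.IsRoot t}, Polynomial.finite_setOfPred_isRoot hl, ?_,
    fun t ht => ?_⟩
  · filter_upwards [hPf] with s hs β
    rw [key]
    rw [← Polynomial.map_evalRingHom_eval, Polynomial.eval_map, Polynomial.eval₂_eq_sum_range] at hs
    calc _ = (∑ j ∈ Finset.range (P.natDegree + 1),
          Polynomial.evalRingHom s (P.coeff j) * f s ^ j) * β ^ P.natDegree := by
          rw [Finset.sum_mul]
          refine Finset.sum_congr rfl fun j hj => ?_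
          have : β ^ P.natDegree = β ^ j * β ^ (P.natDegree - j) := by
            rw [← pow_add, Nat.add_sub_cancel' (Nat.lt_succ_iff.1 (Finset.mem_range.1 hj))]
          rw [this, mul_pow, Polynomial.coe_evalRingHom]
          ring
      _ = 0 := by rw [hs, zero_mul]
  · have ht' : 0 < ‖P.leadingCoeff.eval t‖ := norm_pos_iff.2 ht
    have hev : ∀ᶠ s in 𝓝 t, ‖P.leadingCoeff.eval t‖ / 2 < ‖P.leadingCoeff.eval s‖ ∧
        ∑ j ∈ Finset.range P.natDegree, ‖(P.coeff j).eval s‖ <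
          ∑ j ∈ Finset.range P.natDegree, ‖(P.coeff j).eval t‖ + 1 :=
      (P.leadingCoeff.continuous.norm.continuousAt.eventually (lt_mem_nhds (half_lt_self ht'))).and
        ((continuous_finsetSum _ fun j _ => (P.coeff j).continuous.norm).continuousAt.eventually
          (gt_mem_nhds (lt_add_one _)))
    obtain ⟨ε, hε, hb⟩ := Metric.eventually_nhds_iff_ball.1 hev
    refine ⟨ε, hε, 1 + P.natDegree * (∑ j ∈ Finset.range P.natDegree, ‖(P.coeff j).eval t‖ + 1) /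
      (‖P.leadingCoeff.eval t‖ / 2), fun s hs α β h => ?_⟩
    rw [key] at h
    exact xsba1_cauchy (p := fun j => (P.coeff j).eval s) (half_pos ht') (by positivity)
      (hb s hs).1.le (fun j hj => (Finset.single_le_sum (f := fun j => ‖(P.coeff j).eval s‖)
        (fun _ _ => norm_nonneg _) (Finset.mem_range.2 hj)).trans (hb s hs).2.le) h

end Pool.Agent.MP_f58063_ag

end
end

section

open Complex Filter Topology Matrix Function

noncomputable section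

namespace Pool.Agent.MP_f58063_ag

lemma xsba2_seg {W : Set ℂ} (hW : IsOpen W) {γ : ℝ → ℂ} (hγ : Continuous γ) (h0 : γ 0 ∈ W)
    (hstep : ∀ l ∈ Set.Ioc (0 : ℝ) 1, (∀ μ ∈ Set.Ico (0 : ℝ) l, γ μ ∈ W) → γ l ∈ W) :
    γ 1 ∈ W := by
  by_contra h1
  have hc : IsCompact (Set.Icc (0 : ℝ) 1 ∩ γ ⁻¹' Wᶜ) :=
    isCompact_Icc.inter_right (hW.isClosed_compl.preimage hγ)
  obtain ⟨l, ⟨hl, hlW⟩, hmin⟩ := hc.exists_isLeast ⟨1, ⟨zero_le_one, le_rfl⟩, h1⟩
  have hl0 : 0 < l := lt_of_le_of_ne hl.1 fun h => hlW (h ▸ h0)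
  refine hlW (hstep l ⟨hl0, hl.2⟩ fun μ hμ => ?_)
  by_contra hn
  exact absurd (hmin ⟨⟨hμ.1, hμ.2.le.trans hl.2⟩, hn⟩) (not_le.2 hμ.2)

lemma xsba2_gron {h : ℂ → ℂ} {t₁ v : ℂ} {L l : ℝ} (hL : 0 ≤ L) (hl : l ≤ 1)
    (hd : ∀ μ ∈ Set.Ico (0 : ℝ) l, DifferentiableAt ℂ h (t₁ + μ * v) ∧
      ‖deriv h (t₁ + μ * v)‖ ≤ L * ‖h (t₁ + μ * v)‖) :
    ∀ μ ∈ Set.Ico (0 : ℝ) l, ‖h (t₁ + μ * v)‖ ≤ ‖h t₁‖ * Real.exp (L * ‖v‖) := by
  intro μ hμ
  have hder : ∀ x ∈ Set.Ico (0 : ℝ) l,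
      HasDerivAt (fun y : ℝ => h (t₁ + y * v)) (deriv h (t₁ + x * v) * v) x := by
    intro x hx
    have h1 : HasDerivAt (fun z : ℂ => t₁ + z * v) v (x : ℂ) := by
      simpa using ((hasDerivAt_id (x : ℂ)).mul_const v).const_add t₁
    exact ((hd x hx).1.hasDerivAt.comp (x : ℂ) h1).comp_ofReal
  have hg := norm_le_gronwallBound_of_norm_deriv_right_le (f := fun y : ℝ => h (t₁ + y * v))
    (f' := fun x => deriv h (t₁ + x * v) * v) (δ := ‖h t₁‖) (K := L * ‖v‖) (ε := 0) (a := 0)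
    (b := μ)
    (fun x hx => (hder x ⟨hx.1, hx.2.trans_lt hμ.2⟩).continuousAt.continuousWithinAt)
    (fun x hx => (hder x ⟨hx.1, hx.2.trans hμ.2⟩).hasDerivWithinAt) (by simp)
    (fun x hx => by
      rw [norm_mul, add_zero, mul_right_comm]
      exact mul_le_mul_of_nonneg_right (hd x ⟨hx.1, hx.2.trans hμ.2⟩).2 (norm_nonneg _))
    μ ⟨hμ.1, le_rfl⟩
  rw [gronwallBound_ε0, sub_zero] at hg
  refine hg.trans (mul_le_mul_of_nonneg_left (Real.exp_le_exp.2 ?_) (norm_nonneg _))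
  exact mul_le_of_le_one_right (by positivity) (hμ.2.le.trans hl)

lemma xsba2_evalEval {f : ℂ → ℂ} {s : ℂ} (hf : AnalyticAt ℂ f s)
    (P : Polynomial (Polynomial ℂ)) : AnalyticAt ℂ (fun z => P.evalEval z (f z)) s := by
  induction P using Polynomial.induction_on' with
  | add p q hp hq =>
    simp only [Polynomial.evalEval_add]
    exact hp.add hq
  | monomial n a =>
    have e : (fun z => (Polynomial.monomial n a).evalEval z (f z)) =
        fun z => a.eval z * f z ^ n := by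
      funext z
      simp [Polynomial.evalEval]
    rw [e]
    exact (a.differentiable.analyticAt s).mul (hf.pow n)

lemma xsba2_eval3 {a b : ℂ → ℂ} {s : ℂ} (ha : AnalyticAt ℂ a s) (hb : AnalyticAt ℂ b s)
    (P : MvPolynomial (Fin 3) ℂ) :
    AnalyticAt ℂ (fun z => MvPolynomial.eval ![z, a z, b z] P) s := by
  refine (gm_aeval (F := fun i z => (![z, a z, b z] : Fin 3 → ℂ) i) (fun i => ?_) P).2
  fin_cases i
  exacts [analyticAt_id, ha, hb]

lemma xsba2_im {g : ℕ} {τ : Mat g} (hτ : τ ∈ PosIm g) (u : Fin g → ℤ) :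
    0 ≤ (qf (Matrix.of τ) u).im := by
  have e : (qf (Matrix.of τ) u).im = ∑ i, ∑ j, (u i : ℝ) * (τ i j).im * (u j : ℝ) := by
    simp [qf]
  rw [e]
  by_cases h : (fun i => (u i : ℝ)) = 0
  · have h' : ∀ i, (u i : ℝ) = 0 := fun i => congrFun h i
    simp [h']
  · exact (hτ _ h).le

section

variable {g : ℕ} {κ : Type} (H₀ : Mat g → ℂ) (H : κ → Mat g → ℂ) (u : Fin g → ℤ)
  (P : Fin g → Fin g → Polynomial (Polynomial ℂ)) (Q : κ → MvPolynomial (Fin 3) ℂ)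
  (R : MvPolynomial (Fin 3) ℂ)

/-- the identities that are continued along the curve -/
structure xsba2G (φ : ℂ → Mat g) (s : ℂ) : Prop where
  sg : φ s ∈ Siegel g
  q : qf (Matrix.of (φ s)) u = s
  br : ∀ a b, (P a b).evalEval s (φ s a b) = 0
  bc : ∀ c, MvPolynomial.eval ![s, H c (φ s), H₀ (φ s)] (Q c) = 0
  bd : MvPolynomial.eval ![s, deriv (fun z => H₀ (φ z)) s, H₀ (φ s)] R = 0

variable {H₀ H u P Q R}

lemma xsba2_congr {φ ρ : ℂ → Mat g} {t : ℂ} (e : φ =ᶠ[𝓝 t] ρ)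
    (h : ∀ᶠ s in 𝓝 t, xsba2G H₀ H u P Q R φ s) : ∀ᶠ s in 𝓝 t, xsba2G H₀ H u P Q R ρ s := by
  have e2 : (fun z => H₀ (φ z)) =ᶠ[𝓝 t] fun z => H₀ (ρ z) := e.mono fun z hz => congrArg H₀ hz
  filter_upwards [h, e, e2.deriv] with s hs h1 h2
  exact ⟨h1 ▸ hs.sg, h1 ▸ hs.q, h1 ▸ hs.br, h1 ▸ hs.bc, by rw [← h1, ← h2]; exact hs.bd⟩

lemma xsba2_ball (h0 : AnalyticOnNhd ℂ H₀ (PosIm g)) (hH : ∀ c, AnalyticOnNhd ℂ (H c) (PosIm g))
    {ρ : ℂ → Mat g} {s₀ s₁ : ℂ} {δ : ℝ} (hρ : AnalyticOnNhd ℂ ρ (Metric.ball s₀ δ))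
    (hp : ∀ s ∈ Metric.ball s₀ δ, ρ s ∈ PosIm g) (hs₁ : s₁ ∈ Metric.ball s₀ δ)
    (h : ∀ᶠ s in 𝓝 s₁, xsba2G H₀ H u P Q R ρ s) :
    ∀ s ∈ Metric.ball s₀ δ, xsba2G H₀ H u P Q R ρ s := by
  have id : ∀ f : ℂ → ℂ, (∀ s ∈ Metric.ball s₀ δ, AnalyticAt ℂ f s) → (∀ᶠ s in 𝓝 s₁, f s = 0) →
      ∀ s ∈ Metric.ball s₀ δ, f s = 0 := fun f hf hz =>
    AnalyticOnNhd.eqOn_zero_of_preconnected_of_eventuallyEq_zero hf
      (convex_ball s₀ δ).isPreconnected hs₁ hz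
  have hab : ∀ a b, ∀ s ∈ Metric.ball s₀ δ, AnalyticAt ℂ (fun z => ρ z a b) s := fun a b s hs =>
    analyticAt_pi_iff.1 (analyticAt_pi_iff.1 (hρ s hs) a) b
  have hh : ∀ s ∈ Metric.ball s₀ δ, AnalyticAt ℂ (fun z => H₀ (ρ z)) s := fun s hs =>
    (h0 _ (hp s hs)).comp (hρ s hs)
  intro s hs
  refine ⟨⟨fun a b => ?_, hp s hs⟩, ?_, fun a b => ?_, fun c => ?_, ?_⟩
  · exact sub_eq_zero.1 (id (fun z => ρ z a b - ρ z b a)
      (fun z hz => (hab a b z hz).sub (hab b a z hz))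
      (h.mono fun z hz => sub_eq_zero.2 (hz.sg.1 a b)) s hs)
  · refine sub_eq_zero.1 (id (fun z => qf (Matrix.of (ρ z)) u - z) (fun z hz => ?_)
      (h.mono fun z hz => sub_eq_zero.2 hz.q) s hs)
    refine AnalyticAt.sub ?_ analyticAt_id
    exact Finset.analyticAt_fun_sum _ fun a _ => Finset.analyticAt_fun_sum _ fun b _ =>
      (analyticAt_const.mul (hab a b z hz)).mul analyticAt_const
  · exact id _ (fun z hz => xsba2_evalEval (hab a b z hz) (P a b)) (h.mono fun z hz => hz.br a b)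
      s hs
  · exact id _ (fun z hz => xsba2_eval3 ((hH c _ (hp z hz)).comp (hρ z hz)) (hh z hz) (Q c))
      (h.mono fun z hz => hz.bc c) s hs
  · exact id _ (fun z hz => xsba2_eval3 (hh z hz).deriv (hh z hz) R)
      (h.mono fun z hz => hz.bd) s hs

lemma xsba2_cont (h0 : AnalyticOnNhd ℂ H₀ (PosIm g)) (hH : ∀ c, AnalyticOnNhd ℂ (H c) (PosIm g))
    (hcl : ∀ R : ℝ, closure {τ ∈ Siegel g | ∀ c, ‖H c τ‖ ≤ R} ⊆ Siegel g)
    {ρ : ℂ → Mat g} {t t₁ : ℂ} {ε L : ℝ} (hL : 0 ≤ L) (hρ : AnalyticOnNhd ℂ ρ (Metric.ball t ε))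
    (hQ : ∀ c, ∀ s ∈ Metric.ball t ε, ∀ α β : ℂ,
      MvPolynomial.eval ![s, α, β] (Q c) = 0 → ‖α‖ ≤ L * ‖β‖)
    (hR : ∀ s ∈ Metric.ball t ε, ∀ α β : ℂ, MvPolynomial.eval ![s, α, β] R = 0 → ‖α‖ ≤ L * ‖β‖)
    (ht₁ : t₁ ∈ Metric.ball t ε) (h : ∀ᶠ s in 𝓝 t₁, xsba2G H₀ H u P Q R ρ s) :
    ∀ᶠ s in 𝓝 t, xsba2G H₀ H u P Q R ρ s := by
  have ht : t ∈ Metric.ball t ε := Metric.mem_ball_self (Metric.pos_of_mem_ball ht₁)
  have hγ : Continuous fun μ : ℝ => t₁ + μ * (t - t₁) := by fun_prop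
  have hin : ∀ μ ∈ Set.Icc (0 : ℝ) 1, t₁ + μ * (t - t₁) ∈ Metric.ball t ε := fun μ hμ => by
    have := (convex_ball t ε).add_smul_sub_mem ht₁ ht hμ
    rwa [Complex.real_smul] at this
  have key := xsba2_seg (W := {s | ∀ᶠ z in 𝓝 s, xsba2G H₀ H u P Q R ρ z})
    isOpen_setOfPred_eventually_nhds hγ (by simpa using h) (fun l hl hW => ?_)
  · simpa using key
  have hin' : ∀ μ ∈ Set.Ico (0 : ℝ) l, t₁ + μ * (t - t₁) ∈ Metric.ball t ε := fun μ hμ =>
    hin μ ⟨hμ.1, hμ.2.le.trans hl.2⟩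
  have hG : ∀ μ ∈ Set.Ico (0 : ℝ) l, xsba2G H₀ H u P Q R ρ (t₁ + μ * (t - t₁)) := fun μ hμ =>
    Filter.Eventually.self_of_nhds (hW μ hμ)
  have hb := xsba2_gron (h := fun z => H₀ (ρ z)) (t₁ := t₁) (v := t - t₁) hL hl.2 fun μ hμ =>
    ⟨((h0 _ (hG μ hμ).sg.2).comp (hρ _ (hin' μ hμ))).differentiableAt,
      hR _ (hin' μ hμ) _ _ (hG μ hμ).bd⟩
  have hs := hin l ⟨hl.1.le, hl.2⟩
  have hlim : Tendsto (fun μ : ℝ => t₁ + μ * (t - t₁)) (𝓝[<] l) (𝓝 (t₁ + l * (t - t₁))) :=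
    hγ.continuousAt.tendsto.mono_left nhdsWithin_le_nhds
  have hev : ∀ᶠ μ in 𝓝[<] l, μ ∈ Set.Ico (0 : ℝ) l := Ico_mem_nhdsLT hl.1
  have hS : ρ (t₁ + l * (t - t₁)) ∈ Siegel g := by
    refine hcl (L * (‖H₀ (ρ t₁)‖ * Real.exp (L * ‖t - t₁‖)))
      (mem_closure_of_tendsto ((hρ _ hs).continuousAt.tendsto.comp hlim) ?_)
    filter_upwards [hev] with μ hμ
    exact ⟨(hG μ hμ).sg, fun c => (hQ c _ (hin' μ hμ) _ _ ((hG μ hμ).bc c)).trans
      (mul_le_mul_of_nonneg_left (hb μ hμ) hL)⟩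
  have hn : ∀ᶠ z in 𝓝 (t₁ + l * (t - t₁)), z ∈ Metric.ball t ε ∧ ρ z ∈ PosIm g :=
    Filter.Eventually.and (Metric.isOpen_ball.mem_nhds hs)
      ((hρ _ hs).continuousAt.eventually (isOpen_PosIm.mem_nhds hS.2))
  obtain ⟨δ, hδ, hball⟩ := Metric.eventually_nhds_iff_ball.1 hn
  obtain ⟨μ, hμ1, hμ2⟩ := ((hlim.eventually (Metric.ball_mem_nhds _ hδ)).and hev).exists
  exact Filter.mem_of_superset (Metric.ball_mem_nhds _ hδ)
    (xsba2_ball h0 hH (fun z hz => hρ z (hball z hz).1) (fun z hz => (hball z hz).2) hμ1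
      (hW μ hμ2))

end

lemma xsba2_unif {ι : Type} [Finite ι] {p : ι → ℝ → ℝ → Prop}
    (hm : ∀ i ε ε' L L', ε' ≤ ε → L ≤ L' → p i ε L → p i ε' L')
    (h : ∀ i, ∃ ε > 0, ∃ L, p i ε L) : ∃ ε > 0, ∃ L, 0 ≤ L ∧ ∀ i, p i ε L := by
  choose ε hε L hp using h
  have h1 : ∀ᶠ e : ℝ in 𝓝[>] 0, ∀ i, e ≤ ε i := eventually_all.2 fun i =>
    Filter.mem_of_superset (Ioc_mem_nhdsGT (hε i)) fun e he => he.2
  have h2 : ∀ᶠ l : ℝ in atTop, ∀ i, L i ≤ l := eventually_all.2 fun i => eventually_ge_atTop _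
  obtain ⟨e, he1, he2⟩ := (h1.and self_mem_nhdsWithin).exists
  obtain ⟨l, hl1, hl2⟩ := (h2.and (eventually_ge_atTop 0)).exists
  exact ⟨e, he2, l, hl2, fun i => hm i _ _ _ _ (he1 i) (hl1 i) (hp i)⟩

/-- no curve in the Siegel space is algebraic together with a proper family of forms -/
theorem no_alg_curve {g : ℕ} {κ : Type} [Finite κ] {H₀ : Mat g → ℂ} {H : κ → Mat g → ℂ}
    (h0 : AnalyticOnNhd ℂ H₀ (PosIm g)) (hH : ∀ c, AnalyticOnNhd ℂ (H c) (PosIm g))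
    (hcl : ∀ R : ℝ, closure {τ ∈ Siegel g | ∀ c, ‖H c τ‖ ≤ R} ⊆ Siegel g) {τ : ℂ → Mat g}
    {t₀ : ℂ} {u : Fin g → ℤ} (hτ : ∀ a b, NashAt (fun s => τ s a b) t₀)
    (hS : ∀ᶠ s in 𝓝 t₀, τ s ∈ Siegel g ∧ qf (Matrix.of (τ s)) u = s) (hne : H₀ (τ t₀) ≠ 0)
    (h1 : ∀ c, NashAt (fun s => H c (τ s) / H₀ (τ s)) t₀)
    (h2 : NashAt (fun s => deriv (fun s => H₀ (τ s)) s / H₀ (τ s)) t₀) : False := by
  choose P ZP hZP hP hP' using fun a b => alg_branch (hτ a b)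
  choose Q ZQ hZQ hQ hQ' using fun c => alg_bound (h1 c)
  obtain ⟨R, ZR, hZR, hR, hR'⟩ := alg_bound h2
  have hZ : (((⋃ a, ⋃ b, ZP a b) ∪ ⋃ c, ZQ c) ∪ ZR).Finite :=
    ((Set.finite_iUnion fun a => Set.finite_iUnion fun b => hZP a b).union
      (Set.finite_iUnion hZQ)).union hZR
  set Z : Set ℂ := ((⋃ a, ⋃ b, ZP a b) ∪ ⋃ c, ZQ c) ∪ ZR with hZdef
  set A : Set ℂ := {t | ∃ φ : ℂ → Mat g, AnalyticAt ℂ φ t ∧
    ∀ᶠ s in 𝓝 t, xsba2G H₀ H u P Q R φ s} with hA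
  have hAo : IsOpen A := by
    refine isOpen_iff_mem_nhds.2 fun t ⟨φ, h1, h2⟩ => ?_
    filter_upwards [h1.eventually_analyticAt, h2.eventually_nhds] with s hs1 hs2
    exact ⟨φ, hs1, hs2⟩
  have hτa : AnalyticAt ℂ τ t₀ :=
    analyticAt_pi_iff.2 fun a => analyticAt_pi_iff.2 fun b => (hτ a b).1
  have ht₀ : t₀ ∈ A := by
    refine ⟨τ, hτa, ?_⟩
    have hc : ContinuousAt (fun s => H₀ (τ s)) t₀ :=
      ((h0 _ hS.self_of_nhds.1.2).comp hτa).continuousAt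
    filter_upwards [hS, hc.eventually_ne hne, hR, eventually_all.2 hQ,
      eventually_all.2 fun a => eventually_all.2 (hP a)] with s e1 e2 e3 e4 e5
    refine ⟨e1.1, e1.2, e5, fun c => ?_, ?_⟩
    · have := e4 c (H₀ (τ s))
      rwa [div_mul_cancel₀ _ e2] at this
    · have := e3 (H₀ (τ s))
      rwa [div_mul_cancel₀ _ e2] at this
  have hsub : Zᶜ ⊆ A := by
    refine (hZ.countable.isConnected_compl_of_one_lt_rank (by simp)).isPreconnected
      |>.subset_of_closure_inter_subset hAo ?_ ?_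
    · rw [Set.inter_comm]
      exact (hZ.countable.dense_compl ℂ).inter_open_nonempty A hAo ⟨t₀, ht₀⟩
    rintro t ⟨htA, htZ⟩
    simp only [hZdef, Set.mem_compl_iff, Set.mem_union, Set.mem_iUnion, not_or,
      not_exists] at htZ
    obtain ⟨⟨z1, z2⟩, z3⟩ := htZ
    have hmono : ∀ (T : MvPolynomial (Fin 3) ℂ) (ε ε' L L' : ℝ), ε' ≤ ε → L ≤ L' →
        (∀ s ∈ Metric.ball t ε, ∀ α β : ℂ,
          MvPolynomial.eval ![s, α, β] T = 0 → ‖α‖ ≤ L * ‖β‖) →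
        ∀ s ∈ Metric.ball t ε', ∀ α β : ℂ,
          MvPolynomial.eval ![s, α, β] T = 0 → ‖α‖ ≤ L' * ‖β‖ :=
      fun T ε ε' L L' he hL h s hs α β hz => (h s (Metric.ball_subset_ball he hs) α β hz).trans
        (mul_le_mul_of_nonneg_right hL (norm_nonneg _))
    obtain ⟨ε1, hε1, L, hL, hb⟩ := xsba2_unif (ι := Option κ)
      (p := fun o ε L => ∀ s ∈ Metric.ball t ε, ∀ α β : ℂ,
        MvPolynomial.eval ![s, α, β] (o.elim R Q) = 0 → ‖α‖ ≤ L * ‖β‖)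
      (fun o => hmono _) (fun o => by
        cases o with
        | none => exact hR' t z3
        | some c => exact hQ' c t (z2 c))
    obtain ⟨ε2, hε2, -, -, hbr⟩ := xsba2_unif (ι := Fin g × Fin g)
      (p := fun i ε _ => ∀ t₁ ∈ Metric.ball t ε, ∀ φ : ℂ → ℂ, AnalyticAt ℂ φ t₁ →
        (∀ᶠ s in 𝓝 t₁, (P i.1 i.2).evalEval s (φ s) = 0) →
          ∃ ρ : ℂ → ℂ, AnalyticOnNhd ℂ ρ (Metric.ball t ε) ∧ φ =ᶠ[𝓝 t₁] ρ)
      (fun i ε ε' _ _ he _ h t₁ ht₁ φ a1 a2 => by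
        obtain ⟨ρ, b1, b2⟩ := h t₁ (Metric.ball_subset_ball he ht₁) φ a1 a2
        exact ⟨ρ, b1.mono (Metric.ball_subset_ball he), b2⟩)
      (fun i => by
        obtain ⟨ε, hε, h⟩ := hP' i.1 i.2 t (z1 i.1 i.2)
        exact ⟨ε, hε, 0, h⟩)
    have hε : 0 < min ε1 ε2 := lt_min hε1 hε2
    have s1 : Metric.ball t (min ε1 ε2) ⊆ Metric.ball t ε1 :=
      Metric.ball_subset_ball (min_le_left _ _)
    have s2 : Metric.ball t (min ε1 ε2) ⊆ Metric.ball t ε2 :=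
      Metric.ball_subset_ball (min_le_right _ _)
    obtain ⟨t₁, ht₁, φ, hφ, hG⟩ := mem_closure_iff_nhds.1 htA _ (Metric.ball_mem_nhds t hε)
    choose ρ hρ hρe using fun a b => hbr (a, b) t₁ (s2 ht₁) (fun s => φ s a b)
      (analyticAt_pi_iff.1 (analyticAt_pi_iff.1 hφ a) b) (hG.mono fun s hs => hs.br a b)
    have hρa : AnalyticOnNhd ℂ (fun s a b => ρ a b s) (Metric.ball t (min ε1 ε2)) := fun s hs =>
      analyticAt_pi_iff.2 fun a => analyticAt_pi_iff.2 fun b => hρ a b s (s2 hs)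
    have he : φ =ᶠ[𝓝 t₁] fun s a b => ρ a b s := by
      filter_upwards [eventually_all.2 fun a => eventually_all.2 (hρe a)] with s hs
      exact funext fun a => funext fun b => hs a b
    exact ⟨_, hρa t (Metric.mem_ball_self hε), xsba2_cont h0 hH hcl hL hρa
      (fun c s hs => hb (some c) s (s1 hs)) (fun s hs => hb none s (s1 hs)) ht₁
      (xsba2_congr he hG)⟩
  obtain ⟨t, ht1, ht2⟩ := (hZ.countable.dense_compl ℂ).inter_open_nonempty {s : ℂ | s.im < 0}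
    (isOpen_lt Complex.continuous_im continuous_const) ⟨-I, by simp⟩
  obtain ⟨φ, -, hG⟩ := hsub ht2
  have h3 := xsba2_im hG.self_of_nhds.sg.2 u
  rw [hG.self_of_nhds.q] at h3
  exact absurd ht1 (not_lt.2 h3)

end Pool.Agent.MP_f58063_ag

end
end

section

open Complex Filter Topology Matrix Function

noncomputable section

namespace Pool.Agent.MP_f58063_ag

theorem xsend_log {g : ℕ} {c₀ : LL g → ℂ} {τ : ℂ → Mat g} {s : ℂ} (hτ : AnalyticAt ℂ τ s)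
    (hS : ∀ᶠ y in 𝓝 s, τ y ∈ Siegel g) (hne : th c₀ (τ s) ≠ 0) :
    deriv (fun s => th c₀ (τ s)) s / th c₀ (τ s) =
      -(1 / 2) * ∑ a, ∑ b, dv 1 (fun y => τ y a b) s * ψf c₀ (τ s) a b := by
  have hP : τ s ∈ PosIm g := Siegel_sub hS.self_of_nhds
  have h1 : HasFDerivAt (fun y => th c₀ (τ y)) ((fderiv ℂ (th c₀) (τ s)).comp (fderiv ℂ τ s)) s :=
    (th_analytic c₀ _ hP).differentiableAt.hasFDerivAt.comp s hτ.differentiableAt.hasFDerivAt
  have h2 : ∀ a b, dv 1 (fun y => τ y a b) s = fderiv ℂ τ s 1 a b := fun a b => by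
    have h3 := hasFDerivAt_pi'.1 (hasFDerivAt_pi'.1 hτ.differentiableAt.hasFDerivAt a) b
    rw [dv_apply, h3.fderiv]
    rfl
  have hπ : (Real.pi : ℂ) ≠ 0 := ofReal_ne_zero.2 Real.pi_ne_zero
  rw [← fderiv_apply_one_eq_deriv, h1.fderiv, ContinuousLinearMap.comp_apply,
    heat_th c₀ hP (fderiv_symm hτ hS 1), mul_div_assoc, Finset.sum_div, Finset.mul_sum,
    Finset.mul_sum]
  refine Finset.sum_congr rfl fun a _ => ?_
  rw [Finset.sum_div, Finset.mul_sum, Finset.mul_sum]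
  refine Finset.sum_congr rfl fun b _ => ?_
  rw [h2, ψf, Matrix.of_apply]
  field_simp
  ring

theorem no_frame_curve {g : ℕ} {c₀ : LL g → ℂ} {τ : ℂ → Mat g} {t₀ : ℂ} {u : Fin g → ℤ}
    (hτ : ∀ a b, NashAt (fun s => τ s a b) t₀)
    (hS : ∀ᶠ s in 𝓝 t₀, τ s ∈ Siegel g ∧ qf (Matrix.of (τ s)) u = s) (hne : th c₀ (τ t₀) ≠ 0)
    (hψ : ∀ a b, NashAt (fun s => ψf c₀ (τ s) a b) t₀)
    (hy : ∀ ε, NashAt (fun s => yq c₀ (hc ε) (τ s)) t₀) : False := by
  have hA : AnalyticAt ℂ τ t₀ :=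
    analyticAt_pi_iff.2 fun a => analyticAt_pi_iff.2 fun b => (hτ a b).1
  have hS' : ∀ᶠ s in 𝓝 t₀, τ s ∈ Siegel g := hS.mono fun _ h => h.1
  have hc0 : ContinuousAt (fun s => th c₀ (τ s)) t₀ :=
    ((th_analytic c₀ _ (Siegel_sub hS'.self_of_nhds)).comp hA).continuousAt
  refine no_alg_curve (H₀ := th c₀) (H := fun ε => th (hc ε)) (th_analytic c₀)
    (fun ε => th_analytic _) (siegel_closed g) hτ hS hne hy ?_
  refine ((NashAt.const (-(1 / 2)) t₀).mul (NashAt.sum Finset.univ fun a _ =>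
    NashAt.sum Finset.univ fun b _ => ((hτ a b).dv 1).mul (hψ a b))).congr ?_
  filter_upwards [hA.eventually_analyticAt, hS'.eventually_nhds, hc0.eventually_ne hne]
    with s h1 h2 h3
  exact (xsend_log h1 h2 h3).symm

end Pool.Agent.MP_f58063_ag

end
end

section

open Complex Filter Topology Matrix Function

noncomputable section

namespace Pool.Agent.MP_f58063_ag

/-- an entire function of one variable that vanishes at the rational numbers is zero -/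
lemma xsfama_rat {φ : ℂ → ℂ} (hφ : ∀ l, AnalyticAt ℂ φ l) (h : ∀ r : ℚ, φ r = 0) (l : ℂ) :
    φ l = 0 := by
  have hA : AnalyticOnNhd ℂ φ Set.univ := fun y _ => hφ y
  have hT : Tendsto (fun n : ℕ => (((n + 1 : ℚ)⁻¹ : ℚ) : ℂ)) atTop (𝓝[≠] 0) := by
    refine tendsto_nhdsWithin_iff.2 ⟨?_, Eventually.of_forall fun n => ?_⟩
    · have h1 : Tendsto (fun n : ℕ => ((1 / ((n : ℝ) + 1) : ℝ) : ℂ)) atTop (𝓝 ((0 : ℝ) : ℂ)) :=
        (continuous_ofReal.tendsto 0).comp tendsto_one_div_add_atTop_nhds_zero_nat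
      simpa using h1
    · have h1 : ((n + 1 : ℚ)⁻¹ : ℚ) ≠ 0 := inv_ne_zero (by positivity)
      exact fun h2 => h1 (by exact_mod_cast Set.mem_singleton_iff.1 h2)
  have hf : ∃ᶠ z in 𝓝[≠] (0 : ℂ), φ z = 0 :=
    hT.frequently (Eventually.of_forall fun n => h _).frequently
  exact hA.eqOn_zero_of_preconnected_of_frequently_eq_zero isPreconnected_univ
    (Set.mem_univ 0) hf (Set.mem_univ l)

/-- selection of a fibre and a disc in it, with a common lift of every tangent vector -/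
lemma xsfama_sel {d g k : ℕ} {B : Set (Fin d → ℂ)} (hB : IsOpen B) (hne : B.Nonempty) {ι : Type}
    [Fintype ι] (b : Module.Basis ι ℂ ((Fin d → ℂ) × EE g)) {R : Set ((Fin d → ℂ) × EE g → ℂ)}
    (hR : DRing b (B ×ˢ Set.univ) R) (hc : R.Countable) (S : Set ((Fin d → ℂ) × EE g))
    (hS : ∀ x ∈ B, ∃ γ : (Fin k → ℂ) → EE g, AnalyticAt ℂ γ 0 ∧ Injective (fderiv ℂ γ 0) ∧
      ∀ᶠ s in 𝓝 0, (x, γ s) ∈ S) {G : Set (Fin d → ℂ)} (hG : G ∈ residual (Fin d → ℂ)) :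
    ∃ x ∈ B ∩ G, ∃ γ : (Fin k → ℂ) → EE g, AnalyticAt ℂ γ 0 ∧ Injective (fderiv ℂ γ 0) ∧
      (x, γ 0) ∈ S ∧ (∀ F ∈ R, F (x, γ 0) = 0 → ∀ᶠ s in 𝓝 0, F (x, γ s) = 0) ∧
      ∀ ξ, ∃ ζ, ∀ F ∈ R, F (x, γ 0) = 0 → fderiv ℂ F (x, γ 0) (ξ, ζ) = 0 := by
  have : Countable R := hc.to_subtype
  let A : (Σ r : ℕ, Fin r → R) → Set (Fin d → ℂ) := fun t =>
    Prod.fst '' {q : (Fin d → ℂ) × EE g | AnalyticAt ℂ (fun x j => (t.2 j).1 x) q ∧
      (fun x j => (t.2 j).1 x) q = 0 ∧ Surjective (fderiv ℂ (fun x j => (t.2 j).1 x) q) ∧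
      ¬ ∀ ξ, ∃ ζ, fderiv ℂ (fun x j => (t.2 j).1 x) q (ξ, ζ) = 0}
  have hA : IsMeagre (⋃ t, A t) := isMeagre_iUnion fun t => xsel_meagre _
  have hres : G ∩ (⋃ t, A t)ᶜ ∈ residual (Fin d → ℂ) := inter_mem hG hA
  obtain ⟨x, hxB, hxG, hxA⟩ := (dense_of_mem_residual hres).inter_open_nonempty B hB hne
  obtain ⟨γ, hγa, hγi, hγS⟩ := hS x hxB
  have hU := hγa.eventually_analyticAt.and ((eventually_inj hγa hγi).and hγS)
  have hmem : ∀ z : EE g, (x, z) ∈ B ×ˢ (Set.univ : Set (EE g)) := fun z => ⟨hxB, trivial⟩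
  obtain ⟨s0, hs0, hgen⟩ := generic_point (R := (fun F s => F (x, γ s)) '' R) (hc.image _) hU
    (by
      rintro _ ⟨F, hF, rfl⟩ s hs
      exact AnalyticAt.comp (g := F) (f := fun s => (x, γ s)) (hR.an F hF _ (hmem _))
        (analyticAt_const.prod hs.1))
  have hs0U := interior_subset hs0
  have hT : Tendsto (fun s : Fin k → ℂ => s0 + s) (𝓝 0) (𝓝 s0) := by
    have : Continuous (fun s : Fin k → ℂ => s0 + s) := continuous_const.add continuous_id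
    simpa using this.tendsto 0
  have hγa' : AnalyticAt ℂ (fun s => γ (s0 + s)) 0 :=
    AnalyticAt.comp (g := γ) (by simpa using hs0U.1) (analyticAt_const.add analyticAt_id)
  refine ⟨x, ⟨hxB, hxG⟩, fun s => γ (s0 + s), hγa', ?_, ?_, ?_, ?_⟩
  · rw [fderiv_comp_add_left, add_zero]
    exact hs0U.2.1
  · simpa only [add_zero] using hs0U.2.2
  · intro F hF hF0
    simp only [add_zero] at hF0
    exact hT.eventually (p := fun s => F (x, γ s) = 0) (hgen _ ⟨F, hF, rfl⟩ hF0)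
  intro ξ
  simp only [add_zero]
  obtain ⟨r, h, hh, hsurj, hideal⟩ := gen b hR (hmem (γ s0))
  have hHan : AnalyticAt ℂ (fun q j => h j q) (x, γ s0) :=
    analyticAt_pi_iff.2 fun j => hR.an _ (hh j).1 _ (hmem _)
  have h0 : (fun q j => h j q) (x, γ s0) = 0 := funext fun j => (hh j).2
  have hall : ∀ ξ, ∃ ζ, fderiv ℂ (fun q j => h j q) (x, γ s0) (ξ, ζ) = 0 := by
    by_contra hno
    exact hxA (Set.mem_iUnion.2 ⟨⟨r, fun j => ⟨h j, (hh j).1⟩⟩,
      (x, γ s0), ⟨hHan, h0, hsurj, hno⟩, rfl⟩)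
  obtain ⟨ζ, hζ⟩ := hall ξ
  refine ⟨ζ, fun F hF hF0 => tangent_level hHan hsurj (hR.an F hF _ (hmem _)) ?_ hζ⟩
  filter_upwards [hideal F hF hF0] with q hq hq0
  exact hq fun j => (congrFun hq0 j).trans (hh j).2

/-- a derivative of the lowest order that does not vanish at a singular point -/
lemma xsfama_min {g : ℕ} {τ : Mat g} (hτ : τ ∈ Siegel g) {z : EE g} (h0 : z ∈ singTheta τ) :
    ∃ (i j : Fin g) (L : List (Fin g)), dI (i :: j :: L) (theta τ) z ≠ 0 ∧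
      ∀ L' : List (Fin g), L'.length ≤ L.length + 1 → dI L' (theta τ) z = 0 := by
  classical
  have han := theta_analytic (Siegel_sub hτ)
  have hex : ∃ m, ∃ L : List (Fin g), L.length = m ∧ dI L (theta τ) z ≠ 0 := by
    by_contra hc
    push Not at hc
    obtain ⟨z', hz⟩ := theta_ne (Siegel_sub hτ)
    exact hz (congrFun (entire_zero han (zero_of_dI (han _) fun L => hc _ L rfl)) z')
  obtain ⟨L₀, hL₀, hne⟩ := Nat.find_spec hex
  have hmin : ∀ L : List (Fin g), L.length < L₀.length → dI L (theta τ) z = 0 := by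
    intro L hL
    by_contra hc
    exact Nat.find_min hex (hL₀ ▸ hL) ⟨L, rfl, hc⟩
  obtain _ | ⟨i₀, _ | ⟨j₀, L⟩⟩ := L₀
  · exact absurd h0.1 hne
  · exact absurd (by simp [dv_apply, h0.2]) hne
  exact ⟨i₀, j₀, L, hne, fun L' hL' => hmin L' (by simpa [Nat.lt_succ_iff] using hL')⟩

/-- the rank bound from a subspace of the kernel -/
lemma xsfama_rank {g k : ℕ} {Q : Mat g} {T : (Fin k → ℂ) →L[ℂ] EE g} (hT : Injective T)
    (h : ∀ w, mv Q (T w) = 0) : (Matrix.of Q).rank + k ≤ g := by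
  have h1 := LinearMap.finrank_range_add_finrank_ker (Matrix.of Q).mulVecLin
  have h2 : LinearMap.range T.toLinearMap ≤ LinearMap.ker (Matrix.of Q).mulVecLin := by
    rintro _ ⟨w, rfl⟩
    exact h w
  have h3 := Submodule.finrank_mono h2
  rw [LinearMap.finrank_range_of_inj hT, Module.finrank_fin_fun] at h3
  rw [Module.finrank_fin_fun] at h1
  exact (Nat.add_le_add_left h3 _).trans h1.le

/-- the tangent space of the disc lies in the kernel of the quadric -/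
lemma xsfama_ker {g k : ℕ} {τ : Mat g} (hτ : τ ∈ Siegel g) {γ : (Fin k → ℂ) → EE g}
    (hγ : AnalyticAt ℂ γ 0) (L : List (Fin g))
    (hv : ∀ j, ∀ᶠ s in 𝓝 0, dI (j :: L) (theta τ) (γ s) = 0) (w : Fin k → ℂ) :
    mv (fun i j => dI (i :: j :: L) (theta τ) (γ 0)) (fderiv ℂ γ 0 w) = 0 := by
  have han := theta_analytic (Siegel_sub hτ)
  funext j
  have h3 : fderiv ℂ (fun s => dI (j :: L) (theta τ) (γ s)) 0 = 0 := xmain_fderiv_zero (hv j)
  have h4 := ((analyticAt_dI (han (γ 0)) (j :: L)).differentiableAt.hasFDerivAt.comp 0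
    hγ.differentiableAt.hasFDerivAt).fderiv
  have h5 : fderiv ℂ (dI (j :: L) (theta τ)) (γ 0) (fderiv ℂ γ 0 w) = 0 := by
    have := congrArg (fun A => A w) (h4.symm.trans h3)
    simpa using this
  rw [fderiv_eq_sum] at h5
  rw [Pi.zero_apply, ← h5]
  refine Finset.sum_congr rfl fun i _ => ?_
  rw [mul_comm]
  congr 1
  exact dv_comm (analyticAt_dI (han _) L) _ _

/-- the heat equation makes the quadric conormal -/
lemma xsfama_heat {d g : ℕ} {ψ : (Fin d → ℂ) → Mat g} {x : Fin d → ℂ} (hψ : AnalyticAt ℂ ψ x)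
    (hτ : ψ x ∈ Siegel g) (z : EE g) (L : List (Fin g)) (ξ : Fin d → ℂ) (ζ : EE g)
    (hζ : fderiv ℂ (dd (L.map fun i => ((0 : Fin d → ℂ), ee i))
      fun p : (Fin d → ℂ) × EE g => Theta g (ψ p.1, p.2)) (x, z) (ξ, ζ) = 0)
    (h2 : ∀ i, dd ((i :: L).map fun i => ((0 : Fin d → ℂ), ee i))
      (fun p : (Fin d → ℂ) × EE g => Theta g (ψ p.1, p.2)) (x, z) = 0) :
    ∑ i, ∑ j, fderiv ℂ ψ x ξ i j * dI (i :: j :: L) (theta (ψ x)) z = 0 := by
  have hTh : AnalyticAt ℂ (Theta g) (ψ x, z) := Theta_analytic (Siegel_sub hτ) z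
  have hψx := hψ.differentiableAt.hasFDerivAt
  set FL := dd (L.map fun i => ((0 : Fin d → ℂ), ee i))
      fun p : (Fin d → ℂ) × EE g => Theta g (ψ p.1, p.2) with hFL
  have h3 : fderiv ℂ FL (x, z) (0, ζ) = 0 := by
    have : ((0 : Fin d → ℂ), ζ) = ∑ i, ζ i • ((0 : Fin d → ℂ), ee i) := by
      ext i
      · simp [Prod.fst_sum]
      · simp [Prod.snd_sum, Pi.single_apply]
    rw [this, map_sum]
    refine Finset.sum_eq_zero fun i _ => ?_
    rw [map_smul]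
    exact smul_eq_zero_of_right _ (h2 i)
  have h4 : fderiv ℂ FL (x, z) (ξ, 0) = 0 := by
    have : ((ξ, ζ) : (Fin d → ℂ) × EE g) = (ξ, 0) + (0, ζ) := by simp
    rwa [this, map_add, h3, add_zero] at hζ
  have h5 := (dd_vert hψ hTh L).fderiv_eq (𝕜 := ℂ)
  have h6 : HasFDerivAt (fun p : (Fin d → ℂ) × EE g => (ψ p.1, p.2))
      (((fderiv ℂ ψ x).comp (ContinuousLinearMap.fst ℂ _ _)).prod
        (ContinuousLinearMap.snd ℂ _ _)) (x, z) :=
    (HasFDerivAt.comp (g := ψ) (x, z) hψx hasFDerivAt_fst).prodMk hasFDerivAt_snd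
  have h7 := (HasFDerivAt.comp (x, z) (analyticAt_dd hTh
    (L.map fun i => ((0 : Mat g), ee i))).differentiableAt.hasFDerivAt h6).fderiv
  have h8 : fderiv ℂ (dd (L.map fun i => ((0 : Mat g), ee i)) (Theta g)) (ψ x, z)
      (fderiv ℂ ψ x ξ, 0) = 0 := by
    rw [← h4]
    exact (congrArg (fun A => A (ξ, 0)) (h5.trans h7)).symm
  rw [heat (Siegel_sub hτ)] at h8
  refine (mul_eq_zero.1 h8).resolve_left (inv_ne_zero ?_)
  exact mul_ne_zero (mul_ne_zero (by norm_num) (ofReal_ne_zero.2 Real.pi_ne_zero)) I_ne_zero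

/-- a directional derivative that vanishes for rational values of an entire parameter -/
lemma xsfama_par {X : Type} [NormedAddCommGroup X] [NormedSpace ℂ X] {H : ℂ × X → ℂ} {p v : X}
    (hH : ∀ l, AnalyticAt ℂ H (l, p)) (h : ∀ r : ℚ, fderiv ℂ (fun q => H (r, q)) p v = 0)
    (l : ℂ) : fderiv ℂ (fun q => H (l, q)) p v = 0 := by
  have e : ∀ l : ℂ, fderiv ℂ (fun q => H (l, q)) p v = dv (0, v) H (l, p) := by
    intro l
    have h1 := ((hH l).differentiableAt.hasFDerivAt.comp p (hasFDerivAt_prodMk_right l p)).fderiv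
    exact congrArg (fun A => A v) h1
  rw [e]
  refine xsfama_rat (φ := fun l => dv (0, v) H (l, p)) (fun l => ?_) (fun r => ?_) l
  · exact AnalyticAt.comp (g := dv (0, v) H) (f := fun l : ℂ => (l, p))
      (analyticAt_dv (hH l) _) (analyticAt_id.prod analyticAt_const)
  · rw [← e]
    exact h r

/-- frequent injectivity of the cone over the family of quadrics -/
lemma xsfama_inj {g k : ℕ} {Q : (Fin k → ℂ) → Mat g} (hQ : AnalyticAt ℂ Q 0)
    {T : Mat g →L[ℂ] Mat g} (hT : Injective T) {l₀ : ℂ} (hl : l₀ ≠ 0) (e : EE g)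
    (h : ∃ᶠ s in 𝓝 0, ∀ (a : ℂ) (w : Fin k → ℂ),
      a • mv (Q s) e + mv (fderiv ℂ Q s w) e = 0 → a = 0 ∧ w = 0) :
    ∃ᶠ s in 𝓝 0, Injective
      (fderiv ℂ (fun s : (Fin k → ℂ) × ℂ => (l₀ + s.2) • T (Q s.1)) s) := by
  have hT0 : Tendsto (fun s : Fin k → ℂ => (s, (0 : ℂ))) (𝓝 0) (𝓝 0) :=
    (continuous_id.prodMk continuous_const).tendsto 0
  refine hT0.frequently ((h.and_eventually hQ.eventually_analyticAt).mono ?_)
  rintro s ⟨h1, h2⟩
  have d1 : HasFDerivAt (fun s : (Fin k → ℂ) × ℂ => l₀ + s.2)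
      (ContinuousLinearMap.snd ℂ _ _) (s, 0) := hasFDerivAt_snd.const_add l₀
  have d2 : HasFDerivAt (fun s : (Fin k → ℂ) × ℂ => T (Q s.1))
      (T.comp ((fderiv ℂ Q s).comp (ContinuousLinearMap.fst ℂ _ ℂ))) (s, 0) :=
    T.hasFDerivAt.comp (s, (0 : ℂ))
      (HasFDerivAt.comp (g := Q) (s, (0 : ℂ)) h2.differentiableAt.hasFDerivAt hasFDerivAt_fst)
  have d3 := (d1.smul d2).fderiv
  have d4 : fderiv ℂ (fun s : (Fin k → ℂ) × ℂ => (l₀ + s.2) • T (Q s.1)) (s, 0) = _ := d3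
  rw [d4, injective_iff_map_eq_zero]
  rintro ⟨w, a⟩ hw
  have e1 : T (a • Q s + fderiv ℂ Q s (l₀ • w)) = 0 := by
    rw [← hw]
    simp [add_comm]
  have e2 : a • Q s + fderiv ℂ Q s (l₀ • w) = 0 := hT (e1.trans (map_zero T).symm)
  have e3 : a • mv (Q s) e + mv (fderiv ℂ Q s (l₀ • w)) e = 0 := by
    rw [← xlinT_apply, ← xlinT_apply, ← map_smul, ← map_add, e2, map_zero]
  obtain ⟨ha, hw0⟩ := h1 a _ e3
  exact Prod.ext ((smul_eq_zero.1 hw0).resolve_left hl) ha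

/-- a generic conormal quadric -/
theorem famA {d g k : ℕ} {B : Set (Fin d → ℂ)} (hB : IsOpen B) (hBc : IsPreconnected B)
    {ψ : (Fin d → ℂ) → Mat g} (hψ : AnalyticOnNhd ℂ ψ B) (hAM : ∀ x ∈ B, ψ x ∈ AM g k)
    {x₁ : Fin d → ℂ} (hx₁ : x₁ ∈ B) (hs : IsSimple (ψ x₁))
    {β : (Fin d → ℂ) × Mat g → Mat g} (hβ : AnalyticOnNhd ℂ β (B ×ˢ Set.univ))
    (hβl : ∀ x ∈ B, ∃ L : Mat g →L[ℂ] Mat g, Injective L ∧ ∀ Q, β (x, Q) = L Q)
    {R : Set ((Fin d → ℂ) × Mat g → ℂ)} (hR : ∀ f ∈ R, AnalyticOnNhd ℂ f (B ×ˢ Set.univ))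
    (hc : R.Countable) :
    ∃ x ∈ B, ∃ Q : Mat g, Q ≠ 0 ∧ (∀ i j, Q i j = Q j i) ∧ (Matrix.of Q).rank + k ≤ g ∧
      (∀ ξ, ∑ i, ∑ j, fderiv ℂ ψ x ξ i j * Q i j = 0) ∧
      (∀ ξ, ∃ η, ∀ f ∈ R, f (x, β (x, Q)) = 0 → fderiv ℂ f (x, β (x, Q)) (ξ, η) = 0) ∧
      ∃ ν : (Fin k → ℂ) × ℂ → Mat g, AnalyticAt ℂ ν 0 ∧ ν 0 = β (x, Q) ∧
        (∃ᶠ s in 𝓝 0, Injective (fderiv ℂ ν s)) ∧
        ∀ f ∈ R, f (x, β (x, Q)) = 0 → ∀ᶠ s in 𝓝 0, f (x, ν s) = 0 := by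
  have hτB : ∀ x ∈ B, ψ x ∈ Siegel g := fun x hx => (hAM x hx).1
  obtain ⟨δ, hδc, hδ, hδs⟩ := simple_locus (hτB x₁ hx₁) hs
  have hG := residual_ne (R := (fun f x => f (ψ x)) '' δ) (hδc.image _) hB hBc (by
    rintro _ ⟨f, hf, rfl⟩
    exact ⟨fun x hx => ((hδ f hf).1 _).comp (hψ x hx), x₁, hx₁, (hδ f hf).2⟩)
  let F₀ : (Fin d → ℂ) × EE g → ℂ := fun p => Theta g (ψ p.1, p.2)
  have hΨ : ∀ x ∈ B, ∀ z : EE g,
      AnalyticAt ℂ (fun p : (Fin d → ℂ) × EE g => (ψ p.1, p.2)) (x, z) := fun x hx z =>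
    (AnalyticAt.comp (g := ψ) (hψ x hx) analyticAt_fst).prod analyticAt_snd
  have hTh : ∀ x ∈ B, ∀ z, AnalyticAt ℂ (Theta g) (ψ x, z) := fun x hx z =>
    Theta_analytic (Siegel_sub (hτB x hx)) z
  have hF₀ : ∀ x ∈ B, ∀ z, AnalyticAt ℂ F₀ (x, z) := fun x hx z =>
    AnalyticAt.comp (g := Theta g) (hTh x hx z) (hΨ x hx z)
  let F : List (Fin g) → (Fin d → ℂ) × EE g → ℂ := fun L =>
    dd (L.map fun i => ((0 : Fin d → ℂ), ee i)) F₀
  let QL : List (Fin g) → (Fin d → ℂ) × EE g → Mat g := fun L p i j => F (i :: j :: L) p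
  have hQL : ∀ L, ∀ x ∈ B, ∀ z, AnalyticAt ℂ (QL L) (x, z) := fun L x hx z =>
    analyticAt_pi_iff.2 fun i => analyticAt_pi_iff.2 fun j => analyticAt_dd (hF₀ x hx z) _
  let Φ : List (Fin g) → ℂ × ((Fin d → ℂ) × EE g) → (Fin d → ℂ) × Mat g := fun L q =>
    (q.2.1, β (q.2.1, q.1 • QL L q.2))
  have hΦ : ∀ L l, ∀ x ∈ B, ∀ z, AnalyticAt ℂ (Φ L) (l, (x, z)) := by
    intro L l x hx z
    have h1 : AnalyticAt ℂ (fun q : ℂ × ((Fin d → ℂ) × EE g) => q.2.1) (l, (x, z)) :=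
      analyticAt_fst.comp analyticAt_snd
    have h2 : AnalyticAt ℂ (fun q : ℂ × ((Fin d → ℂ) × EE g) => q.1 • QL L q.2) (l, (x, z)) :=
      analyticAt_fst.smul (AnalyticAt.comp (g := QL L) (hQL L x hx z) analyticAt_snd)
    exact h1.prod (AnalyticAt.comp (g := β) (hβ _ ⟨hx, trivial⟩) (h1.prod h2))
  have hfΦ : ∀ f ∈ R, ∀ L l, ∀ x ∈ B, ∀ z, AnalyticAt ℂ (fun q => f (Φ L q)) (l, (x, z)) :=
    fun f hf L l x hx z => AnalyticAt.comp (g := f) (hR f hf _ ⟨hx, trivial⟩) (hΦ L l x hx z)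
  have hRc : Countable R := hc.to_subtype
  let Gf : R × List (Fin g) × ℚ → (Fin d → ℂ) × EE g → ℂ := fun t p => t.1.1 (Φ t.2.1 (t.2.2, p))
  let b := (Pi.basisFun ℂ (Fin d)).prod (Pi.basisFun ℂ (Fin g))
  obtain ⟨R', hR', hFR, -, hRc'⟩ := exists_DRing (S := insert F₀ (Set.range Gf))
    (DRing_all b (B ×ˢ Set.univ)) (by
      rintro _ (rfl | ⟨t, rfl⟩) p hp
      · exact hF₀ p.1 hp.1 p.2
      · exact AnalyticAt.comp (g := fun q => t.1.1 (Φ t.2.1 q)) (f := fun p => ((t.2.2 : ℂ), p))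
          (hfΦ _ t.1.2 _ _ p.1 hp.1 p.2) (analyticAt_const.prod analyticAt_id))
    ((Set.countable_range Gf).insert _)
  have hF : ∀ L, F L ∈ R' := by
    intro L
    induction L with
    | nil => exact hFR (Set.mem_insert _ _)
    | cons i L ih =>
      have h1 := hR'.dv _ ih (Sum.inr i)
      have h2 : b (Sum.inr i) = (0, ee i) := by simp [b]
      rwa [h2] at h1
  have hGf : ∀ f ∈ R, ∀ L (r : ℚ), (fun p => f (Φ L (r, p))) ∈ R' := fun f hf L r =>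
    hFR (Set.mem_insert_of_mem _ ⟨(⟨f, hf⟩, L, r), rfl⟩)
  have hFv : ∀ x ∈ B, ∀ z L, F L (x, z) = dI L (theta (ψ x)) z := fun x hx z L =>
    dd_slice (hF₀ x hx z) L
  obtain ⟨x, ⟨hx, hxG⟩, γ, hγ, hγi, hγS, hsel, hlift⟩ := xsfama_sel (k := k) hB ⟨x₁, hx₁⟩ b
    hR' hRc' {p | p.2 ∈ singTheta (ψ p.1)} (fun x hx => by
      obtain ⟨z, γ, -, h1, h2, h3⟩ := (hAM x hx).2
      exact ⟨γ, h1, h2, h3⟩) hG
  have hτ := hτB x hx
  have hsx : IsSimple (ψ x) := hδs _ hτ fun f hf => hxG hx _ ⟨f, hf, rfl⟩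
  have han := theta_analytic (Siegel_sub hτ)
  obtain ⟨i₀, j₀, L, hne, hmin⟩ := xsfama_min hτ (z := γ 0) hγS
  have hv : ∀ L' : List (Fin g), L'.length ≤ L.length + 1 →
      ∀ᶠ s in 𝓝 0, dI L' (theta (ψ x)) (γ s) = 0 := fun L' hL' =>
    (hsel _ (hF L') (by rw [hFv x hx, hmin L' hL'])).mono fun s h => by rw [← hFv x hx, h]
  have hv' : ∀ᶠ s in 𝓝 0, ∀ L' : List (Fin g), L'.length ≤ L.length + 1 →
      dI L' (theta (ψ x)) (γ s) = 0 :=
    (eventually_all_finite (List.finite_length_le (Fin g) (L.length + 1))).2 hv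
  let Q : (Fin k → ℂ) → Mat g := fun s i j => dI (i :: j :: L) (theta (ψ x)) (γ s)
  have hQ : ∀ s, QL L (x, γ s) = Q s := fun s => funext fun i => funext fun j => hFv x hx _ _
  have hQa : ∀ s, AnalyticAt ℂ γ s → AnalyticAt ℂ Q s := fun s hs =>
    analyticAt_pi_iff.2 fun i => analyticAt_pi_iff.2 fun j => (analyticAt_dI (han _) _).comp hs
  obtain ⟨T, hTi, hT⟩ := hβl x hx
  have hΦv : ∀ l s, Φ L (l, (x, γ s)) = (x, l • T (Q s)) := fun l s => by
    simp only [Φ, hQ, hT, map_smul]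
  have hent : ∀ f ∈ R, ∀ (A : Mat g) (l : ℂ), AnalyticAt ℂ (fun l : ℂ => f (x, l • A)) l :=
    fun f hf A l => AnalyticAt.comp (g := f) (f := fun l : ℂ => (x, l • A))
      (hR f hf _ ⟨hx, trivial⟩) (analyticAt_const.prod (analyticAt_id.smul analyticAt_const))
  obtain ⟨l₀, -, hl₀⟩ := generic_point (X := ℂ)
    (R := insert id ((fun f (l : ℂ) => f (x, l • T (Q 0))) '' R)) ((hc.image _).insert _)
    (x₀ := 0) (U := Set.univ) univ_mem (by
      rintro _ (rfl | ⟨f, hf, rfl⟩) l -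
      · exact analyticAt_id
      · exact hent f hf _ l)
  have hl0 : l₀ ≠ 0 := fun h => one_ne_zero (congrFun (entire_zero (f := id)
    (fun _ => analyticAt_id) (hl₀ id (Set.mem_insert _ _) h)) (1 : ℂ))
  have hb : β (x, l₀ • Q 0) = l₀ • T (Q 0) := by rw [hT, map_smul]
  have hall : ∀ f ∈ R, f (x, β (x, l₀ • Q 0)) = 0 → ∀ r : ℚ, f (Φ L (r, (x, γ 0))) = 0 := by
    intro f hf h0 r
    rw [hΦv]
    rw [hb] at h0
    exact congrFun (entire_zero (hent f hf (T (Q 0)))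
      (hl₀ _ (Set.mem_insert_of_mem _ ⟨f, hf, rfl⟩) h0)) (r : ℂ)
  refine ⟨x, hx, l₀ • Q 0, ?_, ?_, ?_, ?_, ?_,
    fun s => (l₀ + s.2) • T (Q s.1), ?_, ?_, ?_, ?_⟩
  · exact smul_ne_zero hl0 fun h => hne (congrFun (congrFun h i₀) j₀)
  · intro i j
    have : Q 0 i j = Q 0 j i := dv_comm (analyticAt_dI (han _) L) _ _
    simp only [Pi.smul_apply, this]
  · refine xsfama_rank hγi fun w => ?_
    have h1 : mv (Q 0) (fderiv ℂ γ 0 w) = 0 := xsfama_ker hτ hγ L (fun j => hv _ (by simp)) w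
    rw [← xlinT_apply, map_smul, xlinT_apply, h1, smul_zero]
  · intro ξ
    obtain ⟨ζ, hζ⟩ := hlift ξ
    have h1 := xsfama_heat (hψ x hx) hτ (γ 0) L ξ ζ
      (hζ _ (hF L) ((hFv x hx _ L).trans (hmin L (by simp))))
      (fun i => (hFv x hx _ (i :: L)).trans (hmin _ (by simp)))
    have h2 : ∑ i, ∑ j, fderiv ℂ ψ x ξ i j * (l₀ • Q 0) i j =
        l₀ * ∑ i, ∑ j, fderiv ℂ ψ x ξ i j * dI (i :: j :: L) (theta (ψ x)) (γ 0) := by
      simp only [Finset.mul_sum, Pi.smul_apply, smul_eq_mul]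
      exact Finset.sum_congr rfl fun i _ => Finset.sum_congr rfl fun j _ => by
        simp only [Q]
        ring
    rw [h2, h1, mul_zero]
  · intro ξ
    obtain ⟨ζ, hζ⟩ := hlift ξ
    have hd : DifferentiableAt ℂ (fun p => Φ L (l₀, p)) (x, γ 0) :=
      (AnalyticAt.comp (g := Φ L) (f := fun p => (l₀, p)) (hΦ L l₀ x hx (γ 0))
        (analyticAt_const.prod analyticAt_id)).differentiableAt
    have h1 : (fderiv ℂ (fun p => Φ L (l₀, p)) (x, γ 0) (ξ, ζ)).1 = ξ := by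
      have h2 := (hasFDerivAt_fst (𝕜 := ℂ) (p := Φ L (l₀, (x, γ 0)))).comp (x, γ 0) hd.hasFDerivAt
      have h3 := h2.unique (hasFDerivAt_fst (𝕜 := ℂ) (p := (x, γ 0)))
      exact congrArg (fun A => A (ξ, ζ)) h3
    refine ⟨(fderiv ℂ (fun p => Φ L (l₀, p)) (x, γ 0) (ξ, ζ)).2, fun f hf h0 => ?_⟩
    have h4 := xsfama_par (H := fun q => f (Φ L q)) (p := (x, γ 0)) (v := (ξ, ζ))
      (fun l => hfΦ f hf L l x hx _) (fun r => hζ _ (hGf f hf L r) (hall f hf h0 r)) l₀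
    have h5 : Φ L (l₀, (x, γ 0)) = (x, β (x, l₀ • Q 0)) := by rw [hΦv, hb]
    have h6 : DifferentiableAt ℂ f (Φ L (l₀, (x, γ 0))) :=
      (hR f hf _ ⟨hx, trivial⟩).differentiableAt
    have h7 := (h6.hasFDerivAt.comp (x, γ 0) hd.hasFDerivAt).fderiv
    have h8 : fderiv ℂ f (Φ L (l₀, (x, γ 0)))
        (fderiv ℂ (fun p => Φ L (l₀, p)) (x, γ 0) (ξ, ζ)) = 0 := by
      rw [← h4]
      exact (congrArg (fun A => A (ξ, ζ)) h7).symm
    rw [h5] at h8
    rw [← h8]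
    congr 1
    exact Prod.ext h1.symm rfl
  · exact (analyticAt_const.add analyticAt_snd).smul ((T.analyticAt _).comp
      (AnalyticAt.comp (g := Q) (hQa 0 hγ) analyticAt_fst))
  · simp only [Prod.snd_zero, Prod.fst_zero, add_zero, hb]
  · refine xsfama_inj (hQa 0 hγ) hTi hl0 (ee j₀)
      (lin hτ hsx hγ hγi L hv' (fun _ _ _ => rfl) (ee j₀) fun h => hne ?_)
    have h1 := congrFun h.self_of_nhds i₀
    simpa [mv, Pi.single_apply] using h1
  · intro f hf h0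
    obtain ⟨ε, hε, hball⟩ := Metric.eventually_nhds_iff_ball.1 hγ.eventually_analyticAt
    have h1 : ∀ r : ℚ, ∀ s ∈ Metric.ball (0 : Fin k → ℂ) ε, f (x, (r : ℂ) • T (Q s)) = 0 := by
      intro r
      have hA : AnalyticOnNhd ℂ (fun s => f (x, (r : ℂ) • T (Q s))) (Metric.ball 0 ε) :=
        fun s hs => AnalyticAt.comp (g := f) (f := fun s => (x, (r : ℂ) • T (Q s)))
          (hR f hf _ ⟨hx, trivial⟩) (analyticAt_const.prod
            (AnalyticAt.const_smul (c := (r : ℂ)) (f := fun s => T (Q s))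
              ((T.analyticAt _).comp (hQa s (hball s hs)))))
      refine hA.eqOn_zero_of_preconnected_of_eventuallyEq_zero (convex_ball _ _).isPreconnected
        (Metric.mem_ball_self hε) ?_
      filter_upwards [hsel _ (hGf f hf L r) (hall f hf h0 r)] with s hs
      rw [hΦv] at hs
      exact hs
    have h2 : ∀ᶠ s : (Fin k → ℂ) × ℂ in 𝓝 0, s.1 ∈ Metric.ball (0 : Fin k → ℂ) ε :=
      continuous_fst.continuousAt.eventually (Metric.ball_mem_nhds _ hε)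
    filter_upwards [h2] with s hs
    exact xsfama_rat (hent f hf (T (Q s.1))) (fun r => h1 r _ hs) _

end Pool.Agent.MP_f58063_ag

end
end

section

open Complex Filter Topology Matrix Function

noncomputable section

namespace Pool.Agent.MP_f58063_ag

/-- an immersed germ inside a level set of a submersion has small dimension -/
theorem xsfamb_dim {W Y : Type} [NormedAddCommGroup W] [NormedSpace ℂ W] [FiniteDimensional ℂ W]
    [NormedAddCommGroup Y] [NormedSpace ℂ Y] [FiniteDimensional ℂ Y] {r : ℕ}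
    {g : W → Fin r → ℂ} {q : W} (hg : AnalyticAt ℂ g q) (hs : Surjective (fderiv ℂ g q))
    {ν : Y → W} (hν : AnalyticAt ℂ ν 0) (h0 : ν 0 = q)
    (hi : ∃ᶠ s in 𝓝 0, Injective (fderiv ℂ ν s)) (hz : ∀ᶠ s in 𝓝 0, g (ν s) = 0) :
    Module.finrank ℂ Y + r ≤ Module.finrank ℂ W := by
  have : CompleteSpace W := FiniteDimensional.complete ℂ W
  have hT : Tendsto ν (𝓝 0) (𝓝 q) := h0 ▸ hν.continuousAt.tendsto
  obtain ⟨s, s1, s2, s3, s4, s5⟩ := (hi.and_eventually (hν.eventually_analyticAt.and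
    ((hT.eventually hg.eventually_analyticAt).and
      ((hT.eventually (eventually_surj hg hs)).and hz.eventually_nhds)))).exists
  have e1 := (s3.differentiableAt.hasFDerivAt.comp s s2.differentiableAt.hasFDerivAt).unique
    ((hasFDerivAt_const (0 : Fin r → ℂ) s).congr_of_eventuallyEq s5)
  have hle : LinearMap.range (fderiv ℂ ν s).toLinearMap ≤
      LinearMap.ker (fderiv ℂ g (ν s)).toLinearMap := by
    rintro _ ⟨w, rfl⟩
    exact ContinuousLinearMap.ext_iff.1 e1 w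
  have h1 := Submodule.finrank_mono hle
  rw [LinearMap.finrank_range_of_inj s1] at h1
  have h2 := LinearMap.finrank_range_add_finrank_ker (fderiv ℂ g (ν s)).toLinearMap
  rw [LinearMap.range_eq_top.2 s4, finrank_top, Module.finrank_fin_fun] at h2
  omega

/-- a Nash parametrisation of the manifold cut out by a differential ring at a point -/
theorem famB {D W Y : Type} [NormedAddCommGroup D] [NormedSpace ℂ D] [FiniteDimensional ℂ D]
    [NormedAddCommGroup W] [NormedSpace ℂ W] [FiniteDimensional ℂ W]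
    [NormedAddCommGroup Y] [NormedSpace ℂ Y] [FiniteDimensional ℂ Y] {B : Set D}
    {ι : Type} [Fintype ι] (b : Module.Basis ι ℂ (D × W)) {R : Set (D × W → ℂ)}
    (hR : DRing b (B ×ˢ Set.univ) R) (hN : ∀ f ∈ R, ∀ p ∈ B ×ˢ Set.univ, NashAt f p) {x : D}
    (hx : x ∈ B) {q : W} (ha : ∀ ξ, ∃ η, ∀ f ∈ R, f (x, q) = 0 → fderiv ℂ f (x, q) (ξ, η) = 0)
    {ν : Y → W} (hν : AnalyticAt ℂ ν 0) (h0 : ν 0 = q)
    (hi : ∃ᶠ s in 𝓝 0, Injective (fderiv ℂ ν s))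
    (hv : ∀ f ∈ R, f (x, q) = 0 → ∀ᶠ s in 𝓝 0, f (x, ν s) = 0) :
    ∃ (m : ℕ) (l : D × W →L[ℂ] (Fin m → ℂ)) (μ : D × (Fin m → ℂ) → W),
      Module.finrank ℂ Y ≤ m ∧ AnalyticAt ℂ μ (x, l (x, q)) ∧
      (∀ φ : W →L[ℂ] ℂ, NashAt (fun e => φ (μ e)) (x, l (x, q))) ∧ μ (x, l (x, q)) = q ∧
      (∀ᶠ e in 𝓝 (x, l (x, q)), l (e.1, μ e) = e.2) ∧
      ∀ f ∈ R, f (x, q) = 0 → ∀ᶠ e in 𝓝 (x, l (x, q)), f (e.1, μ e) = 0 := by
  have : CompleteSpace W := FiniteDimensional.complete ℂ W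
  have : CompleteSpace D := FiniteDimensional.complete ℂ D
  have hp : ((x, q) : D × W) ∈ B ×ˢ (Set.univ : Set W) := ⟨hx, trivial⟩
  obtain ⟨r, h, hmem, hsurj, hgen⟩ := gen b hR hp
  have han : ∀ j, AnalyticAt ℂ (h j) (x, q) := fun j => hR.an _ (hmem j).1 _ hp
  obtain ⟨G, hG⟩ : ∃ G : D × W → Fin r → ℂ, G = fun z j => h j z := ⟨_, rfl⟩
  have hGj : ∀ z j, G z j = h j z := fun z j => by rw [hG]
  have hGa : AnalyticAt ℂ G (x, q) := hG ▸ analyticAt_pi_iff.2 han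
  have hG0 : G (x, q) = 0 := funext fun j => (hGj _ j).trans (hmem j).2
  have hGs : Surjective (fderiv ℂ G (x, q)) := hG ▸ hsurj
  have hW : ∀ a, ∃ η, fderiv ℂ G (x, q) (0, η) = a := fun a => by
    obtain ⟨⟨ξ, η₀⟩, h1⟩ := hGs a
    obtain ⟨η, h2⟩ := ha ξ
    have h3 : fderiv ℂ G (x, q) (ξ, η) = 0 := funext fun j => by
      rw [hG, xgen_pi han]
      exact h2 _ (hmem j).1 (hmem j).2
    refine ⟨η₀ - η, ?_⟩
    have h4 : ((0, η₀ - η) : D × W) = (ξ, η₀) - (ξ, η) := by simp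
    rw [h4, map_sub, h1, h3, sub_zero]
  obtain ⟨E, -⟩ : ∃ _E : (D × (Fin r → ℂ)) ≃L[ℂ] (Fin (Module.finrank ℂ D + r) → ℂ), True :=
    ⟨ContinuousLinearEquiv.ofFinrankEq (by
      rw [Module.finrank_prod, Module.finrank_fin_fun, Module.finrank_fin_fun]), trivial⟩
  have hd : HasFDerivAt (fun z : D × W => E (z.1, G z))
      (E.toContinuousLinearMap.comp ((ContinuousLinearMap.fst ℂ D W).prod (fderiv ℂ G (x, q)))) (x, q) :=
    E.hasFDerivAt.comp (x, q) (hasFDerivAt_fst.prodMk hGa.differentiableAt.hasFDerivAt)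
  have hHa : AnalyticAt ℂ (fun z : D × W => E (z.1, G z)) (x, q) :=
    (E.toContinuousLinearMap.analyticAt _).comp (analyticAt_fst.prod hGa)
  have hHs : Surjective (fderiv ℂ (fun z : D × W => E (z.1, G z)) (x, q)) := by
    rw [hd.fderiv]
    intro y
    obtain ⟨η, hη⟩ := hW ((E.symm y).2 - fderiv ℂ G (x, q) ((E.symm y).1, 0))
    refine ⟨((E.symm y).1, η), ?_⟩
    have h4 : (((E.symm y).1, η) : D × W) = ((E.symm y).1, 0) + (0, η) := by simp
    have h5 : fderiv ℂ G (x, q) ((E.symm y).1, η) = (E.symm y).2 := by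
      rw [h4, map_add, hη, add_sub_cancel]
    change E ((E.symm y).1, fderiv ℂ G (x, q) ((E.symm y).1, η)) = y
    rw [h5]
    exact E.apply_symm_apply y
  obtain ⟨m, l, Ψ, hm, hΨ, h1, h2⟩ := chart hHa hHs
  have hΘa : AnalyticAt ℂ (fun z : D × W => (E (z.1, G z), l z)) (x, q) :=
    hHa.prod (l.analyticAt _)
  have hΘN : ∀ φ : ((Fin (Module.finrank ℂ D + r) → ℂ) × (Fin m → ℂ)) →L[ℂ] ℂ,
      NashAt (fun z : D × W => φ (E (z.1, G z), l z)) (x, q) := fun φ => by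
    have k1 := NashAt.clm (φ.comp (((E.toContinuousLinearMap.comp (ContinuousLinearMap.inl ℂ D _)).comp
      (ContinuousLinearMap.fst ℂ D W)).prod l)) (x, q)
    have k2 := NashAt.sum (p := (x, q)) Finset.univ
      (F := fun j z => h j z * φ (E (0, Pi.single j 1), 0))
      fun j _ => (hN _ (hmem j).1 _ hp).mul (NashAt.const _ _)
    refine (k1.add k2).congr (Eventually.of_forall fun z => ?_)
    have k3 : ((E (z.1, G z), l z) : (Fin (Module.finrank ℂ D + r) → ℂ) × (Fin m → ℂ)) =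
        (E (z.1, 0), l z) + ∑ j, h j z • (E (0, Pi.single j 1), 0) := by
      have k4 : ((z.1, G z) : D × (Fin r → ℂ)) =
          (z.1, 0) + ∑ j, h j z • ((0, Pi.single j 1) : D × (Fin r → ℂ)) := by
        refine Prod.ext ?_ ?_
        · simp [Prod.fst_sum]
        · funext i
          simp [Prod.snd_sum, Finset.sum_apply, Pi.single_apply, hGj]
      refine Prod.ext ?_ ?_
      · simp only [k4, map_add, map_sum, map_smul, Prod.fst_add, Prod.fst_sum, Prod.smul_fst]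
      · simp [Prod.snd_sum]
    change φ (E (z.1, 0), l z) + ∑ j, h j z * φ (E (0, Pi.single j 1), 0) = φ (E (z.1, G z), l z)
    rw [k3, map_add, map_sum]
    simp only [map_smul, smul_eq_mul]
  have hinv := nash_inverse (Ψ := Ψ) hΘa hΘN hΨ h1 (h2.mono fun y hy => Prod.ext hy.1 hy.2)
  obtain ⟨L, hL⟩ : ∃ L : (D × (Fin m → ℂ)) →L[ℂ]
      ((Fin (Module.finrank ℂ D + r) → ℂ) × (Fin m → ℂ)), ∀ e, L e = (E (e.1, 0), e.2) :=
    ⟨((E.toContinuousLinearMap.comp (ContinuousLinearMap.inl ℂ D _)).comp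
      (ContinuousLinearMap.fst ℂ D _)).prod (ContinuousLinearMap.snd ℂ D _), fun _ => rfl⟩
  have hL0 : L (x, l (x, q)) = (E (x, G (x, q)), l (x, q)) := by rw [hL, hG0]
  have hΨL : AnalyticAt ℂ (fun e => Ψ (L e)) (x, l (x, q)) :=
    AnalyticAt.comp_of_eq hΨ (L.analyticAt _) hL0
  have hΨ0 : Ψ (L (x, l (x, q))) = (x, q) := by
    rw [hL0]
    exact h1.self_of_nhds
  have hTL : Tendsto L (𝓝 (x, l (x, q))) (𝓝 (E (x, G (x, q)), l (x, q))) :=
    hL0 ▸ L.continuous.continuousAt.tendsto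
  have hT : Tendsto (fun e => Ψ (L e)) (𝓝 (x, l (x, q))) (𝓝 (x, q)) := by
    have k1 := hΨL.continuousAt.tendsto
    rwa [hΨ0] at k1
  have key : ∀ᶠ e in 𝓝 (x, l (x, q)), (e.1, (Ψ (L e)).2) = Ψ (L e) ∧ G (Ψ (L e)) = 0 ∧
      l (Ψ (L e)) = e.2 := by
    filter_upwards [hTL.eventually h2] with e he
    have k1 : E ((Ψ (L e)).1, G (Ψ (L e))) = E (e.1, 0) := he.1.trans (by rw [hL])
    have k2 := E.injective k1
    exact ⟨Prod.ext (congrArg Prod.fst k2).symm rfl, congrArg Prod.snd k2,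
      he.2.trans (by rw [hL])⟩
  refine ⟨m, l, fun e => (Ψ (L e)).2, ?_, analyticAt_snd.comp hΨL, fun φ => ?_,
    congrArg Prod.snd hΨ0, key.mono fun e he => by rw [he.1, he.2.2], fun f hf hf0 => ?_⟩
  · have hι : HasFDerivAt (fun w : W => ((x, w) : D × W)) (ContinuousLinearMap.inr ℂ D W) q :=
      (hasFDerivAt_const x q).prodMk (hasFDerivAt_id q)
    have k1 : AnalyticAt ℂ (fun w : W => G (x, w)) q :=
      hGa.comp (f := fun w : W => ((x, w) : D × W)) (analyticAt_const.prod analyticAt_id)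
    have k2 : Surjective (fderiv ℂ (fun w : W => G (x, w)) q) := by
      have k3 : HasFDerivAt (fun w : W => G (x, w)) _ q :=
        HasFDerivAt.comp (f := fun w : W => ((x, w) : D × W)) q
          hGa.differentiableAt.hasFDerivAt hι
      rw [k3.fderiv]
      exact hW
    have k4 : ∀ᶠ s in 𝓝 0, G (x, ν s) = 0 := by
      filter_upwards [eventually_all.2 fun j => hv _ (hmem j).1 (hmem j).2] with s hs
      exact funext fun j => (hGj _ j).trans (hs j)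
    have k5 := xsfamb_dim k1 k2 hν h0 hi k4
    rw [Module.finrank_prod] at hm
    omega
  · have k1 := hinv (φ.comp (ContinuousLinearMap.snd ℂ D W))
    have k2 : (E (x, G (x, q)), l (x, q)) = L (x, l (x, q)) + 0 := by rw [add_zero, hL0]
    have k3 := NashAt.comp_affine L 0 (y := (x, l (x, q))) (k2 ▸ k1)
    simpa using k3
  · filter_upwards [key, hT.eventually (hgen f hf hf0)] with e he hz
    rw [he.1]
    exact hz fun j => (hGj _ j).symm.trans (congrFun he.2.1 j)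

end Pool.Agent.MP_f58063_ag

end
end

section

open Complex Filter Topology Matrix Function

noncomputable section

namespace Pool.Agent.MP_f58063_ag

/-- the change of frame -/
def xsfamB {d g : ℕ} (V : (Fin d → ℂ) → Matrix (Fin g) (Fin g) ℂ) (p : (Fin d → ℂ) × Mat g) :
    Mat g :=
  Matrix.of.symm ((V p.1)⁻¹ * Matrix.of p.2 * (V p.1)⁻¹ᵀ)

/-- the equations of the family of conormal quadrics -/
def xsfamF {d g : ℕ} (n : ℕ) (ψ : (Fin d → ℂ) → Mat g)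
    (V : (Fin d → ℂ) → Matrix (Fin g) (Fin g) ℂ) :
    (Fin g × Fin g) ⊕ Fin d ⊕ ((Fin n → Fin g) × (Fin n → Fin g)) → (Fin d → ℂ) × Mat g → ℂ
  | .inl a => fun e => e.2 a.1 a.2 - e.2 a.2 a.1
  | .inr (.inl i) => fun e => ∑ a, ∑ b, e.2 a b *
      ((V e.1)ᵀ * Matrix.of (fderiv ℂ ψ e.1 (Pi.single i 1)) * V e.1) b a
  | .inr (.inr r) => fun e => ((Matrix.of e.2).submatrix r.1 r.2).det

/-- an entry as a continuous linear form -/
def xsfamE {g : ℕ} (a b : Fin g) : Mat g →L[ℂ] ℂ :=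
  (ContinuousLinearMap.proj b).comp
    (ContinuousLinearMap.proj (R := ℂ) (φ := fun _ : Fin g => Fin g → ℂ) a)

lemma xsfam_entry {d g : ℕ} (a b : Fin g) (p : (Fin d → ℂ) × Mat g) :
    NashAt (fun e : (Fin d → ℂ) × Mat g => e.2 a b) p :=
  NashAt.clm ((xsfamE a b).comp (ContinuousLinearMap.snd ℂ (Fin d → ℂ) (Mat g))) p

lemma xsfam_nash {d g : ℕ} (n : ℕ) {ψ : (Fin d → ℂ) → Mat g}
    {V : (Fin d → ℂ) → Matrix (Fin g) (Fin g) ℂ} {p : (Fin d → ℂ) × Mat g}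
    (hN : ∀ ξ a b, NashAt (fun x' => ((V x')ᵀ * Matrix.of (fderiv ℂ ψ x' ξ) * V x') a b) p.1)
    (i) : NashAt (xsfamF n ψ V i) p := by
  rcases i with a | i | r
  · exact (xsfam_entry a.1 a.2 p).sub (xsfam_entry a.2 a.1 p)
  · exact NashAt.sum _ fun a _ => NashAt.sum _ fun b _ =>
      (xsfam_entry a b p).mul (NashAt.comp_fst (hN (Pi.single i 1) b a))
  · exact NashAt.det (F := fun e : (Fin d → ℂ) × Mat g => (Matrix.of e.2).submatrix r.1 r.2)
      fun a b => xsfam_entry (r.1 a) (r.2 b) p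

lemma xsfam_back {d g : ℕ} {V : (Fin d → ℂ) → Matrix (Fin g) (Fin g) ℂ} {x : Fin d → ℂ}
    (h : (V x).det ≠ 0) (Q : Mat g) :
    V x * Matrix.of (xsfamB V (x, Q)) * (V x)ᵀ = Matrix.of Q := by
  have h1 : V x * (V x)⁻¹ = 1 := mul_nonsing_inv _ h.isUnit
  have h2 : (V x)⁻¹ᵀ * (V x)ᵀ = 1 := by rw [← transpose_mul, h1, transpose_one]
  change V x * ((V x)⁻¹ * Matrix.of Q * (V x)⁻¹ᵀ) * (V x)ᵀ = _
  rw [Matrix.mul_assoc, Matrix.mul_assoc, h2, Matrix.mul_one, ← Matrix.mul_assoc, h1,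
    Matrix.one_mul]

lemma xsfam_lin {d g : ℕ} {V : (Fin d → ℂ) → Matrix (Fin g) (Fin g) ℂ} {x : Fin d → ℂ}
    (h : (V x).det ≠ 0) :
    ∃ L : Mat g →L[ℂ] Mat g, Injective L ∧ ∀ Q, xsfamB V (x, Q) = L Q := by
  let L : Mat g →ₗ[ℂ] Mat g :=
    { toFun := fun Q => xsfamB V (x, Q)
      map_add' := fun Q Q' => by
        change (V x)⁻¹ * (Matrix.of Q + Matrix.of Q') * (V x)⁻¹ᵀ =
          (V x)⁻¹ * Matrix.of Q * (V x)⁻¹ᵀ + (V x)⁻¹ * Matrix.of Q' * (V x)⁻¹ᵀ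
        rw [Matrix.mul_add, Matrix.add_mul]
      map_smul' := fun c Q => by
        change (V x)⁻¹ * (c • Matrix.of Q) * (V x)⁻¹ᵀ = c • ((V x)⁻¹ * Matrix.of Q * (V x)⁻¹ᵀ)
        rw [Matrix.mul_smul, Matrix.smul_mul] }
  refine ⟨LinearMap.toContinuousLinearMap L, fun Q Q' e => ?_, fun _ => rfl⟩
  have e' : xsfamB V (x, Q) = xsfamB V (x, Q') := e
  apply Matrix.of.injective
  rw [← xsfam_back h Q, ← xsfam_back h Q', e']

lemma xsfam_an {d g : ℕ} {V : (Fin d → ℂ) → Matrix (Fin g) (Fin g) ℂ}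
    {p : (Fin d → ℂ) × Mat g} (hV : ∀ a b, AnalyticAt ℂ (fun x => V x a b) p.1)
    (h : (V p.1).det ≠ 0) : AnalyticAt ℂ (xsfamB V) p := by
  have h1 : ∀ a b, AnalyticAt ℂ (fun e : (Fin d → ℂ) × Mat g => (V e.1)⁻¹ a b) p := fun a b =>
    AnalyticAt.comp (g := fun x => (V x)⁻¹ a b) (an_inv hV h a b) analyticAt_fst
  refine AnalyticAt.pi fun a => AnalyticAt.pi fun b => ?_
  exact an_mul (A := fun e : (Fin d → ℂ) × Mat g => (V e.1)⁻¹ * Matrix.of e.2)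
    (B := fun e => (V e.1)⁻¹ᵀ)
    (an_mul (A := fun e : (Fin d → ℂ) × Mat g => (V e.1)⁻¹) (B := fun e => Matrix.of e.2) h1
      fun a b => (xsfam_entry a b p).1) (fun a b => h1 b a) a b

lemma xsfam_tr {g : ℕ} (V q A : Matrix (Fin g) (Fin g) ℂ) :
    ∑ a, ∑ b, q a b * (Vᵀ * A * V) b a = trace (V * q * Vᵀ * A) := by
  have h : trace (V * q * Vᵀ * A) = trace (q * (Vᵀ * A * V)) := by
    rw [Matrix.mul_assoc, Matrix.mul_assoc, trace_mul_comm, Matrix.mul_assoc]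
  rw [h]
  simp only [trace, Matrix.diag_apply, Matrix.mul_apply (M := q)]

lemma xsfam_xi {d g : ℕ} (M : Matrix (Fin g) (Fin g) ℂ) (A : (Fin d → ℂ) →L[ℂ] Mat g)
    (h : ∀ i, trace (M * Matrix.of (A (Pi.single i 1))) = 0) (ξ : Fin d → ℂ) :
    trace (M * Matrix.of (A ξ)) = 0 := by
  let T : (Fin d → ℂ) →ₗ[ℂ] ℂ :=
    { toFun := fun ξ => trace (M * Matrix.of (A ξ))
      map_add' := fun u v => by
        rw [map_add]
        change trace (M * (Matrix.of (A u) + Matrix.of (A v))) = _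
        rw [Matrix.mul_add, trace_add]
      map_smul' := fun c u => by
        rw [map_smul]
        change trace (M * (c • Matrix.of (A u))) = _
        rw [Matrix.mul_smul, trace_smul]
        rfl }
  have hT : T = 0 := (Pi.basisFun ℂ (Fin d)).ext fun i => by
    rw [Pi.basisFun_apply]
    exact h i
  exact congrArg (fun S : (Fin d → ℂ) →ₗ[ℂ] ℂ => S ξ) hT

lemma xsfam_van {d g k : ℕ} {ψ : (Fin d → ℂ) → Mat g}
    {V : (Fin d → ℂ) → Matrix (Fin g) (Fin g) ℂ} {x : Fin d → ℂ} (h : (V x).det ≠ 0) {Q : Mat g}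
    (hQ : ∀ i j, Q i j = Q j i) (hr : (Matrix.of Q).rank + k ≤ g)
    (hc : ∀ ξ, ∑ i, ∑ j, fderiv ℂ ψ x ξ i j * Q i j = 0) (i) :
    xsfamF (g - k + 1) ψ V i (x, xsfamB V (x, Q)) = 0 := by
  rcases i with a | i | r
  · have h1 : (Matrix.of Q)ᵀ = Matrix.of Q := by
      ext i j
      exact hQ j i
    have h2 : ((V x)⁻¹ * Matrix.of Q * (V x)⁻¹ᵀ)ᵀ = (V x)⁻¹ * Matrix.of Q * (V x)⁻¹ᵀ := by
      rw [transpose_mul, transpose_mul, transpose_transpose, h1, Matrix.mul_assoc]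
    exact sub_eq_zero.2 (congrFun (congrFun h2 a.2) a.1)
  · refine (xsfam_tr (V x) (Matrix.of (xsfamB V (x, Q))) _).trans ?_
    rw [xsfam_back h, trace_mul_comm, ← hc (Pi.single i 1)]
    simp only [trace, Matrix.diag_apply, Matrix.mul_apply, Matrix.of_apply]
    exact Finset.sum_congr rfl fun a _ => Finset.sum_congr rfl fun b _ => by rw [hQ b a]
  · refine (rank_le_iff_minors (Matrix.of (xsfamB V (x, Q))) (g - k)).1 ?_ r.1 r.2
    have h1 : ((V x)⁻¹ * Matrix.of Q * (V x)⁻¹ᵀ).rank ≤ (Matrix.of Q).rank :=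
      (rank_mul_le_left _ _).trans (rank_mul_le_right _ _)
    exact h1.trans (by omega)

lemma xsfam_inj {d g m : ℕ} {l : (Fin d → ℂ) × Mat g →L[ℂ] (Fin m → ℂ)}
    {μ : (Fin d → ℂ) × (Fin m → ℂ) → Mat g} {e : (Fin d → ℂ) × (Fin m → ℂ)}
    (hμ : AnalyticAt ℂ μ e) (h : ∀ᶠ y in 𝓝 e, l (y.1, μ y) = y.2) (ζ : Fin m → ℂ)
    (hζ : dM (fun y => Matrix.of (μ y)) e (0, ζ) = 0) : ζ = 0 := by
  have h0 := hμ.differentiableAt.hasFDerivAt
  have h1 : fderiv ℂ μ e (0, ζ) = 0 := by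
    funext a b
    have h2 := ((xsfamE a b).hasFDerivAt.comp e h0).fderiv
    have h3 : fderiv ℂ (fun y => μ y a b) e (0, ζ) = 0 := congrFun (congrFun hζ a) b
    have h4 : fderiv ℂ (fun y => μ y a b) e = (xsfamE a b).comp (fderiv ℂ μ e) := h2
    rw [h4] at h3
    exact h3
  have h5 : HasFDerivAt (fun y : (Fin d → ℂ) × (Fin m → ℂ) => l (y.1, μ y))
      (l.comp ((ContinuousLinearMap.fst ℂ _ _).prod (fderiv ℂ μ e))) e :=
    l.hasFDerivAt.comp e (hasFDerivAt_fst.prodMk h0)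
  have h6 := h5.unique (hasFDerivAt_snd.congr_of_eventuallyEq h)
  have h7 : l (0, fderiv ℂ μ e (0, ζ)) = ζ := congrArg (fun A => A (0, ζ)) h6
  rw [← h7, h1]
  exact map_zero l

/-- a Nash family of conormal quadrics of corank at least `k` with at least `k + 1` parameters -/
theorem fam {d g k : ℕ} {B : Set (Fin d → ℂ)} (hB : IsOpen B) (hBc : IsPreconnected B)
    {ψ : (Fin d → ℂ) → Mat g} (hψ : AnalyticOnNhd ℂ ψ B) (hAM : ∀ x ∈ B, ψ x ∈ AM g k)
    {x₁ : Fin d → ℂ} (hx₁ : x₁ ∈ B) (hs : IsSimple (ψ x₁))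
    {V : (Fin d → ℂ) → Matrix (Fin g) (Fin g) ℂ}
    (hV : ∀ a b, AnalyticOnNhd ℂ (fun x => V x a b) B) (hdet : ∀ x ∈ B, (V x).det ≠ 0)
    (hN : ∀ x ∈ B, ∀ ξ a b,
      NashAt (fun x' => ((V x')ᵀ * Matrix.of (fderiv ℂ ψ x' ξ) * V x') a b) x) :
    ∃ (m : ℕ) (p : (Fin d → ℂ) × (Fin m → ℂ))
      (q : (Fin d → ℂ) × (Fin m → ℂ) → Matrix (Fin g) (Fin g) ℂ), k + 1 ≤ m ∧ k ≤ g ∧ p.1 ∈ B ∧
      (∀ a b, NashAt (fun e => q e a b) p) ∧ q p ≠ 0 ∧ ∀ᶠ e in 𝓝 p, (q e)ᵀ = q e ∧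
        (∀ ξ, trace (V e.1 * q e * (V e.1)ᵀ * Matrix.of (fderiv ℂ ψ e.1 ξ)) = 0) ∧
        (∀ r c : Fin (g - k + 1) → Fin g, ((q e).submatrix r c).det = 0) ∧
        ∀ ζ : Fin m → ℂ, dM q e (0, ζ) = 0 → ζ = 0 := by
  obtain ⟨R, hR, hFR, hRN, hRc⟩ := exists_DRing (S := Set.range (xsfamF (g - k + 1) ψ V))
    (nash_DRing (Module.finBasis ℂ ((Fin d → ℂ) × Mat g)) (B ×ˢ Set.univ))
    (by
      rintro _ ⟨i, rfl⟩ p hp
      exact xsfam_nash _ (hN p.1 hp.1) i) (Set.countable_range _)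
  obtain ⟨x, hx, Q, hQ0, hQ, hr, hc, ha, ν, hν, h0, hi, hv⟩ := famA hB hBc hψ hAM hx₁ hs
    (β := xsfamB V) (fun p hp => xsfam_an (fun a b => hV a b p.1 hp.1) (hdet p.1 hp.1))
    (fun x hx => xsfam_lin (hdet x hx)) hR.an hRc
  obtain ⟨m, l, μ, hm, hμ, hμN, hμ0, hl, hz⟩ := famB (Module.finBasis ℂ ((Fin d → ℂ) × Mat g)) hR
    (fun f hf => hRN hf) hx ha hν h0 hi hv
  refine ⟨m, (x, l (x, xsfamB V (x, Q))), fun e => Matrix.of (μ e), ?_, by omega, hx,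
    fun a b => hμN (xsfamE a b), fun e => hQ0 ?_, ?_⟩
  · rwa [Module.finrank_prod, Module.finrank_fin_fun, Module.finrank_self] at hm
  · apply Matrix.of.injective
    rw [← xsfam_back (hdet x hx) Q, ← hμ0]
    have e' : Matrix.of (μ (x, l (x, xsfamB V (x, Q)))) = 0 := e
    rw [e', Matrix.mul_zero, Matrix.zero_mul]
    rfl
  · have h1 := eventually_all.2 fun i =>
      hz _ (hFR ⟨i, rfl⟩) (xsfam_van (hdet x hx) hQ hr hc i)
    filter_upwards [h1, hμ.eventually_analyticAt, hl.eventually_nhds] with e he h2 h3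
    refine ⟨?_, fun ξ => xsfam_xi _ _ (fun i => ?_) ξ, fun r c => he (.inr (.inr (r, c))),
      xsfam_inj h2 h3⟩
    · ext a b
      exact sub_eq_zero.1 (he (.inl (b, a)))
    · exact (xsfam_tr (V e.1) (Matrix.of (μ e)) _).symm.trans (he (.inr (.inl i)))

end Pool.Agent.MP_f58063_ag

end
end

section

open Complex Filter Topology Matrix Function

noncomputable section

namespace Pool.Agent.MP_f58063_ag

lemma xsm_dM_fst {X Y l m : Type} [NormedAddCommGroup X] [NormedSpace ℂ X] [NormedAddCommGroup Y]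
    [NormedSpace ℂ Y] {A : X → Matrix l m ℂ} {e : X × Y}
    (hA : ∀ a b, AnalyticAt ℂ (fun x => A x a b) e.1) (ξ : X × Y) :
    dM (fun z : X × Y => A z.1) e ξ = dM A e.1 ξ.1 := by
  ext a b
  have := ((hA a b).differentiableAt.hasFDerivAt.comp e hasFDerivAt_fst).fderiv
  exact congrArg (fun L => L ξ) this

lemma xsm_dM_of {X : Type} [NormedAddCommGroup X] [NormedSpace ℂ X] {g : ℕ} {ψ : X → Mat g}
    {x : X} (hψ : AnalyticAt ℂ ψ x) (ξ : X) :
    dM (fun z => Matrix.of (ψ z)) x ξ = Matrix.of (fderiv ℂ ψ x ξ) := by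
  ext a b
  have := (((ContinuousLinearMap.proj b).comp
    (ContinuousLinearMap.proj (R := ℂ) (φ := fun _ : Fin g => Fin g → ℂ) a)).hasFDerivAt.comp x
      hψ.differentiableAt.hasFDerivAt).fderiv
  exact congrArg (fun L => L ξ) this

lemma xsm_dM_zero {X l m : Type} [NormedAddCommGroup X] [NormedSpace ℂ X] (A : X → Matrix l m ℂ)
    (x : X) : dM A x 0 = 0 := by
  ext a b
  simp [dM]

theorem sharp {g k d : ℕ} {S : Set (Mat g)} (hS : IsMfd S d) (hAM : S ⊆ AM g k)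
    (hs : ∃ τ ∈ S, IsSimple τ) (hA : AlgDim S d) (hM : BigMon S) :
    d + (k + 1) * (k + 2) / 2 ≤ g * (g + 1) / 2 := by
  classical
  by_contra hcon
  obtain ⟨τ₀, h0, hs0⟩ := hs
  have hSS : S ⊆ Siegel g := fun τ h => (hAM h).1
  obtain ⟨N, n, c₀, cs, ch, hN, hhc, hc0, hcs, hch, hΩ0, hsep⟩ := sep (hSS h0)
  have hΩ := isOpen_Om c₀ cs
  have hP := Om_sub c₀ cs
  have hΓ : (Gam g (2 * N ^ 2)).FiniteIndex := Gam_finiteIndex g (by positivity)
  have hst : ∀ γ ∈ Gam g (2 * N ^ 2), ∀ τ ∈ Siegel g ∩ Om c₀ cs, act γ τ ∈ Om c₀ cs :=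
    fun γ hγ τ hτ => (jet_act hN hγ hτ.1 hc0 hcs hτ.2).1
  obtain ⟨e, ψ, x₀, r, hr, hψ0, hψ, hcov, hB⟩ := coord hS hSS h0 hΩ hΩ0
    (y := fun j => yq c₀ (ch j))
    (fun j τ hτ => (Mod_yq hN hc0 hcs (hch j)).1.analyticAt hΩ hP hτ) hsep
  set B := Metric.ball x₀ r with hBdef
  have hBo : IsOpen B := Metric.isOpen_ball
  have hev : ∀ x ∈ B, ∀ᶠ x' in 𝓝 x, x' ∈ B := fun x hx => hBo.mem_nhds hx
  have hcomp : ∀ {f : Mat g → ℂ}, Mer (Om c₀ cs) f → ∀ x ∈ B, AnalyticAt ℂ (fun x => f (ψ x)) x :=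
    fun hf x hx => AnalyticAt.comp (hf.analyticAt hΩ hP (hB x hx).2.1) (hψ x hx)
  have hNF := fun x (hx : x ∈ B) ξ => nash_frame (e := e) hA hN hc0 hcs hch (hψ x hx)
    ((hev x hx).mono fun x' h' => ⟨(hB x' h').1, hSS (hB x' h').1, (hB x' h').2.1,
      (hB x' h').2.2.1, (hB x' h').2.2.2.2⟩) ξ
  obtain ⟨m, p, q, hm, hk, hp, hq, hq0, hfam⟩ := fam (V := fun x => Vf c₀ cs (ψ x)) hBo
    (convex_ball x₀ r).isPreconnected hψ (fun x hx => hAM (hB x hx).1)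
    (Metric.mem_ball_self hr) (hψ0 ▸ hs0) (fun a b => hcomp (Mer_Vf c₀ cs a b))
    (fun x hx => (hB x hx).2.1.2.2) fun x hx ξ => (hNF x hx ξ).1
  let b := (Pi.basisFun ℂ (Fin d)).prod (Pi.basisFun ℂ (Fin m))
  have hb : ∀ z : (Fin d → ℂ) × (Fin m → ℂ), (fun i => b.repr z i) = Sum.elim z.1 z.2 := by
    intro z
    funext i
    rcases i with i | i <;> simp [b]
  have hevp : ∀ᶠ z in 𝓝 p, z.1 ∈ B := continuous_fst.continuousAt.eventually (hev _ hp)
  have hent : ∀ x ∈ B, ∀ a c, AnalyticAt ℂ (fun x => Matrix.of (ψ x) a c) x :=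
    fun x hx a c => hcomp (Mer.entry a c) x hx
  have hfst : ∀ {f : (Fin d → ℂ) → ℂ} {z : (Fin d → ℂ) × (Fin m → ℂ)}, AnalyticAt ℂ f z.1 →
      AnalyticAt ℂ (fun w : (Fin d → ℂ) × (Fin m → ℂ) => f w.1) z :=
    fun hf => AnalyticAt.comp hf analyticAt_fst
  obtain ⟨σ, t₀, u, hσ0, hσ, hu, hτψ, hy⟩ := stage_curve (k := k) (s := g - k) b p
    (fun z => Matrix.of (ψ z.1)) (fun z => ψf c₀ (ψ z.1)) (fun z => Vf c₀ cs (ψ z.1)) q
    (fun z => Pf c₀ cs (ψ z.1)) (fun _ => rfl) (fun a c => hfst (hent _ hp a c))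
    (fun a c => hfst (hcomp (Mer_ψf c₀ cs a c) _ hp))
    (fun a c => hfst (hcomp (Mer_Vf c₀ cs a c) _ hp)) hq (hB _ hp).2.1.2.2 hq0
    (by
      filter_upwards [hevp, hfam] with z hz h1
      refine ⟨?_, ψf_symm c₀ (hP (hB _ hz).2.1), h1.1⟩
      ext a c
      exact (hSS (hB _ hz).1).1 c a)
    (fun i a c => by
      refine ((hNF _ hp (b i).1).2 a c).comp_fst.congr ?_
      filter_upwards [hevp] with z hz
      rw [xsm_dM_fst (A := fun x => Pf c₀ cs (ψ x)) fun a c => hcomp (Mer_Pf c₀ cs a c) _ hz])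
    (fun R hR => by
      simp only [hb] at hR ⊢
      exact zar hS hSS hM hΓ hΩ hP hst (y := fun i => yq c₀ (ch (e i)))
        (fun i => Mod_yq hN hc0 hcs (hch _)) (Mer_Pf c₀ cs)
        (fun γ hγ τ hτ => (jet_act hN hγ hτ.1 hc0 hcs hτ.2).2.2.2) hψ (hψ0 ▸ hcov)
        (fun x hx => ⟨(hB x hx).1, (hB x hx).2.1, (hB x hx).2.2.1⟩) hp R hR)
    (by
      filter_upwards [hevp, hfam] with z hz h1 ξ
      rw [xsm_dM_fst (A := fun x => Matrix.of (ψ x)) (hent _ hz), xsm_dM_of (hψ _ hz)]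
      exact h1.2.1 _)
    (by
      have hqa : ∀ᶠ z in 𝓝 p, ∀ a c, AnalyticAt ℂ (fun e => q e a c) z :=
        eventually_all.2 fun a => eventually_all.2 fun c => (hq a c).1.eventually_analyticAt
      filter_upwards [hevp, hfam, hqa] with z hz h1 h2 ξ h3 h4
      rw [xsm_dM_fst (A := fun x => Matrix.of (ψ x)) (hent _ hz), xsm_dM_of (hψ _ hz)] at h3
      have h5 : ξ.1 = 0 := (hB _ hz).2.2.2.1 (by rw [map_zero]; exact h3)
      have hV : ∀ a c, AnalyticAt ℂ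
          (fun w : (Fin d → ℂ) × (Fin m → ℂ) => Vf c₀ cs (ψ w.1) a c) z :=
        fun a c => hfst (hcomp (Mer_Vf c₀ cs a c) _ hz)
      have h6 : dM (fun w : (Fin d → ℂ) × (Fin m → ℂ) => Vf c₀ cs (ψ w.1)) z ξ = 0 := by
        rw [xsm_dM_fst (A := fun x => Vf c₀ cs (ψ x)) fun a c => hcomp (Mer_Vf c₀ cs a c) _ hz,
          h5, xsm_dM_zero]
      have h7 : dM (fun w : (Fin d → ℂ) × (Fin m → ℂ) => (Vf c₀ cs (ψ w.1))ᵀ) z ξ = 0 :=
        congrArg transpose h6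
      rw [dM_mul (A := fun w => Vf c₀ cs (ψ w.1) * q w) (B := fun w => (Vf c₀ cs (ψ w.1))ᵀ)
          (an_mul hV h2) (fun a c => hV c a),
        dM_mul hV h2, h6, h7, Matrix.zero_mul, zero_add, Matrix.mul_zero, add_zero] at h4
      have hu : IsUnit (Vf c₀ cs (ψ z.1)).det := (hB _ hz).2.1.2.2.isUnit
      have h8 : dM q z ξ = 0 := by
        have := congrArg (fun A => (Vf c₀ cs (ψ z.1))⁻¹ * A * ((Vf c₀ cs (ψ z.1))ᵀ)⁻¹) h4
        have hu' : IsUnit ((Vf c₀ cs (ψ z.1))ᵀ).det := by rwa [det_transpose]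
        simpa [Matrix.mul_assoc, Matrix.mul_nonsing_inv _ hu',
          Matrix.nonsing_inv_mul_cancel_left _ _ hu] using this
      have h9 : ξ = (0, ξ.2) := Prod.ext h5 rfl
      rw [h9] at h8 ⊢
      rw [h1.2.2.2 _ h8]
      rfl)
    (by omega) (hfam.mono fun z h1 => h1.2.2.1)
    (by
      have e1 : (k + 1) * (k + 2) / 2 = k * (k + 1) / 2 + (k + 1) := by
        rw [show (k + 1) * (k + 2) = k * (k + 1) + (k + 1) * 2 by ring, Nat.add_mul_div_right _ _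
          two_pos]
      simp only [Fintype.card_sum, Fintype.card_fin]
      omega)
    (f := fun (ε : LL g → Fin 2) z => yq c₀ (hc ε) (ψ z.1))
    (fun ε => (nash_of_mod hA hΓ hΩ hP hst (y := fun i => yq c₀ (ch (e i)))
      (fun i => Mod_yq hN hc0 hcs (hch _)) (Mod_yq hN hc0 hcs (hhc ε)) (hψ _ hp)
      ((hev _ hp).mono fun x' h' => ⟨(hB x' h').1, hSS (hB x' h').1, (hB x' h').2.1,
        (hB x' h').2.2.1⟩)).comp_fst) hevp
  have hσB : ∀ᶠ t in 𝓝 t₀, (σ t).1 ∈ B :=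
    hσ.continuousAt.eventually (mem_interior_iff_mem_nhds.1 hσ0)
  exact no_frame_curve (c₀ := c₀) (τ := fun t => ψ (σ t).1) (u := u) (fun a c => (hτψ a c).1)
    ((hσB.and hu).mono fun t h => ⟨hSS (hB _ h.1).1, h.2⟩) (hB _ hσB.self_of_nhds).2.1.2.1
    (fun a c => (hτψ a c).2) hy

end Pool.Agent.MP_f58063_ag

end
end
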