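import Pool.Agent.Mg.Fcf0a82q.Gf9af85
import Pool.Agent.Mg.Fcf0a82q.Ga9bf1b

section

open Complex Filter Topology Matrix Function Asymptotics

noncomputable section

namespace Pool.Agent.MP_f58063_ag

variable {l : Type} [Fintype l] [DecidableEq l] (κ : Type) [Fintype κ] [DecidableEq κ]

/-- the tensor product of a family of matrices -/
def xekronK {κ : Type} [Fintype κ] (F : κ → Matrix l l ℂ) : Matrix (κ → l) (κ → l) ℂ :=
  Matrix.of fun a b => ∏ i, F i (a i) (b i)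

theorem xekron_mul {κ : Type} [Fintype κ] [DecidableEq κ] (F G : κ → Matrix l l ℂ) :
    xekronK F * xekronK G = xekronK fun i => F i * G i := by
  ext a b
  simp only [xekronK, Matrix.mul_apply, Matrix.of_apply, Finset.prod_univ_sum,
    Fintype.piFinset_univ, Finset.prod_mul_distrib]

omit [Fintype l] in
theorem xekron_dkr (X : Matrix l l ℂ) :
    dkr κ X = ∑ i, xekronK (update (fun _ : κ => (1 : Matrix l l ℂ)) i X) := by
  ext a b
  simp only [dkr, xekronK, Matrix.sum_apply, Matrix.of_apply]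
  refine Finset.sum_congr rfl fun i _ => ?_
  rw [← Finset.mul_prod_erase _ _ (Finset.mem_univ i), update_self]
  congr 1
  exact Finset.prod_congr rfl fun j hj => by rw [update_of_ne (Finset.ne_of_mem_erase hj)]

theorem xekron_O {E κ : Type} [DecidableEq κ] {F : Filter E} {r : E → ℝ} (δ : κ → ℂ)
    {x : κ → E → ℂ} (h : ∀ i, x i =O[F] r) (h1 : ∀ i, x i =O[F] fun _ => (1 : ℝ)) (s : Finset κ) :
    (fun X => ∏ i ∈ s, (δ i + x i X) - ∏ i ∈ s, δ i - ∑ i ∈ s, x i X * ∏ j ∈ s.erase i, δ j)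
      =O[F] fun X => r X ^ 2 := by
  induction s using Finset.induction_on with
  | empty => simpa using isBigO_zero _ _
  | insert a s ha ih =>
    have h2 : (fun X => ∑ i ∈ s, x i X * ∏ j ∈ s.erase i, δ j) =O[F] r :=
      IsBigO.fun_sum fun i _ => ((h i).const_mul_left _).congr_left fun _ => mul_comm _ _
    have h3 := ((isBigO_const_const (δ a) one_ne_zero F).add (h1 a)).mul ih
    have h4 := (h a).mul h2
    simp only [one_mul] at h3
    simp only [← sq] at h4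
    refine (h3.add h4).congr_left fun X => ?_
    have h5 : ∑ i ∈ s, x i X * ∏ j ∈ (insert a s).erase i, δ j =
        δ a * ∑ i ∈ s, x i X * ∏ j ∈ s.erase i, δ j := by
      rw [Finset.mul_sum]
      refine Finset.sum_congr rfl fun i hi => ?_
      rw [Finset.erase_insert_of_ne (ne_of_mem_of_not_mem hi ha).symm,
        Finset.prod_insert fun h => ha (Finset.mem_of_mem_erase h), mul_left_comm]
    rw [Finset.prod_insert ha, Finset.prod_insert ha, Finset.sum_insert ha, h5,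
      Finset.erase_insert ha]
    ring

theorem kr_one : kr κ (1 : Matrix l l ℂ) = 1 := by
  ext a b
  simp only [kr, Matrix.of_apply, Matrix.one_apply, Finset.prod_boole, Finset.mem_univ,
    forall_const, funext_iff]

theorem kr_mul (M N : Matrix l l ℂ) : kr κ (M * N) = kr κ M * kr κ N := by
  exact (xekron_mul (fun _ => M) fun _ => N).symm

theorem kr_inv_mul {M : Matrix l l ℂ} (h : IsUnit M.det) : kr κ M⁻¹ * kr κ M = 1 := by
  rw [← kr_mul, nonsing_inv_mul M h, kr_one]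

theorem kr_mul_inv {M : Matrix l l ℂ} (h : IsUnit M.det) : kr κ M * kr κ M⁻¹ = 1 := by
  rw [← kr_mul, mul_nonsing_inv M h, kr_one]

theorem kr_conjTranspose (M : Matrix l l ℂ) : kr κ Mᴴ = (kr κ M)ᴴ := by
  ext a b
  simp [kr, conjTranspose_apply]

theorem kr_map (σ : ℂ →+* ℂ) (M : Matrix l l ℂ) : kr κ (M.map σ) = (kr κ M).map σ := by
  ext a b
  simp [kr]

theorem dkr_map (σ : ℂ →+* ℂ) (X : Matrix l l ℂ) : dkr κ (X.map σ) = (dkr κ X).map σ := by
  ext a b
  simp [dkr, Matrix.one_apply, apply_ite σ]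

theorem dkr_zero : dkr κ (0 : Matrix l l ℂ) = 0 := by
  ext a b
  simp [dkr]

theorem dkr_add (X Y : Matrix l l ℂ) : dkr κ (X + Y) = dkr κ X + dkr κ Y := by
  ext a b
  simp [dkr, add_mul, Finset.sum_add_distrib]

theorem dkr_sub (X Y : Matrix l l ℂ) : dkr κ (X - Y) = dkr κ X - dkr κ Y := by
  ext a b
  simp [dkr, sub_mul]

theorem dkr_smul (c : ℂ) (X : Matrix l l ℂ) : dkr κ (c • X) = c • dkr κ X := by
  ext a b
  simp [dkr, Finset.mul_sum, mul_assoc]

theorem dkr_conjTranspose (X : Matrix l l ℂ) : dkr κ Xᴴ = (dkr κ X)ᴴ := by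
  ext a b
  simp [dkr, conjTranspose_apply, Matrix.one_apply, apply_ite (starRingEnd ℂ), eq_comm]

theorem kr_dkr {c X Y : Matrix l l ℂ} (h : c * X = Y * c) :
    kr κ c * dkr κ X = dkr κ Y * kr κ c := by
  rw [xekron_dkr, xekron_dkr, Finset.mul_sum, Finset.sum_mul]
  refine Finset.sum_congr rfl fun i _ => ?_
  refine (xekron_mul (fun _ => c) _).trans (Eq.trans ?_ (xekron_mul _ fun _ => c).symm)
  congr 1
  funext j
  by_cases e : j = i
  · rw [e, update_self, update_self, h]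
  · rw [update_of_ne e, update_of_ne e, mul_one, one_mul]

theorem dkr_lie (X Y : Matrix l l ℂ) :
    dkr κ (X * Y - Y * X) = dkr κ X * dkr κ Y - dkr κ Y * dkr κ X := by
  rw [dkr_sub]
  simp only [xekron_dkr]
  rw [Finset.sum_mul_sum, Finset.sum_mul_sum, ← Finset.sum_sub_distrib]
  nth_rewrite 2 [Finset.sum_comm]
  simp only [xekron_mul]
  rw [← Finset.sum_sub_distrib]
  refine Finset.sum_congr rfl fun i _ => ?_
  rw [← Finset.sum_sub_distrib, Finset.sum_eq_single i (fun j _ hj => ?_) (by simp)]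
  · congr 2 <;> funext k <;> by_cases e : k = i <;> simp [e]
  · rw [sub_eq_zero]
    congr 1
    funext k
    by_cases e : k = i
    · simp [e, hj.symm]
    · simp [e]

theorem kr_expand (a b : κ → l) :
    (fun X : l → l → ℂ => kr κ (1 + Matrix.of X) a b - (1 : Matrix (κ → l) (κ → l) ℂ) a b -
      dkr κ (Matrix.of X) a b) =O[𝓝 0] fun X => ‖X‖ ^ 2 := by
  have h : ∀ i, (fun X : l → l → ℂ => X (a i) (b i)) =O[𝓝 0] fun X => ‖X‖ := fun i =>
    IsBigO.of_norm_le fun X => (norm_le_pi_norm (X (a i)) (b i)).trans (norm_le_pi_norm X (a i))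
  have h1 : (fun X : l → l → ℂ => ‖X‖) =O[𝓝 0] fun _ => (1 : ℝ) :=
    (continuous_norm.tendsto 0).isBigO_one ℝ
  refine (xekron_O (fun i => (1 : Matrix l l ℂ) (a i) (b i)) h (fun i => (h i).trans h1)
    Finset.univ).congr_left fun X => ?_
  rw [← kr_one κ]
  rfl

theorem an_kr {E : Type} [NormedAddCommGroup E] [NormedSpace ℂ E] {F : E → Matrix l l ℂ} {x : E}
    (h : ∀ a b, AnalyticAt ℂ (fun z => F z a b) x) (a b : κ → l) :
    AnalyticAt ℂ (fun z => kr κ (F z) a b) x := by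
  exact Finset.analyticAt_fun_prod _ fun i _ => h (a i) (b i)

theorem continuous_kr : Continuous fun M : Matrix l l ℂ => kr κ M := by
  refine continuous_matrix fun a b => continuous_finsetProd _ fun i _ => ?_
  exact continuous_id.matrix_elem (a i) (b i)

theorem nq_nonneg {ι : Type} [Fintype ι] (v : ι → ℂ) : 0 ≤ nq v := by
  exact Finset.sum_nonneg fun _ _ => sq_nonneg _

theorem nq_eq_zero {ι : Type} [Fintype ι] {v : ι → ℂ} : nq v = 0 ↔ v = 0 := by
  simp [nq, Finset.sum_eq_zero_iff_of_nonneg, funext_iff]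

theorem nq_eq {ι : Type} [Fintype ι] (v : ι → ℂ) : (nq v : ℂ) = star v ⬝ᵥ v := by
  simp [nq, dotProduct, Complex.conj_mul']

end Pool.Agent.MP_f58063_ag

end
end

section

open Complex Filter Topology Matrix Function Asymptotics

noncomputable section

namespace Pool.Agent.MP_f58063_ag

section aux

variable {g : ℕ} {κ : Type} [Fintype κ]

theorem xewt_le {a b : κ → LL g} (h : ∀ i, (b i).isRight = true → (a i).isRight = true) :
    wt b ≤ wt a :=
  Finset.card_le_card fun i hi => by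
    simp only [Finset.mem_filter, Finset.mem_univ, true_and] at hi ⊢
    exact h i hi

theorem xewt_back {a b : κ → LL g} (h : ∀ i, (b i).isRight = true → (a i).isRight = true)
    (hw : wt a ≤ wt b) (i : κ) (hi : (a i).isRight = true) : (b i).isRight = true := by
  have h1 : (Finset.univ.filter fun i => (b i).isRight = true) =
      Finset.univ.filter fun i => (a i).isRight = true :=
    Finset.eq_of_subset_of_card_le (fun i hi => by
      simp only [Finset.mem_filter, Finset.mem_univ, true_and] at hi ⊢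
      exact h i hi) hw
  have h2 : i ∈ Finset.univ.filter fun i => (a i).isRight = true := by simpa using hi
  rw [← h1] at h2
  simpa using h2

theorem xewt_kr_ne {l : Type} {M : Matrix l l ℂ} {a b : κ → l} (h : kr κ M a b ≠ 0) (i : κ) :
    M (a i) (b i) ≠ 0 :=
  Finset.prod_ne_zero_iff.mp h i (Finset.mem_univ i)

theorem xewt_low {A C D : Matrix (Fin g) (Fin g) ℂ} {x y : LL g}
    (h : fromBlocks A 0 C D x y ≠ 0) (hy : y.isRight = true) : x.isRight = true := by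
  rcases x with x | x <;> rcases y with y | y <;> simp_all

theorem xewt_upp {A B D : Matrix (Fin g) (Fin g) ℂ} {x y : LL g}
    (h : fromBlocks A B 0 D x y ≠ 0) (hx : x.isRight = true) : y.isRight = true := by
  rcases x with x | x <;> rcases y with y | y <;> simp_all

variable [DecidableEq κ]

theorem xewt_dkr_ne {l : Type} [DecidableEq l] {X : Matrix l l ℂ} {a b : κ → l}
    (h : dkr κ X a b ≠ 0) : ∃ i, X (a i) (b i) ≠ 0 ∧ ∀ j, j ≠ i → a j = b j := by
  obtain ⟨i, -, hi⟩ := Finset.exists_ne_zero_of_sum_ne_zero h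
  refine ⟨i, left_ne_zero_of_mul hi, fun j hj => ?_⟩
  have h1 := Finset.prod_ne_zero_iff.mp (right_ne_zero_of_mul hi) j (by simpa using hj)
  by_contra h2
  exact h1 (Matrix.one_apply_ne h2)

theorem xewt_comm (M : Matrix (κ → LL g) (κ → LL g) ℂ) (p q : ℕ)
    (h : ∀ a b, M a b ≠ 0 → (wt b = q ↔ wt a = p)) : M * Pw κ g q = Pw κ g p * M := by
  ext a b
  simp only [Pw, mul_diagonal, diagonal_mul]
  by_cases h0 : M a b = 0
  · simp [h0]
  · by_cases h1 : wt a = p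
    · simp [h1, (h a b h0).mpr h1]
    · have h2 : ¬ wt b = q := fun h2 => h1 ((h a b h0).mp h2)
      simp [h1, h2]

theorem xewt_up {Z : Matrix (Fin g) (Fin g) ℂ} {a b : κ → LL g} (h : dkr κ (up Z) a b ≠ 0) :
    wt b = wt a + 1 := by
  obtain ⟨i, hi, hj⟩ := xewt_dkr_ne h
  have h1 : ¬ (a i).isRight = true ∧ (b i).isRight = true := by
    revert hi
    rcases a i with x | x <;> rcases b i with y | y <;> simp [up]
  have h2 : (Finset.univ.filter fun j => (b j).isRight = true) =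
      insert i (Finset.univ.filter fun j => (a j).isRight = true) := by
    ext j
    simp only [Finset.mem_filter, Finset.mem_univ, true_and, Finset.mem_insert]
    by_cases hji : j = i
    · subst hji
      simp [h1.2]
    · simp [hji, hj j hji]
  rw [wt, h2, Finset.card_insert_of_notMem (by simpa using h1.1), wt]

theorem xewt_kr_diagonal {l : Type} [DecidableEq l] (d : l → ℂ) :
    kr κ (diagonal d) = diagonal fun a => ∏ i, d (a i) := by
  ext a b
  by_cases h : a = b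
  · subst h
    simp [kr]
  · rw [diagonal_apply_ne _ h]
    by_contra h1
    refine h (funext fun i => ?_)
    by_contra h2
    exact xewt_kr_ne h1 i (diagonal_apply_ne _ h2)

theorem xewt_dkr_diagonal {l : Type} [DecidableEq l] (d : l → ℂ) :
    dkr κ (diagonal d) = diagonal fun a => ∑ i, d (a i) := by
  ext a b
  by_cases h : a = b
  · subst h
    simp [dkr]
  · rw [diagonal_apply_ne _ h]
    by_contra h1
    obtain ⟨i, hi, hj⟩ := xewt_dkr_ne h1
    refine h (funext fun j => ?_)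
    by_cases hji : j = i
    · subst hji
      by_contra h2
      exact hi (diagonal_apply_ne _ h2)
    · exact hj j hji

theorem xewt_diag_Pw (d : (κ → LL g) → ℂ) (p : ℕ) (c : ℂ) (h : ∀ a, wt a = p → d a = c) :
    diagonal d * Pw κ g p = c • Pw κ g p := by
  rw [Pw, diagonal_mul_diagonal, ← diagonal_smul]
  congr 1
  funext a
  by_cases ha : wt a = p
  · simp [ha, h a ha]
  · simp [ha]

omit [DecidableEq κ] in
theorem xewt_card_left (a : κ → LL g) :
    (Finset.univ.filter fun i => ¬ (a i).isRight = true).card + wt a = Fintype.card κ := by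
  rw [wt, add_comm, Finset.card_filter_add_card_filter_not, Finset.card_univ]

end aux

variable {g : ℕ} (κ : Type) [Fintype κ] [DecidableEq κ]

theorem wt_le (a : κ → LL g) : wt a ≤ Fintype.card κ :=
  Finset.card_le_univ _

theorem Pw_mulVec (p : ℕ) (v : (κ → LL g) → ℂ) (a : κ → LL g) :
    (Pw κ g p *ᵥ v) a = if wt a = p then v a else 0 := by
  rw [Pw, mulVec_diagonal]
  split_ifs <;> simp

theorem Pw_sum : ∑ p ∈ Finset.range (Fintype.card κ + 1), Pw κ g p = 1 := by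
  ext a b
  rw [Matrix.sum_apply]
  by_cases h : a = b
  · subst h
    have := wt_le κ a
    simp [Pw, this]
  · simp [Pw, diagonal_apply_ne _ h, Matrix.one_apply_ne h]

theorem Pw_mul (p q : ℕ) : Pw κ g p * Pw κ g q = if p = q then Pw κ g p else 0 := by
  rw [Pw, Pw, diagonal_mul_diagonal]
  split_ifs with h
  · subst h
    congr 1
    funext a
    split_ifs <;> simp
  · rw [← diagonal_zero]
    congr 1
    funext a
    split_ifs with h1 h2
    · exact (h (h1.symm.trans h2)).elim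
    all_goals simp

theorem Pw_conjTranspose (p : ℕ) : (Pw κ g p)ᴴ = Pw κ g p := by
  rw [Pw, diagonal_conjTranspose]
  congr 1
  funext a
  simp only [Pi.star_apply]
  split_ifs <;> simp

theorem Pw_zero {p : ℕ} (h : Fintype.card κ < p) : Pw κ g p = 0 := by
  rw [Pw, ← diagonal_zero]
  congr 1
  funext a
  have := wt_le κ a
  rw [if_neg (by omega)]

theorem kr_diag_Pw (A D : Matrix (Fin g) (Fin g) ℂ) (p : ℕ) :
    kr κ (fromBlocks A 0 0 D) * Pw κ g p = Pw κ g p * kr κ (fromBlocks A 0 0 D) := by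
  refine xewt_comm _ p p fun a b h => ?_
  rw [le_antisymm (xewt_le fun i => xewt_low (xewt_kr_ne h i))
    (xewt_le fun i => xewt_upp (xewt_kr_ne h i))]

theorem kr_low (A C D : Matrix (Fin g) (Fin g) ℂ) {p : ℕ} {v : (κ → LL g) → ℂ}
    (hv : ∀ a, wt a < p → v a = 0) :
    (∀ a, wt a < p → (kr κ (fromBlocks A 0 C D) *ᵥ v) a = 0) ∧
      Pw κ g p *ᵥ (kr κ (fromBlocks A 0 C D) *ᵥ v) =
        kr κ (fromBlocks A 0 0 D) *ᵥ (Pw κ g p *ᵥ v) := by
  constructor
  · intro a ha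
    refine Finset.sum_eq_zero fun b _ => ?_
    by_cases h : kr κ (fromBlocks A 0 C D) a b = 0
    · simp [h]
    · have := xewt_le fun i => xewt_low (xewt_kr_ne h i)
      simp [hv b (by omega)]
  · rw [mulVec_mulVec _ (kr κ (fromBlocks A 0 0 D)), kr_diag_Pw, ← mulVec_mulVec]
    funext a
    rw [Pw_mulVec, Pw_mulVec]
    split_ifs with ha
    · refine Finset.sum_congr rfl fun b _ => ?_
      by_cases hb : wt b < p
      · simp [hv b hb]
      · congr 1
        change kr κ (fromBlocks A 0 C D) a b = kr κ (fromBlocks A 0 0 D) a b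
        by_cases h : ∀ i, (b i).isRight = true → (a i).isRight = true
        · have h1 := xewt_back h (by omega)
          refine Finset.prod_congr rfl fun i _ => ?_
          have h2 := h1 i
          revert h2
          rcases a i with x | x <;> rcases b i with y | y <;> simp
        · have h1 : kr κ (fromBlocks A 0 C D) a b = 0 := by
            by_contra h2
            exact h fun i => xewt_low (xewt_kr_ne h2 i)
          have h2 : kr κ (fromBlocks A 0 0 D) a b = 0 := by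
            by_contra h2
            exact h fun i => xewt_low (xewt_kr_ne h2 i)
          rw [h1, h2]
    · rfl

theorem kr_upp (A B D : Matrix (Fin g) (Fin g) ℂ) {p : ℕ} {v : (κ → LL g) → ℂ}
    (hv : ∀ a, p < wt a → v a = 0) :
    ∀ a, p < wt a → (kr κ (fromBlocks A B 0 D) *ᵥ v) a = 0 := by
  intro a ha
  refine Finset.sum_eq_zero fun b _ => ?_
  by_cases h : kr κ (fromBlocks A B 0 D) a b = 0
  · simp [h]
  · have := xewt_le fun i => xewt_upp (xewt_kr_ne h i)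
    simp [hv b (by omega)]

theorem dkr_up (Z : Matrix (Fin g) (Fin g) ℂ) (p : ℕ) :
    dkr κ (up Z) * Pw κ g (p + 1) = Pw κ g p * dkr κ (up Z) := by
  refine xewt_comm _ p (p + 1) fun a b h => ?_
  rw [xewt_up h]
  omega

theorem dkr_up_zero (Z : Matrix (Fin g) (Fin g) ℂ) : dkr κ (up Z) * Pw κ g 0 = 0 := by
  ext a b
  rw [Pw, mul_diagonal, Matrix.zero_apply]
  by_cases h : dkr κ (up Z) a b = 0
  · rw [h, zero_mul]
  · rw [xewt_up h, if_neg (by omega), mul_zero]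

theorem dkr_diag_Pw (A D : Matrix (Fin g) (Fin g) ℂ) (p : ℕ) :
    dkr κ (fromBlocks A 0 0 D) * Pw κ g p = Pw κ g p * dkr κ (fromBlocks A 0 0 D) := by
  refine xewt_comm _ p p fun a b h => ?_
  obtain ⟨i, hi, hj⟩ := xewt_dkr_ne h
  have h1 : wt b ≤ wt a := xewt_le fun j => by
    by_cases hji : j = i
    · subst hji
      exact xewt_low hi
    · rw [hj j hji]
      exact id
  have h2 : wt a ≤ wt b := xewt_le fun j => by
    by_cases hji : j = i
    · subst hji
      exact xewt_upp hi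
    · rw [hj j hji]
      exact id
  rw [le_antisymm h1 h2]

theorem dkr_Eta (p : ℕ) :
    dkr κ (Eta g) * Pw κ g p = (2 * (p : ℂ) - (Fintype.card κ : ℂ)) • Pw κ g p := by
  have h : Eta g = diagonal fun x : LL g => if x.isRight = true then (1 : ℂ) else -1 := by
    ext x y
    rcases x with x | x <;> rcases y with y | y <;> simp [Eta, diagonal_apply, Matrix.one_apply]
    split_ifs <;> simp
  rw [h, xewt_dkr_diagonal]
  refine xewt_diag_Pw _ p _ fun a ha => ?_
  rw [Finset.sum_ite, Finset.sum_const, Finset.sum_const, ← xewt_card_left a, ← ha, wt]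
  simp only [nsmul_eq_mul]
  push_cast
  ring

theorem kr_scal (α β : ℂ) (p : ℕ) :
    kr κ (fromBlocks (α • (1 : Matrix (Fin g) (Fin g) ℂ)) 0 0 (β • (1 : Matrix (Fin g) (Fin g) ℂ))) *
      Pw κ g p = (α ^ (Fintype.card κ - p) * β ^ p) • Pw κ g p := by
  have h : fromBlocks (α • (1 : Matrix (Fin g) (Fin g) ℂ)) 0 0 (β • (1 : Matrix (Fin g) (Fin g) ℂ)) =
      diagonal fun x : LL g => if x.isRight = true then β else α := by
    ext x y
    rcases x with x | x <;> rcases y with y | y <;> simp [diagonal_apply, Matrix.one_apply]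
  rw [h, xewt_kr_diagonal]
  refine xewt_diag_Pw _ p _ fun a ha => ?_
  rw [Finset.prod_ite, Finset.prod_const, Finset.prod_const, ← xewt_card_left a, ← ha,
    Nat.add_sub_cancel, wt, mul_comm]

end Pool.Agent.MP_f58063_ag

end
end

section

open Complex Filter Topology Matrix Function Asymptotics

noncomputable section

namespace Pool.Agent.MP_f58063_ag

variable {g : ℕ} (κ : Type) [Fintype κ] [DecidableEq κ] {τ : Mat g}
  {c : Matrix (LL g) (LL g) ℂ}

lemma xehod_cj_mul {l m n : Type} [Fintype m] (A : Matrix l m ℂ) (B : Matrix m n ℂ) :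
    cj (A * B) = cj A * cj B := Matrix.map_mul

lemma xehod_cj_add {l m : Type} (A B : Matrix l m ℂ) : cj (A + B) = cj A + cj B := by
  ext i j
  simp [cj]

lemma xehod_cj_det {n : Type} [Fintype n] [DecidableEq n] {A : Matrix n n ℂ}
    (h : IsUnit A.det) : IsUnit (cj A).det := by
  have := (starRingEnd ℂ).map_det A
  rw [RingHom.mapMatrix_apply] at this
  rw [cj, ← this]
  exact h.map _

lemma xehod_diag_inv {A D : Matrix (Fin g) (Fin g) ℂ} (hA : IsUnit A.det) (hD : IsUnit D.det) :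
    fromBlocks A 0 0 D * fromBlocks A⁻¹ 0 0 D⁻¹ = (1 : Matrix (LL g) (LL g) ℂ) := by
  simp [fromBlocks_multiply, mul_nonsing_inv _ hA, mul_nonsing_inv _ hD]

lemma xehod_cx_det (γ : Sp g) : IsUnit (cx γ).det :=
  SymplecticGroup.symplectic_det (cx_mem γ)

theorem im_det (hτ : τ ∈ Siegel g) : IsUnit (Matrix.of τ - cj (Matrix.of τ)).det := by
  rw [isUnit_iff_ne_zero]
  intro h
  obtain ⟨x, hx, h0⟩ := Matrix.exists_mulVec_eq_zero_iff.2 h
  have h1 := xsact_pos 1 hτ x hx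
  have h2 : cx (1 : Sp g) = fromBlocks 1 0 0 1 := by
    rw [fromBlocks_one]
    exact Matrix.map_one _ Int.cast_zero Int.cast_one
  have h3 : jac (1 : Sp g) τ = 1 := by
    rw [jac, h2, toBlocks_fromBlocks₂₁, toBlocks_fromBlocks₂₂, Matrix.zero_mul, zero_add]
  have h4 : xsactNum (1 : Sp g) τ = Matrix.of τ := by
    rw [xsactNum, h2, toBlocks_fromBlocks₁₁, toBlocks_fromBlocks₁₂, Matrix.one_mul, add_zero]
  have h5 : (Matrix.of τ)ᴴ = cj (Matrix.of τ) := by
    ext i j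
    simp [cj, conjTranspose_apply, hτ.1 j i]
  rw [h3, h4, one_mulVec, star_mulVec, ← dotProduct_mulVec, h5, ← dotProduct_sub, ← sub_mulVec,
    h0] at h1
  simp at h1

lemma xehod_left (hτ : τ ∈ Siegel g) :
    fromBlocks (-(Matrix.of τ - cj (Matrix.of τ))⁻¹)
      ((Matrix.of τ - cj (Matrix.of τ))⁻¹ * Matrix.of τ) (Matrix.of τ - cj (Matrix.of τ))⁻¹
      (-((Matrix.of τ - cj (Matrix.of τ))⁻¹ * cj (Matrix.of τ))) * bf τ = 1 := by
  have h := nonsing_inv_mul _ (im_det hτ)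
  rw [Matrix.mul_sub] at h
  rw [bf, fromBlocks_multiply, ← fromBlocks_one]
  simp only [Matrix.mul_one, Matrix.neg_mul]
  congr 1
  · rw [← h]; abel
  · abel
  · abel

theorem bf_det (hτ : τ ∈ Siegel g) : IsUnit (bf τ).det := by
  exact isUnit_det_of_left_inverse (xehod_left hτ)

theorem bf_inv (hτ : τ ∈ Siegel g) : (bf τ)⁻¹ =
    fromBlocks (-(Matrix.of τ - cj (Matrix.of τ))⁻¹)
      ((Matrix.of τ - cj (Matrix.of τ))⁻¹ * Matrix.of τ) (Matrix.of τ - cj (Matrix.of τ))⁻¹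
      (-((Matrix.of τ - cj (Matrix.of τ))⁻¹ * cj (Matrix.of τ))) := by
  exact inv_eq_left_inv (xehod_left hτ)

theorem Pc_one (p : ℕ) : Pc κ p (1 : Matrix (LL g) (LL g) ℂ) = Pw κ g p := by
  rw [Pc, inv_one, kr_one, Matrix.one_mul, Matrix.mul_one]

theorem Pc_sum (hc : IsUnit c.det) :
    ∑ p ∈ Finset.range (Fintype.card κ + 1), Pc κ p c = 1 := by
  simp only [Pc]
  rw [← Finset.sum_mul, ← Finset.mul_sum, Pw_sum, Matrix.mul_one, kr_mul_inv κ hc]

theorem Pc_mul (hc : IsUnit c.det) (p q : ℕ) :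
    Pc κ p c * Pc κ q c = if p = q then Pc κ p c else 0 := by
  have h : Pc κ p c * Pc κ q c = kr κ c * (Pw κ g p * Pw κ g q) * kr κ c⁻¹ := by
    simp only [Pc, Matrix.mul_assoc]
    rw [← Matrix.mul_assoc (kr κ c⁻¹), kr_inv_mul κ hc, Matrix.one_mul]
  rw [h, Pw_mul]
  split_ifs
  · rfl
  · simp

theorem Pc_left (c c' : Matrix (LL g) (LL g) ℂ) (p : ℕ) :
    Pc κ p (c * c') = kr κ c * Pc κ p c' * kr κ c⁻¹ := by
  simp only [Pc, Matrix.mul_inv_rev, kr_mul, Matrix.mul_assoc]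

theorem Pc_diag (c : Matrix (LL g) (LL g) ℂ) {A D : Matrix (Fin g) (Fin g) ℂ} (hA : IsUnit A.det)
    (hD : IsUnit D.det) (p : ℕ) : Pc κ p (c * fromBlocks A 0 0 D) = Pc κ p c := by
  have h := isUnit_det_of_right_inverse (xehod_diag_inv hA hD)
  rw [Pc_left, Pc, kr_diag_Pw, Matrix.mul_assoc (Pw κ g p), kr_mul_inv κ h, Matrix.mul_one, Pc]

theorem dkr_conj_Eta (hc : IsUnit c.det) : dkr κ (c * Eta g * c⁻¹) =
    ∑ p ∈ Finset.range (Fintype.card κ + 1),
      (2 * (p : ℂ) - (Fintype.card κ : ℂ)) • Pc κ p c := by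
  have h1 := kr_dkr κ (c := c) (X := Eta g) (Y := c * Eta g * c⁻¹)
    (nonsing_inv_mul_cancel_right _ _ hc).symm
  have h2 : dkr κ (Eta g) = ∑ p ∈ Finset.range (Fintype.card κ + 1),
      (2 * (p : ℂ) - (Fintype.card κ : ℂ)) • Pw κ g p := by
    rw [← Matrix.mul_one (dkr κ (Eta g)), ← Pw_sum, Finset.mul_sum]
    exact Finset.sum_congr rfl fun p _ => dkr_Eta κ p
  rw [← Matrix.mul_one (dkr κ _), ← kr_mul_inv κ hc, ← Matrix.mul_assoc, ← h1, h2,
    Finset.mul_sum, Finset.sum_mul]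
  refine Finset.sum_congr rfl fun p _ => ?_
  rw [Pc, Matrix.mul_smul, Matrix.smul_mul]

theorem Hf_kr (Q c : Matrix (LL g) (LL g) ℂ) (x : (κ → LL g) → ℂ) :
    Hf Q (kr κ c *ᵥ x) = Hf (cᴴ * Q * c) x := by
  rw [Hf, Hf, star_mulVec, ← dotProduct_mulVec, mulVec_mulVec, mulVec_mulVec, kr_mul, kr_mul,
    kr_conjTranspose]

theorem bf_act (γ : Sp g) (hτ : τ ∈ Siegel g) :
    cx γ * bf τ = bf (act γ τ) * fromBlocks (cj (jac γ τ)) 0 0 (jac γ τ) := by
  have h1 := xsact_mul_jac γ (jac_det γ hτ)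
  have h2 := congrArg cj h1
  have e11 : cj (cx γ).toBlocks₁₁ = (cx γ).toBlocks₁₁ := by
    ext i j; simp [cj, cx, toBlocks₁₁]
  have e12 : cj (cx γ).toBlocks₁₂ = (cx γ).toBlocks₁₂ := by
    ext i j; simp [cj, cx, toBlocks₁₂]
  have e21 : cj (cx γ).toBlocks₂₁ = (cx γ).toBlocks₂₁ := by
    ext i j; simp [cj, cx, toBlocks₂₁]
  have e22 : cj (cx γ).toBlocks₂₂ = (cx γ).toBlocks₂₂ := by
    ext i j; simp [cj, cx, toBlocks₂₂]
  rw [xehod_cj_mul, xsactNum, xehod_cj_add, xehod_cj_mul, e11, e12] at h2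
  conv_lhs => rw [← fromBlocks_toBlocks (cx γ)]
  rw [bf, bf, fromBlocks_multiply, fromBlocks_multiply]
  simp only [Matrix.mul_one, Matrix.mul_zero, Matrix.one_mul, add_zero, zero_add]
  rw [h1, h2, jac, xehod_cj_add, xehod_cj_mul, e21, e22, xsactNum]

theorem Hp_act (γ : Sp g) (hτ : τ ∈ Siegel g) (p : ℕ) :
    Hp κ p (act γ τ) * kr κ (cx γ) = kr κ (cx γ) * Hp κ p τ := by
  have hj : IsUnit (jac γ τ).det := isUnit_iff_ne_zero.2 (jac_det γ hτ)
  rw [Hp, Hp, ← Pc_diag κ (bf (act γ τ)) (xehod_cj_det hj) hj, ← bf_act γ hτ, Pc_left,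
    Matrix.mul_assoc, kr_inv_mul κ (xehod_cx_det γ), Matrix.mul_one]

theorem Hn_act (γ : Sp g) (hτ : τ ∈ Siegel g) (p : ℕ) {s : (κ → LL g) → ℂ}
    (hs : kr κ (cx γ) *ᵥ s = s) : Hn p s (act γ τ) = Hn p s τ := by
  have h1 : (cx γ)ᴴ = (cx γ)ᵀ := by
    ext i j
    simp [cx, conjTranspose_apply]
  have h2 : Hp κ p (act γ τ) *ᵥ s = kr κ (cx γ) *ᵥ (Hp κ p τ *ᵥ s) := by
    rw [mulVec_mulVec, ← Hp_act κ γ hτ, ← mulVec_mulVec, hs]
  rw [Hn, Hn, h2, Hf_kr, h1, SymplecticGroup.mem_iff'.1 (cx_mem γ)]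

end Pool.Agent.MP_f58063_ag

end
end

section

open Complex Filter Topology Matrix Function Asymptotics

noncomputable section

namespace Pool.Agent.MP_f58063_ag

section

variable {g : ℕ} {κ : Type} [Fintype κ] [DecidableEq κ]

theorem xeloc_right {Z : Matrix (Fin g) (Fin g) ℂ} (h : IsUnit (1 - Z * cj Z).det) :
    cZ Z * (fromBlocks (1 - Z * cj Z)⁻¹ 0 (-(cj Z * (1 - Z * cj Z)⁻¹)) 1 *
      fromBlocks 1 (-Z) 0 1) = 1 := by
  have h1 := mul_nonsing_inv _ h
  have e : cZ Z * fromBlocks (1 - Z * cj Z)⁻¹ 0 (-(cj Z * (1 - Z * cj Z)⁻¹)) 1 =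
      fromBlocks 1 Z 0 1 := by
    rw [cZ, fromBlocks_multiply]
    congr 1
    · refine Eq.trans ?_ h1
      rw [Matrix.sub_mul, Matrix.mul_neg, Matrix.mul_assoc, ← sub_eq_add_neg]
    · simp
    · simp
    · simp
  rw [← Matrix.mul_assoc, e, fromBlocks_multiply]
  simp

theorem xeloc_left (Z : Matrix (Fin g) (Fin g) ℂ) :
    fromBlocks 1 (-Z) 0 1 * cZ Z = fromBlocks (1 - Z * cj Z) 0 (cj Z) 1 := by
  rw [cZ, fromBlocks_multiply]
  simp [sub_eq_add_neg]

theorem xeloc_alg {Z : Matrix (Fin g) (Fin g) ℂ} (h : IsUnit (1 - Z * cj Z).det) {p : ℕ}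
    {s : (κ → LL g) → ℂ} (hF : ∀ q < p, Pc κ q (cZ Z) *ᵥ s = 0) :
    IsUnit (cZ Z).det ∧ (∀ a, wt a < p → (kr κ (fromBlocks 1 (-Z) 0 1) *ᵥ s) a = 0) ∧
      Pw κ g p *ᵥ (kr κ (cZ Z)⁻¹ *ᵥ s) = kr κ (fromBlocks (1 - Z * cj Z)⁻¹ 0 0 1) *ᵥ
        (Pw κ g p *ᵥ (kr κ (fromBlocks 1 (-Z) 0 1) *ᵥ s)) := by
  have h1 := xeloc_right h
  have hu : IsUnit (cZ Z).det := isUnit_det_of_right_inverse h1
  have hw : ∀ a, wt a < p → (kr κ (cZ Z)⁻¹ *ᵥ s) a = 0 := by
    intro a ha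
    have h2 := congrArg (kr κ (cZ Z)⁻¹ *ᵥ ·) (hF _ ha)
    simp only [Pc, mulVec_mulVec, ← Matrix.mul_assoc, kr_inv_mul κ hu, Matrix.one_mul,
      mulVec_zero] at h2
    have h3 := congrFun h2 a
    rwa [← mulVec_mulVec, Pw_mulVec, if_pos rfl] at h3
  have e : fromBlocks 1 (-Z) 0 1 = fromBlocks (1 - Z * cj Z) 0 (cj Z) 1 * (cZ Z)⁻¹ := by
    rw [← xeloc_left, Matrix.mul_assoc, mul_nonsing_inv _ hu, Matrix.mul_one]
  have h4 : ∀ a, wt a < p → (kr κ (fromBlocks 1 (-Z) 0 1) *ᵥ s) a = 0 := by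
    rw [e, kr_mul, ← mulVec_mulVec]
    exact (kr_low κ _ _ _ hw).1
  refine ⟨hu, h4, ?_⟩
  rw [inv_eq_right_inv h1, kr_mul, ← mulVec_mulVec]
  exact (kr_low κ _ _ _ h4).2

theorem xeloc_der {l : Type} [Fintype l] [DecidableEq l] {F : ℂ → Matrix l l ℂ} {X : Matrix l l ℂ}
    {t₀ : ℂ} (h : ∀ x y, HasDerivAt (fun t => F t x y) (X x y) t₀) (h0 : F t₀ = 1)
    (s : (κ → l) → ℂ) : HasDerivAt (fun t => kr κ (F t) *ᵥ s) (dkr κ X *ᵥ s) t₀ := by
  rw [hasDerivAt_pi]
  intro a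
  simp only [mulVec, dotProduct]
  refine HasDerivAt.fun_sum fun b _ => HasDerivAt.mul_const ?_ _
  have h1 := HasDerivAt.fun_finsetProd (u := Finset.univ) (x := t₀)
    (f := fun i t => F t (a i) (b i)) (f' := fun i => X (a i) (b i)) fun i _ => h _ _
  simp only [kr, dkr, of_apply]
  convert h1 using 2 with i
  rw [h0, smul_eq_mul, mul_comm]

end

variable {g : ℕ} {κ : Type} [Fintype κ] [DecidableEq κ] {Z : ℂ → Mat g} {t₀ : ℂ} {p : ℕ}
  {s : (κ → LL g) → ℂ}

theorem xeloc_has (hZ : AnalyticAt ℂ Z t₀) (h0 : Z t₀ = 0) (s : (κ → LL g) → ℂ) :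
    HasDerivAt (fun t => kr κ (fromBlocks 1 (-Matrix.of (Z t)) 0 1) *ᵥ s)
      (-(dkr κ (up (Matrix.of (deriv Z t₀))) *ᵥ s)) t₀ := by
  have h1 := hZ.differentiableAt.hasDerivAt
  have h2 := xeloc_der (κ := κ) (F := fun t => fromBlocks 1 (-Matrix.of (Z t)) 0 1)
    (X := (-1 : ℂ) • up (Matrix.of (deriv Z t₀))) (t₀ := t₀) (by
      rintro (x | x) (y | y)
      · simpa [up] using hasDerivAt_const t₀ _
      · simpa [up] using (hasDerivAt_pi.1 (hasDerivAt_pi.1 h1 x) y).fun_neg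
      · simpa [up] using hasDerivAt_const t₀ _
      · simpa [up] using hasDerivAt_const t₀ _) (by
      rw [h0, ← fromBlocks_one]
      congr 1
      ext
      simp) s
  rwa [dkr_smul, smul_mulVec, neg_one_smul] at h2

theorem loc_fil (hZ : AnalyticAt ℂ Z t₀) (h0 : Z t₀ = 0)
    (hF : ∀ᶠ t in 𝓝 t₀, ∀ q < p, Pc κ q (cZ (Matrix.of (Z t))) *ᵥ s = 0) :
    ∀ᶠ t in 𝓝 t₀, IsUnit (1 - Matrix.of (Z t) * cj (Matrix.of (Z t))).det ∧
      IsUnit (cZ (Matrix.of (Z t))).det ∧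
      (∀ a, wt a < p → (kr κ (fromBlocks 1 (-Matrix.of (Z t)) 0 1) *ᵥ s) a = 0) ∧
      Pw κ g p *ᵥ (kr κ (cZ (Matrix.of (Z t)))⁻¹ *ᵥ s) =
        kr κ (fromBlocks (1 - Matrix.of (Z t) * cj (Matrix.of (Z t)))⁻¹ 0 0 1) *ᵥ
          (Pw κ g p *ᵥ (kr κ (fromBlocks 1 (-Matrix.of (Z t)) 0 1) *ᵥ s)) := by
  have hc : Continuous fun M : Matrix (Fin g) (Fin g) ℂ => (1 - M * cj M).det :=
    (continuous_const.sub (continuous_id.matrix_mul
      (continuous_id.matrix_map continuous_conj))).matrix_det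
  have h1 : ContinuousAt (fun t => (1 - Matrix.of (Z t) * cj (Matrix.of (Z t))).det) t₀ :=
    hc.continuousAt.comp (f := fun t => Matrix.of (Z t)) hZ.continuousAt
  have h2 : (1 - Matrix.of (Z t₀) * cj (Matrix.of (Z t₀))).det ≠ 0 := by
    have : Matrix.of (Z t₀) = 0 := by rw [h0]; rfl
    rw [this]
    simp
  filter_upwards [h1.eventually_ne h2, hF] with t ht hF'
  exact ⟨ht.isUnit, xeloc_alg ht.isUnit hF'⟩

theorem loc_hol (hZ : AnalyticAt ℂ Z t₀) (h0 : Z t₀ = 0) (s : (κ → LL g) → ℂ) :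
    AnalyticAt ℂ (fun t => kr κ (fromBlocks 1 (-Matrix.of (Z t)) 0 1) *ᵥ s) t₀ ∧
      deriv (fun t => kr κ (fromBlocks 1 (-Matrix.of (Z t)) 0 1) *ᵥ s) t₀ =
        -(dkr κ (up (Matrix.of (deriv Z t₀))) *ᵥ s) := by
  refine ⟨analyticAt_pi_iff.2 fun a => ?_, (xeloc_has hZ h0 s).deriv⟩
  simp only [mulVec, dotProduct]
  refine Finset.analyticAt_fun_sum _ fun b _ => AnalyticAt.mul (an_kr κ ?_ a b) analyticAt_const
  rintro (x | x) (y | y)
  · simpa using analyticAt_const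
  · simpa using (analyticAt_pi_iff.1 (analyticAt_pi_iff.1 hZ x) y).fun_neg
  · simpa using analyticAt_const
  · simpa using analyticAt_const

theorem loc_tan (hZ : AnalyticAt ℂ Z t₀) (h0 : Z t₀ = 0)
    (hF : ∀ᶠ t in 𝓝 t₀, ∀ q < p, Pc κ q (cZ (Matrix.of (Z t))) *ᵥ s = 0) :
    dkr κ (up (Matrix.of (deriv Z t₀))) *ᵥ (Pw κ g p *ᵥ s) = 0 := by
  rw [mulVec_mulVec]
  cases p with
  | zero => rw [dkr_up_zero, zero_mulVec]
  | succ q =>
    rw [dkr_up, ← mulVec_mulVec]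
    funext a
    rw [Pw_mulVec, Pi.zero_apply]
    split_ifs with ha
    · have h1 := hasDerivAt_pi.1 (xeloc_has hZ h0 s) a
      have h2 : HasDerivAt (fun t => (kr κ (fromBlocks 1 (-Matrix.of (Z t)) 0 1) *ᵥ s) a) 0 t₀ := by
        refine (hasDerivAt_const t₀ (0 : ℂ)).congr_of_eventuallyEq ?_
        filter_upwards [loc_fil hZ h0 hF] with t ht
        exact ht.2.2.1 a (by omega)
      exact neg_eq_zero.1 (h1.unique h2)
    · rfl

end Pool.Agent.MP_f58063_ag

end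
end

section

open Complex Filter Topology Matrix Function Asymptotics

noncomputable section

namespace Pool.Agent.MP_f58063_ag

variable {g : ℕ} {κ : Type} [Fintype κ] [DecidableEq κ] {Z : ℂ → Mat g} {t₀ : ℂ} {p : ℕ}
  {s : (κ → LL g) → ℂ}

theorem xeloca_cj {z : Matrix (Fin g) (Fin g) ℂ} (h : zᵀ = z) : zᴴ = cj z := by
  ext a b
  have h1 : z b a = z a b := congrFun (congrFun h a) b
  simp [cj, conjTranspose_apply, h1]

theorem xeloca_cj' {z : Matrix (Fin g) (Fin g) ℂ} (h : zᵀ = z) : (cj z)ᴴ = z := by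
  rw [← xeloca_cj h, conjTranspose_conjTranspose]

/-- the form in the normalised frame -/
theorem xeloca_form {z : Matrix (Fin g) (Fin g) ℂ} (h : zᵀ = z) (hE : IsUnit (1 - z * cj z).det) :
    (cZ z * fromBlocks (1 - z * cj z)⁻¹ 0 0 1)ᴴ * fromBlocks ((-I) • 1) 0 0 (I • 1) *
        (cZ z * fromBlocks (1 - z * cj z)⁻¹ 0 0 1) =
      fromBlocks (1 - z * cj z)⁻¹ 0 0 (1 - cj z * z) * fromBlocks ((-I) • 1) 0 0 (I • 1) := by
  have h1 : (cZ z)ᴴ = cZ z := by
    rw [cZ, fromBlocks_conjTranspose, xeloca_cj h, xeloca_cj' h, conjTranspose_one]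
  have h2 : (1 - z * cj z)ᴴ = 1 - z * cj z := by
    rw [conjTranspose_sub, conjTranspose_one, conjTranspose_mul, xeloca_cj h, xeloca_cj' h]
  have h3 : ((1 - z * cj z)⁻¹)ᴴ = (1 - z * cj z)⁻¹ := by
    rw [conjTranspose_nonsing_inv, h2]
  have h4 : cZ z * fromBlocks ((-I) • 1) 0 0 (I • 1) * cZ z =
      fromBlocks ((-I) • (1 - z * cj z)) 0 0 (I • (1 - cj z * z)) := by
    rw [cZ, fromBlocks_multiply, fromBlocks_multiply]
    congr 1
    · simp [sub_eq_add_neg]
    · simp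
    · simp
    · simp [sub_eq_add_neg, add_comm]
  rw [conjTranspose_mul, h1, fromBlocks_conjTranspose, h3]
  calc _ = fromBlocks (1 - z * cj z)⁻¹ 0ᴴ 0ᴴ 1ᴴ *
        (cZ z * fromBlocks ((-I) • 1) 0 0 (I • 1) * cZ z) *
        fromBlocks (1 - z * cj z)⁻¹ 0 0 1 := by simp only [Matrix.mul_assoc]
    _ = _ := by
        rw [h4, fromBlocks_multiply, fromBlocks_multiply, fromBlocks_multiply]
        congr 1 <;> simp [nonsing_inv_mul _ hE]

theorem xeloca_Hf (D : Matrix (LL g) (LL g) ℂ) (w : (κ → LL g) → ℂ) :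
    Hf (D * fromBlocks ((-I) • 1) 0 0 (I • 1)) (Pw κ g p *ᵥ w) =
      ‖star (Pw κ g p *ᵥ w) ⬝ᵥ (kr κ D *ᵥ (Pw κ g p *ᵥ w))‖ := by
  rw [Hf, kr_mul, ← mulVec_mulVec, mulVec_mulVec w (kr κ _), kr_scal, smul_mulVec, mulVec_smul,
    dotProduct_smul, norm_smul]
  simp

theorem xeloca_dkr_cont {l : Type} [Fintype l] [DecidableEq l] :
    Continuous fun X : Matrix l l ℂ => dkr κ X := by
  refine continuous_matrix fun a b => ?_
  simp only [dkr, Matrix.of_apply]
  fun_prop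

/-- the expansion of the form along a curve of matrices -/
theorem xeloca_exp {l : Type} [Fintype l] [DecidableEq l] {Y : ℂ → Matrix l l ℂ}
    {v : ℂ → (κ → l) → ℂ} (hY : ContinuousAt Y t₀) (hv : ContinuousAt v t₀) :
    (fun t => star (v t) ⬝ᵥ (kr κ (1 + ((‖t - t₀‖ ^ 2 : ℝ) : ℂ) • Y t) *ᵥ v t) -
      (star (v t) ⬝ᵥ v t + star (v t₀) ⬝ᵥ (dkr κ (Y t₀) *ᵥ v t₀) * ((‖t - t₀‖ ^ 2 : ℝ) : ℂ)))
      =o[𝓝 t₀] fun t => ‖t - t₀‖ ^ 2 := by
  set h : ℂ → ℝ := fun t => ‖t - t₀‖ ^ 2 with hh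
  have hc : Continuous h := by rw [hh]; fun_prop
  have h0 : h t₀ = 0 := by simp [hh]
  have hnn : ∀ t, 0 ≤ h t := fun t => by rw [hh]; positivity
  let X : ℂ → l → l → ℂ := fun t a b => (h t : ℂ) * Y t a b
  let Y' : ℂ → l → l → ℂ := fun t a b => Y t a b
  have hY' : ContinuousAt Y' t₀ := hY
  have hXY : ∀ t, X t = (h t : ℂ) • Y' t := fun t => rfl
  have hX : Tendsto X (𝓝 t₀) (𝓝 0) := by
    have h1 : ContinuousAt (fun t => (h t : ℂ) • Y' t) t₀ :=
      (continuous_ofReal.comp hc).continuousAt.smul hY'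
    have h2 := h1.tendsto
    rw [h0, Complex.ofReal_zero, zero_smul] at h2
    exact h2
  have hX2 : (fun t => ‖X t‖ ^ 2) =o[𝓝 t₀] h := by
    have h1 : ContinuousAt (fun t => h t * ‖Y' t‖ ^ 2) t₀ := hc.continuousAt.mul (hY'.norm.pow 2)
    have h2 := h1.tendsto
    rw [h0, zero_mul] at h2
    have h3 := ((isLittleO_one_iff ℝ).2 h2).mul_isBigO (isBigO_refl h (𝓝 t₀))
    refine h3.congr (fun t => ?_) (fun t => one_mul _)
    rw [hXY, norm_smul, Complex.norm_real, Real.norm_of_nonneg (hnn t)]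
    ring
  let R : ℂ → Matrix (κ → l) (κ → l) ℂ := fun t =>
    kr κ (1 + (h t : ℂ) • Y t) - 1 - (h t : ℂ) • dkr κ (Y t)
  have hR : ∀ a b, (fun t => R t a b) =o[𝓝 t₀] h := by
    intro a b
    refine (((kr_expand κ a b).comp_tendsto hX).trans_isLittleO hX2).congr_left fun t => ?_
    have h1 : Matrix.of (X t) = (h t : ℂ) • Y t := rfl
    simp only [Function.comp_apply, h1, dkr_smul, R, Matrix.sub_apply]
  have hva : ∀ a, (fun t => v t a) =O[𝓝 t₀] fun _ => (1 : ℝ) := fun a =>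
    ((continuous_apply a).continuousAt.comp hv).tendsto.isBigO_one ℝ
  have hsa : ∀ a, (fun t => star (v t) a) =O[𝓝 t₀] fun _ => (1 : ℝ) := fun a =>
    ((continuous_apply a).continuousAt.comp hv.star).tendsto.isBigO_one ℝ
  have hA : (fun t => star (v t) ⬝ᵥ (R t *ᵥ v t)) =o[𝓝 t₀] h := by
    simp only [dotProduct, mulVec]
    refine IsLittleO.fun_sum fun a _ => ?_
    have h1 : (fun t => ∑ b, R t a b * v t b) =o[𝓝 t₀] h := by
      refine IsLittleO.fun_sum fun b _ => ?_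
      exact ((hR a b).mul_isBigO (hva b)).congr_right fun t => mul_one _
    exact ((hsa a).mul_isLittleO h1).congr_right fun t => one_mul _
  have hG : ContinuousAt (fun t => star (v t) ⬝ᵥ (dkr κ (Y t) *ᵥ v t)) t₀ := by
    have h1 : Continuous fun x : Matrix l l ℂ × ((κ → l) → ℂ) =>
        star x.2 ⬝ᵥ (dkr κ x.1 *ᵥ x.2) :=
      Continuous.dotProduct continuous_snd.star
        ((xeloca_dkr_cont.comp continuous_fst).matrix_mulVec continuous_snd)
    exact h1.continuousAt.comp (f := fun t => (Y t, v t)) (hY.prodMk hv)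
  have hB : (fun t => (star (v t) ⬝ᵥ (dkr κ (Y t) *ᵥ v t) -
      star (v t₀) ⬝ᵥ (dkr κ (Y t₀) *ᵥ v t₀)) * (h t : ℂ)) =o[𝓝 t₀] h := by
    have h1 := (isLittleO_one_iff ℝ).2 (tendsto_sub_nhds_zero_iff.2 hG.tendsto)
    have h2 : (fun t => (h t : ℂ)) =O[𝓝 t₀] h :=
      IsBigO.of_bound 1 (Eventually.of_forall fun t => by simp)
    exact (h1.mul_isBigO h2).congr_right fun t => one_mul _
  refine (hA.add hB).congr_left fun t => ?_
  simp only [R, sub_mulVec, dotProduct_sub, one_mulVec, smul_mulVec, dotProduct_smul, smul_eq_mul]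
  ring

/-- the second order expansion of the Hodge norm -/
theorem loc_exp (hZ : AnalyticAt ℂ Z t₀) (h0 : Z t₀ = 0)
    (hs : ∀ᶠ t in 𝓝 t₀, (Matrix.of (Z t))ᵀ = Matrix.of (Z t))
    (hF : ∀ᶠ t in 𝓝 t₀, ∀ q < p, Pc κ q (cZ (Matrix.of (Z t))) *ᵥ s = 0) :
    ∃ v : ℂ → (κ → LL g) → ℂ, AnalyticAt ℂ v t₀ ∧
      deriv v t₀ = -(dkr κ (up (Matrix.of (deriv Z t₀))) *ᵥ (Pw κ g (p + 1) *ᵥ s)) ∧
      (fun t => Hf (fromBlocks ((-I) • 1) 0 0 (I • 1)) (Pc κ p (cZ (Matrix.of (Z t))) *ᵥ s) -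
        (nq (v t) + nq (dkr κ (up (Matrix.of (deriv Z t₀)))ᴴ *ᵥ (Pw κ g p *ᵥ s)) * ‖t - t₀‖ ^ 2))
        =o[𝓝 t₀] fun t => ‖t - t₀‖ ^ 2 := by
  obtain ⟨hw, hw'⟩ := loc_hol (κ := κ) hZ h0 s
  set w : ℂ → (κ → LL g) → ℂ := fun t => kr κ (fromBlocks 1 (-Matrix.of (Z t)) 0 1) *ᵥ s
    with hwdef
  let L : ((κ → LL g) → ℂ) →L[ℂ] ((κ → LL g) → ℂ) :=
    LinearMap.toContinuousLinearMap (Matrix.mulVecLin (Pw κ g p))
  have hv : AnalyticAt ℂ (fun t => Pw κ g p *ᵥ w t) t₀ := (L.analyticAt _).comp hw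
  refine ⟨fun t => Pw κ g p *ᵥ w t, hv, ?_, ?_⟩
  · have h1 : HasDerivAt (fun t => Pw κ g p *ᵥ w t) (Pw κ g p *ᵥ deriv w t₀) t₀ :=
      L.hasFDerivAt.comp_hasDerivAt t₀ hw.differentiableAt.hasDerivAt
    rw [h1.deriv, hw', mulVec_neg, mulVec_mulVec, mulVec_mulVec, dkr_up]
  set Z1 : Matrix (Fin g) (Fin g) ℂ := Matrix.of (deriv Z t₀) with hZ1
  have hd := hZ.differentiableAt.hasDerivAt
  have hsym : Z1ᵀ = Z1 := by
    ext a b
    have h1 := hasDerivAt_pi.1 (hasDerivAt_pi.1 hd a) b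
    have h2 := hasDerivAt_pi.1 (hasDerivAt_pi.1 hd b) a
    refine h2.unique (h1.congr_of_eventuallyEq ?_)
    filter_upwards [hs] with t ht
    exact congrFun (congrFun ht a) b
  let W : ℂ → Matrix (Fin g) (Fin g) ℂ := fun t => Matrix.of (dslope Z t₀ t)
  have hW' : ContinuousAt (dslope Z t₀) t₀ := continuousAt_dslope_same.2 hZ.differentiableAt
  have hW : ContinuousAt W t₀ := hW'
  have hW0 : W t₀ = Z1 := by simp [W, hZ1]
  have hZW : ∀ t, Matrix.of (Z t) = (t - t₀) • W t := fun t => by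
    have h1 := sub_smul_dslope Z t₀ t
    rw [h0, sub_zero] at h1
    rw [← h1]
    rfl
  have hcj : Continuous (cj : Matrix (Fin g) (Fin g) ℂ → Matrix (Fin g) (Fin g) ℂ) :=
    continuous_id.matrix_map continuous_conj
  have hcW : ∀ t, cj (Matrix.of (Z t)) = (starRingEnd ℂ) (t - t₀) • cj (W t) := fun t => by
    rw [hZW]
    ext a b
    simp [cj]
  have hn : ∀ t : ℂ, (t - t₀) * (starRingEnd ℂ) (t - t₀) = ((‖t - t₀‖ ^ 2 : ℝ) : ℂ) := fun t => by
    rw [Complex.mul_conj, Complex.normSq_eq_norm_sq]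
  have hz : ContinuousAt (fun t => (Matrix.of (Z t) : Matrix (Fin g) (Fin g) ℂ)) t₀ :=
    hZ.continuousAt
  have hz0 : (Matrix.of (Z t₀) : Matrix (Fin g) (Fin g) ℂ) = 0 := by rw [h0]; rfl
  have hE : ContinuousAt
      (fun t => (1 - Matrix.of (Z t) * cj (Matrix.of (Z t)) : Matrix (Fin g) (Fin g) ℂ)⁻¹) t₀ := by
    have h1 : ContinuousAt
        (fun t => (1 - Matrix.of (Z t) * cj (Matrix.of (Z t)) : Matrix (Fin g) (Fin g) ℂ)) t₀ :=
      continuousAt_const.sub (hz.mul (hcj.continuousAt.comp hz))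
    refine ContinuousAt.comp (continuousAt_matrix_inv _ ?_) h1
    simp only [hz0, zero_mul, sub_zero, det_one]
    exact NormedRing.inverse_continuousAt (1 : ℂˣ)
  let Y : ℂ → Matrix (LL g) (LL g) ℂ := fun t =>
    fromBlocks ((1 - Matrix.of (Z t) * cj (Matrix.of (Z t)))⁻¹ * (W t * cj (W t))) 0 0
      (-(cj (W t) * W t))
  have hY : ContinuousAt Y t₀ := by
    have h1 : Continuous fun x : Matrix (Fin g) (Fin g) ℂ × Matrix (Fin g) (Fin g) ℂ =>
        fromBlocks (x.1 * (x.2 * cj x.2)) (0 : Matrix (Fin g) (Fin g) ℂ)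
          (0 : Matrix (Fin g) (Fin g) ℂ) (-(cj x.2 * x.2)) :=
      Continuous.matrix_fromBlocks
        (continuous_fst.mul (continuous_snd.mul (hcj.comp continuous_snd))) continuous_const
        continuous_const ((hcj.comp continuous_snd).mul continuous_snd).neg
    exact h1.continuousAt.comp
      (f := fun t => ((1 - Matrix.of (Z t) * cj (Matrix.of (Z t)))⁻¹, W t)) (hE.prodMk hW)
  have hY0 : Y t₀ = up Z1 * (up Z1)ᴴ - (up Z1)ᴴ * up Z1 := by
    simp only [Y, hz0, hW0, up, fromBlocks_conjTranspose, fromBlocks_multiply, xeloca_cj hsym,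
      sub_eq_add_neg, fromBlocks_neg, fromBlocks_add]
    simp
  have hw0 : w t₀ = s := by
    simp only [hwdef, hz0, neg_zero, fromBlocks_one, kr_one, one_mulVec]
  have hG0 : star (Pw κ g p *ᵥ w t₀) ⬝ᵥ (dkr κ (Y t₀) *ᵥ (Pw κ g p *ᵥ w t₀)) =
      (nq (dkr κ (up Z1)ᴴ *ᵥ (Pw κ g p *ᵥ s)) : ℂ) := by
    rw [hw0, hY0, dkr_lie, sub_mulVec, ← mulVec_mulVec, ← mulVec_mulVec, loc_tan hZ h0 hF,
      mulVec_zero, sub_zero, nq_eq, dotProduct_mulVec, star_mulVec (dkr κ _), ← dkr_conjTranspose,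
      conjTranspose_conjTranspose]
  have key := xeloca_exp (κ := κ) hY hv.continuousAt
  rw [hG0] at key
  refine IsBigO.trans_isLittleO (IsBigO.of_bound 1 ?_) key
  filter_upwards [hs, loc_fil hZ h0 hF] with t ht ⟨h1, _, _, h4⟩
  have hD : fromBlocks (1 - Matrix.of (Z t) * cj (Matrix.of (Z t)))⁻¹ 0 0
      (1 - cj (Matrix.of (Z t)) * Matrix.of (Z t)) = 1 + ((‖t - t₀‖ ^ 2 : ℝ) : ℂ) • Y t := by
    have h5 : ((‖t - t₀‖ ^ 2 : ℝ) : ℂ) • (W t * cj (W t)) =
        Matrix.of (Z t) * cj (Matrix.of (Z t)) := by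
      rw [hcW, hZW, Matrix.smul_mul, Matrix.mul_smul, smul_smul, hn]
    have h6 : ((‖t - t₀‖ ^ 2 : ℝ) : ℂ) • (cj (W t) * W t) =
        cj (Matrix.of (Z t)) * Matrix.of (Z t) := by
      rw [hcW, hZW, Matrix.smul_mul, Matrix.mul_smul, smul_smul, mul_comm _ (t - t₀), hn]
    have h7 := nonsing_inv_mul _ h1
    rw [Matrix.mul_sub, Matrix.mul_one, sub_eq_iff_eq_add] at h7
    rw [← fromBlocks_one, fromBlocks_smul, fromBlocks_add, ← Matrix.mul_smul, h5, smul_neg, h6,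
      ← h7, smul_zero, add_zero, sub_eq_add_neg (1 : Matrix (Fin g) (Fin g) ℂ) (cj _ * _)]
  have hH : Hf (fromBlocks ((-I) • 1) 0 0 (I • 1)) (Pc κ p (cZ (Matrix.of (Z t))) *ᵥ s) =
      ‖star (Pw κ g p *ᵥ w t) ⬝ᵥ
        (kr κ (1 + ((‖t - t₀‖ ^ 2 : ℝ) : ℂ) • Y t) *ᵥ (Pw κ g p *ᵥ w t))‖ := by
    rw [Pc, ← mulVec_mulVec, ← mulVec_mulVec, h4, mulVec_mulVec _ (kr κ _), ← kr_mul, Hf_kr,
      xeloca_form ht h1, xeloca_Hf, hD]
  have hx : 0 ≤ nq (Pw κ g p *ᵥ w t) +
      nq (dkr κ (up Z1)ᴴ *ᵥ (Pw κ g p *ᵥ s)) * ‖t - t₀‖ ^ 2 :=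
    add_nonneg (nq_nonneg _) (mul_nonneg (nq_nonneg _) (by positivity))
  rw [hH, one_mul, ← nq_eq, ← Complex.ofReal_mul, ← Complex.ofReal_add, Real.norm_eq_abs]
  conv_lhs => rw [← Real.norm_of_nonneg hx, ← Complex.norm_real]
  exact abs_norm_sub_norm_le _ _

end Pool.Agent.MP_f58063_ag

end
end

section

open Complex Filter Topology Matrix Function Asymptotics

noncomputable section

namespace Pool.Agent.MP_f58063_ag

variable {ι : Type} [Fintype ι] {u : ℂ → ℝ} {v : ℂ → ι → ℂ} {t₀ : ℂ} {c : ℝ}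

/-- the four point second order average of `f` at `t₀` tends to `L` -/
def xeavgAv (f : ℂ → ℝ) (t₀ : ℂ) (L : ℝ) : Prop :=
  Tendsto (fun r : ℝ => (f (t₀ + 1 * r) + f (t₀ + I * r) + f (t₀ + (-1) * r) + f (t₀ + (-I) * r) -
    4 * f t₀) / r ^ 2) (𝓝[≠] 0) (𝓝 (4 * L))

lemma xeavg_add {f g : ℂ → ℝ} {L M : ℝ} (hf : xeavgAv f t₀ L) (hg : xeavgAv g t₀ M) :
    xeavgAv (fun t => f t + g t) t₀ (L + M) := by
  have := Tendsto.add hf hg
  rw [← mul_add] at this
  refine this.congr fun r => ?_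
  ring

lemma xeavg_mul {f : ℂ → ℝ} {L : ℝ} (a : ℝ) (hf : xeavgAv f t₀ L) :
    xeavgAv (fun t => a * f t) t₀ (a * L) := by
  have := Tendsto.const_mul a hf
  rw [mul_left_comm] at this
  refine this.congr fun r => ?_
  ring

lemma xeavg_sum {κ : Type} (s : Finset κ) {f : κ → ℂ → ℝ} {L : κ → ℝ}
    (h : ∀ a, xeavgAv (f a) t₀ (L a)) :
    xeavgAv (fun t => ∑ a ∈ s, f a t) t₀ (∑ a ∈ s, L a) := by
  classical
  induction s using Finset.induction_on with
  | empty => simp [xeavgAv]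
  | insert a s ha ih =>
    simp only [Finset.sum_insert ha]
    exact xeavg_add (h a) ih

lemma xeavg_pt (t₀ ω : ℂ) : Tendsto (fun r : ℝ => t₀ + ω * r) (𝓝 0) (𝓝 t₀) := by
  have : Continuous fun r : ℝ => t₀ + ω * r := by fun_prop
  simpa using this.tendsto 0

lemma xeavg_small {e : ℂ → ℝ} (he : e =o[𝓝 t₀] fun t => ‖t - t₀‖ ^ 2) : xeavgAv e t₀ 0 := by
  have h0 : e t₀ = 0 := by
    have := (he.def one_pos).self_of_nhds
    simpa using this
  have h1 : ∀ ω : ℂ, ‖ω‖ = 1 →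
      Tendsto (fun r : ℝ => e (t₀ + ω * r) / r ^ 2) (𝓝[≠] 0) (𝓝 0) := by
    intro ω hω
    have := (he.comp_tendsto (xeavg_pt t₀ ω)).tendsto_div_nhds_zero
    refine (this.congr fun r => ?_).mono_left nhdsWithin_le_nhds
    simp [hω]
  have := (((h1 1 (by simp)).add (h1 I (by simp))).add (h1 (-1) (by simp))).add
    (h1 (-I) (by simp))
  unfold xeavgAv
  simp only [add_zero, mul_zero] at this ⊢
  refine this.congr fun r => ?_
  rw [h0]
  ring

lemma xeavg_exp {g : ℂ → ℂ} (hg : AnalyticAt ℂ g t₀) : ∃ w : ℂ → ℂ, ContinuousAt w t₀ ∧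
    ∀ h : ℂ, g (t₀ + h) = g t₀ + deriv g t₀ * h + h ^ 2 * w (t₀ + h) := by
  obtain ⟨p, hp⟩ := hg
  have h1 := hp.has_fpower_series_dslope_fslope
  have h2 := h1.has_fpower_series_dslope_fslope
  refine ⟨dslope (dslope g t₀) t₀, h2.continuousAt, fun h => ?_⟩
  have e1 := sub_smul_dslope g t₀ (t₀ + h)
  have e2 := sub_smul_dslope (dslope g t₀) t₀ (t₀ + h)
  rw [dslope_same] at e2
  rw [add_sub_cancel_left, smul_eq_mul] at e1 e2
  linear_combination -e1 - h * e2

/-- the second order remainder -/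
def xeavgK (a b ω : ℂ) (q : ℝ × ℂ) : ℝ :=
  2 * ((starRingEnd ℂ) a * ω ^ 2 * q.2).re +
    2 * q.1 * ((starRingEnd ℂ) (b * ω) * ω ^ 2 * q.2).re + q.1 ^ 2 * normSq (ω ^ 2 * q.2)

lemma xeavgK_cont (a b ω : ℂ) : Continuous (xeavgK a b ω) := by
  unfold xeavgK
  fun_prop

lemma xeavgK_val (a b ω z : ℂ) (r : ℝ) : ‖a + b * (ω * r) + (ω * r) ^ 2 * z‖ ^ 2 =
    normSq a + 2 * r * ((starRingEnd ℂ) a * b * ω).re + r ^ 2 * normSq (b * ω) +
      r ^ 2 * xeavgK a b ω (r, z) := by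
  rw [← normSq_eq_norm_sq]
  simp only [xeavgK, normSq_apply, pow_two, add_re, add_im, mul_re, mul_im, ofReal_re, ofReal_im,
    conj_re, conj_im]
  ring

lemma xeavg_sq {g : ℂ → ℂ} (hg : AnalyticAt ℂ g t₀) :
    xeavgAv (fun t => ‖g t‖ ^ 2) t₀ (‖deriv g t₀‖ ^ 2) := by
  obtain ⟨w, hwc, hexp⟩ := xeavg_exp hg
  generalize hb : deriv g t₀ = b at hexp ⊢
  generalize ha : g t₀ = a at hexp
  have hK : ∀ ω : ℂ, Tendsto (fun r : ℝ => xeavgK a b ω (r, w (t₀ + ω * r))) (𝓝 0)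
      (𝓝 (xeavgK a b ω (0, w t₀))) := by
    intro ω
    have h1 : Tendsto (fun r : ℝ => w (t₀ + ω * r)) (𝓝 0) (𝓝 (w t₀)) :=
      hwc.tendsto.comp (xeavg_pt t₀ ω)
    have h2 : Tendsto (fun r : ℝ => (r, w (t₀ + ω * r))) (𝓝 0) (𝓝 (0, w t₀)) :=
      tendsto_id.prodMk_nhds h1
    exact ((xeavgK_cont a b ω).tendsto _).comp h2
  have := ((((hK 1).add (hK I)).add (hK (-1))).add (hK (-I))).const_add (4 * ‖b‖ ^ 2)
  have e0 : 4 * ‖b‖ ^ 2 + (xeavgK a b 1 (0, w t₀) + xeavgK a b I (0, w t₀) +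
      xeavgK a b (-1) (0, w t₀) + xeavgK a b (-I) (0, w t₀)) = 4 * ‖b‖ ^ 2 := by
    simp [xeavgK]
    ring
  rw [e0] at this
  refine (this.mono_left nhdsWithin_le_nhds).congr' ?_
  filter_upwards [self_mem_nhdsWithin] with r hr
  have hr' : r ≠ 0 := hr
  rw [hexp, hexp, hexp, hexp, xeavgK_val, xeavgK_val, xeavgK_val, xeavgK_val, ha,
    ← normSq_eq_norm_sq, ← normSq_eq_norm_sq, eq_div_iff (pow_ne_zero 2 hr')]
  simp only [map_mul, normSq_I, normSq_neg, mul_neg, neg_re, mul_one]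
  ring

lemma xeavg_max {f : ℂ → ℝ} {L : ℝ} (hf : xeavgAv f t₀ L) (hm : IsLocalMax f t₀) : L ≤ 0 := by
  have h1 : ∀ ω : ℂ, ∀ᶠ r : ℝ in 𝓝[≠] 0, f (t₀ + ω * r) ≤ f t₀ := fun ω =>
    ((xeavg_pt t₀ ω).eventually hm).filter_mono nhdsWithin_le_nhds
  have : 4 * L ≤ 0 := by
    refine le_of_tendsto hf ?_
    filter_upwards [h1 1, h1 I, h1 (-1), h1 (-I)] with r a b c d
    exact div_nonpos_of_nonpos_of_nonneg (by linarith) (sq_nonneg r)
  linarith

theorem logSub_of (hv : AnalyticAt ℂ v t₀) (hc : 0 ≤ c)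
    (h : (fun t => u t - (nq (v t) + c * ‖t - t₀‖ ^ 2)) =o[𝓝 t₀] fun t => ‖t - t₀‖ ^ 2) :
    LogSub u t₀ := by
  intro φ hφ η hη hm
  have hva : ∀ a, AnalyticAt ℂ (fun t => v t a) t₀ := fun a => analyticAt_pi_iff.mp hv a
  have h1 := xeavg_sum Finset.univ fun a => xeavg_sq ((hva a).mul hφ)
  have h2 := xeavg_mul c (xeavg_sq (g := fun t => (t - t₀) * φ t) (t₀ := t₀) (by fun_prop))
  have h3 := xeavg_mul η (xeavg_sq (g := fun t => t) (t₀ := t₀) (by fun_prop))
  have hb : (fun t => ‖φ t‖ ^ 2) =O[𝓝 t₀] fun _ => (1 : ℝ) :=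
    ((hφ.continuousAt.norm.pow 2).tendsto.isBigO_one ℝ)
  have h4 := h.mul_isBigO hb
  simp only [mul_one] at h4
  have h5 := xeavg_add (xeavg_add (xeavg_add h1 h2) h3) (xeavg_small h4)
  have e : (fun t => u t * ‖φ t‖ ^ 2 + η * ‖t‖ ^ 2) = fun t =>
      ∑ a, ‖((fun t => v t a) * φ) t‖ ^ 2 + c * ‖(t - t₀) * φ t‖ ^ 2 + η * ‖t‖ ^ 2 +
        (u t - (nq (v t) + c * ‖t - t₀‖ ^ 2)) * ‖φ t‖ ^ 2 := by
    funext t
    simp only [Pi.mul_apply, norm_mul, mul_pow, nq, ← Finset.sum_mul]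
    ring
  rw [e] at hm
  have h6 := xeavg_max h5 hm
  have h7 : 0 ≤ ∑ a, ‖deriv ((fun t => v t a) * φ) t₀‖ ^ 2 :=
    Finset.sum_nonneg fun a _ => sq_nonneg _
  have h8 : 0 ≤ c * ‖deriv (fun t => (t - t₀) * φ t) t₀‖ ^ 2 := mul_nonneg hc (sq_nonneg _)
  simp only [deriv_id'', norm_one, one_pow, mul_one, add_zero] at h6
  linarith

theorem const_of (hv : AnalyticAt ℂ v t₀) (hc : 0 ≤ c)
    (h : (fun t => u t - (nq (v t) + c * ‖t - t₀‖ ^ 2)) =o[𝓝 t₀] fun t => ‖t - t₀‖ ^ 2)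
    (hu : ∀ᶠ t in 𝓝 t₀, u t = u t₀) : deriv v t₀ = 0 ∧ c = 0 := by
  have hva : ∀ a, AnalyticAt ℂ (fun t => v t a) t₀ := fun a => analyticAt_pi_iff.mp hv a
  have h1 := xeavg_sum Finset.univ fun a => xeavg_sq (hva a)
  have h2 := xeavg_mul c (xeavg_sq (g := fun t => t - t₀) (t₀ := t₀) (by fun_prop))
  have h5 := xeavg_add (xeavg_add h1 h2) (xeavg_small h)
  have e : (fun t => ∑ a, ‖v t a‖ ^ 2 + c * ‖t - t₀‖ ^ 2 +
      (u t - (nq (v t) + c * ‖t - t₀‖ ^ 2))) = u := by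
    funext t
    simp only [nq]
    ring
  rw [e] at h5
  have h6 := xeavg_max h5 (hu.mono fun t ht => ht.le)
  have h7 : 0 ≤ ∑ a, ‖deriv (fun t => v t a) t₀‖ ^ 2 :=
    Finset.sum_nonneg fun a _ => sq_nonneg _
  have hd : deriv (fun t : ℂ => t - t₀) t₀ = 1 := by simp
  rw [hd, norm_one, one_pow, mul_one, add_zero] at h6
  refine ⟨?_, by linarith⟩
  have h8 : ∑ a, ‖deriv (fun t => v t a) t₀‖ ^ 2 = 0 := by linarith
  rw [Finset.sum_eq_zero_iff_of_nonneg fun a _ => sq_nonneg _] at h8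
  have h9 : deriv v t₀ = fun a => deriv (fun t => v t a) t₀ :=
    deriv_pi fun a => (hva a).differentiableAt
  rw [h9]
  funext a
  simpa using h8 a (Finset.mem_univ a)

end Pool.Agent.MP_f58063_ag

end
end

section

open Complex Filter Topology Matrix Function Asymptotics

noncomputable section

namespace Pool.Agent.MP_f58063_ag

variable {g : ℕ} (κ : Type) [Fintype κ] [DecidableEq κ] {τ : Mat g}

theorem xehod2_zero (hτ : τ ∈ Siegel g) (q : ℕ) (v : (κ → LL g) → ℂ) :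
    Hp κ q τ *ᵥ v = 0 ↔ ∀ a, wt a = q → (kr κ (bf τ)⁻¹ *ᵥ v) a = 0 := by
  have e : Hp κ q τ *ᵥ v = kr κ (bf τ) *ᵥ (Pw κ g q *ᵥ (kr κ (bf τ)⁻¹ *ᵥ v)) := by
    rw [mulVec_mulVec, mulVec_mulVec]
    rfl
  rw [e]
  constructor
  · intro h a ha
    have h1 := congrArg (fun x => kr κ (bf τ)⁻¹ *ᵥ x) h
    simp only [mulVec_zero] at h1
    rw [mulVec_mulVec, kr_inv_mul κ (bf_det hτ), one_mulVec] at h1
    have h2 := congrFun h1 a
    rwa [Pw_mulVec, if_pos ha] at h2
  · intro h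
    have h1 : Pw κ g q *ᵥ (kr κ (bf τ)⁻¹ *ᵥ v) = 0 := by
      funext a
      rw [Pw_mulVec]
      split_ifs with ha
      · exact h a ha
      · rfl
    rw [h1, mulVec_zero]

theorem xehod2_aux {W T T' : Matrix (Fin g) (Fin g) ℂ} (hW : IsUnit W.det) (e : W = T - T') :
    W⁻¹ * T = 1 + W⁻¹ * T' := by
  rw [← nonsing_inv_mul W hW]
  nth_rewrite 3 [e]
  rw [Matrix.mul_sub, sub_add_cancel]

theorem Hp_lt_iff (hτ : τ ∈ Siegel g) (p : ℕ) (v : (κ → LL g) → ℂ) :
    (∀ q < p, Hp κ q τ *ᵥ v = 0) ↔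
      ∀ a, wt a < p → (kr κ (fromBlocks 1 (-Matrix.of τ) 0 1) *ᵥ v) a = 0 := by
  have hW := im_det hτ
  have h0 := xehod2_aux hW rfl
  have hb := bf_inv hτ
  generalize Matrix.of τ - cj (Matrix.of τ) = W at hW h0 hb
  have e1 : (fromBlocks 1 (-Matrix.of τ) 0 1 : Matrix (LL g) (LL g) ℂ) =
      fromBlocks (-W) 0 1 1 * (bf τ)⁻¹ := by
    rw [hb, fromBlocks_multiply]
    congr 1
    · simp [mul_nonsing_inv W hW]
    · simp [← Matrix.mul_assoc, mul_nonsing_inv W hW]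
    · simp
    · simp [h0]
  have e2 : (bf τ)⁻¹ = fromBlocks (-W⁻¹) 0 W⁻¹ 1 * fromBlocks 1 (-Matrix.of τ) 0 1 := by
    rw [hb, fromBlocks_multiply]
    congr 1
    · simp
    · simp [-neg_of]
    · simp
    · simp [-neg_of, h0]
  simp only [xehod2_zero κ hτ]
  constructor
  · intro h
    rw [e1, kr_mul, ← mulVec_mulVec]
    exact (kr_low κ _ _ _ fun a ha => h _ ha a rfl).1
  · intro h q hq a ha
    rw [e2, kr_mul, ← mulVec_mulVec]
    exact (kr_low κ _ _ _ h).1 a (ha ▸ hq)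

theorem Hp_gt_iff (hτ : τ ∈ Siegel g) (p : ℕ) (v : (κ → LL g) → ℂ) :
    (∀ q, p < q → Hp κ q τ *ᵥ v = 0) ↔
      ∀ a, p < wt a → (kr κ (fromBlocks 0 1 1 (-Matrix.of τ)) *ᵥ star v) a = 0 := by
  have hW := im_det hτ
  have h0 := xehod2_aux hW rfl
  have hb := bf_inv hτ
  generalize Matrix.of τ - cj (Matrix.of τ) = W at hW h0 hb
  have e1 : (fromBlocks 0 1 1 (-cj (Matrix.of τ)) : Matrix (LL g) (LL g) ℂ) =
      fromBlocks 1 1 0 W * (bf τ)⁻¹ := by
    rw [hb, fromBlocks_multiply]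
    congr 1
    · simp
    · simp [h0]
    · simp [mul_nonsing_inv W hW]
    · simp [← Matrix.mul_assoc, mul_nonsing_inv W hW]
  have e2 : (bf τ)⁻¹ = fromBlocks 1 (-W⁻¹) 0 W⁻¹ * fromBlocks 0 1 1 (-cj (Matrix.of τ)) := by
    rw [hb, fromBlocks_multiply]
    congr 1
    · simp
    · simp [h0]
    · simp
    · simp
  have e3 : (fromBlocks 0 1 1 (-Matrix.of τ) : Matrix (LL g) (LL g) ℂ) =
      (fromBlocks 0 1 1 (-cj (Matrix.of τ))).map (starRingEnd ℂ) := by
    ext (a | a) (b | b) <;> simp [cj, one_apply, apply_ite]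
  have e4 : ∀ a, (kr κ (fromBlocks 0 1 1 (-Matrix.of τ)) *ᵥ star v) a = 0 ↔
      (kr κ (fromBlocks 0 1 1 (-cj (Matrix.of τ))) *ᵥ v) a = 0 := by
    intro a
    rw [e3, kr_map, ← map_eq_zero (starRingEnd ℂ) (a := (_ *ᵥ v) a), RingHom.map_mulVec]
    rfl
  simp only [xehod2_zero κ hτ, e4]
  constructor
  · intro h
    rw [e1, kr_mul, ← mulVec_mulVec]
    exact kr_upp κ _ _ _ fun a ha => h _ ha a rfl
  · intro h q hq a ha
    rw [e2, kr_mul, ← mulVec_mulVec]
    exact kr_upp κ _ _ _ h a (ha ▸ hq)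

theorem Hn_nonneg (p : ℕ) (s : (κ → LL g) → ℂ) (τ : Mat g) : 0 ≤ Hn p s τ :=
  norm_nonneg _

theorem xehod2_cont_bf : Continuous fun τ : Mat g => bf τ := by
  have h : Continuous fun τ : Mat g => Matrix.of τ := continuous_id
  exact (h.matrix_map continuous_conj).matrix_fromBlocks h continuous_const continuous_const

theorem Hn_cont (p : ℕ) (s : (κ → LL g) → ℂ) : ContinuousOn (Hn p s) (Siegel g) := by
  intro τ hτ
  refine ContinuousAt.continuousWithinAt ?_
  have h1 : ContinuousAt (fun τ : Mat g => (bf τ)⁻¹) τ := by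
    refine ContinuousAt.comp (f := fun τ : Mat g => bf τ) ?_ xehod2_cont_bf.continuousAt
    obtain ⟨u, hu⟩ := bf_det hτ
    refine continuousAt_matrix_inv _ ?_
    rw [← hu]
    exact NormedRing.inverse_continuousAt u
  have h2 : Continuous fun x : Matrix (LL g) (LL g) ℂ × Matrix (LL g) (LL g) ℂ =>
      (kr κ x.1 * Pw κ g p * kr κ x.2) *ᵥ s :=
    ((((continuous_kr κ).comp continuous_fst).matrix_mul continuous_const).matrix_mul
      ((continuous_kr κ).comp continuous_snd)).matrix_mulVec continuous_const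
  have h3 : Continuous fun x : (κ → LL g) → ℂ => Hf (J (Fin g) ℂ) x :=
    (continuous_star.dotProduct (continuous_const.matrix_mulVec continuous_id)).norm
  exact (h3.comp h2).continuousAt.comp (f := fun τ : Mat g => (bf τ, (bf τ)⁻¹))
    (xehod2_cont_bf.continuousAt.prodMk h1)

/-- polynomially bounded functions -/
def xehod2B (F : Mat g → ℂ) : Prop :=
  ∃ (C : ℝ) (N : ℕ), 0 ≤ C ∧ ∀ τ ∈ Siegel g, ∀ r : ℝ, 1 ≤ r → ‖τ‖ ≤ r →
    (∀ a b, ‖(Matrix.of τ - cj (Matrix.of τ))⁻¹ a b‖ ≤ r) → ‖F τ‖ ≤ C * r ^ N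

theorem xehod2_const (c : ℂ) : xehod2B fun _ : Mat g => c :=
  ⟨‖c‖, 0, norm_nonneg _, fun _ _ _ _ _ _ => by simp⟩

theorem xehod2_congr {F F' : Mat g → ℂ} (h : xehod2B F) (e : ∀ τ ∈ Siegel g, ‖F' τ‖ = ‖F τ‖) :
    xehod2B F' := by
  obtain ⟨C, N, hC, h⟩ := h
  exact ⟨C, N, hC, fun τ hτ r h1 h2 h3 => (e τ hτ).trans_le (h τ hτ r h1 h2 h3)⟩

theorem xehod2_add {F F' : Mat g → ℂ} (h : xehod2B F) (h' : xehod2B F') :
    xehod2B fun τ => F τ + F' τ := by
  obtain ⟨C, N, hC, h⟩ := h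
  obtain ⟨C', N', hC', h'⟩ := h'
  refine ⟨C + C', N + N', add_nonneg hC hC', fun τ hτ r h1 h2 h3 => ?_⟩
  have a1 : r ^ N ≤ r ^ (N + N') := pow_le_pow_right₀ h1 (Nat.le_add_right _ _)
  have a2 : r ^ N' ≤ r ^ (N + N') := pow_le_pow_right₀ h1 (Nat.le_add_left _ _)
  refine (norm_add_le _ _).trans ?_
  rw [add_mul]
  exact add_le_add ((h τ hτ r h1 h2 h3).trans (mul_le_mul_of_nonneg_left a1 hC))
    ((h' τ hτ r h1 h2 h3).trans (mul_le_mul_of_nonneg_left a2 hC'))

theorem xehod2_mul {F F' : Mat g → ℂ} (h : xehod2B F) (h' : xehod2B F') :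
    xehod2B fun τ => F τ * F' τ := by
  obtain ⟨C, N, hC, h⟩ := h
  obtain ⟨C', N', hC', h'⟩ := h'
  refine ⟨C * C', N + N', mul_nonneg hC hC', fun τ hτ r h1 h2 h3 => ?_⟩
  rw [norm_mul, pow_add, mul_mul_mul_comm]
  exact mul_le_mul (h τ hτ r h1 h2 h3) (h' τ hτ r h1 h2 h3) (norm_nonneg _)
    (mul_nonneg hC (pow_nonneg (zero_le_one.trans h1) _))

theorem xehod2_sum {ι : Type} (t : Finset ι) {F : ι → Mat g → ℂ} (h : ∀ i, xehod2B (F i)) :
    xehod2B fun τ => ∑ i ∈ t, F i τ := by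
  classical
  induction t using Finset.induction_on with
  | empty => simpa using xehod2_const 0
  | insert i t hi ih => simpa only [Finset.sum_insert hi] using xehod2_add (h i) ih

theorem xehod2_prod {ι : Type} (t : Finset ι) {F : ι → Mat g → ℂ} (h : ∀ i, xehod2B (F i)) :
    xehod2B fun τ => ∏ i ∈ t, F i τ := by
  classical
  induction t using Finset.induction_on with
  | empty => simpa using xehod2_const 1
  | insert i t hi ih => simpa only [Finset.prod_insert hi] using xehod2_mul (h i) ih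

theorem xehod2_ent (a b : Fin g) : xehod2B fun τ : Mat g => τ a b :=
  ⟨1, 1, zero_le_one, fun τ _ r _ h2 _ => by
    rw [one_mul, pow_one]
    exact ((norm_le_pi_norm (τ a) b).trans (norm_le_pi_norm τ a)).trans h2⟩

theorem xehod2_inv (a b : Fin g) :
    xehod2B fun τ : Mat g => (Matrix.of τ - cj (Matrix.of τ))⁻¹ a b :=
  ⟨1, 1, zero_le_one, fun τ _ r _ _ h3 => by
    rw [one_mul, pow_one]
    exact h3 a b⟩

theorem xehod2_cj (a b : Fin g) : xehod2B fun τ : Mat g => cj (Matrix.of τ) a b :=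
  xehod2_congr (xehod2_ent a b) fun τ _ => by simp [cj]

theorem xehod2_bf (a b : LL g) : xehod2B fun τ : Mat g => bf τ a b := by
  rcases a with a | a <;> rcases b with b | b
  · exact xehod2_cj a b
  · exact xehod2_ent a b
  · exact xehod2_const _
  · exact xehod2_const _

theorem xehod2_bfi (a b : LL g) : xehod2B fun τ : Mat g => (bf τ)⁻¹ a b := by
  rcases a with a | a <;> rcases b with b | b
  · exact xehod2_congr (xehod2_inv a b) fun τ hτ => by simp [bf_inv hτ]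
  · exact xehod2_congr (xehod2_sum Finset.univ fun c => xehod2_mul (xehod2_inv a c)
      (xehod2_ent c b)) fun τ hτ => by simp [bf_inv hτ, mul_apply]
  · exact xehod2_congr (xehod2_inv a b) fun τ hτ => by simp [bf_inv hτ]
  · exact xehod2_congr (xehod2_sum Finset.univ fun c => xehod2_mul (xehod2_inv a c)
      (xehod2_cj c b)) fun τ hτ => by simp [bf_inv hτ, mul_apply]

theorem Hn_modG (p : ℕ) (s : (κ → LL g) → ℂ) : ModG (Hn p s) := by
  have h1 : ∀ a b, xehod2B fun τ : Mat g => Hp κ p τ a b := fun a b =>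
    xehod2_sum Finset.univ fun c => xehod2_mul
      (xehod2_sum Finset.univ fun e => xehod2_mul
        (xehod2_prod Finset.univ fun i => xehod2_bf (a i) (e i)) (xehod2_const (Pw κ g p e c)))
      (xehod2_prod Finset.univ fun i => xehod2_bfi (c i) (b i))
  have h2 : ∀ a, xehod2B fun τ : Mat g => (Hp κ p τ *ᵥ s) a := fun a =>
    xehod2_sum Finset.univ fun b => xehod2_mul (h1 a b) (xehod2_const (s b))
  have h3 : xehod2B fun τ : Mat g =>
      star (Hp κ p τ *ᵥ s) ⬝ᵥ (kr κ (J (Fin g) ℂ) *ᵥ (Hp κ p τ *ᵥ s)) :=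
    xehod2_sum Finset.univ fun a => xehod2_mul
      (xehod2_congr (h2 a) fun _ _ => norm_star _)
      (xehod2_sum Finset.univ fun b => xehod2_mul (xehod2_const (kr κ (J (Fin g) ℂ) a b)) (h2 b))
  obtain ⟨C, N, _, h⟩ := h3
  exact ⟨C, N, h⟩

end Pool.Agent.MP_f58063_ag

end
end

section

open Complex Filter Topology Matrix Function Asymptotics

noncomputable section

namespace Pool.Agent.MP_f58063_ag

variable {g d : ℕ} {S : Set (Mat g)} {Δ : Subgroup (Sp g)} {R : MvPolynomial (Fin d) ℂ}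
  {y : Mat g → Fin d → ℂ}

/-- continuous lifts -/
def xeliftL (S : Set (Mat g)) (y : Mat g → Fin d → ℂ) {E : Type} [TopologicalSpace E]
    (D : Set E) (c : E → Fin d → ℂ) (φ : E → Mat g) : Prop :=
  ContinuousOn φ D ∧ ∀ w ∈ D, φ w ∈ S ∧ y (φ w) = c w

theorem xelift_exu (h : CovD S Δ R y) {E : Type} [NormedAddCommGroup E]
    [NormedSpace ℝ E] {D : Set E} (hD : IsOpen D) (hc : Convex ℝ D) {c : E → Fin d → ℂ}
    (hca : ContinuousOn c D) (hU : ∀ w ∈ D, MvPolynomial.eval (c w) R ≠ 0) {w₁ : E}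
    (hw : w₁ ∈ D) {τ : Mat g} (hτ : τ ∈ S) (hy : y τ = c w₁) :
    (∃ φ, xeliftL S y D c φ ∧ φ w₁ = τ) ∧
      ∀ φ ψ, xeliftL S y D c φ → xeliftL S y D c ψ → φ w₁ = τ → ψ w₁ = τ → Set.EqOn φ ψ D := by
  classical
  have := hc.contractibleSpace ⟨w₁, hw⟩
  have := hD.locallyPathConnectedSpace
  obtain ⟨F, ⟨hF1, hF2⟩, hF3⟩ := h.cov.existsUnique_continuousMap_lifts
    ⟨D.domRestrict c, continuousOn_iff_continuous_domRestrict.mp hca⟩
    (a₀ := ⟨w₁, hw⟩) (e₀ := ⟨τ, hτ⟩) hy (fun x => hU x x.2)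
  constructor
  · obtain ⟨φ, hφ⟩ : ∃ φ : E → Mat g, ∀ z : D, φ z = F z :=
      ⟨fun z => if hz : z ∈ D then F ⟨z, hz⟩ else 0, by simp⟩
    refine ⟨φ, ⟨?_, fun w hw' => ?_⟩, by rw [hφ ⟨w₁, hw⟩, hF1]⟩
    · rw [continuousOn_iff_continuous_domRestrict]
      have : D.domRestrict φ = fun z => (F z : Mat g) := funext hφ
      rw [this]
      exact continuous_subtype_val.comp (map_continuous F)
    · rw [hφ ⟨w, hw'⟩]
      exact ⟨(F _).2, congrFun hF2 ⟨w, hw'⟩⟩
  · have key : ∀ φ, xeliftL S y D c φ → φ w₁ = τ → ∀ z : D, φ z = F z := by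
      intro φ hφ h1 z
      have := hF3 ⟨fun z : D => ⟨φ z, (hφ.2 z z.2).1⟩,
        (continuousOn_iff_continuous_domRestrict.mp hφ.1).subtype_mk _⟩
        ⟨Subtype.ext h1, funext fun z => (hφ.2 z z.2).2⟩
      rw [← this]
      rfl
    intro φ ψ h1 h2 h3 h4 w hw'
    rw [key φ h1 h3 ⟨w, hw'⟩, key ψ h2 h4 ⟨w, hw'⟩]

theorem xelift_an (h : CovD S Δ R y) {E : Type} [NormedAddCommGroup E]
    [NormedSpace ℂ E] {D : Set E} (hD : IsOpen D) {c : E → Fin d → ℂ}
    (hca : AnalyticOnNhd ℂ c D) {φ : E → Mat g} (hφ : xeliftL S y D c φ) :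
    AnalyticOnNhd ℂ φ D := by
  intro w hw
  obtain ⟨σ, h1, h2⟩ := h.sec (φ w) (hφ.2 w hw).1
  have hn : D ∈ 𝓝 w := hD.mem_nhds hw
  have ht : Tendsto φ (𝓝 w) (𝓝[S] (φ w)) :=
    tendsto_nhdsWithin_iff.2 ⟨(hφ.1 w hw).continuousAt hn,
      Filter.mem_of_superset hn fun z hz => (hφ.2 z hz).1⟩
  rw [(hφ.2 w hw).2] at h1
  refine (h1.comp (hca w hw)).congr ?_
  filter_upwards [ht.eventually h2, hn] with z h3 h4
  rw [Function.comp_apply, ← (hφ.2 z h4).2, h3]

/-- analytic lifts over a convex domain -/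
theorem CovD.lifts (h : CovD S Δ R y) {E : Type} [NormedAddCommGroup E] [NormedSpace ℂ E]
    [NormedSpace ℝ E] {D : Set E} (hD : IsOpen D) (hc : Convex ℝ D) {c : E → Fin d → ℂ}
    (hca : AnalyticOnNhd ℂ c D) (hU : ∀ w ∈ D, MvPolynomial.eval (c w) R ≠ 0) :
    ∃ (n : ℕ) (φ : Fin n → E → Mat g), (∀ i, AnalyticOnNhd ℂ (φ i) D) ∧ ∀ w ∈ D,
      (∀ i, φ i w ∈ S ∧ y (φ i w) = c w) ∧
        ∀ τ ∈ S, y τ = c w → ∃ γ ∈ Δ, ∃ i, act γ τ = φ i w := by
  classical
  rcases D.eq_empty_or_nonempty with rfl | ⟨w₀, hw₀⟩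
  · exact ⟨0, fun i => i.elim0, fun i => i.elim0, fun w hw => absurd hw (Set.notMem_empty w)⟩
  obtain ⟨F, hF⟩ := h.fin (c w₀)
  set G := F.filter fun f => f ∈ S ∧ y f = c w₀ with hG
  have ex : ∀ f : G, ∃ φ, xeliftL S y D c φ ∧ φ w₀ = f := fun f =>
    (xelift_exu h hD hc hca.continuousOn hU hw₀ (Finset.mem_filter.1 f.2).2.1
      (Finset.mem_filter.1 f.2).2.2).1
  choose φ hφ hφ0 using ex
  refine ⟨G.card, fun i => φ (G.equivFin.symm i), fun i => xelift_an h hD hca (hφ _),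
    fun w hw => ⟨fun i => (hφ _).2 w hw, fun τ hτ hy => ?_⟩⟩
  obtain ⟨ψ, hψ, hψ0⟩ := (xelift_exu h hD hc hca.continuousOn hU hw hτ hy).1
  obtain ⟨γ, hγ, hγF⟩ := hF (ψ w₀) (hψ.2 w₀ hw₀).1 (hψ.2 w₀ hw₀).2
  have hL : xeliftL S y D c fun z => act γ (ψ z) := by
    refine ⟨fun z hz => ?_, fun z hz => ?_⟩
    · exact (act_analytic γ (h.sub (hψ.2 z hz).1)).continuousAt.comp_continuousWithinAt
        (hψ.1 z hz)
    · have := h.inv γ hγ _ (hψ.2 z hz).1
      exact ⟨this.1, this.2.trans (hψ.2 z hz).2⟩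
  have hmem : act γ (ψ w₀) ∈ G := Finset.mem_filter.2 ⟨hγF, hL.2 w₀ hw₀⟩
  refine ⟨γ, hγ, G.equivFin ⟨_, hmem⟩, ?_⟩
  beta_reduce
  rw [Equiv.symm_apply_apply, ← hψ0]
  exact (xelift_exu h hD hc hca.continuousOn hU hw₀ (hL.2 w₀ hw₀).1 (hL.2 w₀ hw₀).2).2 _ _ hL
    (hφ ⟨_, hmem⟩) rfl (hφ0 ⟨_, hmem⟩) hw

/-- the maximum over a fibre is a maximum over finitely many points -/
theorem us_eq {f : Mat g → ℝ} (hi : ∀ γ ∈ Δ, ∀ τ ∈ S, f (act γ τ) = f τ) {u : Fin d → ℂ} {n : ℕ}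
    {x : Fin n → Mat g} (h1 : ∀ i, x i ∈ S ∧ y (x i) = u)
    (h2 : ∀ τ ∈ S, y τ = u → ∃ γ ∈ Δ, ∃ i, act γ τ = x i) : us S y f u = ⨆ i, f (x i) := by
  rw [us, iSup]
  congr 1
  ext t
  constructor
  · rintro ⟨τ, ⟨hτ, hy⟩, rfl⟩
    obtain ⟨γ, hγ, i, hi'⟩ := h2 τ hτ hy
    exact ⟨i, by rw [← hi γ hγ τ hτ, hi']⟩
  · rintro ⟨i, rfl⟩
    exact ⟨x i, h1 i, rfl⟩

end Pool.Agent.MP_f58063_ag

end
end

section

open Complex Filter Topology Matrix Function Asymptotics

noncomputable section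

namespace Pool.Agent.MP_f58063_ag

/-- the harmonic weight -/
def xeliouH (B : Finset ℂ) (a z : ℂ) : ℝ :=
  ∑ b ∈ B, Real.log ‖z - b‖ - ((B.card : ℝ) + 1) * Real.log ‖z - a‖

/-- a local holomorphic logarithm -/
def xeliouL (z₀ c z : ℂ) : ℂ :=
  Complex.log ((z - c) / (z₀ - c)) + (Real.log ‖z₀ - c‖ : ℂ)

theorem xeliou_an {c z₀ : ℂ} (h : z₀ ≠ c) : AnalyticAt ℂ (xeliouL z₀ c) z₀ := by
  have h1 : z₀ - c ≠ 0 := sub_ne_zero.2 h
  unfold xeliouL
  refine AnalyticAt.add ?_ analyticAt_const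
  refine AnalyticAt.clog (by fun_prop) ?_
  simp [div_self h1]

theorem xeliou_re {c z₀ z : ℂ} (h : z₀ ≠ c) (hz : z ≠ c) :
    (xeliouL z₀ c z).re = Real.log ‖z - c‖ := by
  have h1 : ‖z₀ - c‖ ≠ 0 := norm_ne_zero_iff.2 (sub_ne_zero.2 h)
  have h2 : ‖z - c‖ ≠ 0 := norm_ne_zero_iff.2 (sub_ne_zero.2 hz)
  unfold xeliouL
  rw [Complex.add_re, Complex.log_re, Complex.ofReal_re, norm_div, Real.log_div h2 h1]
  ring

theorem xeliou_ev (B : Finset ℂ) {z₀ : ℂ} (h : z₀ ∉ B) : ∀ᶠ z in 𝓝 z₀, z ∉ B :=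
  (B.finite_toSet.isClosed.isOpen_compl).mem_nhds h

theorem xeliou_har (B : Finset ℂ) {a z₀ : ℂ} (h1 : z₀ ∉ B) (h2 : z₀ ≠ a) (ε : ℝ) :
    ∃ φ : ℂ → ℂ, AnalyticAt ℂ φ z₀ ∧
      ∀ᶠ z in 𝓝 z₀, ‖φ z‖ ^ 2 = Real.exp (2 * ε * xeliouH B a z) := by
  refine ⟨fun z => Complex.exp ((ε : ℂ) * (∑ b ∈ B, xeliouL z₀ b z -
    (((B.card : ℝ) + 1 : ℝ) : ℂ) * xeliouL z₀ a z)), ?_, ?_⟩
  · refine AnalyticAt.cexp' ?_
    refine analyticAt_const.mul (AnalyticAt.sub ?_ (analyticAt_const.mul (xeliou_an h2)))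
    refine Finset.analyticAt_fun_sum _ fun b hb => xeliou_an ?_
    rintro rfl
    exact h1 hb
  · filter_upwards [xeliou_ev B h1, isOpen_ne.mem_nhds h2] with z hz hza
    rw [Complex.norm_exp, ← Real.exp_nat_mul, Complex.re_ofReal_mul, Complex.sub_re,
      Complex.re_ofReal_mul, Complex.re_sum, xeliou_re h2 hza]
    congr 1
    have : ∑ b ∈ B, (xeliouL z₀ b z).re = ∑ b ∈ B, Real.log ‖z - b‖ := by
      refine Finset.sum_congr rfl fun b hb => xeliou_re ?_ ?_
      · rintro rfl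
        exact h1 hb
      · rintro rfl
        exact hz hb
    rw [this, xeliouH]
    push_cast
    ring

theorem xeliou_exp (N : ℕ) {c : ℝ} (hc : 0 < c) :
    Tendsto (fun x : ℝ => |x| ^ N * Real.exp (-(c * x))) atTop (𝓝 0) := by
  have h := tendsto_rpow_mul_exp_neg_mul_atTop_nhds_zero (N : ℝ) c hc
  refine h.congr' ?_
  filter_upwards [eventually_ge_atTop (0 : ℝ)] with x hx
  rw [abs_of_nonneg hx, Real.rpow_natCast, neg_mul]

theorem xeliou_sq {l : Filter ℂ} {x f h : ℂ → ℝ} (hx : Tendsto x l atTop) (h0 : ∀ t, 0 ≤ f t)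
    {C D ε : ℝ} {N : ℕ} (hε : 0 < ε) (hf : ∀ᶠ t in l, f t ≤ C * |x t| ^ N)
    (hh : ∀ᶠ t in l, h t ≤ D - x t) :
    Tendsto (fun t => f t * Real.exp (2 * ε * h t)) l (𝓝 0) := by
  have h1 := ((xeliou_exp N (c := 2 * ε) (by positivity)).comp hx).const_mul
    (C * Real.exp (2 * ε * D))
  rw [mul_zero] at h1
  refine squeeze_zero' (Eventually.of_forall fun t => mul_nonneg (h0 t) (Real.exp_pos _).le) ?_ h1
  filter_upwards [hf, hh] with t h2 h3
  have h4 : Real.exp (2 * ε * h t) ≤ Real.exp (2 * ε * D) * Real.exp (-(2 * ε * x t)) := by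
    rw [← Real.exp_add]
    apply Real.exp_le_exp.2
    nlinarith
  calc f t * Real.exp (2 * ε * h t)
      ≤ (C * |x t| ^ N) * (Real.exp (2 * ε * D) * Real.exp (-(2 * ε * x t))) :=
        mul_le_mul h2 h4 (Real.exp_pos _).le ((h0 t).trans h2)
    _ = _ := by simp only [Function.comp]; ring

theorem xeliou_logc {c z₀ : ℂ} (h : z₀ ≠ c) :
    ContinuousAt (fun z : ℂ => Real.log ‖z - c‖) z₀ :=
  ContinuousAt.log (by fun_prop) (norm_ne_zero_iff.2 (sub_ne_zero.2 h))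

theorem xeliou_cont (B : Finset ℂ) {a z₀ : ℂ} (h1 : z₀ ∉ B) (h2 : z₀ ≠ a) (c : ℝ) :
    ContinuousAt (fun z => ∑ b ∈ B, Real.log ‖z - b‖ - c * Real.log ‖z - a‖) z₀ := by
  refine ContinuousAt.sub ?_ (continuousAt_const.mul (xeliou_logc h2))
  refine tendsto_finsetSum _ fun b hb => xeliou_logc ?_
  rintro rfl
  exact h1 hb

theorem xeliou_atb (B : Finset ℂ) {f : ℂ → ℝ} (h0 : ∀ t, 0 ≤ f t) {a b : ℂ} (ha : a ∉ B)
    (hbB : b ∈ B) {C : ℝ} {N : ℕ} (hb : ∀ᶠ t in 𝓝[≠] b, f t ≤ C * |Real.log ‖t - b‖| ^ N)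
    {ε : ℝ} (hε : 0 < ε) :
    Tendsto (fun t => f t * Real.exp (2 * ε * xeliouH B a t)) (𝓝[≠] b) (𝓝 0) := by
  classical
  have hba : b ≠ a := by
    rintro rfl
    exact ha hbB
  have hc := xeliou_cont (B.erase b) (z₀ := b) (by simp) hba ((B.card : ℝ) + 1)
  set r : ℂ → ℝ := fun z => ∑ b ∈ B.erase b, Real.log ‖z - b‖ -
    ((B.card : ℝ) + 1) * Real.log ‖z - a‖ with hr
  refine xeliou_sq (x := fun t => -Real.log ‖t - b‖) (C := C) (N := N) (D := r b + 1) ?_ h0 hε ?_ ?_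
  · refine tendsto_neg_atBot_atTop.comp (Real.tendsto_log_nhdsGT_zero.comp ?_)
    refine tendsto_nhdsWithin_iff.2 ⟨?_, ?_⟩
    · have : ContinuousAt (fun t : ℂ => ‖t - b‖) b := by fun_prop
      have h2 := this.tendsto
      rw [sub_self, norm_zero] at h2
      exact h2.mono_left nhdsWithin_le_nhds
    · filter_upwards [self_mem_nhdsWithin] with t ht
      exact norm_pos_iff.2 (sub_ne_zero.2 ht)
  · simpa only [abs_neg] using hb
  · have h3 : ∀ᶠ t in 𝓝 b, r t < r b + 1 := hc.eventually (gt_mem_nhds (by linarith))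
    filter_upwards [h3.filter_mono nhdsWithin_le_nhds] with t ht
    have h4 : xeliouH B a t = Real.log ‖t - b‖ + r t := by
      rw [xeliouH, hr, ← Finset.add_sum_erase B _ hbB]
      ring
    linarith

theorem xeliou_inf (B : Finset ℂ) {f : ℂ → ℝ} (h0 : ∀ t, 0 ≤ f t) (a : ℂ)
    {C : ℝ} {N : ℕ} (hi : ∀ᶠ t in cocompact ℂ, f t ≤ C * |Real.log ‖t‖| ^ N)
    {ε : ℝ} (hε : 0 < ε) :
    Tendsto (fun t => f t * Real.exp (2 * ε * xeliouH B a t)) (cocompact ℂ) (𝓝 0) := by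
  have hn : Tendsto (fun t : ℂ => ‖t‖) (cocompact ℂ) atTop := tendsto_norm_cocompact_atTop
  refine xeliou_sq (x := fun t => Real.log ‖t‖) (C := C) (N := N)
    (D := (B.card : ℝ) * Real.log 4 + Real.log 2) (Real.tendsto_log_atTop.comp hn) h0 hε hi ?_
  have h1 : ∀ᶠ t in cocompact ℂ, ∀ b ∈ B, ‖b‖ < ‖t‖ :=
    (Filter.eventually_all_finset B).2 fun b _ => hn.eventually_gt_atTop _
  filter_upwards [h1, hn.eventually_gt_atTop (2 * ‖a‖)] with t h2 h3
  have h4 : ‖t‖ ≤ 2 * ‖t - a‖ := by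
    have := norm_sub_norm_le t a
    linarith
  have h5 : 0 < ‖t‖ := lt_of_le_of_lt (by positivity) h3
  have h6 : 0 < ‖t - a‖ := by linarith
  have h7 : ∑ b ∈ B, Real.log ‖t - b‖ ≤ ∑ _b ∈ B, (Real.log 4 + Real.log ‖t - a‖) := by
    refine Finset.sum_le_sum fun b hb => ?_
    have h8 := h2 b hb
    have h9 : 0 < ‖t - b‖ := by
      have := norm_sub_norm_le t b
      linarith
    rw [← Real.log_mul (by norm_num) h6.ne']
    refine Real.log_le_log h9 ?_
    have := norm_sub_le t b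
    linarith
  have h8 : Real.log ‖t‖ ≤ Real.log 2 + Real.log ‖t - a‖ := by
    rw [← Real.log_mul (by norm_num) h6.ne']
    exact Real.log_le_log h5 h4
  rw [Finset.sum_const, nsmul_eq_mul] at h7
  rw [xeliouH]
  nlinarith

/-- a maximum principle outside a disc -/
theorem xeliou_max {w : ℂ → ℝ} {a : ℂ} {δ M : ℝ} (hM : 0 ≤ M)
    (hc : ∀ z, δ ≤ ‖z - a‖ → ContinuousAt w z)
    (hl : ∀ z, δ < ‖z - a‖ → w z ≤ 0 ∨ ∀ η : ℝ, 0 < η →
      ¬ IsLocalMax (fun t => w t + η * ‖t‖ ^ 2) z)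
    (hb : ∀ z, ‖z - a‖ = δ → w z ≤ M) (hi : Tendsto w (cocompact ℂ) (𝓝 0))
    {t : ℂ} (ht : δ ≤ ‖t - a‖) : w t ≤ M := by
  refine le_of_forall_pos_le_add fun γ hγ => ?_
  have h1 : ∀ᶠ z in cocompact ℂ, w z < γ / 2 := hi.eventually (gt_mem_nhds (by linarith))
  obtain ⟨K, hK, hKs⟩ := Filter.mem_cocompact.1 h1
  obtain ⟨R, hR⟩ := hK.isBounded.exists_norm_le
  set ρ : ℝ := max R ‖t‖ + 1 with hρ
  have hρ0 : 0 < ρ := by
    have := le_max_right R ‖t‖
    have := norm_nonneg t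
    linarith
  set η : ℝ := γ / 2 / ρ ^ 2 with hη
  have hη0 : 0 < η := by positivity
  have hηρ : η * ρ ^ 2 = γ / 2 := by
    rw [hη]
    field_simp
  set S : Set ℂ := {z | δ ≤ ‖z - a‖} ∩ Metric.closedBall 0 ρ with hS
  have hSc : IsCompact S :=
    (isCompact_closedBall 0 ρ).inter_left (isClosed_le continuous_const (by fun_prop))
  have htS : t ∈ S := by
    refine ⟨ht, ?_⟩
    rw [mem_closedBall_zero_iff]
    have := le_max_right R ‖t‖
    linarith
  have hg : ContinuousOn (fun z => w z + η * ‖z‖ ^ 2) S := fun z hz =>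
    ((hc z hz.1).add (by fun_prop)).continuousWithinAt
  obtain ⟨z₀, hz₀, hmax⟩ := hSc.exists_isMaxOn ⟨t, htS⟩ hg
  have h2 : w t + η * ‖t‖ ^ 2 ≤ w z₀ + η * ‖z₀‖ ^ 2 := hmax htS
  have hz₁ : ‖z₀‖ ≤ ρ := mem_closedBall_zero_iff.1 hz₀.2
  have h3 : η * ‖z₀‖ ^ 2 ≤ γ / 2 := by
    rw [← hηρ]
    gcongr
  have h4 : 0 ≤ η * ‖t‖ ^ 2 := by positivity
  suffices h : w z₀ ≤ M + γ / 2 by linarith
  rcases (show δ ≤ ‖z₀ - a‖ from hz₀.1).eq_or_lt with h5 | h5
  · have := hb z₀ h5.symm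
    linarith
  rcases hz₁.eq_or_lt with h6 | h6
  · have h7 : z₀ ∉ K := fun h => by
      have := hR z₀ h
      have := le_max_left R ‖t‖
      linarith
    have : w z₀ < γ / 2 := hKs h7
    linarith
  rcases hl z₀ h5 with h7 | h7
  · linarith
  · refine absurd (hmax.isLocalMax ?_) (h7 η hη0)
    have h8 : IsOpen ({z : ℂ | δ < ‖z - a‖} ∩ Metric.ball 0 ρ) :=
      (isOpen_lt continuous_const (by fun_prop)).inter Metric.isOpen_ball
    refine mem_of_superset (h8.mem_nhds ⟨h5, mem_ball_zero_iff.2 h6⟩) ?_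
    exact fun z hz => ⟨le_of_lt (show δ < ‖z - a‖ from hz.1), Metric.ball_subset_closedBall hz.2⟩

/-- Liouville theorem for logarithmically subharmonic functions of logarithmic growth on the
complement of a finite set -/
theorem liou (B : Finset ℂ) {f : ℂ → ℝ} (h0 : ∀ t, 0 ≤ f t) (hc : ∀ t ∉ B, ContinuousAt f t)
    (hs : ∀ t ∉ B, ∃ u : ℂ → ℝ, u t = f t ∧ (∀ᶠ z in 𝓝 t, u z ≤ f z) ∧ LogSub u t)
    (hb : ∀ b ∈ B, ∃ (C : ℝ) (N : ℕ), ∀ᶠ t in 𝓝[≠] b, f t ≤ C * |Real.log ‖t - b‖| ^ N)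
    (hi : ∃ (C : ℝ) (N : ℕ), ∀ᶠ t in cocompact ℂ, f t ≤ C * |Real.log ‖t‖| ^ N)
    {a t : ℂ} (ha : a ∉ B) (ht : t ∉ B) : f t ≤ f a := by
  classical
  rcases eq_or_ne t a with rfl | hta
  · exact le_rfl
  refine le_of_forall_pos_le_add fun γ hγ => ?_
  have h1 : ∀ᶠ z in 𝓝 a, f z < f a + γ := (hc a ha).eventually (gt_mem_nhds (by linarith))
  obtain ⟨r, hr, hr1⟩ := Metric.eventually_nhds_iff.1 h1
  have hta' : 0 < ‖t - a‖ := norm_pos_iff.2 (sub_ne_zero.2 hta)
  set δ : ℝ := min (r / 2) ‖t - a‖ with hδ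
  have hδ0 : 0 < δ := lt_min (by linarith) hta'
  set H : ℝ := ∑ b ∈ B, (‖a - b‖ + δ) - ((B.card : ℝ) + 1) * Real.log δ with hH
  have hfa : 0 ≤ f a + γ := by
    have := h0 a
    linarith
  have key : ∀ ε : ℝ, 0 < ε →
      f t * Real.exp (2 * ε * xeliouH B a t) ≤ (f a + γ) * Real.exp (2 * ε * H) := by
    intro ε hε
    set v : ℂ → ℝ := fun z => f z * Real.exp (2 * ε * xeliouH B a z) with hv
    set w : ℂ → ℝ := fun z => if z ∈ B then 0 else v z with hw
    have hwv : ∀ z ∉ B, w z = v z := fun z hz => if_neg hz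
    have hne : ∀ z, δ ≤ ‖z - a‖ → z ≠ a := by
      rintro z hz rfl
      rw [sub_self, norm_zero] at hz
      linarith
    have h2 : w t ≤ (f a + γ) * Real.exp (2 * ε * H) := by
      refine xeliou_max (a := a) (δ := δ) (by positivity) ?_ ?_ ?_ ?_ (min_le_right _ _)
      · intro z hz
        by_cases hzB : z ∈ B
        · rw [continuousAt_iff_punctured_nhds]
          obtain ⟨C, N, hCN⟩ := hb z hzB
          have h3 : w z = 0 := if_pos hzB
          rw [h3]
          refine (xeliou_atb B h0 ha hzB hCN hε).congr' ?_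
          have h4 : ∀ᶠ y in 𝓝 z, y ∉ B.erase z := xeliou_ev _ (by simp)
          filter_upwards [h4.filter_mono nhdsWithin_le_nhds, self_mem_nhdsWithin] with y h5 h6
          refine (hwv y fun h7 => h5 ?_).symm
          exact Finset.mem_erase.2 ⟨h6, h7⟩
        · have h3 : ContinuousAt v z :=
            (hc z hzB).mul (continuousAt_const.mul (xeliou_cont B hzB (hne z hz) _)).rexp
          refine h3.congr ?_
          filter_upwards [xeliou_ev B hzB] with y hy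
          exact (hwv y hy).symm
      · intro z hz
        by_cases hzB : z ∈ B
        · exact Or.inl (le_of_eq (if_pos hzB))
        refine Or.inr fun η hη hmax => ?_
        obtain ⟨u, hu1, hu2, hu3⟩ := hs z hzB
        obtain ⟨φ, hφ1, hφ2⟩ := xeliou_har B hzB (hne z hz.le) ε
        refine hu3 φ hφ1 η hη ?_
        have h3 := hφ2.self_of_nhds
        filter_upwards [hmax, hu2, hφ2, xeliou_ev B hzB] with y h4 h5 h6 h7
        rw [hwv y h7, hwv z hzB] at h4
        rw [h3, h6, hu1]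
        have h8 : u y * Real.exp (2 * ε * xeliouH B a y) ≤ v y :=
          mul_le_mul_of_nonneg_right h5 (Real.exp_pos _).le
        have h9 : v z = f z * Real.exp (2 * ε * xeliouH B a z) := rfl
        linarith
      · intro z hz
        by_cases hzB : z ∈ B
        · have h3 : w z = 0 := if_pos hzB
          rw [h3]
          positivity
        rw [hwv z hzB]
        have h3 : f z ≤ f a + γ := by
          refine (hr1 ?_).le
          rw [dist_eq_norm, hz]
          have := min_le_left (r / 2) ‖t - a‖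
          linarith
        have h4 : xeliouH B a z ≤ H := by
          rw [xeliouH, hH, hz]
          refine sub_le_sub_right (Finset.sum_le_sum fun b _ => ?_) _
          refine (Real.log_le_self (norm_nonneg _)).trans ?_
          have := norm_sub_le_norm_sub_add_norm_sub z a b
          linarith
        refine mul_le_mul h3 (Real.exp_le_exp.2 ?_) (Real.exp_pos _).le hfa
        exact mul_le_mul_of_nonneg_left h4 (by positivity)
      · obtain ⟨C, N, hCN⟩ := hi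
        refine (xeliou_inf B h0 a hCN hε).congr' ?_
        filter_upwards [B.finite_toSet.isCompact.compl_mem_cocompact] with y hy
        exact (hwv y hy).symm
    rwa [hwv t ht] at h2
  have h2 : ∀ c d : ℝ, Tendsto (fun ε : ℝ => c * Real.exp (2 * ε * d)) (𝓝[>] 0) (𝓝 c) := by
    intro c d
    have h3 : ContinuousAt (fun ε : ℝ => c * Real.exp (2 * ε * d)) 0 := by fun_prop
    have h4 := h3.tendsto
    simp only [mul_zero, zero_mul, Real.exp_zero, mul_one] at h4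
    exact h4.mono_left nhdsWithin_le_nhds
  refine le_of_tendsto_of_tendsto (h2 (f t) (xeliouH B a t)) (h2 (f a + γ) H) ?_
  filter_upwards [self_mem_nhdsWithin] with ε hε
  exact key ε hε

end Pool.Agent.MP_f58063_ag

end
end

section

open Complex Filter Topology Matrix Function Asymptotics

noncomputable section

namespace Pool.Agent.MP_f58063_ag

lemma xegrow_re {ζ : ℂ} (h : ‖ζ‖ < 1) : 0 < ((1 + ζ) / (1 - ζ)).re := by
  have h1 : 1 - ζ ≠ 0 := fun e => by
    rw [← sub_eq_zero.mp e, norm_one] at h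
    exact h.false
  have h2 : normSq ζ < 1 := by
    rw [normSq_eq_norm_sq]
    exact pow_lt_one₀ (norm_nonneg _) h two_ne_zero
  rw [div_re, ← add_div]
  refine div_pos ?_ (normSq_pos.mpr h1)
  rw [normSq_apply] at h2
  simp only [add_re, one_re, sub_re, add_im, one_im, sub_im]
  nlinarith

/-- the Harnack inequality in the upper half plane -/
lemma xegrow_har {f : ℂ → ℂ} (hf : AnalyticOnNhd ℂ f {w | 0 < w.im})
    (hp : ∀ w : ℂ, 0 < w.im → 0 < (f w).im) {u w : ℂ} (hu : 0 < u.im) (hw : 0 < w.im) {K : ℝ}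
    (hK : (w.re - u.re) ^ 2 + (w.im + u.im) ^ 2 ≤ 2 * K * w.im * u.im) :
    ‖f w - f u‖ ≤ 2 * K * (f u).im := by
  set m : ℂ → ℂ := fun ζ => u.re + I * u.im * ((1 + ζ) / (1 - ζ)) with hm
  have m0 : m 0 = u := by
    simp only [hm, add_zero, sub_zero, div_one, mul_one]
    rw [mul_comm, re_add_im]
  have mi : ∀ ζ ∈ Metric.ball (0 : ℂ) 1, 0 < (m ζ).im := fun ζ hζ => by
    have := xegrow_re (mem_ball_zero_iff.mp hζ)
    simp only [hm, add_im, ofReal_im, mul_im, mul_re, I_re, I_im, ofReal_re, zero_mul, one_mul,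
      zero_add, mul_zero, sub_zero]
    positivity
  have md : DifferentiableOn ℂ m (Metric.ball 0 1) := by
    refine (differentiableOn_const _).add ((differentiableOn_const _).mul
      (DifferentiableOn.div (by fun_prop) (by fun_prop) fun ζ hζ e => ?_))
    rw [mem_ball_zero_iff, ← sub_eq_zero.mp e, norm_one] at hζ
    exact hζ.false
  have hD : 0 < (w.re - u.re) ^ 2 + (w.im + u.im) ^ 2 := by positivity
  have d0 : w - u.re + u.im * I ≠ 0 := fun e => by
    have := congrArg im e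
    simp at this
    linarith
  set ζ := (w - u.re - u.im * I) / (w - u.re + u.im * I) with hζ
  have hρ : ‖ζ‖ ^ 2 * ((w.re - u.re) ^ 2 + (w.im + u.im) ^ 2) =
      (w.re - u.re) ^ 2 + (w.im - u.im) ^ 2 := by
    rw [← normSq_eq_norm_sq, hζ, map_div₀, normSq_apply, normSq_apply]
    simp only [sub_re, ofReal_re, mul_re, I_re, mul_zero, ofReal_im, I_im, mul_one, sub_self,
      sub_zero, sub_im, mul_im, add_zero, add_re, add_im]
    simp only [← sq]
    exact div_mul_cancel₀ _ hD.ne'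
  have hwu := mul_pos hw hu
  have h1 : ‖ζ‖ < 1 := by
    refine lt_of_pow_lt_pow_left₀ 2 zero_le_one (lt_of_mul_lt_mul_right ?_ hD.le)
    rw [hρ]
    nlinarith
  have h0 := norm_nonneg ζ
  have mz : m ζ = w := by
    have hu' : (u.im : ℂ) ≠ 0 := ofReal_ne_zero.mpr hu.ne'
    have e1 : 1 - ζ = 2 * u.im * I / (w - u.re + u.im * I) := by
      rw [hζ]
      field_simp
      ring
    have e2 : 1 + ζ = 2 * (w - u.re) / (w - u.re + u.im * I) := by
      rw [hζ]
      field_simp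
      ring
    simp only [hm]
    rw [e1, e2, div_div_div_cancel_right₀ d0]
    field_simp
    ring
  have hb := borelCaratheodory_zero (f := fun ζ => I * (f (m ζ) - f u)) (R := 1) (z := ζ)
    (hp u hu) ((differentiableOn_const _).mul
      ((hf.differentiableOn.comp md fun ζ hζ => mi ζ hζ).sub (differentiableOn_const _)))
    (fun ζ hζ => by
      have := hp _ (mi ζ hζ)
      simp only [Set.mem_ofPred_eq, mul_re, I_re, zero_mul, I_im, one_mul, sub_im]
      linarith) one_pos (mem_ball_zero_iff.mpr h1) (by simp [m0])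
  rw [mz, norm_mul, norm_I, one_mul] at hb
  refine hb.trans ?_
  have hK0 : 0 < K := by
    by_contra hn
    have := mul_nonpos_of_nonpos_of_nonneg (not_lt.mp hn) hwu.le
    nlinarith
  have h2 : 2 ≤ K * (1 - ‖ζ‖ ^ 2) := by
    refine le_of_mul_le_mul_right ?_ hD
    have : K * (1 - ‖ζ‖ ^ 2) * ((w.re - u.re) ^ 2 + (w.im + u.im) ^ 2) =
        4 * K * w.im * u.im := by
      linear_combination -K * hρ
    rw [this]
    linarith
  have h3 : ‖ζ‖ ≤ K * (1 - ‖ζ‖) := by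
    refine le_of_mul_le_mul_right ?_ (by positivity : 0 < 1 + ‖ζ‖)
    nlinarith
  rw [div_le_iff₀ (sub_pos.mpr h1)]
  have := mul_le_mul_of_nonneg_left h3 (hp u hu).le
  nlinarith

lemma xegrow_strip {f : ℂ → ℂ} (hf : AnalyticOnNhd ℂ f {w | 0 < w.im})
    (hp : ∀ w : ℂ, 0 < w.im → 0 < (f w).im) {w : ℂ} (h1 : |w.re| ≤ Real.pi) (h2 : 1 ≤ w.im) :
    ‖f w‖ ≤ 15 * ‖f I‖ * w.im ∧ (f I).im ≤ 15 * w.im * (f w).im := by
  have hw : 0 < w.im := one_pos.trans_le h2
  have hI : 0 < (I : ℂ).im := by simp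
  have hx : w.re ^ 2 ≤ 10 := by
    have := Real.pi_lt_d2
    have := sq_le_sq' (abs_le.mp h1).1 (abs_le.mp h1).2
    have := Real.pi_pos
    nlinarith
  have a := xegrow_har hf hp hI hw (K := 7 * w.im) (by simp only [I_re, I_im]; nlinarith)
  have b := xegrow_har hf hp hw hI (K := 7 * w.im) (by simp only [I_re, I_im]; nlinarith)
  constructor
  · have c := norm_le_norm_sub_add (f w) (f I)
    have d := (im_le_norm (f I))
    have e := norm_nonneg (f I)
    nlinarith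
  · have c := im_le_norm (f I - f w)
    rw [sub_im] at c
    have d := hp w hw
    nlinarith

/-- the quadratic form of a matrix on real vectors -/
def xegrowQ {g : ℕ} (τ : Mat g) (v : Fin g → ℝ) : ℂ := ∑ i, ∑ j, (v i : ℂ) * τ i j * v j

lemma xegrow_im {g : ℕ} (τ : Mat g) (v : Fin g → ℝ) :
    (xegrowQ τ v).im = ∑ i, ∑ j, v i * (τ i j).im * v j := by
  simp [xegrowQ, im_sum]

lemma xegrow_pol {g : ℕ} (τ : Mat g) (a b : Fin g) :
    xegrowQ τ (Pi.single a 1 + Pi.single b 1) =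
      xegrowQ τ (Pi.single a 1) + xegrowQ τ (Pi.single b 1) + (τ a b + τ b a) := by
  simp only [xegrowQ, Pi.add_apply, Pi.single_apply, ofReal_add, apply_ite ofReal, ofReal_one,
    ofReal_zero, add_mul, mul_add, ite_mul, mul_ite, one_mul, mul_one, zero_mul, mul_zero,
    Finset.sum_add_distrib, Finset.sum_ite_eq', Finset.mem_univ, if_true]
  ring

lemma xegrow_low {g : ℕ} {τ : Mat g} (h : τ ∈ Siegel g) :
    ∃ c : ℝ, 0 < c ∧ ∀ v : Fin g → ℝ, c * ‖v‖ ^ 2 ≤ (xegrowQ τ v).im := by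
  simp only [xegrow_im]
  obtain ⟨c, hc, hc'⟩ := (isCompact_sphere (0 : Fin g → ℝ) 1).exists_forall_le'
    (f := fun v => ∑ i, ∑ j, v i * (τ i j).im * v j) (a := 0) (by fun_prop)
    (fun v hv => h.2 v (by rintro rfl; simp at hv))
  refine ⟨c, hc, fun v => ?_⟩
  by_cases hv : v = 0
  · simp [hv]
  have hn : 0 < ‖v‖ := norm_pos_iff.mpr hv
  have e := hc' (‖v‖⁻¹ • v) (by simp [norm_smul, hn.ne'])
  have e2 : ∑ i, ∑ j, v i * (τ i j).im * v j =
      (∑ i, ∑ j, (‖v‖⁻¹ • v) i * (τ i j).im * (‖v‖⁻¹ • v) j) * ‖v‖ ^ 2 := by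
    simp only [Finset.sum_mul, Pi.smul_apply, smul_eq_mul]
    refine Finset.sum_congr rfl fun i _ => Finset.sum_congr rfl fun j _ => ?_
    field_simp
  rw [e2]
  exact mul_le_mul_of_nonneg_right e (sq_nonneg _)

lemma xegrow_inv {g : ℕ} {τ : Mat g} (h : τ ∈ Siegel g) {r : ℝ} (hr : 0 ≤ r)
    (hv : ∀ v : Fin g → ℝ, ‖v‖ ^ 2 ≤ r * (xegrowQ τ v).im) (a b : Fin g) :
    ‖(Matrix.of τ - cj (Matrix.of τ))⁻¹ a b‖ ≤ r := by
  set X := (Matrix.of τ - cj (Matrix.of τ))⁻¹ with hX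
  have e : ∀ i, ∑ j, ((2 * (τ i j).im : ℝ) : ℂ) * I * X j b = if i = b then 1 else 0 := fun i => by
    have := congrFun (congrFun (mul_nonsing_inv _ (im_det h)) i) b
    rw [mul_apply, one_apply] at this
    rw [← this]
    refine Finset.sum_congr rfl fun j _ => ?_
    rw [← sub_conj]
    rfl
  have key : ∀ v : Fin g → ℝ, (xegrowQ τ v).im ≤ ‖v‖ / 2 → ‖v‖ ≤ r / 2 := fun v h1 => by
    have h2 := hv v
    have h3 := mul_le_mul_of_nonneg_left h1 hr
    have h4 := norm_nonneg v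
    by_contra hn
    nlinarith
  have p := key (fun j => (X j b).re) (by
    rw [xegrow_im]
    refine le_trans (Finset.sum_eq_zero fun i _ => ?_).le (by positivity)
    have := congrArg im (e i)
    simp only [im_sum, mul_im, mul_re, ofReal_re, I_re, mul_zero, ofReal_im, I_im, mul_one,
      sub_self, zero_mul, add_zero, zero_add, apply_ite im, one_im, zero_im, ite_self,
      mul_assoc, ← Finset.mul_sum, one_mul, zero_sub, mul_eq_zero, two_ne_zero,
      false_or] at this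
    simp only [mul_assoc, ← Finset.mul_sum, this, mul_zero])
  have q := key (fun j => (X j b).im) (by
    rw [xegrow_im]
    have h1 : ∀ i, ∑ j, (X i b).im * (τ i j).im * (X j b).im =
        if i = b then -(X i b).im / 2 else 0 := fun i => by
      have := congrArg re (e i)
      simp only [re_sum, mul_im, mul_re, ofReal_re, I_re, mul_zero, ofReal_im, I_im, mul_one,
        sub_self, zero_mul, add_zero, zero_add, apply_ite re, one_re, zero_re,
        mul_assoc, one_mul, zero_sub, Finset.sum_neg_distrib, mul_neg, sub_zero,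
        ← Finset.mul_sum] at this
      simp only [mul_assoc, ← Finset.mul_sum]
      split_ifs at this ⊢
      · linear_combination -(X i b).im / 2 * this
      · linear_combination -(X i b).im / 2 * this
    simp only [h1, Finset.sum_ite_eq', Finset.mem_univ, if_true]
    have := norm_le_pi_norm (fun j => (X j b).im) b
    rw [Real.norm_eq_abs] at this
    linarith [neg_le_abs (X b b).im])
  have p' := norm_le_pi_norm (fun j => (X j b).re) a
  have q' := norm_le_pi_norm (fun j => (X j b).im) a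
  rw [Real.norm_eq_abs] at p' q'
  linarith [norm_le_abs_re_add_abs_im (X a b)]

/-- holomorphic maps from the upper half plane to the Siegel space have polynomial growth -/
theorem grow {g : ℕ} {φ : ℂ → Mat g} (hφ : AnalyticOnNhd ℂ φ {w | 0 < w.im})
    (hS : ∀ w : ℂ, 0 < w.im → φ w ∈ Siegel g) :
    ∃ (C : ℝ) (N : ℕ), 1 ≤ C ∧ ∀ w : ℂ, |w.re| ≤ Real.pi → 1 ≤ w.im →
      ‖φ w‖ ≤ C * w.im ^ N ∧
        ∀ a b, ‖(Matrix.of (φ w) - cj (Matrix.of (φ w)))⁻¹ a b‖ ≤ C * w.im ^ N := by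
  have hI : 0 < (I : ℂ).im := by simp
  have st : ∀ v : Fin g → ℝ, ∀ w : ℂ, |w.re| ≤ Real.pi → 1 ≤ w.im →
      ‖xegrowQ (φ w) v‖ ≤ 15 * ‖xegrowQ (φ I) v‖ * w.im ∧
        (xegrowQ (φ I) v).im ≤ 15 * w.im * (xegrowQ (φ w) v).im := fun v w h1 h2 => by
    by_cases hv : v = 0
    · simp [hv, xegrowQ]
    refine xegrow_strip (f := fun w => xegrowQ (φ w) v) (fun z hz => ?_)
      (fun z hz => by rw [xegrow_im]; exact (hS z hz).2 v hv) h1 h2
    refine Finset.analyticAt_fun_sum _ fun i _ => Finset.analyticAt_fun_sum _ fun j _ => ?_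
    exact (analyticAt_const.mul
      (analyticAt_pi_iff.mp (analyticAt_pi_iff.mp (hφ z hz) i) j)).mul analyticAt_const
  obtain ⟨c, hc, hc'⟩ := xegrow_low (hS I hI)
  let k : Fin g → Fin g → ℝ := fun a b => 15 * (‖xegrowQ (φ I) (Pi.single a 1 + Pi.single b 1)‖ +
    ‖xegrowQ (φ I) (Pi.single a 1)‖ + ‖xegrowQ (φ I) (Pi.single b 1)‖)
  have hk := norm_nonneg k
  have hc2 : 0 < 15 / c := by positivity
  refine ⟨1 + ‖k‖ + 15 / c, 1, by linarith, fun w h1 h2 => ?_⟩
  have hw : 0 < w.im := one_pos.trans_le h2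
  rw [pow_one]
  constructor
  · refine (pi_norm_le_iff_of_nonneg (by positivity)).mpr fun a =>
      (pi_norm_le_iff_of_nonneg (by positivity)).mpr fun b => ?_
    have e : φ w a b = (xegrowQ (φ w) (Pi.single a 1 + Pi.single b 1) -
        xegrowQ (φ w) (Pi.single a 1) - xegrowQ (φ w) (Pi.single b 1)) / 2 := by
      rw [xegrow_pol, (hS w hw).1 b a]
      ring
    have a1 := (st (Pi.single a 1 + Pi.single b 1) w h1 h2).1
    have a2 := (st (Pi.single a 1) w h1 h2).1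
    have a3 := (st (Pi.single b 1) w h1 h2).1
    have a4 := norm_sub_le (xegrowQ (φ w) (Pi.single a 1 + Pi.single b 1) -
        xegrowQ (φ w) (Pi.single a 1)) (xegrowQ (φ w) (Pi.single b 1))
    have a5 := norm_sub_le (xegrowQ (φ w) (Pi.single a 1 + Pi.single b 1))
        (xegrowQ (φ w) (Pi.single a 1))
    have a6 : k a b ≤ ‖k‖ := (le_abs_self _).trans
      ((norm_le_pi_norm (k a) b).trans (norm_le_pi_norm k a))
    have a7 := mul_le_mul_of_nonneg_right a6 hw.le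
    have a8 := mul_pos hc2 hw
    have a9 := mul_nonneg hk hw.le
    rw [e, norm_div, Complex.norm_ofNat]
    simp only [k] at a7
    nlinarith
  · intro a b
    refine (xegrow_inv (hS w hw) (r := 15 / c * w.im) (by positivity) (fun v => ?_) a b).trans
      (mul_le_mul_of_nonneg_right (by linarith) hw.le)
    have := (hc' v).trans (st v w h1 h2).2
    rw [div_mul_eq_mul_div, div_mul_eq_mul_div, le_div_iff₀ hc]
    linarith

end Pool.Agent.MP_f58063_ag

end
end

section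

open Complex Filter Topology Matrix Function Asymptotics

noncomputable section

namespace Pool.Agent.MP_f58063_ag

variable {g d : ℕ} {S : Set (Mat g)} {Δ : Subgroup (Sp g)} {R : MvPolynomial (Fin d) ℂ}
  {y : Mat g → Fin d → ℂ}

theorem xesupa_iSup {n : ℕ} {x : Fin n → ℝ} (h : ∀ i, 0 ≤ x i) : ⨆ i, x i = ‖x‖ := by
  refine le_antisymm (Real.iSup_le (fun i => ?_) (norm_nonneg _)) ?_
  · exact (le_abs_self _).trans (norm_le_pi_norm x i)
  · refine (pi_norm_le_iff_of_nonneg (Real.iSup_nonneg h)).2 fun i => ?_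
    rw [Real.norm_of_nonneg (h i)]
    exact le_ciSup (Finite.bddAbove_range x) i

theorem xesupa_half (h : CovD S Δ R y) {f : Mat g → ℝ}
    (hi : ∀ γ ∈ Δ, ∀ τ ∈ S, f (act γ τ) = f τ) (hg : ModG f) {c : ℂ → Fin d → ℂ}
    (hca : AnalyticOnNhd ℂ c {w | 0 < w.im})
    (hU : ∀ w : ℂ, 0 < w.im → MvPolynomial.eval (c w) R ≠ 0) :
    ∃ (C : ℝ) (N : ℕ), 0 ≤ C ∧ ∀ w : ℂ, |w.re| ≤ Real.pi → 1 ≤ w.im →
      us S y f (c w) ≤ C * w.im ^ N := by
  obtain ⟨n, φ, h1, h2⟩ := h.lifts (D := {w : ℂ | 0 < w.im})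
    (isOpen_lt continuous_const continuous_im) (convex_halfSpace_im_gt 0) hca hU
  choose C N hC hN using fun i => grow (h1 i) fun w hw => h.sub ((h2 w hw).1 i).1
  obtain ⟨C₀, N₀, hg⟩ := hg
  have hnn : ∀ i, 0 ≤ |C₀| * C i ^ N₀ := fun i =>
    mul_nonneg (abs_nonneg _) (pow_nonneg (zero_le_one.trans (hC i)) _)
  have hs := Finset.sum_nonneg fun i (_ : i ∈ Finset.univ) => hnn i
  refine ⟨∑ i, |C₀| * C i ^ N₀, ∑ i, N i * N₀, hs, fun w hw hw1 => ?_⟩
  have hw0 : 0 < w.im := zero_lt_one.trans_le hw1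
  rw [us_eq hi (h2 w hw0).1 (h2 w hw0).2]
  refine Real.iSup_le (fun i => ?_) (mul_nonneg hs (pow_nonneg hw0.le _))
  have hr : 1 ≤ C i * w.im ^ N i := one_le_mul_of_one_le_of_one_le (hC i) (one_le_pow₀ hw1)
  calc f (φ i w) ≤ C₀ * (C i * w.im ^ N i) ^ N₀ :=
        hg _ (h.sub ((h2 w hw0).1 i).1) _ hr (hN i w hw hw1).1 (hN i w hw hw1).2
    _ ≤ |C₀| * (C i * w.im ^ N i) ^ N₀ := by
        gcongr
        exact le_abs_self _
    _ = |C₀| * C i ^ N₀ * w.im ^ (N i * N₀) := by rw [mul_pow, pow_mul, mul_assoc]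
    _ ≤ _ := by
        refine mul_le_mul (Finset.single_le_sum (fun i _ => hnn i) (Finset.mem_univ i))
          (pow_le_pow_right₀ hw1 ?_) (pow_nonneg hw0.le _) hs
        exact Finset.single_le_sum (f := fun i => N i * N₀) (fun i _ => Nat.zero_le _)
          (Finset.mem_univ i)

theorem xesupa_punct (h : CovD S Δ R y) {f : Mat g → ℝ}
    (hi : ∀ γ ∈ Δ, ∀ τ ∈ S, f (act γ τ) = f τ) (hg : ModG f) {c : ℂ → Fin d → ℂ}
    (hca : ∀ z : ℂ, z ≠ 0 → AnalyticAt ℂ c z)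
    (hU : ∀ z : ℂ, z ≠ 0 → ‖z‖ < 1 → MvPolynomial.eval (c z) R ≠ 0) :
    ∃ (C : ℝ) (N : ℕ), 0 ≤ C ∧ ∀ z : ℂ, z ≠ 0 → Real.log ‖z‖ ≤ -1 →
      us S y f (c z) ≤ C * (-Real.log ‖z‖) ^ N := by
  obtain ⟨C, N, hC, hN⟩ := xesupa_half h hi hg (c := fun w => c (exp (I * w)))
    (fun w _ => (hca _ (exp_ne_zero _)).comp (f := fun w => exp (I * w)) (by fun_prop))
    (fun w hw => hU _ (exp_ne_zero _) (by
      rw [norm_exp, Real.exp_lt_one_iff]
      simpa using hw))
  refine ⟨C, N, hC, fun z hz h1 => ?_⟩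
  have h2 : (-I * log z).im = -Real.log ‖z‖ := by simp [log_re]
  have h3 : I * (-I * log z) = log z := by
    rw [← mul_assoc, mul_neg, I_mul_I, neg_neg, one_mul]
  have := hN (-I * log z) (by simpa [log_im] using abs_arg_le_pi z) (by rw [h2]; linarith)
  rwa [h2, h3, exp_log hz] at this

theorem xesupa_loc (h : CovD S Δ R y) {f : Mat g → ℝ} (h0 : ∀ τ, 0 ≤ f τ)
    (hc : ContinuousOn f (Siegel g)) (hi : ∀ γ ∈ Δ, ∀ τ ∈ S, f (act γ τ) = f τ)
    (hs : ∀ (τ : ℂ → Mat g) (t₀ : ℂ), AnalyticAt ℂ τ t₀ → (∀ᶠ t in 𝓝 t₀, τ t ∈ S) →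
      LogSub (fun t => f (τ t)) t₀) {c : ℂ → Fin d → ℂ} (hca : ∀ z, AnalyticAt ℂ c z) {t : ℂ}
    (ht : ∀ᶠ z in 𝓝 t, MvPolynomial.eval (c z) R ≠ 0) :
    ContinuousAt (fun z => us S y f (c z)) t ∧ ∃ u : ℂ → ℝ, u t = us S y f (c t) ∧
      (∀ᶠ z in 𝓝 t, u z ≤ us S y f (c z)) ∧ LogSub u t := by
  obtain ⟨ε, hε, hU⟩ := Metric.eventually_nhds_iff_ball.1 ht
  obtain ⟨n, φ, h1, h2⟩ := h.lifts (D := Metric.ball t ε) Metric.isOpen_ball (convex_ball t ε)
    (fun z _ => hca z) hU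
  have hb : Metric.ball t ε ∈ 𝓝 t := Metric.ball_mem_nhds t hε
  have he : ∀ z ∈ Metric.ball t ε, us S y f (c z) = ⨆ i, f (φ i z) := fun z hz =>
    us_eq hi (h2 z hz).1 (h2 z hz).2
  constructor
  · have h3 : ContinuousAt (fun z => ‖fun i => f (φ i z)‖) t := by
      refine ContinuousAt.norm (continuousAt_pi.2 fun i => ?_)
      exact (hc.comp (h1 i).continuousOn fun z hz => h.sub ((h2 z hz).1 i).1).continuousAt hb
    refine h3.congr ?_
    filter_upwards [hb] with z hz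
    rw [he z hz, xesupa_iSup fun i => h0 _]
  · rcases isEmpty_or_nonempty (Fin n) with hn | hn
    · refine ⟨0, by rw [he t (Metric.mem_ball_self hε)]; simp, ?_, ?_⟩
      · filter_upwards [hb] with z hz
        rw [he z hz]
        simp
      · refine logSub_of (ι := Fin 0) (v := 0) (c := 0) analyticAt_const le_rfl ?_
        simp [nq]
    · obtain ⟨i, hi⟩ := exists_eq_ciSup_of_finite (f := fun i => f (φ i t))
      refine ⟨fun z => f (φ i z), hi.trans (he t (Metric.mem_ball_self hε)).symm, ?_,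
        hs _ _ (h1 i t (Metric.mem_ball_self hε)) ?_⟩
      · filter_upwards [hb] with z hz
        rw [he z hz]
        exact le_ciSup (Finite.bddAbove_range fun i => f (φ i z)) i
      · filter_upwards [hb] with z hz using ((h2 z hz).1 i).1

theorem xesupa_bd {C x L r : ℝ} {N : ℕ} (hC : 0 ≤ C) (hL : |r| + 1 ≤ L) (hx : x ≤ C * (L + r) ^ N) :
    x ≤ C * 2 ^ N * |L| ^ N := by
  have h1 := le_abs_self r
  have h2 := neg_abs_le r
  have h3 := le_abs_self L
  rw [mul_assoc, ← mul_pow]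
  refine hx.trans ?_
  gcongr
  · linarith
  · linarith

theorem xesupa_le (h : CovD S Δ R y) {f : Mat g → ℝ} (h0 : ∀ τ, 0 ≤ f τ)
    (hc : ContinuousOn f (Siegel g)) (hi : ∀ γ ∈ Δ, ∀ τ ∈ S, f (act γ τ) = f τ) (hg : ModG f)
    (hs : ∀ (τ : ℂ → Mat g) (t₀ : ℂ), AnalyticAt ℂ τ t₀ → (∀ᶠ t in 𝓝 t₀, τ t ∈ S) →
      LogSub (fun t => f (τ t)) t₀)
    {a b : Fin d → ℂ} (ha : MvPolynomial.eval a R ≠ 0) (hb : MvPolynomial.eval b R ≠ 0) :
    us S y f b ≤ us S y f a := by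
  classical
  let c : ℂ → Fin d → ℂ := fun t => a + t • (b - a)
  have hca : ∀ z, AnalyticAt ℂ c z := fun z => by fun_prop
  have hc0 : c 0 = a := by simp [c]
  have hc1 : c 1 = b := by simp [c]
  let P : Polynomial ℂ := MvPolynomial.aeval
    (fun i => Polynomial.C (a i) + Polynomial.X * Polynomial.C (b i - a i)) R
  have hP : ∀ t, P.eval t = MvPolynomial.eval (c t) R := by
    intro t
    rw [← Polynomial.coe_aeval_eq_eval, ← MvPolynomial.coe_aeval_eq_eval]
    change ((Polynomial.aeval t).comp (MvPolynomial.aeval _)) R = MvPolynomial.aeval (c t) R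
    congr 1
    ext i
    simp [c]
  have hP0 : P ≠ 0 := fun h0 => ha (by rw [← hc0, ← hP, h0, Polynomial.eval_zero])
  have hB : ∀ t, t ∉ P.roots.toFinset ↔ MvPolynomial.eval (c t) R ≠ 0 := by
    intro t
    rw [Multiset.mem_toFinset, Polynomial.mem_roots hP0, Polynomial.IsRoot.def, hP]
  generalize P.roots.toFinset = B at hB
  have hev : ∀ t ∉ B, ∀ᶠ z in 𝓝 t, MvPolynomial.eval (c z) R ≠ 0 := by
    intro t ht
    filter_upwards [B.finite_toSet.isClosed.isOpen_compl.mem_nhds ht] with z hz using (hB z).1 hz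
  have := liou B (f := fun t => us S y f (c t)) (fun t => Real.sSup_nonneg ?_)
    (fun t ht => (xesupa_loc h h0 hc hi hs hca (hev t ht)).1)
    (fun t ht => (xesupa_loc h h0 hc hi hs hca (hev t ht)).2) (fun b₀ _ => ?_) ?_
    ((hB 0).2 (hc0 ▸ ha)) ((hB 1).2 (hc1 ▸ hb))
  · rwa [hc0, hc1] at this
  · rintro _ ⟨τ, -, rfl⟩
    exact h0 τ
  · obtain ⟨r, hr, hU⟩ := Metric.mem_nhds_iff.1
      ((B.erase b₀).finite_toSet.isClosed.isOpen_compl.mem_nhds (B.notMem_erase b₀))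
    have hr' : (r : ℂ) ≠ 0 := by exact_mod_cast hr.ne'
    obtain ⟨C, N, hC, hN⟩ := xesupa_punct h hi hg (c := fun z => c (b₀ + r * z))
      (fun z _ => (hca _).comp (f := fun z => b₀ + r * z) (by fun_prop)) (fun z hz hz1 => by
        refine (hB _).1 fun hm => hU (a := b₀ + r * z) ?_ ?_
        · rw [mem_ball_iff_norm, add_sub_cancel_left, norm_mul, norm_real,
            Real.norm_of_nonneg hr.le]
          exact mul_lt_of_lt_one_right hr hz1
        · exact Finset.mem_erase.2 ⟨by simp [hr', hz], hm⟩)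
    refine ⟨C * 2 ^ N, N, ?_⟩
    have hl : Tendsto (fun t => Real.log ‖t - b₀‖) (𝓝[≠] b₀) atBot :=
      Real.tendsto_log_nhdsGT_zero.comp (tendsto_norm_sub_self_nhdsNE b₀)
    filter_upwards [hl.eventually_le_atBot (-(|Real.log r| + 1)), self_mem_nhdsWithin] with t ht h1
    have h2 : t - b₀ ≠ 0 := sub_ne_zero.2 h1
    have h3 : Real.log ‖(t - b₀) / r‖ = Real.log ‖t - b₀‖ - Real.log r := by
      rw [norm_div, norm_real, Real.norm_of_nonneg hr.le, Real.log_div (norm_ne_zero_iff.2 h2) hr.ne']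
    have h4 := hN ((t - b₀) / r) (div_ne_zero h2 hr')
      (by rw [h3]; linarith [neg_abs_le (Real.log r)])
    rw [mul_div_cancel₀ _ hr', add_sub_cancel, h3, neg_sub, sub_eq_neg_add] at h4
    rw [← abs_neg]
    exact xesupa_bd hC (by linarith) h4
  · obtain ⟨r, hr, hU⟩ := B.finite_toSet.isBounded.exists_pos_norm_le
    have hr' : (r : ℂ) ≠ 0 := by exact_mod_cast hr.ne'
    obtain ⟨C, N, hC, hN⟩ := xesupa_punct h hi hg (c := fun z => c (r / z))
      (fun z hz => (hca _).comp (f := fun z : ℂ => (r : ℂ) / z) (analyticAt_const.div analyticAt_id hz))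
      (fun z hz hz1 => by
        refine (hB _).1 fun hm => (hU _ hm).not_gt ?_
        rw [norm_div, norm_real, Real.norm_of_nonneg hr.le, lt_div_iff₀ (norm_pos_iff.2 hz)]
        exact mul_lt_of_lt_one_right hr hz1)
    refine ⟨C * 2 ^ N, N, ?_⟩
    have hl : Tendsto (fun t : ℂ => Real.log ‖t‖) (cocompact ℂ) atTop :=
      Real.tendsto_log_atTop.comp (tendsto_norm_cocompact_atTop (E := ℂ))
    filter_upwards [hl.eventually_ge_atTop (|-Real.log r| + 1),
      (tendsto_norm_cocompact_atTop (E := ℂ)).eventually_gt_atTop 0] with t ht h1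
    have h2 : t ≠ 0 := norm_pos_iff.1 h1
    have h3 : Real.log ‖(r : ℂ) / t‖ = Real.log r - Real.log ‖t‖ := by
      rw [norm_div, norm_real, Real.norm_of_nonneg hr.le, Real.log_div hr.ne' h1.ne']
    have h4 := hN (r / t) (div_ne_zero hr' h2)
      (by rw [h3]; linarith [neg_abs_le (-Real.log r)])
    rw [div_div_cancel₀ hr', h3, neg_sub, sub_eq_add_neg] at h4
    exact xesupa_bd hC ht h4

/-- the maximum over the fibres is constant -/
theorem CovD.us_const (h : CovD S Δ R y) {f : Mat g → ℝ} (h0 : ∀ τ, 0 ≤ f τ)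
    (hc : ContinuousOn f (Siegel g)) (hi : ∀ γ ∈ Δ, ∀ τ ∈ S, f (act γ τ) = f τ) (hg : ModG f)
    (hs : ∀ (τ : ℂ → Mat g) (t₀ : ℂ), AnalyticAt ℂ τ t₀ → (∀ᶠ t in 𝓝 t₀, τ t ∈ S) →
      LogSub (fun t => f (τ t)) t₀)
    {a b : Fin d → ℂ} (ha : MvPolynomial.eval a R ≠ 0) (hb : MvPolynomial.eval b R ≠ 0) :
    us S y f a = us S y f b := by
  exact le_antisymm (xesupa_le h h0 hc hi hg hs hb ha) (xesupa_le h h0 hc hi hg hs ha hb)

end Pool.Agent.MP_f58063_ag

end
end

section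

open Complex Filter Topology Matrix Function Asymptotics

noncomputable section

namespace Pool.Agent.MP_f58063_ag

variable {l : Type} [Fintype l] [DecidableEq l] {G : Type} {r : G → Matrix l l ℂ}
  {X : Matrix l l ℂ}

omit [Fintype l] in
theorem xecol_dkr (κ : Type) [Fintype κ] [DecidableEq κ] (X : Matrix l l ℂ) (a b : κ → l) :
    dkr κ X a b = ∑ i, ∏ j, (if j = i then X else 1) (a j) (b j) := by
  rw [dkr, Matrix.of_apply]
  refine Finset.sum_congr rfl fun i _ => ?_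
  rw [← Finset.mul_prod_erase _ _ (Finset.mem_univ i), if_pos rfl]
  congr 1
  exact Finset.prod_congr rfl fun j hj => by rw [if_neg (Finset.ne_of_mem_erase hj)]

omit [Fintype l] in
theorem xecol_one : xt 1 (1 : Matrix l l ℂ) = 1 := by
  ext a b
  rcases a with _ | ⟨a1, a2⟩ <;> rcases b with _ | ⟨b1, b2⟩ <;>
    simp [xt, Matrix.one_apply, ite_and]
  by_cases h1 : a1 = b1 <;> by_cases h2 : a2 = b2 <;> simp [h1, h2]

/-- the indices with a given colouring -/
def xecolEmb {κ : Type} (p : κ → Prop) [DecidablePred p] (d a : {i // p i} → l) :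
    κ → Option (l × l) :=
  fun i => if h : p i then some (a ⟨i, h⟩, d ⟨i, h⟩) else none

theorem xecol_sum {κ : Type} [Fintype κ] [DecidableEq κ] (p : κ → Prop) [DecidablePred p]
    (d : {i // p i} → l) (c : κ → ℂ) (A : κ → Matrix l l ℂ) (T : (κ → Option (l × l)) → ℂ)
    (a : {i // p i} → l) :
    ∑ b, (∏ i, xt (c i) (A i) (xecolEmb p d a i) (b i)) * T b =
      (∏ i : {i // ¬ p i}, c i) *
        ∑ b : {i // p i} → l, (∏ i, A i.1 (a i) (b i)) * T (xecolEmb p d b) := by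
  rw [Finset.mul_sum]
  symm
  refine Fintype.sum_of_injective (xecolEmb p d) ?_ _ _ ?_ ?_
  · intro x y e
    funext i
    have := congrFun e i.1
    simp only [xecolEmb, dif_pos i.2, Option.some.injEq, Prod.mk.injEq, and_true] at this
    exact this
  · intro b hb
    refine mul_eq_zero_of_left ?_ _
    by_contra h0
    have h1 := Finset.prod_ne_zero_iff.1 h0
    have h2 : ∀ i : {i // p i}, ∃ x, b i.1 = some (x, d i) := fun i => by
      have h3 := h1 i.1 (Finset.mem_univ _)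
      rw [xecolEmb, dif_pos i.2] at h3
      rcases h4 : b i.1 with _ | ⟨x, y⟩
      · simp [h4, xt] at h3
      · simp only [h4, xt, Matrix.of_apply, ne_eq, ite_eq_right_iff, Classical.not_imp] at h3
        exact ⟨x, by rw [← h3.1]⟩
    choose x hx using h2
    refine hb ⟨x, funext fun i => ?_⟩
    by_cases hi : p i
    · rw [xecolEmb, dif_pos hi, ← hx ⟨i, hi⟩]
    · have h3 := h1 i (Finset.mem_univ _)
      rw [xecolEmb, dif_neg hi] at h3 ⊢
      rcases h4 : b i with _ | y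
      · rfl
      · simp [h4, xt] at h3
  · intro b
    rw [← mul_assoc, ← Fintype.prod_subtype_mul_prod_subtype p, mul_comm (∏ i : {i // ¬ p i}, c i)]
    congr 2
    · exact Finset.prod_congr rfl fun i _ => by simp [xecolEmb, dif_pos i.2, xt]
    · exact Finset.prod_congr rfl fun i _ => by simp [xecolEmb, dif_neg i.2, xt]

theorem kills_xt (h : Kills r X) : Kills (fun γ => xt 1 (r γ)) (xt 0 X) := by
  intro κ _ _ T hT
  funext e
  obtain ⟨p, _, d, a, rfl⟩ : ∃ (p : κ → Prop) (_ : DecidablePred p) (d a : {i // p i} → l),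
      e = xecolEmb p d a :=
    ⟨fun i => (e i).isSome = true, inferInstance, fun i => ((e i.1).get i.2).2,
      fun i => ((e i.1).get i.2).1, funext fun i => by
        rw [xecolEmb]
        split_ifs with hi
        · simp
        · simpa using hi⟩
  have h1 : Fixd r fun b => T (xecolEmb p d b) := fun γ => by
    funext b
    have h2 := xecol_sum p d (fun _ => 1) (fun _ => r γ) T b
    rw [Finset.prod_const_one, one_mul] at h2
    exact h2.symm.trans (congrFun (hT γ) (xecolEmb p d b))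
  have h2 := congrFun (h _ _ h1) a
  have h3 : ∀ i j : κ, (if j = i then xt 0 X else 1) =
      xt (if j = i then 0 else 1) (if j = i then X else 1) := fun i j => by
    split_ifs
    · rfl
    · exact xecol_one.symm
  simp only [Matrix.mulVec, dotProduct, xecol_dkr, Finset.sum_mul, Pi.zero_apply, h3] at h2 ⊢
  rw [Finset.sum_comm] at h2 ⊢
  simp only [xecol_sum]
  rw [← Fintype.sum_subtype_add_sum_subtype p]
  refine (congrArg₂ (· + ·) (Eq.trans (Finset.sum_congr rfl fun i _ => ?_) h2)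
    (Finset.sum_eq_zero fun i _ => mul_eq_zero_of_left ?_ _)).trans (add_zero 0)
  · rw [Finset.prod_eq_one fun j _ => if_neg fun e : j.1 = i.1 => j.2 (e ▸ i.2), one_mul]
    simp only [Subtype.ext_iff]
  · refine Finset.prod_eq_zero (Finset.mem_univ i) ?_
    exact if_pos rfl

theorem kills_kr (h : Kills r X) (κ : Type) [Fintype κ] [DecidableEq κ] :
    Kills (fun γ => kr κ (r γ)) (dkr κ X) := by
  intro κ' _ _ T hT
  have key : ∀ (A : Matrix (κ' → κ → l) (κ' → κ → l) ℂ) (B : Matrix (κ' × κ → l) (κ' × κ → l) ℂ),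
      (∀ a b, A (curry a) (curry b) = B a b) →
        ∀ a, (A *ᵥ T) (curry a) = (B *ᵥ fun b => T (curry b)) a := fun A B hAB a => by
    simp only [Matrix.mulVec, dotProduct, ← hAB]
    exact (Fintype.sum_equiv (Equiv.curry κ' κ l) _ _ fun b => rfl).symm
  have h1 : Fixd r fun b : κ' × κ → l => T (curry b) := fun γ => by
    funext a
    rw [← key (kr κ' (kr κ (r γ))) _ fun a b => ?_, hT γ]
    simp only [kr, Matrix.of_apply, Fintype.prod_prod_type, curry_apply]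
  funext a
  rw [← curry_uncurry a, key _ (dkr (κ' × κ) X) fun a b => ?_, h _ _ h1]
  · rfl
  rw [xecol_dkr (κ' × κ), dkr, Matrix.of_apply, Fintype.sum_prod_type]
  refine Finset.sum_congr rfl fun i _ => ?_
  rw [xecol_dkr, Finset.sum_mul]
  refine Finset.sum_congr rfl fun j _ => ?_
  rw [Fintype.prod_prod_type, ← Finset.mul_prod_erase _ _ (Finset.mem_univ i)]
  congr 1
  · simp only [Prod.mk.injEq, true_and, curry_apply]
  · refine Finset.prod_congr rfl fun i' hi' => ?_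
    simp only [Prod.mk.injEq, Finset.ne_of_mem_erase hi', false_and, if_false, ← kr_one κ, kr,
      Matrix.of_apply]
    rfl

end Pool.Agent.MP_f58063_ag

end
end

section

open Complex Filter Topology Matrix Function Asymptotics

noncomputable section

namespace Pool.Agent.MP_f58063_ag

variable {l : Type} [Fintype l] [DecidableEq l]

/-- the tensor product of a family of matrices -/
def xepolKf {κ : Type} [Fintype κ] (M : κ → Matrix l l ℂ) : Matrix (κ → l) (κ → l) ℂ :=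
  Matrix.of fun a b => ∏ i, M i (a i) (b i)

omit [DecidableEq l] in
theorem xepol_mul {κ : Type} [Fintype κ] [DecidableEq κ] (M M' : κ → Matrix l l ℂ) :
    xepolKf M * xepolKf M' = xepolKf fun i => M i * M' i := by
  ext a b
  simp only [xepolKf, Matrix.mul_apply, Matrix.of_apply]
  rw [Finset.prod_univ_sum, Fintype.piFinset_univ]
  exact Finset.sum_congr rfl fun c _ => Finset.prod_mul_distrib.symm

/-- a matrix acting on one slot -/
def xepolSl {κ : Type} [Fintype κ] [DecidableEq κ] (i : κ) (Y : Matrix l l ℂ) :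
    Matrix (κ → l) (κ → l) ℂ :=
  xepolKf fun j => if j = i then Y else 1

omit [Fintype l] in
theorem xepol_apply {κ : Type} [Fintype κ] [DecidableEq κ] (i : κ) (Y : Matrix l l ℂ)
    (a b : κ → l) : xepolSl i Y a b =
      Y (a i) (b i) * ∏ j ∈ Finset.univ.erase i, (1 : Matrix l l ℂ) (a j) (b j) := by
  simp only [xepolSl, xepolKf, Matrix.of_apply]
  rw [← Finset.mul_prod_erase _ _ (Finset.mem_univ i), if_pos rfl]
  congr 1
  exact Finset.prod_congr rfl fun j hj => by rw [if_neg (Finset.ne_of_mem_erase hj)]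

theorem xepol_exp {κ : Type} [Fintype κ] [DecidableEq κ] {N : Matrix l l ℂ} (hN : N * N = 0)
    (S : Finset κ) : IsNilpotent (∑ i ∈ S, xepolSl i N) ∧
      (xepolKf fun j => if j ∈ S then 1 + N else 1) = IsNilpotent.exp (∑ i ∈ S, xepolSl i N) := by
  have hone : (xepolKf fun _ : κ => (1 : Matrix l l ℂ)) = 1 := kr_one κ
  induction S using Finset.induction_on with
  | empty =>
    simp only [Finset.sum_empty, Finset.notMem_empty, if_false, IsNilpotent.exp_zero]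
    exact ⟨IsNilpotent.zero, hone⟩
  | insert i S hi ih =>
    have h2 : xepolSl i N ^ 2 = 0 := by
      rw [sq, xepolSl, xepol_mul]
      ext a b
      exact Finset.prod_eq_zero (Finset.mem_univ i) (by simp [hN])
    have hc : Commute (xepolSl i N) (∑ j ∈ S, xepolSl j N) :=
      Commute.sum_right _ _ _ fun j _ => by
        change _ * _ = _ * _
        simp only [xepolSl, xepol_mul]
        congr 1
        funext m
        split_ifs <;> simp
    have h1 : xepolSl i (1 : Matrix l l ℂ) = 1 := by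
      simp only [xepolSl, ite_self]
      exact hone
    have h3 : IsNilpotent.exp (xepolSl i N) = xepolSl i (1 + N) := by
      rw [IsNilpotent.exp_eq_sum h2]
      simp only [Finset.sum_range_succ, Finset.range_zero, Finset.sum_empty, zero_add, pow_zero,
        pow_one, Nat.factorial_zero, Nat.factorial_one, Nat.cast_one, inv_one, one_smul]
      rw [← h1]
      ext a b
      simp only [Matrix.add_apply, xepol_apply, add_mul]
    rw [Finset.sum_insert hi]
    refine ⟨hc.isNilpotent_add ⟨2, h2⟩ ih.1, ?_⟩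
    rw [IsNilpotent.exp_add_of_commute hc ⟨2, h2⟩ ih.1, h3, ← ih.2, xepolSl, xepol_mul]
    congr 1
    funext m
    by_cases hm : m = i
    · simp [hm, hi]
    · simp [hm]

theorem xepol_step {n : ℕ} {f : Matrix l l ℂ → ℂ}
    (h : ∃ cf : (Fin n → Option (l × l)) → ℂ, ∀ M, f M = cf ⬝ᵥ evv (Fin n) M)
    (o : Option (l × l)) : ∃ cf : (Fin (n + 1) → Option (l × l)) → ℂ,
      ∀ M, f M * (o.elim 1 fun p => M p.1 p.2) = cf ⬝ᵥ evv (Fin (n + 1)) M := by
  obtain ⟨cf, h⟩ := h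
  refine ⟨fun a => if a 0 = o then cf (Fin.tail a) else 0, fun M => ?_⟩
  rw [h M, dotProduct, dotProduct, ← (Fin.consEquiv fun _ => Option (l × l)).sum_comp,
    Fintype.sum_prod_type, Finset.sum_eq_single o, Finset.sum_mul]
  · refine Finset.sum_congr rfl fun a _ => ?_
    have e : Fin.tail ((Fin.consEquiv fun _ : Fin (n + 1) => Option (l × l)) (o, a)) = a :=
      funext fun _ => rfl
    rw [e]
    simp only [Fin.consEquiv_apply, Fin.cons_zero, if_true, evv,
      Fin.prod_univ_succ, Fin.cons_succ]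
    ring
  · intro o' _ ho
    simp [ho]
  · simp

theorem xepol_mono {n n' : ℕ} (hn : n ≤ n') {f : Matrix l l ℂ → ℂ}
    (h : ∃ cf : (Fin n → Option (l × l)) → ℂ, ∀ M, f M = cf ⬝ᵥ evv (Fin n) M) :
    ∃ cf : (Fin n' → Option (l × l)) → ℂ, ∀ M, f M = cf ⬝ᵥ evv (Fin n') M := by
  induction n', hn using Nat.le_induction with
  | base => exact h
  | succ m _ ih => simpa using xepol_step ih none

theorem xt_one : xt 1 (1 : Matrix l l ℂ) = 1 := by
  ext (_ | a) (_ | b) <;> simp [xt, Matrix.one_apply, Prod.ext_iff]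
  split_ifs <;> simp_all

theorem xt_mul (c c' : ℂ) (M N : Matrix l l ℂ) : xt (c * c') (M * N) = xt c M * xt c' N := by
  ext (_ | a) (_ | b) <;> simp [xt, Matrix.mul_apply, Fintype.sum_option, Fintype.sum_prod_type]

theorem xt_add (c c' : ℂ) (M N : Matrix l l ℂ) : xt (c + c') (M + N) = xt c M + xt c' N := by
  ext (_ | a) (_ | b) <;> simp [xt]
  split_ifs <;> simp

theorem xt_zero : xt 0 (0 : Matrix l l ℂ) = 0 := by
  ext (_ | a) (_ | b) <;> simp [xt]

theorem kr_evv (κ : Type) [Fintype κ] [DecidableEq κ] (M N : Matrix l l ℂ) :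
    kr κ (xt 1 M) *ᵥ evv κ N = evv κ (M * N) := by
  funext a
  simp only [Matrix.mulVec, dotProduct, kr, evv, Matrix.of_apply, ← Finset.prod_mul_distrib]
  rw [← Fintype.piFinset_univ, ← Finset.prod_univ_sum (fun _ => Finset.univ)
    fun i (o : Option (l × l)) => xt 1 M (a i) o * o.elim 1 fun p => N p.1 p.2]
  refine Finset.prod_congr rfl fun i _ => ?_
  cases a i <;> simp [xt, Matrix.mul_apply, Fintype.sum_option, Fintype.sum_prod_type]

theorem exists_coef (P : MvPolynomial (l × l) ℂ) :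
    ∃ (n : ℕ) (cf : (Fin n → Option (l × l)) → ℂ), ∀ M : Matrix l l ℂ,
      MvPolynomial.eval (fun a => M a.1 a.2) P = cf ⬝ᵥ evv (Fin n) M := by
  induction P using MvPolynomial.induction_on with
  | C c => exact ⟨0, fun _ => c, fun M => by simp [dotProduct, evv]⟩
  | add P Q hP hQ =>
    obtain ⟨n, hP⟩ := hP
    obtain ⟨n', hQ⟩ := hQ
    obtain ⟨cf, hP⟩ := xepol_mono (le_max_left n n') hP
    obtain ⟨cf', hQ⟩ := xepol_mono (le_max_right n n') hQ
    exact ⟨_, cf + cf', fun M => by rw [map_add, hP, hQ, add_dotProduct]⟩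
  | mul_X P p hP =>
    obtain ⟨n, hP⟩ := hP
    obtain ⟨cf, h⟩ := xepol_step hP (some p)
    exact ⟨_, cf, fun M => by rw [map_mul, MvPolynomial.eval_X, ← h]; rfl⟩

theorem kr_stable {κ : Type} [Fintype κ] [DecidableEq κ] {N : Matrix l l ℂ} (hN : N * N = 0)
    {L : Submodule ℂ ((κ → l) → ℂ)} (h : ∀ v ∈ L, dkr κ N *ᵥ v ∈ L) :
    ∀ v ∈ L, kr κ (1 + N) *ᵥ v ∈ L := by
  have h1 : dkr κ N = ∑ i, xepolSl i N := by
    ext a b
    simp only [dkr, Matrix.of_apply, Matrix.sum_apply, xepol_apply]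
  have h2 : kr κ (1 + N) = IsNilpotent.exp (dkr κ N) := by
    rw [h1, ← (xepol_exp hN Finset.univ).2]
    simp only [Finset.mem_univ, if_true]
    rfl
  have h3 : ∀ j : ℕ, ∀ v ∈ L, (dkr κ N ^ j) *ᵥ v ∈ L := fun j => by
    induction j with
    | zero => simp
    | succ j ih =>
      intro v hv
      rw [pow_succ', ← Matrix.mulVec_mulVec]
      exact h _ (ih v hv)
  intro v hv
  rw [h2, IsNilpotent.exp, Matrix.sum_mulVec]
  refine L.sum_mem fun j _ => ?_
  rw [Matrix.smul_mulVec]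
  exact L.smul_of_tower_mem _ (h3 j v hv)

end Pool.Agent.MP_f58063_ag

end
end

section

open Complex Filter Topology Matrix Function Asymptotics

noncomputable section

namespace Pool.Agent.MP_f58063_ag

section

variable {ι κ : Type} [Fintype ι] [DecidableEq ι] [Fintype κ] [DecidableEq κ]

theorem xewed_exp (Φ : MultilinearMap ℂ (fun _ : κ => ι → ℂ) ℂ) (F : κ → ι → ℂ) :
    Φ F = ∑ a : κ → ι, (∏ i, F i (a i)) * Φ fun i => Pi.single (a i) 1 := by
  have h : F = fun i => ∑ j, F i j • (Pi.single j 1 : ι → ℂ) := by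
    funext i
    exact pi_eq_sum_univ' (F i)
  conv_lhs => rw [h]
  rw [Φ.map_sum]
  exact Finset.sum_congr rfl fun a _ => Φ.map_smul_univ _ _

theorem xewed_kill {G : Type} {r : G → Matrix ι ι ℂ} {X : Matrix ι ι ℂ} (h : Kills r X)
    (Φ : MultilinearMap ℂ (fun _ : κ => ι → ℂ) ℂ)
    (hΦ : ∀ γ F, Φ (fun i => F i ᵥ* r γ) = Φ F) (F : κ → ι → ℂ) :
    ∑ i, Φ (update F i (F i ᵥ* X)) = 0 := by
  have h1 := h κ (fun a => Φ fun i => Pi.single (a i) 1) fun γ => by
    funext a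
    rw [← hΦ γ, xewed_exp Φ]
    simp only [single_one_vecMul]
    rfl
  have key : ∀ F : κ → ι → ℂ, (∑ i, Φ.compLinearMap
      (update (fun _ => LinearMap.id) i X.vecMulLinear)) F = ∑ i, Φ (update F i (F i ᵥ* X)) := by
    intro F
    rw [_root_.sum_apply]
    refine Finset.sum_congr rfl fun i _ => congrArg Φ ?_
    funext j
    by_cases hj : j = i
    · subst hj
      simp
    · simp [hj]
  rw [← key, xewed_exp]
  refine Finset.sum_eq_zero fun a _ => mul_eq_zero_of_right _ ?_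
  rw [key]
  refine Eq.trans ?_ (congrFun h1 a)
  simp only [mulVec, dotProduct, dkr, of_apply, Finset.sum_mul]
  rw [Finset.sum_comm]
  refine Finset.sum_congr rfl fun i _ => ?_
  rw [xewed_exp]
  refine Finset.sum_congr rfl fun b _ => ?_
  congr 1
  rw [← Finset.mul_prod_erase _ _ (Finset.mem_univ i), update_self, single_one_vecMul]
  congr 1
  refine Finset.prod_congr rfl fun j hj => ?_
  rw [update_of_ne (Finset.ne_of_mem_erase hj), one_apply, Pi.single_apply]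
  simp only [eq_comm]

theorem xewed_int (A : Matrix κ κ ℂ) (h : ∀ i j, ∃ z : ℤ, A i j = z) : ∃ z : ℤ, A.det = z := by
  choose Z hZ using h
  refine ⟨(Matrix.of Z).det, ?_⟩
  rw [Int.cast_det]
  congr 1
  ext i j
  exact hZ i j

end

theorem xewed_chi {G : Type} [Group G] (χ : G → ℂ) (h1 : χ 1 = 1)
    (hm : ∀ γ γ', χ (γ * γ') = χ γ * χ γ') {d : ℂ} (hd : d ≠ 0)
    (hz : ∀ γ, ∃ z : ℤ, d * χ γ = z) (γ : G) : χ γ * χ γ = 1 := by
  have hp : ∀ γ n, χ (γ ^ n) = χ γ ^ n := fun γ n => by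
    induction n with
    | zero => simpa using h1
    | succ n ih => rw [pow_succ, hm, ih, pow_succ]
  have hi : ∀ γ, χ γ * χ γ⁻¹ = 1 := fun γ => by rw [← hm, mul_inv_cancel, h1]
  have hge : ∀ γ, 1 ≤ ‖χ γ‖ := fun γ => by
    by_contra hlt
    obtain ⟨n, hn⟩ := exists_pow_lt_of_lt_one (inv_pos.2 (norm_pos_iff.2 hd)) (not_le.1 hlt)
    obtain ⟨z, e⟩ := hz (γ ^ n)
    have hz0 : z ≠ 0 := by
      rintro rfl
      exact mul_ne_zero hd (left_ne_zero_of_mul_eq_one (hi _)) (by simpa using e)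
    have h2 : (1 : ℝ) ≤ ‖(z : ℂ)‖ := by
      rw [Complex.norm_intCast]
      exact_mod_cast Int.one_le_abs hz0
    rw [← e, hp, norm_mul, norm_pow] at h2
    rw [lt_inv_comm₀ (by
      have := norm_pos_iff.2 (left_ne_zero_of_mul_eq_one (hi γ))
      positivity) (norm_pos_iff.2 hd), ← one_div, lt_div_iff₀ (by
      have := norm_pos_iff.2 (left_ne_zero_of_mul_eq_one (hi γ))
      positivity)] at hn
    linarith
  have h3 : ‖χ γ‖ = 1 := by
    have e := congrArg norm (hi γ)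
    rw [norm_mul, norm_one] at e
    have := hge γ
    have := hge γ⁻¹
    nlinarith
  obtain ⟨z, e⟩ := hz γ
  obtain ⟨z0, e0⟩ := hz 1
  rw [h1, mul_one] at e0
  have h4 : (starRingEnd ℂ) (χ γ) = χ γ := by
    have := congrArg (starRingEnd ℂ) e
    rw [map_mul, e0, map_intCast, map_intCast, ← e, ← e0] at this
    exact mul_left_cancel₀ hd this
  have := Complex.mul_conj' (χ γ)
  rw [h4, h3] at this
  simpa using this

/-- the span of an integral orbit is stable under the matrices that kill the invariants -/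
theorem Kills.stable {G : Type} [Group G] {ι : Type} [Fintype ι] [DecidableEq ι]
    {r : G → Matrix ι ι ℂ} (h1 : r 1 = 1) (hm : ∀ γ γ', r (γ * γ') = r γ * r γ')
    (hr : ∀ γ a b, ∃ z : ℤ, r γ a b = z) {v₀ : ι → ℂ} (hv : ∀ a, ∃ z : ℤ, v₀ a = z)
    {X : Matrix ι ι ℂ} (h : Kills r X) :
    ∀ v ∈ Submodule.span ℂ (Set.range fun γ => r γ *ᵥ v₀),
      X *ᵥ v ∈ Submodule.span ℂ (Set.range fun γ => r γ *ᵥ v₀) := by
  classical
  obtain ⟨κ, g, -, hsp, hli⟩ := exists_linearIndependent' ℂ fun γ => r γ *ᵥ v₀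
  have : Finite κ := hli.finite
  let _ := Fintype.ofFinite κ
  set B : Matrix ι κ ℂ := Matrix.of fun a k => (r (g k) *ᵥ v₀) a with hB
  have hL : Submodule.span ℂ (Set.range fun γ => r γ *ᵥ v₀) = LinearMap.range B.mulVecLin := by
    rw [Matrix.range_mulVecLin, ← hsp]
    rfl
  obtain ⟨Ψ, hΨ⟩ : ∃ Ψ : Matrix κ ι ℂ, Ψ * B = 1 := by
    obtain ⟨ψ, hψ⟩ := B.toLin'.exists_leftInverse_of_injective
      (LinearMap.ker_eq_bot.2 (Matrix.mulVec_injective_iff.2 hli))
    refine ⟨LinearMap.toMatrix' ψ, ?_⟩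
    rw [← LinearMap.toMatrix'_toLin' B, ← LinearMap.toMatrix'_comp, hψ, LinearMap.toMatrix'_id]
  have hcol : ∀ γ a k, (r γ * B) a k = (r (γ * g k) *ᵥ v₀) a := fun γ a k => by
    rw [hm, ← mulVec_mulVec]
    rfl
  have hC : ∀ γ, r γ * B = B * (Ψ * (r γ * B)) := fun γ => by
    ext a k
    obtain ⟨c, hc⟩ : r (γ * g k) *ᵥ v₀ ∈ LinearMap.range B.mulVecLin :=
      hL ▸ Submodule.subset_span ⟨_, rfl⟩
    have e : (B * Ψ) *ᵥ (r (γ * g k) *ᵥ v₀) = r (γ * g k) *ᵥ v₀ := by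
      rw [← hc, mulVecLin_apply, mulVec_mulVec, Matrix.mul_assoc, hΨ, Matrix.mul_one]
    rw [← Matrix.mul_assoc, hcol, ← e, mul_apply]
    simp only [hcol]
    rfl
  obtain ⟨D, hD⟩ : ∃ D : MultilinearMap ℂ (fun _ : κ => ι → ℂ) ℂ,
      ∀ F, D F = (Matrix.of F * B).det :=
    ⟨(detRowAlternating (n := κ) (R := ℂ)).toMultilinearMap.compLinearMap
      fun _ => B.vecMulLinear, fun F => rfl⟩
  have hDr : ∀ γ F, D (fun i => F i ᵥ* r γ) = D F * (Ψ * (r γ * B)).det := fun γ F => by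
    rw [hD, hD, ← det_mul, Matrix.mul_assoc, ← hC, ← Matrix.mul_assoc]
    rfl
  have hD1 : D Ψ = 1 := by
    rw [hD]
    exact (congrArg det hΨ).trans det_one
  obtain ⟨a, ha⟩ : ∃ a : κ → ι, D (fun i => Pi.single (a i) 1) ≠ 0 := by
    by_contra hn
    push Not at hn
    rw [xewed_exp] at hD1
    simp [hn] at hD1
  have hχ : ∀ γ, (Ψ * (r γ * B)).det * (Ψ * (r γ * B)).det = 1 := by
    refine xewed_chi _ (by rw [h1, Matrix.one_mul, hΨ, det_one]) (fun γ γ' => ?_) ha fun γ => ?_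
    · rw [← det_mul, hm, Matrix.mul_assoc, hC γ', Matrix.mul_assoc Ψ, ← Matrix.mul_assoc (r γ),
        ← hC γ']
    · rw [← hDr, hD]
      refine xewed_int _ fun i k => ?_
      have e : (Matrix.of (fun i => Pi.single (a i) 1 ᵥ* r γ) * B) i k = (r γ * B) (a i) k := by
        simp only [single_one_vecMul]
        rfl
      rw [e, hcol]
      choose R hR using hr (γ * g k) (a i)
      choose w hw using hv
      refine ⟨∑ b, R b * w b, ?_⟩
      simp only [mulVec, dotProduct, hR, hw]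
      push_cast
      rfl
  obtain ⟨Φ, hΦ⟩ : ∃ Φ : MultilinearMap ℂ (fun _ : κ ⊕ κ => ι → ℂ) ℂ,
      ∀ F, Φ F = D (fun i => F (.inl i)) * D fun i => F (.inr i) :=
    ⟨(LinearMap.mul' ℂ ℂ).compMultilinearMap (D.domCoprod D), fun F => rfl⟩
  have hk := xewed_kill h Φ fun γ F => by
    rw [hΦ, hΦ, hDr γ fun i => F (.inl i), hDr γ fun i => F (.inr i)]
    linear_combination (D (fun i => F (.inl i)) * D fun i => F (.inr i)) * hχ γ
  have main : ∀ φ : ι → ℂ, φ ᵥ* B = 0 → ∀ k, (φ ᵥ* (X * B)) k = 0 := by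
    intro φ hφ k
    have hz : ∀ F : κ → ι → ℂ, F k = φ → D F = 0 := fun F hF => by
      rw [hD]
      refine det_eq_zero_of_row_eq_zero k fun j => ?_
      rw [← hF] at hφ
      exact congrFun hφ j
    have e := hk (Sum.elim (update Ψ k φ) Ψ)
    rw [Fintype.sum_sum_type] at e
    simp only [Sum.update_elim_inl, Sum.update_elim_inr, hΦ, Sum.elim_inl, Sum.elim_inr] at e
    rw [Finset.sum_eq_single k (fun j _ hj => mul_eq_zero_of_left
        (hz _ (by rw [update_of_ne hj.symm, update_self])) _) (by simp),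
      Finset.sum_eq_zero (fun j _ => mul_eq_zero_of_left (hz _ (update_self ..)) _), add_zero,
      hD1, mul_one, update_self, update_idem, hD] at e
    have e2 : Matrix.of (update Ψ k (φ ᵥ* X)) * B = (1 : Matrix κ κ ℂ).updateRow k
        (φ ᵥ* (X * B)) := by
      rw [← hΨ, ← vecMul_vecMul, ← updateRow_mul]
      rfl
    rw [e2, ← cramer_transpose_apply, transpose_one, cramer_one] at e
    exact e
  have hX : X * B = B * (Ψ * (X * B)) := by
    have e : (1 - B * Ψ) * B = 0 := by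
      rw [Matrix.sub_mul, Matrix.mul_assoc, hΨ, Matrix.one_mul, Matrix.mul_one, sub_self]
    have e' : (1 - B * Ψ) * (X * B) = 0 := by
      ext a k
      exact main ((1 - B * Ψ : Matrix ι ι ℂ) a) (congrFun e a :) k
    rwa [Matrix.sub_mul, Matrix.one_mul, sub_eq_zero, Matrix.mul_assoc] at e'
  rw [hL]
  rintro _ ⟨c, rfl⟩
  refine ⟨(Ψ * (X * B)) *ᵥ c, ?_⟩
  rw [mulVecLin_apply, mulVecLin_apply, mulVec_mulVec, mulVec_mulVec, ← hX]

end Pool.Agent.MP_f58063_ag

end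
end

section

open Complex Filter Topology Matrix Function Asymptotics

noncomputable section

namespace Pool.Agent.MP_f58063_ag

variable {g : ℕ} {τ : Mat g}

/-- an integral vector as a complex vector -/
def xeendqV (v : Fin g → ℤ) : Fin g → ℂ := fun i => (v i : ℂ)

/-- an integral matrix as a complex matrix -/
def xeendqM {m n : Type} (a : Matrix m n ℤ) : Matrix m n ℂ := a.map (Int.castRingHom ℂ)

lemma xeendq_lat {w : Fin g → ℂ} :
    w ∈ lattice τ ↔ ∃ m n : Fin g → ℤ, w = xeendqV m + Matrix.of τ *ᵥ xeendqV n := Iff.rfl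

lemma xeendq_V_add (u v : Fin g → ℤ) : xeendqV (u + v) = xeendqV u + xeendqV v := by
  funext i
  simp [xeendqV]

lemma xeendq_V_mulVec (a : Matrix (Fin g) (Fin g) ℤ) (v : Fin g → ℤ) :
    xeendqV (aᵀ *ᵥ v) = (xeendqM a)ᵀ *ᵥ xeendqV v := by
  funext i
  simp [xeendqV, xeendqM, mulVec, dotProduct]

lemma xeendq_cj_M (a : Matrix (Fin g) (Fin g) ℤ) : cj (xeendqM a) = xeendqM a := by
  ext i j
  simp [cj, xeendqM]

lemma xeendq_cj_mul (a b : Matrix (Fin g) (Fin g) ℂ) : cj (a * b) = cj a * cj b :=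
  Matrix.map_mul

lemma xeendq_cj_add (a b : Matrix (Fin g) (Fin g) ℂ) : cj (a + b) = cj a + cj b := by
  ext i j
  simp [cj]

lemma xeendq_cj_smul (n : ℤ) (a : Matrix (Fin g) (Fin g) ℂ) :
    cj ((n : ℂ) • a) = (n : ℂ) • cj a := by
  ext i j
  simp [cj]

lemma xeendq_cj_one : cj (1 : Matrix (Fin g) (Fin g) ℂ) = 1 :=
  Matrix.map_one _ (map_zero _) (map_one _)

/-- a matrix commuting with the Hodge grading preserves the second column of the frame -/
lemma xeendq_block (hτ : τ ∈ Siegel g) {A B C D : Matrix (Fin g) (Fin g) ℂ}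
    (hc : fromBlocks A B C D * mu τ = mu τ * fromBlocks A B C D) :
    A * Matrix.of τ + B = Matrix.of τ * (C * Matrix.of τ + D) := by
  have hu := bf_det hτ
  set T := fromBlocks A B C D with hT
  set N := (bf τ)⁻¹ * T * bf τ with hN
  have h1 : T * bf τ = bf τ * N := by
    rw [hN, Matrix.mul_assoc, mul_nonsing_inv_cancel_left _ _ hu]
  have h2 : N * Eta g = Eta g * N := by
    have h3 := congrArg (fun X => (bf τ)⁻¹ * X * bf τ) hc
    simp only [mu, Matrix.mul_assoc] at h3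
    rw [nonsing_inv_mul _ hu, Matrix.mul_one, nonsing_inv_mul_cancel_left _ _ hu] at h3
    simpa only [hN, Matrix.mul_assoc] using h3
  rw [← fromBlocks_toBlocks N] at h1 h2
  generalize N.toBlocks₁₁ = N₁ at h1 h2
  generalize N.toBlocks₁₂ = N₂ at h1 h2
  generalize N.toBlocks₂₁ = N₃ at h1 h2
  generalize N.toBlocks₂₂ = N₄ at h1 h2
  rw [Eta, fromBlocks_multiply, fromBlocks_multiply, fromBlocks_inj] at h2
  rw [hT, bf, fromBlocks_multiply, fromBlocks_multiply, fromBlocks_inj] at h1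
  have h4 : N₂ = -N₂ := by simpa using h2.2.1
  have h5 : N₂ = 0 := by
    ext i j
    have := congrFun (congrFun h4 i) j
    rw [Matrix.neg_apply] at this
    rw [Matrix.zero_apply]
    linear_combination (1 / 2 : ℂ) * this
  have h6 := h1.2.1
  have h7 := h1.2.2.2
  rw [h5] at h6 h7
  simp only [Matrix.mul_one, Matrix.mul_zero, zero_add, Matrix.one_mul] at h6 h7
  rw [h7, h6]

/-- the integral case -/
lemma xeendq_int (h : EndZ τ) (hτ : τ ∈ Siegel g) (T : Matrix (LL g) (LL g) ℤ)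
    (hc : xeendqM T * mu τ = mu τ * xeendqM T) :
    ∃ c : ℂ, xeendqM T = c • (1 : Matrix (LL g) (LL g) ℂ) := by
  have hT : xeendqM T = fromBlocks (xeendqM T.toBlocks₁₁) (xeendqM T.toBlocks₁₂)
      (xeendqM T.toBlocks₂₁) (xeendqM T.toBlocks₂₂) := by
    ext (i | i) (j | j) <;> rfl
  rw [hT] at hc ⊢
  generalize T.toBlocks₁₁ = a at hc ⊢
  generalize T.toBlocks₁₂ = b at hc ⊢
  generalize T.toBlocks₂₁ = c at hc ⊢
  generalize T.toBlocks₂₂ = d at hc ⊢
  have h1 := xeendq_block hτ hc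
  have hs := xsact_symm hτ
  obtain ⟨n, hn⟩ := h (Matrix.toLin' (xeendqM c * Matrix.of τ + xeendqM d)ᵀ) (by
    intro w hw
    obtain ⟨u, v, rfl⟩ := xeendq_lat.1 hw
    refine xeendq_lat.2 ⟨dᵀ *ᵥ u + bᵀ *ᵥ v, cᵀ *ᵥ u + aᵀ *ᵥ v, ?_⟩
    have h2 : (xeendqM c * Matrix.of τ + xeendqM d)ᵀ * Matrix.of τ =
        Matrix.of τ * (xeendqM a)ᵀ + (xeendqM b)ᵀ := by
      have := congrArg transpose h1
      rw [transpose_mul (Matrix.of τ), hs, transpose_add, transpose_mul, hs] at this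
      exact this.symm
    rw [Matrix.toLin'_apply, mulVec_add, mulVec_mulVec, h2, transpose_add, transpose_mul, hs,
      xeendq_V_add, xeendq_V_add, xeendq_V_mulVec, xeendq_V_mulVec, xeendq_V_mulVec,
      xeendq_V_mulVec, add_mulVec, add_mulVec, mulVec_add, mulVec_mulVec, mulVec_mulVec]
    abel)
  have h3 : xeendqM c * Matrix.of τ + xeendqM d = (n : ℂ) • (1 : Matrix (Fin g) (Fin g) ℂ) := by
    apply transpose_injective
    apply Matrix.toLin'.injective
    refine LinearMap.ext fun z => ?_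
    rw [hn, Matrix.toLin'_apply, transpose_smul, transpose_one, smul_mulVec, one_mulVec]
  rw [h3, Matrix.mul_smul, Matrix.mul_one] at h1
  have h4 := congrArg cj h1
  have h5 := congrArg cj h3
  rw [xeendq_cj_add, xeendq_cj_mul, xeendq_cj_M, xeendq_cj_M, xeendq_cj_smul] at h4 h5
  rw [xeendq_cj_one] at h5
  refine ⟨n, ?_⟩
  have h6 : fromBlocks (xeendqM a) (xeendqM b) (xeendqM c) (xeendqM d) * bf τ =
      (n : ℂ) • bf τ := by
    rw [bf, fromBlocks_multiply, fromBlocks_smul]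
    simp only [Matrix.mul_one]
    rw [h1, h3, h4, h5]
  rw [← mul_nonsing_inv _ (bf_det hτ), ← Matrix.smul_mul, ← h6,
    mul_nonsing_inv_cancel_right _ _ (bf_det hτ)]

theorem EndZ.scalar (h : EndZ τ) (hτ : τ ∈ Siegel g) {T : Matrix (LL g) (LL g) ℂ}
    (hT : ∀ a b, ∃ q : ℚ, T a b = q) (hc : T * mu τ = mu τ * T) :
    ∃ c : ℂ, T = c • (1 : Matrix (LL g) (LL g) ℂ) := by
  choose q hq using hT
  set m : ℕ := ∏ x : LL g × LL g, (q x.1 x.2).den with hm
  have hm0 : (m : ℂ) ≠ 0 :=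
    Nat.cast_ne_zero.2 (Finset.prod_ne_zero_iff.2 fun x _ => (q x.1 x.2).den_ne_zero)
  have hz : ∀ a b, ∃ z : ℤ, (m : ℂ) * T a b = z := by
    intro a b
    obtain ⟨r, hr⟩ : (q a b).den ∣ m := Finset.dvd_prod_of_mem _ (Finset.mem_univ (a, b))
    refine ⟨r * (q a b).num, ?_⟩
    have h1 : ((q a b).den : ℚ) * q a b = (q a b).num := Rat.den_mul_eq_num _
    have h2 : ((q a b).den : ℂ) * (q a b : ℂ) = (q a b).num := by exact_mod_cast h1
    rw [hq, hr]
    push_cast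
    rw [← h2]
    ring
  choose z hz using hz
  have hZ : xeendqM (Matrix.of z) = (m : ℂ) • T := by
    ext a b
    exact (hz a b).symm
  obtain ⟨c, hc'⟩ := xeendq_int h hτ (Matrix.of z) (by
    rw [hZ, Matrix.smul_mul, Matrix.mul_smul, hc])
  refine ⟨(m : ℂ)⁻¹ * c, ?_⟩
  rw [mul_smul, ← hc', hZ, smul_smul, inv_mul_cancel₀ hm0, one_smul]

end Pool.Agent.MP_f58063_ag

end
end
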