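import Pool.Agent.Mg.Fcf0a82q.Gf9af85
import Pool.Agent.Mg.Fcf0a82q.G341a9c

section

open Complex Filter Topology Matrix Function Asymptotics

noncomputable section

namespace Pool.Agent.MP_f58063_ag

variable {n : Type} [Fintype n] [DecidableEq n]

theorem xetr_dec {ι : Type} [Fintype ι] (U : Submodule ℂ (ι → ℂ)) (v : ι → ℂ) :
    ∃ u ∈ U, ∀ w ∈ U, star w ⬝ᵥ (v - u) = 0 := by
  let e := WithLp.linearEquiv 2 ℂ (ι → ℂ)
  obtain ⟨y, hy, z, hz, h⟩ := (U.comap e.toLinearMap).exists_add_mem_mem_orthogonal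
    (WithLp.toLp 2 v : EuclideanSpace ℂ ι)
  refine ⟨y.ofLp, hy, fun w hw => ?_⟩
  have h1 : v - y.ofLp = z.ofLp := by
    have := congrArg WithLp.ofLp h
    simp only [WithLp.ofLp_add] at this
    rw [this]
    simp
  have h2 := (Submodule.mem_orthogonal _ _).1 hz (WithLp.toLp 2 w) hw
  rw [h1, dotProduct_comm]
  exact (EuclideanSpace.inner_toLp_toLp w z.ofLp).symm.trans h2

omit [DecidableEq n] in
theorem xetr_decM (U : Submodule ℂ (Matrix n n ℂ)) (c : Matrix n n ℂ) :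
    ∃ E ∈ U, ∀ a ∈ U, trace (aᴴ * (c - E)) = 0 := by
  let e : Matrix n n ℂ →ₗ[ℂ] (n × n → ℂ) :=
    { toFun := fun M p => M p.1 p.2
      map_add' := fun _ _ => rfl
      map_smul' := fun _ _ => rfl }
  obtain ⟨_, ⟨E, hE, rfl⟩, h⟩ := xetr_dec (U.map e) (e c)
  refine ⟨E, hE, fun a ha => ?_⟩
  rw [← h (e a) ⟨a, ha, rfl⟩]
  simp only [trace, diag, mul_apply, conjTranspose_apply, dotProduct, Fintype.sum_prod_type]
  rw [Finset.sum_comm]
  rfl

open scoped ComplexOrder in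
omit [DecidableEq n] in
theorem xetr_an {a : Matrix n n ℂ} (h : trace (aᴴ * a) = 0) : a = 0 :=
  trace_conjTranspose_mul_self_eq_zero_iff.1 h

theorem xetr_star (A : Subalgebra ℂ (Matrix n n ℂ)) (hst : ∀ a ∈ A, aᴴ ∈ A) {c : Matrix n n ℂ}
    (hc : ∀ b ∈ A, c * b = b * c) : ∀ b ∈ A, cᴴ * b = b * cᴴ := by
  intro b hb
  have := congrArg conjTranspose (hc _ (hst b hb))
  simpa [conjTranspose_mul] using this.symm

theorem xetr_mul (A : Subalgebra ℂ (Matrix n n ℂ)) {c c' : Matrix n n ℂ}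
    (hc : ∀ b ∈ A, c * b = b * c) (hc' : ∀ b ∈ A, c' * b = b * c') :
    ∀ b ∈ A, c * c' * b = b * (c * c') := by
  intro b hb
  rw [mul_assoc, hc' b hb, ← mul_assoc, hc b hb, mul_assoc]

theorem tr_split (A : Subalgebra ℂ (Matrix n n ℂ)) (hst : ∀ a ∈ A, aᴴ ∈ A)
    (hz : ∀ z ∈ A, (∀ a ∈ A, z * a = a * z) → ∃ c : ℂ, z = c • (1 : Matrix n n ℂ))
    {a c : Matrix n n ℂ} (ha : a ∈ A) (hc : ∀ b ∈ A, c * b = b * c) :
    (Fintype.card n : ℂ) * trace (a * c) = trace a * trace c := by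
  obtain ⟨E, hE, h⟩ := xetr_decM (Subalgebra.toSubmodule A) c
  have hE' : E ∈ A := hE
  have h1 : ∀ b ∈ A, trace (b * (c - E)) = 0 := fun b hb => by
    simpa using h bᴴ (hst b hb)
  have h2 : ∀ b ∈ A, E * b = b * E := by
    intro b hb
    have hD : E * b - b * E ∈ A := A.sub_mem (A.mul_mem hE' hb) (A.mul_mem hb hE')
    have hD' : E * b - b * E = b * (c - E) - (c - E) * b := by
      rw [mul_sub, sub_mul, hc b hb]; abel
    rw [← sub_eq_zero]
    apply xetr_an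
    set D := E * b - b * E
    nth_rewrite 2 [hD']
    rw [mul_sub, trace_sub, ← mul_assoc, h1 _ (A.mul_mem (hst _ hD) hb), ← mul_assoc,
      trace_mul_cycle, h1 _ (A.mul_mem hb (hst _ hD)), sub_zero]
  obtain ⟨z, rfl⟩ := hz E hE' h2
  have h3 := h1 a ha
  have h4 := h1 1 A.one_mem
  rw [mul_sub, trace_sub, sub_eq_zero] at h3 h4
  rw [one_mul] at h4
  rw [h3, h4]
  simp
  ring

theorem dim_ineq (A : Subalgebra ℂ (Matrix n n ℂ)) (hst : ∀ a ∈ A, aᴴ ∈ A)
    (hz : ∀ z ∈ A, (∀ a ∈ A, z * a = a * z) → ∃ c : ℂ, z = c • (1 : Matrix n n ℂ))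
    (U V : Submodule ℂ (Matrix n n ℂ)) (hU : ∀ a ∈ U, a ∈ A)
    (hV : ∀ c ∈ V, ∀ b ∈ A, c * b = b * c) :
    Module.finrank ℂ U * Module.finrank ℂ V ≤ Fintype.card n ^ 2 := by
  let a := Module.finBasis ℂ U
  let c := Module.finBasis ℂ V
  have ha : LinearIndependent ℂ fun i => (a i : Matrix n n ℂ) :=
    a.linearIndependent.map' U.subtype U.ker_subtype
  have hc : LinearIndependent ℂ fun i => (c i : Matrix n n ℂ) :=
    c.linearIndependent.map' V.subtype V.ker_subtype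
  have hli : LinearIndependent ℂ fun p : Fin (Module.finrank ℂ U) × Fin (Module.finrank ℂ V) =>
      (a p.1 : Matrix n n ℂ) * (c p.2 : Matrix n n ℂ) := by
    rw [Fintype.linearIndependent_iff]
    intro g hg
    let c2 : Fin (Module.finrank ℂ U) → Matrix n n ℂ := fun i => ∑ j, g (i, j) • (c j : _)
    have hc2 : ∀ i, c2 i ∈ V := fun i => V.sum_mem fun j _ => V.smul_mem _ (c j).2
    have hs : ∑ i, (a i : Matrix n n ℂ) * c2 i = 0 := by
      rw [← hg, Fintype.sum_prod_type]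
      refine Finset.sum_congr rfl fun i _ => ?_
      simp only [c2, Finset.mul_sum, Matrix.mul_smul]
    have h0 : ∀ k, c2 k = 0 := by
      intro k
      have hk := xetr_star A hst (hV _ (hc2 k))
      let x : Matrix n n ℂ := ∑ i, trace (c2 i * (c2 k)ᴴ) • (a i : Matrix n n ℂ)
      have hx : x ∈ A := hU _ (U.sum_mem fun i _ => U.smul_mem _ (a i).2)
      have hx0 : x = 0 := by
        apply xetr_an
        have h1 : trace (xᴴ * x) = ∑ i, (Fintype.card n : ℂ) *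
            trace (xᴴ * (a i : Matrix n n ℂ) * (c2 i * (c2 k)ᴴ)) := by
          conv_lhs => rw [show xᴴ * x = xᴴ * ∑ i, trace (c2 i * (c2 k)ᴴ) • (a i : Matrix n n ℂ)
            from rfl]
          rw [Finset.mul_sum, trace_sum]
          refine Finset.sum_congr rfl fun i _ => ?_
          rw [tr_split A hst hz (A.mul_mem (hst _ hx) (hU _ (a i).2))
            (xetr_mul A (hV _ (hc2 i)) hk), Matrix.mul_smul, trace_smul, smul_eq_mul, mul_comm]
        rw [h1, ← Finset.mul_sum, ← trace_sum]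
        have h2 : ∑ i, xᴴ * (a i : Matrix n n ℂ) * (c2 i * (c2 k)ᴴ) =
            xᴴ * (∑ i, (a i : Matrix n n ℂ) * c2 i) * (c2 k)ᴴ := by
          rw [Finset.mul_sum, Finset.sum_mul]
          refine Finset.sum_congr rfl fun i _ => ?_
          simp only [mul_assoc]
        rw [h2, hs]
        simp
      have h3 := Fintype.linearIndependent_iff.1 ha _ hx0 k
      apply xetr_an
      rw [trace_mul_comm]
      exact h3
    rintro ⟨i, j⟩
    exact Fintype.linearIndependent_iff.1 hc (fun j => g (i, j)) (h0 i) j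
  have := hli.fintype_card_le_finrank
  simpa [Module.finrank_matrix, sq] using this

theorem sq_dich (A : Subalgebra ℂ (Matrix n n ℂ)) (hst : ∀ a ∈ A, aᴴ ∈ A)
    (hz : ∀ z ∈ A, (∀ a ∈ A, z * a = a * z) → ∃ c : ℂ, z = c • (1 : Matrix n n ℂ))
    {a c : Matrix n n ℂ} (ha : a ∈ A) (hc : ∀ b ∈ A, c * b = b * c) (ha0 : trace a = 0)
    (hc0 : trace c = 0) (h : (a + c) * (a + c) = 1) : a = 0 ∨ c = 0 := by
  have hc' := xetr_star A hst hc
  have ha' := hst a ha
  have h1 : aᴴ * a * a * cᴴ + (aᴴ * a * (c * cᴴ) + aᴴ * a * (c * cᴴ)) + aᴴ * (c * c * cᴴ) =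
      aᴴ * cᴴ := by
    have h2 : a * a + (a * c + a * c) + c * c = 1 := by
      rw [← h, add_mul, mul_add, mul_add, hc a ha]; abel
    calc _ = aᴴ * (a * a + (a * c + a * c) + c * c) * cᴴ := by
          simp only [mul_add, add_mul, mul_assoc]
      _ = _ := by rw [h2, mul_one]
  have h3 := congrArg (fun M => (Fintype.card n : ℂ) * trace M) h1
  simp only [trace_add, mul_add] at h3
  rw [tr_split A hst hz (A.mul_mem (A.mul_mem ha' ha) ha) hc',
    tr_split A hst hz (A.mul_mem ha' ha) (xetr_mul A hc hc'),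
    tr_split A hst hz ha' (xetr_mul A (xetr_mul A hc hc) hc'), tr_split A hst hz ha' hc',
    trace_conjTranspose a, trace_conjTranspose c, ha0, hc0] at h3
  have h4 : trace (aᴴ * a) * trace (c * cᴴ) = 0 := by
    simp only [star_zero, mul_zero, zero_mul, zero_add, add_zero] at h3
    linear_combination h3 / 2
  rcases mul_eq_zero.1 h4 with h5 | h5
  · exact Or.inl (xetr_an h5)
  · exact Or.inr (xetr_an (by rw [trace_mul_comm]; exact h5))

theorem proj_comm (T : Set (Matrix n n ℂ)) (hst : ∀ X ∈ T, Xᴴ ∈ T) (U : Submodule ℂ (n → ℂ))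
    (hU : ∀ X ∈ T, ∀ u ∈ U, X *ᵥ u ∈ U) :
    ∃ P : Matrix n n ℂ, (∀ X ∈ T, P * X = X * P) ∧ (∀ u ∈ U, P *ᵥ u = u) ∧
      ∀ v, P *ᵥ v ∈ U := by
  let W : Submodule ℂ (n → ℂ) :=
    { carrier := {x | ∀ w ∈ U, star w ⬝ᵥ x = 0}
      add_mem' := fun hx hy w hw => by rw [dotProduct_add, hx w hw, hy w hw, add_zero]
      zero_mem' := fun w _ => dotProduct_zero _
      smul_mem' := fun s x hx w hw => by rw [dotProduct_smul, hx w hw, smul_zero] }
  have hW : ∀ X ∈ T, ∀ x ∈ W, X *ᵥ x ∈ W := by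
    intro X hX x hx w hw
    rw [dotProduct_mulVec, ← hx _ (hU _ (hst X hX) w hw), star_mulVec, conjTranspose_conjTranspose]
  have hc : IsCompl U W := by
    constructor
    · rw [Submodule.disjoint_def]
      intro x hx hx'
      open scoped ComplexOrder in exact dotProduct_star_self_eq_zero.1 (hx' x hx)
    · rw [Submodule.codisjoint_iff_exists_add_eq]
      intro v
      obtain ⟨u, hu, h⟩ := xetr_dec U v
      exact ⟨u, v - u, hu, h, by abel⟩
  refine ⟨LinearMap.toMatrix' (U.projection W hc), fun X hX => ?_, fun u hu => ?_, fun v => ?_⟩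
  · apply Matrix.toLin'.injective
    refine LinearMap.ext fun v => ?_
    obtain ⟨u, hu, h⟩ := xetr_dec U v
    have hw : v - u ∈ W := h
    have hv : v = u + (v - u) := by abel
    simp only [Matrix.toLin'_apply, ← mulVec_mulVec, LinearMap.toMatrix'_mulVec]
    rw [hv, mulVec_add, map_add, map_add, Submodule.projection_apply_of_mem_left hc hu,
      Submodule.projection_apply_of_mem_left hc (hU X hX u hu),
      Submodule.projection_apply_of_mem_right hc hw,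
      Submodule.projection_apply_of_mem_right hc (hW X hX _ hw), add_zero, add_zero]
  · rw [LinearMap.toMatrix'_mulVec, Submodule.projection_apply_of_mem_left hc hu]
  · rw [LinearMap.toMatrix'_mulVec]
    exact Submodule.projection_apply_mem hc v

end Pool.Agent.MP_f58063_ag

end
end

section

open Complex Filter Topology Matrix Function Asymptotics

noncomputable section

namespace Pool.Agent.MP_f58063_ag

variable {n : Type} [Fintype n] [DecidableEq n] {N C D : Submodule ℂ (Matrix n n ℂ)}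

open scoped ComplexOrder in
omit [DecidableEq n] in
theorem xeredazero {a : Matrix n n ℂ} (h : trace (aᴴ * a) = 0) : a = 0 :=
  Matrix.trace_conjTranspose_mul_self_eq_zero_iff.1 h

/-- the orthogonal complement of `C` inside `N` -/
def xeredaperp (N C : Submodule ℂ (Matrix n n ℂ)) : Submodule ℂ (Matrix n n ℂ) where
  carrier := {b | b ∈ N ∧ ∀ a ∈ C, trace (aᴴ * b) = 0}
  add_mem' := by
    rintro x y ⟨hx, hx'⟩ ⟨hy, hy'⟩
    refine ⟨N.add_mem hx hy, fun a ha => ?_⟩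
    rw [Matrix.mul_add, trace_add, hx' a ha, hy' a ha, add_zero]
  zero_mem' := ⟨N.zero_mem, fun a _ => by simp⟩
  smul_mem' := by
    rintro c x ⟨hx, hx'⟩
    refine ⟨N.smul_mem c hx, fun a ha => ?_⟩
    rw [Matrix.mul_smul, trace_smul, hx' a ha, smul_zero]

/-- matrices as vectors of a Euclidean space -/
def xeredaeu : Matrix n n ℂ →ₗ[ℂ] EuclideanSpace ℂ (n × n) where
  toFun a := WithLp.toLp 2 (fun p => a p.1 p.2)
  map_add' a b := by ext p; simp
  map_smul' c a := by ext p; simp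

omit [DecidableEq n] in
theorem xeredainner (a b : Matrix n n ℂ) :
    inner ℂ (xeredaeu a) (xeredaeu b) = trace (aᴴ * b) := by
  simp only [xeredaeu, LinearMap.coe_mk, AddHom.coe_mk, PiLp.inner_apply, RCLike.inner_apply,
    trace, diag, Matrix.mul_apply, conjTranspose_apply, Fintype.sum_prod_type]
  rw [Finset.sum_comm]
  refine Finset.sum_congr rfl fun i _ => Finset.sum_congr rfl fun j _ => ?_
  rw [mul_comm]; rfl

theorem xeredasplit (hC : C ≤ N) {X : Matrix n n ℂ} (hX : X ∈ N) :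
    ∃ a ∈ C, ∃ b ∈ xeredaperp N C, X = a + b := by
  obtain ⟨y, hy, z, hz, hyz⟩ :=
    (C.map (xeredaeu (n := n))).exists_add_mem_mem_orthogonal (xeredaeu X)
  obtain ⟨a, ha, rfl⟩ := hy
  refine ⟨a, ha, X - a, ⟨N.sub_mem hX (hC ha), fun c hc => ?_⟩, by abel⟩
  rw [← xeredainner, map_sub, hyz, add_sub_cancel_left]
  exact (Submodule.mem_orthogonal _ _).1 hz _ ⟨c, hc, rfl⟩

theorem xeredaid (h : Red N) (hC : IsId N C) : IsId N (xeredaperp N C) := by
  refine ⟨fun b hb => hb.1, fun X hX b hb => ⟨h.lie X hX b hb.1, fun a ha => ?_⟩⟩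
  have h1 := hb.2 _ (hC.2 Xᴴ (h.star X hX) a ha)
  rw [conjTranspose_sub, conjTranspose_mul, conjTranspose_mul, conjTranspose_conjTranspose,
    Matrix.sub_mul, trace_sub] at h1
  rw [Matrix.mul_sub, trace_sub, ← Matrix.mul_assoc, ← Matrix.mul_assoc,
    trace_mul_comm (aᴴ * b) X, ← Matrix.mul_assoc]
  exact h1

theorem xeredacomm (h : Red N) (hC : IsId N C) {a b : Matrix n n ℂ} (ha : a ∈ C)
    (hb : b ∈ xeredaperp N C) : a * b = b * a := by
  have h1 : a * b - b * a ∈ xeredaperp N C := (xeredaid h hC).2 a (hC.1 ha) b hb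
  have h2 : a * b - b * a ∈ C := by
    have := C.neg_mem (hC.2 b hb.1 a ha)
    rwa [neg_sub] at this
  exact sub_eq_zero.1 (xeredazero (h1.2 _ h2))

theorem xeredastar (h : Red N) (hC : IsId N C) {a : Matrix n n ℂ} (ha : a ∈ C) : aᴴ ∈ C := by
  have haN : aᴴ ∈ N := h.star a (hC.1 ha)
  obtain ⟨a1, ha1, b1, hb1, hab⟩ := xeredasplit hC.1 haN
  have key : ∀ b ∈ xeredaperp N C, aᴴ * b = b * aᴴ := by
    intro b hb
    have hX : aᴴ * b - b * aᴴ ∈ N := h.lie _ haN b hb.1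
    have gen : ∀ X ∈ N, trace (Xᴴ * (aᴴ * b - b * aᴴ)) = 0 := by
      intro X hX
      have h2 : a * X - X * a ∈ C := by
        have := C.neg_mem (hC.2 X hX a ha)
        rwa [neg_sub] at this
      have h1 := hb.2 _ h2
      rw [conjTranspose_sub, conjTranspose_mul, conjTranspose_mul, Matrix.sub_mul,
        trace_sub] at h1
      rw [Matrix.mul_sub, trace_sub, ← Matrix.mul_assoc, ← Matrix.mul_assoc,
        trace_mul_comm (Xᴴ * b) aᴴ, ← Matrix.mul_assoc]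
      exact h1
    exact sub_eq_zero.1 (xeredazero (gen _ hX))
  have hb : b1 = aᴴ - a1 := by rw [hab]; abel
  obtain ⟨c, hc⟩ := h.comm b1 (by
    intro X hX
    obtain ⟨x, hx, y, hy, rfl⟩ := xeredasplit hC.1 hX
    have e1 : b1 * x = x * b1 := (xeredacomm h hC hx hb1).symm
    have e2 : b1 * y = y * b1 := by
      rw [hb, Matrix.sub_mul, Matrix.mul_sub, key y hy, xeredacomm h hC ha1 hy]
    rw [Matrix.mul_add, Matrix.add_mul, e1, e2])
  have h0 : b1 = 0 := by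
    apply xeredazero
    have ht : trace b1ᴴ = 0 := h.tr _ (h.star _ hb1.1)
    calc trace (b1ᴴ * b1) = trace (b1ᴴ * (c • (1 : Matrix n n ℂ))) := by rw [← hc]
      _ = 0 := by rw [Matrix.mul_smul, Matrix.mul_one, trace_smul, ht, smul_zero]
  rw [hab, h0, add_zero]
  exact ha1

theorem xeredaadjcomm {c : Matrix n n ℂ} (hc : ∀ a ∈ C, a * c = c * a) :
    ∀ b ∈ Algebra.adjoin ℂ (C : Set (Matrix n n ℂ)), c * b = b * c := by
  intro b hb
  exact (Algebra.commute_of_mem_adjoin_of_forall_mem_commute hb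
    (fun a ha => (hc a ha).symm)).eq

theorem xeredaadjstar (h : Red N) (hC : IsId N C) :
    ∀ b ∈ Algebra.adjoin ℂ (C : Set (Matrix n n ℂ)),
      bᴴ ∈ Algebra.adjoin ℂ (C : Set (Matrix n n ℂ)) := by
  intro b hb
  induction hb using Algebra.adjoin_induction with
  | mem x hx => exact Algebra.subset_adjoin (xeredastar h hC hx)
  | algebraMap r =>
    rw [Algebra.algebraMap_eq_smul_one, conjTranspose_smul, conjTranspose_one]
    exact Subalgebra.smul_mem _ (Subalgebra.one_mem _) _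
  | add x y _ _ hx hy => rw [conjTranspose_add]; exact Subalgebra.add_mem _ hx hy
  | mul x y _ _ hx hy => rw [conjTranspose_mul]; exact Subalgebra.mul_mem _ hy hx

theorem xeredaadjcent (h : Red N) (hC : IsId N C) :
    ∀ z ∈ Algebra.adjoin ℂ (C : Set (Matrix n n ℂ)),
      (∀ a ∈ Algebra.adjoin ℂ (C : Set (Matrix n n ℂ)), z * a = a * z) →
        ∃ c : ℂ, z = c • (1 : Matrix n n ℂ) := by
  intro z hz hza
  refine h.comm z fun X hX => ?_
  obtain ⟨x, hx, y, hy, rfl⟩ := xeredasplit hC.1 hX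
  have e1 : z * x = x * z := hza x (Algebra.subset_adjoin hx)
  have e2 : z * y = y * z :=
    (xeredaadjcomm (fun a ha => xeredacomm h hC ha hy) z hz).symm
  rw [Matrix.mul_add, Matrix.add_mul, e1, e2]

theorem Red.compl (h : Red N) (hC : IsId N C) :
    ∃ C', IsId N C' ∧ (∀ X ∈ N, ∃ a ∈ C, ∃ b ∈ C', X = a + b) ∧
      (∀ a ∈ C, ∀ b ∈ C', a * b = b * a) ∧ ∀ a ∈ C, aᴴ ∈ C :=
  ⟨xeredaperp N C, xeredaid h hC, fun _ hX => xeredasplit hC.1 hX,
    fun _ ha _ hb => xeredacomm h hC ha hb, fun _ ha => xeredastar h hC ha⟩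

theorem Red.dich (h : Red N) (hC : IsId N C) {μ : Matrix n n ℂ} (hμ : μ ∈ N) (h1 : μ * μ = 1) :
    μ ∈ C ∨ ∃ C', IsId N C' ∧ μ ∈ C' ∧ ∀ a ∈ C, ∀ b ∈ C', a * b = b * a := by
  obtain ⟨a, ha, b, hb, rfl⟩ := xeredasplit hC.1 hμ
  rcases sq_dich (Algebra.adjoin ℂ (C : Set (Matrix n n ℂ))) (xeredaadjstar h hC)
    (xeredaadjcent h hC) (Algebra.subset_adjoin ha)
    (xeredaadjcomm (fun x hx => xeredacomm h hC hx hb)) (h.tr a (hC.1 ha)) (h.tr b hb.1) h1
    with h0 | h0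
  · right
    refine ⟨xeredaperp N C, xeredaid h hC, ?_, fun _ hx _ hy => xeredacomm h hC hx hy⟩
    rw [h0, zero_add]; exact hb
  · left
    rw [h0, add_zero]; exact ha

theorem Red.dim (h : Red N) (hC : IsId N C) (hD : ∀ a ∈ C, ∀ b ∈ D, a * b = b * a) :
    Module.finrank ℂ C * Module.finrank ℂ D ≤ Fintype.card n ^ 2 :=
  dim_ineq (Algebra.adjoin ℂ (C : Set (Matrix n n ℂ))) (xeredaadjstar h hC)
    (xeredaadjcent h hC) C D (fun _ ha => Algebra.subset_adjoin ha)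
    (fun c hc => xeredaadjcomm (fun a ha => hD a ha c hc))

end Pool.Agent.MP_f58063_ag

end
end

section

open Complex Filter Topology Matrix Function Asymptotics

noncomputable section

namespace Pool.Agent.MP_f58063_ag

variable {g : ℕ} {N : Submodule ℂ (Matrix (LL g) (LL g) ℂ)}

/-- the image of a subspace under a semilinear ring automorphism -/
def xecoreaIm (σ : ℂ ≃+* ℂ) (ψ : Matrix (LL g) (LL g) ℂ ≃+* Matrix (LL g) (LL g) ℂ)
    (h : ∀ (z : ℂ) X, ψ (z • X) = σ z • ψ X) (A : Submodule ℂ (Matrix (LL g) (LL g) ℂ)) :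
    Submodule ℂ (Matrix (LL g) (LL g) ℂ) where
  carrier := {X | ψ.symm X ∈ A}
  add_mem' := fun {a b} ha hb => by
    change ψ.symm (a + b) ∈ A
    rw [map_add]
    exact A.add_mem ha hb
  zero_mem' := by
    change ψ.symm 0 ∈ A
    rw [map_zero]
    exact A.zero_mem
  smul_mem' := fun c a ha => by
    change ψ.symm (c • a) ∈ A
    have e : ψ.symm (c • a) = σ.symm c • ψ.symm a := by
      apply ψ.injective
      rw [h, ψ.apply_symm_apply, ψ.apply_symm_apply, σ.apply_symm_apply]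
    rw [e]
    exact A.smul_mem _ ha

lemma xecorea_finrank (σ : ℂ ≃+* ℂ) (ψ : Matrix (LL g) (LL g) ℂ ≃+* Matrix (LL g) (LL g) ℂ)
    (h : ∀ (z : ℂ) X, ψ (z • X) = σ z • ψ X) (A : Submodule ℂ (Matrix (LL g) (LL g) ℂ)) :
    Module.finrank ℂ A = Module.finrank ℂ (xecoreaIm σ ψ h A) := by
  let j : A ≃+ xecoreaIm σ ψ h A :=
    { toFun := fun X => ⟨ψ X, by
        change ψ.symm (ψ X) ∈ A
        rw [ψ.symm_apply_apply]
        exact X.2⟩
      invFun := fun X => ⟨ψ.symm X, X.2⟩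
      left_inv := fun X => Subtype.ext (ψ.symm_apply_apply X)
      right_inv := fun X => Subtype.ext (ψ.apply_symm_apply X)
      map_add' := fun X Y => Subtype.ext (map_add ψ X.1 Y.1) }
  exact congrArg Cardinal.toNat
    (rank_eq_of_equiv_equiv σ j σ.bijective fun r m => Subtype.ext (h r m))

lemma xecorea_up (Z : Matrix (Fin g) (Fin g) ℂ) :
    up Z * Eta g - Eta g * up Z = (2 : ℂ) • up Z := by
  simp only [up, Eta, fromBlocks_multiply]
  ext (a | a) (b | b) <;> simp [two_mul]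

lemma xecorea_dim (hg : 0 < g) {A : Submodule ℂ (Matrix (LL g) (LL g) ℂ)} (hA : IsId N A)
    (hη : Eta g ∈ A) : Module.finrank ℂ (upW N) < Module.finrank ℂ A := by
  let u : Matrix (Fin g) (Fin g) ℂ →ₗ[ℂ] Matrix (LL g) (LL g) ℂ :=
    { toFun := up, map_add' := up_add, map_smul' := up_smul }
  have hu : Injective u := fun Z Z' h => (fromBlocks_inj.1 h).2.1
  rw [(Submodule.equivMapOfInjective u hu (upW N)).finrank_eq]
  refine Submodule.finrank_lt_finrank_of_lt (lt_of_le_of_ne ?_ fun h => ?_)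
  · rintro _ ⟨Z, hZ, rfl⟩
    have h1 := hA.2 _ hZ _ hη
    rw [xecorea_up] at h1
    exact (A.smul_mem_iff two_ne_zero).1 h1
  · obtain ⟨Z, -, hZ⟩ : Eta g ∈ (upW N).map u := h ▸ hη
    have h1 : up Z (.inl ⟨0, hg⟩) (.inl ⟨0, hg⟩) = Eta g (.inl ⟨0, hg⟩) (.inl ⟨0, hg⟩) :=
      congrFun (congrFun hZ _) _
    simp [up, Eta] at h1

/-- every ideal that contains the grading element is irreducible -/
theorem core_comm (hN : Red N) (hη : Eta g ∈ N)
    (φ : (ℂ ≃+* ℂ) → Matrix (LL g) (LL g) ℂ ≃+* Matrix (LL g) (LL g) ℂ)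
    (hφ : ∀ σ (z : ℂ) X, φ σ (z • X) = σ z • φ σ X) (hφN : ∀ σ X, φ σ X ∈ N ↔ X ∈ N)
    (hH : ∀ C : Submodule ℂ (Matrix (LL g) (LL g) ℂ), (∀ σ, ∀ X ∈ C, φ σ X ∈ C) →
      (∀ X ∈ C, X * Eta g = Eta g * X) → ∀ X ∈ C, ∃ z : ℂ, X = z • (1 : Matrix (LL g) (LL g) ℂ))
    (hg : 0 < g) (hd : 2 * g ≤ Module.finrank ℂ (upW N)) {C : Submodule ℂ (Matrix (LL g) (LL g) ℂ)}
    (hC : IsId N C) (hηC : Eta g ∈ C) {T : Matrix (LL g) (LL g) ℂ} (hT : ∀ X ∈ C, T * X = X * T) :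
    ∃ z : ℂ, T = z • (1 : Matrix (LL g) (LL g) ℂ) := by
  set A : Submodule ℂ (Matrix (LL g) (LL g) ℂ) := sInf {B | IsId N B ∧ Eta g ∈ B} with hAdef
  have hle : ∀ B, IsId N B → Eta g ∈ B → A ≤ B := fun B h1 h2 => sInf_le ⟨h1, h2⟩
  have hAη : Eta g ∈ A := Submodule.mem_sInf.2 fun B hB => hB.2
  have hA : IsId N A := ⟨(hle C hC hηC).trans hC.1, fun X hX Y hY =>
    Submodule.mem_sInf.2 fun B hB => hB.1.2 X hX Y (hle B hB.1 hB.2 hY)⟩
  have hdim := hd.trans_lt (xecorea_dim hg hA hAη)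
  have key : ∀ σ, ∀ X ∈ A, (φ σ).symm X ∈ A := by
    intro σ
    have h1 : IsId N (xecoreaIm σ (φ σ) (hφ σ) A) := by
      refine ⟨fun X hX => ?_, fun X hX Y hY => ?_⟩
      · have := (hφN σ _).2 (hA.1 hX)
        rwa [RingEquiv.apply_symm_apply] at this
      · change (φ σ).symm _ ∈ A
        rw [map_sub, map_mul, map_mul]
        refine hA.2 _ ((hφN σ _).1 ?_) _ hY
        rwa [RingEquiv.apply_symm_apply]
    have h2 : Eta g * Eta g = 1 := by simp [Eta, fromBlocks_multiply]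
    rcases hN.dich h1 hη h2 with h3 | ⟨C', h3, h4, h5⟩
    · exact hle _ h1 h3
    · have h6 := hN.dim h1 (D := A) fun a ha b hb => h5 a ha b (hle C' h3 h4 hb)
      rw [← xecorea_finrank, Fintype.card_sum, Fintype.card_fin, ← two_mul, sq] at h6
      exact absurd h6 (not_le.2 (Nat.mul_self_lt_mul_self hdim))
  let Cm : Submodule ℂ (Matrix (LL g) (LL g) ℂ) :=
    { carrier := {T | ∀ X ∈ A, T * X = X * T}
      add_mem' := fun {a b} ha hb X hX => by rw [add_mul, mul_add, ha X hX, hb X hX]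
      zero_mem' := fun X _ => by rw [zero_mul, mul_zero]
      smul_mem' := fun c a ha X hX => by rw [smul_mul_assoc, mul_smul_comm, ha X hX] }
  refine hH Cm (fun σ S hS X hX => ?_) (fun S hS => hS _ hAη) T fun X hX => hT X (hle C hC hηC hX)
  have := congrArg (φ σ) (hS _ (key σ X hX))
  rwa [map_mul, map_mul, RingEquiv.apply_symm_apply] at this

end Pool.Agent.MP_f58063_ag

end
end

section

open Complex Filter Topology Matrix Function Asymptotics

noncomputable section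

namespace Pool.Agent.MP_f58063_ag

variable {g : ℕ} {N : Submodule ℂ (Matrix (LL g) (LL g) ℂ)}

/-- lower left block -/
def xecorebLo (Z : Matrix (Fin g) (Fin g) ℂ) : Matrix (LL g) (LL g) ℂ := fromBlocks 0 0 Z 0

/-- diagonal blocks -/
def xecorebDg (a d : Matrix (Fin g) (Fin g) ℂ) : Matrix (LL g) (LL g) ℂ := fromBlocks a 0 0 d

lemma xecoreb_sub (a b c d a' b' c' d' : Matrix (Fin g) (Fin g) ℂ) :
    fromBlocks a b c d - fromBlocks a' b' c' d' = fromBlocks (a - a') (b - b') (c - c') (d - d') := by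
  simp only [sub_eq_add_neg, fromBlocks_neg, fromBlocks_add]

lemma xecoreb_up_star (Z : Matrix (Fin g) (Fin g) ℂ) : (up Z)ᴴ = xecorebLo Zᴴ := by
  simp [up, xecorebLo, fromBlocks_conjTranspose]

lemma xecoreb_lo_star (Z : Matrix (Fin g) (Fin g) ℂ) : (xecorebLo Z)ᴴ = up Zᴴ := by
  simp [up, xecorebLo, fromBlocks_conjTranspose]

lemma xecoreb_up_lo (x y : Matrix (Fin g) (Fin g) ℂ) :
    up x * xecorebLo y - xecorebLo y * up x = xecorebDg (x * y) (-(y * x)) := by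
  simp [up, xecorebLo, xecorebDg, fromBlocks_multiply, xecoreb_sub]

lemma xecoreb_dg_up (a d z : Matrix (Fin g) (Fin g) ℂ) :
    xecorebDg a d * up z - up z * xecorebDg a d = up (a * z - z * d) := by
  simp [up, xecorebDg, fromBlocks_multiply, xecoreb_sub]

lemma xecoreb_dg_lo (a d z : Matrix (Fin g) (Fin g) ℂ) :
    xecorebDg a d * xecorebLo z - xecorebLo z * xecorebDg a d = xecorebLo (d * z - z * a) := by
  simp [xecorebLo, xecorebDg, fromBlocks_multiply, xecoreb_sub]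

lemma xecoreb_eta (a b c d : Matrix (Fin g) (Fin g) ℂ) :
    fromBlocks a b c d * Eta g - Eta g * fromBlocks a b c d =
      (2 : ℂ) • fromBlocks 0 b (-c) 0 := by
  simp [Eta, fromBlocks_multiply, two_smul, fromBlocks_add, sub_eq_add_neg, fromBlocks_neg]

lemma xecoreb_split (a b c d : Matrix (Fin g) (Fin g) ℂ) :
    fromBlocks a b c d = xecorebDg a d + up b + xecorebLo c := by
  simp [up, xecorebLo, xecorebDg, fromBlocks_add]

lemma xecoreb_half {C : Submodule ℂ (Matrix (LL g) (LL g) ℂ)} {X : Matrix (LL g) (LL g) ℂ}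
    (h : (2 : ℂ) • X ∈ C) : X ∈ C := (C.smul_mem_iff two_ne_zero).1 h

lemma xecoreb_parts (hN : Red N) (hη : Eta g ∈ N) {a b c d : Matrix (Fin g) (Fin g) ℂ}
    (h : fromBlocks a b c d ∈ N) : xecorebDg a d ∈ N ∧ up b ∈ N ∧ xecorebLo c ∈ N := by
  have h1 := hN.lie _ h _ hη
  rw [xecoreb_eta] at h1
  have h2 := xecoreb_half h1
  have h3 := hN.lie _ h2 _ hη
  rw [xecoreb_eta, neg_neg] at h3
  have h4 := xecoreb_half h3
  have hb : up b ∈ N := by
    refine xecoreb_half ?_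
    have h5 := N.add_mem h4 h2
    convert h5 using 1
    simp [up, fromBlocks_add, two_smul]
  have hc : xecorebLo c ∈ N := by
    refine xecoreb_half ?_
    have h5 := N.sub_mem h4 h2
    convert h5 using 1
    simp [xecorebLo, xecoreb_sub, fromBlocks_add, two_smul]
  refine ⟨?_, hb, hc⟩
  have h5 := N.sub_mem (N.sub_mem h hc) hb
  rwa [xecoreb_split, add_sub_cancel_right, add_sub_cancel_right] at h5

lemma xecoreb_sp {a b c d : Matrix (Fin g) (Fin g) ℂ} (h : fromBlocks a b c d ∈ spK g ℂ) :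
    bᵀ = b ∧ cᵀ = c ∧ d = -aᵀ := by
  rw [mem_spK, J, fromBlocks_transpose, fromBlocks_multiply, fromBlocks_multiply, fromBlocks_add,
    ← fromBlocks_zero, fromBlocks_inj] at h
  obtain ⟨h1, -, h3, h4⟩ := h
  simp only [Matrix.mul_zero, Matrix.mul_one, Matrix.zero_mul, Matrix.one_mul, zero_add, add_zero,
    Matrix.neg_mul, Matrix.mul_neg] at h1 h3 h4
  exact ⟨(add_neg_eq_zero.1 h1).symm, (neg_add_eq_zero.1 h4).symm, eq_neg_of_add_eq_zero_left h3⟩

theorem core_jt (hN : Red N) (hsp : N ≤ spK g ℂ) : JT (upW N) := by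
  refine ⟨fun x hx => (xecoreb_sp (hsp hx)).1, fun x hx y hy z hz => ?_⟩
  have h1 := hN.star _ hy
  rw [xecoreb_up_star] at h1
  have h2 := hN.lie _ hx _ h1
  rw [xecoreb_up_lo] at h2
  have h3 := hN.lie _ h2 _ hz
  rw [xecoreb_dg_up] at h3
  rw [mem_upW]
  convert h3 using 2
  rw [Matrix.mul_neg, sub_neg_eq_add, Matrix.mul_assoc z]

/-- the off-diagonal elements -/
def xecorebT (N : Submodule ℂ (Matrix (LL g) (LL g) ℂ)) : Set (Matrix (LL g) (LL g) ℂ) :=
  {X | X ∈ N ∧ ∃ Z, X = up Z ∨ X = xecorebLo Z}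

lemma xecoreb_norm (hN : Red N) (hη : Eta g ∈ N) {P Y : Matrix (LL g) (LL g) ℂ}
    (hP : ∀ X ∈ xecorebT N, P * X = X * P) (hY : Y ∈ N) :
    ∀ X ∈ xecorebT N, (P * Y - Y * P) * X = X * (P * Y - Y * P) := by
  rw [← fromBlocks_toBlocks Y] at hY ⊢
  obtain ⟨hd, hb, hc⟩ := xecoreb_parts hN hη hY
  rw [xecoreb_split]
  set D := xecorebDg Y.toBlocks₁₁ Y.toBlocks₂₂ with hD
  have h1 := hP _ ⟨hb, _, Or.inl rfl⟩
  have h2 := hP _ ⟨hc, _, Or.inr rfl⟩
  have h3 : P * (D + up Y.toBlocks₁₂ + xecorebLo Y.toBlocks₂₁) -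
      (D + up Y.toBlocks₁₂ + xecorebLo Y.toBlocks₂₁) * P = P * D - D * P := by
    rw [mul_add, mul_add, add_mul, add_mul, h1, h2]; abel
  rw [h3]
  intro X hX
  have h4 : D * X - X * D ∈ xecorebT N := by
    refine ⟨hN.lie _ hd _ hX.1, ?_⟩
    obtain ⟨-, Z, rfl | rfl⟩ := hX
    · exact ⟨_, Or.inl (xecoreb_dg_up _ _ _)⟩
    · exact ⟨_, Or.inr (xecoreb_dg_lo _ _ _)⟩
  have h5 := hP _ h4
  have h6 := hP _ hX
  have h7 : (P * D - D * P) * X - X * (P * D - D * P) =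
      (P * (D * X - X * D) - (D * X - X * D) * P) + ((P * X - X * P) * D - D * (P * X - X * P)) := by
    noncomm_ring
  rw [← sub_eq_zero, h7, h5, h6]
  simp

lemma xecoreb_scal (hN : Red N) (hη : Eta g ∈ N) (hne : upW N ≠ ⊥)
    (hc : ∀ C, IsId N C → Eta g ∈ C → ∀ T : Matrix (LL g) (LL g) ℂ,
      (∀ X ∈ C, T * X = X * T) → ∃ z : ℂ, T = z • (1 : Matrix (LL g) (LL g) ℂ))
    {P : Matrix (LL g) (LL g) ℂ} (hP : ∀ X ∈ xecorebT N, P * X = X * P) :
    ∃ z : ℂ, P = z • (1 : Matrix (LL g) (LL g) ℂ) := by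
  let A : Submodule ℂ (Matrix (LL g) (LL g) ℂ) :=
    { carrier := {X | X ∈ N ∧ ∀ Q : Matrix (LL g) (LL g) ℂ,
        (∀ X ∈ xecorebT N, Q * X = X * Q) → Q * X = X * Q}
      add_mem' := fun {a b} ha hb => ⟨N.add_mem ha.1 hb.1, fun Q hQ => by
        rw [mul_add, add_mul, ha.2 Q hQ, hb.2 Q hQ]⟩
      zero_mem' := ⟨N.zero_mem, fun Q _ => by simp⟩
      smul_mem' := fun c a ha => ⟨N.smul_mem c ha.1, fun Q hQ => by
        rw [Matrix.mul_smul, Matrix.smul_mul, ha.2 Q hQ]⟩ }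
  have hA : IsId N A := by
    refine ⟨fun X hX => hX.1, fun Y hY X hX => ⟨hN.lie _ hY _ hX.1, fun Q hQ => ?_⟩⟩
    have h1 := hX.2 _ (xecoreb_norm hN hη hQ hY)
    have h2 := hX.2 _ hQ
    have h3 : Q * (Y * X - X * Y) - (Y * X - X * Y) * Q =
        ((Q * Y - Y * Q) * X - X * (Q * Y - Y * Q)) +
          (Y * (Q * X - X * Q) - (Q * X - X * Q) * Y) := by
      noncomm_ring
    rw [← sub_eq_zero, h3, h1, h2]
    simp
  have hηA : Eta g ∈ A := by
    have hsq : Eta g * Eta g = 1 := by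
      simp [Eta, fromBlocks_multiply]
    rcases hN.dich hA hη hsq with h | ⟨C', -, hC', hcm⟩
    · exact h
    · exfalso
      obtain ⟨Z, hZ, hZ0⟩ := (Submodule.ne_bot_iff _).1 hne
      have h1 : up Z ∈ A := ⟨hZ, fun Q hQ => hQ _ ⟨hZ, _, Or.inl rfl⟩⟩
      have h2 := hcm _ h1 _ hC'
      rw [← sub_eq_zero, up, xecoreb_eta, smul_eq_zero, ← fromBlocks_zero, fromBlocks_inj] at h2
      rcases h2 with h2 | h2
      · exact two_ne_zero h2
      · exact hZ0 h2.2.1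
  exact hc A hA hηA P fun X hX => hX.2 P hP

theorem core_irr (hN : Red N) (hη : Eta g ∈ N) (hne : upW N ≠ ⊥)
    (hc : ∀ C, IsId N C → Eta g ∈ C → ∀ T : Matrix (LL g) (LL g) ℂ,
      (∀ X ∈ C, T * X = X * T) → ∃ z : ℂ, T = z • (1 : Matrix (LL g) (LL g) ℂ)) :
    JIrr (upW N) := by
  intro U hU
  let U2 : Submodule ℂ (Fin g → ℂ) :=
    Submodule.span ℂ {v | ∃ y ∈ upW N, ∃ u ∈ U, v = yᴴ *ᵥ u}
  have hU2 : ∀ x ∈ upW N, ∀ v ∈ U2, x *ᵥ v ∈ U := by
    intro x hx v hv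
    induction hv using Submodule.span_induction with
    | mem v hv =>
      obtain ⟨y, hy, u, hu, rfl⟩ := hv
      rw [mulVec_mulVec]
      exact hU x hx y hy u hu
    | zero => rw [mulVec_zero]; exact U.zero_mem
    | add a b _ _ ha hb => rw [mulVec_add]; exact U.add_mem ha hb
    | smul c a _ ha => rw [mulVec_smul]; exact U.smul_mem c ha
  let V : Submodule ℂ (LL g → ℂ) :=
    { carrier := {v | v ∘ Sum.inl ∈ U ∧ v ∘ Sum.inr ∈ U2}
      add_mem' := fun {a b} ha hb => ⟨U.add_mem ha.1 hb.1, U2.add_mem ha.2 hb.2⟩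
      zero_mem' := ⟨U.zero_mem, U2.zero_mem⟩
      smul_mem' := fun c a ha => ⟨U.smul_mem c ha.1, U2.smul_mem c ha.2⟩ }
  have hst : ∀ X ∈ xecorebT N, Xᴴ ∈ xecorebT N := by
    intro X hX
    refine ⟨hN.star _ hX.1, ?_⟩
    obtain ⟨-, Z, rfl | rfl⟩ := hX
    · exact ⟨_, Or.inr (xecoreb_up_star Z)⟩
    · exact ⟨_, Or.inl (xecoreb_lo_star Z)⟩
  have hV : ∀ X ∈ xecorebT N, ∀ v ∈ V, X *ᵥ v ∈ V := by
    rintro X ⟨hX, Z, rfl | rfl⟩ v hv
    · rw [up, fromBlocks_mulVec]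
      refine ⟨?_, ?_⟩
      · rw [Sum.elim_comp_inl, zero_mulVec, zero_add]
        exact hU2 Z hX _ hv.2
      · rw [Sum.elim_comp_inr, zero_mulVec, zero_mulVec, zero_add]
        exact U2.zero_mem
    · have h1 := hN.star _ hX
      rw [xecoreb_lo_star] at h1
      rw [xecorebLo, fromBlocks_mulVec]
      refine ⟨?_, ?_⟩
      · rw [Sum.elim_comp_inl, zero_mulVec, zero_mulVec, zero_add]
        exact U.zero_mem
      · rw [Sum.elim_comp_inr, zero_mulVec, add_zero]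
        exact Submodule.subset_span ⟨Zᴴ, h1, _, hv.1, by rw [conjTranspose_conjTranspose]⟩
  obtain ⟨P, hP, hP1, hP2⟩ := proj_comm (xecorebT N) hst V hV
  obtain ⟨z, rfl⟩ := xecoreb_scal hN hη hne hc hP
  by_cases hz : z = 0
  · left
    refine (Submodule.eq_bot_iff _).2 fun u hu => ?_
    have h1 := hP1 (Sum.elim u 0) ⟨hu, U2.zero_mem⟩
    rw [hz, zero_smul, zero_mulVec] at h1
    exact (congrArg (· ∘ Sum.inl) h1).symm
  · right
    refine Submodule.eq_top_iff'.2 fun u => ?_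
    have h1 := hP2 (Sum.elim u 0)
    rw [smul_mulVec, one_mulVec, V.smul_mem_iff hz] at h1
    exact h1.1

theorem core_all (hN : Red N) {C : Submodule ℂ (Matrix (LL g) (LL g) ℂ)} (hC : IsId N C)
    (hη : Eta g ∈ C) (h : ∀ Z : Matrix (Fin g) (Fin g) ℂ, Zᵀ = Z → up Z ∈ N) :
    spK g ℂ ≤ C := by
  have hup : ∀ Z : Matrix (Fin g) (Fin g) ℂ, Zᵀ = Z → up Z ∈ C := fun Z hZ => by
    have h1 := hC.2 _ (h Z hZ) _ hη
    rw [up, xecoreb_eta, neg_zero] at h1
    exact xecoreb_half h1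
  have hlo : ∀ Z : Matrix (Fin g) (Fin g) ℂ, Zᵀ = Z → xecorebLo Z ∈ C := fun Z hZ => by
    have h0 : Zᴴᵀ = Zᴴ := by
      ext i j
      rw [transpose_apply, conjTranspose_apply, conjTranspose_apply, ← transpose_apply Z, hZ]
    have h1 := hN.star _ (h _ h0)
    rw [xecoreb_up_star, conjTranspose_conjTranspose] at h1
    have h2 := hC.2 _ h1 _ hη
    rw [xecorebLo, xecoreb_eta] at h2
    have h3 := C.neg_mem (xecoreb_half h2)
    rw [fromBlocks_neg, neg_neg, neg_zero] at h3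
    exact h3
  have hdg : ∀ x y : Matrix (Fin g) (Fin g) ℂ, xᵀ = x → yᵀ = y →
      xecorebDg (x * y) (-(x * y)ᵀ) ∈ C := fun x y hx hy => by
    have h1 := hC.2 _ (h x hx) _ (hlo y hy)
    rw [xecoreb_up_lo] at h1
    rwa [transpose_mul, hx, hy]
  have hall : ∀ a : Matrix (Fin g) (Fin g) ℂ, xecorebDg a (-aᵀ) ∈ C := by
    intro a
    induction a using Matrix.induction_on' with
    | h_zero => simp [xecorebDg]
    | h_add p q hp hq =>
      have h1 := C.add_mem hp hq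
      convert h1 using 1
      simp [xecorebDg, fromBlocks_add, add_comm]
    | h_std_basis i j c =>
      by_cases hij : i = j
      · subst hij
        have h1 := hdg (single i i c) 1 (transpose_single i i c) transpose_one
        rwa [Matrix.mul_one] at h1
      · have h1 := hdg (single i i c) (single i j 1 + single j i 1) (transpose_single i i c)
          (by rw [transpose_add, transpose_single, transpose_single, add_comm])
        rwa [Matrix.mul_add, single_mul_single_same, single_mul_single_of_ne _ _ _ _ hij, add_zero,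
          mul_one] at h1
  intro X hX
  rw [← fromBlocks_toBlocks X] at hX ⊢
  obtain ⟨h1, h2, h3⟩ := xecoreb_sp hX
  rw [xecoreb_split, h3]
  exact C.add_mem (C.add_mem (hall _) (hup _ h1)) (hlo _ h2)

end Pool.Agent.MP_f58063_ag

end
end

section

open Complex Filter Topology Matrix Function Asymptotics

noncomputable section

namespace Pool.Agent.MP_f58063_ag

/-- an element of minimal rank absorbs the elements that it divides on both sides -/
theorem xeja_eig {g : ℕ} {V : Submodule ℂ (Matrix (Fin g) (Fin g) ℂ)}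
    {x : Matrix (Fin g) (Fin g) ℂ} (hx : x ∈ V) (h0 : x ≠ 0)
    (hmin : ∀ y ∈ V, y ≠ 0 → x.rank ≤ y.rank) {y S T : Matrix (Fin g) (Fin g) ℂ} (hy : y ∈ V)
    (hS : y = x * S) (hT : y = T * x) : ∃ c : ℂ, y = c • x := by
  have hinv : ∀ v ∈ LinearMap.range x.mulVecLin, T.mulVecLin v ∈ LinearMap.range x.mulVecLin := by
    rintro _ ⟨u, rfl⟩
    refine ⟨S *ᵥ u, ?_⟩
    simp only [mulVecLin_apply, mulVec_mulVec]
    rw [← hS, ← hT]
  have hnt : Nontrivial (LinearMap.range x.mulVecLin) := by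
    refine Submodule.nontrivial_iff_ne_bot.2 fun h => h0 ?_
    rw [LinearMap.range_eq_bot] at h
    refine Matrix.toLin'.injective ?_
    rw [map_zero, toLin'_apply', h]
  obtain ⟨c, hc⟩ := Module.End.exists_eigenvalue (T.mulVecLin.restrict hinv)
  obtain ⟨⟨v, u, rfl⟩, hv⟩ := hc.exists_hasEigenvector
  have hv0 : x *ᵥ u ≠ 0 := fun h => hv.2 (Subtype.ext h)
  have hv1 : T *ᵥ (x *ᵥ u) = c • (x *ᵥ u) := congrArg Subtype.val hv.apply_eq_smul
  refine ⟨c, ?_⟩
  by_contra hne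
  have h1 := hmin (y - c • x) (V.sub_mem hy (V.smul_mem c hx)) (sub_ne_zero.2 hne)
  have hlt : LinearMap.ker x.mulVecLin < LinearMap.ker (y - c • x).mulVecLin := by
    refine lt_of_le_of_ne (fun w hw => ?_) fun h => hv0 ?_
    · rw [LinearMap.mem_ker, mulVecLin_apply] at hw ⊢
      rw [sub_mulVec, smul_mulVec, hT, ← mulVec_mulVec, hw]
      simp
    · have hu : u ∈ LinearMap.ker (y - c • x).mulVecLin := by
        rw [LinearMap.mem_ker, mulVecLin_apply, sub_mulVec, smul_mulVec, hT, ← mulVec_mulVec, hv1,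
          sub_self]
      rw [← h] at hu
      exact hu
  have h2 := Submodule.finrank_lt_finrank_of_lt hlt
  have h3 := LinearMap.finrank_range_add_finrank_ker x.mulVecLin
  have h4 := LinearMap.finrank_range_add_finrank_ker (y - c • x).mulVecLin
  simp only [Matrix.rank] at h1
  omega

theorem xeja_trace {g : ℕ} {x : Matrix (Fin g) (Fin g) ℂ} (h0 : x ≠ 0) :
    ∃ a : ℝ, 0 < a ∧ trace (xᴴ * x) = a := by
  refine ⟨∑ j, ∑ i, ‖x i j‖ ^ 2, ?_, ?_⟩
  · obtain ⟨i, j, hij⟩ : ∃ i j, x i j ≠ 0 := by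
      by_contra h
      push Not at h
      exact h0 (Matrix.ext h)
    refine Finset.sum_pos' (fun j _ => Finset.sum_nonneg fun i _ => by positivity)
      ⟨j, Finset.mem_univ j, Finset.sum_pos' (fun i _ => by positivity)
        ⟨i, Finset.mem_univ i, by positivity⟩⟩
  · simp only [trace, Matrix.diag_apply, mul_apply, conjTranspose_apply]
    push_cast
    refine Finset.sum_congr rfl fun j _ => Finset.sum_congr rfl fun i _ => ?_
    rw [← Complex.conj_mul']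
    rfl

/-- normalisation of an element with `x xᴴ x = c x` -/
theorem xeja_norm {g : ℕ} {x : Matrix (Fin g) (Fin g) ℂ} (h0 : x ≠ 0) {c : ℂ}
    (h : x * xᴴ * x = c • x) :
    ∃ t : ℂ, t ≠ 0 ∧ (t • x) * (t • x)ᴴ * (t • x) = t • x := by
  obtain ⟨a, ha, hta⟩ := xeja_trace h0
  have h1 : xᴴ * x ≠ 0 := fun h' => by
    rw [h', trace_zero] at hta
    exact ha.ne' (by exact_mod_cast hta.symm)
  obtain ⟨b, hb, htb⟩ := xeja_trace h1
  have h2 : (xᴴ * x)ᴴ * (xᴴ * x) = c • (xᴴ * x) := by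
    rw [conjTranspose_mul, conjTranspose_conjTranspose, Matrix.mul_assoc, ← Matrix.mul_assoc x, h,
      Matrix.mul_smul]
  rw [h2, trace_smul, hta, smul_eq_mul] at htb
  have ha' : (a : ℂ) ≠ 0 := by exact_mod_cast ha.ne'
  have hb' : (b : ℂ) ≠ 0 := by exact_mod_cast hb.ne'
  have hs : 0 < Real.sqrt (a / b) := Real.sqrt_pos.2 (div_pos ha hb)
  refine ⟨(Real.sqrt (a / b) : ℝ), by exact_mod_cast hs.ne', ?_⟩
  have hsq : ((Real.sqrt (a / b) : ℝ) : ℂ) * (Real.sqrt (a / b) : ℝ) = a / b := by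
    rw [← Complex.ofReal_mul, Real.mul_self_sqrt (div_pos ha hb).le]
    push_cast
    rfl
  rw [conjTranspose_smul, Matrix.smul_mul, Matrix.smul_mul, Matrix.mul_smul, Matrix.mul_smul,
    Matrix.smul_mul, h, smul_smul, smul_smul, smul_smul]
  congr 1
  have hst : star (((Real.sqrt (a / b) : ℝ) : ℂ)) = (Real.sqrt (a / b) : ℝ) := Complex.conj_ofReal _
  rw [hst, hsq]
  field_simp
  linear_combination ((Real.sqrt (a / b) : ℝ) : ℂ) * htb

/-- the elements of `W` that are orthogonal to a family -/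
def xejaV {g r : ℕ} (W : Submodule ℂ (Matrix (Fin g) (Fin g) ℂ))
    (e : Fin r → Matrix (Fin g) (Fin g) ℂ) : Submodule ℂ (Matrix (Fin g) (Fin g) ℂ) where
  carrier := {x | x ∈ W ∧ ∀ i, (e i)ᴴ * x = 0}
  add_mem' := fun ha hb => ⟨W.add_mem ha.1 hb.1, fun i => by
    rw [Matrix.mul_add, ha.2 i, hb.2 i, add_zero]⟩
  zero_mem' := ⟨W.zero_mem, fun i => Matrix.mul_zero _⟩
  smul_mem' := fun c _ ha => ⟨W.smul_mem c ha.1, fun i => by
    rw [Matrix.mul_smul, ha.2 i, smul_zero]⟩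

theorem xeja_quad {g : ℕ} {W : Submodule ℂ (Matrix (Fin g) (Fin g) ℂ)} (h : JT W)
    {x y : Matrix (Fin g) (Fin g) ℂ} (hx : x ∈ W) (hy : y ∈ W) : x * yᴴ * x ∈ W := by
  have h1 := W.smul_mem (1 / 2 : ℂ) (h.tri x hx y hy x hx)
  rwa [← two_smul ℂ, smul_smul, one_div, inv_mul_cancel₀ two_ne_zero, one_smul] at h1

theorem xeja_new {g r : ℕ} {W : Submodule ℂ (Matrix (Fin g) (Fin g) ℂ)} (h : JT W)
    (e : Fin r → Matrix (Fin g) (Fin g) ℂ) {x₀ : Matrix (Fin g) (Fin g) ℂ} (hx₀ : x₀ ∈ xejaV W e)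
    (h₀ : x₀ ≠ 0) :
    ∃ f ∈ xejaV W e, f ≠ 0 ∧ f * fᴴ * f = f ∧
      ∀ z ∈ W, ∃ c : ℂ, f * fᴴ * z * (fᴴ * f) = c • f := by
  obtain ⟨x, ⟨hx, h0⟩, hm⟩ := (InvImage.wf Matrix.rank wellFounded_lt).has_min
    {x | x ∈ xejaV W e ∧ x ≠ 0} ⟨x₀, hx₀, h₀⟩
  have hmin : ∀ y ∈ xejaV W e, y ≠ 0 → x.rank ≤ y.rank := fun y hy hy0 =>
    not_lt.1 (hm y ⟨hy, hy0⟩)
  have hV : ∀ f ∈ xejaV W e, ∀ S, f * S ∈ W → f * S ∈ xejaV W e := fun f hf S hS =>
    ⟨hS, fun i => by rw [← Matrix.mul_assoc, hf.2 i, Matrix.zero_mul]⟩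
  have h3 : x * xᴴ * x ∈ xejaV W e := by
    rw [Matrix.mul_assoc]
    refine hV x hx _ ?_
    rw [← Matrix.mul_assoc]
    exact xeja_quad h hx.1 hx.1
  obtain ⟨c, hc⟩ := xeja_eig hx h0 hmin h3 (Matrix.mul_assoc _ _ _) rfl
  obtain ⟨t, ht, htri⟩ := xeja_norm h0 hc
  have hf : t • x ∈ xejaV W e := (xejaV W e).smul_mem t hx
  have hf0 : t • x ≠ 0 := smul_ne_zero ht h0
  have hfmin : ∀ y ∈ xejaV W e, y ≠ 0 → (t • x).rank ≤ y.rank := by
    intro y hy hy0
    refine le_trans ?_ (hmin y hy hy0)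
    have : t • x = (t • (1 : Matrix (Fin g) (Fin g) ℂ)) * x := by
      rw [Matrix.smul_mul, Matrix.one_mul]
    rw [this]
    exact rank_mul_le_right _ _
  refine ⟨t • x, hf, hf0, htri, fun z hz => ?_⟩
  generalize t • x = f at hf hf0 hfmin
  have e1 : f * fᴴ * z * (fᴴ * f) = f * (f * zᴴ * f)ᴴ * f := by
    simp only [conjTranspose_mul, conjTranspose_conjTranspose, Matrix.mul_assoc]
  have e2 : f * fᴴ * z * (fᴴ * f) = f * (fᴴ * z * (fᴴ * f)) := by
    simp only [Matrix.mul_assoc]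
  have e3 : f * fᴴ * z * (fᴴ * f) = (f * fᴴ * z * fᴴ) * f := by
    simp only [Matrix.mul_assoc]
  have h4 : f * fᴴ * z * (fᴴ * f) ∈ xejaV W e := by
    rw [e2]
    refine hV f hf _ ?_
    rw [← e2, e1]
    exact xeja_quad h hf.1 (xeja_quad h hf.1 hz)
  exact xeja_eig hf hf0 hfmin h4 e2 e3

/-- families of orthogonal minimal tripotents -/
structure XejaF {g r : ℕ} (W : Submodule ℂ (Matrix (Fin g) (Fin g) ℂ))
    (e : Fin r → Matrix (Fin g) (Fin g) ℂ) : Prop where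
  mem : ∀ i, e i ∈ W
  ne : ∀ i, e i ≠ 0
  tri : ∀ i, e i * (e i)ᴴ * e i = e i
  orth : ∀ i j, i ≠ j → (e i)ᴴ * e j = 0
  min : ∀ i, ∀ x ∈ W, ∃ c : ℂ, e i * (e i)ᴴ * x * ((e i)ᴴ * e i) = c • e i

theorem xeja_bound {g r : ℕ} {W : Submodule ℂ (Matrix (Fin g) (Fin g) ℂ)}
    {e : Fin r → Matrix (Fin g) (Fin g) ℂ} (h : XejaF W e) :
    r ≤ Module.finrank ℂ (Matrix (Fin g) (Fin g) ℂ) := by
  have hli : LinearIndependent ℂ e := by
    refine Fintype.linearIndependent_iff.2 fun c hc j => ?_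
    have h1 := congrArg (fun y => e j * (e j)ᴴ * y) hc
    simp only [Matrix.mul_sum, Matrix.mul_smul, Matrix.mul_zero] at h1
    rw [Finset.sum_eq_single j (fun i _ hi => by
      rw [Matrix.mul_assoc, h.orth j i hi.symm, Matrix.mul_zero, smul_zero])
      (fun h' => absurd (Finset.mem_univ j) h'), h.tri] at h1
    exact (smul_eq_zero.1 h1).resolve_right (h.ne j)
  simpa using hli.fintype_card_le_finrank

theorem exists_Fram {g : ℕ} {W : Submodule ℂ (Matrix (Fin g) (Fin g) ℂ)} (h : JT W) :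
    ∃ (r : ℕ) (e : Fin r → Matrix (Fin g) (Fin g) ℂ), Fram W e := by
  by_contra hno
  have key : ∀ r : ℕ, ∃ e : Fin r → Matrix (Fin g) (Fin g) ℂ, XejaF W e := by
    intro r
    induction r with
    | zero => exact ⟨Fin.elim0, fun i => i.elim0, fun i => i.elim0, fun i => i.elim0,
        fun i => i.elim0, fun i => i.elim0⟩
    | succ r ih =>
      obtain ⟨e, he⟩ := ih
      obtain ⟨x, hx, hx1, hx0⟩ : ∃ x ∈ W, (∀ i, (e i)ᴴ * x = 0) ∧ x ≠ 0 := by
        by_contra hc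
        push Not at hc
        exact hno ⟨r, e, h, he.mem, he.ne, he.tri, he.orth, he.min, hc⟩
      obtain ⟨f, hf, hf0, hft, hfm⟩ := xeja_new h e (x₀ := x) ⟨hx, hx1⟩ hx0
      refine ⟨Fin.cons f e, fun i => ?_, fun i => ?_, fun i => ?_, fun i j => ?_, fun i => ?_⟩
      · exact Fin.cases hf.1 he.mem i
      · exact Fin.cases hf0 he.ne i
      · exact Fin.cases hft he.tri i
      · refine Fin.cases (Fin.cases (fun hij => absurd rfl hij) (fun j _ => ?_) j)
          (fun i => Fin.cases (fun _ => hf.2 i)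
            (fun j hij => he.orth i j fun h' => hij (congrArg Fin.succ h')) j) i
        have h1 := congrArg conjTranspose (hf.2 j)
        rw [conjTranspose_mul, conjTranspose_conjTranspose, conjTranspose_zero] at h1
        exact h1
      · exact Fin.cases hfm he.min i
  obtain ⟨e, he⟩ := key (Module.finrank ℂ (Matrix (Fin g) (Fin g) ℂ) + 1)
  have := xeja_bound he
  omega

end Pool.Agent.MP_f58063_ag

end
end

section

open Complex Filter Topology Matrix Function Asymptotics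

noncomputable section

namespace Pool.Agent.MP_f58063_ag

variable {g r : ℕ} {W : Submodule ℂ (Matrix (Fin g) (Fin g) ℂ)}
  {e : Fin r → Matrix (Fin g) (Fin g) ℂ}

theorem xejb_star {x : Matrix (Fin g) (Fin g) ℂ} (hx : xᵀ = x) (w : Fin g → ℂ) :
    xᴴ *ᵥ star w = star (x *ᵥ w) := by
  funext a
  have h : ∀ b, x b a = x a b := fun b => congrFun (congrFun hx a) b
  simp [mulVec, dotProduct, conjTranspose_apply, h]

theorem xejb_transpose {x : Matrix (Fin g) (Fin g) ℂ} (hx : xᵀ = x) : xᴴᵀ = xᴴ := by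
  ext a b
  have h : x a b = x b a := congrFun (congrFun hx b) a
  simp [conjTranspose_apply, h]

theorem Fram.real_vec (h : Fram W e) (i : Fin r) :
    ∃ u : Fin g → ℂ, u ≠ 0 ∧ e i *ᵥ u = star u := by
  have hs := h.jt.sym _ (h.mem i)
  have h1 : (e i)ᴴ * e i ≠ 0 := by
    intro h0
    have := h.tri i
    rw [Matrix.mul_assoc, h0, Matrix.mul_zero] at this
    exact h.ne i this.symm
  obtain ⟨w₀, hw⟩ : ∃ w₀, ((e i)ᴴ * e i) *ᵥ w₀ ≠ 0 := by
    by_contra h0
    push Not at h0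
    exact h1 (Matrix.ext_of_mulVec_single fun a => by rw [h0, zero_mulVec])
  set w := ((e i)ᴴ * e i) *ᵥ w₀ with hwd
  have h2 : (e i)ᴴ *ᵥ (e i *ᵥ w) = w := by
    rw [hwd, mulVec_mulVec, mulVec_mulVec, Matrix.mul_assoc, ← Matrix.mul_assoc (e i), h.tri]
  have h3 : e i *ᵥ star (e i *ᵥ w) = star w := by
    have := xejb_star hs (star (e i *ᵥ w))
    rw [star_star, h2] at this
    rw [← star_star (e i *ᵥ star (e i *ᵥ w)), ← this]
  by_cases h4 : w + star (e i *ᵥ w) = 0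
  · refine ⟨I • w, smul_ne_zero I_ne_zero hw, ?_⟩
    have h5 : e i *ᵥ w = -star w := by
      rw [← star_star (e i *ᵥ w), ← star_neg, eq_neg_of_add_eq_zero_right h4]
    rw [mulVec_smul, h5, star_smul]
    simp
  · exact ⟨_, h4, by rw [mulVec_add, h3, star_add, star_star, add_comm]⟩

open ComplexOrder in
theorem xejb_psd {L M : Matrix (Fin g) (Fin g) ℂ} (h : L * Lᴴ + Mᴴ * M = 0) : M = 0 := by
  have h1 := (posSemidef_self_mul_conjTranspose L).trace_nonneg
  have h2 := (posSemidef_conjTranspose_mul_self M).trace_nonneg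
  have h3 := congrArg trace h
  rw [trace_add, trace_zero] at h3
  exact trace_conjTranspose_mul_self_eq_zero_iff.1 ((add_eq_zero_iff_of_nonneg h1 h2).1 h3).2

theorem Fram.inj (h : Fram W e) {i : Fin r} {u : Fin g → ℂ} (hu : u ≠ 0)
    (hr : e i *ᵥ u = star u) {x : Matrix (Fin g) (Fin g) ℂ} (hx : x ∈ W) (h0 : x *ᵥ u = 0) :
    x * (e i)ᴴ = 0 := by
  have hs := h.jt.sym _ (h.mem i)
  have hsx := h.jt.sym _ hx
  have ht := h.tri i
  have hmin := h.min i
  have hmem := h.mem i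
  generalize e i = f at hs ht hmin hr hmem ⊢
  have hu' : star u ≠ 0 := star_ne_zero.2 hu
  have ht' : fᴴ * f * fᴴ = fᴴ := by
    have := congrArg conjTranspose ht
    simpa only [conjTranspose_mul, conjTranspose_conjTranspose, Matrix.mul_assoc] using this
  have t1 : ∀ y : Matrix (Fin g) (Fin g) ℂ, f * (fᴴ * (f * y)) = f * y := fun y => by
    rw [← Matrix.mul_assoc, ← Matrix.mul_assoc, ht]
  have t2 : ∀ y : Matrix (Fin g) (Fin g) ℂ, fᴴ * (f * (fᴴ * y)) = fᴴ * y := fun y => by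
    rw [← Matrix.mul_assoc, ← Matrix.mul_assoc, ht']
  have t3 : f * (fᴴ * f) = f := by rw [← Matrix.mul_assoc, ht]
  have t4 : fᴴ * (f * fᴴ) = fᴴ := by rw [← Matrix.mul_assoc, ht']
  have a1 : fᴴ *ᵥ star u = u := by rw [xejb_star hs, hr, star_star]
  have a2 : xᴴ *ᵥ star u = 0 := by rw [xejb_star hsx, h0, star_zero]
  have b1 : f * (fᴴ * (x * (fᴴ * f))) = 0 := by
    obtain ⟨c, hc⟩ := hmin x hx
    have h1 := congrArg (· *ᵥ u) hc
    simp only [← mulVec_mulVec, hr, a1, h0, mulVec_zero, smul_mulVec] at h1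
    have h2 : c = 0 := (smul_eq_zero.1 h1.symm).resolve_right hu'
    rw [h2, zero_smul] at hc
    simpa only [Matrix.mul_assoc] using hc
  have b2 : fᴴ * (f * (xᴴ * (f * fᴴ))) = 0 := by
    have := congrArg conjTranspose b1
    simpa only [conjTranspose_mul, conjTranspose_conjTranspose, Matrix.mul_assoc,
      conjTranspose_zero] using this
  have b3 : fᴴ * (x * (fᴴ * f)) = 0 := by rw [← t2, b1, Matrix.mul_zero]
  have b4 : f * (xᴴ * (f * fᴴ)) = 0 := by rw [← t1, b2, Matrix.mul_zero]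
  have b5 : fᴴ * (x * fᴴ) = 0 := by
    have : fᴴ * (x * fᴴ) = fᴴ * (x * (fᴴ * f)) * fᴴ := by simp only [Matrix.mul_assoc, t4]
    rw [this, b3, Matrix.zero_mul]
  have b6 : f * (xᴴ * f) = 0 := by
    have : f * (xᴴ * f) = f * (xᴴ * (f * fᴴ)) * f := by simp only [Matrix.mul_assoc, t3]
    rw [this, b4, Matrix.zero_mul]
  have b7 : ∀ y : Matrix (Fin g) (Fin g) ℂ, fᴴ * (x * (fᴴ * y)) = 0 := fun y => by
    rw [← Matrix.mul_assoc x, ← Matrix.mul_assoc, b5, Matrix.zero_mul]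
  have b8 : ∀ y : Matrix (Fin g) (Fin g) ℂ, f * (xᴴ * (f * y)) = 0 := fun y => by
    rw [← Matrix.mul_assoc xᴴ, ← Matrix.mul_assoc, b6, Matrix.zero_mul]
  have hx1 := h.jt.tri f hmem f hmem x hx
  obtain ⟨c, hc⟩ := hmin _ (h.jt.tri _ hx1 _ hx1 f hmem)
  simp only [conjTranspose_add, conjTranspose_mul, conjTranspose_conjTranspose, Matrix.mul_add,
    Matrix.add_mul, Matrix.mul_assoc, t1, t2, t3, b6, b7, b8, Matrix.mul_zero, add_zero,
    zero_add] at hc
  have h2 : c = 0 := by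
    have h1 := congrArg (· *ᵥ u) hc
    simp only [add_mulVec, ← mulVec_mulVec, hr, a1, a2, h0, mulVec_zero, smul_mulVec,
      add_zero] at h1
    exact (smul_eq_zero.1 h1.symm).resolve_right hu'
  rw [h2, zero_smul] at hc
  refine xejb_psd (L := f * fᴴ * x) ?_
  have h3 := congrArg (· * fᴴ) hc
  simpa only [conjTranspose_mul, conjTranspose_conjTranspose, Matrix.add_mul, Matrix.mul_assoc, t4,
    Matrix.zero_mul] using h3

open ComplexOrder in
theorem Fram.dim_lt (h : Fram W e) (hr : r ≤ 2) (hg : 0 < g) : Module.finrank ℂ W < 2 * g := by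
  choose u hu hu' using h.real_vec
  let Φ : W →ₗ[ℂ] (Fin r → Fin g → ℂ) :=
    { toFun := fun x i => (x : Matrix (Fin g) (Fin g) ℂ) *ᵥ u i
      map_add' := fun x y => by funext i; simp [add_mulVec]
      map_smul' := fun c x => by funext i; simp [smul_mulVec] }
  have hΦ : Injective Φ := by
    rw [injective_iff_map_eq_zero]
    intro x hx
    refine Subtype.ext (h.max x x.2 fun i => ?_)
    have h1 := congrArg transpose (h.inj (hu i) (hu' i) x.2 (congrFun hx i))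
    rwa [transpose_mul, xejb_transpose (h.jt.sym _ (h.mem i)), h.jt.sym _ x.2,
      transpose_zero] at h1
  have hd : Module.finrank ℂ (Fin r → Fin g → ℂ) = r * g := by
    rw [Module.finrank_pi_fintype]; simp
  rcases Nat.lt_or_ge r 2 with h2 | h2
  · have h3 := LinearMap.finrank_le_finrank_of_injective hΦ
    have h4 : r * g ≤ 1 * g := Nat.mul_le_mul_right g (by omega)
    omega
  · obtain rfl : r = 2 := by omega
    rw [← LinearMap.finrank_range_of_inj hΦ, ← hd]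
    refine Submodule.finrank_lt fun h3 => ?_
    obtain ⟨x, hx⟩ := LinearMap.range_eq_top.1 h3 ![star (u 1), 0]
    have h4 : (x : Matrix (Fin g) (Fin g) ℂ) *ᵥ u 0 = star (u 1) := congrFun hx 0
    have h5 : (x : Matrix (Fin g) (Fin g) ℂ) *ᵥ u 1 = 0 := congrFun hx 1
    have h6 : star (u 1) ⬝ᵥ u 1 = 0 := by
      rw [← h4, ← h.jt.sym _ x.2, mulVec_transpose, ← dotProduct_mulVec, h5, dotProduct_zero]
    exact hu 1 (dotProduct_star_self_eq_zero.1 h6)

end Pool.Agent.MP_f58063_ag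

end
end

section

open Complex Filter Topology Matrix Function Asymptotics
open scoped ComplexOrder

noncomputable section

namespace Pool.Agent.MP_f58063_ag

variable {g r : ℕ} {W : Submodule ℂ (Matrix (Fin g) (Fin g) ℂ)}
  {e : Fin r → Matrix (Fin g) (Fin g) ℂ} {x y a b : Matrix (Fin g) (Fin g) ℂ} {i j k : Fin r}

theorem xejc_tH (M : Matrix (Fin g) (Fin g) ℂ) : Mᴴᵀ = Mᵀᴴ := rfl

theorem xejc_eT (h : Fram W e) (i : Fin r) : (e i)ᵀ = e i := h.jt.sym _ (h.mem i)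

theorem xejc_fT (h : Fram W e) (i : Fin r) : (e i)ᴴᵀ = (e i)ᴴ := by
  rw [xejc_tH, xejc_eT h]

theorem Fram.orth' (h : Fram W e) (hij : i ≠ j) : e i * (e j)ᴴ = 0 := by
  have h1 := congrArg transpose (h.orth j i hij.symm)
  rwa [transpose_mul, xejc_eT h, xejc_fT h, transpose_zero] at h1

theorem xejc_efe (h : Fram W e) (i : Fin r) : e i * ((e i)ᴴ * e i) = e i := by
  rw [← Matrix.mul_assoc, h.tri]

theorem xejc_fef (h : Fram W e) (i : Fin r) : (e i)ᴴ * (e i * (e i)ᴴ) = (e i)ᴴ := by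
  have h1 := congrArg conjTranspose (h.tri i)
  rwa [conjTranspose_mul, conjTranspose_mul, conjTranspose_conjTranspose] at h1

theorem xejc_efe' (h : Fram W e) (i : Fin r) (z : Matrix (Fin g) (Fin g) ℂ) :
    e i * ((e i)ᴴ * (e i * z)) = e i * z := by
  rw [← Matrix.mul_assoc, ← Matrix.mul_assoc, h.tri]

theorem xejc_fef' (h : Fram W e) (i : Fin r) (z : Matrix (Fin g) (Fin g) ℂ) :
    (e i)ᴴ * (e i * ((e i)ᴴ * z)) = (e i)ᴴ * z := by
  rw [← Matrix.mul_assoc (e i), ← Matrix.mul_assoc, xejc_fef h]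

theorem xejc_fe' (h : Fram W e) (hij : i ≠ j) (z : Matrix (Fin g) (Fin g) ℂ) :
    (e i)ᴴ * (e j * z) = 0 := by
  rw [← Matrix.mul_assoc, h.orth i j hij, Matrix.zero_mul]

theorem xejc_ef' (h : Fram W e) (hij : i ≠ j) (z : Matrix (Fin g) (Fin g) ℂ) :
    e i * ((e j)ᴴ * z) = 0 := by
  rw [← Matrix.mul_assoc, h.orth' hij, Matrix.zero_mul]

theorem Fram.pp_mul (h : Fram W e) (i j : Fin r) :
    pp e i * pp e j = if i = j then pp e i else 0 := by
  split_ifs with hij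
  · subst hij
    simp only [pp, Matrix.mul_assoc, xejc_fef h]
  · simp only [pp, Matrix.mul_assoc, xejc_fe' h hij, Matrix.mul_zero]

theorem Fram.pp_star (e : Fin r → Matrix (Fin g) (Fin g) ℂ) (i : Fin r) :
    (pp e i)ᴴ = pp e i := by
  rw [pp, conjTranspose_mul, conjTranspose_conjTranspose]

theorem Fram.pp_transpose (h : Fram W e) (i : Fin r) : (pp e i)ᵀ = (e i)ᴴ * e i := by
  rw [pp, transpose_mul, xejc_eT h, xejc_fT h]

theorem xejc_half (hx : x + x ∈ W) : x ∈ W := by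
  have h1 := W.smul_mem (2⁻¹ : ℂ) hx
  rwa [← two_smul ℂ x, smul_smul, inv_mul_cancel₀ two_ne_zero, one_smul] at h1

theorem xejc_quad (h : Fram W e) (hx : x ∈ W) (hy : y ∈ W) : x * yᴴ * x ∈ W :=
  xejc_half (h.jt.tri x hx y hy x hx)

theorem xejc_D (h : Fram W e) (i : Fin r) (hx : x ∈ W) : pp e i * x + x * (pp e i)ᵀ ∈ W := by
  have h1 := h.jt.tri _ (h.mem i) _ (h.mem i) x hx
  rwa [h.pp_transpose, pp, ← Matrix.mul_assoc]

theorem xejc_diag (h : Fram W e) (i : Fin r) (hx : x ∈ W) : pp e i * x * (pp e i)ᵀ ∈ W := by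
  have h1 := xejc_quad h (h.mem i) (xejc_quad h (h.mem i) hx)
  rw [h.pp_transpose, pp]
  simpa only [conjTranspose_mul, conjTranspose_conjTranspose, Matrix.mul_assoc] using h1

/-- the antilinear map on the block `(i, j)` -/
def xejcS (e : Fin r → Matrix (Fin g) (Fin g) ℂ) (i j : Fin r) (x : Matrix (Fin g) (Fin g) ℂ) :
    Matrix (Fin g) (Fin g) ℂ :=
  e i * xᴴ * e j + e j * xᴴ * e i

theorem xejc_S_mem (h : Fram W e) (i j : Fin r) (hx : x ∈ W) : xejcS e i j x ∈ W :=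
  h.jt.tri _ (h.mem i) x hx _ (h.mem j)

theorem xejc_SS (h : Fram W e) (hij : i ≠ j) (x : Matrix (Fin g) (Fin g) ℂ) :
    xejcS e i j (xejcS e i j x) = pp e i * x * (pp e j)ᵀ + pp e j * x * (pp e i)ᵀ := by
  rw [h.pp_transpose, h.pp_transpose]
  simp only [xejcS, pp, conjTranspose_add, conjTranspose_mul,
    conjTranspose_conjTranspose, Matrix.mul_assoc, Matrix.mul_add,
    xejc_ef' h hij, xejc_ef' h hij.symm, zero_add, add_zero]

theorem xejc_SSS (h : Fram W e) (hij : i ≠ j) (x : Matrix (Fin g) (Fin g) ℂ) :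
    xejcS e i j (xejcS e i j (xejcS e i j x)) = xejcS e i j x := by
  rw [xejc_SS h hij (xejcS e i j x), h.pp_transpose, h.pp_transpose]
  simp only [xejcS, pp, Matrix.mul_assoc, Matrix.mul_add,
    xejc_fe' h hij, xejc_fe' h hij.symm, xejc_efe h, xejc_efe' h, zero_add, add_zero,
    Matrix.mul_zero]

theorem xejc_S_add (i j : Fin r) (x y : Matrix (Fin g) (Fin g) ℂ) :
    xejcS e i j (x + y) = xejcS e i j x + xejcS e i j y := by
  simp only [xejcS, conjTranspose_add, Matrix.mul_add, Matrix.add_mul]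
  abel

theorem xejc_S_I (i j : Fin r) (x y : Matrix (Fin g) (Fin g) ℂ) :
    xejcS e i j (I • (x - y)) = I • (xejcS e i j y - xejcS e i j x) := by
  simp only [xejcS, conjTranspose_smul, conjTranspose_sub, Matrix.mul_sub, Matrix.sub_mul,
    Matrix.mul_smul, Matrix.smul_mul, star_def, conj_I]
  module

theorem Fram.blk (h : Fram W e) (hij : i ≠ j) (hx : x ∈ W) :
    pp e i * x * (pp e j)ᵀ + pp e j * x * (pp e i)ᵀ ∈ W := by
  rw [← xejc_SS h hij]
  exact xejc_S_mem h i j (xejc_S_mem h i j hx)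

theorem xejc_blk (h : Fram W e) (i j : Fin r) (hx : x ∈ W) :
    pp e i * x * (pp e j)ᵀ + pp e j * x * (pp e i)ᵀ ∈ W := by
  by_cases hij : i = j
  · subst hij
    exact W.add_mem (xejc_diag h i hx) (xejc_diag h i hx)
  · exact h.blk hij hx

theorem xejc_p0T (e : Fin r → Matrix (Fin g) (Fin g) ℂ) : (p0 e)ᵀ = 1 - ∑ i, (pp e i)ᵀ := by
  rw [p0, transpose_sub, transpose_one, transpose_sum]

theorem Fram.blk0 (h : Fram W e) (i : Fin r) (hx : x ∈ W) :
    pp e i * x * (p0 e)ᵀ + p0 e * x * (pp e i)ᵀ ∈ W := by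
  have h1 := W.sub_mem (xejc_D h i hx)
    (W.sum_mem (t := Finset.univ) fun j _ => xejc_blk h i j hx)
  convert h1 using 1
  rw [xejc_p0T, p0, Finset.sum_add_distrib, Matrix.mul_sub, Matrix.sub_mul, Matrix.sub_mul,
    Matrix.mul_one, Matrix.one_mul, Matrix.mul_sum, Matrix.sum_mul, Matrix.sum_mul]
  abel

theorem xejc_f_p0 (h : Fram W e) (i : Fin r) : (e i)ᴴ * p0 e = 0 := by
  rw [p0, Matrix.mul_sub, Matrix.mul_one, Matrix.mul_sum, Finset.sum_eq_single i]
  · rw [pp, xejc_fef h, sub_self]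
  · intro j _ hj
    rw [pp, xejc_fe' h hj.symm]
  · intro hi
    exact absurd (Finset.mem_univ i) hi

theorem Fram.blk00 (h : Fram W e) (hx : x ∈ W) : p0 e * x * (p0 e)ᵀ = 0 := by
  refine h.max _ ?_ fun i => ?_
  · have h1 : ∑ i, (pp e i * x * (p0 e)ᵀ + p0 e * x * (pp e i)ᵀ) ∈ W :=
      W.sum_mem fun i _ => h.blk0 i hx
    have h2 : ∑ i, (pp e i * x + x * (pp e i)ᵀ) ∈ W := W.sum_mem fun i _ => xejc_D h i hx
    apply xejc_half
    have h3 := W.sub_mem (W.sub_mem (W.add_mem hx hx) h1) h2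
    convert h3 using 1
    rw [Finset.sum_add_distrib, Finset.sum_add_distrib, ← Matrix.sum_mul, ← Matrix.sum_mul,
      ← Matrix.mul_sum, ← Matrix.mul_sum, xejc_p0T, p0]
    simp only [Matrix.mul_sub, Matrix.sub_mul, Matrix.mul_one, Matrix.one_mul]
    abel
  · rw [← Matrix.mul_assoc, ← Matrix.mul_assoc, xejc_f_p0 h, Matrix.zero_mul, Matrix.zero_mul]

theorem Fram.RR_left (h : Fram W e) (ha : a ∈ RR W e i j) : pp e i * a = a := by
  obtain ⟨x, -, rfl⟩ := ha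
  simp only [pp, Matrix.mul_assoc, xejc_efe' h]

theorem Fram.RR_right (h : Fram W e) (ha : a ∈ RR W e i j) : a * pp e j = a := by
  obtain ⟨x, -, rfl⟩ := ha
  simp only [pp, Matrix.mul_assoc, xejc_fef h]

theorem Fram.RR_diag (h : Fram W e) (ha : a ∈ RR W e i i) : ∃ c : ℂ, a = c • pp e i := by
  obtain ⟨x, hx, rfl⟩ := ha
  obtain ⟨c, hc⟩ := h.min i x hx
  refine ⟨c, ?_⟩
  rw [pp, ← Matrix.smul_mul, ← hc]
  simp only [Matrix.mul_assoc, xejc_fef h]

theorem Fram.RR_star (h : Fram W e) (ha : a ∈ RR W e i j) : aᴴ ∈ RR W e j i := by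
  obtain ⟨x, hx, rfl⟩ := ha
  by_cases hij : i = j
  · subst hij
    refine ⟨_, xejc_quad h (h.mem i) hx, ?_⟩
    simp only [pp, conjTranspose_mul, conjTranspose_conjTranspose, Matrix.mul_assoc, xejc_efe' h]
  · refine ⟨_, xejc_S_mem h i j hx, ?_⟩
    simp only [xejcS, pp, conjTranspose_mul, conjTranspose_conjTranspose, Matrix.mul_assoc,
      Matrix.mul_add, xejc_efe' h, xejc_fe' h (Ne.symm hij), Matrix.mul_zero,
      zero_add]

theorem Fram.RR_mul (h : Fram W e) (hik : i ≠ k) (ha : a ∈ RR W e i j) (hb : b ∈ RR W e j k) :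
    a * b ∈ RR W e i k := by
  by_cases hij : i = j
  · subst hij
    obtain ⟨c, rfl⟩ := h.RR_diag ha
    rw [Matrix.smul_mul, h.RR_left hb]
    exact Submodule.smul_mem _ c hb
  by_cases hjk : j = k
  · subst hjk
    obtain ⟨c, rfl⟩ := h.RR_diag hb
    rw [Matrix.mul_smul, h.RR_right ha]
    exact Submodule.smul_mem _ c ha
  obtain ⟨x, hx, rfl⟩ := ha
  obtain ⟨y, hy, rfl⟩ := hb
  refine ⟨_, h.jt.tri x hx _ (h.mem j) _ (h.blk hjk hy), ?_⟩
  rw [h.pp_transpose, h.pp_transpose]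
  simp only [pp, Matrix.mul_assoc, Matrix.mul_add, add_mul,
    xejc_fe' h hij, xejc_fe' h hik, xejc_fe' h hjk, xejc_fef h, xejc_fef' h, Matrix.mul_zero,
    add_zero]

theorem xejc_unit (h : Fram W e) (hij : i ≠ j) (hy : y ∈ W) (hS : xejcS e i j y = y)
    (h0 : pp e i * y * (e j)ᴴ ≠ 0) :
    ∃ a ∈ RR W e i j, ∃ b ∈ RR W e j i, a * b = pp e i ∧ b * a = pp e j := by
  have ha : pp e i * y * (e j)ᴴ ∈ RR W e i j := ⟨y, hy, rfl⟩
  have hs : (pp e i * y * (e j)ᴴ)ᴴ = pp e j * y * (e i)ᴴ := by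
    conv_rhs => rw [← hS]
    simp only [xejcS, pp, conjTranspose_mul, conjTranspose_conjTranspose, Matrix.mul_assoc,
      Matrix.mul_add, xejc_efe' h, xejc_fe' h hij.symm, Matrix.mul_zero,
      zero_add]
  have h1 : pp e i * y * (e j)ᴴ * (pp e i * y * (e j)ᴴ)ᴴ ∈ RR W e i i := by
    refine ⟨_, xejc_quad h hy (h.mem j), ?_⟩
    rw [hs]
    simp only [pp, Matrix.mul_assoc, xejc_fef' h]
  have h2 : (pp e i * y * (e j)ᴴ)ᴴ * (pp e i * y * (e j)ᴴ) ∈ RR W e j j := by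
    refine ⟨_, xejc_quad h hy (h.mem i), ?_⟩
    rw [hs]
    simp only [pp, Matrix.mul_assoc, xejc_fef' h]
  generalize pp e i * y * (e j)ᴴ = a at ha h0 h1 h2
  obtain ⟨c, hc⟩ := h.RR_diag h1
  obtain ⟨d, hd⟩ := h.RR_diag h2
  have hc0 : c ≠ 0 := by
    rintro rfl
    rw [zero_smul] at hc
    exact h0 (self_mul_conjTranspose_eq_zero.1 hc)
  have hcd : c = d := by
    have h3 : c • a = d • a := by
      calc c • a = a * aᴴ * a := by rw [hc, Matrix.smul_mul, h.RR_left ha]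
        _ = d • a := by rw [Matrix.mul_assoc, hd, Matrix.mul_smul, h.RR_right ha]
    exact smul_left_injective ℂ h0 h3
  refine ⟨a, ha, c⁻¹ • aᴴ, Submodule.smul_mem _ _ (h.RR_star ha), ?_, ?_⟩
  · rw [Matrix.mul_smul, hc, smul_smul, inv_mul_cancel₀ hc0, one_smul]
  · rw [Matrix.smul_mul, hd, ← hcd, smul_smul, inv_mul_cancel₀ hc0, one_smul]

theorem Fram.RR_unit (h : Fram W e) (hij : i ≠ j) (hne : RR W e i j ≠ ⊥) :
    ∃ a ∈ RR W e i j, ∃ b ∈ RR W e j i, a * b = pp e i ∧ b * a = pp e j := by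
  obtain ⟨_, ⟨x, hx, rfl⟩, h0⟩ := Submodule.exists_mem_ne_zero_of_ne_bot hne
  have hs := xejc_S_mem h i j hx
  have hu := xejc_S_mem h i j hs
  have hu0 : pp e i * xejcS e i j (xejcS e i j x) * (e j)ᴴ = pp e i * x * (e j)ᴴ := by
    rw [xejc_SS h hij, h.pp_transpose, h.pp_transpose]
    simp only [pp, Matrix.mul_assoc, Matrix.mul_add,
      xejc_efe' h, xejc_fef h, xejc_fe' h hij, Matrix.mul_zero, add_zero]
  by_cases h1 : pp e i * (xejcS e i j (xejcS e i j x) + xejcS e i j x) * (e j)ᴴ = 0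
  · refine xejc_unit h hij (y := I • (xejcS e i j (xejcS e i j x) - xejcS e i j x))
      (W.smul_mem _ (W.sub_mem hu hs)) (by rw [xejc_S_I, xejc_SSS h hij]) fun h2 => h0 ?_
    rw [Matrix.mul_smul, Matrix.smul_mul, smul_eq_zero, Matrix.mul_sub, Matrix.sub_mul, hu0] at h2
    rw [Matrix.mul_add, Matrix.add_mul, hu0] at h1
    have h3 := h2.resolve_left I_ne_zero
    have h4 : (2 : ℂ) • (pp e i * x * (e j)ᴴ) = 0 := by
      rw [two_smul]
      nth_rewrite 2 [sub_eq_zero.1 h3]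
      exact h1
    exact (smul_eq_zero.1 h4).resolve_left two_ne_zero
  · exact xejc_unit h hij (W.add_mem hu hs)
      (by rw [xejc_S_add, xejc_SSS h hij, add_comm]) h1

end Pool.Agent.MP_f58063_ag

end
end

section

open Complex Filter Topology Matrix Function Asymptotics

noncomputable section

namespace Pool.Agent.MP_f58063_ag

variable {g r : ℕ} {W : Submodule ℂ (Matrix (Fin g) (Fin g) ℂ)}
  {e : Fin r → Matrix (Fin g) (Fin g) ℂ} {x y a : Matrix (Fin g) (Fin g) ℂ} {i j k : Fin r}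

theorem xejd_PE (h : Fram W e) (i : Fin r) : pp e i * e i = e i := h.tri i

theorem xejd_FP (h : Fram W e) (i : Fin r) : (e i)ᴴ * pp e i = (e i)ᴴ := by
  have := congrArg conjTranspose (xejd_PE h i)
  rwa [conjTranspose_mul, Fram.pp_star] at this

theorem xejd_EQ (h : Fram W e) (i : Fin r) : e i * (pp e i)ᵀ = e i := by
  rw [h.pp_transpose, ← Matrix.mul_assoc, h.tri]

theorem xejd_Qs (h : Fram W e) (i : Fin r) : ((pp e i)ᵀ)ᴴ = (pp e i)ᵀ := by
  rw [h.pp_transpose, conjTranspose_mul, conjTranspose_conjTranspose]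

theorem xejd_QF (h : Fram W e) (i : Fin r) : (pp e i)ᵀ * (e i)ᴴ = (e i)ᴴ := by
  have := congrArg conjTranspose (xejd_EQ h i)
  rwa [conjTranspose_mul, xejd_Qs h] at this

theorem xejd_PP (h : Fram W e) (i : Fin r) : pp e i * pp e i = pp e i := by
  rw [h.pp_mul, if_pos rfl]

theorem xejd_PE' (h : Fram W e) (hij : i ≠ j) : pp e i * e j = 0 := by
  rw [pp, Matrix.mul_assoc, h.orth i j hij, Matrix.mul_zero]

theorem xejd_P0s (e : Fin r → Matrix (Fin g) (Fin g) ℂ) : (p0 e)ᴴ = p0 e := by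
  simp only [p0, conjTranspose_sub, conjTranspose_one, conjTranspose_sum, Fram.pp_star]

theorem xejd_Q0s (e : Fin r → Matrix (Fin g) (Fin g) ℂ) : ((p0 e)ᵀ)ᴴ = (p0 e)ᵀ := by
  conv_rhs => rw [← xejd_P0s e]
  rfl

theorem xejd_P0P (h : Fram W e) (i : Fin r) : p0 e * pp e i = 0 := by
  simp only [p0, sub_mul, one_mul, Finset.sum_mul, h.pp_mul, Finset.sum_ite_eq', Finset.mem_univ,
    if_true, sub_self]

theorem xejd_PP0 (h : Fram W e) (i : Fin r) : pp e i * p0 e = 0 := by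
  have := congrArg conjTranspose (xejd_P0P h i)
  rwa [conjTranspose_mul, Fram.pp_star, xejd_P0s, conjTranspose_zero] at this

theorem xejd_P0P0 (h : Fram W e) : p0 e * p0 e = p0 e := by
  conv_lhs => enter [2]; rw [p0]
  simp only [mul_sub, mul_one, Finset.mul_sum, xejd_P0P h, Finset.sum_const_zero, sub_zero]

theorem xejd_Q0Q0 (h : Fram W e) : (p0 e)ᵀ * (p0 e)ᵀ = (p0 e)ᵀ := by
  rw [← transpose_mul, xejd_P0P0 h]

theorem xejd_Q0Q (h : Fram W e) (i : Fin r) : (p0 e)ᵀ * (pp e i)ᵀ = 0 := by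
  rw [← transpose_mul, xejd_PP0 h, transpose_zero]

theorem xejd_QQ0 (h : Fram W e) (i : Fin r) : (pp e i)ᵀ * (p0 e)ᵀ = 0 := by
  rw [← transpose_mul, xejd_P0P h, transpose_zero]

theorem xejd_FP0 (h : Fram W e) (i : Fin r) : (e i)ᴴ * p0 e = 0 := by
  rw [← xejd_FP h, Matrix.mul_assoc, xejd_PP0 h, Matrix.mul_zero]

theorem xejd_EQ0 (h : Fram W e) (i : Fin r) : e i * (p0 e)ᵀ = 0 := by
  rw [← xejd_EQ h, Matrix.mul_assoc, xejd_QQ0 h, Matrix.mul_zero]

theorem xejd_Q0F (h : Fram W e) (i : Fin r) : (p0 e)ᵀ * (e i)ᴴ = 0 := by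
  rw [← xejd_QF h, ← Matrix.mul_assoc, xejd_Q0Q h, Matrix.zero_mul]

theorem xejd_one (e : Fin r → Matrix (Fin g) (Fin g) ℂ) : ∑ j, pp e j + p0 e = 1 := by
  rw [p0, add_sub_cancel]

theorem xejd_one' (h : Fram W e) : ∑ j, (e j)ᴴ * e j + (p0 e)ᵀ = 1 := by
  have := congrArg transpose (xejd_one e)
  simpa only [transpose_add, transpose_sum, h.pp_transpose, transpose_one] using this

theorem xejd_as {u v w : Matrix (Fin g) (Fin g) ℂ} (h : u * v = w) (t : Matrix (Fin g) (Fin g) ℂ) :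
    u * (v * t) = w * t := by
  rw [← Matrix.mul_assoc, h]

theorem xejd_blk0s (h : Fram W e) (i : Fin r) (y : Matrix (Fin g) (Fin g) ℂ) :
    (pp e i * y * (p0 e)ᵀ + p0 e * y * (pp e i)ᵀ)ᴴ =
      (p0 e)ᵀ * yᴴ * pp e i + (pp e i)ᵀ * yᴴ * p0 e := by
  simp only [conjTranspose_add, conjTranspose_mul, xejd_Q0s, xejd_Qs h, xejd_P0s, Fram.pp_star,
    Matrix.mul_assoc]

theorem Fram.RR_A (h : Fram W e) (hij : i ≠ j) (hx : x ∈ W) (hy : y ∈ W) :
    pp e i * x * (p0 e)ᵀ * yᴴ * pp e j ∈ RR W e i j := by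
  refine ⟨_, h.jt.tri _ (h.blk0 i hx) _ (h.blk0 j hy) _ (h.mem j), ?_⟩
  have hE : e j * (e j)ᴴ = pp e j := rfl
  rw [xejd_blk0s h]
  simp only [mul_add, add_mul, Matrix.mul_assoc, xejd_as (xejd_PE' h hij), xejd_as (xejd_PP h i),
    xejd_as (xejd_PP0 h i), xejd_as (xejd_Q0Q0 h), xejd_as (xejd_Q0Q h j), hE, xejd_PP h j,
    zero_mul, mul_zero, add_zero]

theorem Fram.RR_B (h : Fram W e) (hij : i ≠ j) (hx : x ∈ W) (hy : y ∈ W) :
    e i * yᴴ * p0 e * x * (e j)ᴴ ∈ RR W e i j := by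
  refine ⟨_, h.jt.tri _ (h.mem i) _ (h.blk0 i hy) _ (h.blk0 j hx), ?_⟩
  rw [xejd_blk0s h]
  simp only [mul_add, add_mul, Matrix.mul_assoc, h.orth' hij, xejd_as (xejd_PE h i),
    xejd_as (xejd_EQ h i), xejd_as (xejd_EQ0 h i), xejd_as (xejd_P0P0 h), xejd_Q0F h j,
    xejd_QF h j, zero_mul, mul_zero, add_zero, zero_add]

theorem Fram.tp_A (h : Fram W e) (ha : a ∈ RR W e k i) (hx : x ∈ W) :
    ∃ x' ∈ W, a * x * (p0 e)ᵀ = pp e k * x' * (p0 e)ᵀ := by
  obtain ⟨z, hz, rfl⟩ := ha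
  refine ⟨_, h.jt.tri _ hz _ (h.mem i) _ (h.blk0 i hx), ?_⟩
  simp only [mul_add, add_mul, Matrix.mul_assoc, xejd_as (xejd_FP h i), xejd_as (xejd_FP0 h i),
    xejd_Q0Q0 h, xejd_as (xejd_Q0F h i), xejd_as (xejd_PP0 h k), zero_mul, mul_zero, add_zero]

theorem Fram.tp_B (h : Fram W e) (ha : a ∈ RR W e i k) (hx : x ∈ W) :
    ∃ x' ∈ W, p0 e * x * (e i)ᴴ * a = p0 e * x' * (e k)ᴴ := by
  obtain ⟨z, hz, rfl⟩ := ha
  refine ⟨_, h.jt.tri _ (h.blk0 i hx) _ (h.mem i) _ hz, ?_⟩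
  simp only [mul_add, add_mul, Matrix.mul_assoc, xejd_as (xejd_FP h i), xejd_as (xejd_FP0 h i),
    xejd_as (xejd_P0P0 h), xejd_as (xejd_P0P h i), xejd_as (xejd_QF h i), xejd_Q0F h k,
    zero_mul, mul_zero, add_zero, zero_add]

/-- the vectors that are sent into `U i` by `A i` and by all `B i y` -/
def xejdSub (W : Submodule ℂ (Matrix (Fin g) (Fin g) ℂ)) (U : Fin r → Submodule ℂ (Fin g → ℂ))
    (A : Fin r → Matrix (Fin g) (Fin g) ℂ)
    (B : Fin r → Matrix (Fin g) (Fin g) ℂ → Matrix (Fin g) (Fin g) ℂ) :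
    Submodule ℂ (Fin g → ℂ) where
  carrier := {v | ∀ i, A i *ᵥ v ∈ U i ∧ ∀ y ∈ W, B i y *ᵥ v ∈ U i}
  add_mem' := fun {u v} hu hv i => by
    simp only [mulVec_add]
    exact ⟨(U i).add_mem (hu i).1 (hv i).1, fun y hy =>
      (U i).add_mem ((hu i).2 y hy) ((hv i).2 y hy)⟩
  zero_mem' := fun i => by simp
  smul_mem' := fun c v hv i => by
    simp only [mulVec_smul]
    exact ⟨(U i).smul_mem c (hv i).1, fun y hy => (U i).smul_mem c ((hv i).2 y hy)⟩

theorem xejd_exp {U : Submodule ℂ (Fin g → ℂ)} {M O : Matrix (Fin g) (Fin g) ℂ}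
    {A B : Fin r → Matrix (Fin g) (Fin g) ℂ} (h1 : ∑ j, A j * B j + O = 1) {v : Fin g → ℂ}
    (h2 : ∀ j, (M * A j) *ᵥ (B j *ᵥ v) ∈ U) (h3 : (M * O) *ᵥ v ∈ U) : M *ᵥ v ∈ U := by
  have : M *ᵥ v = ∑ j, (M * A j) *ᵥ (B j *ᵥ v) + (M * O) *ᵥ v := by
    conv_lhs => rw [← Matrix.mul_one M, ← h1]
    simp only [mul_add, Finset.mul_sum, add_mulVec, sum_mulVec, mulVec_mulVec, Matrix.mul_assoc]
  rw [this]
  exact U.add_mem (U.sum_mem fun j _ => h2 j) h3

/-- invariant families of subspaces are trivial -/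
theorem Fram.inv (h : Fram W e) (hirr : JIrr W) (U : Fin r → Submodule ℂ (Fin g → ℂ))
    (hU : ∀ i, ∀ u ∈ U i, pp e i *ᵥ u = u)
    (h1 : ∀ i j, i ≠ j → ∀ a ∈ RR W e i j, ∀ u ∈ U j, a *ᵥ u ∈ U i)
    (h2 : ∀ i, ∀ x ∈ W, ∀ y ∈ W, ∀ u ∈ U i, (pp e i * x * (p0 e)ᵀ * yᴴ * pp e i) *ᵥ u ∈ U i)
    (h3 : ∀ i, ∀ x ∈ W, ∀ y ∈ W, ∀ u ∈ U i, (e i * yᴴ * p0 e * x * (e i)ᴴ) *ᵥ u ∈ U i) :
    (∀ i, U i = ⊥) ∨ ∀ i v, pp e i *ᵥ v ∈ U i := by
  have h1' : ∀ i j, ∀ a ∈ RR W e i j, ∀ u ∈ U j, a *ᵥ u ∈ U i := by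
    intro i j a ha u hu
    by_cases hij : i = j
    · subst hij
      obtain ⟨c, rfl⟩ := h.RR_diag ha
      rw [smul_mulVec, hU i u hu]
      exact (U i).smul_mem c hu
    · exact h1 i j hij a ha u hu
  have hone : ∑ j, pp e j * pp e j + p0 e = 1 := by
    simp only [xejd_PP h, xejd_one]
  have hA : ∀ x ∈ W, ∀ v ∈ xejdSub W U e fun i x => pp e i * x * (p0 e)ᵀ,
      x *ᵥ v ∈ xejdSub W U (pp e) fun i y => e i * yᴴ * p0 e := by
    intro x hx v hv i
    simp only [mulVec_mulVec]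
    refine ⟨xejd_exp (xejd_one' h) (fun j => h1' i j _ ⟨x, hx, rfl⟩ _ (hv j).1) ((hv i).2 x hx),
      fun y hy => xejd_exp (xejd_one' h) (fun j => ?_) ?_⟩
    · by_cases hij : i = j
      · subst hij
        exact h3 i x hx y hy _ (hv i).1
      · exact h1 i j hij _ (h.RR_B hij hx hy) _ (hv j).1
    · have : e i * yᴴ * p0 e * x * (p0 e)ᵀ = e i * yᴴ * (p0 e * x * (p0 e)ᵀ) := by
        simp only [Matrix.mul_assoc]
      rw [this, h.blk00 hx, Matrix.mul_zero, zero_mulVec]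
      exact (U i).zero_mem
  have hB : ∀ y ∈ W, ∀ v ∈ xejdSub W U (pp e) fun i y => e i * yᴴ * p0 e,
      yᴴ *ᵥ v ∈ xejdSub W U e fun i x => pp e i * x * (p0 e)ᵀ := by
    intro y hy v hv i
    simp only [mulVec_mulVec]
    refine ⟨xejd_exp hone (fun j => h1' i j _ ?_ _ (hv j).1) ((hv i).2 y hy),
      fun x hx => xejd_exp hone (fun j => ?_) ?_⟩
    · have := h.RR_star (i := j) (j := i) ⟨y, hy, rfl⟩
      rwa [conjTranspose_mul, conjTranspose_mul, conjTranspose_conjTranspose, Fram.pp_star,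
        ← Matrix.mul_assoc] at this
    · by_cases hij : i = j
      · subst hij
        exact h2 i x hx y hy _ (hv i).1
      · exact h1 i j hij _ (h.RR_A hij hx hy) _ (hv j).1
    · have : pp e i * x * (p0 e)ᵀ * yᴴ * p0 e = pp e i * x * (p0 e * y * (p0 e)ᵀ)ᴴ := by
        simp only [conjTranspose_mul, xejd_Q0s, xejd_P0s, Matrix.mul_assoc]
      rw [this, h.blk00 hy, conjTranspose_zero, Matrix.mul_zero, zero_mulVec]
      exact (U i).zero_mem
  rcases hirr (xejdSub W U (pp e) fun i y => e i * yᴴ * p0 e) (fun x hx y hy u hu => by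
    rw [← mulVec_mulVec]
    exact hA x hx _ (hB y hy u hu)) with h0 | h0
  · refine Or.inl fun i => ?_
    rw [eq_bot_iff, ← h0]
    intro u hu j
    refine ⟨?_, fun y _ => ?_⟩
    · rw [← hU i u hu, mulVec_mulVec, h.pp_mul]
      split_ifs with hji
      · subst hji
        rw [hU j u hu]
        exact hu
      · rw [zero_mulVec]
        exact (U j).zero_mem
    · rw [← hU i u hu, mulVec_mulVec, Matrix.mul_assoc, xejd_P0P h, Matrix.mul_zero, zero_mulVec]
      exact (U j).zero_mem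
  · refine Or.inr fun i v => ?_
    have hv : v ∈ xejdSub W U (pp e) fun i y => e i * yᴴ * p0 e := by
      rw [h0]
      exact Submodule.mem_top
    exact (hv i).1

/-- the vectors fixed by `P` if `c` holds, and zero otherwise -/
def xejdFix (P : Matrix (Fin g) (Fin g) ℂ) (c : Prop) : Submodule ℂ (Fin g → ℂ) where
  carrier := {u | P *ᵥ u = u ∧ (¬ c → u = 0)}
  add_mem' := fun {u v} hu hv => ⟨by rw [mulVec_add, hu.1, hv.1], fun hc => by
    rw [hu.2 hc, hv.2 hc, add_zero]⟩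
  zero_mem' := ⟨mulVec_zero _, fun _ => rfl⟩
  smul_mem' := fun s u hu => ⟨by rw [mulVec_smul, hu.1], fun hc => by rw [hu.2 hc, smul_zero]⟩

theorem xejd_ne (h : Fram W e) (i : Fin r) : ¬ ∀ v, pp e i *ᵥ v = 0 := by
  intro h0
  have hP : pp e i = 0 := by
    ext s t
    have := congrFun (h0 (Pi.single t 1)) s
    simpa using this
  exact h.ne i (by rw [← xejd_PE h i, hP, Matrix.zero_mul])

theorem Fram.conn (h : Fram W e) (hirr : JIrr W) (hij : i ≠ j) : RR W e i j ≠ ⊥ := by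
  intro hbot
  rcases h.inv hirr (fun k => xejdFix (pp e k) (k = i ∨ RR W e i k ≠ ⊥)) (fun k u hu => hu.1)
    (fun k l _ a ha u hu => ⟨by rw [mulVec_mulVec, h.RR_left ha], fun hk => by
      by_cases hl : l = i ∨ RR W e i l ≠ ⊥
      · have hki : i ≠ k := fun hh => hk (Or.inl hh.symm)
        have hk0 : RR W e i k = ⊥ := by
          by_contra hh
          exact hk (Or.inr hh)
        have hs := h.RR_star ha
        have ha0 : aᴴ = 0 := by
          by_cases hli : i = l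
          · subst hli
            rwa [hk0, Submodule.mem_bot] at hs
          · obtain ⟨b, hb, b', -, -, hbb⟩ := h.RR_unit hli
              (hl.resolve_left fun hh => hli hh.symm)
            have hm := h.RR_mul hki hb hs
            rw [hk0, Submodule.mem_bot] at hm
            rw [← h.RR_left hs, ← hbb, Matrix.mul_assoc, hm, Matrix.mul_zero]
        rw [conjTranspose_eq_zero] at ha0
        rw [ha0, zero_mulVec]
      · rw [hu.2 hl, mulVec_zero]⟩)
    (fun k x _ y _ u hu => ⟨by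
      simp only [mulVec_mulVec, Matrix.mul_assoc, xejd_as (xejd_PP h k)], fun hk => by
      rw [hu.2 hk, mulVec_zero]⟩)
    (fun k x _ y _ u hu => ⟨by
      simp only [mulVec_mulVec, Matrix.mul_assoc, xejd_as (xejd_PE h k)], fun hk => by
      rw [hu.2 hk, mulVec_zero]⟩) with h0 | h0
  · refine xejd_ne h i fun v => ?_
    rw [← Submodule.mem_bot ℂ, ← h0 i]
    exact ⟨by rw [mulVec_mulVec, xejd_PP h], fun hc => (hc (Or.inl rfl)).elim⟩
  · exact xejd_ne h j fun v => (h0 j v).2 fun hc => hc.elim (fun hh => hij hh.symm)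
      fun hh => hh hbot

end Pool.Agent.MP_f58063_ag

end
end

section

open Complex Filter Topology Matrix Function Asymptotics

noncomputable section

namespace Pool.Agent.MP_f58063_ag

/-- evaluation of matrices at a vector -/
def xejeEv {g : ℕ} (v : Fin g → ℂ) : Matrix (Fin g) (Fin g) ℂ →ₗ[ℂ] (Fin g → ℂ) where
  toFun z := z *ᵥ v
  map_add' _ _ := Matrix.add_mulVec _ _ _
  map_smul' _ _ := Matrix.smul_mulVec _ _ _

/-- an irreducible algebra with a separating vector acts on a line -/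
theorem xeje_alg {g : ℕ} (R : Submodule ℂ (Matrix (Fin g) (Fin g) ℂ))
    (p : Matrix (Fin g) (Fin g) ℂ) (hp : p ∈ R) (hl : ∀ z ∈ R, p * z = z)
    (hmul : ∀ z ∈ R, ∀ w ∈ R, z * w ∈ R) (u : Fin g → ℂ) (hu : u ≠ 0) (hpu : p *ᵥ u = u)
    (hinj : ∀ z ∈ R, z *ᵥ u = 0 → z = 0)
    (hirr : ∀ U : Submodule ℂ (Fin g → ℂ), (∀ v ∈ U, p *ᵥ v = v) →
      (∀ z ∈ R, ∀ v ∈ U, z *ᵥ v ∈ U) → U = ⊥ ∨ ∀ v, p *ᵥ v ∈ U) (v : Fin g → ℂ) :
    ∃ c : ℂ, p *ᵥ v = c • u := by
  have horb : ∀ t : Fin g → ℂ, t ≠ 0 → p *ᵥ t = t → ∀ v, ∃ z ∈ R, z *ᵥ t = p *ᵥ v := by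
    intro t ht hpt v
    rcases hirr (R.map (xejeEv t)) (by
        rintro _ ⟨z, hz, rfl⟩
        change p *ᵥ (z *ᵥ t) = z *ᵥ t
        rw [mulVec_mulVec, hl z hz]) (by
        rintro w hw _ ⟨z, hz, rfl⟩
        refine ⟨w * z, hmul w hw z hz, ?_⟩
        change (w * z) *ᵥ t = w *ᵥ (z *ᵥ t)
        rw [mulVec_mulVec]) with h | h
    · have : t ∈ R.map (xejeEv t) := ⟨p, hp, hpt⟩
      rw [h] at this
      exact absurd this ht
    · exact h v
  have hp0 : p ≠ 0 := by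
    rintro rfl
    exact hu (by rw [← hpu, zero_mulVec])
  have : Nontrivial R := ⟨⟨⟨p, hp⟩, 0, fun h => hp0 (congrArg Subtype.val h)⟩⟩
  have hsc : ∀ z ∈ R, ∃ c : ℂ, z = c • p := by
    intro z hz
    obtain ⟨c, hc⟩ := Module.End.exists_eigenvalue
      ((LinearMap.mulRight ℂ z).restrict (p := R) (q := R) fun w hw => hmul w hw z hz)
    obtain ⟨w, hw⟩ := hc.exists_hasEigenvector
    have h1 : w.1 * z = c • w.1 := congrArg Subtype.val hw.apply_eq_smul
    have hw0 : w.1 ≠ 0 := fun h => hw.2 (Subtype.ext h)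
    obtain ⟨w', hw', h2⟩ := horb (w.1 *ᵥ u) (fun h => hw0 (hinj _ w.2 h))
      (by rw [mulVec_mulVec, hl _ w.2]) u
    have h3 : w' * w.1 = p := by
      rw [← sub_eq_zero]
      refine hinj _ (R.sub_mem (hmul _ hw' _ w.2) hp) ?_
      rw [sub_mulVec, ← mulVec_mulVec, h2, sub_self]
    refine ⟨c, ?_⟩
    rw [← hl z hz, ← h3, Matrix.mul_assoc, h1, Matrix.mul_smul]
  obtain ⟨z, hz, h⟩ := horb u hu hpu v
  obtain ⟨c, rfl⟩ := hsc z hz
  exact ⟨c, by rw [← h, smul_mulVec, hpu]⟩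

variable {g r : ℕ} {W : Submodule ℂ (Matrix (Fin g) (Fin g) ℂ)}
  {e : Fin r → Matrix (Fin g) (Fin g) ℂ}

theorem xeje_pe (h : Fram W e) (i : Fin r) : pp e i * e i = e i := h.tri i

theorem xeje_pp (h : Fram W e) (i : Fin r) : pp e i * pp e i = pp e i := by
  rw [h.pp_mul, if_pos rfl]

theorem xeje_pmem (h : Fram W e) (i : Fin r) : pp e i ∈ RR W e i i :=
  ⟨e i, h.mem i, by rw [xeje_pe h]; rfl⟩

/-- connecting elements -/
structure XejeU (W : Submodule ℂ (Matrix (Fin g) (Fin g) ℂ))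
    (e : Fin r → Matrix (Fin g) (Fin g) ℂ) (o : Fin r)
    (a b : Fin r → Matrix (Fin g) (Fin g) ℂ) : Prop where
  ha : ∀ j, a j ∈ RR W e o j
  hb : ∀ j, b j ∈ RR W e j o
  ab : ∀ j, a j * b j = pp e o
  ba : ∀ j, b j * a j = pp e j
  bo : b o = pp e o

theorem xeje_exU (h : Fram W e) (hirr : JIrr W) (o : Fin r) : ∃ a b, XejeU W e o a b := by
  have : ∀ j, ∃ a ∈ RR W e o j, ∃ b ∈ RR W e j o, a * b = pp e o ∧ b * a = pp e j ∧
      (j = o → b = pp e o) := by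
    intro j
    by_cases hj : o = j
    · subst hj
      exact ⟨_, xeje_pmem h o, _, xeje_pmem h o, xeje_pp h o, xeje_pp h o, fun _ => rfl⟩
    · obtain ⟨a, ha, b, hb, h1, h2⟩ := h.RR_unit hj (h.conn hirr hj)
      exact ⟨a, ha, b, hb, h1, h2, fun h => absurd h.symm hj⟩
  choose a ha b hb h1 h2 h3 using this
  exact ⟨a, b, ha, hb, h1, h2, h3 o rfl⟩

/-- the transported block -/
def xejeR (W : Submodule ℂ (Matrix (Fin g) (Fin g) ℂ)) (e : Fin r → Matrix (Fin g) (Fin g) ℂ)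
    (a b : Fin r → Matrix (Fin g) (Fin g) ℂ) (i j : Fin r) :
    Submodule ℂ (Matrix (Fin g) (Fin g) ℂ) :=
  (RR W e i j).map ((LinearMap.mulRight ℂ (b j)).comp (LinearMap.mulLeft ℂ (a i)))

variable {o : Fin r} {a b : Fin r → Matrix (Fin g) (Fin g) ℂ}

theorem xeje_mem {i j : Fin r} {z : Matrix (Fin g) (Fin g) ℂ} :
    z ∈ xejeR W e a b i j ↔ ∃ x ∈ RR W e i j, a i * x * b j = z := Iff.rfl

theorem xeje_one (h : Fram W e) (hu : XejeU W e o a b) {i j : Fin r} (hij : i ≠ j) :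
    pp e o ∈ xejeR W e a b i j := by
  refine xeje_mem.2 ⟨b i * a j, h.RR_mul hij (hu.hb i) (hu.ha j), ?_⟩
  rw [← Matrix.mul_assoc, hu.ab, Matrix.mul_assoc, hu.ab, xeje_pp h]

theorem xeje_left (h : Fram W e) (hu : XejeU W e o a b) {i j : Fin r}
    {z : Matrix (Fin g) (Fin g) ℂ} (hz : z ∈ xejeR W e a b i j) : pp e o * z = z := by
  obtain ⟨x, -, rfl⟩ := xeje_mem.1 hz
  rw [← Matrix.mul_assoc, ← Matrix.mul_assoc, h.RR_left (hu.ha i)]

theorem xeje_right (h : Fram W e) (hu : XejeU W e o a b) {i j : Fin r}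
    {z : Matrix (Fin g) (Fin g) ℂ} (hz : z ∈ xejeR W e a b i j) : z * pp e o = z := by
  obtain ⟨x, -, rfl⟩ := xeje_mem.1 hz
  rw [Matrix.mul_assoc, h.RR_right (hu.hb j)]

theorem xeje_mul (h : Fram W e) (hu : XejeU W e o a b) {i j k : Fin r} (hik : i ≠ k)
    {z w : Matrix (Fin g) (Fin g) ℂ} (hz : z ∈ xejeR W e a b i j) (hw : w ∈ xejeR W e a b j k) :
    z * w ∈ xejeR W e a b i k := by
  obtain ⟨x, hx, rfl⟩ := xeje_mem.1 hz
  obtain ⟨y, hy, rfl⟩ := xeje_mem.1 hw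
  refine xeje_mem.2 ⟨x * y, h.RR_mul hik hx hy, ?_⟩
  calc a i * (x * y) * b k = a i * (x * (pp e j * y)) * b k := by rw [h.RR_left hy]
    _ = _ := by rw [← hu.ba]; simp only [Matrix.mul_assoc]

theorem xeje_leA (h : Fram W e) (hu : XejeU W e o a b) {i j k : Fin r} (hik : i ≠ k) :
    xejeR W e a b i j ≤ xejeR W e a b i k := by
  by_cases hjk : j = k
  · rw [hjk]
  · intro z hz
    rw [← xeje_right h hu hz]
    exact xeje_mul h hu hik hz (xeje_one h hu hjk)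

theorem xeje_leB (h : Fram W e) (hu : XejeU W e o a b) {i j k : Fin r} (hik : i ≠ k) :
    xejeR W e a b j k ≤ xejeR W e a b i k := by
  by_cases hij : i = j
  · rw [hij]
  · intro z hz
    rw [← xeje_left h hu hz]
    exact xeje_mul h hu hik (xeje_one h hu hij) hz

theorem xeje_third (hr : 3 ≤ r) (i j : Fin r) : ∃ m, m ≠ i ∧ m ≠ j := by
  by_contra hc
  have h1 : (Finset.univ : Finset (Fin r)) ⊆ {i, j} := by
    intro m _
    by_contra hm
    simp only [Finset.mem_insert, Finset.mem_singleton, not_or] at hm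
    exact hc ⟨m, hm⟩
  have h2 := Finset.card_le_card h1
  have h3 : ({i, j} : Finset (Fin r)).card ≤ 2 := Finset.card_le_two
  rw [Finset.card_univ, Fintype.card_fin] at h2
  omega

theorem xeje_le (h : Fram W e) (hu : XejeU W e o a b) (hr : 3 ≤ r) {i j k l : Fin r}
    (hkl : k ≠ l) : xejeR W e a b i j ≤ xejeR W e a b k l := by
  obtain ⟨m, h1, h2⟩ := xeje_third hr i k
  exact ((xeje_leA h hu h1.symm).trans (xeje_leB h hu h2.symm)).trans (xeje_leA h hu hkl)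

theorem xeje_inv (h : Fram W e) (hirr : JIrr W) (hu : XejeU W e o a b) (hr : 3 ≤ r)
    (U : Submodule ℂ (Fin g → ℂ)) (hU : ∀ v ∈ U, pp e o *ᵥ v = v)
    (hR : ∀ i j, ∀ z ∈ xejeR W e a b i j, ∀ v ∈ U, z *ᵥ v ∈ U) :
    U = ⊥ ∨ ∀ v, pp e o *ᵥ v ∈ U := by
  have key : ∀ (i j k l : Fin r) (T : Matrix (Fin g) (Fin g) ℂ), pp e i * T = T →
      a i * T * b j ∈ xejeR W e a b k l → ∀ u ∈ U.map (mulVecLin (b j)),
        T *ᵥ u ∈ U.map (mulVecLin (b i)) := by
    rintro i j k l T hT hm _ ⟨v, hv, rfl⟩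
    refine ⟨_, hR k l _ hm v hv, ?_⟩
    simp only [mulVecLin_apply, mulVec_mulVec]
    rw [← Matrix.mul_assoc, ← Matrix.mul_assoc, hu.ba, hT]
  have hUo : U.map (mulVecLin (b o)) = U := by
    rw [hu.bo]
    ext v
    constructor
    · rintro ⟨w, hw, rfl⟩
      rw [mulVecLin_apply, hU w hw]
      exact hw
    · exact fun hv => ⟨v, hv, hU v hv⟩
  rcases h.inv hirr (fun i => U.map (mulVecLin (b i))) (by
      rintro i _ ⟨v, -, rfl⟩
      rw [mulVecLin_apply, mulVec_mulVec, h.RR_left (hu.hb i)])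
    (fun i j _ x hx => key i j i j x (h.RR_left hx) (xeje_mem.2 ⟨x, hx, rfl⟩)) (by
      intro i x hx y hy
      obtain ⟨k, hk, -⟩ := xeje_third hr i i
      have h1 := h.RR_mul hk (hu.hb k) (hu.ha i)
      obtain ⟨x', hx', h2⟩ := h.tp_A h1 hx
      refine key i i k i _ (by simp only [← Matrix.mul_assoc, xeje_pp h])
        (xeje_mem.2 ⟨_, h.RR_A hk hx' hy, ?_⟩)
      rw [← h2]
      simp only [← Matrix.mul_assoc]
      rw [hu.ab, h.RR_left (hu.ha i), h.RR_right (hu.ha i)]) (by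
      intro i x hx y hy
      obtain ⟨k, hk, -⟩ := xeje_third hr i i
      have h1 := h.RR_mul hk.symm (hu.hb i) (hu.ha k)
      obtain ⟨x', hx', h2⟩ := h.tp_B h1 hx
      refine key i i i k _ (by simp only [← Matrix.mul_assoc, xeje_pe h])
        (xeje_mem.2 ⟨_, h.RR_B hk.symm hx' hy, ?_⟩)
      have h3 : e i * yᴴ * p0 e * x' * (e k)ᴴ = e i * yᴴ * (p0 e * x' * (e k)ᴴ) := by
        simp only [Matrix.mul_assoc]
      rw [h3, ← h2]
      simp only [Matrix.mul_assoc]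
      rw [hu.ab, h.RR_right (hu.hb i)]) with h1 | h1
  · exact Or.inl (hUo ▸ h1 o)
  · exact Or.inr fun v => hUo ▸ h1 o v

theorem xeje_sep (h : Fram W e) {j : Fin r} (hj : j ≠ o) {u : Fin g → ℂ} (hu : u ≠ 0)
    (hre : e o *ᵥ u = star u) {x : Matrix (Fin g) (Fin g) ℂ} (hx : x ∈ RR W e j o)
    (h0 : x *ᵥ star u = 0) : x = 0 := by
  obtain ⟨y, hy, rfl⟩ := hx
  have h1 : (e o)ᴴ *ᵥ star u = u := by
    have h2 := congrArg star hre
    rw [star_star, star_mulVec, ← mulVec_transpose] at h2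
    have h3 : ((e o)ᴴ)ᵀ = (e o)ᴴ := by
      conv_rhs => rw [← h.jt.sym _ (h.mem o)]
      rfl
    rwa [h3] at h2
  have h4 : (e o)ᴴ * e o * (e o)ᴴ = (e o)ᴴ := by
    have := congrArg conjTranspose (h.tri o)
    simpa only [conjTranspose_mul, conjTranspose_conjTranspose, Matrix.mul_assoc] using this
  have h5 : (pp e j * y * (pp e o)ᵀ + pp e o * y * (pp e j)ᵀ) * (e o)ᴴ = pp e j * y * (e o)ᴴ := by
    rw [h.pp_transpose, h.pp_transpose, Matrix.add_mul, Matrix.mul_assoc (pp e j * y), h4,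
      Matrix.mul_assoc (pp e o * y), Matrix.mul_assoc (e j)ᴴ, h.orth' hj, Matrix.mul_zero,
      Matrix.mul_zero, add_zero]
  rw [← h5]
  refine h.inj hu hre (h.blk hj hy) ?_
  rw [← h1, mulVec_mulVec, h5, h0]

/-- an irreducible triple system of rank at least three contains a matrix of rank one -/
theorem Fram.rank_one {g r : ℕ} {W : Submodule ℂ (Matrix (Fin g) (Fin g) ℂ)}
    {e : Fin r → Matrix (Fin g) (Fin g) ℂ} (h : Fram W e) (hirr : JIrr W) (hr : 3 ≤ r) :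
    ∃ w : Fin g → ℂ, w ≠ 0 ∧ vecMulVec w w ∈ W := by
  let o : Fin r := ⟨0, by omega⟩
  obtain ⟨a, b, hu⟩ := xeje_exU h hirr o
  obtain ⟨j, hj, -⟩ := xeje_third hr o o
  obtain ⟨u, hu0, hre⟩ := h.real_vec o
  have hs0 : star u ≠ 0 := star_ne_zero.2 hu0
  have key := xeje_alg (xejeR W e a b j o) (pp e o) (xeje_one h hu hj)
    (fun z hz => xeje_left h hu hz)
    (fun z hz w hw => by
      obtain ⟨m, h1, h2⟩ := xeje_third hr j o
      exact xeje_mul h hu hj (xeje_le h hu hr h1.symm hz) (xeje_le h hu hr h2 hw))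
    (star u) hs0 (by rw [← hre, mulVec_mulVec, xeje_pe h])
    (fun z hz h0 => by
      obtain ⟨x, hx, rfl⟩ := xeje_mem.1 hz
      rw [hu.bo, Matrix.mul_assoc, h.RR_right hx] at h0 ⊢
      have h1 : x *ᵥ star u = 0 := by
        rw [← h.RR_left hx, ← hu.ba, Matrix.mul_assoc, ← mulVec_mulVec, h0, mulVec_zero]
      rw [xeje_sep h hj hu0 hre hx h1, Matrix.mul_zero])
    (fun U hU hR => xeje_inv h hirr hu hr U hU fun i k z hz => hR z (xeje_le h hu hr hj hz))
  have hcol : ∀ k, ∃ c : ℂ, ∀ i, e o i k = c * star u i := by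
    intro k
    obtain ⟨c, hc⟩ := key (e o *ᵥ Pi.single k 1)
    rw [mulVec_mulVec, xeje_pe h] at hc
    exact ⟨c, fun i => by simpa using congrFun hc i⟩
  choose c hc using hcol
  obtain ⟨k, hk⟩ : ∃ k, c k ≠ 0 := by
    by_contra hn
    refine h.ne o (Matrix.ext fun i k => ?_)
    have : c k = 0 := by
      by_contra h1
      exact hn ⟨k, h1⟩
    rw [hc, this, zero_mul, Matrix.zero_apply]
  refine ⟨star u, hs0, ?_⟩
  have : vecMulVec (star u) (star u) = (star u k / c k) • e o := by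
    ext i l
    have h1 : e o k l = e o l k := congrFun (congrFun (h.jt.sym _ (h.mem o)) l) k
    rw [hc, hc] at h1
    rw [vecMulVec_apply, Matrix.smul_apply, hc, smul_eq_mul]
    field_simp
    linear_combination (-(star u i)) * h1
  rw [this]
  exact W.smul_mem _ (h.mem o)

end Pool.Agent.MP_f58063_ag

end
end

section

open Complex Filter Topology Matrix Function Asymptotics

noncomputable section

namespace Pool.Agent.MP_f58063_ag

variable {g : ℕ} {W : Submodule ℂ (Matrix (Fin g) (Fin g) ℂ)}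

/-- symmetrised product of two vectors -/
def xejfS (v v' : Fin g → ℂ) : Matrix (Fin g) (Fin g) ℂ := vecMulVec v v' + vecMulVec v' v

lemma xejf_comm (v v' : Fin g → ℂ) : xejfS v v' = xejfS v' v := add_comm _ _

lemma xejf_add (u v v' : Fin g → ℂ) : xejfS (u + v) v' = xejfS u v' + xejfS v v' := by
  ext i j
  simp only [xejfS, Matrix.add_apply, vecMulVec_apply, Pi.add_apply]
  ring

lemma xejf_smul (c : ℂ) (v v' : Fin g → ℂ) : xejfS (c • v) v' = c • xejfS v v' := by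
  ext i j
  simp only [xejfS, Matrix.add_apply, vecMulVec_apply, Pi.smul_apply, Matrix.smul_apply,
    smul_eq_mul]
  ring

lemma xejf_mulVec (v v' u : Fin g → ℂ) :
    xejfS v v' *ᵥ u = (v' ⬝ᵥ u) • v + (v ⬝ᵥ u) • v' := by
  ext i
  simp only [xejfS, mulVec, dotProduct, Matrix.add_apply, vecMulVec_apply, Pi.add_apply,
    Pi.smul_apply, smul_eq_mul, Finset.sum_mul, ← Finset.sum_add_distrib]
  exact Finset.sum_congr rfl fun j _ => by ring

lemma xejf_mid (x z : Matrix (Fin g) (Fin g) ℂ) (hz : zᵀ = z) (w : Fin g → ℂ) :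
    x * (vecMulVec w w)ᴴ * z = vecMulVec (x *ᵥ star w) (z *ᵥ star w) := by
  rw [conjTranspose_vecMulVec, mul_vecMulVec, vecMulVec_mul, ← mulVec_transpose, hz]

lemma xejf_act (T : Matrix (Fin g) (Fin g) ℂ) (v v' : Fin g → ℂ) :
    T * xejfS v v' + xejfS v v' * Tᵀ = xejfS (T *ᵥ v) v' + xejfS v (T *ᵥ v') := by
  simp only [xejfS, Matrix.mul_add, Matrix.add_mul, mul_vecMulVec, vecMulVec_mul,
    vecMul_transpose]
  abel

lemma xejf_T (h : JT W) {x y z : Matrix (Fin g) (Fin g) ℂ} (hx : x ∈ W) (hy : y ∈ W)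
    (hz : z ∈ W) : x * yᴴ * z + z * (x * yᴴ)ᵀ ∈ W := by
  have h1 : (yᴴ)ᵀ = yᴴ := by
    ext i j
    have := congrFun (congrFun (h.sym y hy) i) j
    simp only [transpose_apply] at this
    simp only [transpose_apply, conjTranspose_apply, this]
  rw [transpose_mul, h1, h.sym x hx, ← Matrix.mul_assoc]
  exact h.tri x hx y hy z hz

open scoped ComplexOrder in
lemma xejf_two (h : JT W) {w : Fin g → ℂ} (hw : w ≠ 0) (hW : vecMulVec w w ∈ W)
    {v v' : Fin g → ℂ} (hv : xejfS v w ∈ W) (hv' : xejfS v' w ∈ W) : xejfS v v' ∈ W := by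
  have hn : w ⬝ᵥ star w ≠ 0 := fun e => hw (dotProduct_self_star_eq_zero.mp e)
  have h1 := h.tri _ hv _ hW _ hv'
  rw [xejf_mid _ _ (h.sym _ hv'), xejf_mid _ _ (h.sym _ hv), xejf_mulVec, xejf_mulVec] at h1
  set n := w ⬝ᵥ star w
  set a := v ⬝ᵥ star w
  set a' := v' ⬝ᵥ star w
  have h2 : xejfS v v' = (n * n)⁻¹ • ((vecMulVec (n • v + a • w) (n • v' + a' • w) +
      vecMulVec (n • v' + a' • w) (n • v + a • w)) - (n * a') • xejfS v w - (n * a) • xejfS v' w -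
      (2 * a * a') • vecMulVec w w) := by
    ext i j
    simp only [xejfS, Matrix.add_apply, Matrix.sub_apply, vecMulVec_apply, Pi.smul_apply,
      Pi.add_apply, Matrix.smul_apply, smul_eq_mul]
    field_simp
    ring
  rw [h2]
  exact W.smul_mem _ (W.sub_mem (W.sub_mem (W.sub_mem h1 (W.smul_mem _ hv)) (W.smul_mem _ hv'))
    (W.smul_mem _ hW))

theorem jt_of_rank_one (h : JT W) (hirr : JIrr W) {w : Fin g → ℂ} (hw : w ≠ 0)
    (hW : vecMulVec w w ∈ W) : ∀ x : Matrix (Fin g) (Fin g) ℂ, xᵀ = x → x ∈ W := by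
  let U : Submodule ℂ (Fin g → ℂ) :=
    { carrier := {v | xejfS v w ∈ W}
      add_mem' := fun {a b} ha hb => by
        show xejfS (a + b) w ∈ W
        rw [xejf_add]
        exact W.add_mem ha hb
      zero_mem' := by
        show xejfS 0 w ∈ W
        have : xejfS (0 : Fin g → ℂ) w = 0 := by simp [xejfS]
        rw [this]
        exact W.zero_mem
      smul_mem' := fun c a ha => by
        show xejfS (c • a) w ∈ W
        rw [xejf_smul]
        exact W.smul_mem c ha }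
  have hwU : xejfS w w ∈ W := W.add_mem hW hW
  have hinv : ∀ x ∈ W, ∀ y ∈ W, ∀ u ∈ U, (x * yᴴ) *ᵥ u ∈ U := by
    intro x hx y hy u hu
    have hu' : xejfS u w ∈ W := hu
    have h1 := xejf_T h hx hy hwU
    rw [xejf_act, xejf_comm w] at h1
    have h2 : xejfS ((x * yᴴ) *ᵥ w) w ∈ W := by
      have := W.smul_mem (2⁻¹ : ℂ) h1
      rwa [← two_smul ℂ, smul_smul, inv_mul_cancel₀ two_ne_zero, one_smul] at this
    have h3 := xejf_T h hx hy hu'
    rw [xejf_act] at h3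
    have h4 := W.sub_mem h3 (xejf_two h hw hW hu' h2)
    rw [add_sub_cancel_right] at h4
    exact h4
  have hU : U = ⊤ := (hirr U hinv).resolve_left fun e => hw (by
    have : w ∈ U := hwU
    rwa [e, Submodule.mem_bot] at this)
  have hall : ∀ v v', xejfS v v' ∈ W := fun v v' =>
    xejf_two h hw hW (show v ∈ U by rw [hU]; trivial) (show v' ∈ U by rw [hU]; trivial)
  intro x hx
  have e : x = (2⁻¹ : ℂ) • ∑ j, xejfS (fun i => x i j) (Pi.single j 1) := by
    ext a b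
    have hs : x b a = x a b := by
      have := congrFun (congrFun hx a) b
      exact this
    simp only [xejfS, Matrix.smul_apply, Matrix.sum_apply, Matrix.add_apply, vecMulVec_apply,
      Pi.single_apply, mul_ite, ite_mul, mul_one, mul_zero, one_mul, zero_mul,
      Finset.sum_add_distrib, Finset.sum_ite_eq, Finset.mem_univ, if_true, smul_eq_mul, hs]
    ring
  rw [e]
  exact W.smul_mem _ (W.sum_mem fun j _ => hall _ _)

theorem jt_full (h : JT W) (hirr : JIrr W) (hg : 0 < g) (hd : 2 * g ≤ Module.finrank ℂ W) :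
    ∀ x : Matrix (Fin g) (Fin g) ℂ, xᵀ = x → x ∈ W := by
  obtain ⟨r, e, he⟩ := exists_Fram h
  by_cases hr : r ≤ 2
  · exact absurd (he.dim_lt hr hg) (by omega)
  · obtain ⟨w, hw, hW⟩ := he.rank_one hirr (by omega)
    exact jt_of_rank_one h hirr hw hW

end Pool.Agent.MP_f58063_ag

end
end

section

open Complex Filter Topology Matrix Function Asymptotics

noncomputable section

namespace Pool.Agent.MP_f58063_ag

/-- automorphisms of the polynomial ring on a transcendence basis extend to `ℂ` -/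
theorem xerat_ext {R : Type} [Field R] [Algebra R ℂ] {ι : Type} {v : ι → ℂ}
    (hv : IsTranscendenceBasis R v) (e : MvPolynomial ι R ≃+* MvPolynomial ι R) :
    ∃ σ : ℂ ≃+* ℂ, ∀ P, σ (MvPolynomial.aeval v P) = MvPolynomial.aeval v (e P) := by
  let := IsAlgClosed.isAlgClosure_of_transcendence_basis v hv
  let e' : Algebra.adjoin R (Set.range v) ≃+* Algebra.adjoin R (Set.range v) :=
    (hv.1.aevalEquiv.symm.toRingEquiv.trans e).trans hv.1.aevalEquiv.toRingEquiv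
  refine ⟨IsAlgClosure.equivOfEquiv ℂ ℂ e', fun P => ?_⟩
  rw [← hv.1.algebraMap_aevalEquiv P, IsAlgClosure.equivOfEquiv_algebraMap,
    ← hv.1.algebraMap_aevalEquiv (e P)]
  congr 1
  simp [e']

theorem xerat_alg {x : ℂ} (h : ∀ σ : ℂ ≃+* ℂ, σ x = x) : IsAlgebraic ℚ x := by
  by_contra hx
  have h1 : AlgebraicIndepOn ℚ id ({x} : Set ℂ) := algebraicIndependent_unique_type_iff.mpr hx
  obtain ⟨t, ht, hv⟩ := exists_isTranscendenceBasis_superset h1
  have hxt : x ∈ t := ht rfl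
  let n : MvPolynomial t ℚ →ₐ[ℚ] MvPolynomial t ℚ :=
    MvPolynomial.aeval fun i => -MvPolynomial.X i
  have hn : n.comp n = AlgHom.id ℚ _ := by
    ext i : 1
    simp [n]
  obtain ⟨σ, hσ⟩ := xerat_ext hv (AlgEquiv.ofAlgHom n n hn hn).toRingEquiv
  have h2 := hσ (MvPolynomial.X ⟨x, hxt⟩)
  have h3 : σ x = -x := by simpa [n] using h2
  rw [h σ] at h3
  have h4 : x = 0 := by linear_combination (1 / 2 : ℂ) * h3
  apply hx
  rw [h4]
  exact isAlgebraic_zero

theorem rat_of_fixed {x : ℂ} (h : ∀ σ : ℂ ≃+* ℂ, σ x = x) : ∃ q : ℚ, x = q := by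
  have hx : x ∈ algebraicClosure ℚ ℂ := mem_algebraicClosure_iff.2 (xerat_alg h)
  obtain ⟨t, hv⟩ := exists_isTranscendenceBasis (algebraicClosure ℚ ℂ) ℂ
  have key : (⟨x, hx⟩ : algebraicClosure ℚ ℂ) ∈
      Set.range (algebraMap ℚ (algebraicClosure ℚ ℂ)) := by
    have h1 : IsAlgClosure ℚ (algebraicClosure ℚ ℂ) := algebraicClosure.isAlgClosure ℚ ℂ
    have h2 : IsGalois ℚ (algebraicClosure ℚ ℂ) := IsAlgClosure.isGalois ℚ _
    rw [InfiniteGalois.mem_range_algebraMap_iff_fixed]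
    intro τ
    obtain ⟨σ, hσ⟩ := xerat_ext hv (MvPolynomial.mapEquiv t τ.toRingEquiv)
    have h2 := hσ (MvPolynomial.C ⟨x, hx⟩)
    have h3 : σ x = (τ ⟨x, hx⟩ : ℂ) := by simpa using h2
    rw [h σ] at h3
    exact Subtype.ext h3.symm
  obtain ⟨q, hq⟩ := key
  refine ⟨q, ?_⟩
  have := congrArg Subtype.val hq
  simpa using this.symm

section xerat

variable {V ι : Type} [AddCommGroup V] [Module ℂ V] [Fintype ι] (c : ι → V →ₗ[ℂ] ℂ)

open Classical in
/-- the support of a vector -/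
def xeratsupp (x : V) : Finset ι := Finset.univ.filter fun i => c i x ≠ 0

theorem xerat_mem_supp {x : V} {i : ι} : i ∈ xeratsupp c x ↔ c i x ≠ 0 := by
  simp [xeratsupp]

theorem xerat_card_lt {x y : V} (h : ∀ i, c i x = 0 → c i y = 0) {j : ι} (hx : c j x ≠ 0)
    (hy : c j y = 0) : (xeratsupp c y).card < (xeratsupp c x).card := by
  refine Finset.card_lt_card ⟨fun i hi => ?_, fun hsub => ?_⟩
  · rw [xerat_mem_supp] at hi ⊢
    exact fun h0 => hi (h i h0)
  · exact (xerat_mem_supp c).1 (hsub ((xerat_mem_supp c).2 hx)) hy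

theorem xerat_min (A : Submodule ℂ V)
    (h : ∀ σ : ℂ ≃+* ℂ, ∀ x ∈ A, ∃ y ∈ A, ∀ i, c i y = σ (c i x)) (n : ℕ) :
    ∀ x ∈ A, (xeratsupp c x).card = n → (∃ i, c i x ≠ 0) →
      ∃ y ∈ A, (∀ i, ∃ q : ℚ, c i y = q) ∧ (∃ i, c i y ≠ 0) ∧ ∀ i, c i x = 0 → c i y = 0 := by
  induction n using Nat.strong_induction_on with
  | _ n ih =>
  rintro x hx hn ⟨j, hj⟩
  have hx' : (c j x)⁻¹ • x ∈ A := A.smul_mem _ hx
  have hj' : c j ((c j x)⁻¹ • x) = 1 := by
    rw [map_smul, smul_eq_mul, inv_mul_cancel₀ hj]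
  have hz : ∀ i, c i x = 0 → c i ((c j x)⁻¹ • x) = 0 := fun i hi => by
    rw [map_smul, hi, smul_zero]
  generalize (c j x)⁻¹ • x = x' at hx' hj' hz
  by_cases hfix : ∀ i, ∀ σ : ℂ ≃+* ℂ, σ (c i x') = c i x'
  · exact ⟨x', hx', fun i => rat_of_fixed (hfix i), ⟨j, by rw [hj']; exact one_ne_zero⟩, hz⟩
  · push Not at hfix
    obtain ⟨i, σ, hσ⟩ := hfix
    obtain ⟨y, hy, hyc⟩ := h σ x' hx'
    have hz' : ∀ i, c i x = 0 → c i (y - x') = 0 := fun i hi => by
      rw [map_sub, hyc, hz i hi, map_zero, sub_zero]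
    have hlt := xerat_card_lt c hz' hj (by rw [map_sub, hyc, hj', map_one, sub_self])
    obtain ⟨w, hw, hwq, hwne, hwz⟩ := ih _ (hn ▸ hlt) (y - x') (A.sub_mem hy hx') rfl
      ⟨i, by rw [map_sub, hyc]; exact sub_ne_zero.2 hσ⟩
    exact ⟨w, hw, hwq, hwne, fun i hi => hwz i (hz' i hi)⟩

theorem xerat_span (hc : ∀ x, (∀ i, c i x = 0) → x = 0) (A : Submodule ℂ V)
    (h : ∀ σ : ℂ ≃+* ℂ, ∀ x ∈ A, ∃ y ∈ A, ∀ i, c i y = σ (c i x)) :
    A ≤ Submodule.span ℂ {x | x ∈ A ∧ ∀ i, ∃ q : ℚ, c i x = q} := by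
  have key : ∀ n : ℕ, ∀ x ∈ A, (xeratsupp c x).card = n →
      x ∈ Submodule.span ℂ {x | x ∈ A ∧ ∀ i, ∃ q : ℚ, c i x = q} := by
    intro n
    induction n using Nat.strong_induction_on with
    | _ n ih =>
    intro x hx hn
    by_cases h0 : ∀ i, c i x = 0
    · rw [hc x h0]
      exact Submodule.zero_mem _
    push Not at h0
    obtain ⟨y, hy, hyq, ⟨j, hj⟩, hyz⟩ := xerat_min c A h n x hx hn h0
    have hxj : c j x ≠ 0 := fun h0 => hj (hyz j h0)
    have hlt := xerat_card_lt c (x := x) (y := x - (c j x / c j y) • y)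
      (fun i hi => by rw [map_sub, map_smul, hi, hyz i hi, smul_zero, sub_zero]) hxj
      (by rw [map_sub, map_smul, smul_eq_mul, div_mul_cancel₀ _ hj, sub_self])
    have h1 := ih _ (hn ▸ hlt) _ (A.sub_mem hx (A.smul_mem _ hy)) rfl
    have h2 : (c j x / c j y) • y ∈ Submodule.span ℂ {x | x ∈ A ∧ ∀ i, ∃ q : ℚ, c i x = q} :=
      Submodule.smul_mem _ _ (Submodule.subset_span ⟨hy, hyq⟩)
    simpa using Submodule.add_mem _ h1 h2
  exact fun x hx => key _ x hx rfl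

end xerat

theorem rat_span {ι : Type} [Fintype ι] (A : Submodule ℂ (ι → ℂ))
    (h : ∀ σ : ℂ ≃+* ℂ, ∀ x ∈ A, (fun i => σ (x i)) ∈ A) :
    A ≤ Submodule.span ℂ {x | x ∈ A ∧ ∀ i, ∃ q : ℚ, x i = q} :=
  xerat_span (fun i => LinearMap.proj i) (fun _ hx => funext hx) A
    fun σ x hx => ⟨_, h σ x hx, fun _ => rfl⟩

theorem rat_span_mat {m n : Type} [Fintype m] [Fintype n] (A : Submodule ℂ (Matrix m n ℂ))
    (h : ∀ σ : ℂ ≃+* ℂ, ∀ x ∈ A, x.map σ ∈ A) :
    A ≤ Submodule.span ℂ {x | x ∈ A ∧ ∀ i j, ∃ q : ℚ, x i j = q} := by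
  have key := xerat_span (fun p : m × n => Matrix.entryLinearMap ℂ ℂ p.1 p.2)
    (fun _ hx => Matrix.ext fun i j => hx (i, j)) A fun σ x hx => ⟨_, h σ x hx, fun _ => rfl⟩
  refine key.trans (Submodule.span_mono ?_)
  rintro x ⟨hx, hq⟩
  exact ⟨hx, fun i j => hq (i, j)⟩

end Pool.Agent.MP_f58063_ag

end
end

section

open Complex Filter Topology Matrix Function Asymptotics

noncomputable section

namespace Pool.Agent.MP_f58063_ag

section kills

variable {l : Type} [Fintype l] [DecidableEq l] {G : Type} {r : G → Matrix l l ℂ}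

lemma xeglue_zero : Kills r 0 := fun κ _ _ T _ => by rw [dkr_zero, zero_mulVec]

lemma xeglue_add {X Y : Matrix l l ℂ} (hX : Kills r X) (hY : Kills r Y) : Kills r (X + Y) :=
  fun κ _ _ T hT => by rw [dkr_add, add_mulVec, hX κ T hT, hY κ T hT, add_zero]

lemma xeglue_smul (z : ℂ) {X : Matrix l l ℂ} (hX : Kills r X) : Kills r (z • X) :=
  fun κ _ _ T hT => by rw [dkr_smul, smul_mulVec, hX κ T hT, smul_zero]

lemma xeglue_lie {X Y : Matrix l l ℂ} (hY : Kills r Y)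
    (hX : ∀ (κ : Type) [Fintype κ] [DecidableEq κ] (T : (κ → l) → ℂ), Fixd r T →
      Fixd r (dkr κ X *ᵥ T)) : Kills r (X * Y - Y * X) :=
  fun κ _ _ T hT => by
    rw [dkr_lie, sub_mulVec, ← mulVec_mulVec, ← mulVec_mulVec, hY κ T hT, hY κ _ (hX κ T hT),
      mulVec_zero, sub_zero]

lemma xeglue_lie' {X Y : Matrix l l ℂ} (hX : Kills r X) (hY : Kills r Y) :
    Kills r (X * Y - Y * X) :=
  xeglue_lie hY fun κ _ _ T hT γ => by rw [hX κ T hT, mulVec_zero]

lemma xeglue_mv {ι : Type} [Fintype ι] (σ : ℂ →+* ℂ) (M : Matrix ι ι ℂ) (v : ι → ℂ) :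
    M.map σ *ᵥ (σ ∘ v) = σ ∘ (M *ᵥ v) := by
  ext i
  simp [mulVec, dotProduct]

lemma xeglue_fix (hr : ∀ γ a b, ∃ z : ℤ, r γ a b = z) (σ : ℂ →+* ℂ) {κ : Type} [Fintype κ]
    [DecidableEq κ] {T : (κ → l) → ℂ} (hT : Fixd r T) : Fixd r (σ ∘ T) := fun γ => by
  have h : (r γ).map σ = r γ := by
    ext a b
    obtain ⟨z, hz⟩ := hr γ a b
    simp [hz]
  rw [← h, kr_map, xeglue_mv, hT γ]

lemma xeglue_map (hr : ∀ γ a b, ∃ z : ℤ, r γ a b = z) (σ : ℂ ≃+* ℂ) {X : Matrix l l ℂ}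
    (hX : Kills r X) : Kills r (X.map σ) := fun κ _ _ T hT => by
  have h1 : T = (σ : ℂ →+* ℂ) ∘ ((σ.symm : ℂ →+* ℂ) ∘ T) := by
    ext a
    simp
  have h2 : X.map σ = X.map (σ : ℂ →+* ℂ) := rfl
  rw [h2, dkr_map, h1, xeglue_mv, hX κ _ (xeglue_fix hr _ hT)]
  ext a
  simp

/-- conjugation by an invertible matrix -/
def xeglueAd (c : Matrix l l ℂ) (hc : IsUnit c.det) : Matrix l l ℂ ≃+* Matrix l l ℂ where
  toFun X := c * X * c⁻¹
  invFun X := c⁻¹ * X * c
  left_inv X := by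
    simp only [Matrix.mul_assoc, nonsing_inv_mul _ hc, Matrix.mul_one,
      nonsing_inv_mul_cancel_left _ _ hc]
  right_inv X := by
    simp only [Matrix.mul_assoc, mul_nonsing_inv _ hc, Matrix.mul_one,
      mul_nonsing_inv_cancel_left _ _ hc]
  map_mul' X Y := by simp only [Matrix.mul_assoc, nonsing_inv_mul_cancel_left _ _ hc]
  map_add' X Y := by rw [Matrix.mul_add, Matrix.add_mul]

/-- the twisted action of field automorphisms -/
def xegluePhi (c : Matrix l l ℂ) (hc : IsUnit c.det) (σ : ℂ ≃+* ℂ) :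
    Matrix l l ℂ ≃+* Matrix l l ℂ :=
  (xeglueAd c hc).trans (σ.mapMatrix.trans (xeglueAd c hc).symm)

variable {c : Matrix l l ℂ} (hc : IsUnit c.det)

lemma xeglue_ad (X : Matrix l l ℂ) : xeglueAd c hc X = c * X * c⁻¹ := rfl

lemma xeglue_phi (σ : ℂ ≃+* ℂ) (X : Matrix l l ℂ) :
    xegluePhi c hc σ X = c⁻¹ * (c * X * c⁻¹).map σ * c := rfl

lemma xeglue_ad_phi (σ : ℂ ≃+* ℂ) (X : Matrix l l ℂ) :
    c * xegluePhi c hc σ X * c⁻¹ = (c * X * c⁻¹).map σ :=
  (xeglueAd c hc).apply_symm_apply _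

lemma xeglue_phi_symm (σ : ℂ ≃+* ℂ) (X : Matrix l l ℂ) :
    xegluePhi c hc σ (xegluePhi c hc σ.symm X) = X := by
  apply (xeglueAd c hc).injective
  rw [xeglue_ad, xeglue_ad, xeglue_ad_phi, xeglue_ad_phi]
  generalize c * X * c⁻¹ = Y
  ext a b
  simp

lemma xeglue_phi_smul (σ : ℂ ≃+* ℂ) (z : ℂ) (X : Matrix l l ℂ) :
    xegluePhi c hc σ (z • X) = σ z • xegluePhi c hc σ X := by
  have h : (c * (z • X) * c⁻¹).map σ = σ z • (c * X * c⁻¹).map σ := by
    rw [Matrix.mul_smul, Matrix.smul_mul]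
    generalize c * X * c⁻¹ = Y
    ext a b
    simp
  rw [xeglue_phi, xeglue_phi, h, Matrix.mul_smul, Matrix.smul_mul]

end kills

section sp

variable {g : ℕ}

lemma xeglue_JJ : J (Fin g) ℂ * J (Fin g) ℂ = -1 := J_squared _ _

lemma xeglue_tr {X : Matrix (LL g) (LL g) ℂ} (h : X ∈ spK g ℂ) :
    Xᵀ = J (Fin g) ℂ * X * J (Fin g) ℂ := by
  have h1 := congrArg (fun Y => J (Fin g) ℂ * Y) (mem_spK.1 h)
  simp only [Matrix.mul_add, ← Matrix.mul_assoc, xeglue_JJ, Matrix.mul_zero, Matrix.neg_mul,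
    Matrix.one_mul] at h1
  exact (add_neg_eq_zero.1 h1).symm

lemma xeglue_sp_lie {X Y : Matrix (LL g) (LL g) ℂ} (hX : X ∈ spK g ℂ) (hY : Y ∈ spK g ℂ) :
    X * Y - Y * X ∈ spK g ℂ := by
  have h1 : J (Fin g) ℂ * Xᵀ = -(X * J (Fin g) ℂ) := eq_neg_of_add_eq_zero_right (mem_spK.1 hX)
  have h2 : J (Fin g) ℂ * Yᵀ = -(Y * J (Fin g) ℂ) := eq_neg_of_add_eq_zero_right (mem_spK.1 hY)
  rw [mem_spK, transpose_sub, transpose_mul, transpose_mul, Matrix.mul_sub, ← Matrix.mul_assoc,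
    ← Matrix.mul_assoc, h1, h2, Matrix.neg_mul, Matrix.neg_mul, Matrix.mul_assoc, Matrix.mul_assoc,
    h1, h2]
  noncomm_ring

lemma xeglue_J_map (σ : ℂ →+* ℂ) : (J (Fin g) ℂ).map σ = J (Fin g) ℂ := by
  ext a b
  rcases a with a | a <;> rcases b with b | b <;> simp [J, Matrix.one_apply]

lemma xeglue_sp_map (σ : ℂ ≃+* ℂ) {X : Matrix (LL g) (LL g) ℂ} (h : X ∈ spK g ℂ) :
    X.map σ ∈ spK g ℂ := by
  have h1 := congrArg (fun Y => (σ : ℂ →+* ℂ).mapMatrix Y) (mem_spK.1 h)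
  simp only [map_add, map_mul, map_zero, RingHom.mapMatrix_apply, xeglue_J_map] at h1
  exact h1

lemma xeglue_trace {X : Matrix (LL g) (LL g) ℂ} (h : X ∈ spK g ℂ) : trace X = 0 := by
  have h1 := congrArg trace (xeglue_tr h)
  rw [trace_transpose, trace_mul_cycle, xeglue_JJ, Matrix.neg_mul, Matrix.one_mul,
    trace_neg] at h1
  linear_combination (1 / 2 : ℂ) * h1

lemma xeglue_EE : Eta g * Eta g = 1 := by
  simp [Eta, fromBlocks_multiply]

lemma xeglue_ss : swp g * swp g = 1 := by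
  simp [swp, fromBlocks_multiply]

lemma xeglue_Es : Eta g * swp g = J (Fin g) ℂ := by
  simp [Eta, swp, J, fromBlocks_multiply]

lemma xeglue_sE : swp g * Eta g = -J (Fin g) ℂ := by
  simp [Eta, swp, J, fromBlocks_multiply, fromBlocks_neg]

lemma xeglue_E_sp : Eta g ∈ spK g ℂ := by
  rw [mem_spK]
  simp [Eta, J, fromBlocks_multiply, fromBlocks_transpose, fromBlocks_add]

lemma xeglue_up_sp {Z : Matrix (Fin g) (Fin g) ℂ} (h : Zᵀ = Z) : up Z ∈ spK g ℂ := by
  rw [mem_spK]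
  simp [up, J, fromBlocks_multiply, fromBlocks_transpose, fromBlocks_add, h]

lemma xeglue_up_E {Z : Matrix (Fin g) (Fin g) ℂ} (h : up Z * Eta g = Eta g * up Z) : Z = 0 := by
  simp only [up, Eta, fromBlocks_multiply, fromBlocks_inj] at h
  have h1 := h.2.1
  simp only [Matrix.mul_zero, Matrix.mul_one, zero_add, add_zero, Matrix.neg_mul,
    Matrix.one_mul] at h1
  ext a b
  have h2 := congrFun (congrFun h1 a) b
  simp only [Matrix.neg_apply] at h2
  simp only [Matrix.zero_apply]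
  linear_combination (1 / 2 : ℂ) * h2

lemma xeglue_star {c : Matrix (LL g) (LL g) ℂ} (hc : IsUnit c.det) (hcj : cj c = c * swp g)
    {X : Matrix (LL g) (LL g) ℂ} (h : X ∈ spK g ℂ) :
    Xᴴ = -(Eta g * xegluePhi c hc conjAe.toRingEquiv X * Eta g) := by
  have e0 : ∀ M : Matrix (LL g) (LL g) ℂ, M.map conjAe.toRingEquiv = cj M := fun M => rfl
  have em : ∀ M N : Matrix (LL g) (LL g) ℂ, cj (M * N) = cj M * cj N := fun M N =>
    Matrix.map_mul
  have e1 : cj c⁻¹ * c = swp g := by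
    have h1 : cj (c⁻¹ * c) = 1 := by
      rw [nonsing_inv_mul _ hc]
      exact Matrix.map_one _ (map_zero _) (map_one _)
    rw [em, hcj, ← Matrix.mul_assoc] at h1
    rw [← Matrix.mul_one (cj c⁻¹ * c), ← xeglue_ss, ← Matrix.mul_assoc, h1, Matrix.one_mul]
  have e2 : xegluePhi c hc conjAe.toRingEquiv X = swp g * cj X * swp g := by
    rw [xeglue_phi, e0, em, em, hcj]
    simp only [Matrix.mul_assoc, nonsing_inv_mul_cancel_left _ _ hc, e1]
  have e3 : Xᴴ = cj Xᵀ := rfl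
  have e4 : cj (J (Fin g) ℂ) = J (Fin g) ℂ := xeglue_J_map _
  rw [e2, e3, xeglue_tr h, em, em, e4, ← Matrix.mul_assoc, ← Matrix.mul_assoc, xeglue_Es,
    Matrix.mul_assoc _ (swp g), xeglue_sE, Matrix.mul_neg, neg_neg]

variable {G : Type}

/-- the elements that kill the invariant tensors, in the frame `c` -/
def xeglueG (r : G → Matrix (LL g) (LL g) ℂ) (c : Matrix (LL g) (LL g) ℂ) :
    Submodule ℂ (Matrix (LL g) (LL g) ℂ) where
  carrier := {X | X ∈ spK g ℂ ∧ Kills r (c * X * c⁻¹)}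
  add_mem' := fun {a b} ha hb => ⟨(spK g ℂ).add_mem ha.1 hb.1, by
    rw [Matrix.mul_add, Matrix.add_mul]
    exact xeglue_add ha.2 hb.2⟩
  zero_mem' := ⟨(spK g ℂ).zero_mem, by
    rw [Matrix.mul_zero, Matrix.zero_mul]
    exact xeglue_zero⟩
  smul_mem' := fun z a ha => ⟨(spK g ℂ).smul_mem z ha.1, by
    rw [Matrix.mul_smul, Matrix.smul_mul]
    exact xeglue_smul z ha.2⟩

/-- the normaliser in the symplectic Lie algebra -/
def xeglueN (C : Submodule ℂ (Matrix (LL g) (LL g) ℂ)) :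
    Submodule ℂ (Matrix (LL g) (LL g) ℂ) where
  carrier := {X | X ∈ spK g ℂ ∧ ∀ Y ∈ C, X * Y - Y * X ∈ C}
  add_mem' := fun {a b} ha hb => ⟨(spK g ℂ).add_mem ha.1 hb.1, fun Y hY => by
    have e : (a + b) * Y - Y * (a + b) = (a * Y - Y * a) + (b * Y - Y * b) := by noncomm_ring
    rw [e]
    exact C.add_mem (ha.2 Y hY) (hb.2 Y hY)⟩
  zero_mem' := ⟨(spK g ℂ).zero_mem, fun Y _ => by simp⟩
  smul_mem' := fun z a ha => ⟨(spK g ℂ).smul_mem z ha.1, fun Y hY => by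
    rw [Matrix.mul_smul, Matrix.smul_mul, ← smul_sub]
    exact C.smul_mem z (ha.2 Y hY)⟩

/-- the commutant -/
def xeglueC (C : Submodule ℂ (Matrix (LL g) (LL g) ℂ)) :
    Submodule ℂ (Matrix (LL g) (LL g) ℂ) where
  carrier := {T | ∀ X ∈ C, T * X = X * T}
  add_mem' := fun {a b} ha hb X hX => by rw [add_mul, mul_add, ha X hX, hb X hX]
  zero_mem' := fun X _ => by simp
  smul_mem' := fun z a ha X hX => by rw [Matrix.mul_smul, Matrix.smul_mul, ha X hX]

lemma xeglue_N_lie {C : Submodule ℂ (Matrix (LL g) (LL g) ℂ)} {X Y : Matrix (LL g) (LL g) ℂ}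
    (hX : X ∈ xeglueN C) (hY : Y ∈ xeglueN C) : X * Y - Y * X ∈ xeglueN C :=
  ⟨xeglue_sp_lie hX.1 hY.1, fun Z hZ => by
    have e : (X * Y - Y * X) * Z - Z * (X * Y - Y * X) =
        (X * (Y * Z - Z * Y) - (Y * Z - Z * Y) * X) -
          (Y * (X * Z - Z * X) - (X * Z - Z * X) * Y) := by noncomm_ring
    rw [e]
    exact C.sub_mem (hX.2 _ (hY.2 Z hZ)) (hY.2 _ (hX.2 Z hZ))⟩

lemma xeglue_hH {c : Matrix (LL g) (LL g) ℂ} (hc : IsUnit c.det)
    (hE : ∀ T : Matrix (LL g) (LL g) ℂ, (∀ a b, ∃ q : ℚ, T a b = q) →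
      T * (c * Eta g * c⁻¹) = c * Eta g * c⁻¹ * T → ∃ z : ℂ, T = z • (1 : Matrix (LL g) (LL g) ℂ))
    (C : Submodule ℂ (Matrix (LL g) (LL g) ℂ)) (h1 : ∀ σ, ∀ X ∈ C, xegluePhi c hc σ X ∈ C)
    (h2 : ∀ X ∈ C, X * Eta g = Eta g * X) :
    ∀ X ∈ C, ∃ z : ℂ, X = z • (1 : Matrix (LL g) (LL g) ℂ) := by
  intro X hX
  let A : Submodule ℂ (Matrix (LL g) (LL g) ℂ) :=
    C.map ((LinearMap.mulRight ℂ c⁻¹).comp (LinearMap.mulLeft ℂ c))
  have hA : ∀ x, x ∈ A ↔ ∃ Y ∈ C, c * Y * c⁻¹ = x := fun x => Iff.rfl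
  have h3 := rat_span_mat A fun σ x hx => by
    obtain ⟨Y, hY, rfl⟩ := (hA x).1 hx
    exact (hA _).2 ⟨_, h1 σ Y hY, xeglue_ad_phi hc σ Y⟩
  have h4 : A ≤ Submodule.span ℂ {(1 : Matrix (LL g) (LL g) ℂ)} := by
    refine h3.trans (Submodule.span_le.2 ?_)
    rintro x ⟨hx, hq⟩
    obtain ⟨Y, hY, rfl⟩ := (hA x).1 hx
    have h5 := congrArg (xeglueAd c hc) (h2 Y hY)
    rw [map_mul, map_mul] at h5
    obtain ⟨z, hz⟩ := hE _ hq h5
    exact Submodule.mem_span_singleton.2 ⟨z, hz.symm⟩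
  obtain ⟨z, hz⟩ := Submodule.mem_span_singleton.1 (h4 ((hA _).2 ⟨X, hX, rfl⟩))
  refine ⟨z, (xeglueAd c hc).injective ?_⟩
  rw [xeglue_ad, xeglue_ad, ← hz, Matrix.mul_smul, Matrix.smul_mul, Matrix.mul_one,
    mul_nonsing_inv _ hc]

end sp

/-- the Lie algebra that kills the invariant tensors is the whole symplectic Lie algebra -/
theorem kills_all {g : ℕ} (hg : 0 < g) {G : Type} {r : G → Matrix (LL g) (LL g) ℂ}
    (hr : ∀ γ a b, ∃ z : ℤ, r γ a b = z) {c : Matrix (LL g) (LL g) ℂ} (hc : IsUnit c.det)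
    (hsp : ∀ X, c * X * c⁻¹ ∈ spK g ℂ ↔ X ∈ spK g ℂ) (hcj : cj c = c * swp g)
    (hμ : ∀ (κ : Type) [Fintype κ] [DecidableEq κ] (T : (κ → LL g) → ℂ), Fixd r T →
      Fixd r (dkr κ (c * Eta g * c⁻¹) *ᵥ T))
    (hE : ∀ T : Matrix (LL g) (LL g) ℂ, (∀ a b, ∃ q : ℚ, T a b = q) →
      T * (c * Eta g * c⁻¹) = c * Eta g * c⁻¹ * T → ∃ z : ℂ, T = z • (1 : Matrix (LL g) (LL g) ℂ))
    (W : Submodule ℂ (Matrix (Fin g) (Fin g) ℂ)) (hd : 2 * g ≤ Module.finrank ℂ W)
    (hW : ∀ Z ∈ W, Zᵀ = Z ∧ Kills r (c * up Z * c⁻¹)) :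
    ∀ ξ ∈ spK g ℂ, Kills r ξ := by
  have ad_lie : ∀ X Y : Matrix (LL g) (LL g) ℂ, c * (X * Y - Y * X) * c⁻¹ =
      c * X * c⁻¹ * (c * Y * c⁻¹) - c * Y * c⁻¹ * (c * X * c⁻¹) := fun X Y => by
    have h := map_sub (xeglueAd c hc) (X * Y) (Y * X)
    rwa [map_mul, map_mul] at h
  have φsp : ∀ σ, ∀ X ∈ spK g ℂ, xegluePhi c hc σ X ∈ spK g ℂ := fun σ X hX => by
    rw [← hsp, xeglue_ad_phi]
    exact xeglue_sp_map σ ((hsp X).2 hX)
  have φG : ∀ σ, ∀ X ∈ xeglueG r c, xegluePhi c hc σ X ∈ xeglueG r c := fun σ X hX =>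
    ⟨φsp σ X hX.1, by
      rw [xeglue_ad_phi]
      exact xeglue_map hr σ hX.2⟩
  have φN : ∀ σ, ∀ X ∈ xeglueN (xeglueG r c), xegluePhi c hc σ X ∈ xeglueN (xeglueG r c) :=
    fun σ X hX => ⟨φsp σ X hX.1, fun Y hY => by
      rw [← xeglue_phi_symm hc σ Y, ← map_mul, ← map_mul, ← map_sub]
      exact φG σ _ (hX.2 _ (φG _ Y hY))⟩
  have φN' : ∀ σ X, xegluePhi c hc σ X ∈ xeglueN (xeglueG r c) ↔ X ∈ xeglueN (xeglueG r c) :=
    fun σ X => ⟨fun h => by
      have h1 := φN σ.symm _ h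
      have h2 := xeglue_phi_symm hc σ.symm X
      rw [RingEquiv.symm_symm] at h2
      rwa [h2] at h1, φN σ X⟩
  have hη : Eta g ∈ xeglueN (xeglueG r c) := ⟨xeglue_E_sp, fun Y hY =>
    ⟨xeglue_sp_lie xeglue_E_sp hY.1, by
      rw [ad_lie]
      exact xeglue_lie hY.2 hμ⟩⟩
  have hH := xeglue_hH hc hE
  have hN : Red (xeglueN (xeglueG r c)) :=
    { lie := fun X hX Y hY => xeglue_N_lie hX hY
      star := fun X hX => by
        have hY := φN conjAe.toRingEquiv X hX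
        rw [xeglue_star hc hcj hX.1]
        generalize xegluePhi c hc conjAe.toRingEquiv X = Y at hY ⊢
        have e : Eta g * (Eta g * Y - Y * Eta g) - (Eta g * Y - Y * Eta g) * Eta g =
            (2 : ℂ) • (Y - Eta g * Y * Eta g) := by
          rw [Matrix.mul_sub, Matrix.sub_mul, ← Matrix.mul_assoc, xeglue_EE, Matrix.mul_assoc Y,
            xeglue_EE, two_smul]
          noncomm_ring
        have h1 := Submodule.smul_mem _ (2 : ℂ)⁻¹ (xeglue_N_lie hη (xeglue_N_lie hη hY))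
        rw [e, inv_smul_smul₀ two_ne_zero] at h1
        have h2 := Submodule.sub_mem _ h1 hY
        rwa [sub_sub_cancel_left] at h2
      tr := fun X hX => xeglue_trace hX.1
      comm := fun T hT => hH (xeglueC (xeglueN (xeglueG r c)))
        (fun σ S hS X hX => by
          rw [← xeglue_phi_symm hc σ X, ← map_mul, ← map_mul, hS _ (φN _ X hX)])
        (fun S hS => hS _ hη) T hT }
  have hid : IsId (xeglueN (xeglueG r c)) (xeglueG r c) :=
    ⟨fun X hX => ⟨hX.1, fun Y hY => ⟨xeglue_sp_lie hX.1 hY.1, by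
      rw [ad_lie]
      exact xeglue_lie' hX.2 hY.2⟩⟩, fun X hX => hX.2⟩
  have hWG : ∀ Z ∈ W, up Z ∈ xeglueG r c := fun Z hZ => ⟨xeglue_up_sp (hW Z hZ).1, (hW Z hZ).2⟩
  have hWN : W ≤ upW (xeglueN (xeglueG r c)) := fun Z hZ => hid.1 (hWG Z hZ)
  have hW0 : W ≠ ⊥ := by
    rintro rfl
    rw [finrank_bot] at hd
    omega
  have hd' : 2 * g ≤ Module.finrank ℂ (upW (xeglueN (xeglueG r c))) :=
    hd.trans (Submodule.finrank_mono hWN)
  have hηG : Eta g ∈ xeglueG r c := by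
    rcases hN.dich hid hη xeglue_EE with h | ⟨C', -, h1, h2⟩
    · exact h
    · exact absurd ((Submodule.eq_bot_iff W).2 fun Z hZ => xeglue_up_E (h2 _ (hWG Z hZ) _ h1)) hW0
  have hirr := core_irr hN hη (fun h => hW0 (le_bot_iff.1 (h ▸ hWN))) fun C hC hηC T hT =>
    core_comm hN hη (xegluePhi c hc) (xeglue_phi_smul hc) φN' hH hg hd' hC hηC hT
  have hall := core_all hN hid hηG (jt_full (core_jt hN fun X hX => hX.1) hirr hg hd')
  intro ξ hξ
  have e : c * (c⁻¹ * ξ * c) * c⁻¹ = ξ := (xeglueAd c hc).apply_symm_apply ξ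
  have h1 := (hall ((hsp _).1 (e.symm ▸ hξ))).2
  rwa [e] at h1

end Pool.Agent.MP_f58063_ag

end
end
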