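import Pool.Agent.MP_f58063_ag.E.Defs
import Pool.Agent.Mg.Fcf0a82q.Ga9bf1b

section

/-! Auxiliary notions for the theorem of the fixed part and the monodromy group: tensor powers
of matrices, Hodge projections, reductive matrix Lie algebras and triple systems. -/

open Complex Filter Topology Matrix

noncomputable section

namespace Pool.Agent.MP_f58063_ag

/-! ### Tensor powers -/

section kron

variable {l : Type} [Fintype l] [DecidableEq l]

/-- the tensor power of a matrix -/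
def kr (κ : Type) [Fintype κ] (M : Matrix l l ℂ) : Matrix (κ → l) (κ → l) ℂ :=
  Matrix.of fun a b => ∏ i, M (a i) (b i)

/-- the derivative of the tensor power at the identity -/
def dkr (κ : Type) [Fintype κ] [DecidableEq κ] (X : Matrix l l ℂ) : Matrix (κ → l) (κ → l) ℂ :=
  Matrix.of fun a b =>
    ∑ i, X (a i) (b i) * ∏ j ∈ Finset.univ.erase i, (1 : Matrix l l ℂ) (a j) (b j)

/-- the tensor `T` is fixed by all the matrices `r γ` -/
def Fixd {G : Type} (r : G → Matrix l l ℂ) {κ : Type} [Fintype κ] [DecidableEq κ]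
    (T : (κ → l) → ℂ) : Prop :=
  ∀ γ, kr κ (r γ) *ᵥ T = T

/-- `X` kills all tensors that are fixed by the matrices `r γ` -/
def Kills {G : Type} (r : G → Matrix l l ℂ) (X : Matrix l l ℂ) : Prop :=
  ∀ (κ : Type) [Fintype κ] [DecidableEq κ] (T : (κ → l) → ℂ), Fixd r T → dkr κ X *ᵥ T = 0

/-- the action by left multiplication on matrices, plus a line on which `M` acts by `c` -/
def xt (c : ℂ) (M : Matrix l l ℂ) : Matrix (Option (l × l)) (Option (l × l)) ℂ :=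
  Matrix.of fun a b =>
    match a, b with
    | none, none => c
    | some p, some q => if p.2 = q.2 then M p.1 q.1 else 0
    | _, _ => 0

/-- the vector of all monomials in the entries of `M` -/
def evv (κ : Type) [Fintype κ] (M : Matrix l l ℂ) : (κ → Option (l × l)) → ℂ :=
  fun a => ∏ i, (a i).elim 1 fun p => M p.1 p.2

end kron

/-- the square of the Euclidean norm -/
def nq {ι : Type} [Fintype ι] (v : ι → ℂ) : ℝ := ∑ a, ‖v a‖ ^ 2

/-- entrywise complex conjugate -/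
def cj {m n : Type} (M : Matrix m n ℂ) : Matrix m n ℂ := M.map (starRingEnd ℂ)

/-! ### Hodge projections -/

section hodge

variable {g : ℕ}

/-- number of indices in the second block -/
def wt {κ : Type} [Fintype κ] (a : κ → LL g) : ℕ :=
  (Finset.univ.filter fun i => (a i).isRight = true).card

/-- projection onto the tensors of weight `p` -/
def Pw (κ : Type) [Fintype κ] [DecidableEq κ] (g p : ℕ) : Matrix (κ → LL g) (κ → LL g) ℂ :=
  diagonal fun a => if wt a = p then 1 else 0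

/-- the grading element -/
def Eta (g : ℕ) : Matrix (LL g) (LL g) ℂ := fromBlocks (-1) 0 0 1

/-- exchange of the two blocks -/
def swp (g : ℕ) : Matrix (LL g) (LL g) ℂ := fromBlocks 0 1 1 0

/-- upper right block -/
def up (Z : Matrix (Fin g) (Fin g) ℂ) : Matrix (LL g) (LL g) ℂ := fromBlocks 0 Z 0 0

lemma up_add (Z Z' : Matrix (Fin g) (Fin g) ℂ) : up (Z + Z') = up Z + up Z' := by
  simp [up, fromBlocks_add]

lemma up_smul (c : ℂ) (Z : Matrix (Fin g) (Fin g) ℂ) : up (c • Z) = c • up Z := by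
  simp [up, fromBlocks_smul]

lemma up_zero : up (0 : Matrix (Fin g) (Fin g) ℂ) = 0 := by
  simp [up]

/-- the upper right blocks that lie in `N` -/
def upW (N : Submodule ℂ (Matrix (LL g) (LL g) ℂ)) : Submodule ℂ (Matrix (Fin g) (Fin g) ℂ) where
  carrier := {Z | up Z ∈ N}
  add_mem' := fun {a b} ha hb => by
    change up (a + b) ∈ N
    rw [up_add]
    exact N.add_mem ha hb
  zero_mem' := by
    change up 0 ∈ N
    rw [up_zero]
    exact N.zero_mem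
  smul_mem' := fun c a ha => by
    change up (c • a) ∈ N
    rw [up_smul]
    exact N.smul_mem c ha

lemma mem_upW {N : Submodule ℂ (Matrix (LL g) (LL g) ℂ)} {Z : Matrix (Fin g) (Fin g) ℂ} :
    Z ∈ upW N ↔ up Z ∈ N := Iff.rfl

/-- the Hodge frame in the disc model -/
def cZ (Z : Matrix (Fin g) (Fin g) ℂ) : Matrix (LL g) (LL g) ℂ := fromBlocks 1 Z (cj Z) 1

/-- the Hodge frame -/
def bf (τ : Mat g) : Matrix (LL g) (LL g) ℂ :=
  fromBlocks (cj (Matrix.of τ)) (Matrix.of τ) 1 1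

/-- the Hodge grading element -/
def mu (τ : Mat g) : Matrix (LL g) (LL g) ℂ := bf τ * Eta g * (bf τ)⁻¹

/-- `A` is real and normalises the imaginary part of `τ` -/
def IsUF (τ : Mat g) (A : Matrix (Fin g) (Fin g) ℂ) : Prop :=
  cj A = A ∧ Aᵀ * (Matrix.of τ - cj (Matrix.of τ)) * A = I • (1 : Matrix (Fin g) (Fin g) ℂ)

/-- the unitary Hodge frame -/
def uf (τ : Mat g) (A : Matrix (Fin g) (Fin g) ℂ) : Matrix (LL g) (LL g) ℂ :=
  bf τ * fromBlocks A 0 0 A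

/-- the projection onto the tensors of weight `p` in the frame `c` -/
def Pc (κ : Type) [Fintype κ] [DecidableEq κ] (p : ℕ) (c : Matrix (LL g) (LL g) ℂ) :
    Matrix (κ → LL g) (κ → LL g) ℂ :=
  kr κ c * Pw κ g p * kr κ c⁻¹

/-- the Hodge projection -/
def Hp (κ : Type) [Fintype κ] [DecidableEq κ] (p : ℕ) (τ : Mat g) :
    Matrix (κ → LL g) (κ → LL g) ℂ :=
  Pc κ p (bf τ)

/-- the absolute value of the sesquilinear form with matrix the tensor power of `Q` -/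
def Hf {κ : Type} [Fintype κ] [DecidableEq κ] (Q : Matrix (LL g) (LL g) ℂ)
    (x : (κ → LL g) → ℂ) : ℝ :=
  ‖star x ⬝ᵥ (kr κ Q *ᵥ x)‖

/-- the square of the Hodge norm of the Hodge component -/
def Hn {κ : Type} [Fintype κ] [DecidableEq κ] (p : ℕ) (s : (κ → LL g) → ℂ) (τ : Mat g) : ℝ :=
  Hf (J (Fin g) ℂ) (Hp κ p τ *ᵥ s)

end hodge

/-- a local form of logarithmic subharmonicity -/
def LogSub (u : ℂ → ℝ) (t₀ : ℂ) : Prop :=
  ∀ φ : ℂ → ℂ, AnalyticAt ℂ φ t₀ → ∀ η : ℝ, 0 < η →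
    ¬ IsLocalMax (fun t => u t * ‖φ t‖ ^ 2 + η * ‖t‖ ^ 2) t₀

/-- moderate growth on the Siegel space -/
def ModG {g : ℕ} (f : Mat g → ℝ) : Prop :=
  ∃ (C : ℝ) (N : ℕ), ∀ τ ∈ Siegel g, ∀ r : ℝ, 1 ≤ r → ‖τ‖ ≤ r →
    (∀ a b, ‖(Matrix.of τ - cj (Matrix.of τ))⁻¹ a b‖ ≤ r) → f τ ≤ C * r ^ N

/-- the data of a finite cover -/
structure CovD {g d : ℕ} (S : Set (Mat g)) (Δ : Subgroup (Sp g)) (R : MvPolynomial (Fin d) ℂ)
    (y : Mat g → Fin d → ℂ) : Prop where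
  sub : S ⊆ Siegel g
  ne : R ≠ 0
  cov : IsCoveringMapOn (S.domRestrict y) {u | MvPolynomial.eval u R ≠ 0}
  mem : ∀ τ ∈ S, MvPolynomial.eval (y τ) R ≠ 0
  an : ∀ τ ∈ S, AnalyticAt ℂ y τ
  sec : ∀ τ ∈ S, ∃ σ : (Fin d → ℂ) → Mat g, AnalyticAt ℂ σ (y τ) ∧
    ∀ᶠ τ' in 𝓝[S] τ, σ (y τ') = τ'
  inv : ∀ γ ∈ Δ, ∀ τ ∈ S, act γ τ ∈ S ∧ y (act γ τ) = y τ
  fin : ∀ u, ∃ F : Finset (Mat g), ∀ τ ∈ S, y τ = u → ∃ γ ∈ Δ, act γ τ ∈ F

/-- the maximum over the fibres -/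
def us {g d : ℕ} (S : Set (Mat g)) (y : Mat g → Fin d → ℂ) (f : Mat g → ℝ) (u : Fin d → ℂ) : ℝ :=
  sSup (f '' {τ | τ ∈ S ∧ y τ = u})

/-! ### Matrix Lie algebras -/

section lie

variable {n : Type} [Fintype n] [DecidableEq n]

/-- `C` is an ideal of `N` -/
def IsId (N C : Submodule ℂ (Matrix n n ℂ)) : Prop :=
  C ≤ N ∧ ∀ X ∈ N, ∀ Y ∈ C, X * Y - Y * X ∈ C

/-- an irreducible self-adjoint Lie algebra of traceless matrices -/
structure Red (N : Submodule ℂ (Matrix n n ℂ)) : Prop where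
  lie : ∀ X ∈ N, ∀ Y ∈ N, X * Y - Y * X ∈ N
  star : ∀ X ∈ N, Xᴴ ∈ N
  tr : ∀ X ∈ N, trace X = 0
  comm : ∀ T : Matrix n n ℂ, (∀ X ∈ N, T * X = X * T) → ∃ c : ℂ, T = c • (1 : Matrix n n ℂ)

end lie

/-! ### Triple systems of symmetric matrices -/

section triple

variable {g : ℕ}

/-- a triple system of symmetric matrices -/
structure JT (W : Submodule ℂ (Matrix (Fin g) (Fin g) ℂ)) : Prop where
  sym : ∀ x ∈ W, xᵀ = x
  tri : ∀ x ∈ W, ∀ y ∈ W, ∀ z ∈ W, x * yᴴ * z + z * yᴴ * x ∈ W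

/-- irreducibility -/
def JIrr (W : Submodule ℂ (Matrix (Fin g) (Fin g) ℂ)) : Prop :=
  ∀ U : Submodule ℂ (Fin g → ℂ), (∀ x ∈ W, ∀ y ∈ W, ∀ u ∈ U, (x * yᴴ) *ᵥ u ∈ U) →
    U = ⊥ ∨ U = ⊤

/-- a maximal family of orthogonal minimal tripotents -/
structure Fram (W : Submodule ℂ (Matrix (Fin g) (Fin g) ℂ)) {r : ℕ}
    (e : Fin r → Matrix (Fin g) (Fin g) ℂ) : Prop where
  jt : JT W
  mem : ∀ i, e i ∈ W
  ne : ∀ i, e i ≠ 0
  tri : ∀ i, e i * (e i)ᴴ * e i = e i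
  orth : ∀ i j, i ≠ j → (e i)ᴴ * e j = 0
  min : ∀ i, ∀ x ∈ W, ∃ c : ℂ, e i * (e i)ᴴ * x * ((e i)ᴴ * e i) = c • e i
  max : ∀ x ∈ W, (∀ i, (e i)ᴴ * x = 0) → x = 0

/-- the range projection of a tripotent -/
def pp {r : ℕ} (e : Fin r → Matrix (Fin g) (Fin g) ℂ) (i : Fin r) : Matrix (Fin g) (Fin g) ℂ :=
  e i * (e i)ᴴ

/-- the complementary projection -/
def p0 {r : ℕ} (e : Fin r → Matrix (Fin g) (Fin g) ℂ) : Matrix (Fin g) (Fin g) ℂ :=
  1 - ∑ i, pp e i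

/-- the blocks of the elements of `W`, as operators -/
def RR (W : Submodule ℂ (Matrix (Fin g) (Fin g) ℂ)) {r : ℕ}
    (e : Fin r → Matrix (Fin g) (Fin g) ℂ) (i j : Fin r) :
    Submodule ℂ (Matrix (Fin g) (Fin g) ℂ) where
  carrier := {a | ∃ x ∈ W, a = pp e i * x * (e j)ᴴ}
  add_mem' := by
    rintro _ _ ⟨x, hx, rfl⟩ ⟨y, hy, rfl⟩
    exact ⟨x + y, W.add_mem hx hy, by rw [Matrix.mul_add, Matrix.add_mul]⟩
  zero_mem' := ⟨0, W.zero_mem, by simp⟩
  smul_mem' := by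
    rintro c _ ⟨x, hx, rfl⟩
    exact ⟨c • x, W.smul_mem c hx, by simp⟩

lemma mem_RR {W : Submodule ℂ (Matrix (Fin g) (Fin g) ℂ)} {r : ℕ}
    {e : Fin r → Matrix (Fin g) (Fin g) ℂ} {i j : Fin r} {a : Matrix (Fin g) (Fin g) ℂ} :
    a ∈ RR W e i j ↔ ∃ x ∈ W, a = pp e i * x * (e j)ᴴ := Iff.rfl

end triple

end Pool.Agent.MP_f58063_ag

end
end

section

open Complex Filter Topology Matrix Function Asymptotics

noncomputable section

namespace Pool.Agent.MP_f58063_ag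

variable {g d : ℕ} {S : Set (Mat g)}

lemma xecov_cx_one : cx (1 : Sp g) = fromBlocks 1 0 0 1 := by
  rw [fromBlocks_one]
  exact Matrix.map_one _ Int.cast_zero Int.cast_one

lemma xecov_cx_mul (γ γ' : Sp g) : cx (γ * γ') = cx γ * cx γ' :=
  Matrix.map_mul (f := Int.castRingHom ℂ)

lemma xecov_blocks (γ γ' : Sp g) : cx (γ * γ') = fromBlocks
    ((cx γ).toBlocks₁₁ * (cx γ').toBlocks₁₁ + (cx γ).toBlocks₁₂ * (cx γ').toBlocks₂₁)
    ((cx γ).toBlocks₁₁ * (cx γ').toBlocks₁₂ + (cx γ).toBlocks₁₂ * (cx γ').toBlocks₂₂)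
    ((cx γ).toBlocks₂₁ * (cx γ').toBlocks₁₁ + (cx γ).toBlocks₂₂ * (cx γ').toBlocks₂₁)
    ((cx γ).toBlocks₂₁ * (cx γ').toBlocks₁₂ + (cx γ).toBlocks₂₂ * (cx γ').toBlocks₂₂) := by
  rw [← fromBlocks_multiply, fromBlocks_toBlocks, fromBlocks_toBlocks, xecov_cx_mul]

lemma xecov_jac_mul (γ γ' : Sp g) {τ : Mat g} (hτ : τ ∈ Siegel g) :
    jac (γ * γ') τ = jac γ (act γ' τ) * jac γ' τ := by
  have h := xsact_mul_jac γ' (jac_det γ' hτ)
  conv_rhs => rw [jac, Matrix.add_mul, Matrix.mul_assoc, h]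
  unfold jac xsactNum
  rw [xecov_blocks, toBlocks_fromBlocks₂₁, toBlocks_fromBlocks₂₂]
  noncomm_ring

lemma xecov_num_mul (γ γ' : Sp g) {τ : Mat g} (hτ : τ ∈ Siegel g) :
    xsactNum (γ * γ') τ = xsactNum γ (act γ' τ) * jac γ' τ := by
  have h := xsact_mul_jac γ' (jac_det γ' hτ)
  conv_rhs => rw [xsactNum, Matrix.add_mul, Matrix.mul_assoc, h]
  unfold jac xsactNum
  rw [xecov_blocks, toBlocks_fromBlocks₁₁, toBlocks_fromBlocks₁₂]
  noncomm_ring

theorem act_one (τ : Mat g) : act 1 τ = τ := by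
  refine Matrix.of.injective ?_
  rw [act_eq, jac, xecov_cx_one, toBlocks_fromBlocks₁₁, toBlocks_fromBlocks₁₂,
    toBlocks_fromBlocks₂₁, toBlocks_fromBlocks₂₂]
  simp

theorem act_mul (γ γ' : Sp g) {τ : Mat g} (hτ : τ ∈ Siegel g) :
    act (γ * γ') τ = act γ (act γ' τ) := by
  refine Matrix.of.injective ?_
  rw [xsact_eq, xsact_eq, xecov_jac_mul γ γ' hτ, xecov_num_mul γ γ' hτ, Matrix.mul_inv_rev,
    ← Matrix.mul_assoc, mul_nonsing_inv_cancel_right _ _ (isUnit_iff_ne_zero.2 (jac_det γ' hτ))]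

theorem FinCover.covD (h : FinCover S d) (hS : S ⊆ Siegel g) {Γ : Subgroup (Sp g)}
    (hΓ : Γ.FiniteIndex) : ∃ (Δ : Subgroup (Sp g)) (R : MvPolynomial (Fin d) ℂ)
      (y : Mat g → Fin d → ℂ), Δ ≤ Γ ∧ CovD S Δ R y := by
  classical
  obtain ⟨Δ, R, y, hR, hc, h1, h2, h3⟩ := h
  refine ⟨Δ ⊓ Γ, R, y, inf_le_right, hS, hR, hc, fun τ hτ => (h1 τ hτ).1,
    fun τ hτ => (h1 τ hτ).2.1, fun τ hτ => (h1 τ hτ).2.2, fun γ hγ => h2 γ hγ.1, fun u => ?_⟩
  obtain ⟨F, hF⟩ := h3 u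
  have : Fintype (Sp g ⧸ Γ) := Fintype.ofFinite _
  have hρ : ∀ c : Sp g ⧸ Γ, ∃ ρ ∈ Δ, ∀ γ ∈ Δ, (γ : Sp g ⧸ Γ) = c → (ρ : Sp g ⧸ Γ) = c := by
    intro c
    by_cases e : ∃ γ ∈ Δ, (γ : Sp g ⧸ Γ) = c
    · obtain ⟨ρ, a, b⟩ := e
      exact ⟨ρ, a, fun _ _ _ => b⟩
    · exact ⟨1, one_mem _, fun γ a b => absurd ⟨γ, a, b⟩ e⟩
  choose ρ hρ hρ' using hρ
  refine ⟨Finset.univ.biUnion fun c => F.image (act (ρ c)⁻¹), fun τ hτ hy => ?_⟩
  obtain ⟨γ, hγ, hγF⟩ := hF τ hτ hy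
  refine ⟨(ρ γ)⁻¹ * γ, ⟨Δ.mul_mem (Δ.inv_mem (hρ _)) hγ, QuotientGroup.eq.1 (hρ' _ γ hγ rfl)⟩, ?_⟩
  rw [act_mul _ _ (hS hτ)]
  exact Finset.mem_biUnion.2 ⟨γ, Finset.mem_univ _, Finset.mem_image_of_mem _ hγF⟩

theorem CovD.mfd {Δ : Subgroup (Sp g)} {R : MvPolynomial (Fin d) ℂ} {y : Mat g → Fin d → ℂ}
    (h : CovD S Δ R y) (hc : IsPreconnected S) : IsMfd S d := by
  refine ⟨hc, fun τ hτ => ?_⟩
  obtain ⟨σ, hσ, he⟩ := h.sec τ hτ
  have h0 : σ (y τ) = τ := he.self_of_nhdsWithin hτ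
  have h1 : map y (𝓝[S] τ) = 𝓝 (y τ) := by
    rw [nhdsWithin_eq_map_subtype_coe hτ, Filter.map_map]
    exact h.cov.isLocalHomeomorphOn.map_nhds_eq (x := ⟨τ, hτ⟩) (h.mem τ hτ)
  have h2 : map σ (𝓝 (y τ)) = 𝓝[S] τ := by
    rw [← h1, Filter.map_map]
    exact (Filter.map_congr (m₂ := id) he).trans Filter.map_id
  have h3 : ∀ᶠ u in 𝓝 (y τ), y (σ u) = u := by
    rw [← h1, eventually_map]
    exact he.mono fun τ' e => by rw [e]
  have h4 : map (fun x => y τ + x) (𝓝 0) = 𝓝 (y τ) := map_add_left_nhds_zero (y τ)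
  have ha : AnalyticAt ℂ (fun x => σ (y τ + x)) 0 :=
    AnalyticAt.comp_of_eq hσ (analyticAt_const.add analyticAt_id) (add_zero _)
  refine ⟨fun x => σ (y τ + x), by simpa using h0, ha, ?_, ?_⟩
  · have h5 : (y ∘ fun x => σ (y τ + x)) =ᶠ[𝓝 0] fun x => y τ + x := by
      rw [← h4, eventually_map] at h3
      exact h3
    have hy : DifferentiableAt ℂ y (σ (y τ + 0)) := by
      rw [add_zero, h0]
      exact (h.an τ hτ).differentiableAt
    have h6 := h5.fderiv_eq (𝕜 := ℂ)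
    rw [fderiv_comp 0 hy ha.differentiableAt, fderiv_const_add, fderiv_fun_id] at h6
    intro a b e
    have h7 := fun v => congrArg (fun L => L v) h6
    simp only [ContinuousLinearMap.comp_apply, ContinuousLinearMap.id_apply] at h7
    rw [← h7 a, e, h7 b]
  · rw [← h2, ← h4, Filter.map_map]
    rfl

end Pool.Agent.MP_f58063_ag

end
end

section

open Complex Filter Topology Matrix Function Asymptotics

noncomputable section

namespace Pool.Agent.MP_f58063_ag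

section

variable {g : ℕ}

/-- the symplectic form -/
def xespgOm (x y : LL g → ℂ) : ℂ := x ⬝ᵥ (J (Fin g) ℂ *ᵥ y)

theorem xespg_skew (x y : LL g → ℂ) : xespgOm x y = -xespgOm y x := by
  unfold xespgOm
  rw [dotProduct_mulVec, ← mulVec_transpose, J_transpose, neg_mulVec, neg_dotProduct,
    dotProduct_comm]

theorem xespg_self (x : LL g → ℂ) : xespgOm x x = 0 := by
  have := xespg_skew x x
  linear_combination (1 / 2 : ℂ) * this

theorem xespg_add_left (x x' y : LL g → ℂ) : xespgOm (x + x') y = xespgOm x y + xespgOm x' y :=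
  add_dotProduct _ _ _

theorem xespg_sub_left (x x' y : LL g → ℂ) : xespgOm (x - x') y = xespgOm x y - xespgOm x' y :=
  sub_dotProduct _ _ _

theorem xespg_smul_left (c : ℂ) (x y : LL g → ℂ) : xespgOm (c • x) y = c * xespgOm x y := by
  simp [xespgOm]

theorem xespg_add_right (x y y' : LL g → ℂ) :
    xespgOm x (y + y') = xespgOm x y + xespgOm x y' := by
  simp [xespgOm, mulVec_add]

theorem xespg_nd {v : LL g → ℂ} (hv : v ≠ 0) : ∃ x, xespgOm v x ≠ 0 := by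
  by_contra h
  push Not at h
  refine hv (dotProduct_eq_zero v fun w => ?_)
  have := h (-(J (Fin g) ℂ *ᵥ w))
  rwa [xespgOm, mulVec_neg, mulVec_mulVec, J_squared, neg_mulVec, one_mulVec, neg_neg] at this

theorem xespg_inv {M : Matrix (LL g) (LL g) ℂ} (hM : M ∈ symplecticGroup (Fin g) ℂ)
    (x y : LL g → ℂ) : xespgOm (M *ᵥ x) (M *ᵥ y) = xespgOm x y := by
  have h := SymplecticGroup.mem_iff'.1 hM
  unfold xespgOm
  rw [← vecMul_transpose, ← dotProduct_mulVec, mulVec_mulVec, mulVec_mulVec, h]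

theorem xespg_tr (v z : LL g → ℂ) : (1 + sv v) *ᵥ z = z + xespgOm v z • v := by
  rw [add_mulVec, one_mulVec, sv, ← mulVec_mulVec, vecMulVec_mulVec]
  simp [xespgOm]

theorem xespg_mem (v : LL g → ℂ) : 1 + sv v ∈ symplecticGroup (Fin g) ℂ := by
  simpa using one_add_sv v (1 : ℂ)

theorem xespg_cancel (v : LL g → ℂ) : (1 + sv (I • v)) * (1 + sv v) = 1 := by
  have h : sv (I • v) = -sv v := by
    simp only [sv, smul_vecMulVec, vecMulVec_smul, smul_smul, I_mul_I, neg_smul, one_smul,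
      Matrix.neg_mul]
  rw [h, Matrix.add_mul, Matrix.one_mul, Matrix.neg_mul, Matrix.mul_add, Matrix.mul_one, xsalgc_sq]
  simp

/-- the fixed vectors -/
def xespgFix (M : Matrix (LL g) (LL g) ℂ) : Submodule ℂ (LL g → ℂ) where
  carrier := {x | M *ᵥ x = x}
  add_mem' := fun {a b} ha hb => by
    have h1 : M *ᵥ a = a := ha
    have h2 : M *ᵥ b = b := hb
    change M *ᵥ (a + b) = a + b
    rw [mulVec_add, h1, h2]
  zero_mem' := mulVec_zero M
  smul_mem' := fun c a ha => by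
    have h1 : M *ᵥ a = a := ha
    change M *ᵥ (c • a) = c • a
    rw [mulVec_smul, h1]

theorem xespg_le {M : Matrix (LL g) (LL g) ℂ} (hM : M ∈ symplecticGroup (Fin g) ℂ) (c : ℂ)
    (x : LL g → ℂ) : xespgFix M ≤ xespgFix ((1 + sv (c • (M *ᵥ x - x))) * M) := by
  intro f hf
  have h1 : M *ᵥ f = f := hf
  change ((1 + sv (c • (M *ᵥ x - x))) * M) *ᵥ f = f
  have h2 := xespg_inv hM x f
  rw [h1] at h2
  rw [← mulVec_mulVec, h1, xespg_tr, xespg_smul_left, xespg_sub_left, h2]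
  simp

theorem xespg_A {M : Matrix (LL g) (LL g) ℂ} (hM : M ∈ symplecticGroup (Fin g) ℂ)
    {x : LL g → ℂ} (hx : xespgOm (M *ᵥ x) x ≠ 0) :
    ∃ v, xespgFix M < xespgFix ((1 + sv v) * M) := by
  obtain ⟨c, hc⟩ := IsAlgClosed.exists_pow_nat_eq (-(xespgOm (M *ᵥ x) x)⁻¹) (n := 2) two_pos
  refine ⟨c • (M *ᵥ x - x), lt_of_le_of_ne (xespg_le hM c x) fun h => hx ?_⟩
  have : x ∈ xespgFix ((1 + sv (c • (M *ᵥ x - x))) * M) := by
    change ((1 + sv (c • (M *ᵥ x - x))) * M) *ᵥ x = x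
    rw [← mulVec_mulVec, xespg_tr, xespg_smul_left, xespg_sub_left, xespg_self, xespg_skew x,
      smul_smul]
    have h3 : c * (0 - -xespgOm (M *ᵥ x) x) * c = -1 := by
      have : c * (0 - -xespgOm (M *ᵥ x) x) * c = c ^ 2 * xespgOm (M *ᵥ x) x := by ring
      rw [this, hc, neg_mul, inv_mul_cancel₀ hx]
    rw [h3]
    simp
  rw [← h] at this
  have h1 : M *ᵥ x = x := this
  rw [h1, xespg_self]

theorem xespg_B {M : Matrix (LL g) (LL g) ℂ} (hM : M ∈ symplecticGroup (Fin g) ℂ) (h1 : M ≠ 1) :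
    ∃ v x, xespgFix M ≤ xespgFix ((1 + sv v) * M) ∧ xespgOm (((1 + sv v) * M) *ᵥ x) x ≠ 0 := by
  by_cases h : ∃ x, xespgOm (M *ᵥ x) x ≠ 0
  · obtain ⟨x, hx⟩ := h
    refine ⟨0, x, ?_, ?_⟩ <;> simp [sv, hx]
  push Not at h
  obtain ⟨y, hy⟩ : ∃ y, M *ᵥ y - y ≠ 0 := by
    by_contra h'
    push Not at h'
    refine h1 (ext_of_mulVec_single fun i => ?_)
    rw [one_mulVec]
    exact sub_eq_zero.1 (h' _)
  set v := M *ᵥ y - y with hv
  obtain ⟨x1, h1⟩ := xespg_nd hy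
  obtain ⟨x2, h2⟩ : ∃ x, xespgOm v (M *ᵥ x) ≠ 0 := by
    refine ⟨M⁻¹ *ᵥ x1, ?_⟩
    rwa [mulVec_mulVec, mul_nonsing_inv _ (SymplecticGroup.symplectic_det hM), one_mulVec]
  obtain ⟨x, hx1, hx2⟩ : ∃ x, xespgOm v x ≠ 0 ∧ xespgOm v (M *ᵥ x) ≠ 0 := by
    by_cases a1 : xespgOm v (M *ᵥ x1) = 0
    · by_cases a2 : xespgOm v x2 = 0
      · refine ⟨x1 + x2, ?_, ?_⟩
        · rwa [xespg_add_right, a2, add_zero]
        · rwa [mulVec_add, xespg_add_right, a1, zero_add]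
      · exact ⟨x2, a2, h2⟩
    · exact ⟨x1, h1, a1⟩
  refine ⟨v, x, by simpa using xespg_le hM 1 y, ?_⟩
  rw [← mulVec_mulVec, xespg_tr, xespg_add_left, h x, zero_add, xespg_smul_left]
  exact mul_ne_zero hx2 hx1

end

/-- the symplectic group is generated by transvections -/
theorem sp_ind {g : ℕ} {Q : Matrix (LL g) (LL g) ℂ → Prop} (h1 : Q 1)
    (hs : ∀ (v : LL g → ℂ) (M : Matrix (LL g) (LL g) ℂ), Q M → Q ((1 + sv v) * M)) :
    ∀ M ∈ symplecticGroup (Fin g) ℂ, Q M := by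
  have back : ∀ v M, Q ((1 + sv v) * M) → Q M := fun v M h => by
    have := hs (I • v) _ h
    rwa [← Matrix.mul_assoc, xespg_cancel, Matrix.one_mul] at this
  have key : ∀ W : Submodule ℂ (LL g → ℂ), ∀ M ∈ symplecticGroup (Fin g) ℂ,
      xespgFix M = W → Q M := by
    intro W
    induction W using (wellFounded_gt (α := Submodule ℂ (LL g → ℂ))).induction with
    | _ W ih =>
      intro M hM hW
      by_cases h : M = 1
      · rwa [h]
      obtain ⟨v, x, hle, hx⟩ := xespg_B hM h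
      have hM' := mul_mem (xespg_mem v) hM
      obtain ⟨v', hlt⟩ := xespg_A hM' hx
      exact back v M (back v' _ (ih _ (hW ▸ lt_of_le_of_lt hle hlt) _
        (mul_mem (xespg_mem v') hM') rfl))
  exact fun M hM => key _ M hM rfl

end Pool.Agent.MP_f58063_ag

end
end
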