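import Pool.Agent.Mg.Fcf0a82q.G341a9c
import Pool.Agent.Mg.Fcf0a82q.G3d2c3a
import Pool.Agent.Mg.Fcf0a82q.G7c9b0d
import Pool.Agent.Mg.Fcf0a82q.Gf9af85
import Pool.Agent.Mg.Fcf0a82q.Ga9bf1b
import Pool.Agent.Mg.Fcf0a82q.Gcc2695
import Pool.Agent.Mg.Fcf0a82q.G43ea66

section

open Complex Filter Topology Matrix Function Asymptotics

noncomputable section

namespace Pool.Agent.MP_f58063_ag

variable {g : ℕ} {κ : Type} [Fintype κ] [DecidableEq κ] {Z : ℂ → Mat g} {t₀ : ℂ} {p : ℕ}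
  {s : (κ → LL g) → ℂ}

/-- entrywise real derivative of a matrix valued function -/
def xelocbD {m n : Type} (t₀ : ℂ) (A A' : ℂ → Matrix m n ℂ) : Prop :=
  ∀ a b, ∃ L : ℂ →L[ℝ] ℂ, HasFDerivAt (fun t => A t a b) L t₀ ∧ ∀ h, L h = A' h a b

theorem xelocb_const {m n : Type} (C : Matrix m n ℂ) : xelocbD t₀ (fun _ => C) fun _ => 0 :=
  fun a b => ⟨0, hasFDerivAt_const (C a b) t₀, fun _ => rfl⟩

theorem xelocb_mul {m n o : Type} [Fintype n] {A A' : ℂ → Matrix m n ℂ} {B B' : ℂ → Matrix n o ℂ}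
    (hA : xelocbD t₀ A A') (hB : xelocbD t₀ B B') :
    xelocbD t₀ (fun t => A t * B t) fun h => A' h * B t₀ + A t₀ * B' h := by
  choose L hL hL' using hA
  choose M hM hM' using hB
  refine fun a b => ⟨_, HasFDerivAt.fun_sum fun c _ => (hL a c).fun_mul (hM c b), fun h => ?_⟩
  simp only [_root_.sum_apply, _root_.add_apply,
    _root_.smul_apply, hL', hM', smul_eq_mul, Matrix.add_apply, Matrix.mul_apply,
    ← Finset.sum_add_distrib]
  exact Finset.sum_congr rfl fun c _ => by ring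

variable {l : Type} [Fintype l] [DecidableEq l] {A A' : ℂ → Matrix l l ℂ}

omit [Fintype l] in
theorem xelocb_kr (hA : xelocbD t₀ A A') (h1 : A t₀ = 1) :
    xelocbD t₀ (fun t => kr κ (A t)) fun h => dkr κ (A' h) := by
  choose L hL hL' using hA
  refine fun a b => ⟨_, HasFDerivAt.finsetProd fun i _ => hL (a i) (b i), fun h => ?_⟩
  simp only [_root_.sum_apply, _root_.smul_apply, hL', smul_eq_mul, dkr,
    of_apply, h1]
  exact Finset.sum_congr rfl fun c _ => mul_comm _ _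

theorem xelocb_det (h : ∀ a b, DifferentiableAt ℝ (fun t => A t a b) t₀) :
    DifferentiableAt ℝ (fun t => (A t).det) t₀ := by
  simp only [det_apply']
  exact DifferentiableAt.fun_sum fun σ _ => (differentiableAt_const _).fun_mul
    (HasFDerivAt.finsetProd fun i _ => (h _ _).hasFDerivAt).differentiableAt

theorem xelocb_inv (hA : xelocbD t₀ A A') (h1 : A t₀ = 1) :
    xelocbD t₀ (fun t => (A t)⁻¹) fun h => -A' h := by
  have hd : ∀ a b, DifferentiableAt ℝ (fun t => A t a b) t₀ := fun a b =>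
    (hA a b).choose_spec.1.differentiableAt
  have h0 : (A t₀).det ≠ 0 := by rw [h1, det_one]; exact one_ne_zero
  have hi : ∀ a b, DifferentiableAt ℝ (fun t => (A t)⁻¹ a b) t₀ := by
    intro a b
    simp only [Matrix.inv_def, Ring.inverse_eq_inv', Matrix.smul_apply, smul_eq_mul,
      Matrix.adjugate_apply]
    refine ((xelocb_det hd).fun_inv h0).fun_mul (xelocb_det fun i j => ?_)
    simp only [Matrix.updateRow_apply]
    split_ifs
    · exact differentiableAt_const _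
    · exact hd i j
  have hB : xelocbD t₀ (fun t => (A t)⁻¹)
      fun h => Matrix.of fun a b => fderiv ℝ (fun t => (A t)⁻¹ a b) t₀ h :=
    fun a b => ⟨_, (hi a b).hasFDerivAt, fun _ => rfl⟩
  refine fun a b => ⟨_, (hi a b).hasFDerivAt, fun h => ?_⟩
  obtain ⟨L, hL, hL'⟩ := xelocb_mul hA hB a b
  have e : L = 0 := by
    refine hL.unique ((hasFDerivAt_const ((1 : Matrix l l ℂ) a b) t₀).congr_of_eventuallyEq ?_)
    filter_upwards [(xelocb_det hd).continuousAt.eventually_ne h0] with t ht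
    rw [Matrix.mul_nonsing_inv _ (isUnit_iff_ne_zero.2 ht)]
  have := hL' h
  beta_reduce at this
  rw [e, h1, inv_one, Matrix.mul_one, Matrix.one_mul] at this
  exact eq_neg_of_add_eq_zero_right this.symm

theorem xelocb_cZ (hZ : AnalyticAt ℂ Z t₀)
    (hs : ∀ᶠ t in 𝓝 t₀, (Matrix.of (Z t))ᵀ = Matrix.of (Z t)) :
    xelocbD t₀ (fun t => cZ (Matrix.of (Z t))) fun h =>
      h • up (Matrix.of (deriv Z t₀)) + star h • (up (Matrix.of (deriv Z t₀)))ᴴ := by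
  have hd : ∀ a b, HasDerivAt (fun t => Z t a b) (deriv Z t₀ a b) t₀ := fun a b =>
    hasDerivAt_pi.1 (hasDerivAt_pi.1 hZ.differentiableAt.hasDerivAt a) b
  have hsym : ∀ a b, deriv Z t₀ a b = deriv Z t₀ b a := fun a b =>
    (hd a b).unique ((hd b a).congr_of_eventuallyEq
      (hs.mono fun t ht => congrFun (congrFun ht b) a))
  rintro (a | a) (b | b)
  · exact ⟨0, hasFDerivAt_const ((1 : Matrix (Fin g) (Fin g) ℂ) a b) t₀, fun h => by simp [up]⟩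
  · exact ⟨_, (hd a b).complexToReal_fderiv, fun h => by simp [up, mul_comm]⟩
  · exact ⟨_, (hd a b).complexToReal_fderiv.star, fun h => by simp [up, mul_comm, hsym a b]⟩
  · exact ⟨0, hasFDerivAt_const ((1 : Matrix (Fin g) (Fin g) ℂ) a b) t₀, fun h => by simp [up]⟩

/-- the derivative of the Hodge component -/
theorem loc_der (hZ : AnalyticAt ℂ Z t₀) (h0 : Z t₀ = 0)
    (hs : ∀ᶠ t in 𝓝 t₀, (Matrix.of (Z t))ᵀ = Matrix.of (Z t))
    (hF : ∀ᶠ t in 𝓝 t₀, ∀ q < p, Pc κ q (cZ (Matrix.of (Z t))) *ᵥ s = 0)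
    (h1 : dkr κ (up (Matrix.of (deriv Z t₀))) *ᵥ (Pw κ g (p + 1) *ᵥ s) = 0)
    (h2 : dkr κ (up (Matrix.of (deriv Z t₀)))ᴴ *ᵥ (Pw κ g p *ᵥ s) = 0) :
    HasFDerivAt (fun t => Pc κ p (cZ (Matrix.of (Z t))) *ᵥ s)
      (0 : ℂ →L[ℝ] (κ → LL g) → ℂ) t₀ := by
  have c1 : cZ (Matrix.of (Z t₀)) = 1 := by
    rw [h0, ← fromBlocks_one]
    ext (a | a) (b | b) <;> simp [cZ, cj]
  have d1 := xelocb_cZ hZ hs
  have d2 := xelocb_mul (xelocb_mul (xelocb_kr (κ := κ) d1 c1) (xelocb_const (Pw κ g p)))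
    (xelocb_kr (κ := κ) (xelocb_inv d1 c1) (by rw [c1, inv_one]))
  have h3 := loc_tan hZ h0 hF
  have h4 : Pw κ g p *ᵥ (dkr κ (up (Matrix.of (deriv Z t₀))) *ᵥ s) = 0 := by
    rw [mulVec_mulVec, ← dkr_up, ← mulVec_mulVec, h1]
  have h5 : Pw κ g p *ᵥ (dkr κ (up (Matrix.of (deriv Z t₀)))ᴴ *ᵥ s) = 0 := by
    rw [mulVec_mulVec, dkr_conjTranspose, ← Pw_conjTranspose, ← conjTranspose_mul]
    cases p with
    | zero => rw [dkr_up_zero, conjTranspose_zero, zero_mulVec]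
    | succ q =>
      have := hF.self_of_nhds q (Nat.lt_succ_self q)
      rw [c1, Pc_one] at this
      rw [dkr_up, conjTranspose_mul, Pw_conjTranspose, ← mulVec_mulVec, this, mulVec_zero]
  choose L hL hL' using d2
  refine hasFDerivAt_pi'.2 fun a => ?_
  refine (HasFDerivAt.fun_sum fun b (_ : b ∈ Finset.univ) =>
    (hL a b).mul_const (s b)).congr_fderiv (ContinuousLinearMap.ext fun h => ?_)
  have e : dkr κ (-(h • up (Matrix.of (deriv Z t₀)) + star h • (up (Matrix.of (deriv Z t₀)))ᴴ)) =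
      -dkr κ (h • up (Matrix.of (deriv Z t₀)) + star h • (up (Matrix.of (deriv Z t₀)))ᴴ) := by
    rw [← zero_sub, dkr_sub, dkr_zero, zero_sub]
  simp only [_root_.sum_apply, _root_.smul_apply, hL', smul_eq_mul,
    mul_comm (s _)]
  refine congrFun (?_ : _ *ᵥ s = 0) a
  rw [c1, inv_one, kr_one, e, dkr_add, dkr_smul, dkr_smul, Matrix.mul_zero, add_zero,
    Matrix.mul_one, Matrix.one_mul, add_mulVec, ← mulVec_mulVec, ← mulVec_mulVec, neg_mulVec,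
    add_mulVec, add_mulVec, smul_mulVec, smul_mulVec, smul_mulVec, smul_mulVec, h3, h2,
    mulVec_neg, mulVec_add, mulVec_smul, mulVec_smul, h4, h5]
  simp

end Pool.Agent.MP_f58063_ag

end
end

section

open Complex Filter Topology Matrix Function Asymptotics

noncomputable section

namespace Pool.Agent.MP_f58063_ag

variable {g : ℕ} {τ : Mat g} {A : Matrix (Fin g) (Fin g) ℂ}

section

variable {l m n o : Type}

theorem xeuf_mul [Fintype m] (M : Matrix l m ℂ) (N : Matrix m n ℂ) : cj (M * N) = cj M * cj N :=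
  Matrix.map_mul

theorem xeuf_add (M N : Matrix l m ℂ) : cj (M + N) = cj M + cj N :=
  Matrix.map_add _ (map_add _) _ _

theorem xeuf_cj (M : Matrix l m ℂ) : cj (cj M) = M := by
  ext a b
  simp [cj]

theorem xeuf_one [DecidableEq l] : cj (1 : Matrix l l ℂ) = 1 :=
  Matrix.map_one _ (map_zero _) (map_one _)

theorem xeuf_blk (B : Matrix n l ℂ) (C : Matrix n m ℂ) (D : Matrix o l ℂ) (E : Matrix o m ℂ) :
    cj (fromBlocks B C D E) = fromBlocks (cj B) (cj C) (cj D) (cj E) := fromBlocks_map _ _ _ _ _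

theorem xeuf_ct (M : Matrix l m ℂ) : Mᴴ = (cj M)ᵀ := rfl

end

theorem xeuf_sym (hτ : τ ∈ Siegel g) : (Matrix.of τ)ᵀ = Matrix.of τ :=
  Matrix.ext fun i j => hτ.1 j i

theorem xeuf_sym' (hτ : τ ∈ Siegel g) : (cj (Matrix.of τ))ᵀ = cj (Matrix.of τ) :=
  congrArg cj (xeuf_sym hτ)

theorem xeuf_uf (τ : Mat g) (A : Matrix (Fin g) (Fin g) ℂ) :
    uf τ A = fromBlocks (cj (Matrix.of τ) * A) (Matrix.of τ * A) A A := by
  simp [uf, bf, fromBlocks_multiply]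

theorem xeuf_J (hτ : τ ∈ Siegel g) (hA : IsUF τ A) :
    (uf τ A)ᵀ * J (Fin g) ℂ * uf τ A = (-I) • J (Fin g) ℂ := by
  have h := hA.2
  rw [Matrix.mul_sub, Matrix.sub_mul] at h
  simp only [xeuf_uf, J, fromBlocks_transpose, fromBlocks_multiply, transpose_mul, xeuf_sym hτ,
    xeuf_sym' hτ, fromBlocks_smul, fromBlocks_inj, Matrix.mul_zero, Matrix.mul_one,
    Matrix.mul_neg, Matrix.neg_mul, zero_add, add_zero, smul_zero, smul_neg, neg_smul, neg_neg,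
    ← h, ← Matrix.mul_assoc, fromBlocks_neg]
  refine ⟨?_, ?_, ?_, ?_⟩ <;> abel

theorem xeuf_dM {F : ℂ → Mat g} {t₀ : ℂ} (hF : AnalyticAt ℂ F t₀) :
    Matrix.of (deriv F t₀) = dM (fun t => Matrix.of (F t)) t₀ 1 :=
  Matrix.ext fun a b =>
    (hasDerivAt_pi.1 (hasDerivAt_pi.1 hF.differentiableAt.hasDerivAt a) b).deriv.symm

theorem xeuf_dM0 (C : Matrix (Fin g) (Fin g) ℂ) (t₀ : ℂ) : dM (fun _ : ℂ => C) t₀ 1 = 0 := by
  ext a b
  simp [dM]

open scoped MatrixOrder in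
theorem exists_UF (hτ : τ ∈ Siegel g) : ∃ A, IsUF τ A := by
  have hM : (Matrix.of fun i j => 2 * (τ i j).im).PosDef := by
    refine .of_dotProduct_mulVec_pos (Matrix.ext fun i j => by simp [hτ.1 i j]) fun v hv => ?_
    convert mul_pos two_pos (hτ.2 v hv) using 1
    simp only [dotProduct, mulVec, of_apply, Finset.mul_sum, star_trivial]
    exact Finset.sum_congr rfl fun i _ => Finset.sum_congr rfl fun j _ => by ring
  obtain ⟨y, hy, e⟩ := CStarAlgebra.isStrictlyPositive_iff_eq_star_mul_self.1 hM.isStrictlyPositive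
  rw [isUnit_iff_isUnit_det] at hy
  refine ⟨y⁻¹.map ofRealHom, Matrix.ext fun i j => conj_ofReal _, ?_⟩
  have e1 : Matrix.of τ - cj (Matrix.of τ) = I • (yᵀ * y).map ofRealHom := by
    rw [← conjTranspose_eq_transpose_of_trivial, ← star_eq_conjTranspose, ← e]
    ext i j
    simp [cj, sub_conj, mul_comm]
  rw [e1, Matrix.mul_smul, Matrix.smul_mul, ← transpose_map, ← Matrix.map_mul, ← Matrix.map_mul,
    ← Matrix.mul_assoc, ← transpose_mul, Matrix.mul_assoc, mul_nonsing_inv _ hy, transpose_one,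
    Matrix.one_mul, Matrix.map_one _ (map_zero _) (map_one _)]

theorem IsUF.det (hA : IsUF τ A) : IsUnit A.det := by
  refine isUnit_det_of_left_inverse (B := (-I) • (Aᵀ * (Matrix.of τ - cj (Matrix.of τ)))) ?_
  rw [Matrix.smul_mul, hA.2, smul_smul, neg_mul, I_mul_I, neg_neg, one_smul]

theorem uf_det (hτ : τ ∈ Siegel g) (hA : IsUF τ A) : IsUnit (uf τ A).det := by
  rw [uf, det_mul, det_fromBlocks_zero₂₁]
  exact (bf_det hτ).mul (hA.det.mul hA.det)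

theorem uf_herm (hτ : τ ∈ Siegel g) (hA : IsUF τ A) :
    (uf τ A)ᴴ * J (Fin g) ℂ * uf τ A = fromBlocks ((-I) • 1) 0 0 (I • 1) := by
  have h := hA.2
  rw [Matrix.mul_sub, Matrix.sub_mul] at h
  simp only [xeuf_ct, xeuf_blk, xeuf_mul, xeuf_cj, hA.1, xeuf_uf, J, fromBlocks_transpose,
    fromBlocks_multiply, transpose_mul, xeuf_sym hτ, xeuf_sym' hτ, fromBlocks_inj, Matrix.mul_zero,
    Matrix.mul_one, Matrix.mul_neg, Matrix.neg_mul, zero_add, add_zero, neg_smul, ← h,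
    ← Matrix.mul_assoc]
  refine ⟨?_, ?_, ?_, ?_⟩ <;> abel

theorem uf_cj (hA : IsUF τ A) : cj (uf τ A) = uf τ A * swp g := by
  simp [xeuf_uf, xeuf_blk, xeuf_mul, xeuf_cj, hA.1, swp, fromBlocks_multiply]

theorem uf_mu (hA : IsUF τ A) : uf τ A * Eta g * (uf τ A)⁻¹ = mu τ := by
  have h : IsUnit (fromBlocks A 0 0 A).det := by
    rw [det_fromBlocks_zero₂₁]
    exact hA.det.mul hA.det
  have e : fromBlocks A 0 0 A * Eta g = Eta g * fromBlocks A 0 0 A := by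
    simp [Eta, fromBlocks_multiply]
  rw [uf, mu, Matrix.mul_inv_rev, Matrix.mul_assoc (bf τ), e, Matrix.mul_assoc, Matrix.mul_assoc,
    mul_nonsing_inv_cancel_left _ _ h, Matrix.mul_assoc]

theorem uf_sp (hτ : τ ∈ Siegel g) (hA : IsUF τ A) (X : Matrix (LL g) (LL g) ℂ) :
    uf τ A * X * (uf τ A)⁻¹ ∈ spK g ℂ ↔ X ∈ spK g ℂ := by
  have hc := uf_det hτ hA
  have h := xeuf_J hτ hA
  generalize uf τ A = c at hc h
  have h1 : (-I) • (J (Fin g) ℂ * cᵀ * J (Fin g) ℂ) * c = 1 := by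
    rw [Matrix.smul_mul, Matrix.mul_assoc (J _ _), Matrix.mul_assoc (J _ _), h, Matrix.mul_smul,
      J_squared, smul_smul]
    simp
  have h2 : J (Fin g) ℂ = I • (c * J (Fin g) ℂ * cᵀ) := by
    have := congrArg (· * J (Fin g) ℂ) (mul_eq_one_comm.1 h1)
    simpa [Matrix.mul_assoc, J_squared] using this.symm
  have h3 : c * X * c⁻¹ * J (Fin g) ℂ + J (Fin g) ℂ * (c * X * c⁻¹)ᵀ =
      I • (c * (X * J (Fin g) ℂ + J (Fin g) ℂ * Xᵀ) * cᵀ) := by
    conv_lhs => rw [h2]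
    simp only [transpose_mul, transpose_nonsing_inv, Matrix.mul_smul, Matrix.smul_mul,
      Matrix.mul_assoc, nonsing_inv_mul_cancel_left _ _ hc, Matrix.mul_add, Matrix.add_mul, smul_add,
      mul_nonsing_inv_cancel_left _ _ (isUnit_det_transpose _ hc)]
  rw [mem_spK, mem_spK, h3, smul_eq_zero_iff_right I_ne_zero,
    ((isUnit_iff_isUnit_det _).2 (isUnit_det_transpose _ hc)).mul_left_eq_zero,
    ((isUnit_iff_isUnit_det _).2 hc).mul_right_eq_zero]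

theorem loc_frame {τ : ℂ → Mat g} {t₀ : ℂ} (hτ : AnalyticAt ℂ τ t₀)
    (hS : ∀ᶠ t in 𝓝 t₀, τ t ∈ Siegel g) (hA : IsUF (τ t₀) A) :
    ∃ Z : ℂ → Mat g, AnalyticAt ℂ Z t₀ ∧ Z t₀ = 0 ∧
      Matrix.of (deriv Z t₀) = I • (Aᵀ * Matrix.of (deriv τ t₀) * A) ∧
      ∀ᶠ t in 𝓝 t₀, (Matrix.of (Z t))ᵀ = Matrix.of (Z t) ∧
        ∃ G : Matrix (Fin g) (Fin g) ℂ, IsUnit G.det ∧
          bf (τ t) = uf (τ t₀) A * cZ (Matrix.of (Z t)) * fromBlocks (cj G) 0 0 G := by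
  let R : ℂ → Matrix (Fin g) (Fin g) ℂ := fun t =>
    I • Aᵀ * (Matrix.of (τ t) - Matrix.of (τ t₀)) * A
  have a1 : ∀ a b, AnalyticAt ℂ (fun t => (Matrix.of (τ t) - Matrix.of (τ t₀)) a b) t₀ :=
    fun a b => (analyticAt_pi_iff.1 (analyticAt_pi_iff.1 hτ a) b).sub analyticAt_const
  have a2 := an_mul (A := fun _ => I • Aᵀ) (fun _ _ => analyticAt_const) a1
  have a3 : ∀ a b, AnalyticAt ℂ (fun t => (1 - R t) a b) t₀ := fun a b =>
    analyticAt_const.sub (an_mul a2 (B := fun _ => A) (fun _ _ => analyticAt_const) a b)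
  have r0 : 1 - R t₀ = 1 := by simp [R]
  have d0 : (1 - R t₀).det ≠ 0 := by simp [r0]
  have a4 : ∀ a b, AnalyticAt ℂ (fun t => ((1 - R t)⁻¹ - 1) a b) t₀ := fun a b =>
    (an_inv a3 d0 a b).sub analyticAt_const
  have a5 : AnalyticAt ℂ (fun t => Matrix.of.symm ((1 - R t)⁻¹ - 1)) t₀ :=
    analyticAt_pi_iff.2 fun a => analyticAt_pi_iff.2 (a4 a)
  have hd : ∀ᶠ t in 𝓝 t₀, IsUnit (1 - R t).det :=
    ((an_det a3).continuousAt.eventually_ne d0).mono fun _ h => h.isUnit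
  refine ⟨_, a5, by simp [r0], ?_, ?_⟩
  · have e1 := dM_mul a3 a4 1
    have e2 : dM (fun t => (1 - R t) * ((1 - R t)⁻¹ - 1)) t₀ 1 = dM R t₀ 1 := by
      ext a b
      refine DFunLike.congr_fun (EventuallyEq.fderiv_eq (𝕜 := ℂ) (hd.mono fun t ht => ?_)) 1
      simp only [Matrix.mul_sub, mul_nonsing_inv _ ht, Matrix.mul_one, sub_sub_cancel]
    have e3 : dM (fun t => Matrix.of (τ t) - Matrix.of (τ t₀)) t₀ 1 =
        dM (fun t => Matrix.of (τ t)) t₀ 1 := by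
      ext a b
      simp only [dM, of_apply, Matrix.sub_apply, fderiv_sub_const]
    rw [e2, r0, inv_one, sub_self, Matrix.mul_zero, zero_add, Matrix.one_mul,
      dM_mul a2 (B := fun _ => A) fun _ _ => analyticAt_const,
      dM_mul (A := fun _ => I • Aᵀ) (fun _ _ => analyticAt_const) a1, xeuf_dM0, xeuf_dM0, e3] at e1
    rw [xeuf_dM a5, xeuf_dM hτ]
    simpa using e1.symm
  · filter_upwards [hS, hd] with t ht hu
    have s0 := xeuf_sym hS.self_of_nhds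
    simp only [Equiv.apply_symm_apply]
    refine ⟨?_, (1 - R t) * A⁻¹, ?_, ?_⟩
    · simp only [R, transpose_sub, transpose_nonsing_inv, transpose_one, transpose_mul,
        transpose_smul, transpose_transpose, s0, xeuf_sym ht, Matrix.smul_mul, Matrix.mul_assoc]
    · rw [det_mul]
      exact hu.mul (isUnit_nonsing_inv_det _ hA.det)
    have e1 : (A * ((1 - R t)⁻¹ - 1) + A) * ((1 - R t) * A⁻¹) = 1 := by
      rw [Matrix.mul_sub, Matrix.mul_one, sub_add_cancel, Matrix.mul_assoc,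
        nonsing_inv_mul_cancel_left _ _ hu, mul_nonsing_inv _ hA.det]
    have e2 : (Matrix.of (τ t₀) - cj (Matrix.of (τ t₀))) * A * (-I • Aᵀ) = 1 := by
      rw [mul_eq_one_comm, Matrix.smul_mul, ← Matrix.mul_assoc, hA.2, smul_smul, neg_mul, I_mul_I,
        neg_neg, one_smul]
    have e3 : (1 - R t) * A⁻¹ = -I • Aᵀ * (Matrix.of (τ t) - cj (Matrix.of (τ t₀))) := by
      rw [← mul_nonsing_inv_cancel_right A (_ • _ * _) hA.det]
      congr 1
      rw [← sub_add_sub_cancel (Matrix.of (τ t)) (Matrix.of (τ t₀)), Matrix.mul_add, Matrix.add_mul,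
        Matrix.smul_mul _ _ (_ - cj _), Matrix.smul_mul _ _ A, hA.2, smul_smul, neg_mul, I_mul_I,
        neg_neg, one_smul, Matrix.smul_mul, Matrix.smul_mul, neg_smul, neg_add_eq_sub]
      simp only [R, Matrix.smul_mul]
    have e4 : (cj (Matrix.of (τ t₀)) * A * ((1 - R t)⁻¹ - 1) + Matrix.of (τ t₀) * A) *
        ((1 - R t) * A⁻¹) = Matrix.of (τ t) := by
      calc _ = cj (Matrix.of (τ t₀)) * ((A * ((1 - R t)⁻¹ - 1) + A) * ((1 - R t) * A⁻¹)) +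
          (Matrix.of (τ t₀) - cj (Matrix.of (τ t₀))) * A * ((1 - R t) * A⁻¹) := by noncomm_ring
        _ = _ := by rw [e1, e3, ← Matrix.mul_assoc, e2]; simp
    have e5 := congrArg cj e1
    have e6 := congrArg cj e4
    simp only [xeuf_mul _ (_ * _), xeuf_mul _ A, xeuf_mul _ (_ - 1), xeuf_add, xeuf_cj, xeuf_one,
      hA.1] at e5 e6
    simp only [xeuf_uf, bf, cZ, fromBlocks_multiply, Matrix.mul_zero, Matrix.mul_one, zero_add,
      add_zero, e1, e4]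
    rw [add_comm A, add_comm (cj _ * A), e5, e6]

end Pool.Agent.MP_f58063_ag

end
end

section

open Complex Filter Topology Matrix Function Asymptotics

noncomputable section

namespace Pool.Agent.MP_f58063_ag

variable {g : ℕ} {κ : Type} [Fintype κ] [DecidableEq κ] {τ : ℂ → Mat g} {t₀ : ℂ} {p : ℕ}
  {s : (κ → LL g) → ℂ}

theorem xeloc2_cj {G : Matrix (Fin g) (Fin g) ℂ} (h : IsUnit G.det) : IsUnit (cj G).det := by
  have : (cj G).det = starRingEnd ℂ G.det := ((starRingEnd ℂ).map_det G).symm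
  rw [this]
  exact h.map _

theorem xeloc2_setup (hτ : AnalyticAt ℂ τ t₀) (hS : ∀ᶠ t in 𝓝 t₀, τ t ∈ Siegel g)
    (hF : ∀ᶠ t in 𝓝 t₀, ∀ q < p, Hp κ q (τ t) *ᵥ s = 0) {A : Matrix (Fin g) (Fin g) ℂ}
    (hA : IsUF (τ t₀) A) :
    ∃ (Z : ℂ → Mat g) (s' : (κ → LL g) → ℂ), AnalyticAt ℂ Z t₀ ∧ Z t₀ = 0 ∧
      Matrix.of (deriv Z t₀) = I • (Aᵀ * Matrix.of (deriv τ t₀) * A) ∧
      (∀ᶠ t in 𝓝 t₀, (Matrix.of (Z t))ᵀ = Matrix.of (Z t)) ∧
      (∀ᶠ t in 𝓝 t₀, ∀ q < p, Pc κ q (cZ (Matrix.of (Z t))) *ᵥ s' = 0) ∧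
      (∀ᶠ t in 𝓝 t₀, Hp κ p (τ t) *ᵥ s =
        kr κ (uf (τ t₀) A) *ᵥ (Pc κ p (cZ (Matrix.of (Z t))) *ᵥ s')) ∧
      (∀ᶠ t in 𝓝 t₀, Hn p s (τ t) =
        Hf (fromBlocks ((-I) • 1) 0 0 (I • 1)) (Pc κ p (cZ (Matrix.of (Z t))) *ᵥ s')) := by
  obtain ⟨Z, hZ, h0, hd, hev⟩ := loc_frame hτ hS hA
  have hc := uf_det hS.self_of_nhds hA
  have key : ∀ᶠ t in 𝓝 t₀, ∀ q, Hp κ q (τ t) *ᵥ s = kr κ (uf (τ t₀) A) *ᵥ
      (Pc κ q (cZ (Matrix.of (Z t))) *ᵥ (kr κ (uf (τ t₀) A)⁻¹ *ᵥ s)) := by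
    filter_upwards [hev] with t ht q
    obtain ⟨-, G, hG, e⟩ := ht
    rw [Hp, e, Pc_diag κ _ (xeloc2_cj hG) hG, Pc_left, mulVec_mulVec, mulVec_mulVec]
  refine ⟨Z, kr κ (uf (τ t₀) A)⁻¹ *ᵥ s, hZ, h0, hd, hev.mono fun t ht => ht.1, ?_,
    key.mono fun t ht => ht p, ?_⟩
  · filter_upwards [key, hF] with t h1 h2 q hq
    have h3 := congrArg (fun x => kr κ (uf (τ t₀) A)⁻¹ *ᵥ x) ((h1 q).symm.trans (h2 q hq))
    simp only [mulVec_zero] at h3
    rwa [mulVec_mulVec, kr_inv_mul κ hc, one_mulVec] at h3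
  · filter_upwards [key] with t h1
    rw [Hn, h1 p, Hf_kr, uf_herm hS.self_of_nhds hA]

theorem Hn_logSub (hτ : AnalyticAt ℂ τ t₀) (hS : ∀ᶠ t in 𝓝 t₀, τ t ∈ Siegel g)
    (hF : ∀ᶠ t in 𝓝 t₀, ∀ q < p, Hp κ q (τ t) *ᵥ s = 0) :
    LogSub (fun t => Hn p s (τ t)) t₀ := by
  obtain ⟨A, hA⟩ := exists_UF hS.self_of_nhds
  obtain ⟨Z, s', hZ, h0, -, hs, hF', -, hn⟩ := xeloc2_setup hτ hS hF hA
  obtain ⟨v, hv, -, ho⟩ := loc_exp hZ h0 hs hF'
  exact logSub_of (u := fun t => Hn p s (τ t)) hv (nq_nonneg _)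
    (ho.congr' (by
      filter_upwards [hn] with t ht
      rw [ht]) EventuallyEq.rfl)

theorem Hp_der (hτ : AnalyticAt ℂ τ t₀) (hS : ∀ᶠ t in 𝓝 t₀, τ t ∈ Siegel g)
    (hF : ∀ᶠ t in 𝓝 t₀, ∀ q < p, Hp κ q (τ t) *ᵥ s = 0)
    (hc : ∀ᶠ t in 𝓝 t₀, Hn p s (τ t) = Hn p s (τ t₀)) :
    HasFDerivAt (fun t => Hp κ p (τ t) *ᵥ s) (0 : ℂ →L[ℝ] (κ → LL g) → ℂ) t₀ := by
  obtain ⟨A, hA⟩ := exists_UF hS.self_of_nhds
  obtain ⟨Z, s', hZ, h0, -, hs, hF', hp, hn⟩ := xeloc2_setup hτ hS hF hA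
  obtain ⟨v, hv, hd, ho⟩ := loc_exp hZ h0 hs hF'
  obtain ⟨h1, h2⟩ := const_of (u := fun t => Hn p s (τ t)) hv (nq_nonneg _)
    (ho.congr' (by
      filter_upwards [hn] with t ht
      rw [ht]) EventuallyEq.rfl) hc
  rw [hd, neg_eq_zero] at h1
  have h3 := loc_der hZ h0 hs hF' h1 (nq_eq_zero.1 h2)
  let L : ((κ → LL g) → ℂ) →L[ℝ] ((κ → LL g) → ℂ) :=
    (LinearMap.toContinuousLinearMap (Matrix.mulVecLin (kr κ (uf (τ t₀) A)))).restrictScalars ℝ
  have h4 := L.hasFDerivAt.comp t₀ h3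
  rw [ContinuousLinearMap.comp_zero] at h4
  exact h4.congr_of_eventuallyEq hp

theorem Hp_tan (hτ : AnalyticAt ℂ τ t₀) (hS : ∀ᶠ t in 𝓝 t₀, τ t ∈ Siegel g)
    (hF : ∀ᶠ t in 𝓝 t₀, ∀ q < p, Hp κ q (τ t) *ᵥ s = 0) {A : Matrix (Fin g) (Fin g) ℂ}
    (hA : IsUF (τ t₀) A) :
    dkr κ (uf (τ t₀) A * up (I • (Aᵀ * Matrix.of (deriv τ t₀) * A)) * (uf (τ t₀) A)⁻¹) *ᵥ
      (Hp κ p (τ t₀) *ᵥ s) = 0 := by
  obtain ⟨Z, s', hZ, h0, hd, -, hF', hp, -⟩ := xeloc2_setup hτ hS hF hA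
  have hc := uf_det hS.self_of_nhds hA
  have h1 := loc_tan hZ h0 hF'
  have h2 := hp.self_of_nhds
  have h3 : cZ (Matrix.of (Z t₀)) = 1 := by
    rw [h0, ← fromBlocks_one]
    have e : Matrix.of (0 : Mat g) = 0 := rfl
    rw [e, cZ]
    congr 1
    ext i j
    simp [cj]
  rw [h3, Pc_one] at h2
  rw [h2, ← hd, mulVec_mulVec, ← kr_dkr κ (X := up (Matrix.of (deriv Z t₀)))
    (by rw [Matrix.nonsing_inv_mul_cancel_right _ _ hc]), ← mulVec_mulVec, h1, mulVec_zero]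

end Pool.Agent.MP_f58063_ag

end
end

section

open Complex Filter Topology Matrix Function Asymptotics

noncomputable section

namespace Pool.Agent.MP_f58063_ag

variable {g d : ℕ} {κ : Type} [Fintype κ] [DecidableEq κ] {S : Set (Mat g)}

lemma xefixa_loc (hS : IsMfd S d) (hSS : S ⊆ Siegel g) {p : ℕ} {s : (κ → LL g) → ℂ}
    (hF : ∀ τ ∈ S, ∀ q < p, Hp κ q τ *ᵥ s = 0) {τ₁ : Mat g} (h1 : τ₁ ∈ S)
    (hc : ∀ᶠ τ in 𝓝[S] τ₁, Hn p s τ = Hn p s τ₁) :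
    ∀ᶠ τ in 𝓝[S] τ₁, Hp κ p τ *ᵥ s = Hp κ p τ₁ *ᵥ s := by
  obtain ⟨f, h0, ha, -, hm⟩ := hS.2 τ₁ h1
  have e1 : ∀ᶠ x in 𝓝 (0 : Fin d → ℂ), f x ∈ S := by
    have : S ∈ map f (𝓝 0) := hm ▸ self_mem_nhdsWithin
    exact this
  rw [← hm, eventually_map] at hc ⊢
  obtain ⟨r, hr, hb⟩ := Metric.eventually_nhds_iff_ball.1
    (ha.eventually_analyticAt.and (e1.and hc))
  filter_upwards [Metric.ball_mem_nhds (0 : Fin d → ℂ) hr] with x hx
  have hU : IsOpen ((fun t : ℂ => t • x) ⁻¹' Metric.ball 0 r) :=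
    Metric.isOpen_ball.preimage (by fun_prop)
  have hC : Convex ℝ ((fun t : ℂ => t • x) ⁻¹' Metric.ball 0 r) :=
    (convex_ball (0 : Fin d → ℂ) r).is_linear_preimage
      ⟨fun a b => add_smul a b x, fun c a => smul_assoc c a x⟩
  have hd : ∀ t₀ ∈ (fun t : ℂ => t • x) ⁻¹' Metric.ball 0 r,
      HasFDerivAt (fun t : ℂ => Hp κ p (f (t • x)) *ᵥ s) (0 : ℂ →L[ℝ] (κ → LL g) → ℂ) t₀ := by
    intro t₀ ht
    refine Hp_der (τ := fun t : ℂ => f (t • x))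
      ((hb _ ht).1.comp (f := fun t : ℂ => t • x) (analyticAt_id.smul analyticAt_const)) ?_ ?_ ?_
    · filter_upwards [hU.mem_nhds ht] with t h2
      exact hSS (hb _ h2).2.1
    · filter_upwards [hU.mem_nhds ht] with t h2
      exact hF _ (hb _ h2).2.1
    · filter_upwards [hU.mem_nhds ht] with t h2
      rw [(hb _ h2).2.2, (hb _ ht).2.2]
  have := hU.is_const_of_fderiv_eq_zero (𝕜 := ℝ) hC.isPreconnected
    (fun t ht => (hd t ht).differentiableAt.differentiableWithinAt) (fun t ht => (hd t ht).fderiv)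
    (x := 1) (y := 0) (by simpa using hx) (by simpa using hr)
  simpa [h0] using this

lemma xefixa_an {F : Mat g → Matrix (LL g) (LL g) ℂ} {x : Mat g}
    (h : ∀ a b, AnalyticAt ℂ (fun z => F z a b) x) (v : (κ → LL g) → ℂ) (a : κ → LL g) :
    AnalyticAt ℂ (fun z => (kr κ (F z) *ᵥ v) a) x := by
  simp only [mulVec, dotProduct]
  exact Finset.analyticAt_fun_sum _ fun b _ => (an_kr κ h a b).mul analyticAt_const

lemma xefixa_ent (i j : Fin g) (x : Mat g) : AnalyticAt ℂ (fun z : Mat g => -z i j) x :=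
  (((ContinuousLinearMap.proj j : (Fin g → ℂ) →L[ℂ] ℂ).comp
    (ContinuousLinearMap.proj i : Mat g →L[ℂ] (Fin g → ℂ))).analyticAt x).neg

lemma xefixa_lt (hS : IsMfd S d) (hSS : S ⊆ Siegel g) {p : ℕ} {v : (κ → LL g) → ℂ} {τ₁ : Mat g}
    (h1 : τ₁ ∈ S) (h : ∀ᶠ τ in 𝓝[S] τ₁, ∀ q < p, Hp κ q τ *ᵥ v = 0) :
    ∀ τ ∈ S, ∀ q < p, Hp κ q τ *ᵥ v = 0 := by
  intro τ hτ
  refine (Hp_lt_iff κ (hSS hτ) p v).2 fun a ha => ?_
  refine mfd_id hS (F := fun τ => (kr κ (fromBlocks 1 (-Matrix.of τ) 0 1) *ᵥ v) a)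
    (fun x _ => xefixa_an ?_ v a) h1 ?_ τ hτ
  · rintro (i | i) (j | j)
    · exact analyticAt_const
    · exact xefixa_ent i j x
    · exact analyticAt_const
    · exact analyticAt_const
  · filter_upwards [h, self_mem_nhdsWithin] with σ h2 h3
    exact (Hp_lt_iff κ (hSS h3) p v).1 h2 a ha

lemma xefixa_gt (hS : IsMfd S d) (hSS : S ⊆ Siegel g) {p : ℕ} {v : (κ → LL g) → ℂ} {τ₁ : Mat g}
    (h1 : τ₁ ∈ S) (h : ∀ᶠ τ in 𝓝[S] τ₁, ∀ q, p < q → Hp κ q τ *ᵥ v = 0) :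
    ∀ τ ∈ S, ∀ q, p < q → Hp κ q τ *ᵥ v = 0 := by
  intro τ hτ
  refine (Hp_gt_iff κ (hSS hτ) p v).2 fun a ha => ?_
  refine mfd_id hS (F := fun τ => (kr κ (fromBlocks 0 1 1 (-Matrix.of τ)) *ᵥ star v) a)
    (fun x _ => xefixa_an ?_ (star v) a) h1 ?_ τ hτ
  · rintro (i | i) (j | j)
    · exact analyticAt_const
    · exact analyticAt_const
    · exact analyticAt_const
    · exact xefixa_ent i j x
  · filter_upwards [h, self_mem_nhdsWithin] with σ h2 h3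
    exact (Hp_gt_iff κ (hSS h3) p v).1 h2 a ha

lemma xefixa_mul {τ : Mat g} (hτ : τ ∈ Siegel g) (p q : ℕ) (v : (κ → LL g) → ℂ) :
    Hp κ q τ *ᵥ (Hp κ p τ *ᵥ v) = if q = p then Hp κ q τ *ᵥ v else 0 := by
  rw [mulVec_mulVec, Hp, Hp, Pc_mul κ (bf_det hτ)]
  split_ifs
  · rfl
  · exact zero_mulVec v

/-- if the Hodge norm of the lowest Hodge component is locally constant, the component is
constant -/
theorem fix_step (hS : IsMfd S d) (hSS : S ⊆ Siegel g) {p : ℕ} {s : (κ → LL g) → ℂ}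
    (hF : ∀ τ ∈ S, ∀ q < p, Hp κ q τ *ᵥ s = 0) {τ₁ : Mat g} (h1 : τ₁ ∈ S)
    (hc : ∀ᶠ τ in 𝓝[S] τ₁, Hn p s τ = Hn p s τ₁) :
    ∀ τ ∈ S, Hp κ p τ *ᵥ s = Hp κ p τ₁ *ᵥ s := by
  have hl := xefixa_loc hS hSS hF h1 hc
  have hgt : ∀ τ ∈ S, ∀ q, p < q → Hp κ q τ *ᵥ (Hp κ p τ₁ *ᵥ s) = 0 := by
    refine xefixa_gt hS hSS h1 ?_
    filter_upwards [hl, self_mem_nhdsWithin] with σ h2 h3 q hq
    rw [← h2, xefixa_mul (hSS h3), if_neg hq.ne']
  have hlt : ∀ τ ∈ S, ∀ q < p + 1, Hp κ q τ *ᵥ (s - Hp κ p τ₁ *ᵥ s) = 0 := by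
    refine xefixa_lt hS hSS h1 ?_
    filter_upwards [hl, self_mem_nhdsWithin] with σ h2 h3 q hq
    rw [mulVec_sub, ← h2, xefixa_mul (hSS h3)]
    split_ifs with h4
    · exact sub_self _
    · rw [hF σ h3 q (by omega), sub_zero]
  intro τ hτ
  have a1 := hlt τ hτ p (by omega)
  rw [mulVec_sub, sub_eq_zero] at a1
  have a2 : Hp κ p τ₁ *ᵥ s =
      ∑ q ∈ Finset.range (Fintype.card κ + 1), Hp κ q τ *ᵥ (Hp κ p τ₁ *ᵥ s) := by
    rw [← sum_mulVec]
    simp only [Hp]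
    rw [Pc_sum κ (bf_det (hSS hτ)), one_mulVec]
  rw [a1]
  refine (a2.trans (Finset.sum_eq_single p (fun q _ hq => ?_) fun hp => ?_)).symm
  · rcases lt_or_gt_of_ne hq with hq | hq
    · have a3 := hlt τ hτ q (by omega)
      rw [mulVec_sub, hF τ hτ q hq, zero_sub, neg_eq_zero] at a3
      exact a3
    · exact hgt τ hτ q hq
  · have a3 : Fintype.card κ < p := by
      rw [Finset.mem_range] at hp
      omega
    rw [Hp, Pc, Pw_zero κ a3, Matrix.mul_zero, Matrix.zero_mul, zero_mulVec]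

end Pool.Agent.MP_f58063_ag

end
end

section

open Complex Filter Topology Matrix Function Asymptotics

noncomputable section

namespace Pool.Agent.MP_f58063_ag

variable {g d : ℕ} {S : Set (Mat g)} {Δ : Subgroup (Sp g)} {R : MvPolynomial (Fin d) ℂ}
  {y : Mat g → Fin d → ℂ}

lemma xesupb_fin {X ι : Type} [TopologicalSpace X] {F : ι → X → ℝ} {m : ℝ} (s : Finset ι) :
    ∀ D : Set X, IsOpen D → D.Nonempty → (∀ i, ContinuousOn (F i) D) →
      (∀ w ∈ D, ∃ i ∈ s, F i w = m) → ∃ w ∈ D, ∃ i, ∀ᶠ w' in 𝓝 w, F i w' = m := by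
  classical
  induction s using Finset.induction_on with
  | empty =>
    rintro D - ⟨w, hw⟩ - h
    simpa using h w hw
  | insert a s _ ih =>
    intro D hD hne hF h
    by_cases ha : ∀ w ∈ D, F a w = m
    · obtain ⟨w, hw⟩ := hne
      exact ⟨w, hw, a, mem_of_superset (hD.mem_nhds hw) ha⟩
    · push Not at ha
      obtain ⟨w, hw, i, hi⟩ := ih (D ∩ F a ⁻¹' {m}ᶜ)
        ((hF a).isOpen_inter_preimage hD isOpen_compl_singleton) ha
        (fun i => (hF i).mono Set.inter_subset_left) fun w hw => by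
          obtain ⟨i, hi, e⟩ := h w hw.1
          rcases Finset.mem_insert.1 hi with rfl | hi
          · exact absurd e hw.2
          · exact ⟨i, hi, e⟩
      exact ⟨w, hw.1, i, hi⟩

/-- if the maximum over the fibres is constant, the function is constant near some point -/
theorem CovD.loc_const (h : CovD S Δ R y) (hne : S.Nonempty) {f : Mat g → ℝ}
    (hc : ContinuousOn f (Siegel g)) (hi : ∀ γ ∈ Δ, ∀ τ ∈ S, f (act γ τ) = f τ)
    (hu : ∀ a b : Fin d → ℂ, MvPolynomial.eval a R ≠ 0 → MvPolynomial.eval b R ≠ 0 →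
      us S y f a = us S y f b) :
    ∃ τ₁ ∈ S, ∀ᶠ τ in 𝓝[S] τ₁, f τ = f τ₁ := by
  obtain ⟨τ₀, h₀⟩ := hne
  have ho : IsOpen {u : Fin d → ℂ | MvPolynomial.eval u R ≠ 0} :=
    isOpen_ne_fun (MvPolynomial.continuous_eval R) continuous_const
  obtain ⟨r, hr, hb⟩ := Metric.isOpen_iff.1 ho (y τ₀) (h.mem τ₀ h₀)
  have hm := Metric.mem_ball_self (x := y τ₀) hr
  obtain ⟨n, φ, hφ, hw⟩ := h.lifts (c := id) Metric.isOpen_ball (convex_ball (y τ₀) r)
    analyticOnNhd_id hb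
  obtain ⟨-, -, i₀, -⟩ := (hw _ hm).2 τ₀ h₀ rfl
  have : Nonempty (Fin n) := ⟨i₀⟩
  obtain ⟨w, hwD, i, hi'⟩ := xesupb_fin (F := fun i w => f (φ i w)) (m := us S y f (y τ₀))
    Finset.univ _ Metric.isOpen_ball ⟨_, hm⟩
    (fun i => hc.comp (hφ i).continuousOn fun w hw' => h.sub ((hw w hw').1 i).1) fun w hw' => by
      obtain ⟨i, e⟩ := exists_eq_ciSup_of_finite (f := fun i => f (φ i w))
      refine ⟨i, Finset.mem_univ i, ?_⟩
      rw [e, ← us_eq hi (hw w hw').1 (hw w hw').2]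
      exact hu _ _ (hb hw') (hb hm)
  have hD := Metric.isOpen_ball.mem_nhds hwD
  obtain ⟨h1, h2⟩ := (hw w hwD).1 i
  obtain ⟨σ, -, hσ⟩ := h.sec _ h1
  have t1 : Tendsto (φ i) (𝓝 w) (𝓝[S] φ i w) :=
    tendsto_nhdsWithin_iff.2 ⟨(hφ i w hwD).continuousAt,
      mem_of_superset hD fun w' hw' => ((hw w' hw').1 i).1⟩
  have t2 : Tendsto y (𝓝[S] φ i w) (𝓝 w) := by
    have := (h.an _ h1).continuousAt.tendsto
    rw [h2] at this
    exact this.mono_left nhdsWithin_le_nhds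
  have e1 : ∀ᶠ w' in 𝓝 w, σ w' = φ i w' := by
    filter_upwards [t1.eventually hσ, hD] with w' e hw'
    rwa [((hw w' hw').1 i).2] at e
  refine ⟨φ i w, h1, ?_⟩
  filter_upwards [hσ, t2.eventually e1, t2.eventually hi'] with τ a1 a2 a3
  rw [hi'.self_of_nhds, ← a3, ← a2, a1]

end Pool.Agent.MP_f58063_ag

end
end

section

open Complex Filter Topology Matrix Function Asymptotics

noncomputable section

namespace Pool.Agent.MP_f58063_ag

variable {g d : ℕ} {S : Set (Mat g)} {Δ : Subgroup (Sp g)} {R : MvPolynomial (Fin d) ℂ}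
  {y : Mat g → Fin d → ℂ}

theorem xefix_inv (h : CovD S Δ R y) {κ : Type} [Fintype κ] [DecidableEq κ]
    {s : (κ → LL g) → ℂ} (hs : Fixd (fun γ : Δ => cx γ.1) s) {q : ℕ}
    (hq : ∀ τ ∈ S, ∀ τ' ∈ S, Hp κ q τ *ᵥ s = Hp κ q τ' *ᵥ s) {τ : Mat g} (hτ : τ ∈ S) :
    Fixd (fun γ : Δ => cx γ.1) (Hp κ q τ *ᵥ s) := by
  intro γ
  have h1 : kr κ (cx γ.1) *ᵥ s = s := hs γ
  change kr κ (cx γ.1) *ᵥ (Hp κ q τ *ᵥ s) = _
  rw [mulVec_mulVec, ← Hp_act κ γ.1 (h.sub hτ), ← mulVec_mulVec, h1]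
  exact hq _ (h.inv γ.1 γ.2 τ hτ).1 τ hτ

theorem xefix_mul {κ : Type} [Fintype κ] [DecidableEq κ] {τ : Mat g} (hτ : τ ∈ Siegel g)
    (r q : ℕ) (s : (κ → LL g) → ℂ) :
    Hp κ r τ *ᵥ (Hp κ q τ *ᵥ s) = if r = q then Hp κ r τ *ᵥ s else 0 := by
  rw [mulVec_mulVec, Hp, Hp, Pc_mul κ (bf_det hτ)]
  split_ifs
  · rfl
  · exact zero_mulVec _

/-- the theorem of the fixed part -/
theorem fixed_part (h : CovD S Δ R y) (hS : IsMfd S d) {κ : Type} [Fintype κ] [DecidableEq κ]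
    {s : (κ → LL g) → ℂ} (hs : Fixd (fun γ : Δ => cx γ.1) s) (p : ℕ) :
    ∀ τ ∈ S, ∀ τ' ∈ S, Hp κ p τ *ᵥ s = Hp κ p τ' *ᵥ s := by
  induction p using Nat.strong_induction_on with
  | _ p ih =>
    intro τ₀ h₀
    obtain ⟨s₂, hs₂⟩ : ∃ s₂, s₂ = s - ∑ q ∈ Finset.range p, Hp κ q τ₀ *ᵥ s := ⟨_, rfl⟩
    have hfix : Fixd (fun γ : Δ => cx γ.1) s₂ := by
      intro γ
      rw [hs₂, mulVec_sub, mulVec_sum, hs γ]
      congr 1
      exact Finset.sum_congr rfl fun q hq =>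
        xefix_inv h hs (ih q (Finset.mem_range.mp hq)) h₀ γ
    have hH : ∀ τ ∈ S, ∀ r, Hp κ r τ *ᵥ s₂ = if r < p then 0 else Hp κ r τ *ᵥ s := by
      intro τ hτ r
      rw [hs₂, mulVec_sub, mulVec_sum, Finset.sum_congr rfl fun q hq => by
        rw [ih q (Finset.mem_range.mp hq) τ₀ h₀ τ hτ, xefix_mul (h.sub hτ)],
        Finset.sum_ite_eq]
      simp only [Finset.mem_range]
      split_ifs
      · exact sub_self _
      · exact sub_zero _
    have hF : ∀ τ ∈ S, ∀ q < p, Hp κ q τ *ᵥ s₂ = 0 := fun τ hτ q hq => by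
      rw [hH τ hτ, if_pos hq]
    have hi : ∀ γ ∈ Δ, ∀ τ ∈ S, Hn p s₂ (act γ τ) = Hn p s₂ τ := fun γ hγ τ hτ =>
      Hn_act κ γ (h.sub hτ) p (hfix ⟨γ, hγ⟩)
    obtain ⟨τ₁, h₁, hc⟩ := h.loc_const ⟨τ₀, h₀⟩ (Hn_cont κ p s₂) hi fun a b ha hb =>
      h.us_const (Hn_nonneg κ p s₂) (Hn_cont κ p s₂) hi (Hn_modG κ p s₂)
        (fun τ t₀ hτ hτS => Hn_logSub hτ (hτS.mono fun t ht => h.sub ht)
          (hτS.mono fun t ht => hF _ ht)) ha hb
    have hst := fix_step hS h.sub hF h₁ hc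
    intro τ' hτ'
    have e1 := hH τ₀ h₀ p
    have e2 := hH τ' hτ' p
    rw [if_neg (lt_irrefl p)] at e1 e2
    rw [← e1, ← e2, hst τ₀ h₀, hst τ' hτ']

theorem fixd_mu (h : CovD S Δ R y) (hS : IsMfd S d) {κ : Type} [Fintype κ] [DecidableEq κ]
    {s : (κ → LL g) → ℂ} (hs : Fixd (fun γ : Δ => cx γ.1) s) {τ : Mat g} (hτ : τ ∈ S) :
    Fixd (fun γ : Δ => cx γ.1) (dkr κ (mu τ) *ᵥ s) := by
  intro γ
  rw [mu, dkr_conj_Eta κ (bf_det (h.sub hτ)), sum_mulVec, mulVec_sum]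
  refine Finset.sum_congr rfl fun p _ => ?_
  rw [smul_mulVec, mulVec_smul]
  exact congrArg _ (xefix_inv h hs (fixed_part h hS hs p) hτ γ)

theorem kills_tan (h : CovD S Δ R y) (hS : IsMfd S d) {τ : ℂ → Mat g} {t₀ : ℂ}
    (hτ : AnalyticAt ℂ τ t₀) (hτS : ∀ᶠ t in 𝓝 t₀, τ t ∈ S) {A : Matrix (Fin g) (Fin g) ℂ}
    (hA : IsUF (τ t₀) A) : Kills (fun γ : Δ => cx γ.1)
      (uf (τ t₀) A * up (I • (Aᵀ * Matrix.of (deriv τ t₀) * A)) * (uf (τ t₀) A)⁻¹) := by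
  intro κ _ _ T hT
  have h₀ : τ t₀ ∈ S := hτS.self_of_nhds
  have e : T = ∑ p ∈ Finset.range (Fintype.card κ + 1), Hp κ p (τ t₀) *ᵥ T := by
    rw [← sum_mulVec]
    simp only [Hp]
    rw [Pc_sum κ (bf_det (h.sub h₀)), one_mulVec]
  rw [e, mulVec_sum]
  refine Finset.sum_eq_zero fun p _ => ?_
  have h1 := Hp_tan (κ := κ) (p := p) (s := Hp κ p (τ t₀) *ᵥ T) hτ
    (hτS.mono fun t ht => h.sub ht) (hτS.mono fun t ht q hq => by
      rw [fixed_part h hS hT p _ h₀ _ ht, xefix_mul (h.sub ht), if_neg hq.ne]) hA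
  rwa [xefix_mul (h.sub h₀), if_pos rfl] at h1

end Pool.Agent.MP_f58063_ag

end
end

section

open Complex Filter Topology Matrix Function Asymptotics

noncomputable section

namespace Pool.Agent.MP_f58063_ag

theorem xedens_cx_one {g : ℕ} : cx (1 : Sp g) = 1 := by
  simp [cx]

theorem xedens_cx_mul {g : ℕ} (γ γ' : Sp g) : cx (γ * γ') = cx γ * cx γ' := by
  change ((Int.castRingHom ℂ).mapMatrix (γ.1 * γ'.1)) = _
  rw [map_mul]
  rfl

theorem xedens_xt_int {l : Type} [Fintype l] [DecidableEq l] {M : Matrix l l ℂ}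
    (h : ∀ a b, ∃ z : ℤ, M a b = z) (a b : Option (l × l)) : ∃ z : ℤ, xt 1 M a b = z := by
  rcases a with _ | p <;> rcases b with _ | q
  · exact ⟨1, by simp [xt]⟩
  · exact ⟨0, by simp [xt]⟩
  · exact ⟨0, by simp [xt]⟩
  · by_cases hpq : p.2 = q.2
    · obtain ⟨z, hz⟩ := h p.1 q.1
      exact ⟨z, by simp [xt, hpq, hz]⟩
    · exact ⟨0, by simp [xt, hpq]⟩

theorem xedens_prod_int {κ : Type} [Fintype κ] {f : κ → ℂ} (h : ∀ i, ∃ z : ℤ, f i = z) :
    ∃ z : ℤ, ∏ i, f i = z := by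
  choose z hz using h
  exact ⟨∏ i, z i, by simp [hz]⟩

/-- Zariski density from the invariant tensors -/
theorem dense_of_kills {g : ℕ} {Δ : Subgroup (Sp g)}
    (h : ∀ ξ ∈ spK g ℂ, Kills (fun γ : Δ => cx γ.1) ξ) (P : MvPolynomial (LL g × LL g) ℂ)
    (hP : ∀ γ ∈ Δ, MvPolynomial.eval (fun a => (γ.1 a.1 a.2 : ℂ)) P = 0) :
    ∀ M ∈ symplecticGroup (Fin g) ℂ, MvPolynomial.eval (fun a => M a.1 a.2) P = 0 := by
  obtain ⟨n, cf, hcf⟩ := exists_coef P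
  let r : Δ → Matrix (Fin n → Option (LL g × LL g)) (Fin n → Option (LL g × LL g)) ℂ :=
    fun γ => kr (Fin n) (xt 1 (cx γ.1))
  let v₀ : (Fin n → Option (LL g × LL g)) → ℂ := evv (Fin n) (1 : Matrix (LL g) (LL g) ℂ)
  have h1 : r 1 = 1 := by
    change kr (Fin n) (xt 1 (cx (1 : Sp g))) = 1
    rw [xedens_cx_one, xt_one, kr_one]
  have hm : ∀ γ γ', r (γ * γ') = r γ * r γ' := by
    intro γ γ'
    change kr (Fin n) (xt 1 (cx (γ.1 * γ'.1))) = _
    rw [xedens_cx_mul, ← kr_mul, ← xt_mul, mul_one]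
  have hr : ∀ γ a b, ∃ z : ℤ, r γ a b = z := fun γ a b =>
    xedens_prod_int (f := fun i => xt 1 (cx γ.1) (a i) (b i)) fun i =>
      xedens_xt_int (M := cx γ.1) (fun a b => ⟨γ.1.1 a b, rfl⟩) _ _
  have hv : ∀ a, ∃ z : ℤ, v₀ a = z := by
    intro a
    refine xedens_prod_int fun i => ?_
    rcases a i with _ | p
    · exact ⟨1, by simp⟩
    · by_cases hp : p.1 = p.2
      · exact ⟨1, by simp [Matrix.one_apply, hp]⟩
      · exact ⟨0, by simp [hp]⟩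
  have horb : ∀ γ : Δ, r γ *ᵥ v₀ = evv (Fin n) (cx γ.1) := by
    intro γ
    change kr (Fin n) (xt 1 (cx γ.1)) *ᵥ evv (Fin n) 1 = _
    rw [kr_evv, Matrix.mul_one]
  let L := Submodule.span ℂ (Set.range fun γ => r γ *ᵥ v₀)
  have hL : ∀ M ∈ symplecticGroup (Fin g) ℂ, evv (Fin n) M ∈ L := by
    refine sp_ind (Q := fun M => evv (Fin n) M ∈ L) ?_ ?_
    · refine Submodule.subset_span ⟨1, ?_⟩
      change r 1 *ᵥ v₀ = v₀
      rw [h1, Matrix.one_mulVec]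
    · intro v M hM
      have hk : Kills r (dkr (Fin n) (xt 0 (sv v))) :=
        kills_kr (kills_xt (h _ (sv_mem v))) (Fin n)
      have hst := Kills.stable h1 hm hr hv hk
      have hsq : xt 0 (sv v) * xt 0 (sv v) = 0 := by
        rw [← xt_mul, xsalgc_sq, mul_zero, xt_zero]
      have h2 := kr_stable hsq hst _ hM
      have h3 : 1 + xt 0 (sv v) = xt 1 (1 + sv v) := by
        rw [← xt_one, ← xt_add, add_zero]
      rwa [h3, kr_evv] at h2
  have hz : ∀ w ∈ L, cf ⬝ᵥ w = 0 := by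
    intro w hw
    induction hw using Submodule.span_induction with
    | mem x hx =>
      obtain ⟨γ, rfl⟩ := hx
      change cf ⬝ᵥ (r γ *ᵥ v₀) = 0
      rw [horb, ← hcf]
      exact hP γ.1 γ.2
    | zero => exact dotProduct_zero _
    | add x y _ _ hx hy => rw [dotProduct_add, hx, hy, add_zero]
    | smul c x _ hx => rw [dotProduct_smul, hx, smul_zero]
  intro M hM
  rw [hcf]
  exact hz _ (hL M hM)

end Pool.Agent.MP_f58063_ag

end
end

section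

open Complex Filter Topology Matrix Function Asymptotics

noncomputable section

namespace Pool.Agent.MP_f58063_ag

/-- a rational projector onto a nondegenerate rational subspace -/
theorem xesmp_proj {n : Type} [Fintype n] [DecidableEq n] (Q N : Matrix n n ℂ)
    (W : Submodule ℂ (n → ℂ)) (hQ : ∀ σ : ℂ ≃+* ℂ, Q.map σ = Q) (hQ' : Qᵀ = -Q)
    (hW : ∀ σ : ℂ ≃+* ℂ, ∀ x ∈ W, σ ∘ x ∈ W) (hN : ∀ x ∈ W, N *ᵥ x ∈ W)
    (hNQ : Q * N = -(Nᵀ * Q)) (hd : ∀ y ∈ W, (∀ x ∈ W, x ⬝ᵥ Q *ᵥ y = 0) → y = 0) :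
    ∃ P : Matrix n n ℂ, (∀ a b, ∃ q : ℚ, P a b = q) ∧ P * N = N * P ∧ (∀ x ∈ W, P *ᵥ x = x) ∧
      ∀ x, P *ᵥ x ∈ W := by
  have hm : ∀ y, y ∈ (Matrix.toBilin' Q).orthogonal W ↔ ∀ x ∈ W, x ⬝ᵥ Q *ᵥ y = 0 := fun y => by
    simp only [LinearMap.BilinForm.mem_orthogonal_iff, Matrix.toBilin'_apply']
  have hr : (Matrix.toBilin' Q).IsRefl := fun x y h => by
    rw [Matrix.toBilin'_apply'] at h ⊢
    rw [dotProduct_mulVec, ← mulVec_transpose, hQ', neg_mulVec, neg_dotProduct, dotProduct_comm, h,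
      neg_zero]
  have hc := (LinearMap.BilinForm.isCompl_orthogonal_iff_disjoint (W := W) hr).2
    (Submodule.disjoint_def.2 fun y hy hy' => hd y hy ((hm y).1 hy'))
  set W' := (Matrix.toBilin' Q).orthogonal W
  let P := LinearMap.toMatrix' (W.projection W' hc)
  have hP : ∀ x, P *ᵥ x = W.projection W' hc x := fun x => LinearMap.toMatrix'_mulVec _ x
  have h1 : ∀ x ∈ W, P *ᵥ x = x := fun x hx =>
    (hP x).trans (Submodule.projection_apply_of_mem_left hc hx)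
  have h2 : ∀ x ∈ W', P *ᵥ x = 0 := fun x hx =>
    (hP x).trans (Submodule.projection_apply_of_mem_right hc hx)
  have hext : ∀ A B : Matrix n n ℂ, (∀ x ∈ W, A *ᵥ x = B *ᵥ x) → (∀ x ∈ W', A *ᵥ x = B *ᵥ x) →
      A = B := fun A B hA hB => by
    refine Matrix.ext_iff_mulVec.2 fun x => ?_
    obtain ⟨a, ha, b, hb, rfl⟩ := Submodule.mem_sup.1 (hc.sup_eq_top ▸ Submodule.mem_top (x := x))
    rw [mulVec_add, mulVec_add, hA a ha, hB b hb]
  have hmap : ∀ (σ : ℂ ≃+* ℂ) (A : Matrix n n ℂ) (x : n → ℂ),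
      A.map σ *ᵥ (σ ∘ x) = σ ∘ (A *ᵥ x) := fun σ A x =>
    funext fun i => (RingHom.map_mulVec (σ : ℂ →+* ℂ) A x i).symm
  have hid : ∀ (σ : ℂ ≃+* ℂ) (x : n → ℂ), σ ∘ σ.symm ∘ x = x := fun σ x => by ext; simp
  have hW' : ∀ σ : ℂ ≃+* ℂ, ∀ y ∈ W', σ ∘ y ∈ W' := fun σ y hy => (hm _).2 fun x hx => by
    have h := congrArg (σ : ℂ →+* ℂ) ((hm y).1 hy _ (hW σ.symm x hx))
    rw [RingHom.map_dotProduct, map_zero] at h
    rw [← hQ σ, hmap, ← hid σ x]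
    exact h
  have hN' : ∀ y ∈ W', N *ᵥ y ∈ W' := fun y hy => (hm _).2 fun x hx => by
    rw [mulVec_mulVec, hNQ, neg_mulVec, ← mulVec_mulVec, dotProduct_neg, dotProduct_mulVec,
      vecMul_transpose, (hm y).1 hy _ (hN x hx), neg_zero]
  refine ⟨P, fun a b => rat_of_fixed fun σ => ?_, hext _ _ (fun x hx => ?_) (fun x hx => ?_), h1,
    fun x => hP x ▸ Submodule.projection_apply_mem hc x⟩
  · refine congrFun (congrFun (hext (P.map σ) P (fun x hx => ?_) (fun x hx => ?_)) a) b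
    · rw [h1 x hx, ← hid σ x, hmap, h1 _ (hW _ x hx)]
    · rw [h2 x hx, ← hid σ x, hmap, h2 _ (hW' _ x hx)]
      ext
      simp
  · rw [← mulVec_mulVec, ← mulVec_mulVec, h1 x hx, h1 _ (hN x hx)]
  · rw [← mulVec_mulVec, ← mulVec_mulVec, h2 x hx, h2 _ (hN' x hx), mulVec_zero]

variable {g : ℕ} {τ : Mat g}

theorem xesmp_sp (hτ : τ ∈ Siegel g) : J (Fin g) ℂ * (mu τ)ᵀ = -(mu τ * J (Fin g) ℂ) := by
  obtain ⟨A, hA⟩ := exists_UF hτ
  have h : mu τ ∈ spK g ℂ := by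
    rw [← uf_mu hA, uf_sp hτ hA, mem_spK]
    simp [Eta, J, fromBlocks_transpose, fromBlocks_multiply, fromBlocks_add]
  exact eq_neg_of_add_eq_zero_right (mem_spK.1 h)

theorem xesmp_pos (hτ : τ ∈ Siegel g) (y : LL g → ℂ)
    (h : star y ⬝ᵥ J (Fin g) ℂ *ᵥ ((mu τ)ᵀ *ᵥ y) = 0) : y = 0 := by
  obtain ⟨A, hA⟩ := exists_UF hτ
  have hU := uf_det hτ hA
  obtain ⟨w, hw⟩ : ∃ w, J (Fin g) ℂ *ᵥ y = uf τ A *ᵥ w :=
    ⟨(uf τ A)⁻¹ *ᵥ (J (Fin g) ℂ *ᵥ y), by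
      rw [mulVec_mulVec, mul_nonsing_inv _ hU, one_mulVec]⟩
  have hy : y = -((J (Fin g) ℂ * uf τ A) *ᵥ w) := by
    rw [← mulVec_mulVec, ← hw, mulVec_mulVec, J_squared, neg_mulVec, one_mulVec, neg_neg]
  have hJ : (J (Fin g) ℂ)ᴴ = -J (Fin g) ℂ := by
    rw [conjTranspose, J_transpose, Matrix.map_neg _ star_neg]
    exact congrArg _ (map_J (Fin g) (starRingEnd ℂ))
  have h1 : mu τ * uf τ A = uf τ A * Eta g := by
    rw [← uf_mu hA, Matrix.mul_assoc, nonsing_inv_mul _ hU, Matrix.mul_one]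
  have h2 : (uf τ A)ᴴ * J (Fin g) ℂ * uf τ A * Eta g = I • (1 : Matrix (LL g) (LL g) ℂ) := by
    rw [uf_herm hτ hA, Eta, fromBlocks_multiply, ← fromBlocks_one, fromBlocks_smul]
    simp
  rw [mulVec_mulVec, xesmp_sp hτ, neg_mulVec, ← mulVec_mulVec, hw, mulVec_mulVec, h1, hy, star_neg,
    neg_dotProduct_neg, star_mulVec, ← dotProduct_mulVec, mulVec_mulVec, conjTranspose_mul, hJ,
    Matrix.mul_neg, Matrix.neg_mul, ← Matrix.mul_assoc, h2, neg_mulVec, smul_mulVec, one_mulVec,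
    dotProduct_neg, dotProduct_smul, ← nq_eq] at h
  have h3 : w = 0 := nq_eq_zero.1 (by simpa using h)
  rw [hy, h3, mulVec_zero, neg_zero]

theorem xesmp_int (hτ : τ ∈ Siegel g) (m n : Fin g → ℤ) :
    (bf τ)ᵀ *ᵥ Sum.elim (fun i => (n i : ℂ)) (fun i => (m i : ℂ)) =
      Sum.elim (star fun i => (m i : ℂ) + ∑ j, τ i j * n j)
        fun i => (m i : ℂ) + ∑ j, τ i j * n j := by
  rw [bf, fromBlocks_transpose, fromBlocks_mulVec, transpose_one, one_mulVec]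
  congr 1
  · ext i
    simp [cj, mulVec, dotProduct, hτ.1 i, add_comm]
  · ext i
    simp [mulVec, dotProduct, hτ.1 i, add_comm]

theorem EndZ.simple {g : ℕ} {τ : Mat g} (h : EndZ τ) (hτ : τ ∈ Siegel g) : IsSimple τ := by
  intro F hF
  have hB : IsUnit (bf τ)ᵀ.det := by rw [det_transpose]; exact bf_det hτ
  have hinj : Injective (bf τ)ᵀ.mulVec :=
    mulVec_injective_iff_isUnit.2 ((isUnit_iff_isUnit_det _).2 hB)
  let W : Submodule ℂ (LL g → ℂ) := Submodule.span ℂ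
    {x | (∀ a, ∃ n : ℤ, x a = n) ∧ ∃ f ∈ F, (bf τ)ᵀ *ᵥ x = Sum.elim (star f) f}
  have h1 : ∀ f ∈ F, ∃ x ∈ W, (bf τ)ᵀ *ᵥ x = Sum.elim (star f) f := fun f hf => by
    have hf' : f ∈ Submodule.span ℝ (lattice τ ∩ F) := hF hf
    clear hf
    induction hf' using Submodule.span_induction with
    | mem f hf =>
      obtain ⟨⟨m, n, rfl⟩, hf⟩ := hf
      refine ⟨_, Submodule.subset_span ⟨?_, _, hf, xesmp_int hτ m n⟩, xesmp_int hτ m n⟩
      rintro (a | a) <;> exact ⟨_, rfl⟩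
    | zero => exact ⟨0, W.zero_mem, by ext (a | a) <;> simp⟩
    | add f f' _ _ hf hf' =>
      obtain ⟨x, hx, e⟩ := hf
      obtain ⟨x', hx', e'⟩ := hf'
      exact ⟨x + x', W.add_mem hx hx', by rw [mulVec_add, e, e']; ext (a | a) <;> simp⟩
    | smul c f _ hf =>
      obtain ⟨x, hx, e⟩ := hf
      exact ⟨(c : ℂ) • x, W.smul_mem _ hx, by rw [mulVec_smul, e]; ext (a | a) <;> simp⟩
  have h2 : ∀ x, x ∈ W ↔ ∃ f' ∈ F, ∃ f ∈ F, (bf τ)ᵀ *ᵥ x = Sum.elim (star f') f := fun x => by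
    constructor
    · intro hx
      induction hx using Submodule.span_induction with
      | mem x hx =>
        obtain ⟨-, f, hf, e⟩ := hx
        exact ⟨f, hf, f, hf, e⟩
      | zero => exact ⟨0, F.zero_mem, 0, F.zero_mem, by ext (a | a) <;> simp⟩
      | add x x' _ _ hx hx' =>
        obtain ⟨a, ha, b, hb, e⟩ := hx
        obtain ⟨a', ha', b', hb', e'⟩ := hx'
        exact ⟨a + a', F.add_mem ha ha', b + b', F.add_mem hb hb', by
          rw [mulVec_add, e, e']; ext (a | a) <;> simp⟩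
      | smul c x _ hx =>
        obtain ⟨a, ha, b, hb, e⟩ := hx
        exact ⟨star c • a, F.smul_mem _ ha, c • b, F.smul_mem _ hb, by
          rw [mulVec_smul, e]; ext (a | a) <;> simp⟩
    · rintro ⟨f', hf', f, hf, e⟩
      obtain ⟨a, ha, ea⟩ := h1 _ (F.smul_mem (1 / 2) (F.add_mem hf hf'))
      obtain ⟨b, hb, eb⟩ := h1 _ (F.smul_mem (I / 2) (F.sub_mem hf hf'))
      have : x = a - I • b := hinj (by
        rw [mulVec_sub, mulVec_smul, e, ea, eb]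
        ext (i | i)
        · simp only [Sum.elim_inl, Pi.star_apply, Pi.sub_apply, Pi.smul_apply, Pi.add_apply,
            smul_eq_mul, star_mul', star_add, star_sub, star_div₀, star_one, star_ofNat,
            Complex.star_def, conj_I]
          linear_combination (-(starRingEnd ℂ (f i) - starRingEnd ℂ (f' i)) / 2) * I_mul_I
        · simp only [Sum.elim_inr, Pi.sub_apply, Pi.smul_apply, Pi.add_apply, smul_eq_mul]
          linear_combination ((f i - f' i) / 2) * I_mul_I)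
      exact this ▸ W.sub_mem ha (W.smul_mem _ hb)
  have h3 : ∀ σ : ℂ ≃+* ℂ, ∀ x ∈ W, σ ∘ x ∈ W := fun σ x hx => by
    induction hx using Submodule.span_induction with
    | mem x hx =>
      have : σ ∘ x = x := funext fun a => by
        obtain ⟨n, hn⟩ := hx.1 a
        rw [Function.comp_apply, hn, map_intCast]
      exact this.symm ▸ Submodule.subset_span hx
    | zero => exact (by ext; simp : (0 : LL g → ℂ) = σ ∘ (0 : LL g → ℂ)) ▸ W.zero_mem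
    | add x x' _ _ hx hx' =>
      exact (by ext; simp : σ ∘ x + σ ∘ x' = σ ∘ (x + x')) ▸ W.add_mem hx hx'
    | smul c x _ hx => exact (by ext; simp : σ c • σ ∘ x = σ ∘ (c • x)) ▸ W.smul_mem _ hx
  have h4 : ∀ x ∈ W, (mu τ)ᵀ *ᵥ x ∈ W := fun x hx => by
    obtain ⟨a, ha, b, hb, e⟩ := (h2 x).1 hx
    refine (h2 _).2 ⟨-a, F.neg_mem ha, b, hb, ?_⟩
    rw [mulVec_mulVec, ← transpose_mul, mu, Matrix.mul_assoc, nonsing_inv_mul _ (bf_det hτ),
      Matrix.mul_one, transpose_mul, ← mulVec_mulVec, e, Eta, fromBlocks_transpose,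
      fromBlocks_mulVec]
    simp [neg_mulVec]
  obtain ⟨P, hP, hc, hP1, hP2⟩ := xesmp_proj (J (Fin g) ℂ) (mu τ)ᵀ W
    (fun σ => map_J (Fin g) σ) (J_transpose _ _) h3 h4 (xesmp_sp hτ) fun y hy hy' => by
      refine xesmp_pos hτ y ?_
      have := hy' _ (h4 _ (h3 (starRingAut : ℂ ≃+* ℂ) y hy))
      rw [mulVec_mulVec, xesmp_sp hτ, neg_mulVec, ← mulVec_mulVec, dotProduct_neg,
        dotProduct_mulVec, ← mulVec_transpose, neg_eq_zero]
      exact this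
  obtain ⟨c, hPc⟩ := h.scalar hτ (T := Pᵀ) (fun a b => hP b a) (by
    simpa using (congrArg transpose hc).symm)
  have hP' : ∀ x, P *ᵥ x = c • x := fun x => by
    rw [← transpose_transpose P, hPc, transpose_smul, transpose_one, smul_mulVec, one_mulVec]
  by_cases hc0 : c = 0
  · refine Or.inl (eq_bot_iff.2 fun f hf => ?_)
    obtain ⟨x, hx, e⟩ := h1 f hf
    rw [← hP1 x hx, hP', hc0, zero_smul, mulVec_zero] at e
    exact funext fun i => (congrFun e (Sum.inr i)).symm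
  · refine Or.inr (eq_top_iff.2 fun f _ => ?_)
    obtain ⟨x, e⟩ := mulVec_surjective_iff_isUnit.2 ((isUnit_iff_isUnit_det _).2 hB)
      (Sum.elim 0 f)
    have hx : x ∈ W := (W.smul_mem_iff hc0).1 (hP' x ▸ hP2 x)
    obtain ⟨a, -, b, hb, e'⟩ := (h2 x).1 hx
    have : f = b := funext fun i => congrFun (e.symm.trans e') (Sum.inr i)
    exact this ▸ hb

end Pool.Agent.MP_f58063_ag

end
end

section

open Complex Filter Topology Matrix Function

noncomputable section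

namespace Pool.Agent.MP_f58063_ag

/-- a subvariety of dimension at least `2 g` with a member without nontrivial endomorphisms has
big monodromy -/
theorem bigMon_of {g d : ℕ} {S : Set (Mat g)} (hc : IsPreconnected S) (hSS : S ⊆ Siegel g)
    (hF : FinCover S d) {τ₀ : Mat g} (h0 : τ₀ ∈ S) (hE : EndZ τ₀) (hg : 0 < g)
    (hd : 2 * g ≤ d) : BigMon S := by
  intro Γ hΓ P hP M hM
  obtain ⟨Δ, R, y, hle, h⟩ := hF.covD hSS hΓ
  have hS := h.mfd hc
  refine dense_of_kills (Δ := Δ) ?_ P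
    (fun γ hγ => hP γ (hle hγ) fun τ hτ => (h.inv γ hγ τ hτ).1) M hM
  obtain ⟨A, hA⟩ := exists_UF (hSS h0)
  obtain ⟨f, hf0, hf, hinj, hm⟩ := hS.2 τ₀ h0
  have hev : ∀ᶠ x in 𝓝 (0 : Fin d → ℂ), f x ∈ S := by
    have : S ∈ map f (𝓝 0) := hm ▸ self_mem_nhdsWithin
    exact this
  let L : (Fin d → ℂ) →ₗ[ℂ] Matrix (Fin g) (Fin g) ℂ :=
    { toFun := fun x => I • (Aᵀ * Matrix.of (fderiv ℂ f 0 x) * A)
      map_add' := fun x x' => by
        rw [map_add, ← Matrix.of_add_of, Matrix.mul_add, Matrix.add_mul, smul_add]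
      map_smul' := fun c x => by
        rw [map_smul, ← Matrix.smul_of, Matrix.mul_smul, Matrix.smul_mul, smul_comm]
        rfl }
  have hL : Injective L := by
    refine (injective_iff_map_eq_zero L).2 fun x hx => hinj ?_
    have h1 : Aᵀ * Matrix.of (fderiv ℂ f 0 x) * A = 0 :=
      (smul_eq_zero.1 hx).resolve_left I_ne_zero
    have hu : IsUnit Aᵀ.det := by
      rw [det_transpose]
      exact hA.det
    have h2 := congrArg (fun B => Aᵀ⁻¹ * B * A⁻¹) h1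
    simp only [Matrix.mul_assoc, Matrix.mul_nonsing_inv _ hA.det, Matrix.mul_one,
      Matrix.nonsing_inv_mul_cancel_left _ _ hu, Matrix.zero_mul, Matrix.mul_zero] at h2
    rw [map_zero]
    exact h2
  refine kills_all hg (fun γ a b => ⟨γ.1.1 a b, rfl⟩) (uf_det (hSS h0) hA) (uf_sp (hSS h0) hA)
    (uf_cj hA) (fun κ _ _ T hT => ?_) (fun T hT hT' => ?_) (LinearMap.range L) ?_ ?_
  · rw [uf_mu hA]
    exact fixd_mu h hS hT h0
  · rw [uf_mu hA] at hT'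
    exact hE.scalar (hSS h0) hT hT'
  · rw [LinearMap.finrank_range_of_inj hL]
    simpa using hd
  · rintro _ ⟨x, rfl⟩
    have hl : AnalyticAt ℂ (fun t : ℂ => t • x) 0 := analyticAt_id.smul analyticAt_const
    have hτ : AnalyticAt ℂ (fun t : ℂ => f (t • x)) 0 :=
      AnalyticAt.comp_of_eq hf hl (zero_smul ℂ x)
    have hτS : ∀ᶠ t in 𝓝 (0 : ℂ), f (t • x) ∈ S :=
      hl.continuousAt.eventually (p := fun z => f z ∈ S) (by simpa only [zero_smul] using hev)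
    have hder : HasDerivAt (fun t : ℂ => f (t • x)) (fderiv ℂ f 0 x) 0 := by
      have h1 : HasDerivAt (fun t : ℂ => t • x) x 0 := by
        simpa using (hasDerivAt_id (0 : ℂ)).smul_const x
      exact hf.differentiableAt.hasFDerivAt.comp_hasDerivAt_of_eq 0 h1 (zero_smul ℂ x).symm
    have e0 : f ((0 : ℂ) • x) = τ₀ := by rw [zero_smul, hf0]
    have hk := kills_tan h hS hτ hτS (A := A) (by simpa only [e0] using hA)
    simp only [e0, hder.deriv] at hk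
    refine ⟨?_, hk⟩
    have hsym : (Matrix.of (fderiv ℂ f 0 x))ᵀ = Matrix.of (fderiv ℂ f 0 x) := by
      ext a b
      have h1 := hasDerivAt_pi.1 (hasDerivAt_pi.1 hder a) b
      have h2 := hasDerivAt_pi.1 (hasDerivAt_pi.1 hder b) a
      exact (h2.congr_of_eventuallyEq (hτS.mono fun t ht => (hSS ht).1 a b)).unique h1
    change (I • (Aᵀ * Matrix.of (fderiv ℂ f 0 x) * A))ᵀ = I • (Aᵀ * Matrix.of (fderiv ℂ f 0 x) * A)
    rw [transpose_smul, transpose_mul, transpose_mul, transpose_transpose, hsym, Matrix.mul_assoc]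

theorem full {g k d : ℕ} {S : Set (Mat g)} (hk : k + 3 ≤ g) (hc : IsPreconnected S)
    (hAM : S ⊆ AM g k) (hE : ∃ τ ∈ S, EndZ τ) (hA : AlgDim S d) (hF : FinCover S d) :
    d + (k + 1) * (k + 2) / 2 ≤ g * (g + 1) / 2 := by
  have hSS : S ⊆ Siegel g := fun τ h => (hAM h).1
  obtain ⟨τ₀, h0, hE⟩ := hE
  by_cases hd : 2 * g ≤ d
  · obtain ⟨Δ, R, y, -, h⟩ := hF.covD hSS (Γ := ⊤) inferInstance
    exact sharp (h.mfd hc) hAM ⟨τ₀, h0, hE.simple (hSS h0)⟩ hA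
      (bigMon_of hc hSS hF h0 hE (by omega) hd)
  · obtain ⟨m, rfl⟩ : ∃ m, g = m + 3 := ⟨g - 3, by omega⟩
    have h1 : (k + 1) * (k + 2) ≤ (m + 1) * (m + 2) := Nat.mul_le_mul (by omega) (by omega)
    have h2 : (m + 3) * (m + 3 + 1) = (m + 1) * (m + 2) + (2 * m + 5) * 2 := by ring
    rw [h2, Nat.add_mul_div_right _ _ two_pos]
    have h3 := Nat.div_le_div_right (c := 2) h1
    omega

end Pool.Agent.MP_f58063_ag

end
end
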