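import Pool.Agent.Mg.Fcf0a82q.G430d12
import Pool.Agent.Mg.Fcf0a82q.G3d2c3a
import Pool.Agent.Mg.Fcf0a82q.Gbd7e79
import Pool.Agent.Mg.Fcf0a82q.G7c9b0d
import Pool.Agent.Mg.Fcf0a82q.G349431

section

open Complex Filter Topology Matrix Function

noncomputable section

namespace Pool.Agent.MP_cf0a82_ag

open Pool.Agent.MP_f58063_ag

variable {g : ℕ} (B : Box g) (j : Fin B.nJ)

lemma xbfld_th {c : LL g → ℂ} (hc : IsCh B.N c) : JH 0 fun p : PP Unit g => th c p.1 := by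
  obtain ⟨r, rfl⟩ := IsCh.real B.hN hc
  exact JH.of_tau (th_analytic _) (MH_th r)

lemma xbfld_gr {c : LL g → ℂ} (hc : IsCh B.N c) (a : Fin g) :
    JH 0 fun p : PP Unit g => dv (ee a) (thc c p.1) 0 := by
  obtain ⟨r, rfl⟩ := IsCh.real B.hN hc
  exact JH.of_tau (gr_analytic _ a) (MH_gr r a)

lemma xbfld_he {c : LL g → ℂ} (hc : IsCh B.N c) (a b : Fin g) :
    JH 0 fun p : PP Unit g => dv (ee a) (dv (ee b) (thc c p.1)) 0 := by
  obtain ⟨r, rfl⟩ := IsCh.real B.hN hc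
  exact JH.of_tau (he_analytic _ a b) (MH_he r a b)

lemma xbfld_G (a i : Fin g) : JH 0 fun p : PP Unit g => Gm B.cs p.1 a i :=
  xbfld_gr B (B.hs i) a

lemma xbfld_det : JH 0 fun p : PP Unit g => (Gm B.cs p.1).det := JH.det (xbfld_G B)

lemma xbfld_mul {f h : PP Unit g → ℂ} (hf : JH 0 f) (hh : JH (idm 3) h) :
    JH (idm 3) fun p => f p * h p := by
  have := hf.mul hh
  rwa [zero_add] at this

lemma xbfld_ne {p : PP Unit g} (hp : p ∈ DomJ (B.Δ j)) :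
    th B.c₀ p.1 ≠ 0 ∧ (Gm B.cs p.1).det ≠ 0 ∧ B.φ j p.1 (p.2 ()) ≠ 0 :=
  ⟨left_ne_zero_of_mul (left_ne_zero_of_mul hp.2), right_ne_zero_of_mul (left_ne_zero_of_mul hp.2),
    right_ne_zero_of_mul hp.2⟩

lemma xbfld_i0 : MerJ (B.Δ j) (idm 3) fun p => (th B.c₀ p.1)⁻¹ :=
  MerJ.of_div (xbfld_mul (xbfld_det B) (B.JF_φ j).jh) fun p hp => by
    obtain ⟨h1, h2, h3⟩ := xbfld_ne B j hp
    unfold Box.Δ
    field_simp

lemma xbfld_i1 : MerJ (B.Δ j) (idm 3) fun p => ((Gm B.cs p.1).det)⁻¹ :=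
  MerJ.of_div (xbfld_mul (xbfld_th B B.h0) (B.JF_φ j).jh) fun p hp => by
    obtain ⟨h1, h2, h3⟩ := xbfld_ne B j hp
    unfold Box.Δ
    field_simp

lemma xbfld_q {h : PP Unit g → ℂ} (hh : JH (idm 3) h) :
    MerJ (B.Δ j) (idm 3) fun p => h p / B.φ j p.1 (p.2 ()) :=
  MerJ.of_div (xbfld_mul (xbfld_th B B.h0) (xbfld_mul (xbfld_det B) hh)) fun p hp => by
    obtain ⟨h1, h2, h3⟩ := xbfld_ne B j hp
    unfold Box.Δ
    field_simp

lemma xbfld_of (a b : Fin g) : MerJ (B.Δ j) (idm 3) fun p => Matrix.of p.1 a b :=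
  MerJ.of_JH (JH.entry a b)

theorem Box.mer_yq {c : LL g → ℂ} (hc : IsCh B.N c) :
    MerJ (B.Δ j) (idm 3) fun p => yq B.c₀ c p.1 := by
  exact ((MerJ.of_JH (xbfld_th B hc)).mul (xbfld_i0 B j)).congr
    fun _ _ => (div_eq_mul_inv _ _).symm

theorem Box.mer_w (j' : Fin B.nJ) :
    MerJ (B.Δ j) (idm 3) fun p => B.φ j' p.1 (p.2 ()) / B.φ j p.1 (p.2 ()) := by
  exact xbfld_q B j (B.JF_φ j').jh

theorem Box.mer_V (a b : Fin g) : MerJ (B.Δ j) (idm 3) fun p => Vf B.c₀ B.cs p.1 a b := by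
  exact ((MerJ.of_JH (xbfld_G B a b)).mul (xbfld_i0 B j)).congr
    fun _ _ => (div_eq_mul_inv _ _).symm

theorem Box.mer_W (a b : Fin g) : MerJ (B.Δ j) (idm 3) fun p => (Vf B.c₀ B.cs p.1)⁻¹ a b := by
  refine (((MerJ.of_JH (xbfld_th B B.h0)).mul (xbfld_i1 B j)).mul
    (MerJ.of_JH (JH.adj (xbfld_G B) a b))).congr fun p hp => ?_
  obtain ⟨h1, h2, -⟩ := xbfld_ne B j hp
  have e : Vf B.c₀ B.cs p.1 = (th B.c₀ p.1)⁻¹ • Gm B.cs p.1 := by
    ext a i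
    simp only [Vf, Gm, of_apply, Matrix.smul_apply, smul_eq_mul]
    ring
  have e' : (Vf B.c₀ B.cs p.1)⁻¹ =
      (th B.c₀ p.1 * ((Gm B.cs p.1).det)⁻¹) • (Gm B.cs p.1).adjugate := by
    refine inv_eq_left_inv ?_
    rw [e, Matrix.smul_mul, Matrix.mul_smul, adjugate_mul, smul_smul, smul_smul]
    convert one_smul ℂ _
    field_simp
  rw [e']
  rfl

theorem Box.mer_ψf (a b : Fin g) : MerJ (B.Δ j) (idm 3) fun p => ψf B.c₀ p.1 a b := by
  refine (((MerJ.of_JH (xbfld_he B B.h0 a b)).neg.mul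
    (MerJ.const (2 * Real.pi * I)⁻¹)).mul (xbfld_i0 B j)).congr fun p _ => ?_
  simp only [ψf, of_apply, div_eq_mul_inv, mul_inv, mul_assoc]

theorem Box.mer_β (a : Fin g) :
    MerJ (B.Δ j) (idm 3) fun p => βf (B.φ j) p.1 (p.2 ()) a := by
  refine ((MerJ.const (6 * Real.pi * I)⁻¹).mul
    (xbfld_q B j ((B.JF_φ j).jh.dz fun _ => ee a))).congr fun p hp => ?_
  have h1 := ((B.JF_φ j).jh.an p hp.1).differentiableAt.hasFDerivAt
  have h2 : HasFDerivAt (fun z : EE g => ((p.1, fun _ => z) : PP Unit g))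
      ((0 : EE g →L[ℂ] Mat g).prod (ContinuousLinearMap.pi fun _ => ContinuousLinearMap.id ℂ _))
      (p.2 ()) :=
    (hasFDerivAt_const _ _).prodMk (hasFDerivAt_pi.2 fun _ => hasFDerivAt_id _)
  have h3 : HasFDerivAt (B.φ j p.1) _ (p.2 ()) :=
    HasFDerivAt.comp (g := fun p : PP Unit g => B.φ j p.1 (p.2 ()))
      (f := fun z : EE g => ((p.1, fun _ => z) : PP Unit g)) (p.2 ()) h1 h2
  simp only [βf, dv]
  rw [h3.fderiv, div_eq_mul_inv, div_eq_mul_inv, mul_inv (6 * Real.pi * I : ℂ), mul_left_comm]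
  rfl

theorem Box.mer_U (a : LL g) : MerJ (B.Δ j) (idm 3) fun p => Uf (B.φ j) p.1 (p.2 ()) a := by
  have hΔ := (B.JF_Δ j).jh
  rcases a with a | a
  · exact (MerJ.of_JH (JH.coord () a)).add hΔ
      (MerJ.sum hΔ _ fun i _ => (xbfld_of B j a i).mul (B.mer_β j i))
  · exact B.mer_β j a

theorem Box.mer_P (a b : LL g) : MerJ (B.Δ j) (idm 3) fun p => B.P p.1 a b := by
  have hΔ := (B.JF_Δ j).jh
  have hW : ∀ a b, MerJ (B.Δ j) (idm 3) fun p => (Vf B.c₀ B.cs p.1)⁻¹ᵀ a b :=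
    fun a b => B.mer_W j b a
  rcases a with a | a <;> rcases b with b | b
  · exact MerJ.matMul hΔ (A := fun p => 1 - Matrix.of p.1 * ψf B.c₀ p.1)
      (fun i k => (MerJ.const ((1 : Matrix (Fin g) (Fin g) ℂ) i k)).sub hΔ
        (MerJ.matMul hΔ (xbfld_of B j) (B.mer_ψf j) i k)) hW a b
  · exact MerJ.matMul hΔ (xbfld_of B j) (B.mer_V j) a b
  · exact (MerJ.matMul hΔ (B.mer_ψf j) hW a b).neg
  · exact B.mer_V j a b

lemma xbfld_inv {τ ψ V W : Matrix (Fin g) (Fin g) ℂ} (h : W * V = 1) :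
    (Pm τ ψ V W)⁻¹ = fromBlocks Vᵀ (-(Vᵀ * τ)) (W * ψ) (W - W * ψ * τ) := by
  have h' : Vᵀ * Wᵀ = 1 := by rw [← transpose_mul, h, transpose_one]
  refine inv_eq_left_inv ?_
  rw [Pm, fromBlocks_multiply, ← fromBlocks_one]
  congr 1
  · refine Eq.trans ?_ h'
    noncomm_ring
  · noncomm_ring
  · noncomm_ring
  · refine Eq.trans ?_ h
    noncomm_ring

theorem Box.mer_Pi (a b : LL g) : MerJ (B.Δ j) (idm 3) fun p => (B.P p.1)⁻¹ a b := by
  have hΔ := (B.JF_Δ j).jh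
  have hV : ∀ a b, MerJ (B.Δ j) (idm 3) fun p => (Vf B.c₀ B.cs p.1)ᵀ a b :=
    fun a b => B.mer_V j b a
  have hψ := MerJ.matMul hΔ (B.mer_W j) (B.mer_ψf j)
  refine MerJ.congr (f := fun p => fromBlocks (Vf B.c₀ B.cs p.1)ᵀ
    (-((Vf B.c₀ B.cs p.1)ᵀ * Matrix.of p.1)) ((Vf B.c₀ B.cs p.1)⁻¹ * ψf B.c₀ p.1)
    ((Vf B.c₀ B.cs p.1)⁻¹ - (Vf B.c₀ B.cs p.1)⁻¹ * ψf B.c₀ p.1 * Matrix.of p.1) a b) ?_
    fun p hp => ?_
  · rcases a with a | a <;> rcases b with b | b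
    · exact hV a b
    · exact (MerJ.matMul hΔ hV (xbfld_of B j) a b).neg
    · exact hψ a b
    · exact (B.mer_W j a b).sub hΔ (MerJ.matMul hΔ hψ (xbfld_of B j) a b)
  · rw [Box.P, Pf, xbfld_inv (nonsing_inv_mul _ (isUnit_iff_ne_zero.2 (B.mem_dom.1 hp).1.2.2))]

lemma xbfld_Xi (a b i k : Fin g) : MerJ (B.Δ j) (idm 3) fun p => Xi B.c₀ B.cs a b p.1 i k :=
  MerJ.matMul (B.JF_Δ j).jh (MerJ.matMul (B.JF_Δ j).jh
    (A := fun p => (Vf B.c₀ B.cs p.1)⁻¹ᵀ) (C := fun _ => Matrix.single a b 1 + Matrix.single b a 1)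
    (fun a b => B.mer_W j b a) fun _ _ => MerJ.const _) (B.mer_W j) i k

theorem Box.merF_Xt (a b : Fin g) : MerF (B.Δ j) (idm 3) (B.Xt j a b) := by
  exact ⟨xbfld_Xi B j a b, fun _ i => (MerJ.sum (B.JF_Δ j).jh _
    fun k _ => (xbfld_Xi B j a b i k).mul (B.mer_β j k)).neg,
    fun p => xsfr_symm B.c₀ B.cs a b p.1⟩

theorem Box.merF_Zt (a : Fin g) : MerF (B.Δ j) (idm 3) (B.Zt a) := by
  refine ⟨fun _ _ => MerJ.const 0, fun _ i => (B.mer_W j a i).congr fun p _ => ?_,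
    fun _ _ _ => rfl⟩
  simp [Box.Zt]

end Pool.Agent.MP_cf0a82_ag

end
end

section

open Complex Filter Topology Matrix Function

noncomputable section

namespace Pool.Agent.MP_cf0a82_ag

open Pool.Agent.MP_f58063_ag

variable {ι : Type} [Fintype ι] {g : ℕ} {p v : PP ι g}

lemma xbinva_der {X Y : Type} [NormedAddCommGroup X] [NormedSpace ℂ X] [NormedAddCommGroup Y]
    [NormedSpace ℂ Y] {F : X → Y} {x : X} (hF : AnalyticAt ℂ F x) (w : X) :
    HasDerivAt (fun t : ℂ => F (x + t • w)) (fderiv ℂ F x w) 0 := by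
  have h1 : HasDerivAt (fun t : ℂ => x + t • w) w 0 := by
    simpa using ((hasDerivAt_id (0 : ℂ)).smul_const w).const_add x
  have h2 : HasFDerivAt F (fderiv ℂ F x) (x + (0 : ℂ) • w) := by
    simpa using hF.differentiableAt.hasFDerivAt
  exact h2.comp_hasDerivAt (0 : ℂ) h1

lemma xbinva_t (p : PP ι g) (a b : Fin g) : AnalyticAt ℂ (fun q : PP ι g => q.1 a b) p :=
  (xsact_an_entry _ a b).comp analyticAt_fst

lemma xbinva_z (p : PP ι g) (l : ι) (a : Fin g) : AnalyticAt ℂ (fun q : PP ι g => q.2 l a) p :=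
  analyticAt_pi_iff.1 (analyticAt_pi_iff.1
    (analyticAt_snd : AnalyticAt ℂ (fun q : PP ι g => fun l a => q.2 l a) p) l) a

lemma xbinva_j (γ : Sp g) (hp : p.1 ∈ Siegel g) (a b : Fin g) :
    AnalyticAt ℂ (fun q : PP ι g => (jac γ q.1)⁻¹ a b) p :=
  (xsact_an_jinv γ hp a b).comp analyticAt_fst

lemma xbinva_lin (x w : ℂ) : HasDerivAt (fun t : ℂ => x + t * w) w 0 := by
  simpa using ((hasDerivAt_id (0 : ℂ)).mul_const w).const_add x

theorem gact_an (γ : Sp g) (hp : p.1 ∈ Siegel g) : AnalyticAt ℂ (gact γ) p := by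
  refine ((act_analytic γ hp).comp analyticAt_fst).prod
    (analyticAt_pi_iff.2 fun l => analyticAt_pi_iff.2 fun i => ?_)
  simp only [mulVec, dotProduct, transpose_apply]
  exact Finset.analyticAt_fun_sum _ fun j _ => (xbinva_j γ hp j i).mul (xbinva_z p l j)

theorem tact_an (a b : ι → Fin g → ℤ) (p : PP ι g) : AnalyticAt ℂ (tact a b) p := by
  refine analyticAt_fst.prod (analyticAt_pi_iff.2 fun l => analyticAt_pi_iff.2 fun i => ?_)
  simp only [per, Pi.add_apply]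
  exact (xbinva_z p l i).add (analyticAt_const.add
    (Finset.analyticAt_fun_sum _ fun j _ => (xbinva_t p i j).mul analyticAt_const))

theorem gact_fderiv (γ : Sp g) (hp : p.1 ∈ Siegel g) (hv : IsSy v.1) :
    fderiv ℂ (gact γ) p v =
      (Matrix.of.symm ((jac γ p.1)⁻¹ᵀ * Matrix.of v.1 * (jac γ p.1)⁻¹), fun l =>
        (jac γ p.1)⁻¹ᵀ *ᵥ (v.2 l - mv v.1 (((jac γ p.1)⁻¹ * (cx γ).toBlocks₂₁) *ᵥ p.2 l))) := by
  have h1 := xbinva_der (act_analytic γ hp) v.1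
  rw [act_fderiv γ hp] at h1
  refine (xbinva_der (gact_an γ hp) v).unique
    (h1.prodMk (hasDerivAt_pi.2 fun l => hasDerivAt_pi.2 fun i => ?_))
  set W := (jac γ p.1)⁻¹ᵀ * Matrix.of v.1 * (jac γ p.1)⁻¹ with hW
  have h2 : ∀ a b, HasDerivAt (fun t : ℂ => (jac γ (p.1 + t • v.1))⁻¹ a b)
      (-((cx γ).toBlocks₂₁ᵀ * W) a b) 0 := by
    intro a b
    have h3 := (HasDerivAt.fun_sum (u := Finset.univ) fun k _ =>
      (hasDerivAt_pi.1 (hasDerivAt_pi.1 h1 k) b).const_mul ((cx γ).toBlocks₂₁ᵀ a k)).const_sub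
        ((cx γ).toBlocks₁₁ᵀ a b)
    refine h3.congr_of_eventuallyEq ?_
    filter_upwards [(xsids_line hp hv).eventually self_mem_nhdsWithin] with t ht
    rw [jac_inv γ ht]
    rfl
  have h4 := HasDerivAt.fun_sum (u := Finset.univ) fun j _ =>
    (h2 j i).fun_mul (xbinva_lin (p.2 l j) (v.2 l j))
  have hs : (Matrix.of v.1)ᵀ = Matrix.of v.1 := by
    ext a b
    exact hv b a
  have e : (jac γ p.1)⁻¹ᵀ *ᵥ (v.2 l - mv v.1 (((jac γ p.1)⁻¹ * (cx γ).toBlocks₂₁) *ᵥ p.2 l)) =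
      -(((cx γ).toBlocks₂₁ᵀ * W)ᵀ *ᵥ p.2 l) + (jac γ p.1)⁻¹ᵀ *ᵥ v.2 l := by
    change _ *ᵥ (_ - Matrix.of v.1 *ᵥ _) = _
    rw [hW, mulVec_sub, mulVec_mulVec, mulVec_mulVec, transpose_mul, transpose_mul, transpose_mul,
      hs, transpose_transpose, transpose_transpose, neg_add_eq_sub]
    simp only [Matrix.mul_assoc]
  rw [e]
  refine h4.congr_deriv ?_
  simp [mulVec, dotProduct, Finset.sum_add_distrib, -transpose_mul]

theorem tact_fderiv (a b : ι → Fin g → ℤ) (p v : PP ι g) :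
    fderiv ℂ (tact a b) p v = (v.1, fun l => v.2 l + mv v.1 fun i => (a l i : ℂ)) := by
  have h1 : HasDerivAt (fun t : ℂ => p.1 + t • v.1) v.1 0 := by
    simpa using ((hasDerivAt_id (0 : ℂ)).smul_const v.1).const_add p.1
  refine (xbinva_der (tact_an a b p) v).unique
    (h1.prodMk (hasDerivAt_pi.2 fun l => hasDerivAt_pi.2 fun i => ?_))
  exact (xbinva_lin (p.2 l i) (v.2 l i)).fun_add ((HasDerivAt.fun_sum (u := Finset.univ)
    fun j _ => (xbinva_lin (p.1 i j) (v.1 i j)).mul_const (a l j : ℂ)).const_add (b l i : ℂ))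

/-- the chain rule for identities that hold over the Siegel space -/
theorem chainJ {T : PP ι g → PP ι g} {F F' : PP ι g → ℂ} (hp : p.1 ∈ Siegel g) (hv : IsSy v.1)
    (hT : AnalyticAt ℂ T p) (hF : AnalyticAt ℂ F (T p)) (hF' : AnalyticAt ℂ F' p)
    (h : ∀ᶠ q in 𝓝 p, q.1 ∈ Siegel g → F (T q) = F' q) :
    fderiv ℂ F (T p) (fderiv ℂ T p v) = fderiv ℂ F' p v := by
  have h1 : Tendsto (fun t : ℂ => p + t • v) (𝓝 0) (𝓝 p) := by
    have : Continuous fun t : ℂ => p + t • v := by fun_prop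
    simpa using this.tendsto 0
  have e : (fun t : ℂ => F' (p + t • v)) =ᶠ[𝓝 0] fun t : ℂ => (F ∘ T) (p + t • v) := by
    filter_upwards [h1.eventually h, (xsids_line hp hv).eventually self_mem_nhdsWithin]
      with t h2 h3
    exact (h2 h3).symm
  rw [← ((xbinva_der (hF.comp hT) v).congr_of_eventuallyEq e).unique (xbinva_der hF' v),
    fderiv_comp p hF.differentiableAt hT.differentiableAt]
  rfl

variable {M α β : ℕ} {m : ι → ι → ℤ} {Δ f : PP ι g → ℂ}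

theorem InvJ.der (hΔ : JF M α β m Δ) (h2 : 2 ∣ M) (hf : MerJ Δ m f) (h : InvJ M Δ f)
    {ξ : PP ι g → PP ι g} (hs : ∀ p, IsSy (ξ p).1) (hξ : InvF M Δ ξ) :
    InvJ M Δ fun p => fderiv ℂ f p (ξ p) := by
  intro p hp hS
  obtain ⟨d1, d2⟩ := hΔ.dom h2 hp hS
  have ho := hΔ.jh.isOpen_dom.mem_nhds hp
  refine ⟨fun γ hγ => ?_, fun a b => ?_⟩
  · simp only
    rw [(hξ p hp hS).1 γ hγ]
    refine chainJ hS (hs p) (gact_an γ hS) (hf.analyticAt hΔ.jh (d1 γ hγ))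
      (hf.analyticAt hΔ.jh hp) ?_
    filter_upwards [ho] with q hq hq' using (h q hq hq').1 γ hγ
  · simp only
    rw [(hξ p hp hS).2 a b]
    refine chainJ hS (hs p) (tact_an a b p) (hf.analyticAt hΔ.jh (d2 a b))
      (hf.analyticAt hΔ.jh hp) ?_
    filter_upwards [ho] with q hq hq' using (h q hq hq').2 a b

theorem jacobi_id {F : PP ι g → ℂ} (hF : ∀ p : PP ι g, p.1 ∈ Siegel g → AnalyticAt ℂ F p)
    (hΔ : JH m Δ) (h0 : ∃ p ∈ DomJ Δ, p.1 ∈ Siegel g)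
    (h : ∀ p ∈ DomJ Δ, p.1 ∈ Siegel g → F p = 0) : ∀ p : PP ι g, p.1 ∈ Siegel g → F p = 0 := by
  obtain ⟨⟨τ₀, z₀⟩, hp₀, hS⟩ := h0
  rintro ⟨τ, z⟩ hτ
  refine siegel_id (F := fun σ => F (σ, z)) (fun σ hσ => (hF (σ, z) hσ).comp
    (f := fun σ : Mat g => (σ, z)) (analyticAt_id.prod analyticAt_const)) hS ?_ τ hτ
  have h1 : ∀ᶠ q in 𝓝 (τ₀, z₀), q ∈ DomJ Δ := hΔ.isOpen_dom.mem_nhds hp₀
  filter_upwards [self_mem_nhdsWithin, mem_nhdsWithin_of_mem_nhds h1.curry_nhds] with σ hσ h2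
  refine congrFun (entire_zero (f := fun w => F (σ, w)) (fun w => (hF (σ, w) hσ).comp
    (f := fun w : XX ι g => (σ, w)) (analyticAt_const.prod analyticAt_id)) (x := z₀) ?_) z
  filter_upwards [h2] with w hw using h _ hw hσ

lemma xbinva_qI (n : ℕ) (m : ι → ι → ℤ) (a : ι → Fin g → ℝ) (p : PP ι g) :
    exp (Real.pi * I * qI (n • m) a p) = exp (Real.pi * I * qI m a p) ^ n := by
  rw [← exp_nat_mul]
  congr 1
  simp only [qI, Pi.smul_apply, nsmul_eq_mul, Int.cast_mul, Int.cast_natCast, Finset.mul_sum]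
  exact Finset.sum_congr rfl fun _ _ => Finset.sum_congr rfl fun _ _ => by ring

lemma xbinva_jq (n : ℕ) (m : ι → ι → ℤ) (γ : Sp g) (p : PP ι g) :
    exp (Real.pi * I * jq (n • m) γ p) = exp (Real.pi * I * jq m γ p) ^ n := by
  rw [← exp_nat_mul]
  congr 1
  simp only [jq, Pi.smul_apply, nsmul_eq_mul, Int.cast_mul, Int.cast_natCast, Finset.mul_sum]
  exact Finset.sum_congr rfl fun _ _ => Finset.sum_congr rfl fun _ _ => by ring

lemma xbinva_qI_an (m : ι → ι → ℤ) (a : ι → Fin g → ℝ) (p : PP ι g) :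
    AnalyticAt ℂ (qI m a) p := by
  unfold qI
  simp only [dotProduct, mv]
  exact Finset.analyticAt_fun_sum _ fun l _ => Finset.analyticAt_fun_sum _ fun l' _ =>
    analyticAt_const.mul ((Finset.analyticAt_fun_sum _ fun i _ => analyticAt_const.mul
      (Finset.analyticAt_fun_sum _ fun j _ => (xbinva_t p i j).mul analyticAt_const)).add
      (analyticAt_const.mul (Finset.analyticAt_fun_sum _ fun i _ =>
        analyticAt_const.mul (xbinva_z p l' i))))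

lemma xbinva_quad (γ : Sp g) (hp : p.1 ∈ Siegel g) {x y : PP ι g → EE g}
    (hx : ∀ i, AnalyticAt ℂ (fun q => x q i) p) (hy : ∀ i, AnalyticAt ℂ (fun q => y q i) p) :
    AnalyticAt ℂ (fun q => x q ⬝ᵥ ((jac γ q.1)⁻¹ * (cx γ).toBlocks₂₁) *ᵥ y q) p := by
  simp only [dotProduct, mulVec, Matrix.mul_apply]
  exact Finset.analyticAt_fun_sum _ fun i _ => (hx i).mul (Finset.analyticAt_fun_sum _ fun j _ =>
    (Finset.analyticAt_fun_sum _ fun k _ => (xbinva_j γ hp i k).mul analyticAt_const).mul (hy j))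

lemma xbinva_jq_an (m : ι → ι → ℤ) (γ : Sp g) (hp : p.1 ∈ Siegel g) :
    AnalyticAt ℂ (jq m γ) p :=
  Finset.analyticAt_fun_sum _ fun l _ => Finset.analyticAt_fun_sum _ fun l' _ =>
    analyticAt_const.mul (xbinva_quad γ hp (xbinva_z p l) (xbinva_z p l'))

lemma xbinva_F_an (γ : Sp g) (hp : p.1 ∈ Siegel g) (z : EE g) :
    AnalyticAt ℂ (fun q : PP ι g => xstfF γ q.1 z) p := by
  refine AnalyticAt.mul (AnalyticAt.cexp' (AnalyticAt.neg (analyticAt_const.mul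
    (xbinva_quad γ hp (fun _ => analyticAt_const) fun _ => analyticAt_const)))) ?_
  refine (Theta_analytic (Siegel_sub (act_mem γ hp)) _).comp
    (f := fun q : PP ι g => (act γ q.1, (jac γ q.1)⁻¹ᵀ *ᵥ z))
    (((act_analytic γ hp).comp analyticAt_fst).prod (analyticAt_pi_iff.2 fun i => ?_))
  simp only [mulVec, dotProduct, transpose_apply]
  exact Finset.analyticAt_fun_sum _ fun j _ => (xbinva_j γ hp j i).mul analyticAt_const

/-- the numerator of an invariant function is a Jacobi form -/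
theorem jnum (hΔ : JF M α β m Δ) (h2 : 2 ∣ M) (h0 : ∃ p ∈ DomJ Δ, p.1 ∈ Siegel g)
    (hf : MerJ Δ m f) (h : InvJ M Δ f) :
    ∃ (n : ℕ) (h : PP ι g → ℂ), JF M (n * α) (n * β) (n • m) h ∧
      ∀ p ∈ DomJ Δ, f p = h p / Δ p ^ n := by
  obtain ⟨n, H, hH, e⟩ := hf
  have e' : ∀ p ∈ DomJ Δ, H p = f p * Δ p ^ n := fun p hp => by
    rw [e p hp, div_mul_cancel₀ _ (pow_ne_zero n hp.2)]
  refine ⟨n, H, ⟨hH, fun a b p hp => sub_eq_zero.1 ?_, fun γ hγ p hp => ?_⟩, e⟩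
  · refine jacobi_id (F := fun q => exp (Real.pi * I * qI (n • m) (fun l i => (a l i : ℝ)) q) *
      H (tact a b q) - H q) (fun q hq => ?_) hΔ.jh h0 (fun q hq hS => ?_) p hp
    · exact ((analyticAt_const.mul (xbinva_qI_an _ _ q)).cexp'.mul
        ((hH.an (tact a b q) (Siegel_sub hq)).comp (tact_an a b q))).sub
        (hH.an q (Siegel_sub hq))
    · rw [e' _ ((hΔ.dom h2 hq hS).2 a b), e' q hq, (h q hq hS).2 a b, ← hΔ.lat a b q hS,
        xbinva_qI, mul_pow]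
      ring
  · obtain ⟨z, hz⟩ := theta_ne (Siegel_sub hp)
    have key := jacobi_id (F := fun q => theta q.1 z ^ (n * α) * H (gact γ q) -
      xstfF γ q.1 z ^ (n * α) * (jac γ q.1).det ^ (n * β) *
        exp (Real.pi * I * jq (n • m) γ q) * H q) (fun q hq => ?_) hΔ.jh h0 (fun q hq hS => ?_) p hp
    · rw [(kap_spec h2 hγ hp).2, sub_eq_zero] at key
      refine mul_left_cancel₀ (pow_ne_zero (n * α) hz) (key.trans ?_)
      ring
    · refine (AnalyticAt.mul (AnalyticAt.pow ?_ _) ((hH.an (gact γ q)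
        (Siegel_sub (act_mem γ hq))).comp (gact_an γ hq))).sub (((((xbinva_F_an γ hq z).pow _).mul
          (AnalyticAt.pow ?_ _)).mul (analyticAt_const.mul (xbinva_jq_an _ γ hq)).cexp').mul
          (hH.an q (Siegel_sub hq)))
      · exact (Theta_analytic (Siegel_sub hq) z).comp (f := fun q : PP ι g => (q.1, z))
          (analyticAt_fst.prod analyticAt_const)
      · exact xsact_an_det fun i j => (xsact_an_aff _ _ q.1 i j).comp analyticAt_fst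
    · rw [e' _ ((hΔ.dom h2 hq hS).1 γ hγ), e' q hq, (h q hq hS).1 γ hγ, hΔ.grp γ hγ q hS,
        xbinva_jq, (kap_spec h2 hγ hS).2]
      ring

end Pool.Agent.MP_cf0a82_ag

end
end

section

open Complex Filter Topology Matrix Function

noncomputable section

namespace Pool.Agent.MP_cf0a82_ag

open Pool.Agent.MP_f58063_ag

variable {g : ℕ} (B : Box g) (j : Fin B.nJ) {p : PP Unit g}

theorem xbfldi_mv (A : Mat g) (e : EE g) : mv A e = Matrix.of A *ᵥ e := rfl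

theorem xbfldi_an {τ : Mat g} (hτ : τ ∈ Siegel g) (z : EE g) : AnalyticAt ℂ (B.φ j τ) z :=
  (mem_Th.1 (tp_mem (B.tc j) hτ)).1 z

theorem xbfldi_grp {τ : Mat g} (hτ : τ ∈ Siegel g) {γ : Sp g} (hγ : γ ∈ Gam g (2 * B.N ^ 2))
    (w : EE g) : B.φ j (act γ τ) ((jac γ τ)⁻¹ᵀ *ᵥ w) = kap γ τ ^ 3 * exp (Real.pi * I *
      (w ⬝ᵥ ((3 : ℂ) • ((jac γ τ)⁻¹ * (cx γ).toBlocks₂₁)) *ᵥ w)) * B.φ j τ w := by
  have h := (B.JF_φ j).grp γ hγ (τ, fun _ => w) hτ
  simp only [jq, idm, Finset.univ_unique, Finset.sum_singleton, if_true, pow_zero, mul_one] at h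
  rw [smul_mulVec, dotProduct_smul, smul_eq_mul]
  exact_mod_cast h

theorem xbfldi_aut (τ : Mat g) (n : Fin g → ℤ) (z : EE g) (i : Fin g) :
    dv (ee i) (fun w => aut τ n w ^ 3) z = -(6 * Real.pi * I * n i) * aut τ n z ^ 3 := by
  have h1 : HasFDerivAt (fun w : EE g => ∑ k, (n k : ℂ) * w k)
      (∑ k, (n k : ℂ) • (ContinuousLinearMap.proj k : EE g →L[ℂ] ℂ)) z :=
    HasFDerivAt.fun_sum fun k _ =>
      (ContinuousLinearMap.proj k : EE g →L[ℂ] ℂ).hasFDerivAt.const_mul _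
  have h2 := ((((h1.const_mul (2 * Real.pi * I : ℂ)).const_add
    (Real.pi * I * ∑ i, ∑ j, (n i : ℂ) * τ i j * n j)).fun_neg).cexp.pow 3).fderiv
  unfold aut
  rw [dv_apply]
  erw [h2]
  simp [Pi.single_apply]
  ring

theorem Box.β_gact (hp : p ∈ DomJ (B.Δ j)) (hS : p.1 ∈ Siegel g) {γ : Sp g}
    (hγ : γ ∈ Gam g (2 * B.N ^ 2)) :
    βf (B.φ j) (gact γ p).1 ((gact γ p).2 ()) =
      (cx γ).toBlocks₂₁ *ᵥ p.2 () + jac γ p.1 *ᵥ βf (B.φ j) p.1 (p.2 ()) := by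
  have hu : IsUnit (jac γ p.1).det := isUnit_iff_ne_zero.2 (jac_det γ hS)
  have h0 := (B.mem_dom.1 hp).2
  have hκ := (kap_spec (dvd_mul_right 2 _) hγ hS).1
  have hπ : (Real.pi : ℂ) ≠ 0 := by exact_mod_cast Real.pi_ne_zero
  have h1 : (jac γ p.1)⁻¹ *ᵥ βf (B.φ j) (gact γ p).1 ((gact γ p).2 ()) =
      ((jac γ p.1)⁻¹ * (cx γ).toBlocks₂₁) *ᵥ p.2 () + βf (B.φ j) p.1 (p.2 ()) := by
    funext a
    have h2 := congrFun (xsjet_lin (xbfldi_an B j (act_mem γ hS)) (jac γ p.1)⁻¹ᵀ a) (p.2 ())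
    rw [funext (xbfldi_grp B j hS hγ), xsjet_d1 (xbfldi_an B j hS) _
      (by rw [transpose_smul, jacC_symm γ hS])] at h2
    simp only [transpose_apply, smul_mulVec, Pi.smul_apply, smul_eq_mul] at h2
    change ∑ i, (jac γ p.1)⁻¹ a i * (dv (ee i) (B.φ j (act γ p.1)) ((jac γ p.1)⁻¹ᵀ *ᵥ p.2 ()) /
      (6 * Real.pi * I * B.φ j (act γ p.1) ((jac γ p.1)⁻¹ᵀ *ᵥ p.2 ()))) = _
    simp only [← mul_div_assoc, ← Finset.sum_div]
    rw [← h2, xbfldi_grp B j hS hγ, Pi.add_apply, βf, smul_mulVec]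
    field_simp
    ring
  have h3 := congrArg (fun v => jac γ p.1 *ᵥ v) h1
  simpa only [mulVec_add, mulVec_mulVec, mul_nonsing_inv _ hu, one_mulVec,
    mul_nonsing_inv_cancel_left _ _ hu] using h3

theorem Box.β_tact (hp : p ∈ DomJ (B.Δ j)) (hS : p.1 ∈ Siegel g) (a b : Unit → Fin g → ℤ) :
    βf (B.φ j) p.1 ((tact a b p).2 ()) = βf (B.φ j) p.1 (p.2 ()) - fun i => (a () i : ℂ) := by
  have h0 : tp (B.tc j) p.1 (p.2 ()) ≠ 0 := (B.mem_dom.1 hp).2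
  have hπ : (Real.pi : ℂ) ≠ 0 := by exact_mod_cast Real.pi_ne_zero
  have ha : aut p.1 (a ()) (p.2 ()) ≠ 0 := exp_ne_zero _
  funext i
  change dv (ee i) (tp (B.tc j) p.1) (p.2 () + per p.1 (b ()) (a ())) /
    (6 * Real.pi * I * tp (B.tc j) p.1 (p.2 () + per p.1 (b ()) (a ()))) =
    dv (ee i) (tp (B.tc j) p.1) (p.2 ()) / (6 * Real.pi * I * tp (B.tc j) p.1 (p.2 ())) - a () i
  rw [xab_dv (tp_mem _ hS), tp_per _ hS, xbfldi_aut]
  field_simp
  ring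

theorem Box.U_gact (hp : p ∈ DomJ (B.Δ j)) (hS : p.1 ∈ Siegel g) {γ : Sp g}
    (hγ : γ ∈ Gam g (2 * B.N ^ 2)) :
    Uf (B.φ j) (gact γ p).1 ((gact γ p).2 ()) = cx γ *ᵥ Uf (B.φ j) p.1 (p.2 ()) := by
  have h1 : (jac γ p.1)⁻¹ᵀ = (cx γ).toBlocks₁₁ - Matrix.of (act γ p.1) * (cx γ).toBlocks₂₁ := by
    rw [jac_inv γ hS, transpose_sub, transpose_mul, transpose_transpose, transpose_transpose,
      xsact_act_symm γ hS]
  have h2 := xsact_mul_jac γ (jac_det γ hS)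
  rw [Uf, B.β_gact j hp hS hγ, Uf]
  conv_rhs => rw [← fromBlocks_toBlocks (cx γ), fromBlocks_mulVec]
  simp only [Sum.elim_comp_inl, Sum.elim_comp_inr, xbfldi_mv]
  congr 1
  · change (jac γ p.1)⁻¹ᵀ *ᵥ p.2 () + Matrix.of (act γ p.1) *ᵥ _ = _
    rw [mulVec_add, mulVec_mulVec, mulVec_mulVec, h2, h1, xsactNum, sub_mulVec, add_mulVec,
      mulVec_add, mulVec_mulVec]
    abel
  · rw [jac, add_mulVec, mulVec_add, mulVec_mulVec, add_assoc]

theorem Box.U_tact (hp : p ∈ DomJ (B.Δ j)) (hS : p.1 ∈ Siegel g) (a b : Unit → Fin g → ℤ) :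
    Uf (B.φ j) p.1 ((tact a b p).2 ()) =
      Uf (B.φ j) p.1 (p.2 ()) + Sum.elim (fun i => (b () i : ℂ)) fun i => -(a () i : ℂ) := by
  rw [Uf, B.β_tact j hp hS, Uf]
  funext i
  rcases i with i | i
  · simp only [Sum.elim_inl, Pi.add_apply, tact, per, mv, Pi.sub_apply, mul_sub,
      Finset.sum_sub_distrib]
    ring
  · simp only [Sum.elim_inr, Pi.add_apply, Pi.sub_apply]
    ring

theorem Box.inv_yq {c : LL g → ℂ} (hc : IsCh B.N c) :
    InvJ (2 * B.N ^ 2) (B.Δ j) fun p => yq B.c₀ c p.1 := by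
  intro p hp hS
  exact ⟨fun γ hγ => (jet_act B.hN hγ hS B.h0 B.hs (B.mem_dom.1 hp).1).2.1 c hc, fun _ _ => rfl⟩

theorem Box.inv_w (j' : Fin B.nJ) :
    InvJ (2 * B.N ^ 2) (B.Δ j) fun p => B.φ j' p.1 (p.2 ()) / B.φ j p.1 (p.2 ()) := by
  intro p _ hS
  refine ⟨fun γ hγ => ?_, fun a b => ?_⟩
  · have hκ := pow_ne_zero 3 (kap_spec (dvd_mul_right 2 _) hγ hS).1
    change B.φ j' (act γ p.1) ((jac γ p.1)⁻¹ᵀ *ᵥ p.2 ()) /
      B.φ j (act γ p.1) ((jac γ p.1)⁻¹ᵀ *ᵥ p.2 ()) = _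
    rw [xbfldi_grp B j' hS hγ, xbfldi_grp B j hS hγ,
      mul_div_mul_left _ _ (mul_ne_zero hκ (exp_ne_zero _))]
  · have ha : aut p.1 (a ()) (p.2 ()) ≠ 0 := exp_ne_zero _
    change tp (B.tc j') p.1 (p.2 () + per p.1 (b ()) (a ())) /
      tp (B.tc j) p.1 (p.2 () + per p.1 (b ()) (a ())) = _
    rw [tp_per _ hS, tp_per _ hS, mul_div_mul_left _ _ (pow_ne_zero 3 ha)]
    rfl

theorem Box.invF_Xt (a b : Fin g) : InvF (2 * B.N ^ 2) (B.Δ j) (B.Xt j a b) := by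
  intro p hp hS
  refine ⟨fun γ hγ => ?_, fun m n => ?_⟩
  · have hu : IsUnit (jac γ p.1).det := isUnit_iff_ne_zero.2 (jac_det γ hS)
    have h1 := xsfr_act (jet_act B.hN hγ hS B.h0 B.hs (B.mem_dom.1 hp).1).2.2.1 a b
    rw [gact_fderiv γ hS (v := B.Xt j a b p) (xsfr_symm B.c₀ B.cs a b p.1), Box.Xt, B.β_gact j hp hS hγ]
    refine Prod.ext h1 (funext fun l => ?_)
    change -mv (Xi B.c₀ B.cs a b (act γ p.1)) _ = _
    simp only [h1, Box.Xt, xbfldi_mv, Equiv.apply_symm_apply, mulVec_add, mulVec_sub, mulVec_neg,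
      mulVec_mulVec, Matrix.mul_assoc, nonsing_inv_mul _ hu, Matrix.mul_one]
    abel
  · rw [tact_fderiv, Box.Xt]
    refine Prod.ext rfl (funext fun l => ?_)
    change -mv (Xi B.c₀ B.cs a b p.1) (βf (B.φ j) p.1 ((tact m n p).2 ())) = _
    rw [B.β_tact j hp hS]
    simp only [Box.Xt, xbfldi_mv, mulVec_sub]
    abel

theorem Box.invF_Zt (a : Fin g) : InvF (2 * B.N ^ 2) (B.Δ j) (B.Zt a) := by
  intro p hp hS
  have h0 : ∀ v : EE g, mv (0 : Mat g) v = 0 := fun v => funext fun i => by simp [mv]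
  refine ⟨fun γ hγ => ?_, fun m n => ?_⟩
  · have h1 := (jet_act B.hN hγ hS B.h0 B.hs (B.mem_dom.1 hp).1).2.2.1
    rw [gact_fderiv γ hS (v := B.Zt a p) fun _ _ => rfl]
    refine Prod.ext ?_ (funext fun l => ?_)
    · change (0 : Mat g) = Matrix.of.symm (_ * (0 : Matrix (Fin g) (Fin g) ℂ) * _)
      rw [Matrix.mul_zero, Matrix.zero_mul]
      rfl
    · change (Vf B.c₀ B.cs (act γ p.1))⁻¹ᵀ *ᵥ ee a = _
      simp only [h1, Box.Zt, h0, sub_zero, mulVec_mulVec, Matrix.mul_inv_rev, transpose_mul]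
  · rw [tact_fderiv]
    refine Prod.ext rfl (funext fun l => ?_)
    simp only [Box.Zt, h0, add_zero]
    rfl

end Pool.Agent.MP_cf0a82_ag

end
end

section

open Complex Filter Topology Matrix Function

noncomputable section

namespace Pool.Agent.MP_cf0a82_ag

open Pool.Agent.MP_f58063_ag

variable {g : ℕ} (B : Box g) (j : Fin B.nJ) {ξ : PP Unit g → PP Unit g}

lemma xbmc_two : 2 ∣ 2 * B.N ^ 2 := Dvd.intro _ rfl

lemma xbmc_P {p : PP Unit g} (hp : p ∈ DomJ (B.Δ j)) (hS : p.1 ∈ Siegel g) {γ : Sp g}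
    (hγ : γ ∈ Gam g (2 * B.N ^ 2)) : B.P (gact γ p).1 = cx γ * B.P p.1 :=
  (jet_act B.hN hγ hS B.h0 B.hs (B.mem_dom.1 hp).1).2.2.2

lemma xbmc_frame (hξ : MerF (B.Δ j) (idm 3) ξ) (hi : InvF (2 * B.N ^ 2) (B.Δ j) ξ)
    {F : LL g → PP Unit g → ℂ} (hF : ∀ i, MerJ (B.Δ j) (idm 3) (F i))
    (hγ : ∀ p ∈ DomJ (B.Δ j), p.1 ∈ Siegel g → ∀ γ ∈ Gam g (2 * B.N ^ 2), ∀ i,
      F i (gact γ p) = ∑ k, cx γ i k * F k p)
    (ht : ∀ a b i, ∃ c, ∀ p ∈ DomJ (B.Δ j), p.1 ∈ Siegel g → F i (tact a b p) = F i p + c)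
    (a : LL g) : B.JMod j fun p => ((B.P p.1)⁻¹ *ᵥ fun i => fderiv ℂ (F i) p (ξ p)) a := by
  have hΔ := B.JF_Δ j
  refine ⟨MerJ.sum hΔ.jh Finset.univ fun i _ => (B.mer_Pi j a i).mul ((hF i).der hΔ.jh hξ),
    fun p hp hS => ?_⟩
  have hd := hΔ.dom (xbmc_two B) hp hS
  have hn := hΔ.jh.isOpen_dom.mem_nhds hp
  have han := fun i => (hF i).analyticAt hΔ.jh hp
  refine ⟨fun γ hg => ?_, fun u v => ?_⟩
  · have e : (fun i => fderiv ℂ (F i) (gact γ p) (ξ (gact γ p))) =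
        cx γ *ᵥ fun i => fderiv ℂ (F i) p (ξ p) := by
      funext i
      rw [(hi p hp hS).1 γ hg, chainJ (F' := fun q => ∑ k, cx γ i k * F k q) hS (hξ.2.2 p)
        (gact_an γ hS) ((hF i).analyticAt hΔ.jh (hd.1 γ hg))
        (Finset.analyticAt_fun_sum _ fun k _ => analyticAt_const.mul (han k))
        (Eventually.mono hn fun q hq hq' => hγ q hq hq' γ hg i),
        (HasFDerivAt.fun_sum fun k _ =>
          (han k).differentiableAt.hasFDerivAt.const_mul (cx γ i k)).fderiv]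
      simp [mulVec, dotProduct]
    simp only
    rw [e, xbmc_P B j hp hS hg, Matrix.mul_inv_rev, mulVec_mulVec,
      Matrix.nonsing_inv_mul_cancel_right _ _ (SymplecticGroup.symplectic_det (cx_mem γ))]
  · have e : (fun i => fderiv ℂ (F i) (tact u v p) (ξ (tact u v p))) =
        fun i => fderiv ℂ (F i) p (ξ p) := by
      funext i
      obtain ⟨c, hc⟩ := ht u v i
      rw [(hi p hp hS).2 u v, chainJ (F' := fun q => F i q + c) hS (hξ.2.2 p)
        (tact_an u v p) ((hF i).analyticAt hΔ.jh (hd.2 u v)) ((han i).add analyticAt_const)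
        (Eventually.mono hn fun q hq hq' => hc q hq hq'), fderiv_add_const]
    simp only
    rw [e]
    rfl

theorem Box.jmod_der {f : PP Unit g → ℂ} (hf : B.JMod j f) (hξ : MerF (B.Δ j) (idm 3) ξ)
    (hi : InvF (2 * B.N ^ 2) (B.Δ j) ξ) : B.JMod j fun p => fderiv ℂ f p (ξ p) := by
  exact ⟨hf.1.der (B.JF_Δ j).jh hξ, hf.2.der (B.JF_Δ j) (xbmc_two B) hf.1 hξ.2.2 hi⟩

theorem Box.jmod_dU (hξ : MerF (B.Δ j) (idm 3) ξ) (hi : InvF (2 * B.N ^ 2) (B.Δ j) ξ)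
    (a : LL g) : B.JMod j fun p => ((B.P p.1)⁻¹ *ᵥ fun i =>
      fderiv ℂ (fun q : PP Unit g => Uf (B.φ j) q.1 (q.2 ()) i) p (ξ p)) a := by
  exact xbmc_frame B j hξ hi (F := fun i q => Uf (B.φ j) q.1 (q.2 ()) i) (B.mer_U j)
    (fun p hp hS γ hγ i => congrFun (B.U_gact j hp hS hγ) i)
    (fun u v i => ⟨_, fun p hp hS => congrFun (B.U_tact j hp hS u v) i⟩) a

theorem Box.jmod_dP (hξ : MerF (B.Δ j) (idm 3) ξ) (hi : InvF (2 * B.N ^ 2) (B.Δ j) ξ)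
    (a b : LL g) :
    B.JMod j fun p => ((B.P p.1)⁻¹ * dM (fun q : PP Unit g => B.P q.1) p (ξ p)) a b := by
  exact xbmc_frame B j hξ hi (F := fun i q => B.P q.1 i b) (fun i => B.mer_P j i b)
    (fun p hp hS γ hγ i => congrFun (congrFun (xbmc_P B j hp hS hγ) i) b)
    (fun u v i => ⟨0, fun p _ _ => (add_zero _).symm⟩) a

theorem Box.jmod_nash (hg : 0 < g) {f : PP Unit g → ℂ} (hf : B.JMod j f) {X : Type}
    [NormedAddCommGroup X] [NormedSpace ℂ X] [FiniteDimensional ℂ X] {x : X → DD g}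
    {z : X → EE g} {p : X} (hx : B.NB x p) (hz : B.NS x z p)
    (h0 : B.φ j (B.ψ (x p)) (z p) ≠ 0) : NashAt (fun e => f (B.ψ (x e), fun _ => z e)) p := by
  have hΔ := B.JF_Δ j
  obtain ⟨h1, h2, -⟩ := B.mem _ hx.2.2
  have hp : ((B.ψ (x p), fun _ => z p) : PP Unit g) ∈ DomJ (B.Δ j) := B.mem_dom.2 ⟨h2, h0⟩
  obtain ⟨n, h, hh, he⟩ := jnum hΔ (xbmc_two B) ⟨_, hp, h1⟩ hf.1 hf.2
  have hG := hΔ.pow n
  rw [smul_idm] at hh hG
  have hc : ContinuousAt (fun e => ((B.ψ (x e), fun _ => z e) : PP Unit g)) p :=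
    ((B.an _ hx.2.2).comp hx.1).continuousAt.prodMk
      (continuousAt_pi.2 fun _ => hz.1.continuousAt)
  refine (B.jn_ext hg (mul_ne_zero two_ne_zero (pow_ne_zero 2 B.hN)) hh hG
    (z := fun e _ => z e) hx (fun _ => hz) (pow_ne_zero n hp.2)).congr ?_
  filter_upwards [hc (hΔ.jh.isOpen_dom.mem_nhds hp)] with e h3
  exact (he _ h3).symm

end Pool.Agent.MP_cf0a82_ag

end
end

section

open Complex Filter Topology Matrix Function

noncomputable section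

namespace Pool.Agent.MP_cf0a82_ag

open Pool.Agent.MP_f58063_ag

variable {g : ℕ} (B : Box g) {X : Type} [NormedAddCommGroup X] [NormedSpace ℂ X]
  [FiniteDimensional ℂ X] {x : X → DD g} {z : X → EE g} {p : X}

/-- the invariant frame -/
def xbframeF (j : Fin B.nJ) : (Fin g × Fin g) ⊕ Fin g → PP Unit g → PP Unit g :=
  Sum.elim (fun i => B.Xt j i.1 i.2) B.Zt

lemma xbframe_mer (j : Fin B.nJ) : ∀ i, MerF (B.Δ j) (idm 3) (xbframeF B j i)
  | .inl i => B.merF_Xt j i.1 i.2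
  | .inr i => B.merF_Zt j i

lemma xbframe_inv (j : Fin B.nJ) : ∀ i, InvF (2 * B.N ^ 2) (B.Δ j) (xbframeF B j i)
  | .inl i => B.invF_Xt j i.1 i.2
  | .inr i => B.invF_Zt j i

lemma xbframe_mv {ι : Type} [Fintype ι] (c : ι → ℂ) (A : ι → Mat g) (v : EE g) :
    mv (∑ i, c i • A i) v = ∑ i, c i • mv (A i) v := by
  funext a
  simp only [mv, Finset.sum_apply, Pi.smul_apply, smul_eq_mul, Finset.sum_mul, Finset.mul_sum,
    mul_assoc]
  exact Finset.sum_comm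

lemma xbframe_comb (j : Fin B.nJ) (q : PP Unit g) {c : Matrix (Fin g) (Fin g) ℂ}
    (hc : ∀ a b, c a b = c b a) (u : EE g) :
    ∑ i, Sum.elim (fun i : Fin g × Fin g => c i.1 i.2 / 2) u i • xbframeF B j i q =
      (Matrix.of.symm ((Vf B.c₀ B.cs q.1)⁻¹ᵀ * c * (Vf B.c₀ B.cs q.1)⁻¹), fun _ =>
        -mv (Matrix.of.symm ((Vf B.c₀ B.cs q.1)⁻¹ᵀ * c * (Vf B.c₀ B.cs q.1)⁻¹))
          (βf (B.φ j) q.1 (q.2 ())) + (Vf B.c₀ B.cs q.1)⁻¹ᵀ *ᵥ u) := by
  rw [← xsnashc_sum B.c₀ B.cs q.1 hc, xbframe_mv, Fintype.sum_sum_type]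
  refine Prod.ext ?_ (funext fun l => ?_)
  · simp only [xbframeF, Sum.elim_inl, Sum.elim_inr, Box.Xt, Box.Zt, Prod.fst_add, Prod.fst_sum,
      Prod.smul_mk, smul_zero, Finset.sum_const_zero, add_zero]
  · simp only [xbframeF, Sum.elim_inl, Sum.elim_inr, Box.Xt, Box.Zt, Prod.snd_add, Prod.snd_sum,
      Prod.smul_mk, Pi.add_apply, Finset.sum_apply, Pi.smul_apply, smul_neg,
      Finset.sum_neg_distrib, ← mulVec_smul, ← mulVec_sum]
    congr 2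
    exact (pi_eq_sum_univ' u).symm

/-- the coefficients of a vector in the frame -/
def xbframeC (j : Fin B.nJ) (q D : PP Unit g) : (Fin g × Fin g) ⊕ Fin g → ℂ :=
  Sum.elim (fun i => ((Vf B.c₀ B.cs q.1)ᵀ * Matrix.of D.1 * Vf B.c₀ B.cs q.1) i.1 i.2 / 2)
    ((Vf B.c₀ B.cs q.1)ᵀ *ᵥ (D.2 () + mv D.1 (βf (B.φ j) q.1 (q.2 ()))))

lemma xbframe_dec (j : Fin B.nJ) {q D : PP Unit g} (hq : q.1 ∈ Om B.c₀ B.cs) (hD : IsSy D.1) :
    D = ∑ i, xbframeC B j q D i • xbframeF B j i q := by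
  have h1 : Vf B.c₀ B.cs q.1 * (Vf B.c₀ B.cs q.1)⁻¹ = 1 :=
    Matrix.mul_nonsing_inv _ (Ne.isUnit hq.2.2)
  rw [xbframeC, xbframe_comb B j q (xsnashc_symm _ (c := Matrix.of D.1) hD), xsnashc_back hq.2.2,
    mulVec_mulVec, ← transpose_mul, h1, transpose_one, one_mulVec]
  refine Prod.ext rfl (funext fun l => ?_)
  change D.2 l = -mv D.1 _ + (D.2 () + mv D.1 _)
  abel

lemma xbframe_chain {Y Z : Type} [NormedAddCommGroup Y] [NormedSpace ℂ Y] [NormedAddCommGroup Z]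
    [NormedSpace ℂ Z] {f : Z → ℂ} {T : Y → Z} {y : Y} (hT : AnalyticAt ℂ T y)
    (hf : AnalyticAt ℂ f (T y)) (ξ : Y) :
    fderiv ℂ (fun e => f (T e)) y ξ = fderiv ℂ f (T y) (fderiv ℂ T y ξ) :=
  congrArg (fun L : Y →L[ℂ] ℂ => L ξ)
    (hf.differentiableAt.hasFDerivAt.comp y hT.differentiableAt.hasFDerivAt).fderiv

lemma xbframe_comp {Y Z : Type} [NormedAddCommGroup Y] [NormedSpace ℂ Y] [NormedAddCommGroup Z]
    [NormedSpace ℂ Z] {f : Z → ℂ} {T : Y → Z} {y : Y} (hT : AnalyticAt ℂ T y)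
    (hf : AnalyticAt ℂ f (T y)) : AnalyticAt ℂ (fun e => f (T e)) y := hf.comp hT

lemma xbframe_lin (L : PP Unit g →L[ℂ] ℂ) {ι : Type} [Fintype ι] (ζ : ι → ℂ)
    (F : ι → PP Unit g) : L (∑ i, ζ i • F i) = ∑ i, L (F i) * ζ i := by
  simp only [map_sum, map_smul, smul_eq_mul, mul_comm]

/-- the coordinate functions -/
def xbframef (j : Fin B.nJ) : Fin (NN g) ⊕ Fin B.nJ → PP Unit g → ℂ :=
  Sum.elim (fun i q => yq B.c₀ (B.yc i) q.1) fun j' q => B.φ j' q.1 (q.2 ()) / B.φ j q.1 (q.2 ())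

lemma xbframe_jmod (j : Fin B.nJ) : ∀ k, B.JMod j (xbframef B j k)
  | .inl i => ⟨B.mer_yq j (B.hy i), B.inv_yq j (B.hy i)⟩
  | .inr i => ⟨B.mer_w j i, B.inv_w j i⟩

/-- the coordinate functions separate tangent vectors -/
lemma xbframe_sep {j : Fin B.nJ} {y : DD g} (hy : y ∈ B.ball) {w : EE g}
    (h0 : B.φ j (B.ψ y) w ≠ 0) {D : PP Unit g} (hD : IsSy D.1)
    (h : ∀ k, fderiv ℂ (xbframef B j k) (B.ψ y, fun _ => w) D = 0) : D = 0 := by
  have hO : B.ψ y ∈ Om B.c₀ B.cs := (B.mem y hy).2.1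
  have hq : ((B.ψ y, fun _ => w) : PP Unit g) ∈ DomJ (B.Δ j) := B.mem_dom.2 ⟨hO, h0⟩
  obtain ⟨S, u⟩ := D
  obtain ⟨η, rfl⟩ := B.sur y hy S hD
  have h1 : η = 0 := funext fun i => by
    have h2 := xbframe_chain (T := fun q : PP Unit g => q.1) (y := (B.ψ y, fun _ => w))
      analyticAt_fst
      ((Mod_yq B.hN B.h0 B.hs (B.hy i)).1.analyticAt (isOpen_Om _ _) (Om_sub _ _) hO)
      (fderiv ℂ B.ψ y η, u)
    rw [fderiv_fst] at h2
    exact (B.dy_dψ hy η i).symm.trans (h2.symm.trans (h (.inl i)))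
  subst h1
  rw [map_zero] at h ⊢
  obtain ⟨v, rfl⟩ : ∃ v, u = fun _ => v := ⟨u (), rfl⟩
  have hs : HasFDerivAt (fun z' : EE g => ((B.ψ y, fun _ => z') : PP Unit g))
      ((0 : EE g →L[ℂ] Mat g).prod (ContinuousLinearMap.pi fun _ => ContinuousLinearMap.id ℂ _))
      w := (hasFDerivAt_const _ _).prodMk (hasFDerivAt_pi.2 fun _ => hasFDerivAt_id w)
  have hG : ∀ j', AnalyticAt ℂ (fun z' => B.φ j' (B.ψ y) z') w := fun j' =>
    (B.φ_an j' hO.1 w).comp (f := fun z' : EE g => (B.ψ y, z'))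
      (analyticAt_const.prod analyticAt_id)
  have h3 : v = 0 := by
    refine B.embΦ.imm _ ⟨y, hy, rfl⟩ w v
      (fderiv ℂ (fun z' => B.φ j (B.ψ y) z') w v / B.φ j (B.ψ y) w) fun j' => ?_
    have h4 : fderiv ℂ (fun z' => B.φ j' (B.ψ y) z' / B.φ j (B.ψ y) z') w v = 0 :=
      (congrArg (fun L : EE g →L[ℂ] ℂ => L v) (HasFDerivAt.comp
        (f := fun z' : EE g => ((B.ψ y, fun _ => z') : PP Unit g)) w
        ((xbframe_jmod B j (.inr j')).1.analyticAt (B.JF_Δ j).jh hq).differentiableAt.hasFDerivAt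
          hs).fderiv).trans (h (.inr j'))
    have h5 : (fun z' => B.φ j' (B.ψ y) z') =ᶠ[𝓝 w]
        fun z' => B.φ j' (B.ψ y) z' / B.φ j (B.ψ y) z' * B.φ j (B.ψ y) z' := by
      filter_upwards [(hG j).continuousAt.eventually_ne h0] with z' hz'
      rw [div_mul_cancel₀ _ hz']
    change fderiv ℂ (fun z' => B.φ j' (B.ψ y) z') w v = _ * B.φ j' (B.ψ y) w
    rw [h5.fderiv_eq, fderiv_fun_mul ((hG j').fun_div (hG j) h0).differentiableAt
      (hG j).differentiableAt]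
    simp only [_root_.add_apply, _root_.smul_apply, smul_eq_mul, h4]
    ring
  rw [h3]
  rfl

omit [FiniteDimensional ℂ X] in
lemma xbframe_an (hx : B.NB x p) (hz : AnalyticAt ℂ z p) :
    AnalyticAt ℂ (fun e => ((B.ψ (x e), fun _ => z e) : PP Unit g)) p :=
  ((B.ψ_an hx.2.2).comp hx.1).prod (analyticAt_pi_iff.2 fun _ => hz)

omit [FiniteDimensional ℂ X] in
lemma xbframe_ev (hx : B.NB x p) (hz : AnalyticAt ℂ z p) {j : Fin B.nJ}
    (h0 : B.φ j (B.ψ (x p)) (z p) ≠ 0) : ∀ᶠ e in 𝓝 p, x e ∈ B.ball ∧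
      AnalyticAt ℂ (fun e => ((B.ψ (x e), fun _ => z e) : PP Unit g)) e ∧
      ((B.ψ (x e), fun _ => z e) : PP Unit g) ∈ DomJ (B.Δ j) ∧
      ∀ ξ, IsSy (fderiv ℂ (fun e => ((B.ψ (x e), fun _ => z e) : PP Unit g)) e ξ).1 := by
  have hT := xbframe_an B hx hz
  have h1 : ∀ᶠ e in 𝓝 p, x e ∈ B.ball :=
    hx.1.continuousAt.eventually (B.isOpen_ball.mem_nhds hx.2.2)
  have h2 : ∀ᶠ e in 𝓝 p, ((B.ψ (x e), fun _ => z e) : PP Unit g) ∈ DomJ (B.Δ j) :=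
    hT.continuousAt.eventually ((B.JF_Δ j).jh.isOpen_dom.mem_nhds
      (B.mem_dom.2 ⟨(B.mem _ hx.2.2).2.1, h0⟩))
  filter_upwards [h1.eventually_nhds, hT.eventually_analyticAt, h2] with e h3 h4 h5
  refine ⟨h3.self_of_nhds, h4, h5, fun ξ a b => ?_⟩
  have h6 := fderiv_symm (analyticAt_fst.comp h4) (h3.mono fun e' he' => B.sieg he') ξ a b
  rwa [(hasFDerivAt_fst.comp e h4.differentiableAt.hasFDerivAt).fderiv] at h6

lemma xbframe_nash (hg : 0 < g) (hx : B.NB x p) (hz : B.NS x z p) {j : Fin B.nJ}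
    (h0 : B.φ j (B.ψ (x p)) (z p) ≠ 0) (ξ : X) :
    ∃ ζ : (Fin g × Fin g) ⊕ Fin g → X → ℂ, (∀ i, NashAt (ζ i) p) ∧ ∀ᶠ e in 𝓝 p,
      fderiv ℂ (fun e' => ((B.ψ (x e'), fun _ => z e') : PP Unit g)) e ξ =
        ∑ i, ζ i e • xbframeF B j i (B.ψ (x e), fun _ => z e) := by
  have hev := xbframe_ev B hx hz.1 h0
  have hT := xbframe_an B hx hz.1
  set T : X → PP Unit g := fun e => (B.ψ (x e), fun _ => z e) with hTd
  have hΔ := (B.JF_Δ j).jh
  have hp := hev.self_of_nhds.2.2.1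
  have hdec : ∀ᶠ e in 𝓝 p, fderiv ℂ T e ξ =
      ∑ i, xbframeC B j (T e) (fderiv ℂ T e ξ) i • xbframeF B j i (T e) :=
    hev.mono fun e he => xbframe_dec B j (B.mem _ he.1).2.1 (he.2.2.2 ξ)
  refine ⟨fun i e => xbframeC B j (T e) (fderiv ℂ T e ξ) i, ?_, hdec⟩
  refine nash_solve (κ := (Fin (NN g) ⊕ Fin B.nJ) ⊕ Fin g × Fin g)
    (Y := Sum.elim (fun k i e => fderiv ℂ (xbframef B j k) (T e) (xbframeF B j i (T e)))
      fun q i _ => (if i = .inl q then 1 else 0) - if i = .inl q.swap then 1 else 0)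
    (r := Sum.elim (fun k => dv ξ fun e => xbframef B j k (T e)) fun _ _ => 0) ?_ ?_ ?_ ?_ ?_
  · have hD : AnalyticAt ℂ (fun e => fderiv ℂ T e ξ) p :=
      ((ContinuousLinearMap.apply ℂ (PP Unit g) ξ).analyticAt _).comp hT.fderiv
    have hD1 : ∀ a b, AnalyticAt ℂ (fun e => Matrix.of (fderiv ℂ T e ξ).1 a b) p := fun a b =>
      analyticAt_pi_iff.1 (analyticAt_pi_iff.1 (analyticAt_fst.comp hD) a) b
    have hD2 : ∀ a, AnalyticAt ℂ (fun e => (fderiv ℂ T e ξ).2 () a) p := fun a =>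
      analyticAt_pi_iff.1 (analyticAt_pi_iff.1 (analyticAt_snd.comp hD) ()) a
    have hV : ∀ a b, AnalyticAt ℂ (fun e => Vf B.c₀ B.cs (T e).1 a b) p := fun a b =>
      xbframe_comp hT ((B.mer_V j a b).analyticAt hΔ hp)
    have hβ : ∀ a, AnalyticAt ℂ (fun e => βf (B.φ j) (T e).1 ((T e).2 ()) a) p := fun a =>
      xbframe_comp hT ((B.mer_β j a).analyticAt hΔ hp)
    rintro (i | i)
    · exact (an_mul (A := fun e => (Vf B.c₀ B.cs (T e).1)ᵀ * Matrix.of (fderiv ℂ T e ξ).1)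
        (an_mul (A := fun e => (Vf B.c₀ B.cs (T e).1)ᵀ) (fun a b => hV b a) hD1) hV
          i.1 i.2).div_const
    · simp only [xbframeC, Sum.elim_inr, mulVec, dotProduct, transpose_apply, Pi.add_apply, mv]
      exact Finset.analyticAt_fun_sum _ fun a _ => (hV a i).fun_mul ((hD2 a).fun_add
        (Finset.analyticAt_fun_sum _ fun b _ => (hD1 a b).fun_mul (hβ b)))
  · rintro (k | q) i
    · exact B.jmod_nash j hg (B.jmod_der j (xbframe_jmod B j k) (xbframe_mer B j i)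
        (xbframe_inv B j i)) hx hz h0
    · exact NashAt.const _ _
  · rintro (k | q)
    · exact (B.jmod_nash j hg (xbframe_jmod B j k) hx hz h0).dv ξ
    · exact NashAt.const _ _
  · filter_upwards [hev, hdec] with e he h1
    rintro (k | q)
    · exact ((xbframe_lin _ _ _).symm.trans (congrArg _ h1.symm)).trans
        (xbframe_chain he.2.1 ((xbframe_jmod B j k).1.analyticAt hΔ he.2.2.1) ξ).symm
    · simp only [Sum.elim_inr, sub_mul, Finset.sum_sub_distrib, ite_mul, one_mul, zero_mul,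
        Finset.sum_ite_eq', Finset.mem_univ, if_true, xbframeC, Sum.elim_inl, Prod.fst_swap,
        Prod.snd_swap]
      rw [xsnashc_symm _ (c := Matrix.of (fderiv ℂ T e ξ).1) (he.2.2.2 ξ), sub_self]
  · filter_upwards [hev] with e he ζ hζ
    have hsym : ∀ a b, Matrix.of (fun a b => 2 * ζ (.inl (a, b))) a b =
        Matrix.of (fun a b => 2 * ζ (.inl (a, b))) b a := fun a b => by
      have := hζ (.inr (a, b))
      simp only [Sum.elim_inr, sub_mul, Finset.sum_sub_distrib, ite_mul, one_mul, zero_mul,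
        Finset.sum_ite_eq', Finset.mem_univ, if_true, Prod.swap_prod_mk] at this
      rw [Matrix.of_apply, Matrix.of_apply, sub_eq_zero.1 this]
    have hζe : ζ = Sum.elim (fun i : Fin g × Fin g =>
        Matrix.of (fun a b => 2 * ζ (.inl (a, b))) i.1 i.2 / 2) fun i => ζ (.inr i) := by
      funext i
      rcases i with i | i <;> simp
    have h1 := xbframe_comb B j (T e) hsym fun i => ζ (.inr i)
    rw [← hζe] at h1
    have hO := (B.mem _ he.1).2.1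
    have h2 := xbframe_sep B he.1 (B.mem_dom.1 he.2.2.1).2
      (D := ∑ i, ζ i • xbframeF B j i (T e)) (by rw [h1]; exact xsnashc_symm _ hsym)
      fun k => (xbframe_lin _ _ _).trans (hζ (.inl k))
    rw [h2] at h1
    have h3 : (Vf B.c₀ B.cs (T e).1)⁻¹ᵀ * Matrix.of (fun a b => 2 * ζ (.inl (a, b))) *
        (Vf B.c₀ B.cs (T e).1)⁻¹ = 0 := (congrArg Prod.fst h1).symm
    have h4 := congrFun (congrArg Prod.snd h1) ()
    have h5 := xsnashc_forth hO.2.2 (Matrix.of fun a b => 2 * ζ (.inl (a, b)))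
    have h6 : (Vf B.c₀ B.cs (T e).1)⁻¹ * Vf B.c₀ B.cs (T e).1 = 1 :=
      Matrix.nonsing_inv_mul _ (Ne.isUnit hO.2.2)
    rw [h3] at h4
    rw [show (Vf B.c₀ B.cs (B.ψ (x e)))⁻¹ᵀ * Matrix.of (fun a b => 2 * ζ (.inl (a, b))) *
      (Vf B.c₀ B.cs (B.ψ (x e)))⁻¹ = 0 from h3, Matrix.mul_zero, Matrix.zero_mul] at h5
    have h7 : (Vf B.c₀ B.cs (T e).1)⁻¹ᵀ *ᵥ (fun i => ζ (.inr i)) = 0 := by
      funext a
      simpa [mv] using (congrFun h4 a).symm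
    have h8 := congrArg (fun v => (Vf B.c₀ B.cs (T e).1)ᵀ *ᵥ v) h7
    simp only [mulVec_mulVec, ← transpose_mul, h6, transpose_one, one_mulVec, mulVec_zero] at h8
    funext i
    rcases i with i | i
    · have h9 : 0 = 2 * ζ (.inl i) := congrFun (congrFun h5 i.1) i.2
      exact (mul_eq_zero.1 h9.symm).resolve_left two_ne_zero
    · exact congrFun h8 i

/-- the derivative of a Nash section has Nash coefficients in the invariant frame -/
theorem Box.field_nash (hg : 0 < g) (hx : B.NB x p) (hz : B.NS x z p) {j : Fin B.nJ}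
    (h0 : B.φ j (B.ψ (x p)) (z p) ≠ 0) (ξ : X) :
    ∃ (a : Fin g × Fin g → X → ℂ) (c : Fin g → X → ℂ), (∀ i, NashAt (a i) p) ∧
      (∀ i, NashAt (c i) p) ∧ ∀ᶠ e in 𝓝 p,
        fderiv ℂ (fun e' => ((B.ψ (x e'), fun _ => z e') : PP Unit g)) e ξ =
          ∑ i, a i e • B.Xt j i.1 i.2 (B.ψ (x e), fun _ => z e) +
            ∑ i, c i e • B.Zt i (B.ψ (x e), fun _ => z e) := by
  obtain ⟨ζ, h1, h2⟩ := xbframe_nash B hg hx hz h0 ξ
  exact ⟨fun i => ζ (.inl i), fun i => ζ (.inr i), fun i => h1 _, fun i => h1 _,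
    h2.mono fun e he => he.trans (Fintype.sum_sum_type _)⟩

theorem Box.nash_dU (hg : 0 < g) (hx : B.NB x p) (hz : B.NS x z p) {j : Fin B.nJ}
    (h0 : B.φ j (B.ψ (x p)) (z p) ≠ 0) (ξ : X) (a : LL g) :
    NashAt (fun e => ((B.P (B.ψ (x e)))⁻¹ *ᵥ fun i =>
      fderiv ℂ (fun e' => Uf (B.φ j) (B.ψ (x e')) (z e') i) e ξ) a) p := by
  obtain ⟨ζ, h1, h2⟩ := xbframe_nash B hg hx hz h0 ξ
  refine (NashAt.sum Finset.univ fun i _ => (B.jmod_nash j hg
    (B.jmod_dU j (xbframe_mer B j i) (xbframe_inv B j i) a) hx hz h0).mul (h1 i)).congr ?_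
  filter_upwards [h2, xbframe_ev B hx hz.1 h0] with e h3 he
  have h4 : ∀ k, fderiv ℂ (fun e' => Uf (B.φ j) (B.ψ (x e')) (z e') k) e ξ =
      ∑ i, fderiv ℂ (fun q : PP Unit g => Uf (B.φ j) q.1 (q.2 ()) k) (B.ψ (x e), fun _ => z e)
        (xbframeF B j i (B.ψ (x e), fun _ => z e)) * ζ i e := fun k => by
    rw [← xbframe_lin, ← h3]
    exact xbframe_chain he.2.1 ((B.mer_U j k).analyticAt (B.JF_Δ j).jh he.2.2.1) ξ
  simp only [h4, mulVec, dotProduct, Finset.mul_sum, Finset.sum_mul, mul_assoc]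
  exact Finset.sum_comm

theorem Box.nash_dP (hg : 0 < g) (hx : B.NB x p) (ξ : X) (a b : LL g) :
    NashAt (fun e => ((B.P (B.ψ (x e)))⁻¹ * dM (fun e' => B.P (B.ψ (x e'))) e ξ) a b) p := by
  obtain ⟨j, h0⟩ := B.exists_ne hx.2.2 0
  have hz := Box.NS.zero hg hx
  obtain ⟨ζ, h1, h2⟩ := xbframe_nash B hg hx hz h0 ξ
  refine (NashAt.sum Finset.univ fun i _ => (B.jmod_nash j hg
    (B.jmod_dP j (xbframe_mer B j i) (xbframe_inv B j i) a b) hx hz h0).mul (h1 i)).congr ?_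
  filter_upwards [h2, xbframe_ev B hx hz.1 h0] with e h3 he
  have h4 : ∀ k, fderiv ℂ (fun e' => B.P (B.ψ (x e')) k b) e ξ =
      ∑ i, fderiv ℂ (fun q : PP Unit g => B.P q.1 k b) (B.ψ (x e), fun _ => 0)
        (xbframeF B j i (B.ψ (x e), fun _ => 0)) * ζ i e := fun k => by
    rw [← xbframe_lin, ← h3]
    exact xbframe_chain he.2.1 ((B.mer_P j k b).analyticAt (B.JF_Δ j).jh he.2.2.1) ξ
  simp only [Matrix.mul_apply, dM, Matrix.of_apply, h4, Finset.mul_sum, Finset.sum_mul, mul_assoc]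
  exact Finset.sum_comm

omit [FiniteDimensional ℂ X] in
theorem Box.U_an (hx : B.NB x p) (hz : AnalyticAt ℂ z p) {j : Fin B.nJ}
    (h0 : B.φ j (B.ψ (x p)) (z p) ≠ 0) (a : LL g) :
    AnalyticAt ℂ (fun e => Uf (B.φ j) (B.ψ (x e)) (z e) a) p :=
  xbframe_comp (xbframe_an B hx hz)
    ((B.mer_U j a).analyticAt (B.JF_Δ j).jh (B.mem_dom.2 ⟨(B.mem _ hx.2.2).2.1, h0⟩))

end Pool.Agent.MP_cf0a82_ag

end
end
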