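import Pool.Agent.Mg.Fcf0a82q.Gb5be87
import Pool.Agent.Mg.Fcf0a82q.G446bd4
import Pool.Agent.Mg.Fcf0a82q.G3d2c3a
import Pool.Agent.Mg.Fcf0a82q.Ge1829e
import Pool.Agent.Mg.Fcf0a82q.Ga9bf1b
import Pool.Agent.Mg.Fcf0a82q.G2c0f22

section

/-! Flat connections with a non-reductive structure group. -/

open Complex Filter Topology Matrix

noncomputable section

namespace Pool.Agent.MP_cf0a82_ag

open Pool.Agent.MP_f58063_ag

/-- a flat connection on a principal bundle read in the function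
field `K` of the total space: base coordinates `y`, horizontal fields `D`, connection form `Ω` -/
structure Par2 (K : Type) [Field K] [Algebra ℂ K] (ι l : Type) [Fintype ι] [DecidableEq ι]
    [Fintype l] [DecidableEq l] : Type where
  y : ι → K
  D : ι → Der K
  Ω : Der K →ₗ[K] Matrix l l K
  s : Submodule K (Matrix l l K)
  Dy : ∀ i j, D i (y j) = if i = j then 1 else 0
  ΩD : ∀ i, Ω (D i) = 0
  inj : ∀ w : Der K, (∀ i, w (y i) = 0) → Ω w = 0 → w = 0
  mem : ∀ w, Ω w ∈ s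
  surj : ∀ ξ ∈ s, ∃ w : Der K, (∀ i, w (y i) = 0) ∧ Ω w = ξ
  mc : ∀ w w' : Der K, Ω ⁅w, w'⁆ = (Ω w').map w - (Ω w).map w' - (Ω w * Ω w' - Ω w' * Ω w)
  span : s ≤ Submodule.span K {ξ | ξ ∈ s ∧ ∀ a b, ξ a b ∈ Set.range (algebraMap ℂ K)}
  const : ∀ f, (∀ i, D i f = 0) → f ∈ Set.range (algebraMap ℂ K)

namespace Par2

variable {K : Type} [Field K] [Algebra ℂ K] {ι l : Type} [Fintype ι] [DecidableEq ι]
  [Fintype l] [DecidableEq l] (π : Par2 K ι l)

/-- vertical derivations -/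
def Vert : Set (Der K) := {w | ∀ i, w (π.y i) = 0}

/-- vertical derivations with constant connection form -/
def VertC : Set (Der K) :=
  {w | (∀ i, w (π.y i) = 0) ∧ ∀ a b, π.Ω w a b ∈ Set.range (algebraMap ℂ K)}

/-- the horizontal part of a derivation -/
def hor (w : Der K) : Der K := ∑ i, w (π.y i) • π.D i

/-- horizontal derivations that kill every element of `T` -/
def Hk (T : Set K) : Set (Der K) := {v | π.Ω v = 0 ∧ ∀ f ∈ T, v f = 0}

/-- the values of the connection form on the derivations that kill `C` -/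
def hh (C : IntermediateField ℂ K) : Submodule K (Matrix l l K) where
  carrier := {ξ | ∃ w : Der K, (∀ f ∈ C, w f = 0) ∧ π.Ω w = ξ}
  add_mem' := by
    rintro _ _ ⟨w, hw, rfl⟩ ⟨w', hw', rfl⟩
    exact ⟨w + w', fun f hf => by simp [hw f hf, hw' f hf], map_add _ _ _⟩
  zero_mem' := ⟨0, fun _ _ => rfl, map_zero _⟩
  smul_mem' := by
    rintro c _ ⟨w, hw, rfl⟩
    exact ⟨c • w, fun f hf => by simp [hw f hf], map_smul _ _ _⟩

end Par2

/-- the elements killed by the vertical derivations with values in `r` -/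
def Par2.K1 {K : Type} [Field K] [Algebra ℂ K] {ι l : Type} [Fintype ι] [DecidableEq ι]
    [Fintype l] [DecidableEq l] (π : Par2 K ι l) (r : Submodule K (Matrix l l K)) :
    IntermediateField ℂ K := Kc {X | X ∈ π.Vert ∧ π.Ω X ∈ r}

section frame

variable {R : Type} [CommRing R] {g k : ℕ}

/-- a class of the Hodge bundle in flat coordinates -/
def mu (P : Matrix (LL g) (LL g) R) (q : Fin g → R) : LL g → R := P *ᵥ Sum.elim 0 q

/-- the pairing of a class with the lift of a point -/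
def fb (P : Matrix (LL g) (LL g) R) (Um : Matrix (LL g) (Fin k) R) (q : Fin g → R) (l : Fin k) :
    R := mu P q ⬝ᵥ J (Fin g) R *ᵥ fun i => Um i l

end frame

/-- the pairing of a tuple of vectors with two linear forms -/
def pr {g k : ℕ} (ν : Fin 2 → EE g) : (Fin k → EE g) →ₗ[ℂ] Fin 2 → Fin k → ℂ where
  toFun w := fun b l => ν b ⬝ᵥ w l
  map_add' _ _ := funext fun _ => funext fun _ => dotProduct_add _ _ _
  map_smul' c w := funext fun b => funext fun l => dotProduct_smul c (ν b) (w l)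

section vert

variable {X Z Y : Type} [NormedAddCommGroup X] [NormedSpace ℂ X] [NormedAddCommGroup Z]
  [NormedSpace ℂ Z] [NormedAddCommGroup Y] [NormedSpace ℂ Y]

/-- the vertical derivative -/
def vd (z : X × Z → Y) (e : X × Z) : Z →ₗ[ℂ] Y :=
  (fderiv ℂ z e : X × Z →ₗ[ℂ] Y).comp (LinearMap.inr ℂ X Z)

lemma vd_apply (z : X × Z → Y) (e : X × Z) (ζ : Z) : vd z e ζ = fderiv ℂ z e (0, ζ) := rfl

/-- the algebra generated by the linear forms and the functions of the first variable -/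
def LB (p : X × Z) : Subalgebra ℂ (MG p) :=
  Algebra.adjoin ℂ ((Set.range fun l : X × Z →L[ℂ] ℂ => gm p l) ∪
    {m | ∃ h : X → ℂ, AnalyticAt ℂ h p.1 ∧ m = gm p fun e => h e.1})

variable {g k : ℕ}

/-- the traces of the flat one-forms vanish -/
def H1 (ψ : X → Mat g) (z : X × Z → Fin k → EE g) (e : X × Z) : Prop :=
  ∀ (ν : EE g) (ξ : X × Z), mv (fderiv ℂ ψ e.1 ξ.1) ν = 0 → ∑ l, ν ⬝ᵥ fderiv ℂ z e ξ l = 0

/-- the traces of the flat two-forms vanish on the vertical vector `u` -/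
def H2 (ψ : X → Mat g) (z : X × Z → Fin k → EE g) (u : Z) (e : X × Z) : Prop :=
  ∀ (ν : Fin 2 → EE g) (ξ : X × Z), (∀ b, mv (fderiv ℂ ψ e.1 ξ.1) (ν b) = 0) →
    ∑ l, (ν 0 ⬝ᵥ fderiv ℂ z e ξ l * ν 1 ⬝ᵥ vd z e u l -
      ν 1 ⬝ᵥ fderiv ℂ z e ξ l * ν 0 ⬝ᵥ vd z e u l) = 0

end vert

/-- the rank of a linear map -/
def rk {V W : Type} [AddCommGroup V] [Module ℂ V] [AddCommGroup W] [Module ℂ W]
    (L : V →ₗ[ℂ] W) : ℕ := Module.finrank ℂ (LinearMap.range L)

end Pool.Agent.MP_cf0a82_ag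

end
end

section

open Complex Filter Topology Matrix Function

noncomputable section

namespace Pool.Agent.MP_cf0a82_ag

open Pool.Agent.MP_f58063_ag

variable {X : Type} [NormedAddCommGroup X] [NormedSpace ℂ X] {g : ℕ}

/-- Nash maps to an abelian variety -/
def NA (τ : Mat g) (γ : X → EE g) (p : X) : Prop :=
  AnalyticAt ℂ γ p ∧ ∀ f, Ab τ (γ p) f → NashAt (fun x => f (γ x)) p

/-- the linear relations between periods with coefficients `c` are the trivial ones -/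
def Gen {k : ℕ} (τ : Mat g) (c : Fin k → ℂ) : Prop :=
  ∀ m n : Fin k → Fin g → ℤ, ∑ l, c l • per τ (m l) (n l) = 0 →
    ∑ l, star (c l) • per τ (m l) (n l) = 0

end Pool.Agent.MP_cf0a82_ag

end
end

section

open Complex Filter Topology Matrix Function

noncomputable section

namespace Pool.Agent.MP_cf0a82_ag

open Pool.Agent.MP_f58063_ag

section general

variable {X : Type} [NormedAddCommGroup X] [NormedSpace ℂ X]

/-- vectors tangent to the manifold cut out by `R` at `q` -/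
def Tan (R : Set (X → ℂ)) (q v : X) : Prop := ∀ f ∈ R, f q = 0 → fderiv ℂ f q v = 0

/-- a countable differential ring of Nash functions -/
structure NR {ι : Type} (b : ι → X) (Ω : Set X) (R : Set (X → ℂ)) : Prop where
  op : IsOpen Ω
  dr : DRing b Ω R
  ct : R.Countable
  ns : ∀ f ∈ R, ∀ x ∈ Ω, NashAt f x

/-- the rank of the derivative -/
def rkd {Y : Type} [NormedAddCommGroup Y] [NormedSpace ℂ Y] (f : X → Y) (x : X) : ℕ :=
  rk (fderiv ℂ f x : X →ₗ[ℂ] Y)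

/-- `σ` parametrises the manifold cut out by `R` at `q` -/
structure Prm (Ω : Set X) (R : Set (X → ℂ)) (q : X) {S : Type} [NormedAddCommGroup S]
    [NormedSpace ℂ S] (σ : S → X) (p : S) : Prop where
  val : σ p = q
  an : AnalyticAt ℂ σ p
  ns : ∀ l : X →L[ℂ] ℂ, NashAt (fun s => l (σ s)) p
  van : ∀ᶠ s in 𝓝 p, σ s ∈ Ω ∧ ∀ f ∈ R, f q = 0 → f (σ s) = 0
  tan : ∀ v, Tan R q v ↔ ∃ w, fderiv ℂ σ p w = v
  rnk : ∀ (κ : Type) [Fintype κ] (F : κ → X → ℂ), (∀ j, F j ∈ R) →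
    ∀ᶠ s in 𝓝 p, rkd (fun s j => F j (σ s)) s ≤ rkd (fun s j => F j (σ s)) p

end general

variable {g k : ℕ}

/-- the labels of the points -/
abbrev PI (k b : ℕ) : Type := (Fin k ⊕ Fin k) ⊕ (Fin b ⊕ Fin (k + b))

/-- the discrete data of a rational equivalence -/
structure Dat (B : Box g) (k : ℕ) : Type where
  b : ℕ
  d : ℕ
  α : PI k b → ℕ
  jn : Fin B.nJ

instance (B : Box g) (k : ℕ) : Countable (Dat B k) :=
  Function.Surjective.countable
    (f := fun s : Σ b : ℕ, ℕ × (PI k b → ℕ) × Fin B.nJ => (⟨s.1, s.2.1, s.2.2.1, s.2.2.2⟩ : Dat B k))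
    fun δ => ⟨⟨δ.b, δ.d, δ.α, δ.jn⟩, rfl⟩

namespace Dat

variable {B : Box g} (A : Atl B) (δ : Dat B k)

/-- the continuous data: coordinates of the points, Chow forms, three scalars and a parameter -/
abbrev W : Type :=
  (PI k δ.b → EE g) × (Fin (δ.d + 1) → Tn (Fin B.nJ) (k + δ.b)) × (Fin 4 → ℂ)

/-- the points -/
def pt (q : DD g × δ.W) (i : PI k δ.b) : EE g := A.σ (δ.α i) (q.1, q.2.1 i)

/-- the moving cycle -/
def py (q : DD g × δ.W) (l : Fin k) : EE g := δ.pt A q (.inl (.inl l))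

/-- the normalized cycle -/
def px (q : DD g × δ.W) (l : Fin k) : EE g := δ.pt A q (.inl (.inr l))

/-- the common part -/
def pb (q : DD g × δ.W) (l : Fin δ.b) : EE g := δ.pt A q (.inr (.inl l))

/-- the intermediate cycle -/
def pm (q : DD g × δ.W) (l : Fin (k + δ.b)) : EE g := δ.pt A q (.inr (.inr l))

/-- the domain of the equations -/
def dom : Set (DD g × δ.W) :=
  {q | q.1 ∈ B.ball ∧ (∀ i, (q.1, q.2.1 i) ∈ A.O (δ.α i)) ∧
    B.φ δ.jn (B.ψ q.1) (∑ l, δ.px A q l) ≠ 0 ∧ B.φ δ.jn (B.ψ q.1) 0 ≠ 0}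

/-- normalized homogeneous coordinates of the points -/
def hat (q : DD g × δ.W) (i : PI k δ.b) (j : Fin B.nJ) : ℂ :=
  B.φ j (B.ψ q.1) (δ.pt A q i) / B.φ (A.j (δ.α i)) (B.ψ q.1) (δ.pt A q i)

/-- the labels of the three cycles -/
def ix : Fin 3 → Fin (k + δ.b) → PI k δ.b :=
  ![Fin.append (fun l => .inl (.inl l)) fun l => .inr (.inl l),
    Fin.append (fun l => .inl (.inr l)) fun l => .inr (.inl l), fun l => .inr (.inr l)]

/-- the three Chow forms -/
def cw (q : DD g × δ.W) : Fin 3 → Tn (Fin B.nJ) (k + δ.b) :=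
  ![q.2.2.1 0, q.2.2.1 (Fin.last δ.d), pc q.2.2.1 (q.2.2.2 3)]

/-- the equations of the Chow forms -/
def eqc (a : Fin 3) (u : Fin B.nJ → ℂ) (q : DD g × δ.W) : ℂ :=
  ev (δ.cw q a) u - q.2.2.2 a.castSucc * ∏ l, u ⬝ᵥ δ.hat A q (δ.ix a l)

/-- the equations of the normalization -/
def eqn (j : Fin B.nJ) (q : DD g × δ.W) : ℂ :=
  B.φ j (B.ψ q.1) (∑ l, δ.px A q l) / B.φ δ.jn (B.ψ q.1) (∑ l, δ.px A q l) -
    B.φ j (B.ψ q.1) 0 / B.φ δ.jn (B.ψ q.1) 0

/-- the generators of the differential ring -/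
def gens : Set (DD g × δ.W → ℂ) :=
  (Set.range fun s : Fin 3 × (Fin B.nJ → ℕ) => δ.eqc A s.1 fun j => (s.2 j : ℂ)) ∪
    Set.range (δ.eqn A) ∪ (Set.range fun j q => q.1 j) ∪
    (Set.range fun (s : PI k δ.b × Fin g) q => q.2.1 s.1 s.2) ∪
    Set.range fun (s : Fin (δ.d + 1) × (Fin (k + δ.b) → Fin B.nJ)) q => q.2.2.1 s.1 s.2

open Classical in
/-- the differential ring -/
def R : Set (DD g × δ.W → ℂ) :=
  if h : ∃ R, NR (Module.finBasis ℂ (DD g × δ.W)) (δ.dom A) R ∧ δ.gens A ⊆ R then h.choose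
  else ∅

/-- solutions of the equations -/
structure Sol (q : DD g × δ.W) : Prop where
  mem : q ∈ δ.dom A
  eqc : ∀ a u, δ.eqc A a u q = 0
  ne : ∀ a : Fin 3, q.2.2.2 a.castSucc ≠ 0
  nor : ∑ l, δ.px A q l ∈ lattice (B.ψ q.1)
  nz : ∀ t, Nz (pc q.2.2.1 t)

/-- solutions at which the parameter can move -/
def S3 (q : DD g × δ.W) : Prop :=
  δ.Sol A q ∧ ∃ v, Tan (δ.R A) q v ∧ v.1 = 0 ∧ v.2.2.1 = 0 ∧ v.2.2.2 3 ≠ 0

/-- solutions at which the moving cycle can move -/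
def S2 (q : DD g × δ.W) : Prop :=
  δ.S3 A q ∧ ∃ v, Tan (δ.R A) q v ∧ v.1 = 0 ∧ (∀ l, v.2.1 (.inl (.inr l)) = 0) ∧
    fderiv ℂ (δ.py A) q v ≠ 0

/-- one point of the normalized cycle can move in all directions -/
def BigAt (q : DD g × δ.W) : Prop :=
  ∃ i, ∀ w, ∃ v, Tan (δ.R A) q v ∧ v.1 = 0 ∧ fderiv ℂ (δ.px A) q v i = w

end Dat

section family

variable {Z : Type} [NormedAddCommGroup Z] [NormedSpace ℂ Z]

/-- the traces of the flat forms on the two cycles agree -/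
def ML (B : Box g) (x y : DD g × Z → Fin k → EE g) (e : DD g × Z) : Prop :=
  ∀ (r : ℕ) (ν : Fin r → EE g) (ξ : Fin r → DD g × Z), Kil (fun e : DD g × Z => B.ψ e.1) e ν ξ →
    ∑ l, tf (fun e => x e l) e ν ξ = ∑ l, tf (fun e => y e l) e ν ξ

/-- a Nash family of normalized cycles with positive-dimensional orbits -/
structure Fam (B : Box g) (U : Set (DD g × Z)) (x y : DD g × Z → Fin k → EE g)
    (u : DD g × Z → Z) : Prop where
  op : IsOpen U
  ne : U.Nonempty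
  mem : ∀ e ∈ U, e.1 ∈ B.ball
  nx : ∀ e ∈ U, ∀ l, B.NS Prod.fst (fun e => x e l) e
  ny : ∀ e ∈ U, ∀ l, B.NS Prod.fst (fun e => y e l) e
  nor : ∀ e ∈ U, ∑ l, x e l ∈ lattice (B.ψ e.1)
  au : AnalyticOnNhd ℂ u U
  dx : ∀ e ∈ U, vd x e (u e) = 0
  dy : ∀ e ∈ U, vd y e (u e) ≠ 0
  ml : ∀ O ⊆ U, IsOpen O → O.Nonempty → ∃ e ∈ O, ML B x y e

/-- one point moves in all directions -/
def Big (U : Set (DD g × Z)) (x : DD g × Z → Fin k → EE g) : Prop :=
  ∃ i, ∀ e ∈ U, ∀ v, ∃ ζ, vd x e ζ i = v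

end family

end Pool.Agent.MP_cf0a82_ag

end
end

section

open Complex Filter Topology Matrix Function

noncomputable section

namespace Pool.Agent.MP_cf0a82_ag

open Pool.Agent.MP_f58063_ag

variable {X Z W : Type} [NormedAddCommGroup X] [NormedSpace ℂ X] [NormedAddCommGroup Z]
  [NormedSpace ℂ Z] [FiniteDimensional ℂ Z] [NormedAddCommGroup W] [NormedSpace ℂ W]
  [FiniteDimensional ℂ W] {L : X → Z →ₗ[ℂ] W} {p : X}

omit [FiniteDimensional ℂ Z] in
theorem xfker_basis (A : Z →ₗ[ℂ] W) :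
    ∃ ζ : Fin (rk A) → Z, LinearIndependent ℂ fun i => A (ζ i) := by
  let b := Module.finBasis ℂ (LinearMap.range A)
  choose ζ hζ using fun i => (b i).2
  refine ⟨ζ, ?_⟩
  simp only [hζ]
  exact b.linearIndependent.map' (Submodule.subtype _) (Submodule.ker_subtype _)

/-- the rank is lower semicontinuous -/
theorem rk_ev (hL : ∀ ζ, ContinuousAt (fun x => L x ζ) p) : ∀ᶠ x in 𝓝 p, rk (L p) ≤ rk (L x) := by
  obtain ⟨ζ, hζ⟩ := xfker_basis (L p)
  have h1 : ContinuousAt (fun x i => L x (ζ i)) p := continuousAt_pi.2 fun i => hL _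
  filter_upwards [h1.eventually hζ.eventually] with x hx
  have h2 : LinearIndependent ℂ fun i =>
      (⟨L x (ζ i), LinearMap.mem_range_self _ _⟩ : LinearMap.range (L x)) :=
    LinearIndependent.of_comp (Submodule.subtype _) hx
  exact (Fintype.card_fin _).ge.trans h2.fintype_card_le_finrank

/-- an open set on which the rank is constant -/
theorem rk_max {U : Set X} (hU : IsOpen U) (hne : U.Nonempty)
    (hL : ∀ x ∈ U, ∀ ζ, ContinuousAt (fun x => L x ζ) x) :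
    ∃ U' ⊆ U, IsOpen U' ∧ U'.Nonempty ∧ ∀ x ∈ U', ∀ y ∈ U, rk (L y) ≤ rk (L x) := by
  have hb : BddAbove ((fun x => rk (L x)) '' U) := ⟨Module.finrank ℂ W, by
    rintro _ ⟨x, -, rfl⟩
    exact Submodule.finrank_le _⟩
  obtain ⟨x₀, h0, h1⟩ := Nat.sSup_mem (hne.image fun x => rk (L x)) hb
  have h2 : ∀ y ∈ U, rk (L y) ≤ rk (L x₀) := fun y hy =>
    (le_csSup hb ⟨y, hy, rfl⟩).trans h1.ge
  refine ⟨interior {x | x ∈ U ∧ ∀ y ∈ U, rk (L y) ≤ rk (L x)}, fun x hx => (interior_subset hx).1,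
    isOpen_interior, ⟨x₀, mem_interior_iff_mem_nhds.2 ?_⟩, fun x hx => (interior_subset hx).2⟩
  filter_upwards [hU.mem_nhds h0, rk_ev (hL x₀ h0)] with x a b
  exact ⟨a, fun y hy => (h2 y hy).trans b⟩

/-- kernel vectors extend holomorphically where the rank is maximal -/
theorem ker_field (hL : ∀ ζ, AnalyticAt ℂ (fun x => L x ζ) p)
    (h : ∀ᶠ x in 𝓝 p, rk (L x) ≤ rk (L p)) {ζ₀ : Z} (h0 : L p ζ₀ = 0) :
    ∃ u : X → Z, AnalyticAt ℂ u p ∧ u p = ζ₀ ∧ ∀ᶠ x in 𝓝 p, L x (u x) = 0 := by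
  obtain ⟨ζ, hζ⟩ := xfker_basis (L p)
  obtain ⟨lam, hlam⟩ := (Fintype.linearCombination ℂ fun i => L p (ζ i)).exists_leftInverse_of_injective
    (LinearMap.ker_eq_bot.2 hζ.fintypeLinearCombination_injective)
  let M : X → Matrix (Fin (rk (L p))) (Fin (rk (L p))) ℂ :=
    fun x => Matrix.of fun j i => lam (L x (ζ i)) j
  have hM : ∀ x c, lam (L x (∑ i, c i • ζ i)) = M x *ᵥ c := fun x c => by
    funext j
    simp [M, Matrix.mulVec, dotProduct, mul_comm]
  have hMp : M p = 1 := by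
    refine Matrix.ext_iff_mulVec.2 fun c => ?_
    rw [← hM, Matrix.one_mulVec]
    have := LinearMap.congr_fun hlam c
    simpa [Fintype.linearCombination_apply] using this
  have ha : ∀ z j, AnalyticAt ℂ (fun x => lam (L x z) j) p := fun z j =>
    (((LinearMap.proj j).comp lam).toContinuousLinearMap.analyticAt _).comp (hL z)
  have hMa : ∀ j i, AnalyticAt ℂ (fun x => M x j i) p := fun j i => ha _ _
  have hd : (M p).det ≠ 0 := by
    rw [hMp, det_one]
    exact one_ne_zero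
  refine ⟨fun x => ζ₀ - ∑ i, ((M x)⁻¹ *ᵥ lam (L x ζ₀)) i • ζ i,
    analyticAt_const.sub (Finset.analyticAt_fun_sum _ fun i _ =>
      AnalyticAt.smul ?_ analyticAt_const), by simp [h0], ?_⟩
  · simp only [Matrix.mulVec, dotProduct]
    exact Finset.analyticAt_fun_sum _ fun j _ => (an_inv hMa hd i j).fun_mul (ha _ _)
  · filter_upwards [h, (an_det hMa).continuousAt.eventually_ne hd] with x h1 h2
    have h3 : Surjective (lam.comp (LinearMap.range (L x)).subtype) := fun v =>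
      ⟨⟨_, LinearMap.mem_range_self _ (∑ i, ((M x)⁻¹ *ᵥ v) i • ζ i)⟩, by
        rw [LinearMap.comp_apply, Submodule.subtype_apply, hM, mulVec_mulVec,
          mul_nonsing_inv _ h2.isUnit, one_mulVec]⟩
    have h4 := LinearMap.finrank_le_finrank_of_surjective h3
    have h5 := (LinearMap.injective_iff_surjective_of_finrank_eq_finrank
      (le_antisymm (h1.trans (Module.finrank_fin_fun ℂ).ge) h4)).2 h3
    have h6 := h5 (a₁ := ⟨_, LinearMap.mem_range_self _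
      (ζ₀ - ∑ i, ((M x)⁻¹ *ᵥ lam (L x ζ₀)) i • ζ i)⟩) (a₂ := 0) (by
        rw [map_zero]
        change lam (L x _) = 0
        rw [map_sub, map_sub, hM,
          mulVec_mulVec, mul_nonsing_inv _ h2.isUnit, one_mulVec, sub_self])
    exact congrArg Subtype.val h6

theorem vd_an' {D : Type} [NormedAddCommGroup D] [NormedSpace ℂ D] {z : D × Z → W} {e : D × Z}
    (hz : AnalyticAt ℂ z e) {u : D × Z → Z} (hu : AnalyticAt ℂ u e) :
    AnalyticAt ℂ (fun x => vd z x (u x)) e := by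
  have := FiniteDimensional.complete ℂ W
  exact ((ContinuousLinearMap.id ℂ (D × Z →L[ℂ] W)).analyticAt_bilinear _).comp₂ hz.fderiv
    (analyticAt_const.prod hu)

theorem vd_an {D : Type} [NormedAddCommGroup D] [NormedSpace ℂ D] {z : D × Z → W} {e : D × Z}
    (hz : AnalyticAt ℂ z e) (ζ : Z) : AnalyticAt ℂ (fun x => vd z x ζ) e :=
  vd_an' hz analyticAt_const

end Pool.Agent.MP_cf0a82_ag

end
end

section

open Complex Filter Topology Matrix Function

noncomputable section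

namespace Pool.Agent.MP_cf0a82_ag

open Pool.Agent.MP_f58063_ag

variable {X : Type} [NormedAddCommGroup X] [NormedSpace ℂ X] [FiniteDimensional ℂ X]
  {ι : Type} [Fintype ι] {Ω : Set X} {R : Set (X → ℂ)}

lemma xdrank_minors {m n : Type} [Fintype m] [Fintype n] (A : Matrix m n ℂ) (s : ℕ) :
    A.rank ≤ s ↔ ∀ (r : Fin (s + 1) → m) (c : Fin (s + 1) → n), (A.submatrix r c).det = 0 := by
  constructor
  · intro h r c
    by_contra hd
    have h1 := rank_of_isUnit _ ((isUnit_iff_isUnit_det _).2 (isUnit_iff_ne_zero.2 hd))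
    have h2 := rank_submatrix_le A r c
    rw [Fintype.card_fin] at h1
    omega
  · intro h
    by_contra hs
    obtain ⟨r, hr⟩ := xsalgh_rows A (s := s + 1) (by omega)
    have h1 := hr.rank_matrix
    rw [Fintype.card_fin, ← rank_transpose] at h1
    obtain ⟨c, hc⟩ := xsalgh_rows _ h1.ge
    have h2 : IsUnit (A.submatrix r c)ᵀ := linearIndependent_rows_iff_isUnit.1 hc
    rw [isUnit_iff_isUnit_det, det_transpose, h r c] at h2
    exact not_isUnit_zero h2

omit [FiniteDimensional ℂ X] [Fintype ι] in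
lemma xdrank_det {b : ι → X} (hR : DRing b Ω R) {n : ℕ} {A : X → Matrix (Fin n) (Fin n) ℂ}
    (h : ∀ a c, (fun x => A x a c) ∈ R) : (fun x => (A x).det) ∈ R := by
  have h0 : (0 : X → ℂ) ∈ R := by
    have := hR.sub _ hR.one _ hR.one
    simp only [sub_self] at this
    exact this
  have h1 : ∀ f ∈ R, -f ∈ R := fun f hf => by
    have := hR.sub _ h0 _ hf
    simp only [Pi.zero_apply, zero_sub] at this
    exact this
  let T : Subring (X → ℂ) :=
    { carrier := R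
      mul_mem' := fun hf hf' => hR.mul _ hf _ hf'
      one_mem' := hR.one
      add_mem' := fun {f f'} hf hf' => by
        have := hR.sub _ hf _ (h1 _ hf')
        simp only [Pi.neg_apply, sub_neg_eq_add] at this
        exact this
      zero_mem' := h0
      neg_mem' := fun hf => h1 _ hf }
  have e : (fun x => (A x).det) = ∑ σ : Equiv.Perm (Fin n),
      ((Equiv.Perm.sign σ : ℤ) : X → ℂ) * ∏ i, fun x => A x (σ i) i := by
    funext x
    simp [det_apply']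
  rw [e]
  exact T.sum_mem fun σ _ => T.mul_mem (intCast_mem T _) (T.prod_mem fun i _ => h _ _)

omit [FiniteDimensional ℂ X] in
lemma xdrank_eq (b : Module.Basis ι ℂ X) {κ : Type} [Fintype κ] {F : κ → X → ℂ} {x : X}
    (hF : ∀ j, AnalyticAt ℂ (F j) x) :
    rkd (fun x j => F j x) x = (Matrix.of fun j i => dv (b i) (F j) x).rank := by
  rw [rank_eq_finrank_span_cols, rkd, rk, LinearMap.range_eq_map, ← b.span_eq, Submodule.map_span,
    ← Set.range_comp, fderiv_pi fun j => (hF j).differentiableAt]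
  rfl

theorem exists_NR (b : ι → X) (hΩ : IsOpen Ω) {S : Set (X → ℂ)} (hc : S.Countable)
    (hS : ∀ f ∈ S, ∀ x ∈ Ω, NashAt f x) : ∃ R, NR b Ω R ∧ S ⊆ R := by
  obtain ⟨R, h1, h2, h3, h4⟩ := exists_DRing (nash_DRing b Ω) hS hc
  exact ⟨R, ⟨hΩ, h1, h4, h3⟩, h2⟩

/-- the rank does not increase along the manifold cut out by the ring -/
theorem dr_rank (b : Module.Basis ι ℂ X) (hΩ : IsOpen Ω) (hR : DRing b Ω R) {κ : Type}
    [Fintype κ] {F : κ → X → ℂ} (hF : ∀ j, F j ∈ R) {q : X} (hq : q ∈ Ω) {S : Filter X}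
    (hS : S ≤ 𝓝 q) (h : ∀ f ∈ R, f q = 0 → ∀ᶠ x in S, f x = 0) :
    ∀ᶠ x in S, rkd (fun x j => F j x) x ≤ rkd (fun x j => F j x) q := by
  rw [xdrank_eq b fun j => hR.an _ (hF j) q hq]
  generalize hr : (Matrix.of fun j i => dv (b i) (F j) q).rank = r
  have h1 : ∀ᶠ x in S, ∀ (a : Fin (r + 1) → κ) (c : Fin (r + 1) → ι),
      ((Matrix.of fun j i => dv (b i) (F j) x).submatrix a c).det = 0 :=
    eventually_all.2 fun a => eventually_all.2 fun c =>
      h _ (xdrank_det hR fun _ _ => hR.dv _ (hF _) _) ((xdrank_minors _ r).1 hr.le a c)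
  filter_upwards [h1, hS (hΩ.mem_nhds hq)] with x hx hx'
  rw [xdrank_eq b fun j => hR.an _ (hF j) x hx']
  exact (xdrank_minors _ r).2 hx

/-- at a generic point a disc is tangent to the manifold cut out by the ring -/
theorem tan_disc {b : ι → X} (hR : NR b Ω R) {γ : ℂ → X} {t₀ : ℂ} (hγ : AnalyticAt ℂ γ t₀)
    (h0 : γ t₀ ∈ Ω) {V : Set ℂ} (hV : V ∈ 𝓝 t₀) :
    ∃ t ∈ V, AnalyticAt ℂ γ t ∧ Tan R (γ t) (deriv γ t) := by
  have hU : {t : ℂ | t ∈ V ∧ AnalyticAt ℂ γ t ∧ γ t ∈ Ω} ∈ 𝓝 t₀ :=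
    Filter.inter_mem hV
      (hγ.eventually_analyticAt.and (hγ.continuousAt.eventually (hR.op.mem_nhds h0)))
  obtain ⟨t, ht, hg⟩ := generic_point (R := (fun (f : X → ℂ) (t : ℂ) => f (γ t)) '' R)
    (hR.ct.image _) hU (by
      rintro _ ⟨f, hf, rfl⟩ t ht
      exact (hR.dr.an f hf _ ht.2.2).comp ht.2.1)
  obtain ⟨h1, h2, h3⟩ := interior_subset ht
  refine ⟨t, h1, h2, fun f hf h4 => ?_⟩
  exact ((hR.dr.an f hf _ h3).differentiableAt.hasFDerivAt.comp_hasDerivAt t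
    h2.differentiableAt.hasDerivAt).unique
    ((hasDerivAt_const t (0 : ℂ)).congr_of_eventuallyEq (hg _ ⟨f, hf, rfl⟩ h4))

/-- the rank on a level set -/
theorem rk_level {S Y Y' : Type} [NormedAddCommGroup S] [NormedSpace ℂ S] [FiniteDimensional ℂ S]
    [NormedAddCommGroup Y] [NormedSpace ℂ Y] [FiniteDimensional ℂ Y] [NormedAddCommGroup Y']
    [NormedSpace ℂ Y'] [FiniteDimensional ℂ Y'] (H : X →ₗ[ℂ] Y) (F : X →ₗ[ℂ] Y') (T : S →ₗ[ℂ] X)
    (hH : Surjective H) (hT : ∀ v, H v = 0 ↔ ∃ w, T w = v) :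
    rk (H.prod F) = Module.finrank ℂ Y + rk (F ∘ₗ T) := by
  let π := (LinearMap.fst ℂ Y Y').domRestrict (LinearMap.range (H.prod F))
  have h1 : LinearMap.range π = ⊤ := LinearMap.range_eq_top.2 fun y =>
    (hH y).elim fun v hv => ⟨⟨_, v, rfl⟩, hv⟩
  have h2 : (LinearMap.ker π).map (LinearMap.range (H.prod F)).subtype =
      (LinearMap.range (F ∘ₗ T)).map (LinearMap.inr ℂ Y Y') := by
    ext z
    constructor
    · rintro ⟨⟨_, v, rfl⟩, hv, rfl⟩
      obtain ⟨w, rfl⟩ := (hT v).1 hv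
      exact ⟨_, ⟨w, rfl⟩, Prod.ext (Eq.symm hv) rfl⟩
    · rintro ⟨_, ⟨w, rfl⟩, rfl⟩
      have h3 := (hT _).2 ⟨w, rfl⟩
      exact ⟨⟨_, T w, rfl⟩, h3, Prod.ext h3 rfl⟩
  have h3 := π.finrank_range_add_finrank_ker
  rw [h1, finrank_top, ← Submodule.finrank_map_subtype_eq, h2,
    ← (Submodule.equivMapOfInjective _ LinearMap.inr_injective _).finrank_eq] at h3
  exact h3.symm

end Pool.Agent.MP_cf0a82_ag

end
end

section

open Complex Filter Topology Matrix Function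

noncomputable section

namespace Pool.Agent.MP_cf0a82_ag

open Pool.Agent.MP_f58063_ag

variable {X Y : Type} [NormedAddCommGroup X] [NormedSpace ℂ X] [FiniteDimensional ℂ X]
  [NormedAddCommGroup Y] [NormedSpace ℂ Y] [FiniteDimensional ℂ Y] {G : X → Y} {T : X → ℂ} {p : X}

/-- moving in a fibre of a map of constant rank -/
theorem slide (hG : AnalyticAt ℂ G p) (hr : ∀ᶠ x in 𝓝 p, rkd G x ≤ rkd G p)
    (hT : AnalyticAt ℂ T p) {v : X} (h0 : fderiv ℂ G p v = 0) (h1 : fderiv ℂ T p v ≠ 0)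
    {V : Set X} (hV : V ∈ 𝓝 p) : ∀ᶠ t in 𝓝 (T p), ∃ x ∈ V, G x = G p ∧ T x = t := by
  have : CompleteSpace Y := FiniteDimensional.complete ℂ Y
  have : CompleteSpace X := FiniteDimensional.complete ℂ X
  obtain ⟨α, β, hα⟩ := xsard_alpha (fderiv ℂ G p) (r := rkd G p) rfl
  have hD : ∀ x, AnalyticAt ℂ G x → fderiv ℂ (fun y => α (G y)) x = α.comp (fderiv ℂ G x) :=
    fun x hx => (α.hasFDerivAt.comp x hx.differentiableAt.hasFDerivAt).fderiv
  have ha : AnalyticAt ℂ (fun y => α (G y)) p := (α.analyticAt _).comp hG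
  have hs : Surjective (fderiv ℂ (fun y => α (G y)) p) := by
    rw [hD p hG]
    refine xsard_surj _ α β ?_
    rw [show (Matrix.of fun i j => α (fderiv ℂ G p (β j)) i) = 1 from ?_, det_one]
    · exact one_ne_zero
    · ext i j
      simp [hα, Pi.single_apply, Matrix.one_apply]
  obtain ⟨n, σ, π, -, e0, h2, -, -, -, h3⟩ := level_param ha hs
  have ht : Tendsto σ (𝓝 0) (𝓝 p) := e0 ▸ h2.continuousAt.tendsto
  have h4 : ∀ᶠ s in 𝓝 0, HasFDerivAt (fun s => G (σ s)) (0 : (Fin n → ℂ) →L[ℂ] Y) s := by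
    filter_upwards [h3, h2.eventually_analyticAt, ht.eventually hG.eventually_analyticAt,
      ht.eventually hr, ht.eventually (eventually_surj ha hs)] with s k1 k2 k3 k4 k5
    refine (k3.differentiableAt.hasFDerivAt.comp s k2.differentiableAt.hasFDerivAt).congr_fderiv ?_
    ext1 w
    rw [hD _ k3] at k1 k5
    exact (xsard_ker _ α k4 k5).1 _ ((k1.2.2 _).2 ⟨w, rfl⟩)
  obtain ⟨ε, hε, h5⟩ := Metric.eventually_nhds_iff_ball.1 h4
  have h6 : ∀ᶠ s in 𝓝 0, G (σ s) = G p := by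
    filter_upwards [Metric.ball_mem_nhds 0 hε] with s hs
    exact e0 ▸ Metric.isOpen_ball.is_const_of_fderiv_eq_zero (𝕜 := ℂ) (f := fun s => G (σ s))
      (convex_ball 0 ε).isPreconnected
      (fun t ht => (h5 t ht).differentiableAt.differentiableWithinAt)
      (fun t ht => (h5 t ht).fderiv) hs (Metric.mem_ball_self hε)
  obtain ⟨w, hw⟩ := (h3.self_of_nhds.2.2 v).1 (by rw [e0, hD p hG]; simp [h0])
  have h7 : HasStrictFDerivAt (fun s => T (σ s)) ((fderiv ℂ T p).comp (fderiv ℂ σ 0)) 0 :=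
    HasStrictFDerivAt.comp 0 (e0 ▸ hT.hasStrictFDerivAt) h2.hasStrictFDerivAt
  have h8 := h7.map_nhds_eq_of_surj (LinearMap.range_eq_top.2 fun c =>
    ⟨(c / fderiv ℂ T p v) • w, by simp [hw, h1]⟩)
  rw [← e0, ← h8, eventually_map, e0]
  filter_upwards [h6, ht.eventually hV] with s k1 k2
  exact ⟨_, k2, k1, rfl⟩

theorem ker_field' (hG : AnalyticAt ℂ G p) (hr : ∀ᶠ x in 𝓝 p, rkd G x ≤ rkd G p) {v : X}
    (h0 : fderiv ℂ G p v = 0) :
    ∃ u : X → X, AnalyticAt ℂ u p ∧ u p = v ∧ ∀ᶠ x in 𝓝 p, fderiv ℂ G x (u x) = 0 := by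
  have : CompleteSpace Y := FiniteDimensional.complete ℂ Y
  exact ker_field (L := fun x => (fderiv ℂ G x : X →ₗ[ℂ] Y))
    (fun ζ => ((ContinuousLinearMap.apply ℂ Y ζ).analyticAt _).comp hG.fderiv) hr h0

theorem slide_ev (hG : AnalyticAt ℂ G p) (hr : ∀ᶠ x in 𝓝 p, rkd G x ≤ rkd G p)
    (hT : AnalyticAt ℂ T p) {v : X} (h0 : fderiv ℂ G p v = 0) (h1 : fderiv ℂ T p v ≠ 0)
    {V : Set X} (hV : V ∈ 𝓝 p) :
    ∀ᶠ e in 𝓝 p, ∀ᶠ t in 𝓝 (T e), ∃ x ∈ V, G x = G e ∧ T x = t := by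
  have : CompleteSpace Y := FiniteDimensional.complete ℂ Y
  obtain ⟨u, hu, rfl, h2⟩ := ker_field' hG hr h0
  have h3 : ContinuousAt (fun x => fderiv ℂ T x (u x)) p :=
    hT.fderiv.continuousAt.clm_apply hu.continuousAt
  filter_upwards [hG.eventually_analyticAt, hT.eventually_analyticAt, hr.eventually_nhds, h2,
    h3.eventually_ne h1, eventually_mem_nhds_iff.2 hV,
    rk_ev (L := fun x => (fderiv ℂ G x : X →ₗ[ℂ] Y)) fun ζ =>
      hG.fderiv.continuousAt.clm_apply continuousAt_const] with e k1 k2 k3 k4 k5 k6 k7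
  exact slide k1 (k3.mono fun x hx => hx.trans k7) k2 k4 k5 k6

end Pool.Agent.MP_cf0a82_ag

end
end

section

open Complex Filter Topology Matrix Function

noncomputable section

namespace Pool.Agent.MP_cf0a82_ag

open Pool.Agent.MP_f58063_ag

variable {X : Type} [NormedAddCommGroup X] [NormedSpace ℂ X] [FiniteDimensional ℂ X]
  {ι : Type} [Fintype ι] {Ω : Set X} {R : Set (X → ℂ)}

lemma xdprm_param {r : ℕ} {h : X → Fin r → ℂ} {q : X} (hN : ∀ j, NashAt (fun x => h x j) q)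
    (hs : Surjective (fderiv ℂ h q)) :
    ∃ (n : ℕ) (σ : (Fin n → ℂ) → X) (π : X →L[ℂ] (Fin n → ℂ)), σ (π q) = q ∧
      AnalyticAt ℂ σ (π q) ∧ (∀ l : X →L[ℂ] ℂ, NashAt (fun s => l (σ s)) (π q)) ∧
      (∀ᶠ x in 𝓝 q, h x = h q → σ (π x) = x) ∧
      ∀ᶠ s in 𝓝 (π q), h (σ s) = h q ∧
        ∀ v, fderiv ℂ h (σ s) v = 0 ↔ ∃ w, fderiv ℂ σ s w = v := by
  have : CompleteSpace X := FiniteDimensional.complete ℂ X
  have hh : AnalyticAt ℂ h q := analyticAt_pi_iff.2 fun j => (hN j).1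
  obtain ⟨n, π, Ψ, -, hΨ, h1, h2⟩ := chart hh hs
  have hι : ∀ s : Fin n → ℂ, HasFDerivAt (fun t : Fin n → ℂ => (h q, t))
      (ContinuousLinearMap.inr ℂ (Fin r → ℂ) (Fin n → ℂ)) s := fun s =>
    (hasFDerivAt_const (h q) s).prodMk (hasFDerivAt_id s)
  have hT : Tendsto (fun t : Fin n → ℂ => (h q, t)) (𝓝 (π q)) (𝓝 (h q, π q)) :=
    (hι (π q)).continuousAt.tendsto
  have h0 : Ψ (h q, π q) = q := h1.self_of_nhds
  have ha : AnalyticAt ℂ (fun s : Fin n → ℂ => (h q, s)) (π q) :=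
    analyticAt_const.prod analyticAt_id
  have hσ : AnalyticAt ℂ (fun s : Fin n → ℂ => Ψ (h q, s)) (π q) :=
    AnalyticAt.comp (f := fun s : Fin n → ℂ => (h q, s)) hΨ ha
  have hσT : Tendsto (fun s : Fin n → ℂ => Ψ (h q, s)) (𝓝 (π q)) (𝓝 q) := by
    have := hσ.continuousAt.tendsto
    rwa [h0] at this
  have hinv := nash_inverse (Θ := fun x => (h x, π x)) (Ψ := Ψ) (hh.prod (π.analyticAt q))
    (nash_pair (nash_pi hN) fun l => NashAt.clm (l.comp π) q) hΨ h1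
    (h2.mono fun y hy => Prod.ext hy.1 hy.2)
  refine ⟨n, fun s => Ψ (h q, s), π, h0, hσ, fun l => ?_, ?_, ?_⟩
  · exact NashAt.comp (φ := fun s : Fin n → ℂ => (h q, s)) (hinv l) ha
      (nash_pair (fun l => NashAt.const _ _) fun l => NashAt.clm l _)
  · filter_upwards [h1] with x hx e
    rw [← e, hx]
  filter_upwards [(hT.eventually h2).eventually_nhds, hT.eventually hΨ.eventually_analyticAt,
    hσT.eventually hh.eventually_analyticAt, hσT.eventually h1.eventually_nhds] with s k1 k2 k3 k4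
  have d1 := k2.differentiableAt.hasFDerivAt
  have d2 : HasFDerivAt (fun t : Fin n → ℂ => Ψ (h q, t)) _ s := d1.comp s (hι s)
  have d3 := k3.differentiableAt.hasFDerivAt
  have k0 := k1.self_of_nhds
  refine ⟨k0.1, fun v => ⟨fun hv => ?_, ?_⟩⟩
  · have d4 : HasFDerivAt Ψ (fderiv ℂ Ψ (h q, s)) (h (Ψ (h q, s)), π (Ψ (h q, s))) := by
      rw [k0.1, k0.2]
      exact d1
    have e1 := (HasFDerivAt.comp (f := fun x => (h x, π x)) (Ψ (h q, s)) d4
      (d3.prodMk π.hasFDerivAt)).unique ((hasFDerivAt_id _).congr_of_eventuallyEq k4)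
    refine ⟨π v, ?_⟩
    have e2 := ContinuousLinearMap.ext_iff.1 e1 v
    rw [d2.fderiv]
    simpa [hv] using e2
  · rintro ⟨w, rfl⟩
    have e1 := (d3.comp s d2.differentiableAt.hasFDerivAt).unique
      ((hasFDerivAt_const (h q) s).congr_of_eventuallyEq (k1.mono fun t ht => ht.1))
    exact ContinuousLinearMap.ext_iff.1 e1 w

omit [FiniteDimensional ℂ X] in
lemma xdprm_pi {κ : Type} [Fintype κ] {F : κ → X → ℂ} {x : X} (hF : ∀ j, AnalyticAt ℂ (F j) x)
    (w : X) (j : κ) : fderiv ℂ (fun x j => F j x) x w j = fderiv ℂ (F j) x w := by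
  rw [fderiv_pi fun j => (hF j).differentiableAt]
  rfl

lemma xdprm_rk {S : Type} [NormedAddCommGroup S] [NormedSpace ℂ S] [FiniteDimensional ℂ S]
    {r : ℕ} {κ : Type} [Fintype κ] {h : Fin r → X → ℂ} {F : κ → X → ℂ} {σ : S → X} {s : S}
    (hh : ∀ j, AnalyticAt ℂ (h j) (σ s)) (hF : ∀ j, AnalyticAt ℂ (F j) (σ s))
    (hσ : AnalyticAt ℂ σ s) (hs : Surjective (fderiv ℂ (fun x j => h j x) (σ s)))
    (ht : ∀ v, fderiv ℂ (fun x j => h j x) (σ s) v = 0 ↔ ∃ w, fderiv ℂ σ s w = v) :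
    rkd (fun x j => Sum.elim h F j x) (σ s) = r + rkd (fun s j => F j (σ s)) s := by
  have h1 := rk_level (fderiv ℂ (fun x j => h j x) (σ s) : X →ₗ[ℂ] Fin r → ℂ)
    (fderiv ℂ (fun x j => F j x) (σ s) : X →ₗ[ℂ] κ → ℂ) (fderiv ℂ σ s : S →ₗ[ℂ] X) hs ht
  have hF' : AnalyticAt ℂ (fun x j => F j x) (σ s) := analyticAt_pi_iff.2 hF
  have h2 : fderiv ℂ (fun s j => F j (σ s)) s =
      (fderiv ℂ (fun x j => F j x) (σ s)).comp (fderiv ℂ σ s) :=
    fderiv_comp s (g := fun x j => F j x) hF'.differentiableAt hσ.differentiableAt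
  have hG : ∀ j, AnalyticAt ℂ (Sum.elim h F j) (σ s) := by
    rintro (j | j)
    exacts [hh j, hF j]
  have h3 : LinearMap.prod (fderiv ℂ (fun x j => h j x) (σ s) : X →ₗ[ℂ] Fin r → ℂ)
      (fderiv ℂ (fun x j => F j x) (σ s) : X →ₗ[ℂ] κ → ℂ) =
      (LinearEquiv.sumArrowLequivProdArrow (Fin r) κ ℂ ℂ).toLinearMap ∘ₗ
        (fderiv ℂ (fun x j => Sum.elim h F j x) (σ s) : X →ₗ[ℂ] Fin r ⊕ κ → ℂ) := by
    refine LinearMap.ext fun v => Prod.ext (funext fun j => ?_) (funext fun j => ?_)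
    · exact (xdprm_pi hh v j).trans (xdprm_pi hG v (Sum.inl j)).symm
    · exact (xdprm_pi hF v j).trans (xdprm_pi hG v (Sum.inr j)).symm
  rw [Module.finrank_fin_fun, h3] at h1
  rw [rkd, rkd, h2]
  refine Eq.trans ?_ h1
  rw [rk, rk, LinearMap.range_comp, LinearEquiv.finrank_map_eq]

/-- a Nash parametrisation of the manifold cut out by the ring -/
theorem NR.prm (b : Module.Basis ι ℂ X) (hR : NR b Ω R) {q : X} (hq : q ∈ Ω) :
    ∃ (r n : ℕ) (h : Fin r → X → ℂ) (σ : (Fin n → ℂ) → X) (p : Fin n → ℂ),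
      (∀ j, h j ∈ R ∧ h j q = 0) ∧ Prm Ω R q σ p ∧
      𝓝[{x | ∀ j, h j x = 0}] q ≤ map σ (𝓝 p) := by
  have : CompleteSpace X := FiniteDimensional.complete ℂ X
  obtain ⟨r, h, hm, hs, hz⟩ := gen b hR.dr hq
  obtain ⟨n, σ, π, h0, ha, hn, h1, h2⟩ := xdprm_param (h := fun x j => h j x)
    (fun j => hR.ns _ (hm j).1 q hq) hs
  have hq0 : (fun j => h j q) = 0 := funext fun j => (hm j).2
  have hh : AnalyticAt ℂ (fun x j => h j x) q :=
    analyticAt_pi_iff.2 fun j => hR.dr.an _ (hm j).1 q hq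
  have hT : Tendsto σ (𝓝 (π q)) (𝓝 q) := by
    have := ha.continuousAt.tendsto
    rwa [h0] at this
  have hΩ : ∀ᶠ s in 𝓝 (π q), σ s ∈ Ω := hT.eventually (hR.op.mem_nhds hq)
  have hv : ∀ f ∈ R, f q = 0 → ∀ᶠ s in 𝓝 (π q), f (σ s) = 0 := fun f hf f0 => by
    filter_upwards [hT.eventually (hz f hf f0), h2] with s k1 k2
    exact k1 fun j => (congrFun k2.1 j).trans (hm j).2
  have ht : ∀ v, fderiv ℂ (fun x j => h j x) q v = 0 ↔ ∃ w, fderiv ℂ σ (π q) w = v := by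
    have := h2.self_of_nhds.2
    rwa [h0] at this
  refine ⟨r, n, h, σ, π q, hm, ⟨h0, ha, hn, ?_, fun v => ?_, fun κ _ F hF => ?_⟩, ?_⟩
  · obtain ⟨ε, hε, hb⟩ := Metric.eventually_nhds_iff_ball.1 (hΩ.and ha.eventually_analyticAt)
    filter_upwards [Metric.ball_mem_nhds (π q) hε] with s hs'
    refine ⟨(hb s hs').1, fun f hf f0 => ?_⟩
    exact AnalyticOnNhd.eqOn_zero_of_preconnected_of_eventuallyEq_zero
      (f := fun s => f (σ s)) (U := Metric.ball (π q) ε)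
      (fun t ht' => (hR.dr.an f hf _ (hb t ht').1).comp (hb t ht').2)
      (convex_ball _ _).isPreconnected (Metric.mem_ball_self hε) (hv f hf f0) hs'
  · rw [← ht]
    refine ⟨fun hv' => funext fun j => ?_, fun hv' f hf f0 => ?_⟩
    · rw [xdprm_pi fun j => hR.dr.an _ (hm j).1 q hq]
      exact hv' _ (hm j).1 (hm j).2
    · refine tangent_level hh hs (hR.dr.an f hf q hq) ((hz f hf f0).mono fun x hx e => ?_) hv'
      exact hx fun j => (congrFun e j).trans (hm j).2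
  · have h3 := dr_rank b hR.op hR.dr (F := Sum.elim h F) (by
      rintro (j | j)
      exacts [(hm j).1, hF j]) hq (S := map σ (𝓝 (π q))) hT hv
    have h4 : ∀ᶠ s in 𝓝 (π q), rkd (fun x j => Sum.elim h F j x) (σ s) =
        r + rkd (fun s j => F j (σ s)) s := by
      filter_upwards [hΩ, ha.eventually_analyticAt, hT.eventually (eventually_surj hh hs), h2]
        with s k1 k2 k3 k4
      exact xdprm_rk (fun j => hR.dr.an _ (hm j).1 _ k1) (fun j => hR.dr.an _ (hF j) _ k1) k2 k3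
        k4.2
    have h5 := h4.self_of_nhds
    rw [h0] at h5
    filter_upwards [eventually_map.1 h3, h4] with s k1 k2
    omega
  · intro U hU
    have h3 : ∀ᶠ x in 𝓝 q, σ (π x) ∈ U := π.continuous.continuousAt.tendsto.eventually hU
    refine eventually_nhdsWithin_iff.2 ?_
    filter_upwards [h1, h3] with x k1 k2 hx
    rwa [k1 ((funext hx).trans hq0.symm)] at k2

end Pool.Agent.MP_cf0a82_ag

end
end

section

open Complex Filter Topology Matrix Function

noncomputable section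

namespace Pool.Agent.MP_cf0a82_ag

open Pool.Agent.MP_f58063_ag

variable {X Y Y' : Type} [NormedAddCommGroup X] [NormedSpace ℂ X] [FiniteDimensional ℂ X]
  [NormedAddCommGroup Y] [NormedSpace ℂ Y] [FiniteDimensional ℂ Y]
  [NormedAddCommGroup Y'] [NormedSpace ℂ Y'] [FiniteDimensional ℂ Y']

/-- the theorem of Sard on a level set -/
theorem sard_level {r : ℕ} (H : X → Fin r → ℂ) (f : X → Y) :
    IsMeagre (f '' {q | AnalyticAt ℂ H q ∧ AnalyticAt ℂ f q ∧ H q = 0 ∧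
      Surjective (fderiv ℂ H q) ∧ ¬ ∀ y, ∃ v, fderiv ℂ H q v = 0 ∧ fderiv ℂ f q v = y}) := by
  have : SecondCountableTopology X := by
    have : ProperSpace X := FiniteDimensional.proper ℂ X
    infer_instance
  have : CompleteSpace Y := FiniteDimensional.complete ℂ Y
  set Q : Set X := {q | AnalyticAt ℂ H q ∧ AnalyticAt ℂ f q ∧ H q = 0 ∧
      Surjective (fderiv ℂ H q) ∧ ¬ ∀ y, ∃ v, fderiv ℂ H q v = 0 ∧ fderiv ℂ f q v = y} with hQ
  have loc : ∀ q ∈ Q, ∃ W ∈ 𝓝 q, IsMeagre (f '' (Q ∩ W)) := by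
    intro q hq
    obtain ⟨n, σ, π, -, hσ0, hσa, hπc, hπ0, hinv, hlev⟩ := level_param hq.1 hq.2.2.2.1
    have hfa : ∀ᶠ s in 𝓝 0, AnalyticAt ℂ f (σ s) :=
      hσa.continuousAt.tendsto.eventually (by rw [hσ0]; exact hq.2.1.eventually_analyticAt)
    obtain ⟨U, hUsub, hUo, hU0⟩ := mem_nhds_iff.1 (hσa.eventually_analyticAt.and (hfa.and hlev))
    have hπU : ∀ᶠ x in 𝓝 q, π x ∈ U :=
      hπc.continuousAt.preimage_mem_nhds (by rw [hπ0]; exact hUo.mem_nhds hU0)
    refine ⟨_, hinv.and hπU, ?_⟩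
    have han : AnalyticOnNhd ℂ (fun s => f (σ s)) U := fun s hs =>
      AnalyticAt.comp (g := f) (hUsub hs).2.1 (hUsub hs).1
    refine (sard hUo han).mono ?_
    rintro _ ⟨x, ⟨hxQ, hx1, hx2⟩, rfl⟩
    have hx : σ (π x) = x := hx1 (by rw [hxQ.2.2.1, hq.2.2.1])
    refine ⟨π x, ⟨hx2, fun hsurj => hxQ.2.2.2.2 fun y => ?_⟩, by simp only [hx]⟩
    obtain ⟨ha, hb, -, -, htan⟩ := hUsub hx2
    obtain ⟨w, hw⟩ := hsurj y
    have h2 : fderiv ℂ (fun s => f (σ s)) (π x) = _ :=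
      (hb.differentiableAt.hasFDerivAt.comp (π x) ha.differentiableAt.hasFDerivAt).fderiv
    have h1 := (htan (fderiv ℂ σ (π x) w)).2 ⟨w, rfl⟩
    rw [h2, ContinuousLinearMap.comp_apply, hx] at hw
    rw [hx] at h1
    exact ⟨_, h1, hw⟩
  choose! W hW hWm using loc
  obtain ⟨t, htQ, htc, hcov⟩ := TopologicalSpace.countable_cover_nhdsWithin
    (f := W) (s := Q) (fun q hq => mem_nhdsWithin_of_mem_nhds (hW q hq))
  have : Countable t := htc.to_subtype
  refine (isMeagre_iUnion (f := fun q : t => f '' (Q ∩ W q))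
    (fun q => hWm q (htQ q.2))).mono ?_
  rintro _ ⟨x, hx, rfl⟩
  obtain ⟨q, hqt, hxq⟩ := Set.mem_iUnion₂.1 (hcov hx)
  exact Set.mem_iUnion.2 ⟨⟨q, hqt⟩, x, ⟨hx, hxq⟩, rfl⟩

/-- completing a surjective map by some coordinates of a second map -/
theorem ext_surj {r n : ℕ} (H : X →ₗ[ℂ] Fin r → ℂ) (hH : Surjective H) (G : X →ₗ[ℂ] Fin n → ℂ) :
    ∃ (s : ℕ) (a : Fin s → Fin n),
      (∀ (y : Fin r → ℂ) (y' : Fin s → ℂ), ∃ v, H v = y ∧ ∀ j, G v (a j) = y' j) ∧
      ∀ v, H v = 0 → (∀ j, G v (a j) = 0) → G v = 0 := by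
  by_contra hc
  have key : ∀ s : ℕ, ∃ a : Fin s → Fin n,
      ∀ (y : Fin r → ℂ) (y' : Fin s → ℂ), ∃ v, H v = y ∧ ∀ j, G v (a j) = y' j := by
    intro s
    induction s with
    | zero => exact ⟨Fin.elim0, fun y _ => (hH y).imp fun v hv => ⟨hv, fun j => j.elim0⟩⟩
    | succ s ih =>
      obtain ⟨a, ha⟩ := ih
      obtain ⟨w, h1, h2, h3⟩ : ∃ w, H w = 0 ∧ (∀ j, G w (a j) = 0) ∧ G w ≠ 0 := by
        by_contra h
        exact hc ⟨s, a, ha, fun v k1 k2 => by_contra fun k3 => h ⟨v, k1, k2, k3⟩⟩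
      obtain ⟨i, hi⟩ := Function.ne_iff.1 h3
      have hi : G w i ≠ 0 := hi
      refine ⟨Fin.cons i a, fun y y' => ?_⟩
      obtain ⟨v, k1, k2⟩ := ha y fun j => y' j.succ
      refine ⟨v + ((y' 0 - G v i) / G w i) • w, by simp [k1, h1], fun j => ?_⟩
      rw [map_add, map_smul, Pi.add_apply, Pi.smul_apply, smul_eq_mul]
      refine Fin.cases ?_ (fun j => ?_) j
      · rw [Fin.cons_zero, div_mul_cancel₀ _ hi, add_sub_cancel]
      · rw [Fin.cons_succ, h2, mul_zero, add_zero, k2]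
  obtain ⟨a, ha⟩ := key (n + 1)
  have hi : Injective a := fun j j' h => by
    by_contra hne
    obtain ⟨v, -, hv⟩ := ha 0 (Pi.single j 1)
    have := hv j'
    rw [← h, hv j, Pi.single_eq_same, Pi.single_eq_of_ne' hne] at this
    exact one_ne_zero this
  simpa using Fintype.card_le_of_injective a hi

theorem selM {ι : Type} [Fintype ι] (b : Module.Basis ι ℂ X) {Ω : Set X} {R : Set (X → ℂ)}
    (hR : NR b Ω R) {π : X → Y'} {f : X → Y} (hπ : AnalyticOnNhd ℂ π Ω)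
    (hf : AnalyticOnNhd ℂ f Ω) (c : Y') :
    IsMeagre (f '' {q | q ∈ Ω ∧ π q = c ∧
      ¬ ∀ y, ∃ v, Tan R q v ∧ fderiv ℂ π q v = 0 ∧ fderiv ℂ f q v = y}) := by
  have : Countable R := hR.ct.to_subtype
  obtain ⟨n, ⟨e⟩⟩ : ∃ n, Nonempty (Y' ≃L[ℂ] (Fin n → ℂ)) :=
    ⟨Module.finrank ℂ Y', ⟨ContinuousLinearEquiv.ofFinrankEq (by simp)⟩⟩
  let K : ∀ t : Σ r s : ℕ, (Fin r → R) × (Fin s → Fin n), Fin (t.1 + t.2.1) → X → ℂ := fun t =>
    Fin.append (fun j => (t.2.2.1 j).1) fun j x => e (π x - c) (t.2.2.2 j)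
  refine (isMeagre_iUnion fun t => sard_level (fun x j => K t j x) f).mono ?_
  rintro _ ⟨q, ⟨hq, hc, hno⟩, rfl⟩
  obtain ⟨r, h, hh, hsurj, hideal⟩ := gen b hR.dr hq
  have han : ∀ j, AnalyticAt ℂ (h j) q := fun j => hR.dr.an _ (hh j).1 q hq
  obtain ⟨s, a, h1, h2⟩ := ext_surj (fderiv ℂ (fun x j => h j x) q).toLinearMap hsurj
    ((e : Y' →L[ℂ] Fin n → ℂ).comp (fderiv ℂ π q)).toLinearMap
  have hL : ∀ i, AnalyticAt ℂ (fun x => e (π x - c) i) q := fun i =>
    (((ContinuousLinearMap.proj i).comp (e : Y' →L[ℂ] Fin n → ℂ)).analyticAt _).comp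
      ((hπ q hq).sub analyticAt_const)
  have hD : ∀ i v, fderiv ℂ (fun x => e (π x - c) i) q v = e (fderiv ℂ π q v) i := fun i v =>
    congrArg (fun L : X →L[ℂ] ℂ => L v)
      (((ContinuousLinearMap.proj i).comp (e : Y' →L[ℂ] Fin n → ℂ)).hasFDerivAt.comp q
        ((hπ q hq).differentiableAt.hasFDerivAt.sub_const c)).fderiv
  let t : Σ r s : ℕ, (Fin r → R) × (Fin s → Fin n) := ⟨r, s, fun j => ⟨h j, (hh j).1⟩, a⟩
  have e1 : ∀ j : Fin r, K t (Fin.castAdd s j) = h j := fun j => Fin.append_left _ _ j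
  have e2 : ∀ j : Fin s, K t (Fin.natAdd r j) = fun x => e (π x - c) (a j) := fun j =>
    Fin.append_right _ _ j
  have hK : ∀ j : Fin (r + s), AnalyticAt ℂ (K t j) q := fun j =>
    Fin.addCases (fun j => e1 j ▸ han j) (fun j => e2 j ▸ hL _) j
  refine Set.mem_iUnion.2 ⟨t, q, ⟨analyticAt_pi_iff.2 hK, hf q hq, funext fun j => ?_,
    fun y => ?_, fun hall => hno fun y => ?_⟩, rfl⟩
  · refine Fin.addCases (motive := fun j => K t j q = 0) (fun j => ?_) (fun j => ?_) j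
    · rw [e1, (hh j).2]
    · rw [e2]
      simp [hc]
  · obtain ⟨v, k1, k2⟩ := h1 (fun j => y (Fin.castAdd s j)) fun j => y (Fin.natAdd r j)
    refine ⟨v, funext fun j => (xgen_pi hK v j).trans ?_⟩
    refine Fin.addCases (motive := fun j => fderiv ℂ (K t j) q v = y j) (fun j => ?_)
      (fun j => ?_) j
    · rw [e1, ← xgen_pi han]
      exact congrFun k1 j
    · rw [e2, hD]
      exact k2 j
  · obtain ⟨v, k1, k2⟩ := hall y
    have k3 : fderiv ℂ (fun x j => h j x) q v = 0 := funext fun j => by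
      rw [xgen_pi han, ← e1, ← xgen_pi hK]
      exact congrFun k1 _
    refine ⟨v, fun g hg h0 => tangent_level (analyticAt_pi_iff.2 han) hsurj
      (hR.dr.an g hg q hq) ?_ k3, e.injective ?_, k2⟩
    · filter_upwards [hideal g hg h0] with x hx hx0
      exact hx fun j => (congrFun hx0 j).trans (hh j).2
    · rw [map_zero]
      refine h2 v k3 fun j => ?_
      refine (hD (a j) v).symm.trans ?_
      rw [← e2, ← xgen_pi hK]
      exact congrFun k1 _

end Pool.Agent.MP_cf0a82_ag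

end
end
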