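import Pool.Agent.Mg.Fcf0a82q.G7c9b0d
import Pool.Agent.Mg.Fcf0a82q.G61e4ec
import Pool.Agent.Mg.Fcf0a82q.Gf9af85
import Pool.Agent.Mg.Fcf0a82q.Ga9bf1b
import Pool.Agent.Mg.Fcf0a82q.Ge1829e

section

/-! Moderate growth on the Siegel space, weights, Fourier coefficients, modular forms. -/

open Complex Filter Topology Matrix

noncomputable section

namespace Pool.Agent.MP_cf0a82_ag

open Pool.Agent.MP_f58063_ag

/-- the dimension of the Siegel space -/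
abbrev NN (g : ℕ) : ℕ := g * (g + 1) / 2

variable {g : ℕ}

/-- symmetric matrices -/
def IsSy (τ : Mat g) : Prop := ∀ i j, τ i j = τ j i

/-- imaginary part -/
def Ym (τ : Mat g) : Matrix (Fin g) (Fin g) ℝ := Matrix.of fun i j => (τ i j).im

/-- real part -/
def Xm (τ : Mat g) : Matrix (Fin g) (Fin g) ℝ := Matrix.of fun i j => (τ i j).re

/-- the sup norm of the imaginary part -/
def imN (τ : Mat g) : ℝ := ‖(fun i j => (τ i j).im : Fin g → Fin g → ℝ)‖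

/-- the imaginary part is at least `δ` -/
def YG (τ : Mat g) (δ : ℝ) : Prop := ∀ v : Fin g → ℝ, δ * (v ⬝ᵥ v) ≤ v ⬝ᵥ Ym τ *ᵥ v

/-- `τ` has height at most `r` -/
def Bd (τ : Mat g) (r : ℝ) : Prop := 1 ≤ r ∧ ‖τ‖ ≤ r ∧ YG τ r⁻¹

/-- polynomial upper bound in the height -/
def MB (f : Mat g → ℝ) : Prop :=
  ∃ (C : ℝ) (n : ℕ), ∀ τ ∈ Siegel g, ∀ r, Bd τ r → f τ ≤ C * r ^ n

/-- holomorphic functions of moderate growth -/
structure MH (f : Mat g → ℂ) : Prop where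
  an : AnalyticOnNhd ℂ f (Siegel g)
  gr : MB fun τ => ‖f τ‖

/-- `τ + t 1` -/
def tr1 (τ : Mat g) (t : ℂ) : Mat g := fun i j => τ i j + if i = j then t else 0

/-- elementary symmetric matrix -/
def sE (a b : Fin g) : Mat g := fun i j => if (i = a ∧ j = b) ∨ (i = b ∧ j = a) then 1 else 0

/-- the lower left block as a real matrix -/
def rC (γ : Sp g) : Matrix (Fin g) (Fin g) ℝ := (γ.1.map (Int.cast : ℤ → ℝ)).toBlocks₂₁

/-- the lower right block as a real matrix -/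
def rD (γ : Sp g) : Matrix (Fin g) (Fin g) ℝ := (γ.1.map (Int.cast : ℤ → ℝ)).toBlocks₂₂

/-- the Hodge norm -/
def Hq (τ : Mat g) (u v : Fin g → ℝ) : ℝ :=
  u ⬝ᵥ Ym τ *ᵥ u + (Xm τ *ᵥ u + v) ⬝ᵥ (Ym τ)⁻¹ *ᵥ (Xm τ *ᵥ u + v)

/-- the invariant height -/
def Es (τ : Mat g) : ℝ := ⨆ γ : Sp g, (Ym (act γ τ)).det

/-- the sup norm of theta -/
def Ws (τ : Mat g) : ℝ := ⨆ c : (Fin g → ℝ) × (Fin g → ℝ), ‖Sr τ c.1 c.2‖

/-- a weight: a hermitian metric on an automorphic line bundle -/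
structure Wt (w : Mat g → ℝ) : Prop where
  pos : ∀ τ ∈ Siegel g, 0 < w τ
  act : ∀ γ : Sp g, ∃ l : Mat g → ℂ, AnalyticOnNhd ℂ l (Siegel g) ∧
    ∀ τ ∈ Siegel g, w (act γ τ) = ‖l τ‖ * w τ
  tra : ∀ (a b : Fin g) (n : ℕ), ∀ τ ∈ Siegel g, w (τ + (n : ℂ) • sE a b) = w τ
  ub : MB w
  lb : MB fun τ => (w τ)⁻¹
  cmp : ∀ δ : ℝ, 0 < δ → ∀ R : ℝ, ∃ C : ℝ, ∀ τ ∈ Siegel g, YG τ δ → ∀ x : ℝ, |x| ≤ R →
    w τ ≤ C * w (tr1 τ (x - δ / 2 * I))

/-- periodic holomorphic functions of exponential type -/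
structure PE (M c : ℕ) (f : Mat g → ℂ) : Prop where
  an : AnalyticOnNhd ℂ f (Siegel g)
  per : ∀ a b, ∀ τ ∈ Siegel g, f (τ + (M : ℂ) • sE a b) = f τ
  gr : ∀ δ : ℝ, 0 < δ → ∃ C : ℝ, ∀ τ ∈ Siegel g, YG τ δ → ‖f τ‖ ≤ C * Real.exp (c * imN τ)

/-- vanishing of order `L` at the cusp, in the form of a Schwarz inequality -/
def Van (M L : ℕ) (f : Mat g → ℂ) : Prop :=
  ∀ σ ∈ Siegel g, ∀ δ : ℝ, 0 < δ → YG σ δ → ∀ B : ℝ,
    (∀ x : ℝ, ‖f (tr1 σ (x - δ / 2 * I))‖ ≤ B) →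
      ‖f σ‖ ≤ Real.exp (-(Real.pi * δ * L / M)) * B

/-- a shift that moves a symmetric matrix into the Siegel space -/
def lam (τ : Mat g) : ℝ := g * imN τ + 1

/-- the Fourier coefficient along the line `τ + t 1` -/
def cf (M : ℕ) (n : ℤ) (f : Mat g → ℂ) (τ : Mat g) : ℂ :=
  exp (2 * Real.pi * n * lam τ / M) *
    ∫ x in (0 : ℝ)..M, f (tr1 τ (x + lam τ * I)) * exp (-(2 * Real.pi * I * n * x / M))

open Classical in
/-- the multiplier of theta -/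
def kap (γ : Sp g) (τ : Mat g) : ℂ :=
  if h : ∃ κ : ℂ, ∀ z, xstfF γ τ z = κ * theta τ z then h.choose else 0

/-- modular forms of level `M` with multiplier `kap ^ a * det ^ b` -/
structure Fm (M a b : ℕ) (h : Mat g → ℂ) : Prop where
  mh : MH h
  act : ∀ γ ∈ Gam g M, ∀ τ ∈ Siegel g,
    h (act γ τ) = kap γ τ ^ a * (jac γ τ).det ^ b * h τ

end Pool.Agent.MP_cf0a82_ag

end
end

section

open Complex Filter Topology Matrix Function

noncomputable section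

namespace Pool.Agent.MP_cf0a82_ag

open Pool.Agent.MP_f58063_ag

variable {g : ℕ} {τ : Mat g} {δ r : ℝ}

lemma xadet_spec {A : Matrix (Fin g) (Fin g) ℝ} (hA : A.IsSymm) :
    ∃ (U : Matrix (Fin g) (Fin g) ℝ) (d : Fin g → ℝ),
      U * Uᵀ = 1 ∧ Uᵀ * U = 1 ∧ A = U * diagonal d * Uᵀ := by
  have hH : A.IsHermitian := by
    rw [IsHermitian, conjTranspose_eq_transpose_of_trivial]
    exact hA
  refine ⟨hH.eigenvectorUnitary, hH.eigenvalues, ?_, ?_, ?_⟩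
  · have := (Unitary.mem_iff.1 hH.eigenvectorUnitary.2).2
    rwa [star_eq_conjTranspose, conjTranspose_eq_transpose_of_trivial] at this
  · have := (Unitary.mem_iff.1 hH.eigenvectorUnitary.2).1
    rwa [star_eq_conjTranspose, conjTranspose_eq_transpose_of_trivial] at this
  · have := hH.spectral_theorem
    rw [Unitary.conjStarAlgAut_apply, star_eq_conjTranspose,
      conjTranspose_eq_transpose_of_trivial] at this
    simpa using this

lemma xadet_conj (P A : Matrix (Fin g) (Fin g) ℝ) (v : Fin g → ℝ) :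
    v ⬝ᵥ (Pᵀ * A * P) *ᵥ v = (P *ᵥ v) ⬝ᵥ A *ᵥ (P *ᵥ v) := by
  rw [← mulVec_mulVec, ← mulVec_mulVec, dotProduct_mulVec v, vecMul_transpose]

lemma xadet_det {U : Matrix (Fin g) (Fin g) ℝ} (d : Fin g → ℝ) (h : U * Uᵀ = 1) :
    (U * diagonal d * Uᵀ).det = ∏ k, d k := by
  have := congrArg det h
  rw [det_mul, det_one] at this
  rw [det_mul, det_mul, det_diagonal, mul_right_comm, this, one_mul]

lemma xadet_low {U : Matrix (Fin g) (Fin g) ℝ} {d : Fin g → ℝ} (h : Uᵀ * U = 1) {c : ℝ}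
    (hc : ∀ v : Fin g → ℝ, c * (v ⬝ᵥ v) ≤ v ⬝ᵥ (U * diagonal d * Uᵀ) *ᵥ v) (k : Fin g) :
    c ≤ d k := by
  have h1 := hc (U *ᵥ Pi.single k 1)
  have h2 := xadet_conj U 1 (Pi.single k 1)
  rw [Matrix.mul_one, h, one_mulVec, one_mulVec] at h2
  rw [← xadet_conj, ← h2, ← Matrix.mul_assoc, ← Matrix.mul_assoc, h, Matrix.one_mul,
    Matrix.mul_assoc, h, Matrix.mul_one] at h1
  simpa [mulVec_diagonal, dotProduct, Pi.single_apply] using h1

lemma xadet_pow {A : Matrix (Fin g) (Fin g) ℝ} (hA : A.IsSymm) {c : ℝ} (h0 : 0 ≤ c)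
    (hc : ∀ v : Fin g → ℝ, c * (v ⬝ᵥ v) ≤ v ⬝ᵥ A *ᵥ v) : c ^ g ≤ A.det := by
  obtain ⟨U, d, h1, h2, rfl⟩ := xadet_spec hA
  rw [xadet_det d h1]
  calc c ^ g = ∏ _k : Fin g, c := by simp
    _ ≤ _ := Finset.prod_le_prod (fun _ _ => h0) fun k _ => xadet_low h2 hc k

lemma xadet_sym (hs : IsSy τ) : (Ym τ).IsSymm := by
  ext i j
  simp [Ym, hs i j]

lemma xadet_form (τ : Mat g) (v : Fin g → ℝ) :
    v ⬝ᵥ Ym τ *ᵥ v = ∑ i, ∑ j, v i * (τ i j).im * v j := by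
  simp only [dotProduct, mulVec, Ym, of_apply, Finset.mul_sum, mul_assoc]

lemma xadet_dot (v : Fin g → ℝ) : 0 ≤ v ⬝ᵥ v :=
  Finset.sum_nonneg fun i _ => mul_self_nonneg (v i)

lemma xadet_tr1 (τ : Mat g) (t : ℂ) :
    Ym (tr1 τ t) = Ym τ + t.im • (1 : Matrix (Fin g) (Fin g) ℝ) := by
  ext i j
  by_cases e : i = j <;> simp [Ym, tr1, e, one_apply]

lemma xadet_small {B : Mat g} {b : ℝ} (hB : ‖B‖ ≤ b) (v : Fin g → ℝ) :
    -(g * b * (v ⬝ᵥ v)) ≤ v ⬝ᵥ Ym B *ᵥ v := by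
  have e : g * b * (v ⬝ᵥ v) = ∑ i, ∑ j, b * (v i * v i + v j * v j) / 2 := by
    simp only [mul_add, add_div, Finset.sum_add_distrib, Finset.sum_const, Finset.card_univ,
      Fintype.card_fin, nsmul_eq_mul, ← Finset.sum_div, ← Finset.mul_sum, dotProduct]
    ring
  rw [xadet_form, e, ← Finset.sum_neg_distrib]
  refine Finset.sum_le_sum fun i _ => ?_
  rw [← Finset.sum_neg_distrib]
  refine Finset.sum_le_sum fun j _ => ?_
  have h1 : |(B i j).im| ≤ b :=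
    (abs_im_le_norm _).trans ((norm_le_pi_norm (B i) j).trans ((norm_le_pi_norm B i).trans hB))
  obtain ⟨h2, h3⟩ := abs_le.1 h1
  nlinarith [mul_nonneg (sub_nonneg.2 h3) (sq_nonneg (v i - v j)),
    mul_nonneg (neg_le_iff_add_nonneg.1 h2) (sq_nonneg (v i + v j))]

theorem det_mono {A B : Matrix (Fin g) (Fin g) ℝ} (hA : A.IsSymm) (hB : B.PosDef)
    (h : ∀ v, v ⬝ᵥ B *ᵥ v ≤ v ⬝ᵥ A *ᵥ v) : B.det ≤ A.det := by
  obtain ⟨U, d, h1, h2, e⟩ := xadet_spec (A := B) (by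
    have := hB.1
    rwa [IsHermitian, conjTranspose_eq_transpose_of_trivial] at this)
  have hd : ∀ k, 0 < d k := fun k => by
    have h3 : (Uᵀ * B * U).PosDef := by
      have := hB.conjTranspose_mul_mul_same (B := U) (fun x y hxy => by
        have := congrArg (Uᵀ *ᵥ ·) hxy
        simpa only [mulVec_mulVec, h2, one_mulVec] using this)
      rwa [conjTranspose_eq_transpose_of_trivial] at this
    rw [e, ← Matrix.mul_assoc, ← Matrix.mul_assoc, h2, Matrix.one_mul, Matrix.mul_assoc, h2,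
      Matrix.mul_one] at h3
    simpa using h3.diag_pos (i := k)
  set P := U * diagonal fun k => (√(d k))⁻¹ with hP
  have hPB : Pᵀ * B * P = 1 := by
    rw [hP, e, transpose_mul, diagonal_transpose]
    simp only [Matrix.mul_assoc]
    rw [← Matrix.mul_assoc Uᵀ U, h2, Matrix.one_mul, ← Matrix.mul_assoc Uᵀ U, h2, Matrix.one_mul,
      diagonal_mul_diagonal, diagonal_mul_diagonal, ← diagonal_one]
    congr 1
    ext k
    have h4 := Real.mul_self_sqrt (hd k).le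
    have h5 := (Real.sqrt_pos.2 (hd k)).ne'
    field_simp
    rw [sq, h4]
  clear_value P
  have hs : (Pᵀ * A * P).IsSymm := by
    rw [IsSymm, transpose_mul, transpose_mul, transpose_transpose, hA.eq, Matrix.mul_assoc]
  have h6 := xadet_pow hs zero_le_one fun v => by
    have := h (P *ᵥ v)
    rwa [← xadet_conj, ← xadet_conj, hPB, one_mulVec, ← one_mul (v ⬝ᵥ v)] at this
  have h7 := congrArg det hPB
  rw [det_mul, det_mul, det_transpose, det_one] at h7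
  rw [det_mul, det_mul, det_transpose, one_pow] at h6
  have h8 := hB.det_pos
  calc B.det = B.det * 1 := (mul_one _).symm
    _ ≤ B.det * (P.det * A.det * P.det) := by gcongr
    _ = A.det * (P.det * B.det * P.det) := by ring
    _ = A.det := by rw [h7, mul_one]

theorem mem_Siegel : τ ∈ Siegel g ↔ IsSy τ ∧ ∀ v : Fin g → ℝ, v ≠ 0 → 0 < v ⬝ᵥ Ym τ *ᵥ v := by
  simp only [xadet_form]
  rfl

theorem Ym_posDef (hτ : τ ∈ Siegel g) : (Ym τ).PosDef := by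
  obtain ⟨h1, h2⟩ := mem_Siegel.1 hτ
  refine PosDef.of_dotProduct_mulVec_pos ?_ fun v hv => by simpa using h2 v hv
  rw [IsHermitian, conjTranspose_eq_transpose_of_trivial]
  exact xadet_sym h1

theorem siegel_of_YG (hs : IsSy τ) (hδ : 0 < δ) (h : YG τ δ) : τ ∈ Siegel g := by
  refine mem_Siegel.2 ⟨hs, fun v hv => lt_of_lt_of_le (mul_pos hδ ?_) (h v)⟩
  exact (xadet_dot v).lt_of_ne' fun e => hv (dotProduct_self_eq_zero.1 e)

theorem exists_YG (hτ : τ ∈ Siegel g) : ∃ δ : ℝ, 0 < δ ∧ YG τ δ := by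
  obtain ⟨U, d, h1, h2, e⟩ := xadet_spec (xadet_sym hτ.1)
  have hd : ∀ k, 0 < d k := fun k => by
    have h3 : (Uᵀ * Ym τ * U).PosDef := by
      have := (Ym_posDef hτ).conjTranspose_mul_mul_same (B := U) (fun x y hxy => by
        have := congrArg (Uᵀ *ᵥ ·) hxy
        simpa only [mulVec_mulVec, h2, one_mulVec] using this)
      rwa [conjTranspose_eq_transpose_of_trivial] at this
    rw [e, ← Matrix.mul_assoc, ← Matrix.mul_assoc, h2, Matrix.one_mul, Matrix.mul_assoc, h2,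
      Matrix.mul_one] at h3
    simpa using h3.diag_pos (i := k)
  obtain ⟨c, hc, hcd⟩ : ∃ c : ℝ, 0 < c ∧ ∀ k, c ≤ d k := by
    rcases isEmpty_or_nonempty (Fin g) with h0 | h0
    · exact ⟨1, one_pos, fun k => h0.elim k⟩
    · obtain ⟨k, hk⟩ := Finite.exists_min d
      exact ⟨d k, hd k, hk⟩
  refine ⟨c, hc, fun v => ?_⟩
  have h4 := xadet_conj Uᵀ 1 v
  have h5 := xadet_conj Uᵀ (diagonal d) v
  rw [transpose_transpose] at h4 h5
  rw [Matrix.mul_one, h1, one_mulVec, one_mulVec] at h4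
  rw [e, h5, h4]
  simp only [dotProduct, mulVec_diagonal, Finset.mul_sum]
  refine Finset.sum_le_sum fun k _ => ?_
  nlinarith [mul_nonneg (sub_nonneg.2 (hcd k)) (mul_self_nonneg ((Uᵀ *ᵥ v) k))]

theorem YG.mono (h : YG τ δ) {δ' : ℝ} (h' : δ' ≤ δ) : YG τ δ' := by
  exact fun v => (mul_le_mul_of_nonneg_right h' (xadet_dot v)).trans (h v)

theorem exists_Bd (hτ : τ ∈ Siegel g) : ∃ r, Bd τ r := by
  obtain ⟨c, hc, h⟩ := exists_YG hτ
  refine ⟨max 1 (max ‖τ‖ c⁻¹), le_max_left _ _, (le_max_left _ _).trans (le_max_right _ _),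
    h.mono ?_⟩
  exact inv_le_of_inv_le₀ hc ((le_max_right _ _).trans (le_max_right _ _))

theorem Bd.mono (h : Bd τ r) {r' : ℝ} (h' : r ≤ r') : Bd τ r' := by
  exact ⟨h.1.trans h', h.2.1.trans h', h.2.2.mono (inv_anti₀ (one_pos.trans_le h.1) h')⟩

/-- the height is stable under small perturbations -/
theorem Bd.pert (h : Bd τ r) {B : Mat g} (hB : ‖B‖ ≤ (2 * (g + 1) * r)⁻¹) :
    Bd (τ + B) (2 * r) := by
  obtain ⟨h1, h2, h3⟩ := h
  have hg : (0 : ℝ) ≤ g := Nat.cast_nonneg g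
  have r0 : 0 < r := by linarith
  refine ⟨by linarith, ?_, fun v => ?_⟩
  · have : (2 * (g + 1) * r)⁻¹ ≤ 1 := inv_le_one_of_one_le₀ (by nlinarith)
    linarith [norm_add_le τ B]
  · have e : Ym (τ + B) = Ym τ + Ym B := by
      ext i j
      simp [Ym]
    have h4 := xadet_small hB v
    have h5 : g * (2 * (g + 1) * r)⁻¹ ≤ (2 * r)⁻¹ := by
      rw [← div_eq_mul_inv, ← one_div, div_le_div_iff₀ (by positivity) (by positivity)]
      nlinarith
    have h6 := mul_le_mul_of_nonneg_right h5 (xadet_dot v)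
    have h7 : r⁻¹ = 2 * (2 * r)⁻¹ := by field_simp
    have h8 := h3 v
    rw [h7] at h8
    rw [e, add_mulVec, dotProduct_add]
    linarith

theorem pow_le_det (hτ : τ ∈ Siegel g) (hδ : 0 < δ) (h : YG τ δ) : δ ^ g ≤ (Ym τ).det := by
  exact xadet_pow (xadet_sym hτ.1) hδ.le h

theorem entry_le_det (hτ : τ ∈ Siegel g) (hδ : 0 < δ) (h : YG τ δ) (i j : Fin g) :
    |(τ i j).im| * δ ^ g ≤ δ * (Ym τ).det := by
  obtain ⟨U, d, h1, h2, e⟩ := xadet_spec (xadet_sym hτ.1)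
  have hd : ∀ k, δ ≤ d k := xadet_low h2 (e ▸ h)
  have hD : 0 ≤ δ * (Ym τ).det := mul_nonneg hδ.le (Ym_posDef hτ).det_pos.le
  have hk : ∀ k, d k * δ ^ g ≤ δ * (Ym τ).det := fun k => by
    have t1 : δ ^ g = δ * ∏ _l ∈ Finset.univ.erase k, δ := by
      rw [Finset.mul_prod_erase Finset.univ (fun _ => δ) (Finset.mem_univ k)]
      simp
    rw [e, xadet_det d h1, ← Finset.mul_prod_erase Finset.univ d (Finset.mem_univ k), t1,
      mul_left_comm]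
    have := (hδ.trans_le (hd k)).le
    gcongr with l
    exact hd l
  have hU : ∀ a, ∑ k, U a k * U a k = 1 := fun a => by
    simpa [mul_apply] using congrFun (congrFun h1 a) a
  have he : (τ i j).im = ∑ k, U i k * d k * U j k := by
    have := congrFun (congrFun e i) j
    rw [mul_apply] at this
    simpa [Ym] using this
  have hp : 0 ≤ δ ^ g := by positivity
  calc |(τ i j).im| * δ ^ g ≤ (∑ k, |U i k * d k * U j k|) * δ ^ g := by
        rw [he]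
        exact mul_le_mul_of_nonneg_right (Finset.abs_sum_le_sum_abs _ _) hp
    _ ≤ ∑ k, (U i k * U i k + U j k * U j k) / 2 * (δ * (Ym τ).det) := by
        rw [Finset.sum_mul]
        refine Finset.sum_le_sum fun k _ => ?_
        have t1 := (hδ.trans_le (hd k)).le
        have t2 : |U i k * U j k| ≤ (U i k * U i k + U j k * U j k) / 2 :=
          abs_le.2 ⟨by nlinarith [sq_nonneg (U i k + U j k)],
            by nlinarith [sq_nonneg (U i k - U j k)]⟩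
        rw [mul_right_comm, abs_mul, abs_of_nonneg t1, mul_assoc]
        exact mul_le_mul t2 (hk k) (by positivity) ((abs_nonneg _).trans t2)
    _ = _ := by
        rw [← Finset.sum_mul, ← Finset.sum_div, Finset.sum_add_distrib, hU, hU]
        ring

theorem MB_det : MB fun τ : Mat g => (Ym τ).det := by
  refine ⟨g.factorial, g, fun τ _ r hr => ?_⟩
  have := det_le (A := Ym τ) (abv := AbsoluteValue.abs) (x := r) fun i j =>
    (abs_im_le_norm _).trans ((norm_le_pi_norm (τ i) j).trans ((norm_le_pi_norm τ i).trans hr.2.1))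
  simp only [AbsoluteValue.abs_apply, Fintype.card_fin, nsmul_eq_mul] at this
  exact (le_abs_self _).trans this

theorem MB_det_inv : MB fun τ : Mat g => ((Ym τ).det)⁻¹ := by
  refine ⟨1, g, fun τ hτ r hr => ?_⟩
  have r0 : 0 < r := one_pos.trans_le hr.1
  have := pow_le_det hτ (inv_pos.2 r0) hr.2.2
  rw [one_mul]
  refine inv_le_of_inv_le₀ (by positivity) ?_
  rwa [← inv_pow]

theorem tr1_YG (h : YG τ δ) (t : ℂ) : YG (tr1 τ t) (δ + t.im) := by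
  intro v
  rw [xadet_tr1, add_mulVec, dotProduct_add, smul_mulVec, one_mulVec, dotProduct_smul, add_mul,
    smul_eq_mul]
  linarith [h v]

theorem tr1_mem (hs : IsSy τ) (h : YG τ δ) {t : ℂ} (ht : -δ < t.im) : tr1 τ t ∈ Siegel g := by
  refine siegel_of_YG (fun i j => ?_) (by linarith) (tr1_YG h t)
  simp only [tr1, hs i j, eq_comm]

theorem tr1_tr1 (τ : Mat g) (s t : ℂ) : tr1 (tr1 τ s) t = tr1 τ (s + t) := by
  ext i j
  by_cases e : i = j <;> simp [tr1, e, add_assoc]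

theorem tr1_zero (τ : Mat g) : tr1 τ 0 = τ := by
  ext i j
  simp [tr1]

theorem tr1_det (hτ : τ ∈ Siegel g) (hδ : 0 < δ) (h : YG τ δ) (x : ℝ) :
    (Ym τ).det ≤ 2 ^ g * (Ym (tr1 τ (x - δ / 2 * I))).det := by
  have e : (2 : ℝ) ^ g * (Ym (tr1 τ (x - δ / 2 * I))).det =
      ((2 : ℝ) • Ym (tr1 τ (x - δ / 2 * I))).det := by
    rw [det_smul, Fintype.card_fin]
  have e' : ((x : ℂ) - δ / 2 * I).im = -(δ / 2) := by simp
  rw [e]
  refine det_mono ?_ (Ym_posDef hτ) fun v => ?_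
  · exact (xadet_sym (tr1_mem hτ.1 h (by rw [e']; linarith)).1).smul _
  · rw [xadet_tr1, e', smul_mulVec, add_mulVec, smul_mulVec, one_mulVec, dotProduct_smul,
      dotProduct_add, dotProduct_smul, smul_eq_mul, smul_eq_mul]
    linarith [h v]

theorem sE_add_mem (hτ : τ ∈ Siegel g) (a b : Fin g) (x : ℝ) :
    τ + (x : ℂ) • sE a b ∈ Siegel g := by
  refine ⟨fun i j => ?_, fun v hv => ?_⟩
  · simp only [Pi.add_apply, Pi.smul_apply, sE, hτ.1 i j, and_comm, or_comm]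
  · convert hτ.2 v hv using 4 with i _ j _
    simp only [Pi.add_apply, Pi.smul_apply, sE, smul_eq_mul]
    split_ifs <;> simp

end Pool.Agent.MP_cf0a82_ag

end
end

section

open Complex Filter Topology Matrix Function

noncomputable section

namespace Pool.Agent.MP_cf0a82_ag

open Pool.Agent.MP_f58063_ag

variable {g : ℕ} {τ : Mat g}

/-- complexification of real matrices -/
def xahqC : Matrix (Fin g) (Fin g) ℝ →+* Matrix (Fin g) (Fin g) ℂ := ofRealHom.mapMatrix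

theorem xahqC_apply (A : Matrix (Fin g) (Fin g) ℝ) (i j : Fin g) : xahqC A i j = (A i j : ℂ) := rfl

theorem xahq_sub {σ : Mat g} (h : σ ∈ Siegel g) :
    Matrix.of σ - (Matrix.of σ)ᴴ = (2 * I) • xahqC (Ym σ) := by
  ext i j
  simp only [Matrix.sub_apply, conjTranspose_apply, of_apply, Matrix.smul_apply, xahqC_apply, Ym,
    h.1 j i, smul_eq_mul]
  apply Complex.ext
  · simp
  · simp
    ring

theorem xahq_key (γ : Sp g) (hτ : τ ∈ Siegel g) :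
    (jac γ τ)ᴴ * xahqC (Ym (act γ τ)) * jac γ τ = xahqC (Ym τ) := by
  have h1 := xsact_key γ τ fun i j => (starRingEnd ℂ) (τ i j)
  rw [← xsact_star_jac, ← xsact_star_num, ← xsact_mul_jac γ (jac_det γ hτ), conjTranspose_mul]
    at h1
  have h2 : (Matrix.of fun i j => (starRingEnd ℂ) (τ i j))ᵀ = (Matrix.of τ)ᴴ := rfl
  rw [h2, xahq_sub hτ, ← Matrix.mul_assoc, ← Matrix.sub_mul, ← Matrix.mul_sub,
    xahq_sub (act_mem γ hτ), Matrix.mul_smul, Matrix.smul_mul] at h1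
  exact smul_right_injective _ (mul_ne_zero two_ne_zero I_ne_zero) h1

theorem xahq_jac (γ : Sp g) (τ : Mat g) :
    jac γ τ = xahqC (rC γ * Xm τ + rD γ) + I • xahqC (rC γ * Ym τ) := by
  ext i j
  apply Complex.ext <;>
    simp [jac, cx, rC, rD, Xm, Ym, xahqC_apply, Matrix.mul_apply, toBlocks₂₁, toBlocks₂₂]

theorem xahq_star (P Q : Matrix (Fin g) (Fin g) ℝ) :
    (xahqC P + I • xahqC Q)ᴴ = xahqC Pᵀ - I • xahqC Qᵀ := by
  ext i j
  apply Complex.ext <;> simp [xahqC_apply, conjTranspose_apply]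

theorem xahq_det_ne (hτ : τ ∈ Siegel g) : IsUnit (Ym τ).det :=
  isUnit_iff_ne_zero.mpr (Ym_posDef hτ).det_pos.ne'

theorem xahq_Ysym (hτ : τ ∈ Siegel g) : (Ym τ)ᵀ = Ym τ := by
  ext i j
  simp only [Ym, transpose_apply, of_apply, hτ.1 j i]

theorem xahq_Xsym (hτ : τ ∈ Siegel g) : (Xm τ)ᵀ = Xm τ := by
  ext i j
  simp only [Xm, transpose_apply, of_apply, hτ.1 j i]

theorem xahq_inv (γ : Sp g) (hτ : τ ∈ Siegel g) : (Ym (act γ τ))⁻¹ =
    (rC γ * Xm τ + rD γ) * (Ym τ)⁻¹ * (rC γ * Xm τ + rD γ)ᵀ +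
      (rC γ * Ym τ) * (Ym τ)⁻¹ * (rC γ * Ym τ)ᵀ := by
  have h1 : (jac γ τ)ᴴ * xahqC (Ym (act γ τ)) * (jac γ τ * xahqC (Ym τ)⁻¹) = 1 := by
    rw [← Matrix.mul_assoc, xahq_key γ hτ, ← map_mul, mul_nonsing_inv _ (xahq_det_ne hτ), map_one]
  have h2 := mul_eq_one_comm.mp h1
  rw [xahq_jac, xahq_star] at h2
  refine inv_eq_left_inv ?_
  generalize rC γ * Xm τ + rD γ = P at h2 ⊢
  generalize rC γ * Ym τ = Q at h2 ⊢
  generalize (Ym τ)⁻¹ = Z at h2 ⊢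
  generalize Ym (act γ τ) = Y at h2 ⊢
  have h3 : xahqC ((P * Z * Pᵀ + Q * Z * Qᵀ) * Y) + I • xahqC ((Q * Z * Pᵀ - P * Z * Qᵀ) * Y) = 1 := by
    rw [← h2]
    simp only [map_mul, map_add, map_sub, mul_add, add_mul, mul_sub, sub_mul, smul_mul_assoc,
      mul_smul_comm, smul_add, smul_sub, smul_smul, I_mul_I, mul_assoc, neg_smul, one_smul]
    abel
  ext i j
  have h4 := congrArg (fun M => (M i j).re) h3
  simp only [Matrix.add_apply, Matrix.smul_apply, xahqC_apply, smul_eq_mul, add_re, ofReal_re,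
    mul_re, I_re, I_im, ofReal_im, zero_mul, mul_zero, sub_zero, add_zero] at h4
  rw [h4, Matrix.one_apply, Matrix.one_apply]
  split_ifs <;> simp

theorem xahq_form (P Z : Matrix (Fin g) (Fin g) ℝ) (w : Fin g → ℝ) :
    w ⬝ᵥ (P * Z * Pᵀ) *ᵥ w = (Pᵀ *ᵥ w) ⬝ᵥ Z *ᵥ (Pᵀ *ᵥ w) := by
  rw [← mulVec_mulVec, ← mulVec_mulVec, dotProduct_mulVec w P, ← mulVec_transpose]

theorem xahq_nn (a : Fin g → ℝ) : 0 ≤ a ⬝ᵥ a := Finset.sum_nonneg fun i _ => mul_self_nonneg (a i)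

theorem xahq_amgm (a b : Fin g → ℝ) (s t : ℝ) :
    2 * s * t * (a ⬝ᵥ b) ≤ s ^ 2 * (a ⬝ᵥ a) + t ^ 2 * (b ⬝ᵥ b) := by
  have h := xahq_nn (s • a - t • b)
  simp only [sub_dotProduct, dotProduct_sub, smul_dotProduct, dotProduct_smul, smul_eq_mul,
    dotProduct_comm b a] at h
  linarith

theorem xahq_add (a b : Fin g → ℝ) : (a + b) ⬝ᵥ (a + b) ≤ 2 * (a ⬝ᵥ a) + 2 * (b ⬝ᵥ b) := by
  have h := xahq_amgm a b 1 1
  simp only [add_dotProduct, dotProduct_add, dotProduct_comm b a]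
  linarith

theorem xahq_Ynn (hτ : τ ∈ Siegel g) (a : Fin g → ℝ) : 0 ≤ a ⬝ᵥ Ym τ *ᵥ a := by
  simpa using (Ym_posDef hτ).posSemidef.dotProduct_mulVec_nonneg a

theorem xahq_YY (hτ : τ ∈ Siegel g) (b : Fin g → ℝ) : Ym τ *ᵥ (Ym τ)⁻¹ *ᵥ b = b := by
  rw [mulVec_mulVec, mul_nonsing_inv _ (xahq_det_ne hτ), one_mulVec]

theorem xahq_var (hτ : τ ∈ Siegel g) (a b : Fin g → ℝ) :
    2 * (a ⬝ᵥ b) - a ⬝ᵥ Ym τ *ᵥ a ≤ b ⬝ᵥ (Ym τ)⁻¹ *ᵥ b := by
  have h := xahq_Ynn hτ (a - (Ym τ)⁻¹ *ᵥ b)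
  have e : ((Ym τ)⁻¹ *ᵥ b) ⬝ᵥ Ym τ *ᵥ a = a ⬝ᵥ b := by
    rw [dotProduct_mulVec, ← mulVec_transpose, xahq_Ysym hτ, xahq_YY hτ, dotProduct_comm]
  rw [mulVec_sub, xahq_YY hτ, sub_dotProduct, dotProduct_sub, dotProduct_sub, e,
    dotProduct_comm ((Ym τ)⁻¹ *ᵥ b) b] at h
  linarith

theorem xahq_var_eq (hτ : τ ∈ Siegel g) (b : Fin g → ℝ) :
    ∃ a : Fin g → ℝ, b ⬝ᵥ (Ym τ)⁻¹ *ᵥ b = 2 * (a ⬝ᵥ b) - a ⬝ᵥ Ym τ *ᵥ a := by
  refine ⟨(Ym τ)⁻¹ *ᵥ b, ?_⟩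
  rw [xahq_YY hτ, dotProduct_comm b]
  ring

theorem xahq_op {M : Matrix (Fin g) (Fin g) ℝ} {r : ℝ} (h : ∀ i j, |M i j| ≤ r) (u : Fin g → ℝ) :
    (M *ᵥ u) ⬝ᵥ (M *ᵥ u) ≤ ((g + 1) * r) ^ 2 * (u ⬝ᵥ u) := by
  have h1 : ∀ i, (M *ᵥ u) i * (M *ᵥ u) i ≤ g * r ^ 2 * (u ⬝ᵥ u) := by
    intro i
    have h2 := Finset.sum_mul_sq_le_sq_mul_sq Finset.univ (M i) u
    have h3 : ∑ j, M i j ^ 2 ≤ g * r ^ 2 := by
      have := Finset.sum_le_card_nsmul Finset.univ (fun j => M i j ^ 2) (r ^ 2) fun j _ =>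
        sq_le_sq' (abs_le.mp (h i j)).1 (abs_le.mp (h i j)).2
      simpa using this
    have h4 : ∑ j, u j ^ 2 = u ⬝ᵥ u := by simp only [dotProduct, sq]
    rw [h4] at h2
    rw [← sq]
    exact h2.trans (mul_le_mul_of_nonneg_right h3 (xahq_nn u))
  have h5 := Finset.sum_le_card_nsmul Finset.univ _ _ fun i _ => h1 i
  rw [Finset.card_univ, Fintype.card_fin, nsmul_eq_mul] at h5
  refine le_trans h5 ?_
  have h6 : 0 ≤ r ^ 2 * (u ⬝ᵥ u) := mul_nonneg (sq_nonneg r) (xahq_nn u)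
  have h7 : (0 : ℝ) ≤ g := Nat.cast_nonneg g
  nlinarith [mul_nonneg h7 h6]

theorem xahq_ent {r : ℝ} (h : Bd τ r) (i j : Fin g) : |Xm τ i j| ≤ r ∧ |Ym τ i j| ≤ r := by
  have h1 : ‖τ i j‖ ≤ r := ((norm_le_pi_norm (τ i) j).trans (norm_le_pi_norm τ i)).trans h.2.1
  exact ⟨(abs_re_le_norm _).trans h1, (abs_im_le_norm _).trans h1⟩

theorem xahq_Yle {r : ℝ} (h : Bd τ r) (u : Fin g → ℝ) :
    u ⬝ᵥ Ym τ *ᵥ u ≤ (g + 1) * r * (u ⬝ᵥ u) := by
  have hL : (0 : ℝ) < (g + 1) * r := by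
    have := h.1
    positivity
  have h1 := xahq_op (fun i j => (xahq_ent h i j).2) u
  have h2 := xahq_amgm u (Ym τ *ᵥ u) ((g + 1) * r) 1
  refine le_of_mul_le_mul_left ?_ hL
  nlinarith

theorem xahq_tr1 (x y : ℝ) (u : Fin g → ℝ) : Xm (tr1 τ (x - y * I)) *ᵥ u = Xm τ *ᵥ u + x • u ∧
    Ym (tr1 τ (x - y * I)) *ᵥ u = Ym τ *ᵥ u - y • u := by
  have h1 : Xm (tr1 τ (x - y * I)) = Xm τ + x • (1 : Matrix (Fin g) (Fin g) ℝ) := by
    ext i j
    by_cases h : i = j <;> simp [Xm, tr1, h]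
  have h2 : Ym (tr1 τ (x - y * I)) = Ym τ - y • (1 : Matrix (Fin g) (Fin g) ℝ) := by
    ext i j
    by_cases h : i = j <;> simp [Ym, tr1, h, sub_eq_add_neg]
  rw [h1, h2, add_mulVec, sub_mulVec, smul_mulVec, smul_mulVec, one_mulVec]
  exact ⟨rfl, rfl⟩

theorem im_act (γ : Sp g) (hτ : τ ∈ Siegel g) (w : Fin g → ℝ) :
    w ⬝ᵥ (Ym (act γ τ))⁻¹ *ᵥ w = Hq τ ((rC γ)ᵀ *ᵥ w) ((rD γ)ᵀ *ᵥ w) := by
  rw [xahq_inv γ hτ, add_mulVec, dotProduct_add, xahq_form, xahq_form, Hq, add_comm, transpose_add,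
    transpose_mul, transpose_mul, xahq_Xsym hτ, xahq_Ysym hτ, add_mulVec, ← mulVec_mulVec,
    ← mulVec_mulVec]
  congr 1
  rw [mulVec_mulVec _ (Ym τ)⁻¹, nonsing_inv_mul _ (xahq_det_ne hτ), one_mulVec, dotProduct_comm]

theorem det_act (γ : Sp g) (hτ : τ ∈ Siegel g) :
    (Ym (act γ τ)).det * ‖(jac γ τ).det‖ ^ 2 = (Ym τ).det := by
  have h := congrArg det (xahq_key γ hτ)
  have e : ∀ A : Matrix (Fin g) (Fin g) ℝ, (xahqC A).det = (A.det : ℂ) := fun A =>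
    (ofRealHom.map_det A).symm
  rw [det_mul, det_mul, det_conjTranspose, e, e] at h
  apply ofReal_injective
  rw [← h, ofReal_mul, ofReal_pow, ← conj_mul']
  simp only [RCLike.star_def]
  ring

theorem Hq_lower (g : ℕ) : ∃ C : ℝ, 0 < C ∧ ∀ τ ∈ Siegel g, ∀ r, Bd τ r → ∀ u v : Fin g → ℝ,
    u ⬝ᵥ u + v ⬝ᵥ v ≤ C * r ^ 3 * Hq τ u v := by
  refine ⟨1 + 2 * (g + 1) ^ 2 + 2 * (g + 1), by positivity, fun τ hτ r h u v => ?_⟩
  have hr : 1 ≤ r := h.1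
  have hr0 : 0 < r := by linarith
  have hG : (0 : ℝ) < g + 1 := by positivity
  have hA : u ⬝ᵥ u ≤ r * (u ⬝ᵥ Ym τ *ᵥ u) := (inv_mul_le_iff₀ hr0).mp (h.2.2 u)
  have hX := xahq_op (fun i j => (xahq_ent h i j).1) u
  have hA0 := xahq_Ynn hτ u
  rw [Hq]
  have hv : v ⬝ᵥ v ≤ 2 * ((Xm τ *ᵥ u + v) ⬝ᵥ (Xm τ *ᵥ u + v)) + 2 * ((Xm τ *ᵥ u) ⬝ᵥ (Xm τ *ᵥ u)) := by
    have := xahq_add (Xm τ *ᵥ u + v) (-(Xm τ *ᵥ u))
    rwa [add_neg_cancel_comm, neg_dotProduct_neg] at this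
  generalize Xm τ *ᵥ u + v = z at hv ⊢
  have hB : z ⬝ᵥ z ≤ (g + 1) * r * (z ⬝ᵥ (Ym τ)⁻¹ *ᵥ z) := by
    have h1 := xahq_var hτ (((g + 1) * r)⁻¹ • z) z
    have h2 := xahq_Yle h (((g + 1) * r)⁻¹ • z)
    rw [← inv_mul_le_iff₀ (mul_pos hG hr0)]
    refine le_trans ?_ h1
    simp only [smul_dotProduct, dotProduct_smul, smul_eq_mul] at h2 ⊢
    rw [← mul_assoc, mul_inv_cancel₀ (mul_pos hG hr0).ne', one_mul] at h2
    linarith
  have hB0 : 0 ≤ z ⬝ᵥ (Ym τ)⁻¹ *ᵥ z := by simpa using xahq_var hτ 0 z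
  generalize z ⬝ᵥ (Ym τ)⁻¹ *ᵥ z = B at *
  generalize u ⬝ᵥ Ym τ *ᵥ u = A at *
  generalize (g : ℝ) + 1 = G at *
  have h3 : r ≤ r ^ 3 := le_self_pow₀ hr (by norm_num)
  have h4 : (G * r) ^ 2 * (u ⬝ᵥ u) ≤ (G * r) ^ 2 * (r * A) :=
    mul_le_mul_of_nonneg_left hA (sq_nonneg _)
  have h5 : r * A ≤ r ^ 3 * A := mul_le_mul_of_nonneg_right h3 hA0
  have h6 : G * (r * B) ≤ G * (r ^ 3 * B) :=
    mul_le_mul_of_nonneg_left (mul_le_mul_of_nonneg_right h3 hB0) hG.le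
  have h7 : 0 ≤ G * (r ^ 3 * A) := by positivity
  have h8 : 0 ≤ G ^ 2 * (r ^ 3 * B) := by positivity
  have h9 : 0 ≤ r ^ 3 * B := by positivity
  nlinarith

theorem Hq_upper (g : ℕ) : ∃ C : ℝ, 0 < C ∧ ∀ τ ∈ Siegel g, ∀ r, Bd τ r → ∀ u v : Fin g → ℝ,
    Hq τ u v ≤ C * r ^ 3 * (u ⬝ᵥ u + v ⬝ᵥ v) := by
  refine ⟨(g + 1) + 2 * (g + 1) ^ 2 + 2, by positivity, fun τ hτ r h u v => ?_⟩
  have hr : 1 ≤ r := h.1
  have hr0 : 0 < r := by linarith
  have hG : (0 : ℝ) < g + 1 := by positivity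
  have hA := xahq_Yle h u
  have hX := xahq_op (fun i j => (xahq_ent h i j).1) u
  have hz := xahq_add (Xm τ *ᵥ u) v
  rw [Hq]
  generalize Xm τ *ᵥ u + v = z at hz ⊢
  have hB : z ⬝ᵥ (Ym τ)⁻¹ *ᵥ z ≤ r * (z ⬝ᵥ z) := by
    obtain ⟨a, ha⟩ := xahq_var_eq hτ z
    have h1 : a ⬝ᵥ a ≤ r * (a ⬝ᵥ Ym τ *ᵥ a) := (inv_mul_le_iff₀ hr0).mp (h.2.2 a)
    have h2 := xahq_amgm a z 1 r
    refine le_of_mul_le_mul_left ?_ hr0
    rw [ha]
    nlinarith
  have hu := xahq_nn u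
  have hv := xahq_nn v
  generalize u ⬝ᵥ u = U at *
  generalize v ⬝ᵥ v = V at *
  generalize (g : ℝ) + 1 = G at *
  have h3 : r ≤ r ^ 3 := le_self_pow₀ hr (by norm_num)
  have h4 : r * (z ⬝ᵥ z) ≤ r * (2 * ((G * r) ^ 2 * U) + 2 * V) :=
    mul_le_mul_of_nonneg_left (by linarith) hr0.le
  have h5 : r * V ≤ r ^ 3 * V := mul_le_mul_of_nonneg_right h3 hv
  have h6 : G * (r * U) ≤ G * (r ^ 3 * U) :=
    mul_le_mul_of_nonneg_left (mul_le_mul_of_nonneg_right h3 hu) hG.le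
  have h7 : 0 ≤ G * (r ^ 3 * V) := by positivity
  have h8 : 0 ≤ G ^ 2 * (r ^ 3 * V) := by positivity
  have h9 : 0 ≤ r ^ 3 * U := by positivity
  nlinarith

theorem Hq_shift (g : ℕ) {δ : ℝ} (hδ : 0 < δ) (R : ℝ) : ∃ K : ℝ, 0 < K ∧ ∀ τ ∈ Siegel g,
    YG τ δ → ∀ x : ℝ, |x| ≤ R → ∀ u v : Fin g → ℝ,
      Hq τ u v ≤ K * Hq (tr1 τ (x - δ / 2 * I)) u v := by
  refine ⟨2 + 4 * R ^ 2 / δ ^ 2, by positivity, fun τ hτ h x hx u v => ?_⟩
  have hm : tr1 τ (x - δ / 2 * I) ∈ Siegel g := tr1_mem hτ.1 h (by simp; linarith)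
  have e : ((δ : ℂ) / 2) = ((δ / 2 : ℝ) : ℂ) := by push_cast; rfl
  rw [e] at hm ⊢
  obtain ⟨a, ha⟩ := xahq_var_eq hτ (Xm τ *ᵥ u + v)
  have h1 := xahq_var hm a (Xm (tr1 τ (x - (δ / 2 : ℝ) * I)) *ᵥ u + v)
  have h0 := xahq_var hm 0 (Xm (tr1 τ (x - (δ / 2 : ℝ) * I)) *ᵥ u + v)
  rw [Hq, Hq, ha]
  generalize (Xm (tr1 τ (x - (δ / 2 : ℝ) * I)) *ᵥ u + v) ⬝ᵥ
    (Ym (tr1 τ (x - (δ / 2 : ℝ) * I)))⁻¹ *ᵥ (Xm (tr1 τ (x - (δ / 2 : ℝ) * I)) *ᵥ u + v) = B at *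
  rw [(xahq_tr1 x _ u).1, (xahq_tr1 x _ a).2] at h1
  rw [(xahq_tr1 x _ u).2]
  simp only [dotProduct_add, dotProduct_sub, dotProduct_smul, smul_eq_mul, zero_dotProduct,
    add_zero, mul_zero, sub_zero] at h0 h1 ⊢
  have h2 := h u
  have hu := xahq_nn u
  have h3 := xahq_amgm a u δ (-2 * x)
  have h4 : x ^ 2 ≤ R ^ 2 := sq_le_sq' (abs_le.mp hx).1 (abs_le.mp hx).2
  have h5 : -2 * x * (a ⬝ᵥ u) - δ / 2 * (a ⬝ᵥ a) ≤ 2 * R ^ 2 / δ * (u ⬝ᵥ u) := by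
    rw [div_mul_eq_mul_div _ δ, le_div_iff₀ hδ]
    nlinarith [mul_le_mul_of_nonneg_right h4 hu]
  obtain ⟨c, hc, hc'⟩ : ∃ c : ℝ, 0 ≤ c ∧ c = R ^ 2 / δ ^ 2 := ⟨_, by positivity, rfl⟩
  have e1 : 2 * R ^ 2 / δ = 2 * c * δ := by rw [hc']; field_simp
  have e2 : 4 * R ^ 2 / δ ^ 2 = 4 * c := by rw [hc']; ring
  rw [e1] at h5
  rw [e2]
  nlinarith [mul_le_mul_of_nonneg_left h2 hc, mul_nonneg hc h0]

/-- the rows of `(C D)` are independent -/
theorem CD_posDef (γ : Sp g) : (rC γ * (rC γ)ᵀ + rD γ * (rD γ)ᵀ).PosDef := by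
  refine PosDef.of_dotProduct_mulVec_pos ?_ fun x hx => ?_
  · rw [IsHermitian, conjTranspose_eq_transpose_of_trivial, transpose_add, transpose_mul,
      transpose_mul, transpose_transpose, transpose_transpose]
  · have e : ∀ P : Matrix (Fin g) (Fin g) ℝ, x ⬝ᵥ (P * Pᵀ) *ᵥ x = (x ᵥ* P) ⬝ᵥ (x ᵥ* P) := fun P => by
      rw [← mulVec_mulVec, dotProduct_mulVec, mulVec_transpose]
    rw [star_trivial, add_mulVec, dotProduct_add, e, e]
    by_contra hn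
    have h1 := xahq_nn (x ᵥ* rC γ)
    have h2 := xahq_nn (x ᵥ* rD γ)
    have h3 : x ᵥ* rC γ = 0 := dotProduct_self_eq_zero.mp (by linarith)
    have h4 : x ᵥ* rD γ = 0 := dotProduct_self_eq_zero.mp (by linarith)
    have h5 := SymplecticGroup.symplectic_det (SymplecticGroup.map_mem γ.2 (Int.castRingHom ℝ))
    have h6 : Sum.elim 0 x ᵥ* γ.1.map (Int.castRingHom ℝ) = 0 := by
      rw [← fromBlocks_toBlocks (γ.1.map (Int.castRingHom ℝ)), vecMul_fromBlocks,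
        Sum.elim_comp_inl, Sum.elim_comp_inr, zero_vecMul, zero_vecMul, zero_add, zero_add]
      exact (congrArg₂ Sum.elim h3 h4).trans Sum.elim_zero_zero
    have h7 := eq_zero_of_vecMul_eq_zero h5.ne_zero h6
    exact hx (funext fun i => congrFun h7 (.inr i))

theorem one_le_det_CD (γ : Sp g) : 1 ≤ (rC γ * (rC γ)ᵀ + rD γ * (rD γ)ᵀ).det := by
  have h := (CD_posDef γ).det_pos
  have e : rC γ * (rC γ)ᵀ + rD γ * (rD γ)ᵀ = (Int.castRingHom ℝ).mapMatrix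
      (γ.1.toBlocks₂₁ * γ.1.toBlocks₂₁ᵀ + γ.1.toBlocks₂₂ * γ.1.toBlocks₂₂ᵀ) := by
    rw [map_add, map_mul, map_mul]
    rfl
  rw [e, ← RingHom.map_det, eq_intCast] at h ⊢
  exact_mod_cast h

end Pool.Agent.MP_cf0a82_ag

end
end

section

open Complex Filter Topology Matrix Function

noncomputable section

namespace Pool.Agent.MP_cf0a82_ag

open Pool.Agent.MP_f58063_ag

variable {g : ℕ} {f f' : Mat g → ℝ} {h h' : Mat g → ℂ}

theorem MB.of_le (hf : MB f) (h : ∀ τ ∈ Siegel g, f' τ ≤ f τ) : MB f' := by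
  obtain ⟨C, n, hC⟩ := hf
  exact ⟨C, n, fun τ hτ r hr => (h τ hτ).trans (hC τ hτ r hr)⟩

theorem MB.const (c : ℝ) : MB fun _ : Mat g => c := by
  exact ⟨c, 0, fun _ _ _ _ => by rw [pow_zero, mul_one]⟩

lemma xaact_le {r C C' : ℝ} {n n' : ℕ} (hr : 1 ≤ r) (h : C ≤ C') (h0 : 0 ≤ C') (hn : n ≤ n') :
    C * r ^ n ≤ C' * r ^ n' :=
  mul_le_mul h (pow_le_pow_right₀ hr hn) (pow_nonneg (zero_le_one.trans hr) n) h0

theorem MB.add (hf : MB f) (hf' : MB f') : MB fun τ => f τ + f' τ := by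
  obtain ⟨C, n, hC⟩ := hf
  obtain ⟨C', n', hC'⟩ := hf'
  refine ⟨|C| + |C'|, n + n', fun τ hτ r hr => ?_⟩
  rw [add_mul]
  exact add_le_add ((hC τ hτ r hr).trans (xaact_le hr.1 (le_abs_self C) (abs_nonneg C) (by omega)))
    ((hC' τ hτ r hr).trans (xaact_le hr.1 (le_abs_self C') (abs_nonneg C') (by omega)))

theorem MB.mul (hf : MB f) (hf' : MB f') (h0 : ∀ τ ∈ Siegel g, 0 ≤ f τ)
    (h0' : ∀ τ ∈ Siegel g, 0 ≤ f' τ) : MB fun τ => f τ * f' τ := by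
  obtain ⟨C, n, hC⟩ := hf
  obtain ⟨C', n', hC'⟩ := hf'
  refine ⟨C * C', n + n', fun τ hτ r hr => ?_⟩
  rw [pow_add, mul_mul_mul_comm]
  exact mul_le_mul (hC τ hτ r hr) (hC' τ hτ r hr) (h0' τ hτ) ((h0 τ hτ).trans (hC τ hτ r hr))

theorem MH.const (c : ℂ) : MH fun _ : Mat g => c := by
  exact ⟨fun _ _ => analyticAt_const, MB.const _⟩

theorem MH.add (hh : MH h) (hh' : MH h') : MH fun τ => h τ + h' τ := by
  exact ⟨hh.an.add hh'.an, (hh.gr.add hh'.gr).of_le fun _ _ => norm_add_le _ _⟩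

theorem MH.mul (hh : MH h) (hh' : MH h') : MH fun τ => h τ * h' τ := by
  exact ⟨hh.an.mul hh'.an, (hh.gr.mul hh'.gr (fun _ _ => norm_nonneg _)
    fun _ _ => norm_nonneg _).of_le fun _ _ => norm_mul_le _ _⟩

theorem MH.pow (hh : MH h) (n : ℕ) : MH fun τ => h τ ^ n := by
  induction n with
  | zero => simpa only [pow_zero] using MH.const 1
  | succ n ih => simpa only [pow_succ] using ih.mul hh

theorem MH.sum {ι : Type} (s : Finset ι) {F : ι → Mat g → ℂ} (hF : ∀ i ∈ s, MH (F i)) :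
    MH fun τ => ∑ i ∈ s, F i τ := by
  classical
  induction s using Finset.induction_on with
  | empty => simpa only [Finset.sum_empty] using MH.const 0
  | insert a s ha ih =>
    simpa only [Finset.sum_insert ha] using (hF a (Finset.mem_insert_self a s)).add
      (ih fun i hi => hF i (Finset.mem_insert_of_mem hi))

theorem MH.prod {ι : Type} (s : Finset ι) {F : ι → Mat g → ℂ} (hF : ∀ i ∈ s, MH (F i)) :
    MH fun τ => ∏ i ∈ s, F i τ := by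
  classical
  induction s using Finset.induction_on with
  | empty => simpa only [Finset.prod_empty] using MH.const 1
  | insert a s ha ih =>
    simpa only [Finset.prod_insert ha] using (hF a (Finset.mem_insert_self a s)).mul
      (ih fun i hi => hF i (Finset.mem_insert_of_mem hi))

lemma xaact_entry (a b : Fin g) : MH fun τ : Mat g => τ a b :=
  ⟨fun τ _ => xsact_an_entry τ a b, 1, 1, fun τ _ r hr => by
    rw [one_mul, pow_one]
    exact ((norm_le_pi_norm (τ a) b).trans (norm_le_pi_norm τ a)).trans hr.2.1⟩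

lemma xaact_aff (P Q : Matrix (Fin g) (Fin g) ℂ) (a b : Fin g) :
    MH fun σ : Mat g => (P * Matrix.of σ + Q) a b := by
  simp only [Matrix.add_apply, Matrix.mul_apply, Matrix.of_apply]
  exact (MH.sum _ fun i _ => (MH.const _).mul (xaact_entry i b)).add (MH.const _)

lemma xaact_det {F : Mat g → Matrix (Fin g) (Fin g) ℂ} (h : ∀ a b, MH fun τ => F τ a b) :
    MH fun τ => (F τ).det := by
  simp only [det_apply']
  exact MH.sum _ fun σ _ => (MH.const _).mul (MH.prod _ fun i _ => h _ _)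

lemma xaact_adj {F : Mat g → Matrix (Fin g) (Fin g) ℂ} (h : ∀ a b, MH fun τ => F τ a b)
    (a b : Fin g) : MH fun τ => (F τ).adjugate a b := by
  simp only [adjugate_apply]
  refine xaact_det fun i j => ?_
  simp only [updateRow_apply]
  split_ifs
  exacts [MH.const _, h _ _]

lemma xaact_CD (γ : Sp g) (w : Fin g → ℝ) :
    w ⬝ᵥ (rC γ * (rC γ)ᵀ + rD γ * (rD γ)ᵀ) *ᵥ w =
      (rC γ)ᵀ *ᵥ w ⬝ᵥ (rC γ)ᵀ *ᵥ w + (rD γ)ᵀ *ᵥ w ⬝ᵥ (rD γ)ᵀ *ᵥ w := by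
  rw [add_mulVec, dotProduct_add, ← mulVec_mulVec, ← mulVec_mulVec, dotProduct_mulVec w,
    dotProduct_mulVec w, ← mulVec_transpose, ← mulVec_transpose]

lemma xaact_detY (γ : Sp g) : MB fun τ => (Ym (act γ τ)).det := by
  obtain ⟨C, hC, h⟩ := Hq_lower g
  refine ⟨C ^ g, 3 * g, fun τ hτ r hr => ?_⟩
  have hY := Ym_posDef (act_mem γ hτ)
  have h1 := det_mono (A := (C * r ^ 3) • (Ym (act γ τ))⁻¹)
    (IsSymm.smul (isHermitian_iff_isSymm.1 hY.inv.isHermitian) _) (CD_posDef γ) fun w => by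
      rw [xaact_CD, smul_mulVec, dotProduct_smul, smul_eq_mul, im_act γ hτ]
      exact h τ hτ r hr _ _
  have h2 := (one_le_det_CD γ).trans h1
  rw [det_smul, Fintype.card_fin, det_nonsing_inv, Ring.inverse_eq_inv',
    ← div_eq_mul_inv, one_le_div hY.det_pos, mul_pow, ← pow_mul] at h2
  exact h2

lemma xaact_inv (γ : Sp g) : MH fun τ => ((jac γ τ).det)⁻¹ := by
  refine ⟨fun τ hτ => ((xaact_det (xaact_aff _ _)).an τ hτ).inv (jac_det γ hτ),
    ((MB.const 1).add ((xaact_detY γ).mul MB_det_inv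
      (fun τ hτ => (Ym_posDef (act_mem γ hτ)).det_pos.le)
      fun τ hτ => inv_nonneg.2 (Ym_posDef hτ).det_pos.le)).of_le fun τ hτ => ?_⟩
  have h1 := (Ym_posDef (act_mem γ hτ)).det_pos
  rw [← det_act γ hτ, mul_inv, mul_inv_cancel_left₀ h1.ne', norm_inv, ← inv_pow]
  nlinarith [sq_nonneg (‖(jac γ τ).det‖⁻¹ - 1), sq_nonneg ‖(jac γ τ).det‖⁻¹]

lemma xaact_act (γ : Sp g) (a b : Fin g) : MH fun τ => act γ τ a b := by
  have h : ∀ τ, act γ τ a b = ∑ i, ((cx γ).toBlocks₁₁ * Matrix.of τ + (cx γ).toBlocks₁₂) a i *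
      (((jac γ τ).det)⁻¹ * (jac γ τ).adjugate i b) := fun τ => by
    refine (congrFun (congrFun (act_eq γ τ) a) b).trans ?_
    rw [Matrix.mul_apply, Matrix.inv_def, Ring.inverse_eq_inv']
    rfl
  simp only [h]
  exact MH.sum _ fun i _ => (xaact_aff _ _ a i).mul
    ((xaact_inv γ).mul (xaact_adj (xaact_aff _ _) i b))

lemma xaact_sum {ι : Type} (s : Finset ι) {F : ι → Mat g → ℝ} (hF : ∀ i ∈ s, MB (F i)) :
    MB fun τ => ∑ i ∈ s, F i τ := by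
  classical
  induction s using Finset.induction_on with
  | empty => simpa only [Finset.sum_empty] using MB.const 0
  | insert a s ha ih =>
    simpa only [Finset.sum_insert ha] using (hF a (Finset.mem_insert_self a s)).add
      (ih fun i hi => hF i (Finset.mem_insert_of_mem hi))

lemma xaact_norm (γ : Sp g) : MB fun τ => ‖act γ τ‖ := by
  refine (xaact_sum Finset.univ fun a _ => xaact_sum Finset.univ fun b _ =>
    (xaact_act γ a b).gr).of_le fun τ _ => ?_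
  have h0 : 0 ≤ ∑ a, ∑ b, ‖act γ τ a b‖ := by positivity
  refine (pi_norm_le_iff_of_nonneg h0).2 fun a => (pi_norm_le_iff_of_nonneg h0).2 fun b => ?_
  exact (Finset.single_le_sum (f := fun b => ‖act γ τ a b‖) (fun _ _ => norm_nonneg _)
    (Finset.mem_univ b)).trans (Finset.single_le_sum (f := fun a => ∑ b, ‖act γ τ a b‖)
      (fun _ _ => by positivity) (Finset.mem_univ a))

lemma xaact_quad (M : Matrix (Fin g) (Fin g) ℝ) :
    ∃ K : ℝ, 0 < K ∧ ∀ w : Fin g → ℝ, w ⬝ᵥ M *ᵥ w ≤ K * (w ⬝ᵥ w) := by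
  refine ⟨∑ i, ∑ j, |M i j| + 1, by positivity, fun w => ?_⟩
  have h1 : ∀ i, w i * w i ≤ w ⬝ᵥ w := fun i =>
    Finset.single_le_sum (f := fun i => w i * w i) (fun _ _ => mul_self_nonneg _)
      (Finset.mem_univ i)
  have h0 : 0 ≤ w ⬝ᵥ w := Finset.sum_nonneg fun _ _ => mul_self_nonneg _
  rw [add_mul, one_mul, Finset.sum_mul]
  refine le_trans (Finset.sum_le_sum fun i _ => ?_) (le_add_of_nonneg_right h0)
  rw [Finset.sum_mul, mulVec, dotProduct, Finset.mul_sum]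
  refine Finset.sum_le_sum fun j _ => ?_
  have h2 : |w i * w j| ≤ w ⬝ᵥ w := abs_le.2 ⟨by
    nlinarith [h1 i, h1 j, sq_nonneg (w i + w j)], by nlinarith [h1 i, h1 j, sq_nonneg (w i - w j)]⟩
  rw [mul_left_comm]
  refine (le_abs_self _).trans ?_
  rw [abs_mul]
  exact mul_le_mul_of_nonneg_left h2 (abs_nonneg _)

lemma xaact_low {Y : Matrix (Fin g) (Fin g) ℝ} (hY : Y.PosDef) {c : ℝ} (hc : 0 < c)
    (h : ∀ w, w ⬝ᵥ Y⁻¹ *ᵥ w ≤ c * (w ⬝ᵥ w)) (v : Fin g → ℝ) :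
    c⁻¹ * (v ⬝ᵥ v) ≤ v ⬝ᵥ Y *ᵥ v := by
  have hs : Yᵀ = Y := isHermitian_iff_isSymm.1 hY.isHermitian
  have h1 : Y *ᵥ Y⁻¹ *ᵥ v = v := by
    rw [mulVec_mulVec, mul_nonsing_inv _ (isUnit_iff_ne_zero.2 hY.det_pos.ne'), one_mulVec]
  have h2 : (Y⁻¹ *ᵥ v) ⬝ᵥ Y *ᵥ v = v ⬝ᵥ v := by
    rw [dotProduct_mulVec, ← mulVec_transpose, hs, h1]
  have h3 := hY.posSemidef.dotProduct_mulVec_nonneg (v - c⁻¹ • Y⁻¹ *ᵥ v)
  rw [star_trivial, mulVec_sub, mulVec_smul, h1, sub_dotProduct, dotProduct_sub, dotProduct_sub,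
    smul_dotProduct, smul_dotProduct, dotProduct_smul, dotProduct_smul, h2,
    dotProduct_comm (Y⁻¹ *ᵥ v) v] at h3
  simp only [smul_eq_mul] at h3
  have h4 := mul_le_mul_of_nonneg_left (h v) (inv_nonneg.2 hc.le)
  rw [inv_mul_cancel_left₀ hc.ne'] at h4
  have h5 := mul_le_mul_of_nonneg_left h4 (inv_nonneg.2 hc.le)
  linarith

lemma xaact_YG (γ : Sp g) : ∃ K : ℝ, 0 < K ∧ ∀ τ ∈ Siegel g, ∀ r, Bd τ r →
    YG (act γ τ) (K * r ^ 3)⁻¹ := by
  obtain ⟨C, hC, h⟩ := Hq_upper g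
  obtain ⟨K, hK, hK'⟩ := xaact_quad (rC γ * (rC γ)ᵀ + rD γ * (rD γ)ᵀ)
  refine ⟨C * K, mul_pos hC hK, fun τ hτ r hr => ?_⟩
  have := hr.1
  refine xaact_low (Ym_posDef (act_mem γ hτ)) (c := C * K * r ^ 3) (by positivity) fun w => ?_
  rw [im_act γ hτ, mul_right_comm C K, mul_assoc _ K]
  refine (h τ hτ r hr _ _).trans (mul_le_mul_of_nonneg_left ?_
    (mul_nonneg hC.le (pow_nonneg (zero_le_one.trans this) 3)))
  rw [← xaact_CD]
  exact hK' w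

theorem Bd_act (γ : Sp g) : ∃ (C : ℝ) (n : ℕ), 1 ≤ C ∧ ∀ τ ∈ Siegel g, ∀ r, Bd τ r →
    Bd (act γ τ) (C * r ^ n) := by
  obtain ⟨C, n, hC⟩ := xaact_norm γ
  obtain ⟨K, hK, hK'⟩ := xaact_YG γ
  have h1 : 1 ≤ max 1 (max C K) := le_max_left _ _
  refine ⟨max 1 (max C K), n + 3, h1, fun τ hτ r hr => ⟨?_, ?_, (hK' τ hτ r hr).mono ?_⟩⟩
  · exact one_le_mul_of_one_le_of_one_le h1 (one_le_pow₀ hr.1)
  · exact (hC τ hτ r hr).trans (xaact_le hr.1 ((le_max_left _ _).trans (le_max_right _ _))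
      (zero_le_one.trans h1) (by omega))
  · have := hr.1
    exact inv_anti₀ (by positivity) (xaact_le hr.1 ((le_max_right _ _).trans (le_max_right _ _))
      (zero_le_one.trans h1) (by omega))

theorem MB.comp_act (hf : MB f) (γ : Sp g) : MB fun τ => f (act γ τ) := by
  obtain ⟨C, n, hC⟩ := hf
  obtain ⟨K, m, -, hK⟩ := Bd_act γ
  refine ⟨C * K ^ n, m * n, fun τ hτ r hr => ?_⟩
  rw [pow_mul, mul_assoc, ← mul_pow]
  exact hC _ (act_mem γ hτ) _ (hK τ hτ r hr)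

theorem MH.comp_act (hh : MH h) (γ : Sp g) : MH fun τ => h (act γ τ) := by
  exact ⟨fun τ hτ => (hh.an _ (act_mem γ hτ)).comp (act_analytic γ hτ), hh.gr.comp_act γ⟩

/-- translations -/
theorem exists_tr (S : Fin g → Fin g → ℤ) (hS : ∀ i j, S i j = S j i) :
    ∃ γ : Sp g, (∀ τ : Mat g, act γ τ = τ + fun i j => (S i j : ℂ)) ∧
      (∀ τ : Mat g, jac γ τ = 1) ∧ ∀ M : ℕ, (∀ i j, (M : ℤ) ∣ S i j) → γ ∈ Gam g M := by
  have hs : (Matrix.of S)ᵀ = Matrix.of S := by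
    ext i j
    exact hS j i
  let γ : Sp g := ⟨fromBlocks 1 (Matrix.of S) 0 1, SymplecticGroup.mem_iff.2 (by
    rw [J, fromBlocks_transpose, fromBlocks_multiply, fromBlocks_multiply, hs]
    simp)⟩
  have hc : cx γ = fromBlocks 1 (Matrix.of fun i j => (S i j : ℂ)) 0 1 := by
    change (fromBlocks 1 (Matrix.of S) 0 1).map _ = _
    rw [fromBlocks_map, Matrix.map_one _ Int.cast_zero Int.cast_one,
      Matrix.map_zero _ Int.cast_zero]
    rfl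
  have hj : ∀ τ : Mat g, jac γ τ = 1 := fun τ => by
    rw [jac, hc, toBlocks_fromBlocks₂₁, toBlocks_fromBlocks₂₂, Matrix.zero_mul, zero_add]
  refine ⟨γ, fun τ => Matrix.of.injective ?_, hj, fun M hM => mem_Gam.2 ?_⟩
  · rw [act_eq, hj, hc, toBlocks_fromBlocks₁₁, toBlocks_fromBlocks₁₂, inv_one, Matrix.mul_one,
      Matrix.one_mul]
    rfl
  · rw [← fromBlocks_one]
    rintro (a | a) (b | b) <;> simp [γ, hM]

theorem exists_trE (a b : Fin g) (M : ℕ) :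
    ∃ γ ∈ Gam g M, ∀ τ : Mat g, act γ τ = τ + (M : ℂ) • sE a b := by
  obtain ⟨γ, h1, -, h2⟩ := exists_tr
    (fun i j => if (i = a ∧ j = b) ∨ (i = b ∧ j = a) then (M : ℤ) else 0)
    fun i j => if_congr (by tauto) rfl rfl
  refine ⟨γ, h2 M fun i j => ?_, fun τ => (h1 τ).trans ?_⟩
  · split_ifs
    exacts [dvd_rfl, dvd_zero _]
  · congr 1
    ext i j
    simp only [sE, Pi.smul_apply, smul_eq_mul]
    split_ifs <;> simp

theorem Gam_mono {M M' : ℕ} (h : M ∣ M') : Gam g M' ≤ Gam g M := by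
  exact fun γ hγ => mem_Gam.2 fun a b => (Int.natCast_dvd_natCast.2 h).trans (mem_Gam.1 hγ a b)

theorem Gam_normal (g M : ℕ) : (Gam g M).Normal := by
  exact MonoidHom.normal_ker _

theorem exists_reps (g : ℕ) {M : ℕ} (hM : M ≠ 0) :
    ∃ T : Finset (Sp g), ∀ γ' : Sp g, ∃ γ ∈ T, ∃ η ∈ Gam g M, γ' = η * γ := by
  classical
  have := Gam_finiteIndex g hM
  have := Fintype.ofFinite (Sp g ⧸ Gam g M)
  refine ⟨Finset.univ.image fun q : Sp g ⧸ Gam g M => q.out, fun γ => ?_⟩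
  obtain ⟨η, hη⟩ := QuotientGroup.mk_out_eq_mul (Gam g M) γ
  refine ⟨_, Finset.mem_image_of_mem _ (Finset.mem_univ (γ : Sp g ⧸ Gam g M)), γ * η.1⁻¹ * γ⁻¹,
    (Gam_normal g M).conj_mem _ (inv_mem η.2) γ, ?_⟩
  rw [hη]
  group

end Pool.Agent.MP_cf0a82_ag

end
end

section

open Complex Filter Topology Matrix Function

noncomputable section

namespace Pool.Agent.MP_cf0a82_ag

open Pool.Agent.MP_f58063_ag

variable {g : ℕ} {τ : Mat g}

lemma xaes_det {A B : Matrix (Fin g) (Fin g) ℝ} (hA : A.PosDef) (hB : B.PosDef) {c : ℝ}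
    (h : ∀ w, w ⬝ᵥ B *ᵥ w ≤ c * (w ⬝ᵥ A⁻¹ *ᵥ w)) : B.det * A.det ≤ c ^ g := by
  have hs : (c • A⁻¹).IsSymm := by
    have h1 : A⁻¹.IsSymm := by
      have := hA.inv.isHermitian
      rwa [Matrix.IsHermitian, conjTranspose_eq_transpose_of_trivial] at this
    exact h1.smul c
  have h2 := det_mono hs hB (fun v => by
    rw [Matrix.smul_mulVec, dotProduct_smul, smul_eq_mul]; exact h v)
  rw [det_smul, Fintype.card_fin, det_nonsing_inv, Ring.inverse_eq_inv] at h2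
  have h3 := hA.det_pos
  rwa [← div_eq_mul_inv, le_div_iff₀ h3] at h2

lemma xaes_quad (A : Matrix (Fin g) (Fin g) ℝ) (w : Fin g → ℝ) :
    w ⬝ᵥ (A * Aᵀ) *ᵥ w = (Aᵀ *ᵥ w) ⬝ᵥ (Aᵀ *ᵥ w) := by
  rw [← mulVec_mulVec, dotProduct_mulVec, ← mulVec_transpose]

theorem Es_bdd (hτ : τ ∈ Siegel g) :
    BddAbove (Set.range fun γ : Sp g => (Ym (act γ τ)).det) := by
  obtain ⟨C, -, hC⟩ := Hq_lower g
  obtain ⟨r, hr⟩ := exists_Bd hτ
  refine ⟨(C * r ^ 3) ^ g, ?_⟩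
  rintro _ ⟨γ, rfl⟩
  have hA := Ym_posDef (act_mem γ hτ)
  have h1 := xaes_det hA (CD_posDef γ) (c := C * r ^ 3) (fun w => by
    rw [add_mulVec, dotProduct_add, xaes_quad, xaes_quad, im_act γ hτ]
    exact hC τ hτ r hr _ _)
  exact (le_mul_of_one_le_left hA.det_pos.le (one_le_det_CD γ)).trans h1

theorem le_Es (γ : Sp g) (hτ : τ ∈ Siegel g) : (Ym (act γ τ)).det ≤ Es τ :=
  le_ciSup (Es_bdd hτ) γ

theorem Es_act (γ : Sp g) (hτ : τ ∈ Siegel g) : Es (act γ τ) = Es τ := by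
  unfold Es
  rw [← (Equiv.mulRight γ).surjective.iSup_comp fun γ' : Sp g => (Ym (act γ' τ)).det]
  simp only [Equiv.coe_mulRight, act_mul _ _ hτ]

lemma xaes_le (hτ : τ ∈ Siegel g) : (Ym τ).det ≤ Es τ := by
  have := le_Es 1 hτ
  rwa [act_one] at this

theorem Es_pos (hτ : τ ∈ Siegel g) : 0 < Es τ :=
  (Ym_posDef hτ).det_pos.trans_le (xaes_le hτ)

theorem Es_shift (g : ℕ) {δ : ℝ} (hδ : 0 < δ) (R : ℝ) : ∃ K : ℝ, 0 < K ∧ ∀ τ ∈ Siegel g,
    YG τ δ → ∀ x : ℝ, |x| ≤ R → Es (tr1 τ (x - δ / 2 * I)) ≤ K * Es τ := by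
  obtain ⟨K, hK0, hK⟩ := Hq_shift g hδ R
  refine ⟨K ^ g, pow_pos hK0 g, fun τ hτ hY x hx => ciSup_le fun γ => ?_⟩
  have h2 : tr1 τ (x - δ / 2 * I) ∈ Siegel g := by
    refine tr1_mem (mem_Siegel.1 hτ).1 hY ?_
    have : ((x : ℂ) - δ / 2 * I).im = - (δ / 2) := by simp
    rw [this]
    linarith
  have hA := Ym_posDef (act_mem γ h2)
  have hB := Ym_posDef (act_mem γ hτ)
  have h1 := xaes_det hA hB.inv (c := K) (fun w => by
    rw [im_act γ hτ, im_act γ h2]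
    exact hK τ hτ hY x hx _ _)
  rw [det_nonsing_inv, Ring.inverse_eq_inv, inv_mul_le_iff₀ hB.det_pos] at h1
  exact (h1.trans_eq (mul_comm _ _)).trans
    (mul_le_mul_of_nonneg_left (le_Es γ hτ) (pow_pos hK0 g).le)

/-- on a Siegel set the height is bounded by the invariant height -/
theorem Bd_Es (g : ℕ) {δ : ℝ} (hδ : 0 < δ) : ∃ K : ℝ, 0 < K ∧ ∀ τ ∈ Siegel g, YG τ δ →
    (∀ i j, |(τ i j).re| ≤ 1 / 2) → Bd τ (K * Es τ) := by
  have hp := pow_pos hδ g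
  have hi := inv_pos.2 hδ
  refine ⟨(1 + δ + δ⁻¹) / δ ^ g, by positivity, fun τ hτ hY hre => ?_⟩
  have he : (1 + δ + δ⁻¹) / δ ^ g * Es τ =
      Es τ / δ ^ g + δ * (Es τ / δ ^ g) + δ⁻¹ * (Es τ / δ ^ g) := by ring
  have hq : 1 ≤ Es τ / δ ^ g := (one_le_div hp).2 ((pow_le_det hτ hδ hY).trans (xaes_le hτ))
  rw [he]
  have h1 : 0 ≤ δ * (Es τ / δ ^ g) := by positivity
  have h2 : δ⁻¹ ≤ δ⁻¹ * (Es τ / δ ^ g) := le_mul_of_one_le_right hi.le hq
  refine ⟨by linarith, ?_, hY.mono ?_⟩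
  · refine (pi_norm_le_iff_of_nonneg (by linarith)).2 fun i =>
      (pi_norm_le_iff_of_nonneg (by linarith)).2 fun j => ?_
    have h3 := Complex.norm_le_abs_re_add_abs_im (τ i j)
    have h4 : |(τ i j).im| ≤ δ * (Es τ / δ ^ g) := by
      rw [← mul_div_assoc, le_div_iff₀ hp]
      exact (entry_le_det hτ hδ hY i j).trans (mul_le_mul_of_nonneg_left (xaes_le hτ) hδ.le)
    have h5 := hre i j
    linarith
  · exact inv_le_of_inv_le₀ hδ (by linarith)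

end Pool.Agent.MP_cf0a82_ag

end
end

section

open Complex Filter Topology Matrix Function

noncomputable section

namespace Pool.Agent.MP_cf0a82_ag

open Pool.Agent.MP_f58063_ag

variable {g : ℕ}

theorem xbmfd_card (g : ℕ) : Fintype.card (Sym2 (Fin g)) = NN g := by
  rw [Sym2.card, Fintype.card_fin, Nat.choose_two_right, Nat.add_sub_cancel, mul_comm]

theorem sym_chart (g : ℕ) : ∃ (ι : (Fin (NN g) → ℂ) →L[ℂ] Mat g) (π : Mat g →L[ℂ] Fin (NN g) → ℂ),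
    (∀ x, IsSy (ι x)) ∧ (∀ x, π (ι x) = x) ∧ ∀ S, IsSy S → ι (π S) = S := by
  obtain ⟨e⟩ : Nonempty (Sym2 (Fin g) ≃ Fin (NN g)) := ⟨Fintype.equivFinOfCardEq (xbmfd_card g)⟩
  have hr : ∀ z : Sym2 (Fin g), ∃ p : Fin g × Fin g, s(p.1, p.2) = z := fun z => by
    induction z using Sym2.ind with
    | h a b => exact ⟨(a, b), rfl⟩
  choose r hr using hr
  refine ⟨ContinuousLinearMap.pi fun i => ContinuousLinearMap.pi fun j =>
      ContinuousLinearMap.proj (R := ℂ) (φ := fun _ : Fin (NN g) => ℂ) (e s(i, j)),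
    ContinuousLinearMap.pi fun k =>
      (ContinuousLinearMap.proj (R := ℂ) (φ := fun _ : Fin g => ℂ) (r (e.symm k)).2).comp
        (ContinuousLinearMap.proj (R := ℂ) (φ := fun _ : Fin g => Fin g → ℂ) (r (e.symm k)).1),
    fun x i j => ?_, fun x => ?_, fun S hS => ?_⟩
  · change x (e s(i, j)) = x (e s(j, i))
    rw [Sym2.eq_swap]
  · funext k
    change x (e s((r (e.symm k)).1, (r (e.symm k)).2)) = x k
    rw [hr, Equiv.apply_symm_apply]
  · funext i j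
    change S (r (e.symm (e s(i, j)))).1 (r (e.symm (e s(i, j)))).2 = S i j
    rw [Equiv.symm_apply_apply]
    rcases Sym2.eq_iff.1 (hr s(i, j)) with ⟨h1, h2⟩ | ⟨h1, h2⟩
    · rw [h1, h2]
    · rw [h1, h2, hS]

theorem xbmfd_convex (g : ℕ) : Convex ℝ (Siegel g) := by
  intro x hx y hy a b ha hb hab
  refine ⟨fun i j => ?_, fun v hv => ?_⟩
  · simp only [Pi.add_apply, Pi.smul_apply, hx.1 i j, hy.1 i j]
  · have h1 := hx.2 v hv
    have h2 := hy.2 v hv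
    have e : ∑ i, ∑ j, v i * ((a • x + b • y) i j).im * v j =
        a * ∑ i, ∑ j, v i * (x i j).im * v j + b * ∑ i, ∑ j, v i * (y i j).im * v j := by
      simp only [Finset.mul_sum, ← Finset.sum_add_distrib]
      refine Finset.sum_congr rfl fun i _ => Finset.sum_congr rfl fun j _ => ?_
      simp only [Pi.add_apply, Pi.smul_apply, add_im, smul_im, smul_eq_mul]
      ring
    rw [e]
    rcases ha.eq_or_lt with h | h
    · have : b = 1 := by linarith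
      rw [← h, this]
      linarith
    · have := mul_pos h h1
      have := mul_nonneg hb h2.le
      linarith

theorem isMfd_siegel (g : ℕ) : IsMfd (Siegel g) (NN g) := by
  refine ⟨(xbmfd_convex g).isPreconnected, fun τ hτ => ?_⟩
  obtain ⟨ι, π, h1, h2, h3⟩ := sym_chart g
  have hd : HasFDerivAt (fun x => τ + ι x) ι 0 := ι.hasFDerivAt.const_add τ
  have hc : Tendsto (fun x => τ + ι x) (𝓝 0) (𝓝 τ) := by
    have := hd.continuousAt.tendsto
    simpa using this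
  refine ⟨fun x => τ + ι x, by simp, analyticAt_const.add (ι.analyticAt 0), ?_, ?_⟩
  · rw [hd.fderiv]
    exact LeftInverse.injective h2
  · apply le_antisymm
    · refine tendsto_nhdsWithin_iff.2 ⟨hc, ?_⟩
      filter_upwards [hc.eventually (isOpen_PosIm.mem_nhds (Siegel_sub hτ))] with x hx
      refine ⟨fun i j => ?_, hx⟩
      simp only [Pi.add_apply, hτ.1 i j, h1 x i j]
    · have hp : Tendsto (fun σ => π (σ - τ)) (𝓝[Siegel g] τ) (𝓝 0) := by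
        have : Continuous fun σ : Mat g => π (σ - τ) := by fun_prop
        have := (this.tendsto τ).mono_left (nhdsWithin_le_nhds (s := Siegel g))
        simpa using this
      have he : (fun σ => τ + ι (π (σ - τ))) =ᶠ[𝓝[Siegel g] τ] id := by
        filter_upwards [self_mem_nhdsWithin] with σ hσ
        rw [h3 (σ - τ) fun i j => by simp only [Pi.sub_apply, hτ.1 i j, hσ.1 i j]]
        simp
      calc 𝓝[Siegel g] τ = map id (𝓝[Siegel g] τ) := map_id.symm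
        _ = map (fun σ => τ + ι (π (σ - τ))) (𝓝[Siegel g] τ) := (map_congr he).symm
        _ = map (fun x => τ + ι x) (map (fun σ => π (σ - τ)) (𝓝[Siegel g] τ)) := rfl
        _ ≤ _ := map_mono hp

/-- polynomial functions of the entries of a matrix -/
def xbmfdPoly (F : Matrix (LL g) (LL g) ℂ → ℂ) : Prop :=
  ∃ P : MvPolynomial (LL g × LL g) ℂ, ∀ M, F M = MvPolynomial.eval (fun a => M a.1 a.2) P

theorem xbmfd_comp {σ κ : Type} (P : MvPolynomial σ ℂ) (Q : σ → MvPolynomial κ ℂ) (x : κ → ℂ) :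
    MvPolynomial.eval x (MvPolynomial.bind₁ Q P) =
      MvPolynomial.eval (fun a => MvPolynomial.eval x (Q a)) P := by
  induction P using MvPolynomial.induction_on with
  | C a => simp
  | add p q hp hq => simp only [map_add, hp, hq]
  | mul_X p i hp => simp only [map_mul, hp, MvPolynomial.bind₁_X_right, MvPolynomial.eval_X]

theorem xbmfd_left {F : Matrix (LL g) (LL g) ℂ → ℂ} (hF : xbmfdPoly F)
    (A : Matrix (LL g) (LL g) ℂ) : xbmfdPoly fun M => F (A * M) := by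
  obtain ⟨P, hP⟩ := hF
  refine ⟨MvPolynomial.bind₁ (fun a : LL g × LL g =>
    ∑ k, MvPolynomial.C (A a.1 k) * MvPolynomial.X (k, a.2)) P, fun M => ?_⟩
  rw [xbmfd_comp]
  refine (hP _).trans ?_
  congr 2
  funext a
  simp only [Matrix.mul_apply, map_sum, map_mul, MvPolynomial.eval_C, MvPolynomial.eval_X]

theorem xbmfd_right {F : Matrix (LL g) (LL g) ℂ → ℂ} (hF : xbmfdPoly F)
    (A : Matrix (LL g) (LL g) ℂ) : xbmfdPoly fun M => F (M * A) := by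
  obtain ⟨P, hP⟩ := hF
  refine ⟨MvPolynomial.bind₁ (fun a : LL g × LL g =>
    ∑ k, MvPolynomial.X (a.1, k) * MvPolynomial.C (A k a.2)) P, fun M => ?_⟩
  rw [xbmfd_comp]
  refine (hP _).trans ?_
  congr 2
  funext a
  simp only [Matrix.mul_apply, map_sum, map_mul, MvPolynomial.eval_C, MvPolynomial.eval_X]

theorem xbmfd_sv {F : Matrix (LL g) (LL g) ℂ → ℂ} (hF : xbmfdPoly F) :
    ∃ P : MvPolynomial (LL g) ℂ, ∀ v, F (1 + sv v) = MvPolynomial.eval v P := by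
  obtain ⟨P, hP⟩ := hF
  refine ⟨MvPolynomial.bind₁ (fun a : LL g × LL g =>
    MvPolynomial.C ((1 : Matrix (LL g) (LL g) ℂ) a.1 a.2) +
      ∑ k, MvPolynomial.X a.1 * MvPolynomial.X k * MvPolynomial.C (J (Fin g) ℂ k a.2)) P,
    fun v => ?_⟩
  rw [xbmfd_comp, hP]
  congr 2
  funext a
  simp only [sv, Matrix.add_apply, Matrix.mul_apply, vecMulVec_apply, map_add, map_sum, map_mul,
    MvPolynomial.eval_C, MvPolynomial.eval_X]

theorem xbmfd_pow (v : LL g → ℤ) (n : ℕ) : (1 + sv v) ^ n = 1 + (n : ℤ) • sv v := by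
  induction n with
  | zero => simp
  | succ n ih =>
    rw [pow_succ, ih, Matrix.add_mul, Matrix.one_mul, Matrix.mul_add, Matrix.mul_one,
      Matrix.smul_mul, xsalgc_sq, smul_zero, add_zero, Nat.cast_succ, add_smul, one_smul]
    abel

theorem xbmfd_cast (v : LL g → ℤ) (n : ℕ) :
    ((1 + ((n * n : ℕ) : ℤ) • sv v).map (Int.cast : ℤ → ℂ)) = 1 + sv fun i => (n * v i : ℂ) := by
  ext a b
  have hJ : ∀ k, ((J (Fin g) ℤ k b : ℤ) : ℂ) = J (Fin g) ℂ k b := fun k => by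
    rcases k with k | k <;> rcases b with b | b <;> simp [J, one_apply, apply_ite Int.cast]
  simp only [map_apply, sv, Matrix.add_apply, Matrix.smul_apply, Matrix.mul_apply,
    vecMulVec_apply, smul_eq_mul, Finset.mul_sum]
  push_cast
  congr 1
  · simp [one_apply, apply_ite Int.cast]
  · refine Finset.sum_congr rfl fun k _ => ?_
    rw [hJ]
    ring

theorem xbmfd_cx_mul (γ δ : Sp g) : cx (γ * δ) = cx γ * cx δ :=
  Matrix.map_mul (f := Int.castRingHom ℂ)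

/-- the Zariski closure of `Γ` -/
def xbmfdZ (Γ : Subgroup (Sp g)) (M : Matrix (LL g) (LL g) ℂ) : Prop :=
  ∀ F, xbmfdPoly F → (∀ γ ∈ Γ, F (cx γ) = 0) → F M = 0

theorem xbmfd_z1 {Γ : Subgroup (Sp g)} {γ : Sp g} (hγ : γ ∈ Γ) {M : Matrix (LL g) (LL g) ℂ}
    (hM : xbmfdZ Γ M) : xbmfdZ Γ (cx γ * M) := by
  intro F hF h0
  refine hM (fun M => F (cx γ * M)) (xbmfd_left hF (cx γ)) fun δ hδ => ?_
  have := h0 _ (Γ.mul_mem hγ hδ)
  rwa [xbmfd_cx_mul] at this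

theorem xbmfd_z2 {Γ : Subgroup (Sp g)} {A M : Matrix (LL g) (LL g) ℂ} (hA : xbmfdZ Γ A)
    (hM : xbmfdZ Γ M) : xbmfdZ Γ (A * M) := by
  intro F hF h0
  exact hA (fun A => F (A * M)) (xbmfd_right hF M) fun δ hδ => xbmfd_z1 hδ hM F hF h0

theorem xbmfd_int {Γ : Subgroup (Sp g)} (hΓ : Γ.FiniteIndex) (w : LL g → ℤ) :
    ∃ γ ∈ Γ, cx γ = 1 + sv fun i => ((Γ.index.factorial : ℕ) * w i : ℂ) := by
  have hu : 1 + sv w ∈ symplecticGroup (Fin g) ℤ := by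
    simpa using one_add_sv w 1
  obtain ⟨u, hu'⟩ : ∃ u : Sp g, u.1 = 1 + sv w := ⟨⟨_, hu⟩, rfl⟩
  refine ⟨u ^ (Γ.index.factorial * Γ.index.factorial),
    Subgroup.pow_mem_of_index_ne_zero_of_dvd hΓ.index_ne_zero u fun m h1 h2 =>
      (Nat.dvd_factorial h1 h2).mul_right _, ?_⟩
  rw [← xbmfd_cast, ← xbmfd_pow, ← hu', cx, SubmonoidClass.coe_pow]

theorem xbmfd_z3 {Γ : Subgroup (Sp g)} (hΓ : Γ.FiniteIndex) (v : LL g → ℂ) :
    xbmfdZ Γ (1 + sv v) := by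
  intro F hF h0
  obtain ⟨Q, hQ⟩ := xbmfd_sv hF
  have hN0 : ((Γ.index.factorial : ℕ) : ℂ) ≠ 0 := Nat.cast_ne_zero.2 (Nat.factorial_ne_zero _)
  have hQ0 : Q = 0 := by
    refine MvPolynomial.funext_set
      (fun _ => Set.range fun m : ℤ => ((Γ.index.factorial : ℕ) * m : ℂ))
      (fun _ => Set.infinite_range_of_injective fun a b hab => ?_) fun x hx => ?_
    · exact Int.cast_injective (mul_left_cancel₀ hN0 hab)
    · have hx' : ∀ i, ∃ m : ℤ, ((Γ.index.factorial : ℕ) * m : ℂ) = x i :=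
        fun i => hx i (Set.mem_univ i)
      choose w hw using hx'
      obtain ⟨γ, hγ, e⟩ := xbmfd_int hΓ w
      have h := h0 γ hγ
      rw [e, hQ, funext hw] at h
      rw [h, map_zero]
  rw [hQ, hQ0, map_zero]

theorem bigMon_siegel (g : ℕ) : BigMon (Siegel g) := by
  intro Γ hΓ P hP M hM
  have z0 : xbmfdZ Γ 1 := by
    have := xbmfd_z3 hΓ 0
    rwa [sv, vecMulVec_zero, Matrix.zero_mul, add_zero] at this
  have hZ : xbmfdZ Γ M := sp_ind z0 (fun v M h => xbmfd_z2 (xbmfd_z3 hΓ v) h) M hM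
  obtain ⟨F, hF⟩ : ∃ F : Matrix (LL g) (LL g) ℂ → ℂ,
      ∀ M, F M = MvPolynomial.eval (fun a => M a.1 a.2) P := ⟨_, fun _ => rfl⟩
  rw [← hF]
  refine hZ F ⟨P, hF⟩ fun γ hγ => ?_
  have e : (fun a : LL g × LL g => cx γ a.1 a.2) = fun a => (γ.1 a.1 a.2 : ℂ) :=
    funext fun _ => rfl
  rw [hF, e]
  exact hP γ hγ fun τ hτ => act_mem γ hτ

end Pool.Agent.MP_cf0a82_ag

end
end
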