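import Pool.Agent.Mg.Fcf0a82q.G45c04c
import Pool.Agent.Mg.Fcf0a82q.G40f606
import Pool.Agent.Mg.Fcf0a82q.G2c0f22
import Pool.Agent.Mg.Fcf0a82q.Ge1829e
import Pool.Agent.Mg.Fcf0a82q.Gff7211
import Pool.Agent.Mg.Fcf0a82q.Gf9af85

section

open Complex Filter Topology Matrix Function

noncomputable section

namespace Pool.Agent.MP_cf0a82_ag

open Pool.Agent.MP_f58063_ag

/-- a Nash section of a Nash map over a coordinate projection of its image -/
theorem nash_sec {S : Type} [NormedAddCommGroup S] [NormedSpace ℂ S] [FiniteDimensional ℂ S]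
    {N d : ℕ} {G : S → Fin N → ℂ} {p : S} (hG : ∀ i, NashAt (fun s => G s i) p)
    (L : (Fin d → ℂ) →L[ℂ] (Fin N → ℂ)) (hL : Injective L) (h : ∀ ξ, ∃ w, fderiv ℂ G p w = L ξ) :
    ∃ (r : ℕ) (e : Fin r → Fin N) (ν : (Fin r → ℂ) → S) (u₀ : Fin r → ℂ), d ≤ r ∧
      AnalyticAt ℂ ν u₀ ∧ (∀ l : S →L[ℂ] ℂ, NashAt (fun u => l (ν u)) u₀) ∧ ν u₀ = p ∧
      ∀ᶠ u in 𝓝 u₀, ∀ i, G (ν u) (e i) = u i := by
  have : CompleteSpace S := FiniteDimensional.complete ℂ S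
  have hGa : AnalyticAt ℂ G p := analyticAt_pi_iff.2 fun i => (hG i).1
  obtain ⟨r, e, h1, h2⟩ := ext_surj (0 : S →ₗ[ℂ] (Fin 0 → ℂ))
    (fun y => ⟨0, Subsingleton.elim _ _⟩) (fderiv ℂ G p).toLinearMap
  let P : (Fin N → ℂ) →L[ℂ] (Fin r → ℂ) :=
    ContinuousLinearMap.pi fun j => ContinuousLinearMap.proj (e j)
  have hd : d ≤ r := by
    have hinj : Injective (P.comp L).toLinearMap := by
      refine (injective_iff_map_eq_zero _).2 fun ξ hξ => ?_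
      obtain ⟨w, hw⟩ := h ξ
      have h3 : fderiv ℂ G p w = 0 := h2 w rfl fun j => by
        have := congrFun hξ j
        change fderiv ℂ G p w (e j) = 0
        rw [hw]
        exact this
      rw [hw] at h3
      exact (injective_iff_map_eq_zero L).1 hL ξ h3
    simpa using LinearMap.finrank_le_finrank_of_injective hinj
  let H : S → Fin r → ℂ := fun s j => G s (e j)
  have hN : ∀ j, NashAt (fun x => H x j) p := fun j => hG (e j)
  have hh : AnalyticAt ℂ H p := analyticAt_pi_iff.2 fun j => (hN j).1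
  have hD : fderiv ℂ H p = P.comp (fderiv ℂ G p) :=
    (P.hasFDerivAt.comp p hGa.differentiableAt.hasFDerivAt).fderiv
  have hs : Surjective (fderiv ℂ H p) := fun y => by
    obtain ⟨v, -, hv⟩ := h1 0 y
    exact ⟨v, by rw [hD]; exact funext hv⟩
  obtain ⟨n, π, Ψ, -, hΨ, k1, k2⟩ := chart hh hs
  have ha : AnalyticAt ℂ (fun u : Fin r → ℂ => (u, π p)) (H p) :=
    analyticAt_id.prod analyticAt_const
  have hT : Tendsto (fun u : Fin r → ℂ => (u, π p)) (𝓝 (H p)) (𝓝 (H p, π p)) :=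
    ha.continuousAt.tendsto
  have hinv := nash_inverse (Θ := fun x => (H x, π x)) (Ψ := Ψ) (hh.prod (π.analyticAt p))
    (nash_pair (nash_pi hN) fun l => NashAt.clm (l.comp π) p) hΨ k1
    (k2.mono fun y hy => Prod.ext hy.1 hy.2)
  refine ⟨r, e, fun u => Ψ (u, π p), H p, hd,
    AnalyticAt.comp (f := fun u : Fin r → ℂ => (u, π p)) hΨ ha, fun l => ?_, k1.self_of_nhds, ?_⟩
  · exact NashAt.comp (φ := fun u : Fin r → ℂ => (u, π p)) (hinv l) ha
      (nash_pair (fun l => NashAt.clm l _) fun l => NashAt.const _ _)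
  · filter_upwards [hT.eventually k2] with u hu i
    exact congrFun hu.1 i

/-- some of the components of an immersion are coordinates -/
theorem exists_coord {κ : Type} [Fintype κ] {r : ℕ} (L : (Fin r → ℂ) →L[ℂ] (κ → ℂ))
    (hL : Injective L) : ∃ e : Fin r → κ, ∀ ξ, (∀ i, L ξ (e i) = 0) → ξ = 0 := by
  let E := Fintype.equivFin κ
  let G : (Fin r → ℂ) →ₗ[ℂ] (Fin (Fintype.card κ) → ℂ) :=
    (LinearMap.funLeft ℂ ℂ E.symm).comp L.toLinearMap
  obtain ⟨s, a, h1, h2⟩ := ext_surj (0 : (Fin r → ℂ) →ₗ[ℂ] (Fin 0 → ℂ))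
    (fun y => ⟨0, Subsingleton.elim _ _⟩) G
  let Q : (Fin r → ℂ) →ₗ[ℂ] (Fin s → ℂ) := (LinearMap.funLeft ℂ ℂ a).comp G
  have hQs : Surjective Q := fun y => by
    obtain ⟨v, -, hv⟩ := h1 0 y
    exact ⟨v, funext hv⟩
  have hk : ∀ ξ, (∀ j, G ξ (a j) = 0) → ξ = 0 := fun ξ hξ => by
    have h3 := h2 ξ rfl hξ
    refine (injective_iff_map_eq_zero L).1 hL ξ (funext fun k => ?_)
    have := congrFun h3 (E k)
    simpa [G] using this
  have hQi : Injective Q :=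
    (injective_iff_map_eq_zero _).2 fun ξ hξ => hk ξ fun j => congrFun hξ j
  have hrs : r = s := by
    simpa using (LinearEquiv.ofBijective Q ⟨hQi, hQs⟩).finrank_eq
  subst hrs
  exact ⟨fun i => E.symm (a i), fun ξ hξ => hk ξ hξ⟩

/-- the inverse function theorem -/
theorem loc_inv {X : Type} [NormedAddCommGroup X] [NormedSpace ℂ X] [FiniteDimensional ℂ X]
    {f : X → X} {p : X} (hf : AnalyticAt ℂ f p) (hi : Injective (fderiv ℂ f p)) :
    ∃ ν : X → X, AnalyticAt ℂ ν (f p) ∧ (∀ᶠ x in 𝓝 p, ν (f x) = x) ∧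
      ∀ᶠ y in 𝓝 (f p), f (ν y) = y := by
  have : CompleteSpace X := FiniteDimensional.complete ℂ X
  have hinj : Injective (fderiv ℂ f p).toLinearMap := hi
  let E := (LinearEquiv.ofInjectiveOfFinrankEq _ hinj rfl).toContinuousLinearEquiv
  have hE : (E : X →L[ℂ] X) = fderiv ℂ f p := by
    ext1 v
    rfl
  have hst : HasStrictFDerivAt f (E : X →L[ℂ] X) p := by
    rw [hE]
    exact hf.hasStrictFDerivAt
  refine ⟨hst.localInverse _ _ _, ?_, hst.eventually_left_inverse, hst.eventually_right_inverse⟩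
  exact (hst.toOpenPartialHomeomorph _).analyticAt_symm'
    hst.mem_toOpenPartialHomeomorph_source hf hst.hasFDerivAt.fderiv

end Pool.Agent.MP_cf0a82_ag

end
end

section

open Complex Filter Topology Matrix Function

noncomputable section

namespace Pool.Agent.MP_cf0a82_ag

open Pool.Agent.MP_f58063_ag

variable {g r : ℕ} {κ : Type} [Fintype κ] {D : GD g r κ} {τ : Mat g} {σ : (Fin r → ℂ) → Mat g}
  {u : Fin r → ℂ}

/-- an immersion has a local retraction -/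
theorem Glob.retr {Γ : Subgroup (Sp g)} {Ω : Set (Mat g)} {Φ : Mat g → κ → ℂ} (h : Glob Γ Ω Φ)
    (hτ : τ ∈ Siegel g) (hΩ : τ ∈ Ω) : ∃ ρ : (κ → ℂ) → Mat g, AnalyticAt ℂ ρ (Φ τ) ∧
      (∀ x, IsSy (ρ x)) ∧ ∀ᶠ τ' in 𝓝 τ, τ' ∈ Siegel g → ρ (Φ τ') = τ' := by
  obtain ⟨ι, π, h1, h2, h3⟩ := sym_chart g
  have hτ' : ι (π τ) = τ := h3 τ hτ.1
  have hΦ : AnalyticAt ℂ Φ (ι (π τ)) := by
    rw [hτ']
    exact h.an τ hΩ
  have hc : AnalyticAt ℂ (fun x => Φ (ι x)) (π τ) := hΦ.comp (ι.analyticAt _)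
  have hd : HasFDerivAt (fun x => Φ (ι x)) ((fderiv ℂ Φ τ).comp ι) (π τ) := by
    have := hΦ.differentiableAt.hasFDerivAt.comp (π τ) ι.hasFDerivAt
    rwa [hτ'] at this
  have hinj : Injective ((fderiv ℂ Φ τ).comp ι) := by
    refine (injective_iff_map_eq_zero _).2 fun x hx => ?_
    have := h.imm τ hτ hΩ (ι x) (h1 x) hx
    rw [← h2 x, this, map_zero]
  obtain ⟨l, hl⟩ := LinearMap.exists_leftInverse_of_injective
    (((fderiv ℂ Φ τ).comp ι : (Fin (NN g) → ℂ) →L[ℂ] (κ → ℂ)) : (Fin (NN g) → ℂ) →ₗ[ℂ] (κ → ℂ))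
    (LinearMap.ker_eq_bot.2 hinj)
  set L := LinearMap.toContinuousLinearMap l with hL
  have hf : AnalyticAt ℂ (fun x => L (Φ (ι x))) (π τ) := (L.analyticAt _).comp hc
  have hi : Injective (fderiv ℂ (fun x => L (Φ (ι x))) (π τ)) := by
    have hd' : HasFDerivAt (fun x => L (Φ (ι x))) (L.comp ((fderiv ℂ Φ τ).comp ι)) (π τ) :=
      L.hasFDerivAt.comp (π τ) hd
    rw [hd'.fderiv]
    intro a b hab
    exact (LinearMap.congr_fun hl a).symm.trans (hab.trans (LinearMap.congr_fun hl b))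
  obtain ⟨ν, hν, hν1, -⟩ := loc_inv hf hi
  refine ⟨fun x => ι (ν (L x)), ?_, fun x => h1 _, ?_⟩
  · rw [hτ'] at hν
    exact (ι.analyticAt _).comp (AnalyticAt.comp (g := ν) (f := L) hν (L.analyticAt _))
  · filter_upwards [(π.continuous.tendsto τ).eventually hν1] with τ' h' hS
    rw [h3 τ' hS.1] at h'
    rw [h', h3 τ' hS.1]

theorem GD.y_an (D : GD g r κ) (h : τ ∈ D.Ω) : AnalyticAt ℂ D.y τ :=
  analyticAt_pi_iff.2 fun i => analyticAt_pi_iff.1 (D.glob.an τ h) (D.e i)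

theorem GD.Gd_sub (D : GD g r κ) : D.Gd ⊆ D.W := by
  rintro τ ⟨σ, hσ, he⟩
  have := hσ.2.self_of_nhds.1
  rwa [he] at this

theorem GD.W_retr (h : τ ∈ D.W) : ∃ σ : (Fin r → ℂ) → Mat g, AnalyticAt ℂ σ (D.y τ) ∧
    (∀ u, IsSy (σ u)) ∧ ∀ᶠ τ' in 𝓝 τ, τ' ∈ D.W → σ (D.y τ') = τ' := by
  obtain ⟨hS, hΩ, hE, hR⟩ := h
  obtain ⟨ρ, hρ, hsy, hev⟩ := D.glob.retr hS hΩ
  obtain ⟨s, hs, hsev⟩ := D.etl.sec (D.Φ τ) hE hR
  have hsτ : s (D.y τ) = D.Φ τ := hsev.self_of_nhds hE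
  refine ⟨fun u => ρ (s u), ?_, fun u => hsy _, ?_⟩
  · refine AnalyticAt.comp (g := ρ) (f := s) ?_ hs
    rw [hsτ]
    exact hρ
  · filter_upwards [hev, (D.glob.an τ hΩ).continuousAt.eventually hsev] with τ' h1 h2 hW
    have : s (D.y τ') = D.Φ τ' := h2 hW.2.2.1
    rw [this]
    exact h1 hW.1

theorem GD.Sec.ev (h : D.Sec σ u) : ∀ᶠ u' in 𝓝 u, D.Sec σ u' := by
  filter_upwards [h.1.eventually_analyticAt, h.2.eventually_nhds] with u' h1 h2
  exact ⟨h1, h2⟩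

theorem GD.Sec.mem (h : D.Sec σ u) : σ u ∈ D.Gd ∧ D.y (σ u) = u := by
  have h0 := h.2.self_of_nhds
  refine ⟨⟨σ, ?_, ?_⟩, h0.2⟩
  · rw [h0.2]
    exact h
  · rw [h0.2]

theorem GD.Sec.uniq (h : D.Sec σ u) : ∀ᶠ τ' in 𝓝 (σ u), τ' ∈ D.W → σ (D.y τ') = τ' := by
  have h0 := h.2.self_of_nhds
  obtain ⟨σ', -, -, hev⟩ := GD.W_retr h0.1
  have h1 : ∀ᶠ u' in 𝓝 u, σ' u' = σ u' := by
    filter_upwards [h.2, h.1.continuousAt.eventually hev] with u' h2 h3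
    have := h3 h2.1
    rwa [h2.2] at this
  have hy : Tendsto D.y (𝓝 (σ u)) (𝓝 u) := by
    have := (D.y_an h0.1.2.1).continuousAt.tendsto
    rwa [h0.2] at this
  filter_upwards [hev, hy.eventually h1] with τ' h2 h3 hW
  rw [← h3]
  exact h2 hW

theorem GD.Sec.act (h : D.Sec σ u) {γ : Sp g} (hγ : γ ∈ D.Γ) :
    D.Sec (fun u' => act γ (σ u')) u := by
  have h0 := h.2.self_of_nhds
  refine ⟨(act_analytic γ h0.1.1).comp h.1, ?_⟩
  filter_upwards [h.2] with u' h1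
  obtain ⟨⟨hS, hΩ, hE, hR⟩, hy⟩ := h1
  obtain ⟨h2, h3⟩ := D.glob.inv γ hγ _ hS hΩ
  have h4 : D.y (MP_f58063_ag.act γ (σ u')) = D.y (σ u') := by
    funext i
    simp only [GD.y, h3]
  refine ⟨⟨act_mem γ hS, h2, ?_, ?_⟩, h4.trans hy⟩
  · rw [h3]
    exact hE
  · rw [h4]
    exact hR

theorem GD.Gd_act (h : τ ∈ D.Gd) {γ : Sp g} (hγ : γ ∈ D.Γ) :
    act γ τ ∈ D.Gd ∧ D.y (act γ τ) = D.y τ := by
  obtain ⟨σ, hσ, he⟩ := h
  have := (hσ.act hγ).mem
  rwa [he] at this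

theorem xkretr_cont (R : MvPolynomial (Fin r) ℂ) :
    Continuous fun u : Fin r → ℂ => MvPolynomial.eval u R :=
  MvPolynomial.continuous_eval R

theorem GD.Gd_closed (h : τ ∈ D.W) (hc : τ ∈ closure D.Gd) : τ ∈ D.Gd := by
  obtain ⟨σ, hσ, hsy, hev⟩ := GD.W_retr h
  have he : σ (D.y τ) = τ := hev.self_of_nhds h
  have ht : Tendsto σ (𝓝 (D.y τ)) (𝓝 τ) := by
    have := hσ.continuousAt.tendsto
    rwa [he] at this
  have h1 : ∀ᶠ u in 𝓝 (D.y τ), AnalyticAt ℂ σ u ∧ σ u ∈ D.Ω ∧ σ u ∈ Siegel g ∧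
      MvPolynomial.eval u D.R ≠ 0 := by
    filter_upwards [hσ.eventually_analyticAt, ht.eventually (D.glob.op.mem_nhds h.2.1),
      ht.eventually (isOpen_PosIm.mem_nhds (Siegel_sub h.1)),
      (xkretr_cont D.R).continuousAt.eventually_ne h.2.2.2] with u a b c d
    exact ⟨a, b, ⟨hsy u, c⟩, d⟩
  obtain ⟨ε, hε, hO⟩ := Metric.eventually_nhds_iff_ball.1 h1
  have hy : Tendsto D.y (𝓝 τ) (𝓝 (D.y τ)) := (D.y_an h.2.1).continuousAt.tendsto
  obtain ⟨τ', ⟨h2, h3⟩, σ', hσ', he'⟩ := mem_closure_iff_nhds.1 hc _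
    (hev.eventually_nhds.and (hy.eventually (Metric.ball_mem_nhds _ hε)))
  have h4 : ∀ᶠ u in 𝓝 (D.y τ'), σ u = σ' u := by
    have ht' : Tendsto σ' (𝓝 (D.y τ')) (𝓝 τ') := by
      have := hσ'.1.continuousAt.tendsto
      rwa [he'] at this
    filter_upwards [hσ'.2, ht'.eventually h2] with u a b
    have := b a.1
    rwa [a.2] at this
  have hpc : IsPreconnected (Metric.ball (D.y τ) ε) := (convex_ball _ _).isPreconnected
  have h5 : ∀ f ∈ D.E, ∀ u ∈ Metric.ball (D.y τ) ε, f (D.Φ (σ u)) = 0 := by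
    intro f hf
    have ha : AnalyticOnNhd ℂ (fun u => f (D.Φ (σ u))) (Metric.ball (D.y τ) ε) := fun u hu =>
      (D.etl.an f hf _).comp ((D.glob.an _ (hO u hu).2.1).comp (hO u hu).1)
    refine ha.eqOn_zero_of_preconnected_of_eventuallyEq_zero hpc h3 ?_
    filter_upwards [h4, hσ'.2] with u a b
    rw [a]
    exact b.1.2.2.1 f hf
  have h6 : ∀ u ∈ Metric.ball (D.y τ) ε, D.y (σ u) - u = 0 := by
    have ha : AnalyticOnNhd ℂ (fun u => D.y (σ u) - u) (Metric.ball (D.y τ) ε) := fun u hu =>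
      ((D.y_an (hO u hu).2.1).comp (hO u hu).1).sub analyticAt_id
    refine ha.eqOn_zero_of_preconnected_of_eventuallyEq_zero hpc h3 ?_
    filter_upwards [h4, hσ'.2] with u a b
    rw [a, b.2, sub_self]
    rfl
  refine ⟨σ, ⟨hσ, ?_⟩, he⟩
  filter_upwards [Metric.ball_mem_nhds _ hε] with u hu
  have h7 : D.y (σ u) = u := sub_eq_zero.1 (h6 u hu)
  refine ⟨⟨(hO u hu).2.2.1, (hO u hu).2.1, fun f hf => h5 f hf u hu, ?_⟩, h7⟩
  rw [h7]
  exact (hO u hu).2.2.2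

end Pool.Agent.MP_cf0a82_ag

end
end

section

open Complex Filter Topology Matrix Function

noncomputable section

namespace Pool.Agent.MP_cf0a82_ag

open Pool.Agent.MP_f58063_ag

theorem xksheet_loc {g r : ℕ} {κ : Type} [Fintype κ] (D : GD g r κ) {u : Fin r → ℂ}
    (hu : MvPolynomial.eval u D.R ≠ 0) {τ : Mat g} (h : τ ∈ Siegel g ∩ D.Ω) :
    ∃ N ∈ 𝓝 τ, ∃ (σ : (Fin r → ℂ) → Mat g) (p : Prop), ∀ᶠ u' in 𝓝 u, (p → D.Sec σ u') ∧
      ∀ τ' ∈ N, τ' ∈ D.Gd → D.y τ' = u' → p ∧ σ u' = τ' := by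
  by_cases hy : D.y τ = u
  · by_cases hG : τ ∈ D.Gd
    · obtain ⟨σ, h1, h2⟩ := hG
      rw [hy] at h1 h2
      refine ⟨_, h2 ▸ h1.uniq, σ, True, h1.ev.mono fun u' hu' => ⟨fun _ => hu', ?_⟩⟩
      rintro τ' h3 h4 rfl
      exact ⟨trivial, h3 (D.Gd_sub h4)⟩
    · suffices D.Gdᶜ ∈ 𝓝 τ from ⟨_, this, fun _ => τ, False,
        Eventually.of_forall fun _ => ⟨False.elim, fun _ h3 h4 _ => (h3 h4).elim⟩⟩
      by_cases hW : τ ∈ D.W
      · rw [← mem_interior_iff_mem_nhds, interior_compl]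
        exact fun hc => hG (GD.Gd_closed hW hc)
      · obtain ⟨f, hf, h0⟩ : ∃ f ∈ D.E, f (D.Φ τ) ≠ 0 := by
          by_contra! hc
          exact hW ⟨h.1, h.2, hc, hy ▸ hu⟩
        filter_upwards [((D.etl.an f hf _).comp (D.glob.an τ h.2)).continuousAt.eventually_ne h0]
          with τ' h3 h4
        exact h3 ((D.Gd_sub h4).2.2.1 f hf)
  · obtain ⟨A, B, hA, hB, h1, h2, h3⟩ := t2_separation hy
    refine ⟨_, (D.y_an h.2).continuousAt.preimage_mem_nhds (hA.mem_nhds h1), fun _ => τ, False, ?_⟩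
    filter_upwards [hB.mem_nhds h2] with u' h4
    refine ⟨False.elim, ?_⟩
    rintro τ' h5 - rfl
    exact (Set.disjoint_left.1 h3 h5 h4).elim

/-- finitely many sheets modulo the group -/
theorem GD.sheets {g r : ℕ} {κ : Type} [Fintype κ] (D : GD g r κ) {u : Fin r → ℂ}
    (hu : MvPolynomial.eval u D.R ≠ 0) :
    ∃ (O : Set (Fin r → ℂ)) (n : ℕ) (σ : Fin n → (Fin r → ℂ) → Mat g), IsOpen O ∧
      IsPreconnected O ∧ u ∈ O ∧ (∀ j, ∀ u' ∈ O, D.Sec (σ j) u') ∧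
      ∀ τ ∈ D.Gd, D.y τ ∈ O → ∃ γ ∈ D.Γ, ∃ j, act γ τ = σ j (D.y τ) := by
  classical
  obtain ⟨K, hK⟩ := D.etl.bd u hu
  obtain ⟨C, hC, hs, hp⟩ := D.glob.prp K
  choose N hN σ p H using fun (τ : Mat g) (h : τ ∈ C) => xksheet_loc D hu (hs h)
  obtain ⟨t, ht⟩ := hC.elim_nhds_subcover' N hN
  obtain ⟨ε, hε, hb⟩ := Metric.eventually_nhds_iff_ball.1
    (hK.and ((eventually_all_finset t).2 fun x _ => H x.1 x.2))
  let s := t.filter fun x => p x.1 x.2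
  refine ⟨_, s.card, fun j => σ _ (s.equivFin.symm j).1.2, Metric.isOpen_ball,
    (convex_ball u ε).isPreconnected, Metric.mem_ball_self hε, fun j u' h => ?_, fun τ hτ h => ?_⟩
  · have := Finset.mem_filter.1 (s.equivFin.symm j).2
    exact ((hb u' h).2 _ this.1).1 this.2
  · have hW := D.Gd_sub hτ
    obtain ⟨γ, hγ, h1⟩ := hp τ hW.1 hW.2.1 ((hb _ h).1 _ hW.2.2.1 rfl)
    obtain ⟨x, hx, h2⟩ := Set.mem_iUnion₂.1 (ht h1)
    obtain ⟨h3, h4⟩ := ((hb _ h).2 x hx).2 _ h2 (GD.Gd_act hτ hγ).1 (GD.Gd_act hτ hγ).2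
    refine ⟨γ, hγ, s.equivFin ⟨x, Finset.mem_filter.2 ⟨hx, h3⟩⟩, ?_⟩
    beta_reduce
    rw [Equiv.symm_apply_apply]
    exact h4.symm

end Pool.Agent.MP_cf0a82_ag

end
end

section

open Complex Filter Topology Matrix Function

noncomputable section

namespace Pool.Agent.MP_cf0a82_ag

open Pool.Agent.MP_f58063_ag

variable {g r : ℕ} {κ : Type} [Fintype κ] (D : GD g r κ)

theorem xkcomp_key {X : Type} [TopologicalSpace X] {G T : Set X} {τ x : X}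
    (hT : IsPreconnected T) (hG : T ⊆ G) (hx : x ∈ T) (hS : x ∈ connectedComponentIn G τ) :
    T ⊆ connectedComponentIn G τ := by
  rw [connectedComponentIn_eq hS]
  exact hT.subset_connectedComponentIn hx hG

theorem xkcomp_inv (γ : Sp g) {x : Mat g} (hx : x ∈ Siegel g) : act γ⁻¹ (act γ x) = x := by
  rw [← act_mul _ _ hx, inv_mul_cancel, act_one]

theorem xkcomp_move {τ x : Mat g} {γ : Sp g} (hγ : γ ∈ D.Γ)
    (hx : x ∈ connectedComponentIn D.Gd τ) (h : act γ x ∈ connectedComponentIn D.Gd τ) :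
    ∀ x' ∈ connectedComponentIn D.Gd τ, act γ x' ∈ connectedComponentIn D.Gd τ := by
  have hsub := connectedComponentIn_subset D.Gd τ
  intro x' hx'
  refine xkcomp_key (T := act γ '' connectedComponentIn D.Gd τ)
    (isPreconnected_connectedComponentIn.image _ fun a ha =>
      (act_analytic γ (D.Gd_sub (hsub ha)).1).continuousAt.continuousWithinAt) ?_
    ⟨x, hx, rfl⟩ h ⟨x', hx', rfl⟩
  rintro _ ⟨a, ha, rfl⟩
  exact (GD.Gd_act (hsub ha) hγ).1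

/-- the stabiliser of a subset of the Siegel space -/
def xkcompStab (Γ : Subgroup (Sp g)) (S : Set (Mat g)) (hS : S ⊆ Siegel g) : Subgroup (Sp g) where
  carrier := {γ | γ ∈ Γ ∧ ∀ x ∈ S, act γ x ∈ S ∧ act γ⁻¹ x ∈ S}
  one_mem' := ⟨one_mem _, fun x hx => by rw [inv_one, act_one]; exact ⟨hx, hx⟩⟩
  mul_mem' := fun {a b} ha hb => ⟨mul_mem ha.1 hb.1, fun x hx => by
    rw [_root_.mul_inv_rev, act_mul _ _ (hS hx), act_mul _ _ (hS hx)]
    exact ⟨(ha.2 _ (hb.2 x hx).1).1, (hb.2 _ (ha.2 x hx).2).2⟩⟩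
  inv_mem' := fun {a} ha => ⟨inv_mem ha.1, fun x hx => by
    rw [inv_inv]
    exact (ha.2 x hx).symm⟩

theorem GD.finCover (τ : Mat g) : FinCover (connectedComponentIn D.Gd τ) r := by
  classical
  have hsub := connectedComponentIn_subset D.Gd τ
  have hW : connectedComponentIn D.Gd τ ⊆ D.W := hsub.trans D.Gd_sub
  have hS : connectedComponentIn D.Gd τ ⊆ Siegel g := fun x hx => (hW hx).1
  refine ⟨xkcompStab D.Γ _ hS, D.R, D.y, D.etl.ne, fun u hu => ?_, fun x hx => ?_,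
    fun γ hγ x hx => ⟨(hγ.2 x hx).1, (GD.Gd_act (hsub hx) hγ.1).2⟩, fun u => ?_⟩
  · obtain ⟨O, n, σ, hO, hc, huO, hσ, hall⟩ := D.sheets hu
    refine evenly (I := {p : Sp g × Fin n // p.1 ∈ D.Γ ∧
        ∀ u' ∈ O, act p.1 (σ p.2 u') ∈ connectedComponentIn D.Gd τ})
      (σ := fun p u' => act p.1.1 (σ p.1.2 u'))
      (fun x hx => (D.y_an (hW hx).2.1).continuousAt.continuousWithinAt) hO hc
      (fun p u' hu' => ((hσ _ u' hu').act p.2.1).1.continuousAt.continuousWithinAt)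
      (fun p u' hu' => ⟨p.2.2 u' hu', ((hσ _ u' hu').act p.2.1).mem.2⟩)
      (fun p u' hu' => ((hσ _ u' hu').act p.2.1).uniq.mono fun x h hx => h (hW hx))
      (fun x hx hy => ?_) huO
    obtain ⟨γ, hγ, j, e⟩ := hall x (hsub hx) hy
    have e' : act γ⁻¹ (σ j (D.y x)) = x := by rw [← e, xkcomp_inv γ (hS hx)]
    refine ⟨⟨(γ⁻¹, j), inv_mem hγ, fun u' hu' => ?_⟩, e'⟩
    refine xkcomp_key (T := (fun u' => act γ⁻¹ (σ j u')) '' O)
      (hc.image _ fun a ha => ((hσ j a ha).act (inv_mem hγ)).1.continuousAt.continuousWithinAt)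
      ?_ ⟨_, hy, e'⟩ hx ⟨u', hu', rfl⟩
    rintro _ ⟨a, ha, rfl⟩
    exact ((hσ j a ha).act (inv_mem hγ)).mem.1
  · obtain ⟨σ, hσ, e⟩ := hsub hx
    refine ⟨(hW hx).2.2.2, D.y_an (hW hx).2.1, σ, hσ.1, ?_⟩
    have h := hσ.uniq
    rw [e] at h
    exact eventually_nhdsWithin_iff.2 (h.mono fun a ha hb => ha (hW hb))
  · by_cases hu : MvPolynomial.eval u D.R = 0
    · exact ⟨∅, fun x hx e => absurd (e ▸ hu) (hW hx).2.2.2⟩
    obtain ⟨O, n, σ, -, -, huO, hσ, hall⟩ := D.sheets hu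
    have hp : ∀ j, ∃ γ' ∈ D.Γ, ∀ γ ∈ D.Γ, act γ (σ j u) ∈ connectedComponentIn D.Gd τ →
        act γ' (σ j u) ∈ connectedComponentIn D.Gd τ := by
      intro j
      by_cases h : ∃ γ ∈ D.Γ, act γ (σ j u) ∈ connectedComponentIn D.Gd τ
      · obtain ⟨γ', a, b⟩ := h
        exact ⟨γ', a, fun _ _ _ => b⟩
      · exact ⟨1, one_mem _, fun γ a b => absurd ⟨γ, a, b⟩ h⟩
    choose p hp hp' using hp
    refine ⟨Finset.univ.image fun j => act (p j) (σ j u), fun x hx e => ?_⟩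
    obtain ⟨γ, hγ, j, e'⟩ := hall x (hsub hx) (e ▸ huO)
    rw [e] at e'
    have h1 : act (p j * γ) x = act (p j) (σ j u) := by rw [act_mul _ _ (hS hx), e']
    have h2 : act (p j * γ) x ∈ connectedComponentIn D.Gd τ := by
      rw [h1]
      refine hp' j γ⁻¹ (inv_mem hγ) ?_
      rwa [← e', xkcomp_inv γ (hS hx)]
    have h3 := mul_mem (hp j) hγ
    refine ⟨p j * γ, ⟨h3, fun a ha => ⟨xkcomp_move D h3 hx h2 a ha,
      xkcomp_move D (inv_mem h3) h2 ?_ a ha⟩⟩, ?_⟩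
    · rwa [xkcomp_inv _ (hS hx)]
    · rw [h1]
      exact Finset.mem_image_of_mem _ (Finset.mem_univ j)

/-- analytic continuation of a germ -/
theorem GD.germ {ν : (Fin r → ℂ) → Mat g} {u : Fin r → ℂ} (hν : AnalyticAt ℂ ν u)
    (h : ∀ᶠ u' in 𝓝 u, ν u' ∈ D.W) (hi : Injective (fderiv ℂ (fun u' => D.y (ν u')) u)) :
    ∃ S : Set (Mat g), IsPreconnected S ∧ S ⊆ Siegel g ∧ FinCover S r ∧
      (∀ᶠ u' in 𝓝 u, ν u' ∈ S) ∧ 𝓝[S] (ν u) ≤ map ν (𝓝 u) := by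
  have hy := D.y_an h.self_of_nhds.2.1
  have hf : AnalyticAt ℂ (fun u' => D.y (ν u')) u := hy.comp hν
  obtain ⟨ι, hι, h1, h2⟩ := loc_inv hf hi
  have h0 : ι (D.y (ν u)) = u := h1.self_of_nhds
  have hιt : Tendsto ι (𝓝 (D.y (ν u))) (𝓝 u) := by
    have := hι.continuousAt.tendsto
    rwa [h0] at this
  have hσ : D.Sec (fun v => ν (ι v)) (D.y (ν u)) :=
    ⟨hν.comp_of_eq hι h0, (hιt.eventually h).and h2⟩
  have h3 : ∀ᶠ u' in 𝓝 u, ν u' ∈ D.Gd ∧ AnalyticAt ℂ ν u' := by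
    filter_upwards [hf.continuousAt.tendsto.eventually hσ.ev, h1, hν.eventually_analyticAt]
      with a ha hb hc
    have := ha.mem.1
    rw [hb] at this
    exact ⟨this, hc⟩
  obtain ⟨ε, hε, hb⟩ := Metric.eventually_nhds_iff_ball.1 h3
  have hW : connectedComponentIn D.Gd (ν u) ⊆ D.W :=
    (connectedComponentIn_subset _ _).trans D.Gd_sub
  refine ⟨connectedComponentIn D.Gd (ν u), isPreconnected_connectedComponentIn,
    fun x hx => (hW hx).1, D.finCover _, ?_, ?_⟩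
  · have h4 : ν '' Metric.ball u ε ⊆ connectedComponentIn D.Gd (ν u) := by
      refine IsPreconnected.subset_connectedComponentIn
        ((convex_ball u ε).isPreconnected.image _ fun a ha =>
          (hb a ha).2.continuousAt.continuousWithinAt) ⟨u, Metric.mem_ball_self hε, rfl⟩ ?_
      rintro _ ⟨a, ha, rfl⟩
      exact (hb a ha).1
    filter_upwards [Metric.ball_mem_nhds u hε] with a ha using h4 ⟨a, ha, rfl⟩
  · have h4 := hσ.uniq
    rw [h0] at h4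
    have h5 : Tendsto (fun x => ν (ι (D.y x))) (𝓝[connectedComponentIn D.Gd (ν u)] (ν u))
        (map ν (𝓝 u)) :=
      tendsto_map.comp ((hιt.comp hy.continuousAt.tendsto).mono_left nhdsWithin_le_nhds)
    exact tendsto_id'.1 (h5.congr'
      (eventually_nhdsWithin_iff.2 (h4.mono fun a ha hb => ha (hW hb))))

end Pool.Agent.MP_cf0a82_ag

end
end
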