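import Pool.Agent.Mg.Fcf0a82q.G45c04c
import Pool.Agent.Mg.Fcf0a82q.G7c9b0d
import Pool.Agent.Mg.Fcf0a82q.G61e4ec
import Pool.Agent.Mg.Fcf0a82q.G67c0ca
import Pool.Agent.Mg.Fcf0a82q.Gb5be87

section

open Complex Filter Topology Matrix Function

noncomputable section

namespace Pool.Agent.MP_cf0a82_ag

open Pool.Agent.MP_f58063_ag

variable {g : ℕ} {τ : Mat g}

/-- the character of the lattice attached to `δ` -/
def xkspanC {ι : Type} [Fintype ι] {N : ℕ} (δ : ι → Fin N) (v : ι → ℤ) : ℂ :=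
  exp (2 * Real.pi * I * ∑ i, ((δ i : ℕ) : ℂ) / N * v i)

lemma xkspan_add {ι : Type} [Fintype ι] {N : ℕ} (δ : ι → Fin N) (v w : ι → ℤ) :
    xkspanC δ (v + w) = xkspanC δ v * xkspanC δ w := by
  simp only [xkspanC, ← exp_add, Pi.add_apply, Int.cast_add, mul_add, Finset.sum_add_distrib]

lemma xkspan_one {ι : Type} [Fintype ι] {N : ℕ} (hN : N ≠ 0) (δ : ι → Fin N) (v : ι → ℤ) :
    xkspanC δ ((N : ℤ) • v) = 1 := by
  have h : (N : ℂ) ≠ 0 := Nat.cast_ne_zero.2 hN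
  rw [xkspanC, ← exp_int_mul_two_pi_mul_I (∑ i, ((δ i : ℕ) : ℤ) * v i), mul_comm]
  congr 2
  push_cast
  refine Finset.sum_congr rfl fun i _ => ?_
  simp only [Pi.smul_apply, smul_eq_mul]
  push_cast
  field_simp

lemma xkspan_geo {N : ℕ} (hN : N ≠ 0) {u : ℕ} (h0 : u ≠ 0) (hu : u < N) :
    ∑ d : Fin N, exp (2 * Real.pi * I * (((d : ℕ) : ℂ) / N * ((-(u : ℤ) : ℤ) : ℂ))) = 0 := by
  have h : (N : ℂ) ≠ 0 := Nat.cast_ne_zero.2 hN
  set ω : ℂ := exp (-(2 * Real.pi * I * u / N)) with hω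
  have h1 : ω ≠ 1 := by
    rw [hω, exp_neg, ne_eq, inv_eq_one, exp_two_pi_mul_I_mul_div_eq_one_iff hN]
    exact fun hd => absurd (Nat.le_of_dvd (Nat.pos_of_ne_zero h0) hd) (by omega)
  have h2 : ω ^ N = 1 := by
    rw [hω, ← exp_nat_mul, ← exp_int_mul_two_pi_mul_I (-(u : ℤ))]
    congr 1
    push_cast
    field_simp
  have h3 : ∀ d : ℕ, exp (2 * Real.pi * I * ((d : ℂ) / N * ((-(u : ℤ) : ℤ) : ℂ))) = ω ^ d := by
    intro d
    rw [hω, ← exp_nat_mul]
    congr 1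
    push_cast
    ring
  simp only [h3]
  rw [Fin.sum_univ_eq_sum_range (fun d => ω ^ d), geom_sum_eq h1, h2, sub_self, zero_div]

lemma xkspan_orth {ι : Type} [Fintype ι] [DecidableEq ι] {N : ℕ} (hN : N ≠ 0) (u : ι → ℕ)
    (hu : ∀ i, u i < N) (i : ι) (hi : u i ≠ 0) :
    ∑ δ : ι → Fin N, xkspanC δ (-fun i => (u i : ℤ)) = 0 := by
  have h := Finset.prod_univ_sum (fun _ : ι => (Finset.univ : Finset (Fin N))) fun j d =>
    exp (2 * Real.pi * I * (((d : ℕ) : ℂ) / N * ((-(u j : ℤ) : ℤ) : ℂ)))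
  rw [Finset.prod_eq_zero (Finset.mem_univ i) (xkspan_geo hN hi (hu i)),
    Fintype.piFinset_univ] at h
  rw [h]
  refine Finset.sum_congr rfl fun δ _ => ?_
  rw [xkspanC, Finset.mul_sum, exp_sum]
  rfl

/-- decomposition into eigenvectors -/
lemma xkspan_avg {V ι : Type} [AddCommGroup V] [Module ℂ V] [Fintype ι] [DecidableEq ι] {N : ℕ}
    (hN : N ≠ 0) (T : (ι → ℤ) → V →ₗ[ℂ] V) (T0 : ∀ k, T 0 k = k)
    (Tadd : ∀ v w k, T (v + w) k = T v (T w k)) (P : Submodule ℂ V) (k : V)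
    (hP : ∀ v, T v k ∈ P) (hk : ∀ v, T ((N : ℤ) • v) k = k) :
    ∃ F : (ι → Fin N) → V, (∀ δ, F δ ∈ P ∧ ∀ v, T v (F δ) = xkspanC δ v • F δ) ∧
      ∑ δ, F δ = ((N : ℂ) ^ Fintype.card ι) • k := by
  have : NeZero N := ⟨hN⟩
  let f : (ι → Fin N) → (ι → ℤ) → V := fun δ u => xkspanC δ (-u) • T u k
  have hf : ∀ δ (u u' : ι → ℤ), (∀ i, (u i : ZMod N) = u' i) → f δ u = f δ u' := by
    intro δ u u' h
    choose w hw using fun i => (ZMod.intCast_eq_intCast_iff_dvd_sub _ _ N).1 (h i)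
    have e : u' = u + (N : ℤ) • w := funext fun i => by
      simp only [Pi.add_apply, Pi.smul_apply, smul_eq_mul, ← hw i]
      ring
    simp only [f]
    rw [e, Tadd, hk, neg_add, xkspan_add, ← smul_neg, xkspan_one hN, mul_one]
  refine ⟨fun δ => ∑ x : ι → ZMod N, f δ fun i => ((x i).val : ℤ), fun δ => ⟨?_, fun v => ?_⟩, ?_⟩
  · exact P.sum_mem fun x _ => P.smul_mem _ (hP _)
  · beta_reduce
    rw [map_sum, ← Equiv.sum_comp (Equiv.addLeft fun i => (v i : ZMod N))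
      fun x : ι → ZMod N => f δ fun i => ((x i).val : ℤ), Finset.smul_sum]
    refine Finset.sum_congr rfl fun x _ => ?_
    rw [← hf δ (v + fun i => ((x i).val : ℤ))
      (fun i => (((Equiv.addLeft fun i => (v i : ZMod N)) x i).val : ℤ)) fun i => by simp]
    simp only [f]
    rw [map_smul, ← Tadd, smul_smul, ← xkspan_add]
    congr 2
    abel
  · rw [Finset.sum_comm, Finset.sum_eq_single 0]
    · have e : (fun i => (((0 : ι → ZMod N) i).val : ℤ)) = 0 := funext fun i => by simp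
      have e2 : ∀ δ : ι → Fin N, xkspanC δ 0 = 1 := fun δ => by simp [xkspanC]
      simp only [f, e, neg_zero, e2, T0, one_smul]
      rw [Finset.sum_const, Finset.card_univ, Fintype.card_fun, Fintype.card_fin,
        ← Nat.cast_smul_eq_nsmul ℂ, Nat.cast_pow]
    · intro x _ hx
      obtain ⟨i, hi⟩ := Function.ne_iff.1 hx
      simp only [f]
      rw [← Finset.sum_smul, xkspan_orth hN (fun i => (x i).val) (fun i => ZMod.val_lt _) i
        (by simpa using hi), zero_smul]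
    · exact fun h => (h (Finset.mem_univ _)).elim

lemma xkspan_per (τ : Mat g) (N : ℕ) (m n : Fin g → ℤ) :
    per τ ((N : ℤ) • m) ((N : ℤ) • n) = (N : ℂ) • per τ m n := by
  funext i
  simp only [per, Pi.smul_apply, smul_eq_mul, mul_add, Finset.mul_sum]
  push_cast
  congr 1
  exact Finset.sum_congr rfl fun j _ => by ring

lemma xkspan_aut (τ : Mat g) (N : ℕ) (n : Fin g → ℤ) (z : EE g) :
    aut τ ((N : ℤ) • n) ((N : ℂ) • z) = aut τ n z ^ (N ^ 2) := by
  have e : (fun i => ((((N : ℤ) • n) i : ℤ) : ℂ)) = (N : ℂ) • fun i => (n i : ℂ) := by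
    funext i
    simp
  rw [xstf_aut, xstf_aut, ← exp_nat_mul, e]
  congr 1
  simp only [mulVec_smul, smul_dotProduct, dotProduct_smul, smul_eq_mul]
  push_cast
  ring

lemma xkspan_padd (τ : Mat g) (m n m' n' : Fin g → ℤ) :
    per τ (m + m') (n + n') = per τ m n + per τ m' n' := by
  funext i
  simp only [per, Pi.add_apply, Int.cast_add, mul_add, Finset.sum_add_distrib]
  ring

lemma xkspan_aadd (hτ : τ ∈ Siegel g) (m n n' : Fin g → ℤ) (z : EE g) :
    aut τ (n + n') z = aut τ n z * aut τ n' (z + per τ m n) := by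
  have e : (fun i => (((n + n') i : ℤ) : ℂ)) = (fun i => (n i : ℂ)) + fun i => (n' i : ℂ) := by
    funext i
    simp
  have s4 : (fun i => (n' i : ℂ)) ⬝ᵥ (fun i => (m i : ℂ)) = ((∑ i, n' i * m i : ℤ) : ℂ) := by
    push_cast
    rfl
  rw [xstf_aut, xstf_aut, xstf_aut, xstf_per, e, ← exp_add,
    ← mul_one (exp (_ + -_)), ← xstf_exp_even (∑ i, n' i * m i), ← s4, ← exp_add]
  set T := Matrix.of τ with hT
  set p : Fin g → ℂ := fun i => (n i : ℂ)
  set p' : Fin g → ℂ := fun i => (n' i : ℂ)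
  set q : Fin g → ℂ := fun i => (m i : ℂ)
  have sy : p ⬝ᵥ T *ᵥ p' = p' ⬝ᵥ T *ᵥ p := by
    rw [xstf_dot, hT, xstf_symm hτ]
  congr 1
  simp only [mulVec_add, add_dotProduct, dotProduct_add, sy]
  ring

/-- the translation operators -/
def xkspanT (τ : Mat g) (v : LL g → ℤ) : (EE g → ℂ) →ₗ[ℂ] (EE g → ℂ) where
  toFun k := fun z => (aut τ (-(v ∘ .inr)) z)⁻¹ * k (z + per τ (v ∘ .inl) (-(v ∘ .inr)))
  map_add' a b := funext fun z => by simp only [Pi.add_apply a b, Pi.add_apply, mul_add]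
  map_smul' c a := funext fun z => by
    simp only [Pi.smul_apply, smul_eq_mul, RingHom.id_apply]
    ring

lemma xkspan_T (τ : Mat g) (v : LL g → ℤ) (k : EE g → ℂ) (z : EE g) : xkspanT τ v k z =
    (aut τ (-(v ∘ .inr)) z)⁻¹ * k (z + per τ (v ∘ .inl) (-(v ∘ .inr))) := rfl

lemma xkspan_an (τ : Mat g) (n : Fin g → ℤ) (z : EE g) : AnalyticAt ℂ (aut τ n) z := by
  unfold aut
  refine AnalyticAt.cexp' (AnalyticAt.neg (analyticAt_const.add (analyticAt_const.mul ?_)))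
  exact Finset.analyticAt_fun_sum _ fun i _ => analyticAt_const.mul
    ((ContinuousLinearMap.proj (R := ℂ) (φ := fun _ : Fin g => ℂ) i).analyticAt _)

lemma xkspan_sm (c : ℂ) (z : EE g) : AnalyticAt ℂ (fun z : EE g => c • z) z :=
  (analyticAt_id (𝕜 := ℂ) (z := z)).const_smul (c := c)

/-- the eigenfunctions are the theta functions with characteristics -/
lemma xkspan_eig (hτ : τ ∈ Siegel g) (c : LL g → ℂ) {F : EE g → ℂ} (ha : ∀ z, AnalyticAt ℂ F z)
    (hF : ∀ m n z, F (z + per τ m n) = aut τ n z *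
      exp (2 * Real.pi * I * (∑ i, c (.inl i) * m i - ∑ i, c (.inr i) * n i)) * F z) :
    ∃ κ : ℂ, ∀ z, F z = κ * thc c τ z := by
  set T := Matrix.of τ with hT
  set a : Fin g → ℂ := c ∘ .inl with ha'
  set b : Fin g → ℂ := c ∘ .inr with hb
  set w := T *ᵥ a + b with hw
  have hG : (fun z => exp (-(Real.pi * I * xstfE T a b (z - w))) * F (z - w)) ∈ Th τ 1 := by
    refine ⟨fun z => ?_, fun m n z => ?_⟩
    · have h1 : AnalyticAt ℂ (fun z : EE g => z - w) z := analyticAt_id.sub analyticAt_const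
      refine AnalyticAt.mul (AnalyticAt.cexp' (AnalyticAt.neg (analyticAt_const.mul ?_)))
        ((ha _).comp h1)
      unfold xstfE
      refine (analyticAt_const.add (analyticAt_const.mul ?_)).add analyticAt_const
      unfold dotProduct
      exact Finset.analyticAt_fun_sum _ fun i _ => analyticAt_const.mul
        (((ContinuousLinearMap.proj (R := ℂ) (φ := fun _ : Fin g => ℂ) i).analyticAt _).comp h1)
    · set p : Fin g → ℂ := fun i => (n i : ℂ) with hp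
      set q : Fin g → ℂ := fun i => (m i : ℂ) with hq
      have s1 : ∑ i, c (.inl i) * m i = a ⬝ᵥ q := rfl
      have s2 : ∑ i, c (.inr i) * n i = p ⬝ᵥ b := dotProduct_comm b p
      have sy : a ⬝ᵥ T *ᵥ p = p ⬝ᵥ T *ᵥ a := by
        rw [xstf_dot, hT, xstf_symm hτ]
      have e : z + per τ m n - w = z - w + per τ m n := by abel
      simp only [e, hF, pow_one, xstf_aut, s1, s2, ← mul_assoc, ← exp_add]
      congr 2
      rw [xstf_per]
      simp only [xstfE, ← hT, ← hp, ← hq, hw, dotProduct_add, dotProduct_sub, sy]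
      ring
  obtain ⟨κ, hκ⟩ := Th_one hτ hG
  refine ⟨κ, fun z => ?_⟩
  have h1 := hκ (z + w)
  simp only [add_sub_cancel_right] at h1
  rw [xstf_thc, mul_left_comm, ← h1, ← mul_assoc, ← exp_add, add_neg_cancel, exp_zero, one_mul]

theorem thc_per (hτ : τ ∈ Siegel g) (c : LL g → ℂ) (m n : Fin g → ℤ) (z : EE g) :
    thc c τ (z + per τ m n) = aut τ n z *
      exp (2 * Real.pi * I * (∑ i, c (.inl i) * m i - ∑ i, c (.inr i) * n i)) * thc c τ z := by
  rw [xstf_thc, xstf_thc]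
  set T := Matrix.of τ with hT
  set a : Fin g → ℂ := c ∘ .inl with ha'
  set b : Fin g → ℂ := c ∘ .inr with hb
  set p : Fin g → ℂ := fun i => (n i : ℂ) with hp
  set q : Fin g → ℂ := fun i => (m i : ℂ) with hq
  have s1 : ∑ i, c (.inl i) * m i = a ⬝ᵥ q := rfl
  have s2 : ∑ i, c (.inr i) * n i = p ⬝ᵥ b := dotProduct_comm b p
  have sy : a ⬝ᵥ T *ᵥ p = p ⬝ᵥ T *ᵥ a := by
    rw [xstf_dot, hT, xstf_symm hτ]
  rw [add_right_comm, theta_per hτ]
  simp only [xstf_aut, s1, s2, ← mul_assoc, ← exp_add]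
  congr 2
  rw [xstf_per]
  simp only [xstfE, ← hT, ← hp, ← hq, dotProduct_add, sy]
  ring

theorem thc_mem (hτ : τ ∈ Siegel g) {N : ℕ} {c : LL g → ℂ} (hc : IsCh N c) :
    (fun z => thc c τ ((N : ℂ) • z)) ∈ Th τ (N ^ 2) := by
  refine ⟨fun z => (thc_analytic_z c (Siegel_sub hτ) _).comp
    (f := fun z : EE g => (N : ℂ) • z) (xkspan_sm _ z), fun m n z => ?_⟩
  choose k hk using hc
  have e : ∑ i, c (.inl i) * (((N : ℤ) • m) i : ℤ) - ∑ i, c (.inr i) * (((N : ℤ) • n) i : ℤ) =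
      ((∑ i, k (.inl i) * m i - ∑ i, k (.inr i) * n i : ℤ) : ℂ) := by
    simp only [Pi.smul_apply, smul_eq_mul]
    push_cast
    simp only [← hk, mul_assoc]
  beta_reduce
  rw [smul_add, ← xkspan_per, thc_per hτ, xkspan_aut, e, mul_comm (2 * Real.pi * I : ℂ),
    exp_int_mul_two_pi_mul_I, mul_one]

/-- theta functions with characteristics of order `N` span the theta functions of level `N²` -/
theorem Th_span (hτ : τ ∈ Siegel g) {N : ℕ} (hN : N ≠ 0) :
    Th τ (N ^ 2) ≤ Submodule.span ℂ (Set.range fun (δ : LL g → Fin N) (z : EE g) =>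
      thc (fun i => ((δ i : ℕ) : ℂ) / N) τ ((N : ℂ) • z)) := by
  intro h hh
  have hN' : (N : ℂ) ≠ 0 := Nat.cast_ne_zero.2 hN
  let P : Submodule ℂ (EE g → ℂ) :=
    { carrier := {k | ∀ z, AnalyticAt ℂ k z}
      add_mem' := fun ha hb z => (ha z).add (hb z)
      zero_mem' := fun _ => analyticAt_const
      smul_mem' := fun _ _ ha z => (ha z).const_smul }
  have ak : ∀ z, AnalyticAt ℂ (fun z : EE g => h ((N : ℂ)⁻¹ • z)) z := fun z =>
    (hh.1 _).comp (f := fun z : EE g => (N : ℂ)⁻¹ • z) (xkspan_sm _ z)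
  obtain ⟨F, hF, hs⟩ := xkspan_avg hN (xkspanT τ) (fun k => funext fun z => by
      have e1 : per τ ((0 : LL g → ℤ) ∘ .inl) (-((0 : LL g → ℤ) ∘ .inr)) = 0 := by
        funext i
        simp [per]
      have e2 : aut τ (-((0 : LL g → ℤ) ∘ .inr)) z = 1 := by simp [aut]
      rw [xkspan_T, e1, e2, inv_one, one_mul, add_zero])
    (fun v w k => funext fun z => by
      have e1 : ((v + w) ∘ Sum.inl : Fin g → ℤ) = v ∘ .inl + w ∘ .inl := rfl
      have e2 : ((v + w) ∘ Sum.inr : Fin g → ℤ) = v ∘ .inr + w ∘ .inr := rfl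
      rw [xkspan_T, xkspan_T, xkspan_T, e1, e2, neg_add, xkspan_padd,
        xkspan_aadd hτ (v ∘ .inl), mul_inv, mul_assoc, add_assoc])
    P (fun z => h ((N : ℂ)⁻¹ • z))
    (fun v z => ((xkspan_an τ _ z).inv (aut_ne τ _ z)).mul
      ((ak _).comp (f := fun z : EE g => z + per τ (v ∘ .inl) (-(v ∘ .inr)))
        (analyticAt_id.add analyticAt_const)))
    (fun v => funext fun z => by
      have e1 : (((N : ℤ) • v) ∘ Sum.inl : Fin g → ℤ) = (N : ℤ) • (v ∘ .inl) := rfl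
      have e2 : (-(((N : ℤ) • v) ∘ Sum.inr) : Fin g → ℤ) = (N : ℤ) • (-(v ∘ .inr)) :=
        (smul_neg (N : ℤ) (v ∘ Sum.inr : Fin g → ℤ)).symm
      have e3 := xkspan_aut τ N (-(v ∘ .inr)) ((N : ℂ)⁻¹ • z)
      rw [smul_inv_smul₀ hN'] at e3
      rw [xkspan_T, e1, e2, xkspan_per, smul_add, inv_smul_smul₀ hN', hh.2, e3,
        inv_mul_cancel_left₀ (pow_ne_zero _ (aut_ne τ _ _))])
  have hκ : ∀ δ : LL g → Fin N, ∃ κ : ℂ, ∀ z,
      F δ z = κ * thc (fun i => ((δ i : ℕ) : ℂ) / N) τ z := fun δ => by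
    refine xkspan_eig hτ _ (hF δ).1 fun m n z => ?_
    have h1 := congrFun ((hF δ).2 (Sum.elim m (-n))) z
    rw [xkspan_T, Sum.elim_comp_inl, Sum.elim_comp_inr, neg_neg,
      inv_mul_eq_iff_eq_mul₀ (aut_ne τ _ _), Pi.smul_apply, smul_eq_mul, xkspanC,
      Fintype.sum_sum_type] at h1
    rw [h1, ← mul_assoc]
    simp [sub_eq_add_neg]
  choose κ hκ using hκ
  have e : h = ∑ δ : LL g → Fin N, (((N : ℂ) ^ Fintype.card (LL g))⁻¹ * κ δ) •
      fun z : EE g => thc (fun i => ((δ i : ℕ) : ℂ) / N) τ ((N : ℂ) • z) := by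
    funext z
    have h1 := congrFun hs ((N : ℂ) • z)
    rw [Pi.smul_apply, inv_smul_smul₀ hN', Finset.sum_apply, smul_eq_mul] at h1
    rw [Finset.sum_apply, ← inv_mul_cancel_left₀ (pow_ne_zero (Fintype.card (LL g)) hN') (h z),
      ← h1, Finset.mul_sum]
    exact Finset.sum_congr rfl fun δ _ => by rw [hκ, Pi.smul_apply, smul_eq_mul, mul_assoc]
  rw [e]
  exact Submodule.sum_mem _ fun δ _ => Submodule.smul_mem _ _ (Submodule.subset_span ⟨δ, rfl⟩)

end Pool.Agent.MP_cf0a82_ag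

end
end

section

open Complex Filter Topology Matrix Function

noncomputable section

namespace Pool.Agent.MP_cf0a82_ag

open Pool.Agent.MP_f58063_ag

section

variable {g : ℕ} {a b : EE g → ℂ}

lemma xkimm_add (ha : ∀ z, AnalyticAt ℂ a z) (hb : ∀ z, AnalyticAt ℂ b z) (v : EE g) :
    dv v (a + b) = dv v a + dv v b :=
  funext fun x => (xdd_dv_add (ha x) (hb x) v).eq_of_nhds

lemma xkimm_smul (ha : ∀ z, AnalyticAt ℂ a z) (c : ℂ) (v : EE g) :
    dv v (c • a) = c • dv v a :=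
  funext fun x => (xdd_dv_smul (ha x) c v).eq_of_nhds

lemma xkimm_mul (ha : ∀ z, AnalyticAt ℂ a z) (hb : ∀ z, AnalyticAt ℂ b z) (v : EE g) :
    dv v (fun z => a z * b z) = (fun z => dv v a z * b z) + fun z => a z * dv v b z :=
  funext fun x => (xdd_dv_mul (ha x) (hb x) v).eq_of_nhds

lemma xkimm_an (ha : ∀ z, AnalyticAt ℂ a z) (c : ℂ) (z : EE g) :
    AnalyticAt ℂ (fun z => a (c • z)) z :=
  (ha _).comp (f := fun z : EE g => c • z)
    (AnalyticAt.const_smul (c := c) (f := fun z : EE g => z) analyticAt_id)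

lemma xkimm_scale (ha : ∀ z, AnalyticAt ℂ a z) (c : ℂ) (v : EE g) :
    dv v (fun z => a (c • z)) = c • fun z => dv v a (c • z) := by
  funext x
  have h1 : HasFDerivAt (fun z : EE g => c • z) (c • ContinuousLinearMap.id ℂ (EE g)) x :=
    (hasFDerivAt_id x).const_smul c
  have h2 : HasFDerivAt (fun z => a (c • z)) _ x :=
    (ha (c • x)).differentiableAt.hasFDerivAt.comp x h1
  simp only [dv_apply, Pi.smul_apply]
  rw [h2.fderiv]
  simp

/-- the second order operator attached to a matrix -/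
def xkimmL (S : Mat g) (F : EE g → ℂ) : ℂ := ∑ i, ∑ j, S i j * dv (ee i) (dv (ee j) F) 0

lemma xkimm_span {τ : Mat g} (hτ : τ ∈ Siegel g) {S : Mat g} {μ : ℂ}
    (h : ∀ δ, xkimmL S (thc (qc δ) τ) = μ * thc (qc δ) τ 0) {F : EE g → ℂ}
    (hF : F ∈ Th τ (4 ^ 2)) : xkimmL S F = 16 * μ * F 0 := by
  have h1 := Th_span hτ (N := 4) (by norm_num) hF
  clear hF
  suffices H : (∀ z, AnalyticAt ℂ F z) ∧ xkimmL S F = 16 * μ * F 0 from H.2
  induction h1 using Submodule.span_induction with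
  | mem f hf =>
    obtain ⟨δ, rfl⟩ := hf
    have ha : ∀ z, AnalyticAt ℂ (thc (qc δ) τ) z := thc_analytic_z _ (Siegel_sub hτ)
    change (∀ z, AnalyticAt ℂ (fun z => thc (qc δ) τ (((4 : ℕ) : ℂ) • z)) z) ∧
      xkimmL S (fun z => thc (qc δ) τ (((4 : ℕ) : ℂ) • z)) =
        16 * μ * thc (qc δ) τ (((4 : ℕ) : ℂ) • 0)
    refine ⟨xkimm_an ha _, ?_⟩
    rw [smul_zero, mul_assoc, ← h δ]
    simp only [xkimmL, Finset.mul_sum]
    refine Finset.sum_congr rfl fun i _ => Finset.sum_congr rfl fun j _ => ?_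
    have hb : ∀ z, AnalyticAt ℂ (dv (ee j) (thc (qc δ) τ)) z := fun z => analyticAt_dv (ha z) _
    rw [xkimm_scale ha, xkimm_smul (xkimm_an hb _), xkimm_scale hb]
    simp only [Pi.smul_apply, smul_zero, smul_eq_mul]
    push_cast
    ring
  | zero =>
    refine ⟨fun _ => analyticAt_const, ?_⟩
    have h0 : ∀ v : EE g, dv v (0 : EE g → ℂ) = 0 := fun v => by
      funext x
      simp [dv_apply]
    simp [xkimmL, h0]
  | add f f' _ _ h1 h2 =>
    refine ⟨fun z => (h1.1 z).add (h2.1 z), ?_⟩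
    rw [Pi.add_apply, mul_add, ← h1.2, ← h2.2]
    simp only [xkimmL, ← Finset.sum_add_distrib]
    refine Finset.sum_congr rfl fun i _ => Finset.sum_congr rfl fun j _ => ?_
    rw [xkimm_add h1.1 h2.1, xkimm_add (fun z => analyticAt_dv (h1.1 z) _)
      fun z => analyticAt_dv (h2.1 z) _, Pi.add_apply, mul_add]
  | smul c f _ h1 =>
    refine ⟨fun z => (h1.1 z).const_smul, ?_⟩
    rw [Pi.smul_apply, smul_eq_mul, mul_left_comm, ← h1.2]
    simp only [xkimmL, Finset.mul_sum]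
    refine Finset.sum_congr rfl fun i _ => Finset.sum_congr rfl fun j _ => ?_
    rw [xkimm_smul h1.1, xkimm_smul fun z => analyticAt_dv (h1.1 z) _, Pi.smul_apply,
      smul_eq_mul, mul_left_comm]

lemma xkimm_prod (ha : ∀ z, AnalyticAt ℂ a z) (hb : ∀ z, AnalyticAt ℂ b z) (ha0 : a 0 = 0)
    (hb0 : b 0 = 0) {S : Mat g} (hS : IsSy S) :
    xkimmL S (fun z => a z * b z) = 2 * ∑ i, ∑ j, S i j * (dv (ee i) a 0 * dv (ee j) b 0) := by
  have e : ∀ i j, dv (ee i) (dv (ee j) fun z => a z * b z) 0 =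
      dv (ee j) a 0 * dv (ee i) b 0 + dv (ee i) a 0 * dv (ee j) b 0 := fun i j => by
    have ha' : ∀ z, AnalyticAt ℂ (dv (ee j) a) z := fun z => analyticAt_dv (ha z) _
    have hb' : ∀ z, AnalyticAt ℂ (dv (ee j) b) z := fun z => analyticAt_dv (hb z) _
    rw [xkimm_mul ha hb, xkimm_add (fun z => (ha' z).fun_mul (hb z))
      fun z => (ha z).fun_mul (hb' z), xkimm_mul ha' hb, xkimm_mul ha hb']
    simp only [Pi.add_apply, ha0, hb0, mul_zero, zero_mul, zero_add, add_zero]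
  simp only [xkimmL, e, mul_add, Finset.sum_add_distrib, two_mul]
  congr 1
  rw [Finset.sum_comm]
  exact Finset.sum_congr rfl fun i _ => Finset.sum_congr rfl fun j _ => by rw [hS j i]

lemma xkimm_pair {τ : Mat g} (hτ : τ ∈ Siegel g) {S : Mat g} (hS : IsSy S) {μ : ℂ}
    (h : ∀ δ, xkimmL S (thc (qc δ) τ) = μ * thc (qc δ) τ 0) (ha : a ∈ Th τ 3) (hb : b ∈ Th τ 3)
    (ha0 : a 0 = 0) (hb0 : b 0 = 0) :
    ∑ i, ∑ j, S i j * (dv (ee i) a 0 * dv (ee j) b 0) = 0 := by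
  obtain ⟨t, ht, ht0⟩ := bpf_two hτ 0
  have h1 := Th_pow ht 5
  have h2 := Th_mul hb h1
  have h3 : (fun z => a z * (b z * t z ^ 5)) ∈ Th τ (4 ^ 2) :=
    (show 3 + (3 + 2 * 5) = 4 ^ 2 from rfl) ▸ Th_mul ha h2
  have h4 := xkimm_span hτ h h3
  rw [xkimm_prod ha.1 h2.1 ha0 (by simp [hb0]) hS] at h4
  simp only [xkimm_mul hb.1 h1.1, Pi.add_apply, ha0, hb0, zero_mul, add_zero, mul_zero] at h4
  have h5 : (∑ i, ∑ j, S i j * (dv (ee i) a 0 * dv (ee j) b 0)) * t 0 ^ 5 = 0 := by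
    rw [← (mul_eq_zero.1 h4).resolve_left two_ne_zero]
    simp only [Finset.sum_mul, mul_assoc]
  exact (mul_eq_zero.1 h5).resolve_right (pow_ne_zero _ ht0)

end

/-- the theta constants of order four separate tangent vectors -/
theorem th_imm {g : ℕ} {τ : Mat g} (hτ : τ ∈ Siegel g) {S : Mat g} (hS : IsSy S) {κ : ℂ}
    (h : ∀ δ, fderiv ℂ (th (qc δ)) τ S = κ * th (qc δ) τ) : S = 0 := by
  have hπ : (4 * Real.pi * I : ℂ) ≠ 0 :=
    mul_ne_zero (mul_ne_zero (by norm_num) (ofReal_ne_zero.2 Real.pi_ne_zero)) I_ne_zero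
  have h1 : ∀ δ, xkimmL S (thc (qc δ) τ) = 4 * Real.pi * I * κ * thc (qc δ) τ 0 := fun δ => by
    have := h δ
    rw [heat_th _ (Siegel_sub hτ) hS, inv_mul_eq_iff_eq_mul₀ hπ] at this
    rw [mul_assoc _ κ]
    exact this
  obtain ⟨c₀, hc₀⟩ := tp_ne hτ 0
  let f : (LL g → ℚ) × (LL g → ℚ) → EE g → ℂ := fun c =>
    tp c₀ τ 0 • tp c τ + (-tp c τ 0) • tp c₀ τ
  have hf : ∀ c, f c ∈ Th τ 3 := fun c =>
    Submodule.add_mem _ (Submodule.smul_mem _ _ (tp_mem c hτ))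
      (Submodule.smul_mem _ _ (tp_mem c₀ hτ))
  have hf0 : ∀ c, f c 0 = 0 := fun c => by
    simp only [f, Pi.add_apply, Pi.smul_apply, smul_eq_mul]
    ring
  have key : ∀ v : EE g, (∀ c, ∑ i, v i * dv (ee i) (f c) 0 = 0) → v = 0 := fun v hv => by
    refine tp_imm hτ (z := 0) (κ := dv v (tp c₀ τ) 0 / tp c₀ τ 0) fun c => ?_
    have h2 := hv c
    rw [← fderiv_eq_sum, ← dv_apply] at h2
    simp only [f] at h2
    rw [xkimm_add (fun z => ((tp_mem c hτ).1 z).const_smul)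
      fun z => ((tp_mem c₀ hτ).1 z).const_smul, xkimm_smul (tp_mem c hτ).1,
      xkimm_smul (tp_mem c₀ hτ).1] at h2
    simp only [Pi.add_apply, Pi.smul_apply, smul_eq_mul] at h2
    rw [← dv_apply]
    field_simp
    linear_combination h2
  have h3 : ∀ c', (fun i => ∑ j, S i j * dv (ee j) (f c') 0) = 0 := fun c' =>
    key _ fun c => by
      rw [← xkimm_pair hτ hS h1 (hf c) (hf c') (hf0 c) (hf0 c')]
      refine Finset.sum_congr rfl fun i _ => ?_
      rw [Finset.sum_mul]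
      exact Finset.sum_congr rfl fun j _ => by ring
  funext i
  exact key _ fun c => congrFun (h3 c) i

end Pool.Agent.MP_cf0a82_ag

end
end

section

open Complex Filter Topology Matrix Function

noncomputable section

namespace Pool.Agent.MP_cf0a82_ag

open Pool.Agent.MP_f58063_ag

variable {g : ℕ}

theorem isCh_qc {N : ℕ} (h4 : 4 ∣ N) (δ : LL g → Fin 4) : IsCh N (qc δ) := by
  obtain ⟨k, rfl⟩ := h4
  intro i
  refine ⟨(δ i : ℕ) * k, ?_⟩
  unfold qc
  push_cast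
  ring

theorem isCh_add_hc {N : ℕ} (h4 : 4 ∣ N) {c : LL g → ℂ} (h : IsCh N c) (ε : LL g → Fin 2) :
    IsCh N (c + hc ε) := by
  obtain ⟨k, rfl⟩ := h4
  intro i
  obtain ⟨n, hn⟩ := h i
  refine ⟨n + (ε i : ℕ) * (2 * k), ?_⟩
  rw [Pi.add_apply, add_mul, hn]
  unfold hc
  push_cast
  ring

lemma xkglb_dense {τ : Mat g} (hτ : τ ∈ PosIm g) (s : EE g) :
    Dense {z : EE g | theta τ (z + s) ≠ 0} := by
  refine dense_iff_inter_open.2 fun U hU ⟨x, hx⟩ => ?_
  by_contra hne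
  have h0 : ∀ᶠ y in 𝓝 x, theta τ (y + s) = 0 := by
    filter_upwards [hU.mem_nhds hx] with y hy
    by_contra h1
    exact hne ⟨y, hy, h1⟩
  have h2 := entire_zero (f := fun y => theta τ (y + s)) (fun y =>
    (theta_analytic hτ (y + s)).comp (f := fun y => y + s)
      (analyticAt_id.add analyticAt_const)) h0
  obtain ⟨z, hz⟩ := theta_ne hτ
  have h3 := congrFun h2 (z - s)
  simp only [sub_add_cancel, Pi.zero_apply] at h3
  exact hz h3

lemma xkglb_act {N : ℕ} (hN : N ≠ 0) {γ : Sp g} (hγ : γ ∈ Gam g (2 * N ^ 2)) {τ : Mat g}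
    (hτ : τ ∈ Siegel g) : ∃ κ : ℂ, κ ≠ 0 ∧ ∀ c, IsCh N c → th c (act γ τ) = κ * th c τ := by
  obtain ⟨κ, h0, h⟩ := thc_act hN hγ hτ
  refine ⟨κ, h0, fun c hc => ?_⟩
  have h1 := h c hc 0
  rw [mulVec_zero, zero_dotProduct, mul_zero, exp_zero, mul_one] at h1
  exact h1

lemma xkglb_ws {c : LL g → ℂ} {K : ℝ} {τ : Mat g} (hτ : τ ∈ Siegel g)
    (h : ∀ δ ε, ‖th (qc δ) τ‖ ≤ K * ‖th (c + hc ε) τ‖) (ε : LL g → Fin 2) :
    Ws τ ≤ 2 ^ g * (K * ‖th (c + hc ε) τ‖) := by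
  refine ciSup_le fun p => Sr_le hτ (fun ε' => ?_) p.1 p.2
  have e : hc ε' = qc fun i => (⟨2 * ε' i, by have := (ε' i).2; omega⟩ : Fin 4) := by
    funext i
    unfold hc qc
    push_cast
    ring
  rw [e]
  exact h _ ε

theorem exists_Og {τ : Mat g} (hτ : τ ∈ Siegel g) :
    ∃ (N : ℕ) (c : LL g → ℂ), N ≠ 0 ∧ 4 ∣ N ∧ IsCh N c ∧ τ ∈ Og c := by
  have hc0 : Continuous (theta τ) :=
    continuous_iff_continuousAt.2 fun x => (theta_analytic hτ.2 x).continuousAt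
  have ho : ∀ ε : LL g → Fin 2, IsOpen {z : EE g | theta τ (z + xctpP τ (hc ε)) ≠ 0} :=
    fun ε => isOpen_ne_fun (by fun_prop) continuous_const
  have hd := dense_iInter_of_isOpen ho fun ε => xkglb_dense hτ.2 _
  obtain ⟨c, hc'⟩ := (tpt_dense hτ.2).exists_mem_open (isOpen_iInter_of_finite ho) hd.nonempty
  obtain ⟨N, hN, hl⟩ := exists_level fun _ : Unit => c
  refine ⟨4 * N, rq c, by omega, Dvd.intro _ rfl, hl () _ (Dvd.intro_left _ rfl), hτ.2,
    fun ε => ?_⟩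
  have e : (0 : EE g) + xctpP τ (rq c + hc ε) = tpt τ c + xctpP τ (hc ε) := by
    funext i
    simp only [xctpP, tpt, rq, Pi.add_apply, Pi.zero_apply, mul_add, Finset.sum_add_distrib]
    ring
  unfold th
  rw [xctp_thc, e]
  exact mul_ne_zero (mul_ne_zero (exp_ne_zero _) (exp_ne_zero _)) (Set.mem_iInter.1 hc' ε)

/-- global coordinates on an affine part of the moduli space -/
theorem glob {N : ℕ} (hN : N ≠ 0) (h4 : 4 ∣ N) {c : LL g → ℂ} (h : IsCh N c) :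
    Glob (Gam g (2 * N ^ 2)) (Og c) (Φg c) := by
  have han : ∀ τ ∈ Og c, ∀ j, AnalyticAt ℂ (fun σ => Φg c σ j) τ := fun τ hτ j =>
    (th_analytic (qc j.1) τ hτ.1).div (th_analytic (c + hc j.2) τ hτ.1) (hτ.2 j.2)
  have hop : IsOpen (Og c) := isOpen_iff_mem_nhds.2 fun τ hτ =>
    (Filter.Eventually.and (isOpen_PosIm.mem_nhds hτ.1) (eventually_all.2 fun ε =>
      (th_analytic (c + hc ε) τ hτ.1).continuousAt.eventually_ne (hτ.2 ε)))
  refine ⟨hop, fun τ hτ => analyticAt_pi_iff.2 (han τ hτ), fun γ hγ τ hτ hO => ?_,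
    fun τ hτ hO S hS h0 => ?_, fun K => ?_⟩
  · obtain ⟨κ, hκ, ht⟩ := xkglb_act hN hγ hτ
    refine ⟨⟨(act_mem γ hτ).2, fun ε => ?_⟩, funext fun j => ?_⟩
    · rw [ht _ (isCh_add_hc h4 h ε)]
      exact mul_ne_zero hκ (hO.2 ε)
    · unfold Φg yq
      rw [ht _ (isCh_add_hc h4 h j.2), ht _ (isCh_qc h4 j.1), mul_div_mul_left _ _ hκ]
  · refine th_imm hτ hS (κ := fderiv ℂ (th (c + hc 0)) τ S / th (c + hc 0) τ) fun δ => ?_
    have h1 : fderiv ℂ (fun σ => Φg c σ (δ, 0)) τ S = 0 := by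
      rw [fderiv_pi fun j => (han τ hO j).differentiableAt] at h0
      exact congrFun h0 (δ, 0)
    have h2 : th (qc δ) =ᶠ[𝓝 τ] fun σ => Φg c σ (δ, 0) * th (c + hc 0) σ := by
      filter_upwards [hop.mem_nhds hO] with σ hσ
      exact (div_mul_cancel₀ _ (hσ.2 0)).symm
    rw [h2.fderiv_eq, fderiv_fun_mul (han τ hO _).differentiableAt
      (th_analytic (c + hc 0) τ hO.1).differentiableAt]
    simp only [ContinuousLinearMap.add_apply, ContinuousLinearMap.smul_apply, h1, smul_eq_mul,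
      mul_zero, add_zero]
    unfold Φg yq
    ring
  · obtain ⟨c', hc'⟩ := IsCh.real hN h
    have hK : 0 < max K 1 := lt_of_lt_of_le one_pos (le_max_right _ _)
    have hη : (0 : ℝ) < 2 ^ g * max K 1 := by positivity
    obtain ⟨C, hC, hCS, hp⟩ := prp_abs g (inv_pos.2 hη)
    obtain ⟨T, hT⟩ := exists_reps g (M := 2 * N ^ 2) (by positivity)
    have hC0 : IsCompact (⋃ γ ∈ T, act γ '' C) := T.isCompact_biUnion fun γ _ =>
      hC.image_of_continuousOn fun σ hσ =>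
        (act_analytic γ (hCS hσ)).continuousAt.continuousWithinAt
    have hS0 : (⋃ γ ∈ T, act γ '' C) ⊆ Siegel g := by
      intro σ hσ
      obtain ⟨γ, -, ρ, hρ, rfl⟩ := Set.mem_iUnion₂.1 hσ
      exact act_mem γ (hCS hρ)
    let f : Mat g → ((LL g → Fin 4) → ℂ) × ((LL g → Fin 2) → ℂ) :=
      fun σ => (fun δ => th (qc δ) σ, fun ε => th (c + hc ε) σ)
    have hf : ContinuousOn f (⋃ γ ∈ T, act γ '' C) := fun σ hσ =>
      (ContinuousAt.prodMk
        (continuousAt_pi.2 fun δ => (th_analytic _ σ (hS0 hσ).2).continuousAt)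
        (continuousAt_pi.2 fun ε => (th_analytic _ σ (hS0 hσ).2).continuousAt)).continuousWithinAt
    have hcl : IsClosed {p : ((LL g → Fin 4) → ℂ) × ((LL g → Fin 2) → ℂ) |
        ∀ δ ε, ‖p.1 δ‖ ≤ max K 1 * ‖p.2 ε‖} := by
      simp only [Set.setOf_forall]
      exact isClosed_iInter fun δ => isClosed_iInter fun ε =>
        isClosed_le (by fun_prop) (by fun_prop)
    refine ⟨_, hC0.of_isClosed_subset (hf.preimage_isClosed_of_isClosed hC0.isClosed hcl)
      Set.inter_subset_left, fun σ hσ => ⟨hS0 hσ.1, (hS0 hσ.1).2, fun ε h0 => ?_⟩,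
      fun τ hτ hO hb => ?_⟩
    · have h1 := (one_le_Ws (hS0 hσ.1)).trans (xkglb_ws (hS0 hσ.1) hσ.2 ε)
      rw [h0, norm_zero, mul_zero, mul_zero] at h1
      exact absurd h1 (by norm_num)
    · have h1 : ∀ δ ε, ‖th (qc δ) τ‖ ≤ max K 1 * ‖th (c + hc ε) τ‖ := fun δ ε => by
        have h2 : ‖th (qc δ) τ / th (c + hc ε) τ‖ ≤ max K 1 :=
          ((norm_le_pi_norm (Φg c τ) (δ, ε)).trans hb).trans (le_max_left _ _)
        rwa [norm_div, div_le_iff₀ (norm_pos_iff.2 (hO.2 ε))] at h2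
      obtain ⟨γ₀, h0⟩ := hp c' τ hτ fun ε => by
        rw [← hc', inv_mul_le_iff₀ hη, mul_assoc]
        exact xkglb_ws hτ h1 ε
      obtain ⟨γ, hγ, η, hη', e⟩ := hT γ₀⁻¹
      have e' : η⁻¹ = γ * γ₀ := by
        rw [inv_eq_iff_mul_eq_one, ← mul_assoc, ← e, inv_mul_cancel]
      refine ⟨η⁻¹, inv_mem hη', Set.mem_iUnion₂.2 ⟨γ, hγ, _, h0, ?_⟩, fun δ ε => ?_⟩
      · rw [e', act_mul _ _ hτ]
      · obtain ⟨κ, -, ht⟩ := xkglb_act hN (inv_mem hη') hτ
        show ‖th (qc δ) (act η⁻¹ τ)‖ ≤ max K 1 * ‖th (c + hc ε) (act η⁻¹ τ)‖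
        rw [ht _ (isCh_add_hc h4 h ε), ht _ (isCh_qc h4 δ), norm_mul, norm_mul, mul_left_comm]
        exact mul_le_mul_of_nonneg_left (h1 δ ε) (norm_nonneg _)

end Pool.Agent.MP_cf0a82_ag

end
end
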