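import Pool.Agent.Mg.Fcf0a82q.G45c04c
import Pool.Agent.Mg.Fcf0a82q.G32d4ae
import Pool.Agent.Mg.Fcf0a82q.Gb5be87
import Pool.Agent.Mg.Fcf0a82q.G43ea66
import Pool.Agent.Mg.Fcf0a82q.G969e91
import Pool.Agent.Mg.Fcf0a82q.Gd322fb
import Pool.Agent.Mg.Fcf0a82q.G40f606
import Pool.Agent.Mg.Fcf0a82q.G446bd4
import Pool.Agent.Mg.Fcf0a82q.G349431
import Pool.Agent.Mg.Fcf0a82q.G6d303b
import Pool.Agent.Mg.Fcf0a82q.G67c0ca
import Pool.Agent.Mg.Fcf0a82q.Gff7211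
import Pool.Agent.Mg.Fcf0a82q.G253713

section

open Complex Filter Topology Matrix Function

noncomputable section

namespace Pool.Agent.MP_cf0a82_ag

open Pool.Agent.MP_f58063_ag

variable {g : ℕ} (B : Box g) {X : Type} [NormedAddCommGroup X] [NormedSpace ℂ X]
  [FiniteDimensional ℂ X] {x : X → DD g} {p : X}

lemma xkvdv_yq (hg : 0 < g) {y : DD g} (hy : y ∈ B.ball) {N : ℕ} (hN : N ≠ 0) {c c' : LL g → ℂ}
    (hc : IsCh N c) (hc' : IsCh N c') (h0 : th c (B.ψ y) ≠ 0) :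
    NashAt (fun y' => yq c c' (B.ψ y')) y := by
  have h2 : ∀ c', AnalyticAt ℂ (fun x' => th c' (B.ψ x')) y := fun c' =>
    (th_analytic c' _ (Siegel_sub (B.sieg hy))).comp (B.ψ_an hy)
  have h1 : AnalyticAt ℂ (fun x' => yq c c' (B.ψ x')) y := (h2 c').div (h2 c) h0
  have h3 : ∃ τ ∈ Siegel g, th c τ ≠ 0 := ⟨_, B.sieg hy, h0⟩
  have h4 := B.gm_ne hy ((th_analytic c).mono Siegel_sub) h3
  have h5 := B.nf hg hy (M := 2 * N ^ 2) (by positivity) (Dvd.intro _ rfl) (Fm_th hN hc')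
    (Fm_th hN hc) h3
  refine ⟨h1, ?_⟩
  have h6 : gm y (fun x' => yq c c' (B.ψ x')) =
      gm y (fun x' => th c' (B.ψ x')) / gm y fun x' => th c (B.ψ x') := by
    rw [eq_div_iff h4, ← gm_mul h1 (h2 _)]
    exact (gm_eq_iff (h1.mul (h2 _)) (h2 _)).2
      (((h2 c).continuousAt.eventually_ne h0).mono fun y' hy' => div_mul_cancel₀ _ hy')
  rwa [h6]

lemma xkvdv_conj (V S : Matrix (Fin g) (Fin g) ℂ) (hV : V.det ≠ 0) :
    Vᵀ * (V⁻¹ᵀ * S * V⁻¹) * V = S := by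
  have h1 : V⁻¹ * V = 1 := Matrix.nonsing_inv_mul _ (Ne.isUnit hV)
  have h2 : Vᵀ * V⁻¹ᵀ = 1 := by rw [← transpose_mul, h1, transpose_one]
  rw [← Matrix.mul_assoc, ← Matrix.mul_assoc, h2, Matrix.one_mul, Matrix.mul_assoc, h1,
    Matrix.mul_one]

lemma xkvdv_sum {c₀ : LL g → ℂ} {cs : Fin g → LL g → ℂ} {τ : Mat g} (hV : (Vf c₀ cs τ).det ≠ 0)
    (t : Fin g × Fin g → ℂ) (a b : Fin g) :
    ((Vf c₀ cs τ)ᵀ * Matrix.of (∑ i, t i • Xi c₀ cs i.1 i.2 τ) * Vf c₀ cs τ) a b =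
      ∑ i, t i * (Matrix.single i.1 i.2 (1 : ℂ) + Matrix.single i.2 i.1 (1 : ℂ)) a b := by
  have h : Matrix.of (∑ i, t i • Xi c₀ cs i.1 i.2 τ) = ∑ i : Fin g × Fin g, t i •
      ((Vf c₀ cs τ)⁻¹ᵀ * (Matrix.single i.1 i.2 1 + Matrix.single i.2 i.1 1) * (Vf c₀ cs τ)⁻¹) := by
    ext k l
    simp only [Matrix.of_apply, Finset.sum_apply, Pi.smul_apply, Matrix.sum_apply,
      Matrix.smul_apply]
    rfl
  rw [h, Matrix.mul_sum, Matrix.sum_mul, Matrix.sum_apply]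
  refine Finset.sum_congr rfl fun i _ => ?_
  rw [Matrix.mul_smul, Matrix.smul_mul, xkvdv_conj _ _ hV, Matrix.smul_apply, smul_eq_mul]

theorem Box.nash_yq' (hg : 0 < g) (hx : B.NB x p) {N : ℕ} (hN : N ≠ 0) {c c' : LL g → ℂ}
    (hc : IsCh N c) (hc' : IsCh N c') (h0 : th c (B.ψ (x p)) ≠ 0) :
    NashAt (fun e => yq c c' (B.ψ (x e))) p :=
  (xkvdv_yq B hg hx.2.2 hN hc hc' h0).comp hx.1 (nash_pi hx.2.1)

theorem Box.nash_VdV (hg : 0 < g) (hx : B.NB x p) (ξ : X) (a b : Fin g) :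
    NashAt (fun e => ((Vf B.c₀ B.cs (B.ψ (x e)))ᵀ *
      Matrix.of (fderiv ℂ (fun e' => B.ψ (x e')) e ξ) * Vf B.c₀ B.cs (B.ψ (x e))) a b) p := by
  have hz := Box.NS.zero hg hx
  obtain ⟨j, h0⟩ := B.exists_ne hx.2.2 0
  obtain ⟨t, c, ht, -, h⟩ := B.field_nash hg hx hz (j := j) h0 ξ
  refine (NashAt.sum Finset.univ (F := fun (i : Fin g × Fin g) e => t i e *
    (Matrix.single i.1 i.2 (1 : ℂ) + Matrix.single i.2 i.1 (1 : ℂ)) a b)
    fun i _ => (ht i).mul (NashAt.const _ p)).congr ?_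
  filter_upwards [h, xbframe_ev B hx hz.1 (j := j) h0] with e h1 h2
  have h3 : fderiv ℂ (fun e' => B.ψ (x e')) e ξ =
      (fderiv ℂ (fun e' => ((B.ψ (x e'), fun _ => (0 : EE g)) : PP Unit g)) e ξ).1 :=
    congrArg (fun L : X →L[ℂ] Mat g => L ξ)
      h2.2.1.differentiableAt.hasFDerivAt.fst.fderiv
  have h4 : fderiv ℂ (fun e' => B.ψ (x e')) e ξ =
      ∑ i : Fin g × Fin g, t i e • Xi B.c₀ B.cs i.1 i.2 (B.ψ (x e)) := by
    rw [h3, h1]
    simp only [Box.Xt, Box.Zt, Prod.fst_add, Prod.fst_sum, Prod.smul_mk, smul_zero,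
      Finset.sum_const_zero, add_zero]
  rw [h4, xkvdv_sum (B.mem _ h2.1).2.1.2.2]

theorem Box.NB.inj {r : ℕ} {e : Fin r → Fin (NN g)} {χ : (Fin r → ℂ) → DD g} {u : Fin r → ℂ}
    (hχ : B.NB χ u) (he : ∀ᶠ u' in 𝓝 u, ∀ i, χ u' (e i) = u' i) :
    Injective (fderiv ℂ (fun u' => B.ψ (χ u')) u) := by
  have hd := hχ.1.differentiableAt.hasFDerivAt
  have h1 : fderiv ℂ (fun u' => B.ψ (χ u')) u = (fderiv ℂ B.ψ (χ u)).comp (fderiv ℂ χ u) :=
    ((B.ψ_an hχ.2.2).differentiableAt.hasFDerivAt.comp u hd).fderiv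
  have h2 : ∀ (i : Fin r) (v : Fin r → ℂ), fderiv ℂ χ u v (e i) = v i := by
    intro i v
    have h3 := (ContinuousLinearMap.proj (R := ℂ) (φ := fun _ : Fin (NN g) => ℂ)
      (e i)).hasFDerivAt.comp u hd
    have h4 := (ContinuousLinearMap.proj (R := ℂ) (φ := fun _ : Fin r => ℂ) i).hasFDerivAt
      (x := u)
    have h5 := (h3.congr_of_eventuallyEq (he.mono fun u' hu' => (hu' i).symm)).unique h4
    exact congrArg (fun L : (Fin r → ℂ) →L[ℂ] ℂ => L v) h5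
  intro v w h
  rw [h1] at h
  have h6 : fderiv ℂ χ u v = fderiv ℂ χ u w := B.dψ_inj hχ.2.2 h
  funext i
  rw [← h2 i v, ← h2 i w, h6]

end Pool.Agent.MP_cf0a82_ag

end
end

section

open Complex Filter Topology Matrix Function

noncomputable section

namespace Pool.Agent.MP_cf0a82_ag

open Pool.Agent.MP_f58063_ag

lemma xksharp_core {g k d N : ℕ} {S : Set (Mat g)} (hS : IsMfd S d) (hSS : S ⊆ Siegel g)
    (hM : BigMon S) {c₀ : LL g → ℂ} {cs : Fin g → LL g → ℂ} {ch : Fin d → LL g → ℂ}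
    (hN : N ≠ 0) (hc0 : IsCh N c₀) (hcs : ∀ i, IsCh N (cs i)) (hch : ∀ j, IsCh N (ch j))
    {ψ : (Fin d → ℂ) → Mat g} {x₀ : Fin d → ℂ} {r : ℝ} (hr : 0 < r)
    (hψ : AnalyticOnNhd ℂ ψ (Metric.ball x₀ r)) (hcov : 𝓝[S] (ψ x₀) ≤ map ψ (𝓝 x₀))
    (hB : ∀ x ∈ Metric.ball x₀ r, ψ x ∈ S ∧ ψ x ∈ Om c₀ cs ∧ (∀ i, yq c₀ (ch i) (ψ x) = x i) ∧
      Injective (fderiv ℂ ψ x) ∧ ψ x ∈ AM g k) (hs0 : IsSimple (ψ x₀))
    (hNF0 : ∀ x ∈ Metric.ball x₀ r, ∀ ξ : Fin d → ℂ,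
      (∀ a b, NashAt (fun x' => ((Vf c₀ cs (ψ x'))ᵀ * Matrix.of (fderiv ℂ ψ x' ξ) *
        Vf c₀ cs (ψ x')) a b) x) ∧
      ∀ a b, NashAt (fun x' => ((Pf c₀ cs (ψ x'))⁻¹ *
        dM (fun x'' => Pf c₀ cs (ψ x'')) x' ξ) a b) x)
    (hNy : ∀ x ∈ Metric.ball x₀ r, ∀ ε : LL g → Fin 2,
      NashAt (fun x' => yq c₀ (hc ε) (ψ x')) x) :
    d + (k + 1) * (k + 2) / 2 ≤ g * (g + 1) / 2 := by
  classical
  by_contra hcon
  have hΩ := isOpen_Om c₀ cs
  have hP := Om_sub c₀ cs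
  have hΓ : (Gam g (2 * N ^ 2)).FiniteIndex := Gam_finiteIndex g (by positivity)
  have hst : ∀ γ ∈ Gam g (2 * N ^ 2), ∀ τ ∈ Siegel g ∩ Om c₀ cs, act γ τ ∈ Om c₀ cs :=
    fun γ hγ τ hτ => (jet_act hN hγ hτ.1 hc0 hcs hτ.2).1
  set U := Metric.ball x₀ r with hBdef
  have hBo : IsOpen U := Metric.isOpen_ball
  have hev : ∀ x ∈ U, ∀ᶠ x' in 𝓝 x, x' ∈ U := fun x hx => hBo.mem_nhds hx
  have hcomp : ∀ {f : Mat g → ℂ}, Mer (Om c₀ cs) f → ∀ x ∈ U, AnalyticAt ℂ (fun x => f (ψ x)) x :=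
    fun hf x hx => AnalyticAt.comp (hf.analyticAt hΩ hP (hB x hx).2.1) (hψ x hx)
  have hNF : ∀ x ∈ Metric.ball x₀ r, ∀ ξ : Fin d → ℂ,
      (∀ a b, NashAt (fun x' => ((Vf c₀ cs (ψ x'))ᵀ * Matrix.of (fderiv ℂ ψ x' ξ) *
        Vf c₀ cs (ψ x')) a b) x) ∧
      ∀ a b, NashAt (fun x' => ((Pf c₀ cs (ψ x'))⁻¹ *
        dM (fun x'' => Pf c₀ cs (ψ x'')) x' ξ) a b) x := hNF0
  obtain ⟨m, p, q, hm, hk, hp, hq, hq0, hfam⟩ := fam (V := fun x => Vf c₀ cs (ψ x)) hBo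
    (convex_ball x₀ r).isPreconnected hψ (fun x hx => (hB x hx).2.2.2.2)
    (Metric.mem_ball_self hr) hs0 (fun a b => hcomp (Mer_Vf c₀ cs a b))
    (fun x hx => (hB x hx).2.1.2.2) fun x hx ξ => (hNF x hx ξ).1
  let b := (Pi.basisFun ℂ (Fin d)).prod (Pi.basisFun ℂ (Fin m))
  have hb : ∀ z : (Fin d → ℂ) × (Fin m → ℂ), (fun i => b.repr z i) = Sum.elim z.1 z.2 := by
    intro z
    funext i
    rcases i with i | i <;> simp [b]
  have hevp : ∀ᶠ z in 𝓝 p, z.1 ∈ U := continuous_fst.continuousAt.eventually (hev _ hp)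
  have hent : ∀ x ∈ U, ∀ a c, AnalyticAt ℂ (fun x => Matrix.of (ψ x) a c) x :=
    fun x hx a c => hcomp (Mer.entry a c) x hx
  have hfst : ∀ {f : (Fin d → ℂ) → ℂ} {z : (Fin d → ℂ) × (Fin m → ℂ)}, AnalyticAt ℂ f z.1 →
      AnalyticAt ℂ (fun w : (Fin d → ℂ) × (Fin m → ℂ) => f w.1) z :=
    fun hf => AnalyticAt.comp hf analyticAt_fst
  obtain ⟨σ, t₀, u, hσ0, hσ, hu, hτψ, hy⟩ := stage_curve (k := k) (s := g - k) b p
    (fun z => Matrix.of (ψ z.1)) (fun z => ψf c₀ (ψ z.1)) (fun z => Vf c₀ cs (ψ z.1)) q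
    (fun z => Pf c₀ cs (ψ z.1)) (fun _ => rfl) (fun a c => hfst (hent _ hp a c))
    (fun a c => hfst (hcomp (Mer_ψf c₀ cs a c) _ hp))
    (fun a c => hfst (hcomp (Mer_Vf c₀ cs a c) _ hp)) hq (hB _ hp).2.1.2.2 hq0
    (by
      filter_upwards [hevp, hfam] with z hz h1
      refine ⟨?_, ψf_symm c₀ (hP (hB _ hz).2.1), h1.1⟩
      ext a c
      exact (hSS (hB _ hz).1).1 c a)
    (fun i a c => by
      refine ((hNF _ hp (b i).1).2 a c).comp_fst.congr ?_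
      filter_upwards [hevp] with z hz
      rw [xsm_dM_fst (A := fun x => Pf c₀ cs (ψ x)) fun a c => hcomp (Mer_Pf c₀ cs a c) _ hz])
    (fun R hR => by
      simp only [hb] at hR ⊢
      exact zar hS hSS hM hΓ hΩ hP hst (y := fun i => yq c₀ (ch i))
        (fun i => Mod_yq hN hc0 hcs (hch _)) (Mer_Pf c₀ cs)
        (fun γ hγ τ hτ => (jet_act hN hγ hτ.1 hc0 hcs hτ.2).2.2.2) hψ hcov
        (fun x hx => ⟨(hB x hx).1, (hB x hx).2.1, (hB x hx).2.2.1⟩) hp R hR)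
    (by
      filter_upwards [hevp, hfam] with z hz h1 ξ
      rw [xsm_dM_fst (A := fun x => Matrix.of (ψ x)) (hent _ hz), xsm_dM_of (hψ _ hz)]
      exact h1.2.1 _)
    (by
      have hqa : ∀ᶠ z in 𝓝 p, ∀ a c, AnalyticAt ℂ (fun e => q e a c) z :=
        eventually_all.2 fun a => eventually_all.2 fun c => (hq a c).1.eventually_analyticAt
      filter_upwards [hevp, hfam, hqa] with z hz h1 h2 ξ h3 h4
      rw [xsm_dM_fst (A := fun x => Matrix.of (ψ x)) (hent _ hz), xsm_dM_of (hψ _ hz)] at h3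
      have h5 : ξ.1 = 0 := (hB _ hz).2.2.2.1 (by rw [map_zero]; exact h3)
      have hV : ∀ a c, AnalyticAt ℂ
          (fun w : (Fin d → ℂ) × (Fin m → ℂ) => Vf c₀ cs (ψ w.1) a c) z :=
        fun a c => hfst (hcomp (Mer_Vf c₀ cs a c) _ hz)
      have h6 : dM (fun w : (Fin d → ℂ) × (Fin m → ℂ) => Vf c₀ cs (ψ w.1)) z ξ = 0 := by
        rw [xsm_dM_fst (A := fun x => Vf c₀ cs (ψ x)) fun a c => hcomp (Mer_Vf c₀ cs a c) _ hz,
          h5, xsm_dM_zero]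
      have h7 : dM (fun w : (Fin d → ℂ) × (Fin m → ℂ) => (Vf c₀ cs (ψ w.1))ᵀ) z ξ = 0 :=
        congrArg transpose h6
      rw [dM_mul (A := fun w => Vf c₀ cs (ψ w.1) * q w) (B := fun w => (Vf c₀ cs (ψ w.1))ᵀ)
          (an_mul hV h2) (fun a c => hV c a),
        dM_mul hV h2, h6, h7, Matrix.zero_mul, zero_add, Matrix.mul_zero, add_zero] at h4
      have hu : IsUnit (Vf c₀ cs (ψ z.1)).det := (hB _ hz).2.1.2.2.isUnit
      have h8 : dM q z ξ = 0 := by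
        have := congrArg (fun A => (Vf c₀ cs (ψ z.1))⁻¹ * A * ((Vf c₀ cs (ψ z.1))ᵀ)⁻¹) h4
        have hu' : IsUnit ((Vf c₀ cs (ψ z.1))ᵀ).det := by rwa [det_transpose]
        simpa [Matrix.mul_assoc, Matrix.mul_nonsing_inv _ hu',
          Matrix.nonsing_inv_mul_cancel_left _ _ hu] using this
      have h9 : ξ = (0, ξ.2) := Prod.ext h5 rfl
      rw [h9] at h8 ⊢
      rw [h1.2.2.2 _ h8]
      rfl)
    (by omega) (hfam.mono fun z h1 => h1.2.2.1)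
    (by
      have e1 : (k + 1) * (k + 2) / 2 = k * (k + 1) / 2 + (k + 1) := by
        rw [show (k + 1) * (k + 2) = k * (k + 1) + (k + 1) * 2 by ring, Nat.add_mul_div_right _ _
          two_pos]
      simp only [Fintype.card_sum, Fintype.card_fin]
      omega)
    (f := fun (ε : LL g → Fin 2) z => yq c₀ (hc ε) (ψ z.1))
    (fun ε => (hNy _ hp ε).comp_fst) hevp
  have hσB : ∀ᶠ t in 𝓝 t₀, (σ t).1 ∈ U :=
    hσ.continuousAt.eventually (mem_interior_iff_mem_nhds.1 hσ0)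
  exact no_frame_curve (c₀ := c₀) (τ := fun t => ψ (σ t).1) (u := u) (fun a c => (hτψ a c).1)
    ((hσB.and hu).mono fun t h => ⟨hSS (hB _ h.1).1, h.2⟩) (hB _ hσB.self_of_nhds).2.1.2.1
    (fun a c => (hτψ a c).2) hy

/-- the sharp bound for Nash germs with big monodromy -/
theorem sharpB {g k d : ℕ} (hg : 0 < g) (B : Box g) {e : Fin d → Fin (NN g)}
    {χ : (Fin d → ℂ) → DD g} {u₁ : Fin d → ℂ} (hχ : B.NB χ u₁)
    (he : ∀ᶠ u in 𝓝 u₁, (∀ i, χ u (e i) = u i) ∧ B.ψ (χ u) ∈ AM g k) {S : Set (Mat g)}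
    (hS : IsMfd S d) (hSS : S ⊆ Siegel g) (hM : BigMon S) (h1 : ∀ᶠ u in 𝓝 u₁, B.ψ (χ u) ∈ S)
    (h2 : 𝓝[S] (B.ψ (χ u₁)) ≤ map (fun u => B.ψ (χ u)) (𝓝 u₁))
    (hs : IsSimple (B.ψ (χ u₁))) : d + (k + 1) * (k + 2) / 2 ≤ g * (g + 1) / 2 := by
  have hall : ∀ᶠ u in 𝓝 u₁, B.NB χ u ∧ (∀ᶠ u' in 𝓝 u, ∀ i, χ u' (e i) = u' i) ∧
      B.ψ (χ u) ∈ AM g k ∧ B.ψ (χ u) ∈ S :=
    hχ.eventually.and ((he.mono fun u h => h.1).eventually_nhds.and
      ((he.mono fun u h => h.2).and h1))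
  obtain ⟨r, hr, hb⟩ := Metric.eventually_nhds_iff_ball.1 hall
  refine xksharp_core (k := k) (ψ := fun u => B.ψ (χ u)) (ch := fun i => B.yc (e i)) (x₀ := u₁)
    hS hSS hM B.hN B.h0 B.hs (fun j => B.hy _) hr
    (fun x hx => AnalyticAt.comp (B.an _ (hb x hx).1.2.2) (hb x hx).1.1) h2 (fun x hx => ?_) hs
    (fun x hx ξ => ⟨fun a b => B.nash_VdV hg (hb x hx).1 ξ a b,
      fun a b => B.nash_dP hg (hb x hx).1 ξ a b⟩)
    fun x hx ε => B.nash_yq' hg (hb x hx).1 B.hN B.h0 (B.hhc ε) (B.mem _ (hb x hx).1.2.2).2.1.2.1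
  obtain ⟨a1, a2, a3, a4⟩ := hb x hx
  have hm := B.mem _ a1.2.2
  exact ⟨a4, hm.2.1, fun i => (hm.2.2 _).trans (a2.self_of_nhds i), Box.NB.inj B a1 a2, a3⟩

end Pool.Agent.MP_cf0a82_ag

end
end

section

open Complex Filter Topology Matrix Function

noncomputable section

namespace Pool.Agent.MP_cf0a82_ag

open Pool.Agent.MP_f58063_ag

theorem xketlb_an {r : ℕ} (R : MvPolynomial (Fin r) ℂ) (y : Fin r → ℂ) :
    AnalyticAt ℂ (fun u => MvPolynomial.eval u R) y :=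
  AnalyticOnNhd.eval_mvPolynomial R y (Set.mem_univ y)

/-- the image of a Nash immersion lies in a variety that is generically finite and unramified over
a coordinate subspace -/
theorem etl_germ {κ : Type} [Fintype κ] {r : ℕ} {F : (Fin r → ℂ) → κ → ℂ} {p : Fin r → ℂ}
    (hF : ∀ j, NashAt (fun u => F u j) p) (hi : Injective (fderiv ℂ F p)) :
    ∃ (E : Set ((κ → ℂ) → ℂ)) (e : Fin r → κ) (R : MvPolynomial (Fin r) ℂ), Etl E e R ∧
      (∀ᶠ u in 𝓝 p, (∀ f ∈ E, f (F u) = 0) ∧ Injective (fderiv ℂ (fun u i => F u (e i)) u)) ∧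
      ∀ᶠ u in GF p, MvPolynomial.eval (fun i => F u (e i)) R ≠ 0 := by
  obtain ⟨e, he⟩ := exists_coord (fderiv ℂ F p) hi
  have hFa : AnalyticAt ℂ F p := analyticAt_pi_iff.2 fun j => (hF j).1
  have hΘ : AnalyticAt ℂ (fun u i => F u (e i)) p := analyticAt_pi_iff.2 fun i => (hF (e i)).1
  have hd : Injective (fderiv ℂ (fun u i => F u (e i)) p) := by
    refine (injective_iff_map_eq_zero _).2 fun ξ hξ => he ξ fun i => ?_
    have h1 := congrFun hξ i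
    rw [fderiv_pi fun i => (hF (e i)).1.differentiableAt] at h1
    rw [show F = fun u j => F u j from rfl, fderiv_pi fun j => (hF j).1.differentiableAt]
    exact h1
  obtain ⟨ν, hν, h1, h2⟩ := loc_inv hΘ hd
  have hνp : ν (fun i => F p (e i)) = p := h1.self_of_nhds
  have hN := nash_inverse hΘ (nash_pi fun i => hF (e i)) hν h1 h2
  have hs : ∀ j, NashAt (fun y => F (ν y) j) (fun i => F p (e i)) := fun j =>
    NashAt.comp (f := fun u => F u j) (hνp.symm ▸ hF j) hν hN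
  choose q R hR hq hsep using fun j => nash_sep (hs j)
  have hR0 : ∏ j, R j ≠ 0 := Finset.prod_ne_zero_iff.2 fun j _ => hR j
  refine ⟨_, e, ∏ j, R j, etl_of q e hR0 fun j u hu => hsep j u fun h => hu ?_, ?_, ?_⟩
  · rw [map_prod]
    exact Finset.prod_eq_zero (Finset.mem_univ j) h
  · filter_upwards [h1, eventually_inj hΘ hd,
      hΘ.continuousAt.eventually (eventually_all.2 hq)] with u h3 h4 h5
    refine ⟨?_, h4⟩
    rintro _ ⟨j, rfl⟩
    have h6 := h5 j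
    rw [h3] at h6
    exact h6
  · have ha : AnalyticAt ℂ (fun u => MvPolynomial.eval (fun i => F u (e i)) (∏ j, R j)) p :=
      (xketlb_an _ _).comp (f := fun u i => F u (e i)) hΘ
    refine eventually_GF.2 ⟨_, ha, fun h => hR0 ?_, Eventually.of_forall fun _ h => h⟩
    rw [gm_eq_zero ha] at h
    have h3 : Tendsto ν (𝓝 fun i => F p (e i)) (𝓝 p) := by
      have := hν.continuousAt.tendsto
      rwa [hνp] at this
    have h4 := entire_zero (xketlb_an (∏ j, R j)) (x := fun i => F p (e i)) (by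
      filter_upwards [h2, h3.eventually h] with y h5 h6
      rw [← h5]
      exact h6)
    exact MvPolynomial.funext fun y => (congrFun h4 y).trans (map_zero _).symm

end Pool.Agent.MP_cf0a82_ag

end
end

section

open Complex Filter Topology Matrix Function

noncomputable section

namespace Pool.Agent.MP_cf0a82_ag

open Pool.Agent.MP_f58063_ag

/-- a Nash germ in the Siegel space is a germ of a finite cover -/
theorem globalize {g r : ℕ} (hg : 0 < g) (B : Box g) {e : Fin r → Fin (NN g)}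
    {χ : (Fin r → ℂ) → DD g} {u₀ : Fin r → ℂ} (hχ : B.NB χ u₀)
    (he : ∀ᶠ u in 𝓝 u₀, ∀ i, χ u (e i) = u i) {G U : Set (Fin r → ℂ)}
    (hG : G ∈ residual (Fin r → ℂ)) (hU : U ∈ 𝓝 u₀) :
    ∃ u₁ ∈ G ∩ U, ∃ S : Set (Mat g), IsPreconnected S ∧ S ⊆ Siegel g ∧ FinCover S r ∧
      (∀ᶠ u in 𝓝 u₁, B.ψ (χ u) ∈ S) ∧
      𝓝[S] (B.ψ (χ u₁)) ≤ map (fun u => B.ψ (χ u)) (𝓝 u₁) := by
  have hν : AnalyticAt ℂ (fun u => B.ψ (χ u)) u₀ := (B.an _ hχ.2.2).comp hχ.1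
  have hS : ∀ᶠ u in 𝓝 u₀, B.ψ (χ u) ∈ Siegel g :=
    (hχ.1.continuousAt.eventually (Metric.isOpen_ball.mem_nhds hχ.2.2)).mono
      fun u hu => (B.mem _ hu).1
  obtain ⟨N, c, hN, h4, hc, hO⟩ := exists_Og hS.self_of_nhds
  have hG' := glob hN h4 hc
  have hi : Injective (fderiv ℂ (fun u => Φg c (B.ψ (χ u))) u₀) := by
    rw [injective_iff_map_eq_zero]
    intro v hv
    rw [fderiv_fun_comp u₀ (hG'.an _ hO).differentiableAt hν.differentiableAt] at hv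
    exact (injective_iff_map_eq_zero _).1 (Box.NB.inj B hχ he) v
      (hG'.imm _ hS.self_of_nhds hO _ (fderiv_symm hν hS v) hv)
  obtain ⟨E, e', R, hE, h1, h2⟩ := etl_germ (F := fun u => Φg c (B.ψ (χ u)))
    (fun j => B.nash_yq' hg hχ hN (isCh_add_hc h4 hc j.2) (isCh_qc h4 j.1) (hO.2 j.2)) hi
  have h3 : ∀ᶠ u in 𝓝 u₀, B.ψ (χ u) ∈ Og c := hν.continuousAt.eventually (hG'.op.mem_nhds hO)
  have := GF_neBot u₀
  obtain ⟨u', hu'⟩ := (GF_nhds (GF_nhds (h2.and ((h1.and (h3.and (hS.and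
    (hν.eventually_analyticAt.and hU)))).filter_mono (GF_le u₀))))).exists
  obtain ⟨u₁, h5, h6⟩ := mem_closure_iff_nhds.1 (dense_of_mem_residual hG u') _ hu'
  have h7 := Eventually.self_of_nhds h5
  exact ⟨u₁, ⟨h6, h7.2.2.2.2.2⟩, GD.germ ⟨_, _, _, E, e', R, hG', hE⟩ h7.2.2.2.2.1
    (Eventually.mono h5 fun u hu => ⟨hu.2.2.2.1, hu.2.2.1, hu.2.1.1, hu.1⟩) h7.2.1.2⟩

end Pool.Agent.MP_cf0a82_ag

end
end

section

open Complex Filter Topology Matrix Function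

noncomputable section

namespace Pool.Agent.MP_cf0a82_ag

open Pool.Agent.MP_f58063_ag

theorem selD {X Y : Type} [NormedAddCommGroup X] [NormedSpace ℂ X] [FiniteDimensional ℂ X]
    [NormedAddCommGroup Y] [NormedSpace ℂ Y] [FiniteDimensional ℂ Y] {ι : Type} [Fintype ι]
    (b : Module.Basis ι ℂ X) {Ω : Set X} {R : Set (X → ℂ)} (hR : DRing b Ω R) (hc : R.Countable)
    {f : X → Y} (hf : AnalyticOnNhd ℂ f Ω) :
    IsMeagre (f '' {q | q ∈ Ω ∧ ¬ ∀ y, ∃ v, Tan R q v ∧ fderiv ℂ f q v = y}) := by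
  have : Countable R := hc.to_subtype
  refine (isMeagre_iUnion fun t : Σ r : ℕ, Fin r → R =>
    sard_level (fun x j => (t.2 j).1 x) f).mono ?_
  rintro _ ⟨q, ⟨hq, hno⟩, rfl⟩
  obtain ⟨r, h, hh, hsurj, hideal⟩ := gen b hR hq
  have han := analyticAt_pi_iff.2 fun j => hR.an _ (hh j).1 q hq
  refine Set.mem_iUnion.2 ⟨⟨r, fun j => ⟨h j, (hh j).1⟩⟩, q, ⟨han, hf q hq,
    funext fun j => (hh j).2, hsurj, fun hall => hno fun y => (hall y).imp fun v hv =>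
      ⟨fun g hg h0 => tangent_level han hsurj (hR.an g hg q hq) ?_ hv.1, hv.2⟩⟩, rfl⟩
  filter_upwards [hideal g hg h0] with x hx hx0
  exact hx fun j => (congrFun hx0 j).trans (hh j).2

/-- selection of a point at which the family deforms in all directions -/
theorem pick {N d k : ℕ} {W : Type} [NormedAddCommGroup W] [NormedSpace ℂ W]
    [FiniteDimensional ℂ W] {T : Type} [Countable T] {Ω Z : T → Set ((Fin N → ℂ) × W)}
    {R : T → Set ((Fin N → ℂ) × W → ℂ)} (hΩ : ∀ t, IsOpen (Ω t)) (hc : ∀ t, (R t).Countable)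
    (hR : ∀ t, ∀ f ∈ R t, AnalyticOnNhd ℂ f (Ω t)) (hZ : ∀ t, Z t ⊆ Ω t)
    {x : (Fin d → ℂ) → Fin N → ℂ} (hx : AnalyticAt ℂ x 0) (hi : Injective (fderiv ℂ x 0))
    (h : ∀ᶠ m in 𝓝 0, ∃ t w, DimGE {w' | (x m, w') ∈ Z t} w k) {G U : Set (Fin d → ℂ)}
    (hG : G ∈ residual (Fin d → ℂ)) (hU : U ∈ 𝓝 0) :
    ∃ m ∈ G ∩ U, ∃ t w, (x m, w) ∈ Z t ∧ Injective (fderiv ℂ x m) ∧
      (∀ ξ, ∃ η, Tan (R t) (x m, w) (fderiv ℂ x m ξ, η)) ∧
      ∃ L : (Fin k → ℂ) →L[ℂ] W, Injective L ∧ ∀ ζ, Tan (R t) (x m, w) (0, L ζ) := by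
  have : CompleteSpace W := FiniteDimensional.complete ℂ W
  obtain ⟨B, hB, hBo, hB0⟩ := mem_nhds_iff.1
    (inter_mem hU (hx.eventually_analyticAt.and ((eventually_inj hx hi).and h)))
  let φ : (Fin d → ℂ) × W → (Fin N → ℂ) × W := fun q => (x q.1, q.2)
  have hφ : ∀ q : (Fin d → ℂ) × W, q.1 ∈ B → AnalyticAt ℂ φ q := fun q hq =>
    (AnalyticAt.comp (g := x) (hB hq).2.1 analyticAt_fst).prod analyticAt_snd
  choose R' h1 h2 _ h3 using fun t => exists_DRing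
    (DRing_all (Module.finBasis ℂ ((Fin d → ℂ) × W)) {q | q.1 ∈ B ∧ φ q ∈ Ω t})
    (S := (· ∘ φ) '' R t) (by
      rintro _ ⟨F, hF, rfl⟩ q hq
      exact (hR t F hF _ hq.2).comp (hφ q hq.1)) ((hc t).image _)
  have hM := isMeagre_iUnion fun t => selD _ (h1 t) (h3 t) (f := Prod.fst) fun _ _ => analyticAt_fst
  obtain ⟨m, hmB, hmG, hm⟩ := (dense_of_mem_residual (inter_mem hG hM)).inter_open_nonempty B hBo
    ⟨0, hB0⟩
  obtain ⟨hmU, a1, a2, t, w, γ, -, b1, b2, b3⟩ := hB hmB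
  have b4 : ∀ s, AnalyticAt ℂ γ s → HasFDerivAt (fun s => (x m, γ s))
      ((0 : _ →L[ℂ] _).prod (fderiv ℂ γ s)) s := fun s hs =>
    (hasFDerivAt_const _ _).prodMk hs.differentiableAt.hasFDerivAt
  obtain ⟨s, hs, hgen⟩ := generic_point ((hc t).image (· ∘ fun s => (x m, γ s)))
    (b1.eventually_analyticAt.and ((eventually_inj b1 b2).and b3)) (by
      rintro _ ⟨F, hF, rfl⟩ s hs
      exact AnalyticAt.comp (g := F) (hR t F hF _ (hZ t hs.2.2)) (analyticAt_const.prod hs.1))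
  obtain ⟨c1, c2, c3⟩ := interior_subset hs
  have hF := fun F hF => (hR t F hF _ (hZ t c3)).differentiableAt.hasFDerivAt
  refine ⟨m, ⟨hmG, hmU⟩, t, γ s, c3, a2, fun ξ => ?_, fderiv ℂ γ s, c2, fun ζ F hF' h0 => ?_⟩
  · obtain ⟨v, h4, rfl⟩ : ∃ v, Tan (R' t) (m, γ s) v ∧ fderiv ℂ Prod.fst (m, γ s) v = ξ := by
      by_contra h4
      exact hm (Set.mem_iUnion.2 ⟨t, (m, γ s), ⟨⟨hmB, hZ t c3⟩, fun h5 => h4 (h5 ξ)⟩, rfl⟩)
    have h5 : HasFDerivAt φ (((fderiv ℂ x m).comp (.fst ℂ _ _)).prod (.snd ℂ _ _)) (m, γ s) :=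
      (a1.differentiableAt.hasFDerivAt.comp (m, γ s) hasFDerivAt_fst).prodMk hasFDerivAt_snd
    refine ⟨v.2, fun F hF' h0 => ?_⟩
    have h6 := h4 _ (h2 t ⟨F, hF', rfl⟩) h0
    rw [((hF F hF').comp (m, γ s) h5).fderiv] at h6
    rw [fderiv_fst]
    exact h6
  · exact congrArg (fun L : _ →L[ℂ] ℂ => L ζ) (((hF F hF').comp s (b4 s c1)).unique
      ((hasFDerivAt_const (0 : ℂ) s).congr_of_eventuallyEq (hgen _ ⟨F, hF', rfl⟩ h0)))

end Pool.Agent.MP_cf0a82_ag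

end
end

section

open Complex Filter Topology Matrix Function

noncomputable section

namespace Pool.Agent.MP_cf0a82_ag

open Pool.Agent.MP_f58063_ag

/-- spreading out a family of discs over a Nash base -/
theorem spread_abs {N d k : ℕ} {W : Type} [NormedAddCommGroup W] [NormedSpace ℂ W]
    [FiniteDimensional ℂ W] {T : Type} [Countable T] {ι : Type} [Fintype ι]
    (b : Module.Basis ι ℂ ((Fin N → ℂ) × W)) {Ω Z : T → Set ((Fin N → ℂ) × W)}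
    {R : T → Set ((Fin N → ℂ) × W → ℂ)} (hR : ∀ t, NR b (Ω t) (R t))
    (h1 : ∀ t j, (fun q : (Fin N → ℂ) × W => q.1 j) ∈ R t) (hZ : ∀ t, Z t ⊆ Ω t)
    (hZ' : ∀ t, ∀ q ∈ Z t, ∀ q' ∈ Ω t, (∀ f ∈ R t, f q = 0 → f q' = 0) → q' ∈ Z t)
    {x : (Fin d → ℂ) → Fin N → ℂ} (hx : AnalyticAt ℂ x 0) (hi : Injective (fderiv ℂ x 0))
    (h : ∀ᶠ m in 𝓝 0, ∃ t w, DimGE {w' | (x m, w') ∈ Z t} w k) {G U : Set (Fin d → ℂ)}
    (hG : G ∈ residual (Fin d → ℂ)) (hU : U ∈ 𝓝 0) :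
    ∃ (r : ℕ) (e : Fin r → Fin N) (χ : (Fin r → ℂ) → Fin N → ℂ) (u₀ : Fin r → ℂ), d ≤ r ∧
      AnalyticAt ℂ χ u₀ ∧ (∀ i, NashAt (fun u => χ u i) u₀) ∧ (∃ m ∈ G ∩ U, χ u₀ = x m) ∧
      ∀ᶠ u in 𝓝 u₀, (∀ i, χ u (e i) = u i) ∧ ∃ t w, DimGE {w' | (χ u, w') ∈ Z t} w k := by
  classical
  obtain ⟨m, hm, t, w, hq, hinj, htan, L, hL, hLt⟩ := pick (k := k) (fun t => (hR t).op)
    (fun t => (hR t).ct) (fun t => (hR t).dr.an) hZ hx hi h hG hU
  obtain ⟨r0, n, h0, σ, p, -, hP, -⟩ := NR.prm b (hR t) (hZ t hq)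
  have hd := hP.an.differentiableAt.hasFDerivAt
  have hGa : AnalyticAt ℂ (fun s => (σ s).1) p := analyticAt_fst.comp hP.an
  have hHa : AnalyticAt ℂ (fun s => (σ s).2) p := analyticAt_snd.comp hP.an
  have hG1 : ∀ v, fderiv ℂ (fun s => (σ s).1) p v = (fderiv ℂ σ p v).1 := fun v => by
    rw [hd.fst.fderiv]; rfl
  have hH1 : ∀ v, fderiv ℂ (fun s => (σ s).2) p v = (fderiv ℂ σ p v).2 := fun v => by
    rw [hd.snd.fderiv]; rfl
  have hrk : ∀ᶠ s in 𝓝 p, rkd (fun s => (σ s).1) s ≤ rkd (fun s => (σ s).1) p :=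
    hP.rnk (Fin N) (fun j q => q.1 j) (h1 t)
  choose v hv using fun i : Fin k => (hP.tan _).1 (hLt (Pi.single i 1))
  let L' : (Fin k → ℂ) →L[ℂ] (Fin n → ℂ) :=
    ∑ i, (ContinuousLinearMap.proj (R := ℂ) (φ := fun _ : Fin k => ℂ) i).smulRight (v i)
  have hL' : ∀ ζ, fderiv ℂ σ p (L' ζ) = (0, L ζ) := fun ζ => by
    have e1 : L' ζ = ∑ i, ζ i • v i := by
      simp only [L', _root_.sum_apply, ContinuousLinearMap.smulRight_apply,
        ContinuousLinearMap.proj_apply]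
    have e2 : ζ = ∑ i, ζ i • (Pi.single i 1 : Fin k → ℂ) := by
      conv_lhs => rw [← Finset.univ_sum_single ζ]
      refine Finset.sum_congr rfl fun i _ => ?_
      rw [← Pi.single_smul, smul_eq_mul, mul_one]
    rw [e1, map_sum]
    simp only [map_smul, hv]
    conv_rhs => rw [e2, map_sum]
    refine Prod.ext ?_ ?_
    · simp [Prod.fst_sum]
    · simp [Prod.snd_sum]
  have hfib := fib_ev hGa hrk hHa L' (fun ζ => by rw [hG1, hL']) fun ζ hζ => by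
    rw [hH1, hL'] at hζ
    exact hL (hζ.trans (map_zero L).symm)
  have hGn : ∀ i, NashAt (fun s => (σ s).1 i) p := fun i =>
    hP.ns ((ContinuousLinearMap.proj (R := ℂ) (φ := fun _ : Fin N => ℂ) i).comp
      (ContinuousLinearMap.fst ℂ (Fin N → ℂ) W))
  obtain ⟨r, e, ν, u₀, hdr, hν, hνn, hν0, hsec⟩ := nash_sec (G := fun s => (σ s).1) hGn
    (fderiv ℂ x m) hinj fun ξ => by
      obtain ⟨η, hη⟩ := htan ξ
      obtain ⟨w', hw'⟩ := (hP.tan _).1 hη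
      exact ⟨w', by rw [hG1, hw']⟩
  have hT : Tendsto ν (𝓝 u₀) (𝓝 p) := by
    have := hν.continuousAt.tendsto
    rwa [hν0] at this
  refine ⟨r, e, fun u => (σ (ν u)).1, u₀, hdr, ?_, fun i => ?_, ⟨m, hm, ?_⟩, ?_⟩
  · exact AnalyticAt.comp (g := fun s => (σ s).1) (hν0 ▸ hGa) hν
  · exact NashAt.comp (f := fun s => (σ s).1 i) (hν0 ▸ hGn i) hν hνn
  · change (σ (ν u₀)).1 = x m
    rw [hν0, hP.val]
  filter_upwards [hsec, hT.eventually hfib, hT.eventually hP.van.eventually_nhds] with u k1 k2 k3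
  obtain ⟨γ, g1, g2, g3, g4, g5⟩ := k2
  refine ⟨k1, t, (σ (ν u)).2, fun ζ => (σ (γ ζ)).2, congrArg (fun s => (σ s).2) g2, g3, g4, ?_⟩
  have hT' : Tendsto γ (𝓝 0) (𝓝 (ν u)) := by
    have := g1.continuousAt.tendsto
    rwa [g2] at this
  filter_upwards [g5, hT'.eventually k3] with ζ j1 j2
  rw [← j1]
  exact hZ' t _ hq _ j2.1 j2.2

end Pool.Agent.MP_cf0a82_ag

end
end

section

open Complex Filter Topology Matrix Function

noncomputable section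

namespace Pool.Agent.MP_cf0a82_ag

open Pool.Agent.MP_f58063_ag

variable {g : ℕ} {B : Box g} (A : Atl B) (t : ℕ × (LL g → ℚ)) {y : DD g × EE g}

lemma xksinga_an (c : LL g → ℂ) {a : ℕ} (hy : y ∈ A.O a) :
    AnalyticAt ℂ (fun e : DD g × EE g => thc c (B.ψ e.1) (A.σ a e)) y := by
  have h1 : AnalyticAt ℂ (fun e : DD g × EE g => (B.ψ e.1, A.σ a e)) y :=
    (AnalyticAt.comp (f := Prod.fst) (B.ψ_an (A.sub a y hy)) analyticAt_fst).prod (A.ns a y hy).1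
  exact AnalyticAt.comp (f := fun e : DD g × EE g => (B.ψ e.1, A.σ a e))
    (thc_analytic c (Siegel_sub (B.sieg (A.sub a y hy))) _) h1

lemma xksinga_jf {N : ℕ} (hN : N ≠ 0) {c : (LL g → ℚ) × (LL g → ℚ)}
    (hc : IsCh N (rq c.1) ∧ IsCh N (rq c.2)) :
    JF (2 * N ^ 2) 3 0 (idm 3) fun p : PP Unit g => tp c p.1 (p.2 ()) := by
  have h := JF_tp (ι := Unit) hN hc fun _ => 1
  have e1 : (fun l l' : Unit => (3 * (1 * 1) : ℤ)) = idm 3 := by
    funext l l'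
    simp [idm]
  have e2 : lc (fun _ : Unit => 1) (tp c) = fun p : PP Unit g => tp c p.1 (p.2 ()) := by
    funext p
    simp [lc]
  rwa [e1, e2] at h

lemma xksinga_ext {L : EE g →L[ℂ] ℂ} (h : ∀ i, L (ee i) = 0) (v : EE g) : L v = 0 := by
  rw [← Finset.univ_sum_single v, map_sum]
  refine Finset.sum_eq_zero fun i _ => ?_
  have : Pi.single i (v i) = v i • (ee i : EE g) := by
    rw [ee, ← Pi.single_smul, smul_eq_mul, mul_one]
  rw [this, map_smul, h, smul_zero]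

lemma xksinga_slice {a : ℕ} (hy : y ∈ A.O a) (v : EE g) :
    fderiv ℂ (fun e : DD g × EE g => thc (fun _ => 0) (B.ψ e.1) (A.σ a e)) y (0, v) =
      fderiv ℂ (theta (B.ψ y.1)) (A.σ a y) (fderiv ℂ (A.σ a) y (0, v)) := by
  have h0 := hasFDerivAt_prodMk_right (𝕜 := ℂ) y.1 y.2
  have h1 := HasFDerivAt.comp y.2 (f := fun w => (y.1, w))
    (xksinga_an A (fun _ => 0) hy).differentiableAt.hasFDerivAt h0
  have h2 := HasFDerivAt.comp y.2 (f := fun w => A.σ a (y.1, w))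
    (theta_analytic (Siegel_sub (B.sieg (A.sub a y hy))) (A.σ a y)).differentiableAt.hasFDerivAt
    (HasFDerivAt.comp y.2 (f := fun w => (y.1, w))
      (A.ns a y hy).1.differentiableAt.hasFDerivAt h0)
  exact congrArg (fun L => L v) (h1.unique (h2.congr_of_eventuallyEq
    (Eventually.of_forall fun w => xstf_zero _ _)))

theorem Atl.isOpen_Ω : IsOpen (A.Ω t) := by
  refine isOpen_iff_mem_nhds.2 fun y hy => ?_
  filter_upwards [(A.op t.1).mem_nhds hy.1,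
    (xksinga_an A _ hy.1).continuousAt.eventually_ne hy.2.1,
    (xksinga_an A _ hy.1).continuousAt.eventually_ne hy.2.2] with e h1 h2 h3
  exact ⟨h1, h2, h3⟩

theorem Atl.F_nash (hg : 0 < g) (hy : y ∈ A.O t.1) : NashAt (A.F t) y := by
  obtain ⟨N, hN, h⟩ := exists_level ![0, t.2]
  have h1 : B.N * N ≠ 0 := mul_ne_zero B.hN hN
  exact B.jn_ext hg (mul_ne_zero two_ne_zero (pow_ne_zero 2 h1))
    (xksinga_jf h1 (c := (0, t.2)) ⟨h 0 _ (dvd_mul_left _ _), h 1 _ (dvd_mul_left _ _)⟩)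
    ((B.JF_φ (A.j t.1)).mono (mul_dvd_mul_left 2 (pow_dvd_pow_of_dvd (dvd_mul_right _ _) 2)))
    (z := fun e _ => A.σ t.1 e) (Box.NB.fst (A.sub _ y hy)) (fun _ => A.ns _ y hy) (A.ne _ y hy)

theorem Atl.mem_Z (hy : y ∈ A.Ω t) :
    y ∈ A.Z t ↔ A.F t y = 0 ∧ ∀ i, dv ((0, ee i) : DD g × EE g) (A.F t) y = 0 := by
  obtain ⟨h0, h1, h2⟩ := id hy
  obtain ⟨u, hu⟩ : ∃ u : DD g × EE g → ℂ, u = fun e => thc (rq t.2) (B.ψ e.1) (A.σ t.1 e) *
    thc (rq (-t.2)) (B.ψ e.1) (A.σ t.1 e) / B.φ (A.j t.1) (B.ψ e.1) (A.σ t.1 e) := ⟨_, rfl⟩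
  have ua : AnalyticAt ℂ u y := hu ▸ ((xksinga_an A _ h0).mul (xksinga_an A _ h0)).div
    (xbns_an (A.ns _ y h0).1 (Box.NB.fst (A.sub _ y h0)) _) (A.ne _ y h0)
  have u0 : u y ≠ 0 := hu ▸ div_ne_zero (mul_ne_zero h1 h2) (A.ne _ y h0)
  have hF : A.F t = fun e => thc (fun _ => 0) (B.ψ e.1) (A.σ t.1 e) * u e := by
    funext e
    have e0 : rq (0 : LL g → ℚ) = fun _ => 0 := funext fun i => by simp [rq]
    simp only [hu, Atl.F, tp, neg_zero, zero_sub, e0]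
    ring
  have hs : Surjective ((fderiv ℂ (A.σ t.1) y).comp (ContinuousLinearMap.inr ℂ (DD g) (EE g))) :=
    LinearMap.injective_iff_surjective (f := ((fderiv ℂ (A.σ t.1) y).comp
      (ContinuousLinearMap.inr ℂ (DD g) (EE g))).toLinearMap) |>.1
      ((injective_iff_map_eq_zero _).2 (A.inj _ y h0))
  have key : theta (B.ψ y.1) (A.σ t.1 y) = 0 → ∀ v, fderiv ℂ (A.F t) y (0, v) =
      u y * fderiv ℂ (theta (B.ψ y.1)) (A.σ t.1 y) (fderiv ℂ (A.σ t.1) y (0, v)) := fun h v => by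
    rw [hF, fderiv_fun_mul (xksinga_an A _ h0).differentiableAt ua.differentiableAt, xstf_zero, h,
      ← xksinga_slice A h0]
    simp
  have e1 : A.F t y = 0 ↔ theta (B.ψ y.1) (A.σ t.1 y) = 0 := by
    rw [hF]
    simp only [xstf_zero, mul_eq_zero, u0, or_false]
  rw [e1]
  refine ⟨fun h => ⟨h.2.1, fun i => ?_⟩, fun h => ⟨hy, h.1, ?_⟩⟩
  · rw [dv, key h.2.1, h.2.2, _root_.zero_apply, mul_zero]
  · ext1 w
    obtain ⟨v, rfl⟩ := hs w
    exact xksinga_ext (L := (fderiv ℂ (theta (B.ψ y.1)) (A.σ t.1 y)).comp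
      ((fderiv ℂ (A.σ t.1) y).comp (ContinuousLinearMap.inr ℂ (DD g) (EE g))))
      (fun i => (mul_eq_zero.1 ((key h.1 _).symm.trans (h.2 i))).resolve_left u0) v

end Pool.Agent.MP_cf0a82_ag

end
end

section

open Complex Filter Topology Matrix Function

noncomputable section

namespace Pool.Agent.MP_cf0a82_ag

open Pool.Agent.MP_f58063_ag

lemma xksingb_c {g : ℕ} {τ : Mat g} (hτ : τ ∈ PosIm g) (z : EE g) :
    ∃ c : LL g → ℚ, thc (rq c) τ z ≠ 0 ∧ thc (rq (-c)) τ z ≠ 0 := by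
  obtain ⟨b, h1, h2⟩ := xthb_pt2 hτ z
  have hc : Continuous (theta τ) :=
    continuous_iff_continuousAt.2 fun x => (theta_analytic hτ x).continuousAt
  have hU : IsOpen {a : EE g | theta τ (z + a) * theta τ (z - a) ≠ 0} :=
    isOpen_ne_fun (by fun_prop) continuous_const
  obtain ⟨c, hc'⟩ := (tpt_dense hτ).exists_mem_open hU ⟨b, mul_ne_zero h1 h2⟩
  obtain ⟨h3, h4⟩ := mul_ne_zero_iff.1 hc'
  have e : z + xctpP τ (rq (-c)) = z - tpt τ c := by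
    funext i
    simp only [Pi.add_apply, Pi.sub_apply, Pi.neg_apply, xctpP, tpt, rq, Rat.cast_neg, mul_neg,
      Finset.sum_neg_distrib]
    ring
  refine ⟨c, ?_, ?_⟩
  · rw [xctp_thc]
    exact mul_ne_zero (mul_ne_zero (exp_ne_zero _) (exp_ne_zero _)) h3
  · rw [xctp_thc, e]
    exact mul_ne_zero (mul_ne_zero (exp_ne_zero _) (exp_ne_zero _)) h4

lemma xksingb_map {X Y : Type} [NormedAddCommGroup X] [NormedSpace ℂ X] [NormedAddCommGroup Y]
    [NormedSpace ℂ Y] {S : Set X} {T : Set Y} {p : X} {k : ℕ} {f : X → Y} (h : DimGE S p k)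
    (hf : AnalyticAt ℂ f p) (hi : Injective (fderiv ℂ f p))
    (hT : ∀ᶠ x in 𝓝 p, x ∈ S → f x ∈ T) : DimGE T (f p) k := by
  obtain ⟨γ, rfl, h1, h2, h3⟩ := h
  refine ⟨f ∘ γ, rfl, hf.comp h1, ?_, ?_⟩
  · rw [fderiv_comp 0 hf.differentiableAt h1.differentiableAt]
    exact hi.comp h2
  · filter_upwards [h3, h1.continuousAt.eventually hT] with y a b using b a

/-- the dimension of the singular locus can be read in the charts -/
theorem Atl.dim_iff {g k : ℕ} {B : Box g} (A : Atl B) {x : DD g} (hx : x ∈ B.ball) :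
    B.ψ x ∈ AM g k ↔ ∃ t w, DimGE {w' | (x, w') ∈ A.Z t} w k := by
  have hτ := B.sieg hx
  have hσ : ∀ a w, (x, w) ∈ A.O a → AnalyticAt ℂ (fun w' => A.σ a (x, w')) w := fun a w h =>
    (A.ns a _ h).1.comp (f := fun w' => (x, w')) (analyticAt_const.prod analyticAt_id)
  constructor
  · rintro ⟨-, z, h⟩
    obtain ⟨a, ρ, h1, h2, h3⟩ := A.cov x hx z
    obtain ⟨c, h4, h5⟩ := xksingb_c hτ.2 z
    refine ⟨(a, c), ρ z, xksingb_map h h1 ?_ ?_⟩
    · have e : fderiv ℂ ((fun w' => A.σ a (x, w')) ∘ ρ) z = ContinuousLinearMap.id ℂ _ :=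
        (EventuallyEq.fderiv_eq (f := id) h3).trans fderiv_id
      rw [fderiv_comp z (hσ a _ h2).differentiableAt h1.differentiableAt] at e
      refine Injective.of_comp (f := fderiv ℂ (fun w' => A.σ a (x, w')) (ρ z)) ?_
      rw [← ContinuousLinearMap.coe_comp, e]
      exact injective_id
    · have e1 : ∀ᶠ z' in 𝓝 z, (x, ρ z') ∈ A.O a :=
        (continuousAt_const.prodMk h1.continuousAt).eventually ((A.op a).mem_nhds h2)
      filter_upwards [h3, e1, (thc_analytic_z _ hτ.2 z).continuousAt.eventually_ne h4,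
        (thc_analytic_z _ hτ.2 z).continuousAt.eventually_ne h5] with z' a1 a2 a3 a4 a5
      refine ⟨⟨a2, ?_, ?_⟩, ?_⟩ <;> simp only [a1] <;> assumption
  · rintro ⟨t, w, h⟩
    have hw : (x, w) ∈ A.O t.1 := by
      obtain ⟨γ, rfl, -, -, h3⟩ := h
      exact h3.self_of_nhds.1.1
    refine ⟨hτ, _, xksingb_map h (hσ t.1 w hw) ?_ (Eventually.of_forall fun w' h' => h'.2)⟩
    refine (injective_iff_map_eq_zero _).2 fun v hv => A.inj t.1 _ hw v ?_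
    have e := ((A.ns t.1 _ hw).1.differentiableAt.hasFDerivAt.comp w
      (hasFDerivAt_prodMk_right (𝕜 := ℂ) x w)).fderiv
    rw [← hv]
    exact (congrArg (fun L : EE g →L[ℂ] EE g => L v) e).symm

end Pool.Agent.MP_cf0a82_ag

end
end

section

open Complex Filter Topology Matrix Function

noncomputable section

namespace Pool.Agent.MP_cf0a82_ag

open Pool.Agent.MP_f58063_ag

theorem xkspr_lift {g d : ℕ} (B : Box g) {f : (Fin d → ℂ) → Mat g} (hf : AnalyticAt ℂ f 0)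
    (hi : Injective (fderiv ℂ f 0)) (h0 : f 0 = B.ψ B.x₀) (h : ∀ᶠ m in 𝓝 0, f m ∈ Siegel g) :
    ∃ x : (Fin d → ℂ) → DD g, AnalyticAt ℂ x 0 ∧ Injective (fderiv ℂ x 0) ∧
      ∀ᶠ m in 𝓝 0, x m ∈ B.ball ∧ B.ψ (x m) = f m := by
  have hx₀ : B.x₀ ∈ B.ball := Metric.mem_ball_self B.hr
  obtain ⟨m1, m2, -⟩ := B.mem _ hx₀
  rw [← h0] at m1 m2
  have ha : AnalyticAt ℂ (fun m i => yq B.c₀ (B.yc i) (f m)) 0 := AnalyticAt.pi fun i =>
    ((th_analytic _ _ m1.2).comp hf).div ((th_analytic _ _ m1.2).comp hf) m2.2.1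
  have ht : Tendsto f (𝓝 0) (map B.ψ (𝓝 B.x₀)) :=
    (tendsto_nhdsWithin_iff.2 ⟨h0 ▸ hf.continuousAt.tendsto, h⟩).mono_right (B.cov _ hx₀)
  have he : ∀ᶠ m in 𝓝 0, (fun i => yq B.c₀ (B.yc i) (f m)) ∈ B.ball ∧
      B.ψ (fun i => yq B.c₀ (B.yc i) (f m)) = f m := by
    filter_upwards [ht (image_mem_map (B.isOpen_ball.mem_nhds hx₀))] with m hm
    obtain ⟨y, hy, e⟩ := hm
    have : (fun i => yq B.c₀ (B.yc i) (f m)) = y := funext fun i => e ▸ (B.mem y hy).2.2 i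
    rw [this]
    exact ⟨hy, e⟩
  refine ⟨_, ha, ?_, he⟩
  have h1 := ((B.ψ_an he.self_of_nhds.1).differentiableAt.hasFDerivAt.comp 0
    ha.differentiableAt.hasFDerivAt).congr_of_eventuallyEq (f₁ := f)
    (he.mono fun m hm => hm.2.symm)
  rw [h1.fderiv] at hi
  exact Injective.of_comp hi

/-- a germ in the Andreotti-Mayer locus lies in a Nash germ in the Andreotti-Mayer locus -/
theorem spread {g k d : ℕ} (hg : 0 < g) (B : Box g) {f : (Fin d → ℂ) → Mat g}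
    (hf : AnalyticAt ℂ f 0) (hi : Injective (fderiv ℂ f 0)) (h0 : f 0 = B.ψ B.x₀)
    (h : ∀ᶠ m in 𝓝 0, f m ∈ AM g k) {G U : Set (Fin d → ℂ)} (hG : G ∈ residual (Fin d → ℂ))
    (hU : U ∈ 𝓝 0) :
    ∃ (r : ℕ) (e : Fin r → Fin (NN g)) (χ : (Fin r → ℂ) → DD g) (u₀ : Fin r → ℂ), d ≤ r ∧
      B.NB χ u₀ ∧ (∃ m ∈ G ∩ U, B.ψ (χ u₀) = f m) ∧
      ∀ᶠ u in 𝓝 u₀, (∀ i, χ u (e i) = u i) ∧ B.ψ (χ u) ∈ AM g k := by
  obtain ⟨A⟩ := atl_exists hg B
  obtain ⟨x, hx, hi', he⟩ := xkspr_lift B hf hi h0 (h.mono fun m hm => hm.1)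
  choose R hR hS using fun t : ℕ × (LL g → ℚ) => exists_NR (Module.finBasis ℂ (DD g × EE g))
    (A.isOpen_Ω t) (S := insert (A.F t) ((Set.range fun i => dv ((0, ee i) : DD g × EE g) (A.F t))
      ∪ Set.range fun j (q : DD g × EE g) => q.1 j))
    (((Set.countable_range _).union (Set.countable_range _)).insert _) (by
      rintro _ (rfl | ⟨i, rfl⟩ | ⟨j, rfl⟩) y hy
      · exact A.F_nash t hg hy.1
      · exact (A.F_nash t hg hy.1).dv _
      · exact NashAt.clm ((ContinuousLinearMap.proj j).comp (ContinuousLinearMap.fst ℂ _ _)) y)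
  obtain ⟨r, e, χ, u₀, h1, h2, h3, ⟨m, hm, h4⟩, h5⟩ := spread_abs (k := k) (Z := A.Z) _ hR
    (fun t j => hS t (Or.inr (Or.inr ⟨j, rfl⟩))) (fun t y hy => hy.1)
    (fun t q hq q' hq' h => by
      obtain ⟨h1, h2⟩ := (A.mem_Z t hq.1).1 hq
      exact (A.mem_Z t hq').2 ⟨h _ (hS t (Or.inl rfl)) h1,
        fun i => h _ (hS t (Or.inr (Or.inl ⟨i, rfl⟩))) (h2 i)⟩) hx hi'
    (by
      filter_upwards [h, he] with m h1 h2
      exact (A.dim_iff h2.1).1 (h2.2 ▸ h1)) hG (inter_mem hU he)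
  have h6 : χ u₀ ∈ B.ball := h4 ▸ hm.2.2.1
  refine ⟨r, e, χ, u₀, h1, ⟨h2, h3, h6⟩, ⟨m, ⟨hm.1, hm.2.1⟩, h4 ▸ hm.2.2.2⟩, ?_⟩
  filter_upwards [h5, h2.continuousAt.eventually (B.isOpen_ball.mem_nhds h6)] with u h7 h8
  exact ⟨h7.1, (A.dim_iff h8).2 h7.2⟩

end Pool.Agent.MP_cf0a82_ag

end
end

section

open Complex Filter Topology Matrix Function

noncomputable section

namespace Pool.Agent.MP_cf0a82_ag

open Pool.Agent.MP_f58063_ag

/-- the matrix `A + τ B` -/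
def xkendgM {g : ℕ} (τ : Mat g) (A B : Fin g → Fin g → ℤ) (i j : Fin g) : ℂ :=
  (A i j : ℂ) + ∑ k, τ i k * B k j

/-- the equation of the locus where a block datum gives an endomorphism -/
def xkendgE {g : ℕ} (τ : Mat g) (A B C D : Fin g → Fin g → ℤ) (i j : Fin g) : ℂ :=
  ∑ l, xkendgM τ A B i l * τ l j - xkendgM τ C D i j

theorem xkendg_data {g : ℕ} (τ : Mat g) (M : (Fin g → ℂ) →ₗ[ℂ] (Fin g → ℂ))
    (hM : Set.MapsTo M (lattice τ) (lattice τ)) :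
    ∃ A B C D : Fin g → Fin g → ℤ, (∀ z i, M z i = ∑ j, xkendgM τ A B i j * z j) ∧
      ∀ i j, xkendgE τ A B C D i j = 0 := by
  have h1 : ∀ j : Fin g, (Pi.single j 1 : Fin g → ℂ) ∈ lattice τ := by
    intro j
    refine ⟨Pi.single j 1, 0, ?_⟩
    funext i
    by_cases h : i = j
    · subst h; simp
    · simp [h]
  have h2 : ∀ j : Fin g, (fun i => τ i j) ∈ lattice τ := by
    intro j
    refine ⟨0, Pi.single j 1, ?_⟩
    funext i
    simp [Pi.single_apply]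
  choose a b hab using fun j => hM (h1 j)
  choose c d hcd using fun j => hM (h2 j)
  have h3 : ∀ z i, M z i = ∑ j, xkendgM τ (fun i j => a j i) (fun i j => b j i) i j * z j := by
    intro z i
    have hz : z = ∑ j, z j • (Pi.single j 1 : Fin g → ℂ) := by
      funext k
      simp [Finset.sum_apply, Pi.single_apply]
    conv_lhs => rw [hz, map_sum]
    rw [Finset.sum_apply]
    refine Finset.sum_congr rfl fun j _ => ?_
    rw [map_smul, hab j, Pi.smul_apply, smul_eq_mul, mul_comm]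
    rfl
  refine ⟨fun i j => a j i, fun i j => b j i, fun i j => c j i, fun i j => d j i, h3, ?_⟩
  intro i j
  have h4 := congrFun (hcd j) i
  rw [h3] at h4
  exact sub_eq_zero.2 h4

theorem xkendg_scal {g : ℕ} (τ : Mat g) (hτ : τ ∈ Siegel g) (hE : EndZ τ)
    (A B C D : Fin g → Fin g → ℤ) (h : ∀ i j, xkendgE τ A B C D i j = 0) :
    ∃ n : ℤ, ∀ (τ' : Mat g) (z : Fin g → ℂ) (i : Fin g),
      ∑ j, xkendgM τ' A B i j * z j = (n : ℂ) * z i := by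
  have hmap : Set.MapsTo (Matrix.toLin' (Matrix.of (xkendgM τ A B))) (lattice τ) (lattice τ) := by
    rintro w ⟨m, n, rfl⟩
    refine ⟨fun i => ∑ j, A i j * m j + ∑ j, C i j * n j,
      fun i => ∑ j, B i j * m j + ∑ j, D i j * n j, ?_⟩
    funext i
    have h1 : ∀ l, ∑ j, xkendgM τ A B i j * τ j l = xkendgM τ C D i l := fun l =>
      sub_eq_zero.1 (h i l)
    have h2 : ∑ j, xkendgM τ A B i j * ∑ l, τ j l * (n l : ℂ) =
        ∑ l, xkendgM τ C D i l * (n l : ℂ) := by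
      simp only [Finset.mul_sum]
      rw [Finset.sum_comm]
      refine Finset.sum_congr rfl fun l _ => ?_
      rw [← h1, Finset.sum_mul]
      exact Finset.sum_congr rfl fun j _ => by ring
    have h3 : ∀ (P Q : Fin g → Fin g → ℤ) (u : Fin g → ℤ), ∑ l, xkendgM τ P Q i l * (u l : ℂ) =
        ∑ l, (P i l : ℂ) * u l + ∑ k, τ i k * ∑ l, (Q k l : ℂ) * u l := by
      intro P Q u
      simp only [xkendgM, add_mul, Finset.sum_add_distrib, Finset.sum_mul, Finset.mul_sum]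
      rw [Finset.sum_comm]
      simp only [mul_assoc]
    simp only [Matrix.toLin'_apply, Matrix.mulVec, dotProduct, Matrix.of_apply, mul_add,
      Finset.sum_add_distrib]
    rw [h2, h3, h3]
    push_cast
    simp only [mul_add, Finset.sum_add_distrib]
    ring
  obtain ⟨n, hn⟩ := hE _ hmap
  have h4 : ∀ i j, xkendgM τ A B i j = if i = j then (n : ℂ) else 0 := by
    intro i j
    have := congrFun (hn (Pi.single j 1)) i
    simpa [Matrix.toLin'_apply, Pi.single_apply] using this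
  have hB : ∀ k j, B k j = 0 := by
    intro k j
    by_contra hne
    have hv : (fun k => (B k j : ℝ)) ≠ 0 := fun h0 => hne (by simpa using congrFun h0 k)
    have hpos := hτ.2 _ hv
    have h5 : ∀ i, ∑ l, (τ i l).im * (B l j : ℝ) = 0 := by
      intro i
      have h6 := congrArg Complex.im (h4 i j)
      rw [xkendgM] at h6
      have h7 : (if i = j then (n : ℂ) else 0).im = 0 := by split_ifs <;> simp
      rw [h7] at h6
      simpa [Complex.im_sum] using h6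
    have h8 : ∑ i, ∑ l, (B i j : ℝ) * (τ i l).im * (B l j : ℝ) = 0 := by
      refine Finset.sum_eq_zero fun i _ => ?_
      simp only [mul_assoc]
      rw [← Finset.mul_sum, h5, mul_zero]
    rw [h8] at hpos
    exact lt_irrefl _ hpos
  refine ⟨n, fun τ' z i => ?_⟩
  have h9 : ∀ j, xkendgM τ' A B i j = if i = j then (n : ℂ) else 0 := by
    intro j
    rw [← h4]
    simp [xkendgM, hB]
  simp [h9]

/-- the endomorphism ring of a very general member is `ℤ` -/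
theorem endZ_res {g : ℕ} {X : Type} [NormedAddCommGroup X] [NormedSpace ℂ X] {f : X → Mat g}
    {U : Set X} (hU : IsOpen U) (hc : IsPreconnected U) (hf : AnalyticOnNhd ℂ f U)
    (hS : ∀ x ∈ U, f x ∈ Siegel g) {x₀ : X} (h0 : x₀ ∈ U) (hE : EndZ (f x₀)) :
    {x | x ∈ U → EndZ (f x)} ∈ residual X := by
  let F : ((Fin g → Fin g → ℤ) × (Fin g → Fin g → ℤ) × (Fin g → Fin g → ℤ) ×
      (Fin g → Fin g → ℤ)) × Fin g × Fin g → X → ℂ := fun T x =>
    xkendgE (f x) T.1.1 T.1.2.1 T.1.2.2.1 T.1.2.2.2 T.2.1 T.2.2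
  have hent : ∀ i j, AnalyticOnNhd ℂ (fun x => f x i j) U := fun i j x hx =>
    analyticAt_pi_iff.1 (analyticAt_pi_iff.1 (hf x hx) i) j
  have hM : ∀ A B i j, AnalyticOnNhd ℂ (fun x => xkendgM (f x) A B i j) U := by
    intro A B i j x hx
    refine analyticAt_const.add ?_
    exact Finset.analyticAt_fun_sum _ fun k _ => (hent i k x hx).mul analyticAt_const
  have han : ∀ T, AnalyticOnNhd ℂ (F T) U := by
    intro T x hx
    refine AnalyticAt.sub ?_ (hM _ _ _ _ x hx)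
    exact Finset.analyticAt_fun_sum _ fun l _ => (hM _ _ _ _ x hx).mul (hent _ _ x hx)
  have hres := residual_ne (R := {φ ∈ Set.range F | φ x₀ ≠ 0})
    ((Set.countable_range F).mono fun _ h => h.1) hU hc (by
      rintro φ ⟨⟨T, rfl⟩, hφ⟩
      exact ⟨han T, x₀, h0, hφ⟩)
  filter_upwards [hres] with x hx hxU M hMl
  obtain ⟨A, B, C, D, h1, h2⟩ := xkendg_data (f x) M hMl
  have h3 : ∀ i j, xkendgE (f x₀) A B C D i j = 0 := by
    intro i j
    by_contra hne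
    exact hx hxU (F ((A, B, C, D), i, j)) ⟨⟨_, rfl⟩, hne⟩ (h2 i j)
  obtain ⟨n, hn⟩ := xkendg_scal (f x₀) (hS x₀ h0) hE A B C D h3
  refine ⟨n, fun z => ?_⟩
  funext i
  rw [h1, hn, Pi.smul_apply, smul_eq_mul]

end Pool.Agent.MP_cf0a82_ag

end
end

section

open Complex Filter Topology Matrix Function

noncomputable section

namespace Pool.Agent.MP_cf0a82_ag

open Pool.Agent.MP_f58063_ag

lemma xkmain_res {g : ℕ} {X : Type} [NormedAddCommGroup X] [NormedSpace ℂ X] {f : X → Mat g}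
    {p : X} (hf : AnalyticAt ℂ f p) (hS : ∀ᶠ x in 𝓝 p, f x ∈ Siegel g) (hE : EndZ (f p)) :
    ∃ G ∈ residual X, ∃ U ∈ 𝓝 p, ∀ x ∈ G ∩ U, EndZ (f x) := by
  let _ : NormedSpace ℝ X := NormedSpace.restrictScalars ℝ ℂ X
  obtain ⟨r, hr, h⟩ := Metric.eventually_nhds_iff_ball.1 (hf.eventually_analyticAt.and hS)
  exact ⟨_, endZ_res Metric.isOpen_ball (convex_ball p r).isPreconnected (fun x hx => (h x hx).1)
    (fun x hx => (h x hx).2) (Metric.mem_ball_self hr) hE, _, Metric.ball_mem_nhds p hr,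
    fun x hx => hx.1 hx.2⟩

theorem am_ineq {g k d : ℕ} (hk : k + 3 ≤ g) {τ : Mat g} (hE : EndZ τ)
    (h : DimGE (AM g k) τ d) : d + (k + 1) * (k + 2) / 2 ≤ g * (g + 1) / 2 := by
  by_cases hd : 2 * g ≤ d
  · have hg : 0 < g := by omega
    obtain ⟨f, rfl, hf, hi, hA⟩ := h
    have hS : ∀ᶠ x in 𝓝 0, f x ∈ Siegel g := hA.mono fun x hx => hx.1
    obtain ⟨B, hB⟩ := box_exists hS.self_of_nhds
    obtain ⟨G, hG, U, hU, h1⟩ := xkmain_res hf hS hE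
    obtain ⟨r, e, χ, u₀, hr, hχ, ⟨m, hm, h2⟩, h3⟩ := spread hg B hf hi hB.symm hA hG hU
    obtain ⟨G', hG', U', hU', h4⟩ := xkmain_res (f := fun u => B.ψ (χ u))
      ((B.ψ_an hχ.2.2).comp hχ.1) (h3.mono fun u hu => hu.2.1) (h2 ▸ h1 m hm)
    obtain ⟨u₁, ⟨k1, k2, k3, k4⟩, S, hc, hSS, hF, h5, h6⟩ := globalize hg B hχ
      (h3.mono fun u hu => hu.1) hG' (inter_mem hU' (hχ.eventually.and h3.eventually_nhds))
    have h7 := h4 u₁ ⟨k1, k2⟩
    obtain ⟨Δ, R, y, -, hC⟩ := hF.covD hSS (Γ := ⊤) inferInstance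
    have h8 := sharpB hg B k3 k4 (hC.mfd hc) hSS
      (bigMon_of hc hSS hF h5.self_of_nhds h7 hg (hd.trans hr)) h5 h6
      (h7.simple (hSS h5.self_of_nhds))
    omega
  · obtain ⟨m, rfl⟩ : ∃ m, g = m + 3 := ⟨g - 3, by omega⟩
    have h1 : (k + 1) * (k + 2) ≤ (m + 1) * (m + 2) := Nat.mul_le_mul (by omega) (by omega)
    have h2 : (m + 3) * (m + 3 + 1) = (m + 1) * (m + 2) + (2 * m + 5) * 2 := by ring
    rw [h2, Nat.add_mul_div_right _ _ two_pos]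
    have h3 := Nat.div_le_div_right (c := 2) h1
    omega

end Pool.Agent.MP_cf0a82_ag

end
end
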