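import Pool.Agent.Mg.Fcf0a82q.Gb5be87
import Pool.Agent.Mg.Fcf0a82q.Gff7211
import Pool.Agent.Mg.Fcf0a82q.Ge1829e
import Pool.Agent.Mg.Fcf0a82q.Gbd7e79
import Pool.Agent.Mg.Fcf0a82q.G67c0ca
import Pool.Agent.Mg.Fcf0a82q.G3d2c3a

section

open Complex Filter Topology Matrix Function

noncomputable section

namespace Pool.Agent.MP_cf0a82_ag

open Pool.Agent.MP_f58063_ag

variable {ι : Type} [Fintype ι] {g : ℕ} {m m' : ι → ι → ℤ} {F F' : PP ι g → ℂ}

theorem xbjha_le {C r : ℝ} (hr : 1 ≤ r) {n N : ℕ} (h : n ≤ N) : C * r ^ n ≤ max C 0 * r ^ N :=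
  mul_le_mul (le_max_left _ _) (pow_le_pow_right₀ hr h) (by positivity) (le_max_right _ _)

theorem xbjha_sh0 (F : PP ι g → ℂ) (a b : ι → Fin g → ℝ) (p : PP ι g) :
    sh 0 F a b p = F (shP a b p) := by
  simp [sh, qI]

theorem xbjha_qI_add (m m' : ι → ι → ℤ) (a : ι → Fin g → ℝ) (p : PP ι g) :
    qI (m + m') a p = qI m a p + qI m' a p := by
  simp only [qI, Pi.add_apply, Int.cast_add, add_mul, Finset.sum_add_distrib]

theorem xbjha_sh_mul (m m' : ι → ι → ℤ) (F F' : PP ι g → ℂ) (a b : ι → Fin g → ℝ)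
    (p : PP ι g) : sh (m + m') (fun p => F p * F' p) a b p = sh m F a b p * sh m' F' a b p := by
  simp only [sh, xbjha_qI_add, mul_add, exp_add]
  ring

theorem xbjha_entry (a b : Fin g) (p : PP ι g) : AnalyticAt ℂ (fun p : PP ι g => p.1 a b) p :=
  ((ContinuousLinearMap.proj b : (Fin g → ℂ) →L[ℂ] ℂ) ∘L
    (ContinuousLinearMap.proj a : Mat g →L[ℂ] (Fin g → ℂ)) ∘L
      ContinuousLinearMap.fst ℂ (Mat g) (XX ι g)).analyticAt p

theorem xbjha_coord (l : ι) (a : Fin g) (p : PP ι g) :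
    AnalyticAt ℂ (fun p : PP ι g => p.2 l a) p :=
  ((ContinuousLinearMap.proj a : (Fin g → ℂ) →L[ℂ] ℂ) ∘L
    (ContinuousLinearMap.proj l : XX ι g →L[ℂ] (Fin g → ℂ)) ∘L
      ContinuousLinearMap.snd ℂ (Mat g) (XX ι g)).analyticAt p

theorem xbjha_mv (v : EE g) (i : Fin g) (τ : Mat g) :
    AnalyticAt ℂ (fun τ : Mat g => mv τ v i) τ := by
  simp only [mv]
  refine Finset.analyticAt_fun_sum _ fun j _ => AnalyticAt.mul ?_ analyticAt_const
  exact ((ContinuousLinearMap.proj j : (Fin g → ℂ) →L[ℂ] ℂ) ∘L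
    (ContinuousLinearMap.proj i : Mat g →L[ℂ] (Fin g → ℂ))).analyticAt τ

theorem xbjha_le_norm (τ : Mat g) (a b : Fin g) : ‖τ a b‖ ≤ ‖τ‖ :=
  (norm_le_pi_norm (τ a) b).trans (norm_le_pi_norm τ a)

theorem JH.const (c : ℂ) : JH 0 fun _ : PP ι g => c := by
  exact ⟨fun _ _ => analyticAt_const, fun a b K => ⟨‖c‖, 0, fun τ _ r _ ξ _ => by
    simp [xbjha_sh0]⟩⟩

theorem JH.zero (m : ι → ι → ℤ) : JH m fun _ : PP ι g => 0 := by
  exact ⟨fun _ _ => analyticAt_const, fun a b K => ⟨0, 0, fun τ _ r _ ξ _ => by simp [sh]⟩⟩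

theorem JH.add (h : JH m F) (h' : JH m F') : JH m fun p => F p + F' p := by
  refine ⟨fun p hp => (h.an p hp).add (h'.an p hp), fun a b K => ?_⟩
  obtain ⟨C, n, hC⟩ := h.gr a b K
  obtain ⟨C', n', hC'⟩ := h'.gr a b K
  refine ⟨max C 0 + max C' 0, n + n', fun τ hτ r hr ξ hξ => ?_⟩
  have e : sh m (fun p => F p + F' p) a b (τ, ξ) = sh m F a b (τ, ξ) + sh m F' a b (τ, ξ) := by
    simp only [sh, mul_add]
  rw [e, add_mul]
  exact (norm_add_le _ _).trans (add_le_add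
    ((hC τ hτ r hr ξ hξ).trans (xbjha_le hr.1 (Nat.le_add_right _ _)))
    ((hC' τ hτ r hr ξ hξ).trans (xbjha_le hr.1 (Nat.le_add_left _ _))))

theorem JH.smul (h : JH m F) (c : ℂ) : JH m fun p => c * F p := by
  refine ⟨fun p hp => analyticAt_const.mul (h.an p hp), fun a b K => ?_⟩
  obtain ⟨C, n, hC⟩ := h.gr a b K
  refine ⟨‖c‖ * C, n, fun τ hτ r hr ξ hξ => ?_⟩
  have e : sh m (fun p => c * F p) a b (τ, ξ) = c * sh m F a b (τ, ξ) := by
    simp only [sh]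
    ring
  rw [e, norm_mul, mul_assoc]
  exact mul_le_mul_of_nonneg_left (hC τ hτ r hr ξ hξ) (norm_nonneg _)

theorem JH.sub (h : JH m F) (h' : JH m F') : JH m fun p => F p - F' p := by
  simpa only [neg_one_mul, ← sub_eq_add_neg] using h.add (h'.smul (-1))

theorem JH.mul (h : JH m F) (h' : JH m' F') : JH (m + m') fun p => F p * F' p := by
  refine ⟨fun p hp => (h.an p hp).mul (h'.an p hp), fun a b K => ?_⟩
  obtain ⟨C, n, hC⟩ := h.gr a b K
  obtain ⟨C', n', hC'⟩ := h'.gr a b K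
  refine ⟨C * C', n + n', fun τ hτ r hr ξ hξ => ?_⟩
  rw [xbjha_sh_mul, norm_mul, pow_add, mul_mul_mul_comm]
  exact mul_le_mul (hC τ hτ r hr ξ hξ) (hC' τ hτ r hr ξ hξ) (norm_nonneg _)
    ((norm_nonneg _).trans (hC τ hτ r hr ξ hξ))

theorem JH.pow (h : JH m F) (n : ℕ) : JH (n • m) fun p => F p ^ n := by
  induction n with
  | zero => simpa only [pow_zero, zero_smul] using JH.const 1
  | succ n ih => simpa only [pow_succ, succ_nsmul] using ih.mul h

theorem JH.sum {κ : Type} (s : Finset κ) {G : κ → PP ι g → ℂ} (h : ∀ i ∈ s, JH m (G i)) :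
    JH m fun p => ∑ i ∈ s, G i p := by
  classical
  induction s using Finset.induction_on with
  | empty => simpa only [Finset.sum_empty] using JH.zero m
  | insert a s ha ih =>
    simpa only [Finset.sum_insert ha] using (h a (Finset.mem_insert_self a s)).add
      (ih fun i hi => h i (Finset.mem_insert_of_mem hi))

theorem xbjha_prod {κ : Type} (s : Finset κ) {G : κ → PP ι g → ℂ} (h : ∀ i ∈ s, JH 0 (G i)) :
    JH 0 fun p => ∏ i ∈ s, G i p := by
  classical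
  induction s using Finset.induction_on with
  | empty => simpa only [Finset.prod_empty] using JH.const 1
  | insert a s ha ih =>
    simpa only [Finset.prod_insert ha, add_zero] using (h a (Finset.mem_insert_self a s)).mul
      (ih fun i hi => h i (Finset.mem_insert_of_mem hi))

theorem JH.det {r : ℕ} {G : PP ι g → Matrix (Fin r) (Fin r) ℂ}
    (h : ∀ i j, JH 0 fun p => G p i j) : JH 0 fun p => (G p).det := by
  simp only [det_apply']
  exact JH.sum _ fun σ _ => (xbjha_prod _ fun i _ => h (σ i) i).smul _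

theorem JH.adj {r : ℕ} {G : PP ι g → Matrix (Fin r) (Fin r) ℂ}
    (h : ∀ i j, JH 0 fun p => G p i j) (i j : Fin r) : JH 0 fun p => (G p).adjugate i j := by
  simp only [adjugate_apply]
  refine JH.det fun k l => ?_
  simp only [updateRow_apply]
  split_ifs
  · exact JH.const _
  · exact h k l

theorem JH.congr (h : JH m F) (e : ∀ p : PP ι g, p.1 ∈ PosIm g → F p = F' p) : JH m F' := by
  refine ⟨fun p hp => (h.an p hp).congr ?_, fun a b K => ?_⟩
  · have : ∀ᶠ q : PP ι g in 𝓝 p, q.1 ∈ PosIm g :=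
      continuous_fst.continuousAt.eventually (isOpen_PosIm.mem_nhds hp)
    exact this.mono fun q hq => e q hq
  · obtain ⟨C, n, hC⟩ := h.gr a b K
    refine ⟨C, n, fun τ hτ r hr ξ hξ => ?_⟩
    have e' : sh m F' a b (τ, ξ) = sh m F a b (τ, ξ) := by
      simp only [sh]
      rw [e _ (Siegel_sub hτ)]
    rw [e']
    exact hC τ hτ r hr ξ hξ

theorem JH.entry (a b : Fin g) : JH 0 fun p : PP ι g => p.1 a b := by
  refine ⟨fun p _ => xbjha_entry a b p, fun a' b' K => ⟨1, 1, fun τ _ r hr ξ _ => ?_⟩⟩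
  rw [xbjha_sh0, one_mul, pow_one]
  exact (xbjha_le_norm τ a b).trans hr.2.1

theorem JH.coord (l : ι) (a : Fin g) : JH 0 fun p : PP ι g => p.2 l a := by
  refine ⟨fun p _ => xbjha_coord l a p, fun a' b' K =>
    ⟨|K| + ∑ j, ‖rc (a' l) j‖ + ‖rc (b' l) a‖, 1, fun τ _ r hr ξ hξ => ?_⟩⟩
  have h1 := hr.1
  rw [xbjha_sh0, pow_one, add_mul, add_mul]
  change ‖ξ l a + mv τ (rc (a' l)) a + rc (b' l) a‖ ≤ _
  refine norm_add₃_le.trans (add_le_add (add_le_add ?_ ?_) ?_)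
  · refine ((norm_le_pi_norm (ξ l) a).trans (norm_le_pi_norm ξ l)).trans (hξ.trans ?_)
    refine (div_le_div_of_nonneg_right (le_abs_self K) (by linarith)).trans ?_
    exact (div_le_self (abs_nonneg K) h1).trans (le_mul_of_one_le_right (abs_nonneg K) h1)
  · rw [Finset.sum_mul]
    refine (norm_sum_le _ _).trans (Finset.sum_le_sum fun j _ => ?_)
    rw [norm_mul, mul_comm]
    exact mul_le_mul_of_nonneg_left ((xbjha_le_norm τ a j).trans hr.2.1) (norm_nonneg _)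
  · exact le_mul_of_one_le_right (norm_nonneg _) h1

theorem JH.of_tau {h : Mat g → ℂ} (ha : AnalyticOnNhd ℂ h (PosIm g)) (hb : MH h) :
    JH 0 fun p : PP ι g => h p.1 := by
  refine ⟨fun p hp => (ha p.1 hp).comp analyticAt_fst, fun a b K => ?_⟩
  obtain ⟨C, n, hC⟩ := hb.gr
  refine ⟨C, n, fun τ hτ r hr ξ _ => ?_⟩
  rw [xbjha_sh0]
  exact hC τ hτ r hr

theorem JH.spec_an (h : JH m F) (a b : ι → Fin g → ℝ) :
    AnalyticOnNhd ℂ (fun τ => sh m F a b (τ, 0)) (PosIm g) := by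
  intro τ hτ
  have h1 : AnalyticAt ℂ (fun τ : Mat g => qI m a ((τ, 0) : PP ι g)) τ := by
    simp only [qI, dotProduct]
    refine Finset.analyticAt_fun_sum _ fun l _ => Finset.analyticAt_fun_sum _ fun l' _ =>
      analyticAt_const.mul (AnalyticAt.add ?_ analyticAt_const)
    exact Finset.analyticAt_fun_sum _ fun i _ => analyticAt_const.mul (xbjha_mv _ i τ)
  have h2 : AnalyticAt ℂ (fun τ : Mat g => shP a b ((τ, 0) : PP ι g)) τ := by
    refine analyticAt_id.prod (AnalyticAt.pi fun l => AnalyticAt.pi fun i => ?_)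
    exact (analyticAt_const.add (xbjha_mv _ i τ)).add analyticAt_const
  exact (analyticAt_const.mul h1).cexp.mul
    (AnalyticAt.comp (f := fun τ : Mat g => shP a b ((τ, 0) : PP ι g)) (h.an _ hτ) h2)

theorem JH.spec (h : JH m F) (a b : ι → Fin g → ℝ) : MH fun τ => sh m F a b (τ, 0) := by
  refine ⟨(h.spec_an a b).mono Siegel_sub, ?_⟩
  obtain ⟨C, n, hC⟩ := h.gr a b 0
  exact ⟨C, n, fun τ hτ r hr => hC τ hτ r hr 0 (by simp)⟩

theorem sh_zero (m : ι → ι → ℤ) (F : PP ι g → ℂ) (p : PP ι g) : sh m F 0 0 p = F p := by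
  have e : rc (0 : Fin g → ℝ) = 0 := by
    funext i
    simp [rc]
  have e' : mv p.1 0 = 0 := by
    funext i
    simp [mv]
  simp [sh, qI, shP, e, e']

end Pool.Agent.MP_cf0a82_ag

end
end

section

open Complex Filter Topology Matrix Function

noncomputable section

namespace Pool.Agent.MP_cf0a82_ag

open Pool.Agent.MP_f58063_ag

variable {ι : Type} [Fintype ι] [DecidableEq ι] {g M α β n : ℕ} {F : PP ι g → ℂ}

lemma xbspec_mv (τ : Mat g) (x : EE g) : mv τ x = Matrix.of τ *ᵥ x := rfl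

theorem spec_key (γ : Sp g) {τ : Mat g} (hτ : τ ∈ Siegel g) (a b : Fin g → ℂ) :
    (jac γ τ)⁻¹ᵀ *ᵥ (mv τ (((cx γ)ᵀ *ᵥ Sum.elim a b) ∘ .inl) + ((cx γ)ᵀ *ᵥ Sum.elim a b) ∘ .inr) =
        mv (act γ τ) a + b ∧
      a ⬝ᵥ mv (act γ τ) a + a ⬝ᵥ b +
        (mv τ (((cx γ)ᵀ *ᵥ Sum.elim a b) ∘ .inl) + ((cx γ)ᵀ *ᵥ Sum.elim a b) ∘ .inr) ⬝ᵥ
          ((jac γ τ)⁻¹ * (cx γ).toBlocks₂₁) *ᵥ
          (mv τ (((cx γ)ᵀ *ᵥ Sum.elim a b) ∘ .inl) + ((cx γ)ᵀ *ᵥ Sum.elim a b) ∘ .inr) =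
      (((cx γ)ᵀ *ᵥ Sum.elim a b) ∘ .inl) ⬝ᵥ
        (mv τ (((cx γ)ᵀ *ᵥ Sum.elim a b) ∘ .inl) + ((cx γ)ᵀ *ᵥ Sum.elim a b) ∘ .inr) := by
  have hTs := xstf_symm hτ
  have hT's := xstf_symm (act_mem γ hτ)
  have hJ := jac_inv γ hτ
  have hS := jacC_symm γ hτ
  have hact := act_eq γ τ
  have hdet : IsUnit (jac γ τ).det := (jac_det γ hτ).isUnit
  have hj : jac γ τ = (cx γ).toBlocks₂₁ * Matrix.of τ + (cx γ).toBlocks₂₂ := rfl
  have ha2 := xstf_inl γ (Sum.elim a b)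
  have hb2 := xstf_inr γ (Sum.elim a b)
  rw [Sum.elim_comp_inl, Sum.elim_comp_inr] at ha2 hb2
  simp only [xbspec_mv]
  generalize ((cx γ)ᵀ *ᵥ Sum.elim a b) ∘ Sum.inl = a2 at *
  generalize ((cx γ)ᵀ *ᵥ Sum.elim a b) ∘ Sum.inr = b2 at *
  generalize jac γ τ = j at *
  generalize Matrix.of τ = T at *
  generalize Matrix.of (act γ τ) = T' at *
  generalize (cx γ).toBlocks₁₁ = A at *
  generalize (cx γ).toBlocks₁₂ = B at *
  generalize (cx γ).toBlocks₂₁ = C at *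
  generalize (cx γ).toBlocks₂₂ = D at *
  rw [← dotProduct_add]
  generalize hu : T' *ᵥ a + b = u
  generalize hw : T *ᵥ a2 + b2 = w
  have h1 : T' * j = A * T + B := by
    rw [hact, Matrix.mul_assoc, nonsing_inv_mul _ hdet, Matrix.mul_one]
  have h2 : jᵀ * T' = T * Aᵀ + Bᵀ := by
    have := congrArg transpose h1
    rwa [transpose_mul, hT's, transpose_add, transpose_mul, hTs] at this
  have h3 : jᵀ = T * Cᵀ + Dᵀ := by rw [hj, transpose_add, transpose_mul, hTs]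
  have h4 : jᵀ *ᵥ u = w := by
    rw [← hu, ← hw, mulVec_add, mulVec_mulVec, h2, ha2, hb2, h3]
    simp only [add_mulVec, mulVec_add, mulVec_mulVec]
    abel
  have h5 : j⁻¹ᵀ *ᵥ w = u := by
    rw [← h4, mulVec_mulVec, ← transpose_mul, mul_nonsing_inv _ hdet, transpose_one, one_mulVec]
  have h6 : a2 = j⁻¹ *ᵥ a + Cᵀ *ᵥ u := by
    rw [ha2, hJ, ← hu]
    simp only [sub_mulVec, mulVec_add, mulVec_mulVec]
    abel
  have h7 : (j⁻¹ * C) *ᵥ w = Cᵀ *ᵥ u := by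
    rw [← hS, transpose_mul, ← mulVec_mulVec, h5]
  refine ⟨h5, ?_⟩
  rw [h7, h6, add_dotProduct, dotProduct_comm (j⁻¹ *ᵥ a), xstf_dot w a, h5,
    dotProduct_comm (Cᵀ *ᵥ u)]

lemma xbspec_tr {q : ℕ} {γ : Sp g}
    (hγ : γ ∈ Gam g (2 * q ^ 2)) {c : LL g → ℂ} {p : LL g → ℤ} (hp : ∀ i, c i * q = p i) :
    ∃ k : LL g → ℤ, (cx γ)ᵀ *ᵥ c = fun i => c i + ((2 * q * k i : ℤ) : ℂ) := by
  choose r hr using mem_Gam.1 hγ
  refine ⟨fun i => ∑ a, r a i * p a, funext fun i => ?_⟩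
  have e : ∀ a, (cx γ) a i * c a = (if a = i then c a else 0) +
      2 * (q : ℂ) * ((r a i : ℂ) * p a) := by
    intro a
    have h := congrArg (Int.cast : ℤ → ℂ) (hr a i)
    have h' : (cx γ) a i = (γ.1 a i : ℂ) := rfl
    rw [one_apply] at h
    push_cast at h
    rw [h', ← hp a]
    split_ifs with hai
    · rw [if_pos hai] at h
      linear_combination c a * h
    · rw [if_neg hai] at h
      linear_combination c a * h
  simp only [mulVec, dotProduct, transpose_apply, e, Finset.sum_add_distrib,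
    Finset.sum_ite_eq', Finset.mem_univ, if_true]
  push_cast
  rw [Finset.mul_sum]

lemma xbspec_one {q : ℕ} {γ : Sp g} (hγ : γ ∈ Gam g (2 * q ^ 2)) {τ : Mat g} (hτ : τ ∈ Siegel g)
    {a b : Fin g → ℝ} (ha : ∀ i, ∃ k : ℤ, a i * q = k) (hb : ∀ i, ∃ k : ℤ, b i * q = k) :
    ∃ (u v : Fin g → ℤ) (k : ℤ),
      (jac γ τ)⁻¹ᵀ *ᵥ (mv τ (rc a) + rc b + per τ v u) = mv (act γ τ) (rc a) + rc b ∧
      rc a ⬝ᵥ mv (act γ τ) (rc a) + (mv τ (rc a) + rc b + per τ v u) ⬝ᵥ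
          ((jac γ τ)⁻¹ * (cx γ).toBlocks₂₁) *ᵥ (mv τ (rc a) + rc b + per τ v u) =
        rc a ⬝ᵥ mv τ (rc a) + (rc (fun i => (u i : ℝ)) ⬝ᵥ mv τ (rc fun i => (u i : ℝ)) +
          2 * (rc (fun i => (u i : ℝ)) ⬝ᵥ (mv τ (rc a) + rc b))) + 2 * k := by
  choose s hs using ha
  choose t ht using hb
  have hs' : ∀ i, rc a i * q = s i := fun i => by
    simp only [rc]
    exact_mod_cast hs i
  have ht' : ∀ i, rc b i * q = t i := fun i => by
    simp only [rc]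
    exact_mod_cast ht i
  obtain ⟨k, hk⟩ := xbspec_tr hγ (c := Sum.elim (rc a) (rc b)) (p := Sum.elim s t)
    (by rintro (i | i); exacts [hs' i, ht' i])
  obtain ⟨h1, h2⟩ := spec_key γ hτ (rc a) (rc b)
  refine ⟨fun i => 2 * q * k (.inl i), fun i => 2 * q * k (.inr i),
    ∑ i, s i * k (.inr i) - ∑ i, k (.inl i) * t i + ∑ i, q * k (.inl i) * (2 * q * k (.inr i)), ?_⟩
  obtain ⟨u, hu⟩ : ∃ u : Fin g → ℂ, u = fun i => ((2 * q * k (.inl i) : ℤ) : ℂ) := ⟨_, rfl⟩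
  obtain ⟨v, hv⟩ : ∃ v : Fin g → ℂ, v = fun i => ((2 * q * k (.inr i) : ℤ) : ℂ) := ⟨_, rfl⟩
  have e1 : ((cx γ)ᵀ *ᵥ Sum.elim (rc a) (rc b)) ∘ Sum.inl = rc a + u := by rw [hk, hu]; rfl
  have e2 : ((cx γ)ᵀ *ᵥ Sum.elim (rc a) (rc b)) ∘ Sum.inr = rc b + v := by rw [hk, hv]; rfl
  have e3 : rc (fun i => ((2 * q * k (.inl i) : ℤ) : ℝ)) = u := by
    rw [hu]
    funext i
    simp only [rc, ofReal_intCast]
  have e4 : mv τ (rc a + u) + (rc b + v) = mv τ (rc a) + rc b +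
      per τ (fun i => 2 * q * k (.inr i)) (fun i => 2 * q * k (.inl i)) := by
    rw [xstf_per, ← hu, ← hv, xbspec_mv, xbspec_mv, mulVec_add]
    abel
  have d1 : rc a ⬝ᵥ v = 2 * ((∑ i, s i * k (.inr i) : ℤ) : ℂ) := by
    simp only [hv, dotProduct]
    push_cast
    rw [Finset.mul_sum]
    exact Finset.sum_congr rfl fun i _ => by rw [← hs']; ring
  have d2 : u ⬝ᵥ rc b = 2 * ((∑ i, k (.inl i) * t i : ℤ) : ℂ) := by
    simp only [hu, dotProduct]
    push_cast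
    rw [Finset.mul_sum]
    exact Finset.sum_congr rfl fun i _ => by rw [← ht']; ring
  have d3 : u ⬝ᵥ v = 2 * ((∑ i, q * k (.inl i) * (2 * q * k (.inr i)) : ℤ) : ℂ) := by
    simp only [hu, hv, dotProduct]
    push_cast
    rw [Finset.mul_sum]
    exact Finset.sum_congr rfl fun i _ => by ring
  have sy : rc a ⬝ᵥ Matrix.of τ *ᵥ u = u ⬝ᵥ Matrix.of τ *ᵥ rc a := by
    rw [xstf_dot, xstf_symm hτ]
  rw [e1, e2] at h1 h2
  rw [e3, ← e4, Int.cast_add, Int.cast_sub]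
  refine ⟨h1, ?_⟩
  generalize (mv τ (rc a + u) + (rc b + v)) ⬝ᵥ
    ((jac γ τ)⁻¹ * (cx γ).toBlocks₂₁) *ᵥ (mv τ (rc a + u) + (rc b + v)) = Z at h2 ⊢
  simp only [xbspec_mv, mulVec_add, add_dotProduct, dotProduct_add, sy] at h2 ⊢
  linear_combination h2 + d1 - d2 + d3

lemma xbspec_idm (n : ℕ) (G : ι → ι → ℂ) :
    ∑ l, ∑ l', (idm n l l' : ℂ) * G l l' = n * ∑ l, G l l := by
  simp [idm, Finset.mul_sum]

/-- the values of a Jacobi form at torsion points are modular forms -/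
theorem JF.spec (h : JF M α β (idm n) F) {q : ℕ} (hq : q ≠ 0) {a b : ι → Fin g → ℝ}
    (ha : ∀ l i, ∃ k : ℤ, a l i * q = k) (hb : ∀ l i, ∃ k : ℤ, b l i * q = k) :
    Fm (M * (2 * q ^ 2)) α β fun τ => sh (idm n) F a b (τ, 0) := by
  refine ⟨h.jh.spec a b, fun γ hγ τ hτ => ?_⟩
  choose u v k h1 h2 using fun l =>
    xbspec_one (Gam_mono (dvd_mul_left _ _) hγ) hτ (ha l) (hb l)
  have e0 : ∀ σ : Mat g, shP a b (σ, 0) = (σ, fun l => mv σ (rc (a l)) + rc (b l)) := fun σ => by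
    simp only [shP, Pi.zero_apply, zero_add]
  have hl := h.lat u v (τ, fun l => mv τ (rc (a l)) + rc (b l)) hτ
  have hg := h.grp γ (Gam_mono (dvd_mul_right _ _) hγ)
    (tact u v (τ, fun l => mv τ (rc (a l)) + rc (b l))) hτ
  have e1 : gact γ (tact u v (τ, fun l => mv τ (rc (a l)) + rc (b l))) =
      (act γ τ, fun l => mv (act γ τ) (rc (a l)) + rc (b l)) := Prod.ext rfl (funext h1)
  have e2 : qI (idm n) a (act γ τ, 0) +
      jq (idm n) γ (tact u v (τ, fun l => mv τ (rc (a l)) + rc (b l))) =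
      qI (idm n) a (τ, 0) + qI (idm n) (fun l i => (u l i : ℝ))
        (τ, fun l => mv τ (rc (a l)) + rc (b l)) + 2 * ((n * ∑ l, k l : ℤ) : ℂ) := by
    simp only [qI, jq, tact, xbspec_idm, Pi.zero_apply, dotProduct_zero, mul_zero, add_zero]
    have := Finset.sum_congr (s₁ := Finset.univ) rfl fun l _ => h2 l
    rw [Finset.sum_add_distrib, Finset.sum_add_distrib, Finset.sum_add_distrib,
      ← Finset.mul_sum] at this
    push_cast
    linear_combination (n : ℂ) * this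
  have e3 := congrArg (fun x => exp (Real.pi * I * x)) e2
  simp only [mul_add, exp_add, xstf_exp_even, mul_one] at e3
  rw [e1] at hg
  simp only [sh, e0]
  rw [hg, ← hl]
  change _ * (kap γ τ ^ α * (jac γ τ).det ^ β * _ * _) = _
  linear_combination (kap γ τ ^ α * (jac γ τ).det ^ β *
    F (tact u v (τ, fun l => mv τ (rc (a l)) + rc (b l)))) * e3

end Pool.Agent.MP_cf0a82_ag

end
end

section

open Complex Filter Topology Matrix Function

noncomputable section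

namespace Pool.Agent.MP_cf0a82_ag

open Pool.Agent.MP_f58063_ag

variable {ι : Type} [Fintype ι] {g : ℕ} {m : ι → ι → ℤ} {F : PP ι g → ℂ}

theorem xbjhd_mv (τ S : Mat g) (s : ℂ) (e : EE g) : mv (τ + s • S) e = mv τ e + s • mv S e := by
  funext i
  simp [mv, add_mul, Finset.sum_add_distrib, Finset.mul_sum, mul_assoc]

theorem xbjhd_qI (m : ι → ι → ℤ) (a : ι → Fin g → ℝ) (p w : PP ι g) (s : ℂ) :
    qI m a (p + s • w) = qI m a p + s * qI m a w := by
  unfold qI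
  simp only [Finset.mul_sum, ← Finset.sum_add_distrib]
  refine Finset.sum_congr rfl fun l _ => Finset.sum_congr rfl fun l' _ => ?_
  rw [Prod.fst_add, Prod.smul_fst, xbjhd_mv, Prod.snd_add, Prod.smul_snd, Pi.add_apply,
    Pi.smul_apply, dotProduct_add, dotProduct_add, dotProduct_smul, dotProduct_smul, smul_eq_mul,
    smul_eq_mul]
  ring

omit [Fintype ι] in
theorem xbjhd_shP (a b : ι → Fin g → ℝ) (p v : PP ι g) (s : ℂ) :
    shP a b (p + s • ((v.1, fun l => v.2 l - mv v.1 (rc (a l))) : PP ι g)) = shP a b p + s • v := by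
  refine Prod.ext rfl (funext fun l => ?_)
  simp only [shP, Prod.fst_add, Prod.smul_fst, xbjhd_mv, Prod.snd_add, Prod.smul_snd, Pi.add_apply,
    Pi.smul_apply, smul_sub]
  abel

theorem JH.dv (h : JH m F) {v : PP ι g} (hv : IsSy v.1) : JH m fun p => fderiv ℂ F p v := by
  refine ⟨fun p hp => ((ContinuousLinearMap.apply ℂ ℂ v).analyticAt _).comp (h.an p hp).fderiv,
    fun a b K => ?_⟩
  obtain ⟨C, n, H⟩ := h.gr a b (2 * K + 2)
  obtain ⟨w, hw⟩ : ∃ w : PP ι g, w = (v.1, fun l => v.2 l - mv v.1 (rc (a l))) := ⟨_, rfl⟩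
  have hw1 : w.1 = v.1 := by rw [hw]
  refine ⟨C * 2 ^ n * (2 * (g + 1) * (‖w‖ + 1) + ‖Real.pi * I * qI m a w‖), n + 1,
    fun τ hτ r hr ξ hξ => ?_⟩
  have hg : (0 : ℝ) ≤ g := Nat.cast_nonneg g
  have r1 : 1 ≤ r := hr.1
  have r0 : 0 < r := by linarith
  obtain ⟨R, hR⟩ : ∃ R : ℝ, R = (2 * (g + 1) * r * (‖w‖ + 1))⁻¹ := ⟨_, rfl⟩
  have R0 : 0 < R := by rw [hR]; positivity
  have k0 : ∀ s ∈ Metric.closedBall (0 : ℂ) R, ‖s • w‖ ≤ (2 * (g + 1) * r)⁻¹ := fun s hs => by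
    rw [mem_closedBall_zero_iff] at hs
    rw [norm_smul]
    calc _ ≤ R * (‖w‖ + 1) := by gcongr; linarith
      _ = _ := by rw [hR]; field_simp
  have k1 : ∀ s ∈ Metric.closedBall (0 : ℂ) R, Bd (τ + s • w.1) (2 * r) := fun s hs =>
    hr.pert ((norm_fst_le (s • w)).trans (k0 s hs))
  have k2 : ∀ s ∈ Metric.closedBall (0 : ℂ) R, τ + s • w.1 ∈ Siegel g := fun s hs =>
    siegel_of_YG (fun i j => by
      simp only [Pi.add_apply, Pi.smul_apply, hw1, hτ.1 i j, hv i j]) (by positivity) (k1 s hs).2.2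
  let u : ℂ → ℂ := fun s => exp (Real.pi * I * (qI m a (τ, ξ) + s * qI m a w)) *
    F (shP a b (τ, ξ) + s • v)
  have k3 : ∀ s ∈ Metric.closedBall (0 : ℂ) R, ‖u s‖ ≤ C * (2 * r) ^ n := fun s hs => by
    have e : u s = sh m F a b (τ + s • w.1, ξ + s • w.2) := by
      have : ((τ + s • w.1, ξ + s • w.2) : PP ι g) = (τ, ξ) + s • w := rfl
      have e2 := xbjhd_shP a b (τ, ξ) v s
      rw [← hw] at e2
      rw [this, sh, xbjhd_qI, e2]
    rw [e]
    refine H _ (k2 s hs) _ (k1 s hs) _ ((norm_add_le _ _).trans ?_)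
    have a1 := (norm_snd_le (s • w)).trans (k0 s hs)
    have a2 : (2 * (g + 1) * r)⁻¹ ≤ r⁻¹ := inv_anti₀ r0 (by nlinarith)
    have a3 : (2 * K + 2) / (2 * r) = K / r + r⁻¹ := by field_simp
    rw [a3]
    exact add_le_add hξ (a1.trans a2)
  have k4 : ∀ s ∈ Metric.closedBall (0 : ℂ) R, HasDerivAt u
      (exp (Real.pi * I * (qI m a (τ, ξ) + s * qI m a w)) * (Real.pi * I * qI m a w) *
        F (shP a b (τ, ξ) + s • v) + exp (Real.pi * I * (qI m a (τ, ξ) + s * qI m a w)) *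
        fderiv ℂ F (shP a b (τ, ξ) + s • v) v) s := fun s hs => by
    have a1 : HasDerivAt (fun s : ℂ => Real.pi * I * (qI m a (τ, ξ) + s * qI m a w))
        (Real.pi * I * qI m a w) s := by
      simpa using (((hasDerivAt_id s).mul_const (qI m a w)).const_add
        (qI m a (τ, ξ))).const_mul (Real.pi * I)
    have a2 : HasDerivAt (fun s : ℂ => shP a b (τ, ξ) + s • v) v s := by
      simpa using ((hasDerivAt_id s).smul_const v).const_add (shP a b (τ, ξ))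
    have a3 : AnalyticAt ℂ F (shP a b (τ, ξ) + s • v) := h.an _ (by
      have := Siegel_sub (k2 s hs)
      rw [hw1] at this
      exact this)
    exact a1.cexp.mul (a3.differentiableAt.hasFDerivAt.comp_hasDerivAt s a2)
  have h0 := Metric.mem_closedBall_self (x := (0 : ℂ)) R0.le
  have k5 := Complex.norm_deriv_le_of_forall_mem_sphere_norm_le R0
    (DifferentiableOn.diffContOnCl fun s hs =>
      (k4 s (Metric.closure_ball_subset_closedBall hs)).differentiableAt.differentiableWithinAt)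
    fun s hs => k3 s (Metric.sphere_subset_closedBall hs)
  rw [(k4 0 h0).deriv] at k5
  have k6 := k3 0 h0
  have M0 : 0 ≤ C * (2 * r) ^ n := (norm_nonneg _).trans k6
  simp only [u, zero_mul, add_zero, zero_smul] at k5 k6
  have e : sh m (fun p => fderiv ℂ F p v) a b (τ, ξ) =
      (exp (Real.pi * I * qI m a (τ, ξ)) * (Real.pi * I * qI m a w) * F (shP a b (τ, ξ)) +
        exp (Real.pi * I * qI m a (τ, ξ)) * fderiv ℂ F (shP a b (τ, ξ)) v) -
      (Real.pi * I * qI m a w) * (exp (Real.pi * I * qI m a (τ, ξ)) * F (shP a b (τ, ξ))) := by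
    rw [sh]
    ring
  rw [e]
  refine (norm_sub_le _ _).trans ?_
  rw [norm_mul]
  rw [hR, div_inv_eq_mul] at k5
  have k7 : ‖Real.pi * I * qI m a w‖ * ‖exp (Real.pi * I * qI m a (τ, ξ)) * F (shP a b (τ, ξ))‖ ≤
      ‖Real.pi * I * qI m a w‖ * (C * (2 * r) ^ n * r) :=
    mul_le_mul_of_nonneg_left (k6.trans (le_mul_of_one_le_right M0 r1)) (norm_nonneg _)
  refine (add_le_add k5 k7).trans (le_of_eq ?_)
  ring

theorem JH.dz (h : JH m F) (v : XX ι g) : JH m fun p => fderiv ℂ F p (0, v) :=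
  h.dv (v := (0, v)) fun _ _ => rfl

theorem JH.dt (h : JH m F) {S : Mat g} (hS : IsSy S) : JH m fun p => fderiv ℂ F p (S, 0) :=
  h.dv (v := (S, 0)) hS

end Pool.Agent.MP_cf0a82_ag

end
end

section

open Complex Filter Topology Matrix Function

noncomputable section

namespace Pool.Agent.MP_cf0a82_ag

open Pool.Agent.MP_f58063_ag

variable {ι : Type} [Fintype ι] {g : ℕ} {τ : Mat g}

lemma xbthc_series (hτ : τ ∈ Siegel g) (c : LL g → ℝ) (z : EE g) :
    thc (fun i => (c i : ℂ)) τ z = ∑' n : Fin g → ℤ,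
      exp (xsdupE τ (fun i => c (.inl i)) (fun i => c (.inr i)) n +
        2 * Real.pi * I * ∑ i, ((n i : ℂ) + c (.inl i)) * z i -
          Real.pi * I * ∑ i, (c (.inl i) : ℂ) * c (.inr i)) := by
  rw [thc, theta, ← tsum_mul_left]
  refine tsum_congr fun n => ?_
  rw [← exp_add, xsdup_key hτ]
  congr 1
  simp only [xthb_ex, add_assoc, mul_add, add_mul, Finset.sum_add_distrib]
  ring

lemma xbthc_mv (q : ι → ℤ) (τ : Mat g) (u : ι → EE g) :
    mv τ (∑ l, (q l : ℂ) • u l) = ∑ l, (q l : ℂ) • mv τ (u l) := by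
  change Matrix.of τ *ᵥ _ = ∑ l, (q l : ℂ) • Matrix.of τ *ᵥ u l
  simp only [mulVec_sum, mulVec_smul]

lemma xbthc_dot (q : ι → ℤ) (u v : ι → EE g) :
    (∑ l, (q l : ℂ) • u l) ⬝ᵥ (∑ l, (q l : ℂ) • v l) =
      ∑ l, ∑ l', ((q l : ℂ) * q l') * (u l ⬝ᵥ v l') := by
  rw [sum_dotProduct]
  simp only [dotProduct_sum, smul_dotProduct, dotProduct_smul, smul_eq_mul]
  refine Finset.sum_congr rfl fun l _ => Finset.sum_congr rfl fun l' _ => ?_
  ring

lemma xbthc_in (τ : Mat g) (u v : EE g) :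
    ∑ i, u i * ∑ j, τ i j * v j = ∑ i, ∑ j, u i * τ i j * v j := by
  simp only [Finset.mul_sum, mul_assoc]

lemma xbthc_rc (q : ι → ℤ) (a : ι → Fin g → ℝ) :
    rc (∑ l, (q l : ℝ) • a l) = ∑ l, (q l : ℂ) • rc (a l) := by
  funext i
  simp [rc, Finset.sum_apply]

lemma xbthc_qI (k : ℤ) (q : ι → ℤ) (a : ι → Fin g → ℝ) (p : PP ι g) :
    qI (fun l l' => k * (q l * q l')) a p =
      k * (rc (∑ l, (q l : ℝ) • a l) ⬝ᵥ mv p.1 (rc (∑ l, (q l : ℝ) • a l)) +
        2 * (rc (∑ l, (q l : ℝ) • a l) ⬝ᵥ ∑ l, (q l : ℂ) • p.2 l)) := by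
  rw [xbthc_rc, xbthc_mv, xbthc_dot, xbthc_dot]
  simp only [qI, Finset.mul_sum, ← Finset.sum_add_distrib]
  refine Finset.sum_congr rfl fun l _ => Finset.sum_congr rfl fun l' _ => ?_
  push_cast
  ring

theorem thc_shift (hτ : τ ∈ Siegel g) (c : LL g → ℝ) (a b : Fin g → ℝ) (z : EE g) :
    ‖exp (Real.pi * I * (rc a ⬝ᵥ mv τ (rc a) + 2 * (rc a ⬝ᵥ z))) *
      thc (fun i => (c i : ℂ)) τ (z + mv τ (rc a) + rc b)‖ =
      ‖thc (fun i => ((c i + Sum.elim a b i : ℝ) : ℂ)) τ z‖ := by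
  have h2 : ∑ i, ∑ j, (a i : ℂ) * τ i j * c (.inl j) =
      ∑ i, ∑ j, (c (.inl i) : ℂ) * τ i j * a j := by
    rw [Finset.sum_comm]
    refine Finset.sum_congr rfl fun i _ => Finset.sum_congr rfl fun j _ => ?_
    rw [hτ.1 j i]
    ring
  have h : exp (Real.pi * I * (rc a ⬝ᵥ mv τ (rc a) + 2 * (rc a ⬝ᵥ z))) *
      thc (fun i => (c i : ℂ)) τ (z + mv τ (rc a) + rc b) =
      exp (((Real.pi * ∑ i, (c (.inl i) * b i - a i * c (.inr i) - a i * b i) : ℝ) : ℂ) * I) *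
        thc (fun i => ((c i + Sum.elim a b i : ℝ) : ℂ)) τ z := by
    rw [thc, thc, ← mul_assoc, ← mul_assoc, ← exp_add, ← exp_add]
    congr 2
    · simp only [Sum.elim_inl, Sum.elim_inr, Pi.add_apply, rc, mv, dotProduct]
      push_cast
      simp only [mul_add, add_mul, Finset.sum_add_distrib, Finset.sum_sub_distrib, h2, xbthc_in]
      ring
    · funext i
      simp only [Sum.elim_inl, Sum.elim_inr, Pi.add_apply, rc, mv]
      push_cast
      simp only [mul_add, Finset.sum_add_distrib]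
      ring
  rw [h, norm_mul, norm_exp_ofReal_mul_I, one_mul]

theorem thc_bd (c : LL g → ℝ) (K : ℝ) : ∃ C : ℝ, ∀ τ ∈ Siegel g, ∀ r : ℝ, 1 ≤ r → YG τ r⁻¹ →
    ∀ z : EE g, ‖z‖ ≤ K / r → ‖thc (fun i => (c i : ℂ)) τ z‖ ≤ C * r ^ g := by
  obtain ⟨C, hC, h⟩ := gauss_bd g
  refine ⟨Real.exp (g * (8 * K ^ 2)) * C, fun τ hτ r hr hY z hz => ?_⟩
  obtain ⟨h1, h2⟩ := h r hr fun i => c (.inl i)
  rw [mul_assoc]
  refine le_trans ?_ (mul_le_mul_of_nonneg_left h2 (Real.exp_pos _).le)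
  rw [xbthc_series hτ]
  refine tsum_of_norm_bounded (h1.hasSum.mul_left _) fun n => ?_
  rw [Complex.norm_exp, ← Real.exp_add, Real.exp_le_exp, sub_re, add_re, xsdup_re]
  have h0 : 0 < r := by linarith
  have h3 := hY fun i => (n i : ℝ) + c (.inl i)
  have h4 : (fun i => (n i : ℝ) + c (.inl i)) ⬝ᵥ Ym τ *ᵥ (fun i => (n i : ℝ) + c (.inl i)) =
      ∑ i, ∑ j, ((n i : ℝ) + c (.inl i)) * (τ i j).im * ((n j : ℝ) + c (.inl j)) := by
    simp only [dotProduct, mulVec, Ym, of_apply, Finset.mul_sum, mul_assoc]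
  have h5 : (fun i => (n i : ℝ) + c (.inl i)) ⬝ᵥ (fun i => (n i : ℝ) + c (.inl i)) =
      ∑ i, ((n i : ℝ) + c (.inl i)) ^ 2 := by
    simp only [dotProduct, sq]
  rw [h4, h5] at h3
  have h6 : 0 ≤ r⁻¹ * ∑ i, ((n i : ℝ) + c (.inl i)) ^ 2 := by positivity
  have h7 : (2 * Real.pi * I * ∑ i, ((n i : ℂ) + c (.inl i)) * z i).re =
      ∑ i, -(2 * Real.pi * (((n i : ℝ) + c (.inl i)) * (z i).im)) := by
    simp [Finset.mul_sum]
  have h8 : (Real.pi * I * ∑ i, (c (.inl i) : ℂ) * c (.inr i)).re = 0 := by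
    simp [Complex.im_sum]
  have h9 : ∑ i, -(2 * Real.pi * (((n i : ℝ) + c (.inl i)) * (z i).im)) ≤
      ∑ i, (2 * (r⁻¹ * ((n i : ℝ) + c (.inl i)) ^ 2) + 8 * K ^ 2) := by
    refine Finset.sum_le_sum fun i _ => ?_
    have e1 : |(z i).im| ≤ K / r := (abs_im_le_norm _).trans ((norm_le_pi_norm z i).trans hz)
    generalize (n i : ℝ) + c (.inl i) = v
    have e2 : -(v * (z i).im) ≤ |v| * (K * r⁻¹) := by
      refine (neg_le_abs _).trans ?_
      rw [abs_mul]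
      exact mul_le_mul_of_nonneg_left e1 (abs_nonneg _)
    have e3 : 0 ≤ |v| * (K * r⁻¹) := mul_nonneg (abs_nonneg _) ((abs_nonneg _).trans e1)
    have e4 : r⁻¹ ≤ 1 := inv_le_one_of_one_le₀ hr
    have e5 : 0 < r⁻¹ := inv_pos.2 h0
    have e6 := mul_nonneg e5.le (sq_nonneg (|v| - 2 * K))
    have e7 := mul_le_mul_of_nonneg_right e4 (sq_nonneg K)
    rw [← sq_abs v]
    nlinarith [Real.pi_pos, Real.pi_lt_four]
  rw [Finset.sum_add_distrib, ← Finset.mul_sum, ← Finset.mul_sum, Finset.sum_const,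
    Finset.card_univ, Fintype.card_fin, nsmul_eq_mul] at h9
  rw [h7, h8, neg_div, div_eq_inv_mul]
  nlinarith [Real.pi_gt_three]

theorem JH_thc (c : LL g → ℝ) (q : ι → ℤ) :
    JH (fun l l' => q l * q l') (lc q (thc fun i => (c i : ℂ))) := by
  refine ⟨fun p hp => ?_, fun a b K => ?_⟩
  · have h2 : ∀ l, AnalyticAt ℂ (fun p : PP ι g => p.2 l) p := fun l =>
      analyticAt_pi_iff.1 (show AnalyticAt ℂ (fun (p : PP ι g) l => p.2 l) p from
        analyticAt_snd) l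
    exact (thc_analytic _ hp _).comp (f := fun p : PP ι g => (p.1, ∑ l, (q l : ℂ) • p.2 l))
      (analyticAt_fst.prod (Finset.analyticAt_fun_sum _ fun l _ => (h2 l).fun_const_smul))
  · obtain ⟨C, hC⟩ := thc_bd (fun i => c i + Sum.elim (∑ l, (q l : ℝ) • a l)
      (∑ l, (q l : ℝ) • b l) i) ((∑ l, ‖(q l : ℂ)‖) * K)
    refine ⟨C, g, fun τ hτ r hr ξ hξ => ?_⟩
    have h1 := xbthc_qI 1 q a (τ, ξ)
    simp only [one_mul, Int.cast_one] at h1
    have h2 : ∑ l, (q l : ℂ) • (ξ l + mv τ (rc (a l)) + rc (b l)) = ∑ l, (q l : ℂ) • ξ l +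
        mv τ (rc (∑ l, (q l : ℝ) • a l)) + rc (∑ l, (q l : ℝ) • b l) := by
      simp only [xbthc_rc, xbthc_mv, smul_add, Finset.sum_add_distrib]
    simp only [sh, lc, shP]
    rw [h1, h2, thc_shift hτ]
    refine hC τ hτ r hr.1 hr.2.2 _ ((norm_sum_le _ _).trans ?_)
    rw [mul_div_assoc, Finset.sum_mul]
    refine Finset.sum_le_sum fun l _ => ?_
    rw [norm_smul]
    exact mul_le_mul_of_nonneg_left ((norm_le_pi_norm ξ l).trans hξ) (norm_nonneg _)

theorem JF_tp {N : ℕ} (hN : N ≠ 0) {c : (LL g → ℚ) × (LL g → ℚ)}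
    (hc : IsCh N (rq c.1) ∧ IsCh N (rq c.2)) (q : ι → ℤ) :
    JF (2 * N ^ 2) 3 0 (fun l l' => 3 * (q l * q l')) (lc q (tp c)) := by
  refine ⟨?_, fun a b p hp => ?_, fun γ hγ p hp => ?_⟩
  · have h : ∀ c : LL g → ℚ, JH (fun l l' => q l * q l') (lc q (thc (rq c))) := fun c => by
      have := JH_thc (fun i => (c i : ℝ)) q
      simp only [ofReal_ratCast] at this
      exact this
    have h1 := ((h c.1).mul (h c.2)).mul (h (-c.1 - c.2))
    have e : ((fun l l' => q l * q l') + (fun l l' => q l * q l') + fun l l' => q l * q l') =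
        fun l l' => 3 * (q l * q l') := by
      funext l l'
      simp only [Pi.add_apply]
      ring
    rw [e] at h1
    exact h1
  · have h2 : ∑ l, (q l : ℂ) • (p.2 l + per p.1 (b l) (a l)) = ∑ l, (q l : ℂ) • p.2 l +
        per p.1 (∑ l, q l • b l) (∑ l, q l • a l) := by
      funext i
      simp only [Finset.sum_apply, Pi.add_apply, Pi.smul_apply, smul_eq_mul, per, mul_add,
        Finset.sum_add_distrib, Finset.mul_sum]
      push_cast
      rw [Finset.sum_comm]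
      simp only [Finset.mul_sum, mul_left_comm]
    simp only [lc, tact]
    rw [h2, tp_per c hp, ← mul_assoc, xbthc_qI, aut, ← exp_nat_mul, ← exp_add]
    rw [show ∀ x y : ℂ, x + y = 0 → exp (x + y) * tp c p.1 (∑ l, (q l : ℂ) • p.2 l) =
      tp c p.1 (∑ l, (q l : ℂ) • p.2 l) from fun x y h => by rw [h, exp_zero, one_mul]]
    have h3 : rc (∑ l, (q l : ℝ) • fun i => (a l i : ℝ)) =
        fun i => (((∑ l, q l • a l) i : ℤ) : ℂ) := by
      funext i
      simp [rc, Finset.sum_apply]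
    rw [h3]
    simp only [dotProduct, mv, xbthc_in]
    push_cast
    ring
  · have h3 : IsCh N (rq (-c.1 - c.2)) := fun i => by
      obtain ⟨n, hn⟩ := hc.1 i
      obtain ⟨n', hn'⟩ := hc.2 i
      refine ⟨-n - n', ?_⟩
      simp only [rq, Pi.sub_apply, Pi.neg_apply] at hn hn' ⊢
      push_cast
      linear_combination -hn - hn'
    have h4 : ∑ l, (q l : ℂ) • (jac γ p.1)⁻¹ᵀ *ᵥ p.2 l =
        (jac γ p.1)⁻¹ᵀ *ᵥ ∑ l, (q l : ℂ) • p.2 l := by
      simp only [mulVec_sum, mulVec_smul]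
    have h5 : jq (fun l l' => 3 * (q l * q l')) γ p = 3 * ((∑ l, (q l : ℂ) • p.2 l) ⬝ᵥ
        ((jac γ p.1)⁻¹ * (cx γ).toBlocks₂₁) *ᵥ ∑ l, (q l : ℂ) • p.2 l) := by
      simp only [mulVec_sum, mulVec_smul]
      rw [xbthc_dot]
      simp only [jq, Finset.mul_sum]
      refine Finset.sum_congr rfl fun l _ => Finset.sum_congr rfl fun l' _ => ?_
      push_cast
      ring
    simp only [lc, gact, tp]
    rw [h4, thc_kap hN hγ hp hc.1, thc_kap hN hγ hp hc.2, thc_kap hN hγ hp h3, h5,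
      show ∀ x y : ℂ, x * (3 * y) = x * y + x * y + x * y from fun x y => by ring, exp_add, exp_add]
    ring

lemma xbthc_dv {m : Unit → Unit → ℤ} {F : Mat g → EE g → ℂ}
    (h : JH m fun p : PP Unit g => F p.1 (p.2 ())) (v : EE g) :
    JH m fun p : PP Unit g => dv v (F p.1) (p.2 ()) := by
  refine (h.dz fun _ => v).congr fun p hp => ?_
  have h1 : HasFDerivAt (fun z : EE g => ((p.1, fun _ => z) : PP Unit g))
      ((0 : EE g →L[ℂ] Mat g).prod (ContinuousLinearMap.pi fun _ => ContinuousLinearMap.id ℂ _))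
      (p.2 ()) :=
    (hasFDerivAt_const _ _).prodMk (hasFDerivAt_pi.2 fun _ => hasFDerivAt_id _)
  have h2 := (h.an p hp).differentiableAt.hasFDerivAt.comp (p.2 ()) h1
  exact (congrArg (fun L : EE g →L[ℂ] ℂ => L v) h2.fderiv).symm

lemma xbthc_one (c : LL g → ℝ) : JH (fun _ _ => 1 * 1)
    fun p : PP Unit g => thc (fun i => (c i : ℂ)) p.1 (p.2 ()) :=
  (JH_thc c fun _ : Unit => 1).congr fun p _ => by simp [lc]

theorem MH_gr (c : LL g → ℝ) (a : Fin g) :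
    MH fun τ => dv (ee a) (thc (fun i => (c i : ℂ)) τ) 0 := by
  have h := (xbthc_dv (xbthc_one c) (ee a)).spec 0 0
  simp only [sh_zero] at h
  exact h

theorem MH_he (c : LL g → ℝ) (a b : Fin g) :
    MH fun τ => dv (ee a) (dv (ee b) (thc (fun i => (c i : ℂ)) τ)) 0 := by
  have h := (xbthc_dv (F := fun τ => dv (ee b) (thc (fun i => (c i : ℂ)) τ))
    (xbthc_dv (xbthc_one c) (ee b)) (ee a)).spec 0 0
  simp only [sh_zero] at h
  exact h

end Pool.Agent.MP_cf0a82_ag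

end
end

section

open Complex Filter Topology Matrix Function

noncomputable section

namespace Pool.Agent.MP_cf0a82_ag

open Pool.Agent.MP_f58063_ag

variable {ι : Type} [Fintype ι] {g M α β : ℕ} {m : ι → ι → ℤ} {F : PP ι g → ℂ}

lemma xbjfa_qI_add (m m' : ι → ι → ℤ) (a : ι → Fin g → ℝ) (p : PP ι g) :
    qI (m + m') a p = qI m a p + qI m' a p := by
  simp only [qI, Pi.add_apply, Int.cast_add, add_mul, Finset.sum_add_distrib]

lemma xbjfa_jq_add (m m' : ι → ι → ℤ) (γ : Sp g) (p : PP ι g) :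
    jq (m + m') γ p = jq m γ p + jq m' γ p := by
  simp only [jq, Pi.add_apply, Int.cast_add, add_mul, Finset.sum_add_distrib]

lemma xbjfa_qI_zero (a : ι → Fin g → ℝ) (p : PP ι g) : qI 0 a p = 0 := by simp [qI]

lemma xbjfa_jq_zero (γ : Sp g) (p : PP ι g) : jq 0 γ p = 0 := by simp [jq]

theorem JF.mono (h : JF M α β m F) {M' : ℕ} (hM : M ∣ M') : JF M' α β m F := by
  exact ⟨h.jh, h.lat, fun γ hγ => h.grp γ (Gam_mono hM hγ)⟩

theorem JF.one (M : ℕ) : JF M 0 0 0 fun _ : PP ι g => 1 := by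
  exact ⟨JH.const 1, fun a b p _ => by simp [xbjfa_qI_zero],
    fun γ _ p _ => by simp [xbjfa_jq_zero]⟩

theorem JF.mul {α' β' : ℕ} {m' : ι → ι → ℤ} {F' : PP ι g → ℂ} (h : JF M α β m F)
    (h' : JF M α' β' m' F') : JF M (α + α') (β + β') (m + m') fun p => F p * F' p := by
  refine ⟨h.jh.mul h'.jh, fun a b p hp => ?_, fun γ hγ p hp => ?_⟩
  · rw [← h.lat a b p hp, ← h'.lat a b p hp, xbjfa_qI_add, mul_add, Complex.exp_add]
    ring
  · rw [h.grp γ hγ p hp, h'.grp γ hγ p hp, xbjfa_jq_add, mul_add, Complex.exp_add]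
    ring

theorem JF.pow (h : JF M α β m F) (n : ℕ) :
    JF M (n * α) (n * β) (n • m) fun p => F p ^ n := by
  induction n with
  | zero => simpa only [zero_mul, zero_smul, pow_zero] using JF.one M
  | succ n ih => simpa only [add_mul, one_mul, succ_nsmul, pow_succ] using ih.mul h

theorem JF.prod {κ : Type} (s : Finset κ) {a b : κ → ℕ} {μ : κ → ι → ι → ℤ}
    {G : κ → PP ι g → ℂ} (h : ∀ i ∈ s, JF M (a i) (b i) (μ i) (G i)) :
    JF M (∑ i ∈ s, a i) (∑ i ∈ s, b i) (∑ i ∈ s, μ i) fun p => ∏ i ∈ s, G i p := by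
  classical
  induction s using Finset.induction_on with
  | empty => simpa only [Finset.sum_empty, Finset.prod_empty] using JF.one M
  | insert i s hi ih =>
    simpa only [Finset.sum_insert hi, Finset.prod_insert hi] using
      (h i (Finset.mem_insert_self i s)).mul (ih fun j hj => h j (Finset.mem_insert_of_mem hj))

theorem JF.of_Fm {h : Mat g → ℂ} (ha : AnalyticOnNhd ℂ h (PosIm g)) (hf : Fm M α β h) :
    JF M α β 0 fun p : PP ι g => h p.1 := by
  refine ⟨JH.of_tau ha hf.mh, fun a b p _ => by simp [xbjfa_qI_zero, tact], fun γ hγ p hp => ?_⟩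
  simpa [xbjfa_jq_zero, gact] using hf.act γ hγ p.1 hp

theorem smul_idm [DecidableEq ι] (k n : ℕ) : k • (idm n : ι → ι → ℤ) = idm (k * n) := by
  funext l l'
  simp only [Pi.smul_apply, idm]
  split_ifs <;> simp

theorem idm_add [DecidableEq ι] (k n : ℕ) : (idm k + idm n : ι → ι → ℤ) = idm (k + n) := by
  funext l l'
  simp only [Pi.add_apply, idm]
  split_ifs <;> simp

theorem Gm_an (cs : Fin g → LL g → ℂ) :
    AnalyticOnNhd ℂ (fun τ => (Gm cs τ).det) (PosIm g) := by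
  intro τ hτ
  simp only [det_apply']
  exact Finset.analyticAt_fun_sum _ fun σ _ => analyticAt_const.mul
    (Finset.analyticAt_fun_prod _ fun i _ => gr_analytic (cs i) (σ i) τ hτ)

theorem Fm_Gm {N : ℕ} (hN : N ≠ 0) {cs : Fin g → LL g → ℂ} (hs : ∀ i, IsCh N (cs i)) :
    Fm (2 * N ^ 2) g 1 fun τ => (Gm cs τ).det := by
  refine ⟨?_, fun γ hγ τ hτ => ?_⟩
  · simp only [det_apply']
    refine MH.sum _ fun σ _ => (MH.const _).mul (MH.prod _ fun i _ => ?_)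
    obtain ⟨c', hc'⟩ := IsCh.real hN (hs i)
    simpa only [Gm, Matrix.of_apply, hc'] using MH_gr c' (σ i)
  · have h1 : Gm cs (act γ τ) = kap γ τ • (jac γ τ * Gm cs τ) := by
      ext a i
      simp only [Gm, Matrix.of_apply, Matrix.mul_apply, Matrix.smul_apply, smul_eq_mul]
      exact (xsjet_main (thc_analytic_z _ (Siegel_sub hτ))
        (thc_analytic_z _ (Siegel_sub (act_mem γ hτ))) (jac_det γ hτ) (jacC_symm γ hτ)
        (thc_kap hN hγ hτ (hs i))).2.1 a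
    rw [h1, det_smul, Fintype.card_fin, det_mul, pow_one, mul_assoc]

theorem JF.dom (h : JF M α β m F) (h2 : 2 ∣ M) {p : PP ι g} (hp : p ∈ DomJ F)
    (hS : p.1 ∈ Siegel g) :
    (∀ γ ∈ Gam g M, gact γ p ∈ DomJ F) ∧ ∀ a b, tact a b p ∈ DomJ F := by
  refine ⟨fun γ hγ => ⟨Siegel_sub (act_mem γ hS), ?_⟩, fun a b => ⟨hp.1, fun h0 => hp.2 ?_⟩⟩
  · rw [h.grp γ hγ p hS]
    exact mul_ne_zero (mul_ne_zero (mul_ne_zero (pow_ne_zero _ (kap_spec h2 hγ hS).1)
      (pow_ne_zero _ (jac_det γ hS))) (exp_ne_zero _)) hp.2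
  · rw [← h.lat a b p hS, h0, mul_zero]

theorem JH.isOpen_dom (h : JH m F) : IsOpen (DomJ F) := by
  refine isOpen_iff_mem_nhds.2 fun p hp => ?_
  filter_upwards [(isOpen_PosIm.preimage continuous_fst).mem_nhds hp.1,
    (h.an p hp.1).continuousAt.eventually_ne hp.2] with q h1 h2
  exact ⟨h1, h2⟩

theorem Box.JF_φ (B : Box g) (j : Fin B.nJ) :
    JF (2 * B.N ^ 2) 3 0 (idm 3) fun p : PP Unit g => B.φ j p.1 (p.2 ()) := by
  have h := JF_tp (ι := Unit) B.hN (B.ht j) fun _ => 1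
  have e1 : (fun l l' : Unit => (3 * (1 * 1) : ℤ)) = idm 3 := by
    funext l l'
    simp [idm]
  have e2 : lc (fun _ : Unit => 1) (tp (B.tc j)) =
      fun p : PP Unit g => B.φ j p.1 (p.2 ()) := by
    funext p
    simp [lc, Box.φ]
  rwa [e1, e2] at h

theorem Box.JF_Δ (B : Box g) (j : Fin B.nJ) :
    JF (2 * B.N ^ 2) (1 + g + 3) 1 (idm 3) (B.Δ j) := by
  have h := ((JF.of_Fm (ι := Unit) (th_analytic B.c₀) (Fm_th B.hN B.h0)).mul
    (JF.of_Fm (Gm_an B.cs) (Fm_Gm B.hN B.hs))).mul (B.JF_φ j)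
  simp only [add_zero, zero_add] at h
  exact h

theorem Box.mem_dom (B : Box g) {j : Fin B.nJ} {p : PP Unit g} :
    p ∈ DomJ (B.Δ j) ↔ p.1 ∈ Om B.c₀ B.cs ∧ B.φ j p.1 (p.2 ()) ≠ 0 := by
  have e : Vf B.c₀ B.cs p.1 = (th B.c₀ p.1)⁻¹ • Gm B.cs p.1 := by
    ext a i
    simp only [Vf, Gm, Matrix.of_apply, Matrix.smul_apply, smul_eq_mul, div_eq_inv_mul]
  simp only [DomJ, Om, Box.Δ, Set.mem_ofPred_eq, e, det_smul, mul_ne_zero_iff]
  exact ⟨fun ⟨h1, ⟨h2, h3⟩, h4⟩ => ⟨⟨h1, h2, pow_ne_zero _ (inv_ne_zero h2), h3⟩, h4⟩,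
    fun ⟨⟨h1, h2, _, h3⟩, h4⟩ => ⟨h1, ⟨h2, h3⟩, h4⟩⟩

end Pool.Agent.MP_cf0a82_ag

end
end

section

open Complex Filter Topology Matrix Function

noncomputable section

namespace Pool.Agent.MP_cf0a82_ag

open Pool.Agent.MP_f58063_ag

variable {ι : Type} [Fintype ι] {g : ℕ} {m : ι → ι → ℤ} {Δ f f' : PP ι g → ℂ}

lemma xbmera_nhds (hΔ : JH m Δ) {p : PP ι g} (hp : p ∈ DomJ Δ) : ∀ᶠ q in 𝓝 p, q ∈ DomJ Δ :=
  (continuous_fst.continuousAt.eventually (isOpen_PosIm.mem_nhds hp.1)).and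
    ((hΔ.an p hp.1).continuousAt.eventually_ne hp.2)

/-- the symmetric basic directions -/
def xbmeraE (ι : Type) (a b : Fin g) : PP ι g :=
  (fun i j => (if a = i ∧ b = j then 1 else 0) + if b = i ∧ a = j then 1 else 0, 0)

open Classical in
/-- the vertical basic directions -/
def xbmeraZ (l : ι) (a : Fin g) : PP ι g := (0, fun l' a' => if l = l' ∧ a = a' then 1 else 0)

lemma xbmera_exp {v : PP ι g} (hv : IsSy v.1) :
    v = ∑ a, ∑ b, (v.1 a b * 2⁻¹) • xbmeraE ι a b + ∑ l, ∑ a, v.2 l a • xbmeraZ l a := by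
  classical
  refine Prod.ext (funext fun i => funext fun j => ?_) (funext fun l => funext fun i => ?_)
  · simp only [xbmeraE, xbmeraZ, Prod.fst_add, Prod.fst_sum, Prod.smul_mk, Pi.add_apply,
      Finset.sum_apply, Pi.smul_apply, smul_eq_mul, mul_add, Finset.sum_add_distrib, mul_ite,
      mul_one, mul_zero, smul_zero, Finset.sum_const_zero, Pi.zero_apply, add_zero, ite_and,
      Finset.sum_ite_eq', Finset.mem_univ, if_true, Finset.sum_ite_irrel]
    rw [hv j i]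
    ring
  · simp [xbmeraE, xbmeraZ, Prod.snd_sum, Finset.sum_apply, ite_and]

theorem MerJ.analyticAt (hΔ : JH m Δ) (h : MerJ Δ m f) {p : PP ι g} (hp : p ∈ DomJ Δ) :
    AnalyticAt ℂ f p := by
  obtain ⟨n, h, hh, e⟩ := h
  refine ((hh.an p hp.1).div ((hΔ.an p hp.1).pow n) (pow_ne_zero n hp.2)).congr ?_
  filter_upwards [xbmera_nhds hΔ hp] with q hq using (e q hq).symm

theorem MerJ.of_JH (h : JH 0 f) : MerJ Δ m f :=
  ⟨0, f, by rwa [zero_smul], fun p _ => by rw [pow_zero, div_one]⟩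

theorem MerJ.of_div {h : PP ι g → ℂ} (hh : JH m h) (e : ∀ p ∈ DomJ Δ, f p = h p / Δ p) :
    MerJ Δ m f :=
  ⟨1, h, by rwa [one_smul], fun p hp => by rw [pow_one, e p hp]⟩

theorem MerJ.congr (h : MerJ Δ m f) (e : ∀ p ∈ DomJ Δ, f p = f' p) : MerJ Δ m f' := by
  obtain ⟨n, h, hh, e'⟩ := h
  exact ⟨n, h, hh, fun p hp => (e p hp).symm.trans (e' p hp)⟩

theorem MerJ.const (c : ℂ) : MerJ Δ m fun _ => c :=
  MerJ.of_JH (JH.const c)

theorem MerJ.add (hΔ : JH m Δ) (h : MerJ Δ m f) (h' : MerJ Δ m f') :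
    MerJ Δ m fun p => f p + f' p := by
  obtain ⟨n, h, hh, e⟩ := h
  obtain ⟨n', h', hh', e'⟩ := h'
  refine ⟨n + n', fun p => h p * Δ p ^ n' + Δ p ^ n * h' p, ?_, fun p hp => ?_⟩
  · rw [add_smul]
    exact (hh.mul (hΔ.pow n')).add ((hΔ.pow n).mul hh')
  · beta_reduce
    rw [e p hp, e' p hp, div_add_div _ _ (pow_ne_zero n hp.2) (pow_ne_zero n' hp.2), pow_add]

theorem MerJ.mul (h : MerJ Δ m f) (h' : MerJ Δ m f') : MerJ Δ m fun p => f p * f' p := by
  obtain ⟨n, h, hh, e⟩ := h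
  obtain ⟨n', h', hh', e'⟩ := h'
  refine ⟨n + n', fun p => h p * h' p, ?_, fun p hp => ?_⟩
  · rw [add_smul]
    exact hh.mul hh'
  · beta_reduce
    rw [e p hp, e' p hp, div_mul_div_comm, pow_add]

theorem MerJ.neg (h : MerJ Δ m f) : MerJ Δ m fun p => -f p :=
  ((MerJ.const (-1)).mul h).congr fun _ _ => neg_one_mul _

theorem MerJ.sub (hΔ : JH m Δ) (h : MerJ Δ m f) (h' : MerJ Δ m f') :
    MerJ Δ m fun p => f p - f' p :=
  (h.add hΔ h'.neg).congr fun _ _ => (sub_eq_add_neg _ _).symm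

theorem MerJ.sum (hΔ : JH m Δ) {κ : Type} (s : Finset κ) {F : κ → PP ι g → ℂ}
    (h : ∀ i ∈ s, MerJ Δ m (F i)) : MerJ Δ m fun p => ∑ i ∈ s, F i p := by
  classical
  induction s using Finset.induction_on with
  | empty => exact (MerJ.const 0).congr fun _ _ => (Finset.sum_empty).symm
  | insert a s ha ih =>
    exact ((h a (Finset.mem_insert_self a s)).add hΔ
      (ih fun i hi => h i (Finset.mem_insert_of_mem hi))).congr fun p _ =>
        (Finset.sum_insert (f := fun i => F i p) ha).symm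

theorem MerJ.matMul (hΔ : JH m Δ) {l k n : Type} [Fintype k] {A : PP ι g → Matrix l k ℂ}
    {C : PP ι g → Matrix k n ℂ} (hA : ∀ a b, MerJ Δ m fun p => A p a b)
    (hC : ∀ a b, MerJ Δ m fun p => C p a b) (a : l) (b : n) :
    MerJ Δ m fun p => (A p * C p) a b :=
  (MerJ.sum hΔ Finset.univ fun i _ => (hA a i).mul (hC i b)).congr fun _ _ =>
    Matrix.mul_apply.symm

theorem MerJ.dv (hΔ : JH m Δ) (h : MerJ Δ m f) {v : PP ι g} (hv : IsSy v.1) :
    MerJ Δ m fun p => fderiv ℂ f p v := by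
  have ha := fun p hp => h.analyticAt hΔ (p := p) hp
  obtain ⟨n, h, hh, e⟩ := h
  have h1 : MerJ Δ m fun p => fderiv ℂ h p v / Δ p ^ n := ⟨n, _, hh.dv hv, fun _ _ => rfl⟩
  have h2 : MerJ Δ m fun p => fderiv ℂ (fun q => Δ q ^ n) p v / Δ p ^ n :=
    ⟨n, _, (hΔ.pow n).dv hv, fun _ _ => rfl⟩
  refine (h1.sub hΔ (MerJ.mul ⟨n, h, hh, e⟩ h2)).congr fun p hp => ?_
  have h3 : h =ᶠ[𝓝 p] fun q => f q * Δ q ^ n := by
    filter_upwards [xbmera_nhds hΔ hp] with q hq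
    rw [e q hq, div_mul_cancel₀ _ (pow_ne_zero n hq.2)]
  have h4 : DifferentiableAt ℂ (fun q => Δ q ^ n) p := ((hΔ.an p hp.1).pow n).differentiableAt
  have h5 := pow_ne_zero n hp.2
  rw [h3.fderiv_eq, fderiv_fun_mul (ha p hp).differentiableAt h4]
  simp only [ContinuousLinearMap.add_apply, ContinuousLinearMap.smul_apply, smul_eq_mul]
  field_simp
  ring

theorem MerJ.der (hΔ : JH m Δ) (h : MerJ Δ m f) {ξ : PP ι g → PP ι g} (hξ : MerF Δ m ξ) :
    MerJ Δ m fun p => fderiv ℂ f p (ξ p) := by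
  have hE : ∀ a b, IsSy (xbmeraE (g := g) ι a b).1 := fun a b i j => by
    simp only [xbmeraE, and_comm, add_comm]
  have hZ : ∀ (l : ι) (a : Fin g), IsSy (xbmeraZ l a).1 := fun _ _ _ _ => rfl
  refine ((MerJ.sum hΔ Finset.univ fun a _ => MerJ.sum hΔ Finset.univ fun b _ =>
    ((hξ.1 a b).mul (MerJ.const 2⁻¹)).mul (h.dv hΔ (hE a b))).add hΔ
    (MerJ.sum hΔ Finset.univ fun l _ => MerJ.sum hΔ Finset.univ fun a _ =>
      (hξ.2.1 l a).mul (h.dv hΔ (hZ l a)))).congr fun p _ => ?_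
  conv_rhs => rw [xbmera_exp (hξ.2.2 p)]
  simp only [map_add, map_sum, map_smul, smul_eq_mul]

end Pool.Agent.MP_cf0a82_ag

end
end
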