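import Pool.Agent.Mg.Fcf0a82q.G40f606
import Pool.Agent.MP_f58063_ag.E.Defs
import Pool.Agent.Mg.Fcf0a82q.Gbd7e79
import Pool.Agent.Mg.Fcf0a82q.Gdea9ca
import Pool.Agent.Mg.Fcf0a82q.G67c0ca
import Pool.Agent.Mg.Fcf0a82q.G3d2c3a
import Pool.Agent.Mg.Fcf0a82q.G446bd4

section

open Complex Filter Topology Matrix Function

noncomputable section

namespace Pool.Agent.MP_cf0a82_ag

open Pool.Agent.MP_f58063_ag

variable {g : ℕ}

/-- characteristics of order four -/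
def qc (δ : LL g → Fin 4) : LL g → ℂ := fun i => ((δ i : ℕ) : ℂ) / 4

/-- the domain of the global coordinates -/
def Og (c : LL g → ℂ) : Set (Mat g) := {τ | τ ∈ PosIm g ∧ ∀ ε, th (c + hc ε) τ ≠ 0}

/-- the global coordinates -/
def Φg (c : LL g → ℂ) (τ : Mat g) (j : (LL g → Fin 4) × (LL g → Fin 2)) : ℂ :=
  yq (c + hc j.2) (qc j.1) τ

/-- an invariant immersion that is proper modulo the group -/
structure Glob {κ : Type} [Fintype κ] (Γ : Subgroup (Sp g)) (Ω : Set (Mat g))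
    (Φ : Mat g → κ → ℂ) : Prop where
  op : IsOpen Ω
  an : AnalyticOnNhd ℂ Φ Ω
  inv : ∀ γ ∈ Γ, ∀ τ ∈ Siegel g, τ ∈ Ω → act γ τ ∈ Ω ∧ Φ (act γ τ) = Φ τ
  imm : ∀ τ ∈ Siegel g, τ ∈ Ω → ∀ S : Mat g, IsSy S → fderiv ℂ Φ τ S = 0 → S = 0
  prp : ∀ K : ℝ, ∃ C : Set (Mat g), IsCompact C ∧ C ⊆ Siegel g ∩ Ω ∧
    ∀ τ ∈ Siegel g, τ ∈ Ω → ‖Φ τ‖ ≤ K → ∃ γ ∈ Γ, act γ τ ∈ C

/-- the zero set of `E` is finite and unramified over the complement of the zero set of `R` -/
structure Etl {κ : Type} [Fintype κ] {r : ℕ} (E : Set ((κ → ℂ) → ℂ)) (e : Fin r → κ)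
    (R : MvPolynomial (Fin r) ℂ) : Prop where
  an : ∀ f ∈ E, ∀ x, AnalyticAt ℂ f x
  ne : R ≠ 0
  bd : ∀ u, MvPolynomial.eval u R ≠ 0 → ∃ K : ℝ, ∀ᶠ u' in 𝓝 u, ∀ x : κ → ℂ,
    (∀ f ∈ E, f x = 0) → (fun i => x (e i)) = u' → ‖x‖ ≤ K
  sec : ∀ x : κ → ℂ, (∀ f ∈ E, f x = 0) → MvPolynomial.eval (fun i => x (e i)) R ≠ 0 →
    ∃ s : (Fin r → ℂ) → κ → ℂ, AnalyticAt ℂ s (fun i => x (e i)) ∧
      ∀ᶠ x' in 𝓝 x, (∀ f ∈ E, f x' = 0) → s (fun i => x' (e i)) = x'

/-- the data for the analytic continuation of an algebraic germ -/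
structure GD (g r : ℕ) (κ : Type) [Fintype κ] : Type where
  Γ : Subgroup (Sp g)
  Ω : Set (Mat g)
  Φ : Mat g → κ → ℂ
  E : Set ((κ → ℂ) → ℂ)
  e : Fin r → κ
  R : MvPolynomial (Fin r) ℂ
  glob : Glob Γ Ω Φ
  etl : Etl E e R

namespace GD

variable {r : ℕ} {κ : Type} [Fintype κ] (D : GD g r κ)

/-- the projection -/
def y (τ : Mat g) : Fin r → ℂ := fun i => D.Φ τ (D.e i)

/-- the preimage of the variety -/
def W : Set (Mat g) :=
  {τ | τ ∈ Siegel g ∧ τ ∈ D.Ω ∧ (∀ f ∈ D.E, f (D.Φ τ) = 0) ∧ MvPolynomial.eval (D.y τ) D.R ≠ 0}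

/-- local sections of the projection -/
def Sec (σ : (Fin r → ℂ) → Mat g) (u : Fin r → ℂ) : Prop :=
  AnalyticAt ℂ σ u ∧ ∀ᶠ u' in 𝓝 u, σ u' ∈ D.W ∧ D.y (σ u') = u'

/-- the points through which there is a local section -/
def Gd : Set (Mat g) := {τ | ∃ σ, D.Sec σ (D.y τ) ∧ σ (D.y τ) = τ}

end GD

namespace Atl

variable {B : Box g} (A : Atl B) (t : ℕ × (LL g → ℚ))

/-- a local equation of the theta divisor -/
def F (y : DD g × EE g) : ℂ :=
  tp (0, t.2) (B.ψ y.1) (A.σ t.1 y) / B.φ (A.j t.1) (B.ψ y.1) (A.σ t.1 y)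

/-- the domain of the local equation -/
def Ω : Set (DD g × EE g) :=
  {y | y ∈ A.O t.1 ∧ thc (rq t.2) (B.ψ y.1) (A.σ t.1 y) ≠ 0 ∧
    thc (rq (-t.2)) (B.ψ y.1) (A.σ t.1 y) ≠ 0}

/-- the singular points of the theta divisors -/
def Z : Set (DD g × EE g) := {y | y ∈ A.Ω t ∧ A.σ t.1 y ∈ singTheta (B.ψ y.1)}

end Atl

end Pool.Agent.MP_cf0a82_ag

end
end

section

open Complex Filter Topology Matrix Function

noncomputable section

namespace Pool.Agent.MP_cf0a82_ag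

open Pool.Agent.MP_f58063_ag

theorem xkeven_same {X Y I : Type} [TopologicalSpace X] [T2Space X] [TopologicalSpace Y]
    {S : Set X} {y : X → Y} {O : Set Y} (hc : IsPreconnected O)
    {σ : I → Y → X} (h1 : ∀ i, ContinuousOn (σ i) O)
    (h2 : ∀ i, ∀ u ∈ O, σ i u ∈ S ∧ y (σ i u) = u)
    (h3 : ∀ i, ∀ u ∈ O, ∀ᶠ x in 𝓝 (σ i u), x ∈ S → σ i (y x) = x)
    {i j : I} {a b : Y} (ha : a ∈ O) (hb : b ∈ O) (h : σ i a = σ j a) : σ i b = σ j b := by
  have : PreconnectedSpace O := Subtype.preconnectedSpace hc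
  have hi : Continuous fun c : O => σ i c := (h1 i).domRestrict
  have hj : Continuous fun c : O => σ j c := (h1 j).domRestrict
  have hA : IsClopen {c : O | σ i c = σ j c} := by
    refine ⟨isClosed_eq hi hj, isOpen_iff_mem_nhds.2 fun c hc' => ?_⟩
    have h4 := h3 i c c.2
    rw [show σ i c = σ j c from hc'] at h4
    filter_upwards [(hj.tendsto c).eventually h4] with d hd
    have h5 := hd (h2 j d d.2).1
    rwa [(h2 j d d.2).2] at h5
  have h6 : (⟨b, hb⟩ : O) ∈ {c : O | σ i c = σ j c} := by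
    rw [hA.eq_univ ⟨⟨a, ha⟩, h⟩]
    trivial
  exact h6

/-- a family of local sections that exhausts the preimage gives an evenly covered set -/
theorem evenly {X Y I : Type} [TopologicalSpace X] [T2Space X] [TopologicalSpace Y] {S : Set X}
    {y : X → Y} (hy : ContinuousOn y S) {O : Set Y} (hO : IsOpen O) (hc : IsPreconnected O)
    {σ : I → Y → X} (h1 : ∀ i, ContinuousOn (σ i) O)
    (h2 : ∀ i, ∀ u ∈ O, σ i u ∈ S ∧ y (σ i u) = u)
    (h3 : ∀ i, ∀ u ∈ O, ∀ᶠ x in 𝓝 (σ i u), x ∈ S → σ i (y x) = x)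
    (h4 : ∀ x ∈ S, y x ∈ O → ∃ i, σ i (y x) = x) {u : Y} (hu : u ∈ O) :
    IsEvenlyCovered (S.domRestrict y) u (S.domRestrict y ⁻¹' {u}) := by
  have same : ∀ {i j : I} {a b : Y}, a ∈ O → b ∈ O → σ i a = σ j a → σ i b = σ j b :=
    fun ha hb h => xkeven_same hc h1 h2 h3 ha hb h
  choose idx hidx using h4
  have hf : Continuous (S.domRestrict y) := hy.domRestrict
  have hF : ∀ z : S.domRestrict y ⁻¹' {u}, y z.1.1 = u := fun z => z.2
  have hFO : ∀ z : S.domRestrict y ⁻¹' {u}, y z.1.1 ∈ O := fun z => by rw [hF z]; exact hu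
  have hz : ∀ z : S.domRestrict y ⁻¹' {u}, σ (idx z.1.1 z.1.2 (hFO z)) u = z.1.1 := fun z => by
    have h5 := hidx z.1.1 z.1.2 (hFO z)
    generalize idx z.1.1 z.1.2 (hFO z) = i at h5
    rwa [hF z] at h5
  have hd : DiscreteTopology (S.domRestrict y ⁻¹' {u}) := by
    rw [discreteTopology_iff_singleton_mem_nhds]
    intro z
    have h5 := h3 (idx z.1.1 z.1.2 (hFO z)) u hu
    rw [hz z] at h5
    have h6 : Continuous fun w : S.domRestrict y ⁻¹' {u} => w.1.1 :=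
      continuous_subtype_val.comp continuous_subtype_val
    filter_upwards [(h6.tendsto z).eventually h5] with w hw
    have h7 := hw w.1.2
    rw [hF w, hz z] at h7
    exact Subtype.ext (Subtype.ext h7.symm)
  refine ⟨hd, O, hu, hO, hO.preimage hf, ?_⟩
  refine ⟨{ toFun := fun x => (⟨y x.1.1, x.2⟩,
              ⟨⟨σ (idx x.1.1 x.1.2 x.2) u, (h2 _ u hu).1⟩, (h2 _ u hu).2⟩)
            invFun := fun p => ⟨⟨σ (idx p.2.1.1 p.2.1.2 (hFO p.2)) p.1, (h2 _ _ p.1.2).1⟩, by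
              show y (σ _ _) ∈ O
              rw [(h2 _ _ p.1.2).2]
              exact p.1.2⟩
            left_inv := fun x => ?_
            right_inv := fun p => ?_
            continuous_toFun := ?_
            continuous_invFun := ?_ }, fun x => rfl⟩
  · refine Subtype.ext (Subtype.ext ?_)
    exact (same hu x.2 (hz ⟨⟨σ (idx x.1.1 x.1.2 x.2) u, (h2 _ u hu).1⟩, (h2 _ u hu).2⟩)).trans
      (hidx x.1.1 x.1.2 x.2)
  · refine Prod.ext (Subtype.ext (h2 _ _ p.1.2).2) (Subtype.ext (Subtype.ext ?_))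
    refine (same p.1.2 hu ?_).trans (hz p.2)
    have h5 : y (σ (idx p.2.1.1 p.2.1.2 (hFO p.2)) p.1) ∈ O := by
      rw [(h2 _ _ p.1.2).2]
      exact p.1.2
    have h6 := hidx _ (h2 _ _ p.1.2).1 h5
    generalize idx (σ (idx p.2.1.1 p.2.1.2 (hFO p.2)) p.1) _ _ = i at h6 ⊢
    rwa [(h2 _ _ p.1.2).2] at h6
  · refine Continuous.prodMk ((hf.comp continuous_subtype_val).subtype_mk _) ?_
    refine continuous_iff_continuousAt.2 fun x => ?_
    have h5 := h3 (idx x.1.1 x.1.2 x.2) (y x.1.1) x.2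
    rw [hidx x.1.1 x.1.2 x.2] at h5
    have h6 : Continuous fun w : S.domRestrict y ⁻¹' O => w.1.1 :=
      continuous_subtype_val.comp continuous_subtype_val
    refine (continuousAt_const (y := (⟨⟨σ (idx x.1.1 x.1.2 x.2) u, (h2 _ u hu).1⟩,
      (h2 _ u hu).2⟩ : S.domRestrict y ⁻¹' {u}))).congr ?_
    filter_upwards [(h6.tendsto x).eventually h5] with w hw
    exact Subtype.ext (Subtype.ext
      (same w.2 hu ((hw w.1.2).trans (hidx w.1.1 w.1.2 w.2).symm)))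
  · refine continuous_prod_of_discrete_right.2 fun z => ?_
    exact ((h1 (idx z.1.1 z.1.2 (hFO z))).domRestrict.subtype_mk _).subtype_mk _

end Pool.Agent.MP_cf0a82_ag

end
end

section

open Complex Filter Topology Matrix Function

noncomputable section

namespace Pool.Agent.MP_cf0a82_ag

open Pool.Agent.MP_f58063_ag

lemma xkactg_norm {g : ℕ} {τ : Mat g} (γ : Sp g) (hτ : τ ∈ Siegel g) {c : LL g → ℝ} {κ : ℂ}
    (h : ∀ z, xstfF γ τ z = κ * thc (fun i => (c i : ℂ)) τ z) (y : LL g → ℝ) :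
    ‖th (fun i => (y i : ℂ)) (act γ τ)‖ =
      ‖κ‖ * ‖th (fun i => ((c i + ∑ j, (γ.1 j i : ℝ) * y j : ℝ) : ℂ)) τ‖ := by
  have k1 : (cx γ)ᵀ *ᵥ (fun i => (y i : ℂ)) =
      fun i => ((∑ j, (γ.1 j i : ℝ) * y j : ℝ) : ℂ) := by
    funext i
    simp [cx, mulVec, dotProduct]
  have k2 := xstf_key γ hτ (fun i => (y i : ℂ)) 0
  rw [mulVec_zero, k1, zero_dotProduct, add_zero, zero_add, h, mul_left_comm,
    xathg_shift hτ] at k2
  have k4 : (fun i => ((c i + ∑ j, (γ.1 j i : ℝ) * y j : ℝ) : ℂ)) =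
      (fun i => (c i : ℂ)) + fun i => ((∑ j, (γ.1 j i : ℝ) * y j : ℝ) : ℂ) := by
    funext i
    simp
  rw [k4, th, k2, norm_mul, norm_mul, Complex.norm_exp]
  generalize (fun i => (∑ j, (γ.1 j i : ℝ) * y j : ℝ)) = d
  simp [dotProduct, Complex.im_sum]

/-- the transformation formula for the absolute values of the theta constants -/
theorem th_act_gen {g : ℕ} (γ : Sp g) : ∃ c₀ : LL g → ℝ, ∀ τ ∈ Siegel g, ∀ c : LL g → ℝ,
    ‖th (fun i => (c i : ℂ)) (act γ τ)‖ * Ws τ =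
      ‖th (fun i => ((c₀ i + ∑ j, (γ.1 j i : ℝ) * c j : ℝ) : ℂ)) τ‖ * Ws (act γ τ) := by
  obtain ⟨c₀, hc⟩ := xstf_gen γ
  refine ⟨c₀, fun τ hτ c => ?_⟩
  obtain ⟨κ, -, hκ⟩ := hc τ hτ
  rw [xkactg_norm γ hτ hκ c, xathg_Ws γ hτ hκ]
  ring

end Pool.Agent.MP_cf0a82_ag

end
end

section

open Complex Filter Topology Matrix Function

noncomputable section

namespace Pool.Agent.MP_cf0a82_ag

open Pool.Agent.MP_f58063_ag

lemma xkdec_cs {g : ℕ} {Y : Matrix (Fin g) (Fin g) ℝ} (hY : Y.PosDef) (hs : Y.IsSymm)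
    (w v : Fin g → ℝ) : (w ⬝ᵥ v) ^ 2 ≤ (w ⬝ᵥ Y⁻¹ *ᵥ w) * (v ⬝ᵥ Y *ᵥ v) := by
  have hu : IsUnit Y.det := hY.det_pos.ne'.isUnit
  have h1 : Y *ᵥ (Y⁻¹ *ᵥ w) = w := by
    rw [mulVec_mulVec, mul_nonsing_inv _ hu, one_mulVec]
  have h2 : (Y⁻¹ *ᵥ w) ⬝ᵥ Y *ᵥ v = w ⬝ᵥ v := by
    rw [dotProduct_mulVec, ← mulVec_transpose, hs.eq, h1]
  have h3 : ∀ s : ℝ, 0 ≤ (w ⬝ᵥ Y⁻¹ *ᵥ w) * (s * s) + (-2 * (w ⬝ᵥ v)) * s + v ⬝ᵥ Y *ᵥ v := by
    intro s
    have h4 := hY.posSemidef.dotProduct_mulVec_nonneg (v - s • (Y⁻¹ *ᵥ w))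
    rw [star_trivial, mulVec_sub, mulVec_smul, h1, sub_dotProduct, dotProduct_sub, dotProduct_sub,
      smul_dotProduct, h2, smul_dotProduct, dotProduct_smul, dotProduct_smul,
      dotProduct_comm v w, dotProduct_comm (Y⁻¹ *ᵥ w) w] at h4
    simp only [smul_eq_mul] at h4
    linarith
  have h5 := discrim_le_zero h3
  rw [discrim] at h5
  nlinarith

lemma xkdec_odd {g : ℕ} {U : Matrix (Fin g) (Fin g) ℤ} (hU : IsUnit U.det) (i : Fin g) :
    ∃ k, ¬ (2 : ℤ) ∣ U k i := by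
  by_contra h
  push Not at h
  have h1 : (U.map (Int.castRingHom (ZMod 2))).det = 0 :=
    det_eq_zero_of_column_eq_zero i fun k =>
      (ZMod.intCast_zmod_eq_zero_iff_dvd (U k i) 2).2 (by exact_mod_cast h k)
  have h2 := hU.map (Int.castRingHom (ZMod 2))
  rw [RingHom.map_det, RingHom.mapMatrix_apply, h1] at h2
  exact not_isUnit_zero h2

/-- theta constants are small near the cusp -/
theorem Sr_decay (g : ℕ) {δ η : ℝ} (hδ : 0 < δ) (hη : 0 < η) : ∃ ε : ℝ, 0 < ε ∧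
    ∀ τ ∈ Siegel g, YG τ δ → ∀ w : Fin g → ℤ,
      (∀ v : Fin g → ℝ, (∑ i, (w i : ℝ) * v i) ^ 2 ≤ ε * (v ⬝ᵥ Ym τ *ᵥ v)) →
      ∀ a b : Fin g → ℝ, (∀ n : ℤ, 1 / 4 ≤ |∑ i, (w i : ℝ) * a i - n|) → ‖Sr τ a b‖ < η := by
  obtain ⟨C, hC, h⟩ := gauss_bd g
  have hπ := Real.pi_pos
  obtain ⟨r, hr, hr'⟩ : ∃ r : ℝ, 1 ≤ r ∧ r⁻¹ ≤ Real.pi * δ / 2 := by
    refine ⟨max 1 (Real.pi * δ / 2)⁻¹, le_max_left _ _, ?_⟩
    exact inv_le_of_inv_le₀ (by positivity) (le_max_right _ _)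
  obtain ⟨L, hL, hL'⟩ : ∃ L : ℝ, 0 < L ∧ Real.exp (-L) * (C * r ^ g) < η := by
    have h0 : 0 < C * r ^ g := by positivity
    refine ⟨C * r ^ g / η, by positivity, ?_⟩
    rw [Real.exp_neg, inv_mul_lt_iff₀ (Real.exp_pos _), ← div_lt_iff₀ hη]
    linarith [Real.add_one_le_exp (C * r ^ g / η)]
  refine ⟨Real.pi / (32 * L), by positivity, fun τ _ hY w hw a b ha => ?_⟩
  obtain ⟨h1, h2⟩ := h r hr a
  refine lt_of_le_of_lt ?_ hL'
  refine le_trans ?_ (mul_le_mul_of_nonneg_left h2 (Real.exp_pos _).le)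
  rw [xsdup_def]
  refine tsum_of_norm_bounded (h1.hasSum.mul_left _) fun n => ?_
  rw [Complex.norm_exp, xsdup_re, ← Real.exp_add, Real.exp_le_exp]
  have h3 := hY fun i => (n i : ℝ) + a i
  have h4 := hw fun i => (n i : ℝ) + a i
  have h5 : (fun i => (n i : ℝ) + a i) ⬝ᵥ (fun i => (n i : ℝ) + a i) =
      ∑ i, ((n i : ℝ) + a i) ^ 2 := by
    simp only [dotProduct, sq]
  have h6 := ha (-∑ i, w i * n i)
  have h7 : ∑ i, (w i : ℝ) * a i - ((-∑ i, w i * n i : ℤ) : ℝ) =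
      ∑ i, (w i : ℝ) * ((n i : ℝ) + a i) := by
    push_cast
    simp only [mul_add, Finset.sum_add_distrib]
    ring
  rw [h7] at h6
  rw [xadet_form] at h3 h4
  rw [h5] at h3
  have h8 : 0 ≤ ∑ i, ((n i : ℝ) + a i) ^ 2 := by positivity
  rw [neg_div, div_eq_inv_mul]
  generalize ∑ i, ((n i : ℝ) + a i) ^ 2 = S at *
  generalize ∑ i, ∑ j, ((n i : ℝ) + a i) * (τ i j).im * ((n j : ℝ) + a j) = Q at *
  generalize ∑ i, (w i : ℝ) * ((n i : ℝ) + a i) = T at *
  have h9 : 1 / 16 ≤ T ^ 2 := by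
    rw [← sq_abs]
    nlinarith
  have h10 : 2 * L ≤ Real.pi * Q := by
    have h11 := h9.trans h4
    rw [div_mul_eq_mul_div, le_div_iff₀ (by positivity)] at h11
    linarith
  have h12 : r⁻¹ * S ≤ Real.pi * δ / 2 * S := mul_le_mul_of_nonneg_right hr' h8
  have h13 : Real.pi * (δ * S) ≤ Real.pi * Q := mul_le_mul_of_nonneg_left h3 hπ.le
  linarith

/-- a lattice without short dual vectors has bounded volume -/
theorem det_le (g : ℕ) {ε : ℝ} (hε : 0 < ε) : ∃ M : ℝ, ∀ τ ∈ Siegel g,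
    (∀ w : Fin g → ℤ, (∃ i, ¬ (2 : ℤ) ∣ w i) →
      ∃ v : Fin g → ℝ, ε * (v ⬝ᵥ Ym τ *ᵥ v) < (∑ i, (w i : ℝ) * v i) ^ 2) → (Ym τ).det ≤ M := by
  obtain ⟨c, hc, h⟩ := hermite g
  refine ⟨((c * ε) ^ g)⁻¹, fun τ hτ hw => ?_⟩
  have hY := Ym_posDef hτ
  have hs := xadet_sym (mem_Siegel.1 hτ).1
  have hs' : (Ym τ)⁻¹.IsSymm := by
    rw [Matrix.IsSymm, transpose_nonsing_inv, hs.eq]
  obtain ⟨U, hU, hU'⟩ := h (Ym τ)⁻¹ hs' ε hε fun U hU i => by
    obtain ⟨v, hv⟩ := hw (fun k => U k i) (xkdec_odd hU i)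
    have h1 := hv.trans_le (xkdec_cs hY hs (fun k => (U k i : ℝ)) v)
    have h2 := hY.posSemidef.dotProduct_mulVec_nonneg v
    rw [star_trivial] at h2
    exact (lt_of_mul_lt_mul_right h1 h2).le
  have h1 : ((U.map (Int.cast : ℤ → ℝ))ᵀ * (Ym τ)⁻¹ * U.map (Int.cast : ℤ → ℝ)).IsSymm := by
    rw [Matrix.IsSymm, transpose_mul, transpose_mul, transpose_transpose, hs'.eq, Matrix.mul_assoc]
  have h2 := xadet_pow h1 (c := c * ε) (by positivity) fun v => by
    rw [xadet_conj]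
    exact hU' v
  have h3 : (U.map (Int.cast : ℤ → ℝ)).det * (U.map (Int.cast : ℤ → ℝ)).det = 1 := by
    rw [← Int.cast_det]
    exact_mod_cast Int.isUnit_mul_self hU
  rw [det_mul, det_mul, det_transpose, mul_right_comm, h3, one_mul, det_nonsing_inv,
    Ring.inverse_eq_inv'] at h2
  exact (le_inv_comm₀ (by positivity) hY.det_pos).1 h2

theorem exists_cpt (g : ℕ) {δ : ℝ} (hδ : 0 < δ) (M : ℝ) : ∃ C : Set (Mat g), IsCompact C ∧
    C ⊆ Siegel g ∧ ∀ τ ∈ Siegel g, YG τ δ → (∀ i j, |(τ i j).re| ≤ 1 / 2) → (Ym τ).det ≤ M →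
      τ ∈ C := by
  refine ⟨{τ | IsSy τ ∧ YG τ δ} ∩ Metric.closedBall 0 (1 / 2 + δ * |M| / δ ^ g),
    (isCompact_closedBall _ _).inter_left ?_, fun τ h => siegel_of_YG h.1.1 hδ h.1.2,
    fun τ hτ hY hX hM => ⟨⟨(mem_Siegel.1 hτ).1, hY⟩, ?_⟩⟩
  · simp only [IsSy, YG, xadet_form, Set.ofPred_and, Set.ofPred_forall]
    refine IsClosed.inter (isClosed_iInter fun i => isClosed_iInter fun j =>
      isClosed_eq (by fun_prop) (by fun_prop)) (isClosed_iInter fun v => isClosed_le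
        continuous_const (by fun_prop))
  · have h0 : 0 ≤ 1 / 2 + δ * |M| / δ ^ g := by positivity
    rw [mem_closedBall_zero_iff, pi_norm_le_iff_of_nonneg h0]
    intro i
    rw [pi_norm_le_iff_of_nonneg h0]
    intro j
    refine (norm_le_abs_re_add_abs_im _).trans (add_le_add (hX i j) ?_)
    rw [le_div_iff₀ (by positivity)]
    exact (entry_le_det hτ hδ hY i j).trans
      (mul_le_mul_of_nonneg_left (hM.trans (le_abs_self M)) hδ.le)

end Pool.Agent.MP_cf0a82_ag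

end
end

section

open Complex Filter Topology Matrix Function

noncomputable section

namespace Pool.Agent.MP_cf0a82_ag

open Pool.Agent.MP_f58063_ag

/-- if no theta constant in a class modulo half periods is small then the point lies in a compact
part of the moduli space -/
theorem prp_abs (g : ℕ) {η : ℝ} (hη : 0 < η) : ∃ C : Set (Mat g), IsCompact C ∧ C ⊆ Siegel g ∧
    ∀ c : LL g → ℝ, ∀ τ ∈ Siegel g,
      (∀ ε, η * Ws τ ≤ ‖th ((fun i => (c i : ℂ)) + hc ε) τ‖) → ∃ γ : Sp g, act γ τ ∈ C := by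
  obtain ⟨δ, hδ, hred⟩ := red g
  obtain ⟨e, he, hdec⟩ := Sr_decay g hδ hη
  obtain ⟨M, hM⟩ := det_le g he
  obtain ⟨C, hC1, hC2, hC3⟩ := exists_cpt g hδ M
  refine ⟨C, hC1, hC2, fun c τ hτ h => ?_⟩
  obtain ⟨γ, h1, h2⟩ := hred τ hτ
  have hσ := act_mem γ hτ
  refine ⟨γ, hC3 _ hσ h1 h2 (hM _ hσ fun w ⟨i₀, hw⟩ => ?_)⟩
  by_contra hn
  push Not at hn
  obtain ⟨c₀, hc₀⟩ := th_act_gen γ⁻¹
  let a : (LL g → Fin 2) → LL g → ℝ := fun ε i =>
    c₀ i + ∑ j, ((γ⁻¹).1 j i : ℝ) * (c j + ((ε j : ℕ) : ℝ) / 2)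
  have key : ∀ ε, ∃ n : ℤ, |∑ i, (w i : ℝ) * a ε (Sum.inl i) - n| < 1 / 4 := by
    intro ε
    by_contra hh
    push Not at hh
    have h3 := hdec _ hσ h1 w hn (fun i => a ε (Sum.inl i)) (fun i => a ε (Sum.inr i)) hh
    have h4 := hc₀ _ hσ fun j => c j + ((ε j : ℕ) : ℝ) / 2
    have h5 := h ε
    have e1 : (fun i => (c i : ℂ)) + hc ε = fun i => ((c i + ((ε i : ℕ) : ℝ) / 2 : ℝ) : ℂ) := by
      funext i
      simp [hc]
    have e2 : (Sum.elim (fun i => (a ε (Sum.inl i) : ℂ)) fun i => (a ε (Sum.inr i) : ℂ)) =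
        fun i => (a ε i : ℂ) := by
      funext i
      cases i <;> rfl
    rw [← norm_th hσ, e2] at h3
    rw [← act_mul _ _ hτ, inv_mul_cancel, act_one] at h4
    rw [e1] at h5
    have h6 := mul_lt_mul_of_pos_right h3 (one_pos.trans_le (one_le_Ws hτ))
    exact (h6.trans_le (h5.trans (le_mul_of_one_le_right (norm_nonneg _)
      (one_le_Ws hσ)))).ne h4.symm
  obtain ⟨j₀, hj⟩ : ∃ j, ¬ (2 : ℤ) ∣ ((γ⁻¹).1 *ᵥ Sum.elim w 0) j := by
    by_contra hh
    push Not at hh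
    have h3 : γ.1 *ᵥ ((γ⁻¹).1 *ᵥ Sum.elim w 0) = Sum.elim w 0 := by
      rw [mulVec_mulVec, ← Submonoid.coe_mul, mul_inv_cancel, Submonoid.coe_one, one_mulVec]
    have h4 := congrFun h3 (Sum.inl i₀)
    rw [Sum.elim_inl, mulVec, dotProduct] at h4
    exact hw (h4 ▸ Finset.dvd_sum fun j _ => (hh j).mul_left _)
  obtain ⟨m, hm⟩ := key (Pi.single j₀ 1)
  obtain ⟨n, hn⟩ := key 0
  have h3 : ∀ i, a (Pi.single j₀ 1) i = a 0 i + ((γ⁻¹).1 j₀ i : ℝ) / 2 := fun i => by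
    have h4 : ∑ j, ((γ⁻¹).1 j i : ℝ) * ((((Pi.single j₀ 1 : LL g → Fin 2) j : ℕ) : ℝ) / 2) =
        ((γ⁻¹).1 j₀ i : ℝ) / 2 := by
      rw [Finset.sum_eq_single j₀ (fun j _ hj => by simp [hj]) (by simp)]
      simp [div_eq_mul_inv]
    simp only [a, mul_add, Finset.sum_add_distrib, h4]
    simp [add_assoc]
  have h4 : ∑ i, (w i : ℝ) * a (Pi.single j₀ 1) (Sum.inl i) = ∑ i, (w i : ℝ) * a 0 (Sum.inl i) +
      ((((γ⁻¹).1 *ᵥ Sum.elim w 0) j₀ : ℤ) : ℝ) / 2 := by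
    simp only [h3, mul_add, Finset.sum_add_distrib, mulVec, dotProduct, Fintype.sum_sum_type,
      Sum.elim_inl, Sum.elim_inr, Pi.zero_apply, mul_zero, Finset.sum_const_zero, add_zero,
      Int.cast_sum, Int.cast_mul, Finset.sum_div]
    exact congrArg _ (Finset.sum_congr rfl fun i _ => by ring)
  rw [h4] at hm
  generalize ((γ⁻¹).1 *ᵥ Sum.elim w 0) j₀ = u at hj hm
  rw [abs_lt] at hm hn
  have h5 : ((u - 2 * (m - n) : ℤ) : ℝ) < (1 : ℤ) := by
    push_cast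
    linarith
  have h6 : ((-1 : ℤ) : ℝ) < (u - 2 * (m - n) : ℤ) := by
    push_cast
    linarith
  rw [Int.cast_lt] at h5 h6
  omega

end Pool.Agent.MP_cf0a82_ag

end
end

section

open Complex Filter Topology Matrix Function

noncomputable section

namespace Pool.Agent.MP_cf0a82_ag

open Pool.Agent.MP_f58063_ag

lemma xketla_ev {r : ℕ} (p : MvPolynomial (Fin r) ℂ) (u : Fin r → ℂ) :
    AnalyticAt ℂ (fun u => MvPolynomial.eval u p) u :=
  AnalyticOnNhd.eval_mvPolynomial p u (Set.mem_univ _)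

lemma xketla_an {r : ℕ} (q : Polynomial (MvPolynomial (Fin r) ℂ)) (z : (Fin r → ℂ) × ℂ) :
    AnalyticAt ℂ (fun z : (Fin r → ℂ) × ℂ => (q.map (MvPolynomial.eval z.1)).eval z.2) z := by
  simp only [Polynomial.eval_map, Polynomial.eval₂_eq_sum_range]
  refine Finset.analyticAt_fun_sum _ fun i _ => ?_
  exact ((xketla_ev (q.coeff i) z.1).comp analyticAt_fst).mul (analyticAt_snd.pow i)

lemma xketla_bd {r : ℕ} (q : Polynomial (MvPolynomial (Fin r) ℂ)) {u : Fin r → ℂ}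
    (hu : MvPolynomial.eval u q.leadingCoeff ≠ 0) :
    ∃ K : ℝ, ∀ᶠ u' in 𝓝 u, ∀ t, (q.map (MvPolynomial.eval u')).eval t = 0 → ‖t‖ ≤ K := by
  let B : (Fin r → ℂ) → ℝ := fun u =>
    (∑ i ∈ Finset.range q.natDegree, ‖MvPolynomial.eval u (q.coeff i)‖) /
      ‖MvPolynomial.eval u q.leadingCoeff‖ + 1
  have hB : ContinuousAt B u := by
    refine ContinuousAt.add (ContinuousAt.div ?_ (xketla_ev _ u).continuousAt.norm
      (norm_ne_zero_iff.2 hu)) continuousAt_const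
    exact tendsto_finsetSum _ fun i _ => (xketla_ev _ u).continuousAt.norm
  refine ⟨B u + 1, ?_⟩
  filter_upwards [hB.eventually (gt_mem_nhds (lt_add_one (B u))),
    (xketla_ev q.leadingCoeff u).continuousAt.eventually_ne hu] with u' h1 h2 t ht
  have hl := Polynomial.leadingCoeff_map_of_leadingCoeff_ne_zero (MvPolynomial.eval u') h2
  have hd := Polynomial.natDegree_map_of_leadingCoeff_ne_zero (MvPolynomial.eval u') h2
  have h0 : q.map (MvPolynomial.eval u') ≠ 0 := by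
    intro h
    rw [h, Polynomial.leadingCoeff_zero] at hl
    exact h2 hl.symm
  have h3 := Polynomial.IsRoot.norm_lt_cauchyBound h0 ht
  have h4 : ((q.map (MvPolynomial.eval u')).cauchyBound : ℝ) ≤ B u' := by
    simp only [Polynomial.cauchyBound, hl, hd, B, NNReal.coe_add, NNReal.coe_div, coe_nnnorm,
      NNReal.coe_one, Polynomial.coeff_map]
    gcongr
    have h5 : (Finset.range q.natDegree).sup
        (fun i => ‖MvPolynomial.eval u' (q.coeff i)‖₊) ≤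
        ∑ i ∈ Finset.range q.natDegree, ‖MvPolynomial.eval u' (q.coeff i)‖₊ :=
      Finset.sup_le fun i hi => Finset.single_le_sum
        (f := fun i => ‖MvPolynomial.eval u' (q.coeff i)‖₊) (fun _ _ => zero_le) hi
    simpa only [NNReal.coe_sum, coe_nnnorm] using NNReal.coe_le_coe.2 h5
  have h6 : ‖t‖ < ((q.map (MvPolynomial.eval u')).cauchyBound : ℝ) := by exact_mod_cast h3
  linarith

lemma xketla_sec {r : ℕ} (q : Polynomial (MvPolynomial (Fin r) ℂ)) {u : Fin r → ℂ} {t : ℂ}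
    (h0 : (q.map (MvPolynomial.eval u)).eval t = 0)
    (h1 : (q.derivative.map (MvPolynomial.eval u)).eval t ≠ 0) :
    ∃ p : (Fin r → ℂ) → ℂ, AnalyticAt ℂ p u ∧
      ∀ᶠ z in 𝓝 (u, t), (q.map (MvPolynomial.eval z.1)).eval z.2 = 0 → z.2 = p z.1 := by
  have hH := xketla_an q (u, t)
  obtain ⟨p, hp, -, -, h4⟩ := ift hH fun v hv => by
    have h2 : HasFDerivAt (fun s : ℂ => (q.map (MvPolynomial.eval u)).eval s)
        ((fderiv ℂ (fun z : (Fin r → ℂ) × ℂ => (q.map (MvPolynomial.eval z.1)).eval z.2)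
          (u, t)).comp (ContinuousLinearMap.inr ℂ _ _)) t :=
      hH.differentiableAt.hasFDerivAt.comp t (hasFDerivAt_prodMk_right u t)
    have h3 := ((q.map (MvPolynomial.eval u)).hasDerivAt t).hasFDerivAt
    have h5 := DFunLike.congr_fun (h2.unique h3) v
    rw [ContinuousLinearMap.comp_apply, ContinuousLinearMap.inr_apply, hv,
      Polynomial.derivative_map] at h5
    simpa [h1] using h5.symm
  exact ⟨p, hp, h4.mono fun z hz h => hz (h.trans h0.symm)⟩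

theorem etl_of {κ : Type} [Fintype κ] {r : ℕ} (q : κ → Polynomial (MvPolynomial (Fin r) ℂ))
    (e : Fin r → κ) {R : MvPolynomial (Fin r) ℂ} (hR : R ≠ 0)
    (h : ∀ j u, MvPolynomial.eval u R ≠ 0 → MvPolynomial.eval u (q j).leadingCoeff ≠ 0 ∧
      ∀ t, ((q j).map (MvPolynomial.eval u)).eval t = 0 →
        ((q j).derivative.map (MvPolynomial.eval u)).eval t ≠ 0) :
    Etl (Set.range fun (j : κ) (x : κ → ℂ) =>
      ((q j).map (MvPolynomial.eval fun i => x (e i))).eval (x j)) e R := by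
  have ha : ∀ (j : κ) (x : κ → ℂ), AnalyticAt ℂ
      (fun x : κ → ℂ => ((fun i => x (e i), x j) : (Fin r → ℂ) × ℂ)) x := fun j x =>
    (analyticAt_pi_iff.2 fun i => (ContinuousLinearMap.proj (R := ℂ) (φ := fun _ : κ => ℂ)
      (e i)).analyticAt x).prod
      ((ContinuousLinearMap.proj (R := ℂ) (φ := fun _ : κ => ℂ) j).analyticAt x)
  refine ⟨?_, hR, fun u hu => ?_, fun x hx hu => ?_⟩
  · rintro _ ⟨j, rfl⟩ x
    exact (xketla_an (q j) _).comp (ha j x)
  · choose K hK using fun j => xketla_bd (q j) (h j u hu).1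
    refine ⟨∑ j, |K j|, ?_⟩
    filter_upwards [eventually_all.2 hK] with u' h1 x hx he
    refine (pi_norm_le_iff_of_nonneg (Finset.sum_nonneg fun _ _ => abs_nonneg _)).2 fun j => ?_
    refine (h1 j (x j) (he ▸ hx _ ⟨j, rfl⟩)).trans ((le_abs_self _).trans ?_)
    exact Finset.single_le_sum (f := fun j => |K j|) (fun _ _ => abs_nonneg _) (Finset.mem_univ j)
  · choose p hp hq using fun j =>
      xketla_sec (q j) (hx _ ⟨j, rfl⟩) ((h j _ hu).2 _ (hx _ ⟨j, rfl⟩))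
    refine ⟨fun u j => p j u, analyticAt_pi_iff.2 hp, ?_⟩
    filter_upwards [eventually_all.2 fun j => (ha j x).continuousAt.eventually (hq j)]
      with x' h1 h2
    exact funext fun j => (h1 j (h2 _ ⟨j, rfl⟩)).symm

end Pool.Agent.MP_cf0a82_ag

end
end

section

open Complex Filter Topology Matrix Function

noncomputable section

namespace Pool.Agent.MP_cf0a82_ag

open Pool.Agent.MP_f58063_ag

lemma xknsep_alg {A L : Type} [CommRing A] [IsDomain A] [CharZero A] [Field L] [Algebra A L]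
    (hinj : Function.Injective (algebraMap A L)) {a : L} (ha : IsAlgebraic A a) :
    ∃ (q α β : Polynomial A) (S : A), q ≠ 0 ∧ S ≠ 0 ∧ Polynomial.aeval a q = 0 ∧
      α * q + β * q.derivative = Polynomial.C S := by
  haveI : FaithfulSMul A L := (faithfulSMul_iff_algebraMap_injective A L).2 hinj
  letI : Algebra (FractionRing A) L := FractionRing.liftAlgebra A L
  haveI : IsScalarTower A (FractionRing A) L := FractionRing.isScalarTower_liftAlgebra A L
  have hK := IsFractionRing.injective A (FractionRing A)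
  haveI : CharZero (FractionRing A) := charZero_of_injective_algebraMap hK
  have ha' : IsIntegral (FractionRing A) a := (ha.extendScalars hK).isIntegral
  obtain ⟨u, v, huv⟩ : IsCoprime (minpoly (FractionRing A) a)
      (minpoly (FractionRing A) a).derivative := (minpoly.irreducible ha').separable
  obtain ⟨b, hb, eb⟩ := IsLocalization.integerNormalization_spec (nonZeroDivisors A)
    (minpoly (FractionRing A) a)
  obtain ⟨c, hc, ec⟩ := IsLocalization.integerNormalization_spec (nonZeroDivisors A) u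
  obtain ⟨d, hd, ed⟩ := IsLocalization.integerNormalization_spec (nonZeroDivisors A) v
  refine ⟨IsLocalization.integerNormalization (nonZeroDivisors A) (minpoly (FractionRing A) a),
    Polynomial.C d * IsLocalization.integerNormalization (nonZeroDivisors A) u,
    Polynomial.C c * IsLocalization.integerNormalization (nonZeroDivisors A) v, b * c * d,
    ?_, ?_, ?_, ?_⟩
  · intro h
    exact minpoly.ne_zero ha' (IsFractionRing.integerNormalization_eq_zero_iff.1 h)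
  · exact mul_ne_zero (mul_ne_zero (nonZeroDivisors.ne_zero hb) (nonZeroDivisors.ne_zero hc))
      (nonZeroDivisors.ne_zero hd)
  · exact IsLocalization.integerNormalization_aeval_eq_zero _ _ (minpoly.aeval _ _)
  · apply Polynomial.map_injective (algebraMap A (FractionRing A)) hK
    simp only [Polynomial.map_add, Polynomial.map_mul, Polynomial.map_C,
      ← Polynomial.derivative_map, eb, ec, ed, map_mul]
    simp only [Algebra.smul_def, Polynomial.algebraMap_apply, Polynomial.derivative_mul,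
      Polynomial.derivative_C, zero_mul, zero_add]
    linear_combination (Polynomial.C (algebraMap A (FractionRing A) b) *
      Polynomial.C (algebraMap A (FractionRing A) c) *
      Polynomial.C (algebraMap A (FractionRing A) d)) * huv

lemma xknsep_gm {r : ℕ} {f : (Fin r → ℂ) → ℂ} {p : Fin r → ℂ} (hf : AnalyticAt ℂ f p)
    (q : Polynomial (MvPolynomial (Fin r) ℂ)) :
    gm p (fun u => (q.map (MvPolynomial.eval u)).eval (f u)) =
      q.eval₂ (MvPolynomial.aeval (R := ℂ) fun i => gm p fun u : Fin r → ℂ => u i).toRingHom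
        (gm p f) ∧
    AnalyticAt ℂ (fun u => (q.map (MvPolynomial.eval u)).eval (f u)) p := by
  have han : ∀ i, AnalyticAt ℂ (fun u : Fin r → ℂ => u i) p := fun i =>
    (ContinuousLinearMap.proj (R := ℂ) (φ := fun _ : Fin r => ℂ) i).analyticAt p
  induction q using Polynomial.induction_on with
  | C a =>
    have h := gm_aeval (F := fun i (u : Fin r → ℂ) => u i) han a
    simp only [Polynomial.map_C, Polynomial.eval_C, Polynomial.eval₂_C]
    exact h
  | add P Q hP hQ =>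
    simp only [Polynomial.map_add, Polynomial.eval_add, Polynomial.eval₂_add]
    exact ⟨by rw [gm_add hP.2 hQ.2, hP.1, hQ.1], hP.2.add hQ.2⟩
  | monomial n a h =>
    simp only [pow_succ, ← mul_assoc, Polynomial.map_mul _ (q := Polynomial.X), Polynomial.map_X,
      Polynomial.eval_mul_X, Polynomial.eval₂_mul_X]
    exact ⟨by rw [gm_mul h.2 hf, h.1], h.2.mul hf⟩

/-- a Nash germ satisfies a generically separable equation -/
theorem nash_sep {r : ℕ} {f : (Fin r → ℂ) → ℂ} {p : Fin r → ℂ} (hf : NashAt f p) :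
    ∃ (q : Polynomial (MvPolynomial (Fin r) ℂ)) (R : MvPolynomial (Fin r) ℂ), R ≠ 0 ∧
      (∀ᶠ u in 𝓝 p, (q.map (MvPolynomial.eval u)).eval (f u) = 0) ∧
      ∀ u, MvPolynomial.eval u R ≠ 0 → MvPolynomial.eval u q.leadingCoeff ≠ 0 ∧
        ∀ t, (q.map (MvPolynomial.eval u)).eval t = 0 →
          (q.derivative.map (MvPolynomial.eval u)).eval t ≠ 0 := by
  letI : Algebra (MvPolynomial (Fin r) ℂ) (MG p) :=
    (MvPolynomial.aeval (R := ℂ) fun i => gm p fun u : Fin r → ℂ => u i).toRingHom.toAlgebra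
  have key : ∀ q : Polynomial (MvPolynomial (Fin r) ℂ), Polynomial.aeval (gm p f) q = 0 ↔
      ∀ᶠ u in 𝓝 p, (q.map (MvPolynomial.eval u)).eval (f u) = 0 := fun q => by
    rw [← gm_eq_zero (xknsep_gm hf.1 q).2, (xknsep_gm hf.1 q).1, Polynomial.aeval_def]
    rfl
  have hinj : Function.Injective (algebraMap (MvPolynomial (Fin r) ℂ) (MG p)) :=
    xsnasha_ind (Pi.basisFun ℂ (Fin r)) p
  have halg : IsAlgebraic (MvPolynomial (Fin r) ℂ) (gm p f) := by
    obtain ⟨P, hP, h⟩ := rel_of_nash (Pi.basisFun ℂ (Fin r)) hf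
    refine ⟨MvPolynomial.optionEquivLeft ℂ (Fin r) P,
      (map_ne_zero_iff _ (MvPolynomial.optionEquivLeft ℂ (Fin r)).injective).2 hP,
      (key _).2 (h.mono fun u hu => ?_)⟩
    rw [← MvPolynomial.optionEquivLeft_elim_eval]
    exact hu
  obtain ⟨q, α, β, S, hq, hS, h0, hb⟩ := xknsep_alg hinj halg
  refine ⟨q, S * q.leadingCoeff, mul_ne_zero hS (Polynomial.leadingCoeff_ne_zero.2 hq),
    (key q).1 h0, fun u hu => ?_⟩
  rw [map_mul] at hu
  refine ⟨right_ne_zero_of_mul hu, fun t ht ht' => left_ne_zero_of_mul hu ?_⟩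
  have := congrArg (fun P => (Polynomial.map (MvPolynomial.eval u) P).eval t) hb
  simp only [Polynomial.map_add, Polynomial.map_mul, Polynomial.eval_add, Polynomial.eval_mul,
    ht, ht', mul_zero, add_zero, Polynomial.map_C, Polynomial.eval_C] at this
  exact this.symm

end Pool.Agent.MP_cf0a82_ag

end
end

section

open Complex Filter Topology Matrix Function

noncomputable section

namespace Pool.Agent.MP_cf0a82_ag

open Pool.Agent.MP_f58063_ag

variable {X Y W : Type} [NormedAddCommGroup X] [NormedSpace ℂ X] [FiniteDimensional ℂ X]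
  [NormedAddCommGroup Y] [NormedSpace ℂ Y] [FiniteDimensional ℂ Y]
  [NormedAddCommGroup W] [NormedSpace ℂ W] [FiniteDimensional ℂ W] {G : X → Y} {p : X} {k : ℕ}

/-- the linear map with prescribed values on the standard basis -/
def xkfibL {Z : Type} [NormedAddCommGroup Z] [NormedSpace ℂ Z] (w : Fin k → Z) :
    (Fin k → ℂ) →L[ℂ] Z :=
  ∑ i, (ContinuousLinearMap.proj (R := ℂ) (φ := fun _ : Fin k => ℂ) i).smulRight (w i)

lemma xkfibL_apply {Z : Type} [NormedAddCommGroup Z] [NormedSpace ℂ Z] (w : Fin k → Z)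
    (ζ : Fin k → ℂ) : xkfibL w ζ = ∑ i, ζ i • w i := by
  simp [xkfibL]

lemma xkfib_sum {Z : Type} [NormedAddCommGroup Z] [NormedSpace ℂ Z] (L : (Fin k → ℂ) →L[ℂ] Z)
    (ζ : Fin k → ℂ) : L ζ = ∑ i, ζ i • L (Pi.single i 1) := by
  conv_lhs => rw [pi_eq_sum_univ' ζ]
  simp only [map_sum, map_smul]

/-- discs in a fibre of a map of constant rank -/
theorem fib_disc (hG : AnalyticAt ℂ G p) (hr : ∀ᶠ x in 𝓝 p, rkd G x ≤ rkd G p)
    (L : (Fin k → ℂ) →L[ℂ] X) (h0 : ∀ ζ, fderiv ℂ G p (L ζ) = 0) :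
    ∃ γ : (Fin k → ℂ) → X, AnalyticAt ℂ γ 0 ∧ γ 0 = p ∧ fderiv ℂ γ 0 = L ∧
      ∀ᶠ ζ in 𝓝 0, G (γ ζ) = G p := by
  have : CompleteSpace Y := FiniteDimensional.complete ℂ Y
  have : CompleteSpace X := FiniteDimensional.complete ℂ X
  obtain ⟨α, β, hα⟩ := xsard_alpha (fderiv ℂ G p) (r := rkd G p) rfl
  have hD : ∀ x, AnalyticAt ℂ G x → fderiv ℂ (fun y => α (G y)) x = α.comp (fderiv ℂ G x) :=
    fun x hx => (α.hasFDerivAt.comp x hx.differentiableAt.hasFDerivAt).fderiv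
  have ha : AnalyticAt ℂ (fun y => α (G y)) p := (α.analyticAt _).comp hG
  have hs : Surjective (fderiv ℂ (fun y => α (G y)) p) := by
    rw [hD p hG]
    refine xsard_surj _ α β ?_
    rw [show (Matrix.of fun i j => α (fderiv ℂ G p (β j)) i) = 1 from ?_, det_one]
    · exact one_ne_zero
    · ext i j
      simp [hα, Pi.single_apply, Matrix.one_apply]
  obtain ⟨n, σ, π, -, e0, h2, -, -, -, h3⟩ := level_param ha hs
  have ht : Tendsto σ (𝓝 0) (𝓝 p) := e0 ▸ h2.continuousAt.tendsto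
  have h4 : ∀ᶠ s in 𝓝 0, HasFDerivAt (fun s => G (σ s)) (0 : (Fin n → ℂ) →L[ℂ] Y) s := by
    filter_upwards [h3, h2.eventually_analyticAt, ht.eventually hG.eventually_analyticAt,
      ht.eventually hr, ht.eventually (eventually_surj ha hs)] with s k1 k2 k3 k4 k5
    refine (k3.differentiableAt.hasFDerivAt.comp s k2.differentiableAt.hasFDerivAt).congr_fderiv ?_
    ext1 w
    rw [hD _ k3] at k1 k5
    exact (xsard_ker _ α k4 k5).1 _ ((k1.2.2 _).2 ⟨w, rfl⟩)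
  obtain ⟨ε, hε, h5⟩ := Metric.eventually_nhds_iff_ball.1 h4
  have h6 : ∀ᶠ s in 𝓝 0, G (σ s) = G p := by
    filter_upwards [Metric.ball_mem_nhds 0 hε] with s hs
    exact e0 ▸ Metric.isOpen_ball.is_const_of_fderiv_eq_zero (𝕜 := ℂ) (f := fun s => G (σ s))
      (convex_ball 0 ε).isPreconnected
      (fun t ht => (h5 t ht).differentiableAt.differentiableWithinAt)
      (fun t ht => (h5 t ht).fderiv) hs (Metric.mem_ball_self hε)
  choose w hw using fun i : Fin k => (h3.self_of_nhds.2.2 (L (Pi.single i 1))).1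
    (by rw [e0, hD p hG]; simp [h0])
  have e1 : xkfibL w 0 = 0 := map_zero _
  have h7 : AnalyticAt ℂ σ (xkfibL w 0) := e1.symm ▸ h2
  refine ⟨fun ζ => σ (xkfibL w ζ), h7.comp ((xkfibL w).analyticAt 0), by
    beta_reduce; rw [e1, e0], ?_, ?_⟩
  · have h8 : HasFDerivAt σ (fderiv ℂ σ 0) (xkfibL w 0) :=
      e1.symm ▸ h2.differentiableAt.hasFDerivAt
    refine (h8.comp 0 (xkfibL w).hasFDerivAt).fderiv.trans ?_
    ext1 ζ
    rw [ContinuousLinearMap.comp_apply, xkfibL_apply, xkfib_sum L ζ]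
    simp only [map_sum, map_smul, hw]
  · have h9 : Tendsto (xkfibL w) (𝓝 0) (𝓝 0) := by
      simpa only [e1] using (xkfibL w).continuous.tendsto 0
    exact h9.eventually h6

theorem fib_ev (hG : AnalyticAt ℂ G p) (hr : ∀ᶠ x in 𝓝 p, rkd G x ≤ rkd G p) {H : X → W}
    (hH : AnalyticAt ℂ H p) (L : (Fin k → ℂ) →L[ℂ] X) (h0 : ∀ ζ, fderiv ℂ G p (L ζ) = 0)
    (hi : ∀ ζ, fderiv ℂ H p (L ζ) = 0 → ζ = 0) :
    ∀ᶠ s in 𝓝 p, ∃ γ : (Fin k → ℂ) → X, AnalyticAt ℂ γ 0 ∧ γ 0 = s ∧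
      AnalyticAt ℂ (fun ζ => H (γ ζ)) 0 ∧ Injective (fderiv ℂ (fun ζ => H (γ ζ)) 0) ∧
      ∀ᶠ ζ in 𝓝 0, G (γ ζ) = G s := by
  have : CompleteSpace Y := FiniteDimensional.complete ℂ Y
  have : CompleteSpace W := FiniteDimensional.complete ℂ W
  choose u hu hup hk using fun i : Fin k => ker_field' hG hr (h0 (Pi.single i 1))
  have h1 : LinearIndependent ℂ fun i => fderiv ℂ H p (u i p) := by
    refine Fintype.linearIndependent_iff.2 fun ζ hζ i => congrFun (hi ζ ?_) i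
    rw [xkfib_sum L ζ]
    simpa only [map_sum, map_smul, hup] using hζ
  have h3 : ContinuousAt (fun x i => fderiv ℂ H x (u i x)) p :=
    continuousAt_pi.2 fun i => hH.fderiv.continuousAt.clm_apply (hu i).continuousAt
  filter_upwards [hG.eventually_analyticAt, hH.eventually_analyticAt, hr.eventually_nhds,
    eventually_all.2 hk, h3.eventually h1.eventually,
    rk_ev (L := fun x => (fderiv ℂ G x : X →ₗ[ℂ] Y)) fun ζ =>
      hG.fderiv.continuousAt.clm_apply continuousAt_const] with s k1 k2 k3 k4 k5 k7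
  obtain ⟨γ, a1, a2, a3, a4⟩ := fib_disc k1 (k3.mono fun x hx => hx.trans k7)
    (xkfibL fun i => u i s) fun ζ => by
      simp only [xkfibL_apply, map_sum, map_smul, k4, smul_zero, Finset.sum_const_zero]
  have k8 : AnalyticAt ℂ H (γ 0) := a2.symm ▸ k2
  refine ⟨γ, a1, a2, k8.comp a1, ?_, a4⟩
  have e : fderiv ℂ (fun ζ => H (γ ζ)) 0 = (fderiv ℂ H s).comp (xkfibL fun i => u i s) := by
    rw [← a3, ← a2]
    exact (k8.differentiableAt.hasFDerivAt.comp 0 a1.differentiableAt.hasFDerivAt).fderiv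
  rw [e]
  refine (injective_iff_map_eq_zero _).2 fun ζ hζ => funext ?_
  refine Fintype.linearIndependent_iff.1 k5 ζ ?_
  simpa only [ContinuousLinearMap.comp_apply, xkfibL_apply, map_sum, map_smul] using hζ

end Pool.Agent.MP_cf0a82_ag

end
end
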