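import Pool.Agent.Mg.Fcf0a82q.G1ea877
import Pool.Agent.Mg.Fcf0a82q.G40f606
import Pool.Agent.Mg.Fcf0a82q.Gb6098d
import Pool.Agent.Mg.Fcf0a82q.Gc48b41

section

open Complex Filter Topology Matrix Function

noncomputable section

namespace Pool.Agent.MP_cf0a82_ag

open Pool.Agent.MP_f58063_ag

variable {g k : ℕ} {B : Box g} {A : Atl B} {δ : Dat B k} {q : DD g × δ.W} {Z : Type}
  [NormedAddCommGroup Z] [NormedSpace ℂ Z] [FiniteDimensional ℂ Z]
  {μ : DD g × Z → DD g × δ.W} {p : DD g × Z}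

lemma xdfama_lin {X Y S : Type} [NormedAddCommGroup X] [NormedSpace ℂ X] [FiniteDimensional ℂ X]
    [NormedAddCommGroup Y] [NormedSpace ℂ Y] [NormedAddCommGroup S] [NormedSpace ℂ S] {L : X → Y}
    (hL : IsLinearMap ℂ L) {σ : S → X} {e : S} (h : AnalyticAt ℂ σ e) :
    AnalyticAt ℂ (fun s => L (σ s)) e ∧
      ∀ w, fderiv ℂ (fun s => L (σ s)) e w = L (fderiv ℂ σ e w) :=
  ⟨((hL.mk' L).toContinuousLinearMap.analyticAt _).comp h, fun w => DFunLike.congr_fun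
    ((hL.mk' L).toContinuousLinearMap.hasFDerivAt.comp e h.differentiableAt.hasFDerivAt).fderiv w⟩

omit [FiniteDimensional ℂ Z] in
lemma xdfama_fst (h1 : ∀ e, (μ e).1 = e.1) {e : DD g × Z} (h : AnalyticAt ℂ μ e) (w : DD g × Z) :
    (fderiv ℂ μ e w).1 = w.1 := by
  rw [← (xdfama_lin (L := Prod.fst) ⟨fun _ _ => rfl, fun _ _ => rfl⟩ h).2, funext h1, fderiv_fst]
  rfl

omit [FiniteDimensional ℂ Z] in
lemma xdfama_vd {Y : Type} [NormedAddCommGroup Y] [NormedSpace ℂ Y] {f : DD g × δ.W → Y}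
    {e w : DD g × Z} (h : AnalyticAt ℂ μ e) (hf : AnalyticAt ℂ f (μ e)) (hw : w.1 = 0) :
    vd (fun e => f (μ e)) e w.2 = fderiv ℂ f (μ e) (fderiv ℂ μ e w) := by
  rw [vd_apply, ← hw]
  exact DFunLike.congr_fun (fderiv_comp e hf.differentiableAt h.differentiableAt) w

theorem Prm.sol (hg : 0 < g) (h : Prm (δ.dom A) (δ.R A) q μ p) (hq : δ.Sol A q) :
    ∀ᶠ e in 𝓝 p, δ.Sol A (μ e) := by
  have ht : Tendsto μ (𝓝 p) (𝓝 q) := h.val ▸ h.an.continuousAt.tendsto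
  filter_upwards [ht.eventually (hq.persist hg), h.van] with e a b using a b.2

theorem Prm.pt_ns (h : Prm (δ.dom A) (δ.R A) q μ p) (h1 : ∀ e, (μ e).1 = e.1) :
    ∀ᶠ e in 𝓝 p, ∀ i, B.NS Prod.fst (fun e => δ.pt A (μ e) i) e := by
  have hm := h.van.self_of_nhds.1
  refine eventually_all.2 fun i => Box.NS.eventually ?_ (Box.NB.fst (h1 p ▸ hm.1))
  have := (Dat.pt_ns A δ (hm.2.1 i)).comp h.an h.ns
  rwa [funext h1] at this

theorem Prm.mid (hg : 0 < g) (h : Prm (δ.dom A) (δ.R A) q μ p) (h1 : ∀ e, (μ e).1 = e.1)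
    (hq : δ.S3 A q) : ∀ᶠ e in 𝓝 p, ∃ t₀, ∀ᶠ t in 𝓝 t₀,
      ∃ w, Cy B.Φ (B.ψ e.1) (pc (μ e).2.2.1 t) w := by
  obtain ⟨hs, v, hv, v1, v2, v3⟩ := hq
  obtain ⟨w, rfl⟩ := (h.tan v).1 hv
  let F : Fin (NN g) ⊕ Fin (δ.d + 1) × (Fin (k + δ.b) → Fin B.nJ) → DD g × δ.W → ℂ :=
    Sum.elim (fun j q => q.1 j) fun s q => q.2.2.1 s.1 s.2
  have hF : ∀ j, F j ∈ δ.R A := fun j => (Dat.R_spec A δ hg).2 (by
    rcases j with j | s
    exacts [.inl (.inl (.inr ⟨j, rfl⟩)), .inr ⟨s, rfl⟩])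
  obtain ⟨a1, a2⟩ := xdfama_lin (L := fun q j => F j q)
    ⟨fun _ _ => funext fun j => by cases j <;> rfl, fun _ _ => funext fun j => by cases j <;> rfl⟩
    h.an
  obtain ⟨b1, b2⟩ := xdfama_lin (L := fun q : DD g × δ.W => q.2.2.2 3)
    ⟨fun _ _ => rfl, fun _ _ => rfl⟩ h.an
  have h0 : fderiv ℂ (fun s j => F j (μ s)) p w = 0 := by
    rw [a2]
    funext j
    rcases j with j | s
    exacts [congrFun v1 j, congrFun (congrFun v2 s.1) s.2]
  filter_upwards [slide_ev a1 (h.rnk _ F hF) b1 h0 (b2 w ▸ v3) (h.sol hg hs)] with e he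
  refine ⟨_, he.mono ?_⟩
  rintro t ⟨x, hx, e1, rfl⟩
  have e2 : (μ x).1 = e.1 := (funext fun j => congrFun e1 (.inl j)).trans (h1 e)
  have e3 : (μ x).2.2.1 = (μ e).2.2.1 := funext fun m => funext fun j => congrFun e1 (.inr (m, j))
  exact ⟨_, e2 ▸ e3 ▸ Dat.Sol.c2 hx⟩

theorem Prm.dir (hg : 0 < g) (h : Prm (δ.dom A) (δ.R A) q μ p) (h1 : ∀ e, (μ e).1 = e.1)
    (hq : δ.S2 A q) : ∃ u : DD g × Z → Z, AnalyticAt ℂ u p ∧ ∀ᶠ e in 𝓝 p,
      vd (fun e => δ.px A (μ e)) e (u e) = 0 ∧ vd (fun e => δ.py A (μ e)) e (u e) ≠ 0 := by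
  obtain ⟨-, v, hv, v1, v2, v3⟩ := hq
  obtain ⟨w₀, rfl⟩ := (h.tan v).1 hv
  let F : Fin (NN g) ⊕ Fin k × Fin g → DD g × δ.W → ℂ :=
    Sum.elim (fun j q => q.1 j) fun s q => q.2.1 (.inl (.inr s.1)) s.2
  have hF : ∀ j, F j ∈ δ.R A := fun j => (Dat.R_spec A δ hg).2 (by
    rcases j with j | s
    exacts [.inl (.inl (.inr ⟨j, rfl⟩)), .inl (.inr ⟨(.inl (.inr s.1), s.2), rfl⟩)])
  have hL : IsLinearMap ℂ fun q j => F j q :=
    ⟨fun _ _ => funext fun j => by cases j <;> rfl, fun _ _ => funext fun j => by cases j <;> rfl⟩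
  obtain ⟨a1, a2⟩ := xdfama_lin hL h.an
  have h0 : fderiv ℂ (fun s j => F j (μ s)) p w₀ = 0 := by
    rw [a2]
    funext j
    rcases j with j | s
    exacts [congrFun v1 j, congrFun (v2 s.1) s.2]
  obtain ⟨w, hw, rfl, hk⟩ := ker_field' a1 (h.rnk _ F hF) h0
  have hu : AnalyticAt ℂ (fun e => (w e).2) p := analyticAt_snd.comp hw
  have hy := Dat.py_an A δ h.van.self_of_nhds.1
  have hn : vd (fun e => δ.py A (μ e)) p (w p).2 ≠ 0 := by
    rwa [xdfama_vd h.an hy (xdfama_fst h1 h.an _ ▸ v1), h.val]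
  refine ⟨_, hu, Eventually.and ?_
    ((vd_an' (AnalyticAt.comp (f := μ) hy h.an) hu).continuousAt.eventually_ne hn)⟩
  filter_upwards [hk, h.van, h.an.eventually_analyticAt] with e e1 e2 e3
  rw [(xdfama_lin hL e3).2] at e1
  have e4 : (fderiv ℂ μ e (w e)).1 = 0 := funext fun j => congrFun e1 (.inl j)
  rw [xdfama_vd e3 (Dat.px_an A δ e2.1) (xdfama_fst h1 e3 _ ▸ e4), Dat.px_fderiv A δ e2.1 e4]
  exact fun l => funext fun a => congrFun e1 (.inr (l, a))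

theorem Prm.big (h : Prm (δ.dom A) (δ.R A) q μ p) (h1 : ∀ e, (μ e).1 = e.1)
    (hq : δ.BigAt A q) :
    ∃ i, ∀ᶠ e in 𝓝 p, ∀ v, ∃ ζ, vd (fun e => δ.px A (μ e)) e ζ i = v := by
  obtain ⟨i, hi⟩ := hq
  have hx := Dat.px_an A δ h.van.self_of_nhds.1
  let L : DD g × Z → Z →ₗ[ℂ] EE g := fun e =>
    (LinearMap.proj i).comp (vd (fun e => δ.px A (μ e)) e)
  have h2 : LinearMap.range (L p) = ⊤ := LinearMap.range_eq_top.2 fun w => by
    obtain ⟨v, hv, v1, rfl⟩ := hi w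
    obtain ⟨w₀, rfl⟩ := (h.tan v).1 hv
    exact ⟨w₀.2, congrFun (h.val ▸ xdfama_vd h.an hx (xdfama_fst h1 h.an _ ▸ v1)) i⟩
  refine ⟨i, (rk_ev (L := L) fun ζ => (continuous_apply i).continuousAt.comp
    (vd_an (AnalyticAt.comp (f := μ) hx h.an) ζ).continuousAt).mono fun e he => ?_⟩
  rw [rk, h2, finrank_top] at he
  exact LinearMap.range_eq_top.1 (Submodule.eq_top_of_finrank_eq
    (le_antisymm (Submodule.finrank_le _) he))

end Pool.Agent.MP_cf0a82_ag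

end
end

section

open Complex Filter Topology Matrix Function

noncomputable section

namespace Pool.Agent.MP_cf0a82_ag

open Pool.Agent.MP_f58063_ag

variable {X : Type} [NormedAddCommGroup X] [NormedSpace ℂ X] {Ω : Set X} {R : Set (X → ℂ)}
  {q : X}

lemma xdprmf_le {U V W : Type} [AddCommGroup U] [Module ℂ U] [AddCommGroup V] [Module ℂ V]
    [AddCommGroup W] [Module ℂ W] [FiniteDimensional ℂ W] (L : V →ₗ[ℂ] W) (M : U →ₗ[ℂ] V) :
    rk (L.comp M) ≤ rk L :=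
  Submodule.finrank_mono (LinearMap.range_comp_le_range M L)

lemma xdprmf_eq {U V W : Type} [AddCommGroup U] [Module ℂ U] [AddCommGroup V] [Module ℂ V]
    [AddCommGroup W] [Module ℂ W] (L : V →ₗ[ℂ] W) (M : U →ₗ[ℂ] V) (hM : Surjective M) :
    rk (L.comp M) = rk L := by
  unfold rk
  rw [LinearMap.range_comp_of_range_eq_top L (LinearMap.range_eq_top.2 hM)]

lemma xdprmf_rkd {S S' Y : Type} [NormedAddCommGroup S] [NormedSpace ℂ S]
    [NormedAddCommGroup S'] [NormedSpace ℂ S'] [NormedAddCommGroup Y] [NormedSpace ℂ Y]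
    {G : S → Y} {Ψ : S' → S} {G' : S' → Y} {e : S'} (hG : DifferentiableAt ℂ G (Ψ e))
    (hΨ : DifferentiableAt ℂ Ψ e) (h : G' =ᶠ[𝓝 e] fun x => G (Ψ x)) :
    rkd G' e = rk ((fderiv ℂ G (Ψ e) : S →ₗ[ℂ] Y).comp (fderiv ℂ Ψ e : S' →ₗ[ℂ] S)) := by
  unfold rkd
  rw [h.fderiv_eq, fderiv_fun_comp e hG hΨ]
  rfl

/-- change of parameters -/
theorem Prm.comp {S S' : Type} [NormedAddCommGroup S] [NormedSpace ℂ S] [FiniteDimensional ℂ S]
    [NormedAddCommGroup S'] [NormedSpace ℂ S'] [FiniteDimensional ℂ S'] {σ : S → X} {Ψ : S' → S}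
    {p : S'} (h : Prm Ω R q σ (Ψ p)) (hR : ∀ f ∈ R, AnalyticAt ℂ f q) (hΨ : AnalyticAt ℂ Ψ p)
    (hN : ∀ l : S →L[ℂ] ℂ, NashAt (fun e => l (Ψ e)) p) (hs : Surjective (fderiv ℂ Ψ p))
    {μ : S' → X} (hμ : μ =ᶠ[𝓝 p] fun e => σ (Ψ e)) : Prm Ω R q μ p := by
  have : CompleteSpace S := FiniteDimensional.complete ℂ S
  have hc : Tendsto Ψ (𝓝 p) (𝓝 (Ψ p)) := hΨ.continuousAt
  have han : AnalyticAt ℂ (fun e => σ (Ψ e)) p := AnalyticAt.comp (f := Ψ) h.an hΨ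
  refine ⟨hμ.self_of_nhds.trans h.val, han.congr hμ.symm, fun l => ?_, ?_, fun v => ?_,
    fun κ _ F hF => ?_⟩
  · refine (NashAt.comp (f := fun s => l (σ s)) (h.ns l) hΨ hN).congr ?_
    filter_upwards [hμ] with e he
    rw [he]
  · filter_upwards [hμ, hc.eventually h.van] with e he h2
    rw [he]
    exact h2
  · rw [h.tan, hμ.fderiv_eq, fderiv_fun_comp p h.an.differentiableAt hΨ.differentiableAt]
    constructor
    · rintro ⟨w, rfl⟩
      obtain ⟨w', rfl⟩ := hs w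
      exact ⟨w', rfl⟩
    · rintro ⟨w, rfl⟩
      exact ⟨_, rfl⟩
  · have hG : AnalyticAt ℂ (fun s j => F j (σ s)) (Ψ p) := analyticAt_pi_iff.2 fun j =>
      AnalyticAt.comp (f := σ) (h.val.symm ▸ hR _ (hF j)) h.an
    have he : (fun e j => F j (μ e)) =ᶠ[𝓝 p] fun x => (fun s j => F j (σ s)) (Ψ x) := by
      filter_upwards [hμ] with e he
      rw [he]
    have h0 : rkd (fun e j => F j (μ e)) p = rkd (fun s j => F j (σ s)) (Ψ p) := by
      rw [xdprmf_rkd hG.differentiableAt hΨ.differentiableAt he]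
      exact xdprmf_eq _ _ hs
    rw [h0]
    filter_upwards [he.eventually_nhds, hc.eventually hG.eventually_analyticAt,
      hΨ.eventually_analyticAt, hc.eventually (h.rnk κ F hF)] with e h1 h2 h3 h4
    rw [xdprmf_rkd h2.differentiableAt h3.differentiableAt h1]
    exact (xdprmf_le _ _).trans h4

/-- a parametrisation compatible with the projection to the base -/
theorem NR.fam {N : ℕ} {W : Type} [NormedAddCommGroup W] [NormedSpace ℂ W]
    [FiniteDimensional ℂ W] {ι : Type} [Fintype ι] (b : Module.Basis ι ℂ ((Fin N → ℂ) × W))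
    {Ω : Set ((Fin N → ℂ) × W)} {R : Set ((Fin N → ℂ) × W → ℂ)} (hR : NR b Ω R)
    {q : (Fin N → ℂ) × W} (hq : q ∈ Ω) (h1 : ∀ ξ, ∃ η, Tan R q (ξ, η)) :
    ∃ (m : ℕ) (μ : (Fin N → ℂ) × (Fin m → ℂ) → (Fin N → ℂ) × W)
      (p : (Fin N → ℂ) × (Fin m → ℂ)), Prm Ω R q μ p ∧ ∀ e, (μ e).1 = e.1 := by
  obtain ⟨r, n, h, σ, p, -, hP, -⟩ := hR.prm b hq
  have hσ := hP.an
  have hh : AnalyticAt ℂ (fun s => (σ s).1) p := AnalyticAt.comp (f := σ) analyticAt_fst hσ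
  have hd : ∀ w, fderiv ℂ (fun s => (σ s).1) p w = (fderiv ℂ σ p w).1 := fun w => by
    rw [fderiv.fst hσ.differentiableAt]
    rfl
  have hs : Surjective (fderiv ℂ (fun s => (σ s).1) p) := fun ξ => by
    obtain ⟨η, hη⟩ := h1 ξ
    obtain ⟨w, hw⟩ := (hP.tan _).1 hη
    exact ⟨w, by rw [hd, hw]⟩
  obtain ⟨m, π, Ψ, -, hΨ, e1, e2⟩ := chart hh hs
  have hp : Ψ ((σ p).1, π p) = p := e1.self_of_nhds
  have hΘ : AnalyticAt ℂ (fun s => ((σ s).1, π s)) p := hh.prod (π.analyticAt p)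
  have hN : ∀ l : (Fin n → ℂ) →L[ℂ] ℂ, NashAt (fun y => l (Ψ y)) ((σ p).1, π p) :=
    nash_inverse (Θ := fun s => ((σ s).1, π s)) hΘ
      (nash_pair (fun l => hP.ns (l.comp (ContinuousLinearMap.fst ℂ _ _)))
        fun l => NashAt.clm (l.comp π) p) hΨ e1
      (e2.mono fun y hy => Prod.ext hy.1 hy.2)
  have hsΨ : Surjective (fderiv ℂ Ψ ((σ p).1, π p)) := fun w => by
    have e3 : (fun s => Ψ ((fun s => ((σ s).1, π s)) s)) =ᶠ[𝓝 p] fun s => s := e1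
    have e4 := e3.fderiv_eq (𝕜 := ℂ)
    rw [fderiv_fun_comp (f := fun s => ((σ s).1, π s)) p hΨ.differentiableAt hΘ.differentiableAt,
      fderiv_fun_id] at e4
    exact ⟨_, congrArg (fun L => L w) e4⟩
  refine ⟨m, fun e => (e.1, (σ (Ψ e)).2), ((σ p).1, π p), ?_, fun _ => rfl⟩
  refine Prm.comp (σ := σ) (Ψ := Ψ) (hp.symm ▸ hP) (fun f hf => hR.dr.an f hf q hq) hΨ hN hsΨ ?_
  exact e2.mono fun y hy => Prod.ext hy.1.symm rfl

end Pool.Agent.MP_cf0a82_ag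

end
end

section

open Complex Filter Topology Matrix Function

noncomputable section

namespace Pool.Agent.MP_cf0a82_ag

open Pool.Agent.MP_f58063_ag

variable {J : Type} [Fintype J] {n g d : ℕ} {Ω : Set (Mat g)} {Φ : Mat g → EE g → J → ℂ}

theorem xeml_sep {X : Type} [TopologicalSpace X] {e : X} {b₀ b : X → ℂ} (h₀ : ContinuousAt b₀ e)
    (hb : ContinuousAt b e) (h : b₀ e - b e = 0 → ∀ᶠ x in 𝓝 e, b₀ x - b x = 0) :
    ∀ᶠ x : X × ℂ in 𝓝 (e, 0), x.2 ≠ 0 → b₀ x.1 + x.2 ≠ b x.1 := by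
  have h1 : Tendsto (Prod.fst : X × ℂ → X) (𝓝 (e, 0)) (𝓝 e) := continuousAt_fst
  by_cases he : b₀ e - b e = 0
  · filter_upwards [h1.eventually (h he)] with x hx h2 h3
    exact h2 (by linear_combination h3 - hx)
  · have h2 : Tendsto (fun x : X × ℂ => b₀ x.1 + x.2 - b x.1) (𝓝 (e, 0)) (𝓝 (b₀ e + 0 - b e)) :=
      ((h₀.tendsto.comp h1).add continuousAt_snd).sub (hb.tendsto.comp h1)
    rw [add_zero] at h2
    filter_upwards [h2.eventually_ne he] with x hx _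
    exact sub_ne_zero.1 hx

theorem xeml_inf {X : Type} [TopologicalSpace X] {e : X} {b : X → ℂ} (hb : ContinuousAt b e) :
    ∀ᶠ x : X × ℂ in 𝓝 (e, 0), x.2 ≠ 0 → x.2⁻¹ ≠ b x.1 := by
  have h1 : Tendsto (Prod.fst : X × ℂ → X) (𝓝 (e, 0)) (𝓝 e) := continuousAt_fst
  have h2 : Tendsto (fun x : X × ℂ => x.2 * b x.1) (𝓝 (e, 0)) (𝓝 (0 * b e)) :=
    Tendsto.mul continuousAt_snd (hb.tendsto.comp h1)
  rw [zero_mul] at h2
  filter_upwards [h2.eventually_ne zero_ne_one] with x hx h3 h4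
  exact hx (by rw [← h4, mul_inv_cancel₀ h3])

theorem xeml_gen {X : Type} [NormedAddCommGroup X] [NormedSpace ℂ X] [CompleteSpace X]
    {Y Z : Type} [NormedAddCommGroup Y] [NormedSpace ℂ Y] [NormedAddCommGroup Z]
    [NormedSpace ℂ Z] {ι κ : Type} [Countable ι] [Countable κ] {f : ι → X → Y} {f' : κ → X → Z}
    {U : Set X} (hU : IsOpen U) (hne : U.Nonempty) (hf : ∀ a, AnalyticOnNhd ℂ (f a) U)
    (hf' : ∀ a, AnalyticOnNhd ℂ (f' a) U) :
    ∃ x ∈ U, (∀ a, f a x = 0 → ∀ᶠ y in 𝓝 x, f a y = 0) ∧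
      ∀ a, f' a x = 0 → ∀ᶠ y in 𝓝 x, f' a y = 0 := by
  obtain ⟨x, hx, h⟩ := generic_vec (ι := ι ⊕ κ) (Y := Y × Z)
    (f := Sum.elim (fun a x => (f a x, 0)) fun a x => (0, f' a x)) hU hne (by
      rintro (a | a)
      · exact (hf a).prod analyticOnNhd_const
      · exact analyticOnNhd_const.prod (hf' a))
  refine ⟨x, hx, fun a ha => ?_, fun a ha => ?_⟩
  · simpa using h (.inl a) (by simpa using ha)
  · simpa using h (.inr a) (by simpa using ha)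

/-- the lemma of Mumford for the flat forms on a family of rationally equivalent cycles -/
theorem Emb.ml (hE : Emb Ω Φ) {X : Type} [NormedAddCommGroup X] [NormedSpace ℂ X]
    [FiniteDimensional ℂ X] {U : Set X} (hU : IsOpen U) (hne : U.Nonempty) {τ : X → Mat g}
    (hτ : AnalyticOnNhd ℂ τ U) (hΩ : ∀ e ∈ U, τ e ∈ Ω) {c : X → Fin (d + 1) → Tn J n}
    (hc : AnalyticOnNhd ℂ c U) (hnz : ∀ e ∈ U, ∀ t, Nz (pc (c e) t))
    (hmid : ∀ e ∈ U, ∃ t₀, ∀ᶠ t in 𝓝 t₀, ∃ q, Cy Φ (τ e) (pc (c e) t) q)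
    {w w' : X → Fin n → EE g} (hw : AnalyticOnNhd ℂ w U) (hw' : AnalyticOnNhd ℂ w' U)
    (h0 : ∀ e ∈ U, Cy Φ (τ e) (c e 0) (w e))
    (h1 : ∀ e ∈ U, Cy Φ (τ e) (c e (Fin.last d)) (w' e)) :
    ∃ e ∈ U, ∀ (r : ℕ) (ν : Fin r → EE g) (ξ : Fin r → X), Kil τ e ν ξ →
      ∑ i, tf (fun x => w x i) e ν ξ = ∑ i, tf (fun x => w' x i) e ν ξ := by
  have : CompleteSpace X := FiniteDimensional.complete ℂ X
  have hcy : ∀ e ∈ U, ∀ t, ∃ q, Cy Φ (τ e) (pc (c e) t) q := fun e he t => by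
    obtain ⟨t₀, ht⟩ := hmid e he
    exact hE.glob (hΩ e he) (hnz e he) ht t
  obtain ⟨U', k, b, hU', hne', hsub, hb, hBr⟩ := hE.eqs hU hne hτ hΩ hc hcy
  have hW : ∀ (β : Bool) (i : Fin n), AnalyticOnNhd ℂ (fun x => cond β w w' x i) U' := by
    intro β i x hx
    cases β
    · exact analyticAt_pi_iff.1 (hw' x (hsub hx)) i
    · exact analyticAt_pi_iff.1 (hw x (hsub hx)) i
  have hb' : ∀ o : Option (Fin k), AnalyticOnNhd ℂ (o.elim (fun _ => 0) b) U' := by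
    rintro (_ | j)
    · exact analyticOnNhd_const
    · exact hb j
  obtain ⟨e, he, hg1, hg2⟩ := xeml_gen
    (f := fun (a : Option (Fin k) × Fin k) x => a.1.elim (fun _ => 0) b x - b a.2 x)
    (f' := fun (a : Bool × Fin n × Fin n × (Fin g → ℤ) × (Fin g → ℤ)) x =>
      cond a.1 w w' x a.2.1 - cond a.1 w w' x a.2.2.1 - per (τ x) a.2.2.2.1 a.2.2.2.2) hU' hne'
    (fun a => (hb' a.1).sub (hb a.2))
    (fun a x hx => ((hW _ _ x hx).sub (hW _ _ x hx)).sub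
      ((per_analytic _ _ _).comp (hτ x (hsub hx))))
  refine ⟨e, hsub he, fun r ν ξ hK => ?_⟩
  have heU : ∀ᶠ x in 𝓝 e, x ∈ U' := hU'.mem_nhds he
  have hfst : Tendsto (Prod.fst : X × ℂ → X) (𝓝 (e, 0)) (𝓝 e) := continuousAt_fst
  have hτe := hτ e (hsub he)
  have hΩe : ∀ᶠ x in 𝓝 e, τ x ∈ Ω := heU.mono fun x hx => hΩ x (hsub hx)
  have hc1 : ∀ t : ℂ, AnalyticAt ℂ (fun x : X × ℂ => c x.1) (e, t) := fun t =>
    AnalyticAt.comp (g := c) (f := Prod.fst) (x := (e, t)) (hc e (hsub he)) analyticAt_fst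
  have hsep : ∀ o : Option (Fin k), ∀ᶠ x : X × ℂ in 𝓝 (e, 0), x.2 ≠ 0 →
      Br Φ (fun x : X × ℂ => τ x.1) (fun x => pc (c x.1) x.2)
        (x.1, o.elim (fun _ => 0) b x.1 + x.2) := by
    intro o
    have h2 := eventually_all.2 fun j => xeml_sep (hb' o e he).continuousAt
      (hb j e he).continuousAt (hg1 (o, j))
    filter_upwards [h2, hfst.eventually heU] with x hx hx' h3
    exact hBr _ hx' _ fun j => hx j h3
  have hinf : ∀ᶠ x : X × ℂ in 𝓝 (e, 0), x.2 ≠ 0 →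
      Br Φ (fun x : X × ℂ => τ x.1) (fun x => pc (c x.1) x.2) (x.1, x.2⁻¹) := by
    have h2 := eventually_all.2 fun j => xeml_inf (hb j e he).continuousAt
    filter_upwards [h2, hfst.eventually heU] with x hx hx' h3
    exact hBr _ hx' _ fun j => hx j h3
  have hrev : ∀ x : X × ℂ, x.2 ≠ 0 → pc (fun i => c x.1 i.rev) x.2 =
      x.2 ^ d • pc (c (x.1, x.2⁻¹).1) (x.1, x.2⁻¹).2 := fun x hx => pc_rev _ hx
  have hpat : ∀ (β : Bool) i j m l, cond β w w' e i - cond β w w' e j = per (τ e) m l →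
      ∀ᶠ x in 𝓝 e, cond β w w' x i - cond β w w' x j = per (τ x) m l := fun β i j m l h =>
    (hg2 (β, i, j, m, l) (sub_eq_zero.2 h)).mono fun x hx => sub_eq_zero.1 hx
  refine liou1 (f := trF Φ τ (fun x => pc (c x.1) x.2) e ν ξ) (Set.finite_range fun j => b j e)
    (fun t ht => hE.trF_an hK hτe hΩe (hBr e he t fun j h => ht ⟨j, h.symm⟩)) ?_ ?_ ?_
  · rintro _ ⟨j, rfl⟩
    obtain ⟨q, hq⟩ := hcy e (hsub he) (b j e)
    exact hE.pb hK hτe hΩe (hb j e he) (pc_an (hc1 _) analyticAt_snd) hq (hsep (some j))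
  · refine hE.pz hK hτe hΩe (pc_an (hc1 _) analyticAt_snd) (hw e (hsub he))
      (heU.mono fun x hx => ?_) (hpat true) ((hsep none).mono fun x hx h => ?_)
    · rw [pc_zero]
      exact h0 x (hsub hx)
    · simpa using hx h
  · have h2 := hE.pz (c := fun x => pc (fun i => c x.1 i.rev) x.2) hK hτe hΩe
      (pc_an (analyticAt_pi_iff.2 fun i => analyticAt_pi_iff.1 (hc1 0) i.rev) analyticAt_snd)
      (hw' e (hsub he)) (heU.mono fun x hx => by
        rw [pc_zero, Fin.rev_zero]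
        exact h1 x (hsub hx)) (hpat false)
      (hinf.mono fun x hx h => Br.inv (c := fun x => pc (c x.1) x.2) h hrev (hx h))
    refine h2.congr' ?_
    have h3 : Tendsto (fun t : ℂ => (e, t)) (𝓝 0) (𝓝 (e, 0)) :=
      (Continuous.prodMk_right e).continuousAt
    filter_upwards [mem_nhdsWithin_of_mem_nhds (h3.eventually hinf), self_mem_nhdsWithin]
      with t ht ht0
    exact hE.trF_inv hK hτe hΩe ht0 hrev (ht ht0)

end Pool.Agent.MP_cf0a82_ag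

end
end

section

open Complex Filter Topology Matrix Function

noncomputable section

namespace Pool.Agent.MP_cf0a82_ag

open Pool.Agent.MP_f58063_ag

variable {g k : ℕ} {B : Box g}

lemma xdfamb_append {X V : Type} [NormedAddCommGroup X] [NormedSpace ℂ X] [NormedAddCommGroup V]
    [NormedSpace ℂ V] {a b : ℕ} {x : X → Fin a → V} {y : X → Fin b → V} {e : X}
    (hx : AnalyticAt ℂ x e) (hy : AnalyticAt ℂ y e) :
    AnalyticAt ℂ (fun e => Fin.append (x e) (y e)) e := by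
  refine analyticAt_pi_iff.2 fun i => ?_
  refine Fin.addCases (fun i => ?_) (fun i => ?_) i
  · simpa only [Fin.append_left] using analyticAt_pi_iff.1 hx i
  · simpa only [Fin.append_right] using analyticAt_pi_iff.1 hy i

/-- the lemma of Mumford for a family of Chow forms -/
theorem ml_of_chow {Z : Type} [NormedAddCommGroup Z] [NormedSpace ℂ Z] [FiniteDimensional ℂ Z]
    {b d : ℕ} {U : Set (DD g × Z)} (hU : IsOpen U) (hne : U.Nonempty)
    (hB : ∀ e ∈ U, e.1 ∈ B.ball) {x y : DD g × Z → Fin k → EE g} {β : DD g × Z → Fin b → EE g}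
    {c : DD g × Z → Fin (d + 1) → Tn (Fin B.nJ) (k + b)} (hx : AnalyticOnNhd ℂ x U)
    (hy : AnalyticOnNhd ℂ y U) (hβ : AnalyticOnNhd ℂ β U) (hc : AnalyticOnNhd ℂ c U)
    (hnz : ∀ e ∈ U, ∀ t, Nz (pc (c e) t))
    (hmid : ∀ e ∈ U, ∃ t₀, ∀ᶠ t in 𝓝 t₀, ∃ w, Cy B.Φ (B.ψ e.1) (pc (c e) t) w)
    (h0 : ∀ e ∈ U, Cy B.Φ (B.ψ e.1) (c e 0) (Fin.append (y e) (β e)))
    (h1 : ∀ e ∈ U, Cy B.Φ (B.ψ e.1) (c e (Fin.last d)) (Fin.append (x e) (β e))) :
    ∃ e ∈ U, ML B x y e := by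
  obtain ⟨e, he, h⟩ := B.embΦ.ml hU hne (τ := fun e : DD g × Z => B.ψ e.1)
    (fun e he => AnalyticAt.comp (f := fun e : DD g × Z => e.1) (B.ψ_an (hB e he)) analyticAt_fst)
    (fun e he => ⟨e.1, hB e he, rfl⟩) hc hnz hmid
    (w := fun e => Fin.append (y e) (β e)) (w' := fun e => Fin.append (x e) (β e))
    (fun e he => xdfamb_append (hy e he) (hβ e he))
    (fun e he => xdfamb_append (hx e he) (hβ e he)) h0 h1
  refine ⟨e, he, fun r ν ξ hK => ?_⟩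
  have h2 := h r ν ξ hK
  simp only [Fin.sum_univ_add, Fin.append_left, Fin.append_right] at h2
  exact (add_right_cancel h2).symm

/-- spreading out a solution over the moduli space -/
theorem fam_of_point (hg : 0 < g) {A : Atl B} {δ : Dat B k} {q : DD g × δ.W} (hq : δ.S2 A q)
    (h1 : ∀ ξ, ∃ η, Tan (δ.R A) q (ξ, η)) :
    ∃ (m : ℕ) (U : Set (DD g × (Fin m → ℂ))) (x y : DD g × (Fin m → ℂ) → Fin k → EE g)
      (u : DD g × (Fin m → ℂ) → Fin m → ℂ), Fam B U x y u ∧ (δ.BigAt A q → Big U x) := by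
  obtain ⟨m, μ, p, hP, hμ⟩ := NR.fam _ (δ.R_spec A hg).1 hq.1.1.mem h1
  obtain ⟨u, hu, hd⟩ := hP.dir hg hμ hq
  have hbig : ∃ W ∈ 𝓝 p, δ.BigAt A q → Big W fun e => δ.px A (μ e) := by
    by_cases hb : δ.BigAt A q
    · obtain ⟨i, hi⟩ := hP.big hμ hb
      exact ⟨_, hi, fun _ => ⟨i, fun e he => he⟩⟩
    · exact ⟨Set.univ, univ_mem, fun h => (hb h).elim⟩
  obtain ⟨W, hW, hbig⟩ := hbig
  obtain ⟨U, hU, hUo, hp⟩ := eventually_nhds_iff.1 ((hP.sol hg hq.1.1).and ((hP.pt_ns hμ).and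
    ((hP.mid hg hμ hq.1).and (hd.and (hu.eventually_analyticAt.and
      (hP.an.eventually_analyticAt.and hW))))))
  have hB : ∀ e ∈ U, e.1 ∈ B.ball := fun e he => hμ e ▸ (hU e he).1.mem.1
  refine ⟨m, U, fun e => δ.px A (μ e), fun e => δ.py A (μ e), u,
    ⟨hUo, ⟨p, hp⟩, hB, fun e he l => (hU e he).2.1 _, fun e he l => (hU e he).2.1 _,
      fun e he => hμ e ▸ (hU e he).1.nor, fun e he => (hU e he).2.2.2.2.1,
      fun e he => (hU e he).2.2.2.1.1, fun e he => (hU e he).2.2.2.1.2, fun O hO hOo hne => ?_⟩,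
    fun h => ?_⟩
  · refine ml_of_chow hOo hne (fun e he => hB e (hO he)) (β := fun e => δ.pb A (μ e))
      (c := fun e => (μ e).2.2.1)
      (fun e he => analyticAt_pi_iff.2 fun l => ((hU e (hO he)).2.1 _).1)
      (fun e he => analyticAt_pi_iff.2 fun l => ((hU e (hO he)).2.1 _).1)
      (fun e he => analyticAt_pi_iff.2 fun l => ((hU e (hO he)).2.1 _).1)
      (fun e he => ?_) (fun e he => (hU e (hO he)).1.nz) (fun e he => (hU e (hO he)).2.2.1)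
      (fun e he => hμ e ▸ (hU e (hO he)).1.c0) fun e he => hμ e ▸ (hU e (hO he)).1.c1
    exact AnalyticAt.comp (f := fun e => (μ e).2.2) analyticAt_fst
      (AnalyticAt.comp (f := fun e => (μ e).2) analyticAt_snd
        (AnalyticAt.comp (f := μ) analyticAt_snd (hU e (hO he)).2.2.2.2.2.1))
  · obtain ⟨i, hi⟩ := hbig h
    exact ⟨i, fun e he => hi e (hU e he).2.2.2.2.2.2⟩

end Pool.Agent.MP_cf0a82_ag

end
end
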