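import Pool.Agent.Mg.Fcf0a82q.G40f606
import Pool.Agent.Mg.Fcf0a82q.G3d2c3a
import Pool.Agent.Mg.Fcf0a82q.G2c0f22
import Pool.Agent.Mg.Fcf0a82q.G860694
import Pool.Agent.Mg.Fcf0a82q.G446bd4

section

open Complex Filter Topology Matrix Function

noncomputable section

namespace Pool.Agent.MP_cf0a82_ag

open Pool.Agent.MP_f58063_ag

variable {X : Type} [NormedAddCommGroup X] [NormedSpace ℂ X] {p : X}

lemma xfgmlin_rp {ι : Type} [Fintype ι] {c : ι → X → ℂ} (hc : ∀ i, AnalyticAt ℂ (c i) p)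
    (a : ι → MG p) :
    rp (∑ i, a i * gm p (c i)) =ᶠ[GF p] fun x => ∑ i, rp (a i) x * c i x := by
  have h2 : ∀ᶠ x in GF p, ∀ i, rp (a i * gm p (c i)) x = rp (a i) x * c i x := by
    refine eventually_all.2 fun i => ?_
    filter_upwards [rp_mul (a i) (gm p (c i)), rp_gm (hc i)] with x h3 h4
    rw [h3, h4]
  filter_upwards [h2, rp_sum Finset.univ fun i => a i * gm p (c i)] with x h3 h4
  rw [h4]
  exact Finset.sum_congr rfl fun i _ => h3 i

/-- the linear form with given coefficients -/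
def xfgmlin_form {K ι : Type} [Field K] [Fintype ι] (v : ι → K) : (ι → K) →ₗ[K] K where
  toFun a := ∑ i, a i * v i
  map_add' a b := by simp [add_mul, Finset.sum_add_distrib]
  map_smul' c a := by simp [Finset.mul_sum, mul_assoc]

lemma xfgmlin_span {K ι κ : Type} [Field K] [Fintype ι] [Fintype κ] {c : κ → ι → K} {d : ι → K}
    (h : ∀ a : ι → K, (∀ j, ∑ i, a i * c j i = 0) → ∑ i, a i * d i = 0) :
    ∃ lam : κ → K, ∀ i, ∑ j, lam j * c j i = d i := by
  classical
  have h1 : xfgmlin_form d ∈ Submodule.span K (Set.range fun j => xfgmlin_form (c j)) := by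
    refine mem_span_of_iInf_ker_le_ker fun a ha => ?_
    rw [Submodule.mem_iInf] at ha
    exact h a ha
  obtain ⟨lam, hl⟩ := (Submodule.mem_span_range_iff_exists_fun K).1 h1
  refine ⟨lam, fun i => ?_⟩
  have h2 := LinearMap.congr_fun hl (Pi.single i 1)
  simpa [xfgmlin_form, Pi.single_apply] using h2

/-- a solution over the germs gives solutions at generic points -/
theorem gm_sol {ι κ : Type} [Fintype ι] [Finite κ] {c : κ → ι → X → ℂ} {r : κ → X → ℂ}
    (hc : ∀ j i, AnalyticAt ℂ (c j i) p) (hr : ∀ j, AnalyticAt ℂ (r j) p) {a : ι → MG p}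
    (ha : ∀ j, ∑ i, a i * gm p (c j i) = gm p (r j)) :
    ∀ᶠ x in GF p, ∃ ξ : ι → ℂ, ∀ j, ∑ i, ξ i * c j i x = r j x := by
  have h1 : ∀ᶠ x in GF p, ∀ j, ∑ i, rp (a i) x * c j i x = r j x := by
    refine eventually_all.2 fun j => ?_
    filter_upwards [xfgmlin_rp (hc j) a, rp_gm (hr j)] with x h3 h4
    rw [← h3, ha j, h4]
  exact h1.mono fun x hx => ⟨fun i => rp (a i) x, hx⟩

/-- an implication between linear systems over the germs holds at generic points -/
theorem gm_lin {ι κ : Type} [Fintype ι] [Finite κ] {c : κ → ι → X → ℂ} {d : ι → X → ℂ}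
    (hc : ∀ j i, AnalyticAt ℂ (c j i) p) (hd : ∀ i, AnalyticAt ℂ (d i) p)
    (h : ∀ a : ι → MG p, (∀ j, ∑ i, a i * gm p (c j i) = 0) → ∑ i, a i * gm p (d i) = 0) :
    ∀ᶠ x in GF p, ∀ ξ : ι → ℂ, (∀ j, ∑ i, ξ i * c j i x = 0) → ∑ i, ξ i * d i x = 0 := by
  have := Fintype.ofFinite κ
  obtain ⟨lam, hl⟩ := xfgmlin_span h
  filter_upwards [gm_sol (c := fun i j => c j i) (r := d) (fun i j => hc j i) hd hl] with x hx
    ξ hξ
  obtain ⟨η, hη⟩ := hx
  calc ∑ i, ξ i * d i x = ∑ i, ∑ j, η j * (ξ i * c j i x) := by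
        refine Finset.sum_congr rfl fun i _ => ?_
        rw [← hη i, Finset.mul_sum]
        exact Finset.sum_congr rfl fun j _ => by ring
    _ = ∑ j, η j * ∑ i, ξ i * c j i x := by
        rw [Finset.sum_comm]
        exact Finset.sum_congr rfl fun j _ => (Finset.mul_sum _ _ _).symm
    _ = 0 := Finset.sum_eq_zero fun j _ => by rw [hξ j, mul_zero]

theorem freq_GF {S : X → Prop} {U : Set X} (hU : U ∈ 𝓝 p)
    (h : ∀ O ⊆ U, IsOpen O → O.Nonempty → ∃ x ∈ O, S x) : ∃ᶠ x in GF p, S x := by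
  intro hn
  obtain ⟨O, hO, hO', hp⟩ : ∃ O : Set X, (∀ x ∈ O, x ∈ U ∧ ¬ S x) ∧ IsOpen O ∧ O.Nonempty := by
    have := GF_neBot p
    obtain ⟨x, hx⟩ := (GF_nhds ((show ∀ᶠ x in GF p, x ∈ U from GF_le p hU).and hn)).exists
    obtain ⟨O, h1, h2, h3⟩ := eventually_nhds_iff.1 hx
    exact ⟨O, h1, h2, x, h3⟩
  obtain ⟨x, hx, hS⟩ := h O (fun x hx => (hO x hx).1) hO' hp
  exact (hO x hx).2 hS

theorem zero_of_freq {f : X → ℂ} (hf : AnalyticAt ℂ f p) (h : ∃ᶠ x in GF p, f x = 0) :
    ∀ᶠ x in 𝓝 p, f x = 0 := by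
  by_contra hn
  exact h (xsmga_ne hf fun h0 => hn ((gm_eq_zero hf).1 h0))

theorem gm_indep {n : ℕ} {κ : Type} [Fintype κ] {q : X → Fin n → κ → ℂ}
    (hq : ∀ b a, AnalyticAt ℂ (fun x => q x b a) p) (h : LinearIndependent ℂ (q p)) :
    LinearIndependent (MG p) fun b a => gm p fun x => q x b a := by
  have hc : ContinuousAt q p :=
    continuousAt_pi.2 fun b => continuousAt_pi.2 fun a => (hq b a).continuousAt
  have h1 : ∀ᶠ x in 𝓝 p, LinearIndependent ℂ (q x) :=
    hc.eventually (isOpen_setOfPred_linearIndependent.mem_nhds h)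
  rw [Fintype.linearIndependent_iff]
  intro a ha
  refine congrFun (gm_inj (fun j b x => q x b j) (fun j b => hq b j) ?_ a fun j => ?_)
  · filter_upwards [h1] with x hx ξ hξ
    funext b
    refine Fintype.linearIndependent_iff.1 hx ξ (funext fun j => ?_) b
    rw [Finset.sum_apply, Pi.zero_apply, ← hξ j]
    exact Finset.sum_congr rfl fun i _ => mul_comm _ _
  · have h2 := congrFun ha j
    rw [Finset.sum_apply, Pi.zero_apply] at h2
    rw [← h2]
    exact Finset.sum_congr rfl fun i _ => mul_comm _ _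

variable {g k : ℕ} {P : X → Matrix (LL g) (LL g) ℂ} {Um : X → Matrix (LL g) (Fin k) ℂ}
  {q : X → Fin g → ℂ}

theorem gm_mu (hP : ∀ a b, AnalyticAt ℂ (fun x => P x a b) p)
    (hq : ∀ a, AnalyticAt ℂ (fun x => q x a) p) (j : LL g) :
    AnalyticAt ℂ (fun x => mu (P x) (q x) j) p ∧
      gm p (fun x => mu (P x) (q x) j) = mu (gM p P) (fun a => gm p fun x => q x a) j := by
  have e : ∀ {R : Type} [CommRing R] (P : Matrix (LL g) (LL g) R) (q : Fin g → R),
      mu P q j = ∑ a, P j (.inr a) * q a := fun P q => by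
    simp [mu, mulVec, dotProduct]
  simp only [e]
  have h1 : ∀ a ∈ (Finset.univ : Finset (Fin g)),
      AnalyticAt ℂ (fun x => P x j (.inr a) * q x a) p := fun a _ => (hP _ _).mul (hq a)
  refine ⟨Finset.analyticAt_fun_sum _ h1, ?_⟩
  rw [gm_sum _ h1]
  exact Finset.sum_congr rfl fun a _ => gm_mul (hP _ _) (hq a)

theorem gm_fb (hP : ∀ a b, AnalyticAt ℂ (fun x => P x a b) p)
    (hU : ∀ a b, AnalyticAt ℂ (fun x => Um x a b) p)
    (hq : ∀ a, AnalyticAt ℂ (fun x => q x a) p) (l : Fin k) :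
    AnalyticAt ℂ (fun x => fb (P x) (Um x) (q x) l) p ∧
      gm p (fun x => fb (P x) (Um x) (q x) l) =
        fb (gM p P) (gM p Um) (fun a => gm p fun x => q x a) l := by
  have e : ∀ {R : Type} [CommRing R] (P : Matrix (LL g) (LL g) R) (Um : Matrix (LL g) (Fin k) R)
      (q : Fin g → R), fb P Um q l =
        ∑ a, (mu P q (.inr a) * Um (.inl a) l - mu P q (.inl a) * Um (.inr a) l) :=
    fun P Um q => by
      simp [fb, J, mulVec, dotProduct, Finset.sum_sub_distrib, one_apply]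
      ring
  simp only [e]
  have h0 := gm_mu hP hq
  have h1 : ∀ a ∈ (Finset.univ : Finset (Fin g)), AnalyticAt ℂ (fun x =>
      mu (P x) (q x) (.inr a) * Um x (.inl a) l - mu (P x) (q x) (.inl a) * Um x (.inr a) l) p :=
    fun a _ => ((h0 _).1.mul (hU _ _)).sub ((h0 _).1.mul (hU _ _))
  refine ⟨Finset.analyticAt_fun_sum _ h1, ?_⟩
  rw [gm_sum _ h1]
  refine Finset.sum_congr rfl fun a _ => ?_
  rw [gm_sub (f := fun x => mu (P x) (q x) (.inr a) * Um x (.inl a) l)
    (f' := fun x => mu (P x) (q x) (.inl a) * Um x (.inr a) l)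
    ((h0 _).1.mul (hU _ _)) ((h0 _).1.mul (hU _ _)), gm_mul (h0 _).1 (hU _ _),
    gm_mul (h0 _).1 (hU _ _), (h0 _).2, (h0 _).2]
  rfl

end Pool.Agent.MP_cf0a82_ag

end
end

section

open Complex Filter Topology Matrix Function

noncomputable section

namespace Pool.Agent.MP_cf0a82_ag

open Pool.Agent.MP_f58063_ag

variable {X : Type} [NormedAddCommGroup X] [NormedSpace ℂ X] [FiniteDimensional ℂ X] {g : ℕ}
  {τ : Mat g} {γ γ' : X → EE g} {p : X}

lemma xgna_inv {F : EE g → EE g} {q : EE g} (hF : AnalyticAt ℂ F q)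
    (hb : Bijective (fderiv ℂ F q)) :
    ∃ σ : EE g → EE g, AnalyticAt ℂ σ (F q) ∧ σ (F q) = q ∧ (∀ᶠ x in 𝓝 (F q), F (σ x) = x) ∧
      ∀ᶠ z in 𝓝 q, σ (F z) = z := by
  let e : EE g ≃L[ℂ] EE g :=
    (LinearEquiv.ofBijective (fderiv ℂ F q : EE g →ₗ[ℂ] EE g) hb).toContinuousLinearEquiv
  have he : fderiv ℂ F q = (e : EE g →L[ℂ] EE g) := by
    ext v
    rfl
  have hs : HasStrictFDerivAt F (e : EE g →L[ℂ] EE g) q := he ▸ hF.hasStrictFDerivAt
  refine ⟨hs.localInverse F e q, ?_, hs.localInverse_apply_image, hs.eventually_right_inverse,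
    hs.eventually_left_inverse⟩
  exact (hs.toOpenPartialHomeomorph F).analyticAt_symm' hs.mem_toOpenPartialHomeomorph_source
    hF he

theorem NA_of_chart (hτ : τ ∈ Siegel g) (hγ : AnalyticAt ℂ γ p) {f : Fin g → EE g → ℂ}
    (hf : ∀ i, Ab τ (γ p) (f i)) (hb : Bijective (fderiv ℂ (fun x i => f i x) (γ p)))
    (hN : ∀ i, NashAt (fun x => f i (γ x)) p) : NA τ γ p := by
  refine ⟨hγ, fun h hh => ?_⟩
  have hA : AnalyticAt ℂ (fun x i => f i x) (γ p) :=
    analyticAt_pi_iff.2 fun i => (hf i).analyticAt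
  obtain ⟨σ, hσ, hσ0, hr, hl⟩ := xgna_inv hA hb
  obtain ⟨P, hP, hz⟩ := TD_id hτ (γ p) (Fin.cons h f) fun i => by
    refine Fin.cases ?_ (fun i => ?_) i
    · exact hh
    · exact hf i
  have hσt : Tendsto σ (𝓝 fun i => f i (γ p)) (𝓝 (γ p)) := by
    have := hσ.continuousAt.tendsto
    rwa [hσ0] at this
  have h1 : NashAt (fun y => h (σ y)) (fun i => f i (γ p)) := by
    refine nash_of_rel_fin (hh.analyticAt.comp_of_eq hσ hσ0) hP ?_
    filter_upwards [hσt.eventually hz, hr] with y h2 h3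
    rw [← h2]
    congr 2
    funext i
    refine Fin.cases ?_ (fun i => ?_) i
    · rfl
    · exact (congrFun h3 i).symm
  have h2 := NashAt.comp (φ := fun x i => f i (γ x)) (y := p) h1
    (AnalyticAt.comp (f := γ) hA hγ) (nash_pi hN)
  refine h2.congr ?_
  filter_upwards [hγ.continuousAt.eventually hl] with x hx
  rw [hx]

theorem NA.eventually (hτ : τ ∈ Siegel g) (h : NA τ γ p) : ∀ᶠ x in 𝓝 p, NA τ γ x := by
  have : CompleteSpace X := FiniteDimensional.complete ℂ X
  obtain ⟨F, hF, -, hb⟩ := Ab_extend hτ (γ p) (r := 0) (fun _ _ => 0)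
    (fun j => j.elim0) (fun _ => ⟨0, Subsingleton.elim _ _⟩) (Nat.zero_le g)
  have hA : AnalyticAt ℂ (fun x i => F i x) (γ p) :=
    analyticAt_pi_iff.2 fun i => (hF i).1.analyticAt
  have ht := h.1.continuousAt.tendsto
  filter_upwards [h.1.eventually_analyticAt,
    ht.eventually (eventually_all.2 fun i => (hF i).1.eventually),
    ht.eventually (eventually_inj hA hb.1), ht.eventually (eventually_surj hA hb.2),
    eventually_all.2 fun i => nash_ev (h.2 _ (hF i).1)] with x h1 h2 h3 h4 h5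
  exact NA_of_chart hτ h1 h2 ⟨h3, h4⟩ h5

theorem NA.const (τ : Mat g) (c : EE g) (p : X) : NA τ (fun _ => c) p := by
  exact ⟨analyticAt_const, fun f _ => NashAt.const (f c) p⟩

theorem NA.add (hτ : τ ∈ Siegel g) (h : NA τ γ p) (h' : NA τ γ' p) :
    NA τ (fun x => γ x + γ' x) p := by
  refine ⟨h.1.add h'.1, fun f hf => ?_⟩
  obtain ⟨n, a, b, b', h1, h2, h3⟩ := Ab_add hτ hf
  have hD : NashAt (fun x => ∑ i, a i (γ x) * b' i (γ' x)) p :=
    NashAt.sum _ fun i _ => (h.2 _ (h1 i).1).mul (h'.2 _ (h1 i).2.2)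
  have hU : NashAt (fun x => ∑ i, a i (γ x) * b i (γ' x)) p :=
    NashAt.sum _ fun i _ => (h.2 _ (h1 i).1).mul (h'.2 _ (h1 i).2.1)
  refine (nash_div hU hD h2).congr ?_
  have ht : Tendsto (fun x => (γ x, γ' x)) (𝓝 p) (𝓝 (γ p, γ' p)) :=
    h.1.continuousAt.prodMk h'.1.continuousAt
  filter_upwards [ht.eventually h3, hD.1.continuousAt.eventually_ne h2] with x h4 h5
  exact (eq_div_of_mul_eq h5 h4).symm

theorem NA.sum (hτ : τ ∈ Siegel g) {κ : Type} (s : Finset κ) {c : κ → X → EE g}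
    (h : ∀ i ∈ s, NA τ (c i) p) : NA τ (fun x => ∑ i ∈ s, c i x) p := by
  classical
  induction s using Finset.induction_on with
  | empty => simpa using NA.const τ 0 p
  | insert a s ha ih =>
    simp only [Finset.sum_insert ha]
    exact (h a (Finset.mem_insert_self _ _)).add hτ
      (ih fun i hi => h i (Finset.mem_insert_of_mem hi))

theorem NA.comp {Y : Type} [NormedAddCommGroup Y] [NormedSpace ℂ Y] [FiniteDimensional ℂ Y]
    {φ : Y → X} {y : Y} (h : NA τ γ (φ y)) (hφ : AnalyticAt ℂ φ y)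
    (hN : ∀ l : X →L[ℂ] ℂ, NashAt (fun e => l (φ e)) y) : NA τ (fun e => γ (φ e)) y := by
  exact ⟨AnalyticAt.comp (f := φ) h.1 hφ, fun f hf =>
    NashAt.comp (f := fun x => f (γ x)) (h.2 f hf) hφ hN⟩

end Pool.Agent.MP_cf0a82_ag

end
end

section

open Complex Filter Topology Matrix Function

noncomputable section

namespace Pool.Agent.MP_cf0a82_ag

open Pool.Agent.MP_f58063_ag

variable {g : ℕ} {τ : Mat g}

/-- independent abelian functions on an affine subspace -/
theorem subm (hτ : τ ∈ Siegel g) (z : EE g) (F : Submodule ℂ (EE g)) {r : ℕ}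
    (hr : r ≤ Module.finrank ℂ F) :
    ∃ f : Fin r → EE g → ℂ, (∀ i, Ab τ z (f i)) ∧ ∀ P : MvPolynomial (Fin r) ℂ,
      (∀ᶠ v : F in 𝓝 0, MvPolynomial.eval (fun i => f i (z + v)) P = 0) → P = 0 := by
  obtain ⟨f, hf, -, hb⟩ := Ab_extend hτ z (r := 0) (fun _ _ => 0)
    (fun j => j.elim0) (fun _ => ⟨0, Subsingleton.elim _ _⟩) (Nat.zero_le g)
  have hA : AnalyticAt ℂ (fun x i => f i x) z :=
    analyticAt_pi_iff.2 fun i => (hf i).1.analyticAt
  set L := fderiv ℂ (fun x i => f i x) z with hL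
  obtain ⟨S, hS⟩ := ((L : EE g →ₗ[ℂ] EE g) ∘ₗ F.subtype).exists_leftInverse_of_injective
    (LinearMap.ker_eq_bot.2 (hb.1.comp F.injective_subtype))
  let b := Module.finBasis ℂ F
  let A : EE g →ₗ[ℂ] (Fin r → ℂ) :=
    LinearMap.funLeft ℂ ℂ (Fin.castLE hr) ∘ₗ (b.equivFun : F →ₗ[ℂ] _) ∘ₗ S
  let A' := LinearMap.toContinuousLinearMap A
  refine ⟨fun i x => A (fun j => f j x) i, fun i => ?_, fun P hP => ?_⟩
  · refine (Ab.sum Finset.univ (F := fun j x => f j x * A (fun l => if j = l then 1 else 0) i)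
      fun j _ => (hf j).1.mul (Ab.const τ z _)).congr (Eventually.of_forall fun x => ?_)
    simp only [LinearMap.pi_apply_eq_sum_univ A fun j => f j x, Finset.sum_apply, Pi.smul_apply,
      smul_eq_mul]
  · have := FiniteDimensional.complete ℂ F
    have h1 : HasStrictFDerivAt (fun v : F => z + (v : EE g)) F.subtypeL 0 :=
      F.subtypeL.hasStrictFDerivAt.const_add z
    have h2 : HasStrictFDerivAt (fun x i => f i x) L (z + ((0 : F) : EE g)) := by
      rw [Submodule.coe_zero, add_zero]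
      exact hA.hasStrictFDerivAt
    have h3 := A'.hasStrictFDerivAt.comp (0 : F) (h2.comp (0 : F) h1)
    have hm := h3.map_nhds_eq_of_surj (LinearMap.range_eq_top.2 fun y => by
      obtain ⟨w, hw⟩ := LinearMap.funLeft_surjective_of_injective ℂ ℂ (Fin.castLE hr)
        (Fin.castLE_injective hr) y
      refine ⟨b.equivFun.symm w, ?_⟩
      have h4 : S (L (b.equivFun.symm w : F)) = b.equivFun.symm w :=
        LinearMap.congr_fun hS (b.equivFun.symm w)
      change LinearMap.funLeft ℂ ℂ (Fin.castLE hr) (b.equivFun (S (L (b.equivFun.symm w : F)))) = y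
      rw [h4, LinearEquiv.apply_symm_apply, hw])
    have h5 : ∀ᶠ x in 𝓝 (A' fun i => f i (z + ((0 : F) : EE g))), MvPolynomial.eval x P = 0 := by
      rw [← hm, eventually_map]
      exact hP
    have hE : ∀ x : Fin r → ℂ, AnalyticAt ℂ (fun x : Fin r → ℂ => MvPolynomial.eval x P) x := by
      intro x
      have := AnalyticAt.aeval_mvPolynomial (𝕜 := ℂ) (z := x)
        (f := fun (x : Fin r → ℂ) (i : Fin r) => x i)
        (fun i => (ContinuousLinearMap.proj (R := ℂ) (φ := fun _ : Fin r => ℂ) i).analyticAt x) P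
      simpa only [MvPolynomial.aeval_eq_eval] using this
    exact MvPolynomial.funext fun y => (congrFun (entire_zero hE h5) y).trans (by simp)

/-- an algebraic affine subspace is a translate of a subtorus -/
theorem sub_torus (hτ : τ ∈ Siegel g) (z : EE g) (H : Submodule ℂ (EE g))
    (h : TD τ (fun v : H => z + v) 0 (Module.finrank ℂ H)) :
    (H : Set (EE g)) ⊆ Submodule.span ℝ (lattice τ ∩ H) := by
  set Y : EE g → Prop := fun q => ∀ (N : ℕ) (a : EE g → ℂ), a ∈ Th τ N →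
    (∀ v ∈ H, a (z + v) = 0) → ∀ v ∈ H, a (q + v) = 0 with hY
  set G := xlatStab Y
  have hG : ∀ a, a ∈ G ↔ ∀ q, Y q → Y (q + a) ∧ Y (q + -a) := fun a => Iff.rfl
  have hYc : IsClosed {q | Y q} := by
    simp only [hY, Set.ofPred_forall]
    refine isClosed_iInter fun N => isClosed_iInter fun a => isClosed_iInter fun ha =>
      isClosed_iInter fun _ => isClosed_iInter fun v => isClosed_iInter fun _ => ?_
    have hcont : Continuous a := continuous_iff_continuousAt.2 fun z => (ha.1 z).continuousAt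
    exact isClosed_eq (by fun_prop) continuous_const
  have hcl : IsClosed (G : Set (EE g)) := by
    have h1 : (G : Set (EE g)) = ⋂ q ∈ {q | Y q},
        ((fun a => q + a) ⁻¹' {q | Y q} ∩ (fun a => q + -a) ⁻¹' {q | Y q}) := by
      ext a
      simp only [SetLike.mem_coe, hG, Set.mem_iInter, Set.mem_inter_iff, Set.mem_preimage]
      rfl
    rw [h1]
    exact isClosed_biInter fun q _ =>
      (hYc.preimage (by fun_prop)).inter (hYc.preimage (by fun_prop))
  have hΛ : xlatGrp τ ≤ G := by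
    have h1 : ∀ a ∈ xlatGrp τ, ∀ q, Y q → Y (q + a) := by
      rintro _ ⟨m, n, rfl⟩ q hq N a ha h0 v hv
      rw [add_right_comm]
      exact (ha.2 m n _).trans (by rw [hq N a ha h0 v hv, mul_zero])
    exact fun a ha q hq => ⟨h1 a ha q hq, h1 _ ((xlatGrp τ).neg_mem ha) q hq⟩
  have hF : ∀ a, a ∈ (xlatSub G).restrictScalars ℝ ↔ ∀ t : ℝ, t • a ∈ G := fun w => by
    refine ⟨fun h1 t => h1 t, fun h1 => ?_⟩
    have h2 : ∀ (c : ℂ) q, Y q → Y (q + c • w) :=
      fun c q hq N a ha h0 v hv => xlat_real (f := fun c => a (q + c • w + v))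
        (fun c => (ha.1 _).fun_comp (by fun_prop)) (fun t => (h1 t q hq).1 N a ha h0 v hv) c
    exact fun c q hq => ⟨h2 c q hq, by rw [← neg_smul]; exact h2 _ q hq⟩
  have hle : H ≤ xlatSub G := fun w hw c q hq => ⟨fun N a ha h0 v hv => by
      rw [add_assoc]
      exact hq N a ha h0 _ (H.add_mem (H.smul_mem c hw) hv), fun N a ha h0 v hv => by
      rw [add_assoc]
      exact hq N a ha h0 _ (H.add_mem (H.neg_mem (H.smul_mem c hw)) hv)⟩
  have heq : H = xlatSub G := by
    by_contra hne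
    obtain ⟨f, hf, hP⟩ := subm hτ z (xlatSub G) (r := Module.finrank ℂ H + 1)
      (Submodule.finrank_lt_finrank_of_lt (lt_of_le_of_ne hle hne))
    obtain ⟨P, hP0, hz⟩ := h f fun i => by simpa using hf i
    obtain ⟨N, a, ha, t, ht, ht0, e⟩ := Ab.eval hf P
    have hT : ∀ K : Submodule ℂ (EE g), Tendsto (fun v : K => z + (v : EE g)) (𝓝 0) (𝓝 z) :=
      fun K => Continuous.tendsto' (by fun_prop) _ _ (by simp)
    have hv : ∀ᶠ v : H in 𝓝 0, a (z + v) = 0 := by
      filter_upwards [hz, (hT H).eventually e,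
        (hT H).eventually ((ht.1 _).continuousAt.eventually_ne ht0)] with s h1 h2 h3
      rw [h1] at h2
      exact (div_eq_zero_iff.1 h2.symm).resolve_right h3
    have hE := entire_zero (f := fun v : H => a (z + v))
      (fun v => (ha.1 _).comp (analyticAt_const.add (H.subtypeL.analyticAt v))) hv
    refine hP0 (hP P ?_)
    filter_upwards [(hT (xlatSub G)).eventually e] with v h1
    have h2 := (v.2 1 z fun _ _ _ h0 => h0).1 N a ha (fun v hv => congrFun hE ⟨v, hv⟩) 0 H.zero_mem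
    rw [one_smul, add_zero] at h2
    rw [h1, h2, zero_div]
  obtain ⟨r, C, hr⟩ := lat_cover (Siegel_sub hτ)
  rw [heq]
  exact fun a ha => xlat_span G (xlatGrp τ) hcl _ hF hΛ r (fun z => by
    obtain ⟨m, n, h1, -⟩ := hr z
    exact ⟨_, ⟨m, n, rfl⟩, h1⟩) ha

end Pool.Agent.MP_cf0a82_ag

end
end

section

open Complex Filter Topology Matrix Function

noncomputable section

namespace Pool.Agent.MP_cf0a82_ag

open Pool.Agent.MP_f58063_ag

lemma xgnap_per {g : ℕ} {τ : Mat g} {w : EE g} (hw : w ∈ lattice τ) (N : ℕ) (y : EE g) (k : ℕ) :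
    ∃ c : ℂ, c ≠ 0 ∧ ∀ h ∈ Th τ N, h (y + (k : ℂ) • w) = c * h y := by
  obtain ⟨m, n, rfl⟩ := mem_lattice.1 hw
  induction k with
  | zero => exact ⟨1, one_ne_zero, fun h _ => by simp⟩
  | succ k ih =>
    obtain ⟨c, hc, e⟩ := ih
    refine ⟨aut τ n (y + (k : ℂ) • per τ m n) ^ N * c,
      mul_ne_zero (pow_ne_zero _ (aut_ne _ _ _)) hc, fun h hh => ?_⟩
    rw [Nat.cast_succ, add_smul, one_smul, ← add_assoc, hh.2, e h hh, mul_assoc]

lemma xgnap_zero {g d N : ℕ} {τ : Mat g} {z w : EE g} {H : Submodule ℂ (EE g)}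
    {φ : EE g →L[ℂ] ℂ} {h : Fin d → EE g → ℂ} (hh : ∀ j, h j ∈ Th τ N) (hw : w ∈ lattice τ)
    (hH : w ∈ H) (hφ : φ w ≠ 0)
    (h0 : ∀ᶠ v : H in 𝓝 0, ∑ j, h j (z + v) * φ (z + v) ^ (j : ℕ) = 0) (v : H) (j : Fin d) :
    h j (z + v) = 0 := by
  have ha : ∀ u : H, AnalyticAt ℂ (fun u : H => z + u) u := fun u =>
    analyticAt_const.add (H.subtypeL.analyticAt u)
  have hE := entire_zero (f := fun u : H => ∑ j, h j (z + u) * φ (z + u) ^ (j : ℕ))
    (fun u => Finset.analyticAt_fun_sum _ fun j _ =>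
      (((hh j).1 _).comp (ha u)).mul (((φ.analyticAt _).comp (ha u)).pow _)) h0
  refine congrFun (eq_zero_of_forall_index_sum_mul_pow_eq_zero (v := fun j => h j (z + v))
    (f := fun k : Fin d => φ (z + v) + (k : ℕ) * φ w) (fun k l e => ?_) fun k => ?_) j
  · exact Fin.ext (Nat.cast_injective (R := ℂ) (mul_right_cancel₀ hφ (add_left_cancel e)))
  · obtain ⟨c, hc, e⟩ := xgnap_per hw N (z + v) k
    have h1 := congrFun hE (v + ((k : ℕ) : ℂ) • ⟨w, hH⟩)
    simp only [Submodule.coe_add, Submodule.coe_smul, ← add_assoc, e _ (hh _), map_add φ (z + v),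
      map_smul, smul_eq_mul, mul_assoc, ← Finset.mul_sum, Pi.zero_apply] at h1
    exact (mul_eq_zero.1 h1).resolve_left hc

/-- a linear form that is algebraic on an affine subspace kills its periods -/
theorem no_per {g : ℕ} {τ : Mat g} (hτ : τ ∈ Siegel g) (z : EE g) (H : Submodule ℂ (EE g))
    (φ : EE g →L[ℂ] ℂ)
    (h : ∀ f : Fin (Module.finrank ℂ H) → EE g → ℂ, (∀ i, Ab τ z (f i)) →
      ∃ P : MvPolynomial (Option (Fin (Module.finrank ℂ H))) ℂ, P ≠ 0 ∧ ∀ᶠ v : H in 𝓝 0,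
        MvPolynomial.eval (fun o => o.elim (φ (z + v)) fun i => f i (z + v)) P = 0)
    {w : EE g} (hw : w ∈ lattice τ) (hH : w ∈ H) : φ w = 0 := by
  by_contra hφ
  obtain ⟨f, hf, hind⟩ := subm hτ z H le_rfl
  obtain ⟨P, hP, hz⟩ := h f hf
  obtain ⟨Q, hQ⟩ : ∃ Q, Q = MvPolynomial.optionEquivLeft ℂ _ P := ⟨_, rfl⟩
  obtain ⟨N, t, a, ht, h0, ha, e⟩ := Ab_common (ι := Fin (Q.natDegree + 1))
    fun j => Ab.eval hf (Q.coeff j)
  have hc : Tendsto (fun v : H => z + v) (𝓝 0) (𝓝 z) :=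
    Continuous.tendsto' (by fun_prop) _ _ (by simp)
  have e' := hc.eventually (eventually_all.2 e)
  have key := xgnap_zero (z := z) (φ := φ) ha hw hH hφ (by
    filter_upwards [hz, e', hc.eventually (xab_ne ht h0)] with v h1 h2 h3
    rw [MvPolynomial.optionEquivLeft_elim_eval, ← hQ, Polynomial.eval_eq_sum_range'
      (Nat.lt_succ_of_le Polynomial.natDegree_map_le), Finset.sum_range] at h1
    simp only [Polynomial.coeff_map, h2, div_mul_eq_mul_div, ← Finset.sum_div] at h1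
    exact (div_eq_zero_iff.1 h1).resolve_right h3)
  have h1 : Q.leadingCoeff = 0 := hind _ (e'.mono fun v hv => by
    have := hv (Fin.last _)
    simp only [key, zero_div] at this
    exact this)
  rw [Polynomial.leadingCoeff_eq_zero, hQ] at h1
  exact hP ((MvPolynomial.optionEquivLeft ℂ _).map_eq_zero_iff.1 h1)

end Pool.Agent.MP_cf0a82_ag

end
end

section

open Complex Filter Topology Matrix Function

noncomputable section

namespace Pool.Agent.MP_cf0a82_ag

open Pool.Agent.MP_f58063_ag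

variable {X : Type} [NormedAddCommGroup X] [NormedSpace ℂ X] [FiniteDimensional ℂ X] {p : X}

/-- a derivation acts on Nash germs as a combination of directional derivatives -/
lemma xgdep_der {ι : Type} [Fintype ι] (b : Module.Basis ι ℂ X) (w : Der (MG p)) {f : X → ℂ}
    (hf : NashAt f p) :
    ∑ m, w (gm p fun x => b.repr x m) * gm p (dv (b m) f) = w (gm p f) := by
  classical
  let w' : Der (MG p) := w - ∑ m, w (gm p fun x => b.repr x m) • DG p (b m)
  have h1 : ∀ u, w' u = w u - ∑ m, w (gm p fun x => b.repr x m) * DG p (b m) u := fun u => by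
    simp only [w', Derivation.sub_apply, xsnashb_dsum, Derivation.smul_apply, smul_eq_mul]
  have h2 : ∀ u ∈ LA p, w' u = 0 := by
    rw [LA_eq b]
    refine der_adjoin_zero ?_
    rintro _ ⟨i, rfl⟩
    rw [h1]
    simp only [xsnashb_DG, mul_ite, mul_one, mul_zero, Finset.sum_ite_eq', Finset.mem_univ,
      if_true, sub_self]
  have h3 := der_alg_zero _ h2 hf.2
  rw [h1, sub_eq_zero] at h3
  rw [h3]
  exact Finset.sum_congr rfl fun m _ => by rw [DG_gm _ hf.1]

/-- algebraically independent Nash germs have generically independent differentials -/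
theorem nim {κ : Type} [Fintype κ] {f : X → κ → ℂ} (hf : ∀ i, NashAt (fun x => f x i) p)
    (h : ∀ P : MvPolynomial κ ℂ, (∀ᶠ x in 𝓝 p, MvPolynomial.eval (f x) P = 0) → P = 0) :
    ∀ᶠ x in GF p, Surjective (fderiv ℂ f x) := by
  classical
  have h1 : AlgebraicIndependent ℂ fun i => gm p fun x => f x i := by
    refine algebraicIndependent_iff.2 fun P hP => h P ?_
    have h2 := gm_aeval (fun i => (hf i).1) P
    exact (gm_eq_zero h2.2).1 (h2.1.trans hP)
  have h2 : AlgebraicIndependent (⊥ : IntermediateField ℂ (MG p))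
      fun i => gm p fun x => f x i := h1.extendScalars _
  let b := Module.finBasis ℂ X
  have h3 : ∀ j : κ, ∀ᶠ x in GF p, ∃ ξ : Fin (Module.finrank ℂ X) → ℂ, ∀ i,
      ∑ m, ξ m * dv (b m) (fun x => f x i) x = if i = j then 1 else 0 := fun j => by
    obtain ⟨w, -, hw⟩ := der_of_algInd _ h2 fun i => if i = j then 1 else 0
    refine gm_sol (c := fun i m => dv (b m) fun x => f x i)
      (r := fun i _ => if i = j then 1 else 0) (a := fun m => w (gm p fun x => b.repr x m))
      (fun i m => analyticAt_dv (hf i).1 _) (fun i => analyticAt_const) fun i => ?_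
    rw [xgdep_der b w (hf i), hw, gm_const]
    split_ifs <;> simp
  have h4 : ∀ᶠ x in GF p, ∀ i, AnalyticAt ℂ (fun x => f x i) x :=
    GF_le p (eventually_all.2 fun i => (hf i).1.eventually_analyticAt)
  filter_upwards [eventually_all.2 h3, h4] with x hx hx' y
  choose ξ hξ using hx
  refine ⟨∑ j, y j • ∑ m, ξ j m • b m, funext fun i => ?_⟩
  have h5 : ∀ v, fderiv ℂ f x v i = fderiv ℂ (fun x => f x i) x v := fun v => by
    rw [fderiv_pi fun i => (hx' i).differentiableAt]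
    rfl
  rw [h5]
  simp only [map_sum, map_smul, smul_eq_mul]
  simp only [dv] at hξ
  simp only [hξ, mul_ite, mul_one, mul_zero, Finset.sum_ite_eq, Finset.mem_univ, if_true]

/-- too many Nash germs are algebraically dependent -/
theorem nash_dep {κ : Type} [Fintype κ] {f : X → κ → ℂ} (hf : ∀ i, NashAt (fun x => f x i) p)
    (h : Module.finrank ℂ X < Fintype.card κ) :
    ∃ P : MvPolynomial κ ℂ, P ≠ 0 ∧ ∀ᶠ x in 𝓝 p, MvPolynomial.eval (f x) P = 0 := by
  by_contra hc
  have := GF_neBot p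
  obtain ⟨x, hx⟩ := (nim hf fun P hP => by_contra fun h0 => hc ⟨P, h0, hP⟩).exists
  have h1 := LinearMap.finrank_le_finrank_of_surjective
    (f := (fderiv ℂ f x : X →ₗ[ℂ] κ → ℂ)) hx
  rw [Module.finrank_pi] at h1
  omega

omit [FiniteDimensional ℂ X] in
lemma xgdep_LB {D : Type} [NormedAddCommGroup D] [NormedSpace ℂ D] {q : D × X} {m : MG q}
    (hm : m ∈ LB q) : ∃ A : D × X → ℂ, AnalyticAt ℂ A q ∧ gm q A = m ∧
      ∀ (e : D × X) (ζ : X), NashAt (fun s : ℂ => A (e.1, e.2 + s • ζ)) 0 := by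
  induction hm using Algebra.adjoin_induction with
  | mem x hx =>
    rcases hx with ⟨l, rfl⟩ | ⟨h, hh, rfl⟩
    · refine ⟨l, l.analyticAt q, rfl, fun e ζ => ?_⟩
      have h1 : (fun s : ℂ => l (e.1, e.2 + s • ζ)) =
          fun s => l e + ContinuousLinearMap.id ℂ ℂ s * l (0, ζ) := funext fun s => by
        rw [ContinuousLinearMap.id_apply, ← smul_eq_mul, ← map_smul, ← map_add]
        congr 1
        ext <;> simp
      rw [h1]
      exact (NashAt.const _ _).add ((NashAt.clm _ _).mul (NashAt.const _ _))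
    · exact ⟨fun e => h e.1, AnalyticAt.comp (f := Prod.fst) hh analyticAt_fst, rfl,
        fun e _ => NashAt.const (h e.1) _⟩
  | algebraMap c => exact ⟨fun _ => c, analyticAt_const, gm_const q c, fun _ _ => NashAt.const c _⟩
  | add x y _ _ hx hy =>
    obtain ⟨A, h1, rfl, h2⟩ := hx
    obtain ⟨B, h3, rfl, h4⟩ := hy
    exact ⟨fun e => A e + B e, h1.add h3, gm_add h1 h3, fun e ζ => (h2 e ζ).add (h4 e ζ)⟩
  | mul x y _ _ hx hy =>
    obtain ⟨A, h1, rfl, h2⟩ := hx
    obtain ⟨B, h3, rfl, h4⟩ := hy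
    exact ⟨fun e => A e * B e, h1.mul h3, gm_mul h1 h3, fun e ζ => (h2 e ζ).mul (h4 e ζ)⟩

/-- germs algebraic over the functions of the base are Nash on the fibres -/
theorem restrict_nash {D : Type} [NormedAddCommGroup D] [NormedSpace ℂ D] {q : D × X}
    {f : D × X → ℂ} (hf : AnalyticAt ℂ f q) (h : IsAlgebraic (LB q) (gm q f)) :
    ∀ᶠ e in GF q, ∀ ζ : X, NashAt (fun s : ℂ => f (e.1, e.2 + s • ζ)) 0 := by
  obtain ⟨P, hP, h0⟩ := h
  choose A hA hA' hA'' using fun j : ℕ => xgdep_LB (P.coeff j).2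
  have h1 : ∀ j : Fin (P.natDegree + 1), AnalyticAt ℂ (fun x => A j x * f x ^ (j : ℕ)) q :=
    fun j => (hA j).mul (hf.pow _)
  have h2 : ∀ᶠ x in 𝓝 q, ∑ j : Fin (P.natDegree + 1), A j x * f x ^ (j : ℕ) = 0 := by
    rw [← gm_eq_zero (Finset.analyticAt_fun_sum _ fun j _ => h1 j), gm_sum _ fun j _ => h1 j, ← h0,
      Polynomial.aeval_eq_sum_range, Finset.sum_range]
    refine Finset.sum_congr rfl fun j _ => ?_
    rw [gm_mul (f' := fun x => f x ^ (j : ℕ)) (hA j) (hf.pow _), xbnashd_pow hf, hA']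
    rfl
  refine eventually_GF.2 ⟨A P.natDegree, hA _, ?_, ?_⟩
  · rw [hA']
    exact fun e => Polynomial.leadingCoeff_ne_zero.2 hP (Subtype.ext e)
  filter_upwards [h2.eventually_nhds, hf.eventually_analyticAt] with e h3 h4 h5 ζ
  have h6 : AnalyticAt ℂ (fun s : ℂ => ((e.1, e.2 + s • ζ) : D × X)) 0 :=
    analyticAt_const.prod (analyticAt_const.add (analyticAt_id.smul analyticAt_const))
  have h7 : ((e.1, e.2 + (0 : ℂ) • ζ) : D × X) = e := by simp
  have h8 : Tendsto (fun s : ℂ => ((e.1, e.2 + s • ζ) : D × X)) (𝓝 0) (𝓝 e) := by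
    have := h6.continuousAt.tendsto
    rwa [h7] at this
  refine nash_of_coef (D := P.natDegree) (A := fun j s => A j (e.1, e.2 + s • ζ))
    (t := fun _ => 1) (AnalyticAt.comp_of_eq h4 h6 h7) (fun j => (hA'' j e ζ).1) analyticAt_const
    (by rw [gm_const, map_one]; exact one_ne_zero) (fun j => ?_) ⟨Fin.last _, fun h9 => h5 ?_⟩
    (h8.eventually h3)
  · rw [gm_const, map_one, div_one]
    exact (hA'' j e ζ).2
  · have := ((gm_eq_zero (hA'' _ e ζ).1).1 h9).self_of_nhds
    rwa [h7] at this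

end Pool.Agent.MP_cf0a82_ag

end
end

section

open Complex Filter Topology Matrix Function

noncomputable section

namespace Pool.Agent.MP_cf0a82_ag

open Pool.Agent.MP_f58063_ag

/-- the theorem of Ax for abelian varieties, in the form that is needed -/
theorem napst {g : ℕ} {τ : Mat g} (hτ : τ ∈ Siegel g) {γ : ℂ → EE g} (hγ : NA τ γ 0)
    {κ : Type} [Finite κ] (φ : κ → EE g →L[ℂ] ℂ) (h : ∀ i, NashAt (fun s => φ i (γ s)) 0) :
    deriv γ 0 ∈ Submodule.span ℝ {w | w ∈ lattice τ ∧ ∀ i, φ i w = 0} := by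
  obtain ⟨r, hr, hB⟩ := Metric.eventually_nhds_iff_ball.1
    ((hγ.eventually hτ).and (eventually_all.2 fun i => nash_ev (h i)))
  have hA : ∀ t ∈ Metric.ball (0 : ℂ) r, AnalyticAt ℂ γ t := fun t ht => (hB t ht).1.1
  obtain ⟨H, hH⟩ : ∃ H, H = Submodule.span ℂ (deriv γ '' Metric.ball 0 r) := ⟨_, rfl⟩
  obtain ⟨b, hb1, hb2⟩ : ∃ b : Fin (Module.finrank ℂ H) → EE g,
      (∀ i, b i ∈ deriv γ '' Metric.ball 0 r) ∧ Submodule.span ℂ (Set.range b) = H := by
    subst hH
    exact (Submodule.exists_fun_fin_finrank_span_eq ℂ _).imp fun _ hb => ⟨hb.1, hb.2.1⟩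
  have hmem : ∀ t ∈ Metric.ball (0 : ℂ) r, deriv γ t ∈ H := fun t ht =>
    hH ▸ Submodule.subset_span ⟨t, ht, rfl⟩
  choose t ht hbt using hb1
  have hS : ∀ i, AnalyticAt ℂ (fun s : ℂ => t i + s) 0 := fun i =>
    analyticAt_const.add analyticAt_id
  have hP : ∀ i, AnalyticAt ℂ (fun s : Fin (Module.finrank ℂ H) → ℂ => t i + s i) 0 := fun i =>
    analyticAt_const.add ((ContinuousLinearMap.proj (R := ℂ) (φ := fun _ => ℂ) i).analyticAt 0)
  have hN : ∀ i (l : ℂ →L[ℂ] ℂ),
      NashAt (fun s : Fin (Module.finrank ℂ H) → ℂ => l (t i + s i)) 0 := fun i l => by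
    simp only [map_add]
    exact (NashAt.const _ _).add
      (NashAt.clm (l.comp (ContinuousLinearMap.proj (R := ℂ) (φ := fun _ => ℂ) i)) 0)
  have hY : NA τ (fun s : Fin (Module.finrank ℂ H) → ℂ => ∑ i, γ (t i + s i)) 0 :=
    NA.sum hτ _ fun i _ => NA.comp (φ := fun s : Fin (Module.finrank ℂ H) → ℂ => t i + s i)
      (by simpa using (hB _ (ht i)).1) (hP i) (hN i)
  have hφ : ∀ j, NashAt (fun s : Fin (Module.finrank ℂ H) → ℂ => φ j (∑ i, γ (t i + s i))) 0 :=
    fun j => by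
      simp only [map_sum]
      exact NashAt.sum _ fun i _ => NashAt.comp (f := fun s => φ j (γ s))
        (φ := fun s : Fin (Module.finrank ℂ H) → ℂ => t i + s i)
        (by simpa using (hB _ (ht i)).2 j) (hP i) (hN i)
  have key : ∀ {ι : Type} [Fintype ι] (f : ι → EE g → ℂ),
      (∀ o, NashAt (fun s : Fin (Module.finrank ℂ H) → ℂ => f o (∑ i, γ (t i + s i))) 0) →
      Module.finrank ℂ H < Fintype.card ι → ∃ P : MvPolynomial ι ℂ, P ≠ 0 ∧ ∀ᶠ v : H in 𝓝 0,
        MvPolynomial.eval (fun o => f o (∑ i, γ (t i + 0) + v)) P = 0 := by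
    intro ι _ f hf hc
    obtain ⟨P, hP0, hz⟩ := nash_dep (f := fun (s : Fin (Module.finrank ℂ H) → ℂ) o =>
      f o (∑ i, γ (t i + s i))) hf (by simpa using hc)
    refine ⟨P, hP0, xcurve_onto (c := fun i s => γ (t i + s)) (H := H)
      (p := fun z => MvPolynomial.eval (fun o => f o z) P = 0)
      (fun i => (hA _ (ht i)).comp_of_eq (hS i) (add_zero _)) ?_ (fun i => ?_) hz⟩
    · have : (fun i => deriv (fun s => γ (t i + s)) 0) = b := by
        funext i
        rw [deriv_comp_const_add, add_zero, hbt]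
      rw [this, hb2]
    · have h1 : Tendsto (fun s : ℂ => t i + s) (𝓝 0) (𝓝 (t i)) := by
        simpa using (hS i).continuousAt.tendsto
      filter_upwards [h1.eventually (Metric.isOpen_ball.mem_nhds (ht i))] with s hs
      rw [add_zero]
      exact xcurve_sub_mem hA hmem hs (ht i)
  refine Submodule.span_mono (s := lattice τ ∩ H) (fun w hw => And.intro hw.1 fun j => ?_)
    (sub_torus hτ (∑ i, γ (t i + 0)) H (fun f hf => ?_) (hmem 0 (Metric.mem_ball_self hr)))
  · refine no_per hτ (∑ i, γ (t i + 0)) H (φ j) (fun f hf => ?_) hw.1 hw.2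
    obtain ⟨P, hP0, hz⟩ := key (fun o : Option (Fin (Module.finrank ℂ H)) => o.elim (φ j) f)
      (by
        rintro (_ | i)
        · exact hφ j
        · exact hY.2 _ (hf i)) (by simp)
    refine ⟨P, hP0, hz.mono fun v hv => Eq.trans ?_ hv⟩
    congr 2
    funext o
    cases o <;> rfl
  · exact key f (fun i => hY.2 _ (by simpa using hf i)) (by simp)

end Pool.Agent.MP_cf0a82_ag

end
end
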