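import Pool.Agent.Mg.Fcf0a82q.G40f606
import Pool.Agent.Mg.Fcf0a82q.G6d303b
import Pool.Agent.Mg.Fcf0a82q.Gff7211
import Pool.Agent.Mg.Fcf0a82q.G3d2c3a
import Pool.Agent.Mg.Fcf0a82q.G43ea66
import Pool.Agent.Mg.Fcf0a82q.G9185b4
import Pool.Agent.Mg.Fcf0a82q.Gb5be87
import Pool.Agent.Mg.Fcf0a82q.G349431

section

open Complex Filter Topology Matrix Function

noncomputable section

namespace Pool.Agent.MP_cf0a82_ag

open Pool.Agent.MP_f58063_ag

variable {g k : ℕ}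

theorem xfcount_D (T : DD g →ₗ[ℂ] Mat g) (hT : ∀ ξ, IsSy (T ξ)) {ν : Fin 2 → EE g} (hν : ν ≠ 0) :
    ∃ D : Submodule ℂ (DD g), (∀ ξ ∈ D, ∀ b, mv (T ξ) (ν b) = 0) ∧
      NN g + 1 ≤ Module.finrank ℂ D + 2 * g := by
  let G : DD g →ₗ[ℂ] EE g × EE g :=
    { toFun := fun ξ => (mv (T ξ) (ν 0), mv (T ξ) (ν 1))
      map_add' := fun _ _ => by ext i <;> simp [mv, add_mul, Finset.sum_add_distrib]
      map_smul' := fun _ _ => by ext i <;> simp [mv, Finset.mul_sum, mul_assoc] }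
  refine ⟨LinearMap.ker G, fun ξ hξ b => ?_, ?_⟩
  · have h := Prod.ext_iff.1 (LinearMap.mem_ker.1 hξ)
    fin_cases b
    exacts [h.1, h.2]
  have h1 : LinearMap.range G ≠ ⊤ := fun h => hν <| by
    have h2 : ∀ y : EE g × EE g, ν 1 ⬝ᵥ y.1 = ν 0 ⬝ᵥ y.2 := fun y => by
      obtain ⟨ξ, rfl⟩ := LinearMap.range_eq_top.1 h y
      show ν 1 ⬝ᵥ mv (T ξ) (ν 0) = ν 0 ⬝ᵥ mv (T ξ) (ν 1)
      simp only [dotProduct, mv, Finset.mul_sum]
      rw [Finset.sum_comm]
      exact Finset.sum_congr rfl fun i _ => Finset.sum_congr rfl fun j _ => by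
        rw [hT ξ i j]; ring
    funext b i
    fin_cases b
    · simpa using (h2 (0, Pi.single i 1)).symm
    · simpa using h2 (Pi.single i 1, 0)
  have h2 := Submodule.finrank_lt h1
  have h3 := LinearMap.finrank_range_add_finrank_ker G
  simp only [Module.finrank_prod, Module.finrank_fintype_fun_eq_card, Fintype.card_fin] at h2 h3
  omega

theorem xfcount_W {x : Fin 2 → Fin k → ℂ} (hx : x ≠ 0) (hs : ∀ b, ∑ l, x b l = 0) :
    ∃ W : Submodule ℂ (Fin 2 → Fin k → ℂ), (∀ w, (∀ b, ∑ l, w b l = 0) →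
      ∑ l, (w 0 l * x 1 l - w 1 l * x 0 l) = 0 → w ∈ W) ∧ Module.finrank ℂ W + 3 = 2 * k := by
  let Φ : (Fin 2 → Fin k → ℂ) →ₗ[ℂ] ℂ × ℂ × ℂ :=
    { toFun := fun w => (∑ l, w 0 l, ∑ l, w 1 l, ∑ l, (w 0 l * x 1 l - w 1 l * x 0 l))
      map_add' := fun _ _ => by
        simp only [Pi.add_apply, Prod.mk_add_mk, ← Finset.sum_add_distrib]
        congr 3
        funext l
        ring
      map_smul' := fun _ _ => by
        simp [Finset.mul_sum, mul_sub, mul_assoc] }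
  refine ⟨LinearMap.ker Φ, fun w h1 h2 => Prod.ext (h1 0) (Prod.ext (h1 1) h2), ?_⟩
  have h1 : LinearMap.range Φ = ⊤ := by
    by_contra h
    obtain ⟨f, hf0, hf⟩ := Submodule.exists_le_ker_of_lt_top _ (lt_top_iff_ne_top.2 h)
    have e : ∀ a b c : ℂ, f (a, b, c) = a * f (1, 0, 0) + b * f (0, 1, 0) + c * f (0, 0, 1) := by
      intro a b c
      simp only [← smul_eq_mul, ← map_smul, ← map_add]
      simp
    have e0 : ∀ l, f (1, 0, 0) + x 1 l * f (0, 0, 1) = 0 := fun l => by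
      have := hf ⟨Pi.single 0 (Pi.single l 1), rfl⟩
      rw [LinearMap.mem_ker] at this
      have h2 := (e _ _ _).symm.trans this
      simpa [Pi.single_apply] using h2
    have e1 : ∀ l, f (0, 1, 0) - x 0 l * f (0, 0, 1) = 0 := fun l => by
      have := hf ⟨Pi.single 1 (Pi.single l 1), rfl⟩
      rw [LinearMap.mem_ker] at this
      have h2 := (e _ _ _).symm.trans this
      simpa [Pi.single_apply, sub_eq_add_neg] using h2
    have hk : (k : ℂ) ≠ 0 := by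
      rintro h
      obtain rfl : k = 0 := by exact_mod_cast h
      exact hx (Subsingleton.elim _ _)
    have s0 := Finset.sum_congr rfl fun l (_ : l ∈ Finset.univ) => e0 l
    have s1 := Finset.sum_congr rfl fun l (_ : l ∈ Finset.univ) => e1 l
    simp [Finset.sum_add_distrib, ← Finset.sum_mul, hs, hk] at s0 s1
    have s2 : f (0, 0, 1) = 0 := by
      by_contra h
      refine hx (funext fun b => funext fun l => ?_)
      fin_cases b
      · simpa [s1, h] using e1 l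
      · simpa [s0, h] using e0 l
    exact hf0 (LinearMap.ext fun y => by rw [e y.1 y.2.1 y.2.2, s0, s1, s2]; simp)
  have h3 := LinearMap.finrank_range_add_finrank_ker Φ
  rw [h1] at h3
  simp [Module.finrank_pi_fintype] at h3
  omega

theorem xfcount_num (g : ℕ) : 4 * g ≤ NN g + 6 := by
  have h : 8 * g ≤ g * (g + 1) + 12 := by
    rcases le_total g 3 with h | h
    · interval_cases g <;> norm_num
    · rcases h.eq_or_lt with rfl | h
      · norm_num
      · obtain ⟨n, rfl⟩ := Nat.exists_eq_add_of_lt h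
        nlinarith
  unfold NN
  omega

/-- the dimension count -/
theorem count {Z : Type} [AddCommGroup Z] [Module ℂ Z] [FiniteDimensional ℂ Z] {ρ : ℕ}
    (T : DD g →ₗ[ℂ] Mat g) (hT : ∀ ξ, IsSy (T ξ)) {ν : Fin 2 → EE g} (hν : ν ≠ 0)
    (F : DD g × Z →ₗ[ℂ] Fin 2 → Fin k → ℂ) (u : Z) (hu : F (0, u) ≠ 0)
    (h1 : ∀ ξ : DD g × Z, (∀ b, mv (T ξ.1) (ν b) = 0) → ∀ b, ∑ l, F ξ b l = 0)
    (h2 : ∀ ξ : DD g × Z, (∀ b, mv (T ξ.1) (ν b) = 0) →
      ∑ l, (F ξ 0 l * F (0, u) 1 l - F ξ 1 l * F (0, u) 0 l) = 0)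
    (hρ : ρ ≤ rk (F ∘ₗ LinearMap.inr ℂ (DD g) Z)) (hc : 2 * k + 2 * g ≤ NN g + ρ + 3) :
    ∃ ξ : DD g × Z, (∀ b, mv (T ξ.1) (ν b) = 0) ∧ F ξ = 0 ∧ ξ.1 ≠ 0 := by
  have h0 : ∀ b, mv (T (0, u).1) (ν b) = 0 := fun b => by
    funext i
    simp [mv]
  obtain ⟨D, hD, hD'⟩ := xfcount_D T hT hν
  obtain ⟨W, hW, hW'⟩ := xfcount_W hu (h1 _ h0)
  by_contra hn
  let F' : D × Z →ₗ[ℂ] Fin 2 → Fin k → ℂ := F ∘ₗ D.subtype.prodMap LinearMap.id
  have a1 : LinearMap.range F' ≤ W := by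
    rintro _ ⟨ξ, rfl⟩
    exact hW _ (h1 _ (hD _ ξ.1.2)) (h2 _ (hD _ ξ.1.2))
  have a2 : LinearMap.ker F' ≤
      (LinearMap.ker (F ∘ₗ LinearMap.inr ℂ (DD g) Z)).map (LinearMap.inr ℂ D Z) := by
    rintro ⟨ξ, z⟩ h
    obtain rfl : ξ = 0 := by
      by_contra h'
      exact hn ⟨(ξ, z), hD _ ξ.2, h, fun e => h' (Subtype.ext e)⟩
    exact ⟨z, h, rfl⟩
  have a3 := Submodule.finrank_mono a1
  have a4 := (Submodule.finrank_mono a2).trans (Submodule.finrank_map_le _ _)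
  have a5 := LinearMap.finrank_range_add_finrank_ker F'
  have a6 := LinearMap.finrank_range_add_finrank_ker (F ∘ₗ LinearMap.inr ℂ (DD g) Z)
  rw [Module.finrank_prod] at a5
  unfold rk at hρ
  omega

/-- vanishing power sums -/
theorem newton {r : Fin k → ℂ} (h : ∀ n, 1 ≤ n → n ≤ k → ∑ l, r l ^ n = 0) : r = 0 := by
  classical
  by_contra hr
  obtain ⟨j, hj⟩ := Function.ne_iff.1 hr
  let S := (Finset.univ.image r).erase (r j)
  have hd : (Lagrange.nodal S id).natDegree < k := by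
    rw [Lagrange.natDegree_nodal]
    exact (Finset.card_erase_lt_of_mem (Finset.mem_image_of_mem r (Finset.mem_univ j))).trans_le
      (Finset.card_image_le.trans (by simp))
  have h1 : ∑ l, r l * (Lagrange.nodal S id).eval (r l) = 0 := by
    simp only [Polynomial.eval_eq_sum_range' hd, Finset.mul_sum]
    rw [Finset.sum_comm]
    refine Finset.sum_eq_zero fun i hi => ?_
    have := h (i + 1) (by omega) (Finset.mem_range.1 hi)
    rw [← mul_zero ((Lagrange.nodal S id).coeff i), ← this, Finset.mul_sum]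
    exact Finset.sum_congr rfl fun l _ => by ring
  have h2 : ∀ l, r l * (Lagrange.nodal S id).eval (r l) =
      if r l = r j then r j * (Lagrange.nodal S id).eval (r j) else 0 := fun l => by
    split_ifs with e
    · rw [e]
    · have : r l ∈ S := Finset.mem_erase.2 ⟨e, Finset.mem_image_of_mem r (Finset.mem_univ l)⟩
      rw [show (Lagrange.nodal S id).eval (r l) = 0 from Lagrange.eval_nodal_at_node (v := id) this,
        mul_zero]
  rw [Finset.sum_congr rfl fun l _ => h2 l, ← Finset.sum_filter, Finset.sum_const,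
    nsmul_eq_mul] at h1
  refine mul_ne_zero (Nat.cast_ne_zero.2 (Finset.card_pos.2 ⟨j, by simp⟩).ne')
    (mul_ne_zero hj (Lagrange.eval_nodal_not_at_node fun v hv => ?_)) h1
  exact (Finset.mem_erase.1 hv).1.symm

theorem count_one (h : k + 1 ≤ g) : 2 * k + 2 * g ≤ NN g + 1 + 3 := by
  have := xfcount_num g
  omega

theorem count_three : 2 * g + 2 * g ≤ NN g + 3 + 3 := by
  have := xfcount_num g
  omega

end Pool.Agent.MP_cf0a82_ag

end
end

section

open Complex Filter Topology Matrix Function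

noncomputable section

namespace Pool.Agent.MP_cf0a82_ag

open Pool.Agent.MP_f58063_ag

variable {g : ℕ} (B : Box g) {Z : Type} [NormedAddCommGroup Z] [NormedSpace ℂ Z]
  [FiniteDimensional ℂ Z]

omit [FiniteDimensional ℂ Z] in
lemma xfzar2_repr {m : ℕ} (b : Module.Basis (Fin m) ℂ Z) (e : DD g × Z) :
    (fun i => ((Pi.basisFun ℂ (Fin (NN g))).prod b).repr e i) =
      Sum.elim e.1 (b.equivFun e.2) := by
  funext i
  rcases i with i | i <;> simp

lemma xfzar2_comp {f : Mat g → ℂ} (hf : Mer (Om B.c₀ B.cs) f) {x : DD g} (hx : x ∈ B.ball) :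
    AnalyticAt ℂ (fun x => f (B.ψ x)) x :=
  AnalyticAt.comp (xsfr_an hf (B.mem x hx).2.1) (B.ψ_an hx)

/-- relations between the coordinates and the frame are stable under the symplectic group -/
theorem Box.zar {m : ℕ} (b : Module.Basis (Fin m) ℂ Z) {p : DD g × Z} (hp : p.1 ∈ B.ball)
    (R : MvPolynomial ((Fin (NN g) ⊕ Fin m) ⊕ LL g × LL g) ℂ)
    (h : ∀ᶠ e in 𝓝 p, MvPolynomial.eval
      (Sum.elim (fun i => ((Pi.basisFun ℂ (Fin (NN g))).prod b).repr e i)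
        fun a => B.P (B.ψ e.1) a.1 a.2) R = 0) :
    ∀ᶠ e in 𝓝 p, ∀ M ∈ symplecticGroup (Fin g) ℂ, MvPolynomial.eval
      (Sum.elim (fun i => ((Pi.basisFun ℂ (Fin (NN g))).prod b).repr e i)
        fun a => (M * B.P (B.ψ e.1)) a.1 a.2) R = 0 := by
  simp only [xfzar2_repr] at h ⊢
  have hN := B.hN
  have c1 : Continuous fun e : DD g × Z => (e.1, b.equivFun e.2) :=
    continuous_fst.prodMk (b.equivFunL.continuous.comp continuous_snd)
  have c2 : Continuous fun e : DD g × (Fin m → ℂ) => (e.1, b.equivFun.symm e.2) :=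
    continuous_fst.prodMk (b.equivFunL.symm.continuous.comp continuous_snd)
  have t2 : Tendsto (fun e : DD g × (Fin m → ℂ) => (e.1, b.equivFun.symm e.2))
      (𝓝 (p.1, b.equivFun p.2)) (𝓝 p) := c2.tendsto' _ _ (by simp)
  have h2 := Pool.Agent.MP_f58063_ag.zar (isMfd_siegel g) subset_rfl (bigMon_siegel g)
    (Gam_finiteIndex g (M := 2 * B.N ^ 2) (by positivity)) (isOpen_Om B.c₀ B.cs)
    (Om_sub B.c₀ B.cs) (fun γ hγ τ hτ => (jet_act hN hγ hτ.1 B.h0 B.hs hτ.2).1)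
    (y := fun i => yq B.c₀ (B.yc i)) (fun i => Mod_yq hN B.h0 B.hs (B.hy i)) (Mer_Pf B.c₀ B.cs)
    (fun γ hγ τ hτ => (jet_act hN hγ hτ.1 B.h0 B.hs hτ.2).2.2.2) B.an
    (B.cov _ (Metric.mem_ball_self B.hr)) B.mem (p := (p.1, b.equivFun p.2)) hp R
    ((t2.eventually h).mono fun e he => by
      simp only [LinearEquiv.apply_symm_apply] at he
      exact he)
  exact (c1.tendsto p).eventually h2

/-- no curve of the chart is algebraic together with its periods and quasi-periods -/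
theorem Box.no_curve {σ : ℂ → DD g} {t₀ : ℂ} {u : Fin g → ℤ} (h0 : σ t₀ ∈ B.ball)
    (hσ : AnalyticAt ℂ σ t₀) (hu : ∀ᶠ t in 𝓝 t₀, qf (Matrix.of (B.ψ (σ t))) u = t)
    (hτ : ∀ a c, NashAt (fun t => B.ψ (σ t) a c) t₀)
    (hψ : ∀ a c, NashAt (fun t => ψf B.c₀ (B.ψ (σ t)) a c) t₀)
    (hy : ∀ ε, NashAt (fun t => yq B.c₀ (hc ε) (B.ψ (σ t))) t₀) : False := by
  refine no_frame_curve (τ := fun t => B.ψ (σ t)) (u := u) hτ ?_ (B.mem _ h0).2.1.2.1 hψ hy
  filter_upwards [hu, hσ.continuousAt.eventually (B.isOpen_ball.mem_nhds h0)] with t h1 h2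
  exact ⟨B.sieg h2, h1⟩

theorem Box.V_an {x : DD g} (hx : x ∈ B.ball) (a c : Fin g) :
    AnalyticAt ℂ (fun x => Vf B.c₀ B.cs (B.ψ x) a c) x := by
  exact xfzar2_comp B (Mer_Vf B.c₀ B.cs a c) hx

theorem Box.ψf_an {x : DD g} (hx : x ∈ B.ball) (a c : Fin g) :
    AnalyticAt ℂ (fun x => ψf B.c₀ (B.ψ x) a c) x := by
  exact xfzar2_comp B (Mer_ψf B.c₀ B.cs a c) hx

theorem Box.P_an {x : DD g} (hx : x ∈ B.ball) (a c : LL g) :
    AnalyticAt ℂ (fun x => B.P (B.ψ x) a c) x := by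
  exact xfzar2_comp B (Mer_Pf B.c₀ B.cs a c) hx

theorem Box.V_det {x : DD g} (hx : x ∈ B.ball) : (Vf B.c₀ B.cs (B.ψ x)).det ≠ 0 := by
  exact (B.mem x hx).2.1.2.2

end Pool.Agent.MP_cf0a82_ag

end
end

section

open Complex Filter Topology Matrix Function

noncomputable section

namespace Pool.Agent.MP_cf0a82_ag

open Pool.Agent.MP_f58063_ag

variable {g k : ℕ} (B : Box g) {Z : Type} [NormedAddCommGroup Z] [NormedSpace ℂ Z]

/-- the parameter space together with two classes -/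
abbrev E2 (g : ℕ) (Z : Type) : Type := DD g × Z × (Fin 2 → EE g)

/-- the classes in the standard frame -/
def Box.nu (e : E2 g Z) (b : Fin 2) : EE g := Vf B.c₀ B.cs (B.ψ e.1) *ᵥ e.2.2 b

/-- the matrix of the lifts of the points -/
def Box.Um (j : Fin k → Fin B.nJ) (z : DD g × Z → Fin k → EE g) (e : E2 g Z) :
    Matrix (LL g) (Fin k) ℂ :=
  Matrix.of fun i l => Uf (B.φ (j l)) (B.ψ e.1) (z (e.1, e.2.1) l) i

variable (j : Fin k → Fin B.nJ) {z : DD g × Z → Fin k → EE g} {e : E2 g Z}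

lemma xfaxa_sum {X ι : Type} [NormedAddCommGroup X] [NormedSpace ℂ X] [Fintype ι]
    {f h : ι → X → ℂ} {x : X} (hf : ∀ i, DifferentiableAt ℂ (f i) x)
    (hh : ∀ i, DifferentiableAt ℂ (h i) x) (ξ : X) :
    fderiv ℂ (fun y => ∑ i, f i y * h i y) x ξ =
      ∑ i, (fderiv ℂ (f i) x ξ * h i x + f i x * fderiv ℂ (h i) x ξ) := by
  rw [fderiv_fun_sum fun i _ => (hf i).fun_mul (hh i), _root_.sum_apply]
  refine Finset.sum_congr rfl fun i _ => ?_
  rw [fderiv_fun_mul (hf i) (hh i)]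
  simp only [_root_.add_apply, _root_.smul_apply, smul_eq_mul]
  ring

lemma xfaxa_comp {X Y m n : Type} [NormedAddCommGroup X] [NormedSpace ℂ X] [NormedAddCommGroup Y]
    [NormedSpace ℂ Y] [Fintype m] [Fintype n] (L : X →L[ℂ] Y) {f : Y → m → n → ℂ} {x : X}
    (hf : AnalyticAt ℂ f (L x)) (a : m) (c : n) :
    DifferentiableAt ℂ (fun y => f (L y) a c) x ∧
      ∀ ξ, fderiv ℂ (fun y => f (L y) a c) x ξ = fderiv ℂ f (L x) (L ξ) a c := by
  have h := ((ContinuousLinearMap.proj c).comp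
    (ContinuousLinearMap.proj (R := ℂ) (φ := fun _ : m => n → ℂ) a)).hasFDerivAt.comp x
      (hf.differentiableAt.hasFDerivAt.comp x L.hasFDerivAt)
  exact ⟨h.differentiableAt, fun ξ => congrArg (fun L => L ξ) h.fderiv⟩

lemma xfaxa_ψ (he : e.1 ∈ B.ball) (a c : Fin g) :
    DifferentiableAt ℂ (fun e : E2 g Z => B.ψ e.1 a c) e ∧
      ∀ ξ, fderiv ℂ (fun e : E2 g Z => B.ψ e.1 a c) e ξ = fderiv ℂ B.ψ e.1 ξ.1 a c :=
  xfaxa_comp (ContinuousLinearMap.fst ℂ (DD g) (Z × (Fin 2 → EE g))) (B.ψ_an he) a c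

lemma xfaxa_z (hz : AnalyticAt ℂ z (e.1, e.2.1)) (l : Fin k) (i : Fin g) :
    DifferentiableAt ℂ (fun e : E2 g Z => z (e.1, e.2.1) l i) e ∧
      ∀ ξ, fderiv ℂ (fun e : E2 g Z => z (e.1, e.2.1) l i) e ξ =
        fderiv ℂ z (e.1, e.2.1) (ξ.1, ξ.2.1) l i :=
  xfaxa_comp ((ContinuousLinearMap.id ℂ (DD g)).prodMap
    (ContinuousLinearMap.fst ℂ Z (Fin 2 → EE g))) hz l i

lemma xfaxa_q (e : E2 g Z) (b : Fin 2) (c : Fin g) :
    AnalyticAt ℂ (fun e : E2 g Z => e.2.2 b c) e ∧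
      ∀ ξ, fderiv ℂ (fun e : E2 g Z => e.2.2 b c) e ξ = ξ.2.2 b c := by
  let L : E2 g Z →L[ℂ] ℂ := ((ContinuousLinearMap.proj c).comp
    (ContinuousLinearMap.proj (R := ℂ) (φ := fun _ : Fin 2 => EE g) b)).comp
      ((ContinuousLinearMap.snd ℂ Z (Fin 2 → EE g)).comp (ContinuousLinearMap.snd ℂ (DD g) _))
  exact ⟨L.analyticAt e, fun ξ => congrArg (fun L => L ξ) L.fderiv⟩

theorem Box.nu_an (he : e.1 ∈ B.ball) : AnalyticAt ℂ B.nu e := by
  refine analyticAt_pi_iff.2 fun b => analyticAt_pi_iff.2 fun a => ?_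
  simp only [Box.nu, mulVec, dotProduct]
  exact Finset.analyticAt_fun_sum _ fun c _ =>
    ((B.V_an he a c).comp_of_eq analyticAt_fst rfl).mul (xfaxa_q e b c).1

theorem Box.mu_eq (e : E2 g Z) (b : Fin 2) : mu (B.P (B.ψ e.1)) (e.2.2 b) =
    Sum.elim (mv (B.ψ e.1) (B.nu e b)) (B.nu e b) := by
  rw [mu, Box.P, Pf, Pm, fromBlocks_mulVec]
  simp only [Sum.elim_comp_inl, Sum.elim_comp_inr, mulVec_zero, zero_add, ← mulVec_mulVec]
  rfl

theorem Box.fb_eq (he : e.1 ∈ B.ball) (b : Fin 2) (l : Fin k) :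
    fb (B.P (B.ψ e.1)) (B.Um j z e) (e.2.2 b) l = B.nu e b ⬝ᵥ z (e.1, e.2.1) l := by
  have hs := (B.sieg he).1
  have h1 : (fun i => B.Um j z e i l) = Uf (B.φ (j l)) (B.ψ e.1) (z (e.1, e.2.1) l) := rfl
  rw [fb, B.mu_eq, h1, Uf, J, fromBlocks_mulVec]
  simp only [Sum.elim_comp_inl, Sum.elim_comp_inr, zero_mulVec, zero_add, add_zero, neg_mulVec,
    one_mulVec, sumElim_dotProduct_sumElim, dotProduct_add, dotProduct_neg]
  generalize βf (B.φ (j l)) (B.ψ e.1) (z (e.1, e.2.1) l) = β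
  have h2 : mv (B.ψ e.1) (B.nu e b) ⬝ᵥ β = B.nu e b ⬝ᵥ mv (B.ψ e.1) β := by
    simp only [mv, dotProduct, Finset.sum_mul, Finset.mul_sum]
    rw [Finset.sum_comm]
    refine Finset.sum_congr rfl fun a _ => Finset.sum_congr rfl fun c _ => ?_
    rw [hs a c]
    ring
  rw [h2]
  ring

lemma xfaxa_nu (he : e.1 ∈ B.ball) (b : Fin 2) (a : Fin g) :
    DifferentiableAt ℂ (fun e : E2 g Z => B.nu e b a) e :=
  (analyticAt_pi_iff.1 (analyticAt_pi_iff.1 (B.nu_an he) b) a).differentiableAt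

lemma xfaxa_inr (e : E2 g Z) (b : Fin 2) (a : Fin g) (ξ : E2 g Z) :
    fderiv ℂ (fun e : E2 g Z => mu (B.P (B.ψ e.1)) (e.2.2 b) (Sum.inr a)) e ξ =
      fderiv ℂ (fun e : E2 g Z => B.nu e b a) e ξ := by
  simp only [B.mu_eq, Sum.elim_inr]

lemma xfaxa_inl (he : e.1 ∈ B.ball) (b : Fin 2) (a : Fin g) {ξ : E2 g Z}
    (h : ∀ c, fderiv ℂ (fun e : E2 g Z => B.nu e b c) e ξ = 0) :
    fderiv ℂ (fun e : E2 g Z => mu (B.P (B.ψ e.1)) (e.2.2 b) (Sum.inl a)) e ξ =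
      mv (fderiv ℂ B.ψ e.1 ξ.1) (B.nu e b) a := by
  simp only [B.mu_eq, Sum.elim_inl, mv]
  rw [xfaxa_sum (fun c => (xfaxa_ψ B he a c).1) (xfaxa_nu B he b)]
  refine Finset.sum_congr rfl fun c _ => ?_
  rw [h c, mul_zero, add_zero, (xfaxa_ψ B he a c).2]

theorem Box.kill_mu (he : e.1 ∈ B.ball) (hz : AnalyticAt ℂ z (e.1, e.2.1)) {ξ : E2 g Z}
    (h : ∀ b i, fderiv ℂ (fun e : E2 g Z => mu (B.P (B.ψ e.1)) (e.2.2 b) i) e ξ = 0) :
    (∀ b, mv (fderiv ℂ B.ψ e.1 ξ.1) (B.nu e b) = 0) ∧ ∀ b l,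
      fderiv ℂ (fun e : E2 g Z => fb (B.P (B.ψ e.1)) (B.Um j z e) (e.2.2 b) l) e ξ =
        B.nu e b ⬝ᵥ fderiv ℂ z (e.1, e.2.1) (ξ.1, ξ.2.1) l := by
  have hν : ∀ b c, fderiv ℂ (fun e : E2 g Z => B.nu e b c) e ξ = 0 := fun b c =>
    (xfaxa_inr B e b c ξ).symm.trans (h b _)
  refine ⟨fun b => funext fun a => (xfaxa_inl B he b a (hν b)).symm.trans (h b _), fun b l => ?_⟩
  have h1 : (fun e : E2 g Z => fb (B.P (B.ψ e.1)) (B.Um j z e) (e.2.2 b) l) =ᶠ[𝓝 e]
      fun e => ∑ i, B.nu e b i * z (e.1, e.2.1) l i :=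
    (continuous_fst.continuousAt.eventually (xbboxa_ev B he)).mono fun e' he' =>
      B.fb_eq j he' b l
  rw [h1.fderiv_eq, xfaxa_sum (xfaxa_nu B he b) fun i => (xfaxa_z hz l i).1]
  refine Finset.sum_congr rfl fun i _ => ?_
  rw [hν, zero_mul, zero_add, (xfaxa_z hz l i).2]

theorem Box.lift_mu (he : e.1 ∈ B.ball) {ξ : DD g × Z}
    (h : ∀ b, mv (fderiv ℂ B.ψ e.1 ξ.1) (B.nu e b) = 0) : ∃ η : Fin 2 → EE g,
      ∀ b i, fderiv ℂ (fun e : E2 g Z => mu (B.P (B.ψ e.1)) (e.2.2 b) i) e (ξ.1, ξ.2, η) = 0 := by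
  have hV : AnalyticAt ℂ (fun x a c => Vf B.c₀ B.cs (B.ψ x) a c) e.1 :=
    analyticAt_pi_iff.2 fun a => analyticAt_pi_iff.2 fun c => B.V_an he a c
  have hd := xfaxa_comp (ContinuousLinearMap.fst ℂ (DD g) (Z × (Fin 2 → EE g))) (x := e) hV
  let dV : Matrix (Fin g) (Fin g) ℂ :=
    Matrix.of (fderiv ℂ (fun x a c => Vf B.c₀ B.cs (B.ψ x) a c) e.1 ξ.1)
  let η : Fin 2 → EE g := fun b => -((Vf B.c₀ B.cs (B.ψ e.1))⁻¹ *ᵥ (dV *ᵥ e.2.2 b))
  have hν : ∀ b a, fderiv ℂ (fun e : E2 g Z => B.nu e b a) e (ξ.1, ξ.2, η) = 0 := by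
    intro b a
    have h1 : dV *ᵥ e.2.2 b + Vf B.c₀ B.cs (B.ψ e.1) *ᵥ η b = 0 := by
      simp only [η]
      rw [mulVec_neg, mulVec_mulVec (dV *ᵥ e.2.2 b), mul_nonsing_inv _ (B.V_det he).isUnit,
        one_mulVec, add_neg_cancel]
    refine ((xfaxa_sum (fun c => (hd a c).1) (fun c => (xfaxa_q e b c).1.differentiableAt)
      _).trans ?_).trans (congrFun h1 a)
    rw [Finset.sum_add_distrib]
    simp only [(hd a _).2, (xfaxa_q e b _).2]
    rfl
  refine ⟨η, fun b i => ?_⟩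
  rcases i with a | a
  · exact (xfaxa_inl B he b a (hν b)).trans (congrFun (h b) a)
  · exact (xfaxa_inr B e b a _).trans (hν b a)

theorem Box.c2 (he : e.1 ∈ B.ball) (hz : AnalyticAt ℂ z (e.1, e.2.1)) {u : Z}
    (h2 : H2 B.ψ z u (e.1, e.2.1)) {c : Fin k → ℂ} {ξ : E2 g Z}
    (h : ∀ b i, fderiv ℂ (fun e : E2 g Z => mu (B.P (B.ψ e.1)) (e.2.2 b) i) e ξ = 0)
    (h0 : ∀ l, fderiv ℂ
      (fun e : E2 g Z => fb (B.P (B.ψ e.1)) (B.Um j z e) (e.2.2 0) l) e ξ = 0)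
    (h1 : ∀ l, fderiv ℂ
      (fun e : E2 g Z => fb (B.P (B.ψ e.1)) (B.Um j z e) (e.2.2 1) l) e ξ = c l) :
    ∑ l, c l * pr (B.nu e) (vd z (e.1, e.2.1) u) 0 l = 0 := by
  obtain ⟨k1, k2⟩ := B.kill_mu j he hz h
  have h3 := h2 (B.nu e) (ξ.1, ξ.2.1) k1
  simp only [← k2, h0, h1, zero_mul, zero_sub, Finset.sum_neg_distrib, neg_eq_zero] at h3
  exact h3

theorem Box.c3 [FiniteDimensional ℂ Z] (he : e.1 ∈ B.ball) (hz : AnalyticAt ℂ z (e.1, e.2.1))
    {u : Z} (h1 : H1 B.ψ z (e.1, e.2.1)) (h2 : H2 B.ψ z u (e.1, e.2.1))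
    (hu : pr (B.nu e) (vd z (e.1, e.2.1) u) 0 ≠ 0) {ρ : ℕ}
    (hρ : ρ ≤ rk (pr (B.nu e) ∘ₗ vd z (e.1, e.2.1))) (hc : 2 * k + 2 * g ≤ NN g + ρ + 3) :
    ∃ ξ : E2 g Z,
      (∀ b i, fderiv ℂ (fun e : E2 g Z => mu (B.P (B.ψ e.1)) (e.2.2 b) i) e ξ = 0) ∧
      (∀ b l, fderiv ℂ
        (fun e : E2 g Z => fb (B.P (B.ψ e.1)) (B.Um j z e) (e.2.2 b) l) e ξ = 0) ∧
      dM (fun e : E2 g Z => Matrix.of (B.ψ e.1)) e ξ ≠ 0 := by
  obtain ⟨ξ, k1, k2, k3⟩ := count (ρ := ρ) (fderiv ℂ B.ψ e.1 : DD g →ₗ[ℂ] Mat g) (B.dψ_sy he)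
    (ν := B.nu e) (fun h => hu (funext fun l => by
      rw [h]
      exact zero_dotProduct (vd z (e.1, e.2.1) u l)))
    (pr (B.nu e) ∘ₗ (fderiv ℂ z (e.1, e.2.1) : DD g × Z →ₗ[ℂ] Fin k → EE g)) u
    (fun h => hu (congrFun h 0)) (fun ξ h b => h1 _ ξ (h b)) (fun ξ h => h2 _ ξ h) hρ hc
  obtain ⟨η, hη⟩ := B.lift_mu he (ξ := ξ) k1
  refine ⟨(ξ.1, ξ.2, η), hη, fun b l =>
    ((B.kill_mu j he hz hη).2 b l).trans (congrFun (congrFun k2 b) l), fun h => k3 ?_⟩
  rw [xsm_dM_fst (A := fun x => Matrix.of (B.ψ x)) fun a c =>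
    analyticAt_pi_iff.1 (analyticAt_pi_iff.1 (B.ψ_an he) a) c, xsm_dM_of (B.ψ_an he)] at h
  exact B.dψ_inj he (by rw [map_zero]; exact h)

end Pool.Agent.MP_cf0a82_ag

end
end

section

open Complex Filter Topology Matrix Function

noncomputable section

namespace Pool.Agent.MP_cf0a82_ag

open Pool.Agent.MP_f58063_ag

variable {g k : ℕ} (B : Box g)

lemma xgns_sum (c : Fin k → ℂ) (τ : Mat g) (m n : Fin k → Fin g → ℤ) (a : Fin g) :
    (∑ l, c l • per τ (m l) (n l)) a =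
      ∑ l, c l * (m l a : ℂ) + ∑ j, τ a j * ∑ l, c l * (n l j : ℂ) := by
  simp only [Finset.sum_apply, Pi.smul_apply, smul_eq_mul, per, mul_add, Finset.sum_add_distrib,
    Finset.mul_sum]
  rw [Finset.sum_comm (f := fun l j => c l * (τ a j * (n l j : ℂ)))]
  congr 1
  exact Finset.sum_congr rfl fun j _ => Finset.sum_congr rfl fun l _ => by ring

lemma xgns_star (c : Fin k → ℂ) (m : Fin k → ℤ) (h : ∑ l, c l * (m l : ℂ) = 0) :
    ∑ l, star (c l) * (m l : ℂ) = 0 := by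
  have h1 := congrArg star h
  rw [star_sum, star_zero] at h1
  rw [← h1]
  exact Finset.sum_congr rfl fun l _ => by rw [star_mul', star_intCast]

/-- the linear form `τ ↦ (τ N) a` -/
def xgnsL (N : Fin g → ℂ) (a : Fin g) : Mat g →L[ℂ] ℂ :=
  ∑ j, N j • (ContinuousLinearMap.proj (R := ℂ) (φ := fun _ : Fin g => ℂ) j).comp
    (ContinuousLinearMap.proj (R := ℂ) (φ := fun _ : Fin g => Fin g → ℂ) a)

lemma xgnsL_apply (N : Fin g → ℂ) (a : Fin g) (τ : Mat g) :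
    xgnsL N a τ = ∑ j, τ a j * N j := by
  simp only [xgnsL, _root_.sum_apply, _root_.smul_apply,
    ContinuousLinearMap.comp_apply, ContinuousLinearMap.proj_apply, smul_eq_mul]
  exact Finset.sum_congr rfl fun j _ => mul_comm _ _

lemma xgns_ne (M : ℂ) (N : Fin g → ℂ) (a : Fin g) (h : N a ≠ 0) :
    AnalyticOnNhd ℂ (fun x => M + xgnsL N a (B.ψ x)) B.ball ∧
      ∃ x ∈ B.ball, M + xgnsL N a (B.ψ x) ≠ 0 := by
  refine ⟨fun x hx => analyticAt_const.add (((xgnsL N a).analyticAt _).comp (B.ψ_an hx)), ?_⟩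
  by_contra h0
  push Not at h0
  have hx : B.x₀ ∈ B.ball := Metric.mem_ball_self B.hr
  obtain ⟨ξ, hξ⟩ := B.sur B.x₀ hx (fun i j => if i = j then 1 else 0) (fun i j => by
    simp only [eq_comm])
  have h1 : HasFDerivAt (fun x => M + xgnsL N a (B.ψ x))
      ((xgnsL N a).comp (fderiv ℂ B.ψ B.x₀)) B.x₀ :=
    ((xgnsL N a).hasFDerivAt.comp B.x₀ (B.ψ_an hx).differentiableAt.hasFDerivAt).const_add M
  have h2 : HasFDerivAt (fun x => M + xgnsL N a (B.ψ x)) (0 : DD g →L[ℂ] ℂ) B.x₀ :=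
    (hasFDerivAt_const (0 : ℂ) B.x₀).congr_of_eventuallyEq
      (eventually_of_mem (B.isOpen_ball.mem_nhds hx) h0)
  have h3 := congrArg (fun L : DD g →L[ℂ] ℂ => L ξ) (h1.unique h2)
  simp only [ContinuousLinearMap.comp_apply, hξ, xgnsL_apply, _root_.zero_apply,
    ite_mul, one_mul, zero_mul, Finset.sum_ite_eq, Finset.mem_univ, if_true] at h3
  exact h h3

theorem Box.gen_res (c : Fin k → ℂ) :
    {x | x ∈ B.ball → Gen (B.ψ x) c} ∈ residual (DD g) := by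
  let F : (Fin k → Fin g → ℤ) × (Fin k → Fin g → ℤ) × Fin g → DD g → ℂ := fun q x =>
    ∑ l, c l * (q.1 l q.2.2 : ℂ) + xgnsL (fun j => ∑ l, c l * (q.2.1 l j : ℂ)) q.2.2 (B.ψ x)
  have hres := residual_ne (R := F '' {q | ∑ l, c l * (q.2.1 l q.2.2 : ℂ) ≠ 0})
    ((Set.to_countable _).image _) B.isOpen_ball (convex_ball _ _).isPreconnected (by
      rintro _ ⟨q, hq, rfl⟩
      exact xgns_ne B _ _ _ hq)
  filter_upwards [hres] with x hx hxB m n h
  have h1 : ∀ a, ∑ l, c l * (m l a : ℂ) + ∑ j, B.ψ x a j * ∑ l, c l * (n l j : ℂ) = 0 :=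
    fun a => by rw [← xgns_sum, h]; rfl
  have hN : ∀ a, ∑ l, c l * (n l a : ℂ) = 0 := fun a => by
    by_contra h0
    refine hx hxB _ ⟨(m, n, a), h0, rfl⟩ ?_
    simp only [F, xgnsL_apply]
    exact h1 a
  have hM : ∀ a, ∑ l, c l * (m l a : ℂ) = 0 := fun a => by
    simpa only [hN, mul_zero, Finset.sum_const_zero, add_zero] using h1 a
  funext a
  rw [xgns_sum (fun l => star (c l)), xgns_star c _ (hM a)]
  simp only [fun j => xgns_star c (fun l => n l j) (hN j), mul_zero, Finset.sum_const_zero,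
    add_zero, Pi.zero_apply]

/-- one block of a point -/
def xgnsU {G : ℕ} (e : Fin k × Fin g ≃ Fin G) (l : Fin k) : EE G →L[ℂ] EE g :=
  ContinuousLinearMap.pi fun i => ContinuousLinearMap.proj (e (l, i))

lemma xgns_bij {G : ℕ} (e : Fin k × Fin g ≃ Fin G) {Φ : Fin k → EE g → EE g} {W : EE G}
    (hd : ∀ l, DifferentiableAt ℂ (Φ l) (uf e W l))
    (hb : ∀ l, Injective (fderiv ℂ (Φ l) (uf e W l))) :
    Bijective (fderiv ℂ (fun V a => Φ (e.symm a).1 (uf e V (e.symm a).1) (e.symm a).2) W) := by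
  have h1 : HasFDerivAt (fun V a => Φ (e.symm a).1 (uf e V (e.symm a).1) (e.symm a).2)
      (ContinuousLinearMap.pi fun a =>
        (ContinuousLinearMap.proj (R := ℂ) (φ := fun _ : Fin g => ℂ) (e.symm a).2).comp
        ((fderiv ℂ (Φ (e.symm a).1) (uf e W (e.symm a).1)).comp (xgnsU e (e.symm a).1))) W := by
    refine hasFDerivAt_pi.2 fun a => ?_
    exact (ContinuousLinearMap.proj (R := ℂ) (φ := fun _ : Fin g => ℂ)
      (e.symm a).2).hasFDerivAt.comp W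
      (HasFDerivAt.comp W (g := Φ (e.symm a).1) (hd _).hasFDerivAt
        (xgnsU e (e.symm a).1).hasFDerivAt)
  rw [h1.fderiv]
  have hi : Injective (ContinuousLinearMap.pi fun a =>
      (ContinuousLinearMap.proj (R := ℂ) (φ := fun _ : Fin g => ℂ) (e.symm a).2).comp
        ((fderiv ℂ (Φ (e.symm a).1) (uf e W (e.symm a).1)).comp (xgnsU e (e.symm a).1))) := by
    refine (injective_iff_map_eq_zero _).2 fun V hV => ?_
    have h2 : ∀ l, xgnsU e l V = 0 := fun l => by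
      refine (injective_iff_map_eq_zero _).1 (hb l) _ (funext fun b => ?_)
      have h3 := congrFun hV (e (l, b))
      simpa only [ContinuousLinearMap.pi_apply, ContinuousLinearMap.comp_apply,
        ContinuousLinearMap.proj_apply, Equiv.symm_apply_apply, Pi.zero_apply] using h3
    funext a
    obtain ⟨⟨l, b⟩, rfl⟩ := e.surjective a
    exact congrFun (h2 l) b
  exact ⟨hi, LinearMap.injective_iff_surjective.1 hi⟩

lemma xgns_ab {G : ℕ} (e : Fin k × Fin g ≃ Fin G) {τ : Mat g} {t : Fin k → EE g → ℂ}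
    (ht : ∀ l, t l ∈ Th τ 3) {h : EE g → ℂ} (hh : h ∈ Th τ 3) {W : EE G}
    (h0 : ∀ l, t l (uf e W l) ≠ 0) (l : Fin k) :
    Ab (bd e τ) W fun V => h (uf e V l) / t l (uf e V l) := by
  have h1 : ∀ i, Function.update t l h i ∈ Th τ 3 := fun i => by
    rcases eq_or_ne i l with rfl | hi
    · rwa [Function.update_self]
    · rw [Function.update_of_ne hi]
      exact ht i
  have h2 := ThI_Th e (prod_ThI ht)
  refine ⟨3, _, ThI_Th e (prod_ThI h1), _, h2, Finset.prod_ne_zero_iff.2 fun i _ => h0 i, ?_⟩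
  filter_upwards [(h2.1 W).continuousAt.eventually_ne
    (Finset.prod_ne_zero_iff.2 fun i _ => h0 i)] with V hV
  have h3 := Finset.prod_ne_zero_iff.1 hV
  rw [← Finset.mul_prod_erase _ _ (Finset.mem_univ l),
    ← Finset.mul_prod_erase _ (fun i => t i (uf e V i)) (Finset.mem_univ l), Function.update_self,
    Finset.prod_congr rfl fun i hi => congrFun
      (Function.update_of_ne (Finset.ne_of_mem_erase hi) h t) (uf e V i),
    mul_div_mul_right _ _ (Finset.prod_ne_zero_iff.2 fun i _ => h3 i (Finset.mem_univ i))]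

/-- Nash sections over a point are Nash maps to the power of the fibre -/
theorem Box.na_of_ns {X : Type} [NormedAddCommGroup X] [NormedSpace ℂ X] [FiniteDimensional ℂ X]
    {x : DD g} (hx : x ∈ B.ball) {w : X → Fin k → EE g} {p : X}
    (hw : ∀ l, B.NS (fun _ => x) (fun s => w s l) p) {G : ℕ} (e : Fin k × Fin g ≃ Fin G) :
    NA (bd e (B.ψ x)) (fun s => fl e (w s)) p := by
  choose j₀ h0 using fun l => B.exists_ne hx (w p l)
  choose js σ v hv han _ hb _ _ using fun l => B.emb_chart hx (w p l) (h0 l)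
  have hτ := B.sieg hx
  refine NA_of_chart (f := fun a V => B.φ (js (e.symm a).1 (e.symm a).2) (B.ψ x)
      (uf e V (e.symm a).1) / B.φ (j₀ (e.symm a).1) (B.ψ x) (uf e V (e.symm a).1))
    (bd_mem e hτ) (analyticAt_pi_iff.2 fun a => analyticAt_pi_iff.1 (hw (e.symm a).1).1 _)
    (fun a => xgns_ab e (t := fun l => B.φ (j₀ l) (B.ψ x)) (fun l => tp_mem _ hτ) (tp_mem _ hτ)
      (fun l => by rw [uf_fl]; exact h0 l) _) ?_ fun a => ?_
  · have h1 := xgns_bij e (Φ := fun l z => v l (x, z)) (W := fl e (w p)) (fun l => by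
      rw [uf_fl]
      exact (AnalyticAt.comp (f := fun z : EE g => (x, z)) (han l)
        (analyticAt_const.prod analyticAt_id)).differentiableAt) fun l => by
      rw [uf_fl]
      exact (hb l).1
    simpa only [hv] using h1
  · simp only [uf_fl]
    exact (hw _).2 _ _ (h0 _)

end Pool.Agent.MP_cf0a82_ag

end
end

section

open Complex Filter Topology Matrix Function

noncomputable section

namespace Pool.Agent.MP_cf0a82_ag

open Pool.Agent.MP_f58063_ag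

variable {g k : ℕ} (B : Box g)

/-- a coordinate of a linear combination of the points -/
def xghcjL {G : ℕ} (e : Fin k × Fin g ≃ Fin G) (c : Fin k → ℂ) (a : Fin g) : EE G →L[ℂ] ℂ :=
  ∑ l, c l • ContinuousLinearMap.proj (R := ℂ) (φ := fun _ : Fin G => ℂ) (e (l, a))

lemma xghcj_L {G : ℕ} (e : Fin k × Fin g ≃ Fin G) (c : Fin k → ℂ) (a : Fin g) (W : EE G) :
    xghcjL e c a W = (∑ l, c l • uf e W l) a := by
  simp [xghcjL, uf, Finset.sum_apply]

theorem Box.conj_curve {x : DD g} (hx : x ∈ B.ball) {c : Fin k → ℂ} (hc : Gen (B.ψ x) c)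
    {w : ℂ → Fin k → EE g} (hw : ∀ l, B.NS (fun _ => x) (fun s => w s l) 0)
    (h : ∀ a, NashAt (fun s => ∑ l, c l * w s l a) 0) :
    ∑ l, star (c l) • deriv w 0 l = 0 := by
  let e : Fin k × Fin g ≃ Fin (k * g) := finProdFinEquiv
  have hγ := B.na_of_ns hx hw e
  have h1 := napst (bd_mem e (B.mem x hx).1) hγ (xghcjL e c) fun a => by
    simpa only [xghcj_L, uf_fl, Finset.sum_apply, Pi.smul_apply, smul_eq_mul] using h a
  have h2 : ∀ W ∈ Submodule.span ℝ {W | W ∈ lattice (bd e (B.ψ x)) ∧ ∀ a, xghcjL e c a W = 0},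
      ∀ a, xghcjL e (fun l => star (c l)) a W = 0 := fun W hW a => by
    induction hW using Submodule.span_induction with
    | mem W hW =>
      obtain ⟨⟨m, n, rfl⟩, h0⟩ := hW
      change ∀ a, xghcjL e c a (per _ m n) = 0 at h0
      change xghcjL e _ a (per _ m n) = 0
      simp only [xghcj_L, uf_per] at h0 ⊢
      rw [hc _ _ (funext h0)]
      rfl
    | zero => exact map_zero _
    | add u v _ _ hu hv => rw [map_add, hu, hv, add_zero]
    | smul r u _ hu => rw [ContinuousLinearMap.map_smul_of_tower, hu, smul_zero]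
  have hd : HasDerivAt w (deriv w 0) 0 :=
    (analyticAt_pi_iff.2 fun l => (hw l).1).differentiableAt.hasDerivAt
  have h3 : deriv (fun s => fl e (w s)) 0 = fl e (deriv w 0) :=
    (hasDerivAt_pi.2 fun a => hasDerivAt_pi.1 (hasDerivAt_pi.1 hd (e.symm a).1) (e.symm a).2).deriv
  funext a
  have h4 := h2 _ h1 a
  rwa [xghcj_L, h3, uf_fl] at h4

/-- an algebraic combination of sections has a constant conjugate combination -/
theorem Box.hcj {Z : Type} [NormedAddCommGroup Z] [NormedSpace ℂ Z] [FiniteDimensional ℂ Z]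
    {p : DD g × Z} (hp : p.1 ∈ B.ball) {z : DD g × Z → Fin k → EE g}
    (hz : ∀ l, B.NS Prod.fst (fun e => z e l) p) (c : Fin k → ℂ)
    (h : ∀ a, IsAlgebraic (LB p) (gm p fun e => ∑ l, c l * z e l a)) :
    ∀ᶠ e in 𝓝 p, ∀ ζ, ∑ l, star (c l) • vd z e ζ l = 0 := by
  have han : AnalyticAt ℂ z p := analyticAt_pi_iff.2 fun l => (hz l).1
  have hG : ∀ {S : DD g × Z → Prop}, (∀ᶠ e in 𝓝 p, S e) → ∀ᶠ e in GF p, S e := fun hS =>
    ⟨fun _ => 1, analyticAt_const, by rw [gm_const, map_one]; exact one_ne_zero,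
      hS.mono fun _ he _ => he⟩
  have h1 : ∃ᶠ e in GF p, e.1 ∈ B.ball → Gen (B.ψ e.1) c :=
    freq_GF univ_mem fun O _ hO hne => by
      obtain ⟨y, ⟨e, he, rfl⟩, hy⟩ := (dense_of_mem_residual (B.gen_res c)).inter_open_nonempty _
        (isOpenMap_fst O hO) (hne.image _)
      exact ⟨e, he, hy⟩
  have h2 : ∀ᶠ e in GF p, ∀ a, ∀ ζ : Z,
      NashAt (fun s : ℂ => ∑ l, c l * z (e.1, e.2 + s • ζ) l a) 0 :=
    eventually_all.2 fun a => restrict_nash (f := fun e => ∑ l, c l * z e l a)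
      (Finset.analyticAt_fun_sum _ fun l _ =>
        analyticAt_const.mul (analyticAt_pi_iff.1 (hz l).1 a)) (h a)
  have h3 : ∀ᶠ e in GF p, e.1 ∈ B.ball ∧ ∀ l, B.NS Prod.fst (fun e => z e l) e :=
    hG (((Box.NB.fst hp).eventually.mono fun e he => he.2.2).and
      (eventually_all.2 fun l => (hz l).eventually (Box.NB.fst hp)))
  have h4 : ∃ᶠ e in GF p, ∀ ζ, ∑ l, star (c l) • vd z e ζ l = 0 := by
    refine (h1.and_eventually (h2.and h3)).mono ?_
    rintro e ⟨a1, a2, a3, a4⟩ ζ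
    let L : ℂ →L[ℂ] DD g × Z := ContinuousLinearMap.toSpanSingleton ℂ (0, ζ)
    have hL : ∀ s : ℂ, (e.1, e.2 + s • ζ) = L s + e := fun s => by
      simp [L, Prod.ext_iff, add_comm]
    have h0 : L 0 + e = e := by rw [map_zero, zero_add]
    have hw : ∀ l, B.NS (fun _ => e.1) (fun s : ℂ => z (e.1, e.2 + s • ζ) l) 0 := fun l =>
      Box.NS.comp (x := Prod.fst) (z := fun e => z e l) (f := fun s : ℂ => (e.1, e.2 + s • ζ))
        (by simpa using a4 l) (by fun_prop) fun m => by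
          simp only [hL, map_add]
          exact (NashAt.clm (m.comp L) 0).add (NashAt.const _ _)
    have h5 := B.conj_curve (w := fun s : ℂ => z (e.1, e.2 + s • ζ)) a3 (a1 a3) hw fun a => a2 a ζ
    have hz' : HasFDerivAt z (fderiv ℂ z e) (L 0 + e) := by
      rw [h0]
      exact (analyticAt_pi_iff.2 fun l => (a4 l).1).differentiableAt.hasFDerivAt
    have h6 : deriv (fun s : ℂ => z (e.1, e.2 + s • ζ)) 0 = vd z e ζ := by
      simp only [hL]
      refine (hz'.comp_hasDerivAt (0 : ℂ) (L.hasDerivAt.add_const e)).deriv.trans ?_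
      rw [vd_apply]
      simp [L]
    rwa [h6] at h5
  let b := Module.finBasis ℂ Z
  have h7 : ∀ᶠ e in 𝓝 p, ∀ i a, (∑ l, star (c l) • vd z e (b i) l) a = 0 :=
    eventually_all.2 fun i => eventually_all.2 fun a =>
      zero_of_freq (f := fun e => (∑ l, star (c l) • vd z e (b i) l) a) (by
        simp only [Finset.sum_apply, Pi.smul_apply, smul_eq_mul]
        exact Finset.analyticAt_fun_sum _ fun l _ => analyticAt_const.mul
          (analyticAt_pi_iff.1 (analyticAt_pi_iff.1 (vd_an han (b i)) l) a))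
        (h4.mono fun e he => by rw [he]; rfl)
  filter_upwards [h7] with e he ζ
  rw [← b.sum_repr ζ, map_sum]
  simp only [map_smul, Finset.sum_apply, Pi.smul_apply, Finset.smul_sum]
  rw [Finset.sum_comm]
  refine Finset.sum_eq_zero fun i _ => ?_
  simp only [smul_comm (star (c _)) (b.repr ζ i), ← Finset.smul_sum]
  rw [show ∑ l, star (c l) • vd z e (b i) l = 0 from funext (he i), smul_zero]

end Pool.Agent.MP_cf0a82_ag

end
end
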