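import Pool.Agent.Mg.Fcf0a82q.G40f606
import Pool.Agent.Mg.Fcf0a82q.G43b963
import Pool.Agent.Mg.Fcf0a82q.Ga9bf1b

section

open Complex Filter Topology Matrix Function

noncomputable section

namespace Pool.Agent.MP_cf0a82_ag

open Pool.Agent.MP_f58063_ag

variable {K : Type} [Field K] [Algebra ℂ K] {ι l : Type} [Fintype ι] [DecidableEq ι]
  [Fintype l] [DecidableEq l] (π : Par2 K ι l)

theorem Par2.hor_y (w : Der K) (i : ι) : π.hor w (π.y i) = w (π.y i) := by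
  rw [Par2.hor, xsalge_sum]
  simp [π.Dy]

theorem Par2.Ω_hor (w : Der K) : π.Ω (π.hor w) = 0 := by
  simp [Par2.hor, π.ΩD]

theorem Par2.eq_hor {w : Der K} (h : π.Ω w = 0) : w = π.hor w := by
  refine sub_eq_zero.1 (π.inj _ (fun i => ?_) ?_)
  · rw [Derivation.sub_apply, π.hor_y, sub_self]
  · rw [map_sub, h, π.Ω_hor, sub_self]

theorem Par2.sub_hor (w : Der K) : w - π.hor w ∈ π.Vert := by
  intro i
  rw [Derivation.sub_apply, π.hor_y, sub_self]

theorem Par2.vert_span : π.Vert ⊆ Submodule.span K π.VertC := by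
  intro X hX
  have key : ∀ ξ ∈ Submodule.span K {ξ | ξ ∈ π.s ∧ ∀ a b, ξ a b ∈ Set.range (algebraMap ℂ K)},
      ∃ w ∈ Submodule.span K π.VertC, w ∈ π.Vert ∧ π.Ω w = ξ := by
    intro ξ hξ
    induction hξ using Submodule.span_induction with
    | mem ξ hξ =>
      obtain ⟨w, h1, rfl⟩ := π.surj ξ hξ.1
      exact ⟨w, Submodule.subset_span ⟨h1, hξ.2⟩, h1, rfl⟩
    | zero => exact ⟨0, zero_mem _, fun _ => rfl, map_zero _⟩
    | add ξ ξ' _ _ h h' =>
      obtain ⟨w, h1, h2, rfl⟩ := h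
      obtain ⟨w', h1', h2', rfl⟩ := h'
      exact ⟨w + w', add_mem h1 h1', fun i => by rw [Derivation.add_apply, h2 i, h2' i, add_zero],
        map_add _ _ _⟩
    | smul c ξ _ h =>
      obtain ⟨w, h1, h2, rfl⟩ := h
      exact ⟨c • w, Submodule.smul_mem _ _ h1,
        fun i => by rw [Derivation.smul_apply, h2 i, smul_zero], map_smul _ _ _⟩
  obtain ⟨w, h1, h2, h3⟩ := key _ (π.span (π.mem X))
  have e : X = w := sub_eq_zero.1 (π.inj _
    (fun i => by rw [Derivation.sub_apply, hX i, h2 i, sub_self]) (by rw [map_sub, h3, sub_self]))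
  rwa [e]

theorem Par2.Kc_vertC : Kc π.VertC = Kc π.Vert := by
  ext f
  refine ⟨fun h X hX => ?_, fun h X hX => h X hX.1⟩
  have h1 := π.vert_span hX
  clear hX
  induction h1 using Submodule.span_induction with
  | mem X hX => exact h X hX
  | zero => rfl
  | add X X' _ _ h1 h2 => rw [Derivation.add_apply, h1, h2, add_zero]
  | smul c X _ h1 => rw [Derivation.smul_apply, h1, smul_zero]

theorem Par2.lie_Hk {T : Set K} (hT : ∀ X ∈ π.VertC, ∀ f ∈ T, X f ∈ Submodule.span ℂ T)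
    {X v : Der K} (hX : X ∈ π.VertC) (hv : v ∈ π.Hk T) : ⁅X, v⁆ ∈ π.Hk T := by
  refine ⟨?_, fun f hf => ?_⟩
  · rw [π.mc, hv.1, xsalge_zero, xsalge_const hX.2]
    simp
  · have h : Submodule.span ℂ T ≤ LinearMap.ker (v : K →ₗ[ℂ] K) :=
      Submodule.span_le.2 fun f hf => hv.2 f hf
    have h1 : v (X f) = 0 := h (hT X hX f hf)
    rw [Derivation.commutator_apply, hv.2 f hf, h1, map_zero, sub_self]

theorem Par2.Kc_Hk_stable {T : Set K} (hT : ∀ X ∈ π.VertC, ∀ f ∈ T, X f ∈ Submodule.span ℂ T) :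
    ∀ X ∈ π.VertC, ∀ f ∈ Kc (π.Hk T), X f ∈ Kc (π.Hk T) := by
  intro X hX f hf v hv
  have h := hf _ (π.lie_Hk hT hX hv)
  rw [Derivation.commutator_apply, hf v hv, map_zero, zero_sub, neg_eq_zero] at h
  exact h

theorem Par2.hh_vert {T : Set K} (hT : ∀ X ∈ π.VertC, ∀ f ∈ T, X f ∈ Submodule.span ℂ T) :
    ∀ X ∈ π.Vert, ∀ ξ ∈ π.hh (Kc (π.Hk T)),
      ξ.map X - (π.Ω X * ξ - ξ * π.Ω X) ∈ π.hh (Kc (π.Hk T)) := by
  rintro X hX ξ ⟨w, hw, rfl⟩
  have h1 := π.vert_span hX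
  clear hX
  induction h1 using Submodule.span_induction with
  | mem X hX =>
    refine ⟨⁅X, w⁆, fun f hf => ?_, ?_⟩
    · rw [Derivation.commutator_apply, hw f hf, hw _ (π.Kc_Hk_stable hT X hX f hf), map_zero,
        sub_self]
    · rw [π.mc, xsalge_const hX.2, sub_zero]
  | zero =>
    have e : (π.Ω w).map (0 : Der K) = 0 := rfl
    rw [e, map_zero]
    simp
  | add X X' _ _ h1 h2 =>
    convert add_mem h1 h2 using 1
    rw [xsalge_add, map_add, add_mul, mul_add]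
    abel
  | smul c X _ h1 =>
    convert Submodule.smul_mem _ c h1 using 1
    rw [xsalge_smul, map_smul, Matrix.smul_mul, Matrix.mul_smul, smul_sub, smul_sub]

theorem Par2.hh_hor {T : Set K} (hT : ∀ X ∈ π.VertC, ∀ f ∈ T, X f ∈ Submodule.span ℂ T)
    {w : Der K} (hw : ∀ f ∈ Kc (π.Hk T), w f = 0) :
    ∀ ξ ∈ π.hh (Kc (π.Hk T)), ξ.map (π.hor w) ∈ π.hh (Kc (π.Hk T)) := by
  have lie : ∀ w w' : Der K, (∀ f ∈ Kc (π.Hk T), w f = 0) → (∀ f ∈ Kc (π.Hk T), w' f = 0) →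
      π.Ω ⁅w, w'⁆ ∈ π.hh (Kc (π.Hk T)) := fun w w' h h' =>
    ⟨_, fun f hf => by rw [Derivation.commutator_apply, h f hf, h' f hf, map_zero, map_zero,
      sub_self], rfl⟩
  have h1 : ∀ v ∈ π.Hk T, ∀ ξ ∈ π.hh (Kc (π.Hk T)), ξ.map v ∈ π.hh (Kc (π.Hk T)) := by
    rintro v hv ξ ⟨w', hw', rfl⟩
    have h := lie v w' (fun f hf => hf v hv) hw'
    rw [π.mc, hv.1, xsalge_zero] at h
    simpa using h
  rintro ξ ⟨w', hw', rfl⟩
  have a1 := stable_of_const_mat _ _ h1 hw _ ⟨w', hw', rfl⟩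
  have a2 := stable_of_const_mat _ _ h1 hw' _ ⟨w, hw, rfl⟩
  have a3 := lie w w' hw hw'
  have a4 := π.hh_vert hT _ (π.sub_hor w) _ ⟨w', hw', rfl⟩
  rw [π.mc] at a3
  rw [map_sub, π.Ω_hor, sub_zero, xsalge_sub] at a4
  convert sub_mem (add_mem a3 a2) a4 using 1
  abel

theorem Par2.lift (C : IntermediateField ℂ K) (hC : ∀ X ∈ π.VertC, ∀ f ∈ C, X f ∈ C) {D : Der K}
    (hD : ∀ f ∈ C ⊓ Kc π.Vert, D f = 0) :
    ∃ w : Der K, (∀ f ∈ C, w f = 0) ∧ ∀ i, w (π.y i) = D (π.y i) := by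
  rw [← π.Kc_vertC] at hD
  obtain ⟨e, he⟩ := (AlgebraicIndependent.matroid (C ⊓ Kc π.VertC : IntermediateField ℂ K)
    K).exists_isBasis (Kc π.VertC) (Set.subset_univ _)
  obtain ⟨h1, h2, h3⟩ := AlgebraicIndependent.matroid_isBasis_iff.1 he
  obtain ⟨w, hw, hwe⟩ := der_of_algInd C (algInd_of_const C π.VertC hC
    (e := fun x : e => x.1) (fun j => h2 j.2) h1) fun j => D j
  refine ⟨w, hw, fun i => sub_eq_zero.1 ?_⟩
  refine xsalgf_zero (w := w - D) _ (fun f hf => ?_) (fun x hx => ?_)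
    (h3 (π.y i) fun X hX => hX.1 i)
  · rw [Derivation.sub_apply, hw f hf.1, hD f hf, sub_zero]
  · rw [Derivation.sub_apply, hwe ⟨x, hx⟩, sub_self]

theorem Par2.proj (C₀ : IntermediateField ℂ K) (h0 : C₀ ≤ Kc π.Vert)
    (hcl : ∀ f : K, IsAlgebraic C₀ f → f ∈ C₀) (j : ι) :
    π.D j ∈ Submodule.span K
      {D : Der K | π.Ω D = 0 ∧ (∀ i, D (π.y i) ∈ Kc π.Vert) ∧ ∀ f ∈ C₀, D f ∈ C₀} := by
  classical
  obtain ⟨F, hF, hF0⟩ : ∃ F : IntermediateField ℂ K, (∀ k, F ≤ k) ∧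
    ∀ w : Der K, ∀ f ∈ F, w f = 0 := ⟨⊥, fun _ => bot_le, xsalgf_bot⟩
  let M := AlgebraicIndependent.matroid F K
  obtain ⟨c, hc⟩ := M.exists_isBasis C₀ (Set.subset_univ _)
  obtain ⟨b, hb, hcb⟩ := hc.indep.subset_isBasis_of_subset (X := Kc π.Vert)
    (hc.subset.trans h0) (Set.subset_univ _)
  obtain ⟨-, c2, c3⟩ := AlgebraicIndependent.matroid_isBasis_iff.1 hc
  obtain ⟨b1, b2, b3⟩ := AlgebraicIndependent.matroid_isBasis_iff.1 hb
  have hy : ∀ i, π.y i ∈ Kc π.Vert := fun i X hX => hX i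
  choose w hw0 hw using fun l : K => der_of_algInd F (e := fun x : b => x.1) b1
    fun m => if l = m.1 then 1 else 0
  have hE : ∀ l, ∀ f ∈ Kc π.Vert, π.hor (w l) f = w l f := fun l f hf =>
    (sub_eq_zero.1 (hf _ (π.sub_hor (w l)))).symm
  have hm : ∀ (k : IntermediateField ℂ K) (l : K), ∀ x ∈ b, w l x ∈ k := fun k l x hx => by
    rw [hw l ⟨x, hx⟩]
    split_ifs
    exacts [one_mem k, zero_mem k]
  have hz : ∀ (k : IntermediateField ℂ K) (l : K), ∀ f ∈ F, w l f ∈ k := fun k l f hf => by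
    rw [hw0 l f hf]
    exact zero_mem k
  obtain ⟨s, hsb, hs, -, hys⟩ := M.exists_subset_finite_closure_of_subset_closure
    (Set.finite_range π.y) (Y := b) ((Set.range_subset_iff.2 hy).trans hb.subset_closure)
  replace hys : ∀ i, IsAlgebraic (Algebra.adjoin F s) (π.y i) :=
    fun i => by
      have := hys ⟨i, rfl⟩
      rwa [AlgebraicIndependent.matroid_closure_eq, SetLike.mem_coe,
        Subalgebra.mem_algebraicClosure] at this
  lift s to Finset K using hs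
  have key : π.D j - ∑ l ∈ s, π.D j l • π.hor (w l) = 0 := by
    refine π.inj _ (fun i => xsalgf_zero F (s := s) (hF0 _) (fun x hx => ?_)
      (hys i)) ?_
    · rw [Derivation.sub_apply, sub_eq_zero, ← Derivation.coeFnAddMonoidHom_apply (∑ l ∈ s, _),
        map_sum, Finset.sum_apply, Finset.sum_eq_single_of_mem x hx fun l _ hl => ?_]
      · change _ = π.D j x * π.hor (w x) x
        rw [hE x x (b2 (hsb hx)), hw x ⟨x, hsb hx⟩, if_pos rfl, mul_one]
      · change π.D j l * π.hor (w l) x = 0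
        rw [hE l x (b2 (hsb hx)), hw l ⟨x, hsb hx⟩, if_neg hl, mul_zero]
    · simp only [map_sub, map_sum, map_smul, π.ΩD, π.Ω_hor, smul_zero, Finset.sum_const_zero,
        sub_zero]
  rw [sub_eq_zero.1 key]
  refine Submodule.sum_mem _ fun l _ => Submodule.smul_mem _ _ (Submodule.subset_span
    ⟨π.Ω_hor _, fun i => ?_, fun f hf => ?_⟩)
  · rw [hE l _ (hy i)]
    exact xsalgf_mem F _ (hF _) b2 (hz _ l) (hm _ l) (hy i) (b3 _ (hy i))
  · rw [hE l _ (h0 hf)]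
    exact xsalgf_mem F _ (hF _) c2 (hz _ l) (fun x hx => hm _ l x (hcb hx)) hf (c3 _ hf)

/-- the values of the connection form on vertical derivations that kill `F` -/
def xfpgN (F : IntermediateField ℂ K) : Submodule K (Matrix l l K) where
  carrier := {ξ | ∃ X : Der K, X ∈ π.Vert ∧ (∀ f ∈ F, X f = 0) ∧ π.Ω X = ξ}
  add_mem' := by
    rintro _ _ ⟨w, hv, hw, rfl⟩ ⟨w', hv', hw', rfl⟩
    refine ⟨w + w', fun i => ?_, fun f hf => by simp [hw f hf, hw' f hf], map_add _ _ _⟩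
    have h1 : w (π.y i) = 0 := hv i
    have h2 : w' (π.y i) = 0 := hv' i
    simp [h1, h2]
  zero_mem' := ⟨0, fun _ => rfl, fun _ _ => rfl, map_zero _⟩
  smul_mem' := by
    rintro c _ ⟨w, hv, hw, rfl⟩
    refine ⟨c • w, fun i => ?_, fun f hf => by simp [hw f hf], map_smul _ _ _⟩
    have h1 : w (π.y i) = 0 := hv i
    simp [h1]

lemma xfpg_le_Kc (T : Set K) : ∀ f ∈ T, f ∈ Kc (π.Hk T) := fun f hf _ hD => hD.2 f hf

/-- every horizontal derivation killing `C ⊓ Kc Vert` is the horizontal part of one killing `C` -/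
lemma xfpg_lift (C : IntermediateField ℂ K) (hC : ∀ X ∈ π.VertC, ∀ f ∈ C, X f ∈ C) {D : Der K}
    (hD : D ∈ π.Hk ((C ⊓ Kc π.Vert : IntermediateField ℂ K) : Set K)) :
    ∃ w : Der K, (∀ f ∈ C, w f = 0) ∧ π.hor w = D := by
  obtain ⟨w, hw, hy⟩ := π.lift C hC (D := D) fun f hf => hD.2 f hf
  refine ⟨w, hw, ?_⟩
  rw [π.eq_hor hD.1]
  unfold Par2.hor
  exact Finset.sum_congr rfl fun i _ => by rw [hy i]

/-- the submodule `xfpgN` is stable under all derivations -/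
lemma xfpg_stable (C₀ : IntermediateField ℂ K) (h0 : C₀ ≤ Kc π.Vert)
    (hcl : ∀ f : K, IsAlgebraic C₀ f → f ∈ C₀) (w : Der K) :
    ∀ ξ ∈ xfpgN π (Kc (π.Hk (C₀ : Set K))), ξ.map w ∈ xfpgN π (Kc (π.Hk (C₀ : Set K))) := by
  refine stable_of_const_mat _ (Set.range π.D) ?_ ?_
  · rintro _ ⟨j, rfl⟩
    refine xsalgg_span _ ?_ (π.proj C₀ h0 hcl j)
    rintro D ⟨hΩ, hy, hC⟩ _ ⟨X, hX, hXF, rfl⟩
    have hF : ∀ f ∈ Kc (π.Hk (C₀ : Set K)), D f ∈ Kc (π.Hk (C₀ : Set K)) := by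
      intro f hf D₂ hD₂
      have h1 : ⁅D₂, D⁆ ∈ π.Hk (C₀ : Set K) := by
        refine ⟨?_, fun g hg => ?_⟩
        · rw [π.mc, hΩ, hD₂.1, xsalgg_map0, xsalgg_map0]
          simp
        · rw [xsalgg_lie, hD₂.2 _ (hC g hg), hD₂.2 g hg, map_zero, sub_zero]
      have h2 := hf _ h1
      rw [xsalgg_lie, hf D₂ hD₂, map_zero, sub_zero] at h2
      exact h2
    refine ⟨⁅D, X⁆, fun i => ?_, fun f hf => ?_, ?_⟩
    · have h1 : X (π.y i) = 0 := hX i
      rw [xsalgg_lie, h1, hy i X hX, map_zero, sub_zero]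
    · rw [xsalgg_lie, hXF f hf, hXF _ (hF f hf), map_zero, sub_zero]
    · rw [π.mc, hΩ, xsalgg_map0]
      simp
  · intro f hf
    obtain ⟨c, rfl⟩ := π.const f fun i => hf _ ⟨i, rfl⟩
    exact w.map_algebraMap c

/-- the submodule `xfpgN` is an ideal -/
lemma xfpg_ideal (C₀ : IntermediateField ℂ K) (h0 : C₀ ≤ Kc π.Vert)
    (hcl : ∀ f : K, IsAlgebraic C₀ f → f ∈ C₀) :
    ∀ η ∈ π.s, ∀ ξ ∈ xfpgN π (Kc (π.Hk (C₀ : Set K))),
      η * ξ - ξ * η ∈ xfpgN π (Kc (π.Hk (C₀ : Set K))) := by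
  intro η hη ξ hξ
  have hT0 : ∀ X ∈ π.VertC, ∀ f ∈ (C₀ : Set K), X f ∈ Submodule.span ℂ (C₀ : Set K) := by
    intro X hX f hf
    rw [h0 hf X hX.1]
    exact Submodule.zero_mem _
  have hsp := π.span hη
  clear hη
  induction hsp using Submodule.span_induction with
  | mem η hη =>
    obtain ⟨Y, hY, rfl⟩ := π.surj η hη.1
    have hYC : Y ∈ π.VertC := ⟨hY, hη.2⟩
    have h1 := xfpg_stable π C₀ h0 hcl Y ξ hξ
    obtain ⟨X, hX, hXF, rfl⟩ := hξ
    have h2 : π.Ω ⁅Y, X⁆ ∈ xfpgN π (Kc (π.Hk (C₀ : Set K))) := by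
      refine ⟨⁅Y, X⁆, fun i => ?_, fun f hf => ?_, rfl⟩
      · have h3 : X (π.y i) = 0 := hX i
        rw [xsalgg_lie, h3, hY i, map_zero, map_zero, sub_zero]
      · rw [xsalgg_lie, hXF f hf, hXF _ (π.Kc_Hk_stable hT0 Y hYC f hf), map_zero, sub_zero]
    have h3 := Submodule.sub_mem _ h1 h2
    rw [π.mc, xsalgg_mapc X hη.2, sub_zero, sub_sub_cancel] at h3
    exact h3
  | zero => simpa using Submodule.zero_mem _
  | add x y _ _ hx hy =>
    have : (x + y) * ξ - ξ * (x + y) = (x * ξ - ξ * x) + (y * ξ - ξ * y) := by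
      rw [add_mul, mul_add]
      abel
    rw [this]
    exact Submodule.add_mem _ hx hy
  | smul c x _ hx =>
    have : (c • x) * ξ - ξ * (c • x) = c • (x * ξ - ξ * x) := by
      rw [Matrix.smul_mul, Matrix.mul_smul, smul_sub]
    rw [this]
    exact Submodule.smul_mem _ c hx

end Pool.Agent.MP_cf0a82_ag

end
end

section

open Complex Filter Topology Matrix Function

noncomputable section

namespace Pool.Agent.MP_cf0a82_ag

open Pool.Agent.MP_f58063_ag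

variable {K : Type} [Field K] [Algebra ℂ K]

lemma xfspan_vec {κ : Type} [Fintype κ] (U W : Submodule K (κ → K)) (T : Set (Der K))
    (hU : ∀ D ∈ T, ∀ u ∈ U, (fun i => D (u i)) ∈ U)
    (hW : ∀ v ∈ U, (∀ i, v i ∈ Kc T) → v ∈ W) : U ≤ W := by
  classical
  have key : ∀ s : Finset κ, ∀ u ∈ U, (∀ i, i ∉ s → u i = 0) → u ∈ W := by
    intro s
    induction s using Finset.strongInduction with
    | H s ih =>
      intro u hu hs
      by_cases hu0 : u = 0
      · rw [hu0]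
        exact W.zero_mem
      obtain ⟨v, ⟨hv, hvs⟩, ⟨i0, h1⟩, hc⟩ := xsalga_min
        {v | v ∈ U ∧ ∀ i, i ∉ s → v i = 0} T s (fun v hv => hv.2)
        (fun v hv i => ⟨U.smul_mem _ hv.1, fun j hj => by rw [Pi.smul_apply, hv.2 j hj, smul_zero]⟩)
        (fun D hD v hv => ⟨hU D hD v hv.1, fun j hj => by simp only [hv.2 j hj, map_zero]⟩)
        (u := u) ⟨hu, hs⟩ hu0
      have hi0 : i0 ∈ s := by
        by_contra h
        exact one_ne_zero (h1.symm.trans (hvs i0 h))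
      have h2 := ih (s.erase i0) (Finset.erase_ssubset hi0) (u - u i0 • v)
        (U.sub_mem hu (U.smul_mem _ hv)) fun j hj => by
          by_cases e : j = i0
          · simp [e, h1]
          · have hj' : j ∉ s := fun h => hj (Finset.mem_erase.2 ⟨e, h⟩)
            simp [hs j hj', hvs j hj']
      rw [← sub_add_cancel u (u i0 • v)]
      exact W.add_mem h2 (W.smul_mem _ (hW v hv hc))
  exact fun u hu => key Finset.univ u hu fun i hi => absurd (Finset.mem_univ i) hi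

/-- a subspace stable under derivations with constant field `ℂ` is defined over `ℂ` -/
theorem span_const {l m : Type} [Fintype l] [Fintype m] (U : Submodule K (Matrix l m K))
    (T : Set (Der K)) (hT : ∀ f ∈ Kc T, f ∈ Set.range (algebraMap ℂ K))
    (hU : ∀ D ∈ T, ∀ u ∈ U, u.map D ∈ U) :
    U ≤ Submodule.span K {ξ | ξ ∈ U ∧ ∀ a b, ξ a b ∈ Set.range (algebraMap ℂ K)} := by
  let φ : (l × m → K) →ₗ[K] Matrix l m K :=
    { toFun := fun v => Matrix.of fun a b => v (a, b)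
      map_add' := fun _ _ => rfl
      map_smul' := fun _ _ => rfl }
  intro u hu
  exact xfspan_vec (U.comap φ) (Submodule.comap φ (Submodule.span K
      {ξ | ξ ∈ U ∧ ∀ a b, ξ a b ∈ Set.range (algebraMap ℂ K)})) T
    (fun D hD v hv => hU D hD (φ v) hv)
    (fun v hv hc => Submodule.subset_span ⟨hv, fun a b => hT _ (hc (a, b))⟩)
    (x := fun p => u p.1 p.2) hu

variable {ι l : Type} [Fintype ι] [DecidableEq ι] [Fintype l] [DecidableEq l] (π : Par2 K ι l)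

theorem Par2.map_mem (w : Der K) : ∀ ξ ∈ π.s, ξ.map w ∈ π.s := by
  intro ξ hξ
  have key : ∀ η ∈ Submodule.span K {ξ | ξ ∈ π.s ∧ ∀ a b, ξ a b ∈ Set.range (algebraMap ℂ K)},
      η ∈ π.s ∧ η.map w ∈ π.s := by
    intro η hη
    induction hη using Submodule.span_induction with
    | mem η hη => exact ⟨hη.1, by rw [xsalge_const hη.2]; exact zero_mem _⟩
    | zero => exact ⟨zero_mem _, by rw [xsalge_zero]; exact zero_mem _⟩
    | add η η' _ _ h h' =>
      exact ⟨add_mem h.1 h'.1, by rw [Matrix.map_add _ (map_add w)]; exact add_mem h.2 h'.2⟩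
    | smul c η _ h =>
      have e : (c • η).map w = c • η.map w + w c • η := by
        ext a b
        simp only [Matrix.map_apply, Matrix.smul_apply, Matrix.add_apply, smul_eq_mul,
          Derivation.leibniz]
        ring
      exact ⟨π.s.smul_mem c h.1, by
        rw [e]; exact add_mem (π.s.smul_mem c h.2) (π.s.smul_mem _ h.1)⟩
  exact (key ξ (π.span hξ)).2

theorem Par2.lie_mem : ∀ η ∈ π.s, ∀ ξ ∈ π.s, η * ξ - ξ * η ∈ π.s := by
  intro η hη ξ hξ
  obtain ⟨w, -, rfl⟩ := π.surj η hη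
  obtain ⟨w', -, rfl⟩ := π.surj ξ hξ
  have h := sub_mem (sub_mem (π.map_mem w _ hξ) (π.map_mem w' _ hη)) (π.mem ⁅w, w'⁆)
  rwa [π.mc, sub_sub_cancel] at h

/-- enlarge a field of constants inside `K₁` until the transcendence degree of `K₁` is one -/
theorem cut2 (K₁ F : IntermediateField ℂ K) (hF : F ≤ K₁) {t : K} (ht : t ∈ K₁) {v : Der K}
    (hv : ∀ f ∈ F, v f = 0) (hvt : v t ≠ 0) :
    ∃ (F' : IntermediateField ℂ K) (w : Der K), F ≤ F' ∧ F' ≤ K₁ ∧ (∀ f ∈ F', w f = 0) ∧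
      w t = 1 ∧ (∀ w' : Der K, (∀ f ∈ F', w' f = 0) → ∀ f ∈ K₁, w' f = w' t * w f) ∧
      ∀ f ∈ K₁, IsAlgebraic (Algebra.adjoin F' {t}) f := by
  classical
  have htr : Transcendental F t := fun h => hvt (der_alg_zero F.toSubalgebra hv h)
  have hind : (AlgebraicIndependent.matroid F K).Indep {t} :=
    (algebraicIndependent_singleton_iff (⟨t, rfl⟩ : ({t} : Set K))).2 htr
  obtain ⟨s, hs, hts⟩ := hind.subset_isBasis_of_subset (X := K₁) (Set.singleton_subset_iff.2 ht)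
    (Set.subset_univ _)
  obtain ⟨b1, b2, b3⟩ := AlgebraicIndependent.matroid_isBasis_iff.1 hs
  obtain ⟨w, hw, hw'⟩ := der_of_algInd F (e := fun x : s => x.1) b1
    fun j => if j.1 = t then 1 else 0
  obtain ⟨F', hF'⟩ : ∃ F', F' = IntermediateField.adjoin ℂ ((F : Set K) ∪ (s \ {t})) := ⟨_, rfl⟩
  have hsub : (F : Set K) ∪ (s \ {t}) ⊆ F' := hF' ▸ IntermediateField.subset_adjoin _ _
  have hle : F ≤ F' := fun x hx => hsub (Or.inl hx)
  have hK : F' ≤ Kc {w} := by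
    rw [hF', IntermediateField.adjoin_le_iff]
    rintro x (hx | hx) D rfl
    · exact hw x hx
    · exact (hw' ⟨x, hx.1⟩).trans (if_neg hx.2)
  have hK₁ : F' ≤ K₁ := by
    rw [hF', IntermediateField.adjoin_le_iff]
    rintro x (hx | hx)
    exacts [hF hx, b2 hx.1]
  have hwt : w t = 1 := (hw' ⟨t, hts rfl⟩).trans (if_pos rfl)
  have halg : ∀ f ∈ K₁, IsAlgebraic (Algebra.adjoin F' {t}) f := by
    intro f hf
    refine xsalgb_mono Subtype.val_injective ?_ (b3 f hf)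
    rintro ⟨x, hx⟩
    refine ⟨⟨x, ?_⟩, rfl⟩
    induction hx using Algebra.adjoin_induction with
    | mem x hx =>
      by_cases h : x = t
      · exact Algebra.subset_adjoin h
      · exact (Algebra.adjoin F' {t}).algebraMap_mem ⟨x, hsub (Or.inr ⟨hx, h⟩)⟩
    | algebraMap c => exact (Algebra.adjoin F' {t}).algebraMap_mem ⟨c.1, hle c.2⟩
    | add x y _ _ hx hy => exact add_mem hx hy
    | mul x y _ _ hx hy => exact mul_mem hx hy
  refine ⟨F', w, hle, hK₁, fun f hf => hK hf w rfl, hwt, fun w' h' f hf => ?_, halg⟩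
  refine sub_eq_zero.1 (xsalgf_zero (w := w' - w' t • w) F' (fun x hx => ?_) (fun x hx => ?_)
    (halg f hf))
  · rw [Derivation.sub_apply, Derivation.smul_apply, h' x hx, hK hx w rfl, smul_zero, sub_zero]
  · rw [Set.mem_singleton_iff.1 hx, Derivation.sub_apply, Derivation.smul_apply, hwt, smul_eq_mul,
      mul_one, sub_self]

end Pool.Agent.MP_cf0a82_ag

end
end

section

open Complex Filter Topology Matrix Function

noncomputable section

namespace Pool.Agent.MP_cf0a82_ag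

open Pool.Agent.MP_f58063_ag

/-- the connection form attached to an invertible frame -/
lemma xfexp_gen {K : Type} [Field K] [Algebra ℂ K] {ι l : Type} [Fintype ι] [DecidableEq ι]
    [Fintype l] [DecidableEq l] (y : ι → K) (D : ι → Der K) (P Q : Matrix l l K)
    (hQ : Q * P = 1) (hQ' : P * Q = 1)
    (hDy : ∀ i j, D i (y j) = if i = j then 1 else 0) (hDD : ∀ i j, ⁅D i, D j⁆ = 0)
    (hconst : ∀ f, (∀ i, D i f = 0) → f ∈ Set.range (algebraMap ℂ K))
    (hgen : ∀ w : Der K, (∀ i, w (y i) = 0) → P.map w = 0 → w = 0)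
    (hA : ∀ i, ∃ A : Matrix l l K, P.map (D i) = P * A ∧
      ∀ w : Der K, (∀ j, w (y j) = 0) → A.map w = 0) :
    ∃ π : Par2 K ι l, π.y = y ∧ π.D = D ∧ (∀ ξ ∈ π.s, ∃ w : Der K, ξ = P.map w * Q) ∧
      ∀ w : Der K, (∀ j, w (y j) = 0) → π.Ω w = P.map w * Q := by
  choose A hA hA' using hA
  obtain ⟨V, hV⟩ : ∃ V : Der K →ₗ[K] Der K, ∀ w, V w = w - ∑ i, w (y i) • D i :=
    ⟨LinearMap.id - ∑ i, (xsalgdE (y i)).smulRight (D i), fun w => by
      simp only [LinearMap.sub_apply, LinearMap.id_apply, LinearMap.sum_apply,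
        LinearMap.smulRight_apply]
      rfl⟩
  have hVL : ∀ (M : Matrix l l K) (w : Der K),
      M.map (V w) = M.map w - ∑ i, w (y i) • M.map (D i) := fun M w => by
    change xsalgdL M (V w) = xsalgdL M w - ∑ i, w (y i) • xsalgdL M (D i)
    simp only [hV, map_sub, map_sum, map_smul]
  have hVy : ∀ w j, V w (y j) = 0 := fun w j => by
    change xsalgdE (y j) (V w) = 0
    simp only [hV, map_sub, map_sum, map_smul]
    change w (y j) - ∑ i, w (y i) • D i (y j) = 0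
    simp [hDy]
  have hV0 : ∀ w : Der K, (∀ j, w (y j) = 0) → V w = w := fun w hw => by simp [hV, hw]
  obtain ⟨Ω, hΩ⟩ : ∃ Ω : Der K →ₗ[K] Matrix l l K, ∀ w, Ω w = P.map (V w) * Q :=
    ⟨LinearMap.mulRight K Q ∘ₗ xsalgdL P ∘ₗ V, fun w => rfl⟩
  have hΩ0 : ∀ w : Der K, (∀ j, w (y j) = 0) → P.map w = Ω w * P := fun w hw => by
    rw [hΩ, hV0 w hw, mul_assoc, hQ, mul_one]
  obtain ⟨B, hB⟩ : ∃ B : Der K → Matrix l l K, ∀ w, B w = ∑ i, w (y i) • A i :=
    ⟨_, fun _ => rfl⟩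
  have hPw : ∀ w : Der K, P.map w = Ω w * P + P * B w := fun w => by
    rw [hΩ, mul_assoc, hQ, mul_one, hVL, hB, Finset.mul_sum]
    simp only [hA, Matrix.mul_smul, sub_add_cancel]
  have hAw : ∀ (w : Der K) j, (A j).map w = ∑ i, w (y i) • (A j).map (D i) := fun w j => by
    rw [← sub_eq_zero, ← hVL]
    exact hA' j _ (hVy w)
  have hfl : ∀ i j, (A j).map (D i) - (A i).map (D j) = A j * A i - A i * A j := fun i j => by
    have h1 := xsalgd_lie (D i) (D j) P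
    rw [hDD, hA, hA, xsalgd_mul, xsalgd_mul, hA, hA] at h1
    have h2 : P * ((A j).map (D i) - (A i).map (D j) - (A j * A i - A i * A j)) = 0 := by
      rw [show (0 : Matrix l l K) = P.map (0 : Der K) from rfl, h1]
      noncomm_ring
    rw [← sub_eq_zero, ← one_mul (_ - _), ← hQ, mul_assoc, h2, mul_zero]
  have hBl : ∀ w w' : Der K, B ⁅w, w'⁆ =
      B w * B w' - B w' * B w + (B w').map w - (B w).map w' := fun w w' => by
    have e1 : ∑ j, w' (y j) • (A j).map w - ∑ i, w (y i) • (A i).map w' =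
        B w' * B w - B w * B w' := by
      simp only [hAw w, hAw w', hB, Finset.sum_mul_sum, Finset.smul_sum]
      rw [Finset.sum_comm (f := fun i j => w (y i) • w' (y j) • (A i).map (D j)),
        Finset.sum_comm (f := fun i j => w (y i) • A i * w' (y j) • A j),
        ← Finset.sum_sub_distrib, ← Finset.sum_sub_distrib]
      refine Finset.sum_congr rfl fun j _ => ?_
      rw [← Finset.sum_sub_distrib, ← Finset.sum_sub_distrib]
      refine Finset.sum_congr rfl fun i _ => ?_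
      rw [smul_comm (w (y i)), ← smul_sub, ← smul_sub, hfl]
      simp only [Matrix.smul_mul, Matrix.mul_smul, smul_sub, smul_smul, mul_comm]
    have e2 : B ⁅w, w'⁆ = ∑ i, w (w' (y i)) • A i - ∑ i, w' (w (y i)) • A i := by
      simp only [hB, Derivation.commutator_apply, sub_smul, Finset.sum_sub_distrib]
    have e3 := xsalgd_sum w (fun i => w' (y i)) A
    have e4 := xsalgd_sum w' (fun i => w (y i)) A
    rw [← hB] at e3 e4
    rw [e2, e3, e4]
    rw [sub_eq_iff_eq_add.1 e1]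
    abel
  have hD : ∀ j, Ω (D j) = 0 := fun j => by
    rw [hΩ, hVL]
    simp [hDy]
  have mc : ∀ w w' : Der K,
      Ω ⁅w, w'⁆ = (Ω w').map w - (Ω w).map w' - (Ω w * Ω w' - Ω w' * Ω w) := fun w w' => by
    have h1 := xsalgd_lie w w' P
    rw [hPw ⁅w, w'⁆, hBl, hPw w, hPw w', xsalgd_add, xsalgd_add, xsalgd_mul, xsalgd_mul,
      xsalgd_mul, xsalgd_mul, hPw w, hPw w'] at h1
    have h2 : (Ω ⁅w, w'⁆ - ((Ω w').map w - (Ω w).map w' - (Ω w * Ω w' - Ω w' * Ω w))) * P = 0 := by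
      rw [sub_mul, eq_sub_of_add_eq h1]
      noncomm_ring
    rw [← sub_eq_zero, ← mul_one (_ - _), ← hQ', ← mul_assoc, h2, zero_mul]
  refine ⟨⟨y, D, Ω, LinearMap.range Ω, hDy, hD, fun w hw h => hgen w hw ?_, fun w => ⟨w, rfl⟩, ?_,
    mc, span_const _ (Set.range D) (fun f hf => hconst f fun i => hf _ ⟨i, rfl⟩) ?_, hconst⟩,
    rfl, rfl, ?_, fun w hw => ?_⟩
  · rw [hΩ0 w hw, h, zero_mul]
  · rintro _ ⟨w, rfl⟩
    exact ⟨V w, hVy w, by rw [hΩ, hΩ, hV0 _ (hVy w)]⟩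
  · rintro _ ⟨i, rfl⟩ _ ⟨w, rfl⟩
    refine ⟨⁅D i, w⁆, ?_⟩
    rw [mc, hD, xsalge_zero]
    simp
  · rintro _ ⟨w, rfl⟩
    exact ⟨V w, hΩ w⟩
  · exact (hΩ w).trans (by rw [hV0 w hw])

/-- the connection form attached to a mixed frame -/
theorem exists_Par2 {K : Type} [Field K] [Algebra ℂ K] {ι : Type} [Fintype ι] [DecidableEq ι]
    {g k : ℕ} (y : ι → K) (D : ι → Der K) (P : Matrix (LL g) (LL g) K)
    (Um : Matrix (LL g) (Fin k) K) (hP : P ∈ symplecticGroup (Fin g) K)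
    (hDy : ∀ i j, D i (y j) = if i = j then 1 else 0) (hDD : ∀ i j, ⁅D i, D j⁆ = 0)
    (hconst : ∀ f, (∀ i, D i f = 0) → f ∈ Set.range (algebraMap ℂ K))
    (hgen : ∀ w : Der K, (∀ i, w (y i) = 0) → P.map w = 0 → Um.map w = 0 → w = 0)
    (hA : ∀ i, ∃ A : Matrix (LL g) (LL g) K, P.map (D i) = P * A ∧
      ∀ w : Der K, (∀ j, w (y j) = 0) → A.map w = 0)
    (hB : ∀ i, ∃ C : Matrix (LL g) (Fin k) K, Um.map (D i) = P * C ∧
      ∀ w : Der K, (∀ j, w (y j) = 0) → C.map w = 0)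
    (hX : ∀ v : LL g → ℂ, ∃ w : Der K, (∀ j, w (y j) = 0) ∧
      P.map w = (sv v).map (algebraMap ℂ K) * P) :
    ∃ π : Par2 K ι (LL g ⊕ Fin k), π.y = y ∧ π.D = D ∧
      (∀ ξ ∈ π.s, ∃ A ∈ spK g K, ∃ C, ξ = fromBlocks A C 0 0) ∧
      (∀ A ∈ spK g K, ∃ C, fromBlocks A C 0 0 ∈ π.s) ∧
      ∀ w : Der K, (∀ j, w (y j) = 0) → P.map w = (π.Ω w).toBlocks₁₁ * P ∧
        Um.map w = (π.Ω w).toBlocks₁₁ * Um + (π.Ω w).toBlocks₁₂ := by
  obtain ⟨Q, hQ, hQ'⟩ : ∃ Q : Matrix (LL g) (LL g) K, Q * P = 1 ∧ P * Q = 1 :=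
    ⟨P⁻¹, nonsing_inv_mul _ (SymplecticGroup.symplectic_det hP),
      mul_nonsing_inv _ (SymplecticGroup.symplectic_det hP)⟩
  have h0 : ∀ (w : Der K) (M : Matrix (LL g) (LL g) K) (N : Matrix (LL g) (Fin k) K),
      (fromBlocks M N 0 0 : Matrix _ (LL g ⊕ Fin k) K).map w =
        fromBlocks (M.map w) (N.map w) (0 : Matrix (Fin k) _ K) 0 := fun w M N => by
    rw [fromBlocks_map, Matrix.map_zero _ (map_zero w), Matrix.map_zero _ (map_zero w)]
  have h1 : ∀ w : Der K, (fromBlocks P Um 0 1 : Matrix _ (LL g ⊕ Fin k) K).map w =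
      fromBlocks (P.map w) (Um.map w) 0 0 := fun w => by
    rw [fromBlocks_map, Matrix.map_zero _ (map_zero w)]
    congr 1
    ext a b
    rw [map_apply, one_apply]
    split_ifs <;> simp
  have h2 : ∀ w : Der K,
      (fromBlocks P Um 0 1 : Matrix (LL g ⊕ Fin k) (LL g ⊕ Fin k) K).map w *
        (fromBlocks Q (-(Q * Um)) 0 1 : Matrix (LL g ⊕ Fin k) (LL g ⊕ Fin k) K) =
        fromBlocks (P.map w * Q) (Um.map w - P.map w * Q * Um) 0 0 := fun w => by
    rw [h1, fromBlocks_multiply]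
    simp [Matrix.mul_assoc, neg_add_eq_sub]
  obtain ⟨π, e1, e2, e3, e4⟩ := xfexp_gen y D (fromBlocks P Um 0 1) (fromBlocks Q (-(Q * Um)) 0 1)
    (by simp [fromBlocks_multiply, hQ])
    (by simp [fromBlocks_multiply, hQ', ← Matrix.mul_assoc]) hDy hDD hconst
    (fun w hw h => by
      rw [h1, ← fromBlocks_zero, fromBlocks_inj] at h
      exact hgen w hw h.1 h.2.1)
    fun i => by
      obtain ⟨A, a1, a2⟩ := hA i
      obtain ⟨C, c1, c2⟩ := hB i
      exact ⟨fromBlocks A C 0 0, by simp [h1, fromBlocks_multiply, a1, c1],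
        fun w hw => by rw [h0, a2 w hw, c2 w hw, fromBlocks_zero]⟩
  refine ⟨π, e1, e2, fun ξ hξ => ?_, fun A hA => ?_, fun w hw => ?_⟩
  · obtain ⟨w, rfl⟩ := e3 ξ hξ
    exact ⟨_, xsalgd_mem hP hQ w, _, h2 w⟩
  · refine Submodule.span_induction (p := fun A _ => ∃ C, fromBlocks A C 0 0 ∈ π.s)
      ?_ ⟨0, by simp⟩ ?_ ?_ (spK_span hA)
    · rintro _ ⟨v, rfl⟩
      obtain ⟨w, a1, a2⟩ := hX v
      have := π.mem w
      rw [e4 w a1, h2, a2, mul_assoc, hQ', mul_one] at this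
      exact ⟨_, this⟩
    · rintro _ _ - - ⟨C, hC⟩ ⟨C', hC'⟩
      have := add_mem hC hC'
      rw [fromBlocks_add, add_zero, add_zero] at this
      exact ⟨_, this⟩
    · rintro c _ - ⟨C, hC⟩
      have := π.s.smul_mem c hC
      rw [fromBlocks_smul, smul_zero, smul_zero] at this
      exact ⟨_, this⟩
  · rw [e4 w hw, h2, toBlocks_fromBlocks₁₁, toBlocks_fromBlocks₁₂, mul_assoc, hQ, mul_one,
      add_sub_cancel]
    exact ⟨rfl, rfl⟩

end Pool.Agent.MP_cf0a82_ag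

end
end

section

open Complex Filter Topology Matrix Function

noncomputable section

namespace Pool.Agent.MP_cf0a82_ag

open Pool.Agent.MP_f58063_ag

variable {K : Type} [Field K] [Algebra ℂ K] {ι l : Type} [Fintype ι] [DecidableEq ι]
  [Fintype l] [DecidableEq l] (π : Par2 K ι l)

/-- vertical derivations with constant connection form in `r` -/
def xfcoreRC (r : Submodule K (Matrix l l K)) : Set (Der K) := {X | X ∈ π.VertC ∧ π.Ω X ∈ r}

lemma xfcore_span (r : Submodule K (Matrix l l K)) (hr : r ≤ π.s)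
    (hrs : ∀ w : Der K, ∀ ξ ∈ r, ξ.map w ∈ r) {X : Der K} (hX : X ∈ π.Vert) (hXr : π.Ω X ∈ r) :
    X ∈ Submodule.span K (xfcoreRC π r) := by
  have key : ∀ ξ ∈ Submodule.span K {ξ | ξ ∈ r ∧ ∀ a b, ξ a b ∈ Set.range (algebraMap ℂ K)},
      ∃ w ∈ Submodule.span K (xfcoreRC π r), w ∈ π.Vert ∧ π.Ω w = ξ := by
    intro ξ hξ
    induction hξ using Submodule.span_induction with
    | mem ξ hξ =>
      obtain ⟨w, h1, rfl⟩ := π.surj ξ (hr hξ.1)
      exact ⟨w, Submodule.subset_span ⟨⟨h1, hξ.2⟩, hξ.1⟩, h1, rfl⟩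
    | zero => exact ⟨0, zero_mem _, fun _ => rfl, map_zero _⟩
    | add ξ ξ' _ _ h h' =>
      obtain ⟨w, h1, h2, rfl⟩ := h
      obtain ⟨w', h1', h2', rfl⟩ := h'
      exact ⟨w + w', add_mem h1 h1', fun i => by rw [Derivation.add_apply, h2 i, h2' i, add_zero],
        map_add _ _ _⟩
    | smul c ξ _ h =>
      obtain ⟨w, h1, h2, rfl⟩ := h
      exact ⟨c • w, Submodule.smul_mem _ _ h1,
        fun i => by rw [Derivation.smul_apply, h2 i, smul_zero], map_smul _ _ _⟩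
  have hsp := span_const r (Set.range π.D) (fun f hf => π.const f fun i => hf _ ⟨i, rfl⟩)
    (fun D _ u hu => hrs D u hu)
  obtain ⟨w, h1, h2, h3⟩ := key _ (hsp hXr)
  have e : X = w := sub_eq_zero.1 (π.inj _
    (fun i => by rw [Derivation.sub_apply, hX i, h2 i, sub_self]) (by rw [map_sub, h3, sub_self]))
  rwa [e]

lemma xfcore_K1 (r : Submodule K (Matrix l l K)) (hr : r ≤ π.s)
    (hrs : ∀ w : Der K, ∀ ξ ∈ r, ξ.map w ∈ r) : π.K1 r = Kc (xfcoreRC π r) := by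
  ext f
  refine ⟨fun h X hX => h X ⟨hX.1.1, hX.2⟩, fun h X hX => ?_⟩
  have h1 := xfcore_span π r hr hrs hX.1 hX.2
  clear hX
  induction h1 using Submodule.span_induction with
  | mem X hX => exact h X hX
  | zero => rfl
  | add X X' _ _ h1 h2 => rw [Derivation.add_apply, h1, h2, add_zero]
  | smul c X _ h1 => rw [Derivation.smul_apply, h1, smul_zero]

/-- descent of a field of first integrals to the quotient by the radical -/
theorem Par2.descend (r : Submodule K (Matrix l l K)) (hr : r ≤ π.s)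
    (hrs : ∀ w : Der K, ∀ ξ ∈ r, ξ.map w ∈ r)
    (hK : ∀ w : Der K, (∀ f ∈ π.K1 r, w f = 0) → π.Ω w ∈ r) (F : IntermediateField ℂ K)
    (hF : ∀ X ∈ π.VertC, ∀ f ∈ F, X f ∈ F)
    (h : ∀ w : Der K, (∀ f ∈ F, w f = 0) → π.Ω w ∈ r) :
    ∀ w : Der K, (∀ f ∈ F ⊓ π.K1 r, w f = 0) → π.Ω w ∈ r := by
  rw [xfcore_K1 π r hr hrs] at hK ⊢
  intro w hD
  obtain ⟨e, he⟩ := (AlgebraicIndependent.matroid (F ⊓ Kc (xfcoreRC π r) : IntermediateField ℂ K)
    K).exists_isBasis (Kc (xfcoreRC π r)) (Set.subset_univ _)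
  obtain ⟨h1, h2, h3⟩ := AlgebraicIndependent.matroid_isBasis_iff.1 he
  obtain ⟨w₂, hw, hwe⟩ := der_of_algInd F (algInd_of_const F (xfcoreRC π r)
    (fun X hX => hF X hX.1) (e := fun x : e => x.1) (fun j => h2 j.2) h1) fun j => w j
  have h4 : π.Ω (w - w₂) ∈ r := by
    refine hK _ fun f hf => ?_
    refine xsalgf_zero (w := w - w₂) _ (fun f hf => ?_) (fun x hx => ?_) (h3 f hf)
    · rw [Derivation.sub_apply, hw f hf.1, hD f hf, sub_zero]
    · rw [Derivation.sub_apply, hwe ⟨x, hx⟩, sub_self]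
  have h5 := add_mem h4 (h w₂ hw)
  rwa [map_sub, sub_add_cancel] at h5

/-- the differential-algebraic form of the mixed Ax-Schanuel argument -/
theorem Par2.core (r : Submodule K (Matrix l l K)) (hr : r ≤ π.s)
    (hrs : ∀ w : Der K, ∀ ξ ∈ r, ξ.map w ∈ r)
    (hK : ∀ w : Der K, (∀ f ∈ π.K1 r, w f = 0) → π.Ω w ∈ r)
    (hid : ∀ U : Submodule K (Matrix l l K), U ≤ π.s →
      (∀ η ∈ π.s, ∀ ξ ∈ U, η * ξ - ξ * η ∈ U) → U ≤ r ∨ U = π.s)
    (T : Set K) (hT : ∀ X ∈ π.VertC, ∀ f ∈ T, X f ∈ Submodule.span ℂ T)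
    (hp : ¬ ∀ w₀ ∈ π.Vert, ∃ a : ι → K, ∀ f ∈ T, (w₀ + ∑ i, a i • π.D i) f = 0)
    {f₀ : K} (h0 : f₀ ∈ T) (h1 : f₀ ∈ π.K1 r) (h2 : f₀ ∉ Kc π.Vert) :
    ∃ F : IntermediateField ℂ K, F ≤ π.K1 r ∧
      (∀ w : Der K, (∀ f ∈ F, w f = 0) → π.Ω w ∈ r) ∧ ∀ v ∈ π.Hk T, ∀ f ∈ F, v f = 0 := by
  have hC := π.Kc_Hk_stable hT
  have hTC := xfpg_le_Kc π T
  set C := Kc (π.Hk T) with hCdef
  have hle0 : (C ⊓ Kc π.Vert : IntermediateField ℂ K) ≤ Kc π.Vert := inf_le_right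
  have hcl : ∀ f : K, IsAlgebraic (C ⊓ Kc π.Vert : IntermediateField ℂ K) f →
      f ∈ (C ⊓ Kc π.Vert : IntermediateField ℂ K) := fun f hf =>
    ⟨Kc_closed (π.Hk T) _ inf_le_left hf, Kc_closed π.Vert _ inf_le_right hf⟩
  have hlift := fun D => xfpg_lift π C hC (D := D)
  have hleC : (C ⊓ Kc π.Vert : IntermediateField ℂ K) ≤ C := inf_le_left
  set C₀ : IntermediateField ℂ K := C ⊓ Kc π.Vert with hC0def
  have hC0F := xfpg_le_Kc π (C₀ : Set K)
  have hns : xfpgN π (Kc (π.Hk (C₀ : Set K))) ≤ π.s := by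
    rintro _ ⟨X, -, -, rfl⟩
    exact π.mem X
  rcases hid _ hns (xfpg_ideal π C₀ hle0 hcl) with hn | hn
  · have hT0 : ∀ X ∈ π.VertC, ∀ f ∈ (C₀ : Set K), X f ∈ Submodule.span ℂ (C₀ : Set K) := by
      intro X hX f hf
      rw [hle0 hf X hX.1]
      exact Submodule.zero_mem _
    refine ⟨Kc (π.Hk (C₀ : Set K)) ⊓ π.K1 r, inf_le_right,
      π.descend r hr hrs hK _ (π.Kc_Hk_stable hT0) fun w hw => ?_, fun v hv f hf => ?_⟩
    · have h3 : π.hor w ∈ π.Hk (C₀ : Set K) := by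
        refine ⟨π.Ω_hor w, fun f hf => ?_⟩
        have h4 := hle0 hf _ (π.sub_hor w)
        rw [Derivation.sub_apply, hw f (hC0F f hf), zero_sub, neg_eq_zero] at h4
        exact h4
      have h4 : π.Ω (w - π.hor w) ∈ xfpgN π (Kc (π.Hk (C₀ : Set K))) :=
        ⟨w - π.hor w, π.sub_hor w, fun f hf => by
          rw [Derivation.sub_apply, hw f hf, hf _ h3, sub_zero], rfl⟩
      have h5 := hn h4
      rwa [map_sub, π.Ω_hor, sub_zero] at h5
    · exact hf.1 v ⟨hv.1, fun g hg => hleC hg v hv⟩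
  · exfalso
    have hVF : ∀ X ∈ π.Vert, ∀ f ∈ Kc (π.Hk (C₀ : Set K)), X f = 0 := by
      intro X hX
      have h3 : π.Ω X ∈ xfpgN π (Kc (π.Hk (C₀ : Set K))) := by
        rw [hn]
        exact π.mem X
      obtain ⟨X', hX', hF, hΩ⟩ := h3
      have h4 : X - X' = 0 := by
        refine π.inj _ (fun i => ?_) (by rw [map_sub, hΩ, sub_self])
        have h5 : X (π.y i) = 0 := hX i
        have h6 : X' (π.y i) = 0 := hX' i
        rw [Derivation.sub_apply, h5, h6, sub_zero]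
      rw [sub_eq_zero.1 h4]
      exact hF
    have ha : ∀ D ∈ π.Hk (C₀ : Set K), ∀ ξ ∈ π.hh C, ξ.map D ∈ π.hh C := by
      intro D hD
      obtain ⟨w, hw, rfl⟩ := hlift D hD
      exact π.hh_hor hT hw
    have hhs : π.hh C ≤ π.s := by
      rintro _ ⟨w, -, rfl⟩
      exact π.mem w
    have hideal : ∀ η ∈ π.s, ∀ ξ ∈ π.hh C, η * ξ - ξ * η ∈ π.hh C := by
      intro η hη ξ hξ
      obtain ⟨X, hX, rfl⟩ := π.surj η hη
      have h3 := stable_of_const_mat (π.hh C) _ ha (hVF X hX) ξ hξ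
      have h4 := Submodule.sub_mem _ h3 (π.hh_vert hT X hX ξ hξ)
      rwa [sub_sub_cancel] at h4
    rcases hid _ hhs hideal with hh | hh
    · refine h2 fun X hX => hVF X hX f₀ fun D hD => ?_
      obtain ⟨w, hw, rfl⟩ := hlift D hD
      have h3 : π.Ω (w - π.hor w) ∈ r := by
        rw [map_sub, π.Ω_hor, sub_zero]
        exact hh ⟨w, hw, rfl⟩
      have h4 := h1 _ ⟨π.sub_hor w, h3⟩
      rwa [Derivation.sub_apply, hw f₀ (hTC f₀ h0), zero_sub, neg_eq_zero] at h4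
    · refine hp fun w₀ _ => ?_
      have h3 : π.Ω w₀ ∈ π.hh C := by
        rw [hh]
        exact π.mem w₀
      obtain ⟨w, hw, hΩ⟩ := h3
      have h4 : w - w₀ = π.hor (w - w₀) := π.eq_hor (by rw [map_sub, hΩ, sub_self])
      refine ⟨fun i => (w - w₀) (π.y i), fun f hf => ?_⟩
      have h5 : w₀ + ∑ i, (w - w₀) (π.y i) • π.D i = w := by
        change w₀ + π.hor (w - w₀) = w
        rw [← h4, add_sub_cancel]
      rw [h5]
      exact hw f (hTC f hf)

end Pool.Agent.MP_cf0a82_ag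

end
end
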