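import Pool.Agent.Mg.Fcf0a82q.G40f606
import Pool.Agent.Mg.Fcf0a82q.Ga9bf1b
import Pool.Agent.Mg.Fcf0a82q.Gab6703
import Pool.Agent.Mg.Fcf0a82q.G43b963
import Pool.Agent.Mg.Fcf0a82q.G9185b4

section

open Complex Filter Topology Matrix Function

noncomputable section

namespace Pool.Agent.MP_cf0a82_ag

open Pool.Agent.MP_f58063_ag

variable {K : Type} [Field K] [CharZero K] {g k : ℕ}

/-- the upper left block as a linear map -/
def xfidealT (K : Type) [Field K] (l m : Type) :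
    Matrix (l ⊕ m) (l ⊕ m) K →ₗ[K] Matrix l l K where
  toFun ξ := ξ.toBlocks₁₁
  map_add' _ _ := rfl
  map_smul' _ _ := rfl

theorem xfideal_br {K l m : Type} [Field K] [Fintype l] [Fintype m] (A B : Matrix l l K)
    (C D : Matrix l m K) :
    (fromBlocks A C 0 0 : Matrix (l ⊕ m) (l ⊕ m) K) * fromBlocks B D 0 0 -
      fromBlocks B D 0 0 * fromBlocks A C 0 0 = fromBlocks (A * B - B * A) (A * D - B * C) 0 0 := by
  rw [fromBlocks_multiply, fromBlocks_multiply]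
  ext (i | i) (j | j) <;> simp

theorem xfideal_dual {K l : Type} [Field K] [Fintype l] [DecidableEq l] (f : (l → K) →ₗ[K] K)
    (x : l → K) : x ⬝ᵥ (fun i => f (Pi.single i 1)) = f x := by
  rw [LinearMap.pi_apply_eq_sum_univ f x, dotProduct]
  refine Finset.sum_congr rfl fun i _ => ?_
  rw [smul_eq_mul]
  congr 2
  funext j
  simp [Pi.single_apply, eq_comm]

omit [CharZero K] in
theorem xfideal_JJ (u : LL g → K) : J (Fin g) K *ᵥ (-(J (Fin g) K *ᵥ u)) = u := by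
  rw [mulVec_neg, mulVec_mulVec, J_squared, neg_mulVec, one_mulVec, neg_neg]

theorem delta_mem : (fromBlocks 1 0 0 (-1) : Matrix (LL g) (LL g) K) ∈ spK g K := by
  rw [mem_spK, J, fromBlocks_transpose, fromBlocks_multiply, fromBlocks_multiply, fromBlocks_add]
  simp

/-- the ideals of a semidirect product with the symplectic Lie algebra -/
theorem ideal_cases (s U : Submodule K (Matrix (LL g ⊕ Fin k) (LL g ⊕ Fin k) K))
    (h1 : ∀ ξ ∈ s, ∃ A ∈ spK g K, ∃ C, ξ = fromBlocks A C 0 0)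
    (h2 : ∀ A ∈ spK g K, ∃ C, fromBlocks A C 0 0 ∈ s) (hU : U ≤ s)
    (h : ∀ η ∈ s, ∀ ξ ∈ U, η * ξ - ξ * η ∈ U) : (∀ ξ ∈ U, ξ.toBlocks₁₁ = 0) ∨ U = s := by
  have hle : U.map (xfidealT K (LL g) (Fin k)) ≤ spK g K := by
    rintro _ ⟨ξ, hξ, rfl⟩
    obtain ⟨A, hA, C, rfl⟩ := h1 ξ (hU hξ)
    exact hA
  have hid : ∀ η ∈ spK g K, ∀ ξ ∈ U.map (xfidealT K (LL g) (Fin k)),
      η * ξ - ξ * η ∈ U.map (xfidealT K (LL g) (Fin k)) := by
    rintro η hη _ ⟨ξ, hξ, rfl⟩
    obtain ⟨A, -, C, rfl⟩ := h1 ξ (hU hξ)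
    obtain ⟨D, hD⟩ := h2 η hη
    have := h _ hD _ hξ
    rw [xfideal_br] at this
    exact ⟨_, this, rfl⟩
  rcases spK_simple _ hle hid with h0 | h0
  · left
    intro ξ hξ
    have : xfidealT K (LL g) (Fin k) ξ ∈ U.map (xfidealT K (LL g) (Fin k)) := ⟨ξ, hξ, rfl⟩
    rw [h0] at this
    exact this
  · right
    have lift : ∀ A ∈ spK g K, ∃ C, fromBlocks A C 0 0 ∈ U := by
      intro A hA
      rw [← h0] at hA
      obtain ⟨ξ, hξ, rfl⟩ := hA
      obtain ⟨A, -, C, rfl⟩ := h1 ξ (hU hξ)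
      exact ⟨C, hξ⟩
    obtain ⟨D, hD⟩ := lift _ delta_mem
    have step : ∀ C : Matrix (LL g) (Fin k) K, fromBlocks 0 C 0 0 ∈ s →
        fromBlocks 0 (-((fromBlocks 1 0 0 (-1) : Matrix (LL g) (LL g) K) * C)) 0 0 ∈ U := by
      intro C hC
      have := h _ hC _ hD
      rw [xfideal_br] at this
      simpa using this
    have dd : (fromBlocks 1 0 0 (-1) : Matrix (LL g) (LL g) K) * fromBlocks 1 0 0 (-1) = 1 := by
      rw [fromBlocks_multiply]
      simp
    refine le_antisymm hU fun ξ hξ => ?_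
    obtain ⟨A, hA, C, rfl⟩ := h1 ξ hξ
    obtain ⟨C', hC'⟩ := lift A hA
    have e : (fromBlocks A C 0 0 : Matrix (LL g ⊕ Fin k) (LL g ⊕ Fin k) K) - fromBlocks A C' 0 0 =
        fromBlocks 0 (C - C') 0 0 := by
      ext (i | i) (j | j) <;> simp
    have h3 := s.sub_mem hξ (hU hC')
    rw [e] at h3
    have h4 := step _ (hU (step _ h3))
    rw [Matrix.mul_neg, neg_neg, ← Matrix.mul_assoc, dd, Matrix.one_mul, ← e] at h4
    simpa using U.add_mem h4 hC'

/-- submodules of a power of the standard representation -/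
theorem rad_rows (R : Submodule K (Matrix (LL g) (Fin k) K))
    (h : ∀ A ∈ spK g K, ∀ C ∈ R, A * C ∈ R) :
    ∀ C ∈ R, ∀ a v, vecMulVec v (C a) ∈ R := by
  intro C hC a v
  by_cases hv : v = 0
  · subst hv
    simp
  have step : ∀ w, v ᵥ* J (Fin g) K ⬝ᵥ w ≠ 0 → vecMulVec v (w ᵥ* (J (Fin g) K * C)) ∈ R := by
    intro w hw
    have h1 := h _ (sv_mem v) _ (h _ (sv_mem w) _ hC)
    rw [sv, sv, Matrix.mul_assoc (vecMulVec w w), vecMulVec_mul w w, vecMulVec_mul v v,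
      vecMulVec_mul_vecMulVec, vecMulVec_smul] at h1
    exact (R.smul_mem_iff hw).1 h1
  obtain ⟨w0, hw0⟩ : ∃ w, v ᵥ* J (Fin g) K ⬝ᵥ w ≠ 0 := by
    by_contra! h0
    have h1 : v ᵥ* J (Fin g) K = 0 := funext fun i => by simpa using h0 (Pi.single i 1)
    have h2 : v ᵥ* J (Fin g) K ᵥ* J (Fin g) K = 0 := by rw [h1, zero_vecMul]
    rw [vecMul_vecMul, J_squared] at h2
    exact hv (by simpa [vecMul_neg] using h2)
  have all : ∀ w, vecMulVec v (w ᵥ* (J (Fin g) K * C)) ∈ R := by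
    intro w
    by_cases hw : v ᵥ* J (Fin g) K ⬝ᵥ w = 0
    · have h1 := R.sub_mem (step (w + w0) (by simpa [hw] using hw0)) (step w0 hw0)
      rwa [add_vecMul, vecMulVec_add, add_sub_cancel_right] at h1
    · exact step w hw
  have h1 := all (-(Pi.single a 1 ᵥ* J (Fin g) K))
  rw [neg_vecMul, vecMul_vecMul, ← Matrix.mul_assoc, J_squared, Matrix.neg_mul, Matrix.one_mul,
    vecMul_neg, neg_neg, single_one_vecMul] at h1
  exact h1

theorem exists_dual2 {m : Fin 2 → LL g → K} (h : LinearIndependent K m) :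
    ∃ v, m 0 ⬝ᵥ J (Fin g) K *ᵥ v = 0 ∧ m 1 ⬝ᵥ J (Fin g) K *ᵥ v = -1 := by
  obtain ⟨ψ, hψ⟩ := LinearMap.exists_leftInverse_of_injective (Fintype.linearCombination K m)
    (LinearMap.ker_eq_bot.2 h.fintypeLinearCombination_injective)
  have e : ∀ b, ψ (m b) = Pi.single b 1 := by
    intro b
    have := LinearMap.congr_fun hψ (Pi.single b 1)
    simpa using this
  refine ⟨-(J (Fin g) K *ᵥ fun i => (-(LinearMap.proj 1 ∘ₗ ψ) : (LL g → K) →ₗ[K] K)
    (Pi.single i 1)), ?_, ?_⟩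
  · rw [xfideal_JJ, xfideal_dual]
    simp [e]
  · rw [xfideal_JJ, xfideal_dual]
    simp [e]

theorem mu_indep {P : Matrix (LL g) (LL g) K} (hP : IsUnit P.det) {q : Fin 2 → Fin g → K}
    (h : LinearIndependent K q) : LinearIndependent K fun b => mu P (q b) := by
  let L : (Fin g → K) →ₗ[K] LL g → K :=
    { toFun := fun x => mu P x
      map_add' := fun x y => by
        rw [mu, mu, mu, ← mulVec_add]
        congr 1
        funext i
        rcases i with i | i <;> simp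
      map_smul' := fun c x => by
        rw [mu, mu, RingHom.id_apply, ← mulVec_smul]
        congr 1
        funext i
        rcases i with i | i <;> simp }
  refine h.map' L (LinearMap.ker_eq_bot'.2 fun x hx => ?_)
  have h1 : P *ᵥ Sum.elim 0 x = 0 := hx
  have h2 : P⁻¹ *ᵥ P *ᵥ Sum.elim 0 x = 0 := by rw [h1, mulVec_zero]
  rw [mulVec_mulVec, nonsing_inv_mul _ hP, one_mulVec] at h2
  funext i
  exact congrFun h2 (Sum.inr i)

/-- a subspace and the conjugate of its orthogonal span everything -/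
theorem conj_top (E Z : Submodule ℂ (Fin k → ℂ)) (h1 : E ≤ Z)
    (h2 : ∀ c : Fin k → ℂ, (∀ e ∈ E, c ⬝ᵥ e = 0) → star c ∈ Z) : Z = ⊤ := by
  by_contra hZ
  obtain ⟨f, hf0, hf⟩ := Z.exists_le_ker_of_lt_top (lt_top_iff_ne_top.2 hZ)
  have h3 : ∀ z ∈ Z, (fun i => f (Pi.single i 1)) ⬝ᵥ z = 0 := by
    intro z hz
    rw [dotProduct_comm, xfideal_dual]
    exact hf hz
  have h4 := h3 _ (h2 _ fun e he => h3 e (h1 he))
  have h5 : (fun i => f (Pi.single i 1)) = 0 := by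
    open ComplexOrder in exact dotProduct_self_star_eq_zero.1 h4
  refine hf0 (LinearMap.ext fun x => ?_)
  rw [← xfideal_dual f x, h5, dotProduct_zero, LinearMap.zero_apply]

end Pool.Agent.MP_cf0a82_ag

end
end

section

open Complex Filter Topology Matrix Function

noncomputable section

namespace Pool.Agent.MP_cf0a82_ag

open Pool.Agent.MP_f58063_ag

section aux

variable {K : Type} [Field K] [Algebra ℂ K]

/-- the elements with vanishing upper left block -/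
def xfalgkR {l m : Type} (s : Submodule K (Matrix (l ⊕ m) (l ⊕ m) K)) :
    Submodule K (Matrix (l ⊕ m) (l ⊕ m) K) where
  carrier := {ξ | ξ ∈ s ∧ ξ.toBlocks₁₁ = 0}
  add_mem' := fun {a b} ha hb => ⟨add_mem ha.1 hb.1, by
    change a.toBlocks₁₁ + b.toBlocks₁₁ = 0
    rw [ha.2, hb.2, add_zero]⟩
  zero_mem' := ⟨zero_mem _, rfl⟩
  smul_mem' := fun c a ha => ⟨s.smul_mem c ha.1, by
    change c • a.toBlocks₁₁ = 0
    rw [ha.2, smul_zero]⟩

/-- the upper right blocks of the elements with vanishing other blocks -/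
def xfalgkC {l m : Type} (s : Submodule K (Matrix (l ⊕ m) (l ⊕ m) K)) :
    Submodule K (Matrix l m K) where
  carrier := {C | fromBlocks 0 C 0 0 ∈ s}
  add_mem' := fun {a b} ha hb => by
    have h := add_mem (show fromBlocks 0 a 0 0 ∈ s from ha) (show fromBlocks 0 b 0 0 ∈ s from hb)
    rw [fromBlocks_add, add_zero, add_zero, add_zero] at h
    exact h
  zero_mem' := by
    change fromBlocks 0 0 0 0 ∈ s
    rw [fromBlocks_zero]
    exact zero_mem _
  smul_mem' := fun c a ha => by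
    have h := s.smul_mem c (show fromBlocks 0 a 0 0 ∈ s from ha)
    rw [fromBlocks_smul, smul_zero, smul_zero, smul_zero] at h
    exact h

/-- the constant rows all of whose multiples lie in `R` -/
def xfalgkE {l m : Type} (R : Submodule K (Matrix l m K)) : Submodule ℂ (m → ℂ) where
  carrier := {c | ∀ v : l → K, vecMulVec v (fun a => algebraMap ℂ K (c a)) ∈ R}
  add_mem' := fun {a b} ha hb v => by
    convert add_mem (ha v) (hb v) using 1
    ext i j
    simp [vecMulVec_apply, mul_add]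
  zero_mem' := fun v => by
    convert zero_mem R using 1
    ext i j
    simp [vecMulVec_apply]
  smul_mem' := fun c a ha v => by
    convert R.smul_mem (algebraMap ℂ K c) (ha v) using 1
    ext i j
    simp only [vecMulVec_apply, Pi.smul_apply, smul_eq_mul, map_mul, Matrix.smul_apply]
    ring

lemma xfalgk_mulVec {l m : Type} [Fintype m] (w : Der K) (A : Matrix l m K) (x : m → K) :
    (fun i => w ((A *ᵥ x) i)) = A.map w *ᵥ x + A *ᵥ fun j => w (x j) := by
  ext i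
  simp only [mulVec, dotProduct, map_sum, Derivation.leibniz, smul_eq_mul, Pi.add_apply,
    map_apply, ← Finset.sum_add_distrib]
  exact Finset.sum_congr rfl fun j _ => by ring

lemma xfalgk_dot {m : Type} [Fintype m] (w : Der K) (x z : m → K) :
    w (x ⬝ᵥ z) = (fun j => w (x j)) ⬝ᵥ z + x ⬝ᵥ fun j => w (z j) := by
  simp only [dotProduct, map_sum, Derivation.leibniz, smul_eq_mul, ← Finset.sum_add_distrib]
  exact Finset.sum_congr rfl fun j _ => by ring

lemma xfalgk_Jc {g : ℕ} (a b : LL g) : J (Fin g) K a b ∈ (algebraMap ℂ K).range := by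
  have h : J (Fin g) K = (J (Fin g) ℂ).map (algebraMap ℂ K) := by
    rw [J, J, fromBlocks_map, Matrix.map_neg _ (map_neg _), Matrix.map_zero _ (map_zero _),
      Matrix.map_one _ (map_zero _) (map_one _)]
  rw [h]
  exact ⟨_, rfl⟩

omit [Algebra ℂ K] in
lemma xfalgk_sp {g : ℕ} {A : Matrix (LL g) (LL g) K} (hA : A ∈ spK g K) :
    Aᵀ * J (Fin g) K + J (Fin g) K * A = 0 := by
  have h := congrArg (fun M => J (Fin g) K * M * J (Fin g) K) (mem_spK.1 hA)
  simp only [Matrix.mul_add, Matrix.add_mul, Matrix.mul_zero, Matrix.zero_mul] at h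
  rw [← Matrix.mul_assoc, Matrix.mul_assoc (J (Fin g) K * A), J_squared, ← Matrix.mul_assoc,
    J_squared] at h
  simp only [Matrix.mul_neg, Matrix.neg_mul, Matrix.mul_one, Matrix.one_mul] at h
  rw [add_comm, ← neg_eq_zero, neg_add]
  exact h

lemma xfalgk_mu {g : ℕ} {P A : Matrix (LL g) (LL g) K} {q : Fin g → K} {w : Der K}
    (hP : P.map w = A * P) (hq : ∀ a, w (q a) = 0) :
    (fun j => w (mu P q j)) = A *ᵥ mu P q := by
  have h : (fun j => w (Sum.elim (0 : Fin g → K) q j)) = 0 := by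
    ext j
    cases j with
    | inl j => exact map_zero w
    | inr j => exact hq j
  rw [mu, xfalgk_mulVec, h, mulVec_zero, add_zero, hP, mulVec_mulVec]

lemma xfalgk_fb {g k : ℕ} {P A : Matrix (LL g) (LL g) K} {Um C : Matrix (LL g) (Fin k) K}
    {q : Fin g → K} {w : Der K} (hA : A ∈ spK g K) (hP : P.map w = A * P)
    (hU : Um.map w = A * Um + C) (hq : ∀ a, w (q a) = 0) (l : Fin k) :
    w (fb P Um q l) = mu P q ⬝ᵥ J (Fin g) K *ᵥ fun i => C i l := by
  have h1 : (fun i => w (Um i l)) = A *ᵥ (fun i => Um i l) + fun i => C i l := by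
    ext i
    exact congrFun (congrFun hU i) l
  have h2 : (J (Fin g) K).map w = 0 := xsalge_const (fun a b => xfalgk_Jc a b) w
  have h3 : (A *ᵥ mu P q) ⬝ᵥ J (Fin g) K *ᵥ (fun i => Um i l) +
      mu P q ⬝ᵥ J (Fin g) K *ᵥ A *ᵥ (fun i => Um i l) = 0 := by
    rw [← vecMul_transpose, ← dotProduct_mulVec, mulVec_mulVec, mulVec_mulVec, ← dotProduct_add,
      ← add_mulVec, xfalgk_sp hA, zero_mulVec, dotProduct_zero]
  rw [fb, xfalgk_dot, xfalgk_mu hP hq, xfalgk_mulVec, h2, zero_mulVec, zero_add, h1, mulVec_add,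
    dotProduct_add, ← add_assoc, h3, zero_add]

lemma xfalgk_span {m : Type} [Fintype m] {T : Set K} {x c : m → K} (hx : ∀ i, x i ∈ T)
    (hc : ∀ i, c i ∈ (algebraMap ℂ K).range) : c ⬝ᵥ x ∈ Submodule.span ℂ T := by
  refine Submodule.sum_mem _ fun i _ => ?_
  obtain ⟨e, he⟩ := hc i
  rw [← he, ← Algebra.smul_def]
  exact Submodule.smul_mem _ _ (Submodule.subset_span (hx i))

lemma xfalgk_perp {ι : Type} [Fintype ι] [DecidableEq ι] {g k : ℕ}
    (π : Par2 K ι (LL g ⊕ Fin k)) (hs2 : ∀ A ∈ spK g K, ∃ C, fromBlocks A C 0 0 ∈ π.s)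
    {c : Fin k → ℂ} (hc : ∀ e ∈ xfalgkE (xfalgkC π.s), c ⬝ᵥ e = 0) :
    ∀ C ∈ xfalgkC π.s, C *ᵥ (fun l => algebraMap ℂ K (c l)) = 0 := by
  have : CharZero K := charZero_of_injective_algebraMap (algebraMap ℂ K).injective
  have h1 : ∀ A ∈ spK g K, ∀ C ∈ xfalgkC π.s, A * C ∈ xfalgkC π.s := by
    intro A hA C hC
    obtain ⟨C', hC'⟩ := hs2 A hA
    have h := π.lie_mem _ hC' _ (show fromBlocks 0 C 0 0 ∈ π.s from hC)
    rw [fromBlocks_multiply, fromBlocks_multiply] at h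
    simp only [Matrix.mul_zero, Matrix.zero_mul, add_zero, fromBlocks_zero, sub_zero] at h
    exact h
  have h2 := span_const (xfalgkC π.s) (Set.range π.D)
    (fun f hf => π.const f fun i => hf _ ⟨i, rfl⟩) fun w _ C hC => by
      have h := π.map_mem w _ (show fromBlocks 0 C 0 0 ∈ π.s from hC)
      rw [xsalgi_blocks, xsalgi_zero, xsalgi_zero, xsalgi_zero] at h
      exact h
  intro C hC
  have h3 := h2 hC
  clear hC
  induction h3 using Submodule.span_induction with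
  | mem C hC =>
    ext a
    choose e he using hC.2 a
    have h4 : C a = fun l => algebraMap ℂ K (e l) := funext fun l => (he l).symm
    have h5 : e ∈ xfalgkE (xfalgkC π.s) := fun v => h4 ▸ rad_rows _ h1 C hC.1 a v
    have h6 := congrArg (algebraMap ℂ K) (hc e h5)
    rw [map_zero, dotProduct, map_sum] at h6
    change C a ⬝ᵥ _ = 0
    rw [h4, dotProduct, ← h6]
    exact Finset.sum_congr rfl fun l _ => by rw [map_mul, mul_comm]
  | zero => exact zero_mulVec _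
  | add x z _ _ hx hz => rw [add_mulVec, hx, hz, add_zero]
  | smul a x _ hx => rw [smul_mulVec, hx, smul_zero]

end aux

theorem algK2 {K : Type} [Field K] [Algebra ℂ K] {ι : Type} [Fintype ι] [DecidableEq ι]
    {g k : ℕ} (y : ι → K) (D : ι → Der K) (τ ψ V W : Matrix (Fin g) (Fin g) K)
    (P : Matrix (LL g) (LL g) K) (hP : P = Pm τ ψ V W)
    (Um : Matrix (LL g) (Fin k) K) (q : Fin 2 → Fin g → K)
    (hτ : τᵀ = τ) (hψ : ψᵀ = ψ) (hV : V * W = 1)
    (hDy : ∀ i j, D i (y j) = if i = j then 1 else 0) (hDD : ∀ i j, ⁅D i, D j⁆ = 0)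
    (hconst : ∀ f, (∀ i, D i f = 0) → f ∈ Set.range (algebraMap ℂ K))
    (hgen : ∀ w : Der K, (∀ i, w (y i) = 0) → P.map w = 0 → Um.map w = 0 → w = 0)
    (hA : ∀ i, ∃ A : Matrix (LL g) (LL g) K, P.map (D i) = P * A ∧
      ∀ w : Der K, (∀ j, w (y j) = 0) → A.map w = 0)
    (hB : ∀ i, ∃ C : Matrix (LL g) (Fin k) K, Um.map (D i) = P * C ∧
      ∀ w : Der K, (∀ j, w (y j) = 0) → C.map w = 0)
    (hX : ∀ v : LL g → ℂ, ∃ w : Der K, (∀ j, w (y j) = 0) ∧
      P.map w = (sv v).map (algebraMap ℂ K) * P)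
    (hqk : ∀ w : Der K, (∀ j, w (y j) = 0) → ∀ b a, w (q b a) = 0)
    (hq : LinearIndependent K q) (Z : Submodule ℂ (Fin k → ℂ)) (hZ : Z ≠ ⊤)
    (hC2 : ∀ (a : ι → K) (c : Fin k → ℂ), (∀ b j, ∑ i, a i * D i (mu P (q b) j) = 0) →
      (∀ l, ∑ i, a i * D i (fb P Um (q 0) l) = 0) →
      (∀ l, ∑ i, a i * D i (fb P Um (q 1) l) = algebraMap ℂ K (c l)) → c ∈ Z)
    (hC3 : ∃ a : ι → K, (∀ b j, ∑ i, a i * D i (mu P (q b) j) = 0) ∧
      (∀ b l, ∑ i, a i * D i (fb P Um (q b) l) = 0) ∧ ∃ b c, ∑ i, a i * D i (τ b c) ≠ 0)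
    (hcj : ∀ c : Fin k → ℂ, (∀ w : Der K, (∀ j, w (y j) = 0) → P.map w = 0 →
      ∀ j, w (∑ l, algebraMap ℂ K (c l) * Um j l) = 0) → star c ∈ Z) :
    ∃ (F : IntermediateField ℂ K) (u : Fin g → ℤ) (a : ι → K), ∑ i, a i * D i (qf τ u) = 1 ∧
      (∀ φ ∈ F, ∑ i, a i * D i φ = 0) ∧
      (∀ a' : ι → K, (∀ φ ∈ F, ∑ i, a' i * D i φ = 0) → ∃ c : K, a' = c • a) ∧
      ∀ f : K, (∀ w : Der K, (∀ j, w (y j) = 0) → P.map w = 0 → w f = 0) →
        IsAlgebraic (Algebra.adjoin F {qf τ u}) f := by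
  have : CharZero K := charZero_of_injective_algebraMap (algebraMap ℂ K).injective
  obtain ⟨π, hy, hD, hs1, hs2, hΩ⟩ := exists_Par2 y D P Um (hP ▸ Pm_mem hτ hψ hV) hDy hDD hconst
    hgen hA hB hX
  subst hy hD
  have hdet : IsUnit P.det := by
    rw [hP, Pm_det τ ψ hV]
    exact isUnit_one
  have hind := mu_indep hdet hq
  have hsp : ∀ w : Der K, (π.Ω w).toBlocks₁₁ ∈ spK g K := fun w => by
    obtain ⟨A, hA, C, h⟩ := hs1 _ (π.mem w)
    rwa [h, toBlocks_fromBlocks₁₁]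
  have hmu : ∀ w : Der K, (∀ j, w (π.y j) = 0) → ∀ b j,
      w (mu P (q b) j) = ((π.Ω w).toBlocks₁₁ *ᵥ mu P (q b)) j := fun w hw b j =>
    congrFun (xfalgk_mu (hΩ w hw).1 (hqk w hw b)) j
  have hfb : ∀ w : Der K, (∀ j, w (π.y j) = 0) → ∀ b l, w (fb P Um (q b) l) =
      mu P (q b) ⬝ᵥ J (Fin g) K *ᵥ fun i => (π.Ω w).toBlocks₁₂ i l := fun w hw b l =>
    xfalgk_fb (hsp w) (hΩ w hw).1 (hΩ w hw).2 (hqk w hw b) l
  have hz : ∀ w : Der K, (∀ j, w (π.y j) = 0) → (P.map w = 0 ↔ (π.Ω w).toBlocks₁₁ = 0) := by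
    intro w hw
    rw [(hΩ w hw).1]
    refine ⟨fun h => ?_, fun h => by rw [h, Matrix.zero_mul]⟩
    have h1 := congrArg (· * P⁻¹) h
    simpa only [Matrix.mul_assoc, mul_nonsing_inv _ hdet, Matrix.mul_one, Matrix.zero_mul] using h1
  have hK1 : ∀ f, f ∈ π.K1 (xfalgkR π.s) ↔
      ∀ w : Der K, (∀ j, w (π.y j) = 0) → P.map w = 0 → w f = 0 := fun f =>
    ⟨fun h w hw h0 => h w ⟨hw, π.mem w, (hz w hw).1 h0⟩,
      fun h w hw => h w hw.1 ((hz w hw.1).2 hw.2.2)⟩
  have hyK : ∀ j, π.y j ∈ π.K1 (xfalgkR π.s) := fun j => (hK1 _).2 fun w hw _ => hw j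
  obtain ⟨T, hT⟩ : ∃ T : Set K, T = (Set.range fun p : Fin 2 × LL g => mu P (q p.1) p.2) ∪
    Set.range fun p : Fin 2 × Fin k => fb P Um (q p.1) p.2 := ⟨_, rfl⟩
  have hT1 : ∀ b j, mu P (q b) j ∈ T := fun b j => hT ▸ Or.inl ⟨(b, j), rfl⟩
  have hT2 : ∀ b l, fb P Um (q b) l ∈ T := fun b l => hT ▸ Or.inr ⟨(b, l), rfl⟩
  have hT3 : ∀ p : K → Prop, (∀ b j, p (mu P (q b) j)) → (∀ b l, p (fb P Um (q b) l)) →
      ∀ f ∈ T, p f := by
    rw [hT]
    rintro p h1 h2 _ (⟨x, rfl⟩ | ⟨x, rfl⟩)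
    exacts [h1 _ _, h2 _ _]
  have hp : ¬ ∀ w₀ ∈ π.Vert, ∃ a : ι → K, ∀ f ∈ T, (w₀ + ∑ i, a i • π.D i) f = 0 := by
    refine fun H => hZ (conj_top (xfalgkE (xfalgkC π.s)) Z (fun c hc => ?_)
      fun c hc => hcj c fun w hw h0 j => ?_)
    · obtain ⟨v, hv0, hv1⟩ := exists_dual2 hind
      obtain ⟨w₀, hw₀, hΩ₀⟩ := π.surj _ (show fromBlocks 0 _ 0 0 ∈ π.s from hc v)
      obtain ⟨a, ha⟩ := H w₀ hw₀
      have h1 : ∀ f ∈ T, ∑ i, a i * π.D i f = -w₀ f := fun f hf => by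
        have h := ha f hf
        rw [Derivation.add_apply, xsalgi_sum_apply] at h
        exact eq_neg_of_add_eq_zero_right h
      have h2 : ∀ b l, w₀ (fb P Um (q b) l) =
          algebraMap ℂ K (c l) * (mu P (q b) ⬝ᵥ J (Fin g) K *ᵥ v) := fun b l => by
        have h : (fun i => (π.Ω w₀).toBlocks₁₂ i l) = algebraMap ℂ K (c l) • v := by
          ext i
          rw [hΩ₀, toBlocks_fromBlocks₁₂, vecMulVec_apply, mul_comm]
          rfl
        rw [hfb w₀ hw₀, h, mulVec_smul, dotProduct_smul, smul_eq_mul]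
      refine hC2 a c (fun b j => ?_) (fun l => ?_) fun l => ?_
      · rw [h1 _ (hT1 b j), hmu w₀ hw₀, hΩ₀, toBlocks_fromBlocks₁₁, zero_mulVec]
        exact neg_zero
      · rw [h1 _ (hT2 0 l), h2, hv0, mul_zero, neg_zero]
      · rw [h1 _ (hT2 1 l), h2, hv1, mul_neg, mul_one, neg_neg]
    · have h1 := (hz w hw).1 h0
      have h2 := (hΩ w hw).2
      rw [h1, Matrix.zero_mul, zero_add] at h2
      have h3 : Um.map w ∈ xfalgkC π.s := by
        obtain ⟨A, -, C, h⟩ := hs1 _ (π.mem w)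
        have h4 := π.mem w
        rw [h, toBlocks_fromBlocks₁₁] at h1
        rw [h, toBlocks_fromBlocks₁₂] at h2
        rw [h, h1, ← h2] at h4
        exact h4
      have h4 := congrFun (xfalgk_perp π hs2 hc _ h3) j
      rw [map_sum]
      refine Eq.trans (Finset.sum_congr rfl fun l _ => ?_) h4
      rw [Derivation.leibniz, Derivation.map_algebraMap, smul_zero, add_zero, smul_eq_mul, mul_comm]
      rfl
  obtain ⟨i₀, hi₀⟩ : ∃ i, ((fromBlocks 1 0 0 (-1) : Matrix (LL g) (LL g) K) *ᵥ mu P (q 0)) i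
      ≠ 0 := by
    by_contra h
    push Not at h
    have h1 := congrArg ((fromBlocks 1 0 0 (-1) : Matrix (LL g) (LL g) K) *ᵥ ·)
      (show _ = (0 : LL g → K) from funext h)
    simp only [mulVec_mulVec, fromBlocks_multiply, Matrix.mul_zero, add_zero,
      zero_add, Matrix.mul_one, Matrix.mul_neg, neg_neg, neg_zero, fromBlocks_one, one_mulVec,
      mulVec_zero] at h1
    exact hind.ne_zero 0 h1
  obtain ⟨F, hF0, hF1, hF2⟩ := π.core (xfalgkR π.s) (fun ξ hξ => hξ.1)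
    (fun w ξ hξ => ⟨π.map_mem w ξ hξ.1, by
      change ξ.toBlocks₁₁.map w = 0
      rw [hξ.2, xsalgi_zero]⟩)
    (fun w hw => ⟨π.mem w, (hz w fun j => hw _ (hyK j)).1 (Matrix.ext fun a b =>
      hw _ ((hK1 _).2 fun w' _ h => congrFun (congrFun h a) b))⟩)
    (fun U hU h => (ideal_cases π.s U hs1 hs2 hU h).imp_left fun h' ξ hξ => ⟨hU hξ, h' ξ hξ⟩)
    T (fun X hX => hT3 (fun f => X f ∈ Submodule.span ℂ T)
      (fun b j => by
        rw [hmu X hX.1]
        exact xfalgk_span (hT1 b) fun i => hX.2 _ _)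
      fun b l => by
        rw [hfb X hX.1, dotProduct_comm]
        refine xfalgk_span (hT1 b) fun i => ?_
        change ∑ j, J (Fin g) K i j * π.Ω X (.inl j) (.inr l) ∈ _
        exact Subring.sum_mem _ fun j _ => mul_mem (xfalgk_Jc i j) (hX.2 _ _))
    hp (hT1 0 i₀)
    ((hK1 _).2 fun w hw h0 => by rw [hmu w hw, (hz w hw).1 h0, zero_mulVec]; rfl)
    (fun h => by
      obtain ⟨C, hC⟩ := hs2 _ delta_mem
      obtain ⟨w, hw, hΩw⟩ := π.surj _ hC
      have h1 := h w hw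
      rw [hmu w hw, hΩw, toBlocks_fromBlocks₁₁] at h1
      exact hi₀ h1)
  obtain ⟨a, ha1, ha2, b₀, c₀, ha3⟩ := hC3
  obtain ⟨v, hv⟩ : ∃ v : Der K, v = ∑ i, a i • π.D i := ⟨_, rfl⟩
  have hva : ∀ f, v f = ∑ i, a i * π.D i f := fun f => by rw [hv, xsalgi_sum_apply]
  have hvH : v ∈ π.Hk T := by
    refine ⟨?_, hT3 (fun f => v f = 0) (fun b j => ?_) fun b l => ?_⟩
    · rw [hv, map_sum]
      exact Finset.sum_eq_zero fun i _ => by rw [map_smul, π.ΩD, smul_zero]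
    · rw [hva, ha1]
    · rw [hva, ha2]
  obtain ⟨u, hu⟩ : ∃ u : Fin g → ℤ, v (qf τ u) ≠ 0 := by
    by_contra h
    push Not at h
    exact ha3 ((hva _).symm.trans (xsalgi_qf hτ v h b₀ c₀))
  have hτK : ∀ b c, τ b c ∈ π.K1 (xfalgkR π.s) := fun b c => (hK1 _).2 fun w _ h1 => by
    rw [hP, Pm, xsalgi_blocks, ← fromBlocks_zero] at h1
    obtain ⟨-, h2, -, h3⟩ := fromBlocks_inj.1 h1
    rw [xsalgi_mul, h3, Matrix.mul_zero, add_zero] at h2
    have h4 := congrArg (· * W) h2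
    simp only [Matrix.mul_assoc, hV, Matrix.mul_one, Matrix.zero_mul] at h4
    exact congrFun (congrFun h4 b) c
  have htK : qf τ u ∈ π.K1 (xfalgkR π.s) :=
    sum_mem fun b _ => sum_mem fun c _ =>
      mul_mem (mul_mem (intCast_mem _ _) (hτK b c)) (intCast_mem _ _)
  obtain ⟨F', w, hFF, hFK, hw1, hw2, hw3, hw4⟩ := cut2 _ F hF0 htK (hF2 v hvH) hu
  have hwh : ∀ f ∈ π.K1 (xfalgkR π.s), ∑ i, w (π.y i) * π.D i f = w f := fun f hf => by
    have h1 := hf (w - π.hor w) ⟨π.sub_hor w, by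
      rw [map_sub, π.Ω_hor, sub_zero]
      exact hF1 w fun f hf => hw1 f (hFF hf)⟩
    rw [Derivation.sub_apply, sub_eq_zero, Par2.hor, xsalgi_sum_apply] at h1
    exact h1.symm
  refine ⟨F', u, fun i => w (π.y i), by rw [hwh _ htK, hw2],
    fun φ hφ => by rw [hwh _ (hFK hφ), hw1 φ hφ], fun a' ha' => ?_,
    fun f hf => hw4 f ((hK1 f).2 hf)⟩
  refine ⟨(∑ i, a' i • π.D i) (qf τ u), funext fun j => ?_⟩
  have h2 := hw3 (∑ i, a' i • π.D i) (fun f hf => by rw [xsalgi_sum_apply, ha' f hf]) _ (hyK j)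
  rw [xsalgi_sum_apply a' π.D (π.y j)] at h2
  simpa [hDy] using h2

end Pool.Agent.MP_cf0a82_ag

end
end

section

open Complex Filter Topology Matrix Function

noncomputable section

namespace Pool.Agent.MP_cf0a82_ag

open Pool.Agent.MP_f58063_ag

theorem xfalgm_mu {R S : Type} [CommRing R] [CommRing S] (φ : R →+* S) {g : ℕ}
    (P : Matrix (LL g) (LL g) R) (q : Fin g → R) (j : LL g) :
    φ (mu P q j) = mu (P.map φ) (fun c => φ (q c)) j := by
  have h : φ ∘ Sum.elim (0 : Fin g → R) q = Sum.elim (0 : Fin g → S) fun c => φ (q c) := by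
    funext a
    rcases a with a | a
    · exact map_zero φ
    · rfl
  rw [mu, mu, RingHom.map_mulVec, h]

theorem xfalgm_fb {R S : Type} [CommRing R] [CommRing S] (φ : R →+* S) {g k : ℕ}
    (P : Matrix (LL g) (LL g) R) (Um : Matrix (LL g) (Fin k) R) (q : Fin g → R) (l : Fin k) :
    φ (fb P Um q l) = fb (P.map φ) (Um.map φ) (fun c => φ (q c)) l := by
  rw [fb, fb, RingHom.map_dotProduct]
  congr 1
  · exact funext fun j => xfalgm_mu φ P q j
  · funext j
    rw [Function.comp_apply, RingHom.map_mulVec, Matrix.map_J]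
    rfl

theorem xfalgm_up {K M : Type} [Field K] [Algebra ℂ K] [Field M] [Algebra ℂ M]
    (φ : K →ₐ[ℂ] M) {κ : Type} (e : κ → K) {x : K}
    (h : IsAlgebraic (Algebra.adjoin ℂ (Set.range e)) x) :
    IsAlgebraic (Algebra.adjoin ℂ (Set.range fun j => φ (e j))) (φ x) := by
  have h1 : Algebra.adjoin ℂ (Set.range fun j => φ (e j)) =
      (Algebra.adjoin ℂ (Set.range e)).map φ := by
    rw [AlgHom.map_adjoin, ← Set.range_comp]
    rfl
  rw [h1]
  refine IsAlgebraic.ringHom_of_comp_eq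
    (φ.subalgebraMap (Algebra.adjoin ℂ (Set.range e))).toRingHom φ.toRingHom h ?_ ?_
  · intro a b hab
    exact Subtype.ext (φ.toRingHom.injective (congrArg Subtype.val hab))
  · ext a
    rfl

theorem xfalgm_dual {K M ι : Type} [Field K] [Field M] [Fintype ι] (φ : K →+* M) (a : ι → M)
    (v : ι → K) (h : ∑ i, a i * φ (v i) ≠ 0) :
    ∃ b : ι → K, ∑ i, b i * v i ≠ 0 ∧
      ∀ v' : ι → K, ∑ i, a i * φ (v' i) = 0 → ∑ i, b i * v' i = 0 := by
  let := φ.toAlgebra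
  have hl : ∀ (lam : Module.Dual K M) (m : M) (c : K), lam (m * φ c) = lam m * c := by
    intro lam m c
    have : m * φ c = c • m := by rw [Algebra.smul_def, mul_comm]; rfl
    rw [this, map_smul, smul_eq_mul, mul_comm]
  have hs : ∀ (lam : Module.Dual K M) (v : ι → K),
      lam (∑ i, a i * φ (v i)) = ∑ i, lam (a i) * v i := by
    intro lam v
    simp only [map_sum, hl]
  obtain ⟨lam, hlam⟩ : ∃ lam : Module.Dual K M, lam (∑ i, a i * φ (v i)) ≠ 0 := by
    by_contra hc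
    push Not at hc
    exact h ((Module.forall_dual_apply_eq_zero_iff K _).1 hc)
  exact ⟨fun i => lam (a i), by rwa [← hs], fun v' hv' => by rw [← hs, hv', map_zero]⟩

theorem xfalgm_li {K M ι κ : Type} [Field K] [Field M] [Fintype ι] (φ : K →+* M) (q : ι → κ → K)
    (h : LinearIndependent M fun b c => φ (q b c)) : LinearIndependent K q := by
  rw [Fintype.linearIndependent_iff] at h ⊢
  intro a ha i
  refine φ.injective ((h (fun i => φ (a i)) (funext fun c => ?_) i).trans (map_zero φ).symm)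
  have h1 := congrArg φ (congrFun ha c)
  simpa only [Finset.sum_apply, Pi.smul_apply, smul_eq_mul, map_sum, map_mul, Pi.zero_apply,
    map_zero] using h1

theorem xfalgm_kill {K : Type} [Field K] [Algebra ℂ K] {g : ℕ}
    {τ ψ V W : Matrix (Fin g) (Fin g) K} (hV : V * W = 1) (w : Der K)
    (h : (Pm τ ψ V W).map w = 0) : τ.map w = 0 ∧ ψ.map w = 0 := by
  have h1 : V.map w = 0 := Matrix.ext fun a b => congrFun (congrFun h (.inr a)) (.inr b)
  have h2 : (τ * V).map w = 0 := Matrix.ext fun a b => congrFun (congrFun h (.inl a)) (.inr b)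
  have h3 : (ψ * Wᵀ).map w = 0 := Matrix.ext fun a b => by
    have h4 : w (-((ψ * Wᵀ) a b)) = 0 := congrFun (congrFun h (.inr a)) (.inl b)
    rw [map_neg, neg_eq_zero] at h4
    exact h4
  have hV' : W * V = 1 := mul_eq_one_comm.1 hV
  have h5 : W.map w = 0 := by
    have h6 : (W * V).map w = 0 := by
      rw [hV']
      ext a b
      rw [map_apply, one_apply]
      split_ifs <;> simp
    rw [xsalgi_mul, h1, Matrix.mul_zero, add_zero] at h6
    rw [← Matrix.mul_one (W.map w), ← hV, ← Matrix.mul_assoc, h6, Matrix.zero_mul]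
  constructor
  · rw [xsalgi_mul, h1, Matrix.mul_zero, add_zero] at h2
    rw [← Matrix.mul_one (τ.map w), ← hV, ← Matrix.mul_assoc, h2, Matrix.zero_mul]
  · rw [xsalgi_mul, xsalgi_tr, h5, transpose_zero, Matrix.mul_zero, add_zero] at h3
    rw [← Matrix.mul_one (ψ.map w), ← transpose_one, ← hV, transpose_mul, ← Matrix.mul_assoc, h3,
      Matrix.zero_mul]

theorem xfalgm_main {K M : Type} [Field K] [Algebra ℂ K] [Field M] [Algebra ℂ M]
    (φ : K →ₐ[ℂ] M) {ι : Type} [Fintype ι] [DecidableEq ι]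
    {g k : ℕ} (y : ι → K) (D : ι → Der M) (D' : ι → Der K)
    (hD : ∀ i x, φ (D' i x) = D i (φ x)) (τ ψ V W : Matrix (Fin g) (Fin g) K)
    (P : Matrix (LL g) (LL g) M) (hP : (Pm τ ψ V W).map φ = P)
    (Um : Matrix (LL g) (Fin k) K) (q : Fin 2 → Fin g → K)
    (hK : ∀ x, IsAlgebraic (Algebra.adjoin ℂ (Set.range (Sum.elim
      (Sum.elim (fun i => φ (y i)) fun a : LL g × LL g => P a.1 a.2)
        fun a : LL g × Fin k => Um.map φ a.1 a.2))) (φ x))
    (hK' : ∀ x, IsAlgebraic (Algebra.adjoin ℂ (Set.range fun i => φ (y i))) x → ∃ x', φ x' = x)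
    (hτ : (τ.map φ)ᵀ = τ.map φ) (hψ : (ψ.map φ)ᵀ = ψ.map φ) (hV : V * W = 1)
    (hDy : ∀ i j, D i (φ (y j)) = if i = j then 1 else 0) (hDD : ∀ i j, ⁅D i, D j⁆ = 0)
    (hconst : ∀ f, (∀ i, D i f = 0) → f ∈ Set.range (algebraMap ℂ M))
    (hA : ∀ i, ∃ A : Matrix (LL g) (LL g) M, P.map (D i) = P * A ∧
      ∀ b c, IsAlgebraic (Algebra.adjoin ℂ (Set.range fun i => φ (y i))) (A b c))
    (hB : ∀ i, ∃ C : Matrix (LL g) (Fin k) M, (Um.map φ).map (D i) = P * C ∧
      ∀ b c, IsAlgebraic (Algebra.adjoin ℂ (Set.range fun i => φ (y i))) (C b c))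
    (hX : ∀ (v : LL g → ℂ) (R : MvPolynomial (ι ⊕ LL g × LL g) ℂ),
      MvPolynomial.aeval (Sum.elim (fun i => φ (y i)) fun a => P a.1 a.2) R = 0 →
      ∑ a : LL g × LL g, MvPolynomial.aeval (Sum.elim (fun i => φ (y i)) fun a => P a.1 a.2)
        (MvPolynomial.pderiv (.inr a) R) *
          ((sv v).map (algebraMap ℂ M) * P) a.1 a.2 = 0)
    (hqa : ∀ b c, IsAlgebraic (Algebra.adjoin ℂ (Set.range fun i => φ (y i))) (φ (q b c)))
    (hq : LinearIndependent M fun b c => φ (q b c)) (Z : Submodule ℂ (Fin k → ℂ)) (hZ : Z ≠ ⊤)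
    (hC2 : ∀ (a : ι → M) (c : Fin k → ℂ),
      (∀ b j, ∑ i, a i * D i (mu P (fun c => φ (q b c)) j) = 0) →
      (∀ l, ∑ i, a i * D i (fb P (Um.map φ) (fun c => φ (q 0 c)) l) = 0) →
      (∀ l, ∑ i, a i * D i (fb P (Um.map φ) (fun c => φ (q 1 c)) l) = algebraMap ℂ M (c l)) →
      c ∈ Z)
    (hC3 : ∃ a : ι → M, (∀ b j, ∑ i, a i * D i (mu P (fun c => φ (q b c)) j) = 0) ∧
      (∀ b l, ∑ i, a i * D i (fb P (Um.map φ) (fun c => φ (q b c)) l) = 0) ∧
      ∃ b c, ∑ i, a i * D i (τ.map φ b c) ≠ 0)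
    (hcj : ∀ c : Fin k → ℂ, (∀ j, IsAlgebraic (Algebra.adjoin ℂ
      (Set.range (Sum.elim (fun i => φ (y i)) fun a : LL g × LL g => P a.1 a.2)))
        (∑ l, algebraMap ℂ M (c l) * Um.map φ j l)) → star c ∈ Z) :
    ∃ (F : IntermediateField ℂ M) (u : Fin g → ℤ) (a : ι → M),
      ∑ i, a i * D i (qf (τ.map φ) u) = 1 ∧
      (∀ f ∈ F, ∑ i, a i * D i f = 0) ∧
      (∀ a' : ι → M, (∀ f ∈ F, ∑ i, a' i * D i f = 0) → ∃ c : M, a' = c • a) ∧
      ∀ f : K, (∀ w : Der K, (∀ j, w (y j) = 0) → (Pm τ ψ V W).map w = 0 → w f = 0) →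
        IsAlgebraic (Algebra.adjoin F {qf (τ.map φ) u}) (φ f) := by
  have hinj : Injective φ := φ.toRingHom.injective
  have hm : ∀ {m n : Type} {A B : Matrix m n K}, A.map φ = B.map φ → A = B :=
    fun h => Matrix.map_injective hinj h
  have hmul : ∀ {m n p : Type} [Fintype n] (A : Matrix m n K) (B : Matrix n p K),
      (A * B).map φ = A.map φ * B.map φ := fun A B => Matrix.map_mul (f := φ.toRingHom)
  have hmD : ∀ {m n : Type} (i : ι) (A : Matrix m n K),
      (A.map (D' i)).map φ = (A.map φ).map (D i) := fun i A => Matrix.ext fun a b => hD i _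
  have hz : ∀ (w : Der K), (∀ j, w (y j) = 0) → ∀ x,
      IsAlgebraic (Algebra.adjoin ℂ (Set.range fun i => φ (y i))) (φ x) → w x = 0 := by
    intro w hw x hx
    refine der_alg_zero _ (der_adjoin_zero ?_) (xsalgj_down φ y hx)
    rintro _ ⟨j, rfl⟩
    exact hw j
  set e : ι ⊕ LL g × LL g → K := Sum.elim y fun a => Pm τ ψ V W a.1 a.2 with he
  have he' : (Sum.elim (fun i => φ (y i)) fun a : LL g × LL g => P a.1 a.2) =
      fun j => φ (e j) := by
    funext j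
    rcases j with j | j
    · rfl
    · rw [← hP]; rfl
  rw [he'] at hK hX hcj
  have he2 : (Sum.elim (fun j => φ (e j)) fun a : LL g × Fin k => Um.map φ a.1 a.2) =
      fun j => φ (Sum.elim e (fun a : LL g × Fin k => Um a.1 a.2) j) := by
    funext j
    rcases j with j | j <;> rfl
  rw [he2] at hK
  have hsum : ∀ (a : ι → K) (x : K), φ (∑ i, a i * D' i x) = ∑ i, φ (a i) * D i (φ x) := by
    intro a x
    simp only [map_sum, map_mul, hD]
  have hmu : ∀ b j, mu P (fun c => φ (q b c)) j = φ (mu (Pm τ ψ V W) (q b) j) := fun b j => by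
    rw [← hP]
    exact (xfalgm_mu φ.toRingHom _ _ _).symm
  have hfb : ∀ b l, fb P (Um.map φ) (fun c => φ (q b c)) l = φ (fb (Pm τ ψ V W) Um (q b) l) :=
    fun b l => by
      rw [← hP]
      exact (xfalgm_fb φ.toRingHom _ _ _ _).symm
  simp only [hmu, hfb] at hC2 hC3
  obtain ⟨F, u, a, h1, h2, h3, h4⟩ := algK2 y D' τ ψ V W _ rfl Um q
    (hm (by rw [transpose_map, hτ])) (hm (by rw [transpose_map, hψ])) hV
    (fun i j => hinj (by rw [hD, hDy]; split_ifs <;> simp))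
    (fun i j => by
      ext x
      apply hinj
      have h := DFunLike.congr_fun (hDD i j) (φ x)
      rw [Derivation.commutator_apply] at h ⊢
      rw [map_sub, hD, hD, hD, hD, h]
      simp)
    (fun f hf => by
      obtain ⟨c, hc⟩ := hconst (φ f) fun i => by rw [← hD, hf, map_zero]
      exact ⟨c, hinj (by rw [φ.commutes, hc])⟩)
    (fun w hw hw' hw'' => by
      ext x
      refine der_alg_zero _ (der_adjoin_zero ?_) (xsalgj_down φ _ (hK x))
      rintro _ ⟨(j | j) | j, rfl⟩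
      · exact hw j
      · exact congrFun (congrFun hw' j.1) j.2
      · exact congrFun (congrFun hw'' j.1) j.2)
    (fun i => by
      obtain ⟨A, hA1, hA2⟩ := hA i
      obtain ⟨A', rfl⟩ := xsalgj_lift φ A fun b c => hK' _ (hA2 b c)
      refine ⟨A', hm (by rw [hmD, hmul, hP, hA1]), fun w hw => ?_⟩
      exact Matrix.ext fun b c => hz w hw _ (hA2 b c))
    (fun i => by
      obtain ⟨A, hA1, hA2⟩ := hB i
      obtain ⟨A', rfl⟩ := xsalgj_lift φ A fun b c => hK' _ (hA2 b c)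
      refine ⟨A', hm (by rw [hmD, hmul, hP, hA1]), fun w hw => ?_⟩
      exact Matrix.ext fun b c => hz w hw _ (hA2 b c))
    (fun v => by
      obtain ⟨w, hw⟩ := der_of_rel e (Sum.elim 0 fun a : LL g × LL g =>
        ((sv v).map (algebraMap ℂ K) * Pm τ ψ V W) a.1 a.2) fun R hR => by
          have h5 : ∀ R : MvPolynomial (ι ⊕ LL g × LL g) ℂ,
              MvPolynomial.aeval (fun j => φ (e j)) R = φ (MvPolynomial.aeval e R) :=
            fun R => (MvPolynomial.comp_aeval_apply e φ R).symm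
          have h6 := hX v R (by rw [h5, hR, map_zero])
          have h7 : ((sv v).map (algebraMap ℂ K) * Pm τ ψ V W).map φ =
              (sv v).map (algebraMap ℂ M) * P := by
            rw [hmul, hP]
            congr 1
            exact Matrix.ext fun a b => φ.commutes _
          rw [← h7] at h6
          apply hinj
          rw [Fintype.sum_sum_type]
          simp only [Sum.elim_inl, Sum.elim_inr, Pi.zero_apply, mul_zero, Finset.sum_const_zero,
            zero_add, map_zero, map_sum, map_mul]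
          simpa only [h5, Matrix.map_apply] using h6
      exact ⟨w, fun j => hw (.inl j), Matrix.ext fun a b => hw (.inr (a, b))⟩)
    (fun w hw b c => hz w hw _ (hqa b c)) (xfalgm_li φ.toRingHom q hq) Z hZ
    (fun a c ha hb hc => hC2 (fun i => φ (a i)) c
      (fun b j => by rw [← hsum, ha, map_zero]) (fun l => by rw [← hsum, hb, map_zero])
      fun l => by rw [← hsum, hc, φ.commutes])
    (by
      obtain ⟨a, ha, hb, b, c, hc⟩ := hC3
      simp only [Matrix.map_apply, ← hD] at ha hb hc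
      obtain ⟨a', h1, h2⟩ := xfalgm_dual φ.toRingHom a _ hc
      exact ⟨a', fun b j => h2 _ (ha b j), fun b l => h2 _ (hb b l), b, c, h1⟩)
    (fun c hc => hcj c fun j => by
      have h := xfalgm_up φ e (alg_of_der (Algebra.adjoin ℂ (Set.range e))
        (f := ∑ l, algebraMap ℂ K (c l) * Um j l) fun w hw =>
          hc w (fun i => hw _ (Algebra.subset_adjoin ⟨.inl i, rfl⟩))
            (Matrix.ext fun a b => hw _ (Algebra.subset_adjoin ⟨.inr (a, b), rfl⟩)) j)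
      simpa only [map_sum, map_mul, φ.commutes, Matrix.map_apply] using h)
  have hqf : qf (τ.map φ) u = φ (qf τ u) := (xsalgj_qf φ.toRingHom τ u).symm
  refine ⟨F.map φ, u, fun i => φ (a i), ?_, ?_, ?_, ?_⟩
  · rw [hqf, ← hsum, h1, map_one]
  · rintro _ ⟨f, hf, rfl⟩
    exact (hsum a f).symm.trans (by rw [h2 f hf, map_zero])
  · intro a' ha'
    refine xsalgj_uniq φ.toRingHom {v | ∃ f ∈ F, v = fun i => D' i f} a ?_ ?_ a' ?_
    · rintro rfl
      simp at h1
    · intro b hb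
      exact h3 b fun f hf => hb _ ⟨f, hf, rfl⟩
    · rintro _ ⟨f, hf, rfl⟩
      have h := ha' (φ f) ⟨f, hf, rfl⟩
      simp only [← hD] at h
      exact h
  · intro f hf
    rw [hqf]
    exact xsalgj_up φ F _ (h4 f hf)

theorem algM2 {M : Type} [Field M] [Algebra ℂ M] {ι : Type} [Fintype ι] [DecidableEq ι]
    {g k : ℕ} (y : ι → M) (D : ι → Der M) (τ ψ V W : Matrix (Fin g) (Fin g) M)
    (P : Matrix (LL g) (LL g) M) (hP : P = Pm τ ψ V W)
    (Um : Matrix (LL g) (Fin k) M) (q : Fin 2 → Fin g → M)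
    (hτ : τᵀ = τ) (hψ : ψᵀ = ψ) (hV : V * W = 1)
    (hDy : ∀ i j, D i (y j) = if i = j then 1 else 0) (hDD : ∀ i j, ⁅D i, D j⁆ = 0)
    (hconst : ∀ f, (∀ i, D i f = 0) → f ∈ Set.range (algebraMap ℂ M))
    (hA : ∀ i, ∃ A : Matrix (LL g) (LL g) M, P.map (D i) = P * A ∧
      ∀ b c, IsAlgebraic (Algebra.adjoin ℂ (Set.range y)) (A b c))
    (hB : ∀ i, ∃ C : Matrix (LL g) (Fin k) M, Um.map (D i) = P * C ∧
      ∀ b c, IsAlgebraic (Algebra.adjoin ℂ (Set.range y)) (C b c))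
    (hX : ∀ (v : LL g → ℂ) (R : MvPolynomial (ι ⊕ LL g × LL g) ℂ),
      MvPolynomial.aeval (Sum.elim y fun a => P a.1 a.2) R = 0 →
      ∑ a : LL g × LL g, MvPolynomial.aeval (Sum.elim y fun a => P a.1 a.2)
        (MvPolynomial.pderiv (.inr a) R) * ((sv v).map (algebraMap ℂ M) * P) a.1 a.2 = 0)
    (hqa : ∀ b c, IsAlgebraic (Algebra.adjoin ℂ (Set.range y)) (q b c))
    (hq : LinearIndependent M q) (Z : Submodule ℂ (Fin k → ℂ)) (hZ : Z ≠ ⊤)
    (hC2 : ∀ (a : ι → M) (c : Fin k → ℂ), (∀ b j, ∑ i, a i * D i (mu P (q b) j) = 0) →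
      (∀ l, ∑ i, a i * D i (fb P Um (q 0) l) = 0) →
      (∀ l, ∑ i, a i * D i (fb P Um (q 1) l) = algebraMap ℂ M (c l)) → c ∈ Z)
    (hC3 : ∃ a : ι → M, (∀ b j, ∑ i, a i * D i (mu P (q b) j) = 0) ∧
      (∀ b l, ∑ i, a i * D i (fb P Um (q b) l) = 0) ∧ ∃ b c, ∑ i, a i * D i (τ b c) ≠ 0)
    (hcj : ∀ c : Fin k → ℂ, (∀ j, IsAlgebraic
      (Algebra.adjoin ℂ (Set.range (Sum.elim y fun a : LL g × LL g => P a.1 a.2)))
        (∑ l, algebraMap ℂ M (c l) * Um j l)) → star c ∈ Z) :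
    ∃ (F : IntermediateField ℂ M) (u : Fin g → ℤ) (a : ι → M), ∑ i, a i * D i (qf τ u) = 1 ∧
      (∀ φ ∈ F, ∑ i, a i * D i φ = 0) ∧
      (∀ a' : ι → M, (∀ φ ∈ F, ∑ i, a' i * D i φ = 0) → ∃ c : M, a' = c • a) ∧
      (∀ b c, IsAlgebraic (Algebra.adjoin F {qf τ u}) (τ b c) ∧
        IsAlgebraic (Algebra.adjoin F {qf τ u}) (ψ b c)) ∧
      ∀ f : M, IsAlgebraic (Algebra.adjoin ℂ (Set.range y)) f →
        IsAlgebraic (Algebra.adjoin F {qf τ u}) f := by
  replace hP := hP.symm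
  set L := Algebra.adjoin ℂ (Set.range (Sum.elim
    (Sum.elim y fun a : LL g × LL g => P a.1 a.2) fun a : LL g × Fin k => Um a.1 a.2)) with hL
  obtain ⟨K, hK⟩ := xsalgj_K L
  have hLK : ∀ x ∈ L, x ∈ K := fun x hx =>
    (hK x).2 (isAlgebraic_algebraMap (⟨x, hx⟩ : L))
  have hy : ∀ j, y j ∈ K := fun j => hLK _ (Algebra.subset_adjoin ⟨.inl (.inl j), rfl⟩)
  have hPK : ∀ a b, P a b ∈ K :=
    fun a b => hLK _ (Algebra.subset_adjoin ⟨.inl (.inr (a, b)), rfl⟩)
  have hUK : ∀ a b, Um a b ∈ K := fun a b => hLK _ (Algebra.subset_adjoin ⟨.inr (a, b), rfl⟩)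
  have hle : Algebra.adjoin ℂ (Set.range y) ≤ L := by
    refine Algebra.adjoin_mono ?_
    rintro _ ⟨j, rfl⟩
    exact ⟨.inl (.inl j), rfl⟩
  have hK0 : ∀ x, IsAlgebraic (Algebra.adjoin ℂ (Set.range y)) x → x ∈ K := fun x hx =>
    (hK x).2 (hx.tower_top_of_subalgebra_le hle)
  have hDK : ∀ i, ∀ x ∈ K, D i x ∈ K := by
    intro i x hx
    refine der_alg_mem L K hLK (der_adjoin_mem K.toSubalgebra ?_ ?_) hx ((hK x).1 hx)
    · rintro _ ⟨(j | j) | j, rfl⟩
      · exact hy j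
      · exact hPK _ _
      · exact hUK _ _
    · obtain ⟨A, hA1, hA2⟩ := hA i
      obtain ⟨C, hC1, hC2⟩ := hB i
      rintro _ ⟨(j | j) | j, rfl⟩
      · change D i (y j) ∈ K
        rw [hDy]
        split_ifs
        · exact one_mem K
        · exact zero_mem K
      · change (P.map (D i)) j.1 j.2 ∈ K
        rw [hA1, Matrix.mul_apply]
        exact sum_mem fun c _ => mul_mem (hPK _ _) (hK0 _ (hA2 _ _))
      · change (Um.map (D i)) j.1 j.2 ∈ K
        rw [hC1, Matrix.mul_apply]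
        exact sum_mem fun c _ => mul_mem (hPK _ _) (hK0 _ (hC2 _ _))
  choose D' hD' using fun i => xsalgj_res K (D i) (hDK i)
  have hmem : ∀ x ∈ K, ∃ x', K.val x' = x := fun x hx => ⟨⟨x, hx⟩, rfl⟩
  have hmul : ∀ (A B : Matrix (Fin g) (Fin g) K),
      (A * B).map K.val = A.map K.val * B.map K.val :=
    fun A B => Matrix.map_mul (f := K.val.toRingHom)
  obtain ⟨V', rfl⟩ := xsalgj_lift K.val V fun a b =>
    hmem _ (by have h := hPK (.inr a) (.inr b); rw [← hP] at h; exact h)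
  obtain ⟨B, hB'⟩ := xsalgj_lift K.val (τ * V'.map K.val) fun a b =>
    hmem _ (by have h := hPK (.inl a) (.inr b); rw [← hP] at h; exact h)
  obtain ⟨C, hC⟩ := xsalgj_lift K.val (-(ψ * Wᵀ)) fun a b =>
    hmem _ (by have h := hPK (.inr a) (.inl b); rw [← hP] at h; exact h)
  have hdet : IsUnit V'.det := by
    rw [isUnit_iff_ne_zero]
    intro h
    have h1 := congrArg det hV
    have h2 : (V'.map K.val).det = K.val V'.det := (RingHom.map_det K.val.toRingHom V').symm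
    rw [det_mul, h2, h, map_zero, zero_mul, det_one] at h1
    exact zero_ne_one h1
  have hV' : V' * V'⁻¹ = 1 := mul_nonsing_inv _ hdet
  have hW : (V'⁻¹).map K.val = W := by
    refine right_inv_eq_right_inv ?_ hV
    rw [← hmul, hV']
    exact Matrix.map_one _ (map_zero _) (map_one _)
  subst hW
  have hτ' : (B * V'⁻¹).map K.val = τ := by
    rw [hmul, hB', Matrix.mul_assoc, hV, Matrix.mul_one]
  have hψ' : (-(C * V'ᵀ)).map K.val = ψ := by
    rw [Matrix.map_neg _ (map_neg K.val), hmul, hC, transpose_map, Matrix.neg_mul, neg_neg,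
      Matrix.mul_assoc, ← transpose_mul, hV, transpose_one, Matrix.mul_one]
  obtain ⟨τ', rfl⟩ : ∃ τ' : Matrix (Fin g) (Fin g) K, τ'.map K.val = τ := ⟨_, hτ'⟩
  obtain ⟨ψ', rfl⟩ : ∃ ψ' : Matrix (Fin g) (Fin g) K, ψ'.map K.val = ψ := ⟨_, hψ'⟩
  obtain ⟨U', rfl⟩ := xsalgj_lift K.val Um fun a b => hmem _ (hUK a b)
  obtain ⟨F, u, a, h1, h2, h3, h4⟩ := xfalgm_main K.val
    (fun j => ⟨y j, hy j⟩) D D' hD' τ' ψ' V' V'⁻¹ P
    ((xsalgj_Pm K.val.toRingHom τ' ψ' V' V'⁻¹).trans hP) U'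
    (fun b c => ⟨q b c, hK0 _ (hqa b c)⟩) (fun x => (hK _).1 x.2)
    (fun x hx => hmem x (hK0 x hx)) hτ hψ hV' hDy hDD hconst hA hB hX hqa hq Z hZ hC2 hC3 hcj
  refine ⟨F, u, a, h1, h2, h3, fun b c => ⟨h4 _ fun w _ hw => ?_, h4 _ fun w _ hw => ?_⟩,
    fun f hf => h4 ⟨f, hK0 f hf⟩ fun w hw _ => ?_⟩
  · exact congrFun (congrFun (xfalgm_kill hV' w hw).1 b) c
  · exact congrFun (congrFun (xfalgm_kill hV' w hw).2 b) c
  · refine der_alg_zero _ (der_adjoin_zero ?_)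
      (xsalgj_down K.val (fun j => ⟨y j, hy j⟩) (x := ⟨f, hK0 f hf⟩) hf)
    rintro _ ⟨j, rfl⟩
    exact hw j

end Pool.Agent.MP_cf0a82_ag

end
end

section

open Complex Filter Topology Matrix Function

noncomputable section

namespace Pool.Agent.MP_cf0a82_ag

open Pool.Agent.MP_f58063_ag

lemma xfstage_fd {E : Type} [NormedAddCommGroup E] [NormedSpace ℂ E] {ι : Type} [Fintype ι]
    (b : ι → E) (h : E → ℂ) (e : E) (ξ : ι → ℂ) :
    fderiv ℂ h e (∑ i, ξ i • b i) = ∑ i, ξ i * dv (b i) h e := by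
  simp [dv_apply]

lemma xfstage_sol {E : Type} [NormedAddCommGroup E] [NormedSpace ℂ E] {ι κ : Type} [Fintype ι]
    [Finite κ] (b : ι → E) {p : E} {h : κ → E → ℂ} (hh : ∀ j, AnalyticAt ℂ (h j) p) (r : κ → ℂ)
    {a : ι → MG p} (ha : ∀ j, ∑ i, a i * DG p (b i) (gm p (h j)) = algebraMap ℂ (MG p) (r j)) :
    ∀ᶠ e in GF p, ∃ ξ : E, ∀ j, fderiv ℂ (h j) e ξ = r j := by
  have h1 := gm_sol (p := p) (c := fun j i => dv (b i) (h j)) (r := fun j _ => r j)
    (fun j i => analyticAt_dv (hh j) _) (fun _ => analyticAt_const) (a := a) fun j => by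
      rw [gm_const, ← ha j]
      exact Finset.sum_congr rfl fun i _ => by rw [DG_gm _ (hh j)]
  refine h1.mono ?_
  rintro e ⟨ξ, hξ⟩
  exact ⟨∑ i, ξ i • b i, fun j => by rw [xfstage_fd, hξ j]⟩

lemma xfstage_lin {E : Type} [NormedAddCommGroup E] [NormedSpace ℂ E] {ι κ : Type} [Fintype ι]
    [Finite κ] (b : Module.Basis ι ℂ E) {p : E} {h : κ → E → ℂ} (hh : ∀ j, AnalyticAt ℂ (h j) p)
    {d : E → ℂ} (hd : AnalyticAt ℂ d p)
    (ha : ∀ a : ι → MG p, (∀ j, ∑ i, a i * DG p (b i) (gm p (h j)) = 0) →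
      ∑ i, a i * DG p (b i) (gm p d) = 0) :
    ∀ᶠ e in GF p, ∀ ξ : E, (∀ j, fderiv ℂ (h j) e ξ = 0) → fderiv ℂ d e ξ = 0 := by
  have h1 := gm_lin (p := p) (c := fun j i => dv (b i) (h j)) (d := fun i => dv (b i) d)
    (fun j i => analyticAt_dv (hh j) _) (fun _ => analyticAt_dv hd _) fun a h2 => by
      rw [← ha a fun j => ?_]
      · exact Finset.sum_congr rfl fun i _ => by rw [DG_gm _ hd]
      · rw [← h2 j]
        exact Finset.sum_congr rfl fun i _ => by rw [DG_gm _ (hh j)]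
  refine h1.mono fun e he ξ hξ => ?_
  rw [← b.sum_repr ξ, xfstage_fd]
  refine he _ fun j => ?_
  rw [← xfstage_fd, b.sum_repr]
  exact hξ j

theorem stage2 {E : Type} [NormedAddCommGroup E] [NormedSpace ℂ E] [FiniteDimensional ℂ E]
    {ι : Type} [Fintype ι] (b : Module.Basis ι ℂ E) (p : E) {g k : ℕ}
    (τ ψ V : E → Matrix (Fin g) (Fin g) ℂ) (P : E → Matrix (LL g) (LL g) ℂ)
    (hP : ∀ e, P e = Pm (τ e) (ψ e) (V e) (V e)⁻¹) (Um : E → Matrix (LL g) (Fin k) ℂ)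
    (q : E → Fin 2 → Fin g → ℂ)
    (hτ : ∀ a c, AnalyticAt ℂ (fun e => τ e a c) p) (hψ : ∀ a c, AnalyticAt ℂ (fun e => ψ e a c) p)
    (hV : ∀ a c, AnalyticAt ℂ (fun e => V e a c) p)
    (hU : ∀ a l, AnalyticAt ℂ (fun e => Um e a l) p) (hq : ∀ a c, NashAt (fun e => q e a c) p)
    (hdet : (V p).det ≠ 0) (hq0 : LinearIndependent ℂ (q p))
    (hsym : ∀ᶠ e in 𝓝 p, (τ e)ᵀ = τ e ∧ (ψ e)ᵀ = ψ e)
    (hA : ∀ i a c, NashAt (fun e => ((P e)⁻¹ * dM P e (b i)) a c) p)
    (hB : ∀ i a l, NashAt (fun e => ((P e)⁻¹ * dM Um e (b i)) a l) p)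
    (hR : ∀ R : MvPolynomial (ι ⊕ LL g × LL g) ℂ,
      (∀ᶠ e in 𝓝 p,
        MvPolynomial.eval (Sum.elim (fun i => b.repr e i) fun a => P e a.1 a.2) R = 0) →
      ∀ᶠ e in 𝓝 p, ∀ M ∈ symplecticGroup (Fin g) ℂ,
        MvPolynomial.eval (Sum.elim (fun i => b.repr e i) fun a => (M * P e) a.1 a.2) R = 0)
    (Z : Submodule ℂ (Fin k → ℂ)) (hZ : Z ≠ ⊤)
    (hC2 : ∀ c : Fin k → ℂ, (∀ᶠ e in GF p, ∃ ξ,
      (∀ a j, fderiv ℂ (fun e => mu (P e) (q e a) j) e ξ = 0) ∧
      (∀ l, fderiv ℂ (fun e => fb (P e) (Um e) (q e 0) l) e ξ = 0) ∧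
      ∀ l, fderiv ℂ (fun e => fb (P e) (Um e) (q e 1) l) e ξ = c l) → c ∈ Z)
    (hC3 : ∃ᶠ e in GF p, ∃ ξ, (∀ a j, fderiv ℂ (fun e => mu (P e) (q e a) j) e ξ = 0) ∧
      (∀ a l, fderiv ℂ (fun e => fb (P e) (Um e) (q e a) l) e ξ = 0) ∧ dM τ e ξ ≠ 0)
    (L : Subalgebra ℂ (MG p)) (hL1 : LA p ≤ L) (hL2 : ∀ a c, gm p (fun e => P e a c) ∈ L)
    (hcj : ∀ c : Fin k → ℂ, (∀ j, IsAlgebraic L (gm p fun e => ∑ l, c l * Um e j l)) →
      star c ∈ Z)
    {κ : Type} [Finite κ] {f : κ → E → ℂ} (hf : ∀ j, NashAt (f j) p) {U : Set E}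
    (hUp : U ∈ 𝓝 p) :
    ∃ (σ : ℂ → E) (t₀ : ℂ) (u : Fin g → ℤ), σ t₀ ∈ interior U ∧ AnalyticAt ℂ σ t₀ ∧
      (∀ᶠ t in 𝓝 t₀, qf (τ (σ t)) u = t) ∧
      (∀ a c, NashAt (fun t => τ (σ t) a c) t₀ ∧ NashAt (fun t => ψ (σ t) a c) t₀) ∧
      ∀ j, NashAt (fun t => f j (σ t)) t₀ := by
  classical
  obtain rfl : P = fun e => Pm (τ e) (ψ e) (V e) (V e)⁻¹ := funext hP
  have hW := an_inv hV hdet
  have hq1 := fun a c => (hq a c).1
  have hdet' : ∀ᶠ e in 𝓝 p, (V e).det ≠ 0 := (an_det hV).continuousAt.eventually_ne hdet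
  have hVW : ∀ᶠ e in 𝓝 p, V e * (V e)⁻¹ = 1 :=
    hdet'.mono fun e he => Matrix.mul_nonsing_inv _ he.isUnit
  have hy : ∀ i, AnalyticAt ℂ (fun e => b.repr e i) p := fun i => by
    obtain ⟨l, hl⟩ := xsstb_coord b i
    simpa only [← hl] using l.analyticAt p
  have hPa := an_Pm hτ hψ hV hW
  have hPg := gM_Pm hτ hψ hV hW
  have hsy : ∀ {A : E → Matrix (Fin g) (Fin g) ℂ}, (∀ a c, AnalyticAt ℂ (fun e => A e a c) p) →
      (∀ᶠ e in 𝓝 p, (A e)ᵀ = A e) → (gM p A)ᵀ = gM p A := fun {A} hA h => by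
    rw [← gM_transpose]
    exact gM_congr (A := fun e => (A e)ᵀ) (fun a c => hA c a) h
  have hmu := fun (a : Fin 2) (j : LL g) => gm_mu (q := fun e => q e a) hPa (hq1 a) j
  have hfb := fun (a : Fin 2) (l : Fin k) => gm_fb (q := fun e => q e a) hPa hU (hq1 a) l
  have hfam : ∀ j : (Fin 2 × LL g) ⊕ (Fin 2 × Fin k), AnalyticAt ℂ (Sum.elim
      (fun (x : Fin 2 × LL g) e => mu (Pm (τ e) (ψ e) (V e) (V e)⁻¹) (q e x.1) x.2)
      (fun (x : Fin 2 × Fin k) e => fb (Pm (τ e) (ψ e) (V e) (V e)⁻¹) (Um e) (q e x.1) x.2) j) p := by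
    rintro (x | x)
    · exact (hmu x.1 x.2).1
    · exact (hfb x.1 x.2).1
  obtain ⟨F, u, a, h1, h2, h3, h4, h5⟩ := algM2 (k := k)
    (fun i => gm p fun e => b.repr e i) (fun i => DG p (b i)) (gM p τ) (gM p ψ) (gM p V)
    (gM p fun e => (V e)⁻¹) (gM p fun e => Pm (τ e) (ψ e) (V e) (V e)⁻¹) hPg (gM p Um)
    (fun a c => gm p fun e => q e a c) (hsy hτ (hsym.mono fun e h => h.1))
    (hsy hψ (hsym.mono fun e h => h.2))
    (by
      rw [← gM_mul hV hW, gM_congr (an_mul hV hW) hVW, gM_const]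
      exact Matrix.map_one _ (map_zero _) (map_one _))
    (fun i j => by
      rw [DG_gm _ (hy j)]
      obtain ⟨l, hl⟩ := xsstb_coord b j
      have e1 : dv (b i) (fun e => b.repr e j) = fun _ => if i = j then (1 : ℂ) else 0 := by
        funext e
        simp only [← hl]
        rw [dv_apply, l.fderiv, hl, b.repr_self, Finsupp.single_apply]
      rw [e1, gm_const]
      split_ifs <;> simp)
    (fun i j => DG_comm p _ _) (fun f hf => DG_const b hf)
    (fun i => by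
      refine ⟨gM p fun e => (Pm (τ e) (ψ e) (V e) (V e)⁻¹)⁻¹ *
        dM (fun e => Pm (τ e) (ψ e) (V e) (V e)⁻¹) e (b i), ?_, fun a c => ?_⟩
      · rw [gM_DG hPa, ← gM_mul hPa fun a c => (hA i a c).1]
        refine gM_congr (an_dM hPa _) (hVW.mono fun e he => ?_)
        rw [Matrix.mul_nonsing_inv_cancel_left]
        rw [Pm_det _ _ he]
        exact isUnit_one
      · rw [← LA_eq]
        exact (hA i a c).2)
    (fun i => by
      refine ⟨gM p fun e => (Pm (τ e) (ψ e) (V e) (V e)⁻¹)⁻¹ * dM Um e (b i), ?_, fun a c => ?_⟩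
      · rw [gM_DG hU, ← gM_mul hPa fun a c => (hB i a c).1]
        refine gM_congr (an_dM hU _) (hVW.mono fun e he => ?_)
        rw [Matrix.mul_nonsing_inv_cancel_left]
        rw [Pm_det _ _ he]
        exact isUnit_one
      · rw [← LA_eq]
        exact (hB i a c).2)
    (fun v R hR' => zar_der hy hPa hR v R hR')
    (fun a c => by
      rw [← LA_eq]
      exact (hq a c).2)
    (gm_indep hq1 hq0) Z hZ
    (fun a c k1 k2 k3 => by
      refine hC2 c ((xfstage_sol b hfam (Sum.elim (fun _ => 0)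
        fun x => if x.1 = 0 then 0 else c x.2) (a := a) ?_).mono ?_)
      · rintro (x | ⟨x, l⟩)
        · simp only [Sum.elim_inl]
          rw [(hmu x.1 x.2).2, map_zero]
          exact k1 x.1 x.2
        · simp only [Sum.elim_inr]
          rw [(hfb x l).2]
          fin_cases x
          · simpa using k2 l
          · simpa using k3 l
      · rintro e ⟨ξ, hξ⟩
        exact ⟨ξ, fun a j => hξ (.inl (a, j)), fun l => hξ (.inr (0, l)),
          fun l => hξ (.inr (1, l))⟩)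
    (by
      by_contra hn
      have k1 : ∀ x : Fin g × Fin g, ∀ᶠ e in GF p, ∀ ξ : E, (∀ j, fderiv ℂ (Sum.elim
          (fun (x : Fin 2 × LL g) e => mu (Pm (τ e) (ψ e) (V e) (V e)⁻¹) (q e x.1) x.2)
          (fun (x : Fin 2 × Fin k) e => fb (Pm (τ e) (ψ e) (V e) (V e)⁻¹) (Um e) (q e x.1) x.2)
          j) e ξ = 0) → fderiv ℂ (fun e => τ e x.1 x.2) e ξ = 0 := fun x =>
        xfstage_lin b hfam (hτ x.1 x.2) fun a ha => by
          by_contra h0
          refine hn ⟨a, fun c j => ?_, fun c l => ?_, x.1, x.2, h0⟩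
          · rw [← (hmu c j).2]
            exact ha (.inl (c, j))
          · rw [← (hfb c l).2]
            exact ha (.inr (c, l))
      refine hC3 ((eventually_all.2 k1).mono ?_)
      rintro e he ⟨ξ, k2, k3, k4⟩
      refine k4 (Matrix.ext fun x y => he (x, y) ξ ?_)
      rintro (z | z)
      · exact k2 z.1 z.2
      · exact k3 z.1 z.2)
    (fun c hc => by
      refine hcj c fun j => ?_
      have k1 : Algebra.adjoin ℂ (Set.range (Sum.elim (fun i => gm p fun e => b.repr e i)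
          fun a : LL g × LL g => gM p (fun e => Pm (τ e) (ψ e) (V e) (V e)⁻¹) a.1 a.2)) ≤ L := by
        refine Algebra.adjoin_le ?_
        rintro _ ⟨i | a, rfl⟩
        · refine hL1 ?_
          rw [LA_eq b p]
          exact Algebra.subset_adjoin ⟨i, rfl⟩
        · exact hL2 a.1 a.2
      have k2 : gm p (fun e => ∑ l, c l * Um e j l) =
          ∑ l, algebraMap ℂ (MG p) (c l) * gM p Um j l := by
        rw [gm_sum (F := fun l e => c l * Um e j l) _ fun l _ => analyticAt_const.mul (hU j l)]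
        refine Finset.sum_congr rfl fun l _ => ?_
        rw [gm_mul (f := fun _ => c l) analyticAt_const (hU j l), gm_const]
        rfl
      rw [k2]
      exact (hc j).tower_top_of_subalgebra_le k1)
  obtain ⟨hT, hTg⟩ := xsstb_qf hτ u
  rw [← hTg] at h1 h4 h5
  obtain ⟨σ, t₀, k1, k2, k3, k4⟩ := curve_of_field b p F hT a h1 h2 h3
    (κ := ((Fin g × Fin g) ⊕ (Fin g × Fin g)) ⊕ κ)
    (f := Sum.elim (Sum.elim (fun x e => τ e x.1 x.2) fun x e => ψ e x.1 x.2) f)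
    (by
      rintro ((x | x) | j)
      · exact hτ _ _
      · exact hψ _ _
      · exact (hf j).1)
    (by
      rintro ((x | x) | j)
      · exact (h4 x.1 x.2).1
      · exact (h4 x.1 x.2).2
      · refine h5 _ ?_
        rw [← LA_eq]
        exact (hf j).2) hUp
  exact ⟨σ, t₀, u, k1, k2, k3, fun a c => ⟨k4 (.inl (.inl (a, c))), k4 (.inl (.inr (a, c)))⟩,
    fun j => k4 (.inr j)⟩

end Pool.Agent.MP_cf0a82_ag

end
end
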