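import Pool.Agent.Mg.Fcf0a82q.G1ea877
import Pool.Agent.Mg.Fcf0a82q.G40f606

section

open Complex Filter Topology Matrix Function

noncomputable section

namespace Pool.Agent.MP_cf0a82_ag

open Pool.Agent.MP_f58063_ag

lemma xdlev0_lin {X V : Type} [NormedAddCommGroup X] [NormedSpace ℂ X] [NormedAddCommGroup V]
    [NormedSpace ℂ V] (L : X →L[ℂ] V) {γ : ℂ → X} {t : ℂ} (h : AnalyticAt ℂ γ t) {v : V}
    (hv : HasDerivAt (fun s => L (γ s)) v t) : L (deriv γ t) = v :=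
  (L.hasFDerivAt.comp_hasDerivAt t h.differentiableAt.hasDerivAt).unique hv

lemma xdlev0_der {U V W : Type} [NormedAddCommGroup U] [NormedSpace ℂ U] [NormedAddCommGroup V]
    [NormedSpace ℂ V] [NormedAddCommGroup W] [NormedSpace ℂ W]
    {γ : ℂ → U × V × W × (Fin 4 → ℂ)} {t : ℂ} (h : AnalyticAt ℂ γ t) {x : U} {c : W}
    (h1 : ∀ s, (γ s).1 = x) (h2 : ∀ s, (γ s).2.2.1 = c) (h3 : ∀ s, (γ s).2.2.2 3 = s) :
    (deriv γ t).1 = 0 ∧ (deriv γ t).2.2.1 = 0 ∧ (deriv γ t).2.2.2 3 ≠ 0 := by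
  refine ⟨?_, ?_, ?_⟩
  · refine xdlev0_lin (ContinuousLinearMap.fst ℂ U (V × W × (Fin 4 → ℂ))) h ?_
    simpa [h1] using hasDerivAt_const t x
  · refine xdlev0_lin ((ContinuousLinearMap.fst ℂ W (Fin 4 → ℂ)).comp
      ((ContinuousLinearMap.snd ℂ V (W × (Fin 4 → ℂ))).comp
        (ContinuousLinearMap.snd ℂ U (V × W × (Fin 4 → ℂ))))) h ?_
    simpa [h2] using hasDerivAt_const t c
  · have h5 : (deriv γ t).2.2.2 3 = 1 := by
      refine xdlev0_lin ((ContinuousLinearMap.proj (R := ℂ) (φ := fun _ : Fin 4 => ℂ) 3).comp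
        ((ContinuousLinearMap.snd ℂ W (Fin 4 → ℂ)).comp
          ((ContinuousLinearMap.snd ℂ V (W × (Fin 4 → ℂ))).comp
            (ContinuousLinearMap.snd ℂ U (V × W × (Fin 4 → ℂ)))))) h ?_
      simpa [h3] using hasDerivAt_id' t
    rw [h5]
    exact one_ne_zero

lemma xdlev0_ev {J : Type} [Fintype J] {n d : ℕ} (c : Fin (d + 1) → Tn J n) (u : J → ℂ) (t : ℂ) :
    AnalyticAt ℂ (fun t => ev (pc c t) u) t := by
  unfold ev pc
  simp only [Finset.sum_apply, Pi.smul_apply, smul_eq_mul]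
  exact Finset.analyticAt_fun_sum _ fun j _ => AnalyticAt.mul
    (Finset.analyticAt_fun_sum _ fun i _ => (analyticAt_id.pow _).mul analyticAt_const)
    analyticAt_const

lemma xdlev0_kap {J : Type} [Fintype J] {n : ℕ} {C : ℂ → Tn J n} {H : ℂ → Fin n → J → ℂ}
    {t₀ : ℂ} (hC : ∀ u, AnalyticAt ℂ (fun t => ev (C t) u) t₀)
    (hH : ∀ l j, AnalyticAt ℂ (fun t => H t l j) t₀) (h0 : ∀ l, H t₀ l ≠ 0)
    (h : ∀ᶠ t in 𝓝 t₀, Ch (C t) (H t)) :
    ∃ κ : ℂ → ℂ, AnalyticAt ℂ κ t₀ ∧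
      ∀ᶠ t in 𝓝 t₀, κ t ≠ 0 ∧ ∀ u, ev (C t) u = κ t * ∏ l, u ⬝ᵥ H t l := by
  obtain ⟨u, hu⟩ := prod_ne h0
  have h1 : AnalyticAt ℂ (fun t => ∏ l, u ⬝ᵥ H t l) t₀ :=
    Finset.analyticAt_fun_prod _ fun l _ =>
      Finset.analyticAt_fun_sum _ fun j _ => analyticAt_const.mul (hH l j)
  have h2 : ∏ l, u ⬝ᵥ H t₀ l ≠ 0 := Finset.prod_ne_zero_iff.2 fun l _ => hu l
  refine ⟨fun t => ev (C t) u / ∏ l, u ⬝ᵥ H t l, (hC u).fun_div h1 h2, ?_⟩
  filter_upwards [h, h1.continuousAt.eventually_ne h2] with t ⟨κ, hκ, e⟩ ht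
  rw [e u, mul_div_cancel_right₀ _ ht]
  exact ⟨hκ, e⟩

/-- a rational equivalence gives a solution -/
theorem lev0 {g k : ℕ} {B : Box g} (hg : 0 < g) (A : Atl B) {x : DD g} (hx : x ∈ B.ball)
    {Y X : Fin k → EE g} (h : RatI (B.ψ x) Y X) (h0 : ∑ l, X l = 0) :
    ∃ (δ : Dat B k) (q : DD g × δ.W), δ.S3 A q ∧ q.1 = x ∧ δ.py A q = Y ∧ δ.px A q = X := by
  have hτ : B.ψ x ∈ B.ψ '' B.ball := ⟨x, hx, rfl⟩
  obtain ⟨b, d, β, c, t₀, p, hc0, hc1, hnz, hp, hev⟩ := B.embΦ.rat hτ h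
  let P : ℂ → PI k b → EE g := fun t => Sum.elim (Sum.elim Y X) (Sum.elim β (p t))
  have hP : ∀ i, AnalyticAt ℂ (fun t => P t i) t₀ := by
    rintro ((l | l) | (l | l))
    · exact analyticAt_const
    · exact analyticAt_const
    · exact analyticAt_const
    · exact analyticAt_pi_iff.1 hp l
  choose a ρ hρ hO hσ using fun i => A.cov x hx (P t₀ i)
  obtain ⟨jn, hjn⟩ := B.exists_ne hx 0
  let δ : Dat B k := ⟨b, d, a, jn⟩
  have hρP : ∀ i, AnalyticAt ℂ (fun t => ρ i (P t i)) t₀ := fun i =>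
    AnalyticAt.comp (f := fun t => P t i) (hρ i) (hP i)
  let G : (Fin 4 → ℂ) → ℂ → DD g × δ.W := fun s t => (x, fun i => ρ i (P t i), c, s)
  have e1 : ∀ᶠ t in 𝓝 t₀, ∀ i, (x, ρ i (P t i)) ∈ A.O (a i) ∧ A.σ (a i) (x, ρ i (P t i)) = P t i :=
    eventually_all.2 fun i =>
      (((analyticAt_const.prod (hρP i)).continuousAt.eventually
        ((A.op (a i)).mem_nhds (hO i))).and ((hP i).continuousAt.eventually (hσ i)))
  have e2 : ∀ᶠ t in 𝓝 t₀, ∀ s, G s t ∈ δ.dom A ∧ δ.pt A (G s t) = P t := by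
    filter_upwards [e1] with t ht s
    have h1 : δ.pt A (G s t) = P t := funext fun i => (ht i).2
    have h2 : ∑ l, δ.px A (G s t) l = 0 := by
      rw [← h0]
      exact Finset.sum_congr rfl fun l _ => congrFun h1 (.inl (.inr l))
    exact ⟨⟨hx, fun i => (ht i).1, by rw [h2]; exact hjn, hjn⟩, h1⟩
  let H : ℂ → PI k b → Fin B.nJ → ℂ := fun t i j =>
    B.φ j (B.ψ x) (P t i) / B.φ (A.j (a i)) (B.ψ x) (P t i)
  have hφ : ∀ i j, AnalyticAt ℂ (fun t => B.φ j (B.ψ x) (P t i)) t₀ := fun i j =>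
    AnalyticAt.comp (g := fun y : Mat g × EE g => B.φ j y.1 y.2)
      (f := fun t => (B.ψ x, P t i)) (B.embΦ.an _ hτ (P t₀ i) j) (analyticAt_const.prod (hP i))
  have hne : ∀ i, B.φ (A.j (a i)) (B.ψ x) (P t₀ i) ≠ 0 := fun i => by
    have h1 := A.ne (a i) _ (hO i)
    rwa [(hσ i).self_of_nhds] at h1
  have hH : ∀ i j, AnalyticAt ℂ (fun t => H t i j) t₀ := fun i j =>
    (hφ i j).fun_div (hφ i _) (hne i)
  have hH0 : ∀ i, H t₀ i ≠ 0 := fun i h1 => by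
    have h2 := congrFun h1 (A.j (a i))
    exact one_ne_zero ((div_self (hne i)).symm.trans h2)
  have hhat : ∀ s t, δ.pt A (G s t) = P t → δ.hat A (G s t) = H t := fun s t h1 => by
    funext i j
    unfold Dat.hat
    rw [h1]
  let C : Fin 3 → ℂ → Tn (Fin B.nJ) (k + b) := fun e t => ![c 0, c (Fin.last d), pc c t] e
  have hC : ∀ e u, AnalyticAt ℂ (fun t => ev (C e t) u) t₀ := fun e u => by
    fin_cases e
    · exact analyticAt_const (v := ev (c 0) u)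
    · exact analyticAt_const (v := ev (c (Fin.last d)) u)
    · exact xdlev0_ev c u t₀
  have e3 : ∀ e, ∀ᶠ t in 𝓝 t₀, Ch (C e t) fun l => H t (δ.ix e l) := fun e => by
    filter_upwards [e2, hev] with t ht h2
    obtain ⟨h3, h4⟩ := ht 0
    rw [← hhat 0 t h4, Dat.ch_iff h3]
    have hy : δ.py A (G 0 t) = Y := funext fun l => congrFun h4 (.inl (.inl l))
    have hX : δ.px A (G 0 t) = X := funext fun l => congrFun h4 (.inl (.inr l))
    have hb : δ.pb A (G 0 t) = β := funext fun l => congrFun h4 (.inr (.inl l))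
    fin_cases e
    · have h5 := Dat.pt_ix0 (A := A) (G 0 t)
      rw [hy, hb] at h5
      exact h5 ▸ hc0
    · have h5 := Dat.pt_ix1 (A := A) (G 0 t)
      rw [hX, hb] at h5
      exact h5 ▸ hc1
    · have h5 : (fun l => δ.pt A (G 0 t) (δ.ix 2 l)) = p t :=
        funext fun l => congrFun h4 (.inr (.inr l))
      exact h5 ▸ h2
  choose κ hκ eκ using fun e => xdlev0_kap (hC e) (fun l j => hH (δ.ix e l) j)
    (fun l => hH0 (δ.ix e l)) (e3 e)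
  let γ : ℂ → DD g × δ.W := fun t => G ![κ 0 t, κ 1 t, κ 2 t, t] t
  have hγ : AnalyticAt ℂ γ t₀ := by
    refine analyticAt_const.prod ((analyticAt_pi_iff.2 hρP).prod (analyticAt_const.prod
      (analyticAt_pi_iff.2 fun e => ?_)))
    fin_cases e
    · exact hκ 0
    · exact hκ 1
    · exact hκ 2
    · exact analyticAt_id
  have e4 : ∀ᶠ t in 𝓝 t₀, δ.Sol A (γ t) ∧ δ.pt A (γ t) = P t := by
    filter_upwards [e2, eventually_all.2 eκ] with t ht h2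
    obtain ⟨h3, h4⟩ := ht ![κ 0 t, κ 1 t, κ 2 t, t]
    have h5 : ∀ e : Fin 3, (γ t).2.2.2 e.castSucc = κ e t := fun e => by
      fin_cases e <;> rfl
    have h6 : ∀ e, δ.cw (γ t) e = C e t := fun e => rfl
    refine ⟨⟨h3, fun e u => ?_, fun e => ?_, ?_, hnz⟩, h4⟩
    · unfold Dat.eqc
      rw [h5, h6, hhat _ t h4, (h2 e).2 u, sub_self]
    · rw [h5]
      exact (h2 e).1
    · have h7 : ∑ l, δ.px A (γ t) l = 0 := by
        rw [← h0]
        exact Finset.sum_congr rfl fun l _ => congrFun h4 (.inl (.inr l))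
      rw [h7]
      exact (latG _).zero_mem
  obtain ⟨t, ⟨hs, h4⟩, ha, hT⟩ := tan_disc (δ.R_spec A hg).1 hγ e4.self_of_nhds.1.mem e4
  exact ⟨δ, γ t, ⟨hs, deriv γ t, hT, xdlev0_der ha (x := x) (c := c) (fun _ => rfl) (fun _ => rfl)
    fun _ => rfl⟩, rfl, funext fun l => congrFun h4 (.inl (.inl l)),
    funext fun l => congrFun h4 (.inl (.inr l))⟩

end Pool.Agent.MP_cf0a82_ag

end
end

section

open Complex Filter Topology Matrix Function

noncomputable section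

namespace Pool.Agent.MP_cf0a82_ag

open Pool.Agent.MP_f58063_ag

variable {g k : ℕ} {B : Box g}

lemma xdlev1_avoid {Y : Type} [TopologicalSpace Y] [BaireSpace Y] {M : Set Y} (hM : IsMeagre M)
    {P : Y → Prop} {a : Y} (h : ∀ᶠ t in 𝓝 a, P t) : ∃ t, P t ∧ t ∉ M := by
  obtain ⟨t, ht, ht'⟩ := (dense_of_mem_residual hM).inter_nhds_nonempty h
  exact ⟨t, ht', ht⟩

lemma xdlev1_open {E : Type} [NormedAddCommGroup E] [NormedSpace ℂ E] {S : Set E} {Y : E}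
    (h : DimGE S Y 1) : ∃ (l : E →L[ℂ] ℂ) (t₀ : ℂ), ∀ᶠ t in 𝓝 t₀, ∃ y ∈ S, l y = t := by
  obtain ⟨f, -, hf, hinj, hS⟩ := h
  have hw : fderiv ℂ f 0 (fun _ => 1) ≠ 0 := fun h0 => by
    have h1 : (fun _ => 1 : Fin 1 → ℂ) = 0 := hinj (h0.trans (map_zero _).symm)
    exact one_ne_zero (congrFun h1 0)
  obtain ⟨l, hl⟩ := SeparatingDual.exists_ne_zero (R := ℂ) hw
  have hd : HasStrictFDerivAt (fun s => l (f s)) (l.comp (fderiv ℂ f 0)) 0 :=
    l.hasStrictFDerivAt.comp 0 hf.hasStrictFDerivAt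
  have hs : (l.comp (fderiv ℂ f 0)).range = ⊤ := by
    refine LinearMap.range_eq_top.2 fun y => ?_
    refine ⟨(y / l (fderiv ℂ f 0 fun _ => 1)) • (fun _ => 1 : Fin 1 → ℂ), ?_⟩
    rw [map_smul, smul_eq_mul]
    exact div_mul_cancel₀ y hl
  refine ⟨l, l (f 0), ?_⟩
  rw [← hd.map_nhds_eq_of_surj hs]
  exact mem_map.2 (hS.mono fun s hs => ⟨f s, hs, rfl⟩)

theorem lev1 (hg : 0 < g) (A : Atl B) {x : DD g} (hx : x ∈ B.ball) {X Y : Fin k → EE g}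
    (h : DimGE {y | RatI (B.ψ x) y X} Y 1) (h0 : ∑ l, X l = 0) :
    ∃ (δ : Dat B k) (q : DD g × δ.W), δ.S2 A q ∧ q.1 = x ∧ δ.px A q = X := by
  obtain ⟨l, t₀, ht₀⟩ := xdlev1_open h
  have hM := isMeagre_iUnion fun δ : Dat B k =>
    selM (Module.finBasis ℂ (DD g × δ.W)) (δ.R_spec A hg).1
      (π := fun q => (q.1, δ.px A q)) (f := fun q => l (δ.py A q))
      (fun _ hq => analyticAt_fst.prod (δ.px_an A hq))
      (fun q hq => (l.analyticAt _).comp (δ.py_an A hq)) (x, X)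
  obtain ⟨t, ⟨y, hy, rfl⟩, ht⟩ := xdlev1_avoid hM ht₀
  obtain ⟨δ, q, h3, h1, hpy, hpx⟩ := lev0 hg A hx hy h0
  have hq : q ∈ δ.dom A := h3.1.mem
  refine ⟨δ, q, ⟨h3, ?_⟩, h1, hpx⟩
  by_contra hn
  refine ht (Set.mem_iUnion.2 ⟨δ, q, ⟨hq, Prod.ext h1 hpx, fun hall => hn ?_⟩, by rw [← hpy]⟩)
  obtain ⟨v, hv, hv0, hv1⟩ := hall 1
  have hX := (δ.px_an A hq).differentiableAt
  have hY := (δ.py_an A hq).differentiableAt
  rw [(hasFDerivAt_fst.prodMk hX.hasFDerivAt).fderiv] at hv0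
  have e1 : v.1 = 0 := congrArg Prod.fst hv0
  have e2 : fderiv ℂ (δ.px A) q v = 0 := congrArg Prod.snd hv0
  refine ⟨v, hv, e1, (δ.px_fderiv A hq e1).1 e2, fun e3 => ?_⟩
  have e4 : fderiv ℂ (fun q => l (δ.py A q)) q = l.comp (fderiv ℂ (δ.py A) q) :=
    (l.hasFDerivAt.comp q hY.hasFDerivAt).fderiv
  rw [e4, ContinuousLinearMap.comp_apply, e3, map_zero] at hv1
  exact zero_ne_one hv1

theorem lev2 (hg : 0 < g) (A : Atl B) {x : DD g} {a₀ : EE g}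
    (h : ∀ᶠ a in 𝓝 a₀, ∃ (δ : Dat B k) (q : DD g × δ.W) (i : Fin k),
      δ.S2 A q ∧ q.1 = x ∧ δ.px A q i = a) :
    ∃ (δ : Dat B k) (q : DD g × δ.W), δ.S2 A q ∧ q.1 = x ∧ δ.BigAt A q := by
  have hM := isMeagre_iUnion fun δ : Dat B k => isMeagre_iUnion fun i : Fin k =>
    selM (Module.finBasis ℂ (DD g × δ.W)) (δ.R_spec A hg).1
      (π := fun q => q.1) (f := fun q => δ.px A q i)
      (fun _ _ => analyticAt_fst)
      (fun q hq => analyticAt_pi_iff.1 (δ.px_an A hq) i) x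
  obtain ⟨a, ⟨δ, q, i, h2, h1, rfl⟩, ha⟩ := xdlev1_avoid hM h
  have hq : q ∈ δ.dom A := h2.1.1.mem
  refine ⟨δ, q, h2, h1, ?_⟩
  by_contra hn
  refine ha (Set.mem_iUnion.2 ⟨δ, Set.mem_iUnion.2 ⟨i, q, ⟨hq, h1, fun hall => hn ⟨i, fun w => ?_⟩⟩,
    rfl⟩⟩)
  obtain ⟨v, hv, hv0, hv1⟩ := hall w
  have hX := (δ.px_an A hq).differentiableAt
  rw [hasFDerivAt_fst.fderiv] at hv0
  rw [(hasFDerivAt_pi'.1 hX.hasFDerivAt i).fderiv] at hv1
  exact ⟨v, hv, hv0, hv1⟩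

end Pool.Agent.MP_cf0a82_ag

end
end
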