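import Pool.Agent.Mg.Fcf0a82q.G40f606
import Pool.Agent.Mg.Fcf0a82q.Gfc3401
import Pool.Agent.Mg.Fcf0a82q.G6d303b
import Pool.Agent.Mg.Fcf0a82q.G72aec6
import Pool.Agent.Mg.Fcf0a82q.G9185b4
import Pool.Agent.Mg.Fcf0a82q.G32d4ae
import Pool.Agent.Mg.Fcf0a82q.Gc33b9d
import Pool.Agent.Mg.Fcf0a82q.G67c0ca
import Pool.Agent.Mg.Fcf0a82q.G700418
import Pool.Agent.Mg.Fcf0a82q.Gf144d7
import Pool.Agent.Mg.Fcf0a82q.G349431
import Pool.Agent.Mg.Fcf0a82q.Gb5be87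

section

open Complex Filter Topology Matrix Function

noncomputable section

namespace Pool.Agent.MP_cf0a82_ag

open Pool.Agent.MP_f58063_ag

variable {g k : ℕ} {B : Box g} {Z : Type} [NormedAddCommGroup Z] [NormedSpace ℂ Z]
  [FiniteDimensional ℂ Z] {x y : DD g × Z → Fin k → EE g} {e : DD g × Z}

omit [FiniteDimensional ℂ Z] in
lemma xih_kil (he : e.1 ∈ B.ball) {r : ℕ} {ν : Fin r → EE g} {ξ : Fin r → DD g × Z}
    (h : ∀ a b, mv (fderiv ℂ B.ψ e.1 (ξ a).1) (ν b) = 0) :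
    Kil (fun e : DD g × Z => B.ψ e.1) e ν ξ := fun a b => by
  have h1 : HasFDerivAt (fun e : DD g × Z => B.ψ e.1) _ e :=
    (B.ψ_an he).differentiableAt.hasFDerivAt.comp e hasFDerivAt_fst
  rw [h1.fderiv]
  exact h a b

omit [FiniteDimensional ℂ Z] in
lemma xih_app (hx : AnalyticAt ℂ x e) (ξ : DD g × Z) (l : Fin k) :
    fderiv ℂ (fun e => x e l) e ξ = fderiv ℂ x e ξ l := by
  rw [fderiv_apply hx.differentiableAt]
  rfl

omit [FiniteDimensional ℂ Z] in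
lemma xih_ml (h : ML B x y e) (he : e.1 ∈ B.ball) (hx : AnalyticAt ℂ x e)
    (hy : AnalyticAt ℂ y e) {r : ℕ} (ν : Fin r → EE g) (ξ : Fin r → DD g × Z)
    (hK : ∀ a b, mv (fderiv ℂ B.ψ e.1 (ξ a).1) (ν b) = 0) :
    ∑ l, (Matrix.of fun a b => ν b ⬝ᵥ fderiv ℂ x e (ξ a) l).det =
      ∑ l, (Matrix.of fun a b => ν b ⬝ᵥ fderiv ℂ y e (ξ a) l).det := by
  simpa only [tf, xih_app hx, xih_app hy] using h r ν ξ (xih_kil he hK)

lemma xih_zero (ψ : DD g → Mat g) (p : DD g) (v : EE g) : mv (fderiv ℂ ψ p 0) v = 0 := by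
  funext i
  simp [mv]

theorem ML.symm (h : ML B x y e) : ML B y x e := by
  exact fun r ν ξ hK => (h r ν ξ hK).symm

theorem h1_of_nor (he : e.1 ∈ B.ball) (hx : AnalyticAt ℂ x e)
    (h : ∀ᶠ e' in 𝓝 e, ∑ l, x e' l ∈ lattice (B.ψ e'.1)) : H1 B.ψ x e := by
  intro ν ξ hK
  have := FiniteDimensional.complete ℂ Z
  have hτ : AnalyticAt ℂ (fun e : DD g × Z => B.ψ e.1) e := (B.ψ_an he).comp analyticAt_fst
  have hl := analyticAt_pi_iff.1 hx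
  obtain ⟨m, n, h1⟩ := lat_const hτ (Finset.analyticAt_fun_sum _ fun l _ => hl l) h
  have h2 := (xih_kil (ν := fun _ : Fin 1 => ν) (ξ := fun _ => ξ) he fun _ _ => hK).per hτ
    ((continuous_fst.tendsto e).eventually ((xbboxa_ev B he).mono fun _ => B.sieg)) m n 0 0
  rw [← Filter.EventuallyEq.fderiv_eq h1, fderiv_fun_sum fun l _ => (hl l).differentiableAt,
    _root_.sum_apply, dotProduct_sum] at h2
  simpa only [xih_app hx] using h2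

theorem ML.h1 (h : ML B x y e) (he : e.1 ∈ B.ball) (hx : AnalyticAt ℂ x e)
    (hy : AnalyticAt ℂ y e) (h1 : H1 B.ψ x e) : H1 B.ψ y e := by
  intro ν ξ hK
  have h2 := xih_ml h he hx hy (fun _ : Fin 1 => ν) (fun _ => ξ) fun _ _ => hK
  simp only [det_fin_one, of_apply] at h2
  exact h2.symm.trans (h1 ν ξ hK)

theorem ML.h2 (h : ML B x y e) (he : e.1 ∈ B.ball) (hx : AnalyticAt ℂ x e)
    (hy : AnalyticAt ℂ y e) {u : Z} (hu : vd x e u = 0) : H2 B.ψ y u e := by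
  intro ν ξ hK
  have h2 := xih_ml h he hx hy ν ![ξ, (0, u)] (Fin.forall_fin_two.2 ⟨hK, fun _ => xih_zero _ _ _⟩)
  simp only [det_fin_two, of_apply, cons_val_zero, cons_val_one, ← vd_apply, hu, Pi.zero_apply,
    dotProduct_zero, mul_zero, sub_self, Finset.sum_const_zero] at h2
  exact h2.symm

theorem exists_det {n : ℕ} (hn : n + 1 ≤ g) {v : EE g} (hv : v ≠ 0) :
    ∃ w ν : Fin (n + 1) → EE g, w 0 = v ∧ (Matrix.of fun a b => ν b ⬝ᵥ w a).det ≠ 0 := by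
  obtain ⟨j, hj⟩ := Function.ne_iff.1 hv
  obtain ⟨σ, h0, hσ⟩ : ∃ σ : Fin (n + 1) → Fin g, σ 0 = j ∧ Injective σ :=
    ⟨fun a => Equiv.swap (Fin.castLE hn 0) j (Fin.castLE hn a), Equiv.swap_apply_left _ _,
      (Equiv.injective _).comp (Fin.castLE_injective hn)⟩
  refine ⟨fun a => if a = 0 then v else Pi.single (σ a) 1, fun b => Pi.single (σ b) 1,
    if_pos rfl, ?_⟩
  rw [det_of_isUpperTriangular, Finset.prod_ne_zero_iff]
  · intro a _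
    by_cases ha : a = 0
    · simpa [ha, h0] using hj
    · simp [ha]
  · intro a b hab
    have h1 : b < a := hab
    simp [(Fin.pos_iff_ne_zero.1 ((Fin.zero_le b).trans_lt h1)), hσ.ne h1.ne]

/-- the points of a cycle cannot all move proportionally -/
theorem ML.newton (h : ML B x y e) (hk : k ≤ g) (he : e.1 ∈ B.ball) (hx : AnalyticAt ℂ x e)
    (hy : AnalyticAt ℂ y e) {u : Z} (h0 : vd y e u = 0) (h1 : vd x e u ≠ 0) {r : Fin k → ℂ}
    (hr : ∀ ζ, ∃ v : EE g, ∀ l, vd x e ζ l = r l • v) {i : Fin k}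
    (hi : ∀ v, ∃ ζ, vd x e ζ i = v) : False := by
  obtain ⟨v, hv⟩ := hr u
  have hv0 : v ≠ 0 := fun e0 => h1 (funext fun l => by rw [hv, e0, smul_zero, Pi.zero_apply])
  have hri : r i ≠ 0 := fun e0 => by
    obtain ⟨ζ, hζ⟩ := hi v
    obtain ⟨v', hv'⟩ := hr ζ
    exact hv0 (by rw [← hζ, hv', e0, zero_smul])
  refine hri (congrFun (MP_cf0a82_ag.newton fun n hn hn' => ?_) i)
  obtain ⟨n, rfl⟩ := Nat.exists_eq_add_of_le' hn
  obtain ⟨w, ν, hw, hd⟩ := exists_det (hn'.trans hk) hv0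
  have key : ∀ a, ∃ ζ, (a = 0 → ζ = u) ∧ ∀ l, fderiv ℂ x e (0, ζ) l = r l • w a := fun a => by
    by_cases ha : a = 0
    · exact ⟨u, fun _ => rfl, by rwa [ha, hw]⟩
    · obtain ⟨ζ, hζ⟩ := hi (r i • w a)
      obtain ⟨v', hv'⟩ := hr ζ
      exact ⟨ζ, fun e0 => absurd e0 ha,
        smul_right_injective _ hri ((hv' i).symm.trans hζ) ▸ hv'⟩
  choose ζ hζ hζ' using key
  have h2 := xih_ml h he hx hy ν (fun a => (0, ζ a)) fun _ _ => xih_zero _ _ _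
  have h3 : ∀ l, (Matrix.of fun a b => ν b ⬝ᵥ fderiv ℂ x e (0, ζ a) l) =
      r l • Matrix.of fun a b => ν b ⬝ᵥ w a := fun l => by
    ext a b
    simp only [of_apply, hζ', dotProduct_smul, Matrix.smul_apply]
  have h4 : ∀ l, (Matrix.of fun a b => ν b ⬝ᵥ fderiv ℂ y e (0, ζ a) l).det = 0 := fun l =>
    det_eq_zero_of_row_eq_zero 0 fun b => by
      rw [of_apply, hζ 0 rfl, ← vd_apply, h0, Pi.zero_apply, dotProduct_zero]
  simp only [h3, h4, det_smul, Fintype.card_fin, ← Finset.sum_mul, Finset.sum_const_zero] at h2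
  exact (mul_eq_zero.1 h2).resolve_right hd

end Pool.Agent.MP_cf0a82_ag

end
end

section

open Complex Filter Topology Matrix Function

noncomputable section

namespace Pool.Agent.MP_cf0a82_ag

open Pool.Agent.MP_f58063_ag

variable {g k : ℕ} (B : Box g) {Z : Type} [NormedAddCommGroup Z] [NormedSpace ℂ Z]
  [FiniteDimensional ℂ Z] (j : Fin k → Fin B.nJ) {z : DD g × Z → Fin k → EE g} {p : E2 g Z}

/-- the projection that forgets the classes -/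
def xfaxbP (g : ℕ) (Z : Type) [NormedAddCommGroup Z] [NormedSpace ℂ Z] :
    E2 g Z →L[ℂ] DD g × Z :=
  (ContinuousLinearMap.fst ℂ _ _).prod
    ((ContinuousLinearMap.fst ℂ _ _).comp (ContinuousLinearMap.snd ℂ _ _))

theorem Box.ns_E2 (hz : ∀ l, B.NS Prod.fst (fun e => z e l) (p.1, p.2.1)) (l : Fin k) :
    B.NS Prod.fst (fun e : E2 g Z => z (e.1, e.2.1) l) p := by
  exact Box.NS.comp (f := fun e : E2 g Z => (e.1, e.2.1)) (y := p) (hz l)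
    ((xfaxbP g Z).analyticAt p) fun m => NashAt.clm (m.comp (xfaxbP g Z)) p

theorem Box.Um_an (hp : p.1 ∈ B.ball) (hz : ∀ l, B.NS Prod.fst (fun e => z e l) (p.1, p.2.1))
    (hj : ∀ l, B.φ (j l) (B.ψ p.1) (z (p.1, p.2.1) l) ≠ 0) (a : LL g) (l : Fin k) :
    AnalyticAt ℂ (fun e => B.Um j z e a l) p := by
  exact Box.U_an B (Box.NB.fst hp) (B.ns_E2 hz l).1 (hj l) a

theorem Box.Um_nash (hg : 0 < g) (hp : p.1 ∈ B.ball)
    (hz : ∀ l, B.NS Prod.fst (fun e => z e l) (p.1, p.2.1))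
    (hj : ∀ l, B.φ (j l) (B.ψ p.1) (z (p.1, p.2.1) l) ≠ 0) (ξ : E2 g Z) (a : LL g) (l : Fin k) :
    NashAt (fun e : E2 g Z => ((B.P (B.ψ e.1))⁻¹ * dM (B.Um j z) e ξ) a l) p := by
  exact Box.nash_dU B hg (Box.NB.fst hp) (B.ns_E2 hz l) (hj l) ξ a

/-- algebraic combinations of the lifts -/
theorem Box.hcj2 (hp : p.1 ∈ B.ball) (hz : ∀ l, B.NS Prod.fst (fun e => z e l) (p.1, p.2.1))
    (hj : ∀ l, B.φ (j l) (B.ψ p.1) (z (p.1, p.2.1) l) ≠ 0) (c : Fin k → ℂ)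
    (h : ∀ i, IsAlgebraic (LB p) (gm p fun e => ∑ l, c l * B.Um j z e i l)) :
    ∀ᶠ e : E2 g Z in 𝓝 p, ∀ ζ,
      ∑ l, star c l * pr (B.nu e) (vd z (e.1, e.2.1) ζ) 0 l = 0 := by
  have hU : ∀ i, AnalyticAt ℂ (fun e => ∑ l, c l * B.Um j z e i l) p := fun i =>
    Finset.analyticAt_fun_sum _ fun l _ => analyticAt_const.mul (B.Um_an j hp hz hj i l)
  have hψ : ∀ a b, AnalyticAt ℂ (fun x => B.ψ x a b) p.1 := fun a b =>
    analyticAt_pi_iff.1 (analyticAt_pi_iff.1 (B.ψ_an hp) a) b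
  have hτ : ∀ a b, AnalyticAt ℂ (fun e : E2 g Z => B.ψ e.1 a b) p := fun a b =>
    AnalyticAt.comp (f := Prod.fst) (hψ a b) analyticAt_fst
  have h1 := B.hcj (Z := Z × (Fin 2 → EE g)) (p := p) hp (z := fun e => z (e.1, e.2.1))
    (B.ns_E2 hz) c fun a => by
      have e : (fun e : E2 g Z => ∑ l, c l * z (e.1, e.2.1) l a) = fun e =>
          (∑ l, c l * B.Um j z e (Sum.inl a) l) -
            ∑ b, B.ψ e.1 a b * ∑ l, c l * B.Um j z e (Sum.inr b) l := by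
        funext e
        simp only [Box.Um, Uf, of_apply, Sum.elim_inl, Sum.elim_inr, Pi.add_apply, mv, mul_add,
          Finset.sum_add_distrib, Finset.mul_sum]
        rw [Finset.sum_comm (s := Finset.univ (α := Fin g))]
        simp only [mul_left_comm (B.ψ e.1 a _), add_sub_cancel_right]
      have hV : ∀ b, AnalyticAt ℂ
          (fun e : E2 g Z => B.ψ e.1 a b * ∑ l, c l * B.Um j z e (Sum.inr b) l) p :=
        fun b => (hτ a b).mul (hU _)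
      rw [e, gm_sub (hU _) (Finset.analyticAt_fun_sum _ fun b _ => hV b),
        gm_sum _ fun b _ => hV b]
      refine (h _).sub (Finset.sum_induction _ (IsAlgebraic (LB p)) (fun _ _ => IsAlgebraic.add)
        isAlgebraic_zero fun b _ => ?_)
      rw [gm_mul (hτ a b) (hU _)]
      have hm : gm p (fun e : E2 g Z => B.ψ e.1 a b) ∈ LB p :=
        Algebra.subset_adjoin (Or.inr ⟨fun x => B.ψ x a b, hψ a b, rfl⟩)
      exact (isAlgebraic_algebraMap (⟨_, hm⟩ : LB p)).mul (h _)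
  have h2 : AnalyticAt ℂ z (xfaxbP g Z p) := analyticAt_pi_iff.2 fun l => (hz l).1
  filter_upwards [h1, (xfaxbP g Z).continuous.continuousAt.eventually h2.eventually_analyticAt]
    with e he ha ζ
  have h3 : vd (fun e : E2 g Z => z (e.1, e.2.1)) e (ζ, 0) = vd z (e.1, e.2.1) ζ := by
    have := (ha.differentiableAt.hasFDerivAt.comp e (xfaxbP g Z).hasFDerivAt).fderiv
    exact DFunLike.congr_fun this (0, ζ, 0)
  have h4 := he (ζ, 0)
  rw [h3] at h4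
  have h5 := congrArg (fun w => B.nu e 0 ⬝ᵥ w) h4
  simp only [dotProduct_sum, dotProduct_smul, dotProduct_zero, smul_eq_mul] at h5
  exact h5

theorem freq_E2 {U : Set (DD g × Z)} (hU : U ∈ 𝓝 (p.1, p.2.1)) {S : DD g × Z → Prop}
    (h : ∀ O ⊆ U, IsOpen O → O.Nonempty → ∃ e ∈ O, S e) :
    ∃ᶠ e : E2 g Z in GF p, S (e.1, e.2.1) := by
  have ho : IsOpenMap fun e : E2 g Z => (e.1, e.2.1) := IsOpenMap.id.prodMap isOpenMap_fst
  refine freq_GF (U := xfaxbP g Z ⁻¹' U) ((xfaxbP g Z).continuous.continuousAt hU)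
    fun O hO h1 h2 => ?_
  obtain ⟨_, ⟨e, he, rfl⟩, h3⟩ := h _ (Set.image_subset_iff.2 hO) (ho O h1) (h2.image _)
  exact ⟨e, he, h3⟩

end Pool.Agent.MP_cf0a82_ag

end
end

section

open Complex Filter Topology Matrix Function

noncomputable section

namespace Pool.Agent.MP_cf0a82_ag

open Pool.Agent.MP_f58063_ag

variable {g k : ℕ} {Z : Type} [AddCommGroup Z] [Module ℂ Z] [FiniteDimensional ℂ Z]

lemma xfrho_le {W W' : Type} [AddCommGroup W] [Module ℂ W] [AddCommGroup W'] [Module ℂ W']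
    (L : Z →ₗ[ℂ] W) (L' : Z →ₗ[ℂ] W') (h : ∀ ζ, L' ζ = 0 → L ζ = 0) : rk L ≤ rk L' := by
  have h1 := L.finrank_range_add_finrank_ker
  have h2 := L'.finrank_range_add_finrank_ker
  have h3 : Module.finrank ℂ (LinearMap.ker L') ≤ Module.finrank ℂ (LinearMap.ker L) :=
    Submodule.finrank_mono fun ζ hζ => h ζ hζ
  unfold rk
  omega

lemma xfrho_lt {W W' : Type} [AddCommGroup W] [Module ℂ W] [AddCommGroup W'] [Module ℂ W']
    (L : Z →ₗ[ℂ] W) (L' : Z →ₗ[ℂ] W') (h : ∀ ζ, L' ζ = 0 → L ζ = 0) {u : Z} (h0 : L u = 0)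
    (h1 : L' u ≠ 0) : rk L < rk L' := by
  have h2 := L.finrank_range_add_finrank_ker
  have h3 := L'.finrank_range_add_finrank_ker
  have h4 : Module.finrank ℂ (LinearMap.ker L') < Module.finrank ℂ (LinearMap.ker L) :=
    Submodule.finrank_lt_finrank_of_lt (lt_of_le_of_ne (fun ζ hζ => h ζ hζ) fun e =>
      h1 (show u ∈ LinearMap.ker L' from e ▸ h0))
  unfold rk
  omega

omit [FiniteDimensional ℂ Z] in
lemma xfrho_top {n : ℕ} (L : Z →ₗ[ℂ] Fin n → ℂ) (h : Surjective L) : rk L = n := by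
  rw [rk, LinearMap.range_eq_top.2 h, finrank_top, Module.finrank_fin_fun]

lemma xfrho_one {W : Type} [AddCommGroup W] [Module ℂ W] (F : Z →ₗ[ℂ] W) (h : rk F ≤ 1) {η : Z}
    (hη : F η ≠ 0) (ζ : Z) : ∃ c : ℂ, F ζ = c • F η := by
  obtain ⟨v, hv⟩ := finrank_le_one_iff.1 h
  obtain ⟨c, hc⟩ := hv ⟨F η, η, rfl⟩
  obtain ⟨c', hc'⟩ := hv ⟨F ζ, ζ, rfl⟩
  have e : F η = c • (v : W) := (congrArg Subtype.val hc).symm
  have e' : F ζ = c' • (v : W) := (congrArg Subtype.val hc').symm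
  have hc0 : c ≠ 0 := fun h0 => hη (by rw [e, h0, zero_smul])
  exact ⟨c' / c, by rw [e, e', smul_smul, div_mul_cancel₀ _ hc0]⟩

/-- the pairing with one linear form -/
def xfrhoF (L : Z →ₗ[ℂ] Fin k → EE g) (ν : EE g) : Z →ₗ[ℂ] Fin k → ℂ :=
  LinearMap.proj (0 : Fin 2) ∘ₗ pr (fun _ => ν) ∘ₗ L

omit [FiniteDimensional ℂ Z] in
lemma xfrho_apply (L : Z →ₗ[ℂ] Fin k → EE g) (ν : EE g) (ζ : Z) (l : Fin k) :
    xfrhoF L ν ζ l = ν ⬝ᵥ L ζ l := rfl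

omit [FiniteDimensional ℂ Z] in
lemma xfrho_add (L : Z →ₗ[ℂ] Fin k → EE g) (ν μ : EE g) (ζ : Z) :
    xfrhoF L (ν + μ) ζ = xfrhoF L ν ζ + xfrhoF L μ ζ :=
  funext fun l => add_dotProduct ν μ (L ζ l)

omit [FiniteDimensional ℂ Z] in
lemma xfrho_ee (L : Z →ₗ[ℂ] Fin k → EE g) (a : Fin g) (ζ : Z) (l : Fin k) :
    xfrhoF L (ee a) ζ l = L ζ l a := by
  rw [xfrho_apply, single_one_dotProduct]

omit [FiniteDimensional ℂ Z] in
lemma xfrho_ne (L : Z →ₗ[ℂ] Fin k → EE g) {u : Z} (h : L u ≠ 0) : ∃ μ, xfrhoF L μ u ≠ 0 := by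
  obtain ⟨l, hl⟩ := Function.ne_iff.1 h
  obtain ⟨a, ha⟩ := Function.ne_iff.1 hl
  exact ⟨ee a, fun e => ha ((xfrho_ee L a u l).symm.trans (congrFun e l))⟩

/-- spaces of tensors all of whose projections have rank at most two -/
theorem rho3 (L : Z →ₗ[ℂ] Fin k → EE g) (h : ∀ ν : Fin 2 → EE g, rk (pr ν ∘ₗ L) ≤ 2) :
    rk L ≤ 2 ∨ ∃ r : Fin k → ℂ, ∀ ζ, ∃ v : EE g, ∀ l, L ζ l = r l • v := by
  have hle : ∀ ν, rk (xfrhoF L ν) ≤ 2 := fun ν =>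
    (xfrho_le _ (pr (fun _ => ν) ∘ₗ L) fun ζ hζ => congrFun hζ 0).trans (h _)
  by_cases h0 : ∃ ν, ∀ ζ, xfrhoF L ν ζ = 0 → L ζ = 0
  · obtain ⟨ν, hν⟩ := h0
    exact Or.inl ((xfrho_le L _ hν).trans (hle ν))
  push Not at h0
  have h1 : ∀ ν, rk (xfrhoF L ν) ≤ 1 := fun ν => by
    obtain ⟨u, hu, hu'⟩ := h0 ν
    obtain ⟨μ, hμ⟩ := xfrho_ne L hu'
    have := xfrho_lt (xfrhoF L ν) (pr ![ν, μ] ∘ₗ L) (fun ζ hζ => congrFun hζ 0) hu
      fun e => hμ (congrFun e 1)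
    have := h ![ν, μ]
    omega
  right
  obtain ⟨ζ₀, -, hζ₀⟩ := h0 0
  obtain ⟨ν₀, hr⟩ := xfrho_ne L hζ₀
  obtain ⟨η, hη, hη'⟩ := h0 ν₀
  obtain ⟨μ₀, hμ₀⟩ := xfrho_ne L hη'
  have hA : ∀ μ, xfrhoF L μ η ≠ 0 → ∀ ζ, ∃ c : ℂ, xfrhoF L μ ζ = c • xfrhoF L ν₀ ζ₀ := by
    intro μ hμ ζ
    have e : xfrhoF L (ν₀ + μ) η = xfrhoF L μ η := by rw [xfrho_add, hη, zero_add]
    obtain ⟨c₁, e₁⟩ := xfrho_one _ (h1 (ν₀ + μ)) (e ▸ hμ) ζ₀
    obtain ⟨c₂, e₂⟩ := xfrho_one _ (h1 μ) hμ ζ₀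
    obtain ⟨c₃, e₃⟩ := xfrho_one _ (h1 μ) hμ ζ
    rw [e, xfrho_add, e₂, ← eq_sub_iff_add_eq, ← sub_smul] at e₁
    have hc : c₁ - c₂ ≠ 0 := fun h0 => hr (by rw [e₁, h0, zero_smul])
    exact ⟨c₃ / (c₁ - c₂), by rw [e₁, e₃, smul_smul, div_mul_cancel₀ _ hc]⟩
  have hB : ∀ μ ζ, ∃ c : ℂ, xfrhoF L μ ζ = c • xfrhoF L ν₀ ζ₀ := by
    intro μ ζ
    by_cases hμ : xfrhoF L μ η = 0
    · obtain ⟨c₁, e₁⟩ := hA (μ + μ₀) (by rwa [xfrho_add, hμ, zero_add]) ζ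
      obtain ⟨c₂, e₂⟩ := hA μ₀ hμ₀ ζ
      rw [xfrho_add, e₂, ← eq_sub_iff_add_eq, ← sub_smul] at e₁
      exact ⟨_, e₁⟩
    · exact hA μ hμ ζ
  refine ⟨xfrhoF L ν₀ ζ₀, fun ζ => ?_⟩
  choose c hc using fun a => hB (ee a) ζ
  refine ⟨c, fun l => funext fun a => ?_⟩
  rw [← xfrho_ee, hc a, Pi.smul_apply, Pi.smul_apply, smul_eq_mul, smul_eq_mul, mul_comm]

theorem rk_le_of_line (L : Z →ₗ[ℂ] Fin k → EE g) {r : Fin k → ℂ}
    (h : ∀ ζ, ∃ v : EE g, ∀ l, L ζ l = r l • v) : rk L ≤ g := by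
  let M : EE g →ₗ[ℂ] Fin k → EE g := LinearMap.pi fun l => r l • LinearMap.id
  have h1 : LinearMap.range L ≤ LinearMap.range M := by
    rintro _ ⟨ζ, rfl⟩
    obtain ⟨v, hv⟩ := h ζ
    exact ⟨v, funext fun l => (hv l).symm⟩
  refine (Submodule.finrank_mono h1).trans (M.finrank_range_le.trans ?_)
  rw [Module.finrank_fin_fun]

theorem le_rk_of_onto (L : Z →ₗ[ℂ] Fin k → EE g) {i : Fin k} (h : ∀ v, ∃ ζ, L ζ i = v) :
    g ≤ rk L := by
  let M : Z →ₗ[ℂ] Fin g → ℂ := (LinearMap.proj i : (Fin k → EE g) →ₗ[ℂ] EE g) ∘ₗ L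
  refine le_trans (xfrho_top M fun v => h v).ge (xfrho_le M L fun ζ hζ => ?_)
  exact congrFun hζ i

theorem rk_lt_of_ker {W W' : Type} [AddCommGroup W] [Module ℂ W] [AddCommGroup W'] [Module ℂ W']
    (L : Z →ₗ[ℂ] W) (L' : Z →ₗ[ℂ] W') (h : ∀ ζ, L' ζ = 0 → L ζ = 0) {u : Z} (h0 : L u = 0)
    (h1 : L' u ≠ 0) : rk L < rk L' := xfrho_lt L L' h h0 h1

theorem one_le_rk (L : Z →ₗ[ℂ] Fin k → EE g) {u : Z} (h : L u ≠ 0) :
    ∃ ν : Fin 2 → EE g, 1 ≤ rk (pr ν ∘ₗ L) := by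
  obtain ⟨μ, hμ⟩ := xfrho_ne L h
  have := xfrho_lt (0 : Z →ₗ[ℂ] ℂ) (pr (fun _ => μ) ∘ₗ L) (fun _ _ => rfl) (u := u) rfl
    fun e => hμ (congrFun e 0)
  exact ⟨fun _ => μ, by omega⟩

theorem two_le_rk (hg : 2 ≤ g) (L : Z →ₗ[ℂ] Fin k → EE g) {i : Fin k} (h : ∀ v, ∃ ζ, L ζ i = v) :
    ∃ ν : Fin 2 → EE g, 2 ≤ rk (pr ν ∘ₗ L) := by
  refine ⟨fun b => ee (Fin.castLE hg b), ?_⟩
  let M : Z →ₗ[ℂ] Fin 2 → ℂ :=
    LinearMap.pi fun b => LinearMap.proj i ∘ₗ xfrhoF L (ee (Fin.castLE hg b))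
  refine le_trans (xfrho_top M fun t => ?_).ge
    (xfrho_le M _ fun ζ hζ => funext fun b => congrFun (congrFun hζ b) i)
  obtain ⟨ζ, hζ⟩ := h (Function.extend (Fin.castLE hg) t 0)
  refine ⟨ζ, funext fun b => ?_⟩
  change xfrhoF L (ee (Fin.castLE hg b)) ζ i = t b
  rw [xfrho_ee, hζ, (Fin.castLE_injective hg).extend_apply]

/-- a generic pair of classes -/
theorem gen_nu (hg : 2 ≤ g) {Y : Type} [NormedAddCommGroup Y] [NormedSpace ℂ Y]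
    [FiniteDimensional ℂ Y] (L : Y →ₗ[ℂ] Fin k → EE g) {u : Y} (hu : L u ≠ 0) {ρ : ℕ}
    (h : ∃ ν : Fin 2 → EE g, ρ ≤ rk (pr ν ∘ₗ L)) :
    ∃ ν : Fin 2 → EE g, LinearIndependent ℂ ν ∧ pr ν (L u) 0 ≠ 0 ∧ ρ ≤ rk (pr ν ∘ₗ L) := by
  obtain ⟨p, hp⟩ := h
  obtain ⟨μ, hμ⟩ := xfrho_ne L hu
  obtain ⟨l, hl⟩ := Function.ne_iff.1 hμ
  have hco : ∀ (b : Fin 2) (a : Fin g) (x : Fin 2 → EE g),
      AnalyticAt ℂ (fun ν : Fin 2 → EE g => ν b a) x := fun b a x =>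
    ((ContinuousLinearMap.proj a : EE g →L[ℂ] ℂ).comp
      (ContinuousLinearMap.proj b : (Fin 2 → EE g) →L[ℂ] EE g)).analyticAt x
  have hdot : ∀ (b : Fin 2) (w : EE g) (x : Fin 2 → EE g),
      AnalyticAt ℂ (fun ν : Fin 2 → EE g => ν b ⬝ᵥ w) x := fun b w x =>
    Finset.analyticAt_fun_sum _ fun a _ => (hco b a x).mul analyticAt_const
  have hev := rk_ev (L := fun ν : Fin 2 → EE g => pr ν ∘ₗ L) (p := p) fun ζ =>
    continuousAt_pi.2 fun b => continuousAt_pi.2 fun l => (hdot b (L ζ l) p).continuousAt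
  have hf : ∀ x : Fin 2 → EE g, AnalyticAt ℂ (fun ν : Fin 2 → EE g =>
      ν 0 (Fin.castLE hg 0) * ν 1 (Fin.castLE hg 1) -
        ν 0 (Fin.castLE hg 1) * ν 1 (Fin.castLE hg 0)) x := fun x =>
    ((hco _ _ x).mul (hco _ _ x)).sub ((hco _ _ x).mul (hco _ _ x))
  have hfr : ∃ᶠ ν in 𝓝 p, ¬ ((ν 0 (Fin.castLE hg 0) * ν 1 (Fin.castLE hg 1) -
      ν 0 (Fin.castLE hg 1) * ν 1 (Fin.castLE hg 0)) * (ν 0 ⬝ᵥ L u l) = 0) := by
    rw [← not_eventually]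
    intro h0
    rcases germ_mul_zero (hf p) (hdot 0 (L u l) p) h0 with h1 | h1
    · have := congrFun (entire_zero hf h1) fun b => ee (Fin.castLE hg b)
      simp at this
    · exact hl (congrFun (entire_zero (hdot 0 (L u l)) h1) fun _ => μ)
  obtain ⟨ν, h1, h2⟩ := (hfr.and_eventually hev).exists
  refine ⟨ν, Fintype.linearIndependent_iff.2 fun c hc => ?_,
    fun e => right_ne_zero_of_mul h1 (congrFun e l), hp.trans h2⟩
  have hd := left_ne_zero_of_mul h1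
  rw [Fin.sum_univ_two] at hc
  have e0 := congrFun hc (Fin.castLE hg 0)
  have e1 := congrFun hc (Fin.castLE hg 1)
  simp only [Pi.add_apply, Pi.smul_apply, smul_eq_mul, Pi.zero_apply] at e0 e1
  refine Fin.forall_fin_two.2 ⟨(mul_eq_zero.1 ?_).resolve_right hd,
    (mul_eq_zero.1 ?_).resolve_right hd⟩
  · linear_combination ν 1 (Fin.castLE hg 1) * e0 - ν 1 (Fin.castLE hg 0) * e1
  · linear_combination ν 0 (Fin.castLE hg 0) * e1 - ν 0 (Fin.castLE hg 1) * e0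

end Pool.Agent.MP_cf0a82_ag

end
end

section

open Complex Filter Topology Matrix Function

noncomputable section

namespace Pool.Agent.MP_cf0a82_ag

open Pool.Agent.MP_f58063_ag

/-- the relations between the coordinates of a vector valued germ -/
def xfaxsZ {X : Type} [TopologicalSpace X] {k : ℕ} (p : X) (w : X → Fin k → ℂ) :
    Submodule ℂ (Fin k → ℂ) where
  carrier := {c | ∀ᶠ e in 𝓝 p, ∑ l, c l * w e l = 0}
  add_mem' := fun {a b} ha hb => (Filter.Eventually.and ha hb).mono fun e he => by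
    simp only [Pi.add_apply, add_mul, Finset.sum_add_distrib, he.1, he.2, add_zero]
  zero_mem' := Filter.Eventually.of_forall fun e => by simp
  smul_mem' := fun c a ha => Filter.Eventually.mono ha fun e he => by
    simp only [Pi.smul_apply, smul_eq_mul, mul_assoc, ← Finset.mul_sum, he, mul_zero]

lemma xfaxs_ne {X : Type} [TopologicalSpace X] {k : ℕ} {p : X} {w : X → Fin k → ℂ}
    (h : w p ≠ 0) : xfaxsZ p w ≠ ⊤ := by
  classical
  intro h1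
  refine h (funext fun l => ?_)
  have h2 : (Pi.single l 1 : Fin k → ℂ) ∈ xfaxsZ p w := h1 ▸ Submodule.mem_top
  have h3 : ∑ l', (Pi.single l 1 : Fin k → ℂ) l' * w p l' = 0 :=
    Filter.Eventually.self_of_nhds (p := fun e => ∑ l', (Pi.single l 1 : Fin k → ℂ) l' * w e l' = 0)
      h2
  simpa [Pi.single_apply] using h3

lemma xfaxs_pr {X : Type} [NormedAddCommGroup X] [NormedSpace ℂ X] {g k : ℕ} {p : X}
    {ν : X → Fin 2 → EE g} {w : X → Fin k → EE g} (hν : AnalyticAt ℂ ν p)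
    (hw : AnalyticAt ℂ w p) (b : Fin 2) (l : Fin k) :
    AnalyticAt ℂ (fun e => pr (ν e) (w e) b l) p :=
  Finset.analyticAt_fun_sum (f := fun a e => ν e b a * w e l a) Finset.univ fun a _ =>
    (analyticAt_pi_iff.1 (analyticAt_pi_iff.1 hν b) a).mul
      (analyticAt_pi_iff.1 (analyticAt_pi_iff.1 hw l) a)

lemma xfaxs_proj {g : ℕ} {Z : Type} [NormedAddCommGroup Z] [NormedSpace ℂ Z] (p : E2 g Z) :
    AnalyticAt ℂ (fun e : E2 g Z => (e.1, e.2.1)) p :=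
  analyticAt_fst.prod (AnalyticAt.comp (f := fun e : E2 g Z => e.2) analyticAt_fst analyticAt_snd)

lemma xfaxs_main {g k ρ : ℕ} (B : Box g) (hg : 2 ≤ g) {Z : Type} [NormedAddCommGroup Z]
    [NormedSpace ℂ Z] [FiniteDimensional ℂ Z] {U : Set (DD g × Z)} (hU : IsOpen U)
    (hB : ∀ e ∈ U, e.1 ∈ B.ball) {z : DD g × Z → Fin k → EE g}
    (hz : ∀ e ∈ U, ∀ l, B.NS Prod.fst (fun e => z e l) e) {u : DD g × Z → Z}
    (hu : AnalyticOnNhd ℂ u U)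
    (hH : ∀ O ⊆ U, IsOpen O → O.Nonempty → ∃ e ∈ O, H1 B.ψ z e ∧ H2 B.ψ z (u e) e)
    {p : E2 g Z} (hpU : (p.1, p.2.1) ∈ U) (hq0 : LinearIndependent ℂ p.2.2)
    (hw0 : pr (B.nu p) (vd z (p.1, p.2.1) (u (p.1, p.2.1))) 0 ≠ 0)
    (hρ : ρ ≤ rk (pr (B.nu p) ∘ₗ vd z (p.1, p.2.1)))
    (hc' : 2 * k + 2 * g ≤ NN g + ρ + 3) : False := by
  classical
  have hg0 : 0 < g := by omega
  have hp : p.1 ∈ B.ball := hB _ hpU
  choose j hj using fun l => B.exists_ne hp (z (p.1, p.2.1) l)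
  have hza : ∀ e ∈ U, AnalyticAt ℂ z e := fun e he => analyticAt_pi_iff.2 fun l => (hz e he l).1
  have hevU : ∀ᶠ e : E2 g Z in 𝓝 p, (e.1, e.2.1) ∈ U :=
    (xfaxs_proj p).continuousAt.eventually (hU.mem_nhds hpU)
  have hevp : ∀ᶠ e : E2 g Z in 𝓝 p, e.1 ∈ B.ball := hevU.mono fun e he => hB _ he
  have hfst : ∀ {f : DD g → ℂ}, AnalyticAt ℂ f p.1 → AnalyticAt ℂ (fun e : E2 g Z => f e.1) p :=
    fun hf => AnalyticAt.comp hf analyticAt_fst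
  have hwa : ∀ l, AnalyticAt ℂ (fun e : E2 g Z =>
      pr (B.nu e) (vd z (e.1, e.2.1) (u (e.1, e.2.1))) 0 l) p := fun l =>
    xfaxs_pr (B.nu_an hp) (AnalyticAt.comp (g := fun x => vd z x (u x))
      (f := fun e : E2 g Z => (e.1, e.2.1)) (vd_an' (hza _ hpU) (hu _ hpU)) (xfaxs_proj p)) 0 l
  have hfr := freq_E2 (p := p) (hU.mem_nhds hpU) hH
  obtain ⟨σ, t₀, v, hσ0, hσ, hv, hτψ, hy⟩ := stage2 (k := k)
    ((Pi.basisFun ℂ (Fin (NN g))).prod (Module.finBasis ℂ (Z × (Fin 2 → EE g)))) p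
    (fun e => Matrix.of (B.ψ e.1)) (fun e => ψf B.c₀ (B.ψ e.1))
    (fun e => Vf B.c₀ B.cs (B.ψ e.1)) (fun e => B.P (B.ψ e.1)) (fun _ => rfl) (B.Um j z)
    (fun e => e.2.2)
    (fun a c => hfst (f := fun x => B.ψ x a c)
      (analyticAt_pi_iff.1 (analyticAt_pi_iff.1 (B.ψ_an hp) a) c))
    (fun a c => hfst (B.ψf_an hp a c)) (fun a c => hfst (B.V_an hp a c))
    (B.Um_an j hp (hz _ hpU) hj)
    (fun a c => NashAt.clm ((ContinuousLinearMap.proj c).comp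
      ((ContinuousLinearMap.proj (R := ℂ) (φ := fun _ : Fin 2 => EE g) a).comp
        ((ContinuousLinearMap.snd ℂ Z (Fin 2 → EE g)).comp
          (ContinuousLinearMap.snd ℂ (DD g) (Z × (Fin 2 → EE g)))))) p)
    (B.V_det hp) hq0
    (by
      filter_upwards [hevp] with e he
      refine ⟨?_, ψf_symm B.c₀ (B.mem _ he).2.1.1⟩
      ext a c
      exact (B.sieg he).1 c a)
    (fun i a c => B.nash_dP hg0 (Box.NB.fst hp) _ a c)
    (fun i a l => B.Um_nash j hg0 hp (hz _ hpU) hj _ a l)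
    (fun R hR => B.zar _ hp R hR)
    (xfaxsZ p fun e : E2 g Z => pr (B.nu e) (vd z (e.1, e.2.1) (u (e.1, e.2.1))) 0)
    (xfaxs_ne hw0)
    (fun c h => by
      refine zero_of_freq (f := fun e : E2 g Z =>
        ∑ l, c l * pr (B.nu e) (vd z (e.1, e.2.1) (u (e.1, e.2.1))) 0 l)
        (Finset.analyticAt_fun_sum _ fun l _ => analyticAt_const.mul (hwa l)) ?_
      refine (hfr.and_eventually (h.and (GF_le p hevU))).mono ?_
      rintro e ⟨h1, ⟨ξ, h2, h3, h4⟩, h5⟩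
      exact B.c2 j (hB _ h5) (hza _ h5) h1.2 h2 h3 h4)
    (by
      have h1 : ∀ᶠ e : E2 g Z in 𝓝 p, pr (B.nu e) (vd z (e.1, e.2.1) (u (e.1, e.2.1))) 0 ≠ 0 :=
        (continuousAt_pi.2 fun l => (hwa l).continuousAt).eventually_ne hw0
      have h2 := rk_ev (L := fun e : E2 g Z => pr (B.nu e) ∘ₗ vd z (e.1, e.2.1)) (p := p)
        fun ζ => continuousAt_pi.2 fun b => continuousAt_pi.2 fun l =>
          (xfaxs_pr (B.nu_an hp) (AnalyticAt.comp (g := fun x => vd z x ζ)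
            (f := fun e : E2 g Z => (e.1, e.2.1)) (vd_an (hza _ hpU) ζ) (xfaxs_proj p))
              b l).continuousAt
      refine (hfr.and_eventually (GF_le p (hevU.and (h1.and h2)))).mono ?_
      rintro e ⟨h3, h4, h5, h6⟩
      exact B.c3 j (hB _ h4) (hza _ h4) h3.1 h3.2 h5 (hρ.trans h6) hc')
    (LB p) (Algebra.adjoin_mono Set.subset_union_left)
    (fun a c => Algebra.subset_adjoin (Or.inr ⟨fun x => B.P (B.ψ x) a c, B.P_an hp a c, rfl⟩))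
    (fun c h => (B.hcj2 j hp (hz _ hpU) hj c h).mono fun e he => he _)
    (f := fun (ε : LL g → Fin 2) e => yq B.c₀ (hc ε) (B.ψ e.1))
    (fun ε => (B.nash_yq hg0 hp (B.hhc ε)).comp_fst) hevp
  have hσ1 := interior_subset hσ0
  exact B.no_curve (σ := fun t => (σ t).1) (u := v) (t₀ := t₀) hσ1
    (AnalyticAt.comp (f := σ) analyticAt_fst hσ) hv (fun a c => (hτψ a c).1)
    (fun a c => (hτψ a c).2) hy

/-- the Ax-Schanuel step -/
theorem Box.axs {g k ρ : ℕ} (B : Box g) (hg : 2 ≤ g) {Z : Type} [NormedAddCommGroup Z]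
    [NormedSpace ℂ Z] [FiniteDimensional ℂ Z] {U : Set (DD g × Z)} (hU : IsOpen U)
    (hB : ∀ e ∈ U, e.1 ∈ B.ball) {z : DD g × Z → Fin k → EE g}
    (hz : ∀ e ∈ U, ∀ l, B.NS Prod.fst (fun e => z e l) e) {u : DD g × Z → Z}
    (hu : AnalyticOnNhd ℂ u U) (hu0 : ∀ e ∈ U, vd z e (u e) ≠ 0)
    (hH : ∀ O ⊆ U, IsOpen O → O.Nonempty → ∃ e ∈ O, H1 B.ψ z e ∧ H2 B.ψ z (u e) e)
    (hρ : ∃ e ∈ U, ∃ ν : Fin 2 → EE g, ρ ≤ rk (pr ν ∘ₗ vd z e))
    (hc : 2 * k + 2 * g ≤ NN g + ρ + 3) : False := by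
  obtain ⟨e, he, hν⟩ := hρ
  obtain ⟨ν, h1, h2, h3⟩ := gen_nu hg (vd z e) (hu0 e he) hν
  have hV := (B.V_det (hB e he)).isUnit
  have h4 : B.nu (e.1, e.2, fun b => (Vf B.c₀ B.cs (B.ψ e.1))⁻¹ *ᵥ ν b) = ν := by
    funext b
    simp only [Box.nu, mulVec_mulVec, mul_nonsing_inv _ hV, one_mulVec]
  refine xfaxs_main B hg hU hB hz hu hH
    (p := (e.1, e.2, fun b => (Vf B.c₀ B.cs (B.ψ e.1))⁻¹ *ᵥ ν b)) he ?_ (h4.symm ▸ h2)
    (h4.symm ▸ h3) hc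
  refine LinearIndependent.of_comp (Vf B.c₀ B.cs (B.ψ e.1)).mulVecLin ?_
  rw [← h4] at h1
  exact h1

end Pool.Agent.MP_cf0a82_ag

end
end

section

open Complex Filter Topology Matrix Function

noncomputable section

namespace Pool.Agent.MP_cf0a82_ag

open Pool.Agent.MP_f58063_ag

variable {g k : ℕ} {B : Box g} {Z : Type} [NormedAddCommGroup Z] [NormedSpace ℂ Z]
  [FiniteDimensional ℂ Z] {U : Set (DD g × Z)} {x y : DD g × Z → Fin k → EE g}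
  {u : DD g × Z → Z}

omit [FiniteDimensional ℂ Z] in
lemma xifinal_x (h : Fam B U x y u) {e : DD g × Z} (he : e ∈ U) : AnalyticAt ℂ x e :=
  analyticAt_pi_iff.2 fun l => (h.nx e he l).1

omit [FiniteDimensional ℂ Z] in
lemma xifinal_y (h : Fam B U x y u) {e : DD g × Z} (he : e ∈ U) : AnalyticAt ℂ y e :=
  analyticAt_pi_iff.2 fun l => (h.ny e he l).1

lemma xifinal_h1 (h : Fam B U x y u) {e : DD g × Z} (he : e ∈ U) : H1 B.ψ x e :=
  h1_of_nor (h.mem e he) (xifinal_x h he) (Filter.mem_of_superset (h.op.mem_nhds he) h.nor)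

theorem Fam.not_rk (h : Fam B U x y u) (hg : 2 ≤ g) {ρ : ℕ}
    (hρ : ∃ e ∈ U, ∃ ν : Fin 2 → EE g, ρ ≤ rk (pr ν ∘ₗ vd y e))
    (hc : 2 * k + 2 * g ≤ NN g + ρ + 3) : False := by
  refine B.axs hg h.op h.mem h.ny h.au h.dy (fun O hO h1 h2 => ?_) hρ hc
  obtain ⟨e, he, hm⟩ := h.ml O hO h1 h2
  have a := xifinal_x h (hO he)
  have b := xifinal_y h (hO he)
  exact ⟨e, he, hm.h1 (h.mem e (hO he)) a b (xifinal_h1 h (hO he)),
    hm.h2 (h.mem e (hO he)) a b (h.dx e (hO he))⟩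

theorem Fam.not_lt (h : Fam B U x y u) (hk : 2 ≤ k) (hg : k < g) : False := by
  obtain ⟨e, he⟩ := h.ne
  exact h.not_rk (by omega) ⟨e, he, one_le_rk _ (h.dy e he)⟩ (count_one hg)

theorem Fam.not_swap (h : Fam B U x y u) (hk : 2 ≤ k) (hg : k = g) (hb : Big U x)
    {e₀ : DD g × Z} (he : e₀ ∈ U) {u' : DD g × Z → Z} (hu : AnalyticAt ℂ u' e₀)
    (h0 : ∀ᶠ e in 𝓝 e₀, vd y e (u' e) = 0) (h1 : vd x e₀ (u' e₀) ≠ 0) : False := by
  subst hg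
  obtain ⟨i, hi⟩ := hb
  let O := interior {e | e ∈ U ∧ AnalyticAt ℂ u' e ∧ vd y e (u' e) = 0 ∧ vd x e (u' e) ≠ 0}
  have hO : ∀ e ∈ O, e ∈ U ∧ AnalyticAt ℂ u' e ∧ vd y e (u' e) = 0 ∧ vd x e (u' e) ≠ 0 :=
    fun e he => (interior_subset he :)
  have hOU : O ⊆ U := fun e he => (hO e he).1
  have h2 : e₀ ∈ O := by
    refine mem_interior_iff_mem_nhds.2 ?_
    filter_upwards [h.op.mem_nhds he, hu.eventually_analyticAt, h0,
      (vd_an' (xifinal_x h he) hu).continuousAt.eventually_ne h1] with e a b c d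
    exact ⟨a, b, c, d⟩
  have key : ∀ ρ, (∃ e ∈ O, ∃ ν : Fin 2 → EE k, ρ ≤ rk (pr ν ∘ₗ vd x e)) →
      2 * k + 2 * k ≤ NN k + ρ + 3 → False := fun ρ hρ hc => by
    refine B.axs hk isOpen_interior (fun e he => h.mem e (hOU he)) (fun e he => h.nx e (hOU he))
      (fun e he => (hO e he).2.1) (fun e he => (hO e he).2.2.2) (fun O' a b c => ?_) hρ hc
    obtain ⟨e, he, hm⟩ := h.ml O' (a.trans hOU) b c
    have d := hOU (a he)
    exact ⟨e, he, xifinal_h1 h d,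
      hm.symm.h2 (h.mem e d) (xifinal_y h d) (xifinal_x h d) (hO e (a he)).2.2.1⟩
  rcases hk.eq_or_lt with h3 | h3
  · refine key 2 ⟨e₀, h2, two_le_rk hk _ (hi e₀ he)⟩ ?_
    subst h3
    decide
  obtain ⟨e, a, hm⟩ := h.ml O hOU isOpen_interior ⟨e₀, h2⟩
  have d := hOU a
  by_cases h4 : ∀ ν : Fin 2 → EE k, rk (pr ν ∘ₗ vd x e) ≤ 2
  · rcases rho3 _ h4 with h5 | ⟨r, hr⟩
    · have := le_rk_of_onto _ (hi e d)
      omega
    · exact hm.newton le_rfl (h.mem e d) (xifinal_x h d) (xifinal_y h d) (hO e a).2.2.1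
        (hO e a).2.2.2 hr (hi e d)
  · push Not at h4
    exact key 3 ⟨e, a, h4⟩ count_three

theorem Fam.not_big (h : Fam B U x y u) (hk : 2 ≤ k) (hg : k = g) (hb : Big U x) : False := by
  obtain ⟨V, hV, h1, ⟨e, he⟩, h2⟩ := rk_max (L := fun e => vd y e) h.op h.ne
    fun e he ζ => (vd_an (xifinal_y h he) ζ).continuousAt
  have d := hV he
  by_cases h3 : ∀ ζ, vd y e ζ = 0 → vd x e ζ = 0
  · subst hg
    obtain ⟨i, hi⟩ := hb
    have h4 := rk_lt_of_ker _ _ h3 (h.dx e d) (h.dy e d)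
    have h5 := le_rk_of_onto _ (hi e d)
    by_cases h6 : ∀ ν : Fin 2 → EE k, rk (pr ν ∘ₗ vd y e) ≤ 2
    · rcases rho3 _ h6 with h7 | ⟨r, hr⟩
      · omega
      · have := rk_le_of_line _ hr
        omega
    · push Not at h6
      exact h.not_rk hk ⟨e, d, h6⟩ count_three
  · push Not at h3
    obtain ⟨ζ, a, b⟩ := h3
    obtain ⟨u', c1, c2, c3⟩ := ker_field (L := fun e => vd y e) (p := e)
      (fun ζ => vd_an (xifinal_y h d) ζ)
      (Filter.mem_of_superset (h.op.mem_nhds d) (h2 e he)) a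
    exact h.not_swap hk hg hb d c1 c3 (c2 ▸ b)

end Pool.Agent.MP_cf0a82_ag

end
end

section

open Complex Filter Topology Matrix Function

noncomputable section

namespace Pool.Agent.MP_cf0a82_ag

open Pool.Agent.MP_f58063_ag

theorem xdexc_loc {N : ℕ} {W : Type} [NormedAddCommGroup W] [NormedSpace ℂ W]
    [FiniteDimensional ℂ W] {ι : Type} [Fintype ι] (b : Module.Basis ι ℂ ((Fin N → ℂ) × W))
    {Ω : Set ((Fin N → ℂ) × W)} {R : Set ((Fin N → ℂ) × W → ℂ)} (hR : NR b Ω R)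
    (h1 : ∀ j, (fun q : (Fin N → ℂ) × W => q.1 j) ∈ R) {q : (Fin N → ℂ) × W} (hq : q ∈ Ω)
    (hb : ¬ ∀ ξ, ∃ η, Tan R q (ξ, η)) :
    ∃ t : Σ r : ℕ, Fin r → R, (∀ j, (t.2 j).1 q = 0) ∧ ∃ Q : MvPolynomial (Fin N) ℂ, Q ≠ 0 ∧
      ∀ᶠ x in 𝓝[{x | ∀ j, (t.2 j).1 x = 0}] q, MvPolynomial.eval x.1 Q = 0 := by
  obtain ⟨r, n, h, σ, p, hh, hP, hle⟩ := hR.prm b hq
  refine ⟨⟨r, fun j => ⟨h j, (hh j).1⟩⟩, fun j => (hh j).2, ?_⟩
  by_contra hn
  refine hb fun ξ => ?_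
  have h2 := nim (f := fun s => (σ s).1) (p := p) (fun j => hP.ns
    ((ContinuousLinearMap.proj j).comp (ContinuousLinearMap.fst ℂ (Fin N → ℂ) W)))
    fun P hP' => by_contra fun h0 => hn ⟨P, h0, hle hP'⟩
  have := GF_neBot p
  obtain ⟨s, h3, h4⟩ := (h2.and ((hP.rnk (Fin N) _ h1).filter_mono (GF_le p))).exists
  have h5 : LinearMap.range (fderiv ℂ (fun s => (σ s).1) p : (Fin n → ℂ) →ₗ[ℂ] Fin N → ℂ) = ⊤ := by
    refine Submodule.eq_top_of_finrank_eq ((Submodule.finrank_le _).antisymm (le_trans ?_ h4))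
    have h6 : LinearMap.range (fderiv ℂ (fun s => (σ s).1) s : (Fin n → ℂ) →ₗ[ℂ] Fin N → ℂ) = ⊤ :=
      LinearMap.range_eq_top.2 h3
    exact ((finrank_top ℂ _).symm.trans (congrArg (fun V : Submodule ℂ (Fin N → ℂ) =>
      Module.finrank ℂ V) h6.symm)).le
  obtain ⟨w, hw⟩ := LinearMap.range_eq_top.1 h5 ξ
  rw [fderiv.fst hP.an.differentiableAt] at hw
  exact ⟨(fderiv ℂ σ p w).2, (hP.tan _).2 ⟨w, Prod.ext hw rfl⟩⟩

/-- the points where the manifold cut out by the ring does not dominate the base lie over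
countably many hypersurfaces -/
theorem NR.exc {N : ℕ} {W : Type} [NormedAddCommGroup W] [NormedSpace ℂ W]
    [FiniteDimensional ℂ W] {ι : Type} [Fintype ι] (b : Module.Basis ι ℂ ((Fin N → ℂ) × W))
    {Ω : Set ((Fin N → ℂ) × W)} {R : Set ((Fin N → ℂ) × W → ℂ)} (hR : NR b Ω R)
    (h1 : ∀ j, (fun q : (Fin N → ℂ) × W => q.1 j) ∈ R) :
    ∃ 𝒬 : Set (MvPolynomial (Fin N) ℂ), 𝒬.Countable ∧ (∀ Q ∈ 𝒬, Q ≠ 0) ∧
      ∀ q ∈ Ω, (∀ Q ∈ 𝒬, MvPolynomial.eval q.1 Q ≠ 0) → ∀ ξ, ∃ η, Tan R q (ξ, η) := by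
  have : SecondCountableTopology ((Fin N → ℂ) × W) := by
    have : ProperSpace ((Fin N → ℂ) × W) := FiniteDimensional.proper ℂ _
    infer_instance
  have := hR.ct.to_subtype
  have key : ∀ t : Σ r : ℕ, Fin r → R, ∃ 𝒬 : Set (MvPolynomial (Fin N) ℂ), 𝒬.Countable ∧
      (∀ Q ∈ 𝒬, Q ≠ 0) ∧ ∀ q : (Fin N → ℂ) × W, ((∀ j, (t.2 j).1 q = 0) ∧
        ∃ Q : MvPolynomial (Fin N) ℂ, Q ≠ 0 ∧ ∀ᶠ x in 𝓝[{x | ∀ j, (t.2 j).1 x = 0}] q,
          MvPolynomial.eval x.1 Q = 0) → ∃ Q ∈ 𝒬, MvPolynomial.eval q.1 Q = 0 := fun t => by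
    generalize hS : {q : (Fin N → ℂ) × W | (∀ j, (t.2 j).1 q = 0) ∧
        ∃ Q : MvPolynomial (Fin N) ℂ, Q ≠ 0 ∧ ∀ᶠ x in 𝓝[{x | ∀ j, (t.2 j).1 x = 0}] q,
          MvPolynomial.eval x.1 Q = 0} = S
    have h2 : ∀ q ∈ S, ∃ Q : MvPolynomial (Fin N) ℂ, Q ≠ 0 ∧
        {x | MvPolynomial.eval x.1 Q = 0} ∈ 𝓝[S] q := by
      subst hS
      rintro q ⟨-, Q, h0, hQ⟩
      exact ⟨Q, h0, nhdsWithin_mono _ (fun x hx => hx.1) hQ⟩
    choose! Q hQ hQ' using h2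
    obtain ⟨T, hT, hc, hcov⟩ := TopologicalSpace.countable_cover_nhdsWithin hQ'
    refine ⟨Q '' T, hc.image _, ?_, fun q hq => ?_⟩
    · rintro _ ⟨q, hq, rfl⟩
      exact hQ q (hT hq)
    · obtain ⟨x, hx, hx'⟩ := Set.mem_iUnion₂.1 (hcov (hS.le hq))
      exact ⟨_, ⟨x, hx, rfl⟩, hx'⟩
  choose 𝒬 hc h0 hv using key
  refine ⟨⋃ t, 𝒬 t, Set.countable_iUnion hc, fun Q hQ => ?_, fun q hq hQ => by_contra fun hb => ?_⟩
  · obtain ⟨t, ht⟩ := Set.mem_iUnion.1 hQ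
    exact h0 t Q ht
  · obtain ⟨t, ht⟩ := xdexc_loc b hR h1 hq hb
    obtain ⟨Q, h2, h3⟩ := hv t q ht
    exact hQ Q (Set.mem_iUnion.2 ⟨t, h2⟩) h3

end Pool.Agent.MP_cf0a82_ag

end
end

section

open Complex Filter Topology Matrix Function

noncomputable section

namespace Pool.Agent.MP_cf0a82_ag

open Pool.Agent.MP_f58063_ag

variable {g k : ℕ} {D : Fin g → ℕ} {τ : Mat g}

lemma xcred0_perm {n : ℕ} {A : Type} {f f' : Fin n → A}
    (h : ∑ i, ({f i} : Multiset A) = ∑ i, {f' i}) :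
    ∃ σ : Equiv.Perm (Fin n), ∀ i, f' (σ i) = f i := by
  classical
  have e : ∀ (f : Fin n → A) (c : A), Fintype.card {i // f i = c} =
      Multiset.count c (∑ i, ({f i} : Multiset A)) := fun f c => by
    rw [Fintype.card_subtype, Finset.card_filter, Multiset.count_sum']
    exact Finset.sum_congr rfl fun i _ => by simp only [Multiset.count_singleton, eq_comm]
  exact ⟨Equiv.ofFiberEquiv fun c => Fintype.equivOfCardEq ((e f c).trans (h ▸ (e f' c).symm)),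
    fun i => Equiv.ofFiberEquiv_map _ i⟩

lemma xcred0_card {n : ℕ} (p : Fin n → EE g) : Multiset.card (cyc D τ p) = n := by
  simp [cyc]

lemma xcred0_lift (z : Multiset (Tor D τ)) :
    ∀ n, Multiset.card z = n → ∃ p : Fin n → EE g, cyc D τ p = z := by
  induction z using Multiset.induction_on with
  | empty =>
    rintro _ rfl
    exact ⟨fun _ => 0, by simp [cyc]⟩
  | cons x z ih =>
    intro n hn
    obtain ⟨p, hp⟩ := ih _ rfl
    obtain ⟨y, rfl⟩ := QuotientAddGroup.mk_surjective x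
    rw [Multiset.card_cons] at hn
    subst hn
    refine ⟨Fin.cons y p, ?_⟩
    rw [← Multiset.singleton_add, cyc, Fin.sum_univ_succ]
    simpa [cyc] using hp

lemma xcred0_hol {n : ℕ} {Z : ℂ → Multiset (Tor D τ)} {t : ℂ} (h : HolAt D τ n Z t) :
    Multiset.card (Z t) = n := by
  obtain ⟨e, p, he, -, h⟩ := h
  have h1 := h.self_of_nhds
  rw [zero_pow he.ne', add_zero] at h1
  rw [h1, xcred0_card]

lemma xcred0_append {b : ℕ} (a : Fin k → EE g) (β : Fin b → EE g) :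
    cyc D τ (Fin.append a β) = cyc D τ a + cyc D τ β := by
  simp only [cyc, Fin.sum_univ_add, Fin.append_left, Fin.append_right]

theorem lat_le (D : Fin g → ℕ) (τ : Mat g) : lat D τ ≤ latG τ := by
  refine (AddSubgroup.closure_le _).2 ?_
  rintro _ (⟨j, rfl⟩ | ⟨j, rfl⟩)
  · refine ⟨Pi.single j (D j), 0, funext fun i => ?_⟩
    by_cases h : i = j
    · subst h
      simp
    · simp [h]
  · refine ⟨0, Pi.single j 1, funext fun i => ?_⟩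
    simp [Pi.single_apply]

theorem CEq_of_cyc {n : ℕ} {q q' : Fin n → EE g} (h : cyc D τ q = cyc D τ q') : CEq τ q q' := by
  obtain ⟨σ, hσ⟩ := xcred0_perm h
  refine ⟨σ, fun i => ?_⟩
  obtain ⟨m, l, h1⟩ := lat_le D τ (QuotientAddGroup.eq.1 (hσ i).symm)
  exact ⟨m, l, neg_add_eq_iff_eq_add.1 h1⟩

/-- rational equivalences descend to the principally polarized torus -/
theorem ratI_of_ratEq {a a' : Fin k → EE g} (h : RatEq D τ (cyc D τ a) (cyc D τ a')) :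
    RatI τ a a' := by
  obtain ⟨n, Z, Z', β, hZ, hZ', hs, h0, h0'⟩ := h
  obtain ⟨b, hb⟩ : ∃ b, Multiset.card β = b := ⟨_, rfl⟩
  obtain ⟨β', rfl⟩ := xcred0_lift β b hb
  obtain rfl : n = k + b := by
    rw [← xcred0_hol (hZ 0), h0, Multiset.card_add, xcred0_card, xcred0_card]
  choose W hW using fun t => xcred0_lift (Z t) _ (xcred0_hol (hZ t))
  choose W' hW' using fun s => xcred0_lift (Z' s) (k + b) (by
    by_cases h : s = 0
    · rw [h, xcred0_hol hZ']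
    · rw [hs s h, xcred0_hol (hZ _)])
  have hol : ∀ (Z : ℂ → Multiset (Tor D τ)) (W : ℂ → Fin (k + b) → EE g),
      (∀ t, cyc D τ (W t) = Z t) → ∀ t, HolAt D τ (k + b) Z t → HolI τ W t := by
    rintro Z W hW t ⟨e, p, he, hp, h⟩
    exact ⟨e, p, he, hp, h.mono fun s h1 => CEq_of_cyc ((hW _).trans h1)⟩
  exact ⟨b, β', W, W', fun t => hol Z W hW t (hZ t), hol Z' W' hW' 0 hZ',
    fun s h => CEq_of_cyc (D := D) (by rw [hW, hW', hs s h]),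
    CEq_of_cyc (D := D) (by rw [hW, h0, xcred0_append]),
    CEq_of_cyc (D := D) (by rw [hW', h0', xcred0_append])⟩

end Pool.Agent.MP_cf0a82_ag

end
end

section

open Complex Filter Topology Matrix Function

noncomputable section

namespace Pool.Agent.MP_cf0a82_ag

open Pool.Agent.MP_f58063_ag

variable {g k : ℕ}

lemma ximain_mono {X : Type} [NormedAddCommGroup X] [NormedSpace ℂ X] {S T : Set X} {p : X}
    {n : ℕ} (hST : S ⊆ T) (h : DimGE S p n) : DimGE T p n := by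
  obtain ⟨f, h0, h1, h2, h3⟩ := h
  exact ⟨f, h0, h1, h2, h3.mono fun _ hx => hST hx⟩

lemma ximain_self {X : Type} [NormedAddCommGroup X] [NormedSpace ℂ X] {S : Set X} {p : X}
    {n : ℕ} (h : DimGE S p n) : p ∈ S := by
  obtain ⟨f, h0, -, -, h3⟩ := h
  exact h0 ▸ h3.self_of_nhds

lemma ximain_pt (hg : 0 < g) {B : Box g} (A : Atl B) {x : DD g} (hx : x ∈ B.ball)
    {D : Fin g → ℕ} {a : EE g} (ha : a ∈ ZA D (B.ψ x) k) :
    ∃ (δ : Dat B k) (q : DD g × δ.W) (i : Fin k), δ.S2 A q ∧ q.1 = x ∧ δ.px A q i = a := by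
  obtain ⟨X, ⟨i, hi⟩, h0, Y, hY⟩ := ha
  obtain ⟨δ, q, h1, h2, h3⟩ := lev1 hg A hx (X := X) (Y := Y)
    (ximain_mono (fun y hy => ratI_of_ratEq hy) hY) h0
  exact ⟨δ, q, i, h1, h2, by rw [h3, hi]⟩

theorem not_dim_of_lt (h : g < k) (S : Set (Fin g → ℂ)) (p : Fin g → ℂ) : ¬ DimGE S p k := by
  rintro ⟨f, -, -, h2, -⟩
  have := LinearMap.finrank_le_finrank_of_injective
    (f := (fderiv ℂ f 0 : (Fin k → ℂ) →ₗ[ℂ] (Fin g → ℂ))) h2
  simp only [Module.finrank_fintype_fun_eq_card, Fintype.card_fin] at this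
  omega

theorem ev_of_dim {S : Set (Fin g → ℂ)} {p : Fin g → ℂ} (h : DimGE S p g) :
    ∀ᶠ a in 𝓝 p, a ∈ S := by
  obtain ⟨f, h0, h1, h2, h3⟩ := h
  have hs : Surjective (fderiv ℂ f 0 : (Fin g → ℂ) →ₗ[ℂ] (Fin g → ℂ)) :=
    LinearMap.injective_iff_surjective.1 h2
  have hm := h1.hasStrictFDerivAt.map_nhds_eq_of_surj (LinearMap.range_eq_top.2 hs)
  rw [← h0, ← hm]
  exact h3

theorem box_main (hk : 2 ≤ k) (hg : k ≤ g) (B : Box g) :
    ∃ 𝒬 : Set (MvPolynomial (Fin (NN g)) ℂ), 𝒬.Countable ∧ (∀ Q ∈ 𝒬, Q ≠ 0) ∧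
      ∀ x ∈ B.ball, (∀ Q ∈ 𝒬, MvPolynomial.eval x Q ≠ 0) →
        ∀ (D : Fin g → ℕ) (p : Fin g → ℂ), ¬ DimGE (ZA D (B.ψ x) k) p k := by
  have h0 : 0 < g := by omega
  obtain ⟨A⟩ := atl_exists h0 B
  choose 𝒬 hc hne hQ using fun δ : Dat B k =>
    NR.exc _ (δ.R_spec A h0).1 fun j => (δ.R_spec A h0).2
      (Or.inl (Or.inl (Or.inr ⟨j, rfl⟩)))
  refine ⟨⋃ δ, 𝒬 δ, Set.countable_iUnion hc, fun Q h => ?_, fun x hx h D p hp => ?_⟩
  · obtain ⟨δ, h⟩ := Set.mem_iUnion.1 h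
    exact hne δ Q h
  have key : ∀ (δ : Dat B k) (q : DD g × δ.W), δ.S2 A q → q.1 = x →
      ∀ ξ, ∃ η, Tan (δ.R A) q (ξ, η) := fun δ q h1 h2 =>
    hQ δ q h1.1.1.mem fun Q h' => by
      rw [h2]
      exact h Q (Set.mem_iUnion.2 ⟨δ, h'⟩)
  rcases hg.lt_or_eq with hlt | heq
  · obtain ⟨δ, q, -, h1, h2, -⟩ := ximain_pt h0 A hx (ximain_self hp)
    obtain ⟨m, U, x', y', u, hF, -⟩ := fam_of_point h0 h1 (key δ q h1 h2)
    exact hF.not_lt hk hlt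
  · have hev : ∀ᶠ a in 𝓝 p, a ∈ ZA D (B.ψ x) k := ev_of_dim (heq ▸ hp)
    obtain ⟨δ, q, h1, h2, h3⟩ := lev2 h0 A (hev.mono fun a ha => ximain_pt h0 A hx ha)
    obtain ⟨m, U, x', y', u, hF, hb⟩ := fam_of_point h0 h1 (key δ q h1 h2)
    exact hF.not_big hk heq (hb h3)

theorem main (g k : ℕ) (hk : 2 ≤ k) :
    ∃ 𝓕 : Set (Subgroup (Sp g) × (Mat g → ℂ) × (Mat g → ℂ)), 𝓕.Countable ∧
      (∀ F ∈ 𝓕, F.1.FiniteIndex ∧ IsModFun F.1 F.2.1 F.2.2 ∧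
        ∃ τ ∈ Siegel g, F.2.1 τ ≠ 0 ∧ F.2.2 τ ≠ 0) ∧
      ∀ τ ∈ Siegel g, (∀ F ∈ 𝓕, F.2.2 τ ≠ 0 → F.2.1 τ ≠ 0) →
        ∀ (D : Fin g → ℕ) (p : Fin g → ℂ), ¬ DimGE (ZA D τ k) p k := by
  rcases lt_or_ge g k with hg | hg
  · exact ⟨∅, Set.countable_empty, fun _ h => h.elim, fun _ _ _ D p => not_dim_of_lt hg _ _⟩
  obtain ⟨B, hB⟩ := box_cover g
  choose 𝒬 hc hne hQ using fun n => box_main hk hg (B n)
  choose h t hm hex hall using fun s : Σ n : ℕ, 𝒬 n => (B s.1).modq (hne s.1 s.2.1 s.2.2)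
  have : ∀ n, Countable (𝒬 n) := fun n => (hc n).to_subtype
  refine ⟨Set.range fun s : Σ n : ℕ, 𝒬 n => (Gam g (2 * (B s.1).N ^ 2), h s, t s),
    Set.countable_range _, ?_, fun τ hτ hF D p => ?_⟩
  · rintro _ ⟨s, rfl⟩
    have := (B s.1).hN
    exact ⟨Gam_finiteIndex g (by positivity), hm s, hex s⟩
  · obtain ⟨n, x, hx, rfl⟩ := hB τ hτ
    refine hQ n x hx (fun Q hQ' => ?_) D p
    obtain ⟨h1, h2⟩ := hall ⟨n, Q, hQ'⟩ x hx
    exact h2 (hF _ ⟨⟨n, Q, hQ'⟩, rfl⟩ h1)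

end Pool.Agent.MP_cf0a82_ag

end
end
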